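import Pool.Agent.Lib.MP_1a91b9_ntQ.A.ClmE

/-!
# Quartic twists, part A, file EvB: the residue polynomials of the even classes

`CE2 s h f g T A`: the coefficient `CZ` of the weights with the vector `h` on `T` and `f + X g` on `A`.
-/

set_option autoImplicit false
set_option linter.unusedSectionVars false

namespace Pool.Agent.Lib.MP_1a91b9_ntQ

open Finset MvPolynomial
open Pool.Agent.Lib.MP_1a91b9_ntK (NM NM_congr NM_empty NM_adj NM_update NM_zero forest
  CZ CZ_eq forest_zero)

variable {ι : Type*} [DecidableEq ι] {R : Type*} [CommRing R]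

/-- the vector -/
noncomputable def vE2 (h f g : ι → R) (A : Finset ι) (p : ι) : MvPolynomial ι R :=
  if p ∈ A then C (f p) + X p * C (g p) else C (h p)

/-- the residue polynomials -/
noncomputable def CE2 (s : ι → ι → R) (h f g : ι → R) (T A : Finset ι) : MvPolynomial ι R :=
  CZ (mwE s A) (vE2 h f g A) (T ∪ A)

/-- **(V1)** -/
theorem CE2_step (s : ι → ι → R) (h f g : ι → R) {T A : Finset ι} (hTA : Disjoint T A) {b : ι}
    (hb : b ∈ A) (h0 : (T ∪ A.erase b).Nonempty) {E : Finset ι} (hE : b ∉ E) :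
    cf (CE2 s h f g T A) E = cf (wE s 0 T (A.erase b) b * CE2 s h f g T (A.erase b)) E := by
  have e0 := erase_union_right hTA hb
  have h1 : z1 b (CE2 s h f g T A) = wE s 0 T (A.erase b) b * CE2 s h f g T (A.erase b) := by
    rw [CE2, CZ_map, CZ_col _ _ (mem_union_right T hb) (fun i _ _ => by
      rw [z1_mwE, if_pos ⟨rfl, hb⟩]) (by rw [e0]; exact h0), e0,
      wE_eq s 0 (disjoint_of_subset_right (erase_subset _ _) hTA), CE2]
    have hne : ∀ p ∈ T ∪ A.erase b, p ≠ b := by
      intro p hp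
      rw [← e0] at hp
      exact ne_of_mem_erase hp
    refine congrArg₂ (· * ·) ?_ ?_
    · rw [Pi.zero_apply, C_0, zero_add]
      exact sum_congr rfl fun p hp => z1_mwE_of s A (hne p hp)
    · refine CZ_congr2 (fun x _ p hp _ => z1_mwE_of s A (hne p hp)) fun x hx => ?_
      have hxb := hne x hx
      rw [vE2, vE2]
      by_cases hA : x ∈ A
      · rw [if_pos hA, if_pos (mem_erase.2 ⟨hxb, hA⟩), map_add, map_mul, z1_X, if_neg hxb, z1_C,
          z1_C]
      · rw [if_neg hA, if_neg fun h => hA (mem_of_mem_erase h), z1_C]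
  rw [← cf_z1 b _ hE, h1]

theorem CE2_single (s : ι → ι → R) (h f g : ι → R) (b : ι) :
    CE2 s h f g ∅ {b} = C (f b) + X b * C (g b) := by
  rw [CE2, empty_union, CZ_eq, sum_singleton]
  have h1 : ({b} : Finset ι).erase b = ∅ := by simp
  rw [h1, NM_empty, mul_one, vE2, if_pos (mem_singleton_self b)]

theorem CE2_single' (s : ι → ι → R) (h f g : ι → R) (b : ι) : cf (CE2 s h f g ∅ {b}) ∅ = f b := by
  rw [CE2_single, cf_add, cf_C, if_pos rfl, cf_X_mul, if_neg (notMem_empty b), add_zero]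

theorem CZ_mem (m : ι → ι → MvPolynomial ι R) (v : ι → MvPolynomial ι R) (S : Finset ι)
    (U : Subalgebra R (MvPolynomial ι R)) (h1 : ∀ x ∈ S, ∀ p ∈ S, m x p ∈ U)
    (h2 : ∀ x ∈ S, v x ∈ U) : CZ m v S ∈ U := by
  rw [CZ_eq]
  refine Subalgebra.sum_mem _ fun r hr => Subalgebra.mul_mem _ (h2 r hr) ?_
  exact NM_mem _ _ _ _ (fun x hx p hp => h1 x (mem_of_mem_erase hx) p (mem_of_mem_erase hp))
    fun x hx => h1 x (mem_of_mem_erase hx) r hr

theorem mv_neg_one : (-1 : MvPolynomial ι (ZMod 2)) = 1 := by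
  have h : (-1 : ZMod 2) = 1 := by decide
  rw [← C_1, ← C_neg, h]

theorem mv_neg (z : MvPolynomial ι (ZMod 2)) : -z = z := by
  rw [← neg_one_mul, mv_neg_one, one_mul]

theorem mv_neg_pow (n : ℕ) (z w : MvPolynomial ι (ZMod 2)) : (-1) ^ n * z * w = z * w := by
  rw [mv_neg_one, one_pow, one_mul]

/-- **(V2)**, `C` not empty -/
theorem CE2_sum (s : ι → ι → ZMod 2) (h f g : ι → ZMod 2) {T A : Finset ι}
    (hTA : Disjoint T A) (h0 : A.Nonempty) :
    ∑ T' ∈ T.powerset, cf (CE2 s h f g T' A * ∏ x ∈ T \ T', wE s 0 T' A x) A =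
      if T = ∅ ∧ A.card = 1 then ∑ q ∈ A, g q else 0 := by
  have h1 := forest_zero (mwE s A) (vE2 h f g A) (S := T ∪ A) (h0.mono subset_union_right)
  rw [sum_congr rfl fun S _ => mv_neg_pow S.card _ _] at h1
  have h2 := congrArg (fun p => cf p A) h1
  have h3 : cf (if (T ∪ A).card = 1 then -∑ q ∈ T ∪ A, vE2 h f g A q
      else (0 : MvPolynomial ι (ZMod 2))) A = if T = ∅ ∧ A.card = 1 then ∑ q ∈ A, g q else 0 := by
    have hc : (T ∪ A).card = 1 ↔ T = ∅ ∧ A.card = 1 := by
      rw [card_union_of_disjoint hTA]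
      have := h0.card_pos
      rw [← card_eq_zero]
      omega
    by_cases h4 : T = ∅ ∧ A.card = 1
    · rw [if_pos (hc.2 h4), if_pos h4]
      obtain ⟨rfl, h5⟩ := h4
      obtain ⟨q, rfl⟩ := card_eq_one.1 h5
      rw [mv_neg, empty_union, sum_singleton, sum_singleton, vE2, if_pos (mem_singleton_self q),
        cf_add,
        cf_C, if_neg (singleton_ne_empty q), zero_add, cf_X_mul, if_pos (mem_singleton_self q)]
      have h6 : ({q} : Finset ι).erase q = ∅ := by simp
      rw [h6, cf_C, if_pos rfl]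
    · rw [if_neg (fun h5 => h4 (hc.1 h5)), if_neg h4, cf_zero]
  rw [h3, cf_sum] at h2
  have h4 : ∀ f : Finset ι → ZMod 2, f ∅ = 0 → ∑ S ∈ (T ∪ A).powerset.erase ∅, f S =
      ∑ S ∈ (T ∪ A).powerset, f S := by
    intro f hf
    rw [← add_sum_erase _ _ (empty_mem_powerset (T ∪ A)), hf, zero_add]
  rw [h4, sum_super hTA] at h2
  · rw [← h2]
    refine sum_congr rfl fun T' hT' => ?_
    have hT'A := disjoint_of_subset_left (mem_powerset.1 hT') hTA
    have e : ∏ x ∈ T \ T', wE s 0 T' A x = ∏ x ∈ T \ T', ∑ p ∈ T' ∪ A, mwE s A x p := by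
      refine prod_congr rfl fun x _ => ?_
      rw [wE_eq s 0 hT'A x, Pi.zero_apply, C_0, zero_add]
    rw [union_sdiff_union hTA, CE2, e]
  · intro S' _ hA
    rw [cf_supported (A := A ∩ S')]
    · refine Subalgebra.mul_mem _ (CZ_mem _ _ _ _ (fun x _ p hp => mwE_mem s A (A ∩ S')
        fun h => mem_inter.2 ⟨h, hp⟩) fun x hx => ?_) ?_
      · rw [vE2]
        split_ifs with h5
        · exact Subalgebra.add_mem _ (Subalgebra.algebraMap_mem _ _) (Subalgebra.mul_mem _
            (X_mem_supported.2 (mem_coe.2 (mem_inter.2 ⟨h5, hx⟩)))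
            (Subalgebra.algebraMap_mem _ _))
        · exact Subalgebra.algebraMap_mem _ _
      · have := term_mem s A (T ∪ A) S' (κ := 0) fun x => Subalgebra.zero_mem _
        simpa using this
    · exact fun h => hA fun x hx => (mem_inter.1 (h hx)).2
  · have h5 : CZ (mwE s A) (vE2 h f g A) ∅ = 0 := by
      rw [CZ_eq, sum_empty]
    rw [h5, zero_mul, cf_zero]

/-- **(V2)**, `C` empty -/
theorem CE2_sum0 (s : ι → ι → ZMod 2) (h f g : ι → ZMod 2) {T : Finset ι} (hT : T.Nonempty) :
    ∑ T' ∈ T.powerset.erase ∅, cf (CE2 s h f g T' ∅ * ∏ x ∈ T \ T', wE s 0 T' ∅ x) ∅ =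
      if T.card = 1 then ∑ q ∈ T, h q else 0 := by
  have h1 := forest_zero (mwE s ∅) (vE2 h f g ∅) hT
  rw [sum_congr rfl fun S _ => mv_neg_pow S.card _ _] at h1
  have h2 := congrArg (fun p => cf p ∅) h1
  have h3 : cf (if T.card = 1 then -∑ q ∈ T, vE2 h f g ∅ q
      else (0 : MvPolynomial ι (ZMod 2))) ∅ = if T.card = 1 then ∑ q ∈ T, h q else 0 := by
    split_ifs
    · rw [mv_neg, cf_sum]
      exact sum_congr rfl fun q _ => by rw [vE2, if_neg (notMem_empty q), cf_C, if_pos rfl]
    · exact cf_zero _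
  rw [h3, cf_sum] at h2
  rw [← h2]
  refine sum_congr rfl fun T' _ => ?_
  have e : ∏ x ∈ T \ T', wE s 0 T' ∅ x = ∏ x ∈ T \ T', ∑ p ∈ T', mwE s ∅ x p := by
    refine prod_congr rfl fun x _ => ?_
    rw [wE_eq s 0 (disjoint_empty_right T') x, Pi.zero_apply, C_0, zero_add, union_empty]
  rw [CE2, union_empty, e]

/-! ### The coefficient, `u = 0` on `A` -/

/-- Cramer's rule -/
theorem CZ_pdt (m : ι → ι → R) (v : ι → R) {S : Finset ι} {r0 : ι} (hr : r0 ∈ S) :
    CZ m v S = pdt (fun i j => if j = r0 then v i else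
      if i = j then ∑ p ∈ S.erase i, m i p else -m i j) S := by
  have h1 : CZ m v S = ((NM m 0 S).updateCol ⟨r0, hr⟩ (fun i => v i)).det := by
    rw [← Matrix.cramer_apply, Matrix.cramer_eq_adjugate_mulVec, CZ]
    simp only [Matrix.mulVec, dotProduct]
    refine sum_congr rfl fun r _ => ?_
    rw [adj_row (NM_mulVec_one m S) r ⟨r0, hr⟩ r, mul_comm]
  rw [h1, pdt]
  congr 1
  ext i j
  rw [Matrix.updateCol_apply, Matrix.of_apply]
  by_cases hj : j = ⟨r0, hr⟩
  · subst hj
    rw [if_pos rfl, if_pos rfl]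
  · have hj' : (j : ι) ≠ r0 := fun h => hj (Subtype.ext h)
    rw [if_neg hj, if_neg hj']
    by_cases hij : i = j
    · subst hij
      simp only [NM, if_true, Pi.zero_apply, zero_add]
    · have hij' : (i : ι) ≠ j := fun h => hij (Subtype.ext h)
      simp only [NM, if_neg hij, if_neg hij']

/-- the vector `g` does not matter -/
theorem cf_CE2_g (s : ι → ι → R) (h f g : ι → R) {T A : Finset ι} (hTA : Disjoint T A)
    (hT : T.Nonempty) :
    cf (CE2 s h f g T A) A = cf (CZ (mwE s A) (fun p => C (if p ∈ T then h p else f p)) (T ∪ A))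
      A := by
  have h1 : CE2 s h f g T A = CZ (mwE s A) (fun p => C (if p ∈ T then h p else f p)) (T ∪ A) +
      ∑ b ∈ A, C (g b) * (X b * (NM (mwE s A) (fun p => mwE s A p b) ((T ∪ A).erase b)).det) := by
    rw [CE2, CZ_eq, CZ_eq]
    have e1 : ∀ b ∈ T ∪ A, vE2 h f g A b = C (if b ∈ T then h b else f b) +
        (if b ∈ A then C (g b) * X b else 0) := by
      intro b hb
      rw [vE2]
      by_cases hA : b ∈ A
      · rw [if_pos hA, if_pos hA, if_neg fun h' => disjoint_left.1 hTA h' hA]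
        ring
      · rw [if_neg hA, if_neg hA, if_pos ((mem_union.1 hb).resolve_right hA), add_zero]
    rw [sum_congr rfl fun b hb => by rw [e1 b hb, add_mul], sum_add_distrib]
    refine congrArg₂ (· + ·) rfl ?_
    rw [← sum_subset (subset_union_right : A ⊆ T ∪ A)]
    · refine sum_congr rfl fun b hb => ?_
      rw [if_pos hb]
      ring
    · intro b _ hb
      rw [if_neg hb, zero_mul]
  rw [h1, cf_add, cf_sum, sum_eq_zero, add_zero]
  intro b hb
  rw [cf_C_mul, cf_X_mul, if_pos hb, ← cf_z1 b _ (notMem_erase b A), NM_map]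
  have h2 : ((T ∪ A).erase b).Nonempty := by
    obtain ⟨t, ht⟩ := hT
    exact ⟨t, mem_erase.2 ⟨fun h' => disjoint_left.1 hTA ht (h' ▸ hb), mem_union_left _ ht⟩⟩
  rw [NM_zero _ h2, cf_zero, mul_zero]
  intro i _
  rw [z1_mwE, if_pos ⟨rfl, hb⟩]

/-- the matrix of constants with the column `r0` replaced -/
def BBv (s : ι → ι → R) (h f : ι → R) (T : Finset ι) (r0 i j : ι) : R :=
  if j = r0 then (if i ∈ T then h i else f i) else BB s 0 T i j

/-- **(V3)** -/
theorem cf_CE2 (s : ι → ι → R) (h f g : ι → R) {T A : Finset ι} (hTA : Disjoint T A) {r0 : ι}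
    (hr : r0 ∈ T) (hu : ∀ b ∈ A, ∑ p ∈ T, s b p = 0) :
    cf (CE2 s h f g T A) A =
      ∑ J ∈ A.powerset, perE s J * pdt (BBv s h f T r0) (T ∪ (A \ J)) := by
  have hrA : r0 ∉ A := fun h' => disjoint_left.1 hTA hr h'
  let lf' : ι → MvPolynomial ι R := fun i => if i = r0 then 0 else lf s A i
  have h1 : CZ (mwE s A) (fun p => C (if p ∈ T then h p else f p)) (T ∪ A) =
      pdt (fun i j => C (BBv s h f T r0 i j) * (if j ∈ A then X j else 1) +
        if i = j then lf' i else 0) (T ∪ A) := by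
    rw [CZ_pdt _ _ (mem_union_left A hr)]
    refine pdt_congr fun i hi j hj => ?_
    by_cases hj0 : j = r0
    · subst hj0
      rw [if_pos rfl, BBv, if_pos rfl, if_neg hrA, mul_one]
      by_cases hij : i = j
      · rw [if_pos hij]
        show _ = _ + if i = j then 0 else _
        rw [if_pos hij, add_zero]
      · rw [if_neg hij, add_zero]
    · rw [if_neg hj0, BBv, if_neg hj0]
      by_cases hij : i = j
      · subst hij
        rw [if_pos rfl, if_pos rfl]
        show _ = _ + if i = r0 then 0 else _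
        rw [if_neg hj0]
        simp only [BB, if_true, Pi.zero_apply, zero_add]
        rcases mem_union.1 hi with hi | hi
        · have hiA : i ∉ A := fun h => disjoint_left.1 hTA hi h
          have h1 : (T ∪ A).erase i = T.erase i ∪ A := by
            rw [erase_union_distrib, erase_eq_of_notMem hiA]
          have h2 : Disjoint (T.erase i) A := disjoint_of_subset_left (erase_subset _ _) hTA
          rw [if_pos hi, if_neg hiA, mul_one, lf, erase_eq_of_notMem hiA, h1, sum_union h2,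
            map_sum]
          refine congrArg₂ (· + ·) ?_ ?_
          · exact sum_congr rfl fun p hp => by
              rw [mwE, if_neg (fun h => disjoint_left.1 h2 hp h)]
          · exact sum_congr rfl fun p hp => by rw [mwE, if_pos hp]
        · have hiT : i ∉ T := fun h => disjoint_left.1 hTA h hi
          have h1 : (T ∪ A).erase i = T ∪ A.erase i := by
            rw [erase_union_distrib, erase_eq_of_notMem hiT]
          have h2 : Disjoint T (A.erase i) := disjoint_of_subset_right (erase_subset _ _) hTA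
          rw [if_neg hiT, C_0, zero_mul, zero_add, h1, sum_union h2]
          have h3 : ∑ p ∈ T, mwE s A i p = ∑ p ∈ T, C (s i p) := sum_congr rfl fun p hp => by
            rw [mwE, if_neg (fun h => disjoint_left.1 hTA hp h)]
          rw [h3, ← map_sum, hu i hi, C_0, zero_add, lf]
          exact sum_congr rfl fun p hp => by rw [mwE, if_pos (mem_of_mem_erase hp)]
      · rw [if_neg hij, if_neg hij, add_zero, BB, if_neg hij, mwE]
        split_ifs
        · rw [C_neg]
          ring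
        · rw [C_neg, mul_one]
  rw [cf_CE2_g s h f g hTA ⟨r0, hr⟩, h1, pdt_diag, cf_sum]
  have key : ∀ J ⊆ T ∪ A, cf ((∏ x ∈ J, lf' x) *
      pdt (fun i j => C (BBv s h f T r0 i j) * (if j ∈ A then X j else 1)) ((T ∪ A) \ J)) A =
      pdt (BBv s h f T r0) ((T ∪ A) \ J) * cf (∏ x ∈ J, lf' x) (A ∩ J) := by
    intro J _
    rw [pdt_col, pdt_map C]
    have h1 : ∏ p ∈ (T ∪ A) \ J, (if p ∈ A then X p else 1 : MvPolynomial ι R) =
        ∏ p ∈ A \ J, X p := by
      rw [← prod_filter]
      refine prod_congr ?_ fun _ _ => rfl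
      ext x
      simp only [mem_filter, mem_sdiff, mem_union]
      tauto
    have h2 : (∏ x ∈ J, lf' x) * ((∏ p ∈ A \ J, X p) *
        C (pdt (BBv s h f T r0) ((T ∪ A) \ J))) =
        C (pdt (BBv s h f T r0) ((T ∪ A) \ J)) * ((∏ p ∈ A \ J, X p) * ∏ x ∈ J, lf' x) := by
      ring
    rw [h1, h2, cf_C_mul, cf_prodX, if_pos sdiff_subset, sdiff_sdiff_right_self]
    rfl
  rw [sum_congr rfl fun J hJ => key J (mem_powerset.1 hJ),
    ← sum_subset (powerset_mono.2 subset_union_right)]
  · refine sum_congr rfl fun J hJ => ?_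
    have hJA := mem_powerset.1 hJ
    have hJT : (T ∪ A) \ J = T ∪ (A \ J) := by
      rw [union_sdiff_distrib, sdiff_eq_self_of_disjoint (disjoint_of_subset_right hJA hTA)]
    have e1 : ∏ x ∈ J, lf' x = ∏ x ∈ J, lf s A x := by
      refine prod_congr rfl fun x hx => ?_
      have hx0 : x ≠ r0 := fun h' => hrA (h' ▸ hJA hx)
      exact if_neg hx0
    rw [hJT, inter_eq_right.2 hJA, mul_comm, perE, e1]
    exact congrArg (· * _) (cf_lf_congr s J (by rw [inter_eq_right.2 hJA, inter_self]))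
  · intro J hJ hJA
    have e1 : cf (∏ x ∈ J, lf' x) (A ∩ J) = 0 := by
      by_cases hrJ : r0 ∈ J
      · have e2 : lf' r0 = 0 := if_pos rfl
        rw [prod_eq_zero (i := r0) hrJ e2, cf_zero]
      · have e2 : ∏ x ∈ J, lf' x = ∏ x ∈ J, lf s A x := by
          refine prod_congr rfl fun x hx => ?_
          have hx0 : x ≠ r0 := fun h' => hrJ (h' ▸ hx)
          exact if_neg hx0
        rw [e2]
        refine cf_lf_lt s A J (card_lt_card (Finset.ssubset_iff_subset_ne.2
          ⟨inter_subset_right, fun h => hJA ?_⟩))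
        rw [mem_powerset, ← h]
        exact inter_subset_left
    rw [e1, mul_zero]

/-- the final matrix with the column `r0` replaced -/
def blkMv (s : ι → ι → R) (h f τ : ι → R) (T V : Finset ι) (r0 i j : ι) : R :=
  if j = r0 then (if i ∈ T then h i else f i) else blkM s 0 τ T V i j

/-- **(V4)** -/
theorem CE2_final [Nontrivial R] (s : ι → ι → R) (h f g τ : ι → R) {T V : Finset ι}
    (hTV : Disjoint T V) {r0 : ι} (hr : r0 ∈ T) (hu : ∀ b ∈ V, ∑ p ∈ T, s b p = 0) :
    ∑ A ∈ V.powerset, cf (CE2 s h f g T A) A * pdt (blkL s τ V) (V \ A) =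
      pdt (blkMv s h f τ T V r0) (T ∪ V) := by
  have hrV : r0 ∉ V := fun h' => disjoint_left.1 hTV hr h'
  let l : ι → R := fun i => τ i + ∑ p ∈ V.erase i, s i p
  have h1 : pdt (blkMv s h f τ T V r0) (T ∪ V) =
      ∑ J ∈ V.powerset, (∏ i ∈ J, l i) * pdt (BBv s h f T r0) (T ∪ (V \ J)) := by
    have h2 := pdt_diag_aux (BBv s h f T r0) l V (S := T ∪ V) subset_union_right
    have h3 : pdt (fun i j => BBv s h f T r0 i j + if i = j ∧ i ∈ V then l i else 0) (T ∪ V) =
        pdt (blkMv s h f τ T V r0) (T ∪ V) := by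
      refine pdt_congr fun i hi j _ => ?_
      rw [BBv, blkMv]
      by_cases hj : j = r0
      · have hneg : ¬ (i = j ∧ i ∈ V) := fun h' => hrV (by
          rw [← hj, ← h'.1]
          exact h'.2)
        rw [if_pos hj, if_pos hj, if_neg hneg, add_zero]
      · rw [if_neg hj, if_neg hj, BB, blkM]
        by_cases hij : i = j
        · rw [if_pos hij, if_pos hij]
          rcases mem_union.1 hi with h | h
          · have hV : i ∉ V := fun h' => disjoint_left.1 hTV h h'
            rw [if_pos h, if_pos h, if_neg (fun h' => hV h'.2), add_zero]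
          · have hT : i ∉ T := fun h' => disjoint_left.1 hTV h' h
            rw [if_neg hT, if_neg hT, if_pos ⟨hij, h⟩, zero_add]
        · rw [if_neg hij, if_neg hij, if_neg (fun h' => hij h'.1), add_zero]
    rw [← h3, h2]
    refine sum_congr rfl fun J hJ => ?_
    rw [union_sdiff_distrib, sdiff_eq_self_of_disjoint
      (disjoint_of_subset_right (mem_powerset.1 hJ) hTV)]
  rw [h1]
  refine conv_four (g := fun A => cf (CE2 s h f g T A) A) (per := perE s)
    (mB := fun A => pdt (BBv s h f T r0) (T ∪ A)) (mS := pdt (BB s 0 ∅)) (mL := pdt (blkL s τ V))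
    (l := fun J => ∏ i ∈ J, l i) ?_ ?_ ?_
  · intro A hA
    exact cf_CE2 s h f g (disjoint_of_subset_right hA hTV) hr fun b hb => hu b (hA hb)
  · intro A _
    exact perE_conv s A
  · intro A _
    rw [← pdt_diag]
    refine pdt_congr fun i _ j _ => ?_
    rw [blkL, BB]
    by_cases hij : i = j
    · rw [if_pos hij, if_pos hij, if_pos hij, if_neg (notMem_empty i), zero_add]
    · rw [if_neg hij, if_neg hij, if_neg hij, add_zero]

/-! ### Symmetric weights -/

/-- a row operation -/
theorem det_rowsum {n : Type*} [Fintype n] [DecidableEq n] (M : Matrix n n R) (v : n → R) (r : n)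
    (c : R) (hv : v r = 1) (h : Matrix.vecMul v M = Pi.single r c) :
    M.det = (M.updateRow r (Pi.single r c)).det := by
  have h1 : ((1 : Matrix n n R).updateRow r v).det = 1 := by
    rw [← Matrix.det_transpose, ← Matrix.updateCol_transpose, Matrix.transpose_one,
      ← Matrix.cramer_apply, Matrix.cramer_one]
    exact hv
  have h2 : (1 : Matrix n n R).updateRow r v * M = M.updateRow r (Pi.single r c) := by
    ext i j
    rw [Matrix.mul_apply, Matrix.updateRow_apply]
    by_cases hi : i = r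
    · subst hi
      rw [if_pos rfl, ← h, Matrix.vecMul, dotProduct]
      exact sum_congr rfl fun k _ => by rw [Matrix.updateRow_self]
    · rw [if_neg hi, sum_eq_single i]
      · rw [Matrix.updateRow_ne hi, Matrix.one_apply_eq, one_mul]
      · intro k _ hk
        rw [Matrix.updateRow_ne hi, Matrix.one_apply_ne (Ne.symm hk), zero_mul]
      · intro h'
        exact absurd (mem_univ _) h'
  rw [← h2, Matrix.det_mul, h1, one_mul]

theorem pdt_single (M : ι → ι → R) {S : Finset ι} {r : ι} (hr : r ∈ S) (c : R) :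
    ((Matrix.of fun i j : S => M i j).updateRow ⟨r, hr⟩ (Pi.single ⟨r, hr⟩ c)).det =
      c * pdt M (S.erase r) := by
  rw [det_single, pdt]
  congr 1
  let e : {i : S // ¬ i = ⟨r, hr⟩} ≃ ↥(S.erase r) :=
    { toFun := fun i => ⟨i.1, mem_erase.2 ⟨fun h => i.2 (Subtype.ext h), i.1.2⟩⟩
      invFun := fun i => ⟨⟨i, mem_of_mem_erase i.2⟩, fun h =>
        (ne_of_mem_erase i.2) (congrArg Subtype.val h)⟩
      left_inv := fun _ => rfl
      right_inv := fun _ => rfl }
  rw [← Matrix.det_submatrix_equiv_self e]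
  rfl

theorem pdt_row (M : ι → ι → R) {S : Finset ι} {r : ι} (hr : r ∈ S) (w : ι → R) (hw : w r = 1)
    (c : R) (h : ∀ j ∈ S, ∑ i ∈ S, w i * M i j = if j = r then c else 0) :
    pdt M S = c * pdt M (S.erase r) := by
  rw [← pdt_single M hr c, pdt]
  refine det_rowsum _ (fun i : S => w i) ⟨r, hr⟩ c hw ?_
  funext j
  rw [Matrix.vecMul, dotProduct, Pi.single_apply]
  have h1 := h j j.2
  rw [← sum_coe_sort S] at h1
  simp only [Matrix.of_apply]
  rw [h1]
  by_cases hj : j = ⟨r, hr⟩
  · subst hj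
    rw [if_pos rfl, if_pos rfl]
  · rw [if_neg hj, if_neg fun h' => hj (Subtype.ext h')]

/-- **Symmetric weights**: the value is `∑ h` times a principal minor. -/
theorem blkMv_symm (s : ι → ι → R) (hs : ∀ p q, p ≠ q → s p q = s q p) (h f τ : ι → R)
    {T V : Finset ι} (hTV : Disjoint T V) {r0 : ι} (hr : r0 ∈ T)
    (hu : ∀ b ∈ V, ∑ p ∈ T, s b p = 0) :
    pdt (blkMv s h f τ T V r0) (T ∪ V) =
      (∑ q ∈ T, h q) * pdt (blkM s 0 τ T V) ((T ∪ V).erase r0) := by
  have h1 : pdt (blkMv s h f τ T V r0) ((T ∪ V).erase r0) =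
      pdt (blkM s 0 τ T V) ((T ∪ V).erase r0) := by
    refine pdt_congr fun i _ j hj => ?_
    rw [blkMv, if_neg (ne_of_mem_erase hj)]
  rw [← h1]
  refine pdt_row _ (mem_union_left V hr) (fun i => if i ∈ T then 1 else 0) (if_pos hr) _ ?_
  intro j hj
  have h2 : ∑ i ∈ T ∪ V, (if i ∈ T then (1 : R) else 0) * blkMv s h f τ T V r0 i j =
      ∑ i ∈ T, blkMv s h f τ T V r0 i j := by
    rw [← sum_subset (subset_union_left : T ⊆ T ∪ V)]
    · exact sum_congr rfl fun i hi => by rw [if_pos hi, one_mul]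
    · intro i _ hi
      rw [if_neg hi, zero_mul]
  rw [h2]
  by_cases hj0 : j = r0
  · rw [if_pos hj0]
    refine sum_congr rfl fun i hi => ?_
    rw [blkMv, if_pos hj0, if_pos hi]
  · rw [if_neg hj0]
    have h3 : ∀ i ∈ T, blkMv s h f τ T V r0 i j = blkM s 0 τ T V i j := fun i _ => by
      rw [blkMv, if_neg hj0]
    rw [sum_congr rfl h3]
    rcases mem_union.1 hj with hjT | hjV
    · rw [← add_sum_erase _ _ hjT, blkM, if_pos rfl, if_pos hjT, Pi.zero_apply, zero_add]
      have h4 : ∑ i ∈ T.erase j, blkM s 0 τ T V i j = -∑ p ∈ T.erase j, s j p := by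
        rw [← sum_neg_distrib]
        refine sum_congr rfl fun i hi => ?_
        have hij := ne_of_mem_erase hi
        rw [blkM, if_neg hij, hs i j hij]
      rw [h4, add_neg_cancel]
    · have h4 : ∑ i ∈ T, blkM s 0 τ T V i j = -∑ p ∈ T, s j p := by
        rw [← sum_neg_distrib]
        refine sum_congr rfl fun i hi => ?_
        have hij : i ≠ j := fun h' => disjoint_left.1 hTV hi (h' ▸ hjV)
        rw [blkM, if_neg hij, hs i j hij]
      rw [h4, hu j hjV, neg_zero]

/-! ### The end statements -/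

/-- **The even classes: the class of the value.** -/
theorem SyB.final_CE2 {B : ValuationSubring ℂ} {l K : ℂ} {La : Finset ι → Finset ι → ℂ}
    {e : ι → ℂ} {x : Finset ι → ι → ℂ} {s : ι → ι → ZMod 2} {κ : ι → ZMod 2} {S0 B0 : Finset ι}
    (hy : SyB B l K La e x s κ S0 B0) (hκ : ∀ b, κ b = 0) {n : ℕ} (hn : 1 ≤ n)
    {h f g : ι → ZMod 2} (h0 : Rt B (La ∅ ∅ / K) 1)
    (hf : ∀ b ∈ S0 ∪ B0, Rt B ((e b - x ∅ b) / l ^ (1 + n)) (f b))
    (hid : ∀ T ⊆ S0, ∀ C ⊆ B0, (T ∪ C).Nonempty → Rt B (idB l K La e x s n T C)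
      (if C = ∅ then (if T.card = 1 then ∑ q ∈ T, (h q + f q) else 0) else
        if T = ∅ ∧ C.card = 1 then ∑ q ∈ C, g q else 0))
    {U V : Finset ι} (hUB : U ∪ V = B0) (hUV : Disjoint U V)
    (hu1 : ∀ b ∈ U, ∑ p ∈ S0, s b p = 1) (hu0 : ∀ b ∈ V, ∑ p ∈ S0, s b p = 0)
    {τ : ι → ZMod 2} (h1 : ∀ b ∈ V, Rt B (x S0 b * ∏ a ∈ U, sgz (s b a)) 1)
    (h2 : ∀ b ∈ V, Rt B ((e b - x S0 b * ∏ a ∈ U, sgz (s b a)) / l ^ 2) (τ b))
    {r0 : ι} (hr : r0 ∈ S0) :
    Rt B (La S0 B0 / (K * l ^ (S0.card + U.card + 2 * V.card + n)))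
      (pdt (blkMv s h f τ S0 V r0) (S0 ∪ V)) := by
  obtain rfl : κ = 0 := funext hκ
  have hV : V ⊆ B0 := hUB ▸ subset_union_right
  have hd : ∀ T ⊆ S0, ∀ C ⊆ B0, Disjoint T C := fun T hT C hC =>
    disjoint_of_subset_left hT (disjoint_of_subset_right hC hy.dis)
  rw [← CE2_final s h f g τ (disjoint_of_subset_right hV hy.dis) hr hu0]
  refine hy.final_even hn (f := f) h0 hf (P := CE2 s h f g)
    (R := fun T C => if C = ∅ then (if T.card = 1 then ∑ q ∈ T, (h q + f q) else 0) else
        if T = ∅ ∧ C.card = 1 then ∑ q ∈ C, g q else 0)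
    (fun b _ => CE2_single' s h f g b)
    (fun T hT C hC b hb h0 E hE => CE2_step s h f g (hd T hT C hC) hb h0 hE) ?_ ?_ hid
    ⟨r0, hr⟩ hUB hUV ?_ ?_ h1 h2
  · intro T hT C hC hC0
    rw [if_neg hC0.ne_empty]
    exact CE2_sum s h f g (hd T hT C hC) hC0
  · intro T hT hT0
    rw [if_pos rfl, CE2_sum0 s h f g hT0]
    split_ifs
    · rw [sum_add_distrib]
    · rw [add_zero]
  · intro b hb
    rw [Pi.zero_apply, zero_add]
    exact hu1 b hb
  · intro b hb
    rw [Pi.zero_apply, zero_add]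
    exact hu0 b hb

end Pool.Agent.Lib.MP_1a91b9_ntQ
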