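import Pool.Agent.Lib.MP_1a91b9_ntQ.A.Ell4

/-!
# Quartic twists, part A, file Good4: the values of `X` at the points with a nonzero odd part

`Od z`: `z` is a torsion point and no `lm ^ n * z` is a lattice point. `v2 B`: `B` is a place of `ℂ` above `2`.
`X z = 1 + lm * al`, `al` congruent to `1`.
-/

set_option autoImplicit false
set_option linter.unusedSectionVars false

namespace Pool.Agent.Lib.MP_1a91b9_ntQ

open NumberField Pool.Agent.Lib.MP_1a91b9_nuT Pool.Agent.Lib.MP_1a91b9_nuT.S3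
  Pool.Agent.Lib.MP_1a91b9_nuT.Ell

noncomputable section

variable [CD]

/-- The torsion points with a nonzero odd part. -/
def Od (z : ℂ) : Prop :=
  (∃ N : 𝓞 K, N ≠ 0 ∧ em N * z ∈ PP.lattice) ∧ ∀ n : ℕ, lm ^ n * z ∉ PP.lattice

omit [CD] in
/-- the places above `2` -/
theorem two_lt {B : ValuationSubring ℂ} (hB : (2 : ℂ)⁻¹ ∉ B) : B.valuation (2 : ℂ) < 1 := by
  by_contra h
  push Not at h
  apply hB
  rw [← ValuationSubring.valuation_le_one_iff, map_inv₀]
  exact inv_le_one_of_one_le₀ h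

section
variable [hq : Q4]

theorem em_lamta : em (1 + ta : 𝓞 K) = lm := by
  rw [em_add, em_one, em_ta, lm]

theorem Od.notMem {z : ℂ} (h : Od z) : z ∉ PP.lattice := by
  have := h.2 0
  rwa [pow_zero, one_mul] at this

theorem lm_pow_mem {x : ℂ} (h : x ∈ PP.lattice) (n : ℕ) : lm ^ n * x ∈ PP.lattice := by
  induction n with
  | zero => rwa [pow_zero, one_mul]
  | succ n ih =>
    have e : lm ^ (n + 1) * x = lm * (lm ^ n * x) := by ring
    rw [e]
    exact lm_mem_mul ih

theorem Od.two {z : ℂ} (h : Od z) : 2 * z ∉ PP.lattice := by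
  intro h1
  apply h.2 2
  have e : lm ^ 2 * z = zt * (2 * z) := by
    rw [lm_sq]
    ring
  rw [e]
  exact zt_mul_mem h1

theorem Od.mul_lm {z : ℂ} (h : Od z) : Od (lm * z) := by
  obtain ⟨⟨N, hN, h1⟩, h2⟩ := h
  refine ⟨⟨N, hN, ?_⟩, fun n => ?_⟩
  · have e : em N * (lm * z) = lm * (em N * z) := by ring
    rw [e]
    exact lm_mem_mul h1
  · have := h2 (n + 1)
    have e : lm ^ n * (lm * z) = lm ^ (n + 1) * z := by
      ring
    rwa [e]

theorem Od.pow {z : ℂ} (h : Od z) (n : ℕ) : Od (lm ^ n * z) := by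
  induction n with
  | zero => rwa [pow_zero, one_mul]
  | succ n ih =>
    have e : lm ^ (n + 1) * z = lm * (lm ^ n * z) := by
      ring
    rw [e]
    exact ih.mul_lm

theorem Od.neg {z : ℂ} (h : Od z) : Od (-z) := by
  obtain ⟨⟨N, hN, h1⟩, h2⟩ := h
  refine ⟨⟨N, hN, ?_⟩, fun n h3 => h2 n ?_⟩
  · rw [mul_neg]
    exact neg_mem h1
  · rw [mul_neg] at h3
    simpa using neg_mem h3

/-- adding a torsion point of order a power of `lm` -/
theorem Od.add {z t : ℂ} (h : Od z) {n : ℕ} (ht : lm ^ n * t ∈ PP.lattice) :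
    Od (z + t) := by
  obtain ⟨⟨N, hN, h1⟩, h2⟩ := h
  refine ⟨⟨(1 + ta) ^ n * N, ?_, ?_⟩, fun m h3 => h2 (n + m) ?_⟩
  · refine mul_ne_zero (pow_ne_zero _ fun h0 => ?_) hN
    have := em_lamta (hq := hq)
    rw [h0, em_zero] at this
    exact lm_ne this.symm
  · rw [em_mul, em_pow, em_lamta]
    have e : lm ^ n * em N * (z + t) =
        lm ^ n * (em N * z) + em N * (lm ^ n * t) := by ring
    rw [e]
    exact add_mem (lm_pow_mem h1 n) (mul_mem (em_mem N) ht)
  · have e : lm ^ (n + m) * z = lm ^ n * (lm ^ m * (z + t)) -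
        lm ^ m * (lm ^ n * t) := by
      rw [pow_add]
      ring
    rw [e]
    exact sub_mem (lm_pow_mem h3 n) (lm_pow_mem ht m)

/-- the orbit of a torsion point under `lm` is eventually periodic -/
theorem Od.periodic {z : ℂ} (h : Od z) : ∃ j p : ℕ, 0 < p ∧
    ∀ n, j ≤ n → lm ^ (n + p) * z - lm ^ n * z ∈ PP.lattice := by
  obtain ⟨⟨N, hN, h1⟩, -⟩ := h
  obtain ⟨a, ha⟩ := S3.mem_PP_iff.1 h1
  have hne : Ideal.span {N} ≠ ⊥ := by rwa [Ne, Ideal.span_singleton_eq_bot]
  have hfin : Finite (𝓞 K ⧸ Ideal.span {N}) := Ideal.finiteQuotientOfFreeOfNeBot _ hne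
  obtain ⟨j, k, hjk, he⟩ := Finite.exists_ne_map_eq_of_infinite
    (fun n : ℕ => Ideal.Quotient.mk (Ideal.span {N}) ((1 + ta) ^ n * a))
  have key : ∀ j k : ℕ, j < k → Ideal.Quotient.mk (Ideal.span {N}) ((1 + ta : 𝓞 K) ^ j * a) =
      Ideal.Quotient.mk (Ideal.span {N}) ((1 + ta) ^ k * a) →
      ∃ j p : ℕ, 0 < p ∧ ∀ n, j ≤ n → lm ^ (n + p) * z - lm ^ n * z ∈ PP.lattice := by
    intro j k hjk he
    rw [Ideal.Quotient.eq, Ideal.mem_span_singleton] at he
    obtain ⟨b, hb⟩ := he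
    refine ⟨j, k - j, by omega, fun n hn => ?_⟩
    have hN0 := em_ne hN
    have e1 : em N * (lm ^ j * z - lm ^ k * z) = em N * em b := by
      have h2 := congrArg em hb
      rw [em_sub, em_mul, em_mul, em_mul, em_pow, em_pow, em_lamta] at h2
      have h3 : em a = em N * z := ha
      rw [h3] at h2
      linear_combination h2
    have e2 : lm ^ j * z - lm ^ k * z = em b := mul_left_cancel₀ hN0 e1
    have e3 : lm ^ (n + (k - j)) * z - lm ^ n * z = -(lm ^ (n - j) * (lm ^ j * z - lm ^ k * z)) := by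
      have e4 : lm ^ (n + (k - j)) = lm ^ (n - j) * lm ^ k := by
        rw [← pow_add]
        congr 1
        omega
      have e5 : lm ^ n = lm ^ (n - j) * lm ^ j := by
        rw [← pow_add]
        congr 1
        omega
      rw [e4, e5]
      ring
    rw [e3, e2]
    exact neg_mem (lm_pow_mem (em_mem b) _)
  rcases lt_or_gt_of_ne hjk with h2 | h2
  · exact key j k h2 he
  · exact key k j h2 he.symm

/-! ### the place -/

variable {B : ValuationSubring ℂ}

theorem v_zt : B.valuation zt = 1 := by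
  have h : B.valuation zt ^ 4 = 1 := by
    rw [← map_pow]
    have e : zt ^ 4 = 1 := by linear_combination (zt ^ 2 - 1) * zt_sq
    rw [e, map_one]
  exact (pow_eq_one_iff_of_nonneg zero_le (by norm_num)).1 h

theorem v_lm_sq : B.valuation lm ^ 2 = B.valuation 2 := by
  rw [← map_pow, lm_sq, map_mul, v_zt, mul_one]

theorem v_lm_pos : 0 < B.valuation lm := by
  rw [zero_lt_iff, Valuation.ne_zero_iff]
  exact lm_ne

theorem v_lm_lt (hB : (2 : ℂ)⁻¹ ∉ B) : B.valuation lm < 1 := by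
  have h := two_lt hB
  rw [← v_lm_sq] at h
  by_contra h1
  push Not at h1
  exact absurd h (not_lt.2 (one_le_pow₀ h1))

/-- the duplication relation for the values -/
theorem v_rel {z : ℂ} (hz : Od z) :
    B.valuation lm ^ 2 * B.valuation (X (lm * z)) * B.valuation (X z) = B.valuation (X z ^ 2 - 1) := by
  rw [v_lm_sq, ← map_mul, ← map_mul, ← X_lm hz.two, ← one_mul (B.valuation (2 * X (lm * z) * X z)),
    ← v_zt (B := B), ← map_mul]
  congr 1
  ring

theorem v_X_le (hB : (2 : ℂ)⁻¹ ∉ B) {z : ℂ} (hz : Od z) : B.valuation (X z) ≤ 1 := by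
  by_contra hc
  push Not at hc
  obtain ⟨l, hl⟩ : ∃ l, l = B.valuation lm := ⟨_, rfl⟩
  have hl0 : 0 < l := hl ▸ v_lm_pos
  have hl1 : l < 1 := hl ▸ v_lm_lt hB
  -- the values increase
  have step : ∀ w : ℂ, Od w → 1 < B.valuation (X w) → B.valuation (X w) < B.valuation (X (lm * w)) := by
    intro w hw h1
    have h2 := v_rel (B := B) hw
    have h3 : B.valuation (X w ^ 2 - 1) = B.valuation (X w) ^ 2 := by
      rw [← map_pow]
      refine Valuation.map_sub_eq_of_lt_left _ ?_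
      rw [map_one, map_pow]
      exact one_lt_pow₀ h1 two_ne_zero
    rw [h3, ← hl, pow_two (B.valuation (X w))] at h2
    have h4 : l ^ 2 * B.valuation (X (lm * w)) = B.valuation (X w) :=
      mul_right_cancel₀ (zero_lt_one.trans h1).ne' h2
    have h5 : 0 < B.valuation (X (lm * w)) := by
      rw [zero_lt_iff]
      intro h6
      rw [h6, mul_zero] at h4
      rw [← h4] at h1
      exact absurd h1 (not_lt.2 zero_le)
    calc B.valuation (X w) = l ^ 2 * B.valuation (X (lm * w)) := h4.symm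
      _ < 1 * B.valuation (X (lm * w)) :=
        mul_lt_mul_of_pos_right (pow_lt_one₀ zero_le hl1 two_ne_zero) h5
      _ = _ := one_mul _
  have h1 : ∀ n : ℕ, 1 < B.valuation (X (lm ^ n * z)) := by
    intro n
    induction n with
    | zero => rwa [pow_zero, one_mul]
    | succ n ih =>
      have e : lm ^ (n + 1) * z = lm * (lm ^ n * z) := by ring
      rw [e]
      exact ih.trans (step _ (hz.pow n) ih)
  have h2 : StrictMono fun n : ℕ => B.valuation (X (lm ^ n * z)) := by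
    refine strictMono_nat_of_lt_succ fun n => ?_
    have e : lm ^ (n + 1) * z = lm * (lm ^ n * z) := by ring
    rw [e]
    exact step _ (hz.pow n) (h1 n)
  obtain ⟨j, p, hp, h3⟩ := hz.periodic
  have h4 := h2 (show j < j + p by omega)
  simp only [X_congr (h3 j le_rfl)] at h4
  exact lt_irrefl _ h4

/-- **The values of `X` are units.** -/
theorem v_X (hB : (2 : ℂ)⁻¹ ∉ B) {z : ℂ} (hz : Od z) : B.valuation (X z) = 1 := by
  have h1 := v_X_le hB hz
  have h2 := v_X_le hB hz.mul_lm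
  have h3 : B.valuation (X z) * B.valuation (X z - 2 * zt * X (lm * z)) = 1 := by
    rw [← map_mul]
    have e : X z * (X z - 2 * zt * X (lm * z)) = 1 := by linear_combination -X_lm hz.two
    rw [e, map_one]
  have h4 : B.valuation (X z - 2 * zt * X (lm * z)) ≤ 1 := by
    refine (Valuation.map_sub _ _ _).trans (max_le h1 ?_)
    rw [map_mul, map_mul, v_zt, mul_one]
    exact mul_le_one' (two_lt hB).le h2
  refine le_antisymm h1 ?_
  rw [← h3]
  exact mul_le_of_le_one_right' h4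

/-- `X z ^ 2 - 1` has the value of `2` -/
theorem v_X_sq (hB : (2 : ℂ)⁻¹ ∉ B) {z : ℂ} (hz : Od z) :
    B.valuation (X z ^ 2 - 1) = B.valuation lm ^ 2 := by
  rw [← v_rel hz, v_X hB hz, v_X hB hz.mul_lm, mul_one, mul_one]

theorem v_X_sub (hB : (2 : ℂ)⁻¹ ∉ B) {z : ℂ} (hz : Od z) :
    B.valuation (X z - 1) = B.valuation lm ∧ B.valuation (X z + 1) = B.valuation lm := by
  obtain ⟨l, hl⟩ : ∃ l, l = B.valuation lm := ⟨_, rfl⟩
  have hl0 : 0 < l := hl ▸ v_lm_pos
  have hl1 : l < 1 := hl ▸ v_lm_lt hB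
  have h1 : B.valuation (X z - 1) * B.valuation (X z + 1) = l ^ 2 := by
    rw [← map_mul, hl, ← v_X_sq hB hz]
    congr 1
    ring
  have h2 : B.valuation (2 : ℂ) = l ^ 2 := by rw [hl, v_lm_sq]
  rw [← hl]
  have h3 : l ^ 2 < B.valuation (X z - 1) := by
    by_contra h
    push Not at h
    have h4 : B.valuation (X z + 1) ≤ l ^ 2 := by
      have e : X z + 1 = (X z - 1) + 2 := by ring
      rw [e]
      exact (Valuation.map_add _ _ _).trans (max_le h h2.le)
    have h5 : l ^ 2 ≤ l ^ 2 * l ^ 2 := by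
      nth_rewrite 1 [← h1]
      exact mul_le_mul' h h4
    have h6 : l ^ 2 * l ^ 2 < 1 * l ^ 2 :=
      mul_lt_mul_of_pos_right (pow_lt_one₀ zero_le hl1 two_ne_zero) (pow_pos hl0 2)
    rw [one_mul] at h6
    exact absurd h5 (not_le.2 h6)
  have h4 : B.valuation (X z + 1) = B.valuation (X z - 1) := by
    have e : X z + 1 = (X z - 1) + 2 := by ring
    rw [e]
    exact Valuation.map_add_eq_of_lt_left _ (by rwa [h2])
  rw [h4, ← pow_two] at h1
  have h5 := (pow_left_inj₀ zero_le zero_le two_ne_zero).1 h1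
  exact ⟨h5, h4.trans h5⟩

/-- `X z` is congruent to `1 + lm` modulo `lm m` -/
theorem v_X_al (hB : (2 : ℂ)⁻¹ ∉ B) {z : ℂ} (hz : Od z) :
    B.valuation (X z - 1 - lm) < B.valuation lm := by
  obtain ⟨l, hl⟩ : ∃ l, l = B.valuation lm := ⟨_, rfl⟩
  have hl0 : 0 < l := hl ▸ v_lm_pos
  have hl1 : l < 1 := hl ▸ v_lm_lt hB
  have h2 : B.valuation (2 : ℂ) = l ^ 2 := by rw [hl, v_lm_sq]
  have a1 := (v_X_sub hB hz).1
  have a2 := (v_X_sub hB hz.mul_lm).1
  rw [← hl] at a1 a2 ⊢
  have hlt : ∀ x : ℂ, B.valuation x < l → B.valuation (lm ^ 2 * x) < l ^ 3 := by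
    intro x hx
    rw [map_mul, map_pow, ← hl, pow_succ l 2]
    exact mul_lt_mul_of_pos_left hx (pow_pos hl0 2)
  -- `(X - 1 - lm) ^ 2` is in `lm ^ 2 m`
  have key : (X z - 1 - lm) ^ 2 = 2 * zt * ((X z - 1) * X (lm * z) + (X (lm * z) - 1)) +
      (2 * (1 - X z) - 2 * lm * (X z - 1)) + 2 * (2 * zt) := by
    have h := X_lm hz.two
    linear_combination -h + lm_sq
  have hlt2 : B.valuation ((X z - 1 - lm) ^ 2) < l ^ 2 := by
    rw [key]
    have b1 : B.valuation (2 * zt * ((X z - 1) * X (lm * z) + (X (lm * z) - 1))) < l ^ 2 := by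
      rw [map_mul, map_mul, v_zt, mul_one, h2]
      have : B.valuation ((X z - 1) * X (lm * z) + (X (lm * z) - 1)) < 1 := by
        refine Valuation.map_add_lt _ ?_ (a2.trans_lt hl1)
        rw [map_mul, a1, v_X hB hz.mul_lm, mul_one]
        exact hl1
      calc l ^ 2 * _ < l ^ 2 * 1 := mul_lt_mul_of_pos_left this (pow_pos hl0 2)
        _ = _ := mul_one _
    have b2 : B.valuation (2 * (1 - X z)) < l ^ 2 := by
      rw [map_mul, Valuation.map_sub_swap, a1, h2]
      calc l ^ 2 * l < l ^ 2 * 1 := mul_lt_mul_of_pos_left hl1 (pow_pos hl0 2)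
        _ = _ := mul_one _
    have b3 : B.valuation (2 * lm * (X z - 1)) < l ^ 2 := by
      rw [map_mul, map_mul, a1, h2, ← hl, mul_assoc]
      calc l ^ 2 * (l * l) < l ^ 2 * 1 :=
          mul_lt_mul_of_pos_left (mul_lt_one_of_nonneg_of_lt_one_left zero_le hl1 hl1.le) (pow_pos hl0 2)
        _ = _ := mul_one _
    have b4 : B.valuation (2 * (2 * zt)) < l ^ 2 := by
      rw [map_mul, map_mul, v_zt, mul_one, h2]
      calc l ^ 2 * l ^ 2 < l ^ 2 * 1 :=
          mul_lt_mul_of_pos_left (pow_lt_one₀ zero_le hl1 two_ne_zero) (pow_pos hl0 2)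
        _ = _ := mul_one _
    exact Valuation.map_add_lt _ (Valuation.map_add_lt _ b1 (Valuation.map_sub_lt _ b2 b3)) b4
  rw [map_pow] at hlt2
  exact lt_of_pow_lt_pow_left₀ 2 zero_le hlt2

end

end

end Pool.Agent.Lib.MP_1a91b9_ntQ
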