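import Pool.Agent.Lib.MP_1a91b9_ntQ.A.Cnt4
import Pool.Agent.Lib.MP_1a91b9_ntQ.A.Good4

/-!
# Quartic twists, part A, file PairR: normalised representatives with the involution `c ↦ 2 D - c`
-/

set_option autoImplicit false

namespace Pool.Agent.Lib.MP_1a91b9_ntQ

open NumberField Pool.Agent.Lib.MP_1a91b9_nuT Pool.Agent.Lib.MP_1a91b9_nuT.S3
  Pool.Agent.Lib.MP_1a91b9_nuT.Ell

noncomputable section

/-- the lattice is the ring of integers -/
theorem mem_iff_em {z : ℂ} : z ∈ PP.lattice ↔ ∃ x : 𝓞 K, em x = z := by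
  constructor
  · intro h
    obtain ⟨m, n, e⟩ := mem_PP.1 h
    refine ⟨(m : 𝓞 K) + (n : 𝓞 K) * iO, ?_⟩
    have h2 : em (iO : 𝓞 K) = zt := rfl
    rw [em_add, em_mul, em_intCast, em_intCast, h2, e]
  · rintro ⟨x, rfl⟩
    exact em_mem x

theorem two_eq_lam : (2 : 𝓞 K) = lam ^ 2 * -iO := by
  rw [lam_sq]
  linear_combination 2 * iO_sq

/-- the sum of the points of a pair -/
theorem zp_pair (k : ZMod 4) {S : Finset Pg} {x y t : 𝓞 K}
    (h : 2 * DDq S - x - y = lam ^ 3 * DDq S * t) :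
    zp k S x + zp k S y = 2 * (em (f4 k))⁻¹ - em t / em (g4 k) := by
  have hD : em (DDq S) ≠ 0 := em_ne (DDq_in4 S).ne_zero
  have hg : em (g4 k) ≠ 0 := em_ne (g4_ne k)
  have hl : em (lam ^ 3) ≠ 0 := em_ne (pow_ne_zero 3 lam_ne_zero)
  have e6 : em (f4 k) = em (lam ^ 3) * em (g4 k) := by rw [f4_eq, em_mul]
  have e7 : em x + em y = 2 * em (DDq S) - em (lam ^ 3) * em (DDq S) * em t := by
    have h2 : em (2 : 𝓞 K) = 2 := em_natCast 2
    have e8 : x + y = 2 * DDq S - lam ^ 3 * DDq S * t := by linear_combination -h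
    rw [← em_add, e8, em_sub, em_mul, em_mul, em_mul, h2]
  rw [zp, zp, em_mul (f4 k), e6, ← add_div, e7]
  field_simp

/-- the last factor of a pair of normalised representatives -/
theorem pair_t (k : ZMod 4) {S : Finset Pg} {x y t : 𝓞 K} (hx : f4 k ∣ x - 1) (hy : f4 k ∣ y - 1)
    (h : 2 * DDq S - x - y = lam ^ 3 * DDq S * t) : ∃ b : 𝓞 K, g4 k ∣ t - lam ^ 2 * b := by
  obtain ⟨u, hu⟩ := hx
  obtain ⟨v, hv⟩ := hy
  obtain ⟨b, hb⟩ := DDq_in4 S
  have h1 : lam ^ 3 * (DDq S * t) = lam ^ 3 * (lam ^ 2 * (-iO * b) - g4 k * (u + v)) := by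
    rw [f4_eq] at hu hv
    linear_combination -h - hu - hv + 2 * hb + lam ^ 3 * b * two_eq_lam
  have h2 := mul_left_cancel₀ (pow_ne_zero 3 lam_ne_zero) h1
  obtain ⟨p, q, hpq⟩ : IsCoprime (DDq S) (g4 k) :=
    (in4_cop_f4 (DDq_in4 S) k).of_isCoprime_of_dvd_right ⟨lam ^ 3, by rw [f4_eq, mul_comm]⟩
  exact ⟨p * (-iO * b), t * q - p * (u + v), by linear_combination p * h2 - t * hpq⟩

theorem exists_lam_pow {S : Finset Pg} : ∃ n : ℕ, 0 < n ∧ DDq S ∣ lam ^ n - 1 := by
  have h0 : Ideal.span {DDq S} ≠ ⊥ := by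
    rw [Ne, Ideal.span_singleton_eq_bot]
    exact (DDq_in4 S).ne_zero
  have hfin : Finite (𝓞 K ⧸ Ideal.span {DDq S}) := Ideal.finiteQuotientOfFreeOfNeBot _ h0
  obtain ⟨a, b, hab⟩ := in4_cop_lam (DDq_in4 S) 1
  rw [pow_one] at hab
  have h1 : Ideal.Quotient.mk (Ideal.span {DDq S}) b * Ideal.Quotient.mk (Ideal.span {DDq S}) lam =
      1 := by
    rw [← map_mul, ← map_one (Ideal.Quotient.mk (Ideal.span {DDq S})), Ideal.Quotient.eq,
      Ideal.mem_span_singleton]
    exact ⟨-a, by linear_combination hab⟩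
  have h2 : IsUnit (Ideal.Quotient.mk (Ideal.span {DDq S}) lam) :=
    IsUnit.of_mul_eq_one _ (by rw [mul_comm]; exact h1)
  obtain ⟨u, hu⟩ := h2
  refine ⟨orderOf u, orderOf_pos u, ?_⟩
  rw [← Ideal.mem_span_singleton, ← Ideal.Quotient.eq, map_pow, map_one, ← hu,
    ← Units.val_pow_eq_pow_val, pow_orderOf_eq_one, Units.val_one]

/-- the point for `k = 0` -/
theorem zp_zero_R {S : Finset Pg} (hS : S.Nonempty) {x : 𝓞 K} (hx : In4 x)
    (hq : ∀ q ∈ S, ¬ q.1 ∣ x) : ∃ (R : ℂ) (n : ℕ), 0 < n ∧ lm ^ n * R - R ∈ PP.lattice ∧ Od R ∧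
        zp 0 S x = pe ^ 3 + R := by
  obtain ⟨y, hy⟩ : lam ^ 3 ∣ x - DDq S := by
    have h := dvd_sub hx (DDq_in4 S)
    rwa [show x - 1 - (DDq S - 1) = x - DDq S by ring] at h
  have hD : em (DDq S) ≠ 0 := em_ne (DDq_in4 S).ne_zero
  have hl : em (lam ^ 3) ≠ 0 := em_ne (pow_ne_zero 3 lam_ne_zero)
  obtain ⟨n, hn, t, ht⟩ := exists_lam_pow (S := S)
  refine ⟨em y / em (DDq S), n, hn, ?_, ⟨⟨DDq S, (DDq_in4 S).ne_zero, ?_⟩, fun m hm => ?_⟩, ?_⟩
  · rw [mem_iff_em]
    refine ⟨t * y, ?_⟩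
    have e : em (lam ^ n) = em (DDq S) * em t + 1 := by
      rw [← em_one, ← em_mul, ← em_add]
      congr 1
      linear_combination ht
    rw [← em_lam, ← em_pow, e, em_mul]
    field_simp
    ring
  · rw [mul_div_cancel₀ _ hD]
    exact em_mem y
  · obtain ⟨q, hqS⟩ := hS
    obtain ⟨z, hz⟩ := mem_iff_em.1 hm
    have h1 : em (DDq S * z) = em (lam ^ m * y) := by
      rw [em_mul, em_mul, hz, em_pow, em_lam]
      field_simp
    have h2 : DDq S * z = lam ^ m * y := em_inj h1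
    have h3 : q.1 ∣ lam ^ m * y := by
      rw [← h2]
      exact (dvd_DDq.2 hqS).mul_right _
    rcases q.prime.dvd_or_dvd h3 with h4 | h4
    · exact q.in4.not_lam
        (q.prime.associated_of_dvd prime_lam (q.prime.dvd_of_dvd_pow h4)).symm.dvd
    · refine hq q hqS ?_
      have e : x = DDq S + lam ^ 3 * y := by linear_combination hy
      rw [e]
      exact dvd_add (dvd_DDq.2 hqS) (h4.mul_left _)
  · have e : em x = em (DDq S) + em (lam ^ 3) * em y := by
      rw [← em_mul, ← em_add]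
      congr 1
      linear_combination hy
    have e2 : em (lam ^ 3) * pe ^ 3 = 1 := by
      rw [em_pow, em_lam, ← mul_pow, lm_mul_pe, one_pow]
    rw [zp_zero, e]
    field_simp
    linear_combination em y * e2

/-- representatives congruent to `1` modulo the modulus of `th4 k`, with the involution
`c ↦ 2 DDq S - c`, and the sum of the weights -/
theorem exists_pairs4 (k : ZMod 4) {S : Finset Pg} (hS : S.Nonempty) :
    ∃ (ι : Type) (_ : Fintype ι) (c : ι → 𝓞 K) (sg : ι → ι),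
      RepsG (lam ^ 3) (lam ^ 3 * DDq S) c ∧ (∀ i, f4 k ∣ c i - 1) ∧
      (∀ i, sg (sg i) = i) ∧ (∀ i, sg i ≠ i) ∧
      (∀ i, DDq S ∣ c i + c (sg i)) ∧
      (k = 0 → ∀ i, zp k S (c i) + zp k S (c (sg i)) - pe ∈ PP.lattice) ∧
      (k = 2 → ∀ i, zp k S (c i) + zp k S (c (sg i)) + 1 / 2 ∈ PP.lattice) ∧
      (k ≠ 0 → k ≠ 2 → ∀ i, zp k S (c i) + zp k S (c (sg i)) - zt / 4 ∈ PP.lattice ∨
        zp k S (c i) + (zp k S (c (sg i)) + pe) - zt / 4 ∈ PP.lattice) ∧
      (k = 0 → ∀ i, ∃ (R : ℂ) (n : ℕ), 0 < n ∧ lm ^ n * R - R ∈ PP.lattice ∧ Od R ∧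
        zp k S (c i) = pe ^ 3 + R) ∧
      ∑ i, w4 S (c i) = ∏ q ∈ S, ((Nz q.1 : ℂ) - 1) := by
  obtain ⟨ι, hι, c0, hc0⟩ := RepsG.exists_reps (f := lam ^ 3) (ν := lam ^ 3 * DDq S)
    (mul_ne_zero (pow_ne_zero 3 lam_ne_zero) (DDq_in4 S).ne_zero) (dvd_mul_right _ _)
  obtain ⟨c, hc, hc1⟩ := reps_norm k hc0
  obtain ⟨sg, h1, h2, h3⟩ := reps_pair hc hS
  choose t ht using h3
  have hz := fun i => zp_pair k (ht i)
  have hb := fun i => pair_t k (hc1 i) (hc1 (sg i)) (ht i)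
  refine ⟨ι, hι, c, sg, hc, hc1, h1, h2, fun i => ?_, ?_, ?_, ?_, ?_, sum_w4 hc⟩
  · exact ⟨2 - lam ^ 3 * t i, by linear_combination -(ht i)⟩
  · rintro rfl i
    rw [hz i, em_f4_inv f4_zero, g4_zero, em_one, div_one]
    have e : 2 * pe ^ 3 - em (t i) - pe = (2 * pe ^ 3 - pe) - em (t i) := by ring
    rw [e]
    exact sub_mem two_pe3 (em_mem _)
  · rintro rfl i
    obtain ⟨b, s, hs⟩ := hb i
    rw [g4_two] at hs
    have e1 : t i = lam * (lam * b + s) := by linear_combination hs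
    have hl : em lam ≠ 0 := em_ne lam_ne_zero
    have e2 : em (t i) / em lam = em (lam * b + s) := by
      rw [e1, em_mul]
      field_simp
    have e3 : 2 * pe ^ 4 = -1 / 2 := by
      have h4 := lm_four
      rw [pe, inv_pow, h4]
      norm_num
    rw [hz i, em_f4_inv f4_two, g4_two, e2, e3]
    have e : -1 / 2 - em (lam * b + s) + 1 / 2 = -em (lam * b + s) := by ring
    rw [e]
    exact neg_mem (em_mem _)
  · intro k0 k2 i
    obtain ⟨b, s, hs⟩ := hb i
    rw [g4_odd k0 k2] at hs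
    have e1 : t i = lam ^ 2 * (b + lam * s) := by linear_combination hs
    have hl : em lam ≠ 0 := em_ne lam_ne_zero
    have e2 : em (t i) / em (lam ^ 3) = em (b + lam * s) / em lam := by
      rw [e1, em_mul, em_pow, em_pow]
      field_simp
    have e3 : 2 * pe ^ 6 = zt / 4 := by
      have h4 := lm_four
      have h5 : lm ^ 6 = -8 * zt := by
        have e : lm ^ 6 = lm ^ 4 * lm ^ 2 := by ring
        rw [e, h4, lm_sq]
        ring
      rw [pe, inv_pow, h5]
      have h6 := zt_ne0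
      field_simp
      linear_combination (-8) * zt_sq
    rw [hz i, em_f4_inv (f4_odd k0 k2), g4_odd k0 k2, e2, e3]
    rcases Int.emod_two_eq_zero_or_one ((cp (b + lam * s)).1 + (cp (b + lam * s)).2) with h5 | h5
    · left
      obtain ⟨a, ha⟩ : lam ∣ b + lam * s := by
        rw [lam_dvd_iff]
        exact Int.dvd_of_emod_eq_zero h5
      have e4 : em (b + lam * s) / em lam = em a := by
        rw [ha, em_mul]
        field_simp
      have e5 : zt / 4 - em (b + lam * s) / em lam - zt / 4 = -em a := by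
        rw [e4]
        ring
      rw [e5]
      exact neg_mem (em_mem a)
    · right
      obtain ⟨a, ha⟩ : lam ∣ 1 - (b + lam * s) := by
        rw [lam_dvd_iff, sub_cp, cp_one]
        dsimp only
        omega
      have hpe : 1 / em lam = pe := by rw [em_lam, pe, one_div]
      have e4 : em (b + lam * s) / em lam = pe - em a := by
        have e6 : b + lam * s = 1 - lam * a := by linear_combination -ha
        rw [← hpe, e6, em_sub, em_mul, em_one]
        field_simp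
      have e5 : zp k S (c i) + (zp k S (c (sg i)) + pe) - zt / 4 = em a := by
        have e7 := hz i
        rw [em_f4_inv (f4_odd k0 k2), g4_odd k0 k2, e2, e3, e4] at e7
        linear_combination e7
      rw [e5]
      exact em_mem a
  · rintro rfl i
    exact zp_zero_R hS (hc.fx i) fun q hq => reps_not_dvd hc i hq

/-- a sum over the pairs of an involution -/
theorem pair_lt {B : ValuationSubring ℂ} {ι : Type} [Fintype ι] {sg : ι → ι}
    (h2 : ∀ i, sg (sg i) = i) (h1 : ∀ i, sg i ≠ i) {W F : ι → ℂ} {l g : B.ValueGroup} (hg : 0 < g)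
    (hW : ∀ i, B.valuation (W i) ≤ 1) (hW2 : ∀ i, B.valuation (W (sg i) - W i) ≤ l)
    (hF : ∀ i, l * B.valuation (F i) < g) (hF2 : ∀ i, B.valuation (F i + F (sg i)) < g) :
    B.valuation (∑ i, W i * F i) < g := by
  refine v_sum_inv B h2 h1 (fun i => W i * F i) hg fun i => ?_
  have e : W i * F i + W (sg i) * F (sg i) = W i * (F i + F (sg i)) +
      (W (sg i) - W i) * F (sg i) := by ring
  change B.valuation (W i * F i + W (sg i) * F (sg i)) < g
  rw [e]
  refine Valuation.map_add_lt _ ?_ ?_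
  · rw [map_mul]
    exact (mul_le_of_le_one_left' (hW i)).trans_lt (hF2 i)
  · rw [map_mul]
    exact (mul_le_mul' (hW2 i) le_rfl).trans_lt (hF (sg i))

end

end Pool.Agent.Lib.MP_1a91b9_ntQ
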