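import Pool.Agent.Lib.MP_1a91b9_ntQ.A.Good4

/-!
# Quartic twists, part A, file Res4: residue classes modulo a place of `ℂ` above `2`

`Rt B z y`: `z` is congruent modulo the maximal ideal of `B` to the class `y` modulo `2`.
-/

set_option autoImplicit false

namespace Pool.Agent.Lib.MP_1a91b9_ntQ

open NumberField Pool.Agent.Lib.MP_1a91b9_nuT

noncomputable section

/-- `z` is congruent to the class `y` modulo `2` -/
def Rt (B : ValuationSubring ℂ) (z : ℂ) (y : ZMod 2) : Prop := B.valuation (z - (y.val : ℂ)) < 1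

variable {B : ValuationSubring ℂ}

theorem Rt.zero : Rt B 0 0 := by
  unfold Rt
  simp

theorem Rt.one : Rt B 1 1 := by
  unfold Rt
  rw [ZMod.val_one]
  simp

theorem Rt.of_lt {z : ℂ} (h : B.valuation z < 1) : Rt B z 0 := by
  unfold Rt
  rw [ZMod.val_zero, Nat.cast_zero, sub_zero]
  exact h

theorem Rt.lt {z : ℂ} (h : Rt B z 0) : B.valuation z < 1 := by
  unfold Rt at h
  rwa [ZMod.val_zero, Nat.cast_zero, sub_zero] at h

theorem v_nat (n : ℕ) : B.valuation (n : ℂ) ≤ 1 := by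
  rw [ValuationSubring.valuation_le_one_iff]
  exact natCast_mem B n

theorem v_int (n : ℤ) : B.valuation (n : ℂ) ≤ 1 := by
  rw [ValuationSubring.valuation_le_one_iff]
  exact intCast_mem B n

theorem Rt.le {z : ℂ} {y : ZMod 2} (h : Rt B z y) : B.valuation z ≤ 1 := by
  have e : z = (z - (y.val : ℂ)) + (y.val : ℂ) := by ring
  rw [e]
  exact (Valuation.map_add _ _ _).trans (max_le (le_of_lt h) (v_nat _))

theorem Rt.congr {z w : ℂ} {y : ZMod 2} (h : Rt B z y) (h1 : B.valuation (w - z) < 1) : Rt B w y := by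
  unfold Rt at h ⊢
  have e : w - (y.val : ℂ) = (w - z) + (z - (y.val : ℂ)) := by ring
  rw [e]
  exact Valuation.map_add_lt _ h1 h

/-- two natural numbers with the same class modulo `2` -/
theorem v_nat_sub (hB : (2 : ℂ)⁻¹ ∉ B) {m n : ℕ} (h : (m : ZMod 2) = n) :
    B.valuation ((m : ℂ) - n) < 1 := by
  have h1 : ((m : ℤ) : ZMod 2) = ((n : ℤ) : ZMod 2) := by exact_mod_cast h
  rw [ZMod.intCast_eq_intCast_iff_dvd_sub] at h1
  obtain ⟨c, hc⟩ := h1
  have e : (m : ℂ) - n = 2 * ((-c : ℤ) : ℂ) := by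
    have h2 : ((n : ℤ) : ℂ) - ((m : ℤ) : ℂ) = 2 * (c : ℂ) := by exact_mod_cast congrArg (Int.cast (R := ℂ)) hc
    push_cast at h2 ⊢
    linear_combination -h2
  rw [e, map_mul]
  exact mul_lt_one_of_lt_of_le (two_lt hB) (v_int _)

theorem Rt.natCast (hB : (2 : ℂ)⁻¹ ∉ B) (n : ℕ) : Rt B (n : ℂ) (n : ZMod 2) := by
  unfold Rt
  exact v_nat_sub hB (by rw [ZMod.natCast_zmod_val])

theorem Rt.add (hB : (2 : ℂ)⁻¹ ∉ B) {z w : ℂ} {y x : ZMod 2} (h : Rt B z y) (h1 : Rt B w x) :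
    Rt B (z + w) (y + x) := by
  have h2 := Rt.natCast hB (y.val + x.val)
  rw [Nat.cast_add, Nat.cast_add, ZMod.natCast_zmod_val, ZMod.natCast_zmod_val] at h2
  refine h2.congr ?_
  have e : z + w - ((y.val : ℂ) + (x.val : ℂ)) = (z - (y.val : ℂ)) + (w - (x.val : ℂ)) := by ring
  rw [e]
  exact Valuation.map_add_lt _ h h1

theorem Rt.mul (hB : (2 : ℂ)⁻¹ ∉ B) {z w : ℂ} {y x : ZMod 2} (h : Rt B z y) (h1 : Rt B w x) :
    Rt B (z * w) (y * x) := by
  have h2 := Rt.natCast hB (y.val * x.val)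
  rw [Nat.cast_mul, Nat.cast_mul, ZMod.natCast_zmod_val, ZMod.natCast_zmod_val] at h2
  refine h2.congr ?_
  have e : z * w - ((y.val : ℂ) * (x.val : ℂ)) = (z - (y.val : ℂ)) * w + (y.val : ℂ) * (w - (x.val : ℂ)) := by
    ring
  rw [e]
  refine Valuation.map_add_lt _ ?_ ?_
  · rw [map_mul]
    exact mul_lt_one_of_lt_of_le h h1.le
  · rw [map_mul, mul_comm]
    exact mul_lt_one_of_lt_of_le h1 (v_nat _)

theorem Rt.neg (hB : (2 : ℂ)⁻¹ ∉ B) {z : ℂ} {y : ZMod 2} (h : Rt B z y) : Rt B (-z) y := by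
  have h1 : Rt B (-1) 1 := by
    refine Rt.one.congr ?_
    have e : (-1 : ℂ) - 1 = -2 := by norm_num
    rw [e, Valuation.map_neg]
    exact two_lt hB
  have h2 := h1.mul hB h
  rwa [neg_one_mul, one_mul] at h2

theorem Rt.sub (hB : (2 : ℂ)⁻¹ ∉ B) {z w : ℂ} {y x : ZMod 2} (h : Rt B z y) (h1 : Rt B w x) :
    Rt B (z - w) (y - x) := by
  rw [sub_eq_add_neg, sub_eq_add_neg, ZMod.neg_eq_self_mod_two]
  exact h.add hB (h1.neg hB)

theorem Rt.pow (hB : (2 : ℂ)⁻¹ ∉ B) {z : ℂ} {y : ZMod 2} (h : Rt B z y) (n : ℕ) : Rt B (z ^ n) (y ^ n) := by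
  induction n with
  | zero =>
    rw [pow_zero, pow_zero]
    exact Rt.one
  | succ n ih =>
    rw [pow_succ, pow_succ]
    exact ih.mul hB h

theorem Rt.sum (hB : (2 : ℂ)⁻¹ ∉ B) {α : Type*} (S : Finset α) {f : α → ℂ} {g : α → ZMod 2}
    (h : ∀ a ∈ S, Rt B (f a) (g a)) : Rt B (∑ a ∈ S, f a) (∑ a ∈ S, g a) := by
  classical
  induction S using Finset.induction_on with
  | empty => exact Rt.zero
  | insert a S ha ih =>
    rw [Finset.sum_insert ha, Finset.sum_insert ha]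
    exact (h a (Finset.mem_insert_self a S)).add hB
      (ih fun b hb => h b (Finset.mem_insert_of_mem hb))

theorem Rt.prod (hB : (2 : ℂ)⁻¹ ∉ B) {α : Type*} (S : Finset α) {f : α → ℂ} {g : α → ZMod 2}
    (h : ∀ a ∈ S, Rt B (f a) (g a)) : Rt B (∏ a ∈ S, f a) (∏ a ∈ S, g a) := by
  classical
  induction S using Finset.induction_on with
  | empty => exact Rt.one
  | insert a S ha ih =>
    rw [Finset.prod_insert ha, Finset.prod_insert ha]
    exact (h a (Finset.mem_insert_self a S)).mul hB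
      (ih fun b hb => h b (Finset.mem_insert_of_mem hb))

/-- a class which is not zero -/
theorem Rt.unit {z : ℂ} {y : ZMod 2} (h : Rt B z y) (hy : y ≠ 0) : B.valuation z = 1 := by
  have h0 : ∀ y : ZMod 2, y ≠ 0 → y = 1 := by decide
  have h1 : y = 1 := h0 y hy
  subst h1
  unfold Rt at h
  rw [ZMod.val_one, Nat.cast_one] at h
  have e : z = 1 + (z - 1) := by ring
  rw [e, Valuation.map_add_eq_of_lt_left]
  · exact map_one _
  · rwa [map_one]

theorem Rt.ne_zero {z : ℂ} {y : ZMod 2} (h : Rt B z y) (hy : y ≠ 0) : z ≠ 0 := by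
  intro h0
  have h1 := h.unit hy
  rw [h0, map_zero] at h1
  exact zero_ne_one h1

/-- the class is unique -/
theorem Rt.unique {z : ℂ} {y x : ZMod 2} (h : Rt B z y) (h1 : Rt B z x) : y = x := by
  by_contra hne
  have h3 : (y = 0 ∧ x = 1) ∨ (y = 1 ∧ x = 0) := by
    revert hne h h1
    have : ∀ y x : ZMod 2, ¬ y = x → (y = 0 ∧ x = 1) ∨ (y = 1 ∧ x = 0) := by decide
    intro _ _ hne
    exact this y x hne
  rcases h3 with ⟨rfl, rfl⟩ | ⟨rfl, rfl⟩
  · exact absurd (h1.unit one_ne_zero) h.lt.ne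
  · exact absurd (h.unit one_ne_zero) h1.lt.ne

/-- there are places above `2` -/
theorem exists_B2 : ∃ B : ValuationSubring ℂ, (2 : ℂ)⁻¹ ∉ B := by
  have h2 : (2 : ℂ) ∈ (⊥ : Subring ℂ) := by
    have := intCast_mem (⊥ : Subring ℂ) 2
    exact_mod_cast this
  have hI : Ideal.span {(⟨2, h2⟩ : (⊥ : Subring ℂ))} ≠ ⊤ := by
    intro h
    rw [Ideal.span_singleton_eq_top] at h
    obtain ⟨⟨b, hb⟩, e⟩ := isUnit_iff_exists_inv.mp h
    obtain ⟨n, rfl⟩ := Subring.mem_bot.1 hb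
    have e2 : (2 : ℂ) * n = 1 := congrArg Subtype.val e
    have e3 : (2 : ℤ) * n = 1 := by exact_mod_cast e2
    omega
  obtain ⟨B, _, hB⟩ := Ideal.image_subset_nonunits_valuationSubring _ hI
  refine ⟨B, ?_⟩
  have h3 : (2 : ℂ) ∈ B.nonunits := hB ⟨⟨2, h2⟩, Ideal.mem_span_singleton_self _, rfl⟩
  rcases B.mem_nonunits_iff_or.1 h3 with h | h
  · norm_num at h
  · exact h

end

end Pool.Agent.Lib.MP_1a91b9_ntQ
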