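import Pool.Agent.Lib.MP_1a91b9_ntQ.A.Avg4
import Pool.Agent.Lib.MP_1a91b9_ntQ.A.Res4
import Pool.Agent.Lib.MP_1a91b9_ntQ.R.Qd4

/-!
# Quartic twists, part A, file Wt4: the normalised weights
-/

set_option autoImplicit false

namespace Pool.Agent.Lib.MP_1a91b9_ntQ

open NumberField Pool.Agent.Lib.MP_1a91b9_nuT Pool.Agent.Lib.MP_1a91b9_nuT.S3
  Pool.Agent.Lib.MP_1a91b9_nuT.Ell

noncomputable section

/-- the normalised weight -/
def wt4 (S : Finset Pg) (x : 𝓞 K) : ℂ := w4 S x / lm ^ S.card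

section gen

variable {B : ValuationSubring ℂ}

theorem e4_cases (t : ZMod 4) : t = 0 ∨ t = 1 ∨ t = 2 ∨ t = 3 := by
  revert t
  decide

theorem md_zero : md 0 = 0 := map_zero md

theorem md_one : md 1 = 1 := map_one md

theorem md_two : md 2 = 0 := by
  have h := md_natCast 2
  rw [Nat.cast_ofNat, Nat.cast_ofNat] at h
  rw [h]
  rfl

theorem md_three : md 3 = 1 := by
  have h := md_natCast 3
  rw [Nat.cast_ofNat, Nat.cast_ofNat] at h
  rw [h]
  rfl

variable [CD] [Q4]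

theorem one_sub_zt_div : (1 - zt) / lm = -zt := by
  rw [div_eq_iff lm_ne, lm]
  linear_combination zt_sq

theorem two_div_lm : 2 / lm = 1 - zt := by
  rw [div_eq_iff lm_ne, lm]
  linear_combination zt_sq

theorem one_sub_e4_div (t : ZMod 4) : (1 - e4 t) / lm = 0 ∨ (1 - e4 t) / lm = -zt ∨
    (1 - e4 t) / lm = 1 - zt ∨ (1 - e4 t) / lm = 1 := by
  rcases e4_cases t with rfl | rfl | rfl | rfl
  · left
    rw [e4_zero, sub_self, zero_div]
  · right
    left
    rw [e4_one, one_sub_zt_div]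
  · right
    right
    left
    rw [e4_two, sub_neg_eq_add, one_add_one_eq_two, two_div_lm]
  · right
    right
    right
    rw [e4_three, sub_neg_eq_add]
    exact div_self lm_ne

/-- the residue class of `(1 - i ^ t) / (1 + i)` -/
theorem Rt_e4 (hB : (2 : ℂ)⁻¹ ∉ B) (t : ZMod 4) : Rt B ((1 - e4 t) / lm) (md t) := by
  have hl := v_lm_lt hB
  rcases e4_cases t with rfl | rfl | rfl | rfl
  · rw [e4_zero, sub_self, zero_div, md_zero]
    exact Rt.zero
  · rw [e4_one, one_sub_zt_div, md_one]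
    refine Rt.one.congr ?_
    have e : -zt - 1 = -lm := by rw [lm]; ring
    rw [e, Valuation.map_neg]
    exact hl
  · rw [e4_two, sub_neg_eq_add, one_add_one_eq_two, two_div_lm, md_two]
    refine Rt.of_lt ?_
    have e : 1 - zt = -(zt * lm) := by
      rw [lm]
      linear_combination zt_sq
    rw [e, Valuation.map_neg, map_mul, v_zt, one_mul]
    exact hl
  · rw [e4_three, sub_neg_eq_add, md_three]
    have e : (1 + zt) / lm = 1 := div_self lm_ne
    rw [e]
    exact Rt.one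

/-- `e4 (2 n)` is a sign, and `(1 - e4 (2 n)) / lm` is in `lm B` -/
theorem v_e4_two_mul (n : ZMod 4) : B.valuation ((1 - e4 (2 * n)) / lm) ≤ B.valuation lm := by
  have h : ∀ n : ZMod 4, 2 * n = 0 ∨ 2 * n = 2 := by decide
  rcases h n with h1 | h1
  · rw [h1, e4_zero, sub_self, zero_div, map_zero]
    exact zero_le
  · rw [h1, e4_two, sub_neg_eq_add, one_add_one_eq_two, two_div_lm]
    have e : 1 - zt = -(zt * lm) := by
      rw [lm]
      linear_combination zt_sq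
    rw [e, Valuation.map_neg, map_mul, v_zt, one_mul]

theorem v_e4 (t : ZMod 4) : B.valuation (e4 t) = 1 := by
  rw [e4, map_pow, v_zt, one_pow]

end gen

variable {B : ValuationSubring ℂ}

theorem not_dvd_neg_one (q : Pg) : ¬ q.1 ∣ (-1 : 𝓞 K) := fun h =>
  q.2.1.not_isUnit (isUnit_of_dvd_unit h isUnit_one.neg)

theorem c4_neg_one (q : Pg) : c4 q (-1) = 2 * nn q.1 := by
  have h1 : (-1 : 𝓞 K) = iO * iO := by
    rw [← pow_two]
    exact iO_sq.symm
  have h2 : ¬ q.1 ∣ iO := fun h => q.2.1.not_isUnit (isUnit_of_dvd_unit h isUnit_iO)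
  rw [h1, c4_mul q h2 h2, c4_i]
  ring

theorem ch4_neg (q : Pg) (x : 𝓞 K) : ch4 q (-x) = e4 (2 * nn q.1) * ch4 q x := by
  have h1 : -x = -1 * x := by ring
  rw [h1, (ch4_chrP q).mul, ch4_of_not (not_dvd_neg_one q), c4_neg_one]

theorem wt4_eq (S : Finset Pg) (x : 𝓞 K) : wt4 S x = ∏ q ∈ S, ((1 - ch4 q x) / lm) := by
  rw [wt4, w4, Finset.prod_div_distrib, Finset.prod_const]

/-- the residue class of the weight -/
theorem Rt_wt4 (hB : (2 : ℂ)⁻¹ ∉ B) {S : Finset Pg} {x : 𝓞 K} (h : ∀ q ∈ S, ¬ q.1 ∣ x) :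
    Rt B (wt4 S x) (∏ q ∈ S, c2 q x) := by
  rw [wt4_eq]
  refine Rt.prod hB S fun q hq => ?_
  rw [ch4_of_not (h q hq)]
  exact Rt_e4 hB _

theorem v_wt4 (hB : (2 : ℂ)⁻¹ ∉ B) {S : Finset Pg} {x : 𝓞 K}
    (h : ∀ q ∈ S, ¬ q.1 ∣ x) : B.valuation (wt4 S x) ≤ 1 := (Rt_wt4 hB h).le

theorem v_wt4_sub (hB : (2 : ℂ)⁻¹ ∉ B) {S : Finset Pg} {x y : 𝓞 K}
    (h : ∀ q ∈ S, ¬ q.1 ∣ x) (hxy : DDq S ∣ x + y) :
    B.valuation (wt4 S y - wt4 S x) ≤ B.valuation lm := by
  have hl := v_lm_lt hB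
  have h1 : ∀ q ∈ S, ch4 q y = e4 (2 * nn q.1) * ch4 q x := by
    intro q hq
    rw [← ch4_neg]
    refine (ch4_chrP q).per _ _ ?_
    have e : y - -x = x + y := by ring
    rw [e]
    exact (dvd_DDq.2 hq).trans hxy
  have key : ∀ T : Finset Pg, T ⊆ S → B.valuation (∏ q ∈ T, ((1 - ch4 q x) / lm)) ≤ 1 ∧
      B.valuation (∏ q ∈ T, ((1 - ch4 q y) / lm) - ∏ q ∈ T, ((1 - ch4 q x) / lm)) ≤
        B.valuation lm := by
    intro T
    induction T using Finset.induction_on with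
    | empty =>
      intro _
      rw [Finset.prod_empty, Finset.prod_empty, sub_self, map_one, map_zero]
      exact ⟨le_rfl, zero_le⟩
    | insert q T hq ih =>
      intro hT
      have hqS : q ∈ S := hT (Finset.mem_insert_self q T)
      obtain ⟨i1, i2⟩ := ih fun a ha => hT (Finset.mem_insert_of_mem ha)
      have a1 : B.valuation ((1 - ch4 q x) / lm) ≤ 1 := by
        rw [ch4_of_not (h q hqS)]
        exact (Rt_e4 hB _).le
      have a2 : B.valuation ((1 - ch4 q y) / lm - (1 - ch4 q x) / lm) ≤ B.valuation lm := by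
        have e : (1 - ch4 q y) / lm - (1 - ch4 q x) / lm =
            ch4 q x * ((1 - e4 (2 * nn q.1)) / lm) := by
          rw [h1 q hqS]
          ring
        rw [e, ch4_of_not (h q hqS), map_mul, v_e4, one_mul]
        exact v_e4_two_mul _
      have a3 : B.valuation ((1 - ch4 q y) / lm) ≤ 1 := by
        have e : (1 - ch4 q y) / lm = ((1 - ch4 q y) / lm - (1 - ch4 q x) / lm) +
            (1 - ch4 q x) / lm := by ring
        rw [e]
        exact (Valuation.map_add _ _ _).trans (max_le (a2.trans hl.le) a1)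
      rw [Finset.prod_insert hq, Finset.prod_insert hq]
      refine ⟨?_, ?_⟩
      · rw [map_mul]
        exact mul_le_one' a1 i1
      · obtain ⟨P, hP⟩ : ∃ P, P = ∏ q ∈ T, ((1 - ch4 q x) / lm) := ⟨_, rfl⟩
        obtain ⟨R, hR⟩ : ∃ R, R = ∏ q ∈ T, ((1 - ch4 q y) / lm) := ⟨_, rfl⟩
        rw [← hP] at i1 i2 ⊢
        rw [← hR] at i2 ⊢
        have e : (1 - ch4 q y) / lm * R - (1 - ch4 q x) / lm * P =
            (1 - ch4 q y) / lm * (R - P) + ((1 - ch4 q y) / lm - (1 - ch4 q x) / lm) * P := by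
          ring
        rw [e]
        refine (Valuation.map_add _ _ _).trans (max_le ?_ ?_)
        · rw [map_mul]
          exact (mul_le_mul' a3 i2).trans (by rw [one_mul])
        · rw [map_mul]
          exact (mul_le_mul' a2 i1).trans (by rw [mul_one])
  rw [wt4_eq, wt4_eq]
  exact (key S subset_rfl).2

theorem not_dvd_of_cop {q : Pg} {S : Finset Pg} (hq : q ∈ S) {x : 𝓞 K}
    (h : IsCoprime x (DDq S)) : ¬ q.1 ∣ x := fun h1 =>
  q.2.1.not_isUnit (h.isUnit_of_dvd' h1 (dvd_DDq.2 hq))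

theorem od_zp (k : ZMod 4) {S : Finset Pg} (hS : S.Nonempty) {x : 𝓞 K}
    (h : IsCoprime x (DDq S)) : Od (zp k S x) := by
  have hN : f4 k * DDq S ≠ 0 := mul_ne_zero (f4_ne k) (DDq_in4 S).ne_zero
  have hN' : em (f4 k * DDq S) ≠ 0 := em_ne hN
  refine ⟨⟨f4 k * DDq S, hN, ?_⟩, fun n hn => ?_⟩
  · rw [zp, mul_div_cancel₀ _ hN']
    exact em_mem x
  · obtain ⟨q, hq⟩ := hS
    obtain ⟨a, ha⟩ := S3.mem_PP_iff.1 hn
    have h1 : em (lam ^ n * x) = em (a * (f4 k * DDq S)) := by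
      have h2 : em a = lm ^ n * zp k S x := ha
      rw [em_mul, em_mul a, h2, zp, em_pow, em_lam, mul_assoc, div_mul_cancel₀ _ hN']
    have h3 : lam ^ n * x = a * (f4 k * DDq S) := em_inj h1
    have h4 : q.1 ∣ lam ^ n * x := by
      rw [h3]
      exact ((dvd_DDq.2 hq).mul_left _).mul_left _
    rcases q.2.1.dvd_or_dvd h4 with h5 | h5
    · exact lam_not_dvd q (q.2.1.dvd_of_dvd_pow h5)
    · exact not_dvd_of_cop hq h h5

end

end Pool.Agent.Lib.MP_1a91b9_ntQ
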