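import Pool.Agent.Lib.MP_1a91b9_ntQ.A.AlgX
import Mathlib.Algebra.Polynomial.Inductions

/-!
# Quartic twists, part A, file Alg0: the second order algebra of the class (X) for `k = 0`

`W0 m f T` is the determinant of `NM_T + X diag f` over `F_2[X]`; its coefficient at `X` is `CZ m f T` and its coefficient at `X ^ 2`
is `c2A m f T`. `z0 m v b f T = CZ m v T + (∑ i ∈ T, b i) * c2A m f T` is the solution of the recursion (7.5).

The values `CZ (nX s a q0) (s q0) S`, `CZ (nX s a q0) a S` for `∑ i ∈ S, a i = 0` (auxiliary prime `q0`).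
-/

set_option autoImplicit false

namespace Pool.Agent.Lib.MP_1a91b9_ntQ

open Finset Polynomial
open Pool.Agent.Lib.MP_1a91b9_ntK (NM NM_congr NM_empty NM_adj NM_update NM_zero GF GF_empty forest
  CZ CZ_eq forest_zero tri_unique)

variable {ι : Type*} [DecidableEq ι]

private theorem Alg0_neg : ∀ x : ZMod 2, -x = x := by decide

private theorem Alg0_one (n : ℕ) : ((-1 : ZMod 2)) ^ n = 1 := by
  have h : (-1 : ZMod 2) = 1 := rfl
  rw [h, one_pow]

private theorem Alg0_neg1 : (-1 : (ZMod 2)[X]) = 1 := by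
  have h : (-1 : ZMod 2) = 1 := rfl
  rw [← C_1, ← C_neg, h]

/-- the matrix `NM_T + X diag f` -/
noncomputable def W0 (m : ι → ι → ZMod 2) (f : ι → ZMod 2) (T : Finset ι) : Matrix T T (ZMod 2)[X] :=
  NM (fun i j => C (m i j)) (fun i => X * C (f i)) T

/-- the coefficient at `X ^ 2` of `det (NM_T + X diag f)` -/
noncomputable def c2A (m : ι → ι → ZMod 2) (f : ι → ZMod 2) (T : Finset ι) : ZMod 2 :=
  (W0 m f T).det.coeff 2

theorem W0_eval (m : ι → ι → ZMod 2) (f : ι → ZMod 2) (T : Finset ι) :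
    (constantCoeff : (ZMod 2)[X] →+* ZMod 2).mapMatrix (W0 m f T) = NM m 0 T := by
  ext i j
  rw [RingHom.mapMatrix_apply, Matrix.map_apply]
  simp only [W0, NM]
  split_ifs
  · rw [map_add, map_sum]
    simp
  · simp

theorem W0_coeff0 (m : ι → ι → ZMod 2) (f : ι → ZMod 2) {T : Finset ι} (hT : T.Nonempty) :
    (W0 m f T).det.coeff 0 = 0 := by
  have h1 := RingHom.map_det (constantCoeff : (ZMod 2)[X] →+* ZMod 2) (W0 m f T)
  rw [W0_eval, NM_zero (κ := 0) m hT (fun _ _ => rfl)] at h1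
  exact h1

/-- `(NM_T + X diag f) 1 = X f` -/
theorem W0_mulVec (m : ι → ι → ZMod 2) (f : ι → ZMod 2) (T : Finset ι) :
    (W0 m f T).mulVec (fun _ => 1) = fun i : T => X * C (f i) := by
  have h1 := NM_mulVec_one (fun i j : ι => (C (m i j) : (ZMod 2)[X])) T
  have h2 : W0 m f T = NM (fun i j => C (m i j)) 0 T +
      Matrix.diagonal (fun i : T => X * C (f i)) := by
    ext1 i j
    rw [Matrix.add_apply]
    by_cases h : i = j
    · subst h
      simp only [W0, NM, if_true, Pi.zero_apply, zero_add, Matrix.diagonal_apply_eq]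
      rw [add_comm]
    · simp only [W0, NM, if_neg h, Matrix.diagonal_apply_ne _ h, add_zero]
  rw [h2, Matrix.add_mulVec, h1, zero_add]
  ext1 i
  rw [Matrix.mulVec_diagonal, mul_one]

/-- the entries of `adj (NM_T + X diag f) f` are all equal to `det / X` -/
theorem W0_adj (m : ι → ι → ZMod 2) (f : ι → ZMod 2) {T : Finset ι} (i : T) :
    ∑ j : T, (W0 m f T).adjugate i j * C (f j) = (W0 m f T).det.divX := by
  have h1 : (W0 m f T).adjugate.mulVec ((W0 m f T).mulVec (fun _ => 1)) =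
      fun _ => (W0 m f T).det := by
    rw [Matrix.mulVec_mulVec, Matrix.adjugate_mul, Matrix.smul_mulVec, Matrix.one_mulVec]
    ext1 j
    rw [Pi.smul_apply, smul_eq_mul, mul_one]
  rw [W0_mulVec] at h1
  have h2 := congrFun h1 i
  simp only [Matrix.mulVec, dotProduct] at h2
  have h3 : X * ∑ j : T, (W0 m f T).adjugate i j * C (f j) = (W0 m f T).det := by
    rw [← h2, mul_sum]
    exact sum_congr rfl fun j _ => by ring
  have h4 := W0_coeff0 m f ⟨(i : ι), i.2⟩
  have h5 := divX_mul_X_add (W0 m f T).det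
  rw [h4, C_0, add_zero, mul_comm] at h5
  exact (mul_left_cancel₀ X_ne_zero (h5.trans h3.symm)).symm

theorem W0_coeff1 (m : ι → ι → ZMod 2) (f : ι → ZMod 2) {T : Finset ι} (hT : T.Nonempty) :
    (W0 m f T).det.coeff 1 = CZ m f T := by
  obtain ⟨i, hi⟩ := hT
  have h1 := W0_adj m f (⟨i, hi⟩ : T)
  have h2 := congrArg (fun p : (ZMod 2)[X] => constantCoeff p) h1
  have hC : ∀ x : ZMod 2, (constantCoeff : (ZMod 2)[X] →+* ZMod 2) (C x) = x := fun x => by
    rw [constantCoeff_apply, coeff_C_zero]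
  simp only [map_sum, map_mul, hC] at h2
  have h3 : ∀ x y : T, constantCoeff ((W0 m f T).adjugate x y) = (NM m 0 T).adjugate x y := by
    intro x y
    have h := RingHom.map_adjugate (constantCoeff : (ZMod 2)[X] →+* ZMod 2) (W0 m f T)
    rw [W0_eval] at h
    rw [← h, RingHom.mapMatrix_apply, Matrix.map_apply]
  rw [constantCoeff_apply, coeff_divX] at h2
  rw [← h2, CZ]
  refine sum_congr rfl fun j _ => ?_
  rw [h3, adj_row (NM_mulVec_one m T) ⟨i, hi⟩ j j, mul_comm]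

theorem HamA_map {R R' : Type*} [CommRing R] [CommRing R'] (φ : R →+* R') (m : ι → ι → R)
    (f : ι → R) (n : ℕ) (S : Finset ι) (i : ι) :
    HamA (fun i j => φ (m i j)) (fun i => φ (f i)) n S i = φ (HamA m f n S i) := by
  induction n generalizing S i with
  | zero => rw [HamA, HamA, map_zero]
  | succ n ih =>
    rw [HamA, HamA, map_add, map_sum]
    congr 1
    · split_ifs
      · rfl
      · rw [map_zero]
    · exact sum_congr rfl fun j _ => by rw [ih, map_mul]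

omit [DecidableEq ι] in
private theorem Alg0_prod0 (f c : ι → ZMod 2) (A : Finset ι) :
    (∏ q ∈ A, (X * C (f q) + C (c q))).coeff 0 = ∏ q ∈ A, c q := by
  rw [coeff_zero_eq_eval_zero, eval_prod]
  refine prod_congr rfl fun q _ => ?_
  simp

private theorem Alg0_prod1 (f c : ι → ZMod 2) (A : Finset ι) :
    (∏ q ∈ A, (X * C (f q) + C (c q))).coeff 1 = ∑ q ∈ A, f q * ∏ p ∈ A.erase q, c p := by
  induction A using Finset.induction_on with
  | empty => simp [coeff_one]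
  | insert q A hq ih =>
    rw [prod_insert hq, mul_coeff_one, ih, Alg0_prod0, sum_insert hq, erase_insert hq]
    have h1 : (X * C (f q) + C (c q)).coeff 0 = c q := by simp
    have h2 : (X * C (f q) + C (c q)).coeff 1 = f q := by
      rw [coeff_add, coeff_X_mul, coeff_C_zero, coeff_C_succ, add_zero]
    rw [h1, h2, mul_sum, add_comm]
    congr 1
    refine sum_congr rfl fun p hp => ?_
    have hpq : q ≠ p := fun h => hq (h ▸ hp)
    rw [erase_insert_of_ne hpq, prod_insert (fun h => hq (mem_of_mem_erase h))]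
    ring

/-- the right hand side of (5.3): `∑ (T ≠ ∅) (b(T) τ_T.f) ∑ (p ∈ J - T) f_p ∏ (q ∈ J - T - p) G_q(T)` -/
def RaX0 (m : ι → ι → ZMod 2) (b f : ι → ZMod 2) (J : Finset ι) : ZMod 2 :=
  ∑ T ∈ J.powerset.erase ∅, ((∑ i ∈ T, b i) * CZ m f T) * ∑ q ∈ J \ T, f q *
    ∏ p ∈ (J \ T).erase q, ∑ r ∈ T, m p r

/-- **The first part of (7.6).** -/
theorem alg0_c2 (m : ι → ι → ZMod 2) (b f : ι → ZMod 2) (J : Finset ι) :
    ∑ T ∈ J.powerset.erase ∅, ((∑ i ∈ T, b i) * c2A m f T) * ∏ q ∈ J \ T, ∑ p ∈ T, m q p =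
      RaX0 m b f J := by
  have h1 := ham_id (fun i j => C (m i j)) (fun i => X * C (f i)) (fun i => C (b i))
    (fun i => C (f i)) J
  have h2 : (((-1 : (ZMod 2)[X]) ^ J.card * ∑ i ∈ J, C (b i) *
      Ham (fun i j => C (m i j)) (fun i => C (f i)) J i)).coeff 1 = 0 := by
    rw [Alg0_neg1, one_pow, one_mul, finsetSum_coeff]
    refine sum_eq_zero fun i _ => ?_
    rw [Ham, HamA_map C m f, ← C_mul, coeff_C_succ]
  rw [← h1, ← add_sum_erase _ _ (empty_mem_powerset J)] at h2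
  have h3 : ∀ T ∈ J.powerset.erase ∅, ((-1 : (ZMod 2)[X]) ^ T.card *
      (∑ i : T, ∑ j : T, C (b i) * (NM (fun i j => C (m i j)) (fun i => X * C (f i)) T).adjugate i j *
        C (f j)) * ∏ q ∈ J \ T, (X * C (f q) + ∑ p ∈ T, C (m q p))).coeff 1 =
      ((∑ i ∈ T, b i) * c2A m f T) * ∏ q ∈ J \ T, ∑ p ∈ T, m q p +
        ((∑ i ∈ T, b i) * CZ m f T) * ∑ q ∈ J \ T, f q *
          ∏ p ∈ (J \ T).erase q, ∑ r ∈ T, m p r := by
    intro T hT
    have hT0 : T.Nonempty := nonempty_iff_ne_empty.2 (ne_of_mem_erase hT)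
    have e1 : ∑ i : T, ∑ j : T, C (b i) *
        (NM (fun i j => C (m i j)) (fun i => X * C (f i)) T).adjugate i j * C (f j) =
        C (∑ i ∈ T, b i) * (W0 m f T).det.divX := by
      rw [map_sum, sum_mul, ← sum_coe_sort T (fun i => C (b i) * (W0 m f T).det.divX)]
      refine sum_congr rfl fun i _ => ?_
      rw [← W0_adj m f i, mul_sum]
      exact sum_congr rfl fun j _ => by rw [W0, mul_assoc]
    have e2 : ∀ q, ∑ p ∈ T, C (m q p) = C (∑ p ∈ T, m q p) := fun q => (map_sum C _ _).symm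
    have e3 : ((W0 m f T).det.divX).coeff 0 = CZ m f T := by
      rw [coeff_divX, zero_add, W0_coeff1 m f hT0]
    have e4 : ((W0 m f T).det.divX).coeff 1 = c2A m f T := by
      rw [coeff_divX, c2A]
    rw [e1, Alg0_neg1, one_pow, one_mul]
    simp only [e2]
    rw [mul_coeff_one, Alg0_prod0 f (fun q => ∑ p ∈ T, m q p),
      Alg0_prod1 f (fun q => ∑ p ∈ T, m q p), coeff_C_mul, coeff_C_mul, e3, e4, add_comm]
  have h4 : ((-1 : (ZMod 2)[X]) ^ (∅ : Finset ι).card *
      (∑ i : ↥(∅ : Finset ι), ∑ j : ↥(∅ : Finset ι), C (b i) *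
        (NM (fun i j => C (m i j)) (fun i => X * C (f i)) ∅).adjugate i j * C (f j)) *
          ∏ q ∈ J \ ∅, (X * C (f q) + ∑ p ∈ (∅ : Finset ι), C (m q p))).coeff 1 = 0 := by
    simp
  rw [coeff_add, h4, zero_add, finsetSum_coeff, sum_congr rfl h3, sum_add_distrib] at h2
  have h6 : ∀ x y : ZMod 2, x + y = 0 → x = y := by decide
  exact h6 _ _ h2

/-- the same with the sum over `p` outside -/
theorem RaX0_eq (m : ι → ι → ZMod 2) (b f : ι → ZMod 2) (J : Finset ι) :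
    RaX0 m b f J = ∑ i ∈ J, f i * ∑ T ∈ (J.erase i).powerset.erase ∅,
      ((∑ j ∈ T, b j) * CZ m f T) * ∏ q ∈ J.erase i \ T, ∑ p ∈ T, m q p := by
  simp only [RaX0, mul_sum]
  rw [sum_comm' (s' := fun i => (J.erase i).powerset.erase ∅) (t' := J)]
  · refine sum_congr rfl fun i hi => sum_congr rfl fun T hT => ?_
    rw [erase_sdiff_comm]
    ring
  · intro T i
    simp only [mem_erase, mem_powerset, mem_sdiff, subset_erase]
    tauto

/-- the solution of (7.5) -/
noncomputable def z0 (m : ι → ι → ZMod 2) (v b f : ι → ZMod 2) (T : Finset ι) : ZMod 2 :=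
  CZ m v T + (∑ i ∈ T, b i) * c2A m f T

/-- **(7.5), (7.6).** -/
theorem alg0 (m : ι → ι → ZMod 2) (v b f : ι → ZMod 2) {J : Finset ι} (hJ : J.Nonempty) :
    ∑ T ∈ J.powerset.erase ∅, z0 m v b f T * ∏ q ∈ J \ T, ∑ p ∈ T, m q p =
      (if J.card = 1 then ∑ i ∈ J, v i else 0) + RaX0 m b f J := by
  have h1 := forest_zero m v hJ
  have h2 : (if J.card = 1 then ∑ i ∈ J, v i else 0) =
      if J.card = 1 then -∑ i ∈ J, v i else 0 := by rw [Alg0_neg]
  rw [← alg0_c2, h2, ← h1, ← sum_add_distrib]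
  refine sum_congr rfl fun T _ => ?_
  rw [Alg0_one, one_mul, z0]
  ring

/-- **Uniqueness.** -/
theorem alg0_unique (m : ι → ι → ZMod 2) (v b f : ι → ZMod 2) {S : Finset ι}
    {z : Finset ι → ZMod 2}
    (h : ∀ J ⊆ S, J.Nonempty →
      ∑ T ∈ J.powerset.erase ∅, z T * ∏ q ∈ J \ T, ∑ p ∈ T, m q p =
        (if J.card = 1 then ∑ i ∈ J, v i else 0) + RaX0 m b f J) :
    ∀ J ⊆ S, J.Nonempty → z J = z0 m v b f J := by
  refine tri_unique (c := fun J T => ∏ q ∈ J \ T, ∑ p ∈ T, m q p) (by simp) ?_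
  intro J hJ hJ0
  have h1 := h J hJ hJ0
  rw [← alg0 m v b f hJ0] at h1
  refine Eq.trans ?_ (h1.trans ?_)
  · exact sum_congr rfl fun T _ => by rw [Alg0_one, one_mul]
  · exact sum_congr rfl fun T _ => by rw [Alg0_one, one_mul]

/-- the recursion of `z0` -/
theorem z0_rec (m : ι → ι → ZMod 2) (v b f : ι → ZMod 2) {J : Finset ι} (hJ : J.Nonempty) :
    z0 m v b f J = (if J.card = 1 then ∑ i ∈ J, v i else 0) + RaX0 m b f J +
      ∑ T ∈ (J.powerset.erase ∅).erase J, z0 m v b f T * ∏ q ∈ J \ T, ∑ p ∈ T, m q p := by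
  have h1 := alg0 m v b f hJ
  have hm : J ∈ J.powerset.erase ∅ := mem_erase.2 ⟨hJ.ne_empty, mem_powerset_self J⟩
  have h2 : ∀ x : ZMod 2, x + x = 0 := by decide
  rw [← add_sum_erase _ _ hm, Finset.sdiff_self, prod_empty, mul_one] at h1
  rw [← h1, add_assoc, h2, add_zero]

/-- the value for `b(T) = 0` -/
theorem z0_of (m : ι → ι → ZMod 2) (v b f : ι → ZMod 2) {T : Finset ι} (h : ∑ i ∈ T, b i = 0) :
    z0 m v b f T = CZ m v T := by
  rw [z0, h, zero_mul, add_zero]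

/-! ### The recursion of `CZ` -/

theorem CZ_sum (m : ι → ι → ZMod 2) (v : ι → ZMod 2) {J : Finset ι} (hJ : J.Nonempty) :
    ∑ T ∈ J.powerset.erase ∅, CZ m v T * ∏ q ∈ J \ T, ∑ p ∈ T, m q p =
      if J.card = 1 then ∑ i ∈ J, v i else 0 := by
  have h1 := forest_zero m v hJ
  have h2 : (if J.card = 1 then ∑ i ∈ J, v i else 0) =
      if J.card = 1 then -∑ i ∈ J, v i else 0 := by rw [Alg0_neg]
  rw [h2, ← h1]
  exact sum_congr rfl fun T _ => by rw [Alg0_one, one_mul]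

theorem CZ_rec (m : ι → ι → ZMod 2) (v : ι → ZMod 2) {J : Finset ι} (hJ : J.Nonempty) :
    CZ m v J = (if J.card = 1 then ∑ i ∈ J, v i else 0) +
      ∑ T ∈ (J.powerset.erase ∅).erase J, CZ m v T * ∏ q ∈ J \ T, ∑ p ∈ T, m q p := by
  have h1 := CZ_sum m v hJ
  have hm : J ∈ J.powerset.erase ∅ := mem_erase.2 ⟨hJ.ne_empty, mem_powerset_self J⟩
  have h2 : ∀ x : ZMod 2, x + x = 0 := by decide
  rw [← add_sum_erase _ _ hm, Finset.sdiff_self, prod_empty, mul_one] at h1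
  rw [← h1, add_assoc, h2, add_zero]

theorem CZ_unique (m : ι → ι → ZMod 2) (v : ι → ZMod 2) {S : Finset ι} {z : Finset ι → ZMod 2}
    (h : ∀ J ⊆ S, J.Nonempty →
      ∑ T ∈ J.powerset.erase ∅, z T * ∏ q ∈ J \ T, ∑ p ∈ T, m q p =
        if J.card = 1 then ∑ i ∈ J, v i else 0) :
    ∀ J ⊆ S, J.Nonempty → z J = CZ m v J := by
  refine tri_unique (c := fun J T => ∏ q ∈ J \ T, ∑ p ∈ T, m q p) (by simp) ?_
  intro J hJ hJ0
  have h1 := h J hJ hJ0
  rw [← CZ_sum m v hJ0] at h1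
  refine Eq.trans ?_ (h1.trans ?_)
  · exact sum_congr rfl fun T _ => by rw [Alg0_one, one_mul]
  · exact sum_congr rfl fun T _ => by rw [Alg0_one, one_mul]

/-! ### The values at `S`, auxiliary prime `q0` -/

section Aux

variable (s : ι → ι → ZMod 2) (hs : ∀ p q, p ≠ q → s p q = s q p) (a : ι → ZMod 2)
  (q0 : ι) {S : Finset ι} (hA : ∑ i ∈ S, a i = 0)

include hA

/-- `NM_S = N_0(S) + s_0 aᵀ` -/
theorem nX_N4 : NM (nX s a q0) 0 S =
    N4 s 0 S + Matrix.vecMulVec (fun i : S => s q0 i) (fun i : S => a i) := by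
  ext i j
  rw [Matrix.add_apply, Matrix.vecMulVec_apply, N4_eq]
  by_cases h : i = j
  · subst h
    simp only [NM, if_true, Pi.zero_apply, zero_add]
    have h1 : a i + ∑ p ∈ S.erase (i : ι), a p = 0 := by rw [add_sum_erase S a i.2, hA]
    have h2 : ∑ p ∈ S.erase (i : ι), nX s a q0 i p =
        ∑ p ∈ S.erase (i : ι), s i p + s q0 i * ∑ p ∈ S.erase (i : ι), a p := by
      rw [mul_sum, ← sum_add_distrib]
      refine sum_congr rfl fun p _ => ?_
      rw [nX, mX]
      ring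
    have h3 : ∑ p ∈ S.erase (i : ι), a p = a i := by
      have : ∀ x y : ZMod 2, x + y = 0 → y = x := by decide
      exact this _ _ h1
    rw [h2, h3]
  · simp only [NM, if_neg h, nX, mX]
    have h4 : ∀ x y z : ZMod 2, -(x + y * z) = -x + z * y := by decide
    exact h4 _ _ _

include hs

/-- **`τ_S.s_0 = (∑ s_0) κ_0`.** -/
theorem CZ_s0 (hS : S.Nonempty) :
    CZ (nX s a q0) (fun i => s q0 i) S = (∑ i ∈ S, s q0 i) * kap0 s S := by
  obtain ⟨r, hr⟩ := hS
  have h1 := AlgX_det (nX s a q0) (fun i => s q0 i)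
    (fun i => a i + if i = r then 1 else 0) ⟨r, hr⟩
  have h2 : ∑ i ∈ S, (a i + if i = r then 1 else 0) = 1 := by
    rw [sum_add_distrib, hA, zero_add, sum_ite_eq' S r, if_pos hr]
  rw [h2, one_mul] at h1
  have h3 : NM (nX s a q0) 0 S + Matrix.vecMulVec (fun i : S => s q0 i)
      (fun i : S => a i + if (i : ι) = r then 1 else 0) =
      N4 s 0 S + Matrix.vecMulVec (fun i : S => s q0 i)
        (fun i : S => if (i : ι) = r then 1 else 0) := by
    rw [nX_N4 s a q0 hA]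
    ext i j
    simp only [Matrix.add_apply, Matrix.vecMulVec_apply]
    have h : ∀ x y z w : ZMod 2, x + y * z + y * (z + w) = x + y * w := by decide
    exact h _ _ _ _
  rw [h3, det_add_vec, N4_eq, NM_zero (κ := 0) s ⟨r, hr⟩ (fun _ _ => rfl), zero_add] at h1
  rw [← h1, ← N4_eq, ← sum_coe_sort S (fun i => s q0 i), sum_mul]
  have h4 : ∀ i : S, ∑ j : S, (if (i : ι) = r then (1 : ZMod 2) else 0) *
      (N4 s 0 S).adjugate i j * s q0 j =
      if i = ⟨r, hr⟩ then ∑ j : S, kap0 s S * s q0 j else 0 := by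
    intro i
    by_cases h : i = ⟨r, hr⟩
    · rw [if_pos h]
      refine sum_congr rfl fun j _ => ?_
      rw [if_pos (by rw [h]), one_mul, kap0_adj s hs]
    · rw [if_neg h]
      refine sum_eq_zero fun j _ => ?_
      rw [if_neg (fun h' => h (Subtype.ext h')), zero_mul, zero_mul]
  rw [sum_congr rfl fun i _ => h4 i, sum_ite_eq' univ, if_pos (mem_univ _)]
  exact sum_congr rfl fun j _ => mul_comm _ _

/-- **`τ_S.a = (∑ s_0) κ`.** -/
theorem CZ_a (hS : S.Nonempty) :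
    CZ (nX s a q0) a S = (∑ i ∈ S, s q0 i) * kapX s a 0 S := by
  obtain ⟨r, hr⟩ := hS
  let e : S → ZMod 2 := fun i => if i = ⟨r, hr⟩ then 1 else 0
  have h1 := det_rank_one (N4 s 0 S) (fun i : S => s q0 i) (fun i : S => a i) (fun i : S => a i)
    e 0
  have h2 : N4 s 0 S - Matrix.vecMulVec (fun i : S => s q0 i) (fun i : S => a i) =
      NM (nX s a q0) 0 S := by
    rw [nX_N4 s a q0 hA]
    ext i j
    simp only [Matrix.add_apply, Matrix.sub_apply]
    have h : ∀ x y : ZMod 2, x - y = x + y := by decide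
    exact h _ _
  have h3 : BM (N4 s 0 S) (fun i : S => a i) (fun i : S => a i) 0 = B4 s 0 a 0 S := by
    rw [B4_BM, N4_eq]
  simp only [zero_mul, sub_zero] at h1
  rw [h2, h3, det_BM, det_BM, zero_mul, zero_mul, zero_sub, zero_sub, neg_neg] at h1
  have h4 : ∑ i : S, ∑ j : S, e i * (NM (nX s a q0) 0 S).adjugate i j * a j =
      CZ (nX s a q0) a S := by
    have h : ∀ i : S, ∑ j : S, e i * (NM (nX s a q0) 0 S).adjugate i j * a j =
        if i = ⟨r, hr⟩ then CZ (nX s a q0) a S else 0 := by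
      intro i
      by_cases hi : i = ⟨r, hr⟩
      · rw [if_pos hi, CZ]
        refine sum_congr rfl fun j _ => ?_
        rw [show e i = 1 from if_pos hi, adj_row (NM_mulVec_one _ S) i j j]
        ring
      · rw [if_neg hi]
        refine sum_eq_zero fun j _ => ?_
        rw [show e i = 0 from if_neg hi, zero_mul, zero_mul]
    rw [sum_congr rfl fun i _ => h i, sum_ite_eq' univ, if_pos (mem_univ _)]
  rw [h4, Fintype.sum_sum_type] at h1
  have h5 : ∀ x : S ⊕ Unit, ∑ j : S ⊕ Unit,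
      (B4 s 0 a 0 S).adjugate x j * Sum.elim (fun i : S => s q0 i) (fun _ => 1) j =
      kapX s a 0 S * vX S x * ∑ i ∈ S, s q0 i := by
    intro x
    rw [Fintype.sum_sum_type, ← sum_coe_sort S (fun i => s q0 i), mul_sum]
    have h6 : ∑ j : Unit, (B4 s 0 a 0 S).adjugate x (Sum.inr j) *
        Sum.elim (fun i : S => s q0 i) (fun _ => 1) (Sum.inr j : S ⊕ Unit) = 0 := by
      refine sum_eq_zero fun j _ => ?_
      rw [kapX_adj s hs a 0 ⟨r, hr⟩ hA]
      have : vX S (Sum.inr j) = 0 := rfl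
      rw [this, mul_zero, mul_zero, zero_mul]
    rw [h6, add_zero]
    refine sum_congr rfl fun j _ => ?_
    rw [kapX_adj s hs a 0 ⟨r, hr⟩ hA]
    have : vX S (Sum.inl j) = 1 := rfl
    rw [this, mul_one, Sum.elim_inl]
  have h7 : ∀ x : S ⊕ Unit, ∑ j : S ⊕ Unit,
      Sum.elim e (fun _ => 0) x * (B4 s 0 a 0 S).adjugate x j *
        Sum.elim (fun i : S => s q0 i) (fun _ => 1) j =
      Sum.elim e (fun _ => 0) x * (kapX s a 0 S * vX S x * ∑ i ∈ S, s q0 i) := by
    intro x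
    rw [← h5 x, mul_sum]
    exact sum_congr rfl fun j _ => mul_assoc _ _ _
  rw [Alg0_neg, sum_congr rfl fun x _ => h7 (Sum.inl x), sum_congr rfl fun x _ => h7 (Sum.inr x)] at h1
  have h8 : ∀ x : S, Sum.elim e (fun _ => 0) (Sum.inl x : S ⊕ Unit) *
      (kapX s a 0 S * vX S (Sum.inl x) * ∑ i ∈ S, s q0 i) =
      if x = ⟨r, hr⟩ then (∑ i ∈ S, s q0 i) * kapX s a 0 S else 0 := by
    intro x
    have h9 : vX S (Sum.inl x) = 1 := rfl
    rw [Sum.elim_inl, h9, mul_one]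
    by_cases hx : x = ⟨r, hr⟩
    · rw [if_pos hx, show e x = 1 from if_pos hx, one_mul, mul_comm]
    · rw [if_neg hx, show e x = 0 from if_neg hx, zero_mul]
  rw [h1, sum_congr rfl fun x _ => h8 x, sum_ite_eq' univ, if_pos (mem_univ _)]
  simp

/-- **`τ_S.(a + h s_0) = (∑ s_0) κ(h)`**, `κ(h)` the cofactor with the corner `h`. -/
theorem CZ_ah (hS : S.Nonempty) (h : ZMod 2) :
    CZ (nX s a q0) (fun i => a i + h * s q0 i) S = (∑ i ∈ S, s q0 i) * kapX s a h S := by
  have h1 : CZ (nX s a q0) (fun i => a i + h * s q0 i) S =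
      CZ (nX s a q0) a S + h * CZ (nX s a q0) (fun i => s q0 i) S := by
    rw [CZ, CZ, CZ, mul_sum, ← sum_add_distrib]
    exact sum_congr rfl fun i _ => by ring
  rw [h1, CZ_a s hs a q0 hA hS, CZ_s0 s hs a q0 hA hS, kapX_add s hs a h hS hA]
  ring

end Aux

/-! ### The end statements -/

section End

variable (s : ι → ι → ZMod 2) (a b : ι → ZMod 2) (q0 : ι)

/-- the solution of (4.1) (`v = a + h s_0`), of (A) mod `m` (`v = s_0`) and of (5.4) (`v = a`) -/
noncomputable def tauX (v : ι → ZMod 2) (T : Finset ι) : ZMod 2 := CZ (nX s a q0) v T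

/-- the solution of (5.3) -/
noncomputable def zX (T : Finset ι) : ZMod 2 :=
  z0 (nX s a q0) (fun i => a i + s q0 i) b (fun i => s q0 i) T

/-- the right hand side of (5.3) without the term of the sets with one element -/
noncomputable def RaX (J : Finset ι) : ZMod 2 :=
  ∑ T ∈ J.powerset.erase ∅, (tauX s a q0 (fun i => s q0 i) T * ∑ i ∈ T, b i) *
    ∑ p ∈ J \ T, s q0 p * ∏ q ∈ (J \ T).erase p, ∑ j ∈ T, mX s a q0 j q

theorem RaX_eq (J : Finset ι) : RaX s a b q0 J = RaX0 (nX s a q0) b (fun i => s q0 i) J := by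
  rw [RaX, RaX0]
  refine sum_congr rfl fun T _ => ?_
  rw [tauX, mul_comm (CZ _ _ T)]
  rfl

theorem tauX_sum (v : ι → ZMod 2) {J : Finset ι} (hJ : J.Nonempty) :
    ∑ T ∈ J.powerset.erase ∅, tauX s a q0 v T * ∏ q ∈ J \ T, ∑ j ∈ T, mX s a q0 j q =
      if J.card = 1 then ∑ i ∈ J, v i else 0 := CZ_sum (nX s a q0) v hJ

theorem tauX_rec (v : ι → ZMod 2) {J : Finset ι} (hJ : J.Nonempty) :
    tauX s a q0 v J = (if J.card = 1 then ∑ i ∈ J, v i else 0) +
      ∑ T ∈ (J.powerset.erase ∅).erase J, tauX s a q0 v T *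
        ∏ q ∈ J \ T, ∑ j ∈ T, mX s a q0 j q := CZ_rec (nX s a q0) v hJ

theorem tauX_unique (v : ι → ZMod 2) {S : Finset ι} {z : Finset ι → ZMod 2}
    (h : ∀ J ⊆ S, J.Nonempty →
      ∑ T ∈ J.powerset.erase ∅, z T * ∏ q ∈ J \ T, ∑ j ∈ T, mX s a q0 j q =
        if J.card = 1 then ∑ i ∈ J, v i else 0) :
    ∀ J ⊆ S, J.Nonempty → z J = tauX s a q0 v J := CZ_unique (nX s a q0) v h

theorem zX_sum {J : Finset ι} (hJ : J.Nonempty) :
    ∑ T ∈ J.powerset.erase ∅, zX s a b q0 T * ∏ q ∈ J \ T, ∑ j ∈ T, mX s a q0 j q =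
      (if J.card = 1 then ∑ i ∈ J, (a i + s q0 i) else 0) + RaX s a b q0 J := by
  rw [RaX_eq]
  exact alg0 (nX s a q0) _ b _ hJ

theorem zX_rec {J : Finset ι} (hJ : J.Nonempty) :
    zX s a b q0 J = (if J.card = 1 then ∑ i ∈ J, (a i + s q0 i) else 0) + RaX s a b q0 J +
      ∑ T ∈ (J.powerset.erase ∅).erase J, zX s a b q0 T *
        ∏ q ∈ J \ T, ∑ j ∈ T, mX s a q0 j q := by
  rw [RaX_eq]
  exact z0_rec (nX s a q0) _ b _ hJ

theorem zX_unique {S : Finset ι} {z : Finset ι → ZMod 2}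
    (h : ∀ J ⊆ S, J.Nonempty →
      ∑ T ∈ J.powerset.erase ∅, z T * ∏ q ∈ J \ T, ∑ j ∈ T, mX s a q0 j q =
        (if J.card = 1 then ∑ i ∈ J, (a i + s q0 i) else 0) + RaX s a b q0 J) :
    ∀ J ⊆ S, J.Nonempty → z J = zX s a b q0 J := by
  refine alg0_unique (nX s a q0) _ b _ fun J hJ hJ0 => ?_
  rw [← RaX_eq]
  exact h J hJ hJ0

variable (hs : ∀ p q, p ≠ q → s p q = s q p) {S : Finset ι} (hS : S.Nonempty)
  (hA : ∑ i ∈ S, a i = 0) (h0 : ∑ i ∈ S, s q0 i = 1)

include hs hS hA h0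

/-- `σ_S = κ_0` -/
theorem tauX_s0 : tauX s a q0 (fun i => s q0 i) S = kap0 s S := by
  rw [tauX, CZ_s0 s hs a q0 hA hS, h0, one_mul]

/-- (5.4): `z(S) = κ` -/
theorem tauX_a : tauX s a q0 a S = kapX s a 0 S := by
  rw [tauX, CZ_a s hs a q0 hA hS, h0, one_mul]

/-- (4.1): `y_2^h(S) = κ + h κ_0 = ` the cofactor with the corner `h` -/
theorem tauX_ah (h : ZMod 2) : tauX s a q0 (fun i => a i + h * s q0 i) S = kapX s a h S := by
  rw [tauX, CZ_ah s hs a q0 hA hS, h0, one_mul]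

/-- (5.3): `z(S) = κ + κ_0` if `b_S = 0` -/
theorem zX_S (hb : ∑ i ∈ S, b i = 0) : zX s a b q0 S = kapX s a 1 S := by
  have h1 := tauX_ah s a q0 hs hS hA h0 1
  simp only [one_mul] at h1
  rw [zX, z0_of _ _ b _ hb, ← h1, tauX]

end End

end Pool.Agent.Lib.MP_1a91b9_ntQ
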