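import Pool.Agent.Lib.MP_1a91b9_ntQ.A.AvgX
import Pool.Agent.Lib.MP_1a91b9_ntQ.A.Alg0
import Pool.Agent.Lib.MP_1a91b9_ntQ.A.Wt4

/-!
# Quartic twists, part A, file IndX: class (X), the weights and the first order induction

`fX k h q0 T q` is the normalised Euler factor `(θ(q) q - χ_T(q)) / λ`. `ind1` is the first order
induction.
-/

set_option autoImplicit false

namespace Pool.Agent.Lib.MP_1a91b9_ntQ

open NumberField Pool.Agent.Lib.MP_1a91b9_nuT Pool.Agent.Lib.MP_1a91b9_nuT.S3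
  Pool.Agent.Lib.MP_1a91b9_nuT.Ell
open Pool.Agent.Lib.MP_1a91b9_ntK (CZ)

noncomputable section

/-! ### The Euler factors -/

/-- the normalised Euler factor -/
def fX (k : ZMod 4) (h : ZMod 2) (q0 : Pg) (T : Finset Pg) (q : Pg) : ℂ :=
  (th4 k q.1 * em q.1 - e4 (bX q0 h T q.1)) / lm

/-- the Euler factors removed one by one -/
theorem MM_prod {k : ZMod 4} (hk : k = 0 ∨ k = 2) {q0 : Pg} (h0 : aa q0.1 = 1) (h : ZMod 2)
    {T J : Finset Pg} (hT : T ⊆ J) (hq : q0 ∉ J) :
    MM k h q0 T J = MM k h q0 T T *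
      ∏ q ∈ J \ T, (th4 k q.1 * em q.1 - e4 (bX q0 h T q.1)) := by
  have key : ∀ V : Finset Pg, Disjoint T V → q0 ∉ T ∪ V → MM k h q0 T (T ∪ V) =
      MM k h q0 T T * ∏ q ∈ V, (th4 k q.1 * em q.1 - e4 (bX q0 h T q.1)) := by
    intro V
    induction V using Finset.induction_on with
    | empty =>
      intro _ _
      rw [Finset.union_empty, Finset.prod_empty, mul_one]
    | insert q V hqV ih =>
      intro hd hq0
      rw [Finset.disjoint_insert_right] at hd
      rw [Finset.union_insert] at hq0 ⊢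
      have h1 : q ∉ T ∪ V := by
        rw [Finset.mem_union, not_or]
        exact ⟨hd.1, hqV⟩
      rw [MM_step hk h0 h Finset.subset_union_left h1 hq0,
        ih hd.2 (fun h2 => hq0 (Finset.mem_insert_of_mem h2)), Finset.prod_insert hqV]
      ring
  have h1 := key (J \ T) Finset.disjoint_sdiff (by rwa [Finset.union_sdiff_of_subset hT])
  rwa [Finset.union_sdiff_of_subset hT] at h1

theorem IndX_s4 (p q : Pg) : s4 p q = s4 q p := by
  by_cases h : p = q
  · rw [h]
  · exact s4_symm h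

/-- the parity of the exponent -/
theorem md_bX {q0 : Pg} (h0 : aa q0.1 = 1) (h : ZMod 2) (T : Finset Pg) (q : Pg) :
    md (bX q0 h T q.1) = ∑ j ∈ T, mX s4 (fun q => aa q.1) q0 j q := by
  have h1 : md (hh h) = 0 := by
    have key : ∀ h : ZMod 2, md (hh h) = 0 := by
      unfold hh
      decide
    exact key h
  have h2 : md (nn q0.1) = 1 := h0
  have h3 : md (c4 q0 q.1) = s4 q0 q := rfl
  have h4 : ∑ p ∈ T, md (c4 p q.1) = ∑ p ∈ T, s4 q p :=
    Finset.sum_congr rfl fun p _ => by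
      rw [IndX_s4]
      rfl
  have h5 : ∑ p ∈ T, md (nn p.1) = ∑ p ∈ T, aa p.1 := rfl
  have hneg : ∀ x : ZMod 2, -x = x := by decide
  rw [bX, e0X, map_add, map_mul, map_neg, map_mul, map_add, h1, h2, h3, map_sum, map_sum, h4, h5,
    hneg, zero_add, mul_one, Finset.sum_mul, ← Finset.sum_add_distrib]
  refine Finset.sum_congr rfl fun p _ => ?_
  rw [mX, add_comm]

section
variable {B : ValuationSubring ℂ}

/-- the elements of the ring are integral -/
theorem IndX_em (x : 𝓞 K) : B.valuation (em x) ≤ 1 := by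
  rw [ValuationSubring.valuation_le_one_iff]
  obtain ⟨m, n, rfl⟩ := exists_coords4 x
  rw [em_add, em_mul, em_intCast, em_intCast, em_iO']
  have hz : zt ∈ B := by
    rw [← ValuationSubring.valuation_le_one_iff, v_zt]
  exact B.add_mem _ _ (intCast_mem B m) (B.mul_mem _ _ (intCast_mem B n) hz)

/-- the primes are congruent to `1` modulo `λ³` -/
theorem IndX_em_sub (q : Pg) : B.valuation (em q.1 - 1) ≤ B.valuation lm ^ 3 := by
  obtain ⟨m, n, h⟩ := exists_mn q.dvd
  have h1 := congrArg em h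
  rw [em_add, em_one, em_mul, em_pow, em_lam] at h1
  rw [h1, add_sub_cancel_left, map_mul, map_pow]
  exact mul_le_of_le_one_right' (IndX_em _)

/-- division by `λ` -/
theorem IndX_div {x : ℂ} {n : ℕ} (h : B.valuation x ≤ B.valuation lm ^ (n + 1)) :
    B.valuation (x / lm) ≤ B.valuation lm ^ n := by
  rw [map_div₀, div_le_iff₀ v_lm_pos]
  rwa [pow_succ] at h

theorem IndX_th4 (k : ZMod 4) (x : 𝓞 K) : B.valuation (th4 k x) = 1 := v_e4 _

theorem Rt_fX (hB : (2 : ℂ)⁻¹ ∉ B) {k : ZMod 4} (hk : k = 0 ∨ k = 2) {q0 : Pg}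
    (h0 : aa q0.1 = 1) (h : ZMod 2) (T : Finset Pg) (q : Pg) :
    Rt B (fX k h q0 T q) (∑ j ∈ T, mX s4 (fun q => aa q.1) q0 j q) := by
  have h1 : md (k * nn q.1) = 0 := by
    have key : ∀ k n : ZMod 4, (k = 0 ∨ k = 2) → md (k * n) = 0 := by decide
    exact key k _ hk
  have h2 := Rt_e4 (B := B) hB (k * nn q.1)
  have h3 := Rt_e4 (B := B) hB (bX q0 h T q.1)
  rw [md_bX h0] at h3
  rw [h1] at h2
  have h4 : Rt B (th4 k q.1 * ((em q.1 - 1) / lm)) 0 := by
    refine Rt.of_lt ?_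
    rw [map_mul, IndX_th4, one_mul]
    exact (IndX_div (IndX_em_sub q)).trans_lt (pow_lt_one₀ zero_le (v_lm_lt hB) two_ne_zero)
  have e : fX k h q0 T q = th4 k q.1 * ((em q.1 - 1) / lm) - (1 - e4 (k * nn q.1)) / lm +
      (1 - e4 (bX q0 h T q.1)) / lm := by
    rw [fX, th4]
    have hl := lm_ne
    field_simp
    ring
  rw [e]
  have h5 := (h4.sub hB h2).add hB h3
  rwa [sub_zero, zero_add] at h5

/-! ### The first order induction -/

theorem IndX_sgn (hB : (2 : ℂ)⁻¹ ∉ B) (n : ℕ) : Rt B ((-1) ^ n) 1 := by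
  have h := ((Rt.one (B := B)).neg hB).pow hB n
  rwa [one_pow] at h

/-- **The first order induction.** -/
theorem ind1 (hB : (2 : ℂ)⁻¹ ∉ B) {ι : Type*} [DecidableEq ι] {S : Finset ι}
    {y : Finset ι → ℂ} {F : Finset ι → ι → ℂ} {m : ι → ι → ZMod 2} {v : ι → ZMod 2}
    (hF : ∀ T : Finset ι, ∀ q, Rt B (F T q) (∑ j ∈ T, m q j))
    (h : ∀ J ⊆ S, J.Nonempty →
      Rt B (∑ T ∈ J.powerset.erase ∅, (-1) ^ T.card * (y T * ∏ q ∈ J \ T, F T q))
        (if J.card = 1 then ∑ i ∈ J, v i else 0)) :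
    ∀ J ⊆ S, J.Nonempty → Rt B (y J) (CZ m v J) := by
  intro J
  induction J using Finset.strongInduction with
  | H J ih =>
    intro hJ hJ0
    have h1 := h J hJ hJ0
    have hm : J ∈ J.powerset.erase ∅ := Finset.mem_erase.2 ⟨hJ0.ne_empty, Finset.mem_powerset_self J⟩
    rw [← Finset.add_sum_erase _ _ hm, Finset.sdiff_self, Finset.prod_empty, mul_one] at h1
    have h2 : Rt B (∑ T ∈ (J.powerset.erase ∅).erase J, (-1) ^ T.card *
        (y T * ∏ q ∈ J \ T, F T q))
        (∑ T ∈ (J.powerset.erase ∅).erase J, CZ m v T * ∏ q ∈ J \ T, ∑ p ∈ T, m q p) := by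
      refine Rt.sum hB _ fun T hT => ?_
      have hT1 := Finset.mem_erase.1 hT
      have hT2 := Finset.mem_erase.1 hT1.2
      have hT3 := Finset.mem_powerset.1 hT2.2
      have h4 := ih T (hT3.ssubset_of_ne hT1.1) (hT3.trans hJ) (Finset.nonempty_iff_ne_empty.2 hT2.1)
      have h5 := (IndX_sgn hB T.card).mul hB (h4.mul hB (Rt.prod hB (J \ T) fun q _ => hF T q))
      rwa [one_mul] at h5
    have h3 := (IndX_sgn hB J.card).mul hB (h1.sub hB h2)
    have e1 : (-1 : ℂ) ^ J.card * ((-1) ^ J.card * y J +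
        ∑ T ∈ (J.powerset.erase ∅).erase J, (-1) ^ T.card * (y T * ∏ q ∈ J \ T, F T q) -
        ∑ T ∈ (J.powerset.erase ∅).erase J, (-1) ^ T.card * (y T * ∏ q ∈ J \ T, F T q)) = y J := by
      rw [add_sub_cancel_right, ← mul_assoc, ← pow_add, ← two_mul, pow_mul, neg_one_sq, one_pow,
        one_mul]
    have hsub : ∀ x z : ZMod 2, x - z = x + z := by decide
    rw [e1, one_mul, hsub, ← CZ_rec m v hJ0] at h3
    exact h3

end

end

end Pool.Agent.Lib.MP_1a91b9_ntQ
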