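import Pool.Agent.Lib.MP_1a91b9_ntQ.A.For4

/-!
# Quartic twists, part A, file AlgE: the bordered determinants of the class (E), `lam ∣ D`

`BE s a l k x T = [[N(T), a], [aᵀ, x + ∑ a]]`, `N(T)` with the diagonal `k a_q + l_q + ∑ (p ∈ T) s q p`.
-/

set_option autoImplicit false

namespace Pool.Agent.Lib.MP_1a91b9_ntQ

open Finset
open Pool.Agent.Lib.MP_1a91b9_ntK (NM NM_congr NM_empty NM_adj NM_update NM_zero GF GF_empty forest
  CZ CZ_eq forest_zero)

variable {ι : Type*} [DecidableEq ι]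

private theorem AlgE_neg : ∀ x : ZMod 2, -x = x := by decide

private theorem AlgE_one (n : ℕ) : ((-1 : ZMod 2)) ^ n = 1 := by
  have h : (-1 : ZMod 2) = 1 := rfl
  rw [h, one_pow]

private theorem AlgE_self : ∀ x : ZMod 2, x + x = 0 := by decide

private theorem AlgE_sq : ∀ x : ZMod 2, x * x = x := by decide

/-- the linear term of the matrix of the class (E) -/
def dlE (a l : ι → ZMod 2) (k : ZMod 2) (q : ι) : ZMod 2 := k * a q + l q

/-- the bordered matrix of the class (E) -/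
def BE (s : ι → ι → ZMod 2) (a l : ι → ZMod 2) (k x : ZMod 2) (T : Finset ι) :
    Matrix (T ⊕ Unit) (T ⊕ Unit) (ZMod 2) :=
  B4 s (dlE a l k) a (x + ∑ q ∈ T, a q) T

/-- the identity of Hamiltonian paths in characteristic `2` -/
theorem ham_id4 (s : ι → ι → ZMod 2) (κ g f : ι → ZMod 2) (S : Finset ι) :
    ∑ T ∈ S.powerset, (∑ i : T, ∑ j : T, g i * (N4 s κ T).adjugate i j * f j) *
        ∏ q ∈ S \ T, (κ q + ∑ p ∈ T, s q p) = ∑ i ∈ S, g i * Ham s f S i := by
  have h1 := ham_id s κ g f S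
  rw [AlgE_one, one_mul] at h1
  rw [← h1]
  refine sum_congr rfl fun T _ => ?_
  rw [AlgE_one, one_mul, N4_eq]

/-- **Reversal of the paths.** -/
theorem ham_symm (s : ι → ι → ZMod 2) (hs : ∀ p q, p ≠ q → s p q = s q p) (g f : ι → ZMod 2)
    (S : Finset ι) : ∑ i ∈ S, g i * Ham s f S i = ∑ i ∈ S, f i * Ham s g S i := by
  rw [← ham_id4 s 0 g f S, ← ham_id4 s 0 f g S]
  refine sum_congr rfl fun T _ => ?_
  congr 1
  rw [sum_comm]
  refine sum_congr rfl fun j _ => sum_congr rfl fun i _ => ?_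
  rw [adj_symm (N4_symm s hs 0 T) i j]
  ring

/-- the closed paths -/
theorem ham_self (s : ι → ι → ZMod 2) (hs : ∀ p q, p ≠ q → s p q = s q p) (a : ι → ZMod 2)
    {S : Finset ι} (hS : S.Nonempty) :
    ∑ i ∈ S, a i * Ham s a S i = if S.card = 1 then ∑ q ∈ S, a q else 0 := by
  rw [← ham_id4 s 0 a a S, ← forest4_zero s a hS, ← add_sum_erase _ _ (empty_mem_powerset S)]
  have h1 : (∑ i : ↥(∅ : Finset ι), ∑ j : ↥(∅ : Finset ι),
      a i * (N4 s 0 ∅).adjugate i j * a j) *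
      ∏ q ∈ S \ ∅, ((0 : ι → ZMod 2) q + ∑ p ∈ (∅ : Finset ι), s q p) = 0 := by
    simp
  rw [h1, zero_add]
  refine sum_congr rfl fun T hT => ?_
  have hT0 : T.Nonempty := nonempty_iff_ne_empty.2 (mem_erase.1 hT).1
  have h2 : ∑ i : T, ∑ j : T, a i * (N4 s 0 T).adjugate i j * a j = C4 s a T := by
    rw [← C4_mul s hs a hT0, C4, CZ, ← sum_coe_sort T a, sum_mul_sum]
    refine sum_congr rfl fun i _ => sum_congr rfl fun j _ => ?_
    rw [N4_eq, adj_row (NM_mulVec_one s T) i j j]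
    ring
  rw [h2]
  simp only [Pi.zero_apply, zero_add]

theorem BE_empty (s : ι → ι → ZMod 2) (a l : ι → ZMod 2) (k x : ZMod 2) :
    (BE s a l k x ∅).det = x := by
  rw [BE, B4_empty, sum_empty, add_zero]

/-- `N(T) 1 = d` -/
theorem N4_mulVec_row (s : ι → ι → ZMod 2) (κ : ι → ZMod 2) (T : Finset ι) :
    (N4 s κ T).mulVec (fun _ => 1) = fun q : T => κ q := by
  have h1 := N4_mulVec_one s T
  ext i
  have h2 := congrFun h1 i
  simp only [Matrix.mulVec, dotProduct, mul_one, Pi.zero_apply] at h2 ⊢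
  have h3 : ∀ j : T, N4 s κ T i j = N4 s 0 T i j + if i = j then κ i else 0 := by
    intro j
    by_cases h : i = j
    · subst h
      simp only [N4, if_true, Pi.zero_apply, add_zero]
    · simp only [N4, if_neg h, add_zero]
  rw [sum_congr rfl fun j _ => h3 j, sum_add_distrib, h2, zero_add]
  simp

/-- `det (BE T)` as a sum of the three parts -/
theorem BE_det (s : ι → ι → ZMod 2) (a l : ι → ZMod 2) (k x : ZMod 2) (T : Finset ι) :
    (BE s a l k x T).det = x * (N4 s (dlE a l k) T).det +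
      ∑ i : T, ∑ j : T, a i * (N4 s (dlE a l k) T).adjugate i j * dlE a l k j +
      ∑ i : T, ∑ j : T, a i * (N4 s (dlE a l k) T).adjugate i j * a j := by
  have h1 : (BE s a l k x T).det = (x + ∑ q ∈ T, a q) * (N4 s (dlE a l k) T).det -
      ∑ i : T, ∑ j : T, a i * (N4 s (dlE a l k) T).adjugate i j * a j :=
    det_BM (N4 s (dlE a l k) T) (fun i => a i) (fun i => a i) (x + ∑ q ∈ T, a q)
  have h2 : ∑ i : T, ∑ j : T, a i * (N4 s (dlE a l k) T).adjugate i j * dlE a l k j =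
      (∑ q ∈ T, a q) * (N4 s (dlE a l k) T).det := by
    rw [← sum_coe_sort T a, sum_mul]
    refine sum_congr rfl fun i _ => ?_
    have h3 := congrFun (congrArg (N4 s (dlE a l k) T).adjugate.mulVec
      (N4_mulVec_row s (dlE a l k) T)) i
    rw [Matrix.mulVec_mulVec, Matrix.adjugate_mul, Matrix.smul_mulVec, Matrix.one_mulVec] at h3
    simp only [Matrix.mulVec, dotProduct, Pi.smul_apply, smul_eq_mul, mul_one] at h3
    rw [h3, mul_sum]
    exact sum_congr rfl fun j _ => by ring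
  rw [h1, h2, sub_eq_add_neg, AlgE_neg, add_mul]

/-- **The recursion of the class (E).** -/
theorem forestE (s : ι → ι → ZMod 2) (hs : ∀ p q, p ≠ q → s p q = s q p) (a l : ι → ZMod 2)
    (k x : ZMod 2) {S : Finset ι} (hS : S.Nonempty) :
    ∑ T ∈ S.powerset, (BE s a l k x T).det * ∏ q ∈ S \ T, (dlE a l k q + ∑ p ∈ T, s q p) =
      (if S.card = 1 then (k + 1) * ∑ q ∈ S, a q else 0) + ∑ r ∈ S, l r * Ham s a S r := by
  have h1 := forest4 s (dlE a l k) hS
  have h2 := ham_id4 s (dlE a l k) a (dlE a l k) S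
  have h3 := ham_id4 s (dlE a l k) a a S
  have h4 := ham_self s hs a hS
  have h5 : ∑ i ∈ S, a i * Ham s (dlE a l k) S i =
      k * (∑ i ∈ S, a i * Ham s a S i) + ∑ i ∈ S, l i * Ham s a S i := by
    rw [ham_symm s hs a (dlE a l k) S, mul_sum, ← sum_add_distrib]
    refine sum_congr rfl fun i _ => ?_
    rw [dlE]
    ring
  have h6 : ∑ T ∈ S.powerset, (BE s a l k x T).det * ∏ q ∈ S \ T, (dlE a l k q + ∑ p ∈ T, s q p) =
      x * (∑ T ∈ S.powerset, (N4 s (dlE a l k) T).det *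
        ∏ q ∈ S \ T, (dlE a l k q + ∑ p ∈ T, s q p)) +
      ∑ T ∈ S.powerset, (∑ i : T, ∑ j : T, a i * (N4 s (dlE a l k) T).adjugate i j *
        dlE a l k j) * ∏ q ∈ S \ T, (dlE a l k q + ∑ p ∈ T, s q p) +
      ∑ T ∈ S.powerset, (∑ i : T, ∑ j : T, a i * (N4 s (dlE a l k) T).adjugate i j * a j) *
        ∏ q ∈ S \ T, (dlE a l k q + ∑ p ∈ T, s q p) := by
    rw [mul_sum, ← sum_add_distrib, ← sum_add_distrib]
    refine sum_congr rfl fun T _ => ?_
    rw [BE_det]
    ring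
  rw [h6, h1, h2, h3, h5, h4, mul_zero, zero_add]
  split_ifs
  · ring
  · ring

theorem BE_rec (s : ι → ι → ZMod 2) (hs : ∀ p q, p ≠ q → s p q = s q p) (a l : ι → ZMod 2)
    (k x : ZMod 2) {S : Finset ι} (hS : S.Nonempty) :
    (BE s a l k x S).det = (if S.card = 1 then (k + 1) * ∑ q ∈ S, a q else 0) +
      ∑ r ∈ S, l r * Ham s a S r +
      ∑ T ∈ S.powerset.erase S, (BE s a l k x T).det *
        ∏ q ∈ S \ T, (dlE a l k q + ∑ p ∈ T, s q p) := by
  have h1 := forestE s hs a l k x hS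
  rw [← add_sum_erase _ _ (mem_powerset_self S), Finset.sdiff_self, prod_empty, mul_one] at h1
  rw [← h1, add_assoc, AlgE_self, add_zero]

/-- the recursion of the bordered determinants with the corner `x + ∑ a` -/
theorem algE {ι : Type*} [DecidableEq ι] (s : ι → ι → ZMod 2) (hs : ∀ p q, p ≠ q → s p q = s q p)
    (a l : ι → ZMod 2) (k x : ZMod 2) {S : Finset ι} (hS : S.Nonempty) :
    (B4 s (fun q => k * a q + l q) a (x + ∑ q ∈ S, a q) S).det =
      (if S.card = 1 then (k + 1) * ∑ q ∈ S, a q else 0) + (∑ r ∈ S, l r * Ham s a S r) +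
      ∑ T ∈ S.powerset.erase S, (B4 s (fun q => k * a q + l q) a (x + ∑ q ∈ T, a q) T).det *
        ∏ q ∈ S \ T, (k * a q + l q + ∑ p ∈ T, s q p) :=
  BE_rec s hs a l k x hS

end Pool.Agent.Lib.MP_1a91b9_ntQ
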