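import Pool.Agent.Lib.MP_1a91b9_ntQ.A.Q4

/-!
# Quartic twists, part A, file Ell4: the formulas of the curve `y² = x³ - x`

`gg z = y / x`, `gg (z + pe) = - gg z`, `gg (z + 1/2) = - 2 / gg z`, `gg z ^ 2 = 2 i X (lm z)`.
-/

set_option autoImplicit false
set_option linter.unusedSectionVars false

namespace Pool.Agent.Lib.MP_1a91b9_ntQ

open NumberField Pool.Agent.Lib.MP_1a91b9_nuT Pool.Agent.Lib.MP_1a91b9_nuT.S3
  Pool.Agent.Lib.MP_1a91b9_nuT.Ell

noncomputable section

variable [CD] [hq : Q4]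

/-! ### the lattice -/

theorem two_mem {x : ℂ} (h : x ∈ PP.lattice) : 2 * x ∈ PP.lattice := by
  rw [two_mul]
  exact add_mem h h

/-- `(1 - i) (1 + i) = 2` -/
theorem cj_lm : (1 - zt) * lm = 2 := by
  rw [lm]
  linear_combination -zt_sq

theorem notMem_of_lm {z : ℂ} (h : lm * z ∉ PP.lattice) : z ∉ PP.lattice := fun h1 =>
  h (lm_mem_mul h1)

theorem lm_notMem {z : ℂ} (h : 2 * z ∉ PP.lattice) : lm * z ∉ PP.lattice := by
  intro h1
  apply h
  have h2 := mul_mem (sub_mem one_mem zt_mem) h1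
  have e : (1 - zt) * (lm * z) = 2 * z := by linear_combination z * cj_lm
  rwa [e] at h2

theorem two_zt {z : ℂ} (h : 2 * z ∉ PP.lattice) : 2 * (zt * z) ∉ PP.lattice := by
  have e : 2 * (zt * z) = zt * (2 * z) := by ring
  rw [e]
  exact zt_mem_iff.not.2 h

theorem sub_zt {z : ℂ} (h : 2 * z ∉ PP.lattice) : z - zt * z ∉ PP.lattice := by
  intro h1
  apply h
  have h2 := mul_mem lm_mem h1
  have e : lm * (z - zt * z) = 2 * z := by linear_combination z * cj_lm
  rwa [e] at h2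

theorem add_zt {z : ℂ} (h : 2 * z ∉ PP.lattice) : z + zt * z ∉ PP.lattice := by
  have h1 := lm_notMem h
  have e : lm * z = z + zt * z := by rw [lm]; ring
  rwa [e] at h1

/-! ### the function `gg` -/

theorem gg_add {l : ℂ} (hl : l ∈ PP.lattice) (z : ℂ) : gg (z + l) = gg z := by
  rw [gg_eq, gg_eq, S3.E1_add hl]
  have e : z + l + pe = z + pe + l := by ring
  rw [e, S3.E1_add hl]

theorem gg_congr {x y : ℂ} (h : x - y ∈ PP.lattice) : gg x = gg y := by
  have e : x = y + (x - y) := by ring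
  rw [e, gg_add h]

theorem X_congr {x y : ℂ} (h : x - y ∈ PP.lattice) : X x = X y := by
  have e : x = y + (x - y) := by ring
  rw [e, S3.X_add h]

theorem E1_congr' {x y : ℂ} (h : x - y ∈ PP.lattice) : E1 x = E1 y := by
  have e : x = y + (x - y) := by ring
  rw [e, S3.E1_add h]

theorem E1_pe_pe (z : ℂ) : E1 (z + pe + pe) = E1 z := by
  have e : z + pe + pe = z + 2 * pe := by ring
  rw [e, S3.E1_add two_pe_mem]

theorem gg_add_pe (z : ℂ) : gg (z + pe) = -gg z := by
  rw [gg_eq, gg_eq, E1_pe_pe]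
  ring

theorem gg_neg (z : ℂ) : gg (-z) = -gg z := by
  rw [gg_eq, gg_eq]
  have e : -z + pe = -(z - pe) := by ring
  have h : E1 (z - pe) = E1 (z + pe) := (E1_congr' (pe_shift z)).symm
  rw [e, S3.E1_neg, S3.E1_neg, h]
  ring

theorem gg_mul {z : ℂ} (hz : 2 * z ∉ PP.lattice) : gg z * X z = yh z := by
  have h := sl_two two_pe_mem pe_notMem hz
  rw [X_pe, sub_zero] at h
  exact h

/-- `gg` does not vanish outside the points of order two -/
theorem yh_ne {z : ℂ} (hz : 2 * z ∉ PP.lattice) : yh z ≠ 0 := by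
  intro h
  apply Per.Q_ne hz
  have hO := Om_ne_zero
  rw [yh, Y, div_div, div_eq_zero_iff] at h
  exact h.resolve_right (mul_ne_zero (pow_ne_zero 3 hO) two_ne_zero)

theorem gg_ne {z : ℂ} (hz : 2 * z ∉ PP.lattice) : gg z ≠ 0 := by
  intro h
  have h1 := gg_mul hz
  rw [h, zero_mul] at h1
  exact yh_ne hz h1.symm

theorem gg_sq_mul {z : ℂ} (hz : 2 * z ∉ PP.lattice) : gg z ^ 2 * X z = X z ^ 2 - 1 := by
  have h1 := gg_mul hz
  have h2 := yh_sq (notMem_of_two_mul hz)
  apply mul_left_cancel₀ (X_ne hz)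
  rw [← h1] at h2
  linear_combination h2

theorem X_sq_ne {z : ℂ} (hz : 2 * z ∉ PP.lattice) : X z ^ 2 - 1 ≠ 0 := by
  rw [← gg_sq_mul hz]
  exact mul_ne_zero (pow_ne_zero 2 (gg_ne hz)) (X_ne hz)

theorem two_add_pe {z : ℂ} (hz : 2 * z ∉ PP.lattice) : 2 * (z + pe) ∉ PP.lattice := by
  intro h
  apply hz
  have e : 2 * z = 2 * (z + pe) - 2 * pe := by ring
  rw [e]
  exact sub_mem h two_pe_mem

theorem X_add_pe {z : ℂ} (hz : 2 * z ∉ PP.lattice) : X (z + pe) * X z = -1 := by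
  have h1 := sl_sq (notMem_of_two_mul hz) pe_notMem (notMem_of_two_mul (two_add_pe hz))
  rw [X_pe] at h1
  have h2 := gg_sq_mul hz
  rw [gg] at h2
  linear_combination X z * h1 + h2

/-! ### the multiplication by `i` and `1 + i` -/

theorem Y_i (z : ℂ) (hz : 2 * z ∉ PP.lattice) : Y (zt * z) = zt * Y z := by
  obtain ⟨w, h1, h2, h3⟩ : ∃ w : ℂ, 2 * w ∉ PP.lattice ∧ z - w ∉ PP.lattice ∧
      z + w ∉ PP.lattice := by
    have h : ∀ᶠ w in nhdsWithin (0 : ℂ) {0}ᶜ, 2 * w ∉ PP.lattice ∧ z - w ∉ PP.lattice ∧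
        z + w ∉ PP.lattice := by
      filter_upwards [eventually_mul_notMem two_ne_zero 0, eventually_add_notMem (-z) 0,
        eventually_add_notMem z 0] with w b1 b2 b3
      refine ⟨b1, fun h => b2 ?_, by rwa [add_comm]⟩
      have e : w + -z = -(z - w) := by ring
      rw [e]
      exact neg_mem h
    exact h.exists
  have key : ∀ v : ℂ, 2 * v ∉ PP.lattice → z - v ∉ PP.lattice → z + v ∉ PP.lattice →
      Y (zt * z) - zt * Y z = Y (zt * v) - zt * Y v := by
    intro v a1 a2 a3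
    have b1 := chord hz a1 a2 a3
    have b2 := chord (two_zt hz) (two_zt a1) (by rw [← mul_sub]; exact zt_mem_iff.not.2 a2)
      (by rw [← mul_add]; exact zt_mem_iff.not.2 a3)
    rw [sl_i, X_i (notMem_of_two_mul hz), X_i (notMem_of_two_mul a1)] at b2
    linear_combination b2 - zt * b1
  have k1 := key w h1 h2 h3
  have k2 := key (-w) (by
      rw [mul_neg]
      exact fun h => h1 (by simpa using neg_mem h)) (by rwa [sub_neg_eq_add])
    (by rwa [← sub_eq_add_neg])
  rw [mul_neg, Y_neg, Y_neg] at k2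
  linear_combination (1 / 2) * (k1 + k2)

theorem yh_i {z : ℂ} (hz : 2 * z ∉ PP.lattice) : yh (zt * z) = zt * yh z := by
  rw [yh, yh, Y_i z hz]
  ring

theorem gg_i {z : ℂ} (hz : 2 * z ∉ PP.lattice) : gg (zt * z) = -(zt * gg z) := by
  have h1 := gg_mul hz
  have h2 := gg_mul (two_zt hz)
  rw [X_i (notMem_of_two_mul hz), yh_i hz, ← h1] at h2
  apply mul_right_cancel₀ (X_ne hz)
  linear_combination -h2

theorem sl_lm {z : ℂ} (hz : 2 * z ∉ PP.lattice) : sl z (zt * z) = pe * gg z := by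
  have h1 := chord hz (two_zt hz) (sub_zt hz) (add_zt hz)
  rw [X_i (notMem_of_two_mul hz), Y_i z hz] at h1
  have h2 := gg_mul hz
  rw [yh] at h2
  apply mul_right_cancel₀ (X_ne hz)
  rw [pe_eq]
  linear_combination (-1 / 4) * h1 - (1 / 2) * (1 - zt) * h2

/-- **The multiplication by `1 + i`.** -/
theorem X_lm {z : ℂ} (hz : 2 * z ∉ PP.lattice) : 2 * zt * X (lm * z) * X z = X z ^ 2 - 1 := by
  have h1 := sl_sq (notMem_of_two_mul hz) (zt_mem_iff.not.2 (notMem_of_two_mul hz)) (add_zt hz)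
  rw [X_i (notMem_of_two_mul hz), sl_lm hz] at h1
  have e : lm * z = z + zt * z := by rw [lm]; ring
  have h2 := gg_sq_mul hz
  have h3 : pe ^ 2 * (2 * zt) = 1 := by
    rw [← lm_sq, ← mul_pow, mul_comm, lm_mul_pe, one_pow]
  rw [e]
  linear_combination 2 * zt * X z * h1 + h2 + gg z ^ 2 * X z * h3

theorem gg_sq {z : ℂ} (hz : 2 * z ∉ PP.lattice) : gg z ^ 2 = 2 * zt * X (lm * z) := by
  apply mul_right_cancel₀ (X_ne hz)
  rw [gg_sq_mul hz, X_lm hz]

theorem E1_lm {z : ℂ} (hz : 2 * z ∉ PP.lattice) :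
    E1 (lm * z) = (1 - zt) * E1 z + Om * (pe * gg z) := by
  rw [← sl_lm hz, sl, E1_i, mul_div_cancel₀ _ Om_ne_zero]
  have e : lm * z = z + zt * z := by rw [lm]; ring
  rw [e]
  ring

/-! ### the points of order two -/

theorem half_notMem' : (1 / 2 : ℂ) ∉ PP.lattice := half_notMem

theorem two_half_mem : 2 * (1 / 2 : ℂ) ∈ PP.lattice := by
  have e : 2 * (1 / 2 : ℂ) = 1 := by norm_num
  rw [e]
  exact one_mem

theorem X_half_i : X (zt / 2) = -1 := by
  have h := X_i half_notMem'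
  rw [hq.half] at h
  rw [← h]
  congr 1
  ring

theorem E1_two {t : ℂ} (ht : 2 * t ∈ PP.lattice) : E1 t = 0 := by
  have h3 := S3.E1_neg t
  have h4 := S3.E1_add ht (-t)
  have e : -t + 2 * t = t := by ring
  rw [e] at h4
  linear_combination (1 / 2) * (h3 + h4)

/-- adding a point of order two -/
theorem E1_add_two {t : ℂ} (ht : 2 * t ∈ PP.lattice) (z : ℂ) : E1 (z + t) = E1 z + Om * sl z t := by
  rw [sl, E1_two ht, mul_div_cancel₀ _ Om_ne_zero]
  ring

theorem gg_half {z : ℂ} (hz : 2 * z ∉ PP.lattice) : gg (z + 1 / 2) * gg z = -2 := by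
  have hX1 : X z - 1 ≠ 0 := fun h => X_sq_ne hz (by linear_combination (X z + 1) * h)
  have hX2 : X z + 1 ≠ 0 := fun h => X_sq_ne hz (by linear_combination (X z - 1) * h)
  have hp : (1 / 2 : ℂ) + pe - -(zt / 2) ∈ PP.lattice := by
    have e : (1 / 2 : ℂ) + pe - -(zt / 2) = 1 := by rw [pe_eq]; ring
    rw [e]
    exact one_mem
  have ht3 : 2 * -(zt / 2) ∈ PP.lattice := by
    have e : 2 * -(zt / 2) = -zt := by ring
    rw [e]
    exact neg_mem zt_mem
  have ht30 : -(zt / 2) ∉ PP.lattice := by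
    intro h
    apply half_notMem'
    have h1 := zt_mul_mem h
    have e : zt * -(zt / 2) = 1 / 2 := by linear_combination (-1 / 2) * zt_sq
    rwa [e] at h1
  have a1 := sl_two two_half_mem half_notMem' hz
  have a2 := sl_two ht3 ht30 hz
  rw [hq.half] at a1
  rw [Ell.X_neg, X_half_i] at a2
  have h1 : gg (z + 1 / 2) = sl z (-(zt / 2)) - sl z (1 / 2) := by
    rw [gg_eq, div_eq_iff Om_ne_zero]
    have e1 : E1 (z + 1 / 2 + pe) = E1 (z + -(zt / 2)) := E1_congr' (by
      have e : z + 1 / 2 + pe - (z + -(zt / 2)) = 1 / 2 + pe - -(zt / 2) := by ring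
      rw [e]
      exact hp)
    rw [e1, E1_add_two ht3, E1_add_two two_half_mem]
    ring
  have h2 := gg_mul hz
  have h3 := gg_sq_mul hz
  have h4 : sl z (1 / 2) = yh z / (X z - 1) := by
    rw [eq_div_iff hX1]
    exact a1
  have h5 : sl z (-(zt / 2)) = yh z / (X z + 1) := by
    rw [eq_div_iff hX2]
    linear_combination a2
  rw [h1, h4, h5, ← h2]
  field_simp
  linear_combination (-2) * h3

/-- the value of `X` at `1 / (1 + i) ^ 2` -/
theorem X_pe2 : X (pe ^ 2) = -1 := by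
  have e : pe ^ 2 = -(zt / 2) := by
    rw [pe_eq]
    linear_combination (1 / 4) * zt_sq
  rw [e, Ell.X_neg, X_half_i]

theorem two_pe3_notMem : 2 * pe ^ 3 ∉ PP.lattice := by
  intro h
  apply pe_notMem
  have h1 := zt_mul_mem h
  have e : zt * (2 * pe ^ 3) = pe := by
    have h3 : pe ^ 2 * (2 * zt) = 1 := by
      rw [← lm_sq, ← mul_pow, mul_comm, lm_mul_pe, one_pow]
    linear_combination pe * h3
  rwa [e] at h1

theorem X_pe3 : X (pe ^ 3) = -zt := by
  have h := X_lm two_pe3_notMem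
  have e : lm * pe ^ 3 = pe ^ 2 := by linear_combination pe ^ 2 * lm_mul_pe
  rw [e, X_pe2] at h
  have h1 : (X (pe ^ 3) + zt) ^ 2 = 0 := by linear_combination zt_sq - h
  have h2 := pow_eq_zero_iff two_ne_zero |>.1 h1
  linear_combination h2

end

end Pool.Agent.Lib.MP_1a91b9_ntQ
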