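import Pool.Agent.Lib.MP_1a91b9_ntQ.Base
import Pool.Agent.Lib.MP_1a91b9_ntQ.A.Good4

/-!
# Quartic twists, part A: the instance of `Q4`
-/

set_option autoImplicit false

namespace Pool.Agent.Lib.MP_1a91b9_ntQ

open NumberField Pool.Agent.Lib.MP_1a91b9_nuT

instance q4 : Q4 where
  tr := rfl
  nm := rfl
  A := rfl
  B := rfl
  half := by
    change PP4.weierstrassP (1 / 2) / Om4 ^ 2 = 1
    rw [PP4_half, div_self (pow_ne_zero 2 Om4_ne)]

theorem em_iO : em iO = Complex.I := zt_eq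

theorem em_iO' : em iO = zt := rfl

end Pool.Agent.Lib.MP_1a91b9_ntQ
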