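import Pool.Agent.Lib.MP_1a91b9_ntQ.A.Gen
import Pool.Agent.Lib.MP_1a91b9_ntQ.A.Ell4
import Pool.Agent.Lib.MP_1a91b9_ntQ.A.Inst
import Pool.Agent.Lib.MP_1a91b9_ntQ.R.Ring4

/-!
# Quartic twists, part A, file Sys4: the characters, the L-series and the sums of `E1`

`e4 t = i ^ t`. Over `ℚ(i)`: `th4 k` is the character of `i ^ k`, `ch4 q` the quartic character
modulo `q`, `L4 k T` the L-function of `ψbar (th4 k) ∏ (q ∈ T) ch4 q` and
`La4 k T = f4 k * D_T * L4 k T 1`.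
-/

set_option autoImplicit false
set_option linter.unusedSectionVars false

namespace Pool.Agent.Lib.MP_1a91b9_ntQ

open NumberField Pool.Agent.Lib.MP_1a91b9_nuT Pool.Agent.Lib.MP_1a91b9_nuT.S3
  Pool.Agent.Lib.MP_1a91b9_nuT.Ell

noncomputable section

section gen
variable [CD]

/-- the power of `i` -/
def e4 (t : ZMod 4) : ℂ := zt ^ t.val

/-- the function `gg z + gg (z + 1 / 2)` -/
def HH (z : ℂ) : ℂ := gg z + gg (z + 1 / 2)

/-- the character sum of `E1`: `E1` for `k = 0`, two points for `k = 2`, eight points for `k`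
odd -/
def Ph4 (k : ZMod 4) (z : ℂ) : ℂ :=
  if k = 0 then E1 z else if k = 2 then E1 z - E1 (z + pe) else
    ∑ j : ZMod 4, e4 (k * j) * (E1 (z + (j.val : ℂ) * pe ^ 3) +
      E1 (z + (j.val : ℂ) * pe ^ 3 + 1 / 2))

variable [hq : Q4]
include hq

theorem zt_four : zt ^ 4 = 1 := by
  have : zt ^ 4 = (zt ^ 2) ^ 2 := by ring
  rw [this, zt_sq]
  norm_num

theorem e4_nat (n : ℕ) : e4 (n : ZMod 4) = zt ^ n := by
  rw [e4, ZMod.val_natCast]
  conv_rhs => rw [← Nat.div_add_mod n 4, pow_add, pow_mul, zt_four, one_pow, one_mul]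

theorem e4_zero : e4 0 = 1 := by
  rw [e4, ZMod.val_zero, pow_zero]

theorem e4_add (a b : ZMod 4) : e4 (a + b) = e4 a * e4 b := by
  have h1 : a = ((a.val : ℕ) : ZMod 4) := (ZMod.natCast_zmod_val a).symm
  have h2 : b = ((b.val : ℕ) : ZMod 4) := (ZMod.natCast_zmod_val b).symm
  conv_lhs => rw [h1, h2]
  rw [← Nat.cast_add, e4_nat, pow_add]
  rfl

theorem e4_one : e4 1 = zt := by
  have h := e4_nat 1
  rwa [Nat.cast_one, pow_one] at h

theorem e4_two : e4 2 = -1 := by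
  have h := e4_nat 2
  rwa [zt_sq, Nat.cast_ofNat] at h

theorem e4_three : e4 3 = -zt := by
  have h := e4_nat 3
  have e : zt ^ 3 = zt ^ 2 * zt := by ring
  rwa [e, zt_sq, neg_one_mul, Nat.cast_ofNat] at h

theorem e4_pow_four (t : ZMod 4) : e4 t ^ 4 = 1 := by
  rw [e4, ← pow_mul, mul_comm, pow_mul, zt_four, one_pow]

theorem e4_ne (t : ZMod 4) : e4 t ≠ 0 := pow_ne_zero _ zt_ne0

theorem e4_neg (t : ZMod 4) : e4 (-t) = (e4 t)⁻¹ := by
  refine eq_inv_of_mul_eq_one_left ?_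
  rw [← e4_add, neg_add_cancel, e4_zero]

theorem e4_pow (t : ZMod 4) (n : ℕ) : e4 t ^ n = e4 (n * t) := by
  induction n with
  | zero => rw [pow_zero, Nat.cast_zero, zero_mul, e4_zero]
  | succ n ih => rw [pow_succ, ih, Nat.cast_succ, add_mul, one_mul, e4_add]

theorem e4_sum {ι : Type*} (s : Finset ι) (g : ι → ZMod 4) :
    e4 (∑ i ∈ s, g i) = ∏ i ∈ s, e4 (g i) := by
  classical
  induction s using Finset.induction_on with
  | empty => rw [Finset.sum_empty, Finset.prod_empty, e4_zero]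
  | insert a s ha ih => rw [Finset.sum_insert ha, Finset.prod_insert ha, e4_add, ih]

theorem norm_zt : ‖zt‖ = 1 := by
  have h := congrArg (fun z : ℂ => ‖z‖) zt_four
  simp only [norm_pow, norm_one] at h
  exact (pow_eq_one_iff_of_nonneg (norm_nonneg _) (by norm_num)).1 h

theorem norm_e4 (t : ZMod 4) : ‖e4 t‖ = 1 := by rw [e4, norm_pow, norm_zt, one_pow]

theorem conj_zt : (starRingEnd ℂ) zt = -zt := by
  have h1 : zt * (starRingEnd ℂ) zt = 1 := by
    rw [Complex.mul_conj, Complex.normSq_eq_norm_sq, norm_zt]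
    norm_num
  apply mul_left_cancel₀ zt_ne0
  rw [h1, mul_neg, zt_mul_zt, neg_neg]

theorem conj_e4 (t : ZMod 4) : (starRingEnd ℂ) (e4 t) = e4 (-t) := by
  have h1 : e4 t * (starRingEnd ℂ) (e4 t) = 1 := by
    rw [Complex.mul_conj, Complex.normSq_eq_norm_sq, norm_e4]
    norm_num
  apply mul_left_cancel₀ (e4_ne t)
  rw [h1, ← e4_add, add_neg_cancel, e4_zero]

theorem e4_inj {a b : ZMod 4} (h : e4 a = e4 b) : a = b := by
  have h1 : e4 (a - b) = 1 := by
    rw [sub_eq_add_neg, e4_add, h, ← e4_add, add_neg_cancel, e4_zero]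
  have h4 : ∀ t : ZMod 4, t = 0 ∨ t = 1 ∨ t = 2 ∨ t = 3 := by decide
  have h2 : ∀ t : ZMod 4, e4 t = 1 → t = 0 := by
    intro t ht
    have h3 := h4 t
    have hz : zt ≠ 1 := by
      intro h
      have := zt_sq
      rw [h] at this
      norm_num at this
    have hz' : zt ≠ -1 := by
      intro h
      have := zt_sq
      rw [h] at this
      norm_num at this
    rcases h3 with rfl | rfl | rfl | rfl
    · rfl
    · rw [e4_one] at ht
      exact absurd ht hz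
    · rw [e4_two] at ht
      norm_num at ht
    · rw [e4_three] at ht
      exact absurd (by rw [← ht, neg_neg]) hz'
  exact sub_eq_zero.1 (h2 _ h1)

/-! ### The sums of `E1` -/

theorem Ph4_zero (z : ℂ) : Ph4 0 z = E1 z := by
  unfold Ph4
  rw [if_pos rfl]

theorem Ph4_two (z : ℂ) : Ph4 2 z = -(Om * gg z) := by
  unfold Ph4
  have h : (2 : ZMod 4) ≠ 0 := by decide
  rw [if_neg h, if_pos rfl, E1_add_pe]
  ring

/-- `2 pe ^ 3` and `pe` are congruent -/
theorem two_pe3 : 2 * pe ^ 3 - pe ∈ PP.lattice := by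
  have h3 : pe ^ 2 * (2 * zt) = 1 := by
    rw [← lm_sq, ← mul_pow, mul_comm, lm_mul_pe, one_pow]
  have h4 : 2 * pe ^ 3 = -(zt * pe) := by
    linear_combination (-(zt * pe)) * h3 + 2 * pe ^ 3 * zt_sq
  have e : 2 * pe ^ 3 - pe = -1 := by
    have h5 := lm_mul_pe
    rw [lm] at h5
    rw [h4]
    linear_combination -h5
  rw [e]
  exact neg_mem one_mem

theorem E1_two_pe3 (z : ℂ) : E1 (z + 2 * pe ^ 3) = E1 (z + pe) := by
  refine E1_congr' ?_
  have e : z + 2 * pe ^ 3 - (z + pe) = 2 * pe ^ 3 - pe := by ring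
  rw [e]
  exact two_pe3

theorem Ph4_odd {k : ZMod 4} (h0 : k ≠ 0) (h2 : k ≠ 2) (z : ℂ) :
    Ph4 k z = -(Om * (HH z + e4 k * HH (z + pe ^ 3))) := by
  unfold Ph4
  rw [if_neg h0, if_neg h2]
  have hs : ∀ g : ZMod 4 → ℂ, ∑ j : ZMod 4, g j = g 0 + g 1 + g 2 + g 3 := by
    intro g
    exact Fin.sum_univ_four g
  have v0 : ((0 : ZMod 4).val : ℂ) = 0 := by
    rw [ZMod.val_zero, Nat.cast_zero]
  have v1 : ((1 : ZMod 4).val : ℂ) = 1 := by
    have : (1 : ZMod 4).val = 1 := rfl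
    rw [this, Nat.cast_one]
  have v2 : ((2 : ZMod 4).val : ℂ) = 2 := by
    have : (2 : ZMod 4).val = 2 := rfl
    rw [this, Nat.cast_ofNat]
  have v3 : ((3 : ZMod 4).val : ℂ) = 3 := by
    have : (3 : ZMod 4).val = 3 := rfl
    rw [this, Nat.cast_ofNat]
  have k2 : e4 (k * 2) = -1 := by
    have h : ∀ k : ZMod 4, k ≠ 0 → k ≠ 2 → k * 2 = 2 := by decide
    rw [h k h0 h2, e4_two]
  have k3 : e4 (k * 3) = -e4 k := by
    have h : ∀ k : ZMod 4, k ≠ 0 → k ≠ 2 → k * 3 = 2 + k := by decide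
    rw [h k h0 h2, e4_add, e4_two, neg_one_mul]
  have a1 : ∀ w : ℂ, E1 (w + 3 * pe ^ 3) = E1 (w + pe ^ 3 + pe) := by
    intro w
    have e : w + 3 * pe ^ 3 = w + pe ^ 3 + 2 * pe ^ 3 := by ring
    rw [e, E1_two_pe3]
  have a2 : ∀ w : ℂ, E1 (w + 3 * pe ^ 3 + 1 / 2) = E1 (w + pe ^ 3 + 1 / 2 + pe) := by
    intro w
    have e : w + 3 * pe ^ 3 + 1 / 2 = w + pe ^ 3 + 1 / 2 + 2 * pe ^ 3 := by ring
    rw [e, E1_two_pe3]
  have a3 : ∀ w : ℂ, E1 (w + 2 * pe ^ 3 + 1 / 2) = E1 (w + 1 / 2 + pe) := by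
    intro w
    have e : w + 2 * pe ^ 3 + 1 / 2 = w + 1 / 2 + 2 * pe ^ 3 := by ring
    rw [e, E1_two_pe3]
  rw [hs, v0, v1, v2, v3, mul_zero, mul_one, k2, k3, e4_zero, one_mul, one_mul, zero_mul, add_zero,
    E1_two_pe3, a1, a2, a3, E1_add_pe, E1_add_pe, E1_add_pe, E1_add_pe, HH, HH]
  ring

end gen

/-! ### The characters -/

/-- the character of `i ^ k` -/
def th4 (k : ZMod 4) (x : 𝓞 K) : ℂ := e4 (k * nn x)

/-- the quartic character modulo `q` -/
def ch4 (q : Pg) (x : 𝓞 K) : ℂ :=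
  haveI := Classical.dec (q.1 ∣ x)
  if q.1 ∣ x then 0 else e4 (c4 q x)

/-- the character of `D` on the elements congruent to `1` modulo `lam ^ 3` -/
def X4 (k : ZMod 4) (T : Finset Pg) : 𝓞 K → ℂ := XT (f := lam ^ 3) (th4 k) ch4 T

/-- the entire L-function of `ψbar` and the character of `D` -/
def L4 (k : ZMod 4) (T : Finset Pg) : ℂ → ℂ := LG (lam ^ 3) (X4 k T)

/-- the modulus of `th4 k` -/
def f4 (k : ZMod 4) : 𝓞 K := if k = 0 then lam ^ 3 else if k = 2 then lam ^ 4 else lam ^ 6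

/-- the normalised value at `1` -/
def La4 (k : ZMod 4) (T : Finset Pg) : ℂ := em (f4 k * DDq T) * L4 k T 1

/-- the weight -/
def w4 (S : Finset Pg) (x : 𝓞 K) : ℂ := ∏ q ∈ S, (1 - ch4 q x)

/-- the point of the residue class `c` -/
def zp (k : ZMod 4) (S : Finset Pg) (c : 𝓞 K) : ℂ := em c / em (f4 k * DDq S)

end

end Pool.Agent.Lib.MP_1a91b9_ntQ
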