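import Pool.Agent.Lib.MP_1a91b9_ntQ.A.Loc2
import Pool.Agent.Lib.MP_1a91b9_ntQ.A.Sys4

/-!
# Quartic twists, part A, file LocO: the character sum for an odd `k`

`HH z = gg z + gg (z + 1/2)`, `PO c z = HH z + c * HH (z + pe ^ 3)` with `c ^ 2 = -1`.
-/

set_option autoImplicit false
set_option linter.unusedSectionVars false

namespace Pool.Agent.Lib.MP_1a91b9_ntQ

open NumberField Pool.Agent.Lib.MP_1a91b9_nuT Pool.Agent.Lib.MP_1a91b9_nuT.S3
  Pool.Agent.Lib.MP_1a91b9_nuT.Ell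

noncomputable section

variable [CD] [hq : Q4]

/-- the character sum -/
def PO (c z : ℂ) : ℂ := HH z + c * HH (z + pe ^ 3)

theorem HH_add {l : ℂ} (hl : l ∈ PP.lattice) (z : ℂ) : HH (z + l) = HH z := by
  rw [HH, HH, gg_add hl]
  have e : z + l + 1 / 2 = z + 1 / 2 + l := by ring
  rw [e, gg_add hl]

theorem HH_add_pe (z : ℂ) : HH (z + pe) = -HH z := by
  rw [HH, HH, gg_add_pe]
  have e : z + pe + 1 / 2 = z + 1 / 2 + pe := by ring
  rw [e, gg_add_pe]
  ring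

theorem PO_add {l : ℂ} (hl : l ∈ PP.lattice) (c z : ℂ) : PO c (z + l) = PO c z := by
  rw [PO, PO, HH_add hl]
  have e : z + l + pe ^ 3 = z + pe ^ 3 + l := by ring
  rw [e, HH_add hl]

theorem PO_congr {x y : ℂ} (c : ℂ) (h : x - y ∈ PP.lattice) : PO c x = PO c y := by
  have e : x = y + (x - y) := by ring
  rw [e, PO_add h]

theorem PO_add_pe (c z : ℂ) : PO c (z + pe) = -PO c z := by
  rw [PO, PO, HH_add_pe]
  have e : z + pe + pe ^ 3 = z + pe ^ 3 + pe := by ring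
  rw [e, HH_add_pe]
  ring

theorem pe_sq : pe ^ 2 * (2 * zt) = 1 := by
  rw [← lm_sq, ← mul_pow, mul_comm, lm_mul_pe, one_pow]

theorem lm2_pe3 : lm ^ 2 * pe ^ 3 = pe := by
  have h := lm_mul_pe (hq := hq)
  linear_combination (lm * pe ^ 2 + pe) * h

theorem two_of {z : ℂ} (h : 2 * (lm * z) ∉ PP.lattice) : 2 * z ∉ PP.lattice := by
  intro h1
  apply h
  have e : 2 * (lm * z) = lm * (2 * z) := by ring
  rw [e]
  exact lm_mem_mul h1

theorem HH_mul {z : ℂ} (hz : 2 * z ∉ PP.lattice) : HH z * gg z = gg z ^ 2 - 2 := by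
  rw [HH]
  linear_combination gg_half hz

theorem HH_sq {z : ℂ} (hz : 2 * (lm * z) ∉ PP.lattice) :
    HH z ^ 2 = -4 * (X (lm ^ 2 * z) + 1) := by
  have hz1 := two_of hz
  have h1 := HH_mul hz1
  have h2 := gg_sq hz1
  have h3 := X_lm hz
  have e : lm * (lm * z) = lm ^ 2 * z := by ring
  rw [e] at h3
  have h4 : 2 * zt * X (lm * z) ≠ 0 := by
    rw [← h2]
    exact pow_ne_zero 2 (gg_ne hz1)
  apply mul_right_cancel₀ h4
  have h5 : HH z ^ 2 * gg z ^ 2 = (gg z ^ 2 - 2) ^ 2 := by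
    rw [← mul_pow, h1]
  rw [h2] at h5
  linear_combination h5 + (4 * X (lm * z) ^ 2) * zt_sq + 4 * h3

theorem two_lm_add {z : ℂ} (hz : 2 * (lm * z) ∉ PP.lattice) :
    2 * (lm * (z + pe ^ 3)) ∉ PP.lattice := by
  intro h
  apply hz
  have h1 := pe_sq (hq := hq)
  have h2 := lm_mul_pe (hq := hq)
  have e : 2 * (lm * z) = 2 * (lm * (z + pe ^ 3)) + zt := by
    linear_combination (-2 * pe ^ 2) * h2 + (-2 * pe ^ 2) * zt_sq + zt * h1
  rw [e]
  exact add_mem h zt_mem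

theorem two_lm2_add {z : ℂ} (hz : 2 * (lm ^ 2 * z) ∉ PP.lattice) :
    2 * (lm ^ 2 * (z + pe ^ 3)) ∉ PP.lattice := by
  intro h
  apply hz
  have e : 2 * (lm ^ 2 * z) = 2 * (lm ^ 2 * (z + pe ^ 3)) - 2 * pe := by
    linear_combination (-2) * lm2_pe3 (hq := hq)
  rw [e]
  exact sub_mem h two_pe_mem

theorem two_lm_of {z : ℂ} (h : 2 * (lm ^ 2 * z) ∉ PP.lattice) : 2 * (lm * z) ∉ PP.lattice := by
  apply two_of
  have e : lm * (lm * z) = lm ^ 2 * z := by ring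
  rwa [e]

/-- the square of the second function -/
theorem HH_sq' {z : ℂ} (hz : 2 * (lm ^ 2 * z) ∉ PP.lattice) :
    HH (z + pe ^ 3) ^ 2 * X (lm ^ 2 * z) = -4 * (X (lm ^ 2 * z) - 1) := by
  have h1 := HH_sq (two_lm_add (two_lm_of hz))
  have h2 := X_add_pe hz
  have e : lm ^ 2 * (z + pe ^ 3) = lm ^ 2 * z + pe := by
    linear_combination lm2_pe3 (hq := hq)
  rw [e] at h1
  rw [h1]
  linear_combination (-4) * h2

theorem continuousAt_gg {z : ℂ} (hz : z ∉ PP.lattice) (hz1 : z + pe ∉ PP.lattice) :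
    ContinuousAt gg z := by
  have e : gg = fun z => (E1 (z + pe) - E1 z) / Om := funext gg_eq
  rw [e]
  have h1 : ContinuousAt (fun z => E1 (z + pe)) z :=
    ContinuousAt.comp (g := E1) (f := fun z => z + pe) (continuousAt_E1 hz1) (by fun_prop)
  exact (h1.sub (continuousAt_E1 hz)).div_const _

theorem continuousAt_gg' {z : ℂ} (hz : 2 * z ∉ PP.lattice) : ContinuousAt gg z :=
  continuousAt_gg (notMem_of_two_mul hz) (notMem_of_two_mul (two_add_pe hz))

theorem two_add_half {z : ℂ} (hz : 2 * z ∉ PP.lattice) : 2 * (z + 1 / 2) ∉ PP.lattice := by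
  intro h
  apply hz
  have e : 2 * z = 2 * (z + 1 / 2) - 1 := by ring
  rw [e]
  exact sub_mem h one_mem

theorem continuousAt_HH {z : ℂ} (hz : 2 * z ∉ PP.lattice) : ContinuousAt HH z := by
  have h1 : ContinuousAt (fun z => gg (z + 1 / 2)) z :=
    ContinuousAt.comp (g := gg) (f := fun z => z + 1 / 2) (continuousAt_gg' (two_add_half hz))
      (by fun_prop)
  exact (continuousAt_gg' hz).add h1

/-- **The product of the two functions** is `± 4 gg (lm ^ 2 z)`, with a constant sign. -/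
theorem HH_sign : ∃ s : ℂ, s ^ 2 = 1 ∧ ∀ z : ℂ, 2 * (lm ^ 2 * z) ∉ PP.lattice →
    HH z * HH (z + pe ^ 3) = s * (4 * gg (lm ^ 2 * z)) := by
  obtain ⟨U, hU⟩ : ∃ U : Set ℂ, U = {z : ℂ | 2 * (lm ^ 2 * z) ∈ PP.lattice} := ⟨_, rfl⟩
  have hne : (2 * lm ^ 2 : ℂ) ≠ 0 := mul_ne_zero two_ne_zero (pow_ne_zero 2 lm_ne)
  have hc : U.Countable := by
    have h1 := countable_lat.preimage_of_injOn (f := fun w : ℂ => (2 * lm ^ 2) * w)
      (fun x _ y _ h => mul_left_cancel₀ hne h)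
    refine h1.mono fun z hz => ?_
    rw [hU] at hz
    change (2 * lm ^ 2) * z ∈ PP.lattice
    rw [mul_assoc]
    exact hz
  have hP : IsPreconnected Uᶜ := isPreconnected_compl_of_countable hc
  have hmem : ∀ z ∈ Uᶜ, 2 * (lm ^ 2 * z) ∉ PP.lattice := by
    intro z hz h
    apply hz
    rw [hU]
    exact h
  have hf : ContinuousOn (fun z => HH z * HH (z + pe ^ 3)) Uᶜ := by
    intro z hz
    have h1 := hmem z hz
    have h2 : ContinuousAt (fun z => HH (z + pe ^ 3)) z :=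
      ContinuousAt.comp (g := HH) (f := fun z => z + pe ^ 3)
        (continuousAt_HH (two_of (two_lm_add (two_lm_of h1)))) (by fun_prop)
    exact ((continuousAt_HH (two_of (two_lm_of h1))).mul h2).continuousWithinAt
  have hg : ContinuousOn (fun z => 4 * gg (lm ^ 2 * z)) Uᶜ := by
    intro z hz
    have h1 := hmem z hz
    have h2 : ContinuousAt (fun z => gg (lm ^ 2 * z)) z :=
      ContinuousAt.comp (g := gg) (f := fun z => lm ^ 2 * z) (continuousAt_gg' h1) (by fun_prop)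
    exact (h2.const_mul 4).continuousWithinAt
  have hsq : Set.EqOn ((fun z => HH z * HH (z + pe ^ 3)) ^ 2) ((fun z => 4 * gg (lm ^ 2 * z)) ^ 2) Uᶜ := by
    intro z hz
    have h1 := hmem z hz
    have h2 := HH_sq (two_lm_of h1)
    have h3 := HH_sq' h1
    have h4 := gg_sq_mul h1
    simp only [Pi.pow_apply]
    apply mul_right_cancel₀ (X_ne h1)
    have h5 : (HH z * HH (z + pe ^ 3)) ^ 2 * X (lm ^ 2 * z) =
        HH z ^ 2 * (HH (z + pe ^ 3) ^ 2 * X (lm ^ 2 * z)) := by ring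
    rw [h5, h2, h3]
    linear_combination (-16) * h4
  rcases hP.eq_or_eq_neg_of_sq_eq hf hg hsq (fun {z} hz =>
    mul_ne_zero (by norm_num) (gg_ne (hmem z hz))) with h | h
  · refine ⟨1, by norm_num, fun z hz => ?_⟩
    have h1 : z ∈ Uᶜ := by
      intro h2
      rw [hU] at h2
      exact hz h2
    rw [one_mul]
    exact h h1
  · refine ⟨-1, by norm_num, fun z hz => ?_⟩
    have h1 : z ∈ Uᶜ := by
      intro h2
      rw [hU] at h2
      exact hz h2
    have h2 := h h1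
    simp only [Pi.neg_apply] at h2
    rw [h2]
    ring

/-- the polynomial of the square: `PO c z ^ 2 * X w = - 4 F` -/
theorem PO_sq {c s z : ℂ} (hc : c ^ 2 = -1) (hz : 2 * (lm ^ 2 * z) ∉ PP.lattice)
    (hs : HH z * HH (z + pe ^ 3) = s * (4 * gg (lm ^ 2 * z))) :
    PO c z ^ 2 * X (lm ^ 2 * z) =
      -4 * (X (lm ^ 2 * z) ^ 2 + 1 - 2 * c * s * (gg (lm ^ 2 * z) * X (lm ^ 2 * z))) := by
  have h2 := HH_sq (two_lm_of hz)
  have h3 := HH_sq' hz
  rw [PO]
  linear_combination X (lm ^ 2 * z) * h2 + c ^ 2 * h3 + 2 * c * X (lm ^ 2 * z) * hs -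
    4 * (X (lm ^ 2 * z) - 1) * hc

/-- the abscissa at `z + 1/2` -/
theorem X_half_add {z : ℂ} (hz : 2 * z ∉ PP.lattice) : X (z + 1 / 2) * (X z - 1) = X z + 1 := by
  have h1 := sl_sq (notMem_of_two_mul hz) half_notMem' (notMem_of_two_mul (two_add_half hz))
  have h2 := sl_two two_half_mem half_notMem' hz
  rw [hq.half] at h1 h2
  have h3 := yh_sq (notMem_of_two_mul hz)
  have hX1 : X z - 1 ≠ 0 := fun h => X_sq_ne hz (by linear_combination (X z + 1) * h)
  apply mul_left_cancel₀ hX1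
  rw [← h2] at h3
  linear_combination (X z - 1) ^ 2 * h1 + h3

/-- **The pair relation of the squares**: `z + z'` is congruent to `i / 4`. -/
theorem PO_pair {c z z' : ℂ} (hc : c ^ 2 = -1) (hz : 2 * (lm ^ 2 * z) ∉ PP.lattice)
    (h : z + z' - zt / 4 ∈ PP.lattice) :
    PO c z' ^ 2 * X (lm * (lm ^ 2 * z)) = -zt * PO c z ^ 2 := by
  obtain ⟨s, hs1, hs⟩ := HH_sign (hq := hq)
  obtain ⟨w, hw⟩ : ∃ w, w = lm ^ 2 * z := ⟨_, rfl⟩
  obtain ⟨w', hw'⟩ : ∃ w', w' = lm ^ 2 * z' := ⟨_, rfl⟩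
  have hww : w + w' + 1 / 2 ∈ PP.lattice := by
    have e : w + w' + 1 / 2 = lm ^ 2 * (z + z' - zt / 4) := by
      rw [hw, hw', lm_sq]
      linear_combination (1 / 2) * zt_sq
    rw [e, pow_two, mul_assoc]
    exact lm_mem_mul (lm_mem_mul h)
  have hz2 : 2 * w ∉ PP.lattice := by rwa [hw]
  have hz2' : 2 * w' ∉ PP.lattice := by
    intro h1
    apply hz2
    have e : 2 * w = 2 * (w + w' + 1 / 2) - 2 * w' - 1 := by ring
    rw [e]
    exact sub_mem (sub_mem (two_mem hww) h1) one_mem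
  have a1 := PO_sq hc hz (hs z hz)
  have a2 := PO_sq hc (hw' ▸ hz2') (hs z' (hw' ▸ hz2'))
  rw [← hw] at a1 ⊢
  rw [← hw'] at a2
  have hX' : X w' * (X w - 1) = X w + 1 := by
    rw [← X_half_add hz2]
    congr 1
    have e : X w' = X (-(w + 1 / 2)) := X_congr (by
      have e1 : w' - -(w + 1 / 2) = w + w' + 1 / 2 := by ring
      rw [e1]
      exact hww)
    rw [e, Ell.X_neg]
  have hg' : gg w * gg w' = 2 := by
    have h1 := gG_pair hz2 hww
    rw [gg_gG, gg_gG]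
    have h2 : lm ^ 2 * (gG w * gG w') = lm ^ 2 * -zt := by rw [h1]
    rw [lm_sq] at h2
    linear_combination h2 - 2 * zt_sq + (gG w * gG w') * lm_sq (hq := hq)
  have hX1 : X w - 1 ≠ 0 := fun h => X_sq_ne hz2 (by linear_combination (X w + 1) * h)
  have hX2 : X w + 1 ≠ 0 := fun h => X_sq_ne hz2 (by linear_combination (X w - 1) * h)
  have hx := X_ne hz2
  have hx' := X_ne hz2'
  have hg := gg_ne hz2
  have b1 := gg_sq_mul hz2
  have b2 := X_lm hz2
  -- `PO' ^ 2 (X ^ 2 - 1) = 2 PO ^ 2 X`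
  have key : PO c z' ^ 2 * (X w ^ 2 - 1) = 2 * (PO c z ^ 2 * X w) := by
    linear_combination (-(PO c z' ^ 2 * (X w - 1))) * hX' + (X w - 1) ^ 2 * a2 -
      4 * (X w' * (X w - 1) + (X w + 1)) * hX' + 8 * c * s * gg w' * (X w - 1) * hX' -
      8 * c * s * gg w' * b1 + 8 * c * s * gg w * X w * hg' - 2 * a1
  apply mul_left_cancel₀ (mul_ne_zero two_ne_zero hx)
  linear_combination (-zt) * key + (-zt * PO c z' ^ 2) * b2 + (2 * PO c z' ^ 2 * X (lm * w) * X w) * zt_sq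

/-! ### the values -/

variable {B : ValuationSubring ℂ}

theorem v_four : B.valuation (4 : ℂ) = B.valuation lm ^ 4 := by
  have e : (4 : ℂ) = 2 * 2 := by norm_num
  rw [e, map_mul, ← v_lm_sq, ← pow_add]

theorem mlt {a b x y : B.ValueGroup} (h1 : x < a) (h2 : y ≤ b) (hb : 0 < b) : x * y < a * b :=
  (mul_le_mul' le_rfl h2).trans_lt (mul_lt_mul_of_pos_right h1 hb)

theorem v_one_of_sq {c : ℂ} (hc : c ^ 2 = -1 ∨ c ^ 2 = 1) : B.valuation c = 1 := by
  have h : B.valuation c ^ 2 = 1 := by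
    rw [← map_pow]
    rcases hc with hc | hc
    · rw [hc, Valuation.map_neg, map_one]
    · rw [hc, map_one]
  exact (pow_eq_one_iff_of_nonneg zero_le (by norm_num)).1 h

theorem v_lm_pow_lt (hB : (2 : ℂ)⁻¹ ∉ B) {m n : ℕ} (h : m < n) :
    B.valuation lm ^ n < B.valuation lm ^ m :=
  pow_lt_pow_right_of_lt_one₀ v_lm_pos (v_lm_lt hB) h

/-- `X w ^ 2 + 1` is in `lm ^ 3 B` -/
theorem v_Xsq_add (hB : (2 : ℂ)⁻¹ ∉ B) {w : ℂ} (hw : Od w) :
    B.valuation (X w ^ 2 + 1) ≤ B.valuation lm ^ 3 := by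
  have e : X w ^ 2 + 1 = 2 * (lm + zt * ((X w - 1) * X (lm * w) + (X (lm * w) - 1))) := by
    have e1 : lm = 1 + zt := rfl
    have h := X_lm hw.two
    linear_combination -h + (-2) * e1
  rw [e, map_mul, ← v_lm_sq, pow_succ (B.valuation lm) 2]
  refine mul_le_mul' le_rfl ?_
  refine (Valuation.map_add _ _ _).trans (max_le le_rfl ?_)
  rw [map_mul, v_zt, one_mul]
  refine (Valuation.map_add _ _ _).trans (max_le ?_ (v_X_sub hB hw.mul_lm).1.le)
  rw [map_mul, (v_X_sub hB hw).1, v_X hB hw.mul_lm, mul_one]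

/-- `X w ^ 2 + 2 X w - 1` is in `lm ^ 3 m` -/
theorem v_Xsq_sub (hB : (2 : ℂ)⁻¹ ∉ B) {w : ℂ} (hw : Od w) :
    B.valuation (X w ^ 2 + 2 * X w - 1) < B.valuation lm ^ 3 := by
  have e : X w ^ 2 + 2 * X w - 1 = X w * (2 * (lm ^ 2 + zt * (X (lm * w) - 1 - lm))) := by
    have e1 : lm = 1 + zt := rfl
    have h := X_lm hw.two
    have h1 := lm_sq (hq := hq)
    rw [h1]
    linear_combination -h + (2 * X w * zt) * e1 + (-2 * X w) * zt_sq + (2 * X w) * zt_sq +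
      (2 * X w) * zt_sq
  rw [e, map_mul, v_X hB hw, one_mul, map_mul, ← v_lm_sq, pow_succ (B.valuation lm) 2]
  refine mul_lt_mul_of_pos_left ?_ (pow_pos v_lm_pos 2)
  refine Valuation.map_add_lt _ ?_ ?_
  · rw [map_pow]
    have := v_lm_pow_lt hB (show 1 < 2 by norm_num)
    rwa [pow_one] at this
  · rw [map_mul, v_zt, one_mul]
    exact v_X_al hB hw.mul_lm

/-- the value of the character sum -/
theorem v_PO (hB : (2 : ℂ)⁻¹ ∉ B) {c z : ℂ} (hc : c ^ 2 = -1) (hz : Od z) :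
    B.valuation (PO c z) ^ 2 < B.valuation lm ^ 7 := by
  obtain ⟨s, hs1, hs⟩ := HH_sign (hq := hq)
  have hw : Od (lm ^ 2 * z) := hz.pow 2
  have h1 := PO_sq hc hw.two (hs z hw.two)
  obtain ⟨w, hww⟩ : ∃ w, w = lm ^ 2 * z := ⟨_, rfl⟩
  rw [← hww] at h1 hw
  obtain ⟨t, ht⟩ : ∃ t, t = 2 * c * s * (gg w * X w) := ⟨_, rfl⟩
  obtain ⟨F, hF⟩ : ∃ F, F = X w ^ 2 + 1 - t := ⟨_, rfl⟩
  rw [← ht, ← hF] at h1
  obtain ⟨l, hl⟩ : ∃ l, l = B.valuation lm := ⟨_, rfl⟩
  have hl0 : 0 < l := hl ▸ v_lm_pos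
  have hl1 : l < 1 := hl ▸ v_lm_lt hB
  have h2 : B.valuation (2 : ℂ) = l ^ 2 := by rw [hl, v_lm_sq]
  have vt : B.valuation t = l ^ 3 := by
    rw [ht, map_mul, map_mul, map_mul, map_mul, h2, v_one_of_sq (Or.inl hc),
      v_one_of_sq (Or.inr hs1), v_gg hB hw, v_X hB hw, ← hl, mul_one, mul_one, mul_one]
    rfl
  have vA := v_Xsq_add hB hw
  have vD := v_Xsq_sub hB hw
  rw [← hl] at vA vD ⊢
  have vF : B.valuation F ≤ l ^ 3 := by
    rw [hF]
    exact (Valuation.map_sub _ _ _).trans (max_le vA vt.le)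
  have ht2 : t ^ 2 = -4 * (X w * (X w ^ 2 - 1)) := by
    have b1 := gg_sq_mul hw.two
    rw [ht]
    linear_combination (4 * c ^ 2 * s ^ 2 * X w) * b1 + (4 * s ^ 2 * X w * (X w ^ 2 - 1)) * hc -
      (4 * X w * (X w ^ 2 - 1)) * hs1
  have hF2 : F ^ 2 = (X w ^ 2 + 2 * X w - 1) ^ 2 - 2 * t * F := by
    rw [hF]
    linear_combination -ht2
  have vF2 : B.valuation F < l ^ 3 := by
    have h3 : B.valuation (F ^ 2) < (l ^ 3) ^ 2 := by
      rw [hF2]
      refine Valuation.map_sub_lt _ ?_ ?_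
      · rw [map_pow]
        exact pow_lt_pow_left₀ vD zero_le two_ne_zero
      · rw [map_mul, map_mul, h2, vt, pow_two (l ^ 3)]
        refine mlt ?_ vF (pow_pos hl0 3)
        calc l ^ 2 * l ^ 3 < 1 * l ^ 3 :=
              mul_lt_mul_of_pos_right (pow_lt_one₀ zero_le hl1 two_ne_zero) (pow_pos hl0 3)
          _ = _ := one_mul _
    rw [map_pow] at h3
    exact lt_of_pow_lt_pow_left₀ 2 zero_le h3
  have h4 : B.valuation (PO c z) ^ 2 = l ^ 4 * B.valuation F := by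
    have h5 := congrArg B.valuation h1
    rw [map_mul, map_pow, v_X hB hw, mul_one, map_mul, Valuation.map_neg, v_four, ← hl] at h5
    exact h5
  rw [h4]
  calc l ^ 4 * B.valuation F < l ^ 4 * l ^ 3 := mul_lt_mul_of_pos_left vF2 (pow_pos hl0 4)
    _ = l ^ 7 := by rw [← pow_add]

/-- **The pair relation**, `k` odd. -/
theorem v_PO_pair (hB : (2 : ℂ)⁻¹ ∉ B) {c z z' e : ℂ} (hc : c ^ 2 = -1) (hz : Od z)
    (h : z + z' - zt / 4 ∈ PP.lattice) (he : e ^ 2 = 1) :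
    B.valuation (PO c z + e * PO c z') < B.valuation lm ^ 4 := by
  have hw : Od (lm ^ 2 * z) := hz.pow 2
  have h1 := PO_pair hc hw.two h
  have h2 := v_PO hB hc hz
  obtain ⟨x, hx⟩ : ∃ x, x = X (lm * (lm ^ 2 * z)) := ⟨_, rfl⟩
  have vx : B.valuation x = 1 := by rw [hx, v_X hB hw.mul_lm]
  have vx1 : B.valuation (x - 1 - lm) < B.valuation lm := by rw [hx]; exact v_X_al hB hw.mul_lm
  rw [← hx] at h1
  obtain ⟨l, hl⟩ : ∃ l, l = B.valuation lm := ⟨_, rfl⟩
  have hl0 : 0 < l := hl ▸ v_lm_pos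
  have hl1 : l < 1 := hl ▸ v_lm_lt hB
  have hp := fun m n (h : m < n) => v_lm_pow_lt hB (m := m) (n := n) h
  rw [← hl] at vx1 h2 hp ⊢
  have v2 : B.valuation (2 : ℂ) = l ^ 2 := by rw [hl, v_lm_sq]
  obtain ⟨a, ha⟩ : ∃ a, a = PO c z := ⟨_, rfl⟩
  obtain ⟨b, hb⟩ : ∃ b, b = PO c z' := ⟨_, rfl⟩
  rw [← ha] at h1 h2 ⊢
  rw [← hb] at h1 ⊢
  have vab : B.valuation b = B.valuation a := by
    have h5 := congrArg B.valuation h1
    rw [map_mul, map_pow, vx, mul_one, map_mul, Valuation.map_neg, v_zt, one_mul, map_pow] at h5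
    exact (pow_left_inj₀ zero_le zero_le two_ne_zero).1 h5
  have v1 : B.valuation (a ^ 2 + b ^ 2) < l ^ 8 := by
    have e1 : (a ^ 2 + b ^ 2) * x = a ^ 2 * ((x - 1 - lm) + 2) := by
      have e1 : lm = 1 + zt := rfl
      linear_combination h1 + a ^ 2 * e1
    have h5 := congrArg B.valuation e1
    rw [map_mul, vx, mul_one, map_mul, map_pow] at h5
    rw [h5]
    have h6 : B.valuation ((x - 1 - lm) + 2) ≤ l := by
      refine (Valuation.map_add _ _ _).trans (max_le vx1.le ?_)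
      rw [v2]
      have := hp 1 2 (by norm_num)
      rw [pow_one] at this
      exact this.le
    have h7 := mlt h2 h6 hl0
    rwa [← pow_succ] at h7
  have v3 : B.valuation (2 * (e * a * b)) < l ^ 8 := by
    rw [map_mul, map_mul, map_mul, v_one_of_sq (Or.inr he), one_mul, vab, ← pow_two, v2]
    calc l ^ 2 * B.valuation a ^ 2 < l ^ 2 * l ^ 7 := mul_lt_mul_of_pos_left h2 (pow_pos hl0 2)
      _ = l ^ 9 := by rw [← pow_add]
      _ < l ^ 8 := hp 8 9 (by norm_num)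
  have v4 : B.valuation ((a + e * b) ^ 2) < (l ^ 4) ^ 2 := by
    have e2 : (a + e * b) ^ 2 = (a ^ 2 + b ^ 2) + 2 * (e * a * b) := by
      linear_combination b ^ 2 * he
    rw [e2, ← pow_mul]
    exact Valuation.map_add_lt _ v1 v3
  rw [map_pow] at v4
  exact lt_of_pow_lt_pow_left₀ 2 zero_le v4

/-- a root of a monic quadratic polynomial over `B` is in `B` -/
theorem v_quad {f p q : ℂ} (h : f ^ 2 = p * f + q) (hp : B.valuation p ≤ 1)
    (hq' : B.valuation q ≤ 1) : B.valuation f ≤ 1 := by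
  by_contra h1
  push Not at h1
  have h2 : B.valuation (f ^ 2) ≤ B.valuation f := by
    rw [h]
    refine (Valuation.map_add _ _ _).trans (max_le ?_ (hq'.trans h1.le))
    rw [map_mul]
    exact mul_le_of_le_one_left zero_le hp
  rw [map_pow, pow_two] at h2
  have h3 : B.valuation f * 1 < B.valuation f * B.valuation f :=
    mul_lt_mul_of_pos_left h1 (zero_lt_one.trans h1)
  rw [mul_one] at h3
  exact absurd h2 (not_le.2 h3)

theorem v_quad_unit {f p q : ℂ} (h : f ^ 2 = p * f + q) (hp : B.valuation p ≤ 1)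
    (hq' : B.valuation q = 1) : B.valuation f = 1 := by
  have h1 := v_quad h hp hq'.le
  have h2 : B.valuation (f * (f - p)) = 1 := by
    have e : f * (f - p) = q := by linear_combination h
    rw [e, hq']
  have h3 : B.valuation (f - p) ≤ 1 := (Valuation.map_sub _ _ _).trans (max_le h1 hp)
  refine le_antisymm h1 ?_
  rw [map_mul] at h2
  rw [← h2]
  exact mul_le_of_le_one_right zero_le h3

theorem two_pe4_notMem : 2 * pe ^ 4 ∉ PP.lattice := by
  intro h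
  have e : (1 / 2 : ℂ) = -(2 * pe ^ 4) := by
    have h1 := pe_sq (hq := hq)
    linear_combination (1 / 2) * (-(2 * zt * pe ^ 2) - 1) * h1 + (2 * pe ^ 4) * zt_sq
  exact half_notMem' (e ▸ neg_mem h)

theorem lm2_pe6 : lm ^ 2 * pe ^ 6 = pe ^ 4 := by
  have h := lm_mul_pe (hq := hq)
  linear_combination (lm * pe ^ 5 + pe ^ 4) * h

theorem X_pe4 : X (pe ^ 4) ^ 2 = 2 * X (pe ^ 4) + 1 := by
  have h := X_lm two_pe4_notMem
  have e : lm * pe ^ 4 = pe ^ 3 := by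
    have h1 := lm_mul_pe (hq := hq)
    linear_combination pe ^ 3 * h1
  rw [e, X_pe3] at h
  linear_combination -h + (-2 * X (pe ^ 4)) * zt_sq

theorem v_X_pe4 (hB : (2 : ℂ)⁻¹ ∉ B) : B.valuation (X (pe ^ 4)) = 1 :=
  v_quad_unit X_pe4 (two_lt hB).le (map_one _)

/-- **The value of the character sum at the base point.** -/
theorem v_PO_base (hB : (2 : ℂ)⁻¹ ∉ B) {c : ℂ} (hc : c ^ 2 = -1) :
    B.valuation (PO c (pe ^ 6)) = B.valuation lm ^ 4 := by
  obtain ⟨s, hs1, hs⟩ := HH_sign (hq := hq)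
  have h0 : 2 * (lm ^ 2 * pe ^ 6) ∉ PP.lattice := by
    rw [lm2_pe6]
    exact two_pe4_notMem
  have h1 := PO_sq hc h0 (hs _ h0)
  have h2 := X_pe4 (hq := hq)
  have h3 := gg_sq_mul two_pe4_notMem
  have vx := v_X_pe4 hB
  rw [lm2_pe6] at h1
  obtain ⟨x, hx⟩ : ∃ x, x = X (pe ^ 4) := ⟨_, rfl⟩
  obtain ⟨g, hg⟩ : ∃ g, g = gg (pe ^ 4) := ⟨_, rfl⟩
  obtain ⟨P, hP⟩ : ∃ P, P = PO c (pe ^ 6) := ⟨_, rfl⟩
  rw [← hx] at h1 h2 h3 vx
  rw [← hg] at h1 h3
  rw [← hP] at h1 ⊢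
  obtain ⟨f, hf⟩ : ∃ f, f = (x ^ 2 + 1 - 2 * c * s * (g * x)) / 4 := ⟨_, rfl⟩
  have h4 : f ^ 2 = (x + 1) * f + -(x ^ 2) := by
    rw [hf]
    linear_combination (1 / 4) * (c ^ 2 * s ^ 2 * x) * h3 + (1 / 4) * s ^ 2 * x * (x ^ 2 - 1) * hc -
      (1 / 4) * x * (x ^ 2 - 1) * hs1 +
      (1 / 16) * (x ^ 2 - 6 * x + 3 - 4 * c * s * g * x) * h2
  have v4 : B.valuation f = 1 := by
    refine v_quad_unit h4 ?_ ?_
    · exact (Valuation.map_add _ _ _).trans (max_le vx.le (map_one _).le)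
    · rw [Valuation.map_neg, map_pow, vx, one_pow]
  have h5 : P ^ 2 * x = -(4 * 4) * f := by
    rw [h1, hf]
    ring
  have h6 := congrArg B.valuation h5
  rw [map_mul, vx, mul_one, map_mul, v4, mul_one, Valuation.map_neg, map_mul, v_four, ← pow_two,
    map_pow] at h6
  exact (pow_left_inj₀ zero_le zero_le two_ne_zero).1 h6

end

end Pool.Agent.Lib.MP_1a91b9_ntQ
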