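import Pool.Agent.Lib.MP_1a91b9_ntQ.A.Avg4
import Pool.Agent.Lib.MP_1a91b9_ntQ.A.LocO
import Pool.Agent.Lib.MP_1a91b9_ntQ.R.Qd4

/-!
# Quartic twists, part A, file SysE: the characters and the L-series of the class `lam ∥ D`

`ll x` is the exponent of the quartic symbol of `lam` modulo a primary element `x`, extended to
all elements `≡ 1` modulo `lam³` by its formula; it is additive and has period `lam ^ 7`.
`thE k` is the character of `i ^ k * lam`.
-/

set_option autoImplicit false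

namespace Pool.Agent.Lib.MP_1a91b9_ntQ

open NumberField Pool.Agent.Lib.MP_1a91b9_nuT Pool.Agent.Lib.MP_1a91b9_nuT.S3
  Pool.Agent.Lib.MP_1a91b9_nuT.Ell

noncomputable section

/-! ### The exponent of `lam` -/

/-- the exponent of the symbol of `lam` modulo a primary element -/
def ll (x : 𝓞 K) : ZMod 4 := ((((cp x).1 - (cp x).2 - (cp x).2 ^ 2 - 1) / 4 : ℤ) : ZMod 4)

theorem ll_q (q : Pg) : ll q.1 = c4 q lam := (c4_lam_cp q).symm

theorem ll_form (m n : ℤ) : ll (1 + lam ^ 3 * ((m : 𝓞 K) + (n : 𝓞 K) * iO)) =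
    -(m : ZMod 4) - ((m : ZMod 4) - n) ^ 2 := by
  have h1 : cp (1 + lam ^ 3 * ((m : 𝓞 K) + (n : 𝓞 K) * iO)) =
      (1 - 2 * m - 2 * n, 2 * m - 2 * n) := cp_form m n
  rw [ll, h1]
  have e : (((1 - 2 * m - 2 * n, 2 * m - 2 * n) : ℤ × ℤ).1 -
      ((1 - 2 * m - 2 * n, 2 * m - 2 * n) : ℤ × ℤ).2 -
      ((1 - 2 * m - 2 * n, 2 * m - 2 * n) : ℤ × ℤ).2 ^ 2 - 1) / 4 = -m - (m - n) ^ 2 := by
    change (1 - 2 * m - 2 * n - (2 * m - 2 * n) - (2 * m - 2 * n) ^ 2 - 1) / 4 = -m - (m - n) ^ 2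
    have : 1 - 2 * m - 2 * n - (2 * m - 2 * n) - (2 * m - 2 * n) ^ 2 - 1 =
        4 * (-m - (m - n) ^ 2) := by ring
    rw [this]
    omega
  rw [e]
  push_cast
  ring

theorem ll_one : ll 1 = 0 := by
  have h := ll_form 0 0
  simpa using h

theorem ll_mul {a b : 𝓞 K} (ha : In4 a) (hb : In4 b) : ll (a * b) = ll a + ll b := by
  obtain ⟨m, n, rfl⟩ := in4_form ha
  obtain ⟨k, l, rfl⟩ := in4_form hb
  have h : (1 + lam ^ 3 * ((m : 𝓞 K) + (n : 𝓞 K) * iO)) *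
    (1 + lam ^ 3 * ((k : 𝓞 K) + (l : 𝓞 K) * iO)) = 1 + lam ^ 3 *
      (((m + k + 2 * (-(m * k - n * l) - (m * l + n * k)) : ℤ) : 𝓞 K) +
        ((n + l + 2 * ((m * k - n * l) - (m * l + n * k)) : ℤ) : 𝓞 K) * iO) := mul_form m n k l
  rw [h, ll_form]
  refine Eq.trans ?_ (congrArg₂ (· + ·) (ll_form m n) (ll_form k l)).symm
  push_cast
  have key : ∀ m n k l : ZMod 4, -(m + k + 2 * (-(m * k - n * l) - (m * l + n * k))) -
      (m + k + 2 * (-(m * k - n * l) - (m * l + n * k)) -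
        (n + l + 2 * (m * k - n * l - (m * l + n * k)))) ^ 2 =
      -m - (m - n) ^ 2 + (-k - (k - l) ^ 2) := by decide
  exact key _ _ _ _

theorem ll_congr {a b : 𝓞 K} (ha : In4 a) (h : lam ^ 7 ∣ a - b) : ll a = ll b := by
  obtain ⟨m, n, rfl⟩ := in4_form ha
  obtain ⟨t, ht⟩ := h
  have h1 : b = 1 + lam ^ 3 * (((m + 4 * (cp t).1 : ℤ) : 𝓞 K) +
      ((n + 4 * (cp t).2 : ℤ) : 𝓞 K) * iO) := by
    have h3 : lam ^ 7 = lam ^ 3 * (-4) := by
      rw [← lam_four]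
      ring
    have h2 := eq_cp t
    push_cast
    linear_combination -ht - lam ^ 7 * h2 - (((cp t).1 : 𝓞 K) + (cp t).2 * iO) * h3
  rw [h1]
  refine (ll_form m n).trans (Eq.trans ?_ (ll_form _ _).symm)
  push_cast
  have h4 : (4 : ZMod 4) = 0 := rfl
  rw [h4]
  ring

theorem ll_DDq (S : Finset Pg) : ll (DDq S) = ∑ q ∈ S, ll q.1 := by
  induction S using Finset.induction_on with
  | empty => rw [DDq_empty, ll_one, Finset.sum_empty]
  | insert q S hq ih => rw [DDq_insert hq, ll_mul q.in4 (DDq_in4 S), ih, Finset.sum_insert hq]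

/-! ### The character -/

/-- the character of `i ^ k * lam` -/
def thE (k : ZMod 4) (x : 𝓞 K) : ℂ := e4 (k * nn x + ll x)

theorem thE_one (k : ZMod 4) : thE k 1 = 1 := by
  rw [thE, nn_one, ll_one, mul_zero, add_zero, e4_zero]

theorem thE_mul (k : ZMod 4) {a b : 𝓞 K} (ha : In4 a) (hb : In4 b) :
    thE k (a * b) = thE k a * thE k b := by
  rw [thE, nn_mul ha hb, ll_mul ha hb, thE, thE, ← e4_add]
  congr 1
  ring

theorem norm_thE (k : ZMod 4) (a : 𝓞 K) : ‖thE k a‖ = 1 := norm_e4 _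

theorem thE_ne (k : ZMod 4) (a : 𝓞 K) : thE k a ≠ 0 := e4_ne _

theorem thE_congr (k : ZMod 4) {a b : 𝓞 K} (ha : In4 a) (h : lam ^ 7 ∣ a - b) :
    thE k a = thE k b := by
  have h6 : lam ^ 6 ∣ a - b := (pow_dvd_pow _ (by norm_num)).trans h
  rw [thE, thE, nn_congr6 ha h6, ll_congr ha h]

theorem thE_chr (k : ZMod 4) : Chr (lam ^ 3) (lam ^ 7) (thE k) where
  ne := pow_ne_zero _ lam_ne_zero
  dvd := pow_dvd_pow _ (by norm_num)
  one := thE_one k
  mul _ _ ha hb := thE_mul k ha hb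
  le a _ := (norm_thE k a).le
  zero _ ha hc := absurd (in4_cop_lam ha 7) hc
  per _ _ ha h := thE_congr k ha h

/-! ### The L-series -/

/-- the character of `D` -/
def XE (k : ZMod 4) (T : Finset Pg) : 𝓞 K → ℂ := XT (f := lam ^ 3) (thE k) ch4 T

theorem XE_chr (k : ZMod 4) (T : Finset Pg) : Chr (lam ^ 3) (lam ^ 7 * DDq T) (XE k T) :=
  (thE_chr k).XT (f := lam ^ 3) (fun q => ch4_chrP q) T

theorem XE_eq (k : ZMod 4) (T : Finset Pg) (x : 𝓞 K) :
    XE k T x = thE k x * ∏ q ∈ T, ch4 q x := rfl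

theorem XE_of_cop (k : ZMod 4) {T : Finset Pg} {x : 𝓞 K} (h : ∀ q ∈ T, ¬ q.1 ∣ x) :
    XE k T x = e4 (k * nn x + ll x + ∑ q ∈ T, c4 q x) := by
  rw [XE_eq, e4_add (k * nn x + ll x), e4_sum]
  change thE k x * _ = thE k x * _
  congr 1
  exact Finset.prod_congr rfl fun q hq => ch4_of_not (h q hq)

/-- the entire L-function -/
def LE (k : ZMod 4) (T : Finset Pg) : ℂ → ℂ := LG (lam ^ 3) (XE k T)

theorem LE_diff (k : ZMod 4) (T : Finset Pg) : Differentiable ℂ (LE k T) := (XE_chr k T).LG_diff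

theorem LE_eq (k : ZMod 4) (T : Finset Pg) (s : ℂ) (hs : 2 < s.re) :
    LE k T s = S4.Lf (pG (lam ^ 3) (XE k T)) s := (XE_chr k T).LG_eq s hs

/-- the normalised value at `1` -/
def LaE (k : ZMod 4) (T : Finset Pg) : ℂ := em (lam ^ 7 * DDq T) * LE k T 1

theorem md_ll (q : Pg) : md (ll q.1) = bb q.1 := by
  rw [ll_q]
  exact c2_lam q

/-! ### The function `V` of the page -/

section gen
variable [CD]

/-- the function `V` of the page, divided by `- Om`; `s ^ 2 = -1` -/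
def V4 (s z : ℂ) : ℂ := PO zt z + s * PO zt (z + pe ^ 4)

/-- the factor `1` (`k` odd) or `- i` (`k` even) -/
def tE (k : ZMod 4) : ℂ := if md k = 0 then -zt else 1

/-- the factor `i ^ (k - 2)` (`k` odd) or `i ^ (k - 1)` (`k` even) -/
def sE (k : ZMod 4) : ℂ := if md k = 0 then e4 (k - 1) else e4 (k - 2)

theorem e4_odd_sq [Q4] {t : ZMod 4} (h : md t ≠ 0) : e4 t ^ 2 = -1 := by
  rw [e4_pow]
  have key : ∀ t : ZMod 4, md t ≠ 0 → ((2 : ℕ) : ZMod 4) * t = 2 := by decide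
  rw [key t h, e4_two]

theorem sE_sq [Q4] (k : ZMod 4) : sE k ^ 2 = -1 := by
  unfold sE
  split
  · next h =>
    have key : ∀ k : ZMod 4, md k = 0 → md (k - 1) ≠ 0 := by decide
    exact e4_odd_sq (key k h)
  · next h =>
    have key : ∀ k : ZMod 4, md k ≠ 0 → md (k - 2) ≠ 0 := by decide
    exact e4_odd_sq (key k h)

theorem tE_sq [Q4] (k : ZMod 4) : tE k ^ 4 = 1 := by
  unfold tE
  split
  · have e : (-zt) ^ 4 = zt ^ 4 := by ring
    rw [e, zt_four]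
  · rw [one_pow]

theorem tE_ne [Q4] (k : ZMod 4) : tE k ≠ 0 := by
  intro h
  have h1 := tE_sq k
  rw [h] at h1
  norm_num at h1

end gen

end

end Pool.Agent.Lib.MP_1a91b9_ntQ
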