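import Pool.Agent.Lib.MP_1a91b9_ntQ.A.PairR
import Pool.Agent.Lib.MP_1a91b9_ntQ.A.SysE

/-!
# Quartic twists, part A, file AvgE: the averaging identity for the class `lam ∥ D`
-/

set_option autoImplicit false

namespace Pool.Agent.Lib.MP_1a91b9_ntQ

open NumberField Pool.Agent.Lib.MP_1a91b9_nuT Pool.Agent.Lib.MP_1a91b9_nuT.S3
  Pool.Agent.Lib.MP_1a91b9_nuT.Ell

noncomputable section

/-! ### The general identity -/

/-- representatives modulo `lam ^ (3 + m) D` from the representatives modulo `lam ^ 3 D` and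
representatives modulo `lam ^ m` -/
theorem repsG4 {m : ℕ} {S : Finset Pg} {ι κ : Type} {c : ι → 𝓞 K} {x : κ → 𝓞 K}
    (h : RepsG (lam ^ 3) (lam ^ 3 * DDq S) c) (hex : ∀ a : 𝓞 K, ∃ j, lam ^ m ∣ a - x j)
    (hinj : ∀ i j, lam ^ m ∣ x i - x j → i = j) :
    RepsG (lam ^ 3) (lam ^ 3 * lam ^ m * DDq S)
      (fun p : ι × κ => c p.1 + lam ^ 3 * (DDq S * x p.2)) := by
  have hin : ∀ p : ι × κ, In4 (c p.1 + lam ^ 3 * (DDq S * x p.2)) := by
    rintro ⟨i, j⟩
    refine (in4_congr ?_).2 (h.fx i)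
    change lam ^ 3 ∣ c i + lam ^ 3 * (DDq S * x j) - c i
    rw [add_sub_cancel_left]
    exact dvd_mul_right _ _
  refine ⟨?_, ?_, hin, ?_, ?_, ?_⟩
  · exact mul_ne_zero (mul_ne_zero (pow_ne_zero _ lam_ne_zero) (pow_ne_zero _ lam_ne_zero))
      (DDq_in4 S).ne_zero
  · exact (dvd_mul_right _ _).mul_right _
  · rintro ⟨i, j⟩
    refine IsCoprime.mul_right (IsCoprime.mul_right (in4_cop_lam (hin (i, j)) 3)
      (in4_cop_lam (hin (i, j)) m)) ?_
    change IsCoprime (c i + lam ^ 3 * (DDq S * x j)) (DDq S)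
    obtain ⟨p, q, hpq⟩ := (h.cop i).of_isCoprime_of_dvd_right (dvd_mul_left (DDq S) (lam ^ 3))
    exact ⟨p, q - p * lam ^ 3 * x j, by linear_combination hpq⟩
  · intro a ha h1
    have h2 : IsCoprime a (lam ^ 3 * DDq S) :=
      ha.of_isCoprime_of_dvd_right ⟨lam ^ m, by ring⟩
    obtain ⟨i, e, he⟩ := h.ex a h2 h1
    obtain ⟨j, t, ht⟩ := hex e
    refine ⟨(i, j), t, ?_⟩
    change a - (c i + lam ^ 3 * (DDq S * x j)) = _
    linear_combination he + lam ^ 3 * DDq S * ht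
  · rintro ⟨i, j⟩ ⟨i', j'⟩ ⟨t, ht⟩
    change c i + lam ^ 3 * (DDq S * x j) - (c i' + lam ^ 3 * (DDq S * x j')) = _ at ht
    have h1 : i = i' := h.inj i i' ⟨lam ^ m * t - x j + x j', by linear_combination ht⟩
    subst h1
    have h2 : lam ^ 3 * DDq S * (x j - x j') = lam ^ 3 * DDq S * (lam ^ m * t) := by
      linear_combination ht
    have h3 := mul_left_cancel₀ h.ne h2
    rw [hinj j j' ⟨t, h3⟩]

/-- The identity for a general character of modulus `lam ^ (3 + m)`. -/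
theorem avg_genG {m : ℕ} {ep : 𝓞 K → ℂ} (hep : Chr (lam ^ 3) (lam ^ 3 * lam ^ m) ep)
    (S : Finset Pg) {ι κ : Type} [Fintype ι] [Fintype κ] {c : ι → 𝓞 K}
    {x : κ → 𝓞 K} (h : RepsG (lam ^ 3) (lam ^ 3 * DDq S) c)
    (hex : ∀ a : 𝓞 K, ∃ j, lam ^ m ∣ a - x j) (hinj : ∀ i j, lam ^ m ∣ x i - x j → i = j) :
    ∑ T ∈ S.powerset, (-1) ^ T.card * (em (lam ^ 3 * lam ^ m * DDq T) *
        LG (lam ^ 3) (XT (f := lam ^ 3) ep ch4 T) 1 *
        ∏ q ∈ S \ T, (em q.1 - XT (f := lam ^ 3) ep ch4 T q.1)) =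
      ∑ i, w4 S (c i) * ∑ j, ep (c i + lam ^ 3 * (DDq S * x j)) *
        E1 (em (c i) / em (lam ^ 3 * lam ^ m * DDq S) + em (x j) / em (lam ^ m)) := by
  let _ : DecidableEq (Pf (lam ^ 3)) := inferInstanceAs (DecidableEq Pg)
  have h1 := Gen_avg hep (fun q : Pf (lam ^ 3) => ch4_chrP q) S (fun _ => -1)
    (repsG4 h hex hinj)
  have hl : em (lam ^ 3) ≠ 0 := em_ne (pow_ne_zero 3 lam_ne_zero)
  have hm : em (lam ^ m) ≠ 0 := em_ne (pow_ne_zero m lam_ne_zero)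
  have hD : em (DDq S) ≠ 0 := em_ne (DDq_in4 S).ne_zero
  have hfD : em (lam ^ 3 * lam ^ m * DDq S) ≠ 0 := em_ne (mul_ne_zero (mul_ne_zero
    (pow_ne_zero 3 lam_ne_zero) (pow_ne_zero m lam_ne_zero)) (DDq_in4 S).ne_zero)
  have h2 := congrArg (fun z : ℂ => em (lam ^ 3 * lam ^ m * DDq S) * z) h1
  change em (lam ^ 3 * lam ^ m * DDq S) * _ =
    em (lam ^ 3 * lam ^ m * DDq S) * ((em (lam ^ 3 * lam ^ m * DDq S))⁻¹ * _) at h2
  rw [mul_inv_cancel_left₀ hfD, Finset.mul_sum] at h2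
  have e1 : ∀ T ∈ S.powerset, (-1) ^ T.card * (em (lam ^ 3 * lam ^ m * DDq T) *
      LG (lam ^ 3) (XT (f := lam ^ 3) ep ch4 T) 1 *
        ∏ q ∈ S \ T, (em q.1 - XT (f := lam ^ 3) ep ch4 T q.1)) =
      em (lam ^ 3 * lam ^ m * DDq S) * ((∏ q ∈ T, (-1 : ℂ)) *
      (LG (lam ^ 3) (XT (f := lam ^ 3) ep (fun q => ch4 q) T) 1 *
        ∏ q ∈ S \ T, (1 - XT (f := lam ^ 3) ep (fun q => ch4 q) T q.1 / em q.1))) := by
    intro T hT
    rw [Finset.prod_const, em_mul (lam ^ 3 * lam ^ m), em_mul (lam ^ 3 * lam ^ m), em_DDq, em_DDq]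
    have e2 : ∏ q ∈ S \ T, (em q.1 - XT (f := lam ^ 3) ep ch4 T q.1) =
        (∏ q ∈ S \ T, em q.1) * ∏ q ∈ S \ T, (1 - XT (f := lam ^ 3) ep ch4 T q.1 / em q.1) := by
      rw [← Finset.prod_mul_distrib]
      refine Finset.prod_congr rfl fun q _ => ?_
      have hq : em q.1 ≠ 0 := em_ne q.ne_zero
      field_simp
    have e3 : ∏ q ∈ S, em q.1 = (∏ q ∈ T, em q.1) * ∏ q ∈ S \ T, em q.1 := by
      rw [mul_comm, Finset.prod_sdiff (Finset.mem_powerset.1 hT)]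
    rw [e2, e3]
    change _ = em (lam ^ 3 * lam ^ m) * _ * (_ * (LG (lam ^ 3) (XT (f := lam ^ 3) ep ch4 T) 1 *
      ∏ q ∈ S \ T, (1 - XT (f := lam ^ 3) ep ch4 T q.1 / em q.1)))
    ring
  rw [Finset.sum_congr rfl e1]
  refine h2.trans ?_
  rw [Fintype.sum_prod_type]
  refine Finset.sum_congr rfl fun i _ => ?_
  rw [Finset.mul_sum]
  refine Finset.sum_congr rfl fun j _ => ?_
  change ep (c i + lam ^ 3 * (DDq S * x j)) *
    (∏ q ∈ S, (1 + -1 * ch4 q (c i + lam ^ 3 * (DDq S * x j)))) *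
    E1 (em (c i + lam ^ 3 * (DDq S * x j)) / em (lam ^ 3 * lam ^ m * DDq S)) = _
  have e2 : ∏ q ∈ S, (1 + -1 * ch4 q (c i + lam ^ 3 * (DDq S * x j))) = w4 S (c i) := by
    have h3 : w4 S (c i + lam ^ 3 * (DDq S * x j)) = w4 S (c i) := w4_per ⟨lam ^ 3 * x j, by ring⟩
    rw [← h3, w4]
    exact Finset.prod_congr rfl fun q _ => by ring
  have e5 : em (c i + lam ^ 3 * (DDq S * x j)) / em (lam ^ 3 * lam ^ m * DDq S) =
      em (c i) / em (lam ^ 3 * lam ^ m * DDq S) + em (x j) / em (lam ^ m) := by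
    rw [em_add, em_mul (lam ^ 3) (DDq S * x j), em_mul (DDq S), em_mul (lam ^ 3 * lam ^ m),
      em_mul (lam ^ 3)]
    field_simp
  rw [e2, e5]
  ring

/-! ### The representatives modulo `lam ^ 4` -/

/-- representatives modulo `lam ^ 4` -/
def y4 (p : Fin 2 × (ZMod 4 × Fin 2)) : 𝓞 K := ((p.1.val : ℕ) : 𝓞 K) + lam * x4 p.2

theorem y4_ex (a : 𝓞 K) : ∃ p, lam ^ 4 ∣ a - y4 p := by
  rcases Int.emod_two_eq_zero_or_one ((cp a).1 + (cp a).2) with h1 | h1
  · obtain ⟨b, hb⟩ : lam ∣ a := by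
      rw [lam_dvd_iff]
      exact Int.dvd_of_emod_eq_zero h1
    obtain ⟨p, t, ht⟩ := x4_ex b
    refine ⟨(0, p), t, ?_⟩
    have v0 : (((0 : Fin 2).val : ℕ) : 𝓞 K) = 0 := Nat.cast_zero
    rw [y4, v0]
    linear_combination hb + lam * ht
  · obtain ⟨b, hb⟩ : lam ∣ a - 1 := by
      rw [lam_dvd_iff, sub_cp, cp_one]
      dsimp only
      omega
    obtain ⟨p, t, ht⟩ := x4_ex b
    refine ⟨(1, p), t, ?_⟩
    have v1 : (((1 : Fin 2).val : ℕ) : 𝓞 K) = 1 := Nat.cast_one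
    rw [y4, v1]
    linear_combination hb + lam * ht

theorem y4_inj (p p' : Fin 2 × (ZMod 4 × Fin 2)) (h : lam ^ 4 ∣ y4 p - y4 p') : p = p' := by
  obtain ⟨a, p⟩ := p
  obtain ⟨a', p'⟩ := p'
  obtain ⟨t, ht⟩ := h
  have h0 : ((a.val : ℕ) : 𝓞 K) - ((a'.val : ℕ) : 𝓞 K) =
      lam * (lam ^ 3 * t - x4 p + x4 p') := by
    change ((a.val : ℕ) : 𝓞 K) + lam * x4 p - (((a'.val : ℕ) : 𝓞 K) + lam * x4 p') = _ at ht
    linear_combination ht
  have h1 : lam ∣ ((a.val : ℕ) : 𝓞 K) - ((a'.val : ℕ) : 𝓞 K) := Dvd.intro _ h0.symm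
  have c1 : ∀ n : ℕ, cp (n : 𝓞 K) = ((n : ℤ), (0 : ℤ)) := by
    intro n
    have := cp_coords n 0
    simpa using this
  rw [lam_dvd_iff, sub_cp, c1, c1] at h1
  dsimp only at h1
  have h2 := a.isLt
  have h3 := a'.isLt
  have h4 : a = a' := Fin.ext (by omega)
  subst h4
  rw [sub_self, eq_comm, mul_eq_zero] at h0
  have h5 := h0.resolve_left lam_ne_zero
  have h6 := x4_inj p p' ⟨t, by linear_combination -h5⟩
  rw [h6]

/-! ### The character on the representatives -/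

theorem thE_form (k : ZMod 4) (m n : ℤ) : thE k (1 + lam ^ 3 * ((m : 𝓞 K) + (n : 𝓞 K) * iO)) =
    e4 (k * ((m : ZMod 4) + n) + (-(m : ZMod 4) - ((m : ZMod 4) - n) ^ 2)) := by
  rw [thE, nn_form, ll_form]

/-- `lam` times an element -/
theorem lam_coords (x : 𝓞 K) : lam * x = (((cp x).1 - (cp x).2 : ℤ) : 𝓞 K) +
    (((cp x).1 + (cp x).2 : ℤ) : 𝓞 K) * iO := by
  have h := eq_cp x
  conv_lhs => rw [h]
  unfold lam
  push_cast
  linear_combination ((cp x).2 : 𝓞 K) * iO_sq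

/-- the exponent -/
def avE (k : ZMod 4) (x : 𝓞 K) : ZMod 4 := (2 * k - 1) * (cp x).1 + (cp x).2

theorem thE_lam (k : ZMod 4) (x : 𝓞 K) : thE k (1 + lam ^ 3 * (lam * x)) = e4 (avE k x) := by
  rw [lam_coords, thE_form, avE]
  congr 1
  push_cast
  have key : ∀ k a b : ZMod 4, k * (a - b + (a + b)) + (-(a - b) - (a - b - (a + b)) ^ 2) =
      (2 * k - 1) * a + b := by decide
  exact key _ _ _

theorem thE_one_lam (k : ZMod 4) (x : 𝓞 K) :
    thE k (1 + lam ^ 3 * (1 + lam * x)) = e4 (k - 2) * e4 (avE k x) := by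
  have e : 1 + lam * x = ((1 + ((cp x).1 - (cp x).2) : ℤ) : 𝓞 K) +
      (((cp x).1 + (cp x).2 : ℤ) : 𝓞 K) * iO := by
    rw [lam_coords]
    push_cast
    ring
  rw [e, thE_form, avE, ← e4_add]
  congr 1
  push_cast
  have key : ∀ k a b : ZMod 4, k * (1 + (a - b) + (a + b)) +
      (-(1 + (a - b)) - (1 + (a - b) - (a + b)) ^ 2) = k - 2 + ((2 * k - 1) * a + b) := by
    decide
  exact key _ _ _

theorem avE_odd {k : ZMod 4} (hk : md k ≠ 0) (x : 𝓞 K) : avE k x = sm x := by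
  have h : ∀ k : ZMod 4, md k ≠ 0 → 2 * k - 1 = 1 := by decide
  rw [avE, h k hk, one_mul, sm]
  push_cast
  rfl

theorem avE_even {k : ZMod 4} (hk : md k = 0) (x : 𝓞 K) : avE k (iO * x) = sm x := by
  have h : ∀ k : ZMod 4, md k = 0 → 2 * k - 1 = -1 := by decide
  have e : cp (iO * x) = (-(cp x).2, (cp x).1) := by
    rw [← cp_coords]
    congr 1
    conv_lhs => rw [eq_cp x]
    push_cast
    linear_combination ((cp x).2 : 𝓞 K) * iO_sq
  rw [avE, h k hk, e, sm]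
  push_cast
  ring

/-- the invariance of the sum over the classes modulo `lam ^ 3` -/
theorem sum_x4_unit {G : 𝓞 K → ℂ} (hG : ∀ a b : 𝓞 K, lam ^ 3 ∣ a - b → G a = G b) :
    ∑ p, G (x4 p) = ∑ p, G (iO * x4 p) := by
  have hex : ∀ p, ∃ p', lam ^ 3 ∣ iO * x4 p - x4 p' := fun p => x4_ex _
  choose σ hσ using hex
  have hinj : Function.Injective σ := by
    intro p p' h
    refine x4_inj p p' ?_
    have h1 := dvd_sub (hσ p) (hσ p')
    rw [h] at h1
    have e : iO * x4 p - x4 (σ p') - (iO * x4 p' - x4 (σ p')) = iO * (x4 p - x4 p') := by ring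
    rw [e] at h1
    exact (isUnit_iO.dvd_mul_left).1 h1
  have hbij : Function.Bijective σ := Finite.injective_iff_bijective.1 hinj
  rw [← Equiv.sum_comp (Equiv.ofBijective σ hbij)]
  refine Finset.sum_congr rfl fun p _ => ?_
  exact (hG _ _ (hσ p)).symm

/-- the sum over the classes modulo `lam ^ 3` -/
def PsE (k : ZMod 4) (z : ℂ) : ℂ := ∑ p, e4 (avE k (x4 p)) * E1 (z + em (x4 p) / em (lam ^ 3))

theorem Ph4_one_eq (z : ℂ) : Ph4 1 z = -(Om * PO zt z) := by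
  rw [Ph4_odd (by decide) (by decide), e4_one]
  rfl

theorem PsE_odd {k : ZMod 4} (hk : md k ≠ 0) (z : ℂ) : PsE k z = -(Om * PO zt z) := by
  rw [← Ph4_one_eq, ← sum_x4 (by decide) (by decide), PsE]
  refine Finset.sum_congr rfl fun p _ => ?_
  rw [avE_odd hk, one_mul]

theorem PsE_even {k : ZMod 4} (hk : md k = 0) (z : ℂ) :
    PsE k z = -(Om * -zt * PO zt (-zt * z)) := by
  have hl : em (lam ^ 3) ≠ 0 := em_ne (pow_ne_zero 3 lam_ne_zero)
  have hG : ∀ a b : 𝓞 K, lam ^ 3 ∣ a - b → e4 (avE k a) * E1 (z + em a / em (lam ^ 3)) =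
      e4 (avE k b) * E1 (z + em b / em (lam ^ 3)) := by
    rintro a b ⟨t, ht⟩
    have e1 : a = b + lam ^ 3 * t := by linear_combination ht
    have e2 : avE k a = avE k b := by
      have h1 : ∀ x : 𝓞 K, avE k x = sm (-iO * x) := by
        intro x
        have h := avE_even hk (-iO * x)
        have e : iO * (-iO * x) = x := by linear_combination -x * iO_sq
        rwa [e] at h
      have e3 : -iO * a = -iO * b + lam ^ 3 * (-iO * t) := by rw [e1]; ring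
      rw [h1, h1, e3, sm_add, sm_lam3, add_zero]
    have e4' : E1 (z + em a / em (lam ^ 3)) = E1 (z + em b / em (lam ^ 3)) := by
      refine E1_congr' ?_
      have e : z + em a / em (lam ^ 3) - (z + em b / em (lam ^ 3)) = em t := by
        rw [e1, em_add, em_mul]
        field_simp
        ring
      rw [e]
      exact em_mem t
    rw [e2, e4']
  have h1 := sum_x4_unit hG
  have h2 : ∀ p, e4 (avE k (iO * x4 p)) * E1 (z + em (iO * x4 p) / em (lam ^ 3)) =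
      -zt * (e4 (1 * sm (x4 p)) * E1 (-zt * z + em (x4 p) / em (lam ^ 3))) := by
    intro p
    have e : z + em (iO * x4 p) / em (lam ^ 3) = zt * (-zt * z + em (x4 p) / em (lam ^ 3)) := by
      have h3 : em (iO : 𝓞 K) = zt := rfl
      rw [em_mul, h3]
      linear_combination z * zt_sq
    rw [avE_even hk, one_mul, e, E1_i]
    ring
  rw [PsE, h1, Finset.sum_congr rfl fun p _ => h2 p, ← Finset.mul_sum,
    sum_x4 (by decide) (by decide), Ph4_one_eq]
  ring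

/-- the sum over the classes modulo `lam ^ 4` -/
theorem sum_y4 (k : ZMod 4) (z : ℂ) :
    ∑ p, thE k (1 + lam ^ 3 * y4 p) * E1 (z + em (y4 p) / em (lam ^ 4)) =
      PsE k z + e4 (k - 2) * PsE k (z + pe ^ 4) := by
  rw [Fintype.sum_prod_type, Fin.sum_univ_two, PsE, PsE, Finset.mul_sum]
  have hl : em lam ≠ 0 := em_ne lam_ne_zero
  have v0 : (((0 : Fin 2).val : ℕ) : 𝓞 K) = 0 := Nat.cast_zero
  have v1 : (((1 : Fin 2).val : ℕ) : 𝓞 K) = 1 := Nat.cast_one
  have a0 : ∀ x : 𝓞 K, em (lam * x) / em (lam ^ 4) = em x / em (lam ^ 3) := by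
    intro x
    rw [em_mul, em_pow, em_pow]
    field_simp
  congr 1
  · refine Finset.sum_congr rfl fun p _ => ?_
    rw [y4, v0, zero_add, thE_lam, a0]
  · refine Finset.sum_congr rfl fun p _ => ?_
    have hpe : em 1 / em (lam ^ 4) = pe ^ 4 := by
      rw [em_one, em_pow, em_lam, pe, inv_pow, one_div]
    have e : z + em (1 + lam * x4 p) / em (lam ^ 4) = z + pe ^ 4 + em (x4 p) / em (lam ^ 3) := by
      rw [em_add, add_div, a0, hpe]
      ring
    rw [y4, v1, thE_one_lam, e]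
    ring

/-- **The inner sum.** -/
theorem sum_y4_V (k : ZMod 4) (z : ℂ) :
    ∑ p, thE k (1 + lam ^ 3 * y4 p) * E1 (z + em (y4 p) / em (lam ^ 4)) =
      -(Om * tE k) * V4 (sE k) (tE k * z) := by
  rw [sum_y4]
  by_cases hk : md k = 0
  · have e1 : tE k = -zt := by
      unfold tE
      exact if_pos hk
    have e2 : sE k = e4 (k - 1) := by
      unfold sE
      exact if_pos hk
    have e3 : PO zt (-zt * (z + pe ^ 4)) = zt * PO zt (-zt * z + pe ^ 4) := by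
      have h := Ph4_pe3 (k := 1) (by decide) (by decide) (-zt * (z + pe ^ 4))
      rw [Ph4_one_eq, Ph4_one_eq, e4_neg, e4_one] at h
      have e : -zt * (z + pe ^ 4) + pe ^ 3 = -zt * z + pe ^ 4 := by
        have h1 := lm_mul_pe
        rw [lm] at h1
        linear_combination (-pe ^ 3) * h1
      rw [e] at h
      have hO := Om_ne_zero
      have hz := zt_ne0
      apply mul_left_cancel₀ hO
      apply mul_left_cancel₀ (inv_ne_zero hz)
      have h2 : zt⁻¹ * (Om * (zt * PO zt (-zt * z + pe ^ 4))) = Om * PO zt (-zt * z + pe ^ 4) := by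
        field_simp
      rw [h2]
      linear_combination h
    have e5 : e4 (k - 2) * zt = e4 (k - 1) := by
      rw [← e4_one, ← e4_add]
      congr 1
      ring
    rw [PsE_even hk, PsE_even hk, e1, e2, V4, e3]
    linear_combination (-(Om * -zt) * PO zt (-zt * z + pe ^ 4)) * e5
  · have e1 : tE k = 1 := by
      unfold tE
      exact if_neg hk
    have e2 : sE k = e4 (k - 2) := by
      unfold sE
      exact if_neg hk
    rw [PsE_odd hk, PsE_odd hk, e1, e2, V4, one_mul]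
    ring

/-- **(ID), class (E)** : representatives `c i = DDq S + lam ^ 7 * y i` -/
theorem avgE (k : ZMod 4) (S : Finset Pg) {ι : Type} [Fintype ι] {c y : ι → 𝓞 K}
    (h : RepsG (lam ^ 3) (lam ^ 3 * DDq S) c) (hy : ∀ i, c i = DDq S + lam ^ 7 * y i) :
    ∑ T ∈ S.powerset, (-1) ^ T.card * (LaE k T * ∏ q ∈ S \ T, (em q.1 - XE k T q.1)) =
      -(Om * tE k * thE k (DDq S)) * ∑ i, w4 S (c i) *
        V4 (sE k) (tE k * (pe ^ 7 + em (y i) / em (DDq S))) := by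
  have h37 : lam ^ 3 * lam ^ 4 = lam ^ 7 := by ring
  have hep : Chr (lam ^ 3) (lam ^ 3 * lam ^ 4) (thE k) := by
    rw [h37]
    exact thE_chr k
  have h1 := avg_genG hep S h y4_ex y4_inj
  rw [h37] at h1
  refine h1.trans ?_
  rw [Finset.mul_sum]
  refine Finset.sum_congr rfl fun i _ => ?_
  have hD : em (DDq S) ≠ 0 := em_ne (DDq_in4 S).ne_zero
  have hl : em (lam ^ 7) ≠ 0 := em_ne (pow_ne_zero 7 lam_ne_zero)
  have e1 : em (c i) / em (lam ^ 7 * DDq S) = pe ^ 7 + em (y i) / em (DDq S) := by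
    have e2 : (em (lam ^ 7))⁻¹ = pe ^ 7 := by rw [em_pow, em_lam, pe, inv_pow]
    rw [← e2, hy i, em_add, em_mul (lam ^ 7) (DDq S), em_mul (lam ^ 7) (y i)]
    field_simp
  have e3 : ∀ p, thE k (c i + lam ^ 3 * (DDq S * y4 p)) =
      thE k (DDq S) * thE k (1 + lam ^ 3 * y4 p) := by
    intro p
    have h2 : In4 (1 + lam ^ 3 * y4 p) := ⟨y4 p, by ring⟩
    rw [← thE_mul k (DDq_in4 S) h2]
    refine thE_congr k ?_ ?_
    · exact (in4_congr (by
        rw [add_sub_cancel_left]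
        exact dvd_mul_right _ _)).2 (h.fx i)
    · rw [hy i]
      exact ⟨y i, by ring⟩
  rw [e1, Finset.sum_congr rfl fun p _ => by rw [e3 p, mul_assoc], ← Finset.mul_sum, sum_y4_V]
  ring

/-! ### The representatives -/

theorem od_divE {S : Finset Pg} (hS : S.Nonempty) {y : 𝓞 K} (hq : ∀ q ∈ S, ¬ q.1 ∣ y) :
    Od (em y / em (DDq S)) := by
  have hD : em (DDq S) ≠ 0 := em_ne (DDq_in4 S).ne_zero
  refine ⟨⟨DDq S, (DDq_in4 S).ne_zero, ?_⟩, fun m hm => ?_⟩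
  · rw [mul_div_cancel₀ _ hD]
    exact em_mem y
  · obtain ⟨q, hqS⟩ := hS
    obtain ⟨z, hz⟩ := mem_iff_em.1 hm
    have h1 : em (DDq S * z) = em (lam ^ m * y) := by
      rw [em_mul, em_mul, hz, em_pow, em_lam]
      field_simp
    have h2 : DDq S * z = lam ^ m * y := em_inj h1
    have h3 : q.1 ∣ lam ^ m * y := by
      rw [← h2]
      exact (dvd_DDq.2 hqS).mul_right _
    rcases q.prime.dvd_or_dvd h3 with h4 | h4
    · exact q.in4.not_lam
        (q.prime.associated_of_dvd prime_lam (q.prime.dvd_of_dvd_pow h4)).symm.dvd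
    · exact hq q hqS h4

theorem per_div (S : Finset Pg) : ∃ n : ℕ, 0 < n ∧ ∀ y : 𝓞 K,
    lm ^ n * (em y / em (DDq S)) - em y / em (DDq S) ∈ PP.lattice := by
  have hD : em (DDq S) ≠ 0 := em_ne (DDq_in4 S).ne_zero
  obtain ⟨n, hn, t, ht⟩ := exists_lam_pow (S := S)
  refine ⟨n, hn, fun y => ?_⟩
  rw [mem_iff_em]
  refine ⟨t * y, ?_⟩
  have e : em (lam ^ n) = em (DDq S) * em t + 1 := by
    rw [← em_one, ← em_mul, ← em_add]
    congr 1
    linear_combination ht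
  rw [← em_lam, ← em_pow, e, em_mul]
  field_simp
  ring

/-- a system `y` with `c i = DDq S + lam ^ 7 * y i`, and the involution `y ↦ - y` -/
theorem exists_repsE {S : Finset Pg} (hS : S.Nonempty) :
    ∃ (ι : Type) (_ : Fintype ι) (c y : ι → 𝓞 K) (sg : ι → ι),
      RepsG (lam ^ 3) (lam ^ 3 * DDq S) c ∧ (∀ i, c i = DDq S + lam ^ 7 * y i) ∧
      (∀ i, sg (sg i) = i) ∧ (∀ i, sg i ≠ i) ∧ (∀ i, DDq S ∣ y i + y (sg i)) ∧
      (∀ i, Od (em (y i) / em (DDq S))) ∧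
      (∀ i, ∃ n : ℕ, 0 < n ∧
        lm ^ n * (em (y i) / em (DDq S)) - em (y i) / em (DDq S) ∈ PP.lattice) := by
  obtain ⟨ι, hι, c0, hc0⟩ := RepsG.exists_reps (f := lam ^ 3) (ν := lam ^ 3 * DDq S)
    (mul_ne_zero (pow_ne_zero 3 lam_ne_zero) (DDq_in4 S).ne_zero) (dvd_mul_right _ _)
  obtain ⟨u, v, huv⟩ := in4_cop_lam (DDq_in4 S) 4
  have hs : ∀ i, ∃ s, c0 i - DDq S = lam ^ 3 * s := by
    intro i
    have h := dvd_sub (hc0.fx i) (DDq_in4 S)
    rw [show c0 i - 1 - (DDq S - 1) = c0 i - DDq S by ring] at h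
    exact h
  choose s hs using hs
  have hc : RepsG (lam ^ 3) (lam ^ 3 * DDq S) (fun i => DDq S + lam ^ 7 * (s i * v)) := by
    have hdif : ∀ i, DDq S + lam ^ 7 * (s i * v) - c0 i = lam ^ 3 * DDq S * (-(u * s i)) := by
      intro i
      linear_combination -(hs i) + lam ^ 3 * s i * huv
    refine ⟨hc0.ne, hc0.dvd, fun i => ?_, fun i => ?_, ?_, ?_⟩
    · exact (in4_congr (Dvd.intro _ (by
        have h := hdif i
        change _ = DDq S + lam ^ 7 * (s i * v) - c0 i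
        rw [h]
        exact (mul_assoc _ _ _).symm))).2 (hc0.fx i)
    · exact Eul_cop (Dvd.intro _ (hdif i).symm) (hc0.cop i)
    · intro a ha h1
      obtain ⟨i, t, ht⟩ := hc0.ex a ha h1
      exact ⟨i, t + u * s i, by linear_combination ht - hdif i⟩
    · rintro i j ⟨t, ht⟩
      exact hc0.inj i j ⟨t + u * s i - u * s j, by linear_combination ht - hdif i + hdif j⟩
  obtain ⟨sg, h1, h2, h3⟩ := reps_pair hc hS
  obtain ⟨n, hn, hn'⟩ := per_div S
  refine ⟨ι, hι, _, fun i => s i * v, sg, hc, fun i => rfl, h1, h2, fun i => ?_, fun i => ?_,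
    fun i => ⟨n, hn, hn' _⟩⟩
  · obtain ⟨t, ht⟩ := h3 i
    have h4 : DDq S ∣ lam ^ 7 * (s i * v + s (sg i) * v) := by
      refine ⟨-(lam ^ 3 * t), ?_⟩
      change 2 * DDq S - (DDq S + lam ^ 7 * (s i * v)) - (DDq S + lam ^ 7 * (s (sg i) * v)) = _ at ht
      linear_combination -ht
    exact (in4_cop_lam (DDq_in4 S) 7).dvd_of_dvd_mul_left h4
  · refine od_divE hS fun q hq h => reps_not_dvd hc i hq ?_
    change q.1 ∣ DDq S + lam ^ 7 * (s i * v)
    exact dvd_add (dvd_DDq.2 hq) (h.mul_left _)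

end

end Pool.Agent.Lib.MP_1a91b9_ntQ
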