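import Pool.Agent.Lib.MP_1a91b9_ntQ.A.B1b

/-!
# Quartic twists, class (E), file B1: the sums over the representatives up to sign
-/

set_option autoImplicit false

namespace Pool.Agent.Lib.MP_1a91b9_ntQ

open NumberField IsDedekindDomain Pool.Agent.Lib.MP_1a91b9_nuT Pool.Agent.Lib.MP_1a91b9_nuT.S3
  Pool.Agent.Lib.MP_1a91b9_nuT.Ell

noncomputable section

/-- representatives up to sign of the classes prime to `DDq S` -/
structure Tr (S : Finset Pg) {ι : Type} (T : Finset ι) (y : ι → 𝓞 K) : Prop where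
  ndvd : ∀ i ∈ T, ∀ q ∈ S, ¬ q.1 ∣ y i
  ex : ∀ x, (∀ q ∈ S, ¬ q.1 ∣ x) → ∃ i ∈ T, Pm (DDq S) x (y i)
  inj : ∀ i ∈ T, ∀ j ∈ T, Pm (DDq S) (y i) (y j) → i = j

variable {S : Finset Pg} {ι : Type} {T : Finset ι} {y : ι → 𝓞 K}

private theorem B1_cop_of {x : 𝓞 K} (h : ∀ q ∈ S, ¬ q.1 ∣ x) : IsCoprime x (DDq S) :=
  IsCoprime.prod_right fun q hq => (q.prime.irreducible.coprime_iff_not_dvd.2 (h q hq)).symm

theorem Tr.mul (h : Tr S T y) {a : 𝓞 K} (ha : ∀ q ∈ S, ¬ q.1 ∣ a) : Tr S T fun i => a * y i := by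
  obtain ⟨u, v, huv⟩ := B1_cop_of ha
  refine ⟨fun i hi q hq h1 => ?_, fun x hx => ?_, fun i hi j hj h1 => h.inj i hi j hj ?_⟩
  · exact (q.prime.dvd_or_dvd h1).elim (ha q hq) (h.ndvd i hi q hq)
  · have hu : ∀ q ∈ S, ¬ q.1 ∣ u * x := by
      intro q hq h1
      rcases q.prime.dvd_or_dvd h1 with h2 | h2
      · have h3 : q.1 ∣ u * a + v * DDq S := dvd_add (h2.mul_right a)
          ((dvd_DDq.2 hq).mul_left v)
        rw [huv] at h3
        exact q.prime.not_isUnit (isUnit_of_dvd_one h3)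
      · exact hx q hq h2
    obtain ⟨i, hi, h1⟩ := h.ex _ hu
    refine ⟨i, hi, Pm.trans (Or.inl ?_) (h1.mul a)⟩
    exact ⟨v * x, by linear_combination (-x) * huv⟩
  · have h2 := h1.mul u
    have h3 : ∀ x : 𝓞 K, Pm (DDq S) (u * (a * x)) x := fun x =>
      Or.inl ⟨-(v * x), by linear_combination x * huv⟩
    exact (h3 _).symm.trans (h2.trans (h3 _))

/-- the representatives of the mean value -/
theorem tr_of {c : ι → 𝓞 K} {sg : ι → ι} (h : RepsG (lam ^ 3) (lam ^ 3 * DDq S) c)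
    (hy : ∀ i, c i = DDq S + lam ^ 7 * y i) (h3 : ∀ i, DDq S ∣ y i + y (sg i))
    (hT : ∀ i, i ∈ T ↔ sg i ∉ T) : Tr S T y := by
  have hcop : IsCoprime (DDq S) (lam ^ 7) := in4_cop_lam (DDq_in4 S) 7
  have hl7 : lam ^ 3 ∣ lam ^ 7 := pow_dvd_pow lam (by norm_num)
  have key : ∀ i j, DDq S ∣ y i - y j → i = j := by
    intro i j hij
    refine h.inj i j ?_
    rw [hy, hy]
    have e : DDq S + lam ^ 7 * y i - (DDq S + lam ^ 7 * y j) = lam ^ 7 * (y i - y j) := by ring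
    rw [e]
    exact mul_dvd_mul hl7 hij
  refine ⟨fun i _ q hq h1 => ?_, fun x hx => ?_, fun i hi j hj h1 => ?_⟩
  · refine reps_not_dvd h i hq ?_
    rw [hy]
    exact dvd_add (dvd_DDq.2 hq) (h1.mul_left _)
  · have h1 : lam ^ 3 ∣ DDq S + lam ^ 7 * x - 1 := by
      have e : DDq S + lam ^ 7 * x - 1 = (DDq S - 1) + lam ^ 7 * x := by ring
      rw [e]
      exact dvd_add (DDq_in4 S) (hl7.mul_right x)
    have h2 : IsCoprime (DDq S + lam ^ 7 * x) (lam ^ 3 * DDq S) := by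
      refine IsCoprime.mul_right (in4_cop_lam h1 3) (B1_cop_of fun q hq h4 => ?_)
      have h5 := dvd_sub h4 (dvd_DDq.2 hq)
      rw [add_sub_cancel_left] at h5
      rcases q.prime.dvd_or_dvd h5 with h6 | h6
      · exact lam_not_dvd q (q.prime.dvd_of_dvd_pow h6)
      · exact hx q hq h6
    obtain ⟨i, hi⟩ := h.ex _ h2 h1
    have h5 : DDq S ∣ x - y i := by
      refine hcop.dvd_of_dvd_mul_left ?_
      have h6 := (dvd_mul_left (DDq S) (lam ^ 3)).trans hi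
      rw [hy] at h6
      rwa [show DDq S + lam ^ 7 * x - (DDq S + lam ^ 7 * y i) = lam ^ 7 * (x - y i) by ring] at h6
    by_cases h6 : i ∈ T
    · exact ⟨i, h6, Or.inl h5⟩
    · have h7 : sg i ∈ T := by
        by_contra h8
        exact h6 ((hT i).2 h8)
      refine ⟨sg i, h7, Or.inr ?_⟩
      have h8 := dvd_add h5 (h3 i)
      rwa [show x - y i + (y i + y (sg i)) = x + y (sg i) by ring] at h8
  · rcases h1 with h1 | h1
    · exact key i j h1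
    · exfalso
      have h4 := dvd_sub h1 (h3 j)
      rw [show y i + y j - (y j + y (sg j)) = y i - y (sg j) by ring] at h4
      rw [key i (sg j) h4] at hi
      exact (hT j).1 hj hi

private theorem B1_S2 (h : Tr S T y) {R : Type*} [AddCommMonoid R] {F : 𝓞 K → R}
    (hF : Pd2 (DDq S) F) (h0 : ∀ x, F x ≠ 0 → ∀ q ∈ S, ¬ q.1 ∣ x) :
    S2 (DDq S) F = ∑ i ∈ T, F (y i) :=
  S2_sup (DDq_ne_zero S) hF (fun x hx => h.ex x (h0 x hx)) h.inj

variable {B : ValuationSubring ℂ}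

/-- the sum of the good coordinates, any representatives -/
theorem b1_of (hB : (2 : ℂ)⁻¹ ∉ B) (hS : S.Nonempty) (h : Tr S T y) (τ : Pg → ZMod 2) {W : ι → ℂ}
    (hW : ∀ i ∈ T, Rt B (W i) (∏ q ∈ S, (c2 q (y i) + τ q))) :
    Rt B (∑ i ∈ T, W i * (xi (em (y i) / em (DDq S)) + xi (em (y i) / em (DDq S)) ^ 2))
      (∑ r ∈ S, c2 r lam * Ham s4 (fun q => aa q.1) S r) := by
  let i1 := rsdAlg hB
  have hX := xiR4 hB
  have hM := DDq_ne_zero S
  have hod : ∀ i ∈ T, Od (em (y i) / em (DDq S)) := by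
    intro i hi
    obtain ⟨q, hq⟩ := hS
    exact od_divM (DDq_in4 S) fun h1 => h.ndvd i hi q hq ((dvd_DDq.2 hq).trans h1)
  have hxi : ∀ i ∈ T, xi (em (y i) / em (DDq S)) ∈ B := fun i hi => xi_mem hB (hod i hi)
  rw [rt_iff hB]
  have hmem : ∀ i ∈ T, W i * (xi (em (y i) / em (DDq S)) + xi (em (y i) / em (DDq S)) ^ 2) ∈ B :=
    fun i hi => Subring.mul_mem _ ((rt_iff hB).1 (hW i hi)).1
      (add_mem (hxi i hi) (Subring.pow_mem _ (hxi i hi) 2))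
  obtain ⟨h1, h2⟩ := rsd_sum T hmem
  refine ⟨h2, h1.trans ?_⟩
  have h3 := HE_main hX hS τ
  rw [Algebra.algebraMap_eq_smul_one, ← h3, B1_S2 h ((gB_pd S τ).smul ?_)]
  · refine Finset.sum_congr rfl fun i hi => ?_
    rw [rsd_mul ((rt_iff hB).1 (hW i hi)).1
      (add_mem (hxi i hi) (Subring.pow_mem _ (hxi i hi) 2)), rsd_add (hxi i hi)
      (Subring.pow_mem _ (hxi i hi) 2), rsd_pow (hxi i hi), ((rt_iff hB).1 (hW i hi)).2,
      gB_pos (h.ndvd i hi), Algebra.smul_def]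
  · intro x hx
    refine gB_ne (τ := τ) fun h4 => hx ?_
    rw [h4, zero_smul]
  · intro a b hab
    have h4 := hX.pd hM a b hab
    change rsd B (xi (em a / em (DDq S))) = rsd B (xi (em b / em (DDq S))) at h4
    change rsd B (xi (em a / em (DDq S))) + rsd B (xi (em a / em (DDq S))) ^ 2 =
      rsd B (xi (em b / em (DDq S))) + rsd B (xi (em b / em (DDq S))) ^ 2
    rw [h4]

/-- the sum of the weights, any representatives -/
theorem b1_count_of (hB : (2 : ℂ)⁻¹ ∉ B) (hS : S.Nonempty) (h : Tr S T y) (τ : Pg → ZMod 2)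
    {W : ι → ℂ} (hW : ∀ i ∈ T, Rt B (W i) (∏ q ∈ S, (c2 q (y i) + τ q))) :
    Rt B (∑ i ∈ T, W i) (if S.card = 1 then ∑ q ∈ S, aa q.1 else 0) := by
  have h1 := Rt.sum hB T hW
  have h2 : (∑ i ∈ T, ∏ q ∈ S, (c2 q (y i) + τ q)) =
      if S.card = 1 then ∑ q ∈ S, aa q.1 else 0 := by
    rw [← S2_gB hS τ, B1_S2 h (gB_pd S τ) fun x hx => gB_ne hx]
    exact Finset.sum_congr rfl fun i hi => (gB_pos (h.ndvd i hi)).symm
  rwa [h2] at h1

/-- the two sums, representatives over a finite type -/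
theorem b1_fin {κ : Type} [Fintype κ] (hB : (2 : ℂ)⁻¹ ∉ B) (hS : S.Nonempty) {y : κ → 𝓞 K}
    (nd : ∀ i, ∀ q ∈ S, ¬ q.1 ∣ y i)
    (ex : ∀ a, IsCoprime a (DDq S) → ∃ i, DDq S ∣ a - y i ∨ DDq S ∣ a + y i)
    (inj : ∀ i j, (DDq S ∣ y i - y j ∨ DDq S ∣ y i + y j) → i = j) (τ : Pg → ZMod 2) {W : κ → ℂ}
    (hW : ∀ i, Rt B (W i) (∏ q ∈ S, (c2 q (y i) + τ q))) :
    Rt B (∑ i, W i * (xi (em (y i) / em (DDq S)) + xi (em (y i) / em (DDq S)) ^ 2))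
      (∑ r ∈ S, c2 r lam * Ham s4 (fun q => aa q.1) S r) ∧
    Rt B (∑ i, W i) (if S.card = 1 then ∑ q ∈ S, aa q.1 else 0) := by
  have h : Tr S (Finset.univ : Finset κ) y := ⟨fun i _ => nd i, fun x hx => by
    obtain ⟨i, hi⟩ := ex x (B1_cop_of hx)
    exact ⟨i, Finset.mem_univ i, hi⟩, fun i _ j _ => inj i j⟩
  exact ⟨b1_of hB hS h τ fun i _ => hW i, b1_count_of hB hS h τ fun i _ => hW i⟩

/-- the form used in `RhsE` -/
theorem B1_main {B : ValuationSubring ℂ} (hB : (2 : ℂ)⁻¹ ∉ B) {S : Finset Pg} (hS : S.Nonempty)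
    {κ : Type} [Fintype κ] {y : κ → 𝓞 K} (nd : ∀ i, ∀ q ∈ S, ¬ q.1 ∣ y i)
    (ex : ∀ a : 𝓞 K, IsCoprime a (DDq S) → ∃ i, DDq S ∣ a - y i ∨ DDq S ∣ a + y i)
    (inj : ∀ i j, (DDq S ∣ y i - y j ∨ DDq S ∣ y i + y j) → i = j) {W : κ → ℂ}
    (hW : ∀ i, Rt B (W i) (∏ q ∈ S, (c2 q (y i) + c2 q lam))) :
    Rt B (∑ i, W i * (xi (em (y i) / em (DDq S)) + xi (em (y i) / em (DDq S)) ^ 2))
      (∑ r ∈ S, c2 r lam * Ham s4 (fun q => aa q.1) S r) ∧
    Rt B (∑ i, W i) (if S.card = 1 then ∑ q ∈ S, aa q.1 else 0) :=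
  b1_fin hB hS nd ex inj (fun q => c2 q lam) hW

private theorem B1_lam (q : Pg) (n : ℕ) : ¬ q.1 ∣ lam ^ n := fun h =>
  lam_not_dvd q (q.prime.dvd_of_dvd_pow h)

private theorem B1_em_lam : em lam = lm := by
  rw [lam, em_add, em_one, em_iO', lm]

private theorem B1_c2_pow (q : Pg) (n : ℕ) : c2 q (lam ^ n) = n * c2 q lam := by
  induction n with
  | zero => rw [pow_zero, c2_one, Nat.cast_zero, zero_mul]
  | succ n ih =>
    rw [pow_succ, c2_mul q (B1_lam q n) (lam_not_dvd q), ih]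
    push_cast
    ring

/-- the exponent of a representative -/
theorem c2_rep {c : 𝓞 K} {z : 𝓞 K} (hy : c = DDq S + lam ^ 7 * z) {q : Pg} (hq : q ∈ S)
    (hz : ¬ q.1 ∣ z) : c2 q c = c2 q z + c2 q lam := by
  have h1 : ¬ q.1 ∣ lam ^ 7 * z := fun h => (q.prime.dvd_or_dvd h).elim (B1_lam q 7) hz
  have h2 : q.1 ∣ lam ^ 7 * z - c := by
    rw [hy]
    have e : lam ^ 7 * z - (DDq S + lam ^ 7 * z) = -DDq S := by ring
    rw [e]
    exact (dvd_neg).2 (dvd_DDq.2 hq)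
  rw [← c2_congr q h1 h2, c2_mul q (B1_lam q 7) hz, B1_c2_pow]
  have e : ((7 : ℕ) : ZMod 2) = 1 := rfl
  rw [e, one_mul, add_comm]

section
variable {c : ι → 𝓞 K} {sg : ι → ι}

private theorem B1_wt (h : RepsG (lam ^ 3) (lam ^ 3 * DDq S) c)
    (hy : ∀ i, c i = DDq S + lam ^ 7 * y i) (h3 : ∀ i, DDq S ∣ y i + y (sg i))
    (hT : ∀ i, i ∈ T ↔ sg i ∉ T) {W : ι → ℂ} (hW : ∀ i ∈ T, Rt B (W i) (∏ q ∈ S, c2 q (c i))) :
    ∀ i ∈ T, Rt B (W i) (∏ q ∈ S, (c2 q (lam ^ 2 * y i) + c2 q lam)) := by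
  have h4 := tr_of h hy h3 hT
  intro i hi
  have e : (∏ q ∈ S, (c2 q (lam ^ 2 * y i) + c2 q lam)) = ∏ q ∈ S, c2 q (c i) := by
    refine Finset.prod_congr rfl fun q hq => ?_
    have h5 := h4.ndvd i hi q hq
    rw [c2_rep (hy i) hq h5, c2_mul q (B1_lam q 2) h5, B1_c2_pow]
    have e2 : ((2 : ℕ) : ZMod 2) = 0 := rfl
    rw [e2, zero_mul, zero_add]
  rw [e]
  exact hW i hi

/-- **the sum of the good coordinates** (representatives of `exists_repsE`) -/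
theorem b1_beta (hB : (2 : ℂ)⁻¹ ∉ B) (hS : S.Nonempty)
    (h : RepsG (lam ^ 3) (lam ^ 3 * DDq S) c)
    (hy : ∀ i, c i = DDq S + lam ^ 7 * y i) (h3 : ∀ i, DDq S ∣ y i + y (sg i))
    (hT : ∀ i, i ∈ T ↔ sg i ∉ T) {W : ι → ℂ} (hW : ∀ i ∈ T, Rt B (W i) (∏ q ∈ S, c2 q (c i))) :
    Rt B (∑ i ∈ T, W i * (xi (lm ^ 2 * (em (y i) / em (DDq S))) +
      xi (lm ^ 2 * (em (y i) / em (DDq S))) ^ 2))
      (∑ r ∈ S, c2 r lam * Ham s4 (fun q => aa q.1) S r) := by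
  have h4 := b1_of hB hS ((tr_of h hy h3 hT).mul fun q _ => B1_lam q 2) (fun q => c2 q lam)
    (B1_wt h hy h3 hT hW)
  have e : ∀ i, em (lam ^ 2 * y i) / em (DDq S) = lm ^ 2 * (em (y i) / em (DDq S)) := by
    intro i
    rw [em_mul, em_pow, B1_em_lam, mul_div_assoc]
  simp only [e] at h4
  exact h4

/-- **the sum of the weights** (representatives of `exists_repsE`) -/
theorem b1_count (hB : (2 : ℂ)⁻¹ ∉ B) (hS : S.Nonempty)
    (h : RepsG (lam ^ 3) (lam ^ 3 * DDq S) c)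
    (hy : ∀ i, c i = DDq S + lam ^ 7 * y i) (h3 : ∀ i, DDq S ∣ y i + y (sg i))
    (hT : ∀ i, i ∈ T ↔ sg i ∉ T) {W : ι → ℂ} (hW : ∀ i ∈ T, Rt B (W i) (∏ q ∈ S, c2 q (c i))) :
    Rt B (∑ i ∈ T, W i) (if S.card = 1 then ∑ q ∈ S, aa q.1 else 0) :=
  b1_count_of hB hS ((tr_of h hy h3 hT).mul fun q _ => B1_lam q 2) (fun q => c2 q lam)
    (B1_wt h hy h3 hT hW)

/-- **(R)**, the sum over the pairs: the value of `v_V4_pair` -/
theorem b1_full (hB : (2 : ℂ)⁻¹ ∉ B) (hS : S.Nonempty) (k : ZMod 4)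
    (h : RepsG (lam ^ 3) (lam ^ 3 * DDq S) c)
    (hy : ∀ i, c i = DDq S + lam ^ 7 * y i) (h3 : ∀ i, DDq S ∣ y i + y (sg i))
    (hT : ∀ i, i ∈ T ↔ sg i ∉ T) {W : ι → ℂ} (hW : ∀ i ∈ T, Rt B (W i) (∏ q ∈ S, c2 q (c i))) :
    Rt B (∑ i ∈ T, W i * ((if md k = 0 then 1 else 0) + xi (lm ^ 2 * (em (y i) / em (DDq S))) +
      xi (lm ^ 2 * (em (y i) / em (DDq S))) ^ 2))
      ((md k + 1) * (if S.card = 1 then ∑ q ∈ S, aa q.1 else 0) +
        ∑ r ∈ S, c2 r lam * Ham s4 (fun q => aa q.1) S r) := by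
  have h4 := b1_beta hB hS h hy h3 hT hW
  have h5 := b1_count hB hS h hy h3 hT hW
  have h6 : Rt B (if md k = 0 then 1 else 0) (md k + 1) := by
    by_cases h7 : md k = 0
    · rw [if_pos h7, h7, zero_add]
      exact Rt.one
    · rw [if_neg h7]
      have h8 : ∀ z : ZMod 2, z ≠ 0 → z + 1 = 0 := by decide
      rw [h8 _ h7]
      exact Rt.zero
  have h7 := (h6.mul hB h5).add hB h4
  refine h7.congr ?_
  have e : (∑ i ∈ T, W i * ((if md k = 0 then 1 else 0) + xi (lm ^ 2 * (em (y i) / em (DDq S))) +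
      xi (lm ^ 2 * (em (y i) / em (DDq S))) ^ 2)) = (if md k = 0 then 1 else 0) * ∑ i ∈ T, W i +
      ∑ i ∈ T, W i * (xi (lm ^ 2 * (em (y i) / em (DDq S))) +
      xi (lm ^ 2 * (em (y i) / em (DDq S))) ^ 2) := by
    rw [Finset.mul_sum, ← Finset.sum_add_distrib]
    exact Finset.sum_congr rfl fun i _ => by ring
  rw [e, sub_self, map_zero]
  exact zero_lt_one

end

end

end Pool.Agent.Lib.MP_1a91b9_ntQ
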