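import Pool.Agent.Lib.MP_1a91b9_ntQ.A.Avg4
import Pool.Agent.Lib.MP_1a91b9_ntQ.A.Res4
import Pool.Agent.Lib.MP_1a91b9_ntQ.R.Qd4

/-!
# Quartic twists, part A, file Fac4: the factors of the averaging identity modulo a place above `2`
-/

set_option autoImplicit false

namespace Pool.Agent.Lib.MP_1a91b9_ntQ

open NumberField Pool.Agent.Lib.MP_1a91b9_nuT Pool.Agent.Lib.MP_1a91b9_nuT.S3
  Pool.Agent.Lib.MP_1a91b9_nuT.Ell

noncomputable section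

variable {B : ValuationSubring ℂ}

private theorem Fac4_two : (2 : ℂ) / lm = 1 - zt := by
  rw [div_eq_iff lm_ne, cj_lm]

private theorem Fac4_md (t : ZMod 4) :
    (t = 0 ∧ md t = 0) ∨ (t = 1 ∧ md t = 1) ∨ (t = 2 ∧ md t = 0) ∨ (t = 3 ∧ md t = 1) := by
  have h : ∀ t : ZMod 4, (t = 0 ∧ (ZMod.castHom (show 2 ∣ 4 by norm_num) (ZMod 2)) t = 0) ∨
      (t = 1 ∧ (ZMod.castHom (show 2 ∣ 4 by norm_num) (ZMod 2)) t = 1) ∨
      (t = 2 ∧ (ZMod.castHom (show 2 ∣ 4 by norm_num) (ZMod 2)) t = 0) ∨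
      (t = 3 ∧ (ZMod.castHom (show 2 ∣ 4 by norm_num) (ZMod 2)) t = 1) := by decide
  exact h t

private theorem Fac4_zt (hB : (2 : ℂ)⁻¹ ∉ B) : Rt B zt 1 := by
  refine Rt.one.congr ?_
  have e : zt - 1 = lm - 2 := by
    rw [lm]
    ring
  rw [e]
  exact (Valuation.map_sub _ _ _).trans_lt (max_lt (v_lm_lt hB) (two_lt hB))

private theorem Fac4_em (hB : (2 : ℂ)⁻¹ ∉ B) (m n : ℤ) :
    Rt B (em ((m : 𝓞 K) + (n : 𝓞 K) * iO)) ((m : ZMod 2) + (n : ZMod 2)) := by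
  have hZ : ∀ m : ℤ, Rt B (m : ℂ) (m : ZMod 2) := by
    intro m
    have h : Rt B ((m.toNat : ℕ) : ℂ) ((m.toNat : ℕ) : ZMod 2) := Rt.natCast hB _
    have h' : Rt B (((-m).toNat : ℕ) : ℂ) (((-m).toNat : ℕ) : ZMod 2) := Rt.natCast hB _
    have h2 := h.sub hB h'
    have e : (m : ℤ) = (m.toNat : ℤ) - ((-m).toNat : ℤ) := by omega
    have e1 : (m : ℂ) = ((m.toNat : ℕ) : ℂ) - (((-m).toNat : ℕ) : ℂ) := by
      have := congrArg (Int.cast (R := ℂ)) e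
      push_cast at this
      exact this
    have e2 : (m : ZMod 2) = ((m.toNat : ℕ) : ZMod 2) - (((-m).toNat : ℕ) : ZMod 2) := by
      have := congrArg (Int.cast (R := ZMod 2)) e
      push_cast at this
      exact this
    rw [e1, e2]
    exact h2
  rw [em_add, em_mul, em_intCast, em_intCast, em_iO']
  have h := (hZ m).add hB ((hZ n).mul hB (Fac4_zt hB))
  rwa [mul_one] at h

/-- the elements of the ring are integral -/
private theorem Fac4_v (x : 𝓞 K) : B.valuation (em x) ≤ 1 := by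
  rw [ValuationSubring.valuation_le_one_iff]
  obtain ⟨m, n, rfl⟩ := exists_coords4 x
  rw [em_add, em_mul, em_intCast, em_intCast, em_iO']
  have hz : zt ∈ B := by
    rw [← ValuationSubring.valuation_le_one_iff, v_zt]
  exact B.add_mem _ _ (intCast_mem B m) (B.mul_mem _ _ (intCast_mem B n) hz)

private theorem Fac4_e4 (hB : (2 : ℂ)⁻¹ ∉ B) (t : ZMod 4) : Rt B ((1 - e4 t) / lm) (md t) := by
  rcases Fac4_md t with ⟨h1, h2⟩ | ⟨h1, h2⟩ | ⟨h1, h2⟩ | ⟨h1, h2⟩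
  · rw [h2, h1, e4_zero, sub_self, zero_div]
    exact Rt.zero
  · rw [h2, h1, e4_one]
    have e : (1 - zt) / lm = -zt := by
      rw [div_eq_iff lm_ne, lm]
      linear_combination zt_sq
    rw [e]
    exact (Fac4_zt hB).neg hB
  · rw [h2, h1, e4_two]
    have e : (1 - (-1 : ℂ)) / lm = 1 - zt := by
      rw [← Fac4_two]
      norm_num
    rw [e]
    have h := Rt.one.sub hB (Fac4_zt hB)
    rwa [sub_self] at h
  · rw [h2, h1, e4_three]
    have e : (1 - -zt) / lm = 1 := by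
      rw [div_eq_iff lm_ne, lm]
      ring
    rw [e]
    exact Rt.one

/-- `q - 1 = lm³ y` -/
private theorem Fac4_q (q : Pg) : ∃ m n : ℤ, aa q.1 = (m : ZMod 2) + (n : ZMod 2) ∧
    em q.1 - 1 = lm ^ 3 * em ((m : 𝓞 K) + (n : 𝓞 K) * iO) := by
  obtain ⟨m, n, h⟩ := exists_mn q.dvd
  refine ⟨m, n, ?_, ?_⟩
  · rw [h]
    exact aa_form m n
  · have h1 := congrArg em h
    rw [em_add, em_one, em_mul, em_pow, em_lam] at h1
    rw [h1]
    ring

/-- the value of the character at a prime -/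
private theorem Fac4_X4 (k : ZMod 4) {T : Finset Pg} {q : Pg} (hq : q ∉ T) :
    X4 k T q.1 = e4 (k * nn q.1 + ∑ p ∈ T, c4 p q.1) := by
  have h1 : ∀ p ∈ T, ¬ p.1 ∣ q.1 := fun p hp => Pg.not_dvd (fun e => hq (e ▸ hp))
  rw [X4_eq, th4, e4_add, e4_sum]
  congr 1
  exact Finset.prod_congr rfl fun p hp => ch4_of_not (h1 p hp)

theorem Rt_fac (hB : (2 : ℂ)⁻¹ ∉ B) (k : ZMod 4) {T : Finset Pg} {q : Pg}
    (hq : q ∉ T) :
    Rt B ((em q.1 - X4 k T q.1) / lm) (md k * aa q.1 + ∑ p ∈ T, s4 q p) := by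
  obtain ⟨m, n, -, h2⟩ := Fac4_q q
  have e1 : md k * aa q.1 + ∑ p ∈ T, s4 q p = 0 + md (k * nn q.1 + ∑ p ∈ T, c4 p q.1) := by
    rw [zero_add, map_add, map_mul, map_sum]
    congr 1
    refine Finset.sum_congr rfl fun p hp => ?_
    have hne : q ≠ p := fun e => hq (e ▸ hp)
    rw [s4_symm hne]
    rfl
  have e2 : (em q.1 - X4 k T q.1) / lm =
      lm ^ 2 * em ((m : 𝓞 K) + (n : 𝓞 K) * iO) + (1 - e4 (k * nn q.1 + ∑ p ∈ T, c4 p q.1)) / lm := by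
    rw [Fac4_X4 k hq]
    have hl := lm_ne
    field_simp
    linear_combination h2
  rw [e1, e2]
  refine Rt.add hB (Rt.of_lt ?_) (Fac4_e4 hB _)
  rw [map_mul, map_pow]
  exact mul_lt_one_of_lt_of_le (pow_lt_one₀ zero_le (v_lm_lt hB) two_ne_zero) (Fac4_v _)

theorem Rt_fac_two (hB : (2 : ℂ)⁻¹ ∉ B) (q : Pg) :
    Rt B ((em q.1 - X4 2 ∅ q.1) / lm ^ 2) (aa q.1) := by
  obtain ⟨m, n, -, h2⟩ := Fac4_q q
  have e2 : (em q.1 - X4 2 ∅ q.1) / lm ^ 2 =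
      lm * em ((m : 𝓞 K) + (n : 𝓞 K) * iO) + (1 - e4 (2 * nn q.1)) / lm ^ 2 := by
    rw [Fac4_X4 2 (Finset.notMem_empty q), Finset.sum_empty, add_zero]
    have hl := lm_ne
    field_simp
    linear_combination h2
  have h3 : Rt B ((1 - e4 (2 * nn q.1)) / lm ^ 2) (aa q.1) := by
    have hl2 : lm ^ 2 ≠ 0 := pow_ne_zero 2 lm_ne
    have h0 : Rt B ((1 - (1 : ℂ)) / lm ^ 2) 0 := by
      rw [sub_self, zero_div]
      exact Rt.zero
    have h1 : Rt B ((1 - (-1 : ℂ)) / lm ^ 2) 1 := by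
      have e : (1 - (-1 : ℂ)) / lm ^ 2 = -zt := by
        rw [div_eq_iff hl2, lm_sq]
        linear_combination 2 * zt_sq
      rw [e]
      exact (Fac4_zt hB).neg hB
    unfold aa
    have hd : ∀ t : ZMod 4, (t = 0 → 2 * t = 0) ∧ (t = 1 → 2 * t = 2) ∧ (t = 2 → 2 * t = 0) ∧ (t = 3 → 2 * t = 2) := by
      decide
    rcases Fac4_md (nn q.1) with ⟨k1, k2⟩ | ⟨k1, k2⟩ | ⟨k1, k2⟩ | ⟨k1, k2⟩
    · rw [k2, (hd _).1 k1, e4_zero]
      exact h0
    · rw [k2, (hd _).2.1 k1, e4_two]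
      exact h1
    · rw [k2, (hd _).2.2.1 k1, e4_zero]
      exact h0
    · rw [k2, (hd _).2.2.2 k1, e4_two]
      exact h1
  have e1 : aa q.1 = 0 + aa q.1 := (zero_add _).symm
  rw [e2, e1]
  refine Rt.add hB (Rt.of_lt ?_) h3
  rw [map_mul]
  exact mul_lt_one_of_lt_of_le (v_lm_lt hB) (Fac4_v _)

theorem Rt_fac_zero (hB : (2 : ℂ)⁻¹ ∉ B) (q : Pg) :
    Rt B ((em q.1 - X4 0 ∅ q.1) / lm ^ 3) (aa q.1) := by
  obtain ⟨m, n, h1, h2⟩ := Fac4_q q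
  have e2 : (em q.1 - X4 0 ∅ q.1) / lm ^ 3 = em ((m : 𝓞 K) + (n : 𝓞 K) * iO) := by
    rw [Fac4_X4 0 (Finset.notMem_empty q), Finset.sum_empty, add_zero, zero_mul, e4_zero, h2,
      mul_div_cancel_left₀ _ (pow_ne_zero 3 lm_ne)]
  rw [e2, h1]
  exact Fac4_em hB m n

theorem v_prod_Nz (S : Finset Pg) :
    B.valuation (∏ q ∈ S, ((Nz q.1 : ℂ) - 1)) ≤ B.valuation lm ^ (4 * S.card) := by
  rw [map_prod, mul_comm, pow_mul', ← Finset.prod_const]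
  refine Finset.prod_le_prod' fun q _ => ?_
  obtain ⟨k, h1, -⟩ := nn_eq_Nz q.in4
  have e : ((Nz q.1 : ℂ) - 1) = lm ^ 4 * ((-(k : ℤ) : ℤ) : ℂ) := by
    rw [h1, lm_four]
    push_cast
    ring
  rw [e, map_mul, map_pow]
  exact mul_le_of_le_one_right' (v_int _)

end

end Pool.Agent.Lib.MP_1a91b9_ntQ
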