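import Pool.Agent.Lib.MP_1a91b9_ntQ.A.PsE
import Pool.Agent.Lib.MP_1a91b9_ntQ.A.AvgE
import Pool.Agent.Lib.MP_1a91b9_ntQ.A.Wt4
import Pool.Agent.Lib.MP_1a91b9_ntQ.A.Fac4
import Pool.Agent.Lib.MP_1a91b9_ntQ.A.B1
import Pool.Agent.Lib.MP_1a91b9_ntQ.A.AlgE

/-!
# Quartic twists, part A, class (E), file RhsE: the residue of the right side
-/

set_option autoImplicit false

namespace Pool.Agent.Lib.MP_1a91b9_ntQ

open NumberField Pool.Agent.Lib.MP_1a91b9_nuT Pool.Agent.Lib.MP_1a91b9_nuT.S3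
  Pool.Agent.Lib.MP_1a91b9_nuT.Ell

noncomputable section

/-- Hamiltonian paths from `r` to an end weighted by `a` -/
def betaE (S : Finset Pg) : ZMod 2 := ∑ r ∈ S, c2 r lam * Ham s4 (fun q => aa q.1) S r

variable {B : ValuationSubring ℂ}

/-! ### Periods -/

theorem PO_add' {l : ℂ} (hl : l ∈ PP.lattice) (c z : ℂ) : PO c (z + l) = PO c z := PO_add hl c z

theorem V4_add {l : ℂ} (hl : l ∈ PP.lattice) (s z : ℂ) : V4 s (z + l) = V4 s z := by
  rw [V4, V4, PO_add hl]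
  have e : z + l + pe ^ 4 = z + pe ^ 4 + l := by ring
  rw [e, PO_add hl]

/-! ### A half of an involution -/

/-- a transversal of an involution without fixed points -/
theorem RhsE_half {ι : Type} [Fintype ι] {sg : ι → ι} (h1 : ∀ i, sg (sg i) = i)
    (h2 : ∀ i, sg i ≠ i) : ∃ P : ι → Prop, (∀ i, P i ↔ ¬ P (sg i)) := by
  classical
  let e := Fintype.equivFin ι
  refine ⟨fun i => e i < e (sg i), fun i => ?_⟩
  change e i < e (sg i) ↔ ¬ e (sg i) < e (sg (sg i))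
  rw [h1, not_lt]
  exact ⟨le_of_lt, fun h => lt_of_le_of_ne h fun h3 => h2 i (e.injective h3.symm)⟩

theorem RhsE_sum {ι : Type} [Fintype ι] {sg : ι → ι} (h1 : ∀ i, sg (sg i) = i)
    {P : ι → Prop} [DecidablePred P] (hP : ∀ i, P i ↔ ¬ P (sg i)) (F : ι → ℂ) :
    ∑ i, F i = ∑ i : {i // P i}, (F i + F (sg i)) := by
  classical
  let E : Equiv.Perm ι := ⟨sg, sg, h1, h1⟩
  have e1 : ∑ i, F i = ∑ i ∈ Finset.univ.filter P, F i + ∑ i ∈ Finset.univ.filter (fun i => ¬ P i), F i :=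
    (Finset.sum_filter_add_sum_filter_not _ _ _).symm
  have e2 : ∑ i ∈ Finset.univ.filter (fun i => ¬ P i), F i =
      ∑ i ∈ Finset.univ.filter P, F (sg i) := by
    refine Finset.sum_bij' (fun i _ => sg i) (fun i _ => sg i) ?_ ?_ ?_ ?_ ?_
    · intro i hi
      rw [Finset.mem_filter] at hi ⊢
      refine ⟨Finset.mem_univ _, ?_⟩
      have h := hP (sg i)
      rw [h1] at h
      exact h.2 hi.2
    · intro i hi
      rw [Finset.mem_filter] at hi ⊢
      exact ⟨Finset.mem_univ _, (hP i).1 hi.2⟩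
    · intro i _
      exact h1 i
    · intro i _
      exact h1 i
    · intro i _
      rw [h1]
  rw [e1, e2, ← Finset.sum_add_distrib, Finset.sum_subtype (p := P)]
  intro i
  rw [Finset.mem_filter]
  exact ⟨fun h => h.2, fun h => ⟨Finset.mem_univ _, h⟩⟩

theorem Cg.rt {x y : ℂ} {t : ZMod 2} (h : Cg B x y) (hy : Rt B y t) : Rt B x t := hy.congr h.lt

theorem Cg.sum {ι : Type*} (T : Finset ι) {f g : ι → ℂ} (h : ∀ i ∈ T, Cg B (f i) (g i)) :
    Cg B (∑ i ∈ T, f i) (∑ i ∈ T, g i) := by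
  classical
  induction T using Finset.induction_on with
  | empty =>
    rw [Finset.sum_empty, Finset.sum_empty]
    exact Cg.refl (by rw [map_zero]; exact zero_le)
  | insert a T ha ih =>
    rw [Finset.sum_insert ha, Finset.sum_insert ha]
    exact (h a (Finset.mem_insert_self a T)).add (ih fun i hi => h i (Finset.mem_insert_of_mem hi))

/-- a fourth root of unity is congruent to `1` -/
theorem Cg_root (hB : (2 : ℂ)⁻¹ ∉ B) {x : ℂ} (h : x ^ 4 = 1) : Cg B x 1 := by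
  refine Cg.of_sq hB (map_one _).le (Cg.of_sq hB (v_pow_le (map_one _).le 2) ?_)
  have e : (x ^ 2) ^ 2 = 1 := by
    rw [← h]
    ring
  rw [e, one_pow, one_pow]
  exact Cg.refl (map_one _).le

/-! ### The transversal -/

section

variable {S : Finset Pg} {ι : Type} {c y : ι → 𝓞 K} {sg : ι → ι}

theorem RhsE_cop (S : Finset Pg) (n : ℕ) : IsCoprime (lam ^ n) (DDq S) :=
  (in4_cop_lam (DDq_in4 S) n).symm

theorem RhsE_nd (ndc : ∀ i, ∀ q ∈ S, ¬ q.1 ∣ c i) (hcy : ∀ i, c i = DDq S + lam ^ 7 * y i)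
    {P : ι → Prop} (i : {i // P i}) (q : Pg) (hq : q ∈ S) : ¬ q.1 ∣ lam ^ 2 * y i := by
  intro h
  apply ndc i q hq
  rw [hcy]
  have e : lam ^ 7 * y i = lam ^ 5 * (lam ^ 2 * y i) := by ring
  rw [e]
  exact dvd_add (dvd_DDq.2 hq) (h.mul_left _)

theorem RhsE_c2 (ndc : ∀ i, ∀ q ∈ S, ¬ q.1 ∣ c i) (hcy : ∀ i, c i = DDq S + lam ^ 7 * y i)
    {q : Pg} (hq : q ∈ S) (i : ι) : c2 q (c i) = c2 q (lam ^ 2 * y i) + c2 q lam := by
  have hl : ¬ q.1 ∣ lam := fun h =>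
    q.in4.not_lam (q.prime.associated_of_dvd prime_lam h).symm.dvd
  have hy : ¬ q.1 ∣ lam ^ 2 * y i := RhsE_nd ndc hcy (P := fun _ => True) ⟨i, trivial⟩ q hq
  have hl2 : ¬ q.1 ∣ lam ^ 2 := fun h => hl (q.prime.dvd_of_dvd_pow h)
  have hly : ¬ q.1 ∣ lam * (lam ^ 2 * y i) := fun h => (q.prime.dvd_or_dvd h).elim hl hy
  have hl3 : ¬ q.1 ∣ lam ^ 2 * (lam * (lam ^ 2 * y i)) := fun h =>
    (q.prime.dvd_or_dvd h).elim hl2 hly
  have e1 : c2 q (c i) = c2 q (lam ^ 2 * (lam ^ 2 * (lam * (lam ^ 2 * y i)))) := by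
    refine c2_congr q (ndc i q hq) ?_
    have e : c i - lam ^ 2 * (lam ^ 2 * (lam * (lam ^ 2 * y i))) = DDq S := by
      rw [hcy]
      ring
    rw [e]
    exact dvd_DDq.2 hq
  rw [e1, c2_mul q hl2 hl3, c2_mul q hl2 hly, c2_mul q hl hy]
  have h2 : ∀ a b c : ZMod 2, a + (a + (b + c)) = c + b := by decide
  exact h2 _ _ _

theorem RhsE_ex (hc : RepsG (lam ^ 3) (lam ^ 3 * DDq S) c)
    (hcy : ∀ i, c i = DDq S + lam ^ 7 * y i) (hy : ∀ i, DDq S ∣ y i + y (sg i))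
    (h1 : ∀ i, sg (sg i) = i) {P : ι → Prop} (hP : ∀ i, P i ↔ ¬ P (sg i)) (a : 𝓞 K)
    (ha : IsCoprime a (DDq S)) :
    ∃ i : {i // P i}, DDq S ∣ a - lam ^ 2 * y i ∨ DDq S ∣ a + lam ^ 2 * y i := by
  obtain ⟨u, v, huv⟩ := RhsE_cop S 3
  -- `a' = lam ^ 5 a` modulo `DDq S`, `1` modulo `lam ^ 3`
  obtain ⟨a', ha'⟩ : ∃ a', a' = lam ^ 5 * a + v * DDq S * (1 - lam ^ 5 * a) := ⟨_, rfl⟩
  have e1 : DDq S ∣ a' - lam ^ 5 * a := ⟨v * (1 - lam ^ 5 * a), by rw [ha']; ring⟩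
  have e2 : lam ^ 3 ∣ a' - 1 := ⟨u * (lam ^ 5 * a - 1), by
    rw [ha']
    linear_combination (1 - lam ^ 5 * a) * huv⟩
  have e3 : IsCoprime a' (lam ^ 3 * DDq S) := by
    refine IsCoprime.mul_right (in4_cop_lam e2 3) ?_
    have h5 : IsCoprime (lam ^ 5 * a) (DDq S) := (RhsE_cop S 5).mul_left ha
    obtain ⟨t, ht⟩ := e1
    have h6 := h5.add_mul_left_left t
    rwa [show lam ^ 5 * a + DDq S * t = a' by linear_combination -ht] at h6
  obtain ⟨i, hi⟩ := hc.ex a' e3 e2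
  have e4 : DDq S ∣ a - lam ^ 2 * y i := by
    have h7 : DDq S ∣ lam ^ 5 * (a - lam ^ 2 * y i) := by
      have h8 := (dvd_mul_left (DDq S) (lam ^ 3)).trans hi
      have h9 := dvd_sub h8 e1
      rw [hcy] at h9
      have h10 := dvd_add h9 (dvd_refl (DDq S))
      have e : a' - (DDq S + lam ^ 7 * y i) - (a' - lam ^ 5 * a) + DDq S =
          lam ^ 5 * (a - lam ^ 2 * y i) := by ring
      rwa [e] at h10
    exact (RhsE_cop S 5).symm.dvd_of_dvd_mul_left h7
  by_cases h : P i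
  · exact ⟨⟨i, h⟩, Or.inl e4⟩
  · have h' : P (sg i) := by
      have h2 := hP (sg i)
      rw [h1] at h2
      exact h2.2 h
    refine ⟨⟨sg i, h'⟩, Or.inr ?_⟩
    have h3 := dvd_add e4 ((hy i).mul_left (lam ^ 2))
    have e : a - lam ^ 2 * y i + lam ^ 2 * (y i + y (sg i)) = a + lam ^ 2 * y (sg i) := by ring
    rwa [e] at h3

theorem RhsE_inj (hc : RepsG (lam ^ 3) (lam ^ 3 * DDq S) c)
    (hcy : ∀ i, c i = DDq S + lam ^ 7 * y i) (hy : ∀ i, DDq S ∣ y i + y (sg i))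
    {P : ι → Prop} (hP : ∀ i, P i ↔ ¬ P (sg i)) (i j : {i // P i})
    (h : DDq S ∣ lam ^ 2 * y i - lam ^ 2 * y j ∨ DDq S ∣ lam ^ 2 * y i + lam ^ 2 * y j) : i = j := by
  have key : ∀ i j : ι, DDq S ∣ y i - y j → i = j := by
    intro i j hij
    refine hc.inj i j ?_
    rw [hcy, hcy]
    have e : DDq S + lam ^ 7 * y i - (DDq S + lam ^ 7 * y j) = lam ^ 3 * (lam ^ 4 * (y i - y j)) := by
      ring
    rw [e]
    exact mul_dvd_mul_left _ (hij.mul_left _)
  rcases h with h | h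
  · refine Subtype.ext (key _ _ ((RhsE_cop S 2).symm.dvd_of_dvd_mul_left ?_))
    rwa [mul_sub]
  · exfalso
    have h1 : DDq S ∣ y i + y j := (RhsE_cop S 2).symm.dvd_of_dvd_mul_left (by rwa [mul_add])
    have h2 : DDq S ∣ y j - y (sg i) := by
      have h3 := dvd_sub h1 (hy i)
      have e : y i + y j - (y i + y (sg i)) = y j - y (sg i) := by ring
      rwa [e] at h3
    have h4 := key _ _ h2
    have h5 := (hP i).1 i.2
    rw [← h4] at h5
    exact h5 j.2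

end

/-- **(R)** -/
theorem rhsE (hB : (2 : ℂ)⁻¹ ∉ B) (k : ZMod 4) {S : Finset Pg} (hS : S.Nonempty) :
    Rt B ((∑ T ∈ S.powerset, (-1) ^ T.card * (LaE k T * ∏ q ∈ S \ T, (em q.1 - XE k T q.1))) /
      (Om * (lm ^ S.card * (lm ^ 5 * kq))))
      ((md k + 1) * (if S.card = 1 then ∑ q ∈ S, aa q.1 else 0) + betaE S) := by
  classical
  obtain ⟨ι, hι, c, y, sg, hc, hcy, h1, h2, hy, hod, -⟩ := exists_repsE hS
  rw [avgE k S hc hcy]
  obtain ⟨P, hP⟩ := RhsE_half h1 h2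
  have hD0 : em (DDq S) ≠ 0 := em_ne (DDq_in4 S).ne_zero
  have hq0 := kq_ne
  have hl0 := lm_ne
  have hO := Om_ne_zero
  have vlm := v_lm_lt hB
  have ndc : ∀ i, ∀ q ∈ S, ¬ q.1 ∣ c i := fun i q hq => reps_not_dvd hc i hq
  -- the values
  obtain ⟨V, hV⟩ : ∃ V : ι → ℂ, V = fun i =>
    V4 (sE k) (tE k * (pe ^ 7 + em (y i) / em (DDq S))) := ⟨_, rfl⟩
  have hV1 : ∀ i, Cg B (V i / (lm ^ 4 * kq)) 1 := fun i => by
    rw [hV]
    exact Cg.of_sub_lt (map_one _).le (v_V4 hB k (hod i))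
  have hV2 : ∀ i, Cg B ((V i + V (sg i)) / (lm ^ 5 * kq))
      ((if md k = 0 then 1 else 0) + xi (lm ^ 2 * (em (y i) / em (DDq S))) +
        xi (lm ^ 2 * (em (y i) / em (DDq S))) ^ 2) := by
    intro i
    obtain ⟨t, ht⟩ := hy i
    have e1 : V (sg i) = V4 (sE k) (tE k * (pe ^ 7 - em (y i) / em (DDq S))) := by
      have e2 : em (y (sg i)) / em (DDq S) = -(em (y i) / em (DDq S)) + em t := by
        have h3 := congrArg em ht
        rw [em_add, em_mul] at h3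
        field_simp
        linear_combination h3
      rw [hV]
      change V4 (sE k) (tE k * (pe ^ 7 + em (y (sg i)) / em (DDq S))) = _
      rw [e2]
      have e3 : tE k * (pe ^ 7 + (-(em (y i) / em (DDq S)) + em t)) =
          tE k * (pe ^ 7 - em (y i) / em (DDq S)) + tE k * em t := by ring
      rw [e3, V4_add]
      unfold tE
      split
      · have e4 : -zt * em t = -(zt * em t) := by ring
        rw [e4]
        exact neg_mem (zt_mul_mem (em_mem t))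
      · rw [one_mul]
        exact em_mem t
    have vx := xi_le hB ((hod i).pow 2)
    refine Cg.of_sub_lt (v_add_le (v_add_le ?_ vx) (v_pow_le vx 2)) ?_
    · split
      · exact (map_one _).le
      · rw [map_zero]
        exact zero_le
    · rw [e1, hV]
      exact v_V4_pair hB k (hod i)
  -- the weights
  have hW : ∀ i, B.valuation (wt4 S (c i)) ≤ 1 := fun i => v_wt4 hB (ndc i)
  have hW2 : ∀ i, B.valuation ((wt4 S (c (sg i)) - wt4 S (c i)) / lm) ≤ 1 := by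
    intro i
    obtain ⟨t, ht⟩ := hy i
    rw [map_div₀]
    refine div_le_one_of_le₀ (v_wt4_sub hB (ndc i) ⟨2 + lam ^ 7 * t, ?_⟩) zero_le
    rw [hcy, hcy]
    linear_combination lam ^ 7 * ht
  have hcard : 0 < S.card := Finset.card_pos.2 hS
  -- the sum of the weights
  have hWs : B.valuation ((∑ i, wt4 S (c i)) / lm) < 1 := by
    have e1 : ∑ i, wt4 S (c i) = (∏ q ∈ S, ((Nz q.1 : ℂ) - 1)) / lm ^ S.card := by
      rw [← sum_w4 hc, Finset.sum_div]
      rfl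
    have h3 := v_prod_Nz (B := B) S
    rw [e1, div_div, ← pow_succ, map_div₀, map_pow]
    have h4 : 0 < B.valuation lm ^ (S.card + 1) := pow_pos v_lm_pos _
    rw [div_lt_one₀ h4]
    refine h3.trans_lt ?_
    exact v_lm_pow_lt hB (by omega)
  -- the second part
  have key2 : B.valuation (∑ i : {i // P i}, ((wt4 S (c (sg i)) - wt4 S (c i)) / lm) *
      (V (sg i) / (lm ^ 4 * kq))) < 1 := by
    have c1 : Cg B (∑ i : {i // P i}, ((wt4 S (c (sg i)) - wt4 S (c i)) / lm) *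
        (V (sg i) / (lm ^ 4 * kq))) (∑ i : {i // P i}, ((wt4 S (c (sg i)) - wt4 S (c i)) / lm) * 1) :=
      Cg.sum _ fun i _ => (Cg.refl (hW2 i)).mul (hV1 (sg i))
    have e1 : ∑ i : {i // P i}, ((wt4 S (c (sg i)) - wt4 S (c i)) / lm) * 1 =
        (∑ i, wt4 S (c i)) / lm - (lm * -zt) * ∑ i : {i // P i}, wt4 S (c i) := by
      rw [RhsE_sum h1 hP (fun i => wt4 S (c i))]
      have e2 : (lm * -zt : ℂ) = 2 / lm := by
        rw [eq_div_iff hl0]
        linear_combination (-zt) * lm_sq - 2 * zt_sq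
      rw [e2, Finset.mul_sum, Finset.sum_div, ← Finset.sum_sub_distrib]
      refine Finset.sum_congr rfl fun i _ => ?_
      field_simp
      ring
    rw [e1] at c1
    have c2 : Cg B ((∑ i, wt4 S (c i)) / lm - (lm * -zt) * ∑ i : {i // P i}, wt4 S (c i)) 0 := by
      refine Cg.of_lt ?_
      rw [sub_eq_add_neg]
      refine v_add_lt hWs ?_
      rw [Valuation.map_neg]
      refine v_mul_lt (v_mul_lt vlm (v_neg_le v_zt.le)) ?_
      exact (B.valuation.map_sum_le fun i _ => hW i)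
    exact (c1.trans c2).lt0
  -- the first part
  have key1 : Rt B (∑ i : {i // P i}, wt4 S (c i) * ((V i + V (sg i)) / (lm ^ 5 * kq)))
      ((md k + 1) * (if S.card = 1 then ∑ q ∈ S, aa q.1 else 0) + betaE S) := by
    have c1 : Cg B (∑ i : {i // P i}, wt4 S (c i) * ((V i + V (sg i)) / (lm ^ 5 * kq)))
        (∑ i : {i // P i}, wt4 S (c i) * ((if md k = 0 then 1 else 0) +
          xi (lm ^ 2 * (em (y i) / em (DDq S))) + xi (lm ^ 2 * (em (y i) / em (DDq S))) ^ 2)) :=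
      Cg.sum _ fun i _ => (Cg.refl (hW i)).mul (hV2 i)
    refine c1.rt ?_
    have e1 : ∑ i : {i // P i}, wt4 S (c i) * ((if md k = 0 then 1 else 0) +
          xi (lm ^ 2 * (em (y i) / em (DDq S))) + xi (lm ^ 2 * (em (y i) / em (DDq S))) ^ 2) =
        (if md k = 0 then 1 else 0) * ∑ i : {i // P i}, wt4 S (c i) +
        ∑ i : {i // P i}, wt4 S (c i) * (xi (em (lam ^ 2 * y i) / em (DDq S)) +
          xi (em (lam ^ 2 * y i) / em (DDq S)) ^ 2) := by
      rw [Finset.mul_sum, ← Finset.sum_add_distrib]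
      refine Finset.sum_congr rfl fun i _ => ?_
      have e2 : em (lam ^ 2 * y i) / em (DDq S) = lm ^ 2 * (em (y i) / em (DDq S)) := by
        rw [em_mul, em_pow, em_lam]
        ring
      rw [e2]
      ring
    rw [e1]
    obtain ⟨b1, b2⟩ := b1_fin (κ := {i // P i}) hB hS (y := fun i => lam ^ 2 * y i) (RhsE_nd ndc hcy)
      (RhsE_ex hc hcy hy h1 hP) (RhsE_inj hc hcy hy hP) (fun q => c2 q lam)
      (W := fun i => wt4 S (c i))
      (fun i => by
        have h3 := Rt_wt4 hB (ndc i)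
        have h4 : ∏ q ∈ S, c2 q (c i) = ∏ q ∈ S, (c2 q (lam ^ 2 * y i) + c2 q lam) :=
          Finset.prod_congr rfl fun q hq => RhsE_c2 ndc hcy hq i
        rwa [h4] at h3)
    refine Rt.add hB ?_ b1
    have h5 : Rt B (if md k = 0 then (1 : ℂ) else 0) (md k + 1) := by
      have h6 : ∀ t : ZMod 2, t = 0 ∨ t = 1 := by decide
      rcases h6 (md k) with h | h
      · rw [h, if_pos rfl, zero_add]
        exact Rt.one
      · rw [h, if_neg one_ne_zero]
        exact Rt.zero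
    exact h5.mul hB b2
  -- the end
  have hsum : ∑ i, w4 S (c i) * V4 (sE k) (tE k * (pe ^ 7 + em (y i) / em (DDq S))) =
      lm ^ S.card * (lm ^ 5 * kq) *
        (∑ i : {i // P i}, wt4 S (c i) * ((V i + V (sg i)) / (lm ^ 5 * kq)) +
          ∑ i : {i // P i}, ((wt4 S (c (sg i)) - wt4 S (c i)) / lm) * (V (sg i) / (lm ^ 4 * kq))) := by
    rw [RhsE_sum h1 hP, ← Finset.sum_add_distrib, Finset.mul_sum]
    refine Finset.sum_congr rfl fun i _ => ?_
    have e1 : ∀ j, w4 S (c j) = lm ^ S.card * wt4 S (c j) := fun j => by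
      rw [wt4, mul_div_cancel₀ _ (pow_ne_zero _ hl0)]
    have e2 : ∀ j, V4 (sE k) (tE k * (pe ^ 7 + em (y j) / em (DDq S))) = V j := fun j => by
      rw [hV]
    rw [e1, e1, e2, e2]
    field_simp
    ring
  rw [hsum]
  have e3 : -(Om * tE k * thE k (DDq S)) * (lm ^ S.card * (lm ^ 5 * kq) *
        (∑ i : {i // P i}, wt4 S (c i) * ((V i + V (sg i)) / (lm ^ 5 * kq)) +
          ∑ i : {i // P i}, ((wt4 S (c (sg i)) - wt4 S (c i)) / lm) * (V (sg i) / (lm ^ 4 * kq)))) /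
      (Om * (lm ^ S.card * (lm ^ 5 * kq))) = -1 * (tE k * thE k (DDq S)) *
        (∑ i : {i // P i}, wt4 S (c i) * ((V i + V (sg i)) / (lm ^ 5 * kq)) +
          ∑ i : {i // P i}, ((wt4 S (c (sg i)) - wt4 S (c i)) / lm) * (V (sg i) / (lm ^ 4 * kq))) := by
    have h3 := pow_ne_zero S.card hl0
    generalize (∑ i : {i // P i}, wt4 S (c i) * ((V i + V (sg i)) / (lm ^ 5 * kq)) +
          ∑ i : {i // P i}, ((wt4 S (c (sg i)) - wt4 S (c i)) / lm) * (V (sg i) / (lm ^ 4 * kq))) = Z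
    field_simp
  rw [e3]
  have hu : Rt B (-1 * (tE k * thE k (DDq S))) 1 := by
    refine (Cg_root hB ?_).rt Rt.one
    have h3 := tE_sq k
    have h4 : thE k (DDq S) ^ 4 = 1 := by
      rw [thE, e4_pow]
      have h5 : ∀ t : ZMod 4, ((4 : ℕ) : ZMod 4) * t = 0 := by decide
      rw [h5, e4_zero]
    have e4 : (-1 * (tE k * thE k (DDq S))) ^ 4 = tE k ^ 4 * thE k (DDq S) ^ 4 := by ring
    rw [e4, h3, h4, one_mul]
  have h6 := hu.mul hB (key1.congr (w := (∑ i : {i // P i}, wt4 S (c i) * ((V i + V (sg i)) /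
    (lm ^ 5 * kq)) + ∑ i : {i // P i}, ((wt4 S (c (sg i)) - wt4 S (c i)) / lm) *
      (V (sg i) / (lm ^ 4 * kq)))) (by rw [add_sub_cancel_left]; exact key2))
  rwa [one_mul] at h6

end

end Pool.Agent.Lib.MP_1a91b9_ntQ
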