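import Pool.Agent.Lib.MP_1a91b9_ntQ.A.BorB
import Mathlib.Algebra.MvPolynomial.Rename

/-!
# Quartic twists, part A, file OptB: the bordered determinants as determinants with one more vertex

`none` is the vertex of the border.
-/

set_option autoImplicit false
set_option linter.unusedSectionVars false

namespace Pool.Agent.Lib.MP_1a91b9_ntQ

open Finset MvPolynomial
open Pool.Agent.Lib.MP_1a91b9_ntK (NM NM_congr NM_empty NM_adj NM_update NM_zero forest
  CZ CZ_eq forest_zero)

variable {ι : Type*} [DecidableEq ι] {R : Type*} [CommRing R]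

/-- a function of the rows: `κ` -/
theorem FB_row (m : ι → ι → R) (c : ι → R) (k : R) (κ : ι → R) (T : Finset ι) :
    FB m κ c k κ T = (k - ∑ i ∈ T, c i) * (NM m κ T).det := by
  have h1 : (NM m κ T).mulVec (fun _ => 1) = fun q : T => κ q := by
    have h0 := NM_mulVec_one m T
    ext i
    have h2 := congrFun h0 i
    simp only [Matrix.mulVec, dotProduct, mul_one, Pi.zero_apply] at h2 ⊢
    have h3 : ∀ j : T, NM m κ T i j = NM m 0 T i j + if i = j then κ i else 0 := by
      intro j
      by_cases h : i = j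
      · subst h
        simp only [NM, if_true, Pi.zero_apply]
        ring
      · simp only [NM, if_neg h, add_zero]
    rw [sum_congr rfl fun j _ => h3 j, sum_add_distrib, h2, zero_add]
    simp
  have h2 : ∀ i : T, ∑ j : T, (NM m κ T).adjugate i j * κ j = (NM m κ T).det := by
    intro i
    have h3 := congrFun (congrArg (NM m κ T).adjugate.mulVec h1) i
    rw [Matrix.mulVec_mulVec, Matrix.adjugate_mul, Matrix.smul_mulVec, Matrix.one_mulVec] at h3
    simp only [Matrix.mulVec, dotProduct, Pi.smul_apply, smul_eq_mul, mul_one] at h3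
    exact h3.symm
  rw [FB, det_BM, sub_mul, ← sum_coe_sort T c, sum_mul]
  congr 1
  refine sum_congr rfl fun i _ => ?_
  rw [← h2 i, mul_sum]
  exact sum_congr rfl fun j _ => by ring

theorem FB_shift (m : ι → ι → R) (b c : ι → R) (k : R) (κ : ι → R) (T : Finset ι) :
    FB m (fun i => κ i + b i) c k κ T = FB m b c (k - ∑ i ∈ T, c i) κ T := by
  have h1 := FB_row m c k κ T
  rw [FB, det_BM] at h1 ⊢
  rw [FB, det_BM]
  have h2 : ∑ i : T, ∑ j : T, c i * (NM m κ T).adjugate i j * (κ j + b j) =
      (∑ i : T, ∑ j : T, c i * (NM m κ T).adjugate i j * κ j) +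
      ∑ i : T, ∑ j : T, c i * (NM m κ T).adjugate i j * b j := by
    rw [← sum_add_distrib]
    refine sum_congr rfl fun i _ => ?_
    rw [← sum_add_distrib]
    exact sum_congr rfl fun j _ => by ring
  rw [h2]
  linear_combination h1

/-- the weights with the vertex of the border -/
def mO (m : ι → ι → R) (b c : ι → R) : Option ι → Option ι → R
  | some i, some j => m i j
  | some i, none => -b i
  | none, some j => -c j
  | none, none => 0

/-- the linear terms with the vertex of the border -/
def kO (κ b : ι → R) (k : R) : Option ι → R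
  | some i => κ i + b i
  | none => k

/-- the rows of a finite set and the border -/
def eO (T : Finset ι) : ↥T ⊕ Unit ≃ ↥(insertNone T) where
  toFun x := match x with
    | Sum.inl i => ⟨some i, some_mem_insertNone.2 i.2⟩
    | Sum.inr _ => ⟨none, none_mem_insertNone⟩
  invFun x := match x with
    | ⟨some i, h⟩ => Sum.inl ⟨i, some_mem_insertNone.1 h⟩
    | ⟨none, _⟩ => Sum.inr ()
  left_inv x := by rcases x with i | u <;> rfl
  right_inv x := by rcases x with ⟨_ | i, h⟩ <;> rfl

theorem erase_some (T : Finset ι) (i : ι) :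
    (insertNone T).erase (some i) = insertNone (T.erase i) := by
  ext o
  rcases o with _ | o
  · simp
  · simp

theorem erase_none (T : Finset ι) : (insertNone T).erase none = T.map Function.Embedding.some := by
  ext o
  rcases o with _ | o
  · simp
  · simp

theorem NM_opt (m : ι → ι → R) (b c : ι → R) (k : R) (κ : ι → R) (T : Finset ι) :
    (NM (mO m b c) (kO κ b k) (insertNone T)).det = FB m b c (k - ∑ i ∈ T, c i) κ T := by
  rw [← Matrix.det_submatrix_equiv_self (eO T), FB]
  congr 1
  ext x y
  rcases x with x | x <;> rcases y with y | y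
  · simp only [Matrix.submatrix_apply, eO, Equiv.coe_fn_mk, BM, Matrix.fromBlocks_apply₁₁]
    simp only [NM]
    by_cases h : x = y
    · subst h
      rw [if_pos rfl, if_pos rfl, erase_some, sum_insertNone]
      simp only [kO, mO]
      ring
    · rw [if_neg h, if_neg]
      · rfl
      · intro h'
        exact h (Subtype.ext (Option.some_injective _ (congrArg Subtype.val h')))
  · simp only [Matrix.submatrix_apply, eO, Equiv.coe_fn_mk, BM, Matrix.fromBlocks_apply₁₂]
    simp only [NM]
    rw [if_neg (by simp)]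
    simp only [mO, neg_neg, Matrix.of_apply]
  · simp only [Matrix.submatrix_apply, eO, Equiv.coe_fn_mk, BM, Matrix.fromBlocks_apply₂₁]
    simp only [NM]
    rw [if_neg (by simp)]
    simp only [mO, neg_neg, Matrix.of_apply]
  · simp only [Matrix.submatrix_apply, eO, Equiv.coe_fn_mk, BM, Matrix.fromBlocks_apply₂₂]
    simp only [NM]
    rw [if_pos trivial, erase_none, sum_map]
    simp only [kO, mO, Function.Embedding.some_apply, sum_neg_distrib, Matrix.of_apply]
    ring

/-! ### The renaming of the variables -/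

/-- the renaming -/
noncomputable def rO : MvPolynomial ι R →+* MvPolynomial (Option ι) R :=
  (rename some : MvPolynomial ι R →ₐ[R] MvPolynomial (Option ι) R).toRingHom

theorem rO_C (r : R) : rO (C r : MvPolynomial ι R) = C r := rename_C _ _

theorem rO_X (i : ι) : rO (X i : MvPolynomial ι R) = X (some i) := rename_X _ _

theorem cf_rO (p : MvPolynomial ι R) (E : Finset ι) :
    cf (rO p) (E.map Function.Embedding.some) = cf p E := by
  rw [cf, cf]
  have h : mi (E.map Function.Embedding.some) = (mi E).mapDomain some := by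
    ext o
    rw [mi_apply]
    rcases o with _ | o
    · rw [if_neg (by simp), Finsupp.mapDomain_of_notMem_range]
      simp
    · rw [Finsupp.mapDomain_apply (Option.some_injective ι), mi_apply]
      simp
  rw [h]
  exact coeff_rename_mapDomain some (Option.some_injective ι) p (mi E)

theorem map_some_union (T A : Finset ι) :
    insertNone T ∪ A.map Function.Embedding.some = insertNone (T ∪ A) := by
  ext o
  rcases o with _ | o
  · simp
  · simp

theorem FB_rO (m : ι → ι → MvPolynomial ι R) (b c : ι → MvPolynomial ι R) (k : MvPolynomial ι R)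
    (κ : ι → MvPolynomial ι R) (T : Finset ι) :
    rO (FB m b c (k - ∑ i ∈ T, c i) κ T) = (NM (fun x p => rO (mO m b c x p))
      (fun x => rO (kO κ b k x)) (insertNone T)).det := by
  rw [← NM_opt, NM_map]

/-- **The bordered determinant is a determinant with one more vertex.** -/
theorem GE_opt (s : ι → ι → R) (κ g : ι → R) (x : R) (T A : Finset ι) :
    rO (GE s κ g (fun i => κ i + g i) x T A) =
      DE (mO s g g) (kO κ g x) (insertNone T) (A.map Function.Embedding.some) := by
  have h1 : GE s κ g (fun i => κ i + g i) x T A = FB (mwE s A) (fun i => C (g i)) (mvE g A)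
      (C x - ∑ i ∈ T ∪ A, mvE g A i) (fun i => C (κ i)) (T ∪ A) := by
    rw [← FB_shift, GE]
    exact FB_congr2 (fun _ _ _ _ _ => rfl) (fun _ _ => rfl) (fun _ _ => C_add) (fun _ _ => rfl) rfl
  rw [h1, FB_rO, DE, map_some_union]
  congr 1
  refine NM_congr2 ?_ ?_
  · intro y _ p _ _
    rcases y with _ | y <;> rcases p with _ | p
    · simp [mO, mwE]
    · simp only [mO, mwE, mvE, mem_map, Function.Embedding.some_apply, Option.some.injEq,
        exists_eq_right]
      split_ifs
      · rw [map_neg, map_mul, rO_X, rO_C, C_neg, mul_neg]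
      · rw [map_neg, rO_C, C_neg]
    · simp only [mO, mwE, mem_map, Function.Embedding.some_apply, reduceCtorEq, and_false,
        exists_false, if_false]
      rw [map_neg, rO_C, C_neg]
    · simp only [mO, mwE, mem_map, Function.Embedding.some_apply, Option.some.injEq,
        exists_eq_right]
      split_ifs
      · rw [map_mul, rO_X, rO_C]
      · rw [rO_C]
  · intro y _
    rcases y with _ | y
    · simp only [kO, rO_C]
    · simp only [kO, map_add, rO_C]

/-! ### Principal minors -/

theorem pdt_map_emb {ι' : Type*} [DecidableEq ι'] (e : ι ↪ ι') (M : ι' → ι' → R) (S : Finset ι) :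
    pdt M (S.map e) = pdt (fun i j => M (e i) (e j)) S := by
  let u : S → ↥(S.map e) := fun i => ⟨e i, mem_map_of_mem e i.2⟩
  have hu : Function.Bijective u := by
    constructor
    · intro i j h
      exact Subtype.ext (e.injective (congrArg Subtype.val h))
    · rintro ⟨y, hy⟩
      obtain ⟨i, hi, rfl⟩ := mem_map.1 hy
      exact ⟨⟨i, hi⟩, rfl⟩
  rw [pdt, ← Matrix.det_submatrix_equiv_self (Equiv.ofBijective u hu), pdt]
  rfl

/-- the bordered determinant of a principal submatrix -/
def pdB (M : ι → ι → R) (b c : ι → R) (k : R) (S : Finset ι) : R :=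
  (BM (Matrix.of fun i j : S => M i j) (fun i => b i) (fun j => c j) k).det

theorem pdt_insertNone (M : Option ι → Option ι → R) (S : Finset ι) :
    pdt M (insertNone S) = pdB (fun i j => M (some i) (some j)) (fun i => M (some i) none)
      (fun j => M none (some j)) (M none none) S := by
  rw [pdt, ← Matrix.det_submatrix_equiv_self (eO S), pdB]
  congr 1
  ext x y
  rcases x with x | x <;> rcases y with y | y <;> rfl

theorem pdB_congr {M M' : ι → ι → R} {b b' c c' : ι → R} {k k' : R} {S : Finset ι}
    (h : ∀ i ∈ S, ∀ j ∈ S, M i j = M' i j) (h3 : ∀ x ∈ S, b x = b' x) (h4 : ∀ x ∈ S, c x = c' x)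
    (h5 : k = k') : pdB M b c k S = pdB M' b' c' k' S := by
  rw [pdB, pdB]
  congr 1
  ext x y
  rcases x with x | x <;> rcases y with y | y
  · exact h x x.2 y y.2
  · exact h3 x x.2
  · exact h4 y y.2
  · exact h5

/-- the linear terms `τ` with the vertex of the border -/
def tO (τ : ι → R) : Option ι → R
  | some i => τ i
  | none => 0

/-- **The sum over the subsets of `V` is the bordered determinant of the final matrix.** -/
theorem GE_final [Nontrivial R] (s : ι → ι → R) (κ g τ : ι → R) (x : R) {T V : Finset ι}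
    (hTV : Disjoint T V) (hu : ∀ b ∈ V, κ b + ∑ p ∈ T, s b p = 0) :
    ∑ A ∈ V.powerset, cf (GE s κ g (fun i => κ i + g i) x T A) A * pdt (blkL s τ V) (V \ A) =
      pdB (blkM s κ τ T V) g g (x - ∑ p ∈ T, g p) (T ∪ V) := by
  have hTV' : Disjoint (insertNone T) (V.map Function.Embedding.some) := by
    rw [disjoint_left]
    rintro (_ | i) h1 h2
    · simp at h2
    · simp only [mem_map, Function.Embedding.some_apply, Option.some.injEq, exists_eq_right] at h2
      exact disjoint_left.1 hTV (some_mem_insertNone.1 h1) h2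
  have hu' : ∀ b ∈ V.map Function.Embedding.some,
      kO κ g x b + ∑ p ∈ insertNone T, mO s g g b p = 0 := by
    intro b' hb'
    obtain ⟨b, hb, rfl⟩ := mem_map.1 hb'
    have h1 := hu b hb
    rw [sum_insertNone]
    simp only [kO, mO, Function.Embedding.some_apply]
    linear_combination h1
  have h1 := DE_final (mO s g g) (kO κ g x) (tO τ) hTV' hu'
  have h2 : ∑ A ∈ (V.map Function.Embedding.some).powerset,
      cf (DE (mO s g g) (kO κ g x) (insertNone T) A) A *
        pdt (blkL (mO s g g) (tO τ) (V.map Function.Embedding.some))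
          (V.map Function.Embedding.some \ A) =
      ∑ A ∈ V.powerset, cf (GE s κ g (fun i => κ i + g i) x T A) A *
        pdt (blkL s τ V) (V \ A) := by
    symm
    refine sum_bij (fun A _ => A.map Function.Embedding.some) ?_ ?_ ?_ ?_
    · intro A hA
      rw [mem_powerset] at hA ⊢
      exact map_subset_map.2 hA
    · intro A _ A' _ h
      exact map_injective _ h
    · intro A' hA'
      rw [mem_powerset] at hA'
      obtain ⟨A, hA, rfl⟩ := subset_map_iff.1 hA'
      exact ⟨A, mem_powerset.2 hA, rfl⟩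
    · intro A hA
      rw [mem_powerset] at hA
      have e1 : V.map Function.Embedding.some \ A.map Function.Embedding.some =
          (V \ A).map Function.Embedding.some := (Finset.map_sdiff _ _).symm
      rw [← GE_opt, cf_rO, e1, pdt_map_emb]
      congr 1
      refine pdt_congr fun i hi j _ => ?_
      rw [blkL, blkL]
      by_cases hij : i = j
      · subst hij
        rw [if_pos rfl, if_pos rfl]
        have e2 : (V.map Function.Embedding.some).erase (some i) =
            (V.erase i).map Function.Embedding.some := (map_erase _ _ _).symm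
        simp only [Function.Embedding.some_apply]
        rw [e2, sum_map]
        rfl
      · rw [if_neg hij, if_neg (fun h => hij (Function.Embedding.some.injective h))]
        rfl
  rw [h2] at h1
  rw [h1, map_some_union, pdt_insertNone]
  refine pdB_congr ?_ ?_ ?_ ?_
  · intro i hi j _
    rw [blkM, blkM]
    by_cases hij : i = j
    · subst hij
      rw [if_pos rfl, if_pos rfl]
      by_cases hT : i ∈ T
      · rw [if_pos hT, if_pos (some_mem_insertNone.2 hT), erase_some, sum_insertNone]
        simp only [kO, mO]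
        ring
      · rw [if_neg hT, if_neg (fun h => hT (some_mem_insertNone.1 h))]
        have e2 : (V.map Function.Embedding.some).erase (some i) =
            (V.erase i).map Function.Embedding.some := (map_erase _ _ _).symm
        rw [e2, sum_map]
        rfl
    · rw [if_neg hij, if_neg (fun h => hij (Option.some_injective _ h))]
      rfl
  · intro i _
    rw [blkM, if_neg (by simp)]
    simp only [mO, neg_neg]
  · intro i _
    rw [blkM, if_neg (by simp)]
    simp only [mO, neg_neg]
  · rw [blkM, if_pos rfl, if_pos none_mem_insertNone, erase_none, sum_map]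
    simp only [kO, mO, Function.Embedding.some_apply, sum_neg_distrib]
    ring

/-! ### The end statements -/

section
variable {B : ValuationSubring ℂ} {l K : ℂ} {La : Finset ι → Finset ι → ℂ} {e : ι → ℂ}
  {x : Finset ι → ι → ℂ} {s : ι → ι → ZMod 2} {κ : ι → ZMod 2} {S0 B0 : Finset ι}

/-- the residues of the level functions, bordered classes -/
theorem SyB.claim_GE (h : SyB B l K La e x s κ S0 B0) {g f : ι → ZMod 2} {x0 : ZMod 2}
    (h0 : Rt B (La ∅ ∅ / K) x0)
    (hid : ∀ T ⊆ S0, ∀ C ⊆ B0, (T ∪ C).Nonempty →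
      Rt B (idB l K La e x s 0 T C) (∑ i ∈ T ∪ C, g i * Ham s f (T ∪ C) i)) :
    ∀ n : ℕ, ∀ T ⊆ S0, ∀ C ⊆ B0, T.card + C.card = n → RB B (2 / l) C
      (fun A => lvB La e x s T C A / (K * l ^ (T.card + C.card + 0))) (GE s κ g f x0 T C) := by
  have hd : ∀ T ⊆ S0, ∀ C ⊆ B0, Disjoint T C := fun T hT C hC =>
    disjoint_of_subset_left hT (disjoint_of_subset_right hC h.dis)
  refine h.claim (R := fun S => ∑ i ∈ S, g i * Ham s f S i) ?_
    (fun T hT C hC b hb E hE => GE_step s κ g f x0 (hd T hT C hC) hb hE)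
    (fun T hT C hC h1 => GE_sum s κ g f x0 (hd T hT C hC) h1) hid
  rw [GE_empty, cf_C, if_pos rfl, pow_zero, mul_one]
  exact h0

/-- **The class (E): the class of the value is the bordered determinant.** -/
theorem SyB.final_E (h : SyB B l K La e x s κ S0 B0) {g : ι → ZMod 2} {x0 : ZMod 2}
    (h0 : Rt B (La ∅ ∅ / K) x0)
    (hid : ∀ T ⊆ S0, ∀ C ⊆ B0, (T ∪ C).Nonempty → Rt B (idB l K La e x s 0 T C)
      (∑ i ∈ T ∪ C, g i * Ham s (fun j => κ j + g j) (T ∪ C) i))
    {U V : Finset ι} (hUB : U ∪ V = B0) (hUV : Disjoint U V)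
    (hu1 : ∀ b ∈ U, κ b + ∑ p ∈ S0, s b p = 1) (hu0 : ∀ b ∈ V, κ b + ∑ p ∈ S0, s b p = 0)
    {τ : ι → ZMod 2} (h1 : ∀ b ∈ V, Rt B (x S0 b * ∏ a ∈ U, sgz (s b a)) 1)
    (h2 : ∀ b ∈ V, Rt B ((e b - x S0 b * ∏ a ∈ U, sgz (s b a)) / l ^ 2) (τ b)) :
    Rt B (La S0 B0 / (K * l ^ (S0.card + U.card + 2 * V.card)))
      (pdB (blkM s κ τ S0 V) g g (x0 + ∑ p ∈ S0, g p) (S0 ∪ V)) := by
  have hU : U ⊆ B0 := hUB ▸ subset_union_left
  have hV : V ⊆ B0 := hUB ▸ subset_union_right
  have h3 := h.final (n := 0) (P := fun C => GE s κ g (fun j => κ j + g j) x0 S0 C) hU hV hUV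
    (fun C hC => h.claim_GE h0 hid _ S0 subset_rfl C hC rfl)
    (fun A hA b hb E hE => GE_step s κ g _ x0 (disjoint_of_subset_right hA h.dis) hb hE)
    hu1 hu0 h1 h2 V.card V subset_rfl rfl
  have h4 : solB s τ (fun A => cf (GE s κ g (fun j => κ j + g j) x0 S0 A) A) V =
      ∑ A ∈ V.powerset, cf (GE s κ g (fun j => κ j + g j) x0 S0 A) A *
        pdt (blkL s τ V) (V \ A) :=
    sum_congr rfl fun A hA => by rw [NM_blkL s τ (mem_powerset.1 hA)]
  rw [hUB, add_zero, h4, GE_final s κ g τ x0 (disjoint_of_subset_right hV h.dis) hu0,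
    sub_eq_add_neg, ZMod.neg_eq_self_mod_two] at h3
  exact h3

/-- the product of a linear form with the determinant -/
theorem cf_GE_row (s : ι → ι → R) (κ g : ι → R) (x : R) {T A : Finset ι} (hTA : Disjoint T A)
    (hu : ∀ b ∈ A, κ b + ∑ p ∈ T, s b p = 0) :
    cf (GE s κ g κ x T A) A = (x - ∑ p ∈ T, g p) * cf (DE s κ T A) A := by
  have h1 : GE s κ g κ x T A = (C (x - ∑ p ∈ T, g p) - ∑ b ∈ A, X b * C (g b)) *
      DE s κ T A := by
    rw [GE, FB_row, DE, sum_union hTA, C_sub, map_sum]
    congr 1
    have e1 : ∑ i ∈ T, mvE g A i = ∑ i ∈ T, (C (g i) : MvPolynomial ι R) :=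
      sum_congr rfl fun i hi => by rw [mvE, if_neg fun h => disjoint_left.1 hTA hi h]
    have e2 : ∑ i ∈ A, mvE g A i = ∑ i ∈ A, X i * (C (g i) : MvPolynomial ι R) :=
      sum_congr rfl fun i hi => by rw [mvE, if_pos hi]
    rw [e1, e2]
    ring
  have h2 : cf (∑ b ∈ A, X b * C (g b) * DE s κ T A) A = 0 := by
    rw [cf_sum]
    refine sum_eq_zero fun b hb => ?_
    have e1 : X b * C (g b) * DE s κ T A = C (g b) * (X b * DE s κ T A) := by ring
    have h3 := cf_low s κ T (B0 := A) (P := fun C => DE s κ T C)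
      (fun A' hA' b hb E hE => DE_step s κ (disjoint_of_subset_right hA' hTA) hb hE)
      (U' := ∅) (empty_subset A) A.card A rfl subset_rfl (disjoint_empty_left A) hu (A.erase b)
      (erase_ssubset hb)
    rw [empty_union] at h3
    rw [e1, cf_C_mul, cf_X_mul, if_pos hb, h3, mul_zero]
  rw [h1, sub_mul, sum_mul, sub_eq_add_neg, cf_add, cf_neg, h2, neg_zero, add_zero, cf_C_mul]

/-- **The class with `f = κ`: the class of the value is `(x0 + ∑ g) det`.** -/
theorem SyB.final_row (h : SyB B l K La e x s κ S0 B0) {g : ι → ZMod 2} {x0 : ZMod 2}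
    (h0 : Rt B (La ∅ ∅ / K) x0)
    (hid : ∀ T ⊆ S0, ∀ C ⊆ B0, (T ∪ C).Nonempty → Rt B (idB l K La e x s 0 T C)
      (∑ i ∈ T ∪ C, g i * Ham s κ (T ∪ C) i))
    {U V : Finset ι} (hUB : U ∪ V = B0) (hUV : Disjoint U V)
    (hu1 : ∀ b ∈ U, κ b + ∑ p ∈ S0, s b p = 1) (hu0 : ∀ b ∈ V, κ b + ∑ p ∈ S0, s b p = 0)
    {τ : ι → ZMod 2} (h1 : ∀ b ∈ V, Rt B (x S0 b * ∏ a ∈ U, sgz (s b a)) 1)
    (h2 : ∀ b ∈ V, Rt B ((e b - x S0 b * ∏ a ∈ U, sgz (s b a)) / l ^ 2) (τ b)) :
    Rt B (La S0 B0 / (K * l ^ (S0.card + U.card + 2 * V.card)))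
      ((x0 + ∑ p ∈ S0, g p) * pdt (blkM s κ τ S0 V) (S0 ∪ V)) := by
  have hU : U ⊆ B0 := hUB ▸ subset_union_left
  have hV : V ⊆ B0 := hUB ▸ subset_union_right
  have h3 := h.final (n := 0) (P := fun C => GE s κ g κ x0 S0 C) hU hV hUV
    (fun C hC => h.claim_GE h0 hid _ S0 subset_rfl C hC rfl)
    (fun A hA b hb E hE => GE_step s κ g _ x0 (disjoint_of_subset_right hA h.dis) hb hE)
    hu1 hu0 h1 h2 V.card V subset_rfl rfl
  have h4 : solB s τ (fun A => cf (GE s κ g κ x0 S0 A) A) V = (x0 + ∑ p ∈ S0, g p) *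
      ∑ A ∈ V.powerset, cf (DE s κ S0 A) A * pdt (blkL s τ V) (V \ A) := by
    rw [solB, mul_sum]
    refine sum_congr rfl fun A hA => ?_
    rw [mem_powerset] at hA
    rw [NM_blkL s τ hA, cf_GE_row s κ g x0 (disjoint_of_subset_right (hA.trans hV) h.dis)
      fun b hb => hu0 b (hA hb), sub_eq_add_neg, ZMod.neg_eq_self_mod_two]
    ring
  rw [hUB, add_zero, h4, DE_final s κ τ (disjoint_of_subset_right hV h.dis) hu0] at h3
  exact h3

end

end Pool.Agent.Lib.MP_1a91b9_ntQ
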