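import Pool.Agent.Lib.MP_1a91b9_ntQ.A.AlgE

/-!
# Quartic twists, part A, file AlgX: the algebra of the class (X), `D = ± 1` modulo `4`

`kap0 s S` is the cofactor of `N_0(S)`, `kapX s a x S` that of `[[N_0(S), a], [aᵀ, x]]`. `q0` is a prime with `a q0 = 1`, `I := S - q0`,
`m_{ji} = s_ij + a_j s_0i`.
-/

set_option autoImplicit false

namespace Pool.Agent.Lib.MP_1a91b9_ntQ

open Finset
open Pool.Agent.Lib.MP_1a91b9_ntK (NM NM_congr NM_empty NM_adj NM_update NM_zero GF GF_empty forest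
  CZ CZ_eq forest_zero tri_unique)

variable {ι : Type*} [DecidableEq ι]

private theorem AlgX_neg : ∀ x : ZMod 2, -x = x := by decide

private theorem AlgX_one (n : ℕ) : ((-1 : ZMod 2)) ^ n = 1 := by
  have h : (-1 : ZMod 2) = 1 := rfl
  rw [h, one_pow]

private theorem AlgX_self : ∀ x : ZMod 2, x + x = 0 := by decide

private theorem AlgX_field : IsDomain (ZMod 2) :=
  have : Fact (Nat.Prime 2) := ⟨Nat.prime_two⟩
  inferInstance

/-! ### The cofactors -/

/-- the cofactor of `N_0(S)` (all entries of the adjugate agree) -/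
noncomputable def kap0 (s : ι → ι → ZMod 2) (S : Finset ι) : ZMod 2 :=
  haveI := Classical.dec S.Nonempty
  if h : S.Nonempty then (N4 s 0 S).adjugate ⟨h.choose, h.choose_spec⟩ ⟨h.choose, h.choose_spec⟩
  else 0

/-- the cofactor of `[[N_0(S), a], [aᵀ, x]]` -/
noncomputable def kapX (s : ι → ι → ZMod 2) (a : ι → ZMod 2) (x : ZMod 2) (S : Finset ι) : ZMod 2 :=
  haveI := Classical.dec S.Nonempty
  if h : S.Nonempty then (B4 s 0 a x S).adjugate (Sum.inl ⟨h.choose, h.choose_spec⟩)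
    (Sum.inl ⟨h.choose, h.choose_spec⟩) else 0

/-- the kernel vector `(1, 0)` -/
def vX (S : Finset ι) : S ⊕ Unit → ZMod 2 := Sum.elim (fun _ => 1) (fun _ => 0)

theorem B4_symm (s : ι → ι → ZMod 2) (hs : ∀ p q, p ≠ q → s p q = s q p) (κ a : ι → ZMod 2)
    (x : ZMod 2) (S : Finset ι) : (B4 s κ a x S).transpose = B4 s κ a x S := by
  rw [B4, Matrix.fromBlocks_transpose, N4_symm s hs]
  rfl

theorem B4_mulVec (s : ι → ι → ZMod 2) (a : ι → ZMod 2) (x : ZMod 2) {S : Finset ι}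
    (hA : ∑ i ∈ S, a i = 0) : (B4 s 0 a x S).mulVec (vX S) = 0 := by
  ext y
  rcases y with i | ⟨⟩
  · have h1 := congrFun (N4_mulVec_one s S) i
    simp only [Matrix.mulVec, dotProduct, B4, Fintype.sum_sum_type, Matrix.fromBlocks_apply₁₁,
      Matrix.fromBlocks_apply₁₂, vX, Sum.elim_inl, Sum.elim_inr, mul_zero, sum_const_zero,
      add_zero] at h1 ⊢
    exact h1
  · simp only [Matrix.mulVec, dotProduct, B4, Fintype.sum_sum_type, Matrix.fromBlocks_apply₂₁,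
      Matrix.fromBlocks_apply₂₂, vX, Sum.elim_inl, Sum.elim_inr, mul_zero, sum_const_zero,
      add_zero, Pi.zero_apply, mul_one]
    rw [← hA, ← sum_coe_sort S a]

theorem kap0_adj (s : ι → ι → ZMod 2) (hs : ∀ p q, p ≠ q → s p q = s q p) {S : Finset ι}
    (i j : S) : (N4 s 0 S).adjugate i j = kap0 s S := by
  have := AlgX_field
  have hS : S.Nonempty := ⟨i, i.2⟩
  rw [kap0, dif_pos hS]
  have h1 := adj_ker (N4_symm s hs 0 S) (N4_mulVec_one s S)
    (k := ⟨hS.choose, hS.choose_spec⟩) (by rw [mul_one]) i j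
  rw [h1, mul_one, mul_one]

theorem kapX_adj (s : ι → ι → ZMod 2) (hs : ∀ p q, p ≠ q → s p q = s q p) (a : ι → ZMod 2)
    (x : ZMod 2) {S : Finset ι} (hS : S.Nonempty) (hA : ∑ i ∈ S, a i = 0) (y z : S ⊕ Unit) :
    (B4 s 0 a x S).adjugate y z = kapX s a x S * (vX S y * vX S z) := by
  have := AlgX_field
  rw [kapX, dif_pos hS]
  exact adj_ker (B4_symm s hs 0 a x S) (B4_mulVec s a x hA)
    (k := Sum.inl ⟨hS.choose, hS.choose_spec⟩) (mul_one 1) y z

/-- If the kernel of `N_0(S)` is generated by `1` then `kap0 ≠ 0`. -/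
theorem kap0_ne (s : ι → ι → ZMod 2) (hs : ∀ p q, p ≠ q → s p q = s q p) {S : Finset ι}
    (hS : S.Nonempty)
    (hker : ∀ v : S → ZMod 2, (N4 s 0 S).mulVec v = 0 → ∃ c : ZMod 2, ∀ i, v i = c) :
    kap0 s S ≠ 0 := by
  have := AlgX_field
  rw [kap0, dif_pos hS]
  refine adj_ne_of_ker (N4_symm s hs 0 S) (N4_mulVec_one s S) one_ne_zero fun w hw => ?_
  obtain ⟨c, hc⟩ := hker w hw
  exact ⟨c, fun i => by rw [hc i, mul_one]⟩

/-- **If the kernel of `[[N_0(S), a], [aᵀ, x]]` is generated by `(1, 0)` then `kapX ≠ 0`.** -/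
theorem kapX_ne (s : ι → ι → ZMod 2) (hs : ∀ p q, p ≠ q → s p q = s q p) (a : ι → ZMod 2)
    (x : ZMod 2) {S : Finset ι} (hS : S.Nonempty) (hA : ∑ i ∈ S, a i = 0)
    (hker : ∀ v : S ⊕ Unit → ZMod 2, (B4 s 0 a x S).mulVec v = 0 →
      ∃ c : ZMod 2, (∀ i : S, v (Sum.inl i) = c) ∧ v (Sum.inr ()) = 0) : kapX s a x S ≠ 0 := by
  have := AlgX_field
  rw [kapX, dif_pos hS]
  refine adj_ne_of_ker (B4_symm s hs 0 a x S) (B4_mulVec s a x hA)
    (k := Sum.inl ⟨hS.choose, hS.choose_spec⟩) one_ne_zero fun w hw => ?_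
  obtain ⟨c, h1, h2⟩ := hker w hw
  refine ⟨c, fun y => ?_⟩
  rcases y with i | ⟨⟩
  · rw [h1 i]
    exact (mul_one c).symm
  · rw [h2]
    exact (mul_zero c).symm

theorem B4_BM (s : ι → ι → ZMod 2) (κ a : ι → ZMod 2) (x : ZMod 2) (T : Finset ι) :
    B4 s κ a x T = BM (NM s κ T) (fun i => a i) (fun i => a i) x := by
  rw [B4, N4_eq]
  rfl

theorem kap0_minor (s : ι → ι → ZMod 2) (hs : ∀ p q, p ≠ q → s p q = s q p) {S : Finset ι}
    {q : ι} (hq : q ∈ S) : kap0 s S = (NM s (fun p => s p q) (S.erase q)).det := by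
  have h1 := kap0_adj s hs (⟨q, hq⟩ : S) ⟨q, hq⟩
  rw [← h1, N4_eq, NM_adj]
  simp only [Pi.zero_apply, zero_add]

theorem kapX_minor (s : ι → ι → ZMod 2) (hs : ∀ p q, p ≠ q → s p q = s q p) (a : ι → ZMod 2)
    (x : ZMod 2) {S : Finset ι} (hA : ∑ i ∈ S, a i = 0) {q : ι} (hq : q ∈ S) :
    kapX s a x S = FB s a a x (fun p => s p q) (S.erase q) := by
  have h1 := kapX_adj s hs a x ⟨q, hq⟩ hA (Sum.inl ⟨q, hq⟩) (Sum.inl ⟨q, hq⟩)
  have h2 : vX S (Sum.inl ⟨q, hq⟩) * vX S (Sum.inl ⟨q, hq⟩) = 1 := mul_one 1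
  rw [h2, mul_one] at h1
  rw [← h1, B4_BM, FB_adj]
  simp only [Pi.zero_apply, zero_add]

/-- **`kapX s a x S = kapX s a 0 S + x * kap0 s S`.** -/
theorem kapX_add (s : ι → ι → ZMod 2) (hs : ∀ p q, p ≠ q → s p q = s q p) (a : ι → ZMod 2)
    (x : ZMod 2) {S : Finset ι} (hS : S.Nonempty) (hA : ∑ i ∈ S, a i = 0) :
    kapX s a x S = kapX s a 0 S + x * kap0 s S := by
  obtain ⟨q, hq⟩ := hS
  rw [kapX_minor s hs a x hA hq, kapX_minor s hs a 0 hA hq, kap0_minor s hs hq, FB, FB, det_BM,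
    det_BM]
  ring

/-- the case `a = 0` on `S` -/
theorem kapX_zero (s : ι → ι → ZMod 2) (hs : ∀ p q, p ≠ q → s p q = s q p) (a : ι → ZMod 2)
    {S : Finset ι} (ha : ∀ i ∈ S, a i = 0) : kapX s a 0 S = 0 := by
  rcases S.eq_empty_or_nonempty with rfl | ⟨q, hq⟩
  · rw [kapX, dif_neg (by simp)]
  · rw [kapX_minor s hs a 0 (sum_eq_zero ha) hq, FB, det_BM, zero_mul, zero_sub, neg_eq_zero]
    refine sum_eq_zero fun i _ => sum_eq_zero fun j _ => ?_
    rw [ha i (mem_of_mem_erase i.2)]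
    ring

/-- Case 0: the solution of the recursion -/
theorem C4_kap0 (s : ι → ι → ZMod 2) (hs : ∀ p q, p ≠ q → s p q = s q p) (w : ι → ZMod 2)
    {S : Finset ι} (hS : S.Nonempty) : C4 s w S = (∑ q ∈ S, w q) * kap0 s S := by
  obtain ⟨q, hq⟩ := hS
  rw [C4_eq s hs w ⟨q, hq⟩, kap0_adj s hs]

/-! ### The recursion of case 1 -/

/-- `m_{ji} = s_ij + a_j s_0i` -/
def mX (s : ι → ι → ZMod 2) (a : ι → ZMod 2) (q0 j i : ι) : ZMod 2 := s i j + a j * s q0 i

/-- the row index first -/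
def nX (s : ι → ι → ZMod 2) (a : ι → ZMod 2) (q0 i j : ι) : ZMod 2 := mX s a q0 j i

/-- the right hand side: Hamiltonian paths `∑ g_i Ham_i`, `Ham_i({i}) = f_i`,
`Ham_i(J) = ∑ (j ∈ J - i) m_{ji} Ham_j(J - i)` -/
def GaX (s : ι → ι → ZMod 2) (a g f : ι → ZMod 2) (q0 : ι) (J : Finset ι) : ZMod 2 :=
  ∑ i ∈ J, g i * Ham (nX s a q0) f J i

/-- the solution -/
def yX (s : ι → ι → ZMod 2) (a v g f : ι → ZMod 2) (q0 : ι) (J : Finset ι) : ZMod 2 :=
  CZ (nX s a q0) v J + (∑ i ∈ J, g i) * CZ (nX s a q0) f J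

/-- **The solution of (3.2).** -/
theorem algX (s : ι → ι → ZMod 2) (a v g f : ι → ZMod 2) (q0 : ι) {J : Finset ι}
    (hJ : J.Nonempty) :
    ∑ T ∈ J.powerset.erase ∅, yX s a v g f q0 T * ∏ i ∈ J \ T, ∑ j ∈ T, mX s a q0 j i =
      (if J.card = 1 then ∑ i ∈ J, v i else 0) + GaX s a g f q0 J := by
  have h1 := forest_zero (nX s a q0) v hJ
  have h2 : (if J.card = 1 then ∑ i ∈ J, v i else 0) =
      if J.card = 1 then -∑ i ∈ J, v i else 0 := by rw [AlgX_neg]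
  have h3 := ham_id (nX s a q0) 0 g f J
  rw [AlgX_one, one_mul, ← add_sum_erase _ _ (empty_mem_powerset J)] at h3
  have h4 : (-1) ^ (∅ : Finset ι).card * (∑ i : ↥(∅ : Finset ι), ∑ j : ↥(∅ : Finset ι),
      g i * (NM (nX s a q0) 0 ∅).adjugate i j * f j) *
      ∏ q ∈ J \ ∅, ((0 : ι → ZMod 2) q + ∑ p ∈ (∅ : Finset ι), nX s a q0 q p) = 0 := by
    simp
  rw [h4, zero_add] at h3
  rw [GaX, ← h3, h2, ← h1, ← sum_add_distrib]
  refine sum_congr rfl fun T _ => ?_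
  have h5 : ∑ i : T, ∑ j : T, g i * (NM (nX s a q0) 0 T).adjugate i j * f j =
      (∑ i ∈ T, g i) * CZ (nX s a q0) f T := by
    rw [CZ, ← sum_coe_sort T g, sum_mul_sum]
    refine sum_congr rfl fun i _ => sum_congr rfl fun j _ => ?_
    rw [adj_row (NM_mulVec_one _ T) i j j]
    ring
  rw [h5, AlgX_one, yX]
  simp only [Pi.zero_apply, zero_add, nX]
  ring

theorem algX_rec (s : ι → ι → ZMod 2) (a v g f : ι → ZMod 2) (q0 : ι) {J : Finset ι}
    (hJ : J.Nonempty) :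
    yX s a v g f q0 J = (if J.card = 1 then ∑ i ∈ J, v i else 0) + GaX s a g f q0 J +
      ∑ T ∈ (J.powerset.erase ∅).erase J, yX s a v g f q0 T *
        ∏ i ∈ J \ T, ∑ j ∈ T, mX s a q0 j i := by
  have h1 := algX s a v g f q0 hJ
  have hm : J ∈ J.powerset.erase ∅ := mem_erase.2 ⟨hJ.ne_empty, mem_powerset_self J⟩
  rw [← add_sum_erase _ _ hm, Finset.sdiff_self, prod_empty, mul_one] at h1
  rw [← h1, add_assoc, AlgX_self, add_zero]

/-- **Uniqueness.** -/
theorem algX_unique (s : ι → ι → ZMod 2) (a v g f : ι → ZMod 2) (q0 : ι) {I : Finset ι}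
    {y : Finset ι → ZMod 2}
    (h : ∀ J ⊆ I, J.Nonempty →
      ∑ T ∈ J.powerset.erase ∅, y T * ∏ i ∈ J \ T, ∑ j ∈ T, mX s a q0 j i =
        (if J.card = 1 then ∑ i ∈ J, v i else 0) + GaX s a g f q0 J) :
    ∀ J ⊆ I, J.Nonempty → y J = yX s a v g f q0 J := by
  refine tri_unique (c := fun J T => ∏ i ∈ J \ T, ∑ j ∈ T, mX s a q0 j i) (by simp) ?_
  intro J hJ hJ0
  have h1 := h J hJ hJ0
  rw [← algX s a v g f q0 hJ0] at h1
  refine Eq.trans ?_ (h1.trans ?_)
  · exact sum_congr rfl fun T _ => by rw [AlgX_one, one_mul]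
  · exact sum_congr rfl fun T _ => by rw [AlgX_one, one_mul]

/-! ### The values at `I = S - q0` -/

private theorem AlgX_NM (s : ι → ι → ZMod 2) (hs : ∀ p q, p ≠ q → s p q = s q p) (a : ι → ZMod 2)
    {q0 : ι} {I : Finset ι} (h0 : q0 ∉ I) (hA : ∑ i ∈ I, a i = 1) :
    NM s (fun p => s p q0) I = NM (nX s a q0) 0 I +
      Matrix.vecMulVec (fun i : I => s q0 i) (fun i : I => a i) := by
  ext i j
  rw [Matrix.add_apply, Matrix.vecMulVec_apply]
  have hi : q0 ≠ (i : ι) := fun h => h0 (by rw [h]; exact i.2)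
  by_cases h : i = j
  · subst h
    simp only [NM, if_true, Pi.zero_apply, zero_add]
    have h1 : a i + ∑ p ∈ I.erase (i : ι), a p = 1 := by rw [add_sum_erase I a i.2, hA]
    have h2 : ∑ p ∈ I.erase (i : ι), nX s a q0 i p =
        ∑ p ∈ I.erase (i : ι), s i p + s q0 i * ∑ p ∈ I.erase (i : ι), a p := by
      rw [mul_sum, ← sum_add_distrib]
      refine sum_congr rfl fun p _ => ?_
      rw [nX, mX]
      ring
    have h3 : ∑ p ∈ I.erase (i : ι), a p = 1 - a i := by linear_combination h1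
    rw [h2, h3, hs i q0 (Ne.symm hi)]
    ring
  · simp only [NM, if_neg h, nX, mX]
    have h4 : ∀ x y z : ZMod 2, -x = -(x + y * z) + z * y := by decide
    exact h4 _ _ _

/-- the determinant of a rank one update -/
theorem AlgX_det (m : ι → ι → ZMod 2) (w z : ι → ZMod 2) {T : Finset ι} (hT : T.Nonempty) :
    (NM m 0 T + Matrix.vecMulVec (fun i : T => w i) (fun i : T => z i)).det =
      (∑ i ∈ T, z i) * CZ m w T := by
  rw [det_add_vec, NM_zero (κ := 0) m hT (fun _ _ => rfl), zero_add, CZ, ← sum_coe_sort T z,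
    sum_mul_sum]
  refine sum_congr rfl fun i _ => sum_congr rfl fun j _ => ?_
  rw [adj_row (NM_mulVec_one m T) i j j]
  ring

theorem CZ_add (m : ι → ι → ZMod 2) (v w : ι → ZMod 2) (T : Finset ι) :
    CZ m (fun i => v i + w i) T = CZ m v T + CZ m w T := by
  rw [CZ, CZ, CZ, ← sum_add_distrib]
  exact sum_congr rfl fun i _ => by ring

theorem CZ_zero (m : ι → ι → ZMod 2) (T : Finset ι) : CZ m (fun _ => 0) T = 0 := by
  rw [CZ]
  exact sum_eq_zero fun i _ => by ring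

section Values

variable (s : ι → ι → ZMod 2) (hs : ∀ p q, p ≠ q → s p q = s q p) (a : ι → ZMod 2)
  {q0 : ι} {I : Finset ι} (h0 : q0 ∉ I) (hA : ∑ i ∈ I, a i = 1)

include hs h0 hA

/-- `CZ n s_0 I = kap0 (I + q0)` -/
theorem algX_s0 : CZ (nX s a q0) (fun i => s q0 i) I = kap0 s (insert q0 I) := by
  have hI : I.Nonempty := by
    rw [nonempty_iff_ne_empty]
    rintro rfl
    rw [sum_empty] at hA
    exact zero_ne_one hA
  rw [kap0_minor s hs (mem_insert_self q0 I), erase_insert h0, AlgX_NM s hs a h0 hA,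
    AlgX_det _ (fun i => s q0 i) a hI, hA, one_mul]

/-- `CZ n a I = kapX (I + q0)` with the corner `0` -/
theorem algX_a (ha : a q0 = 1) :
    CZ (nX s a q0) a I = kapX s a 0 (insert q0 I) := by
  have hI : I.Nonempty := by
    rw [nonempty_iff_ne_empty]
    rintro rfl
    rw [sum_empty] at hA
    exact zero_ne_one hA
  have hAS : ∑ i ∈ insert q0 I, a i = 0 := by
    rw [sum_insert h0, ha, hA]
    rfl
  have h1 := algX_s0 s hs a h0 hA
  rw [kap0_minor s hs (mem_insert_self q0 I), erase_insert h0] at h1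
  rw [kapX_minor s hs a 0 hAS (mem_insert_self q0 I), erase_insert h0, FB, det_BM, zero_mul,
    zero_sub]
  have h2 := det_add_vec (NM s (fun p => s p q0) I) (fun i : I => a i) (fun i : I => a i)
  have h3 : NM s (fun p => s p q0) I + Matrix.vecMulVec (fun i : I => a i) (fun i : I => a i) =
      NM (nX s a q0) 0 I + Matrix.vecMulVec (fun i : I => s q0 i + a i) (fun i : I => a i) := by
    rw [AlgX_NM s hs a h0 hA]
    ext i j
    simp only [Matrix.add_apply, Matrix.vecMulVec_apply]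
    ring
  have h4 := AlgX_det (nX s a q0) (fun i => s q0 i + a i) a hI
  rw [h3, h4, hA, one_mul, CZ_add, h1] at h2
  rw [AlgX_neg]
  exact add_left_cancel h2

/-- `k = 2`, `n_S = 0`: the value is `κ` -/
theorem yX_2a (ha : a q0 = 1) (f : ι → ZMod 2) :
    yX s a a (fun _ => 0) f q0 I = kapX s a 0 (insert q0 I) := by
  rw [yX, sum_const_zero, zero_mul, add_zero, algX_a s hs a h0 hA ha]

/-- `k = 2`, `n_S = 2`: the value is `κ + κ_0` -/
theorem yX_2b (ha : a q0 = 1) (f : ι → ZMod 2) :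
    yX s a (fun i => a i + s q0 i) (fun _ => 0) f q0 I = kapX s a 1 (insert q0 I) := by
  have hAS : ∑ i ∈ insert q0 I, a i = 0 := by
    rw [sum_insert h0, ha, hA]
    rfl
  rw [yX, sum_const_zero, zero_mul, add_zero, CZ_add, algX_a s hs a h0 hA ha,
    algX_s0 s hs a h0 hA, kapX_add s hs a 1 ⟨q0, mem_insert_self q0 I⟩ hAS, one_mul]

omit hs in
theorem AlgX_b (b : ι → ZMod 2) :
    ∑ i ∈ I, (b i + b q0 * a i) = ∑ i ∈ insert q0 I, b i := by
  rw [sum_add_distrib, ← mul_sum, hA, mul_one, sum_insert h0, add_comm]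

/-- `k = 0`, `n_S = 0`: the value is `b_S κ_0` -/
theorem yX_0a (b : ι → ZMod 2) :
    yX s a (fun _ => 0) (fun i => b i + b q0 * a i) (fun i => s q0 i) q0 I =
      (∑ i ∈ insert q0 I, b i) * kap0 s (insert q0 I) := by
  rw [yX, CZ_zero, zero_add, AlgX_b a h0 hA b, algX_s0 s hs a h0 hA]

/-- `k = 0`, `n_S = 2`: the value is `(1 + b_S) κ_0` -/
theorem yX_0b (b : ι → ZMod 2) :
    yX s a (fun i => s q0 i) (fun i => b i + b q0 * a i) (fun i => s q0 i) q0 I =
      (1 + ∑ i ∈ insert q0 I, b i) * kap0 s (insert q0 I) := by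
  rw [yX, AlgX_b a h0 hA b, algX_s0 s hs a h0 hA]
  ring

end Values

end Pool.Agent.Lib.MP_1a91b9_ntQ
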