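import Pool.Agent.Lib.MP_1a91b9_ntQ.A.Res4
import Pool.Agent.Lib.MP_1a91b9_ntQ.A.AlgX

/-!
# Quartic twists, part A, file AlgC: the algebra of the family `y² = x³ - δ² x`

`algC_gen`: the recursion modulo the maximal ideal. `algC_one`, `algC_zero`: the second order recursion
with the weights `l * t q + bit (∑ p ∈ T, s q p)`, `δ ≡ ± 1` modulo `lam³`; the values are `kap0 s S` and
`kapX s a x S`.
-/

set_option autoImplicit false

namespace Pool.Agent.Lib.MP_1a91b9_ntQ

open Finset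
open Pool.Agent.Lib.MP_1a91b9_ntK (NM NM_congr NM_empty NM_adj NM_update NM_zero GF GF_empty forest
  CZ CZ_eq forest_zero)

/-! ### Row sums and the bordered form of the determinant -/

section Border

variable {ι R : Type*} [DecidableEq ι] [CommRing R]

theorem NM_row_sum (m : ι → ι → R) (κ : ι → R) (T : Finset ι) (i : T) :
    ∑ j, NM m κ T i j = κ i := by
  have h1 := congrFun (NM_mulVec_one m T) i
  simp only [Matrix.mulVec, dotProduct, mul_one, Pi.zero_apply] at h1
  have h2 : ∀ j : T, NM m κ T i j = NM m 0 T i j + if i = j then κ i else 0 := by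
    intro j
    simp only [NM]
    split_ifs <;> simp [add_comm]
  rw [sum_congr rfl fun j _ => h2 j, sum_add_distrib, h1, zero_add, sum_ite_eq, if_pos (mem_univ i)]

theorem NM_transpose (m : ι → ι → R) (hs : ∀ p q, p ≠ q → m p q = m q p) (κ : ι → R) (T : Finset ι)
    (i j : T) : NM m κ T i j = NM m κ T j i := by
  by_cases h : i = j
  · subst h
    rfl
  · simp only [NM, if_neg h, if_neg (Ne.symm h)]
    rw [hs i j fun h' => h (Subtype.ext h')]

theorem NM_col_sum (m : ι → ι → R) (hs : ∀ p q, p ≠ q → m p q = m q p) (κ : ι → R) (T : Finset ι)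
    (j : T) : ∑ i, NM m κ T i j = κ j := by
  rw [← NM_row_sum m κ T j]
  exact sum_congr rfl fun i _ => NM_transpose m hs κ T i j

/-- **All the columns are added to the column `v` and all the rows to the row `v`.** -/
theorem NM_borderC (m : ι → ι → R) (hs : ∀ p q, p ≠ q → m p q = m q p) (κ : ι → R) {S : Finset ι}
    {v : ι} (hv : v ∈ S) :
    (NM m κ S).det = FB m κ κ (∑ q ∈ S, κ q) (fun p => κ p + m p v) (S.erase v) := by
  classical
  obtain ⟨M, hM⟩ : ∃ M, M = NM m κ S := ⟨_, rfl⟩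
  obtain ⟨v', hv'⟩ : ∃ v' : S, v' = ⟨v, hv⟩ := ⟨_, rfl⟩
  have h1 : (M.updateCol v' fun i => κ i).det = M.det := by
    have h := Matrix.det_updateCol_sum M v' (fun _ => (1 : R))
    rw [one_smul] at h
    rw [← h]
    congr 2
    funext i
    rw [hM, ← NM_row_sum m κ S i]
    exact sum_congr rfl fun j _ => by rw [one_smul]
  obtain ⟨M1, hM1⟩ : ∃ M1, M1 = M.updateCol v' fun i => κ i := ⟨_, rfl⟩
  have h2 : (M1.updateRow v' fun j => if j = v' then ∑ q ∈ S, κ q else κ j).det = M1.det := by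
    have h := Matrix.det_updateRow_sum M1 v' (fun _ => (1 : R))
    rw [one_smul] at h
    rw [← h]
    congr 2
    funext j
    rw [Finset.sum_apply]
    by_cases hj : j = v'
    · subst hj
      rw [if_pos rfl, ← sum_coe_sort S κ]
      refine sum_congr rfl fun i _ => ?_
      rw [Pi.smul_apply, one_smul, hM1, Matrix.updateCol_self]
    · rw [if_neg hj, ← NM_col_sum m hs κ S j]
      refine sum_congr rfl fun i _ => ?_
      rw [Pi.smul_apply, one_smul, hM1, Matrix.updateCol_ne hj, hM]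
  rw [← hM, ← h1, ← hM1, ← h2, FB]
  let e : ↥(S.erase v) ⊕ Unit ≃ S :=
    { toFun := fun x => match x with
        | Sum.inl i => ⟨i, mem_of_mem_erase i.2⟩
        | Sum.inr _ => ⟨v, hv⟩
      invFun := fun x => if h : (x : ι) = v then Sum.inr () else Sum.inl ⟨x, mem_erase.2 ⟨h, x.2⟩⟩
      left_inv := fun x => by
        rcases x with i | u
        · have : ¬ (i : ι) = v := (mem_erase.1 i.2).1
          simp only [dif_neg this]
        · simp
      right_inv := fun x => by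
        by_cases h : (x : ι) = v
        · simp only [dif_pos h]
          exact Subtype.ext h.symm
        · simp only [dif_neg h] }
  rw [← Matrix.det_submatrix_equiv_self e]
  congr 1
  ext x y
  rcases x with i | ⟨⟩
  · have hi : (i : ι) ≠ v := (mem_erase.1 i.2).1
    have hi' : (⟨(i : ι), mem_of_mem_erase i.2⟩ : S) ≠ v' := by
      rw [hv']
      exact fun h => hi (congrArg Subtype.val h)
    rcases y with j | ⟨⟩
    · have hj : (j : ι) ≠ v := (mem_erase.1 j.2).1
      have hj' : (⟨(j : ι), mem_of_mem_erase j.2⟩ : S) ≠ v' := by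
        rw [hv']
        exact fun h => hj (congrArg Subtype.val h)
      simp only [Matrix.submatrix_apply, e, Equiv.coe_fn_mk, BM, Matrix.fromBlocks_apply₁₁,
        Matrix.updateRow_ne hi', hM1, Matrix.updateCol_ne hj', hM]
      simp only [NM]
      by_cases hij : i = j
      · subst hij
        simp only [if_true]
        have h2 : S.erase (i : ι) = insert v ((S.erase v).erase (i : ι)) := by
          ext x
          simp only [mem_erase, mem_insert]
          constructor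
          · rintro ⟨h3, h4⟩
            by_cases h5 : x = v
            · exact Or.inl h5
            · exact Or.inr ⟨h3, h5, h4⟩
          · rintro (rfl | ⟨h3, -, h4⟩)
            · exact ⟨fun h => hi h.symm, hv⟩
            · exact ⟨h3, h4⟩
        rw [h2, sum_insert (by simp)]
        ring
      · have h2 : ¬ (⟨(i : ι), mem_of_mem_erase i.2⟩ : S) = ⟨(j : ι), mem_of_mem_erase j.2⟩ :=
          fun h => hij (Subtype.ext (Subtype.mk.inj h))
        rw [if_neg h2, if_neg hij]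
    · simp only [Matrix.submatrix_apply, e, Equiv.coe_fn_mk, BM, Matrix.fromBlocks_apply₁₂,
        Matrix.of_apply, Matrix.updateRow_ne hi', hM1, ← hv', Matrix.updateCol_self]
  · rcases y with j | ⟨⟩
    · have hj : (j : ι) ≠ v := (mem_erase.1 j.2).1
      have hj' : ¬ (⟨(j : ι), mem_of_mem_erase j.2⟩ : S) = v' := by
        rw [hv']
        exact fun h => hj (congrArg Subtype.val h)
      simp only [Matrix.submatrix_apply, e, Equiv.coe_fn_mk, BM, Matrix.fromBlocks_apply₂₁,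
        Matrix.of_apply, ← hv', Matrix.updateRow_self, if_neg hj']
    · simp only [Matrix.submatrix_apply, e, Equiv.coe_fn_mk, BM, Matrix.fromBlocks_apply₂₂,
        Matrix.of_apply, ← hv', Matrix.updateRow_self, if_true]

/-- the diagonal `l t`: the first form -/
theorem NM_border_one (m : ι → ι → R) (hs : ∀ p q, p ≠ q → m p q = m q p) (t : ι → R) (l : R)
    {S : Finset ι} {v : ι} (hv : v ∈ S) :
    (NM m (fun q => l * t q) S).det =
      l * FB m (fun q => l * t q) t (∑ q ∈ S, t q) (fun p => l * t p + m p v) (S.erase v) := by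
  rw [NM_borderC m hs _ hv, FB, FB, det_BM, det_BM, ← mul_sum, mul_sub, mul_assoc, mul_sum]
  congr 1
  refine sum_congr rfl fun i _ => ?_
  rw [mul_sum]
  exact sum_congr rfl fun j _ => by ring

/-- the diagonal `l t`, `∑ t = l τ`: the second form -/
theorem NM_border_two (m : ι → ι → R) (hs : ∀ p q, p ≠ q → m p q = m q p) (t : ι → R) (l τ : R)
    {S : Finset ι} {v : ι} (hv : v ∈ S) (hτ : ∑ q ∈ S, t q = l * τ) :
    (NM m (fun q => l * t q) S).det =
      l ^ 2 * FB m t t τ (fun p => l * t p + m p v) (S.erase v) := by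
  rw [NM_border_one m hs t l hv, hτ, FB, FB, det_BM, det_BM, mul_sub, mul_sub]
  congr 1
  · ring
  · rw [mul_sum, mul_sum]
    refine sum_congr rfl fun i _ => ?_
    rw [mul_sum, mul_sum]
    exact sum_congr rfl fun j _ => by ring

end Border

/-! ### Residue classes of determinants -/

section Class

variable {B : ValuationSubring ℂ}

theorem Rt_det (hB : (2 : ℂ)⁻¹ ∉ B) {n : Type*} [Fintype n] [DecidableEq n] {M : Matrix n n ℂ}
    {N : Matrix n n (ZMod 2)} (h : ∀ i j, Rt B (M i j) (N i j)) : Rt B M.det N.det := by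
  rw [Matrix.det_apply, Matrix.det_apply]
  refine Rt.sum hB _ fun σ _ => ?_
  have h1 := Rt.prod hB univ (fun i _ => h (σ i) i)
  rcases Int.units_eq_one_or (Equiv.Perm.sign σ) with h2 | h2
  · rw [h2, one_smul, one_smul]
    exact h1
  · rw [h2, Units.neg_smul, one_smul, Units.neg_smul, one_smul, ZMod.neg_eq_self_mod_two]
    exact h1.neg hB

variable {ι : Type*} [DecidableEq ι]

theorem Rt_NM (hB : (2 : ℂ)⁻¹ ∉ B) {m : ι → ι → ℂ} {m' : ι → ι → ZMod 2} {κ : ι → ℂ}
    {κ' : ι → ZMod 2} {T : Finset ι} (hm : ∀ p q, Rt B (m p q) (m' p q))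
    (hκ : ∀ q ∈ T, Rt B (κ q) (κ' q)) (i j : T) : Rt B (NM m κ T i j) (NM m' κ' T i j) := by
  by_cases h : i = j
  · simp only [NM, if_pos h]
    exact (hκ i i.2).add hB (Rt.sum hB _ fun p _ => hm i p)
  · simp only [NM, if_neg h]
    rw [ZMod.neg_eq_self_mod_two]
    exact (hm i j).neg hB

theorem Rt_FB (hB : (2 : ℂ)⁻¹ ∉ B) {m : ι → ι → ℂ} {m' : ι → ι → ZMod 2} {κ b c : ι → ℂ}
    {κ' b' c' : ι → ZMod 2} {k : ℂ} {k' : ZMod 2} {T : Finset ι} (hm : ∀ p q, Rt B (m p q) (m' p q))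
    (hκ : ∀ q ∈ T, Rt B (κ q) (κ' q)) (hb : ∀ q ∈ T, Rt B (b q) (b' q))
    (hc : ∀ q ∈ T, Rt B (c q) (c' q)) (hk : Rt B k k') :
    Rt B (FB m b c k κ T) (FB m' b' c' k' κ' T) := by
  rw [FB, FB]
  refine Rt_det hB fun x y => ?_
  rcases x with i | ⟨⟩ <;> rcases y with j | ⟨⟩
  · simp only [BM, Matrix.fromBlocks_apply₁₁]
    exact Rt_NM hB hm hκ i j
  · simp only [BM, Matrix.fromBlocks_apply₁₂, Matrix.of_apply]
    exact hb i i.2
  · simp only [BM, Matrix.fromBlocks_apply₂₁, Matrix.of_apply]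
    exact hc j j.2
  · simp only [BM, Matrix.fromBlocks_apply₂₂, Matrix.of_apply]
    exact hk

end Class

/-! ### The recursions -/

section Rec

variable {B : ValuationSubring ℂ} {ι : Type*} [DecidableEq ι]

private theorem AlgC_sgn (hB : (2 : ℂ)⁻¹ ∉ B) (n : ℕ) : Rt B ((-1) ^ n) 1 := by
  have h := ((Rt.one (B := B)).neg hB).pow hB n
  rwa [one_pow] at h

/-- **The first order recursion.** -/
theorem algC_gen (hB : (2 : ℂ)⁻¹ ∉ B) (s : ι → ι → ZMod 2) (d : ι → ZMod 2) {ν : Finset ι → ℂ}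
    {w : Finset ι → ι → ℂ} {S : Finset ι} (h0 : Rt B (ν ∅) 1)
    (hw : ∀ T ⊆ S, ∀ q ∈ S \ T, Rt B (w T q) (d q + ∑ p ∈ T, s q p))
    (hr : ∀ J ⊆ S, J.Nonempty →
      Rt B (∑ T ∈ J.powerset, (-1) ^ T.card * (ν T * ∏ q ∈ J \ T, w T q)) 0) :
    ∀ J ⊆ S, Rt B (ν J) (N4 s d J).det := by
  intro J
  induction J using Finset.strongInduction with
  | H J ih =>
  intro hJS
  rcases J.eq_empty_or_nonempty with rfl | hJ
  · rw [N4_empty]
    exact h0
  have h1 := hr J hJS hJ
  rw [← add_sum_erase _ _ (mem_powerset_self J), Finset.sdiff_self, prod_empty, mul_one] at h1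
  have h2 : Rt B (∑ T ∈ J.powerset.erase J, (-1) ^ T.card * (ν T * ∏ q ∈ J \ T, w T q))
      (∑ T ∈ J.powerset.erase J, (N4 s d T).det * ∏ q ∈ J \ T, (d q + ∑ p ∈ T, s q p)) := by
    refine Rt.sum hB _ fun T hT => ?_
    rw [mem_erase, mem_powerset] at hT
    have h3 := (AlgC_sgn hB T.card).mul hB ((ih T (hT.2.ssubset_of_ne hT.1) (hT.2.trans hJS)).mul hB
      (Rt.prod hB (J \ T) fun q hq => hw T (hT.2.trans hJS) q
        (sdiff_subset_sdiff hJS (Subset.refl T) hq)))
    rwa [one_mul] at h3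
  have h3 := (AlgC_sgn hB J.card).mul hB (h1.sub hB h2)
  rw [add_sub_cancel_right, ← mul_assoc, ← mul_pow, neg_one_mul, neg_neg, one_pow, one_mul,
    one_mul, zero_sub, ZMod.neg_eq_self_mod_two] at h3
  rw [N4_rec s d hJ]
  exact h3

/-- the lifts of the entries -/
def shC (s : ι → ι → ZMod 2) (p q : ι) : ℂ := ((s p q).val : ℂ)

theorem Rt_valC (y : ZMod 2) : Rt B ((y.val : ℕ) : ℂ) y := by
  unfold Rt
  rw [sub_self, map_zero]
  exact zero_lt_one

private theorem AlgC_nat {m n : ℕ} (h : (m : ZMod 2) = n) :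
    B.valuation ((m : ℂ) - n) ≤ B.valuation 2 := by
  have h1 : ((m : ℤ) : ZMod 2) = ((n : ℤ) : ZMod 2) := by exact_mod_cast h
  rw [ZMod.intCast_eq_intCast_iff_dvd_sub] at h1
  obtain ⟨c, hc⟩ := h1
  have e : (m : ℂ) - n = 2 * ((-c : ℤ) : ℂ) := by
    have h2 : ((n : ℤ) : ℂ) - ((m : ℤ) : ℂ) = 2 * (c : ℂ) := by
      exact_mod_cast congrArg (Int.cast (R := ℂ)) hc
    push_cast at h2 ⊢
    linear_combination -h2
  rw [e, map_mul]
  exact mul_le_of_le_one_right zero_le (v_int _)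

private theorem AlgC_prod {c : B.ValueGroup} {A : Finset ι} {f g : ι → ℂ}
    (hf : ∀ i ∈ A, B.valuation (f i) ≤ 1) (hg : ∀ i ∈ A, B.valuation (g i) ≤ 1)
    (h : ∀ i ∈ A, B.valuation (f i - g i) ≤ c) :
    B.valuation (∏ i ∈ A, f i - ∏ i ∈ A, g i) ≤ c := by
  induction A using Finset.induction_on with
  | empty =>
    rw [prod_empty, prod_empty, sub_self, map_zero]
    exact zero_le
  | insert a A ha ih =>
    rw [prod_insert ha, prod_insert ha]
    have e : f a * ∏ i ∈ A, f i - g a * ∏ i ∈ A, g i =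
        f a * (∏ i ∈ A, f i - ∏ i ∈ A, g i) + (f a - g a) * ∏ i ∈ A, g i := by ring
    rw [e]
    refine (Valuation.map_add _ _ _).trans (max_le ?_ ?_)
    · rw [map_mul]
      refine (mul_le_of_le_one_left zero_le (hf a (mem_insert_self a A))).trans ?_
      exact ih (fun i hi => hf i (mem_insert_of_mem hi)) (fun i hi => hg i (mem_insert_of_mem hi))
        fun i hi => h i (mem_insert_of_mem hi)
    · rw [map_mul, map_prod]
      refine (mul_le_of_le_one_right zero_le (prod_le_one' fun i hi => ?_)).trans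
        (h a (mem_insert_self a A))
      exact hg i (mem_insert_of_mem hi)

section Second

variable (hB : (2 : ℂ)⁻¹ ∉ B) (s : ι → ι → ZMod 2) (hs : ∀ p q, p ≠ q → s p q = s q p)
  (a : ι → ZMod 2) {t : ι → ℂ} {l : ℂ} {S : Finset ι} (ht : ∀ q ∈ S, Rt B (t q) (a q))
  (hl : B.valuation l < 1)

include hB hs ht hl

/-- the determinant with the lifts, divided by `l` -/
theorem Rt_DC_one (hl0 : l ≠ 0) {J : Finset ι} (hJ : J ⊆ S) (hJ0 : J.Nonempty) :
    Rt B ((NM (shC s) (fun q => l * t q) J).det / l) ((∑ q ∈ J, a q) * kap0 s J) := by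
  obtain ⟨v, hv⟩ := hJ0
  rw [NM_border_one (shC s) (fun p q h => by rw [shC, shC, hs p q h]) t l hv,
    mul_div_cancel_left₀ _ hl0, kap0_minor s hs hv]
  have hlt : ∀ q ∈ S, Rt B (l * t q) 0 := fun q hq => by
    refine Rt.of_lt ?_
    rw [map_mul]
    exact mul_lt_one_of_lt_of_le hl (ht q hq).le
  have h1 := Rt_FB hB (m := shC s) (m' := s) (κ := fun p => l * t p + shC s p v)
    (κ' := fun p => 0 + s p v) (b := fun q => l * t q) (b' := fun _ => 0) (c := t) (c' := a)
    (k := ∑ q ∈ J, t q) (k' := ∑ q ∈ J, a q) (T := J.erase v) (fun p q => Rt_valC _)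
    (fun q hq => (hlt q (hJ (mem_of_mem_erase hq))).add hB (Rt_valC _))
    (fun q hq => hlt q (hJ (mem_of_mem_erase hq))) (fun q hq => ht q (hJ (mem_of_mem_erase hq)))
    (Rt.sum hB J fun q hq => ht q (hJ hq))
  have h2 : FB s (fun _ => 0) a (∑ q ∈ J, a q) (fun p => 0 + s p v) (J.erase v) =
      (∑ q ∈ J, a q) * (NM s (fun p => s p v) (J.erase v)).det := by
    rw [FB, det_BM]
    simp only [mul_zero, sum_const_zero, sub_zero, zero_add]
  rw [h2] at h1
  exact h1

/-- the determinant with the lifts, divided by `l ^ 2` -/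
theorem Rt_DC_two (hl0 : l ≠ 0) (hS : S.Nonempty) (hA : ∑ q ∈ S, a q = 0) {x : ZMod 2}
    (hx : Rt B ((∑ q ∈ S, t q) / l) x) :
    Rt B ((NM (shC s) (fun q => l * t q) S).det / l ^ 2) (kapX s a x S) := by
  obtain ⟨v, hv⟩ := hS
  have hτ : ∑ q ∈ S, t q = l * ((∑ q ∈ S, t q) / l) := by field_simp
  rw [NM_border_two (shC s) (fun p q h => by rw [shC, shC, hs p q h]) t l _ hv hτ,
    mul_div_cancel_left₀ _ (pow_ne_zero 2 hl0), kapX_minor s hs a x hA hv]
  have hlt : ∀ q ∈ S, Rt B (l * t q) 0 := fun q hq => by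
    refine Rt.of_lt ?_
    rw [map_mul]
    exact mul_lt_one_of_lt_of_le hl (ht q hq).le
  have h1 := Rt_FB hB (m := shC s) (m' := s) (κ := fun p => l * t p + shC s p v)
    (κ' := fun p => 0 + s p v) (b := t) (b' := a) (c := t) (c' := a)
    (k := (∑ q ∈ S, t q) / l) (k' := x) (T := S.erase v) (fun p q => Rt_valC _)
    (fun q hq => (hlt q (mem_of_mem_erase hq)).add hB (Rt_valC _))
    (fun q hq => ht q (mem_of_mem_erase hq)) (fun q hq => ht q (mem_of_mem_erase hq)) hx
  simp only [zero_add] at h1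
  exact h1

/-- **The second order recursion.** -/
theorem algC_F (hl0 : l ≠ 0) (h2 : B.valuation 2 ≤ B.valuation l ^ 2) {ν : Finset ι → ℂ}
    {w : Finset ι → ι → ℂ} (h0 : ν ∅ = 1)
    (hw : ∀ T ⊆ S, ∀ q ∈ S \ T, w T q = l * t q + (((∑ p ∈ T, s q p).val : ℕ) : ℂ))
    (hr : ∀ J ⊆ S, J.Nonempty →
      Rt B ((∑ T ∈ J.powerset, (-1) ^ T.card * (ν T * ∏ q ∈ J \ T, w T q)) / l ^ 2)
        (if J.card = 1 then ∑ q ∈ J, a q else 0)) :
    ∀ J ⊆ S, J.Nonempty →
      Rt B ((ν J - (NM (shC s) (fun q => l * t q) J).det) / l ^ 2) (C4 s a J) := by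
  intro J
  induction J using Finset.strongInduction with
  | H J ih =>
  intro hJS hJ
  have hl2 : l ^ 2 ≠ 0 := pow_ne_zero 2 hl0
  obtain ⟨Dd, hDd⟩ : ∃ Dd : Finset ι → ℂ, Dd = fun T => (NM (shC s) (fun q => l * t q) T).det :=
    ⟨_, rfl⟩
  have hD0 : Dd ∅ = 1 := by
    rw [hDd]
    exact NM_empty _ _
  have hlt : ∀ q ∈ S, Rt B (l * t q) 0 := fun q hq => by
    refine Rt.of_lt ?_
    rw [map_mul]
    exact mul_lt_one_of_lt_of_le hl (ht q hq).le
  have hDl : ∀ T ⊆ S, T.Nonempty → B.valuation (Dd T) ≤ B.valuation l := by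
    intro T hT hT0
    have h := (Rt_DC_one hB s hs a ht hl hl0 hT hT0).le
    rw [map_div₀, div_le_one₀ (zero_lt_iff.2 ((Valuation.ne_zero_iff _).2 hl0))] at h
    rw [hDd]
    exact h
  have hfor : ∑ T ∈ J.powerset, (-1) ^ T.card * (Dd T * ∏ q ∈ J \ T, (l * t q + ∑ p ∈ T, shC s q p)) = 0 := by
    rw [← forest (shC s) (fun q => l * t q) hJ]
    refine sum_congr rfl fun T _ => ?_
    rw [hDd, mul_assoc]
  have hwc : ∀ T ⊆ S, ∀ q ∈ S \ T, Rt B (w T q) (∑ p ∈ T, s q p) := by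
    intro T hT q hq
    rw [hw T hT q hq]
    have h := (hlt q (mem_sdiff.1 hq).1).add hB (Rt_valC (B := B) (∑ p ∈ T, s q p))
    rwa [zero_add] at h
  have hwc2 : ∀ T ⊆ S, ∀ q ∈ S \ T, Rt B (l * t q + ∑ p ∈ T, shC s q p) (∑ p ∈ T, s q p) := by
    intro T hT q hq
    have h := (hlt q (mem_sdiff.1 hq).1).add hB (Rt.sum hB T fun p _ => Rt_valC (B := B) (s q p))
    rwa [zero_add] at h
  have hsm : ∀ T ∈ J.powerset, Rt B ((-1) ^ T.card * (Dd T * (∏ q ∈ J \ T, w T q -
      ∏ q ∈ J \ T, (l * t q + ∑ p ∈ T, shC s q p))) / l ^ 2) 0 := by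
    intro T hT
    rw [mem_powerset] at hT
    have hsub : J \ T ⊆ S \ T := sdiff_subset_sdiff hJS (Subset.refl T)
    rcases T.eq_empty_or_nonempty with rfl | hT0
    · have e : ∏ q ∈ J \ ∅, w ∅ q = ∏ q ∈ J \ ∅, (l * t q + ∑ p ∈ (∅ : Finset ι), shC s q p) := by
        refine prod_congr rfl fun q hq => ?_
        rw [hw ∅ (empty_subset S) q (hsub hq), sum_empty, sum_empty, ZMod.val_zero, Nat.cast_zero]
      rw [e, sub_self, mul_zero, mul_zero, zero_div]
      exact Rt.zero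
    · refine Rt.of_lt ?_
      have h3 : B.valuation (∏ q ∈ J \ T, w T q -
          ∏ q ∈ J \ T, (l * t q + ∑ p ∈ T, shC s q p)) ≤ B.valuation 2 := by
        refine AlgC_prod (fun q hq => (hwc T (hT.trans hJS) q (hsub hq)).le)
          (fun q hq => (hwc2 T (hT.trans hJS) q (hsub hq)).le) fun q hq => ?_
        rw [hw T (hT.trans hJS) q (hsub hq)]
        have e : l * t q + (((∑ p ∈ T, s q p).val : ℕ) : ℂ) - (l * t q + ∑ p ∈ T, shC s q p) =
            (((∑ p ∈ T, s q p).val : ℕ) : ℂ) - ((∑ p ∈ T, (s q p).val : ℕ) : ℂ) := by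
          rw [Nat.cast_sum]
          simp only [shC]
          ring
        rw [e]
        refine AlgC_nat ?_
        rw [ZMod.natCast_zmod_val, Nat.cast_sum]
        exact sum_congr rfl fun p _ => (ZMod.natCast_zmod_val _).symm
      have hvl : 0 < B.valuation l := zero_lt_iff.2 ((Valuation.ne_zero_iff _).2 hl0)
      rw [map_div₀, map_pow, div_lt_one₀ (pow_pos hvl 2), map_mul, map_pow, Valuation.map_neg,
        map_one, one_pow, one_mul, map_mul]
      calc B.valuation (Dd T) * _ ≤ B.valuation l * B.valuation l ^ 2 :=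
            mul_le_mul' (hDl T (hT.trans hJS) hT0) (h3.trans h2)
        _ < 1 * B.valuation l ^ 2 := mul_lt_mul_of_pos_right hl (pow_pos hvl 2)
        _ = _ := one_mul _
  have h4 : Rt B (∑ T ∈ J.powerset, (-1) ^ T.card * (((ν T - Dd T) / l ^ 2) * ∏ q ∈ J \ T, w T q))
      (if J.card = 1 then ∑ q ∈ J, a q else 0) := by
    have h5 := (hr J hJS hJ).sub hB (Rt.sum hB J.powerset hsm)
    rw [sum_const_zero, sub_zero] at h5
    have e : (∑ T ∈ J.powerset, (-1) ^ T.card * (ν T * ∏ q ∈ J \ T, w T q)) / l ^ 2 -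
        ∑ T ∈ J.powerset, (-1) ^ T.card * (Dd T * (∏ q ∈ J \ T, w T q -
          ∏ q ∈ J \ T, (l * t q + ∑ p ∈ T, shC s q p))) / l ^ 2 =
        ∑ T ∈ J.powerset, (-1) ^ T.card * (((ν T - Dd T) / l ^ 2) * ∏ q ∈ J \ T, w T q) := by
      have e1 : ∑ T ∈ J.powerset, (-1) ^ T.card * (Dd T * (∏ q ∈ J \ T, w T q -
          ∏ q ∈ J \ T, (l * t q + ∑ p ∈ T, shC s q p))) / l ^ 2 =
          (∑ T ∈ J.powerset, (-1) ^ T.card * (Dd T * ∏ q ∈ J \ T, w T q)) / l ^ 2 := by
        rw [← sum_div]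
        congr 1
        rw [← sub_zero (∑ T ∈ J.powerset, (-1) ^ T.card * (Dd T * ∏ q ∈ J \ T, w T q)), ← hfor,
          ← sum_sub_distrib]
        refine sum_congr rfl fun T _ => ?_
        ring
      rw [e1, ← sub_div, ← sum_sub_distrib, sum_div]
      refine sum_congr rfl fun T _ => ?_
      field_simp
    rw [e] at h5
    exact h5
  have hm : (∅ : Finset ι) ∈ J.powerset := empty_mem_powerset J
  have hm2 : J ∈ J.powerset.erase ∅ := mem_erase.2 ⟨hJ.ne_empty, mem_powerset_self J⟩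
  rw [← add_sum_erase _ _ hm, h0, hD0, sub_self, zero_div, zero_mul, mul_zero, zero_add,
    ← add_sum_erase _ _ hm2, Finset.sdiff_self, prod_empty, mul_one] at h4
  have h5 : Rt B (∑ T ∈ (J.powerset.erase ∅).erase J, (-1) ^ T.card *
      (((ν T - Dd T) / l ^ 2) * ∏ q ∈ J \ T, w T q))
      (∑ T ∈ (J.powerset.erase ∅).erase J, C4 s a T * ∏ q ∈ J \ T, ∑ p ∈ T, s q p) := by
    refine Rt.sum hB _ fun T hT => ?_
    rw [mem_erase, mem_erase, mem_powerset] at hT
    have h6 := ih T (hT.2.2.ssubset_of_ne hT.1) (hT.2.2.trans hJS)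
      (nonempty_iff_ne_empty.2 hT.2.1)
    have h7 := (AlgC_sgn hB T.card).mul hB (h6.mul hB (Rt.prod hB (J \ T) fun q hq =>
      hwc T (hT.2.2.trans hJS) q (sdiff_subset_sdiff hJS (Subset.refl T) hq)))
    rw [one_mul] at h7
    rw [hDd]
    exact h7
  have h6 := (AlgC_sgn hB J.card).mul hB (h4.sub hB h5)
  have hsa : ∀ x y : ZMod 2, x - y = x + y := by decide
  rw [add_sub_cancel_right, ← mul_assoc, ← mul_pow, neg_one_mul, neg_neg, one_pow, one_mul,
    one_mul, hsa] at h6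
  rw [C4_rec s a hJ]
  rw [hDd] at h6
  exact h6

/-- **The value at first order**, `δ ≡ ± 1` modulo `lam³`. -/
theorem algC_one (hl0 : l ≠ 0) (h2 : B.valuation 2 ≤ B.valuation l ^ 2) {ν : Finset ι → ℂ}
    {w : Finset ι → ι → ℂ} (h0 : ν ∅ = 1)
    (hw : ∀ T ⊆ S, ∀ q ∈ S \ T, w T q = l * t q + (((∑ p ∈ T, s q p).val : ℕ) : ℂ))
    (hr : ∀ J ⊆ S, J.Nonempty →
      Rt B ((∑ T ∈ J.powerset, (-1) ^ T.card * (ν T * ∏ q ∈ J \ T, w T q)) / l ^ 2)
        (if J.card = 1 then ∑ q ∈ J, a q else 0)) (hS : S.Nonempty) :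
    Rt B (ν S / l) ((∑ q ∈ S, a q) * kap0 s S) := by
  have h1 := algC_F hB s hs a ht hl hl0 h2 h0 hw hr S (Subset.refl S) hS
  have h3 := Rt_DC_one hB s hs a ht hl hl0 (Subset.refl S) hS
  have e : ν S / l = l * ((ν S - (NM (shC s) (fun q => l * t q) S).det) / l ^ 2) +
      (NM (shC s) (fun q => l * t q) S).det / l := by
    field_simp
    ring
  have h4 : Rt B (l * ((ν S - (NM (shC s) (fun q => l * t q) S).det) / l ^ 2)) 0 := by
    refine Rt.of_lt ?_
    rw [map_mul]
    exact mul_lt_one_of_lt_of_le hl h1.le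
  have h5 := h4.add hB h3
  rw [zero_add] at h5
  rw [e]
  exact h5

/-- **The value at second order**, `δ ≡ ± 1` modulo `lam³`, `∑ a = 0`; `x` is the class of `(∑ t) / l`. -/
theorem algC_zero (hl0 : l ≠ 0) (h2 : B.valuation 2 ≤ B.valuation l ^ 2) {ν : Finset ι → ℂ}
    {w : Finset ι → ι → ℂ} (h0 : ν ∅ = 1)
    (hw : ∀ T ⊆ S, ∀ q ∈ S \ T, w T q = l * t q + (((∑ p ∈ T, s q p).val : ℕ) : ℂ))
    (hr : ∀ J ⊆ S, J.Nonempty →
      Rt B ((∑ T ∈ J.powerset, (-1) ^ T.card * (ν T * ∏ q ∈ J \ T, w T q)) / l ^ 2)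
        (if J.card = 1 then ∑ q ∈ J, a q else 0)) (hS : S.Nonempty) (hA : ∑ q ∈ S, a q = 0)
    {x : ZMod 2} (hx : Rt B ((∑ q ∈ S, t q) / l) x) :
    Rt B (ν S / l ^ 2) (kapX s a x S) := by
  have h1 := algC_F hB s hs a ht hl hl0 h2 h0 hw hr S (Subset.refl S) hS
  have h3 := Rt_DC_two hB s hs a ht hl hl0 hS hA hx
  rw [C4_kap0 s hs a hS, hA, zero_mul] at h1
  have h5 := h1.add hB h3
  rw [← add_div, sub_add_cancel, zero_add] at h5
  exact h5

end Second

end Rec

end Pool.Agent.Lib.MP_1a91b9_ntQ
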