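import Pool.Agent.Lib.MP_1a91b9_ntQ.A.Loc0
import Pool.Agent.Lib.MP_1a91b9_ntQ.A.PairR
import Pool.Agent.Lib.MP_1a91b9_ntQ.A.Wt4

/-!
# Quartic twists, part A, file Props: the right side of (ID) is small

Divided by `La4 k ∅ * lm ^ (|S| + ek k)`, `ek 0 = 2`, `ek 2 = 1`, `ek k = 0` for `k` odd, the right
side of the averaging identity is in the maximal ideal, for `S` nonempty.
-/

set_option autoImplicit false
set_option linter.unusedSectionVars false

namespace Pool.Agent.Lib.MP_1a91b9_ntQ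

open NumberField Pool.Agent.Lib.MP_1a91b9_nuT Pool.Agent.Lib.MP_1a91b9_nuT.S3
  Pool.Agent.Lib.MP_1a91b9_nuT.Ell

noncomputable section

/-- the extra exponent -/
def ek (k : ZMod 4) : ℕ := if k = 0 then 2 else if k = 2 then 1 else 0

theorem props_ek0 : ek 0 = 2 := by
  unfold ek
  rw [if_pos rfl]

theorem props_ek2 : ek 2 = 1 := by
  unfold ek
  have h : (2 : ZMod 4) ≠ 0 := by decide
  rw [if_neg h, if_pos rfl]

theorem props_ekO {k : ZMod 4} (h0 : k ≠ 0) (h2 : k ≠ 2) : ek k = 0 := by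
  unfold ek
  rw [if_neg h0, if_neg h2]

theorem e4_sq_odd {k : ZMod 4} (h0 : k ≠ 0) (h2 : k ≠ 2) : e4 k ^ 2 = -1 := by
  have h : ∀ k : ZMod 4, k ≠ 0 → k ≠ 2 → ((2 : ℕ) : ZMod 4) * k = 2 := by decide
  rw [e4_pow, h k h0 h2, e4_two]

theorem La4_empty_PO {k : ZMod 4} (h0 : k ≠ 0) (h2 : k ≠ 2) :
    La4 k ∅ = -(Om * PO (e4 k) (pe ^ 6)) := La4_empty_odd h0 h2

theorem Ph4_PO {k : ZMod 4} (h0 : k ≠ 0) (h2 : k ≠ 2) (z : ℂ) :
    Ph4 k z = -(Om * PO (e4 k) z) := Ph4_odd h0 h2 z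

variable {B : ValuationSubring ℂ}

theorem lm_pe4 : lm * pe ^ 4 = pe ^ 3 := by linear_combination pe ^ 3 * lm_mul_pe

theorem v_gG_pe4 : B.valuation (gG (pe ^ 4)) = 1 := by
  have h : B.valuation (gG (pe ^ 4)) ^ 2 = 1 := by
    rw [← map_pow, gG_sq two_pe4_notMem, lm_pe4, X_pe3, Valuation.map_neg, v_zt]
  exact (pow_eq_one_iff_of_nonneg zero_le (by norm_num)).1 h

theorem PO_base_ne {c : ℂ} (hc : c ^ 2 = -1) : PO c (pe ^ 6) ≠ 0 := by
  obtain ⟨B, hB⟩ := exists_B2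
  intro h
  have h1 := v_PO_base hB hc
  rw [h, map_zero] at h1
  exact (pow_pos (v_lm_pos (B := B)) 4).ne h1

theorem La4_empty_ne (k : ZMod 4) : La4 k ∅ ≠ 0 := by
  rcases f4_cases k with rfl | rfl | ⟨h0, h2⟩
  · rw [La4_empty_zero]
    exact E1_pe3_ne
  · rw [La4_empty_two, neg_ne_zero]
    exact mul_ne_zero Om_ne_zero (gg_ne two_pe4_notMem)
  · rw [La4_empty_PO h0 h2, neg_ne_zero]
    exact mul_ne_zero Om_ne_zero (PO_base_ne (e4_sq_odd h0 h2))

/-! ### the sum of the weights -/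

theorem v_prod_Nz' (S : Finset Pg) :
    B.valuation (∏ q ∈ S, ((Nz q.1 : ℂ) - 1)) ≤ B.valuation lm ^ (4 * S.card) := by
  rw [map_prod, pow_mul, ← Finset.prod_const]
  refine Finset.prod_le_prod' fun q _ => ?_
  obtain ⟨k, hk, -⟩ := nn_eq_Nz q.in4
  have e : (Nz q.1 : ℂ) - 1 = 4 * (k : ℂ) := by
    rw [hk]
    push_cast
    ring
  rw [e, map_mul, v_four]
  exact mul_le_of_le_one_right zero_le (v_nat k)

section
variable {S : Finset Pg} (hS : S.Nonempty) {ι : Type} [Fintype ι] {c : ι → 𝓞 K}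
  (hsum : ∑ i, w4 S (c i) = ∏ q ∈ S, ((Nz q.1 : ℂ) - 1))
include hS hsum

/-- the sum of the normalised weights -/
theorem v_sum_wt (hB : (2 : ℂ)⁻¹ ∉ B) : B.valuation (∑ i, wt4 S (c i)) ≤ B.valuation lm ^ 3 := by
  have h1 : ∑ i, wt4 S (c i) = (∏ q ∈ S, ((Nz q.1 : ℂ) - 1)) / lm ^ S.card := by
    rw [← hsum, Finset.sum_div]
    rfl
  have hl : 0 < B.valuation lm := v_lm_pos
  have h2 : B.valuation lm ^ S.card ≠ 0 := (pow_pos hl _).ne'
  rw [h1, map_div₀, map_pow]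
  have h3 : B.valuation (∏ q ∈ S, ((Nz q.1 : ℂ) - 1)) / B.valuation lm ^ S.card ≤
      B.valuation lm ^ (3 * S.card) := by
    rw [div_le_iff₀ (pow_pos hl _), ← pow_add]
    refine (v_prod_Nz' S).trans (le_of_eq ?_)
    congr 1
    ring
  refine h3.trans ?_
  have h4 : 1 ≤ S.card := hS.card_pos
  exact pow_le_pow_right_of_le_one' (v_lm_lt hB).le (by omega)

end

/-! ### the three cases -/

section
variable {k : ZMod 4} {S : Finset Pg} (hS : S.Nonempty) {ι : Type} [Fintype ι] {c : ι → 𝓞 K}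
  {sg : ι → ι} (hc : RepsG (lam ^ 3) (lam ^ 3 * DDq S) c) (hf : ∀ i, f4 k ∣ c i - 1)
  (hs2 : ∀ i, sg (sg i) = i) (hs1 : ∀ i, sg i ≠ i) (hd : ∀ i, DDq S ∣ c i + c (sg i))

include hc

theorem reps_cop (i : ι) : IsCoprime (c i) (DDq S) :=
  (hc.cop i).of_isCoprime_of_dvd_right (dvd_mul_left _ _)

include hf in
theorem props_sum : ∑ T ∈ S.powerset, (-1) ^ T.card * (La4 k T * ∏ q ∈ S \ T, (em q.1 - X4 k T q.1)) =
    lm ^ S.card * ∑ i, wt4 S (c i) * Ph4 k (zp k S (c i)) := by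
  rw [avg4 k S hc, Finset.mul_sum]
  refine Finset.sum_congr rfl fun i _ => ?_
  have hl : lm ^ S.card ≠ 0 := pow_ne_zero _ lm_ne
  rw [th4_congr k (hc.fx i) (hf i), th4_one, wt4]
  field_simp

include hS hs2 hs1 hd

theorem props_pair (hB : (2 : ℂ)⁻¹ ∉ B) {F : ι → ℂ} {g : B.ValueGroup} (hg : 0 < g)
    (hF : ∀ i, B.valuation lm * B.valuation (F i) < g)
    (hF2 : ∀ i, B.valuation (F i + F (sg i)) < g) :
    B.valuation (∑ i, wt4 S (c i) * F i) < g := by
  refine pair_lt hs2 hs1 hg (fun i => v_wt4 hB fun _ hq => not_dvd_of_cop hq (reps_cop hc i)) (fun i => ?_) hF hF2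
  exact v_wt4_sub hB (fun _ hq => not_dvd_of_cop hq (reps_cop hc i)) (hd i)

end

theorem lpow (hB : (2 : ℂ)⁻¹ ∉ B) {m n : ℕ} (h : m < n) : B.valuation lm ^ n < B.valuation lm ^ m :=
  v_lm_pow_lt hB h

/-- **The right side is small.** -/
theorem props (hB : (2 : ℂ)⁻¹ ∉ B) (k : ZMod 4) {S : Finset Pg} (hS : S.Nonempty) :
    B.valuation ((∑ T ∈ S.powerset, (-1) ^ T.card * (La4 k T * ∏ q ∈ S \ T, (em q.1 - X4 k T q.1))) /
      (La4 k ∅ * lm ^ (S.card + ek k))) < 1 := by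
  obtain ⟨ι, hι, c, sg, hc, hf, hs2, hs1, hd, hz0, hz2, hzo, hR, hsum⟩ := exists_pairs4 k hS
  have hl : (0 : B.ValueGroup) < B.valuation lm := v_lm_pos
  have hl1 : B.valuation lm < 1 := v_lm_lt hB
  have hlm := lm_ne
  have hod : ∀ i, Od (zp k S (c i)) := fun i => od_zp k hS (reps_cop hc i)
  have hw := v_sum_wt hS hsum hB
  rw [props_sum hc hf]
  have hpow : lm ^ S.card ≠ 0 := pow_ne_zero _ hlm
  rcases f4_cases k with rfl | rfl | ⟨h0, h2⟩
  · -- `k = 0`
    have hE : E1 (pe ^ 3) ≠ 0 := E1_pe3_ne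
    have h1 : B.valuation (∑ i, wt4 S (c i) * (E1 (zp 0 S (c i)) / E1 (pe ^ 3) - 1)) <
        B.valuation lm ^ 2 := by
      refine props_pair hS hc hs2 hs1 hd hB (pow_pos hl 2) (fun i => ?_) (fun i => ?_)
      · obtain ⟨R, n, hn, hR1, hR2, hR3⟩ := hR rfl i
        rw [hR3, pow_two]
        exact mul_lt_mul_of_pos_left (v_rho hB hR2 hn hR1) hl
      · exact v_rho_pair hB (hod i) (hz0 rfl i)
    have h3 : B.valuation (∑ i, wt4 S (c i) * (E1 (zp 0 S (c i)) / E1 (pe ^ 3) - 1) +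
        ∑ i, wt4 S (c i)) < B.valuation lm ^ 2 :=
      Valuation.map_add_lt _ h1 (hw.trans_lt (lpow hB (by norm_num)))
    have e : (lm ^ S.card * ∑ i, wt4 S (c i) * Ph4 0 (zp 0 S (c i))) /
        (La4 0 ∅ * lm ^ (S.card + ek 0)) =
        (∑ i, wt4 S (c i) * (E1 (zp 0 S (c i)) / E1 (pe ^ 3) - 1) + ∑ i, wt4 S (c i)) / lm ^ 2 := by
      have e1 : ∑ i, wt4 S (c i) * (E1 (zp 0 S (c i)) / E1 (pe ^ 3) - 1) + ∑ i, wt4 S (c i) =
          (∑ i, wt4 S (c i) * Ph4 0 (zp 0 S (c i))) / E1 (pe ^ 3) := by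
        rw [← Finset.sum_add_distrib, Finset.sum_div]
        refine Finset.sum_congr rfl fun i _ => ?_
        rw [Ph4_zero]
        ring
      rw [e1, La4_empty_zero, props_ek0, pow_add]
      field_simp
    rw [e, map_div₀, map_pow]
    exact (div_lt_one₀ (pow_pos hl 2)).2 h3
  · -- `k = 2`
    have hg : gG (pe ^ 4) ≠ 0 := div_ne_zero (gg_ne two_pe4_notMem) hlm
    have h1 : B.valuation (∑ i, wt4 S (c i) * (gG (zp 2 S (c i)) - 1)) < B.valuation lm := by
      refine props_pair hS hc hs2 hs1 hd hB hl (fun i => ?_) (fun i => ?_)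
      · exact mul_lt_of_lt_one_right hl (v_gG_sub hB (hod i))
      · exact v_gG_pair hB (hod i) (hz2 rfl i)
    have h3 : B.valuation (∑ i, wt4 S (c i) * (gG (zp 2 S (c i)) - 1) + ∑ i, wt4 S (c i)) <
        B.valuation lm := by
      refine Valuation.map_add_lt _ h1 (hw.trans_lt ?_)
      have := lpow (B := B) hB (show 1 < 3 by norm_num)
      rwa [pow_one] at this
    have e : (lm ^ S.card * ∑ i, wt4 S (c i) * Ph4 2 (zp 2 S (c i))) /
        (La4 2 ∅ * lm ^ (S.card + ek 2)) =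
        (∑ i, wt4 S (c i) * (gG (zp 2 S (c i)) - 1) + ∑ i, wt4 S (c i)) / (gG (pe ^ 4) * lm) := by
      have e1 : ∑ i, wt4 S (c i) * Ph4 2 (zp 2 S (c i)) =
          -(Om * lm) * (∑ i, wt4 S (c i) * (gG (zp 2 S (c i)) - 1) + ∑ i, wt4 S (c i)) := by
        rw [← Finset.sum_add_distrib, Finset.mul_sum]
        refine Finset.sum_congr rfl fun i _ => ?_
        rw [Ph4_two, gg_gG]
        ring
      have hO := Om_ne_zero
      rw [e1, La4_empty_two, props_ek2, pow_add, pow_one, gg_gG]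
      field_simp
    rw [e, map_div₀, map_mul, v_gG_pe4, one_mul]
    exact (div_lt_one₀ hl).2 h3
  · -- `k` odd
    have hcs := e4_sq_odd h0 h2
    have hP := PO_base_ne hcs
    have h1 : B.valuation (∑ i, wt4 S (c i) * PO (e4 k) (zp k S (c i))) < B.valuation lm ^ 4 := by
      refine props_pair hS hc hs2 hs1 hd hB (pow_pos hl 4) (fun i => ?_) (fun i => ?_)
      · have h4 := v_PO hB hcs (hod i)
        have h5 : (B.valuation lm * B.valuation (PO (e4 k) (zp k S (c i)))) ^ 2 <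
            (B.valuation lm ^ 4) ^ 2 := by
          rw [mul_pow, ← pow_mul]
          calc B.valuation lm ^ 2 * B.valuation (PO (e4 k) (zp k S (c i))) ^ 2 <
              B.valuation lm ^ 2 * B.valuation lm ^ 7 := mul_lt_mul_of_pos_left h4 (pow_pos hl 2)
            _ = B.valuation lm ^ 9 := by rw [← pow_add]
            _ < B.valuation lm ^ (4 * 2) := lpow hB (by norm_num)
        exact lt_of_pow_lt_pow_left₀ 2 zero_le h5
      · rcases hzo h0 h2 i with h | h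
        · have h4 := v_PO_pair hB hcs (hod i) h (e := 1) (by norm_num)
          rwa [one_mul] at h4
        · have h4 := v_PO_pair hB hcs (hod i) h (e := -1) (by norm_num)
          rw [PO_add_pe] at h4
          have e : PO (e4 k) (zp k S (c i)) + -1 * -PO (e4 k) (zp k S (c (sg i))) =
              PO (e4 k) (zp k S (c i)) + PO (e4 k) (zp k S (c (sg i))) := by ring
          rwa [e] at h4
    have e : (lm ^ S.card * ∑ i, wt4 S (c i) * Ph4 k (zp k S (c i))) /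
        (La4 k ∅ * lm ^ (S.card + ek k)) =
        (∑ i, wt4 S (c i) * PO (e4 k) (zp k S (c i))) / PO (e4 k) (pe ^ 6) := by
      have e1 : ∑ i, wt4 S (c i) * Ph4 k (zp k S (c i)) =
          -Om * ∑ i, wt4 S (c i) * PO (e4 k) (zp k S (c i)) := by
        rw [Finset.mul_sum]
        refine Finset.sum_congr rfl fun i _ => ?_
        rw [Ph4_PO h0 h2]
        ring
      have hO := Om_ne_zero
      rw [e1, La4_empty_PO h0 h2, props_ekO h0 h2, add_zero]
      field_simp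
    rw [e, map_div₀, v_PO_base hB hcs]
    exact (div_lt_one₀ (pow_pos hl 4)).2 h1

end

end Pool.Agent.Lib.MP_1a91b9_ntQ
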