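import Pool.Agent.Lib.MP_1a91b9_ntQ.A.AvgC
import Pool.Agent.Lib.MP_1a91b9_ntQ.A.AlgC
import Pool.Agent.Lib.MP_1a91b9_ntQ.A.Props

/-!
# Quartic twists, part A, file IndC: the residue classes of the normalised values for the family
`y² = x³ - δ² x`

`nuC k j T = LaC k j T / (2 ^ |T| * LaC k j ∅)`. Modulo a place above `2`, `nuC k j S` is the determinant of
`N_d(S)`, `d = k a + j b`, if `(k, j) ≠ (0, 0)`; for `k = j = 0` the class of `nuC 0 0 S / lm` is `κ_0(S)` if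
`∑ a = 1`, and the class of `nuC 0 0 S / lm ^ 2` is `κ(S)` with the corner `∑ b` if `∑ a = 0`.
-/

set_option autoImplicit false
set_option linter.unusedSectionVars false

namespace Pool.Agent.Lib.MP_1a91b9_ntQ

open NumberField Pool.Agent.Lib.MP_1a91b9_nuT Pool.Agent.Lib.MP_1a91b9_nuT.S3
  Pool.Agent.Lib.MP_1a91b9_nuT.Ell

noncomputable section

variable {B : ValuationSubring ℂ}

/-! ### The primes -/

private theorem IndC_zt (hB : (2 : ℂ)⁻¹ ∉ B) : Rt B zt 1 := by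
  refine Rt.one.congr ?_
  have e : zt - 1 = lm - 2 := by
    rw [lm]
    ring
  rw [e]
  exact (Valuation.map_sub _ _ _).trans_lt (max_lt (v_lm_lt hB) (two_lt hB))

private theorem IndC_int (hB : (2 : ℂ)⁻¹ ∉ B) (m : ℤ) : Rt B (m : ℂ) (m : ZMod 2) := by
  have h : Rt B ((m.toNat : ℕ) : ℂ) ((m.toNat : ℕ) : ZMod 2) := Rt.natCast hB _
  have h' : Rt B (((-m).toNat : ℕ) : ℂ) (((-m).toNat : ℕ) : ZMod 2) := Rt.natCast hB _
  have h2 := h.sub hB h'
  have e : (m : ℤ) = (m.toNat : ℤ) - ((-m).toNat : ℤ) := by omega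
  have e1 : (m : ℂ) = ((m.toNat : ℕ) : ℂ) - (((-m).toNat : ℕ) : ℂ) := by
    have := congrArg (Int.cast (R := ℂ)) e
    push_cast at this
    exact this
  have e2 : (m : ZMod 2) = ((m.toNat : ℕ) : ZMod 2) - (((-m).toNat : ℕ) : ZMod 2) := by
    have := congrArg (Int.cast (R := ZMod 2)) e
    push_cast at this
    exact this
  rw [e1, e2]
  exact h2

/-- `(q - 1) / 2 = lm * tC q` -/
def tC (q : Pg) : ℂ := zt * ((em q.1 - 1) / lm ^ 3)

theorem tC_form (q : Pg) : ∃ m n : ℤ, aa q.1 = (m : ZMod 2) + (n : ZMod 2) ∧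
    bb q.1 = (n : ZMod 2) ∧ tC q = zt * ((m : ℂ) + (n : ℂ) * zt) := by
  obtain ⟨m, n, h⟩ := exists_mn q.dvd
  refine ⟨m, n, ?_, ?_, ?_⟩
  · rw [h]
    exact aa_form m n
  · rw [h]
    exact bb_form m n
  · have h1 := congrArg em h
    rw [em_add, em_one, em_mul, em_pow, em_lam, em_add, em_mul, em_intCast, em_intCast,
      em_iO'] at h1
    rw [tC, h1, add_sub_cancel_left, mul_div_cancel_left₀ _ (pow_ne_zero 3 lm_ne)]

theorem tC_half (q : Pg) : (em q.1 - 1) / 2 = lm * tC q := by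
  have hl := lm_ne
  have hz := zt_ne0
  rw [tC]
  have e : lm * (zt * ((em q.1 - 1) / lm ^ 3)) = zt * (em q.1 - 1) / lm ^ 2 := by
    field_simp
  rw [e, lm_sq]
  field_simp

theorem Rt_tC (hB : (2 : ℂ)⁻¹ ∉ B) (q : Pg) : Rt B (tC q) (aa q.1) := by
  obtain ⟨m, n, h1, -, h3⟩ := tC_form q
  have h := (IndC_zt hB).mul hB ((IndC_int hB m).add hB ((IndC_int hB n).mul hB (IndC_zt hB)))
  rw [one_mul, mul_one] at h
  rw [h3, h1]
  exact h

/-- the corner -/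
theorem Rt_sum_tC (hB : (2 : ℂ)⁻¹ ∉ B) {S : Finset Pg} (hA : ∑ q ∈ S, aa q.1 = 0) :
    Rt B ((∑ q ∈ S, tC q) / lm) (∑ q ∈ S, bb q.1) := by
  choose m n h1 h2 h3 using tC_form
  have hl := lm_ne
  have e1 : ∑ q ∈ S, tC q = zt * (((∑ q ∈ S, m q : ℤ) : ℂ) + ((∑ q ∈ S, n q : ℤ) : ℂ) * zt) := by
    rw [Finset.sum_congr rfl fun q _ => h3 q, ← Finset.mul_sum, Finset.sum_add_distrib,
      ← Finset.sum_mul]
    push_cast
    rfl
  have e2 : ((∑ q ∈ S, m q - ∑ q ∈ S, n q : ℤ) : ZMod 2) = 0 := by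
    rw [← hA, Finset.sum_congr rfl fun q _ => h1 q, Finset.sum_add_distrib]
    push_cast
    rw [sub_eq_add_neg, ZMod.neg_eq_self_mod_two]
  obtain ⟨c, hc⟩ := (ZMod.intCast_zmod_eq_zero_iff_dvd _ 2).1 e2
  have e3 : ((∑ q ∈ S, m q : ℤ) : ℂ) = ((∑ q ∈ S, n q : ℤ) : ℂ) + 2 * (c : ℂ) := by
    have h := congrArg (Int.cast (R := ℂ)) hc
    push_cast at h ⊢
    linear_combination h
  have e4 : (∑ q ∈ S, tC q) / lm = zt * (((∑ q ∈ S, n q : ℤ) : ℂ) + (1 - zt) * (c : ℂ)) := by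
    rw [e1, e3, div_eq_iff hl]
    have h4 := cj_lm
    have h5 : lm = 1 + zt := rfl
    linear_combination (-(zt * (c : ℂ))) * h4 - zt * ((∑ q ∈ S, n q : ℤ) : ℂ) * h5
  have h5 : Rt B (1 - zt) 0 := by
    have h := Rt.one.sub hB (IndC_zt hB)
    rwa [sub_self] at h
  have h6 := (IndC_zt hB).mul hB ((IndC_int hB (∑ q ∈ S, n q)).add hB (h5.mul hB (IndC_int hB c)))
  rw [one_mul, zero_mul, add_zero] at h6
  have e5 : ∑ q ∈ S, bb q.1 = ((∑ q ∈ S, n q : ℤ) : ZMod 2) := by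
    rw [Finset.sum_congr rfl fun q _ => h2 q]
    push_cast
    rfl
  rw [e4, e5]
  exact h6

theorem e2_val (b : ZMod 2) : (1 - e2 b) / 2 = ((b.val : ℕ) : ℂ) := by
  rcases zmod2_cases b with rfl | rfl
  · rw [e2_zero, ZMod.val_zero, sub_self, zero_div, Nat.cast_zero]
  · rw [e2_one, ZMod.val_one]
    norm_num

/-- the factor of the averaging identity -/
theorem facC (k j : ZMod 2) {T : Finset Pg} {q : Pg} (hq : q ∉ T) :
    (em q.1 - XC k j T q.1) / 2 =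
      lm * tC q + (((k * aa q.1 + j * bb q.1 + ∑ p ∈ T, s4 q p).val : ℕ) : ℂ) := by
  have e : ∑ p ∈ T, s4 p q = ∑ p ∈ T, s4 q p := by
    refine Finset.sum_congr rfl fun p hp => s4_symm ?_
    rintro rfl
    exact hq hp
  rw [XC_q k j hq, e, ← tC_half, ← e2_val, ← add_div]
  congr 1
  ring

theorem Rt_facC (hB : (2 : ℂ)⁻¹ ∉ B) (k j : ZMod 2) {T : Finset Pg} {q : Pg} (hq : q ∉ T) :
    Rt B ((em q.1 - XC k j T q.1) / 2) (k * aa q.1 + j * bb q.1 + ∑ p ∈ T, s4 q p) := by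
  rw [facC k j hq]
  have h1 : Rt B (lm * tC q) 0 := by
    refine Rt.of_lt ?_
    rw [map_mul]
    exact mul_lt_one_of_lt_of_le (v_lm_lt hB) (Rt_tC hB q).le
  have h := h1.add hB (Rt_valC (B := B) (k * aa q.1 + j * bb q.1 + ∑ p ∈ T, s4 q p))
  rwa [zero_add] at h

/-! ### The values of `PhC` -/

theorem v_X_zt (hB : (2 : ℂ)⁻¹ ∉ B) {w : ℂ} (hw : Od w) :
    B.valuation (X w + zt) < B.valuation lm := by
  have e : X w + zt = (X w - 1 - lm) + 2 * lm := by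
    have h5 : lm = 1 + zt := rfl
    linear_combination -h5
  rw [e]
  refine Valuation.map_add_lt _ (v_X_al hB hw) ?_
  rw [map_mul]
  exact mul_lt_of_lt_one_left v_lm_pos (two_lt hB)

private theorem IndC_ratio (hB : (2 : ℂ)⁻¹ ∉ B) {P P0 c a b : ℂ} (hc : c ≠ 0) (h1 : P ^ 2 = c * a)
    (h0 : P0 ^ 2 = c * b) (hb : b ≠ 0) (hab : B.valuation (a - b) < B.valuation b) :
    P0 ≠ 0 ∧ Rt B (P / P0) 1 := by
  have hP0 : P0 ≠ 0 := by
    intro h
    rw [h, zero_pow two_ne_zero, eq_comm, mul_eq_zero] at h0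
    exact h0.elim hc hb
  refine ⟨hP0, ?_⟩
  have e : (P / P0) ^ 2 - 1 = (a - b) / b := by
    rw [div_pow, h1, h0]
    field_simp
  have hvb : 0 < B.valuation b := zero_lt_iff.2 ((Valuation.ne_zero_iff _).2 hb)
  have h2 : B.valuation ((P / P0) ^ 2 - 1) < 1 := by
    rw [e, map_div₀, div_lt_one₀ hvb]
    exact hab
  have h3 : B.valuation (P / P0) ≤ 1 := by
    have h4 : B.valuation ((P / P0) ^ 2) ≤ 1 := by
      have e2 : (P / P0) ^ 2 = ((P / P0) ^ 2 - 1) + 1 := by ring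
      rw [e2]
      exact (Valuation.map_add _ _ _).trans (max_le h2.le (map_one _).le)
    rw [map_pow] at h4
    exact (pow_le_one_iff_of_nonneg zero_le two_ne_zero).1 h4
  have h5 := v_sub_one_of_sq hB h3 h2
  unfold Rt
  rw [ZMod.val_one, Nat.cast_one]
  exact h5

theorem inv_fC (k j : ZMod 2) : (em (fC k j))⁻¹ = pe ^ (3 + nC k j) := by
  rw [fC, em_pow, em_lam, pe, inv_pow]

theorem two_pe5_notMem : 2 * pe ^ 5 ∉ PP.lattice := by
  intro h
  apply two_pe4_notMem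
  have h1 := lm_mem_mul h
  have e : lm * (2 * pe ^ 5) = 2 * pe ^ 4 := by linear_combination 2 * pe ^ 4 * lm_mul_pe
  rwa [e] at h1

private theorem IndC_lm4 : lm * pe ^ 4 = pe ^ 3 := by linear_combination pe ^ 3 * lm_mul_pe

private theorem IndC_lm5 : lm ^ 2 * pe ^ 5 = pe ^ 3 := by
  have h := lm_mul_pe
  linear_combination (pe ^ 3 * (lm * pe) + pe ^ 3) * h

private theorem IndC_lm5' : lm * pe ^ 5 = pe ^ 4 := by linear_combination pe ^ 4 * lm_mul_pe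

private theorem IndC_mem (n : ℕ) : lm ^ n * pe ^ n ∈ PP.lattice := by
  rw [← mul_pow, lm_mul_pe, one_pow]
  exact one_mem

private theorem IndC_b (k : ZMod 2) : -zt - e2 k ≠ 0 := by
  intro h
  have h1 : zt = -e2 k := by linear_combination -h
  have h2 := zt_sq
  have h3 := e2_mul_self k
  rw [h1] at h2
  have h4 : (2 : ℂ) = 0 := by linear_combination h2 - h3
  exact two_ne_zero h4

private theorem IndC_sq1 (k : ZMod 2) :
    PhC k 1 (pe ^ 5) ^ 2 = -4 * Om ^ 2 * (-zt - e2 k) := by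
  have h1 : 2 * (lm * pe ^ 5) ∉ PP.lattice := by
    rw [IndC_lm5']
    exact two_pe4_notMem
  have h2 := PhC_sq_1 k two_pe5_notMem h1
  rw [IndC_lm5, X_pe3] at h2
  exact h2

/-- the value for the empty set is not `0` -/
theorem LaC_empty_ne (k j : ZMod 2) : LaC k j ∅ ≠ 0 := by
  have hO := Om_ne_zero
  rw [LaC_empty, inv_fC]
  rcases kj_cases k j with ⟨rfl, rfl⟩ | ⟨rfl, rfl⟩ | rfl
  · rw [nC_00, PhC_00]
    exact E1_pe3_ne
  · rw [nC_10]
    intro h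
    have h1 := PhC_sq_10 two_pe4_notMem
    rw [h, IndC_lm4, X_pe3, zero_pow two_ne_zero] at h1
    exact (mul_ne_zero (pow_ne_zero 2 hO) (mul_ne_zero (mul_ne_zero two_ne_zero zt_ne0)
      (neg_ne_zero.2 zt_ne0))) h1.symm
  · rw [nC_1]
    intro h
    have h1 := IndC_sq1 k
    rw [h, zero_pow two_ne_zero] at h1
    exact (mul_ne_zero (mul_ne_zero (by norm_num) (pow_ne_zero 2 hO)) (IndC_b k)) h1.symm

/-- **The values of `PhC`**, `(k, j) ≠ (0, 0)`. -/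
theorem Rt_PhC (hB : (2 : ℂ)⁻¹ ∉ B) {k j : ZMod 2} (h : k = 1 ∨ j = 1) {R : ℂ} (hR : Od R) :
    Rt B (PhC k j ((em (fC k j))⁻¹ + R) / LaC k j ∅) 1 := by
  have hO := Om_ne_zero
  rw [LaC_empty, inv_fC]
  rcases kj_cases k j with ⟨rfl, rfl⟩ | ⟨rfl, rfl⟩ | rfl
  · exact absurd h (by decide)
  · rw [nC_10]
    have hz : Od (pe ^ (3 + 1) + R) := by
      rw [add_comm]
      exact hR.add (n := 4) (IndC_mem 4)
    refine (IndC_ratio hB (c := Om ^ 2 * (2 * zt)) (a := X (lm * (pe ^ (3 + 1) + R)))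
      (b := -zt) ?_ ?_ ?_ ?_ ?_).2
    · exact mul_ne_zero (pow_ne_zero 2 hO) (mul_ne_zero two_ne_zero zt_ne0)
    · rw [PhC_sq_10 hz.two]
      ring
    · rw [PhC_sq_10 two_pe4_notMem, IndC_lm4, X_pe3]
      ring
    · exact neg_ne_zero.2 zt_ne0
    · rw [sub_neg_eq_add, Valuation.map_neg, v_zt]
      exact (v_X_zt hB hz.mul_lm).trans (v_lm_lt hB)
  · rw [nC_1]
    have hz : Od (pe ^ (3 + 2) + R) := by
      rw [add_comm]
      exact hR.add (n := 5) (IndC_mem 5)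
    have hb : B.valuation (-zt - e2 k) = B.valuation lm := by
      rcases zmod2_cases k with rfl | rfl
      · rw [e2_zero]
        have e : -zt - 1 = -lm := by
          rw [lm]
          ring
        rw [e, Valuation.map_neg]
      · rw [e2_one]
        have e : -zt - -1 = 1 - zt := by ring
        rw [e, v_cj]
    refine (IndC_ratio hB (c := -4 * Om ^ 2) (a := X (lm ^ 2 * (pe ^ (3 + 2) + R)) - e2 k)
      (b := -zt - e2 k) ?_ ?_ ?_ ?_ ?_).2
    · exact mul_ne_zero (by norm_num) (pow_ne_zero 2 hO)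
    · exact PhC_sq_1 k hz.two hz.mul_lm.two
    · exact IndC_sq1 k
    · exact IndC_b k
    · rw [hb]
      have e : X (lm ^ 2 * (pe ^ (3 + 2) + R)) - e2 k - (-zt - e2 k) =
          X (lm ^ 2 * (pe ^ (3 + 2) + R)) + zt := by ring
      rw [e]
      exact v_X_zt hB (hz.pow 2)

/-! ### The right side -/

/-- the number of the classes -/
theorem card_C4 {S : Finset Pg} {n : ℕ} (h : 2 ^ S.card * n = ∏ q ∈ S, (Nz q.1 - 1)) :
    ∃ a : Pg → ℕ, (∀ q, ((a q : ℕ) : ZMod 2) = aa q.1) ∧ n = 2 ^ S.card * ∏ q ∈ S, a q := by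
  have hq : ∀ q : Pg, ∃ a : ℕ, Nz q.1 = 1 + 4 * a ∧ nn q.1 = (a : ZMod 4) :=
    fun q => nn_eq_Nz q.in4
  choose a h1 h2 using hq
  refine ⟨a, fun q => ?_, ?_⟩
  · rw [aa, h2, map_natCast]
  · have h3 : ∏ q ∈ S, (Nz q.1 - 1) = 2 ^ S.card * (2 ^ S.card * ∏ q ∈ S, a q) := by
      rw [← mul_assoc, ← mul_pow, ← Finset.prod_const, ← Finset.prod_mul_distrib]
      refine Finset.prod_congr rfl fun q _ => ?_
      rw [h1]
      omega
    rw [h3] at h
    exact Nat.eq_of_mul_eq_mul_left (by positivity) h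

/-- the normalised value -/
def nuC (k j : ZMod 2) (T : Finset Pg) : ℂ := LaC k j T / (2 ^ T.card * LaC k j ∅)

theorem nuC_empty (k j : ZMod 2) : nuC k j ∅ = 1 := by
  rw [nuC, Finset.card_empty, pow_zero, one_mul, div_self (LaC_empty_ne k j)]

theorem nuC_sum (k j : ZMod 2) (S : Finset Pg) :
    ∑ T ∈ S.powerset, (-1) ^ T.card * (nuC k j T * ∏ q ∈ S \ T, ((em q.1 - XC k j T q.1) / 2)) =
      (∑ T ∈ S.powerset, (-1) ^ T.card * (LaC k j T * ∏ q ∈ S \ T, (em q.1 - XC k j T q.1))) /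
        (2 ^ S.card * LaC k j ∅) := by
  rw [Finset.sum_div]
  refine Finset.sum_congr rfl fun T hT => ?_
  have h0 := LaC_empty_ne k j
  have hc : S.card = T.card + (S \ T).card := by
    rw [Finset.card_sdiff_of_subset (Finset.mem_powerset.1 hT)]
    have := Finset.card_le_card (Finset.mem_powerset.1 hT)
    omega
  rw [Finset.prod_div_distrib, Finset.prod_const, nuC, hc, pow_add (2 : ℂ) T.card]
  have h1 : (2 : ℂ) ^ T.card ≠ 0 := pow_ne_zero _ two_ne_zero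
  have h2 : (2 : ℂ) ^ (S \ T).card ≠ 0 := pow_ne_zero _ two_ne_zero
  field_simp

private theorem IndC_e2 (hB : (2 : ℂ)⁻¹ ∉ B) (b : ZMod 2) : Rt B (e2 b) 1 := by
  rcases zmod2_cases b with rfl | rfl
  · rw [e2_zero]
    exact Rt.one
  · rw [e2_one]
    exact Rt.one.neg hB

/-- **The right side**, `(k, j) ≠ (0, 0)`. -/
theorem rhsC (hB : (2 : ℂ)⁻¹ ∉ B) {k j : ZMod 2} (h : k = 1 ∨ j = 1) {S : Finset Pg}
    (hS : S.Nonempty) :
    Rt B (∑ T ∈ S.powerset, (-1) ^ T.card *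
      (nuC k j T * ∏ q ∈ S \ T, ((em q.1 - XC k j T q.1) / 2))) 0 := by
  obtain ⟨ι, hι, y, sg, -, hod, -, -, -, -, hcard, hsum⟩ := avgC k j hS
  obtain ⟨a, -, ha⟩ := card_C4 hcard
  have h0 := LaC_empty_ne k j
  have h2 : (2 : ℂ) ^ S.card ≠ 0 := pow_ne_zero _ two_ne_zero
  rw [nuC_sum, hsum, mul_assoc, mul_div_assoc, mul_div_mul_left _ _ h2, Finset.sum_div]
  have h1 := Rt.sum hB (Finset.univ : Finset ι)
    (f := fun i => PhC k j ((em (fC k j))⁻¹ + em (y i) / em (DDq S)) / LaC k j ∅)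
    (g := fun _ => 1) fun i _ => Rt_PhC hB h (hod i)
  rw [Finset.sum_const, Finset.card_univ, ha, nsmul_eq_mul, mul_one, Nat.cast_mul, Nat.cast_pow] at h1
  have h4 : ((2 : ℕ) : ZMod 2) = 0 := rfl
  rw [h4, zero_pow hS.card_pos.ne', zero_mul] at h1
  have h3 := (IndC_e2 hB (k * ∑ q ∈ S, aa q.1 + j * ∑ q ∈ S, bb q.1)).mul hB h1
  rw [one_mul] at h3
  exact h3

/-- **The right side**, `k = j = 0`. -/
theorem rhsC_zero (hB : (2 : ℂ)⁻¹ ∉ B) {S : Finset Pg} (hS : S.Nonempty) :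
    Rt B ((∑ T ∈ S.powerset, (-1) ^ T.card *
      (nuC 0 0 T * ∏ q ∈ S \ T, ((em q.1 - XC 0 0 T q.1) / 2))) / lm ^ 2)
      (if S.card = 1 then ∑ q ∈ S, aa q.1 else 0) := by
  obtain ⟨ι, hι, y, sg, -, hod, hodd, hs2, hs1, hsg, hcard, hsum⟩ := avgC 0 0 hS
  obtain ⟨a, ha1, ha⟩ := card_C4 hcard
  have h0 := LaC_empty_ne 0 0
  have hE := E1_pe3_ne
  have hl := lm_ne
  have hl2 : lm ^ 2 ≠ 0 := pow_ne_zero 2 hl
  have hf : (em (fC 0 0))⁻¹ = pe ^ 3 := by rw [inv_fC, nC_00]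
  rw [nuC_sum, hsum, LaC_empty, hf, PhC_00, zero_mul, zero_mul, add_zero, e2_zero, one_mul]
  obtain ⟨F, hF⟩ : ∃ F : ι → ℂ, F = fun i => E1 (pe ^ 3 + em (y i) / em (DDq S)) / E1 (pe ^ 3) - 1 :=
    ⟨_, rfl⟩
  have e : (2 ^ S.card * ∑ i, PhC 0 0 (pe ^ 3 + em (y i) / em (DDq S))) /
      (2 ^ S.card * E1 (pe ^ 3)) / lm ^ 2 = (Fintype.card ι : ℂ) / lm ^ 2 + (∑ i, F i) / lm ^ 2 := by
    have h1 : (2 : ℂ) ^ S.card ≠ 0 := pow_ne_zero _ two_ne_zero
    rw [mul_div_mul_left _ _ h1, ← add_div]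
    congr 1
    rw [hF, Finset.sum_sub_distrib, Finset.sum_const, Finset.card_univ, nsmul_eq_mul, mul_one,
      add_sub_cancel, Finset.sum_div]
    exact Finset.sum_congr rfl fun i _ => by rw [PhC_00]
  rw [e]
  have h1 : Rt B ((∑ i, F i) / lm ^ 2) 0 := by
    refine Rt.of_lt ?_
    have h2 : B.valuation (∑ i, F i) < B.valuation lm ^ 2 := by
      refine v_sum_inv B hs2 hs1 F (pow_pos v_lm_pos 2) fun i => ?_
      rw [hF]
      refine v_rho_pair hB (hod i).pe3_add ?_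
      have e1 : pe ^ 3 + em (y i) / em (DDq S) + (pe ^ 3 + em (y (sg i)) / em (DDq S)) - pe =
          (2 * pe ^ 3 - pe) + (em (y (sg i)) / em (DDq S) + em (y i) / em (DDq S)) := by ring
      rw [e1]
      exact add_mem two_pe3 (hsg i)
    rw [map_div₀, map_pow, div_lt_one₀ (pow_pos v_lm_pos 2)]
    exact h2
  have h2 : Rt B ((Fintype.card ι : ℂ) / lm ^ 2) (if S.card = 1 then ∑ q ∈ S, aa q.1 else 0) := by
    have h3 : Rt B (2 / lm ^ 2) 1 := by
      have e1 : 2 / lm ^ 2 = -zt := by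
        rw [div_eq_iff hl2, lm_sq]
        linear_combination 2 * zt_sq
      rw [e1]
      exact (IndC_zt hB).neg hB
    obtain ⟨n, hn⟩ : ∃ n, S.card = n + 1 := ⟨S.card - 1, by have := hS.card_pos; omega⟩
    have e1 : (Fintype.card ι : ℂ) / lm ^ 2 = (2 / lm ^ 2) * (2 ^ n * ∏ q ∈ S, (a q : ℂ)) := by
      rw [ha, hn]
      push_cast
      ring
    have h4 : Rt B (∏ q ∈ S, (a q : ℂ)) (∏ q ∈ S, aa q.1) :=
      Rt.prod hB S fun q _ => by
        rw [← ha1 q]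
        exact Rt.natCast hB _
    rw [e1]
    split_ifs with h5
    · have hn0 : n = 0 := by omega
      subst hn0
      obtain ⟨q, rfl⟩ := Finset.card_eq_one.1 h5
      rw [Finset.prod_singleton, Finset.prod_singleton] at h4
      rw [Finset.prod_singleton, Finset.sum_singleton, pow_zero, one_mul]
      have h6 := h3.mul hB h4
      rwa [one_mul] at h6
    · have h6 : Rt B ((2 : ℂ) ^ n) 0 := by
        have h7 := (Rt.of_lt (two_lt hB)).pow hB n
        have h8 : n ≠ 0 := by omega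
        rwa [zero_pow h8] at h7
      have h7 := h3.mul hB (h6.mul hB h4)
      rwa [zero_mul, mul_zero] at h7
  have h3 := h2.add hB h1
  rwa [add_zero] at h3

/-! ### The residue classes -/

/-- **The class of the normalised value**, `(k, j) ≠ (0, 0)`. -/
theorem Rt_nuC (hB : (2 : ℂ)⁻¹ ∉ B) {k j : ZMod 2} (h : k = 1 ∨ j = 1) (S : Finset Pg) :
    Rt B (nuC k j S) (N4 s4 (fun q => k * aa q.1 + j * bb q.1) S).det := by
  refine algC_gen hB s4 (fun q : Pg => k * aa q.1 + j * bb q.1) (ν := nuC k j)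
    (w := fun T q => (em q.1 - XC k j T q.1) / 2) (S := S) ?_ ?_ ?_ S (Finset.Subset.refl S)
  · rw [nuC_empty]
    exact Rt.one
  · intro T _ q hq
    exact Rt_facC hB k j (Finset.mem_sdiff.1 hq).2
  · intro J _ hJ
    exact rhsC hB h hJ

private theorem IndC_w {T : Finset Pg} {q : Pg} (hq : q ∉ T) :
    (em q.1 - XC 0 0 T q.1) / 2 = lm * tC q + (((∑ p ∈ T, s4 q p).val : ℕ) : ℂ) := by
  rw [facC 0 0 hq, zero_mul, zero_mul, zero_add, zero_add]

/-- **The class of the normalised value**, `k = j = 0`, `∑ a = 1`. -/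
theorem Rt_nuC_one (hB : (2 : ℂ)⁻¹ ∉ B) {S : Finset Pg} (hA : ∑ q ∈ S, aa q.1 = 1) :
    Rt B (nuC 0 0 S / lm) (kap0 s4 S) := by
  have hS : S.Nonempty := by
    rw [Finset.nonempty_iff_ne_empty]
    rintro rfl
    rw [Finset.sum_empty] at hA
    exact zero_ne_one hA
  have h := algC_one hB s4 (fun _ _ h => s4_symm h) (fun q : Pg => aa q.1) (t := tC) (l := lm)
    (S := S) (fun q _ => Rt_tC hB q) (v_lm_lt hB) lm_ne v_lm_sq.ge (ν := nuC 0 0)
    (w := fun T q => (em q.1 - XC 0 0 T q.1) / 2) (nuC_empty 0 0)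
    (fun T _ q hq => IndC_w (Finset.mem_sdiff.1 hq).2) (fun J _ hJ => rhsC_zero hB hJ) hS
  rwa [hA, one_mul] at h

/-- **The class of the normalised value**, `k = j = 0`, `∑ a = 0`. -/
theorem Rt_nuC_zero (hB : (2 : ℂ)⁻¹ ∉ B) {S : Finset Pg} (hS : S.Nonempty)
    (hA : ∑ q ∈ S, aa q.1 = 0) :
    Rt B (nuC 0 0 S / lm ^ 2) (kapX s4 (fun q => aa q.1) (∑ q ∈ S, bb q.1) S) :=
  algC_zero hB s4 (fun _ _ h => s4_symm h) (fun q : Pg => aa q.1) (t := tC) (l := lm)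
    (S := S) (fun q _ => Rt_tC hB q) (v_lm_lt hB) lm_ne v_lm_sq.ge (ν := nuC 0 0)
    (w := fun T q => (em q.1 - XC 0 0 T q.1) / 2) (nuC_empty 0 0)
    (fun _ _ _ hq => IndC_w (Finset.mem_sdiff.1 hq).2) (fun _ _ hJ => rhsC_zero hB hJ) hS hA
    (Rt_sum_tC hB hA)

/-! ### The values are not zero -/

private theorem IndC_ne {k j : ZMod 2} {S : Finset Pg} (h : nuC k j S ≠ 0) : LC k j S 1 ≠ 0 := by
  intro h2
  apply h
  rw [nuC, LaC, h2, mul_zero, zero_div]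

/-- `(k, j) ≠ (0, 0)` -/
theorem LC_ne_I {k j : ZMod 2} (h : k = 1 ∨ j = 1) {S : Finset Pg}
    (hd : (N4 s4 (fun q => k * aa q.1 + j * bb q.1) S).det ≠ 0) : LC k j S 1 ≠ 0 := by
  obtain ⟨B, hB⟩ := exists_B2
  exact IndC_ne ((Rt_nuC hB h S).ne_zero hd)

/-- `k = j = 0`, `∑ a = 1` -/
theorem LC_ne_II {S : Finset Pg} (hA : ∑ q ∈ S, aa q.1 = 1)
    (hker : ∀ v : S → ZMod 2, (N4 s4 0 S).mulVec v = 0 → ∃ c : ZMod 2, ∀ i, v i = c) :
    LC 0 0 S 1 ≠ 0 := by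
  obtain ⟨B, hB⟩ := exists_B2
  have hS : S.Nonempty := by
    rw [Finset.nonempty_iff_ne_empty]
    rintro rfl
    rw [Finset.sum_empty] at hA
    exact zero_ne_one hA
  refine IndC_ne fun h => ?_
  have h1 := (Rt_nuC_one hB hA).ne_zero (kap0_ne s4 (fun _ _ h => s4_symm h) hS hker)
  rw [h, zero_div] at h1
  exact h1 rfl

/-- `k = j = 0`, `∑ a = 0` -/
theorem LC_ne_III {S : Finset Pg} (hS : S.Nonempty) (hA : ∑ q ∈ S, aa q.1 = 0)
    (hker : ∀ v : S ⊕ Unit → ZMod 2,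
      (B4 s4 0 (fun q => aa q.1) (∑ q ∈ S, bb q.1) S).mulVec v = 0 →
      ∃ c : ZMod 2, (∀ i : S, v (Sum.inl i) = c) ∧ v (Sum.inr ()) = 0) :
    LC 0 0 S 1 ≠ 0 := by
  obtain ⟨B, hB⟩ := exists_B2
  refine IndC_ne fun h => ?_
  have h1 := (Rt_nuC_zero hB hS hA).ne_zero
    (kapX_ne s4 (fun _ _ h => s4_symm h) (fun q : Pg => aa q.1) _ hS hA hker)
  rw [h, zero_div] at h1
  exact h1 rfl

end

end Pool.Agent.Lib.MP_1a91b9_ntQ
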