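import Pool.Agent.Lib.MP_1a91b9_ntQ.A.LocL
import Pool.Agent.Lib.MP_1a91b9_nt.LocDep
import Pool.Agent.Lib.MP_1a91b9_ntQ.R.Qd4
import Pool.Agent.Lib.MP_1a91b9_ntQ.A.Sys4

/-!
# Quartic twists, part A, file LocLG: the place above `2` for `y² = x³ - D x`, `D = -1` modulo `lam ^ 3`

For `D = - DDq S` the reduction above `2` is good if and only if `nn (DDq S) = 1`, and then the Euler factor is
`(1 - p x) (1 - conj p x)`, `p = conj (em lam) * e4 (∑ c4 q lam)`.
-/

set_option autoImplicit false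

namespace Pool.Agent.Lib.MP_1a91b9_ntQ

open NumberField IsDedekindDomain WithZero Polynomial Pool.Agent.Lib.MP_1a91b9_nt
open Pool.Agent.Lib.MP_1a91b9_nuX.GM (GoodW IntW)
open Pool.Agent.Lib.MP_1a91b9_ntQ.C (nuL nuL_lam nuL_two nuL_res nuL_le_pow pv pv_self pv_one pv_lt
  pv_le_pow exists_pv)

noncomputable section

section
variable {L : Type*} [Field L] {ν : Valuation L ℤᵐ⁰} {D : L} {C : WeierstrassCurve.VariableChange L}

/-- the shape of the change of variables at the place above `2` -/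
theorem locLG_shape (h2 : ν 2 = exp (-2)) (hres : ∀ x : L, ν x = 1 → ν (x - 1) < 1) (hD : ν D = 1)
    (h : GoodW ν (C • (⟨0, 0, 0, -D, 0⟩ : WeierstrassCurve L))) :
    ν (C.r - 1) ≤ exp (-2) ∧ ν (C.s - 1) ≤ exp (-1) ∧ ν C.t ≤ exp (-1) ∧
      ν (-D + 3 * C.r ^ 2 - 2 * C.s * C.t) ≤ exp (-4) ∧
      ν (C.r * -D + C.r ^ 3 - C.t ^ 2) ≤ exp (-6) := by
  have hlt : (exp (-2) : ℤᵐ⁰) < 1 := by
    rw [← exp_zero]
    exact exp_lt_exp.2 (by norm_num)
  have h2lt : ν (2 : L) < 1 := h2 ▸ hlt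
  have h4 : ν (4 : L) = exp (-4) := by
    have e : (4 : L) = 2 * 2 := by norm_num
    rw [e, map_mul, h2, ← exp_add]
    norm_num
  have h3 : ν (3 : L) = 1 := by
    have e : (3 : L) = 1 + 2 := by norm_num
    rw [e]
    exact ν.map_one_add_of_lt h2lt
  have hdisc := locL_disc h
  have hu : ν (C.u : L) = exp (-1) := by
    have e : ν (64 * D ^ 3) = exp (-12) := by
      have e1 : (64 : L) = 2 ^ 6 := by norm_num
      rw [e1, map_mul, map_pow, map_pow, h2, hD, one_pow, mul_one, ← exp_nsmul]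
      norm_num
    rw [e] at hdisc
    obtain ⟨k, hk⟩ : ∃ k : ℤ, ν (C.u : L) = exp k :=
      ⟨log (ν (C.u : L)), (exp_log ((Valuation.ne_zero_iff ν).2 C.u.ne_zero)).symm⟩
    rw [hk, ← exp_nsmul] at hdisc
    have h1 := exp_injective hdisc
    rw [nsmul_eq_mul] at h1
    rw [hk]
    congr 1
    push_cast at h1
    linarith
  obtain ⟨i2, i3, i4, i6⟩ := locL_int h
  have hpow : ∀ n : ℕ, ν (C.u : L) ^ n = exp (-(n : ℤ)) := by
    intro n
    rw [hu, ← exp_nsmul]
    congr 1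
    rw [nsmul_eq_mul]
    ring
  rw [hpow] at i2 i3 i4 i6
  have hle : ∀ {n m : ℤ}, n ≤ m → (exp n : ℤᵐ⁰) ≤ exp m := fun h => exp_le_exp.2 h
  -- `t`
  have ht : ν C.t ≤ exp (-1) := by
    rw [map_mul, h2] at i3
    have e : (exp (-((3 : ℕ) : ℤ)) : ℤᵐ⁰) = exp (-2) * exp (-1) := by
      rw [← exp_add]
      norm_num
    rw [e] at i3
    exact le_of_mul_le_mul_left i3 (by simp)
  have ht1 : ν C.t ≤ 1 := ht.trans (by rw [← exp_zero]; exact hle (by norm_num))
  -- `r`
  have hr : ν C.r ≤ 1 := by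
    by_contra hc
    push Not at hc
    have hr0 : 0 < ν C.r := lt_trans zero_lt_one hc
    have h5 : ν (C.r ^ 3) ≤ max (exp (-((6 : ℕ) : ℤ))) (max (ν C.r) 1) := by
      have e : C.r ^ 3 = (C.r * -D + C.r ^ 3 - C.t ^ 2) + (C.r * D + C.t ^ 2) := by ring
      rw [e]
      refine (ν.map_add _ _).trans (max_le_max i6 ((ν.map_add _ _).trans (max_le_max ?_ ?_)))
      · rw [map_mul, hD, mul_one]
      · rw [map_pow]
        exact pow_le_one₀ zero_le ht1
    have h6 : ν C.r < ν (C.r ^ 3) := by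
      rw [map_pow]
      calc ν C.r = ν C.r ^ 1 := (pow_one _).symm
        _ < ν C.r ^ 3 := pow_lt_pow_right₀ hc (by norm_num)
    have h7 : (exp (-((6 : ℕ) : ℤ)) : ℤᵐ⁰) < ν (C.r ^ 3) := by
      refine lt_trans ?_ (lt_trans hc h6)
      rw [← exp_zero]
      exact exp_lt_exp.2 (by norm_num)
    exact absurd h5 (not_le.2 (max_lt h7 (max_lt h6 (lt_trans hc h6))))
  -- `s`
  have hs : ν C.s ≤ 1 := by
    have h5 : ν (C.s ^ 2) ≤ 1 := by
      have e : C.s ^ 2 = 3 * C.r - (3 * C.r - C.s ^ 2) := by ring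
      rw [e]
      refine ν.map_sub_le ?_ (i2.trans ?_)
      · rw [map_mul, h3, one_mul]
        exact hr
      · rw [← exp_zero]
        exact hle (by norm_num)
    rw [map_pow] at h5
    by_contra hc
    push Not at hc
    exact absurd h5 (not_le.2 (one_lt_pow₀ hc (by norm_num)))
  -- `D - 3 r ^ 2`
  have hDr : ν (D - 3 * C.r ^ 2) ≤ exp (-3) := by
    have e : D - 3 * C.r ^ 2 = -(-D + 3 * C.r ^ 2 - 2 * C.s * C.t) - 2 * (C.s * C.t) := by ring
    rw [e]
    refine ν.map_sub_le ?_ ?_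
    · rw [Valuation.map_neg]
      exact i4.trans (hle (by norm_num))
    · rw [map_mul, map_mul, h2]
      have e1 : (exp (-3) : ℤᵐ⁰) = exp (-2) * exp (-1) := by
        rw [← exp_add]
        norm_num
      rw [e1]
      refine mul_le_mul_right ?_ _
      calc ν C.s * ν C.t ≤ 1 * exp (-1) := mul_le_mul' hs ht
        _ = exp (-1) := one_mul _
  -- `r` is a unit
  have hr1 : ν C.r = 1 := by
    refine le_antisymm hr (not_lt.1 fun hc => ?_)
    have h5 : ν (3 * C.r ^ 2) < 1 := by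
      rw [map_mul, h3, one_mul, map_pow]
      exact pow_lt_one₀ zero_le hc (by norm_num)
    have h6 : ν D < 1 := by
      have e : D = (D - 3 * C.r ^ 2) + 3 * C.r ^ 2 := by ring
      rw [e]
      refine ν.map_add_lt (lt_of_le_of_lt hDr ?_) h5
      rw [← exp_zero]
      exact exp_lt_exp.2 (by norm_num)
    rw [hD] at h6
    exact lt_irrefl _ h6
  have hs1 : ν C.s = 1 := by
    refine le_antisymm hs (not_lt.1 fun hc => ?_)
    have h5 : ν (3 * C.r) < 1 := by
      have e : 3 * C.r = (3 * C.r - C.s ^ 2) + C.s ^ 2 := by ring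
      rw [e]
      refine ν.map_add_lt (lt_of_le_of_lt i2 ?_) ?_
      · rw [← exp_zero]
        exact exp_lt_exp.2 (by norm_num)
      · rw [map_pow]
        exact pow_lt_one₀ zero_le hc (by norm_num)
    rw [map_mul, h3, one_mul, hr1] at h5
    exact lt_irrefl _ h5
  have hm1 : ∀ {x : L}, ν x < 1 → ν x ≤ exp (-1) := by
    intro x hx
    rw [← exp_zero] at hx
    exact Pool.Agent.Lib.MP_1a91b9_ntQ.C.lt_le hx
  have hss : ν (C.s ^ 2 - 1) ≤ exp (-2) := by
    have e : C.s ^ 2 - 1 = (C.s - 1) * ((C.s - 1) + 2) := by ring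
    have h5 := hm1 (hres _ hs1)
    have e1 : (exp (-2) : ℤᵐ⁰) = exp (-1) * exp (-1) := by
      rw [← exp_add]
      norm_num
    rw [e, map_mul, e1]
    refine mul_le_mul' h5 (ν.map_add_le h5 ?_)
    rw [h2]
    exact hle (by norm_num)
  have hrr : ν (C.r - 1) ≤ exp (-2) := by
    have e : C.r - 1 = (3 * C.r - C.s ^ 2) + (C.s ^ 2 - 1) - 2 * C.r := by ring
    rw [e]
    refine ν.map_sub_le (ν.map_add_le (i2.trans (hle (by norm_num))) hss) ?_
    rw [map_mul, hr1, mul_one, h2]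
  refine ⟨hrr, hm1 (hres _ hs1), ht, ?_, ?_⟩
  · exact i4
  · exact i6

/-- `exp n ≤ exp m` -/
theorem ex_le {n m : ℤ} (h : n ≤ m) : (exp n : ℤᵐ⁰) ≤ exp m := exp_le_exp.2 h

theorem ex_mul {a b : ℤᵐ⁰} {n m k : ℤ} (ha : a ≤ exp n) (hb : b ≤ exp m) (h : n + m ≤ k) :
    a * b ≤ exp k := by
  refine (mul_le_mul' ha hb).trans ?_
  rw [← exp_add]
  exact ex_le h

theorem ex_one {n : ℤ} (h : n ≤ 0) : (exp n : ℤᵐ⁰) ≤ 1 := by
  rw [← exp_zero]
  exact ex_le h

/-- `D = -1` modulo `4` -/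
theorem locLG_A (h2 : ν 2 = exp (-2)) (hres : ∀ x : L, ν x = 1 → ν (x - 1) < 1)
    (hD : ν (D + 1) ≤ exp (-4)) :
    ¬ GoodW ν (C • (⟨0, 0, 0, -D, 0⟩ : WeierstrassCurve L)) := by
  intro h
  have hD1 : ν D = 1 := by
    have e : D = -(1 + -(D + 1)) := by ring
    rw [e, Valuation.map_neg]
    refine ν.map_one_add_of_lt ?_
    rw [Valuation.map_neg]
    refine lt_of_le_of_lt hD ?_
    rw [← exp_zero]
    exact exp_lt_exp.2 (by norm_num)
  obtain ⟨hr, hs, ht, i4, i6⟩ := locLG_shape h2 hres hD1 h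
  have h3 : ν (3 : L) ≤ 1 := by
    have e : (3 : L) = 1 + 2 := by norm_num
    rw [e]
    refine ν.map_add_le ν.map_one.le ?_
    rw [h2]
    exact ex_one (by norm_num)
  have h4 : ν (4 : L) ≤ exp (-4) := by
    have e : (4 : L) = 2 * 2 := by norm_num
    rw [e, map_mul, h2, ← exp_add]
    norm_num
  have hr1 : ν C.r ≤ 1 := by
    have e : C.r = (C.r - 1) + 1 := by ring
    rw [e]
    exact ν.map_add_le (hr.trans (ex_one (by norm_num))) ν.map_one.le
  have hrr : ν (C.r ^ 2 - 1) ≤ exp (-4) := by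
    have e : C.r ^ 2 - 1 = (C.r - 1) * ((C.r - 1) + 2) := by ring
    rw [e, map_mul]
    exact ex_mul hr (ν.map_add_le hr h2.le) (by norm_num)
  have hst : ν (2 * (C.s * C.t)) ≤ exp (-4) := by
    have e : 2 * (C.s * C.t) = 3 * (C.r ^ 2 - 1) + 4 - (D + 1) -
        (-D + 3 * C.r ^ 2 - 2 * C.s * C.t) := by ring
    rw [e]
    refine ν.map_sub_le (ν.map_sub_le (ν.map_add_le ?_ h4) hD) i4
    rw [map_mul]
    exact (mul_le_mul' h3 hrr).trans (by rw [one_mul])
  have hst' : ν (C.s * C.t) ≤ exp (-2) := by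
    rw [map_mul, h2] at hst
    have e1 : (exp (-4) : ℤᵐ⁰) = exp (-2) * exp (-2) := by
      rw [← exp_add]
      norm_num
    rw [e1] at hst
    exact le_of_mul_le_mul_left hst (by simp)
  have ht2 : ν C.t ≤ exp (-2) := by
    have e : C.t = C.s * C.t - (C.s - 1) * C.t := by ring
    rw [e]
    refine ν.map_sub_le hst' ?_
    rw [map_mul]
    exact ex_mul hs ht (by norm_num)
  have h6 : ν (2 : L) ≤ exp (-4) := by
    have e : (2 : L) = (C.r * -D + C.r ^ 3 - C.t ^ 2) + C.t ^ 2 - C.r * (C.r ^ 2 - 1) +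
        C.r * (D + 1) - (C.r - 1) * 2 := by ring
    rw [e]
    refine ν.map_sub_le (ν.map_add_le (ν.map_sub_le (ν.map_add_le (i6.trans (ex_le (by norm_num)))
      ?_) ?_) ?_) ?_
    · rw [map_pow, pow_two]
      exact ex_mul ht2 ht2 (by norm_num)
    · rw [map_mul]
      exact (mul_le_mul' hr1 hrr).trans (by rw [one_mul])
    · rw [map_mul]
      exact (mul_le_mul' hr1 hD).trans (by rw [one_mul])
    · rw [map_mul]
      exact ex_mul hr h2.le (by norm_num)
  rw [h2, exp_le_exp] at h6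
  norm_num at h6

/-- `D = 1 + 2 i + 4 d` -/
theorem locLG_B {I d : L} (h2 : ν 2 = exp (-2)) (hres : ∀ x : L, ν x = 1 → ν (x - 1) < 1)
    (hI : I ^ 2 = -1) (hD : D = 1 + 2 * I + 4 * d) (hd : ν d ≤ 1)
    (h : GoodW ν (C • (⟨0, 0, 0, -D, 0⟩ : WeierstrassCurve L))) :
    ν d ≤ exp (-2) ∨ ν (d - I) ≤ exp (-2) := by
  have h11 : ν (1 : L) ≤ 1 := ν.map_one.le
  have h20 : (2 : L) ≠ 0 := by
    intro h0
    rw [h0, map_zero] at h2
    exact exp_ne_zero h2.symm
  have hI1 : ν I = 1 := by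
    have e : ν I ^ 2 = 1 := by rw [← map_pow, hI, Valuation.map_neg, map_one]
    exact (pow_eq_one_iff_of_nonneg zero_le two_ne_zero).1 e
  have h4 : ν (4 : L) = exp (-4) := by
    have e : (4 : L) = 2 * 2 := by norm_num
    rw [e, map_mul, h2, ← exp_add]
    norm_num
  have h3 : ν (3 : L) ≤ 1 := by
    have e : (3 : L) = 1 + 2 := by norm_num
    rw [e]
    refine ν.map_add_le h11 ?_
    rw [h2]
    exact ex_one (by norm_num)
  have hD1 : ν D = 1 := by
    have e : D = 1 + (2 * I + 4 * d) := by rw [hD]; ring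
    rw [e]
    refine ν.map_one_add_of_lt ?_
    refine lt_of_le_of_lt (b := exp (-2)) (ν.map_add_le ?_ ?_) ?_
    · rw [map_mul, h2, hI1, mul_one]
    · rw [map_mul, h4]
      exact (mul_le_mul' le_rfl hd).trans (by rw [mul_one]; exact ex_le (by norm_num))
    · rw [← exp_zero]
      exact exp_lt_exp.2 (by norm_num)
  have hII : ν (1 - I) = exp (-1) := by
    have e : (1 - I) ^ 2 = 2 * -I := by linear_combination hI
    have h5 : ν (1 - I) ^ 2 = exp (-2) := by
      rw [← map_pow, e, map_mul, Valuation.map_neg, hI1, mul_one, h2]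
    have h0 : ν (1 - I) ≠ 0 := by
      intro h0
      rw [h0, zero_pow two_ne_zero] at h5
      exact exp_ne_zero h5.symm
    obtain ⟨k, hk⟩ : ∃ k : ℤ, ν (1 - I) = exp k := ⟨log (ν (1 - I)), (exp_log h0).symm⟩
    rw [hk, ← exp_nsmul] at h5
    have h6 := exp_injective h5
    rw [nsmul_eq_mul] at h6
    rw [hk]
    congr 1
    push_cast at h6
    linarith
  obtain ⟨hr, hs, ht, i4, i6⟩ := locLG_shape h2 hres hD1 h
  have hrr : ν (C.r ^ 2 - 1) ≤ exp (-4) := by
    have e : C.r ^ 2 - 1 = (C.r - 1) * ((C.r - 1) + 2) := by ring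
    rw [e, map_mul]
    exact ex_mul hr (ν.map_add_le hr h2.le) (by norm_num)
  have hhalf : ∀ {x : L}, ν (2 * x) ≤ exp (-4) → ν x ≤ exp (-2) := by
    intro x hx
    rw [map_mul, h2] at hx
    have e1 : (exp (-4) : ℤᵐ⁰) = exp (-2) * exp (-2) := by
      rw [← exp_add]
      norm_num
    rw [e1] at hx
    exact le_of_mul_le_mul_left hx (by simp)
  have hint : ∀ {x : L}, ν x ≤ exp (-2) → ν (x / 2) ≤ 1 := by
    intro x hx
    have e : x = 2 * (x / 2) := by field_simp
    rw [e, map_mul, h2] at hx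
    have e1 : (exp (-2) : ℤᵐ⁰) = exp (-2) * 1 := by rw [mul_one]
    rw [e1] at hx
    exact le_of_mul_le_mul_left hx (by simp)
  have hst : ν (2 * (C.s * C.t - (1 - I))) ≤ exp (-4) := by
    have e : 2 * (C.s * C.t - (1 - I)) = 3 * (C.r ^ 2 - 1) - 4 * d -
        (-D + 3 * C.r ^ 2 - 2 * C.s * C.t) := by rw [hD]; ring
    rw [e]
    refine ν.map_sub_le (ν.map_sub_le ?_ ?_) i4
    · rw [map_mul]
      exact (mul_le_mul' h3 hrr).trans (by rw [one_mul])
    · rw [map_mul, h4]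
      exact (mul_le_mul' le_rfl hd).trans (by rw [mul_one])
  have ht2 : ν (C.t - (1 - I)) ≤ exp (-2) := by
    have e : C.t - (1 - I) = (C.s * C.t - (1 - I)) - (C.s - 1) * C.t := by ring
    rw [e]
    refine ν.map_sub_le (hhalf hst) ?_
    rw [map_mul]
    exact ex_mul hs ht (by norm_num)
  obtain ⟨ρ, hρ⟩ : ∃ ρ, ρ = (C.r - 1) / 2 := ⟨_, rfl⟩
  obtain ⟨τ, hτ⟩ : ∃ τ, τ = (C.t - (1 - I)) / 2 := ⟨_, rfl⟩
  have hρ1 : ν ρ ≤ 1 := hρ ▸ hint hr
  have hτ1 : ν τ ≤ 1 := hτ ▸ hint ht2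
  have er : C.r = 1 + 2 * ρ := by rw [hρ]; field_simp; ring
  have et : C.t = 1 - I + 2 * τ := by rw [hτ]; field_simp; ring
  have hmul : ∀ {x y : L}, ν x ≤ 1 → ν y ≤ 1 → ν (x * y) ≤ 1 := fun hx hy => by
    rw [map_mul]
    exact (mul_le_mul' hx hy).trans (by rw [mul_one])
  have hmain : ν (4 * (d - (1 - I) * (ρ + τ) - (ρ + τ) ^ 2)) ≤ exp (-6) := by
    have e : 4 * (d - (1 - I) * (ρ + τ) - (ρ + τ) ^ 2) = -(C.r * -D + C.r ^ 3 - C.t ^ 2) +
        4 * (2 * (ρ * (ρ + ρ * ρ - d) - (1 - I) * τ - τ * τ - ρ * τ)) := by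
      rw [er, et, hD]
      linear_combination (-1 : L) * hI
    rw [e]
    refine ν.map_add_le ?_ ?_
    · rw [Valuation.map_neg]
      exact i6
    · rw [map_mul, map_mul, h4, h2]
      have h7 : ν (ρ * (ρ + ρ * ρ - d) - (1 - I) * τ - τ * τ - ρ * τ) ≤ 1 :=
        ν.map_sub_le (ν.map_sub_le (ν.map_sub_le (hmul hρ1 (ν.map_sub_le (ν.map_add_le hρ1
          (hmul hρ1 hρ1)) hd)) (hmul (by rw [hII]; exact ex_one (by norm_num)) hτ1))
          (hmul hτ1 hτ1)) (hmul hρ1 hτ1)
      calc exp (-4) * (exp (-2) * ν (ρ * (ρ + ρ * ρ - d) - (1 - I) * τ - τ * τ - ρ * τ))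
          ≤ exp (-4) * (exp (-2) * 1) := mul_le_mul' le_rfl (mul_le_mul' le_rfl h7)
        _ = exp (-6) := by
          rw [mul_one, ← exp_add]
          norm_num
  have hmain2 : ν (d - (1 - I) * (ρ + τ) - (ρ + τ) ^ 2) ≤ exp (-2) := by
    rw [map_mul, h4] at hmain
    have e1 : (exp (-6) : ℤᵐ⁰) = exp (-4) * exp (-2) := by
      rw [← exp_add]
      norm_num
    rw [e1] at hmain
    exact le_of_mul_le_mul_left hmain (by simp)
  obtain ⟨σ, hσ⟩ : ∃ σ, σ = ρ + τ := ⟨_, rfl⟩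
  rw [← hσ] at hmain2
  have hσ1 : ν σ ≤ 1 := hσ ▸ ν.map_add_le hρ1 hτ1
  have hm1 : ∀ {x : L}, ν x < 1 → ν x ≤ exp (-1) := by
    intro x hx
    rw [← exp_zero] at hx
    exact Pool.Agent.Lib.MP_1a91b9_ntQ.C.lt_le hx
  rcases lt_or_eq_of_le hσ1 with h7 | h7
  · left
    have h8 := hm1 h7
    have e : d = (d - (1 - I) * σ - σ ^ 2) + (1 - I) * σ + σ * σ := by ring
    rw [e]
    refine ν.map_add_le (ν.map_add_le hmain2 ?_) ?_
    · rw [map_mul]
      exact ex_mul hII.le h8 (by norm_num)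
    · rw [map_mul]
      exact ex_mul h8 h8 (by norm_num)
  · right
    have h8 := hm1 (hres _ h7)
    have e : d - I = (d - (1 - I) * σ - σ ^ 2) + (1 - I) * (σ - 1) + (σ - 1) * (σ - 1) +
        2 * (σ - 1 + (1 - I)) := by ring
    rw [e]
    refine ν.map_add_le (ν.map_add_le (ν.map_add_le hmain2 ?_) ?_) ?_
    · rw [map_mul]
      exact ex_mul hII.le h8 (by norm_num)
    · rw [map_mul]
      exact ex_mul h8 h8 (by norm_num)
    · rw [map_mul, h2]
      have h9 : ν (σ - 1 + (1 - I)) ≤ 1 :=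
        (ν.map_add_le h8 hII.le).trans (ex_one (by norm_num))
      exact (mul_le_mul' le_rfl h9).trans (by rw [mul_one])

end

/-! ### Bad reduction -/

theorem coe_intL (n : ℤ) : (((n : 𝓞 K4)) : K4) = (n : K4) := map_intCast (algebraMap (𝓞 K4) K4) n

/-- **bad reduction** above `2` for `D = -1` modulo `lam ^ 3` -/
theorem locLG_bad {D : 𝓞 K4} (h : lam ^ 3 ∣ D + 1) (h8 : (cp D).1 % 8 ≠ 1) :
    locPoly (WD4 D) (pv lam lam_prime) = 1 := by
  refine Pool.Agent.Lib.MP_1a91b9_nuX.GL.locPoly_bad _ _ (WD4_j D _) ?_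
  rintro ⟨C, hC⟩
  rw [lam3_dvd_iff, cp_add, cp_one] at h
  obtain ⟨A, hA⟩ : ∃ A, A = (cp D).1 := ⟨_, rfl⟩
  obtain ⟨B, hB⟩ : ∃ B, B = (cp D).2 := ⟨_, rfl⟩
  have eD := eq_cp D
  simp only [Prod.fst_add, Prod.snd_add] at h
  rw [← hA, ← hB] at h eD
  rw [← hA] at h8
  obtain ⟨h1, h2⟩ := h
  have hA4 : A % 4 = 3 ∨ A % 8 = 5 := by omega
  rcases hA4 with hA4 | hA4
  · refine locLG_A (ν := (pv lam lam_prime).valuation K4) (D := (D : K4)) nuL_two nuL_res ?_ hC
    have e : (D : K4) + 1 = ((D + 1 : 𝓞 K4) : K4) := by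
      change _ = algebraMap (𝓞 K4) K4 (D + 1)
      rw [map_add, map_one]
    rw [e]
    refine (pv_le_pow lam_prime 4).2 ?_
    rw [lam4_dvd_iff, cp_add, cp_one]
    simp only [Prod.fst_add, Prod.snd_add, ← hA, ← hB]
    constructor <;> omega
  · obtain ⟨a, ha⟩ : ∃ a, A = 1 + 4 * a := ⟨(A - 1) / 4, by omega⟩
    obtain ⟨b, hb⟩ : ∃ b, B = 2 + 4 * b := ⟨(B - 2) / 4, by omega⟩
    have ha2 : a % 2 = 1 := by omega
    set d : 𝓞 K4 := (a : 𝓞 K4) + (b : 𝓞 K4) * iO with hd
    have hDd : (D : K4) = 1 + 2 * (iO : K4) + 4 * (d : K4) := by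
      have e : D = 1 + 2 * iO + 4 * d := by
        rw [eD, hd, ha, hb]
        push_cast
        ring
      rw [e]
      change algebraMap (𝓞 K4) K4 _ = 1 + 2 * algebraMap (𝓞 K4) K4 iO + 4 * algebraMap (𝓞 K4) K4 d
      simp only [map_add, map_mul, map_one, map_ofNat]
    have hI : (iO : K4) ^ 2 = -1 := by
      change (algebraMap (𝓞 K4) K4 iO) ^ 2 = -1
      rw [← map_pow, iO_sq, map_neg, map_one]
    rcases locLG_B (ν := (pv lam lam_prime).valuation K4) (D := (D : K4)) (d := (d : K4)) nuL_two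
      nuL_res hI hDd ((pv lam lam_prime).valuation_le_one d) hC with h5 | h5
    · have h6 := (pv_le_pow lam_prime 2).1 h5
      rw [lam2_dvd_iff, hd, cp_coords] at h6
      omega
    · have e : (d : K4) - (iO : K4) = ((d - iO : 𝓞 K4) : K4) := by
        change _ = algebraMap (𝓞 K4) K4 (d - iO)
        rw [map_sub]
      rw [e] at h5
      have h6 := (pv_le_pow lam_prime 2).1 h5
      rw [lam2_dvd_iff, cp_sub, cp_iO, hd, cp_coords] at h6
      simp only [Prod.fst_sub, Prod.snd_sub] at h6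
      omega

/-! ### Good reduction -/

private theorem locLG_card {k : Type*} [Field k] [Finite k] (hk : Nat.card k = 2) (e : k) :
    (e = 0 → Nat.card (WeierstrassCurve.toAffine (⟨0, 1, 1, 0, e⟩ : WeierstrassCurve k)).Point = 5) ∧
    (e ≠ 0 → Nat.card (WeierstrassCurve.toAffine (⟨0, 1, 1, 0, e⟩ : WeierstrassCurve k)).Point = 1) := by
  classical
  have := Fintype.ofFinite k
  have hk' : Fintype.card k = 2 := by rw [← Nat.card_eq_fintype_card, hk]
  have h2 : (2 : k) = 0 := by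
    have h := FiniteField.cast_card_eq_zero k
    rw [hk'] at h
    exact_mod_cast h
  have hx : ∀ x : k, x ^ 2 = x := by
    intro x
    have h := FiniteField.pow_card x
    rwa [hk'] at h
  set W : WeierstrassCurve k := ⟨0, 1, 1, 0, e⟩ with hW
  have hD : W.Δ ≠ 0 := by
    have e1 : W.Δ = 1 := by
      simp only [hW, WeierstrassCurve.Δ, WeierstrassCurve.b₂, WeierstrassCurve.b₄,
        WeierstrassCurve.b₆, WeierstrassCurve.b₈]
      linear_combination (-22 - 140 * e - 216 * e ^ 2) * h2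
    rw [e1]
    exact one_ne_zero
  have hE : W.IsElliptic := ⟨isUnit_iff_ne_zero.mpr hD⟩
  have hns : ∀ p : k × k, W.toAffine.Nonsingular p.1 p.2 ↔ e = 0 := by
    intro p
    rw [← WeierstrassCurve.Affine.equation_iff_nonsingular, WeierstrassCurve.Affine.equation_iff]
    simp only [hW, WeierstrassCurve.toAffine]
    have h1 := hx p.1
    have h3 := hx p.2
    constructor
    · intro h
      linear_combination -h + (-(p.1 + 2)) * h1 + h3 + (-p.1 + p.2) * h2
    · intro h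
      linear_combination -h + (-(p.1 + 2)) * h1 + h3 + (-p.1 + p.2) * h2
  rw [Nat.card_congr (pointEquivOption _), Finite.card_option]
  constructor
  · intro he
    have e2 : Nat.card {p : k × k // W.toAffine.Nonsingular p.1 p.2} = 4 := by
      have e3 : Nat.card (k × k) = 4 := by rw [Nat.card_prod, hk]
      rw [← e3]
      refine Nat.card_congr ⟨fun p => p.1, fun x => ⟨x, (hns _).2 he⟩, fun _ => rfl, fun _ => rfl⟩
    rw [e2]
  · intro he
    have e2 : IsEmpty {p : k × k // W.toAffine.Nonsingular p.1 p.2} :=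
      ⟨fun p => he ((hns _).1 p.2)⟩
    rw [Nat.card_of_isEmpty]

private theorem locLG_nrm : nrm (pv lam lam_prime) = 2 := by
  have hv : (pv lam lam_prime).asIdeal = Ideal.span {lam} := rfl
  rw [nrm_eq, hv, Ideal.absNorm_span_singleton]
  exact Nz_lam

/-- **good reduction** above `2` -/
theorem locLG_good (D e τ : 𝓞 K4)
    (hD : D = 1 + 2 * iO + 4 * (2 * iO * e - (1 - iO) * τ - τ ^ 2)) (x : ℂ) :
    (lam ∣ e → aeval x (locPoly (WD4 D) (pv lam lam_prime)) = 1 + 2 * x + 2 * x ^ 2) ∧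
    (¬ lam ∣ e → aeval x (locPoly (WD4 D) (pv lam lam_prime)) = 1 - 2 * x + 2 * x ^ 2) := by
  set v := pv lam lam_prime with hvdef
  have hv : v.asIdeal = Ideal.span {lam} := rfl
  have hn : nrm v = 2 := locLG_nrm
  have hmem : ∀ y : 𝓞 K4, y ∈ v.asIdeal ↔ lam ∣ y := fun y => by
    rw [hv, Ideal.mem_span_singleton]
  set l : K4 := algebraMap (𝓞 K4) K4 lam with hl
  set I : K4 := algebraMap (𝓞 K4) K4 iO with hI
  set E : K4 := algebraMap (𝓞 K4) K4 e with hE
  set T : K4 := algebraMap (𝓞 K4) K4 τ with hT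
  have hI2 : I ^ 2 = -1 := by
    rw [hI, ← map_pow, iO_sq, map_neg, map_one]
  have hlI : l = 1 + I := by
    rw [hl, hI, ← map_one (algebraMap (𝓞 K4) K4), ← map_add]
    rfl
  have hl0 : l ≠ 0 := by
    intro h0
    have h1 : (algebraMap (𝓞 K4) K4) lam = 0 := h0
    rw [map_eq_zero_iff _ (FaithfulSMul.algebraMap_injective (𝓞 K4) K4)] at h1
    exact lam_ne_zero h1
  have hDK : algebraMap (𝓞 K4) K4 D = 1 + 2 * I + 4 * (2 * I * E - (1 - I) * T - T ^ 2) := by
    rw [hD]
    simp only [map_add, map_sub, map_mul, map_pow, map_one, map_ofNat, ← hI, ← hE, ← hT]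
  let C : WeierstrassCurve.VariableChange K4 := ⟨Units.mk0 l hl0, 1, 1, 1 - I + 2 * T⟩
  let W₀ : WeierstrassCurve (𝓞 K4) :=
    ⟨-iO * lam, -iO, -(1 + lam * τ), 2 * iO * e + iO * τ - τ ^ 2, e⟩
  have hpow : ∀ n : ℕ, l⁻¹ ^ n * l ^ n = 1 := by
    intro n
    rw [← mul_pow, inv_mul_cancel₀ hl0, one_pow]
  have key : ∀ (n : ℕ) (y z : K4), y = l ^ n * z → l⁻¹ ^ n * y = z := by
    intro n y z hyz
    rw [hyz, ← mul_assoc, hpow, one_mul]
  have hC : C • WD4 D = W₀.map (algebraMap (𝓞 K4) K4) := by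
    rw [WeierstrassCurve.variableChange_def]
    ext
    · simp only [C, W₀, WD4, WeierstrassCurve.map, map_mul, map_neg, ← hl, ← hI,
        Units.val_inv_eq_inv_val, Units.val_mk0]
      rw [← pow_one l⁻¹]
      refine key 1 _ _ ?_
      rw [hlI]
      linear_combination (I + 2) * hI2
    · simp only [C, W₀, WD4, WeierstrassCurve.map, map_mul, map_neg, ← hl, ← hI,
        Units.val_inv_eq_inv_val, Units.val_mk0]
      refine key 2 _ _ ?_
      rw [hlI]
      linear_combination (I + 2) * hI2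
    · simp only [C, W₀, WD4, WeierstrassCurve.map, map_mul, map_neg, map_add, map_one, ← hl, ← hI,
        ← hT, Units.val_inv_eq_inv_val, Units.val_mk0]
      refine key 3 _ _ ?_
      rw [hlI]
      linear_combination (3 + I + T * (I ^ 2 + 4 * I + 5)) * hI2
    · simp only [C, W₀, WD4, WeierstrassCurve.map, map_mul, map_neg, map_add, map_sub, map_pow,
        map_ofNat, ← hI, ← hE, ← hT, Units.val_inv_eq_inv_val, Units.val_mk0]
      refine key 4 _ _ ?_
      rw [hlI]
      have e1 : (D : K4) = 1 + 2 * I + 4 * (2 * I * E - (1 - I) * T - T ^ 2) := hDK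
      rw [e1]
      have e4 : (1 + I) ^ 4 = -4 := by linear_combination (I ^ 2 + 4 * I + 5) * hI2
      rw [e4]
      ring
    · simp only [C, W₀, WD4, WeierstrassCurve.map, map_mul, map_neg, map_add, map_sub, map_pow,
        map_ofNat, ← hI, ← hE, ← hT, Units.val_inv_eq_inv_val, Units.val_mk0]
      refine key 6 _ _ ?_
      rw [hlI]
      have e1 : (D : K4) = 1 + 2 * I + 4 * (2 * I * E - (1 - I) * T - T ^ 2) := hDK
      rw [e1]
      have e4 : (1 + I) ^ 6 = -8 * I := by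
        linear_combination (I ^ 4 + 6 * I ^ 3 + 14 * I ^ 2 + 14 * I + 1) * hI2
      rw [e4]
      linear_combination (-1 : K4) * hI2
  have hΔ : W₀.Δ = -D ^ 3 := by
    have hinj : Function.Injective (algebraMap (𝓞 K4) K4) :=
      FaithfulSMul.algebraMap_injective (𝓞 K4) K4
    apply hinj
    rw [← WeierstrassCurve.map_Δ, ← hC, WeierstrassCurve.variableChange_Δ, WD4_delta]
    simp only [C, Units.val_inv_eq_inv_val, Units.val_mk0]
    refine key 12 _ _ ?_
    have e12 : l ^ 12 = -64 := by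
      have e4 : l ^ 4 = -4 := by
        rw [hlI]
        linear_combination (I ^ 2 + 4 * I + 5) * hI2
      have e5 : l ^ 12 = (l ^ 4) ^ 3 := by ring
      rw [e5, e4]
      norm_num
    rw [e12, map_neg, map_pow]
    change 64 * (algebraMap (𝓞 K4) K4 D) ^ 3 = _
    ring
  have hDl : ¬ lam ∣ D := by
    intro h0
    have h1 : lam ∣ D - 1 := by
      have e1 : D - 1 = 2 * (iO + 2 * (2 * iO * e - (1 - iO) * τ - τ ^ 2)) := by
        rw [hD]
        ring
      rw [e1]
      exact lam_dvd_two.mul_right _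
    have h2 := dvd_sub h0 h1
    rw [sub_sub_cancel] at h2
    exact lam_not_unit (isUnit_of_dvd_one h2)
  have hmodel : locPoly ((WD4 D).baseChange K4) v = _ :=
    locPoly_of_model (F := K4) (K := K4) (WD4 D) C W₀ hC v (by
      rw [hΔ]
      intro hm
      change algebraMap (𝓞 K4) (𝓞 K4) (-D ^ 3) ∈ v.asIdeal at hm
      rw [Algebra.algebraMap_self, RingHom.id_apply, hmem, dvd_neg] at hm
      exact hDl (lam_prime.dvd_of_dvd_pow hm))
  have hbc : (WD4 D).baseChange K4 = WD4 D := WeierstrassCurve.map_id _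
  rw [hbc] at hmodel
  have hker : ∀ y : 𝓞 K4, redMap K4 v y = 0 ↔ lam ∣ y := by
    intro y
    rw [← RingHom.mem_ker, redMap_ker, ← hmem]
    rfl
  have hker' : ∀ y z : 𝓞 K4, lam ∣ y - z → redMap K4 v y = redMap K4 v z := by
    intro y z hyz
    rw [← sub_eq_zero, ← map_sub, hker]
    exact hyz
  have hred : W₀.map (redMap K4 v) = ⟨0, 1, 1, 0, redMap K4 v e⟩ := by
    have r1 : redMap K4 v (-iO * lam) = 0 := (hker _).2 (dvd_mul_left _ _)
    have r2 : redMap K4 v (-iO) = 1 := by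
      rw [← map_one (redMap K4 v)]
      refine hker' _ _ ⟨-1, ?_⟩
      unfold lam
      ring
    have r3 : redMap K4 v (-(1 + lam * τ)) = 1 := by
      rw [← map_one (redMap K4 v)]
      refine hker' _ _ ⟨iO * lam - τ, ?_⟩
      linear_combination -two_eq
    have r4 : redMap K4 v (2 * iO * e + iO * τ - τ ^ 2) = 0 := by
      rw [hker]
      have h4 : lam ∣ τ - τ ^ 2 := by
        by_cases hτ : lam ∣ τ
        · exact dvd_sub hτ (dvd_pow hτ two_ne_zero)
        · have h5 : lam ∣ 1 - τ := by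
            rw [lam_dvd_iff] at hτ ⊢
            rw [cp_sub, cp_one]
            simp only [Prod.fst_sub, Prod.snd_sub]
            omega
          have e1 : τ - τ ^ 2 = (1 - τ) * τ := by ring
          rw [e1]
          exact h5.mul_right _
      have h6 : lam ∣ iO - 1 := ⟨iO, by unfold lam; linear_combination -iO_sq⟩
      have e1 : 2 * iO * e + iO * τ - τ ^ 2 = 2 * (iO * e) + (iO - 1) * τ + (τ - τ ^ 2) := by ring
      rw [e1]
      exact dvd_add (dvd_add (lam_dvd_two.mul_right _) (h6.mul_right _)) h4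
    simp only [W₀, WeierstrassCurve.map, r1, r2, r3, r4]
  have hfin : Finite (IsLocalRing.ResidueField (v.adicCompletionIntegers K4)) := finite_residue v
  have hc := locLG_card (k := IsLocalRing.ResidueField (v.adicCompletionIntegers K4)) hn
    (redMap K4 v e)
  rw [hred] at hmodel
  constructor
  · intro he
    rw [hmodel, hc.1 ((hker e).2 he), hn]
    simp only [map_add, map_sub, map_one, map_mul, map_pow, aeval_C, aeval_X]
    norm_num
  · intro he
    rw [hmodel, hc.2 (fun h0 => he ((hker e).1 h0)), hn]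
    simp only [map_add, map_sub, map_one, map_mul, map_pow, aeval_C, aeval_X]
    norm_num

/-! ### The character -/

/-- the exponent of `lam` -/
def gl (x : 𝓞 K4) : ZMod 4 := ((((cp x).1 - (cp x).2 - (cp x).2 ^ 2 - 1) / 4 : ℤ) : ZMod 4)

theorem gl_form (m n : ℤ) : gl (1 + lam ^ 3 * ((m : 𝓞 K4) + (n : 𝓞 K4) * iO)) =
    -(m : ZMod 4) - ((m : ZMod 4) - n) ^ 2 := by
  unfold gl
  rw [cp_form]
  have e : (((1 - 2 * m - 2 * n, 2 * m - 2 * n) : ℤ × ℤ).1 -
      ((1 - 2 * m - 2 * n, 2 * m - 2 * n) : ℤ × ℤ).2 -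
      ((1 - 2 * m - 2 * n, 2 * m - 2 * n) : ℤ × ℤ).2 ^ 2 - 1) / 4 = -m - (m - n) ^ 2 := by
    change (1 - 2 * m - 2 * n - (2 * m - 2 * n) - (2 * m - 2 * n) ^ 2 - 1) / 4 = -m - (m - n) ^ 2
    have : 1 - 2 * m - 2 * n - (2 * m - 2 * n) - (2 * m - 2 * n) ^ 2 - 1 =
        4 * (-m - (m - n) ^ 2) := by ring
    rw [this]
    omega
  rw [e]
  push_cast
  ring

theorem gl_mul {x y : 𝓞 K4} (hx : In4 x) (hy : In4 y) : gl (x * y) = gl x + gl y := by
  obtain ⟨a, b, rfl⟩ := in4_form hx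
  obtain ⟨c, d, rfl⟩ := in4_form hy
  rw [mul_form, gl_form, gl_form, gl_form]
  push_cast
  have h4 : (4 : ZMod 4) = 0 := by decide
  linear_combination ((a : ZMod 4) * d + b * c - b * d + 2 * (a + c - b - d) * (a * c - b * d) -
    4 * (a * c - b * d : ZMod 4) ^ 2) * h4

theorem gl_DDq (S : Finset Pg) : gl (DDq S) = ∑ q ∈ S, c4 q lam := by
  induction S using Finset.induction_on with
  | empty =>
    rw [DDq_empty, Finset.sum_empty]
    have h := gl_form 0 0
    simpa using h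
  | insert q S hq ih =>
    rw [DDq_insert hq, gl_mul q.in4 (DDq_in4 S), ih, Finset.sum_insert hq, c4_lam_cp]
    rfl

/-- **the Euler factor at the place above `2` of `y² = x³ + DDq S x`** -/
theorem locLG (S : Finset Pg) (x : ℂ) :
    (nn (DDq S) = 1 → aeval x (locPoly (WD4 (-DDq S)) (pv lam lam_prime)) =
      (1 - (starRingEnd ℂ) (em lam) * e4 (∑ q ∈ S, c4 q lam) * x) *
        (1 - (starRingEnd ℂ) ((starRingEnd ℂ) (em lam) * e4 (∑ q ∈ S, c4 q lam)) * x)) ∧
    (nn (DDq S) ≠ 1 → locPoly (WD4 (-DDq S)) (pv lam lam_prime) = 1) := by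
  obtain ⟨m, n, h⟩ := in4_form (DDq_in4 S)
  have hcast : ∀ a b : ℤ, (a : ZMod 4) = b ↔ a % 4 = b % 4 := by
    intro a b
    rw [ZMod.intCast_eq_intCast_iff]
    rfl
  have hnn : nn (DDq S) = 1 ↔ (m + n) % 4 = 1 := by
    rw [h, nn_form]
    have e := hcast (m + n) 1
    push_cast at e
    rw [e]
  constructor
  · intro h1
    rw [hnn] at h1
    obtain ⟨j, hj⟩ : ∃ j, n = 4 * j + 1 - m := ⟨(m + n - 1) / 4, by omega⟩
    have hD : -DDq S = 1 + 2 * iO + 4 * (2 * (j : 𝓞 K4) * (1 + iO) - (m : 𝓞 K4) * iO) := by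
      rw [h, hj, lam_cube]
      push_cast
      linear_combination (2 : 𝓞 K4) * (-(4 * (j : 𝓞 K4) + 1 - m)) * iO_sq
    have hc : em lam = 1 + Pool.Agent.Lib.MP_1a91b9_nuT.zt := by
      have e : lam = 1 + iO := rfl
      rw [e, em_add, em_one, em_iO']
    have hcz : (starRingEnd ℂ) (em lam) = 1 - Pool.Agent.Lib.MP_1a91b9_nuT.zt := by
      rw [hc, map_add, map_one, conj_zt]
      ring
    have hsum : ∑ q ∈ S, c4 q lam = -(m : ZMod 4) - 1 := by
      rw [← gl_DDq, h, gl_form, hj]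
      push_cast
      have h4 : (4 : ZMod 4) = 0 := by decide
      linear_combination (-(m : ZMod 4) ^ 2 + m + 4 * j * m - 4 * (j : ZMod 4) ^ 2 - 2 * j) * h4
    have hz := zt_sq
    rw [hsum]
    rcases Int.even_or_odd m with ⟨k, hk⟩ | ⟨k, hk⟩
    · have hg := locLG_good (-DDq S) (((j - k : ℤ) : 𝓞 K4) + ((-j : ℤ) : 𝓞 K4) * iO) 0 (by
        rw [hD, hk]
        push_cast
        linear_combination (8 * (j : 𝓞 K4)) * iO_sq) x
      have hl : lam ∣ (((j - k : ℤ) : 𝓞 K4) + ((-j : ℤ) : 𝓞 K4) * iO) ↔ k % 2 = 0 := by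
        rw [lam_dvd_iff, cp_coords]
        constructor
        · intro h5
          simp only at h5
          omega
        · intro h5
          simp only
          omega
      rcases Int.emod_two_eq_zero_or_one k with h5 | h5
      · rw [hg.1 (hl.2 h5)]
        have e : (m : ZMod 4) = 0 := by
          have := (hcast m 0).2 (by omega)
          rwa [Int.cast_zero] at this
        have e3 : (-0 - 1 : ZMod 4) = 3 := by decide
        rw [e, e3, map_mul, conj_e4, hcz, map_sub, map_one, conj_zt]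
        have e5 : (-3 : ZMod 4) = 1 := by decide
        rw [e5, e4_three, e4_one]
        linear_combination (2 * x + (2 - Pool.Agent.Lib.MP_1a91b9_nuT.zt ^ 2) * x ^ 2) * hz
      · rw [hg.2 (fun h6 => by have := hl.1 h6; omega)]
        have e : (m : ZMod 4) = 2 := by
          have := (hcast m 2).2 (by omega)
          simpa using this
        have e3 : (-2 - 1 : ZMod 4) = 1 := by decide
        rw [e, e3, map_mul, conj_e4, hcz, map_sub, map_one, conj_zt]
        have e5 : (-1 : ZMod 4) = 3 := by decide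
        rw [e5, e4_three, e4_one]
        linear_combination (-2 * x + (2 - Pool.Agent.Lib.MP_1a91b9_nuT.zt ^ 2) * x ^ 2) * hz
    · have hg := locLG_good (-DDq S) (((j - k - 1 : ℤ) : 𝓞 K4) + ((-j - 1 : ℤ) : 𝓞 K4) * iO) 1 (by
        rw [hD, hk]
        push_cast
        linear_combination (8 * ((j : 𝓞 K4) + 1)) * iO_sq) x
      have hl : lam ∣ (((j - k - 1 : ℤ) : 𝓞 K4) + ((-j - 1 : ℤ) : 𝓞 K4) * iO) ↔ k % 2 = 0 := by
        rw [lam_dvd_iff, cp_coords]
        constructor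
        · intro h5
          simp only at h5
          omega
        · intro h5
          simp only
          omega
      rcases Int.emod_two_eq_zero_or_one k with h5 | h5
      · rw [hg.1 (hl.2 h5)]
        have e : (m : ZMod 4) = 1 := by
          have := (hcast m 1).2 (by omega)
          rwa [Int.cast_one] at this
        have e3 : (-1 - 1 : ZMod 4) = 2 := by decide
        rw [e, e3, map_mul, conj_e4, hcz, map_sub, map_one, conj_zt]
        have e5 : (-2 : ZMod 4) = 2 := by decide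
        rw [e5, e4_two]
        linear_combination x ^ 2 * hz
      · rw [hg.2 (fun h6 => by have := hl.1 h6; omega)]
        have e : (m : ZMod 4) = 3 := by
          have := (hcast m 3).2 (by omega)
          simpa using this
        have e3 : (-3 - 1 : ZMod 4) = 0 := by decide
        rw [e, e3, map_mul, conj_e4, hcz, map_sub, map_one, conj_zt]
        rw [neg_zero, e4_zero]
        linear_combination x ^ 2 * hz
  · intro h1
    have h3 : lam ^ 3 ∣ -DDq S + 1 := by
      refine ⟨-((m : 𝓞 K4) + (n : 𝓞 K4) * iO), ?_⟩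
      rw [h]
      ring
    refine locLG_bad h3 ?_
    rw [cp_neg, h, cp_form]
    simp only [Prod.fst_neg]
    rw [ne_eq, hnn] at h1
    omega

end

end Pool.Agent.Lib.MP_1a91b9_ntQ
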