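import Pool.Agent.Lib.MP_1a91b9_ntQ.A.PairR
import Pool.Agent.Lib.MP_1a91b9_ntQ.R.Qd4

/-!
# Quartic twists, part A, file SysC: the characters and the L-series of `y² = x³ - δ² x`

`thC k j` is the quadratic character of `i ^ k * lam ^ j`, `chC q` the quadratic character modulo
`q`, `LC k j T` the L-function of `ψbar (thC k j) ∏ (q ∈ T) chC q` and
`LaC k j T = fC k j * D_T * LC k j T 1`; `PhC k j` is the sum of `E1` over the classes modulo
`fC k j / lam ^ 3`.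
-/

set_option autoImplicit false
set_option linter.unusedSectionVars false

namespace Pool.Agent.Lib.MP_1a91b9_ntQ

open NumberField Pool.Agent.Lib.MP_1a91b9_nuT Pool.Agent.Lib.MP_1a91b9_nuT.S3
  Pool.Agent.Lib.MP_1a91b9_nuT.Ell

noncomputable section

/-! ### The character of the class -/

/-- the exponent of the modulus of `thC k j`, minus `3` -/
def nC (k j : ZMod 2) : ℕ := if j = 1 then 2 else if k = 1 then 1 else 0

/-- the modulus of `thC k j` -/
def fC (k j : ZMod 2) : 𝓞 K := lam ^ (3 + nC k j)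

/-- the character of `i ^ k * lam ^ j` -/
def thC (k j : ZMod 2) (x : 𝓞 K) : ℂ := e2 (k * aa x + j * bb x)

theorem nC_00 : nC 0 0 = 0 := by
  unfold nC
  have h : (0 : ZMod 2) ≠ 1 := by decide
  rw [if_neg h, if_neg h]

theorem nC_10 : nC 1 0 = 1 := by
  unfold nC
  have h : (0 : ZMod 2) ≠ 1 := by decide
  rw [if_neg h, if_pos rfl]

theorem nC_1 (k : ZMod 2) : nC k 1 = 2 := by
  unfold nC
  rw [if_pos rfl]

theorem zmod2_cases (x : ZMod 2) : x = 0 ∨ x = 1 := by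
  have key : ∀ x : ZMod 2, x = 0 ∨ x = 1 := by decide
  exact key x

theorem kj_cases (k j : ZMod 2) : (k = 0 ∧ j = 0) ∨ (k = 1 ∧ j = 0) ∨ j = 1 := by
  have key : ∀ k j : ZMod 2, (k = 0 ∧ j = 0) ∨ (k = 1 ∧ j = 0) ∨ j = 1 := by decide
  exact key k j

theorem fC_00 : fC 0 0 = lam ^ 3 := by rw [fC, nC_00]

theorem fC_10 : fC 1 0 = lam ^ 4 := by rw [fC, nC_10]

theorem fC_1 (k : ZMod 2) : fC k 1 = lam ^ 5 := by rw [fC, nC_1]

theorem fC_eq (k j : ZMod 2) : fC k j = lam ^ 3 * lam ^ nC k j := pow_add _ _ _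

theorem fC_ne (k j : ZMod 2) : fC k j ≠ 0 := pow_ne_zero _ lam_ne_zero

theorem fC_dvd (k j : ZMod 2) : lam ^ 3 ∣ fC k j := pow_dvd_pow _ (Nat.le_add_right _ _)

theorem in4_cop_fC {a : 𝓞 K} (h : In4 a) (k j : ZMod 2) : IsCoprime a (fC k j) := in4_cop_lam h _

theorem thC_one (k j : ZMod 2) : thC k j 1 = 1 := by
  rw [thC, aa_one, bb_one, mul_zero, mul_zero, add_zero, e2_zero]

theorem thC_mul (k j : ZMod 2) {a b : 𝓞 K} (ha : In4 a) (hb : In4 b) :
    thC k j (a * b) = thC k j a * thC k j b := by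
  rw [thC, aa_mul ha hb, bb_mul ha hb, thC, thC, ← e2_add]
  congr 1
  ring

theorem norm_thC (k j : ZMod 2) (a : 𝓞 K) : ‖thC k j a‖ = 1 := norm_e2 _

theorem thC_sq (k j : ZMod 2) (a : 𝓞 K) : thC k j a * thC k j a = 1 := e2_mul_self _

theorem thC_ne (k j : ZMod 2) (a : 𝓞 K) : thC k j a ≠ 0 := by
  intro h
  have h1 := thC_sq k j a
  rw [h, mul_zero] at h1
  exact zero_ne_one h1

theorem two_lam3 : (lam : 𝓞 K) ^ 5 = 2 * lam ^ 3 * iO := by
  have h : (lam : 𝓞 K) ^ 5 = lam ^ 2 * lam ^ 3 := by ring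
  rw [h, lam_sq]
  ring

theorem thC_congr (k j : ZMod 2) {a b : 𝓞 K} (ha : In4 a) (h : fC k j ∣ a - b) :
    thC k j a = thC k j b := by
  rcases kj_cases k j with ⟨rfl, rfl⟩ | ⟨rfl, rfl⟩ | rfl
  · rw [thC, thC, zero_mul, zero_mul, zero_mul, zero_mul]
  · rw [fC_10] at h
    rw [thC, thC, zero_mul, zero_mul, aa_congr ha h]
  · rw [fC_1] at h
    have h4 : lam ^ 4 ∣ a - b := (pow_dvd_pow _ (by norm_num)).trans h
    have h5 : 2 * lam ^ 3 ∣ a - b := by
      refine Dvd.dvd.trans ?_ h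
      rw [two_lam3]
      exact dvd_mul_right _ _
    rw [thC, thC, aa_congr ha h4, bb_congr ha h5]

theorem thC_chr (k j : ZMod 2) : Chr (lam ^ 3) (fC k j) (thC k j) where
  ne := fC_ne k j
  dvd := fC_dvd k j
  one := thC_one k j
  mul _ _ ha hb := thC_mul k j ha hb
  le a _ := (norm_thC k j a).le
  zero _ ha hc := absurd (in4_cop_fC ha k j) hc
  per _ _ ha h := thC_congr k j ha h

theorem thC_form (k j : ZMod 2) (m n : ℤ) :
    thC k j (1 + lam ^ 3 * ((m : 𝓞 K) + (n : 𝓞 K) * iO)) =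
      e2 (k * ((m : ZMod 2) + n) + j * (n : ZMod 2)) := by
  rw [thC, bb_form]
  congr 3
  exact aa_form m n

theorem thC_DDq (k j : ZMod 2) (S : Finset Pg) :
    thC k j (DDq S) = e2 (k * ∑ q ∈ S, aa q.1 + j * ∑ q ∈ S, bb q.1) := by
  rw [thC, aa_DDq, bb_DDq]

/-! ### The quadratic characters -/

/-- the quadratic character modulo `q` -/
def chC (q : Pg) (x : 𝓞 K) : ℂ :=
  haveI := Classical.dec (q.1 ∣ x)
  if q.1 ∣ x then 0 else e2 (c2 q x)

theorem chC_of_dvd {q : Pg} {x : 𝓞 K} (h : q.1 ∣ x) : chC q x = 0 := by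
  unfold chC
  exact if_pos h

theorem chC_of_not {q : Pg} {x : 𝓞 K} (h : ¬ q.1 ∣ x) : chC q x = e2 (c2 q x) := by
  unfold chC
  exact if_neg h

theorem chC_chrP (q : Pg) : ChrP q.1 (chC q) where
  one := by
    have h : ¬ q.1 ∣ (1 : 𝓞 K) := fun h => q.2.1.not_isUnit (isUnit_of_dvd_one h)
    rw [chC_of_not h, c2_one, e2_zero]
  mul a b := by
    by_cases ha : q.1 ∣ a
    · rw [chC_of_dvd ha, chC_of_dvd (ha.mul_right _), zero_mul]
    · by_cases hb : q.1 ∣ b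
      · rw [chC_of_dvd hb, chC_of_dvd (hb.mul_left _), mul_zero]
      · have hab : ¬ q.1 ∣ a * b := fun h => (q.2.1.dvd_or_dvd h).elim ha hb
        rw [chC_of_not ha, chC_of_not hb, chC_of_not hab, c2_mul q ha hb, e2_add]
  le a := by
    by_cases ha : q.1 ∣ a
    · rw [chC_of_dvd ha, norm_zero]
      exact zero_le_one
    · rw [chC_of_not ha, norm_e2]
  zero _ ha := chC_of_dvd ha
  per a b hab := by
    by_cases ha : q.1 ∣ a
    · have hb : q.1 ∣ b := by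
        have h := dvd_sub ha hab
        rwa [sub_sub_cancel] at h
      rw [chC_of_dvd ha, chC_of_dvd hb]
    · have hb : ¬ q.1 ∣ b := by
        intro hb
        apply ha
        have h := dvd_add hab hb
        rwa [sub_add_cancel] at h
      rw [chC_of_not ha, chC_of_not hb, c2_congr q ha hab]

/-- the character of `δ` on the elements congruent to `1` modulo `lam ^ 3` -/
def XC (k j : ZMod 2) (T : Finset Pg) : 𝓞 K → ℂ := XT (f := lam ^ 3) (thC k j) chC T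

theorem XC_eq (k j : ZMod 2) (T : Finset Pg) (x : 𝓞 K) :
    XC k j T x = thC k j x * ∏ q ∈ T, chC q x := rfl

theorem XC_chr (k j : ZMod 2) (T : Finset Pg) : Chr (lam ^ 3) (fC k j * DDq T) (XC k j T) :=
  (thC_chr k j).XT (f := lam ^ 3) (fun q => chC_chrP q) T

theorem XC_of_cop (k j : ZMod 2) {T : Finset Pg} {x : 𝓞 K} (h : ∀ q ∈ T, ¬ q.1 ∣ x) :
    XC k j T x = e2 (k * aa x + j * bb x + ∑ q ∈ T, c2 q x) := by
  rw [XC_eq, e2_add (k * aa x + j * bb x), e2_sum]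
  change thC k j x * _ = thC k j x * _
  congr 1
  exact Finset.prod_congr rfl fun q hq => chC_of_not (h q hq)

/-- the value at a prime outside `T` -/
theorem XC_q (k j : ZMod 2) {T : Finset Pg} {q : Pg} (hq : q ∉ T) :
    XC k j T q.1 = e2 (k * aa q.1 + j * bb q.1 + ∑ p ∈ T, s4 p q) := by
  refine XC_of_cop k j fun p hp => Pg.not_dvd ?_
  rintro rfl
  exact hq hp

/-- the entire L-function of `ψbar` and the quadratic character of `δ` -/
def LC (k j : ZMod 2) (T : Finset Pg) : ℂ → ℂ := LG (lam ^ 3) (XC k j T)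

theorem LC_diff (k j : ZMod 2) (T : Finset Pg) : Differentiable ℂ (LC k j T) :=
  (XC_chr k j T).LG_diff

theorem LC_eq (k j : ZMod 2) (T : Finset Pg) (s : ℂ) (hs : 2 < s.re) :
    LC k j T s = S4.Lf (pG (lam ^ 3) (XC k j T)) s := (XC_chr k j T).LG_eq s hs

/-- the normalised value at `1` -/
def LaC (k j : ZMod 2) (T : Finset Pg) : ℂ := em (fC k j * DDq T) * LC k j T 1

/-- the weight -/
def wC (S : Finset Pg) (x : 𝓞 K) : ℂ := ∏ q ∈ S, (1 - chC q x)

theorem wC_per {S : Finset Pg} {a b : 𝓞 K} (h : DDq S ∣ a - b) : wC S a = wC S b := by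
  unfold wC
  refine Finset.prod_congr rfl fun q hq => ?_
  rw [(chC_chrP q).per a b ((dvd_DDq.2 hq).trans h)]

/-! ### The sums of `E1` -/

/-- the character sum of `E1` -/
def PhC (k j : ZMod 2) (z : ℂ) : ℂ :=
  if j = 0 then (if k = 0 then E1 z else -(Om * gg z)) else
    -(Om * (gg z + e2 k * gg (z + pe ^ 2)))

theorem PhC_00 (z : ℂ) : PhC 0 0 z = E1 z := by
  unfold PhC
  rw [if_pos rfl, if_pos rfl]

theorem PhC_10 (z : ℂ) : PhC 1 0 z = -(Om * gg z) := by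
  unfold PhC
  have h : (1 : ZMod 2) ≠ 0 := by decide
  rw [if_pos rfl, if_neg h]

theorem PhC_1 (k : ZMod 2) (z : ℂ) : PhC k 1 z = -(Om * (gg z + e2 k * gg (z + pe ^ 2))) := by
  unfold PhC
  have h : (1 : ZMod 2) ≠ 0 := by decide
  rw [if_neg h]

theorem PhC_congr (k j : ZMod 2) {z w : ℂ} (h : z - w ∈ PP.lattice) : PhC k j z = PhC k j w := by
  have h2 : z + pe ^ 2 - (w + pe ^ 2) ∈ PP.lattice := by
    rwa [add_sub_add_right_eq_sub]
  rcases kj_cases k j with ⟨rfl, rfl⟩ | ⟨rfl, rfl⟩ | rfl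
  · rw [PhC_00, PhC_00, E1_congr' h]
  · rw [PhC_10, PhC_10, gg_congr h]
  · rw [PhC_1, PhC_1, gg_congr h, gg_congr h2]

/-- `pe ^ 2` and `1 / 2 + pe` are congruent -/
theorem pe2_half : pe ^ 2 - (1 / 2 + pe) ∈ PP.lattice := by
  have e : pe ^ 2 - (1 / 2 + pe) = -1 := by
    rw [pe_eq]
    linear_combination (1 / 4) * zt_sq
  rw [e]
  exact neg_mem one_mem

theorem E1_half_pe2 (z : ℂ) : E1 (z + 1 / 2) = E1 (z + pe ^ 2 + pe) := by
  refine E1_congr' ?_
  have e : z + 1 / 2 - (z + pe ^ 2 + pe) = -(pe ^ 2 - (1 / 2 + pe)) - 2 * pe := by ring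
  rw [e]
  exact sub_mem (neg_mem pe2_half) two_pe_mem

theorem gg_pe2 {z : ℂ} (hz : 2 * z ∉ PP.lattice) : gg z * gg (z + pe ^ 2) = 2 := by
  have h1 : gg (z + pe ^ 2) = gg (z + 1 / 2 + pe) := gg_congr (by
    have e : z + pe ^ 2 - (z + 1 / 2 + pe) = pe ^ 2 - (1 / 2 + pe) := by ring
    rw [e]
    exact pe2_half)
  rw [h1, gg_add_pe]
  linear_combination -(gg_half hz)

/-- the square of `PhC 1 0` -/
theorem PhC_sq_10 {z : ℂ} (hz : 2 * z ∉ PP.lattice) :
    PhC 1 0 z ^ 2 = Om ^ 2 * (2 * zt * X (lm * z)) := by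
  rw [PhC_10, ← gg_sq hz]
  ring

/-- the square of `PhC k 1` -/
theorem PhC_sq_1 (k : ZMod 2) {z : ℂ} (hz : 2 * z ∉ PP.lattice) (hz2 : 2 * (lm * z) ∉ PP.lattice) :
    PhC k 1 z ^ 2 = -4 * Om ^ 2 * (X (lm ^ 2 * z) - e2 k) := by
  have h1 := gg_pe2 hz
  have h2 := gg_sq hz
  have h3 := X_lm hz2
  have h4 : e2 k * e2 k = 1 := e2_mul_self k
  have h5 : lm ^ 2 * z = lm * (lm * z) := by ring
  have hX : X (lm * z) ≠ 0 := X_ne hz2
  have h7 : gg (z + pe ^ 2) ^ 2 * X (lm * z) = -2 * zt := by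
    have h8 : gg z ^ 2 * gg (z + pe ^ 2) ^ 2 = 4 := by
      rw [← mul_pow, h1]
      norm_num
    rw [h2] at h8
    have hzt := zt_ne0
    apply mul_left_cancel₀ hzt
    linear_combination (1 / 2) * h8 + 2 * zt_sq
  rw [PhC_1, h5]
  apply mul_right_cancel₀ hX
  linear_combination Om ^ 2 * X (lm * z) * h2 +
    2 * Om ^ 2 * X (lm * z) * e2 k * h1 + Om ^ 2 * h7 +
    Om ^ 2 * X (lm * z) * gg (z + pe ^ 2) ^ 2 * h4 - 2 * zt * Om ^ 2 * h3 +
    4 * Om ^ 2 * X (lm * (lm * z)) * X (lm * z) * zt_sq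

end

end Pool.Agent.Lib.MP_1a91b9_ntQ
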