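import Pool.Agent.Lib.MP_1a91b9_ntQ.A.Ser4
import Pool.Agent.Lib.MP_1a91b9_ntQ.A.SysC
import Pool.Agent.Lib.MP_1a91b9_ntQ.A.LocLG

/-!
# TwistDensity, phase 5 (congruent numbers over `ℚ(i)`), part A, file SerC: the L-series of `y² = x³ - δ² x`
over `ℚ(i)`, `δ = i ^ κ lam ^ j ∏ (q ∈ S) q`
-/

set_option autoImplicit false

namespace Pool.Agent.Lib.MP_1a91b9_ntQ

open NumberField IsDedekindDomain Polynomial WeierstrassCurve Pool.Agent.Lib.MP_1a91b9_nt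
  Pool.Agent.Lib.MP_1a91b9_nuT
open Pool.Agent.Lib.MP_1a91b9_nuX.HQ (GI G4 qs w)
open Pool.Agent.Lib.MP_1a91b9_ntQ.C (pv)

noncomputable section

/-- the squarefree element `i ^ κ lam ^ j ∏ (q ∈ S) q` -/
def dC (κ : ZMod 4) (j : ZMod 2) (S : Finset Pg) : 𝓞 K4 := iO ^ κ.val * lam ^ j.val * DDq S

variable {κ : ZMod 4} {j : ZMod 2} {S : Finset Pg} {q : Pg}

theorem dC_eq : dC κ j S = lam ^ j.val * Dq κ S := by
  rw [dC, Dq]
  ring

/-- every squarefree element -/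
theorem exists_dC {δ : 𝓞 K4} (h : Squarefree δ) : ∃ κ j S, δ = dC κ j S := by
  obtain ⟨κ, j, S, hS⟩ := exists_sqf h
  exact ⟨κ, j, S, hS⟩

theorem lam_pow_not_dvd (q : Pg) (n : ℕ) : ¬ q.1 ∣ lam ^ n := fun h =>
  lam_not_dvd q (q.prime.dvd_of_dvd_pow h)

theorem dC_dvd : q.1 ∣ dC κ j S ↔ q ∈ S := by
  rw [dC_eq]
  constructor
  · intro h
    rcases q.prime.dvd_or_dvd h with h1 | h1
    · exact absurd h1 (lam_pow_not_dvd q _)
    · exact Dq_dvd.1 h1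
  · intro h
    exact (Dq_dvd.2 h).mul_left _

theorem dC_sq : ¬ q.1 ^ 2 ∣ dC κ j S := by
  rw [dC_eq]
  intro h
  have h1 : IsCoprime (q.1 ^ 2) (lam ^ j.val) := (in4_cop_lam q.in4 _).pow_left
  exact Dq_sq (h1.dvd_of_dvd_mul_left h)

theorem dC_four (hq : q ∈ S) : ¬ q.1 ^ 4 ∣ dC κ j S ^ 2 := by
  intro h
  obtain ⟨t, ht⟩ := (dC_dvd (κ := κ) (j := j)).2 hq
  have hq0 := q.ne_zero
  have h1 : q.1 ^ 2 ∣ t ^ 2 := by
    obtain ⟨u, hu⟩ := h
    refine ⟨u, ?_⟩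
    apply mul_left_cancel₀ (pow_ne_zero 2 hq0)
    rw [ht] at hu
    linear_combination hu
  have h2 : q.1 ∣ t := q.prime.dvd_of_dvd_pow ((dvd_pow_self _ two_ne_zero).trans h1)
  apply dC_sq (κ := κ) (j := j) (S := S) (q := q)
  rw [ht, pow_two]
  exact mul_dvd_mul_left _ h2

/-- the exponents -/
theorem e4_two_mul (t : ZMod 4) : e4 (2 * t) = e2 (md t) := by
  have h4 : ∀ t : ZMod 4, t = 0 ∨ t = 1 ∨ t = 2 ∨ t = 3 := by decide
  have h0 : md 0 = 0 := by decide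
  have h1 : md 1 = 1 := by decide
  have h2 : md 2 = 0 := by decide
  have h3 : md 3 = 1 := by decide
  rcases h4 t with rfl | rfl | rfl | rfl
  · rw [mul_zero, e4_zero, h0, e2_zero]
  · rw [mul_one, e4_two, h1, e2_one]
  · have e : (2 * 2 : ZMod 4) = 0 := by decide
    rw [e, e4_zero, h2, e2_zero]
  · have e : (2 * 3 : ZMod 4) = 2 := by decide
    rw [e, e4_two, h3, e2_one]

/-- the symbol of `δ ^ 2` at a prime which does not divide it -/
theorem e4_dC (hq : q ∉ S) : e4 (c4 q (dC κ j S ^ 2)) =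
    e2 (md κ * aa q.1 + j * bb q.1 + ∑ p ∈ S, s4 p q) := by
  have h1 : ¬ q.1 ∣ dC κ j S := fun h => hq (dC_dvd.1 h)
  have h2 : ¬ q.1 ∣ DDq S := fun h => hq (dvd_DDq.1 h)
  have h3 : ¬ q.1 ∣ iO := by
    have := Ser4_unit q 1
    rwa [pow_one] at this
  have h5 : ¬ q.1 ∣ iO ^ κ.val * lam ^ j.val := fun h =>
    (q.prime.dvd_or_dvd h).elim (Ser4_unit q _) (lam_pow_not_dvd q _)
  rw [c4_pow q h1, Nat.cast_ofNat, e4_two_mul]
  congr 1
  rw [dC, c4_mul q h5 h2, c4_mul q (Ser4_unit q _) (lam_pow_not_dvd q _), c4_pow q h3, c4_i,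
    c4_pow q (lam_not_dvd q), c4_DDq q hq, ZMod.natCast_zmod_val, map_add, map_add, map_mul,
    map_mul, map_sum, md_natCast, ZMod.natCast_zmod_val]
  have h6 : md (c4 q lam) = bb q.1 := c2_lam q
  have h7 : md (nn q.1) = aa q.1 := rfl
  rw [h6, h7]
  congr 1
  refine Finset.sum_congr rfl fun p hp => ?_
  have hpq : p ≠ q := by
    rintro rfl
    exact hq hp
  exact (s4_symm hpq).symm

/-- the place above `2` -/
theorem dC_lam (κ : ZMod 4) (j : ZMod 2) (S : Finset Pg) :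
    locPoly (WD4 (dC κ j S ^ 2)) (pv lam lam_prime) = 1 := by
  rcases zmod2_cases j with rfl | rfl
  · have e0 : dC κ 0 S = Dq κ S := by
      rw [dC_eq, ZMod.val_zero, pow_zero, one_mul]
    have hl : ¬ lam ∣ Dq κ S ^ 2 := fun h => Dq_not_lam κ S (lam_prime.dvd_of_dvd_pow h)
    rw [e0]
    by_cases h3 : lam ^ 3 ∣ Dq κ S ^ 2 + 1
    · refine locLG_bad h3 ?_
      obtain ⟨a, ha⟩ : ∃ a, a = (cp (Dq κ S)).1 := ⟨_, rfl⟩
      obtain ⟨b, hb⟩ : ∃ b, b = (cp (Dq κ S)).2 := ⟨_, rfl⟩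
      rw [lam3_dvd_iff, cp_add, cp_one, pow_two, cp_mul] at h3
      rw [pow_two, cp_mul]
      simp only [Prod.fst_add, Prod.snd_add, ← ha, ← hb] at h3 ⊢
      have h4 : (a + b) % 2 = 1 := by
        have h5 := Dq_not_lam κ S
        rw [lam_dvd_iff, ← ha, ← hb] at h5
        omega
      obtain ⟨-, h5⟩ := h3
      rcases Int.emod_two_eq_zero_or_one a with h6 | h6
      · obtain ⟨u, hu⟩ : ∃ u, a = 2 * u := ⟨a / 2, by omega⟩
        obtain ⟨v, hv⟩ : ∃ v, b = 2 * v + 1 := ⟨b / 2, by omega⟩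
        have e : a * a - b * b = 4 * (u * u - v * v - v) - 1 := by
          rw [hu, hv]
          ring
        omega
      · exfalso
        obtain ⟨u, hu⟩ : ∃ u, a = 2 * u + 1 := ⟨a / 2, by omega⟩
        obtain ⟨v, hv⟩ : ∃ v, b = 2 * v := ⟨b / 2, by omega⟩
        have e : a * a - b * b + 1 + (a * b + b * a + 0) =
            4 * (u * u + u - v * v + 2 * u * v + v) + 2 := by
          rw [hu, hv]
          ring
        omega
    · exact loc4_lam_unit hl h3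
  · have e1 : dC κ 1 S = lam * Dq κ S := by
      rw [dC_eq]
      have : (1 : ZMod 2).val = 1 := rfl
      rw [this, pow_one]
    rw [e1]
    refine loc4_lam_even ?_ ?_
    · rw [mul_pow]
      exact (dvd_pow_self lam two_ne_zero).mul_right _
    · intro h
      have h1 : lam ^ 2 ∣ Dq κ S ^ 2 := by
        have e : lam ^ 4 = lam ^ 2 * lam ^ 2 := by ring
        rw [mul_pow, e] at h
        exact (mul_dvd_mul_iff_left (pow_ne_zero 2 lam_ne_zero)).1 h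
      exact Dq_not_lam κ S (lam_prime.dvd_of_dvd_pow ((dvd_pow_self lam two_ne_zero).trans h1))

/-- **The L-series of `y² = x³ - δ² x`**, `δ = i ^ κ lam ^ j ∏ (q ∈ S) q`. -/
theorem serC (κ : ZMod 4) (j : ZMod 2) (S : Finset Pg) :
    ∃ g : ℂ → ℂ, Differentiable ℂ g ∧
      (∀ s : ℂ, 3 / 2 < s.re → g s = (WD4 (dC κ j S ^ 2)).LSeries s) ∧
      g 1 = LC (md κ) j S 1 * (starRingEnd ℂ) (LC (md κ) j S 1) := by
  refine ser4_gen (XC_chr (md κ) j S) (fun v hv => ?_) (fun q hq => ?_) fun q hq => ?_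
  · rw [eq_pv_lam hv]
    exact dC_lam κ j S
  · have h1 : q ∈ S := dC_dvd.1 (q.prime.dvd_of_dvd_pow hq)
    exact ⟨dC_four h1, by rw [XC_eq, Finset.prod_eq_zero h1 (chC_of_dvd (dvd_refl _)), mul_zero]⟩
  · have h1 : q ∉ S := fun h => hq ((dC_dvd.2 h).trans (dvd_pow_self _ two_ne_zero))
    rw [XC_q _ _ h1, e4_dC h1]

/-- the L-series has an entire continuation which does not vanish at `1` if `LC` does not -/
theorem serC_ne (h : LC (md κ) j S 1 ≠ 0) :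
    ∃ g : ℂ → ℂ, Differentiable ℂ g ∧
      (∀ s : ℂ, 3 / 2 < s.re → g s = (WD4 (dC κ j S ^ 2)).LSeries s) ∧ g 1 ≠ 0 := by
  obtain ⟨g, h1, h2, h3⟩ := serC κ j S
  exact ⟨g, h1, h2, by rw [h3]; exact mul_ne_zero h ((_root_.map_ne_zero _).2 h)⟩

end

end Pool.Agent.Lib.MP_1a91b9_ntQ
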