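import Pool.Agent.Lib.MP_1a91b9_ntQ.A.AlgX

/-!
# Quartic twists, part A, file AlgXc: the cofactors are not zero exactly when the kernels are lines

The converses of `kap0_ne` and `kapX_ne`.
-/

set_option autoImplicit false

namespace Pool.Agent.Lib.MP_1a91b9_ntQ

open Finset

variable {ι : Type*} [DecidableEq ι]

/-- If a diagonal entry of the adjugate is not zero, the kernel is generated by one vector. -/
theorem ker_of_adj {F m : Type*} [Field F] [Fintype m] [DecidableEq m] {A : Matrix m m F}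
    {v₀ : m → F} (h0 : A.mulVec v₀ = 0) {k : m} (hk : v₀ k = 1) (hadj : A.adjugate k k ≠ 0)
    {w : m → F} (hw : A.mulVec w = 0) : w = w k • v₀ := by
  set u : m → F := w - w k • v₀ with hu
  have hu0 : A.mulVec u = 0 := by
    rw [hu, Matrix.mulVec_sub, Matrix.mulVec_smul, hw, h0, smul_zero, sub_zero]
  have huk : u k = 0 := by
    rw [hu, Pi.sub_apply, Pi.smul_apply, hk, smul_eq_mul, mul_one, sub_self]
  rw [Matrix.adjugate_apply] at hadj
  have h1 : (A.updateRow k (Pi.single k 1)).mulVec u = 0 := by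
    ext i
    by_cases hi : i = k
    · subst hi
      rw [Matrix.mulVec, Matrix.updateRow_self, single_dotProduct, one_mul, huk]
      rfl
    · have h2 := congrFun hu0 i
      rw [Matrix.mulVec] at h2 ⊢
      rw [Matrix.updateRow_ne hi]
      exact h2
  have h2 := Matrix.eq_zero_of_mulVec_eq_zero hadj h1
  exact sub_eq_zero.1 h2

private theorem AlgXc_field : IsDomain (ZMod 2) :=
  have : Fact (Nat.Prime 2) := ⟨Nat.prime_two⟩
  inferInstance

/-- **`kap0 ≠ 0` exactly when the kernel of `N_0(S)` is generated by `1`.** -/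
theorem kap0_iff (s : ι → ι → ZMod 2) (hs : ∀ p q, p ≠ q → s p q = s q p) {S : Finset ι}
    (hS : S.Nonempty) :
    kap0 s S ≠ 0 ↔
      ∀ v : S → ZMod 2, (N4 s 0 S).mulVec v = 0 → ∃ c : ZMod 2, ∀ i, v i = c := by
  refine ⟨fun h v hv => ?_, fun h => kap0_ne s hs hS h⟩
  have : Fact (Nat.Prime 2) := ⟨Nat.prime_two⟩
  obtain ⟨q, hq⟩ := hS
  have h1 : (N4 s 0 S).adjugate ⟨q, hq⟩ ⟨q, hq⟩ ≠ 0 := by rwa [kap0_adj s hs]
  have h2 := ker_of_adj (v₀ := fun _ => 1) (N4_mulVec_one s S) rfl h1 hv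
  refine ⟨v ⟨q, hq⟩, fun i => ?_⟩
  have h3 := congrFun h2 i
  rwa [Pi.smul_apply, smul_eq_mul, mul_one] at h3

/-- **`kapX ≠ 0` exactly when the kernel of `[[N_0(S), a], [aᵀ, x]]` is generated by `(1, 0)`.** -/
theorem kapX_iff (s : ι → ι → ZMod 2) (hs : ∀ p q, p ≠ q → s p q = s q p) (a : ι → ZMod 2)
    (x : ZMod 2) {S : Finset ι} (hS : S.Nonempty) (hA : ∑ i ∈ S, a i = 0) :
    kapX s a x S ≠ 0 ↔
      ∀ v : S ⊕ Unit → ZMod 2, (B4 s 0 a x S).mulVec v = 0 →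
        ∃ c : ZMod 2, (∀ i : S, v (Sum.inl i) = c) ∧ v (Sum.inr ()) = 0 := by
  refine ⟨fun h v hv => ?_, fun h => kapX_ne s hs a x hS hA h⟩
  have : Fact (Nat.Prime 2) := ⟨Nat.prime_two⟩
  obtain ⟨q, hq⟩ := hS
  have h1 : (B4 s 0 a x S).adjugate (Sum.inl ⟨q, hq⟩) (Sum.inl ⟨q, hq⟩) ≠ 0 := by
    rw [kapX_adj s hs a x ⟨q, hq⟩ hA]
    have h2 : vX S (Sum.inl ⟨q, hq⟩) * vX S (Sum.inl ⟨q, hq⟩) = 1 := mul_one 1
    rwa [h2, mul_one]
  have h2 := ker_of_adj (B4_mulVec s a x hA) (k := Sum.inl ⟨q, hq⟩) rfl h1 hv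
  refine ⟨v (Sum.inl ⟨q, hq⟩), fun i => ?_, ?_⟩
  · have h3 := congrFun h2 (Sum.inl i)
    rw [Pi.smul_apply, smul_eq_mul] at h3
    rw [h3]
    exact mul_one _
  · have h3 := congrFun h2 (Sum.inr ())
    rw [Pi.smul_apply, smul_eq_mul] at h3
    rw [h3]
    exact mul_zero _

/-- `det N_κ(S) ≠ 0` exactly when the kernel is trivial. -/
theorem detN4_iff (s : ι → ι → ZMod 2) (κ : ι → ZMod 2) (S : Finset ι) :
    (N4 s κ S).det ≠ 0 ↔ ∀ v : S → ZMod 2, (N4 s κ S).mulVec v = 0 → v = 0 := by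
  have : Fact (Nat.Prime 2) := ⟨Nat.prime_two⟩
  refine ⟨fun h v hv => Matrix.eq_zero_of_mulVec_eq_zero h hv, fun h h0 => ?_⟩
  obtain ⟨v, hv, hv0⟩ := Matrix.exists_mulVec_eq_zero_iff.2 h0
  exact hv (h v hv0)

end Pool.Agent.Lib.MP_1a91b9_ntQ
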