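import Pool.Agent.Lib.MP_1a91b9_ntK.A.Forest

/-!
# Quartic twists, part A, file AlgY: the star product and the second order algebra of the class (X)

`(φ ⋆ ψ)(T) = ∑ φ(K) ψ(T - K)`, `K` and `T - K` nonempty. For the operator
`(A φ)(J) = ∑ (T ⊆ J nonempty) φ(T) ∏ (q ∈ J - T) ∑ (p ∈ T) m_{qp}` one has
`A (φ ⋆ ψ) (J) = ∑ φ(K) ∑ (U ⊆ J - K) (∏ (q ∈ U) ∑ (p ∈ K) m_{qp}) (A ψ) (J - K - U)`.
-/

set_option autoImplicit false

namespace Pool.Agent.Lib.MP_1a91b9_ntQ

open Finset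
open Pool.Agent.Lib.MP_1a91b9_ntK (CZ forest_zero tri_unique)

variable {ι : Type*} [DecidableEq ι] {R : Type*} [CommRing R]

/-- the star product -/
def starY (φ ψ : Finset ι → R) (T : Finset ι) : R :=
  ∑ K ∈ (T.powerset.erase ∅).erase T, φ K * ψ (T \ K)

/-- the operator `A` -/
def opY (m : ι → ι → R) (φ : Finset ι → R) (J : Finset ι) : R :=
  ∑ T ∈ J.powerset.erase ∅, φ T * ∏ q ∈ J \ T, ∑ p ∈ T, m q p

theorem opY_empty (m : ι → ι → R) (φ : Finset ι → R) : opY m φ ∅ = 0 := by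
  rw [opY, powerset_empty, erase_singleton, sum_empty]

private theorem AlgY_mem {T J : Finset ι} : T ∈ J.powerset.erase ∅ ↔ T ≠ ∅ ∧ T ⊆ J := by
  rw [mem_erase, mem_powerset]

/-- the operator on the solution `CZ m f` (characteristic two) -/
theorem opY_CZ (h2 : ∀ x : R, x + x = 0) (m : ι → ι → R) (f : ι → R) (V : Finset ι) :
    opY m (CZ m f) V = if V.card = 1 then ∑ q ∈ V, f q else 0 := by
  have hneg : ∀ x : R, -x = x := fun x => neg_eq_of_add_eq_zero_left (h2 x)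
  have hpow : ∀ n : ℕ, ((-1 : R)) ^ n = 1 := fun n => by rw [hneg 1, one_pow]
  rcases V.eq_empty_or_nonempty with rfl | hV
  · rw [opY_empty, card_empty, if_neg zero_ne_one]
  · have h3 := forest_zero m f hV
    rw [hneg (∑ q ∈ V, f q)] at h3
    rw [← h3, opY]
    exact sum_congr rfl fun T _ => by rw [hpow, one_mul]

/-- the inner sum over the second factor -/
private theorem AlgY_inner (m : ι → ι → R) (ψ : Finset ι → R) (w : ι → R) (V : Finset ι) :
    ∑ L ∈ V.powerset.erase ∅, ψ L * ∏ q ∈ V \ L, (w q + ∑ p ∈ L, m q p) =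
      ∑ U ∈ V.powerset, (∏ q ∈ U, w q) * opY m ψ (V \ U) := by
  have h1 : ∀ L ∈ V.powerset.erase ∅, ψ L * ∏ q ∈ V \ L, (w q + ∑ p ∈ L, m q p) =
      ∑ U ∈ (V \ L).powerset, ψ L * ((∏ q ∈ U, w q) * ∏ q ∈ (V \ L) \ U, ∑ p ∈ L, m q p) := by
    intro L _
    rw [prod_add, mul_sum]
  have h2 : ∀ U ∈ V.powerset, (∏ q ∈ U, w q) * opY m ψ (V \ U) =
      ∑ L ∈ (V \ U).powerset.erase ∅,
        ψ L * ((∏ q ∈ U, w q) * ∏ q ∈ (V \ L) \ U, ∑ p ∈ L, m q p) := by
    intro U _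
    rw [opY, mul_sum]
    refine sum_congr rfl fun L _ => ?_
    rw [sdiff_right_comm]
    ring
  rw [sum_congr rfl h1, sum_congr rfl h2]
  refine sum_comm' ?_
  intro L U
  rw [AlgY_mem, AlgY_mem, mem_powerset, mem_powerset]
  constructor
  · rintro ⟨⟨h3, h4⟩, h5⟩
    have h6 := subset_sdiff.1 h5
    exact ⟨⟨h3, subset_sdiff.2 ⟨h4, h6.2.symm⟩⟩, h6.1⟩
  · rintro ⟨⟨h3, h4⟩, h5⟩
    have h6 := subset_sdiff.1 h4
    exact ⟨⟨h3, h6.1⟩, subset_sdiff.2 ⟨h5, h6.2.symm⟩⟩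

/-- **The operator on a star product.** -/
theorem opY_star (m : ι → ι → R) (φ ψ : Finset ι → R) (J : Finset ι) :
    opY m (starY φ ψ) J = ∑ K ∈ J.powerset.erase ∅,
      φ K * ∑ U ∈ (J \ K).powerset, (∏ q ∈ U, ∑ p ∈ K, m q p) * opY m ψ ((J \ K) \ U) := by
  have h1 : opY m (starY φ ψ) J = ∑ T ∈ J.powerset.erase ∅, ∑ K ∈ (T.powerset.erase ∅).erase T,
      φ K * ψ (T \ K) * ∏ q ∈ J \ T, ∑ p ∈ T, m q p := by
    unfold opY starY
    exact sum_congr rfl fun T _ => sum_mul _ _ _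
  have h2 : ∑ T ∈ J.powerset.erase ∅, ∑ K ∈ (T.powerset.erase ∅).erase T,
      φ K * ψ (T \ K) * ∏ q ∈ J \ T, ∑ p ∈ T, m q p =
      ∑ K ∈ J.powerset.erase ∅, ∑ T ∈ (J.powerset.erase ∅).filter (fun T => K ⊂ T),
        φ K * ψ (T \ K) * ∏ q ∈ J \ T, ∑ p ∈ T, m q p := by
    refine sum_comm' ?_
    intro T K
    rw [AlgY_mem, mem_erase, AlgY_mem, mem_filter, AlgY_mem, AlgY_mem]
    constructor
    · rintro ⟨⟨h3, h4⟩, h5, h6, h7⟩
      exact ⟨⟨⟨h3, h4⟩, h7.ssubset_of_ne h5⟩, h6, h7.trans h4⟩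
    · rintro ⟨⟨⟨h3, h4⟩, h5⟩, h6, h7⟩
      exact ⟨⟨h3, h4⟩, h5.ne, h6, h5.subset⟩
  rw [h1, h2]
  refine sum_congr rfl fun K hK => ?_
  obtain ⟨hK0, hKJ⟩ := AlgY_mem.1 hK
  have h3 : ∑ T ∈ (J.powerset.erase ∅).filter (fun T => K ⊂ T),
      φ K * ψ (T \ K) * ∏ q ∈ J \ T, ∑ p ∈ T, m q p =
      ∑ L ∈ (J \ K).powerset.erase ∅,
        φ K * (ψ L * ∏ q ∈ (J \ K) \ L, (∑ p ∈ K, m q p + ∑ p ∈ L, m q p)) := by
    refine sum_nbij' (fun T => T \ K) (fun L => K ∪ L) ?_ ?_ ?_ ?_ ?_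
    · intro T hT
      rw [mem_filter, AlgY_mem] at hT
      rw [AlgY_mem]
      refine ⟨?_, sdiff_subset_sdiff hT.1.2 (Subset.refl K)⟩
      intro h
      exact hT.2.not_subset (sdiff_eq_empty_iff_subset.1 h)
    · intro L hL
      rw [AlgY_mem] at hL
      have h4 := subset_sdiff.1 hL.2
      rw [mem_filter, AlgY_mem]
      refine ⟨⟨?_, union_subset hKJ h4.1⟩, ?_⟩
      · intro h
        exact hK0 (union_eq_empty.1 h).1
      · refine subset_union_left.ssubset_of_ne fun h => ?_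
        have h5 : L ⊆ K := by
          rw [h]
          exact subset_union_right
        exact hL.1 (disjoint_self_iff_empty L |>.1 (h4.2.mono_right h5))
    · intro T hT
      rw [mem_filter] at hT
      exact union_sdiff_of_subset hT.2.subset
    · intro L hL
      rw [AlgY_mem] at hL
      exact union_sdiff_cancel_left (subset_sdiff.1 hL.2).2.symm
    · intro T hT
      rw [mem_filter, AlgY_mem] at hT
      have h4 : (J \ K) \ (T \ K) = J \ T := by
        ext x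
        simp only [mem_sdiff]
        have h5 : x ∈ K → x ∈ T := fun h => hT.2.subset h
        tauto
      rw [h4, mul_assoc]
      congr 2
      refine prod_congr rfl fun q _ => ?_
      rw [← sum_sdiff hT.2.subset, add_comm]
  rw [h3, ← mul_sum, AlgY_inner]

/-- the operator on the star product with the solution `CZ m f` (characteristic two) -/
theorem opY_star_CZ (h2 : ∀ x : R, x + x = 0) (m : ι → ι → R) (φ : Finset ι → R) (f : ι → R)
    (J : Finset ι) :
    opY m (starY φ (CZ m f)) J = ∑ K ∈ J.powerset.erase ∅,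
      φ K * ∑ p ∈ J \ K, f p * ∏ q ∈ (J \ K).erase p, ∑ j ∈ K, m q j := by
  have h1 := opY_CZ h2 m f
  rw [opY_star]
  refine sum_congr rfl fun K _ => ?_
  congr 1
  generalize J \ K = V
  have h3 : ∀ U ∈ V.powerset, (∏ q ∈ U, ∑ p ∈ K, m q p) * opY m (CZ m f) (V \ U) =
      ∑ p ∈ V, if U = V.erase p then f p * ∏ q ∈ V.erase p, ∑ j ∈ K, m q j else 0 := by
    intro U hU
    rw [mem_powerset] at hU
    rw [h1]
    split_ifs with h4
    · obtain ⟨p, hp⟩ := card_eq_one.1 h4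
      have hpV : p ∈ V ∧ p ∉ U := by
        rw [← mem_sdiff, hp]
        exact mem_singleton_self p
      have hUV : U = V.erase p := by
        rw [← sdiff_singleton_eq_erase, ← hp, Finset.sdiff_sdiff_eq_self hU]
      rw [hp, sum_singleton, sum_eq_single_of_mem p hpV.1, if_pos hUV, hUV, mul_comm]
      intro p' hp' hne
      rw [if_neg]
      intro h5
      rw [h5] at hpV
      exact hpV.2 (mem_erase.2 ⟨hne.symm, hpV.1⟩)
    · rw [mul_zero]
      symm
      refine sum_eq_zero fun p hp => if_neg fun h5 => h4 ?_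
      rw [h5, sdiff_erase_self hp, card_singleton]
  rw [sum_congr rfl h3, sum_comm]
  refine sum_congr rfl fun p hp => ?_
  rw [sum_ite_eq' V.powerset (V.erase p), if_pos (mem_powerset.2 (erase_subset p V))]

/-- the star square with a weight vanishes if the total weight does -/
theorem starY_zero (b : ι → R) (ψ : Finset ι → R) {I : Finset ι}
    (hb : ∑ i ∈ I, b i = 0) : starY (fun T => (∑ i ∈ T, b i) * ψ T) ψ I = 0 := by
  unfold starY
  refine sum_involution (fun K _ => I \ K) ?_ ?_ ?_ ?_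
  · intro K hK
    rw [mem_erase, AlgY_mem] at hK
    have h3 : ∑ i ∈ I \ K, b i + ∑ i ∈ K, b i = 0 := by rw [sum_sdiff hK.2.2, hb]
    rw [Finset.sdiff_sdiff_eq_self hK.2.2]
    linear_combination ψ K * ψ (I \ K) * h3
  · intro K hK _ heq
    rw [mem_erase, AlgY_mem] at hK
    refine hK.2.1 ?_
    have h4 : Disjoint K K := by
      nth_rewrite 1 [← heq]
      exact sdiff_disjoint
    exact (disjoint_self_iff_empty K).1 h4
  · intro K hK
    rw [mem_erase, AlgY_mem] at hK ⊢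
    refine ⟨?_, ?_, sdiff_subset⟩
    · intro h
      refine hK.2.1 ?_
      have h4 : Disjoint I K := by
        rw [← h]
        exact sdiff_disjoint
      exact (disjoint_self_iff_empty K).1 (h4.mono_left hK.2.2)
    · intro h
      exact hK.1 (hK.2.2.antisymm (sdiff_eq_empty_iff_subset.1 h))
  · intro K hK
    rw [mem_erase, AlgY_mem] at hK
    exact Finset.sdiff_sdiff_eq_self hK.2.2

/-- the solution of the recursion with the second order right side -/
theorem algY_sol (h2 : ∀ x : R, x + x = 0) (m : ι → ι → R) (b f v : ι → R) {D : Finset ι}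
    {z : Finset ι → R}
    (h : ∀ J ⊆ D, J.Nonempty → ∑ T ∈ J.powerset.erase ∅, z T * ∏ q ∈ J \ T, ∑ p ∈ T, m q p =
      (∑ K ∈ J.powerset.erase ∅, ((∑ i ∈ K, b i) * CZ m f K) *
        ∑ p ∈ J \ K, f p * ∏ q ∈ (J \ K).erase p, ∑ j ∈ K, m q j) +
      if J.card = 1 then ∑ i ∈ J, v i else 0) :
    ∀ J ⊆ D, J.Nonempty →
      z J = starY (fun T => (∑ i ∈ T, b i) * CZ m f T) (CZ m f) J + CZ m v J := by
  have hneg : ∀ x : R, -x = x := fun x => neg_eq_of_add_eq_zero_left (h2 x)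
  have hpow : ∀ n : ℕ, ((-1 : R)) ^ n = 1 := fun n => by rw [hneg 1, one_pow]
  refine tri_unique (c := fun J T => ∏ q ∈ J \ T, ∑ p ∈ T, m q p) (by simp) ?_
  intro J hJ hJ0
  have h3 := opY_CZ h2 m v J
  rw [opY] at h3
  have h4 := opY_star_CZ h2 m (fun T => (∑ i ∈ T, b i) * CZ m f T) f J
  rw [opY] at h4
  have h5 := h J hJ hJ0
  rw [← h4, ← h3, ← sum_add_distrib] at h5
  refine Eq.trans (sum_congr rfl fun T _ => ?_) (h5.trans (sum_congr rfl fun T _ => ?_))
  · rw [hpow, one_mul]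
  · rw [hpow, one_mul, add_mul]

/-- **The conclusion at a set of total weight zero.** -/
theorem algY (h2 : ∀ x : R, x + x = 0) (m : ι → ι → R) (b f v : ι → R) {D : Finset ι}
    {z : Finset ι → R} (hD : D.Nonempty)
    (h : ∀ J ⊆ D, J.Nonempty → ∑ T ∈ J.powerset.erase ∅, z T * ∏ q ∈ J \ T, ∑ p ∈ T, m q p =
      (∑ K ∈ J.powerset.erase ∅, ((∑ i ∈ K, b i) * CZ m f K) *
        ∑ p ∈ J \ K, f p * ∏ q ∈ (J \ K).erase p, ∑ j ∈ K, m q j) +
      if J.card = 1 then ∑ i ∈ J, v i else 0)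
    (hb : ∑ i ∈ D, b i = 0) : z D = CZ m v D := by
  rw [algY_sol h2 m b f v h D (Subset.refl D) hD, starY_zero b (CZ m f) hb, zero_add]

end Pool.Agent.Lib.MP_1a91b9_ntQ
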