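import Pool.Agent.Lib.MP_1a91b9_ntQ.A.AlgY

/-!
# Quartic twists, part A, file AlgZ: the algebra of the class (X) modulo `λ 𝔪`

`R` is a commutative ring with `2 = 0` and `l * l = 0` (`B` modulo `λ 𝔪`), `W T q` the weights `g (exponent of χ_T (q))`,
`W' T q = W T q + l s_q` the weights of the other family, `m` the weights modulo the maximal ideal.
-/

set_option autoImplicit false

namespace Pool.Agent.Lib.MP_1a91b9_ntQ

open Finset
open Pool.Agent.Lib.MP_1a91b9_ntK (CZ CZ_eq forest_zero tri_unique)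

variable {ι : Type*} [DecidableEq ι] {R : Type*} [CommRing R]

private theorem AlgZ_two : ∀ x : ZMod 2, x + x = 0 := by decide

/-- equality up to the annihilator of `l`: products -/
private theorem AlgZ_prod (l : R) {α : Type*} [DecidableEq α] (V : Finset α) (f g : α → R)
    (h : ∀ q ∈ V, l * f q = l * g q) : l * ∏ q ∈ V, f q = l * ∏ q ∈ V, g q := by
  induction V using Finset.induction_on with
  | empty => rfl
  | insert a V ha ih =>
    rw [prod_insert ha, prod_insert ha]
    have h1 := ih fun q hq => h q (mem_insert_of_mem hq)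
    have h2 := h a (mem_insert_self a V)
    linear_combination (∏ q ∈ V, f q) * h2 + g a * h1

/-- the first order expansion of a product -/
private theorem AlgZ_expand (l : R) (hl : l * l = 0) {α : Type*} [DecidableEq α] (V : Finset α)
    (w s : α → R) : ∏ q ∈ V, (w q + l * s q) =
      ∏ q ∈ V, w q + l * ∑ p ∈ V, s p * ∏ q ∈ V.erase p, w q := by
  induction V using Finset.induction_on with
  | empty => simp
  | insert a V ha ih =>
    have h1 : ∑ p ∈ V, s p * ∏ q ∈ (insert a V).erase p, w q =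
        w a * ∑ p ∈ V, s p * ∏ q ∈ V.erase p, w q := by
      rw [mul_sum]
      refine sum_congr rfl fun p hp => ?_
      have hpa : a ≠ p := fun h => ha (h ▸ hp)
      rw [erase_insert_of_ne hpa, prod_insert (fun h => ha (mem_of_mem_erase h))]
      ring
    rw [prod_insert ha, prod_insert ha, ih, sum_insert ha, erase_insert ha, h1]
    linear_combination (s a * ∑ p ∈ V, s p * ∏ q ∈ V.erase p, w q) * hl

section

variable (h2 : ∀ x : R, x + x = 0) (l : R) (hl : l * l = 0) (φ : ZMod 2 →+* R)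
  (m : ι → ι → ZMod 2) (s a b : ι → ZMod 2) (W W' : Finset ι → ι → R) (G y μ : Finset ι → R)
  (D : Finset ι)

/-- the operator with general weights -/
def opW (W : Finset ι → ι → R) (y : Finset ι → R) (J : Finset ι) : R :=
  ∑ T ∈ J.powerset.erase ∅, y T * ∏ q ∈ J \ T, W T q

include h2 in
theorem opW_unique {W : Finset ι → ι → R} {y y' : Finset ι → R} {D : Finset ι}
    (h : ∀ J ⊆ D, J.Nonempty → opW W y J = opW W y' J) : ∀ J ⊆ D, J.Nonempty → y J = y' J := by
  have hneg : ∀ x : R, -x = x := fun x => neg_eq_of_add_eq_zero_left (h2 x)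
  have hpow : ∀ n : ℕ, ((-1 : R)) ^ n = 1 := fun n => by rw [hneg 1, one_pow]
  refine tri_unique (c := fun J T => ∏ q ∈ J \ T, W T q) (by simp) ?_
  intro J hJ hJ0
  refine Eq.trans (sum_congr rfl fun T _ => ?_) ((h J hJ hJ0).trans (sum_congr rfl fun T _ => ?_))
  · rw [hpow, one_mul]
  · rw [hpow, one_mul]

theorem opW_add (W : Finset ι → ι → R) (y y' : Finset ι → R) (J : Finset ι) :
    opW W (fun T => y T + y' T) J = opW W y J + opW W y' J := by
  unfold opW
  rw [← sum_add_distrib]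
  exact sum_congr rfl fun T _ => add_mul _ _ _

theorem opW_mul (W : Finset ι → ι → R) (x : R) (y : Finset ι → R) (J : Finset ι) :
    opW W (fun T => x * y T) J = x * opW W y J := by
  unfold opW
  rw [mul_sum]
  exact sum_congr rfl fun T _ => mul_assoc _ _ _

private theorem AlgZ_nonempty {T J : Finset ι} (h : T ∈ J.powerset.erase ∅) : T.Nonempty :=
  nonempty_iff_ne_empty.2 (mem_erase.1 h).1

/-- the operator up to the annihilator of `l` -/
theorem opW_red {W : Finset ι → ι → R} {l : R} {φ : ZMod 2 →+* R} {m : ι → ι → ZMod 2}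
    (hW : ∀ T : Finset ι, T.Nonempty → ∀ q, l * W T q = l * φ (∑ j ∈ T, m q j))
    {y : Finset ι → R} {y0 : Finset ι → ZMod 2} {J : Finset ι}
    (hy : ∀ T ⊆ J, T.Nonempty → l * y T = l * φ (y0 T)) :
    l * opW W y J = l * φ (opY m y0 J) := by
  unfold opW opY
  rw [map_sum, mul_sum, mul_sum]
  refine sum_congr rfl fun T hT => ?_
  have h1 : l * ∏ q ∈ J \ T, W T q = l * φ (∏ q ∈ J \ T, ∑ p ∈ T, m q p) := by
    rw [map_prod]
    exact AlgZ_prod l _ _ _ fun q _ => hW T (AlgZ_nonempty hT) q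
  have h2 := hy T (mem_powerset.1 (mem_erase.1 hT).2) (AlgZ_nonempty hT)
  rw [map_mul]
  linear_combination (∏ q ∈ J \ T, W T q) * h2 + φ (y0 T) * h1

/-- uniqueness up to the annihilator of `l` -/
theorem opW_red_unique {W : Finset ι → ι → R} {l : R} {φ : ZMod 2 →+* R} {m : ι → ι → ZMod 2}
    (hW : ∀ T : Finset ι, T.Nonempty → ∀ q, l * W T q = l * φ (∑ j ∈ T, m q j))
    {y : Finset ι → R} {v : ι → ZMod 2} {D : Finset ι}
    (h : ∀ J ⊆ D, J.Nonempty →
      l * opW W y J = l * φ (if J.card = 1 then ∑ q ∈ J, v q else 0)) :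
    ∀ J ⊆ D, J.Nonempty → l * y J = l * φ (CZ m v J) := by
  intro J
  induction J using Finset.strongInduction with
  | H J ih =>
    intro hJ hJ0
    have h1 := h J hJ hJ0
    rw [← opY_CZ AlgZ_two m v J] at h1
    have hm : J ∈ J.powerset.erase ∅ := mem_erase.2 ⟨hJ0.ne_empty, mem_powerset_self J⟩
    unfold opW opY at h1
    rw [← add_sum_erase _ _ hm, ← add_sum_erase _ _ hm, Finset.sdiff_self, prod_empty, prod_empty,
      mul_one, mul_one, map_add, mul_add, mul_add] at h1
    have h3 : l * ∑ T ∈ (J.powerset.erase ∅).erase J, y T * ∏ q ∈ J \ T, W T q =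
        l * φ (∑ T ∈ (J.powerset.erase ∅).erase J, CZ m v T * ∏ q ∈ J \ T, ∑ p ∈ T, m q p) := by
      rw [map_sum, mul_sum, mul_sum]
      refine sum_congr rfl fun T hT => ?_
      have hT1 := mem_erase.1 hT
      have hT2 := mem_erase.1 hT1.2
      have hT3 := mem_powerset.1 hT2.2
      have h4 := ih T (hT3.ssubset_of_ne hT1.1) (hT3.trans hJ) (nonempty_iff_ne_empty.2 hT2.1)
      have h5 : l * ∏ q ∈ J \ T, W T q = l * φ (∏ q ∈ J \ T, ∑ p ∈ T, m q p) := by
        rw [map_prod]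
        exact AlgZ_prod l _ _ _ fun q _ => hW T (AlgZ_nonempty hT1.2) q
      rw [map_mul]
      linear_combination (∏ q ∈ J \ T, W T q) * h4 + φ (CZ m v T) * h5
    linear_combination h1 - h3

include h2 in
/-- **The family `h = 1`** (the characters `χ'_T`, `T` containing the square of the auxiliary
character): all weights are `W'`. -/
theorem algZ_one
    (hW' : ∀ T : Finset ι, T.Nonempty → ∀ q, l * W' T q = l * φ (∑ j ∈ T, m q j))
    (hy : ∀ J ⊆ D, J.Nonempty → opW W' y J =
      (1 + l) * opW W' (fun T => μ T * (1 + G T)) J +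
        l * φ (if J.card = 1 then ∑ q ∈ J, a q else 0)) :
    ∀ J ⊆ D, J.Nonempty → y J = (1 + l) * (μ J * (1 + G J)) + l * φ (CZ m a J) := by
  refine opW_unique h2 (W := W') fun J hJ hJ0 => ?_
  rw [hy J hJ hJ0, opW_add, opW_mul, opW_mul,
    opW_red (m := m) (φ := φ) hW' (y0 := CZ m a) (fun T _ _ => rfl), opY_CZ AlgZ_two]

include h2 hl in
/-- **The family `h = 0`.** -/
theorem algZ_zero_all
    (hW : ∀ T : Finset ι, T.Nonempty → ∀ q, l * W T q = l * φ (∑ j ∈ T, m q j))
    (hWW : ∀ T : Finset ι, T.Nonempty → ∀ q, W' T q = W T q + l * φ (s q))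
    (hG : ∀ T : Finset ι, T.Nonempty → l * G T = l * φ (∑ i ∈ T, b i))
    (hμ : ∀ J ⊆ D, J.Nonempty → l * μ J = l * φ (CZ m s J))
    (hy : ∀ J ⊆ D, J.Nonempty → opW W y J =
      (1 + l) * opW W' (fun T => μ T * G T) J +
        l * φ (if J.card = 1 then ∑ q ∈ J, (a q + s q) else 0)) :
    ∀ J ⊆ D, J.Nonempty → y J = (1 + l) * (μ J * G J) + l * φ
      (starY (fun T => (∑ i ∈ T, b i) * CZ m s T) (CZ m s) J + CZ m (fun q => a q + s q) J) := by
  refine opW_unique h2 (W := W) fun J hJ hJ0 => ?_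
  have h3 := opY_star_CZ AlgZ_two m (fun T => (∑ i ∈ T, b i) * CZ m s T) s J
  rw [hy J hJ hJ0, opW_add, opW_mul, opW_mul,
    opW_red (m := m) (φ := φ) hW (y0 := fun T =>
      starY (fun T => (∑ i ∈ T, b i) * CZ m s T) (CZ m s) T + CZ m (fun q => a q + s q) T)
      (fun T _ _ => rfl)]
  have h4 : opY m (fun T =>
      starY (fun T => (∑ i ∈ T, b i) * CZ m s T) (CZ m s) T + CZ m (fun q => a q + s q) T) J =
      opY m (starY (fun T => (∑ i ∈ T, b i) * CZ m s T) (CZ m s)) J +
        opY m (CZ m (fun q => a q + s q)) J := by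
    unfold opY
    rw [← sum_add_distrib]
    exact sum_congr rfl fun T _ => add_mul _ _ _
  rw [h4, opY_CZ AlgZ_two, h3, map_add, mul_add, ← add_assoc]
  congr 1
  have h5 : opW W' (fun T => μ T * G T) J = opW W (fun T => μ T * G T) J +
      l * ∑ T ∈ J.powerset.erase ∅, μ T * G T *
        ∑ p ∈ J \ T, φ (s p) * ∏ q ∈ (J \ T).erase p, W T q := by
    unfold opW
    rw [mul_sum, ← sum_add_distrib]
    refine sum_congr rfl fun T hT => ?_
    have h6 : ∏ q ∈ J \ T, W' T q = ∏ q ∈ J \ T, (W T q + l * φ (s q)) :=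
      prod_congr rfl fun q _ => hWW T (AlgZ_nonempty hT) q
    rw [h6, AlgZ_expand l hl]
    ring
  have h7 : l * ∑ T ∈ J.powerset.erase ∅, μ T * G T *
      ∑ p ∈ J \ T, φ (s p) * ∏ q ∈ (J \ T).erase p, W T q =
      l * φ (∑ K ∈ J.powerset.erase ∅, ((∑ i ∈ K, b i) * CZ m s K) *
        ∑ p ∈ J \ K, s p * ∏ q ∈ (J \ K).erase p, ∑ j ∈ K, m q j) := by
    rw [map_sum, mul_sum, mul_sum]
    refine sum_congr rfl fun T hT => ?_
    have h8 : l * ∑ p ∈ J \ T, φ (s p) * ∏ q ∈ (J \ T).erase p, W T q =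
        l * φ (∑ p ∈ J \ T, s p * ∏ q ∈ (J \ T).erase p, ∑ j ∈ T, m q j) := by
      rw [map_sum, mul_sum, mul_sum]
      refine sum_congr rfl fun p _ => ?_
      have h9 : l * ∏ q ∈ (J \ T).erase p, W T q =
          l * φ (∏ q ∈ (J \ T).erase p, ∑ j ∈ T, m q j) := by
        rw [map_prod]
        exact AlgZ_prod l _ _ _ fun q _ => hW T (AlgZ_nonempty hT) q
      rw [map_mul]
      linear_combination φ (s p) * h9
    have h10 := hμ T ((mem_powerset.1 (mem_erase.1 hT).2).trans hJ) (AlgZ_nonempty hT)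
    have h11 := hG T (AlgZ_nonempty hT)
    rw [map_mul, map_mul]
    linear_combination (G T * ∑ p ∈ J \ T, φ (s p) * ∏ q ∈ (J \ T).erase p, W T q) * h10 +
      (φ (CZ m s T) * ∑ p ∈ J \ T, φ (s p) * ∏ q ∈ (J \ T).erase p, W T q) * h11 +
      (φ (CZ m s T) * φ (∑ i ∈ T, b i)) * h8
  rw [h5]
  linear_combination (1 + l) * h7 + (φ (∑ K ∈ J.powerset.erase ∅, ((∑ i ∈ K, b i) * CZ m s K) *
        ∑ p ∈ J \ K, s p * ∏ q ∈ (J \ K).erase p, ∑ j ∈ K, m q j)) * hl

include h2 hl in
/-- **The conclusion in the family `h = 0`** at a set with `∑ b = 0`. -/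
theorem algZ_zero
    (hW : ∀ T : Finset ι, T.Nonempty → ∀ q, l * W T q = l * φ (∑ j ∈ T, m q j))
    (hWW : ∀ T : Finset ι, T.Nonempty → ∀ q, W' T q = W T q + l * φ (s q))
    (hG : ∀ T : Finset ι, T.Nonempty → l * G T = l * φ (∑ i ∈ T, b i))
    (hμ : ∀ J ⊆ D, J.Nonempty → l * μ J = l * φ (CZ m s J))
    (hy : ∀ J ⊆ D, J.Nonempty → opW W y J =
      (1 + l) * opW W' (fun T => μ T * G T) J +
        l * φ (if J.card = 1 then ∑ q ∈ J, (a q + s q) else 0))
    (hD : D.Nonempty) (hb : ∑ i ∈ D, b i = 0) :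
    y D = (1 + l) * (μ D * G D) + l * φ (CZ m (fun q => a q + s q) D) := by
  rw [algZ_zero_all h2 l hl φ m s a b W W' G y μ D hW hWW hG hμ hy D (Subset.refl D) hD,
    starY_zero b (CZ m s) hb, zero_add]

end

end Pool.Agent.Lib.MP_1a91b9_ntQ
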