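import Pool.Agent.Lib.MP_1a91b9_ntQ.A.Sys4

/-!
# Quartic twists, part A, file Avg4: the averaging identity (ID)
-/

set_option autoImplicit false

namespace Pool.Agent.Lib.MP_1a91b9_ntQ

open NumberField Pool.Agent.Lib.MP_1a91b9_nuT Pool.Agent.Lib.MP_1a91b9_nuT.S3
  Pool.Agent.Lib.MP_1a91b9_nuT.Ell

noncomputable section

/-! ### The modulus `lam ^ 3` -/

instance isMod4 : IsMod (lam ^ 3) where
  ne := pow_ne_zero 3 lam_ne_zero
  inj u h := Units.ext (unit_in4 u.isUnit h)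
  surj a ha := by
    have h1 : ¬ lam ∣ a := by
      intro h
      have h2 : IsCoprime a lam := ha.of_isCoprime_of_dvd_right (dvd_pow_self _ (by norm_num))
      exact prime_lam.not_isUnit (isCoprime_self.1 (h2.of_isCoprime_of_dvd_left h))
    obtain ⟨k, hk⟩ := exists_pow_in4 h1
    obtain ⟨u, hu⟩ := isUnit_iO.pow k.val
    exact ⟨u, by rw [hu]; exact hk⟩

theorem in4_cop_lam {a : 𝓞 K} (h : In4 a) (n : ℕ) : IsCoprime a (lam ^ n) := by
  obtain ⟨b, hb⟩ := h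
  have h1 : IsCoprime a (lam ^ 3) := ⟨1, -b, by linear_combination hb⟩
  have h2 : IsCoprime a lam := h1.of_isCoprime_of_dvd_right (dvd_pow_self _ (by norm_num))
  exact h2.pow_right

/-! ### The sum of the coordinates modulo `4` -/

/-- the sum of the coordinates modulo `4` -/
def sm (x : 𝓞 K) : ZMod 4 := (((cp x).1 + (cp x).2 : ℤ) : ZMod 4)

theorem sm_coords (p q : ℤ) : sm ((p : 𝓞 K) + (q : 𝓞 K) * iO) = ((p + q : ℤ) : ZMod 4) := by
  rw [sm, cp_coords]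

theorem sm_add (x y : 𝓞 K) : sm (x + y) = sm x + sm y := by
  rw [sm, sm, sm, cp_add]
  push_cast [Prod.fst_add, Prod.snd_add]
  ring

theorem sm_lam3 (y : 𝓞 K) : sm (lam ^ 3 * y) = 0 := by
  have h : lam ^ 3 * y = ((-2 * (cp y).1 - 2 * (cp y).2 : ℤ) : 𝓞 K) +
      ((2 * (cp y).1 - 2 * (cp y).2 : ℤ) : 𝓞 K) * iO := by
    conv_lhs => rw [eq_cp y]
    rw [lam_cube]
    push_cast
    linear_combination 2 * ((cp y).2 : 𝓞 K) * iO_sq
  rw [h, sm_coords]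
  have e : (-2 * (cp y).1 - 2 * (cp y).2 + (2 * (cp y).1 - 2 * (cp y).2) : ℤ) =
      4 * (-(cp y).2) := by ring
  rw [e, Int.cast_mul]
  have h4 : ((4 : ℤ) : ZMod 4) = 0 := rfl
  rw [h4, zero_mul]

theorem sm_mul_in4 {d : 𝓞 K} (hd : In4 d) (x : 𝓞 K) : sm (d * x) = sm x := by
  obtain ⟨t, ht⟩ := hd
  have e : d * x = x + lam ^ 3 * (t * x) := by linear_combination x * ht
  rw [e, sm_add, sm_lam3, add_zero]

theorem nn_sm (y : 𝓞 K) : nn (1 + lam ^ 3 * y) = sm y := by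
  have h := nn_form (cp y).1 (cp y).2
  rw [← eq_cp y] at h
  rw [h, sm]
  push_cast
  rfl

theorem nn_add {c : 𝓞 K} (hc : In4 c) (y : 𝓞 K) : nn (c + lam ^ 3 * y) = nn c + sm y := by
  obtain ⟨a, ha⟩ := hc
  have e1 : c = 1 + lam ^ 3 * a := by linear_combination ha
  have e2 : c + lam ^ 3 * y = 1 + lam ^ 3 * (a + y) := by linear_combination ha
  rw [e2, e1, nn_sm, nn_sm, sm_add]

/-! ### The characters -/

theorem th4_one (k : ZMod 4) : th4 k 1 = 1 := by rw [th4, nn_one, mul_zero, e4_zero]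

theorem th4_mul (k : ZMod 4) {a b : 𝓞 K} (ha : In4 a) (hb : In4 b) :
    th4 k (a * b) = th4 k a * th4 k b := by
  rw [th4, nn_mul ha hb, mul_add, e4_add]
  rfl

theorem norm_th4 (k : ZMod 4) (a : 𝓞 K) : ‖th4 k a‖ = 1 := norm_e4 _

theorem th4_ne (k : ZMod 4) (a : 𝓞 K) : th4 k a ≠ 0 := e4_ne _

theorem th4_zero (a : 𝓞 K) : th4 0 a = 1 := by rw [th4, zero_mul, e4_zero]

theorem f4_zero : f4 0 = lam ^ 3 := by
  unfold f4
  rw [if_pos rfl]

theorem f4_two : f4 2 = lam ^ 4 := by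
  unfold f4
  have h : (2 : ZMod 4) ≠ 0 := by decide
  rw [if_neg h, if_pos rfl]

theorem f4_odd {k : ZMod 4} (h0 : k ≠ 0) (h2 : k ≠ 2) : f4 k = lam ^ 6 := by
  unfold f4
  rw [if_neg h0, if_neg h2]

theorem f4_cases (k : ZMod 4) : k = 0 ∨ k = 2 ∨ (k ≠ 0 ∧ k ≠ 2) := by
  by_cases h0 : k = 0
  · exact Or.inl h0
  · by_cases h2 : k = 2
    · exact Or.inr (Or.inl h2)
    · exact Or.inr (Or.inr ⟨h0, h2⟩)

theorem f4_pow (k : ZMod 4) : ∃ n : ℕ, f4 k = lam ^ n ∧ 3 ≤ n := by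
  rcases f4_cases k with rfl | rfl | ⟨h0, h2⟩
  · exact ⟨3, f4_zero, le_refl _⟩
  · exact ⟨4, f4_two, by norm_num⟩
  · exact ⟨6, f4_odd h0 h2, by norm_num⟩

theorem f4_ne (k : ZMod 4) : f4 k ≠ 0 := by
  obtain ⟨n, h, -⟩ := f4_pow k
  rw [h]
  exact pow_ne_zero _ lam_ne_zero

theorem f4_dvd (k : ZMod 4) : lam ^ 3 ∣ f4 k := by
  obtain ⟨n, h, hn⟩ := f4_pow k
  rw [h]
  exact pow_dvd_pow _ hn

theorem in4_cop_f4 {a : 𝓞 K} (h : In4 a) (k : ZMod 4) : IsCoprime a (f4 k) := by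
  obtain ⟨n, hn, -⟩ := f4_pow k
  rw [hn]
  exact in4_cop_lam h n

theorem th4_congr (k : ZMod 4) {a b : 𝓞 K} (ha : In4 a) (h : f4 k ∣ a - b) :
    th4 k a = th4 k b := by
  rcases f4_cases k with rfl | rfl | ⟨h0, h2⟩
  · rw [th4_zero, th4_zero]
  · rw [f4_two] at h
    have h1 := aa_congr ha h
    have h3 : ∀ x y : ZMod 4, md x = md y → 2 * x = 2 * y := by decide
    rw [th4, th4, h3 _ _ h1]
  · rw [f4_odd h0 h2] at h
    rw [th4, th4, nn_congr6 ha h]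

theorem th4_chr (k : ZMod 4) : Chr (lam ^ 3) (f4 k) (th4 k) where
  ne := f4_ne k
  dvd := f4_dvd k
  one := th4_one k
  mul _ _ ha hb := th4_mul k ha hb
  le a _ := (norm_th4 k a).le
  zero _ ha hc := absurd (in4_cop_f4 ha k) hc
  per _ _ ha h := th4_congr k ha h

theorem ch4_of_dvd {q : Pg} {x : 𝓞 K} (h : q.1 ∣ x) : ch4 q x = 0 := by
  unfold ch4
  exact if_pos h

theorem ch4_of_not {q : Pg} {x : 𝓞 K} (h : ¬ q.1 ∣ x) : ch4 q x = e4 (c4 q x) := by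
  unfold ch4
  exact if_neg h

theorem ch4_chrP (q : Pg) : ChrP q.1 (ch4 q) where
  one := by
    have h : ¬ q.1 ∣ (1 : 𝓞 K) := fun h => q.2.1.not_isUnit (isUnit_of_dvd_one h)
    rw [ch4_of_not h, c4_one, e4_zero]
  mul a b := by
    by_cases ha : q.1 ∣ a
    · rw [ch4_of_dvd ha, ch4_of_dvd (ha.mul_right _), zero_mul]
    · by_cases hb : q.1 ∣ b
      · rw [ch4_of_dvd hb, ch4_of_dvd (hb.mul_left _), mul_zero]
      · have hab : ¬ q.1 ∣ a * b := fun h => (q.2.1.dvd_or_dvd h).elim ha hb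
        rw [ch4_of_not ha, ch4_of_not hb, ch4_of_not hab, c4_mul q ha hb, e4_add]
  le a := by
    by_cases ha : q.1 ∣ a
    · rw [ch4_of_dvd ha, norm_zero]
      exact zero_le_one
    · rw [ch4_of_not ha, norm_e4]
  zero _ ha := ch4_of_dvd ha
  per a b hab := by
    by_cases ha : q.1 ∣ a
    · have hb : q.1 ∣ b := by
        have h := dvd_sub ha hab
        rwa [sub_sub_cancel] at h
      rw [ch4_of_dvd ha, ch4_of_dvd hb]
    · have hb : ¬ q.1 ∣ b := by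
        intro hb
        apply ha
        have h := dvd_add hab hb
        rwa [sub_add_cancel] at h
      rw [ch4_of_not ha, ch4_of_not hb, c4_congr q ha hab]

theorem X4_chr (k : ZMod 4) (T : Finset Pg) : Chr (lam ^ 3) (f4 k * DDq T) (X4 k T) :=
  (th4_chr k).XT (f := lam ^ 3) (fun q => ch4_chrP q) T

theorem X4_eq (k : ZMod 4) (T : Finset Pg) (x : 𝓞 K) : X4 k T x = th4 k x * ∏ q ∈ T, ch4 q x := rfl

theorem X4_of_cop (k : ZMod 4) {T : Finset Pg} {x : 𝓞 K} (h : ∀ q ∈ T, ¬ q.1 ∣ x) :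
    X4 k T x = e4 (k * nn x + ∑ q ∈ T, c4 q x) := by
  rw [X4_eq, th4, e4_add, e4_sum]
  congr 1
  exact Finset.prod_congr rfl fun q hq => ch4_of_not (h q hq)

theorem L4_diff (k : ZMod 4) (T : Finset Pg) : Differentiable ℂ (L4 k T) := (X4_chr k T).LG_diff

theorem L4_eq (k : ZMod 4) (T : Finset Pg) (s : ℂ) (hs : 2 < s.re) :
    L4 k T s = S4.Lf (pG (lam ^ 3) (X4 k T)) s := (X4_chr k T).LG_eq s hs

/-! ### The representatives -/

/-- the quotient of the modulus of `th4 k` by `lam ^ 3` -/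
def g4 (k : ZMod 4) : 𝓞 K := if k = 0 then 1 else if k = 2 then lam else lam ^ 3

theorem g4_zero : g4 0 = 1 := by
  unfold g4
  rw [if_pos rfl]

theorem g4_two : g4 2 = lam := by
  unfold g4
  have h : (2 : ZMod 4) ≠ 0 := by decide
  rw [if_neg h, if_pos rfl]

theorem g4_odd {k : ZMod 4} (h0 : k ≠ 0) (h2 : k ≠ 2) : g4 k = lam ^ 3 := by
  unfold g4
  rw [if_neg h0, if_neg h2]

theorem f4_eq (k : ZMod 4) : f4 k = lam ^ 3 * g4 k := by
  rcases f4_cases k with rfl | rfl | ⟨h0, h2⟩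
  · rw [f4_zero, g4_zero, mul_one]
  · rw [f4_two, g4_two]
    ring
  · rw [f4_odd h0 h2, g4_odd h0 h2]
    ring

/-- representatives modulo `lam ^ 3 g D` from the representatives modulo `lam ^ 3 D` and
representatives modulo `g` -/
theorem reps4 {k : ZMod 4} {S : Finset Pg} {ι κ : Type} {c : ι → 𝓞 K} {x : κ → 𝓞 K}
    (h : RepsG (lam ^ 3) (lam ^ 3 * DDq S) c) (hex : ∀ a : 𝓞 K, ∃ j, g4 k ∣ a - x j)
    (hinj : ∀ i j, g4 k ∣ x i - x j → i = j) :
    RepsG (lam ^ 3) (f4 k * DDq S) (fun p : ι × κ => c p.1 + lam ^ 3 * (DDq S * x p.2)) := by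
  have hin : ∀ p : ι × κ, In4 (c p.1 + lam ^ 3 * (DDq S * x p.2)) := by
    rintro ⟨i, j⟩
    refine (in4_congr ?_).2 (h.fx i)
    change lam ^ 3 ∣ c i + lam ^ 3 * (DDq S * x j) - c i
    rw [add_sub_cancel_left]
    exact dvd_mul_right _ _
  refine ⟨?_, ?_, hin, ?_, ?_, ?_⟩
  · exact mul_ne_zero (f4_ne k) (DDq_in4 S).ne_zero
  · exact (f4_dvd k).mul_right _
  · rintro ⟨i, j⟩
    refine IsCoprime.mul_right (in4_cop_f4 (hin (i, j)) k) ?_
    change IsCoprime (c i + lam ^ 3 * (DDq S * x j)) (DDq S)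
    obtain ⟨p, q, hpq⟩ := (h.cop i).of_isCoprime_of_dvd_right (dvd_mul_left (DDq S) (lam ^ 3))
    exact ⟨p, q - p * lam ^ 3 * x j, by linear_combination hpq⟩
  · intro a ha h1
    have h2 : IsCoprime a (lam ^ 3 * DDq S) :=
      ha.of_isCoprime_of_dvd_right (mul_dvd_mul_right (f4_dvd k) _)
    obtain ⟨i, e, he⟩ := h.ex a h2 h1
    obtain ⟨j, t, ht⟩ := hex e
    refine ⟨(i, j), t, ?_⟩
    change a - (c i + lam ^ 3 * (DDq S * x j)) = _
    rw [f4_eq]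
    linear_combination he + lam ^ 3 * DDq S * ht
  · rintro ⟨i, j⟩ ⟨i', j'⟩ ⟨t, ht⟩
    change c i + lam ^ 3 * (DDq S * x j) - (c i' + lam ^ 3 * (DDq S * x j')) = _ at ht
    rw [f4_eq] at ht
    have h1 : i = i' := h.inj i i' ⟨g4 k * t - x j + x j', by linear_combination ht⟩
    subst h1
    have h2 : lam ^ 3 * DDq S * (x j - x j') = lam ^ 3 * DDq S * (g4 k * t) := by
      linear_combination ht
    have h3 := mul_left_cancel₀ h.ne h2
    rw [hinj j j' ⟨t, h3⟩]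

/-! ### The identity -/

theorem em_DDq (S : Finset Pg) : em (DDq S) = ∏ q ∈ S, em q.1 := by
  induction S using Finset.induction_on with
  | empty => rw [DDq_empty, em_one, Finset.prod_empty]
  | insert q S hq ih => rw [DDq_insert hq, em_mul, ih, Finset.prod_insert hq]

theorem em_lam : em lam = lm := by
  rw [lam, lm, em_add, em_one]
  rfl

theorem w4_per {S : Finset Pg} {a b : 𝓞 K} (h : DDq S ∣ a - b) : w4 S a = w4 S b := by
  unfold w4
  refine Finset.prod_congr rfl fun q hq => ?_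
  rw [(ch4_chrP q).per a b ((dvd_DDq.2 hq).trans h)]

/-- The identity with a general system of representatives modulo `g4 k`. -/
theorem avg_gen (k : ZMod 4) (S : Finset Pg) {ι κ : Type} [Fintype ι] [Fintype κ] {c : ι → 𝓞 K}
    {x : κ → 𝓞 K} (h : RepsG (lam ^ 3) (lam ^ 3 * DDq S) c) (hex : ∀ a : 𝓞 K, ∃ j, g4 k ∣ a - x j)
    (hinj : ∀ i j, g4 k ∣ x i - x j → i = j) :
    ∑ T ∈ S.powerset, (-1) ^ T.card * (La4 k T * ∏ q ∈ S \ T, (em q.1 - X4 k T q.1)) =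
      ∑ i, th4 k (c i) * w4 S (c i) *
        ∑ j, e4 (k * sm (x j)) * E1 (zp k S (c i) + em (x j) / em (g4 k)) := by
  let _ : DecidableEq (Pf (lam ^ 3)) := inferInstanceAs (DecidableEq Pg)
  have h1 := Gen_avg (th4_chr k) (fun q : Pf (lam ^ 3) => ch4_chrP q) S (fun _ => -1)
    (reps4 h hex hinj)
  have hf : em (f4 k) ≠ 0 := em_ne (f4_ne k)
  have hD : em (DDq S) ≠ 0 := em_ne (DDq_in4 S).ne_zero
  have hg0 : g4 k ≠ 0 := by
    intro h0
    apply f4_ne k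
    rw [f4_eq, h0, mul_zero]
  have hg : em (g4 k) ≠ 0 := em_ne hg0
  have hl : em (lam ^ 3) ≠ 0 := em_ne (pow_ne_zero 3 lam_ne_zero)
  have h2 := congrArg (fun z : ℂ => em (f4 k * DDq S) * z) h1
  have hfD : em (f4 k * DDq S) ≠ 0 := em_ne (mul_ne_zero (f4_ne k) (DDq_in4 S).ne_zero)
  change em (f4 k * DDq S) * _ = em (f4 k * DDq S) * ((em (f4 k * DDq S))⁻¹ * _) at h2
  rw [mul_inv_cancel_left₀ hfD, Finset.mul_sum] at h2
  have e1 : ∀ T ∈ S.powerset, (-1) ^ T.card * (La4 k T * ∏ q ∈ S \ T, (em q.1 - X4 k T q.1)) =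
      em (f4 k * DDq S) * ((∏ q ∈ T, (-1 : ℂ)) *
      (LG (lam ^ 3) (XT (f := lam ^ 3) (th4 k) (fun q => ch4 q) T) 1 *
        ∏ q ∈ S \ T, (1 - XT (f := lam ^ 3) (th4 k) (fun q => ch4 q) T q.1 / em q.1))) := by
    intro T hT
    rw [Finset.prod_const, La4, em_mul, em_mul, em_DDq, em_DDq]
    have e2 : ∏ q ∈ S \ T, (em q.1 - X4 k T q.1) =
        (∏ q ∈ S \ T, em q.1) * ∏ q ∈ S \ T, (1 - X4 k T q.1 / em q.1) := by
      rw [← Finset.prod_mul_distrib]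
      refine Finset.prod_congr rfl fun q _ => ?_
      have hq : em q.1 ≠ 0 := em_ne q.ne_zero
      field_simp
    have e3 : ∏ q ∈ S, em q.1 = (∏ q ∈ T, em q.1) * ∏ q ∈ S \ T, em q.1 := by
      rw [mul_comm, Finset.prod_sdiff (Finset.mem_powerset.1 hT)]
    rw [e2, e3]
    change _ = em (f4 k) * _ * (_ * (L4 k T 1 * ∏ q ∈ S \ T, (1 - X4 k T q.1 / em q.1)))
    ring
  rw [Finset.sum_congr rfl e1]
  refine h2.trans ?_
  rw [Fintype.sum_prod_type]
  refine Finset.sum_congr rfl fun i _ => ?_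
  rw [Finset.mul_sum]
  refine Finset.sum_congr rfl fun j _ => ?_
  change th4 k (c i + lam ^ 3 * (DDq S * x j)) *
    (∏ q ∈ S, (1 + -1 * ch4 q (c i + lam ^ 3 * (DDq S * x j)))) *
    E1 (em (c i + lam ^ 3 * (DDq S * x j)) / em (f4 k * DDq S)) = _
  have e2 : ∏ q ∈ S, (1 + -1 * ch4 q (c i + lam ^ 3 * (DDq S * x j))) = w4 S (c i) := by
    have h3 : w4 S (c i + lam ^ 3 * (DDq S * x j)) = w4 S (c i) := w4_per ⟨lam ^ 3 * x j, by ring⟩
    rw [← h3, w4]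
    exact Finset.prod_congr rfl fun q _ => by ring
  have e3 : th4 k (c i + lam ^ 3 * (DDq S * x j)) = th4 k (c i) * e4 (k * sm (x j)) := by
    rw [th4, nn_add (h.fx i), sm_mul_in4 (DDq_in4 S), mul_add, e4_add]
    rfl
  have e5 : em (c i + lam ^ 3 * (DDq S * x j)) / em (f4 k * DDq S) =
      zp k S (c i) + em (x j) / em (g4 k) := by
    have e6 : em (f4 k) = em (lam ^ 3) * em (g4 k) := by rw [f4_eq, em_mul]
    rw [zp, em_add, em_mul (lam ^ 3), em_mul (DDq S), em_mul (f4 k), e6]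
    field_simp
  rw [e2, e3, e5]
  ring

/-! ### The representatives modulo `g4 k` and the sums of `E1` -/

theorem sub_cp (x y : 𝓞 K) : cp (x - y) = ((cp x).1 - (cp y).1, (cp x).2 - (cp y).2) := cp_sub x y

/-- representatives modulo `lam ^ 3` -/
def x4 (p : ZMod 4 × Fin 2) : 𝓞 K :=
  (((p.1.val : ℤ) + (p.2.val : ℤ) : ℤ) : 𝓞 K) + ((-(p.2.val : ℤ) : ℤ) : 𝓞 K) * iO

theorem cp_x4 (p : ZMod 4 × Fin 2) :
    cp (x4 p) = ((p.1.val : ℤ) + (p.2.val : ℤ), -(p.2.val : ℤ)) := cp_coords _ _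

theorem sm_x4 (p : ZMod 4 × Fin 2) : sm (x4 p) = p.1 := by
  rw [sm, cp_x4]
  dsimp only
  have e : ((p.1.val : ℤ) + (p.2.val : ℤ) + -(p.2.val : ℤ)) = ((p.1.val : ℕ) : ℤ) := by ring
  rw [e, Int.cast_natCast, ZMod.natCast_zmod_val]

theorem x4_ex (a : 𝓞 K) : ∃ p, lam ^ 3 ∣ a - x4 p := by
  obtain ⟨b, hb⟩ : ∃ b : Fin 2, (b.val : ℤ) = (cp a).2 % 2 := by
    rcases Int.emod_two_eq_zero_or_one (cp a).2 with h | h
    · exact ⟨0, by rw [h]; rfl⟩
    · exact ⟨1, by rw [h]; rfl⟩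
  refine ⟨((((cp a).1 + (cp a).2 : ℤ) : ZMod 4), b), ?_⟩
  rw [lam3_dvd_iff, sub_cp, cp_x4]
  have h := ZMod.val_intCast (n := 4) ((cp a).1 + (cp a).2)
  dsimp only
  rw [h, hb]
  push_cast
  constructor
  · omega
  · omega

theorem x4_inj (p p' : ZMod 4 × Fin 2) (h : lam ^ 3 ∣ x4 p - x4 p') : p = p' := by
  rw [lam3_dvd_iff, sub_cp, cp_x4, cp_x4] at h
  dsimp only at h
  have h1 := ZMod.val_lt p.1
  have h2 := ZMod.val_lt p'.1
  have h3 := p.2.isLt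
  have h4 := p'.2.isLt
  have h5 : p.2.val = p'.2.val := by omega
  have h6 : p.1.val = p'.1.val := by omega
  exact Prod.ext (ZMod.val_injective 4 h6) (Fin.ext h5)

theorem em_x4 (p : ZMod 4 × Fin 2) :
    em (x4 p) / em (lam ^ 3) = (p.1.val : ℂ) * pe ^ 3 - (p.2.val : ℂ) / 2 := by
  have h1 : em (x4 p) = (p.1.val : ℂ) + (p.2.val : ℂ) * (1 - zt) := by
    have h2 : em (iO : 𝓞 K) = zt := rfl
    rw [x4, em_add, em_mul, em_intCast, em_intCast, h2]
    push_cast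
    ring
  have h3 : (1 - zt) * pe ^ 3 = -1 / 2 := by
    have e1 : pe ^ 4 = -1 / 4 := by
      have h4 := lm_four
      rw [pe, inv_pow, h4]
      norm_num
    have e2 := two_pe
    rw [← e2]
    linear_combination 2 * e1
  rw [em_pow, em_lam, h1, div_eq_mul_inv, ← inv_pow]
  change _ * pe ^ 3 = _
  linear_combination (p.2.val : ℂ) * h3

theorem E1_half (z : ℂ) : E1 (z - 1 / 2) = E1 (z + 1 / 2) := by
  refine E1_congr' ?_
  have e : z - 1 / 2 - (z + 1 / 2) = -1 := by ring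
  rw [e]
  exact neg_mem one_mem

theorem sum_x4 {k : ZMod 4} (h0 : k ≠ 0) (h2 : k ≠ 2) (z : ℂ) :
    ∑ p, e4 (k * sm (x4 p)) * E1 (z + em (x4 p) / em (lam ^ 3)) = Ph4 k z := by
  unfold Ph4
  rw [if_neg h0, if_neg h2, Fintype.sum_prod_type]
  refine Finset.sum_congr rfl fun j _ => ?_
  rw [Fin.sum_univ_two, sm_x4, sm_x4, em_x4, em_x4]
  dsimp only
  have v0 : (((0 : Fin 2).val : ℕ) : ℂ) = 0 := Nat.cast_zero
  have v1 : (((1 : Fin 2).val : ℕ) : ℂ) = 1 := Nat.cast_one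
  have e0 : z + ((j.val : ℂ) * pe ^ 3 - 0 / 2) = z + (j.val : ℂ) * pe ^ 3 := by ring
  have e1 : z + ((j.val : ℂ) * pe ^ 3 - 1 / 2) = z + (j.val : ℂ) * pe ^ 3 - 1 / 2 := by ring
  rw [v0, v1, e0, e1, E1_half]
  ring

theorem sm_zero : sm 0 = 0 := by
  have h := sm_coords 0 0
  simpa using h

theorem sm_one : sm 1 = 1 := by
  have h := sm_coords 1 0
  simpa using h

/-- **The identity (ID).** -/
theorem avg4 (k : ZMod 4) (S : Finset Pg) {ι : Type} [Fintype ι] {c : ι → 𝓞 K}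
    (h : RepsG (lam ^ 3) (lam ^ 3 * DDq S) c) :
    ∑ T ∈ S.powerset, (-1) ^ T.card * (La4 k T * ∏ q ∈ S \ T, (em q.1 - X4 k T q.1)) =
      ∑ i, th4 k (c i) * w4 S (c i) * Ph4 k (zp k S (c i)) := by
  rcases f4_cases k with rfl | rfl | ⟨h0, h2⟩
  · rw [avg_gen 0 S (κ := Unit) (x := fun _ => 0) h
      (fun a => ⟨(), by rw [g4_zero]; exact one_dvd _⟩) (fun _ _ _ => rfl)]
    refine Finset.sum_congr rfl fun i _ => ?_
    rw [Fintype.sum_unique, zero_mul, e4_zero, one_mul, em_zero, zero_div, add_zero, Ph4_zero]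
  · rw [avg_gen 2 S (κ := Fin 2) (x := fun b => (b.val : 𝓞 K)) h ?_ ?_]
    · refine Finset.sum_congr rfl fun i _ => ?_
      congr 1
      have v0 : (((0 : Fin 2).val : ℕ) : 𝓞 K) = 0 := Nat.cast_zero
      have v1 : (((1 : Fin 2).val : ℕ) : 𝓞 K) = 1 := Nat.cast_one
      have hpe : em 1 / em lam = pe := by rw [em_one, em_lam, pe, one_div]
      rw [Fin.sum_univ_two, v0, v1, sm_zero, sm_one, mul_zero, mul_one, e4_zero, e4_two, em_zero,
        zero_div, add_zero, g4_two, hpe]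
      unfold Ph4
      have h20 : (2 : ZMod 4) ≠ 0 := by decide
      rw [if_neg h20, if_pos rfl]
      ring
    · intro a
      rw [g4_two]
      rcases Int.emod_two_eq_zero_or_one ((cp a).1 + (cp a).2) with h1 | h1
      · refine ⟨0, ?_⟩
        have v0 : (((0 : Fin 2).val : ℕ) : 𝓞 K) = 0 := Nat.cast_zero
        rw [v0, sub_zero, lam_dvd_iff]
        exact Int.dvd_of_emod_eq_zero h1
      · refine ⟨1, ?_⟩
        have v1 : (((1 : Fin 2).val : ℕ) : 𝓞 K) = 1 := Nat.cast_one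
        rw [v1, lam_dvd_iff, sub_cp, cp_one]
        dsimp only
        omega
    · intro a b hab
      rw [g4_two, lam_dvd_iff, sub_cp] at hab
      have c1 : ∀ n : ℕ, cp (n : 𝓞 K) = ((n : ℤ), (0 : ℤ)) := by
        intro n
        have := cp_coords n 0
        simpa using this
      rw [c1, c1] at hab
      dsimp only at hab
      have h1 := a.isLt
      have h2 := b.isLt
      exact Fin.ext (by omega)
  · rw [avg_gen k S (κ := ZMod 4 × Fin 2) (x := x4) h ?_ ?_]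
    · refine Finset.sum_congr rfl fun i _ => ?_
      rw [g4_odd h0 h2, sum_x4 h0 h2]
    · rw [g4_odd h0 h2]
      exact x4_ex
    · rw [g4_odd h0 h2]
      exact x4_inj

/-! ### The points and the value for the empty set -/

theorem em_f4_inv {k : ZMod 4} {n : ℕ} (h : f4 k = lam ^ n) : (em (f4 k))⁻¹ = pe ^ n := by
  rw [h, em_pow, em_lam, pe, inv_pow]

theorem zp_eq {k : ZMod 4} {n : ℕ} (h : f4 k = lam ^ n) (S : Finset Pg) (c : 𝓞 K) :
    zp k S c = pe ^ n * (em c / em (DDq S)) := by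
  rw [zp, em_mul, ← em_f4_inv h]
  have h1 : em (f4 k) ≠ 0 := em_ne (f4_ne k)
  have h2 : em (DDq S) ≠ 0 := em_ne (DDq_in4 S).ne_zero
  field_simp

theorem zp_zero (S : Finset Pg) (c : 𝓞 K) : zp 0 S c = pe ^ 3 * (em c / em (DDq S)) :=
  zp_eq f4_zero S c

theorem zp_two (S : Finset Pg) (c : 𝓞 K) : zp 2 S c = pe ^ 4 * (em c / em (DDq S)) :=
  zp_eq f4_two S c

theorem zp_odd {k : ZMod 4} (h0 : k ≠ 0) (h2 : k ≠ 2) (S : Finset Pg) (c : 𝓞 K) :
    zp k S c = pe ^ 6 * (em c / em (DDq S)) := zp_eq (f4_odd h0 h2) S c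

theorem w4_empty (x : 𝓞 K) : w4 ∅ x = 1 := by
  unfold w4
  exact Finset.prod_empty

theorem reps_empty : RepsG (lam ^ 3) (lam ^ 3 * DDq ∅) (fun _ : Unit => (1 : 𝓞 K)) where
  ne := mul_ne_zero (pow_ne_zero 3 lam_ne_zero) (DDq_in4 ∅).ne_zero
  dvd := dvd_mul_right _ _
  fx _ := in4_one
  cop _ := isCoprime_one_left
  ex a _ h := ⟨(), by rw [DDq_empty, mul_one]; exact h⟩
  inj _ _ _ := rfl

theorem La4_empty (k : ZMod 4) : La4 k ∅ = Ph4 k (em (f4 k))⁻¹ := by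
  have h := avg4 k ∅ reps_empty
  rw [Finset.powerset_empty, Finset.sum_singleton, Finset.card_empty, pow_zero, one_mul,
    Finset.sdiff_self, Finset.prod_empty, mul_one, Fintype.sum_unique, th4_one, w4_empty, one_mul,
    one_mul] at h
  rw [h, zp, DDq_empty, mul_one, em_one, one_div]

theorem La4_empty_zero : La4 0 ∅ = E1 (pe ^ 3) := by
  rw [La4_empty, em_f4_inv f4_zero, Ph4_zero]

theorem La4_empty_two : La4 2 ∅ = -(Om * gg (pe ^ 4)) := by
  rw [La4_empty, em_f4_inv f4_two, Ph4_two]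

theorem La4_empty_odd {k : ZMod 4} (h0 : k ≠ 0) (h2 : k ≠ 2) :
    La4 k ∅ = -(Om * (HH (pe ^ 6) + e4 k * HH (pe ^ 6 + pe ^ 3))) := by
  rw [La4_empty, em_f4_inv (f4_odd h0 h2), Ph4_odd h0 h2]

end

end Pool.Agent.Lib.MP_1a91b9_ntQ
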