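import Pool.Agent.Lib.MP_1a91b9_ntQ.A.AvgE
import Pool.Agent.Lib.MP_1a91b9_ntQ.A.SysC

/-!
# Quartic twists, part A, file AvgC: the averaging identity for `y² = x³ - δ² x`
-/

set_option autoImplicit false
set_option linter.unusedSectionVars false

namespace Pool.Agent.Lib.MP_1a91b9_ntQ

open NumberField Pool.Agent.Lib.MP_1a91b9_nuT Pool.Agent.Lib.MP_1a91b9_nuT.S3
  Pool.Agent.Lib.MP_1a91b9_nuT.Ell

noncomputable section

/-! ### The general identity -/

/-- The identity with a general system of representatives modulo `lam ^ nC k j`. -/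
theorem avg_genC (k j : ZMod 2) (S : Finset Pg) {ι κ : Type} [Fintype ι] [Fintype κ] {c : ι → 𝓞 K}
    {x : κ → 𝓞 K} (h : RepsG (lam ^ 3) (lam ^ 3 * DDq S) c)
    (hex : ∀ a : 𝓞 K, ∃ l, lam ^ nC k j ∣ a - x l)
    (hinj : ∀ i l, lam ^ nC k j ∣ x i - x l → i = l) :
    ∑ T ∈ S.powerset, (-1) ^ T.card * (LaC k j T * ∏ q ∈ S \ T, (em q.1 - XC k j T q.1)) =
      ∑ i, wC S (c i) * ∑ l, thC k j (c i + lam ^ 3 * (DDq S * x l)) *
        E1 (em (c i) / em (fC k j * DDq S) + em (x l) / em (lam ^ nC k j)) := by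
  let _ : DecidableEq (Pf (lam ^ 3)) := inferInstanceAs (DecidableEq Pg)
  have h0 := repsG4 h hex hinj
  rw [← fC_eq] at h0
  have h1 := Gen_avg (thC_chr k j) (fun q : Pf (lam ^ 3) => chC_chrP q) S (fun _ => -1) h0
  have hl : em (lam ^ 3) ≠ 0 := em_ne (pow_ne_zero 3 lam_ne_zero)
  have hm : em (lam ^ nC k j) ≠ 0 := em_ne (pow_ne_zero _ lam_ne_zero)
  have hD : em (DDq S) ≠ 0 := em_ne (DDq_in4 S).ne_zero
  have hfD : em (fC k j * DDq S) ≠ 0 := em_ne (mul_ne_zero (fC_ne k j) (DDq_in4 S).ne_zero)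
  have h2 := congrArg (fun z : ℂ => em (fC k j * DDq S) * z) h1
  change em (fC k j * DDq S) * _ = em (fC k j * DDq S) * ((em (fC k j * DDq S))⁻¹ * _) at h2
  rw [mul_inv_cancel_left₀ hfD, Finset.mul_sum] at h2
  have e1 : ∀ T ∈ S.powerset, (-1) ^ T.card * (LaC k j T * ∏ q ∈ S \ T, (em q.1 - XC k j T q.1)) =
      em (fC k j * DDq S) * ((∏ q ∈ T, (-1 : ℂ)) *
      (LG (lam ^ 3) (XT (f := lam ^ 3) (thC k j) (fun q => chC q) T) 1 *
        ∏ q ∈ S \ T, (1 - XT (f := lam ^ 3) (thC k j) (fun q => chC q) T q.1 / em q.1))) := by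
    intro T hT
    rw [Finset.prod_const, LaC, em_mul (fC k j), em_mul (fC k j), em_DDq, em_DDq]
    have e2 : ∏ q ∈ S \ T, (em q.1 - XC k j T q.1) =
        (∏ q ∈ S \ T, em q.1) * ∏ q ∈ S \ T, (1 - XC k j T q.1 / em q.1) := by
      rw [← Finset.prod_mul_distrib]
      refine Finset.prod_congr rfl fun q _ => ?_
      have hq : em q.1 ≠ 0 := em_ne q.ne_zero
      field_simp
    have e3 : ∏ q ∈ S, em q.1 = (∏ q ∈ T, em q.1) * ∏ q ∈ S \ T, em q.1 := by
      rw [mul_comm, Finset.prod_sdiff (Finset.mem_powerset.1 hT)]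
    rw [e2, e3]
    change _ = em (fC k j) * _ * (_ * (LC k j T 1 * ∏ q ∈ S \ T, (1 - XC k j T q.1 / em q.1)))
    ring
  rw [Finset.sum_congr rfl e1]
  refine h2.trans ?_
  rw [Fintype.sum_prod_type]
  refine Finset.sum_congr rfl fun i _ => ?_
  rw [Finset.mul_sum]
  refine Finset.sum_congr rfl fun l _ => ?_
  change thC k j (c i + lam ^ 3 * (DDq S * x l)) *
    (∏ q ∈ S, (1 + -1 * chC q (c i + lam ^ 3 * (DDq S * x l)))) *
    E1 (em (c i + lam ^ 3 * (DDq S * x l)) / em (fC k j * DDq S)) = _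
  have e2 : ∏ q ∈ S, (1 + -1 * chC q (c i + lam ^ 3 * (DDq S * x l))) = wC S (c i) := by
    have h3 : wC S (c i + lam ^ 3 * (DDq S * x l)) = wC S (c i) := wC_per ⟨lam ^ 3 * x l, by ring⟩
    rw [← h3, wC]
    exact Finset.prod_congr rfl fun q _ => by ring
  have e5 : em (c i + lam ^ 3 * (DDq S * x l)) / em (fC k j * DDq S) =
      em (c i) / em (fC k j * DDq S) + em (x l) / em (lam ^ nC k j) := by
    rw [em_add, em_mul (lam ^ 3) (DDq S * x l), em_mul (DDq S), em_mul (fC k j), fC_eq,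
      em_mul (lam ^ 3)]
    field_simp
  rw [e2, e5]
  ring

/-! ### The sums over the classes modulo `fC k j / lam ^ 3` -/

theorem e2_k2 (k : ZMod 2) : e2 (k * (1 + 1)) = 1 := by
  have key : ∀ k : ZMod 2, k * (1 + 1) = 0 := by decide
  rw [key, e2_zero]

theorem thC_x (k j : ZMod 2) (m n : ℤ) (S : Finset Pg) :
    thC k j (DDq S * (1 + lam ^ 3 * ((m : 𝓞 K) + (n : 𝓞 K) * iO))) =
      thC k j (DDq S) * e2 (k * ((m : ZMod 2) + n) + j * (n : ZMod 2)) := by
  rw [thC_mul k j (DDq_in4 S) (in4_of m n), thC_form]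

/-- the representatives `D + f y` -/
theorem reps_yC (k j : ZMod 2) {S : Finset Pg} {ι : Type} {y : ι → 𝓞 K}
    (hy : RepsG 1 (DDq S) y) :
    RepsG (lam ^ 3) (lam ^ 3 * DDq S) (fun i => DDq S + fC k j * y i) := by
  have hin : ∀ i, In4 (DDq S + fC k j * y i) := by
    intro i
    refine (in4_congr ?_).2 (DDq_in4 S)
    rw [add_sub_cancel_left]
    exact (fC_dvd k j).mul_right _
  have hf : IsCoprime (fC k j) (DDq S) := (in4_cop_fC (DDq_in4 S) k j).symm
  refine ⟨mul_ne_zero (pow_ne_zero 3 lam_ne_zero) (DDq_in4 S).ne_zero, dvd_mul_right _ _, hin, ?_,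
    ?_, ?_⟩
  · intro i
    refine IsCoprime.mul_right (in4_cop_lam (hin i) 3) ?_
    refine Eul_cop (b := fC k j * y i) ⟨1, by ring⟩ ?_
    exact hf.mul_left (hy.cop i)
  · intro a ha h1
    obtain ⟨p, q, hpq⟩ := hf
    have hp : IsCoprime p (DDq S) := ⟨fC k j, q, by linear_combination hpq⟩
    have ha' : IsCoprime a (DDq S) := ha.of_isCoprime_of_dvd_right (dvd_mul_left _ _)
    obtain ⟨i, t, ht⟩ := hy.ex (p * a) (hp.mul_left ha') (one_dvd _)
    refine ⟨i, IsCoprime.mul_dvd (in4_cop_lam (DDq_in4 S) 3).symm ?_ ?_⟩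
    · have h2 : lam ^ 3 ∣ DDq S + fC k j * y i - 1 := hin i
      have e : a - (DDq S + fC k j * y i) = (a - 1) - (DDq S + fC k j * y i - 1) := by ring
      rw [e]
      exact dvd_sub h1 h2
    · exact ⟨q * a - 1 + fC k j * t, by linear_combination (-a) * hpq + fC k j * ht⟩
  · rintro i l ⟨t, ht⟩
    refine hy.inj i l ?_
    have h2 : DDq S ∣ fC k j * (y i - y l) := ⟨lam ^ 3 * t, by linear_combination ht⟩
    exact hf.symm.dvd_of_dvd_mul_left h2

theorem avgC_gen (k j : ZMod 2) (S : Finset Pg) {ι κ : Type} [Fintype ι] [Fintype κ]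
    {y : ι → 𝓞 K} (hy : RepsG 1 (DDq S) y) {m n : κ → ℤ}
    (hex : ∀ a : 𝓞 K, ∃ l, lam ^ nC k j ∣ a - ((m l : 𝓞 K) + (n l : 𝓞 K) * iO))
    (hinj : ∀ i l, lam ^ nC k j ∣ ((m i : 𝓞 K) + (n i : 𝓞 K) * iO) -
      ((m l : 𝓞 K) + (n l : 𝓞 K) * iO) → i = l)
    (hPh : ∀ z, ∑ l, e2 (k * ((m l : ZMod 2) + n l) + j * (n l : ZMod 2)) *
      E1 (z + ((m l : ℂ) + (n l : ℂ) * zt) / em (lam ^ nC k j)) = PhC k j z) :
    ∑ T ∈ S.powerset, (-1) ^ T.card * (LaC k j T * ∏ q ∈ S \ T, (em q.1 - XC k j T q.1)) =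
      thC k j (DDq S) * ∑ i, wC S (fC k j * y i) *
        PhC k j ((em (fC k j))⁻¹ + em (y i) / em (DDq S)) := by
  rw [avg_genC k j S (reps_yC k j hy) hex hinj, Finset.mul_sum]
  refine Finset.sum_congr rfl fun i _ => ?_
  have hf : em (fC k j) ≠ 0 := em_ne (fC_ne k j)
  have hD : em (DDq S) ≠ 0 := em_ne (DDq_in4 S).ne_zero
  have e1 : em (DDq S + fC k j * y i) / em (fC k j * DDq S) =
      (em (fC k j))⁻¹ + em (y i) / em (DDq S) := by
    rw [em_add, em_mul, em_mul]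
    field_simp
  have e2' : wC S (DDq S + fC k j * y i) = wC S (fC k j * y i) := wC_per ⟨1, by ring⟩
  rw [e1, e2', ← hPh, Finset.mul_sum, Finset.mul_sum, Finset.mul_sum]
  refine Finset.sum_congr rfl fun l _ => ?_
  have h2 : em (iO : 𝓞 K) = zt := rfl
  have e3 : em ((m l : 𝓞 K) + (n l : 𝓞 K) * iO) = (m l : ℂ) + (n l : ℂ) * zt := by
    rw [em_add, em_mul, em_intCast, em_intCast, h2]
  have e4 : thC k j (DDq S + fC k j * y i + lam ^ 3 * (DDq S * ((m l : 𝓞 K) + (n l : 𝓞 K) * iO))) =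
      thC k j (DDq S) * e2 (k * ((m l : ZMod 2) + n l) + j * (n l : ZMod 2)) := by
    rw [← thC_x]
    refine (thC_congr k j ((DDq_in4 S).mul (in4_of (m l) (n l))) ?_).symm
    exact ⟨-y i, by ring⟩
  rw [e3, e4]
  ring

theorem sum_fin2 (g : Fin 2 → ℂ) : ∑ b, g b = g 0 + g 1 := Fin.sum_univ_two g

theorem cp_nat (n : ℕ) : cp (n : 𝓞 K) = ((n : ℤ), (0 : ℤ)) := by
  have := cp_coords n 0
  simpa using this

/-- **The identity over the classes `y` modulo `D_S`.** -/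
theorem avgC_y (k j : ZMod 2) (S : Finset Pg) {ι : Type} [Fintype ι] {y : ι → 𝓞 K}
    (hy : RepsG 1 (DDq S) y) :
    ∑ T ∈ S.powerset, (-1) ^ T.card * (LaC k j T * ∏ q ∈ S \ T, (em q.1 - XC k j T q.1)) =
      thC k j (DDq S) * ∑ i, wC S (fC k j * y i) *
        PhC k j ((em (fC k j))⁻¹ + em (y i) / em (DDq S)) := by
  rcases kj_cases k j with ⟨rfl, rfl⟩ | ⟨rfl, rfl⟩ | rfl
  · refine avgC_gen 0 0 S hy (κ := Unit) (m := fun _ => 0) (n := fun _ => 0) ?_ ?_ ?_
    · intro a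
      exact ⟨(), by rw [nC_00, pow_zero]; exact one_dvd _⟩
    · intro _ _ _
      rfl
    · intro z
      rw [Fintype.sum_unique, PhC_00]
      simp [e2_zero]
  · refine avgC_gen 1 0 S hy (κ := Fin 2) (m := fun b => (b.val : ℤ)) (n := fun _ => 0) ?_ ?_ ?_
    · intro a
      rw [nC_10, pow_one]
      rcases Int.emod_two_eq_zero_or_one ((cp a).1 + (cp a).2) with h1 | h1
      · refine ⟨0, ?_⟩
        rw [lam_dvd_iff, sub_cp, cp_coords]
        have v0 : (((0 : Fin 2).val : ℕ) : ℤ) = 0 := rfl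
        rw [v0]
        dsimp only
        omega
      · refine ⟨1, ?_⟩
        rw [lam_dvd_iff, sub_cp, cp_coords]
        have v1 : (((1 : Fin 2).val : ℕ) : ℤ) = 1 := rfl
        rw [v1]
        dsimp only
        omega
    · intro a b hab
      rw [nC_10, pow_one, lam_dvd_iff, sub_cp, cp_coords, cp_coords] at hab
      dsimp only at hab
      have h1 := a.isLt
      have h2 := b.isLt
      exact Fin.ext (by omega)
    · intro z
      have v0 : (((0 : Fin 2).val : ℕ) : ℤ) = 0 := rfl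
      have v1 : (((1 : Fin 2).val : ℕ) : ℤ) = 1 := rfl
      have hpe : 1 / em lam = pe := by rw [em_lam, pe, one_div]
      rw [sum_fin2, v0, v1, nC_10, pow_one, PhC_10]
      simp only [Int.cast_zero, Int.cast_one, zero_mul, mul_zero, add_zero, mul_one, e2_zero,
        e2_one, zero_div, one_mul, hpe, E1_add_pe]
      ring
  · refine avgC_gen k 1 S hy (κ := Fin 2 × Fin 2) (m := fun b => (b.1.val : ℤ))
      (n := fun b => (b.2.val : ℤ)) ?_ ?_ ?_
    · intro a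
      obtain ⟨b, hb⟩ : ∃ b : Fin 2, (b.val : ℤ) = (cp a).1 % 2 := by
        rcases Int.emod_two_eq_zero_or_one (cp a).1 with h | h
        · exact ⟨0, by rw [h]; rfl⟩
        · exact ⟨1, by rw [h]; rfl⟩
      obtain ⟨c, hc⟩ : ∃ c : Fin 2, (c.val : ℤ) = (cp a).2 % 2 := by
        rcases Int.emod_two_eq_zero_or_one (cp a).2 with h | h
        · exact ⟨0, by rw [h]; rfl⟩
        · exact ⟨1, by rw [h]; rfl⟩
      refine ⟨(b, c), ?_⟩
      rw [nC_1, lam2_dvd_iff, sub_cp, cp_coords]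
      dsimp only
      rw [hb, hc]
      constructor
      · omega
      · omega
    · rintro ⟨a, b⟩ ⟨a', b'⟩ hab
      rw [nC_1, lam2_dvd_iff, sub_cp, cp_coords, cp_coords] at hab
      dsimp only at hab
      obtain ⟨h1, h2⟩ := hab
      have h3 := a.isLt
      have h4 := a'.isLt
      have h5 := b.isLt
      have h6 := b'.isLt
      have h7 : a = a' := Fin.ext (by omega)
      have h8 : b = b' := Fin.ext (by omega)
      rw [h7, h8]
    · intro z
      have v0 : (((0 : Fin 2).val : ℕ) : ℤ) = 0 := rfl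
      have v1 : (((1 : Fin 2).val : ℕ) : ℤ) = 1 := rfl
      rw [Fintype.sum_prod_type, sum_fin2, sum_fin2, sum_fin2, nC_1, PhC_1, em_pow, em_lam]
      dsimp only
      rw [v0, v1]
      have a0 : (((0 : ℤ) : ℂ) + ((0 : ℤ) : ℂ) * zt) / lm ^ 2 = 0 := by
        rw [Int.cast_zero, zero_mul, add_zero, zero_div]
      have a1 : (((0 : ℤ) : ℂ) + ((1 : ℤ) : ℂ) * zt) / lm ^ 2 = 1 / 2 := by
        rw [Int.cast_zero, Int.cast_one, one_mul, zero_add, lm_sq]
        have h := zt_ne0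
        field_simp
      have a2 : (((1 : ℤ) : ℂ) + ((0 : ℤ) : ℂ) * zt) / lm ^ 2 = pe ^ 2 := by
        rw [Int.cast_zero, Int.cast_one, zero_mul, add_zero, pe, inv_pow, one_div]
      have a3 : (((1 : ℤ) : ℂ) + ((1 : ℤ) : ℂ) * zt) / lm ^ 2 = pe := by
        have hl : lm ≠ 0 := by
          rw [← em_lam]
          exact em_ne lam_ne_zero
        have e : (1 : ℂ) + 1 * zt = lm := by rw [lm, one_mul]
        rw [Int.cast_one, e, pe]
        field_simp
      rw [a0, a1, a2, a3, add_zero, E1_half_pe2, E1_add_pe, E1_add_pe]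
      have key : ∀ k : ZMod 2,
          e2 (k * (((0 : ℤ) : ZMod 2) + ((0 : ℤ) : ZMod 2)) + 1 * ((0 : ℤ) : ZMod 2)) = 1 ∧
          e2 (k * (((0 : ℤ) : ZMod 2) + ((1 : ℤ) : ZMod 2)) + 1 * ((1 : ℤ) : ZMod 2)) = -e2 k ∧
          e2 (k * (((1 : ℤ) : ZMod 2) + ((0 : ℤ) : ZMod 2)) + 1 * ((0 : ℤ) : ZMod 2)) = e2 k ∧
          e2 (k * (((1 : ℤ) : ZMod 2) + ((1 : ℤ) : ZMod 2)) + 1 * ((1 : ℤ) : ZMod 2)) = -1 := by
        intro k
        have k1 : ∀ k : ZMod 2, k * (1 + 1) + 1 = 1 := by decide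
        refine ⟨?_, ?_, ?_, ?_⟩
        · rw [Int.cast_zero, add_zero, mul_zero, mul_zero, add_zero, e2_zero]
        · rw [Int.cast_zero, Int.cast_one, zero_add, mul_one, mul_one, e2_add, e2_one, mul_neg_one]
        · rw [Int.cast_zero, Int.cast_one, add_zero, mul_one, mul_zero, add_zero]
        · rw [Int.cast_one, mul_one, k1, e2_one]
      obtain ⟨k1, k2, k3, k4⟩ := key k
      rw [k1, k2, k3, k4]
      ring

/-! ### The number of the classes -/

section
variable {S : Finset Pg} {ι : Type} {c : ι → 𝓞 K} (hc : RepsG (lam ^ 3) (lam ^ 3 * DDq S) c)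
include hc

theorem sum_chC [Fintype ι] {T : Finset Pg} (hTS : T ⊆ S) (hT : T.Nonempty) :
    ∑ i, ∏ q ∈ T, chC q (c i) = 0 := by
  classical
  obtain ⟨r, hr⟩ := hT
  obtain ⟨σ, h1, h2⟩ := reps_tr hc (hTS hr) 1
  have hv : ∀ i, ∀ q ∈ T, chC q (c i) = e2 (c2 q (c i)) := fun i q hq =>
    chC_of_not (reps_not_dvd hc i (hTS hq))
  have h3 : ∑ i, ∏ q ∈ T, chC q (c i) = -∑ i, ∏ q ∈ T, chC q (c i) := by
    conv_lhs => rw [← Equiv.sum_comp σ]
    rw [← Finset.sum_neg_distrib]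
    refine Finset.sum_congr rfl fun i _ => ?_
    rw [← Finset.mul_prod_erase T _ hr, ← Finset.mul_prod_erase T _ hr, ← neg_mul]
    congr 1
    · have h5 : c2 r (c (σ i)) = c2 r (c i) + 1 := by
        unfold c2
        rw [h1, map_add, map_one]
      rw [hv _ r hr, hv _ r hr, h5, e2_add, e2_one, mul_neg_one]
    · refine Finset.prod_congr rfl fun q hq => ?_
      have hqT := Finset.mem_of_mem_erase hq
      have h5 : c2 q (c (σ i)) = c2 q (c i) := by
        unfold c2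
        rw [h2 i q (hTS hqT) (Finset.ne_of_mem_erase hq)]
      rw [hv _ q hqT, hv _ q hqT, h5]
  have h4 : 2 * ∑ i, ∏ q ∈ T, chC q (c i) = 0 := by linear_combination h3
  exact (mul_eq_zero.1 h4).resolve_left two_ne_zero

theorem sum_wC [Fintype ι] : ∑ i, wC S (c i) = ∏ q ∈ S, ((Nz q.1 : ℂ) - 1) := by
  classical
  have h1 : ∀ i, wC S (c i) = ∑ T ∈ S.powerset, (-1) ^ T.card * ∏ q ∈ T, chC q (c i) := by
    intro i
    unfold wC
    have e : ∀ q ∈ S, 1 - chC q (c i) = 1 + -chC q (c i) := fun q _ => by ring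
    rw [Finset.prod_congr rfl e, Finset.prod_one_add]
    refine Finset.sum_congr rfl fun T _ => ?_
    rw [Finset.prod_neg]
  rw [Finset.sum_congr rfl fun i _ => h1 i, Finset.sum_comm]
  rw [Finset.sum_eq_single_of_mem ∅ (Finset.empty_mem_powerset S)]
  · rw [Finset.card_empty, pow_zero, Finset.sum_congr rfl fun i _ => by
      rw [Finset.prod_empty, mul_one], Finset.sum_const, Finset.card_univ, card_reps hc]
    rw [nsmul_eq_mul, mul_one, Nat.cast_prod]
    refine Finset.prod_congr rfl fun q _ => ?_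
    have h2 := Nz_two_le q.prime
    rw [Nat.cast_sub (by omega), Nat.cast_one]
  · intro T hT hne
    rw [← Finset.mul_sum, sum_chC hc (Finset.mem_powerset.1 hT)
      (Finset.nonempty_iff_ne_empty.2 hne), mul_zero]

end

theorem wC_one {S : Finset Pg} {x : 𝓞 K} (h0 : ∀ q ∈ S, ¬ q.1 ∣ x) (h : ∀ q ∈ S, c2 q x = 1) :
    wC S x = 2 ^ S.card := by
  rw [wC, ← Finset.prod_const]
  refine Finset.prod_congr rfl fun q hq => ?_
  rw [chC_of_not (h0 q hq), h q hq, e2_one]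
  norm_num

theorem wC_zero {S : Finset Pg} {x : 𝓞 K} (h0 : ∀ q ∈ S, ¬ q.1 ∣ x)
    (h : ¬ ∀ q ∈ S, c2 q x = 1) : wC S x = 0 := by
  push Not at h
  obtain ⟨q, hq, h1⟩ := h
  have h2 : c2 q x = 0 := (zmod2_cases _).resolve_right h1
  rw [wC]
  refine Finset.prod_eq_zero hq ?_
  rw [chC_of_not (h0 q hq), h2, e2_zero, sub_self]

theorem c2_neg_one (q : Pg) : c2 q (-1) = 0 := by
  unfold c2
  rw [c4_neg_one]
  have key : ∀ t : ZMod 4, md (2 * t) = 0 := by decide
  exact key _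

/-- **The averaging identity**, with the involution `y ↦ -y`. -/
theorem avgC (k j : ZMod 2) {S : Finset Pg} (hS : S.Nonempty) :
    ∃ (ι : Type) (_ : Fintype ι) (y : ι → 𝓞 K) (sg : ι → ι),
      (∀ i, ∀ q ∈ S, ¬ q.1 ∣ y i ∧ c2 q (fC k j * y i) = 1) ∧
      (∀ i, Od (em (y i) / em (DDq S))) ∧
      (∀ i, ∃ n : ℕ, 0 < n ∧
        lm ^ n * (em (y i) / em (DDq S)) - em (y i) / em (DDq S) ∈ PP.lattice) ∧
      (∀ i, sg (sg i) = i) ∧ (∀ i, sg i ≠ i) ∧
      (∀ i, em (y (sg i)) / em (DDq S) + em (y i) / em (DDq S) ∈ PP.lattice) ∧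
      2 ^ S.card * Fintype.card ι = ∏ q ∈ S, (Nz q.1 - 1) ∧
      ∑ T ∈ S.powerset, (-1) ^ T.card * (LaC k j T * ∏ q ∈ S \ T, (em q.1 - XC k j T q.1)) =
        e2 (k * ∑ q ∈ S, aa q.1 + j * ∑ q ∈ S, bb q.1) * 2 ^ S.card *
          ∑ i, PhC k j ((em (fC k j))⁻¹ + em (y i) / em (DDq S)) := by
  classical
  have hM : DDq S ≠ 0 := (DDq_in4 S).ne_zero
  have hD : em (DDq S) ≠ 0 := em_ne hM
  obtain ⟨ι, hι, y, hy⟩ := RepsG.exists_reps hM (one_dvd (DDq S))
  have hc := reps_yC k j hy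
  have hf : IsCoprime (fC k j) (DDq S) := (in4_cop_fC (DDq_in4 S) k j).symm
  have hqy : ∀ i, ∀ q ∈ S, ¬ q.1 ∣ y i := fun i q hq h =>
    q.prime.not_isUnit ((hy.cop i).isUnit_of_dvd' h (dvd_DDq.2 hq))
  have hqf : ∀ q ∈ S, ¬ q.1 ∣ fC k j := fun q hq h =>
    q.prime.not_isUnit (hf.isUnit_of_dvd' h (dvd_DDq.2 hq))
  have hqfy : ∀ i, ∀ q ∈ S, ¬ q.1 ∣ fC k j * y i := fun i q hq h =>
    (q.prime.dvd_or_dvd h).elim (hqf q hq) (hqy i q hq)
  have hq2 : ∀ q : Pg, ¬ q.1 ∣ (2 : 𝓞 K) := by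
    intro q h
    have h1 : q.1 ∣ lam ^ 2 := by
      rw [lam_sq]
      exact h.mul_right _
    have h2 := in4_cop_lam q.in4 2
    exact q.prime.not_isUnit (h2.isUnit_of_dvd' (dvd_refl _) h1)
  let P : ι → Prop := fun i => ∀ q ∈ S, c2 q (fC k j * y i) = 1
  have hex : ∀ i : {i // P i}, ∃ l : {i // P i}, DDq S ∣ -y i.1 - y l.1 := by
    intro i
    obtain ⟨l, hl⟩ := hy.ex (-y i.1) (by
      obtain ⟨u, v, huv⟩ := hy.cop i.1
      exact ⟨-u, v, by linear_combination huv⟩) (one_dvd _)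
    refine ⟨⟨l, fun q hq => ?_⟩, hl⟩
    have h1 : q.1 ∣ fC k j * y l - -1 * (fC k j * y i.1) := by
      obtain ⟨t, ht⟩ := (dvd_DDq.2 hq).trans hl
      exact ⟨-(fC k j * t), by linear_combination (-(fC k j)) * ht⟩
    have h2 : ¬ q.1 ∣ (-1 : 𝓞 K) := fun h => q.prime.not_isUnit
      (isUnit_of_dvd_unit h (IsUnit.neg isUnit_one))
    rw [c2_congr q (hqfy l q hq) h1, c2_mul q h2 (hqfy i.1 q hq), c2_neg_one, zero_add]
    exact i.2 q hq
  choose sg hsg using hex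
  refine ⟨{i // P i}, inferInstance, fun i => y i.1, sg, ?_, ?_, ?_, ?_, ?_, ?_, ?_, ?_⟩
  · exact fun i q hq => ⟨hqy i.1 q hq, i.2 q hq⟩
  · intro i
    refine ⟨⟨DDq S, hM, ?_⟩, fun m hm => ?_⟩
    · rw [mul_div_cancel₀ _ hD]
      exact em_mem _
    · obtain ⟨t, ht⟩ := mem_iff_em.1 hm
      have h1 : lam ^ m * y i.1 = DDq S * t := by
        apply em_inj
        rw [em_mul, em_mul, em_pow, em_lam, ht]
        field_simp
      obtain ⟨q, hq⟩ := hS
      have h2 : q.1 ∣ lam ^ m * y i.1 := by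
        rw [h1]
        exact (dvd_DDq.2 hq).mul_right _
      rcases q.prime.dvd_or_dvd h2 with h3 | h3
      · have h4 := in4_cop_lam q.in4 m
        exact q.prime.not_isUnit (h4.isUnit_of_dvd' (dvd_refl _) h3)
      · exact hqy i.1 q hq h3
  · intro i
    obtain ⟨n, hn, t, ht⟩ := exists_lam_pow (S := S)
    refine ⟨n, hn, ?_⟩
    rw [mem_iff_em]
    refine ⟨t * y i.1, ?_⟩
    have e : em (lam ^ n) = em (DDq S) * em t + 1 := by
      rw [← em_one, ← em_mul, ← em_add]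
      congr 1
      linear_combination ht
    rw [← em_lam, ← em_pow, e, em_mul]
    field_simp
    ring
  · intro i
    apply Subtype.ext
    refine hy.inj _ _ ?_
    have h1 := dvd_sub (hsg i) (hsg (sg i))
    obtain ⟨t, ht⟩ := h1
    exact ⟨t, by linear_combination ht⟩
  · intro i hi
    have h1 := hsg i
    rw [hi] at h1
    obtain ⟨q, hq⟩ := hS
    have h2 : q.1 ∣ 2 * y i.1 := by
      obtain ⟨t, ht⟩ := (dvd_DDq.2 hq).trans h1
      exact ⟨-t, by linear_combination -ht⟩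
    exact (q.prime.dvd_or_dvd h2).elim (hq2 q) (hqy i.1 q hq)
  · intro i
    obtain ⟨t, ht⟩ := hsg i
    rw [mem_iff_em]
    refine ⟨-t, ?_⟩
    have h1 : em (y (sg i).1) + em (y i.1) = em (DDq S) * em (-t) := by
      rw [← em_add, ← em_mul]
      congr 1
      linear_combination -ht
    rw [← add_div, h1]
    field_simp
  · have h1 := sum_wC hc
    have h2 : ∀ i, wC S (DDq S + fC k j * y i) = if P i then (2 : ℂ) ^ S.card else 0 := by
      intro i
      have e : wC S (DDq S + fC k j * y i) = wC S (fC k j * y i) := wC_per ⟨1, by ring⟩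
      rw [e]
      by_cases h : P i
      · rw [if_pos h, wC_one (hqfy i) h]
      · rw [if_neg h, wC_zero (hqfy i) h]
    rw [Finset.sum_congr rfl fun i _ => h2 i, ← Finset.sum_filter, Finset.sum_const,
      nsmul_eq_mul, ← Fintype.card_subtype] at h1
    have h3 : ∏ q ∈ S, ((Nz q.1 : ℂ) - 1) = ((∏ q ∈ S, (Nz q.1 - 1) : ℕ) : ℂ) := by
      rw [Nat.cast_prod]
      refine Finset.prod_congr rfl fun q _ => ?_
      have h2 := Nz_two_le q.prime
      rw [Nat.cast_sub (by omega), Nat.cast_one]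
    rw [h3] at h1
    have h4 : ((2 ^ S.card * Fintype.card {i // P i} : ℕ) : ℂ) =
        ((∏ q ∈ S, (Nz q.1 - 1) : ℕ) : ℂ) := by
      rw [← h1]
      push_cast
      ring
    exact_mod_cast h4
  · rw [avgC_y k j S hy, thC_DDq, mul_assoc]
    congr 1
    have h2 : ∀ i, wC S (fC k j * y i) * PhC k j ((em (fC k j))⁻¹ + em (y i) / em (DDq S)) =
        if P i then (2 : ℂ) ^ S.card * PhC k j ((em (fC k j))⁻¹ + em (y i) / em (DDq S)) else 0 := by
      intro i
      by_cases h : P i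
      · rw [if_pos h, wC_one (hqfy i) h]
      · rw [if_neg h, wC_zero (hqfy i) h, zero_mul]
    rw [Finset.sum_congr rfl fun i _ => h2 i, ← Finset.sum_filter, Finset.mul_sum]
    exact (Finset.sum_subtype (p := P) (Finset.univ.filter P) (by simp) fun i =>
      (2 : ℂ) ^ S.card * PhC k j ((em (fC k j))⁻¹ + em (y i) / em (DDq S)))

/-- the value for the empty set -/
theorem LaC_empty (k j : ZMod 2) : LaC k j ∅ = PhC k j (em (fC k j))⁻¹ := by
  have hr : RepsG 1 (DDq ∅) (fun _ : Unit => (0 : 𝓞 K)) := {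
    ne := (DDq_in4 ∅).ne_zero
    dvd := one_dvd _
    fx := fun _ => one_dvd _
    cop := fun _ => by rw [DDq_empty]; exact isCoprime_one_right
    ex := fun a _ _ => ⟨(), by rw [DDq_empty]; exact one_dvd _⟩
    inj := fun _ _ _ => rfl }
  have h := avgC_y k j ∅ hr
  rw [Finset.powerset_empty, Finset.sum_singleton, Finset.card_empty, pow_zero, one_mul,
    Finset.sdiff_self, Finset.prod_empty, mul_one, Fintype.sum_unique, DDq_empty, thC_one,
    one_mul, wC, Finset.prod_empty, one_mul, em_zero, zero_div, add_zero] at h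
  exact h

theorem card_C {S : Finset Pg} {n : ℕ} (h : 2 ^ S.card * n = ∏ q ∈ S, (Nz q.1 - 1)) :
    n = ∏ q ∈ S, ((Nz q.1 - 1) / 2) := by
  have h1 : ∏ q ∈ S, (Nz q.1 - 1) = 2 ^ S.card * ∏ q ∈ S, ((Nz q.1 - 1) / 2) := by
    rw [← Finset.prod_const, ← Finset.prod_mul_distrib]
    refine Finset.prod_congr rfl fun q _ => ?_
    have h2 := q.in4.Nz_mod
    omega
  rw [h1] at h
  exact Nat.eq_of_mul_eq_mul_left (by positivity) h

end

end Pool.Agent.Lib.MP_1a91b9_ntQ
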