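import Pool.Agent.Lib.MP_1a91b9_ntQ.A.LocO

/-!
# Quartic twists, part A, file EvX1: the even parts of `E1` at `pe ^ 3 + R` and of `gg` at `pe ^ 4 + R`

`uX0 x = (x - i) / (x + i)`, `uX2 x = (x ^ 2 + 1) / (x ^ 2 - 2 x - 1)`, `x = X R`; the sums over the
units.
-/

set_option autoImplicit false
set_option linter.unusedSectionVars false

namespace Pool.Agent.Lib.MP_1a91b9_ntQ

open NumberField Pool.Agent.Lib.MP_1a91b9_nuT Pool.Agent.Lib.MP_1a91b9_nuT.S3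
  Pool.Agent.Lib.MP_1a91b9_nuT.Ell

noncomputable section

variable [CD] [hq : Q4]

/-- the even part for `k = 0` -/
def uX0 (x : ℂ) : ℂ := (x - zt) / (x + zt)

/-- the even part for `k = 2` -/
def uX2 (x : ℂ) : ℂ := (x ^ 2 + 1) / (x ^ 2 - 2 * x - 1)

/-- the sums over the units -/
def U0p (x : ℂ) : ℂ := 4 * (x ^ 2 - 1) / (x ^ 2 + 1)

def U0m (x : ℂ) : ℂ := -8 * zt * x / (x ^ 2 + 1)

def U2p (x : ℂ) : ℂ := 4 * (x ^ 4 - 1) / (x ^ 4 - 6 * x ^ 2 + 1)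

def U2m (x : ℂ) : ℂ := 8 * x * (x ^ 2 + 1) / (x ^ 4 - 6 * x ^ 2 + 1)

/-! ### Points -/

theorem Od.add_notMem {R t : ℂ} (h : Od R) {n : ℕ} (ht : lm ^ n * t ∈ PP.lattice) :
    R + t ∉ PP.lattice := by
  intro h1
  apply h.2 n
  have e : lm ^ n * R = lm ^ n * (R + t) - lm ^ n * t := by ring
  rw [e]
  exact sub_mem (lm_pow_mem h1 n) ht

theorem Od.sub_notMem {R t : ℂ} (h : Od R) {n : ℕ} (ht : lm ^ n * t ∈ PP.lattice) :
    R - t ∉ PP.lattice := by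
  rw [sub_eq_add_neg]
  refine h.add_notMem (n := n) ?_
  rw [mul_neg]
  exact neg_mem ht

theorem Od.zt_mul {z : ℂ} (h : Od z) : Od (zt * z) := by
  obtain ⟨⟨N, hN, hN'⟩, h2⟩ := h
  refine ⟨⟨N, hN, ?_⟩, fun n hn => h2 n ?_⟩
  · have e : em N * (zt * z) = zt * (em N * z) := by ring
    rw [e]
    exact zt_mul_mem hN'
  · have e : lm ^ n * (zt * z) = zt * (lm ^ n * z) := by ring
    rw [e] at hn
    exact zt_mem_iff.1 hn

theorem lm_pow_pe (n : ℕ) : lm ^ n * pe ^ n = 1 := by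
  rw [← mul_pow, lm_mul_pe, one_pow]

theorem lm_pow_pe_mem (n : ℕ) : lm ^ n * pe ^ n ∈ PP.lattice := by
  rw [lm_pow_pe]
  exact one_mem

theorem E1_pe3 : 2 * E1 (pe ^ 3) = -(Om * gg (pe ^ 3)) := by
  have h1 := E1_add_pe (pe ^ 3)
  have h2 : E1 (pe ^ 3 + pe) = -E1 (pe ^ 3) := by
    rw [← S3.E1_neg]
    refine E1_congr' ?_
    have e : pe ^ 3 + pe - -pe ^ 3 = (2 * pe ^ 3 - pe) + 2 * pe := by ring
    rw [e]
    exact add_mem two_pe3 two_pe_mem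
  rw [h2] at h1
  linear_combination -h1

/-- the sum of the two values -/
theorem E1_pm {w R : ℂ} (hw : 2 * w ∉ PP.lattice) (hR : R ∉ PP.lattice) (h1 : R - w ∉ PP.lattice)
    (h2 : R + w ∉ PP.lattice) :
    (X R - X w) * (2 * E1 w - (E1 (w + R) + E1 (w - R))) = 2 * Om * yh w := by
  have h := sig hw hR h1 h2
  have e1 : E1 (R - w) = -E1 (w - R) := by
    rw [← S3.E1_neg]
    congr 1
    ring
  rw [e1, add_comm R w] at h
  have hO := Om_ne_zero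
  rw [yh, Y, X, X]
  field_simp
  linear_combination h

/-- **The even part for `k = 0`.** -/
theorem E1_even {R : ℂ} (hR : Od R) :
    X R + zt ≠ 0 ∧ E1 (pe ^ 3 + R) + E1 (pe ^ 3 - R) = 2 * E1 (pe ^ 3) * uX0 (X R) := by
  have h := E1_pm two_pe3_notMem hR.notMem (hR.sub_notMem (lm_pow_pe_mem 3))
    (hR.add_notMem (lm_pow_pe_mem 3))
  have h1 := gg_mul two_pe3_notMem
  have h2 := E1_pe3 (hq := hq)
  rw [X_pe3] at h h1
  have h3 : (X R + zt) * (E1 (pe ^ 3 + R) + E1 (pe ^ 3 - R)) = 2 * E1 (pe ^ 3) * (X R - zt) := by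
    linear_combination -h + 2 * Om * h1 + 2 * zt * h2
  have h4 : X R + zt ≠ 0 := by
    intro h4
    rw [h4, zero_mul] at h3
    have h5 : X R - zt = -(2 * zt) := by linear_combination h4
    rw [h5] at h3
    have h6 : 2 * E1 (pe ^ 3) ≠ 0 := by
      rw [h2]
      exact neg_ne_zero.2 (mul_ne_zero Om_ne_zero (gg_ne two_pe3_notMem))
    exact mul_ne_zero h6 (neg_ne_zero.2 (mul_ne_zero two_ne_zero zt_ne0)) h3.symm
  refine ⟨h4, ?_⟩
  rw [uX0]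
  apply mul_left_cancel₀ h4
  rw [h3]
  field_simp

/-- **The even part for `k = 2`.** -/
theorem gg_even {R : ℂ} (hR : Od R) :
    X R ^ 2 - 2 * X R - 1 ≠ 0 ∧
      gg (pe ^ 4 + R) + gg (pe ^ 4 - R) = 2 * gg (pe ^ 4) * uX2 (X R) := by
  have hQ := two_pe4_notMem (hq := hq)
  have hQ' : 2 * (pe ^ 4 + pe) ∉ PP.lattice := two_add_pe hQ
  have m4 : lm ^ 4 * (pe ^ 4 + pe) ∈ PP.lattice := by
    have e : lm ^ 4 * (pe ^ 4 + pe) = lm ^ 4 * pe ^ 4 + lm ^ 3 * (lm * pe) := by ring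
    rw [e, lm_mul_pe]
    exact add_mem (lm_pow_pe_mem 4) (lm_pow_mem one_mem 3)
  have h1 := E1_pm hQ hR.notMem (hR.sub_notMem (lm_pow_pe_mem 4)) (hR.add_notMem (lm_pow_pe_mem 4))
  have h2 := E1_pm hQ' hR.notMem (hR.sub_notMem m4) (hR.add_notMem m4)
  have g1 := gg_mul hQ
  have g2 := gg_mul hQ'
  have x1 := X_add_pe hQ
  have x0 := X_ne hQ
  have hx := X_pe4 (hq := hq)
  rw [gg_add_pe] at g2
  have a1 := E1_add_pe (pe ^ 4)
  have a2 := E1_add_pe (pe ^ 4 + R)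
  have a3 := E1_add_pe (pe ^ 4 - R)
  have e2 : pe ^ 4 + pe + R = pe ^ 4 + R + pe := by ring
  have e3 : pe ^ 4 + pe - R = pe ^ 4 - R + pe := by ring
  rw [e2, e3, a1, a2, a3, ← g2] at h2
  rw [← g1] at h1
  obtain ⟨x, hxx⟩ : ∃ x, x = X (pe ^ 4) := ⟨_, rfl⟩
  obtain ⟨x', hxx'⟩ : ∃ x', x' = X (pe ^ 4 + pe) := ⟨_, rfl⟩
  obtain ⟨g, hg⟩ : ∃ g, g = gg (pe ^ 4) := ⟨_, rfl⟩
  obtain ⟨s, hs⟩ : ∃ s, s = gg (pe ^ 4 + R) + gg (pe ^ 4 - R) := ⟨_, rfl⟩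
  obtain ⟨t, ht⟩ : ∃ t, t = 2 * E1 (pe ^ 4) - (E1 (pe ^ 4 + R) + E1 (pe ^ 4 - R)) := ⟨_, rfl⟩
  have hO := Om_ne_zero
  rw [← hxx, ← ht, ← hg] at h1
  have h2' : (X R - x') * (t + Om * (2 * g - s)) = 2 * Om * (-g * x') := by
    rw [ht, hs, hg, hxx']
    linear_combination h2
  rw [← hxx, ← hxx'] at x1
  rw [← hxx] at x0 hx
  have hg0 : g ≠ 0 := by
    rw [hg]
    exact gg_ne hQ
  -- multiply the two relations
  have h3 : x * (X R ^ 2 - 2 * X R - 1) * s = x * (2 * g * (X R ^ 2 + 1)) := by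
    have k1 : (x * X R + 1) * (t + Om * (2 * g - s)) = 2 * Om * g := by
      linear_combination x * h2' + (t + Om * (2 * g - s) - 2 * Om * g) * x1
    have k2 : Om * ((X R - x) * (x * X R + 1) * (2 * g - s)) =
        Om * (2 * g * (X R - x) - 2 * g * x * (x * X R + 1)) := by
      linear_combination (X R - x) * k1 - (x * X R + 1) * h1
    have k3 := mul_left_cancel₀ hO k2
    linear_combination -k3 + X R * s * hx
  have h4 : (X R ^ 2 - 2 * X R - 1) * s = 2 * g * (X R ^ 2 + 1) := by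
    apply mul_left_cancel₀ x0
    linear_combination h3
  have h5 : X R ^ 2 - 2 * X R - 1 ≠ 0 := by
    intro h5
    rw [h5, zero_mul] at h4
    have h6 : X R ^ 2 + 1 = 0 := by
      rcases mul_eq_zero.1 h4.symm with h7 | h7
      · exact absurd h7 (mul_ne_zero two_ne_zero hg0)
      · exact h7
    have h7 : X R = -1 := by linear_combination (1 / 2) * h6 - (1 / 2) * h5
    rw [h7] at h6
    norm_num at h6
  refine ⟨h5, ?_⟩
  rw [← hs, ← hg, uX2, ← mul_div_assoc, eq_div_iff h5]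
  linear_combination h4

/-! ### The sums over the units -/

theorem uX0_add {x : ℂ} (h1 : x + zt ≠ 0) (h2 : -x + zt ≠ 0) :
    2 * (uX0 x + uX0 (-x)) = U0p x ∧ 2 * (uX0 x - uX0 (-x)) = U0m x := by
  have h3 : x ^ 2 + 1 ≠ 0 := by
    have e : x ^ 2 + 1 = -((x + zt) * (-x + zt)) := by linear_combination zt_sq
    rw [e]
    exact neg_ne_zero.2 (mul_ne_zero h1 h2)
  obtain ⟨a, ha⟩ : ∃ a, a = uX0 x := ⟨_, rfl⟩
  obtain ⟨b, hb⟩ : ∃ b, b = uX0 (-x) := ⟨_, rfl⟩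
  have ha' : (x + zt) * a = x - zt := by
    rw [ha, uX0, mul_div_cancel₀ _ h1]
  have hb' : (-x + zt) * b = -x - zt := by
    rw [hb, uX0, mul_div_cancel₀ _ h2]
  rw [← ha, ← hb, U0p, U0m]
  constructor
  · rw [eq_div_iff h3]
    linear_combination 2 * (x - zt) * ha' - 2 * (x + zt) * hb' + (2 * (a + b) + 4) * zt_sq
  · rw [eq_div_iff h3]
    linear_combination 2 * (x - zt) * ha' + 2 * (x + zt) * hb' + 2 * (a - b) * zt_sq

theorem uX2_add {x : ℂ} (h1 : x ^ 2 - 2 * x - 1 ≠ 0) (h2 : x ^ 2 + 2 * x - 1 ≠ 0) :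
    2 * (uX2 x + uX2 (-x)) = U2p x ∧ 2 * (uX2 x - uX2 (-x)) = U2m x := by
  have h2' : (-x) ^ 2 - 2 * -x - 1 ≠ 0 := by
    have e : (-x) ^ 2 - 2 * -x - 1 = x ^ 2 + 2 * x - 1 := by ring
    rwa [e]
  have h3 : x ^ 4 - 6 * x ^ 2 + 1 ≠ 0 := by
    have e : x ^ 4 - 6 * x ^ 2 + 1 = (x ^ 2 - 2 * x - 1) * (x ^ 2 + 2 * x - 1) := by ring
    rw [e]
    exact mul_ne_zero h1 h2
  obtain ⟨a, ha⟩ : ∃ a, a = uX2 x := ⟨_, rfl⟩
  obtain ⟨b, hb⟩ : ∃ b, b = uX2 (-x) := ⟨_, rfl⟩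
  have ha' : (x ^ 2 - 2 * x - 1) * a = x ^ 2 + 1 := by
    rw [ha, uX2, mul_div_cancel₀ _ h1]
  have hb' : (x ^ 2 + 2 * x - 1) * b = x ^ 2 + 1 := by
    have e : (x ^ 2 + 2 * x - 1) = ((-x) ^ 2 - 2 * -x - 1) := by ring
    rw [hb, uX2, e, mul_div_cancel₀ _ h2']
    ring
  rw [← ha, ← hb, U2p, U2m]
  constructor
  · rw [eq_div_iff h3]
    linear_combination 2 * (x ^ 2 + 2 * x - 1) * ha' + 2 * (x ^ 2 - 2 * x - 1) * hb'
  · rw [eq_div_iff h3]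
    linear_combination 2 * (x ^ 2 + 2 * x - 1) * ha' - 2 * (x ^ 2 - 2 * x - 1) * hb'

end

end Pool.Agent.Lib.MP_1a91b9_ntQ
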