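import Pool.Agent.Lib.MP_1a91b9_ntQ.A.Inst
import Pool.Agent.Lib.MP_1a91b9_ntQ.R.Ring4

/-!
# Quartic twists, part A, file HSum4: sums over the classes modulo an element (port of helper95's HSum)
-/

set_option autoImplicit false

namespace Pool.Agent.Lib.MP_1a91b9_ntQ

open NumberField IsDedekindDomain Pool.Agent.Lib.MP_1a91b9_nuT

noncomputable section

/-- the sum over the classes modulo `M` of a function of period `M` -/
def SM {R : Type*} [AddCommMonoid R] (M : 𝓞 K) (F : 𝓞 K → R) : R :=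
  ∑ᶠ x : 𝓞 K ⧸ Ideal.span {M}, F x.out

/-- a function of period `M` -/
def Pd {R : Type*} (M : 𝓞 K) (F : 𝓞 K → R) : Prop := ∀ x y, M ∣ x - y → F x = F y

/-- a complete system of classes modulo `M` -/
structure CRS (M : 𝓞 K) {ι : Type} (a : ι → 𝓞 K) : Prop where
  ex : ∀ x, ∃ i, M ∣ x - a i
  inj : ∀ i j, M ∣ a i - a j → i = j

section
variable {M : 𝓞 K}

theorem SM_finite (hM : M ≠ 0) : Finite (𝓞 K ⧸ Ideal.span {M}) :=
  Ideal.finiteQuotientOfFreeOfNeBot _ (by rwa [Ne, Ideal.span_singleton_eq_bot])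

theorem SM_mk (a b : 𝓞 K) : Ideal.Quotient.mk (Ideal.span {M}) a = Ideal.Quotient.mk _ b ↔
    M ∣ a - b := by
  rw [Ideal.Quotient.eq, Ideal.mem_span_singleton]

theorem SM_out (x : 𝓞 K ⧸ Ideal.span {M}) : Ideal.Quotient.mk (Ideal.span {M}) x.out = x :=
  Quotient.out_eq x

theorem CRS.exists_crs (hM : M ≠ 0) : ∃ (ι : Type) (_ : Fintype ι) (a : ι → 𝓞 K), CRS M a := by
  have := SM_finite hM
  refine ⟨𝓞 K ⧸ Ideal.span {M}, Fintype.ofFinite _, fun x => x.out, fun x => ?_, fun i j h => ?_⟩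
  · refine ⟨Ideal.Quotient.mk _ x, ?_⟩
    rw [← SM_mk, SM_out]
  · rw [← SM_mk, SM_out, SM_out] at h
    exact h

section
variable {R : Type*} [AddCommMonoid R]

/-- the sum over any system containing the classes where the function is not zero -/
theorem SM_sup (hM : M ≠ 0) {ι : Type} [Fintype ι] {a : ι → 𝓞 K} {F : 𝓞 K → R}
    (hF : Pd M F) (hex : ∀ x, F x ≠ 0 → ∃ i, M ∣ x - a i) (hinj : ∀ i j, M ∣ a i - a j → i = j) :
    SM M F = ∑ i, F (a i) := by
  classical
  have := SM_finite hM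
  let _ : Fintype (𝓞 K ⧸ Ideal.span {M}) := Fintype.ofFinite _
  rw [SM, finsum_eq_sum_of_fintype]
  symm
  refine Fintype.sum_of_injective (fun i => Ideal.Quotient.mk (Ideal.span {M}) (a i)) ?_ _ _ ?_ ?_
  · intro i j h
    exact hinj i j ((SM_mk _ _).1 h)
  · intro x hx
    by_contra h
    obtain ⟨i, hi⟩ := hex _ h
    apply hx
    refine ⟨i, ?_⟩
    rw [← SM_mk, SM_out] at hi
    exact hi.symm
  · intro i
    refine hF _ _ ?_
    rw [← SM_mk, SM_out]

theorem SM_eq (hM : M ≠ 0) {ι : Type} [Fintype ι] {a : ι → 𝓞 K} (ha : CRS M a) {F : 𝓞 K → R}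
    (hF : Pd M F) : SM M F = ∑ i, F (a i) :=
  SM_sup hM hF (fun x _ => ha.ex x) ha.inj

/-- the system of the definition, for functions which are not periodic -/
theorem SM_def (hM : M ≠ 0) : ∃ (ι : Type) (_ : Fintype ι) (a : ι → 𝓞 K), CRS M a ∧
    ∀ F : 𝓞 K → R, SM M F = ∑ i, F (a i) := by
  have := SM_finite hM
  refine ⟨𝓞 K ⧸ Ideal.span {M}, Fintype.ofFinite _, fun x => x.out, ⟨fun x => ?_, fun i j h => ?_⟩,
    fun F => ?_⟩
  · refine ⟨Ideal.Quotient.mk _ x, ?_⟩
    rw [← SM_mk, SM_out]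
  · rw [← SM_mk, SM_out, SM_out] at h
    exact h
  · rw [SM]
    exact @finsum_eq_sum_of_fintype _ _ _ (Fintype.ofFinite _) _

theorem SM_congr {F G : 𝓞 K → R} (h : ∀ x, F x = G x) : SM M F = SM M G := by
  rw [show F = G from funext h]

theorem SM_add (hM : M ≠ 0) (F G : 𝓞 K → R) : SM M (fun x => F x + G x) = SM M F + SM M G := by
  obtain ⟨ι, _, a, -, h⟩ := SM_def (R := R) hM
  rw [h, h, h, Finset.sum_add_distrib]

/-- the substitution by an element prime to the modulus -/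
theorem SM_mul (hM : M ≠ 0) {F : 𝓞 K → R} (hF : Pd M F) {c : 𝓞 K} (hc : IsCoprime c M) :
    SM M (fun x => F (c * x)) = SM M F := by
  obtain ⟨ι, _, a, ha⟩ := CRS.exists_crs hM
  obtain ⟨p, q, hpq⟩ := hc
  have h1 : CRS M fun i => c * a i := by
    refine ⟨fun x => ?_, fun i j h => ha.inj i j ?_⟩
    · obtain ⟨i, hi⟩ := ha.ex (p * x)
      refine ⟨i, ?_⟩
      have e : x - c * a i = c * (p * x - a i) + M * (q * x) := by linear_combination (-x) * hpq
      rw [e]
      exact dvd_add (hi.mul_left _) (dvd_mul_right _ _)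
    · have e : a i - a j = p * (c * a i - c * a j) + M * (q * (a i - a j)) := by
        linear_combination (-(a i - a j)) * hpq
      rw [e]
      exact dvd_add (h.mul_left _) (dvd_mul_right _ _)
  rw [SM_eq hM h1 hF]
  refine SM_eq hM ha fun x y h => hF _ _ ?_
  rw [← mul_sub]
  exact h.mul_left _

/-- the sum modulo a product -/
theorem SM_fib {q : 𝓞 K} (hM : M ≠ 0) (hq : q ≠ 0) {F : 𝓞 K → R} (hF : Pd (q * M) F) :
    SM (q * M) F = SM M fun b => SM q fun u => F (b + M * u) := by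
  obtain ⟨ι, _, b, hb, h⟩ := SM_def (R := R) hM
  obtain ⟨κ, _, u, hu⟩ := CRS.exists_crs hq
  have h1 : CRS (q * M) fun x : ι × κ => b x.1 + M * u x.2 := by
    refine ⟨fun x => ?_, fun i j h2 => ?_⟩
    · obtain ⟨i, y, hy⟩ := hb.ex x
      obtain ⟨k, z, hz⟩ := hu.ex y
      exact ⟨(i, k), z, by linear_combination hy + M * hz⟩
    · obtain ⟨i, k⟩ := i
      obtain ⟨i', k'⟩ := j
      obtain ⟨z, hz⟩ := h2
      have h3 : i = i' := hb.inj _ _ ⟨q * z - (u k - u k'), by linear_combination hz⟩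
      subst h3
      have h4 : k = k' := by
        refine hu.inj _ _ ⟨z, ?_⟩
        apply mul_left_cancel₀ hM
        linear_combination hz
      rw [h4]
  rw [SM_eq (mul_ne_zero hq hM) h1 hF, h, Fintype.sum_prod_type]
  refine Finset.sum_congr rfl fun i _ => ?_
  refine (SM_eq (F := fun u => F (b i + M * u)) hq hu fun x y h2 => hF _ _ ?_).symm
  obtain ⟨z, hz⟩ := h2
  exact ⟨z, by linear_combination M * hz⟩

/-- the sum of a function which is zero outside the multiples of `q` -/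
theorem SM_dvd {q : 𝓞 K} (hM : M ≠ 0) (hq : q ≠ 0) {F : 𝓞 K → R} (hF : Pd (q * M) F)
    (h0 : ∀ x, ¬ q ∣ x → F x = 0) : SM (q * M) F = SM M fun b => F (q * b) := by
  classical
  obtain ⟨ι, _, b, hb⟩ := CRS.exists_crs hM
  have h1 : SM (q * M) F = ∑ i, F (q * b i) := by
    refine SM_sup (a := fun i => q * b i) (mul_ne_zero hq hM) hF ?_ ?_
    · intro x hx
      have h2 : q ∣ x := by
        by_contra h
        exact hx (h0 x h)
      obtain ⟨y, rfl⟩ := h2
      obtain ⟨i, z, hz⟩ := hb.ex y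
      exact ⟨i, z, by linear_combination q * hz⟩
    · intro i j h
      obtain ⟨z, hz⟩ := h
      refine hb.inj i j ⟨z, ?_⟩
      apply mul_left_cancel₀ hq
      linear_combination hz
  rw [h1]
  refine (SM_eq (F := fun b => F (q * b)) hM hb fun x y h => hF _ _ ?_).symm
  obtain ⟨z, hz⟩ := h
  exact ⟨z, by linear_combination q * hz⟩

end

section
variable {R : Type*} [AddCommGroup R]

theorem SM_sub (hM : M ≠ 0) (F G : 𝓞 K → R) : SM M (fun x => F x - G x) = SM M F - SM M G := by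
  obtain ⟨ι, _, a, -, h⟩ := SM_def (R := R) hM
  rw [h, h, h, Finset.sum_sub_distrib]

end

section
variable {S R : Type*} [Semiring S] [AddCommMonoid R] [Module S R]

theorem SM_smul (hM : M ≠ 0) (c : S) (F : 𝓞 K → R) : SM M (fun x => c • F x) = c • SM M F := by
  obtain ⟨ι, _, a, -, h⟩ := SM_def (R := R) hM
  rw [h, h, Finset.smul_sum]

theorem SM_smul' (hM : M ≠ 0) (F : 𝓞 K → S) (r : R) : SM M (fun x => F x • r) = SM M F • r := by
  have hfin := SM_finite hM
  let _ : Fintype (𝓞 K ⧸ Ideal.span {M}) := Fintype.ofFinite _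
  rw [SM, SM, finsum_eq_sum_of_fintype, finsum_eq_sum_of_fintype, Finset.sum_smul]

end

theorem Pd.of_dvd {R : Type*} {M N : 𝓞 K} {F : 𝓞 K → R} (h : Pd M F) (hd : M ∣ N) : Pd N F :=
  fun x y hxy => h x y (hd.trans hxy)

end

end

end Pool.Agent.Lib.MP_1a91b9_ntQ
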