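import Pool.Agent.Lib.MP_1a91b9_ntQ.A.PairR
import Pool.Agent.Lib.MP_1a91b9_ntQ.A.EvX1
import Pool.Agent.Lib.MP_1a91b9_ntQ.A.HSum4

/-!
# Quartic twists, part A, file AvgX: class (X), the sums over the residue classes

`chE e q` is the power `e q` of the quartic character modulo `q`; `SM M F` is the sum over the
classes modulo `M`; `f_k R = c / M` is written `c = f_k y`, `R = y / M`.
-/

set_option autoImplicit false
set_option linter.unusedSectionVars false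

namespace Pool.Agent.Lib.MP_1a91b9_ntQ

open NumberField Pool.Agent.Lib.MP_1a91b9_nuT Pool.Agent.Lib.MP_1a91b9_nuT.S3
  Pool.Agent.Lib.MP_1a91b9_nuT.Ell

noncomputable section

/-! ### The powers of the characters -/

/-- the power `e q` of the quartic character modulo `q` -/
def chE (e : Pg → ZMod 4) (q : Pg) (x : 𝓞 K) : ℂ :=
  haveI := Classical.dec (q.1 ∣ x)
  if q.1 ∣ x then 0 else e4 (e q * c4 q x)

theorem chE_of_dvd (e : Pg → ZMod 4) {q : Pg} {x : 𝓞 K} (h : q.1 ∣ x) : chE e q x = 0 := by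
  unfold chE
  exact if_pos h

theorem chE_of_not (e : Pg → ZMod 4) {q : Pg} {x : 𝓞 K} (h : ¬ q.1 ∣ x) :
    chE e q x = e4 (e q * c4 q x) := by
  unfold chE
  exact if_neg h

theorem chE_chrP (e : Pg → ZMod 4) (q : Pg) : ChrP q.1 (chE e q) where
  one := by
    have h : ¬ q.1 ∣ (1 : 𝓞 K) := fun h => q.2.1.not_isUnit (isUnit_of_dvd_one h)
    rw [chE_of_not e h, c4_one, mul_zero, e4_zero]
  mul a b := by
    by_cases ha : q.1 ∣ a
    · rw [chE_of_dvd e ha, chE_of_dvd e (ha.mul_right _), zero_mul]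
    · by_cases hb : q.1 ∣ b
      · rw [chE_of_dvd e hb, chE_of_dvd e (hb.mul_left _), mul_zero]
      · have hab : ¬ q.1 ∣ a * b := fun h => (q.2.1.dvd_or_dvd h).elim ha hb
        rw [chE_of_not e ha, chE_of_not e hb, chE_of_not e hab, c4_mul q ha hb, mul_add, e4_add]
  le a := by
    by_cases ha : q.1 ∣ a
    · rw [chE_of_dvd e ha, norm_zero]
      exact zero_le_one
    · rw [chE_of_not e ha, norm_e4]
  zero _ ha := chE_of_dvd e ha
  per a b hab := by
    by_cases ha : q.1 ∣ a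
    · have hb : q.1 ∣ b := by
        have h := dvd_sub ha hab
        rwa [sub_sub_cancel] at h
      rw [chE_of_dvd e ha, chE_of_dvd e hb]
    · have hb : ¬ q.1 ∣ b := by
        intro hb
        apply ha
        have h := dvd_add hab hb
        rwa [sub_add_cancel] at h
      rw [chE_of_not e ha, chE_of_not e hb, c4_congr q ha hab]

theorem chE_eq_ch4 {e : Pg → ZMod 4} {q : Pg} (h : e q = 1) : chE e q = ch4 q := by
  funext x
  by_cases hx : q.1 ∣ x
  · rw [chE_of_dvd e hx, ch4_of_dvd hx]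
  · rw [chE_of_not e hx, ch4_of_not hx, h, one_mul]

/-- the product of the characters -/
def chP (e : Pg → ZMod 4) (T : Finset Pg) (x : 𝓞 K) : ℂ := ∏ q ∈ T, chE e q x

theorem chP_mul (e : Pg → ZMod 4) (T : Finset Pg) (x y : 𝓞 K) :
    chP e T (x * y) = chP e T x * chP e T y := by
  rw [chP, chP, chP, ← Finset.prod_mul_distrib]
  exact Finset.prod_congr rfl fun q _ => (chE_chrP e q).mul x y

theorem chP_of_not {e : Pg → ZMod 4} {T : Finset Pg} {x : 𝓞 K} (h : ∀ q ∈ T, ¬ q.1 ∣ x) :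
    chP e T x = e4 (∑ q ∈ T, e q * c4 q x) := by
  rw [chP, e4_sum]
  exact Finset.prod_congr rfl fun q hq => chE_of_not e (h q hq)

theorem chP_per {e : Pg → ZMod 4} {T S : Finset Pg} (hT : T ⊆ S) {x y : 𝓞 K}
    (h : DDq S ∣ x - y) : chP e T x = chP e T y := by
  rw [chP, chP]
  refine Finset.prod_congr rfl fun q hq => (chE_chrP e q).per x y ?_
  exact (dvd_DDq.2 (hT hq)).trans h

/-- the character on the elements congruent to `1` modulo `lam ^ 3` -/
def Xe (k : ZMod 4) (e : Pg → ZMod 4) (T : Finset Pg) : 𝓞 K → ℂ :=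
  XT (f := lam ^ 3) (th4 k) (chE e) T

theorem Xe_eq (k : ZMod 4) (e : Pg → ZMod 4) (T : Finset Pg) (x : 𝓞 K) :
    Xe k e T x = th4 k x * chP e T x := rfl

theorem Xe_chr (k : ZMod 4) (e : Pg → ZMod 4) (T : Finset Pg) :
    Chr (lam ^ 3) (f4 k * DDq T) (Xe k e T) :=
  (th4_chr k).XT (f := lam ^ 3) (fun q => chE_chrP e q) T

theorem Xe_eq_X4 {k : ZMod 4} {e : Pg → ZMod 4} {T : Finset Pg} (h : ∀ q ∈ T, e q = 1) :
    Xe k e T = X4 k T := by
  funext x
  rw [Xe_eq, X4_eq, chP]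
  congr 1
  exact Finset.prod_congr rfl fun q hq => by rw [chE_eq_ch4 (h q hq)]

/-! ### The value at `1` over the residue classes -/

/-- The identity with a general system of representatives modulo `g4 k`. -/
theorem Xe_gen (k : ZMod 4) (e : Pg → ZMod 4) {T S : Finset Pg} (hT : T ⊆ S) {ι κ : Type}
    [Fintype ι] [Fintype κ] {c : ι → 𝓞 K} {x : κ → 𝓞 K}
    (h : RepsG (lam ^ 3) (lam ^ 3 * DDq S) c) (hex : ∀ a : 𝓞 K, ∃ j, g4 k ∣ a - x j)
    (hinj : ∀ i j, g4 k ∣ x i - x j → i = j) :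
    em (f4 k * DDq S) * (LG (lam ^ 3) (Xe k e T) 1 * ∏ q ∈ S \ T, (1 - Xe k e T q.1 / em q.1)) =
      ∑ i, Xe k e T (c i) * ∑ j, e4 (k * sm (x j)) * E1 (zp k S (c i) + em (x j) / em (g4 k)) := by
  let _ : DecidableEq (Pf (lam ^ 3)) := inferInstanceAs (DecidableEq Pg)
  have h1 := Gen_id (th4_chr k) (fun q : Pf (lam ^ 3) => chE_chrP e q) (T := T) (S := S) hT
    (reps4 h hex hinj)
  have hf : em (f4 k) ≠ 0 := em_ne (f4_ne k)
  have hD : em (DDq S) ≠ 0 := em_ne (DDq_in4 S).ne_zero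
  have hg0 : g4 k ≠ 0 := by
    intro h0
    apply f4_ne k
    rw [f4_eq, h0, mul_zero]
  have hg : em (g4 k) ≠ 0 := em_ne hg0
  have hl : em (lam ^ 3) ≠ 0 := em_ne (pow_ne_zero 3 lam_ne_zero)
  have h2 := congrArg (fun z : ℂ => em (f4 k * DDq S) * z) h1
  have hfD : em (f4 k * DDq S) ≠ 0 := em_ne (mul_ne_zero (f4_ne k) (DDq_in4 S).ne_zero)
  change em (f4 k * DDq S) * _ = em (f4 k * DDq S) * ((em (f4 k * DDq S))⁻¹ * _) at h2
  rw [mul_inv_cancel_left₀ hfD] at h2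
  refine Eq.trans ?_ (h2.trans ?_)
  · rfl
  rw [Fintype.sum_prod_type]
  refine Finset.sum_congr rfl fun i _ => ?_
  rw [Finset.mul_sum]
  refine Finset.sum_congr rfl fun j _ => ?_
  change Xe k e T (c i + lam ^ 3 * (DDq S * x j)) *
    E1 (em (c i + lam ^ 3 * (DDq S * x j)) / em (f4 k * DDq S)) = _
  have e2 : chP e T (c i + lam ^ 3 * (DDq S * x j)) = chP e T (c i) :=
    chP_per hT ⟨lam ^ 3 * x j, by ring⟩
  have e3 : th4 k (c i + lam ^ 3 * (DDq S * x j)) = th4 k (c i) * e4 (k * sm (x j)) := by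
    rw [th4, nn_add (h.fx i), sm_mul_in4 (DDq_in4 S), mul_add, e4_add]
    rfl
  have e5 : em (c i + lam ^ 3 * (DDq S * x j)) / em (f4 k * DDq S) =
      zp k S (c i) + em (x j) / em (g4 k) := by
    have e6 : em (f4 k) = em (lam ^ 3) * em (g4 k) := by rw [f4_eq, em_mul]
    rw [zp, em_add, em_mul (lam ^ 3), em_mul (DDq S), em_mul (f4 k), e6]
    field_simp
  rw [Xe_eq, e2, e3, e5, Xe_eq]
  ring

/-- **The value at `1`** with the sums of `E1`, for `k = 0` and `k = 2`. -/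
theorem Xe_avg {k : ZMod 4} (hk : k = 0 ∨ k = 2) (e : Pg → ZMod 4) {T S : Finset Pg} (hT : T ⊆ S)
    {ι : Type} [Fintype ι] {c : ι → 𝓞 K} (h : RepsG (lam ^ 3) (lam ^ 3 * DDq S) c) :
    em (f4 k * DDq S) * (LG (lam ^ 3) (Xe k e T) 1 * ∏ q ∈ S \ T, (1 - Xe k e T q.1 / em q.1)) =
      ∑ i, Xe k e T (c i) * Ph4 k (zp k S (c i)) := by
  rcases hk with rfl | rfl
  · rw [Xe_gen 0 e hT (κ := Unit) (x := fun _ => 0) h
      (fun a => ⟨(), by rw [g4_zero]; exact one_dvd _⟩) (fun _ _ _ => rfl)]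
    refine Finset.sum_congr rfl fun i _ => ?_
    rw [Fintype.sum_unique, zero_mul, e4_zero, one_mul, em_zero, zero_div, add_zero, Ph4_zero]
  · rw [Xe_gen 2 e hT (κ := Fin 2) (x := fun b => (b.val : 𝓞 K)) h ?_ ?_]
    · refine Finset.sum_congr rfl fun i _ => ?_
      congr 1
      have v0 : (((0 : Fin 2).val : ℕ) : 𝓞 K) = 0 := Nat.cast_zero
      have v1 : (((1 : Fin 2).val : ℕ) : 𝓞 K) = 1 := Nat.cast_one
      have hpe : em 1 / em lam = pe := by rw [em_one, em_lam, pe, one_div]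
      rw [Fin.sum_univ_two, v0, v1, sm_zero, sm_one, mul_zero, mul_one, e4_zero, e4_two, em_zero,
        zero_div, add_zero, g4_two, hpe]
      unfold Ph4
      have h20 : (2 : ZMod 4) ≠ 0 := by decide
      rw [if_neg h20, if_pos rfl]
      ring
    · intro a
      rw [g4_two]
      rcases Int.emod_two_eq_zero_or_one ((cp a).1 + (cp a).2) with h1 | h1
      · refine ⟨0, ?_⟩
        have v0 : (((0 : Fin 2).val : ℕ) : 𝓞 K) = 0 := Nat.cast_zero
        rw [v0, sub_zero, lam_dvd_iff]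
        exact Int.dvd_of_emod_eq_zero h1
      · refine ⟨1, ?_⟩
        have v1 : (((1 : Fin 2).val : ℕ) : 𝓞 K) = 1 := Nat.cast_one
        rw [v1, lam_dvd_iff, sub_cp, cp_one]
        dsimp only
        omega
    · intro a b hab
      rw [g4_two, lam_dvd_iff, sub_cp] at hab
      have c1 : ∀ n : ℕ, cp (n : 𝓞 K) = ((n : ℤ), (0 : ℤ)) := by
        intro n
        have := cp_coords n 0
        simpa using this
      rw [c1, c1] at hab
      dsimp only at hab
      have h1 := a.isLt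
      have h2 := b.isLt
      exact Fin.ext (by omega)

/-! ### The sums over the classes modulo `D` -/

open Classical in
/-- the indicator of the elements prime to `M` -/
def cpi (M x : 𝓞 K) : ℂ := if IsCoprime x M then 1 else 0

theorem cpi_pos {M x : 𝓞 K} (h : IsCoprime x M) : cpi M x = 1 := by
  unfold cpi
  exact if_pos h

theorem cpi_neg {M x : 𝓞 K} (h : ¬ IsCoprime x M) : cpi M x = 0 := by
  unfold cpi
  exact if_neg h

theorem cop_iff {M x y : 𝓞 K} (h : M ∣ x - y) : IsCoprime x M ↔ IsCoprime y M := by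
  constructor
  · intro hx
    refine Eul_cop (b := x) ?_ hx
    rw [← dvd_neg, neg_sub]
    exact h
  · exact fun hy => Eul_cop h hy

theorem cpi_per (M : 𝓞 K) : Pd M (cpi M) := by
  intro x y h
  by_cases hx : IsCoprime x M
  · rw [cpi_pos hx, cpi_pos ((cop_iff h).1 hx)]
  · rw [cpi_neg hx, cpi_neg fun hy => hx ((cop_iff h).2 hy)]

theorem cop_mul_iff {M c x : 𝓞 K} (hc : IsCoprime c M) : IsCoprime (c * x) M ↔ IsCoprime x M :=
  ⟨fun h => h.of_mul_left_right, fun h => hc.mul_left h⟩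

theorem cpi_mul {M c : 𝓞 K} (hc : IsCoprime c M) (x : 𝓞 K) : cpi M (c * x) = cpi M x := by
  by_cases hx : IsCoprime x M
  · rw [cpi_pos hx, cpi_pos ((cop_mul_iff hc).2 hx)]
  · rw [cpi_neg hx, cpi_neg fun hy => hx ((cop_mul_iff hc).1 hy)]

theorem cop_f4_DDq (k : ZMod 4) (S : Finset Pg) : IsCoprime (f4 k) (DDq S) :=
  (in4_cop_f4 (DDq_in4 S) k).symm

theorem cop_iO (M : 𝓞 K) (n : ℕ) : IsCoprime (iO ^ n) M := by
  obtain ⟨u, hu⟩ := isUnit_iO.pow n
  exact ⟨((u⁻¹ : (𝓞 K)ˣ) : 𝓞 K), 0, by rw [← hu, Units.inv_mul, zero_mul, add_zero]⟩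

/-- the representatives `D + f y` -/
theorem reps_y (k : ZMod 4) {S : Finset Pg} {ι : Type} {y : ι → 𝓞 K} (hy : RepsG 1 (DDq S) y) :
    RepsG (lam ^ 3) (lam ^ 3 * DDq S) (fun i => DDq S + f4 k * y i) := by
  have hin : ∀ i, In4 (DDq S + f4 k * y i) := by
    intro i
    refine (in4_congr ?_).2 (DDq_in4 S)
    rw [add_sub_cancel_left]
    exact (f4_dvd k).mul_right _
  have hf := cop_f4_DDq k S
  refine ⟨mul_ne_zero (pow_ne_zero 3 lam_ne_zero) (DDq_in4 S).ne_zero, dvd_mul_right _ _, hin, ?_,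
    ?_, ?_⟩
  · intro i
    refine IsCoprime.mul_right (in4_cop_lam (hin i) 3) ?_
    refine Eul_cop (b := f4 k * y i) ⟨1, by ring⟩ ?_
    exact hf.mul_left (hy.cop i)
  · intro a ha h1
    obtain ⟨p, q, hpq⟩ := hf
    have hp : IsCoprime p (DDq S) := ⟨f4 k, q, by linear_combination hpq⟩
    have ha' : IsCoprime a (DDq S) := ha.of_isCoprime_of_dvd_right (dvd_mul_left _ _)
    obtain ⟨i, t, ht⟩ := hy.ex (p * a) (hp.mul_left ha') (one_dvd _)
    refine ⟨i, IsCoprime.mul_dvd (in4_cop_lam (DDq_in4 S) 3).symm ?_ ?_⟩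
    · have h2 : lam ^ 3 ∣ DDq S + f4 k * y i - 1 := hin i
      have e : a - (DDq S + f4 k * y i) = (a - 1) - (DDq S + f4 k * y i - 1) := by ring
      rw [e]
      exact dvd_sub h1 h2
    · exact ⟨q * a - 1 + f4 k * t, by linear_combination (-a) * hpq + f4 k * ht⟩
  · rintro i j ⟨t, ht⟩
    refine hy.inj i j ?_
    have h2 : DDq S ∣ f4 k * (y i - y j) := ⟨lam ^ 3 * t, by linear_combination ht⟩
    exact hf.symm.dvd_of_dvd_mul_left h2

theorem Ph4_congr {k : ZMod 4} (hk : k = 0 ∨ k = 2) {z w : ℂ} (h : z - w ∈ PP.lattice) :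
    Ph4 k z = Ph4 k w := by
  rcases hk with rfl | rfl
  · rw [Ph4_zero, Ph4_zero, E1_congr' h]
  · rw [Ph4_two, Ph4_two, gg_congr h]

theorem div_sub_mem {M x y : 𝓞 K} (hM : M ≠ 0) (h : M ∣ x - y) :
    em x / em M - em y / em M ∈ PP.lattice := by
  obtain ⟨t, ht⟩ := h
  have h0 : em M ≠ 0 := em_ne hM
  have e : em x / em M - em y / em M = em t := by
    rw [← sub_div, ← em_sub, ht, em_mul, mul_div_cancel_left₀ _ h0]
  rw [e]
  exact em_mem t

theorem zp_y (k : ZMod 4) (S : Finset Pg) (y : 𝓞 K) :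
    zp k S (DDq S + f4 k * y) = (em (f4 k))⁻¹ + em y / em (DDq S) := by
  have h1 : em (f4 k) ≠ 0 := em_ne (f4_ne k)
  have h2 : em (DDq S) ≠ 0 := em_ne (DDq_in4 S).ne_zero
  rw [zp, em_add, em_mul, em_mul]
  field_simp

theorem Pd.mul {M : 𝓞 K} {F G : 𝓞 K → ℂ} (hF : Pd M F) (hG : Pd M G) :
    Pd M fun y => F y * G y := fun x y h => by
  change F x * G x = F y * G y
  rw [hF x y h, hG x y h]

theorem Pd.comp_mul {R : Type*} {M : 𝓞 K} {F : 𝓞 K → R} (hF : Pd M F) (c : 𝓞 K) :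
    Pd M fun y => F (c * y) := fun x y h => hF _ _ (by
  rw [← mul_sub]
  exact h.mul_left c)

theorem Pd_chP (e : Pg → ZMod 4) {T S : Finset Pg} (hT : T ⊆ S) : Pd (DDq S) (chP e T) :=
  fun _ _ h => chP_per hT h

theorem Pd_div {R : Type*} {M : 𝓞 K} (hM : M ≠ 0) {G : ℂ → R}
    (hG : ∀ z w, z - w ∈ PP.lattice → G z = G w) : Pd M fun y => G (em y / em M) :=
  fun _ _ h => hG _ _ (div_sub_mem hM h)

/-- the value at `1` as a sum over the classes -/
theorem Xe_SM {k : ZMod 4} (hk : k = 0 ∨ k = 2) (e : Pg → ZMod 4) {T S : Finset Pg}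
    (hT : T ⊆ S) :
    em (f4 k * DDq S) * (LG (lam ^ 3) (Xe k e T) 1 * ∏ q ∈ S \ T, (1 - Xe k e T q.1 / em q.1)) =
      th4 k (DDq S) * SM (DDq S) fun y => cpi (DDq S) y *
        (chP e T (f4 k * y) * Ph4 k ((em (f4 k))⁻¹ + em y / em (DDq S))) := by
  have hM : DDq S ≠ 0 := (DDq_in4 S).ne_zero
  obtain ⟨ι, _, y, hy⟩ := RepsG.exists_reps hM (one_dvd (DDq S))
  rw [Xe_avg hk e hT (reps_y k hy)]
  have hP : Pd (DDq S) fun y => cpi (DDq S) y *
      (chP e T (f4 k * y) * Ph4 k ((em (f4 k))⁻¹ + em y / em (DDq S))) := by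
    refine (cpi_per _).mul (((Pd_chP e hT).comp_mul _).mul ?_)
    refine Pd_div (G := fun z => Ph4 k ((em (f4 k))⁻¹ + z)) hM fun z w h => Ph4_congr hk ?_
    rwa [add_sub_add_left_eq_sub]
  rw [SM_sup (a := y) hM hP, Finset.mul_sum]
  · refine Finset.sum_congr rfl fun i _ => ?_
    have e1 : chP e T (DDq S + f4 k * y i) = chP e T (f4 k * y i) :=
      chP_per hT ⟨1, by ring⟩
    have e2 : th4 k (DDq S + f4 k * y i) = th4 k (DDq S) := by
      refine (th4_congr k (DDq_in4 S) ?_).symm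
      exact ⟨-y i, by ring⟩
    rw [cpi_pos (hy.cop i), one_mul, zp_y, Xe_eq, e1, e2]
    ring
  · intro x hx
    have h1 : IsCoprime x (DDq S) := by
      by_contra h
      apply hx
      rw [cpi_neg h, zero_mul]
    exact hy.ex x h1 (one_dvd _)
  · exact fun i j h => hy.inj i j h

/-! ### The even part -/

/-- the constant -/
def CX (k : ZMod 4) : ℂ := Ph4 k (em (f4 k))⁻¹

/-- the even part -/
def uX (k : ZMod 4) (x : ℂ) : ℂ := if k = 0 then uX0 x else uX2 x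

theorem CX_zero : CX 0 = E1 (pe ^ 3) := by rw [CX, em_f4_inv f4_zero, Ph4_zero]

theorem CX_two : CX 2 = -(Om * gg (pe ^ 4)) := by rw [CX, em_f4_inv f4_two, Ph4_two]

theorem CX_eq (k : ZMod 4) : CX k = La4 k ∅ := (La4_empty k).symm

theorem od_y {S : Finset Pg} (hS : S.Nonempty) {y : 𝓞 K} (hy : IsCoprime y (DDq S)) :
    Od (em y / em (DDq S)) := by
  have hD : em (DDq S) ≠ 0 := em_ne (DDq_in4 S).ne_zero
  refine ⟨⟨DDq S, (DDq_in4 S).ne_zero, ?_⟩, fun m hm => ?_⟩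
  · rw [mul_div_cancel₀ _ hD]
    exact em_mem y
  · obtain ⟨t, ht⟩ := mem_iff_em.1 hm
    have h1 : lam ^ m * y = DDq S * t := by
      apply em_inj
      rw [em_mul, em_mul, em_pow, em_lam, ht]
      field_simp
    obtain ⟨q, hq⟩ := hS
    have h2 : q.1 ∣ lam ^ m * y := by
      rw [h1]
      exact (dvd_DDq.2 hq).mul_right _
    rcases q.prime.dvd_or_dvd h2 with h3 | h3
    · have h4 := in4_cop_lam q.in4 m
      exact q.prime.not_isUnit (h4.isUnit_of_dvd' (dvd_refl _) h3)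
    · exact q.prime.not_isUnit (hy.isUnit_of_dvd' h3 (dvd_DDq.2 hq))

theorem Ph4_pm {k : ZMod 4} (hk : k = 0 ∨ k = 2) {R : ℂ} (hR : Od R) :
    Ph4 k ((em (f4 k))⁻¹ + R) + Ph4 k ((em (f4 k))⁻¹ - R) = 2 * CX k * uX k (X R) := by
  rcases hk with rfl | rfl
  · rw [em_f4_inv f4_zero, Ph4_zero, Ph4_zero, CX_zero, uX, if_pos rfl]
    exact (E1_even hR).2
  · have h20 : (2 : ZMod 4) ≠ 0 := by decide
    rw [em_f4_inv f4_two, Ph4_two, Ph4_two, CX_two, uX, if_neg h20]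
    linear_combination (-Om) * (gg_even hR).2

theorem SM_half {M : 𝓞 K} (hM : M ≠ 0) {F : 𝓞 K → ℂ} (hF : Pd M F) :
    2 * SM M F = SM M fun y => F y + F (-y) := by
  have h1 : SM M (fun y => F (-1 * y)) = SM M F :=
    SM_mul hM hF ⟨-1, 0, by ring⟩
  rw [SM_add hM, two_mul]
  congr 1
  rw [← h1]
  exact SM_congr fun x => by rw [neg_one_mul]

/-- **(1.1)** : the value at `1` as a sum of the even parts over the classes -/
theorem Xe_u {k : ZMod 4} (hk : k = 0 ∨ k = 2) (e : Pg → ZMod 4) {T S : Finset Pg}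
    (hT : T ⊆ S) (hS : S.Nonempty) (hneg : chP e T (-1) = 1) :
    em (f4 k * DDq S) * (LG (lam ^ 3) (Xe k e T) 1 * ∏ q ∈ S \ T, (1 - Xe k e T q.1 / em q.1)) =
      th4 k (DDq S) * CX k * SM (DDq S) fun y => cpi (DDq S) y *
        (chP e T (f4 k * y) * uX k (X (em y / em (DDq S)))) := by
  have hM : DDq S ≠ 0 := (DDq_in4 S).ne_zero
  rw [Xe_SM hk e hT, mul_assoc]
  congr 1
  have hP : Pd (DDq S) fun y => cpi (DDq S) y *
      (chP e T (f4 k * y) * Ph4 k ((em (f4 k))⁻¹ + em y / em (DDq S))) := by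
    refine (cpi_per _).mul (((Pd_chP e hT).comp_mul _).mul ?_)
    refine Pd_div (G := fun z => Ph4 k ((em (f4 k))⁻¹ + z)) hM fun z w h => Ph4_congr hk ?_
    rwa [add_sub_add_left_eq_sub]
  apply mul_left_cancel₀ (two_ne_zero (α := ℂ))
  rw [SM_half hM hP, ← mul_assoc, ← smul_eq_mul (2 * CX k), ← SM_smul hM]
  refine SM_congr fun y => ?_
  by_cases hy : IsCoprime y (DDq S)
  · have h1 : cpi (DDq S) (-y) = 1 := cpi_pos hy.neg_left
    have h2 : chP e T (f4 k * -y) = chP e T (f4 k * y) := by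
      have e1 : f4 k * -y = (-1) * (f4 k * y) := by ring
      rw [e1, chP_mul, hneg, one_mul]
    have h3 := Ph4_pm hk (od_y hS hy)
    rw [cpi_pos hy, h1, h2, em_neg, neg_div, ← sub_eq_add_neg, smul_eq_mul]
    linear_combination chP e T (f4 k * y) * h3
  · have h1 : cpi (DDq S) (-y) = 0 := cpi_neg fun h => hy ((IsCoprime.neg_left_iff _ _).1 h)
    rw [cpi_neg hy, h1, smul_eq_mul]
    ring

theorem CX_ne {k : ZMod 4} (hk : k = 0 ∨ k = 2) : CX k ≠ 0 := by
  rcases hk with rfl | rfl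
  · rw [CX_zero]
    intro h
    have h1 := E1_pe3
    rw [h, mul_zero] at h1
    exact neg_ne_zero.2 (mul_ne_zero Om_ne_zero (gg_ne two_pe3_notMem)) h1.symm
  · rw [CX_two]
    exact neg_ne_zero.2 (mul_ne_zero Om_ne_zero (gg_ne two_pe4_notMem))

/-! ### The sum over the orbits of `i` -/

theorem SM_sum {R : Type*} [AddCommMonoid R] {M : 𝓞 K} (hM : M ≠ 0) {ι : Type*} (s : Finset ι)
    (G : ι → 𝓞 K → R) : SM M (fun y => ∑ j ∈ s, G j y) = ∑ j ∈ s, SM M (G j) := by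
  obtain ⟨κ, _, a, -, h⟩ := SM_def (R := R) hM
  rw [h, Finset.sum_congr rfl fun j _ => h (G j), Finset.sum_comm]

open Classical in
/-- the restriction of a function to the classes with trivial character at `q0` -/
def rsX (q0 : Pg) (kap M : 𝓞 K) (F : 𝓞 K → ℂ) (y : 𝓞 K) : ℂ :=
  if IsCoprime y M ∧ c4 q0 (kap * y) = 0 then F y else 0

theorem rsX_pos {q0 : Pg} {kap M y : 𝓞 K} (F : 𝓞 K → ℂ) (h : IsCoprime y M)
    (h1 : c4 q0 (kap * y) = 0) : rsX q0 kap M F y = F y := by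
  unfold rsX
  exact if_pos ⟨h, h1⟩

theorem rsX_neg {q0 : Pg} {kap M y : 𝓞 K} (F : 𝓞 K → ℂ)
    (h : ¬ (IsCoprime y M ∧ c4 q0 (kap * y) = 0)) : rsX q0 kap M F y = 0 := by
  unfold rsX
  exact if_neg h

theorem c4_orb (q0 : Pg) (j : ZMod 4) {x : 𝓞 K} (hx : ¬ q0.1 ∣ x) :
    c4 q0 (iO ^ j.val * x) = j * nn q0.1 + c4 q0 x := by
  have h2 : ¬ q0.1 ∣ iO := fun h => q0.prime.not_isUnit (isUnit_of_dvd_unit h isUnit_iO)
  have h3 : ¬ q0.1 ∣ iO ^ j.val := fun h => h2 (q0.prime.dvd_of_dvd_pow h)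
  rw [c4_mul q0 h3 hx, c4_pow q0 h2, c4_i, ZMod.natCast_zmod_val]

theorem iO_val_neg (j : ZMod 4) (y : 𝓞 K) : iO ^ (-j).val * (iO ^ j.val * y) = y := by
  rw [← mul_assoc, pow_val_mul, neg_add_cancel, ZMod.val_zero, pow_zero, one_mul]

theorem rsX_per {q0 : Pg} {kap M : 𝓞 K} (h0 : q0.1 ∣ M) (hk : IsCoprime kap M) {F : 𝓞 K → ℂ}
    (hF : Pd M F) : Pd M (rsX q0 kap M F) := by
  intro x y h
  by_cases hx : IsCoprime x M
  · have hy := (cop_iff h).1 hx
    have h1 : ¬ q0.1 ∣ kap * x := fun hd =>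
      q0.prime.not_isUnit ((hk.mul_left hx).isUnit_of_dvd' hd h0)
    have h2 : c4 q0 (kap * x) = c4 q0 (kap * y) := by
      refine c4_congr q0 h1 ?_
      rw [← mul_sub]
      exact (h0.trans h).mul_left _
    by_cases h3 : c4 q0 (kap * x) = 0
    · rw [rsX_pos F hx h3, rsX_pos F hy (h2 ▸ h3), hF x y h]
    · rw [rsX_neg F fun h4 => h3 h4.2, rsX_neg F fun h4 => h3 (h2.trans h4.2)]
  · have hy : ¬ IsCoprime y M := fun hy => hx ((cop_iff h).2 hy)
    rw [rsX_neg F fun h4 => hx h4.1, rsX_neg F fun h4 => hy h4.1]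

/-- **The sum over the orbits.** -/
theorem orb {q0 : Pg} (h0 : aa q0.1 = 1) {kap M : 𝓞 K} (hM : M ≠ 0) (hq : q0.1 ∣ M)
    (hk : IsCoprime kap M) {F : 𝓞 K → ℂ} (hF : Pd M F) :
    SM M (fun y => cpi M y * F y) =
      SM M (rsX q0 kap M fun y => ∑ j : ZMod 4, F (iO ^ j.val * y)) := by
  have h1 : ∀ y, cpi M y * F y = ∑ j : ZMod 4,
      rsX q0 kap M (fun y => F (iO ^ (-j).val * y)) (iO ^ j.val * y) := by
    intro y
    by_cases hy : IsCoprime y M
    · have hd : ¬ q0.1 ∣ kap * y := fun hd =>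
        q0.prime.not_isUnit ((hk.mul_left hy).isUnit_of_dvd' hd hq)
      have hj : ∀ j : ZMod 4, c4 q0 (kap * (iO ^ j.val * y)) = j * nn q0.1 + c4 q0 (kap * y) := by
        intro j
        rw [← c4_orb q0 j hd]
        congr 1
        ring
      have key : ∀ n t : ZMod 4, md n = 1 → ∃ j : ZMod 4, j * n + t = 0 ∧
          ∀ i : ZMod 4, i * n + t = 0 → i = j := by decide
      obtain ⟨j, hj1, hj2⟩ := key (nn q0.1) (c4 q0 (kap * y)) h0
      rw [Finset.sum_eq_single j]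
      · rw [rsX_pos _ ((cop_mul_iff (cop_iO M _)).2 hy) (by rw [hj, hj1]), iO_val_neg, cpi_pos hy,
          one_mul]
      · intro i _ hi
        refine rsX_neg _ fun h4 => hi (hj2 i ?_)
        rw [← hj]
        exact h4.2
      · exact fun h => absurd (Finset.mem_univ _) h
    · rw [cpi_neg hy, zero_mul]
      refine (Finset.sum_eq_zero fun j _ => rsX_neg _ fun h4 => hy ?_).symm
      exact (cop_mul_iff (cop_iO M _)).1 h4.1
  have h2 : ∀ j : ZMod 4, SM M (fun y => rsX q0 kap M (fun y => F (iO ^ (-j).val * y))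
      (iO ^ j.val * y)) = SM M (rsX q0 kap M fun y => F (iO ^ (-j).val * y)) := fun j =>
    SM_mul hM (rsX_per hq hk (hF.comp_mul _)) (cop_iO M _)
  have h3 : ∀ y, rsX q0 kap M (fun y => ∑ j : ZMod 4, F (iO ^ j.val * y)) y =
      ∑ j : ZMod 4, rsX q0 kap M (fun y => F (iO ^ j.val * y)) y := by
    intro y
    by_cases hy : IsCoprime y M ∧ c4 q0 (kap * y) = 0
    · rw [rsX_pos _ hy.1 hy.2]
      exact Finset.sum_congr rfl fun j _ =>
        (rsX_pos (fun y => F (iO ^ j.val * y)) hy.1 hy.2).symm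
    · rw [rsX_neg _ hy]
      exact (Finset.sum_eq_zero fun j _ => rsX_neg _ hy).symm
  rw [SM_congr h1, SM_sum hM, Finset.sum_congr rfl fun j _ => h2 j, SM_congr h3, SM_sum hM]
  exact Equiv.sum_comp (Equiv.neg (ZMod 4)) fun j => SM M (rsX q0 kap M fun y => F (iO ^ j.val * y))

/-! ### The sums over the units -/

/-- the exponent of the value at `i` -/
def hh (h : ZMod 2) : ZMod 4 := if h = 0 then 0 else 2

/-- the sum over the units -/
def UX (k : ZMod 4) (h : ZMod 2) (x : ℂ) : ℂ :=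
  if k = 0 then (if h = 0 then U0p x else U0m x) else (if h = 0 then U2p x else U2m x)

theorem uX_sum {k : ZMod 4} (hk : k = 0 ∨ k = 2) {R : ℂ} (hR : Od R) (h : ZMod 2) :
    2 * (uX k (X R) + e4 (hh h) * uX k (-X R)) = UX k h (X R) := by
  have hi : X (zt * R) = -X R := X_i hR.notMem
  have h01 : h = 0 ∨ h = 1 := by
    have key : ∀ h : ZMod 2, h = 0 ∨ h = 1 := by decide
    exact key h
  have e0 : e4 (hh 0) = 1 := by rw [hh, if_pos rfl, e4_zero]
  have e1 : e4 (hh 1) = -1 := by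
    have h10 : (1 : ZMod 2) ≠ 0 := by decide
    rw [hh, if_neg h10, e4_two]
  have h10 : (1 : ZMod 2) ≠ 0 := by decide
  rcases hk with rfl | rfl
  · have a1 := (E1_even hR).1
    have a2 := (E1_even hR.zt_mul).1
    rw [hi] at a2
    obtain ⟨b1, b2⟩ := uX0_add a1 a2
    rw [uX, if_pos rfl, uX, if_pos rfl, UX, if_pos rfl]
    rcases h01 with rfl | rfl
    · rw [if_pos rfl, e0, ← b1]
      ring
    · rw [if_neg h10, e1, ← b2]
      ring
  · have h20 : (2 : ZMod 4) ≠ 0 := by decide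
    have a1 := (gg_even hR).1
    have a2 := (gg_even hR.zt_mul).1
    rw [hi] at a2
    have a3 : X R ^ 2 + 2 * X R - 1 ≠ 0 := by
      intro h3
      apply a2
      linear_combination h3
    obtain ⟨b1, b2⟩ := uX2_add a1 a3
    rw [uX, if_neg h20, uX, if_neg h20, UX, if_neg h20]
    rcases h01 with rfl | rfl
    · rw [if_pos rfl, e0, ← b1]
      ring
    · rw [if_neg h10, e1, ← b2]
      ring

theorem chP_pow (e : Pg → ZMod 4) (T : Finset Pg) (x : 𝓞 K) (n : ℕ) :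
    chP e T (x ^ n) = chP e T x ^ n := by
  induction n with
  | zero =>
    rw [pow_zero, pow_zero, chP]
    exact Finset.prod_eq_one fun q _ => (chE_chrP e q).one
  | succ n ih => rw [pow_succ, chP_mul, ih, pow_succ]

theorem uX_orb {k : ZMod 4} (hk : k = 0 ∨ k = 2) {e : Pg → ZMod 4} {T S : Finset Pg}
    (hS : S.Nonempty) {h : ZMod 2} (hi : chP e T iO = e4 (hh h)) {y : 𝓞 K}
    (hy : IsCoprime y (DDq S)) :
    ∑ j : ZMod 4, chP e T (f4 k * (iO ^ j.val * y)) *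
        uX k (X (em (iO ^ j.val * y) / em (DDq S))) =
      chP e T (f4 k * y) * UX k h (X (em y / em (DDq S))) := by
  have hR := od_y hS hy
  have hz : ∀ n : ℕ, em (iO ^ n * y) / em (DDq S) = zt ^ n * (em y / em (DDq S)) := by
    intro n
    have h2 : em (iO : 𝓞 K) = zt := rfl
    rw [em_mul, em_pow, h2]
    ring
  have x0 : X (zt ^ 0 * (em y / em (DDq S))) = X (em y / em (DDq S)) := by
    rw [pow_zero, one_mul]
  have x1 : X (zt ^ 1 * (em y / em (DDq S))) = -X (em y / em (DDq S)) := by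
    rw [pow_one]
    exact X_i hR.notMem
  have x2 : X (zt ^ 2 * (em y / em (DDq S))) = X (em y / em (DDq S)) := by
    have e2 : zt ^ 2 * (em y / em (DDq S)) = zt * (zt * (em y / em (DDq S))) := by ring
    rw [e2, X_i hR.zt_mul.notMem, X_i hR.notMem, neg_neg]
  have x3 : X (zt ^ 3 * (em y / em (DDq S))) = -X (em y / em (DDq S)) := by
    have e2 : zt ^ 3 * (em y / em (DDq S)) = zt * (zt * (zt * (em y / em (DDq S)))) := by ring
    rw [e2, X_i hR.zt_mul.zt_mul.notMem, X_i hR.zt_mul.notMem, X_i hR.notMem, neg_neg]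
  have hc : ∀ n : ℕ, chP e T (f4 k * (iO ^ n * y)) = e4 (hh h) ^ n * chP e T (f4 k * y) := by
    intro n
    have e2 : f4 k * (iO ^ n * y) = iO ^ n * (f4 k * y) := by ring
    rw [e2, chP_mul, chP_pow, hi]
  have hs : e4 (hh h) ^ 2 = 1 := by
    have key : ∀ h : ZMod 2, ((2 : ℕ) : ZMod 4) * hh h = 0 := by
      unfold hh
      decide
    rw [e4_pow, key, e4_zero]
  have hs3 : e4 (hh h) ^ 3 = e4 (hh h) := by
    have e3 : e4 (hh h) ^ 3 = e4 (hh h) ^ 2 * e4 (hh h) := by ring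
    rw [e3, hs, one_mul]
  have v0 : (0 : ZMod 4).val = 0 := rfl
  have v1 : (1 : ZMod 4).val = 1 := rfl
  have v2 : (2 : ZMod 4).val = 2 := rfl
  have v3 : (3 : ZMod 4).val = 3 := rfl
  have hsum : ∀ g : ZMod 4 → ℂ, ∑ j : ZMod 4, g j = g 0 + g 1 + g 2 + g 3 := by
    intro g
    exact Fin.sum_univ_four g
  rw [hsum, v0, v1, v2, v3, hc, hc, hc, hc, hz, hz, hz, hz, x0, x1, x2, x3, hs, hs3, pow_zero,
    pow_one, ← uX_sum hk hR h]
  ring

/-! ### The block characters -/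

/-- the exponent of the character at `q0` -/
def e0X (q0 : Pg) (h : ZMod 2) (T : Finset Pg) : ZMod 4 :=
  -((hh h + ∑ p ∈ T, nn p.1) * nn q0.1)

/-- the exponents -/
def eX (q0 : Pg) (h : ZMod 2) (T : Finset Pg) (q : Pg) : ZMod 4 := if q = q0 then e0X q0 h T else 1

/-- the support -/
def sX (q0 : Pg) (h : ZMod 2) (T : Finset Pg) : Finset Pg :=
  if e0X q0 h T = 0 then T else insert q0 T

/-- the exponent of the value at `x` of the block character -/
def bX (q0 : Pg) (h : ZMod 2) (T : Finset Pg) (x : 𝓞 K) : ZMod 4 :=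
  e0X q0 h T * c4 q0 x + ∑ p ∈ T, c4 p x

theorem sX_sub (q0 : Pg) (h : ZMod 2) {T J : Finset Pg} (hT : T ⊆ J) : sX q0 h T ⊆ insert q0 J := by
  unfold sX
  split
  · exact hT.trans (Finset.subset_insert _ _)
  · exact Finset.insert_subset_insert _ hT

theorem prod_ch4 {T : Finset Pg} {x : 𝓞 K} (h : ∀ q ∈ T, ¬ q.1 ∣ x) :
    ∏ q ∈ T, ch4 q x = e4 (∑ q ∈ T, c4 q x) := by
  rw [e4_sum]
  exact Finset.prod_congr rfl fun q hq => ch4_of_not (h q hq)

/-- the values of the block character -/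
theorem chP_X {q0 : Pg} (h : ZMod 2) {T : Finset Pg} (hq : q0 ∉ T) {x : 𝓞 K} (hx : ¬ q0.1 ∣ x) :
    chP (eX q0 h T) (sX q0 h T) x = e4 (e0X q0 h T * c4 q0 x) * ∏ q ∈ T, ch4 q x := by
  have h1 : ∀ q ∈ T, chE (eX q0 h T) q x = ch4 q x := by
    intro q hqT
    have h2 : q ≠ q0 := by
      rintro rfl
      exact hq hqT
    rw [chE_eq_ch4 (e := eX q0 h T) (q := q) (by rw [eX, if_neg h2])]
  unfold sX
  split
  · next h3 => rw [h3, zero_mul, e4_zero, one_mul, chP, Finset.prod_congr rfl h1]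
  · rw [chP, Finset.prod_insert hq, Finset.prod_congr rfl h1, chE_of_not _ hx, eX, if_pos rfl]

theorem iO_not (q : Pg) : ¬ q.1 ∣ iO := fun h =>
  q.prime.not_isUnit (isUnit_of_dvd_unit h isUnit_iO)

theorem chP_iO {q0 : Pg} (h0 : aa q0.1 = 1) (h : ZMod 2) {T : Finset Pg} (hq : q0 ∉ T) :
    chP (eX q0 h T) (sX q0 h T) iO = e4 (hh h) := by
  rw [chP_X h hq (iO_not q0), prod_ch4 fun q _ => iO_not q, ← e4_add, c4_i,
    Finset.sum_congr rfl fun q _ => c4_i q, e0X]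
  have key : ∀ (h : ZMod 2) (n s : ZMod 4), md n = 1 → -((hh h + s) * n) * n + s = hh h := by
    unfold hh
    decide
  rw [key h _ _ h0]

theorem chP_neg {q0 : Pg} (h0 : aa q0.1 = 1) (h : ZMod 2) {T : Finset Pg} (hq : q0 ∉ T) :
    chP (eX q0 h T) (sX q0 h T) (-1) = 1 := by
  have key : ∀ h : ZMod 2, ((2 : ℕ) : ZMod 4) * hh h = 0 := by
    unfold hh
    decide
  rw [← iO_sq, chP_pow, chP_iO h0 h hq, e4_pow, key, e4_zero]

/-- the sum over the classes with trivial character at `q0`, with a weight -/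
def GX (q0 : Pg) (kap : 𝓞 K) (g : 𝓞 K → ℂ) (f : ℂ → ℂ) (J : Finset Pg) : ℂ :=
  SM (q0.1 * DDq J) (rsX q0 kap (q0.1 * DDq J) fun y => g (kap * y) * f (em y / em (q0.1 * DDq J)))

/-- **The sums `M_k^h(T; J)`.** -/
def MM (k : ZMod 4) (h : ZMod 2) (q0 : Pg) (T J : Finset Pg) : ℂ :=
  GX q0 (f4 k) (fun x => ∏ q ∈ T, ch4 q x) (fun z => UX k h (X z)) J

/-- the left side of (3.1) -/
def LX (k : ZMod 4) (h : ZMod 2) (q0 : Pg) (T J : Finset Pg) : ℂ :=
  em (f4 k * (q0.1 * DDq J)) * (LG (lam ^ 3) (Xe k (eX q0 h T) (sX q0 h T)) 1 *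
    ∏ q ∈ insert q0 J \ sX q0 h T, (1 - Xe k (eX q0 h T) (sX q0 h T) q.1 / em q.1))

/-- **(3.1)** -/
theorem MM_eq {k : ZMod 4} (hk : k = 0 ∨ k = 2) {q0 : Pg} (h0 : aa q0.1 = 1) (h : ZMod 2)
    {T J : Finset Pg} (hT : T ⊆ J) (hq : q0 ∉ J) :
    LX k h q0 T J = th4 k (q0.1 * DDq J) * CX k * MM k h q0 T J := by
  have hqT : q0 ∉ T := fun h => hq (hT h)
  have hM := DDq_insert hq
  have hM0 : DDq (insert q0 J) ≠ 0 := (DDq_in4 _).ne_zero
  have hd : q0.1 ∣ DDq (insert q0 J) := dvd_DDq.2 (Finset.mem_insert_self _ _)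
  have hS : (insert q0 J).Nonempty := Finset.insert_nonempty _ _
  have hf := cop_f4_DDq k (insert q0 J)
  have h1 := Xe_u hk (eX q0 h T) (sX_sub q0 h hT) hS (chP_neg h0 h hqT)
  have hper : Pd (DDq (insert q0 J)) fun y => chP (eX q0 h T) (sX q0 h T) (f4 k * y) *
      uX k (X (em y / em (DDq (insert q0 J)))) := by
    refine ((Pd_chP _ (sX_sub q0 h hT)).comp_mul _).mul ?_
    exact Pd_div (G := fun z => uX k (X z)) hM0 fun z w hzw => by rw [X_congr hzw]
  rw [orb h0 hM0 hd hf hper] at h1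
  rw [LX, MM, GX, ← hM, h1]
  congr 1
  refine SM_congr fun y => ?_
  by_cases hy : IsCoprime y (DDq (insert q0 J)) ∧ c4 q0 (f4 k * y) = 0
  · rw [rsX_pos _ hy.1 hy.2, rsX_pos _ hy.1 hy.2, uX_orb hk hS (chP_iO h0 h hqT) hy.1]
    congr 1
    have h2 : ¬ q0.1 ∣ f4 k * y := fun h3 =>
      q0.prime.not_isUnit ((hf.mul_left hy.1).isUnit_of_dvd' h3 hd)
    rw [chP_X h hqT h2, hy.2, mul_zero, e4_zero, one_mul]
  · rw [rsX_neg _ hy, rsX_neg _ hy]

/-- **(3.1)** with the classes `y` of trivial character at `q0` -/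
theorem LX_one {k : ZMod 4} (hk : k = 0 ∨ k = 2) {q0 : Pg} (h0 : aa q0.1 = 1) (h : ZMod 2)
    {T J : Finset Pg} (hT : T ⊆ J) (hq : q0 ∉ J) :
    LX k h q0 T J = th4 k (q0.1 * DDq J) * CX k * (chP (eX q0 h T) (sX q0 h T) (f4 k) *
      GX q0 1 (fun x => ∏ q ∈ T, ch4 q x) (fun z => UX k h (X z)) J) := by
  have hqT : q0 ∉ T := fun h => hq (hT h)
  have hM := DDq_insert hq
  have hM0 : DDq (insert q0 J) ≠ 0 := (DDq_in4 _).ne_zero
  have hd : q0.1 ∣ DDq (insert q0 J) := dvd_DDq.2 (Finset.mem_insert_self _ _)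
  have hS : (insert q0 J).Nonempty := Finset.insert_nonempty _ _
  have hf := cop_f4_DDq k (insert q0 J)
  have h1 := Xe_u hk (eX q0 h T) (sX_sub q0 h hT) hS (chP_neg h0 h hqT)
  have hper : Pd (DDq (insert q0 J)) fun y => chP (eX q0 h T) (sX q0 h T) (f4 k * y) *
      uX k (X (em y / em (DDq (insert q0 J)))) := by
    refine ((Pd_chP _ (sX_sub q0 h hT)).comp_mul _).mul ?_
    exact Pd_div (G := fun z => uX k (X z)) hM0 fun z w hzw => by rw [X_congr hzw]
  rw [orb h0 hM0 hd (kap := 1) isCoprime_one_left hper] at h1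
  rw [LX, GX, ← hM, h1, ← smul_eq_mul (chP (eX q0 h T) (sX q0 h T) (f4 k)), ← SM_smul hM0]
  congr 1
  refine SM_congr fun y => ?_
  by_cases hy : IsCoprime y (DDq (insert q0 J)) ∧ c4 q0 (1 * y) = 0
  · rw [rsX_pos _ hy.1 hy.2, rsX_pos _ hy.1 hy.2, uX_orb hk hS (chP_iO h0 h hqT) hy.1, smul_eq_mul,
      ← mul_assoc, chP_mul]
    congr 2
    have h2 : ¬ q0.1 ∣ 1 * y := fun h3 =>
      q0.prime.not_isUnit ((isCoprime_one_left.mul_left hy.1).isUnit_of_dvd' h3 hd)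
    conv_lhs => rw [← one_mul y]
    rw [chP_X h hqT h2, hy.2, mul_zero, e4_zero, one_mul]
  · rw [rsX_neg _ hy, rsX_neg _ hy, smul_zero]

theorem th4_sq {k : ZMod 4} (hk : k = 0 ∨ k = 2) (x : 𝓞 K) : th4 k x * th4 k x = 1 := by
  rw [th4, ← e4_add]
  have key : ∀ k n : ZMod 4, (k = 0 ∨ k = 2) → k * n + k * n = 0 := by decide
  rw [key k _ hk, e4_zero]

/-- **(3.2)** -/
theorem MM_step {k : ZMod 4} (hk : k = 0 ∨ k = 2) {q0 : Pg} (h0 : aa q0.1 = 1) (h : ZMod 2)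
    {T J : Finset Pg} (hT : T ⊆ J) {q : Pg} (hq : q ∉ J) (hq0 : q0 ∉ insert q J) :
    MM k h q0 T (insert q J) = (th4 k q.1 * em q.1 - e4 (bX q0 h T q.1)) * MM k h q0 T J := by
  have hqq : q0 ≠ q := fun e => hq0 (e ▸ Finset.mem_insert_self _ _)
  have hqJ : q0 ∉ J := fun e => hq0 (Finset.mem_insert_of_mem e)
  have hqT : q ∉ T := fun e => hq (hT e)
  have hq0T : q0 ∉ T := fun e => hqJ (hT e)
  have h1 := MM_eq hk h0 h (hT.trans (Finset.subset_insert q J)) hq0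
  have h2 := MM_eq hk h0 h hT hqJ
  have hqs : q ∉ sX q0 h T := by
    unfold sX
    split
    · exact hqT
    · rw [Finset.mem_insert, not_or]
      exact ⟨hqq.symm, hqT⟩
  have hset : insert q0 (insert q J) \ sX q0 h T = insert q (insert q0 J \ sX q0 h T) := by
    rw [Finset.insert_comm, Finset.insert_sdiff_of_notMem _ hqs]
  have hnot : q ∉ insert q0 J \ sX q0 h T := by
    rw [Finset.mem_sdiff, Finset.mem_insert]
    rintro ⟨h3 | h3, -⟩
    · exact hqq h3.symm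
    · exact hq h3
  have heq : q0.1 * DDq (insert q J) = q.1 * (q0.1 * DDq J) := by
    rw [DDq_insert hq]
    ring
  have hq1 : em q.1 ≠ 0 := em_ne q.ne_zero
  have hth : th4 k (q.1 * (q0.1 * DDq J)) = th4 k q.1 * th4 k (q0.1 * DDq J) :=
    th4_mul k q.in4 (q0.in4.mul (DDq_in4 J))
  have hX : Xe k (eX q0 h T) (sX q0 h T) q.1 = th4 k q.1 * e4 (bX q0 h T q.1) := by
    have h4 : ¬ q0.1 ∣ q.1 := Pg.not_dvd hqq
    have h5 : ∀ p ∈ T, ¬ p.1 ∣ q.1 := fun p hp => Pg.not_dvd (by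
      rintro rfl
      exact hqT hp)
    rw [Xe_eq, chP_X h hq0T h4, prod_ch4 h5, bX, e4_add]
  have h3 : LX k h q0 T (insert q J) = (em q.1 - th4 k q.1 * e4 (bX q0 h T q.1)) *
      LX k h q0 T J := by
    rw [LX, LX, hset, Finset.prod_insert hnot, heq, hX, em_mul (f4 k), em_mul q.1, em_mul (f4 k)]
    field_simp
  rw [h3, h2, heq, hth] at h1
  have h4 : th4 k (q0.1 * DDq J) * CX k ≠ 0 := mul_ne_zero (th4_ne _ _) (CX_ne hk)
  have h5 := th4_sq hk q.1
  apply mul_left_cancel₀ h4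
  linear_combination (-th4 k q.1) * h1 - (th4 k (q0.1 * DDq J) * CX k *
    (MM k h q0 T (insert q J) + e4 (bX q0 h T q.1) * MM k h q0 T J)) * h5

/-- the value for the trivial character -/
theorem MM_empty {k : ZMod 4} (hk : k = 0 ∨ k = 2) {q0 : Pg} (h0 : aa q0.1 = 1) :
    MM k 0 q0 ∅ ∅ = th4 k q0.1 * em q0.1 - 1 := by
  have h1 := MM_eq hk h0 0 (Finset.Subset.refl ∅) (Finset.notMem_empty q0)
  have he : e0X q0 0 ∅ = 0 := by
    rw [e0X, hh, if_pos rfl, Finset.sum_empty, add_zero, zero_mul, neg_zero]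
  have hs : sX q0 0 ∅ = ∅ := by
    rw [sX, if_pos he]
  have hX : Xe k (eX q0 0 ∅) ∅ = X4 k ∅ := Xe_eq_X4 fun q hq => absurd hq (Finset.notMem_empty q)
  have hLa : La4 k ∅ = em (f4 k) * LG (lam ^ 3) (X4 k ∅) 1 := by
    rw [La4, DDq_empty, mul_one, L4]
  have h2 : X4 k ∅ q0.1 = th4 k q0.1 := by
    rw [X4_eq, Finset.prod_empty, mul_one]
  have hq1 : em q0.1 ≠ 0 := em_ne q0.ne_zero
  rw [LX, hs, hX, DDq_empty, mul_one, Finset.sdiff_empty, Finset.prod_insert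
    (Finset.notMem_empty _), Finset.prod_empty, mul_one, h2, em_mul] at h1
  have h3 : CX k * (em q0.1 - th4 k q0.1) = th4 k q0.1 * CX k * MM k 0 q0 ∅ ∅ := by
    rw [← h1, CX_eq, hLa]
    field_simp
  have h5 := th4_sq hk q0.1
  apply mul_left_cancel₀ (CX_ne hk)
  linear_combination (-th4 k q0.1) * h3 - (CX k * MM k 0 q0 ∅ ∅ + CX k) * h5

/-- **The end of the averaging**: the sum for the full character does not vanish only if the
L-value does not vanish. -/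
theorem MM_ne {k : ZMod 4} (hk : k = 0 ∨ k = 2) {q0 : Pg} (h0 : aa q0.1 = 1) {h : ZMod 2}
    {S : Finset Pg} (hq : q0 ∉ S) (hS : hh h + ∑ q ∈ S, nn q.1 = 0)
    (hne : MM k h q0 S S ≠ 0) : L4 k S 1 ≠ 0 := by
  intro hL
  apply hne
  have h1 := MM_eq hk h0 h (Finset.Subset.refl S) hq
  have he : e0X q0 h S = 0 := by rw [e0X, hS, zero_mul, neg_zero]
  have hs : sX q0 h S = S := by rw [sX, if_pos he]
  have hX : Xe k (eX q0 h S) S = X4 k S := by
    refine Xe_eq_X4 fun q hqS => ?_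
    have h2 : q ≠ q0 := by
      rintro rfl
      exact hq hqS
    rw [eX, if_neg h2]
  rw [LX, hs, hX] at h1
  have h2 : LG (lam ^ 3) (X4 k S) 1 = 0 := hL
  rw [h2, zero_mul, mul_zero] at h1
  have h4 : th4 k (q0.1 * DDq S) * CX k ≠ 0 := mul_ne_zero (th4_ne _ _) (CX_ne hk)
  exact (mul_eq_zero.1 h1.symm).resolve_left h4

/-- **(3.3)** -/
theorem MM_sum (k : ZMod 4) (h : ZMod 2) (q0 : Pg) (J : Finset Pg) :
    ∑ T ∈ J.powerset, (-1) ^ T.card * MM k h q0 T J =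
      GX q0 (f4 k) (w4 J) (fun z => UX k h (X z)) J := by
  have hM : q0.1 * DDq J ≠ 0 := mul_ne_zero q0.ne_zero (DDq_in4 J).ne_zero
  have h1 : ∀ T ∈ J.powerset, (-1 : ℂ) ^ T.card * MM k h q0 T J =
      SM (q0.1 * DDq J) fun y => (-1 : ℂ) ^ T.card * rsX q0 (f4 k) (q0.1 * DDq J)
        (fun y => (∏ q ∈ T, ch4 q (f4 k * y)) * UX k h (X (em y / em (q0.1 * DDq J)))) y :=
    fun T _ => (SM_smul hM ((-1 : ℂ) ^ T.card) _).symm
  rw [Finset.sum_congr rfl h1, ← SM_sum hM, GX]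
  refine SM_congr fun y => ?_
  by_cases hy : IsCoprime y (q0.1 * DDq J) ∧ c4 q0 (f4 k * y) = 0
  · have h2 : w4 J (f4 k * y) = ∑ T ∈ J.powerset, (-1 : ℂ) ^ T.card *
        ∏ q ∈ T, ch4 q (f4 k * y) := by
      have h3 : w4 J (f4 k * y) = ∏ q ∈ J, (1 + -1 * ch4 q (f4 k * y)) :=
        Finset.prod_congr rfl fun q _ => by ring
      rw [h3, Finset.prod_one_add]
      refine Finset.sum_congr rfl fun T _ => ?_
      rw [Finset.prod_mul_distrib, Finset.prod_const]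
    rw [rsX_pos _ hy.1 hy.2, h2, Finset.sum_mul]
    refine Finset.sum_congr rfl fun T _ => ?_
    rw [rsX_pos _ hy.1 hy.2]
    ring
  · rw [rsX_neg _ hy]
    exact Finset.sum_eq_zero fun T _ => by rw [rsX_neg _ hy, mul_zero]

end

end Pool.Agent.Lib.MP_1a91b9_ntQ
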