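import Pool.Agent.Lib.MP_1a91b9_ntQ.A.Pair4

/-!
# Quartic twists, part A, file Cnt4: the number of the classes and the sum of the weights
-/

set_option autoImplicit false

namespace Pool.Agent.Lib.MP_1a91b9_ntQ

open NumberField Pool.Agent.Lib.MP_1a91b9_nuT
open Pool.Agent.Lib.MP_1a91b9_nuX.HQ (GI G4 qs w qs_spec w_zero)

noncomputable section

theorem exists_c4 (q : Pg) (c : ZMod 4) : ∃ x : 𝓞 K4, ¬ q.1 ∣ x ∧ c4 q x = c := by
  classical
  have h := q.g4
  have i0 := h.pr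
  have i1 : (Ideal.span {q.1}).IsMaximal := Ideal.IsPrime.isMaximal h.pr h.ne
  let _ : Field (𝓞 K4 ⧸ Ideal.span {q.1}) := Ideal.Quotient.field _
  have hfin : Finite (𝓞 K4 ⧸ Ideal.span {q.1}) := Ideal.finiteQuotientOfFreeOfNeBot _ h.ne
  let _ : Fintype (𝓞 K4 ⧸ Ideal.span {q.1}) := Fintype.ofFinite _
  have hcard : Fintype.card (𝓞 K4 ⧸ Ideal.span {q.1}) = Ideal.absNorm (Ideal.span {q.1}) := by
    rw [Ideal.absNorm_apply, Submodule.cardQuot_apply, Nat.card_eq_fintype_card]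
  obtain ⟨g, hg⟩ := IsCyclic.exists_generator (α := (𝓞 K4 ⧸ Ideal.span {q.1})ˣ)
  have ho : orderOf g = Ideal.absNorm (Ideal.span {q.1}) - 1 := by
    rw [orderOf_eq_card_of_forall_mem_zpowers hg, Nat.card_eq_fintype_card,
      Fintype.card_units, hcard]
  obtain ⟨y, hy⟩ := Ideal.Quotient.mk_surjective (g : 𝓞 K4 ⧸ Ideal.span {q.1})
  have hy0 : y ∉ Ideal.span {q.1} := by
    intro h0
    rw [← Ideal.Quotient.eq_zero_iff_mem, hy] at h0
    exact g.ne_zero h0
  have hcs : 2 * c4 q y ≠ 0 := by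
    intro h0
    have h1 := qs_spec gi h hy0
    change w iO (c4 q y) - y ^ ((Ideal.absNorm (Ideal.span {q.1}) - 1) / 4) ∈
      Ideal.span {q.1} at h1
    have h2 : w iO (c4 q y) ^ 2 = 1 := by
      rw [gi.w_pow, Nat.cast_ofNat, h0, w_zero]
    rw [← Ideal.Quotient.eq_zero_iff_mem, map_sub, map_pow, hy, sub_eq_zero] at h1
    have h3 : g ^ ((Ideal.absNorm (Ideal.span {q.1}) - 1) / 4 * 2) = 1 := by
      apply Units.ext
      rw [Units.val_pow_eq_pow_val, pow_mul, ← h1, ← map_pow, h2, map_one, Units.val_one]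
    have h4 := orderOf_dvd_of_pow_eq_one h3
    rw [ho] at h4
    have hlt := h.one_lt
    obtain ⟨N, hN⟩ := G4.dvd gi h
    have h5 := Nat.le_of_dvd (by omega) h4
    omega
  have key : ∀ a c : ZMod 4, 2 * a ≠ 0 → ∃ k : Fin 4, ((k : ℕ) : ZMod 4) * a = c := by decide
  obtain ⟨k, hk⟩ := key _ c hcs
  have hy1 : ¬ q.1 ∣ y := fun h0 => hy0 (Ideal.mem_span_singleton.2 h0)
  refine ⟨y ^ (k : ℕ), fun h0 => hy1 (q.prime.dvd_of_dvd_pow h0), ?_⟩
  rw [c4_pow q hy1, hk]

theorem Pg.cop {p q : Pg} (h : p ≠ q) : IsCoprime p.1 q.1 :=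
  p.prime.irreducible.coprime_iff_not_dvd.2 (Pg.not_dvd h)

/-- an element with a given class at one prime and congruent to `1` modulo `lam ^ 3` and the
other primes -/
theorem exists_unit4 (S : Finset Pg) (r : Pg) (y : 𝓞 K4) : ∃ u : 𝓞 K4,
    In4 u ∧ (∀ q ∈ S, q ≠ r → q.1 ∣ u - 1) ∧ r.1 ∣ u - y := by
  have hc : IsCoprime r.1 (lam ^ 3 * ∏ q ∈ S.erase r, q.1) := by
    refine IsCoprime.mul_right (in4_cop_lam r.in4 3) (IsCoprime.prod_right fun q hq => ?_)
    exact Pg.cop (Finset.ne_of_mem_erase hq).symm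
  obtain ⟨a, b, hab⟩ := hc
  refine ⟨1 + b * (lam ^ 3 * ∏ q ∈ S.erase r, q.1) * (y - 1), ?_, ?_, ?_⟩
  · exact ⟨b * (∏ q ∈ S.erase r, q.1) * (y - 1), by ring⟩
  · intro q hq hne
    obtain ⟨t, ht⟩ := Finset.dvd_prod_of_mem (fun q : Pg => q.1) (Finset.mem_erase.2 ⟨hne, hq⟩)
    exact ⟨b * (lam ^ 3 * t) * (y - 1), by
      rw [ht]
      ring⟩
  · exact ⟨-(a * (y - 1)), by linear_combination (y - 1) * hab⟩

section
variable {S : Finset Pg} {ι : Type} {c : ι → 𝓞 K} (hc : RepsG (lam ^ 3) (lam ^ 3 * DDq S) c)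
include hc

/-- **the translation of the classes** -/
theorem reps_tr [Finite ι] {r : Pg} (hr : r ∈ S) (t : ZMod 4) : ∃ σ : Equiv.Perm ι,
    (∀ i, c4 r (c (σ i)) = c4 r (c i) + t) ∧
      ∀ i, ∀ q ∈ S, q ≠ r → c4 q (c (σ i)) = c4 q (c i) := by
  classical
  obtain ⟨y, hy0, hy1⟩ := exists_c4 r t
  obtain ⟨u, hu3, huq, hur⟩ := exists_unit4 S r y
  have hur' : ¬ r.1 ∣ u := by
    intro h
    have := dvd_sub h hur
    rw [sub_sub_cancel] at this
    exact hy0 this
  have hu1 : c4 r u = t := by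
    rw [← hy1]
    exact c4_congr r hur' hur
  have hqu : ∀ q ∈ S, ¬ q.1 ∣ u := by
    intro q hq h
    by_cases hqr : q = r
    · rw [hqr] at h
      exact hur' h
    · have h1 := dvd_sub h (huq q hq hqr)
      rw [sub_sub_cancel] at h1
      exact q.2.1.not_isUnit (isUnit_of_dvd_one h1)
  have hucop : IsCoprime u (lam ^ 3 * DDq S) := by
    refine IsCoprime.mul_right (in4_cop_lam hu3 3) (IsCoprime.prod_right fun q hq => ?_)
    exact (q.prime.irreducible.coprime_iff_not_dvd.2 (hqu q hq)).symm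
  have hex : ∀ i, ∃ j, lam ^ 3 * DDq S ∣ c i * u - c j := fun i =>
    hc.ex _ (IsCoprime.mul_left (hc.cop i) hucop) (In4.mul (hc.fx i) hu3)
  choose σ hσ using hex
  have hinj : Function.Injective σ := by
    intro i j hij
    refine hc.inj i j ?_
    have h1 := dvd_sub (hσ i) (hσ j)
    rw [hij] at h1
    have e1 : c i * u - c (σ j) - (c j * u - c (σ j)) = u * (c i - c j) := by ring
    rw [e1] at h1
    exact hucop.symm.dvd_of_dvd_mul_left h1
  have hbij : Function.Bijective σ := Finite.injective_iff_bijective.1 hinj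
  have hval : ∀ i, ∀ q ∈ S, c4 q (c (σ i)) = c4 q (c i) + c4 q u := by
    intro i q hq
    have h1 : q.1 ∣ lam ^ 3 * DDq S := (dvd_DDq.2 hq).mul_left _
    rw [← c4_mul q (reps_not_dvd hc i hq) (hqu q hq)]
    refine (c4_congr q ?_ (h1.trans (hσ i))).symm
    exact fun h => (q.2.1.dvd_or_dvd h).elim (reps_not_dvd hc i hq) (hqu q hq)
  refine ⟨Equiv.ofBijective σ hbij, fun i => ?_, fun i q hq hne => ?_⟩
  · exact (hval i r hr).trans (by rw [hu1])
  · have h2 : c4 q u = 0 := by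
      rw [← c4_one q]
      exact c4_congr q (hqu q hq) (huq q hq hne)
    exact (hval i q hq).trans (by rw [h2, add_zero])

/-- the sum over the classes of a product of characters -/
theorem sum_ch4 [Fintype ι] {T : Finset Pg} (hTS : T ⊆ S) (hT : T.Nonempty) :
    ∑ i, ∏ q ∈ T, ch4 q (c i) = 0 := by
  classical
  obtain ⟨r, hr⟩ := hT
  obtain ⟨σ, h1, h2⟩ := reps_tr hc (hTS hr) 2
  have hv : ∀ i, ∀ q ∈ T, ch4 q (c i) = e4 (c4 q (c i)) := fun i q hq =>
    ch4_of_not (reps_not_dvd hc i (hTS hq))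
  have h3 : ∑ i, ∏ q ∈ T, ch4 q (c i) = -∑ i, ∏ q ∈ T, ch4 q (c i) := by
    conv_lhs => rw [← Equiv.sum_comp σ]
    rw [← Finset.sum_neg_distrib]
    refine Finset.sum_congr rfl fun i _ => ?_
    rw [← Finset.mul_prod_erase T _ hr, ← Finset.mul_prod_erase T _ hr, ← neg_mul]
    congr 1
    · rw [hv _ r hr, hv _ r hr, h1, e4_add, e4_two, mul_neg_one]
    · refine Finset.prod_congr rfl fun q hq => ?_
      have hqT := Finset.mem_of_mem_erase hq
      rw [hv _ q hqT, hv _ q hqT, h2 i q (hTS hqT) (Finset.ne_of_mem_erase hq)]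
  have h4 : 2 * ∑ i, ∏ q ∈ T, ch4 q (c i) = 0 := by linear_combination h3
  exact (mul_eq_zero.1 h4).resolve_left two_ne_zero

/-- the number of the classes -/
theorem card_reps [Fintype ι] : Fintype.card ι = ∏ q ∈ S, (Nz q.1 - 1) := by
  classical
  have hfin : ∀ q : Pg, Finite (𝓞 K4 ⧸ Ideal.span {q.1}) := fun q =>
    Ideal.finiteQuotientOfFreeOfNeBot _ q.g4.ne
  let _ : ∀ q : Pg, Fintype (𝓞 K4 ⧸ Ideal.span {q.1}) := fun q => Fintype.ofFinite _
  have hmk : ∀ (q : Pg) (a : 𝓞 K4), Ideal.Quotient.mk (Ideal.span {q.1}) a = 0 ↔ q.1 ∣ a := by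
    intro q a
    rw [Ideal.Quotient.eq_zero_iff_mem, Ideal.mem_span_singleton]
  let f : ι → ((q : S) → {x : 𝓞 K4 ⧸ Ideal.span {(q : Pg).1} // x ≠ 0}) := fun i q =>
    ⟨Ideal.Quotient.mk (Ideal.span {(q : Pg).1}) (c i), fun h =>
      reps_not_dvd hc i q.2 ((hmk q.1 (c i)).1 h)⟩
  have hf : Function.Bijective f := by
    constructor
    · intro i j hij
      refine hc.inj i j ?_
      have h1 : ∀ q ∈ S, q.1 ∣ c i - c j := by
        intro q hq
        have h2 := congrArg Subtype.val (congrFun hij ⟨q, hq⟩)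
        change Ideal.Quotient.mk (Ideal.span {q.1}) (c i) =
          Ideal.Quotient.mk (Ideal.span {q.1}) (c j) at h2
        rw [Ideal.Quotient.eq, Ideal.mem_span_singleton] at h2
        exact h2
      have h2 : DDq S ∣ c i - c j :=
        Finset.prod_dvd_of_coprime (fun p hp q hq hpq => Pg.cop hpq) h1
      have h3 : lam ^ 3 ∣ c i - c j := by
        have h4 := dvd_sub (hc.fx i) (hc.fx j)
        have e : c i - 1 - (c j - 1) = c i - c j := by ring
        rwa [e] at h4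
      exact (in4_cop_lam (DDq_in4 S) 3).symm.mul_dvd h3 h2
    · intro g
      have hex : ∀ q : S, ∃ y : 𝓞 K4,
          Ideal.Quotient.mk (Ideal.span {(q : Pg).1}) y = (g q).1 := fun q =>
        Ideal.Quotient.mk_surjective (g q).1
      choose y hy using hex
      obtain ⟨a, ha⟩ := Ideal.exists_forall_sub_mem_ideal
        (I := fun q : S => Ideal.span {(q : Pg).1}) (fun p q hpq => by
          change IsCoprime (Ideal.span {(p : Pg).1}) (Ideal.span {(q : Pg).1})
          rw [Ideal.isCoprime_span_singleton_iff]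
          exact Pg.cop fun h => hpq (Subtype.ext h)) y
      obtain ⟨u, v, huv⟩ := in4_cop_lam (DDq_in4 S) 3
      have hb1 : lam ^ 3 ∣ a + u * DDq S * (1 - a) - 1 :=
        ⟨(a - 1) * v, by linear_combination (1 - a) * huv⟩
      have hb2 : ∀ q : S, (q : Pg).1 ∣ a + u * DDq S * (1 - a) - y q := by
        intro q
        have h1 : (q : Pg).1 ∣ a - y q := Ideal.mem_span_singleton.1 (ha q)
        have e : a + u * DDq S * (1 - a) - y q = (a - y q) + DDq S * (u * (1 - a)) := by ring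
        rw [e]
        exact dvd_add h1 ((dvd_DDq.2 q.2).mul_right _)
      have hb3 : ∀ q ∈ S, ¬ q.1 ∣ a + u * DDq S * (1 - a) := by
        intro q hq h
        have h1 := dvd_sub h (hb2 ⟨q, hq⟩)
        rw [sub_sub_cancel] at h1
        have h2 := (hmk q (y ⟨q, hq⟩)).2 h1
        exact (g ⟨q, hq⟩).2 ((hy ⟨q, hq⟩).symm.trans h2)
      have hbc : IsCoprime (a + u * DDq S * (1 - a)) (lam ^ 3 * DDq S) := by
        refine IsCoprime.mul_right (in4_cop_lam hb1 3) (IsCoprime.prod_right fun q hq => ?_)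
        exact (q.prime.irreducible.coprime_iff_not_dvd.2 (hb3 q hq)).symm
      obtain ⟨i, hi⟩ := hc.ex _ hbc hb1
      refine ⟨i, funext fun q => Subtype.ext ?_⟩
      change Ideal.Quotient.mk (Ideal.span {(q : Pg).1}) (c i) = (g q).1
      rw [← hy q, Ideal.Quotient.eq, Ideal.mem_span_singleton]
      have h1 : (q : Pg).1 ∣ lam ^ 3 * DDq S := (dvd_DDq.2 q.2).mul_left _
      have h2 := dvd_sub (hb2 q) (h1.trans hi)
      have e : a + u * DDq S * (1 - a) - y q - (a + u * DDq S * (1 - a) - c i) = c i - y q := by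
        ring
      rwa [e] at h2
  rw [Fintype.card_of_bijective hf, Fintype.card_pi]
  have h1 : ∀ q : Pg, Fintype.card {x : 𝓞 K4 ⧸ Ideal.span {q.1} // x ≠ 0} = Nz q.1 - 1 := by
    intro q
    have h2 : Fintype.card (𝓞 K4 ⧸ Ideal.span {q.1}) = Nz q.1 := by
      rw [← absNorm_span q.1, Ideal.absNorm_apply, Submodule.cardQuot_apply,
        Nat.card_eq_fintype_card]
    rw [← h2]
    exact Set.card_ne_eq (0 : 𝓞 K4 ⧸ Ideal.span {q.1})
  rw [Finset.prod_congr rfl fun q _ => h1 q.1]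
  exact Finset.prod_coe_sort S fun q => Nz q.1 - 1

/-- **The sum of the weights.** -/
theorem sum_w4 [Fintype ι] : ∑ i, w4 S (c i) = ∏ q ∈ S, ((Nz q.1 : ℂ) - 1) := by
  classical
  have h1 : ∀ i, w4 S (c i) = ∑ T ∈ S.powerset, (-1) ^ T.card * ∏ q ∈ T, ch4 q (c i) := by
    intro i
    unfold w4
    have e : ∀ q ∈ S, 1 - ch4 q (c i) = 1 + -ch4 q (c i) := fun q _ => by ring
    rw [Finset.prod_congr rfl e, Finset.prod_one_add]
    refine Finset.sum_congr rfl fun T _ => ?_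
    rw [Finset.prod_neg]
  rw [Finset.sum_congr rfl fun i _ => h1 i, Finset.sum_comm]
  rw [Finset.sum_eq_single_of_mem ∅ (Finset.empty_mem_powerset S)]
  · rw [Finset.card_empty, pow_zero, Finset.sum_congr rfl fun i _ => by
      rw [Finset.prod_empty, mul_one], Finset.sum_const, Finset.card_univ, card_reps hc]
    rw [nsmul_eq_mul, mul_one, Nat.cast_prod]
    refine Finset.prod_congr rfl fun q _ => ?_
    have h2 := Nz_two_le q.prime
    rw [Nat.cast_sub (by omega), Nat.cast_one]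
  · intro T hT hne
    rw [← Finset.mul_sum, sum_ch4 hc (Finset.mem_powerset.1 hT)
      (Finset.nonempty_iff_ne_empty.2 hne), mul_zero]

/-- the sum of the weights is divisible by `4 ^ #S` -/
theorem v_sum_w4 [Fintype ι] (B : ValuationSubring ℂ) :
    B.valuation (∑ i, w4 S (c i)) ≤ B.valuation 4 ^ S.card := by
  rw [sum_w4 hc, map_prod, ← Finset.prod_const]
  refine Finset.prod_le_prod' fun q _ => ?_
  obtain ⟨k, hk, -⟩ := nn_eq_Nz q.in4
  have e : (Nz q.1 : ℂ) - 1 = 4 * (k : ℂ) := by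
    rw [hk]
    push_cast
    ring
  rw [e, map_mul]
  exact mul_le_of_le_one_right' (v_nat k)

end

end

end Pool.Agent.Lib.MP_1a91b9_ntQ
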