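import Pool.Agent.Lib.MP_1a91b9_ntK.A.Forest
import Mathlib.LinearAlgebra.Matrix.ToLinearEquiv
import Mathlib.LinearAlgebra.Matrix.Charpoly.Basic
import Mathlib.LinearAlgebra.Matrix.SchurComplement

/-!
# Quartic twists, part A, file ForB: bordered determinants, Hamiltonian paths, cofactors

Pure algebra over commutative rings (a copy of the general parts of the files of the cubic case, independent of the field).
-/

set_option autoImplicit false

namespace Pool.Agent.Lib.MP_1a91b9_ntQ

open Finset
open Pool.Agent.Lib.MP_1a91b9_ntK (NM NM_congr NM_empty NM_adj NM_update NM_zero GF GF_empty forest CZ CZ_eq forest_zero)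

section General

variable {ι R : Type*} [DecidableEq ι] [CommRing R]

/-- the sum -/
def GG (m : ι → ι → R) (F : (ι → R) → Finset ι → R) (κ : ι → R) (S : Finset ι) : R :=
  ∑ T ∈ S.powerset, (-1) ^ T.card * F κ T * ∏ q ∈ S \ T, (κ q + ∑ p ∈ T, m q p)

theorem GG_empty (m : ι → ι → R) (F : (ι → R) → Finset ι → R) (κ : ι → R) :
    GG m F κ ∅ = F κ ∅ := by
  rw [GG, powerset_empty, sum_singleton]
  simp

theorem GG_update {m : ι → ι → R} {F : (ι → R) → Finset ι → R}
    (hF1 : ∀ κ κ' T, (∀ i ∈ T, κ i = κ' i) → F κ T = F κ' T)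
    (hF2 : ∀ κ T r c, r ∈ T → F (Function.update κ r (κ r + c)) T =
      F κ T + c * F (fun p => κ p + m p r) (T.erase r))
    (κ : ι → R) {S : Finset ι} {r : ι} (hr : r ∉ S) (c : R) :
    GG m F (Function.update κ r (κ r + c)) (insert r S) =
      GG m F κ (insert r S) + c * (GG m F κ S - GG m F (fun p => κ p + m p r) S) := by
  classical
  simp only [GG]
  rw [sum_powerset_insert hr, sum_powerset_insert hr, mul_sub, mul_sum, mul_sum]
  have key1 : ∀ T ∈ S.powerset,
      (-1) ^ T.card * F (Function.update κ r (κ r + c)) T *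
        ∏ q ∈ insert r S \ T, (Function.update κ r (κ r + c) q + ∑ p ∈ T, m q p) =
      (-1) ^ T.card * F κ T * ∏ q ∈ insert r S \ T, (κ q + ∑ p ∈ T, m q p) +
      c * ((-1) ^ T.card * F κ T * ∏ q ∈ S \ T, (κ q + ∑ p ∈ T, m q p)) := by
    intro T hT
    have hT' := mem_powerset.1 hT
    have hrT : r ∉ T := fun h => hr (hT' h)
    have e1 : F (Function.update κ r (κ r + c)) T = F κ T :=
      hF1 _ _ _ fun i hi => Function.update_of_ne (fun h => hrT (by rw [← h]; exact hi)) _ _
    have e2 : insert r S \ T = insert r (S \ T) := insert_sdiff_of_notMem _ hrT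
    have hr' : r ∉ S \ T := fun h => hr (mem_sdiff.1 h).1
    rw [e1, e2, prod_insert hr', prod_insert hr', Function.update_self]
    have e3 : ∏ q ∈ S \ T, (Function.update κ r (κ r + c) q + ∑ p ∈ T, m q p) =
        ∏ q ∈ S \ T, (κ q + ∑ p ∈ T, m q p) := by
      refine prod_congr rfl fun q hq => ?_
      rw [Function.update_of_ne (fun h => hr' (by rw [← h]; exact hq))]
    rw [e3]
    ring
  have key2 : ∀ T ∈ S.powerset,
      (-1) ^ (insert r T).card * F (Function.update κ r (κ r + c)) (insert r T) *
        ∏ q ∈ insert r S \ insert r T,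
          (Function.update κ r (κ r + c) q + ∑ p ∈ insert r T, m q p) =
      (-1) ^ (insert r T).card * F κ (insert r T) *
        ∏ q ∈ insert r S \ insert r T, (κ q + ∑ p ∈ insert r T, m q p) -
      c * ((-1) ^ T.card * F (fun p => κ p + m p r) T *
        ∏ q ∈ S \ T, (κ q + m q r + ∑ p ∈ T, m q p)) := by
    intro T hT
    have hT' := mem_powerset.1 hT
    have hrT : r ∉ T := fun h => hr (hT' h)
    have e2 : insert r S \ insert r T = S \ T := by
      ext x
      simp only [mem_sdiff, mem_insert, not_or]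
      constructor
      · rintro ⟨h1 | h1, h2, h3⟩
        · exact absurd h1 h2
        · exact ⟨h1, h3⟩
      · rintro ⟨h1, h2⟩
        exact ⟨Or.inr h1, fun h => hr (h ▸ h1), h2⟩
    have hr' : r ∉ S \ T := fun h => hr (mem_sdiff.1 h).1
    have e3 : ∏ q ∈ S \ T, (Function.update κ r (κ r + c) q + ∑ p ∈ insert r T, m q p) =
        ∏ q ∈ S \ T, (κ q + m q r + ∑ p ∈ T, m q p) := by
      refine prod_congr rfl fun q hq => ?_
      rw [Function.update_of_ne (fun h => hr' (by rw [← h]; exact hq)), sum_insert hrT]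
      ring
    have e4 : ∏ q ∈ S \ T, (κ q + ∑ p ∈ insert r T, m q p) =
        ∏ q ∈ S \ T, (κ q + m q r + ∑ p ∈ T, m q p) := by
      refine prod_congr rfl fun q hq => ?_
      rw [sum_insert hrT]
      ring
    rw [e2, e3, e4, hF2 κ _ r c (mem_insert_self r T), erase_insert hrT, card_insert_of_notMem hrT]
    ring
  rw [sum_congr rfl key1, sum_congr rfl key2, sum_add_distrib, sum_sub_distrib]
  ring

/-- **The sum does not depend on `κ`.** -/
theorem GG_indep {m : ι → ι → R} {F : (ι → R) → Finset ι → R}
    (hF1 : ∀ κ κ' T, (∀ i ∈ T, κ i = κ' i) → F κ T = F κ' T)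
    (hF2 : ∀ κ T r c, r ∈ T → F (Function.update κ r (κ r + c)) T =
      F κ T + c * F (fun p => κ p + m p r) (T.erase r))
    (κ : ι → R) (S : Finset ι) : GG m F κ S = GG m F 0 S := by
  classical
  induction S using Finset.strongInduction generalizing κ with
  | H S ih =>
    have h1 : ∀ (κ : ι → R) (r : ι) (c : R), r ∈ S → GG m F (Function.update κ r (κ r + c)) S =
        GG m F κ S := by
      intro κ r c hr
      have hS' : insert r (S.erase r) = S := insert_erase hr
      have h2 := GG_update hF1 hF2 κ (notMem_erase r S) c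
      rw [hS'] at h2
      rw [h2, ih (S.erase r) (erase_ssubset hr) κ,
        ih (S.erase r) (erase_ssubset hr) (fun p => κ p + m p r), sub_self, mul_zero, add_zero]
    have h2 : ∀ A : Finset ι, A ⊆ S → GG m F (fun q => if q ∈ A then 0 else κ q) S = GG m F κ S := by
      intro A
      induction A using Finset.induction_on with
      | empty => intro _; simp
      | insert a A ha ih2 =>
        intro hA
        rw [← ih2 ((subset_insert a A).trans hA)]
        have h3 := h1 (fun q => if q ∈ A then 0 else κ q) a (-κ a) (hA (mem_insert_self a A))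
        rw [← h3]
        congr 1
        ext q
        by_cases hq : q = a
        · subst hq
          simp [ha]
        · rw [Function.update_of_ne hq]
          simp [mem_insert, hq]
    rw [← h2 S subset_rfl]
    refine sum_congr rfl fun T hT => ?_
    have hT' := mem_powerset.1 hT
    have h3 : F (fun q => if q ∈ S then 0 else κ q) T = F 0 T :=
      hF1 _ _ _ fun i hi => if_pos (hT' hi)
    rw [h3]
    congr 1
    refine prod_congr rfl fun q hq => ?_
    have h4 : (fun q => if q ∈ S then 0 else κ q) q = (0 : ι → R) q := if_pos (mem_sdiff.1 hq).1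
    rw [h4]

end General

/-! ### Bordered determinants -/

section Bordered

variable {n R : Type*} [CommRing R]

/-- the bordered matrix `[[N, b], [cᵀ, k]]` -/
def BM (N : Matrix n n R) (b c : n → R) (k : R) : Matrix (n ⊕ Unit) (n ⊕ Unit) R :=
  Matrix.fromBlocks N (Matrix.of fun i _ => b i) (Matrix.of fun _ j => c j) (Matrix.of fun _ _ => k)

variable [Fintype n] [DecidableEq n]

private theorem ForB_aux {S : Type*} [CommRing S] (N : Matrix n n S) (B : Matrix n Unit S)
    (C : Matrix Unit n S) (D : Matrix Unit Unit S) :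
    (Matrix.fromBlocks N B C D).det * N.det = N.det * (N.det • D - C * N.adjugate * B).det := by
  have h1 : Matrix.fromBlocks N B C D * Matrix.fromBlocks 1 (-(N.adjugate * B)) 0 (N.det • 1) =
      Matrix.fromBlocks N 0 C (N.det • D - C * N.adjugate * B) := by
    rw [Matrix.fromBlocks_multiply]
    congr 1
    · rw [Matrix.mul_one, Matrix.mul_zero, add_zero]
    · rw [Matrix.mul_neg, ← Matrix.mul_assoc, Matrix.mul_adjugate, Matrix.smul_mul, Matrix.one_mul,
        Matrix.mul_smul, Matrix.mul_one, neg_add_cancel]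
    · rw [Matrix.mul_one, Matrix.mul_zero, add_zero]
    · rw [Matrix.mul_neg, ← Matrix.mul_assoc, Matrix.mul_smul, Matrix.mul_one]
      abel
  have h2 := congrArg Matrix.det h1
  rw [Matrix.det_mul, Matrix.det_fromBlocks_zero₂₁, Matrix.det_fromBlocks_zero₁₂, Matrix.det_one,
    one_mul, Matrix.det_unique (N.det • (1 : Matrix Unit Unit S))] at h2
  simpa using h2

/-- the determinant of a bordered matrix -/
theorem det_border (N : Matrix n n R) (B : Matrix n Unit R) (C : Matrix Unit n R)
    (D : Matrix Unit Unit R) :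
    (Matrix.fromBlocks N B C D).det = (N.det • D - C * N.adjugate * B).det := by
  let g : Matrix n n R → Matrix n n (Polynomial R) := fun M =>
    M.map Polynomial.C + (Polynomial.X : Polynomial R) • (1 : Matrix n n (Polynomial R))
  let f : Polynomial R →+* R := Polynomial.evalRingHom 0
  have f_inv : ∀ M, f.mapMatrix (g M) = M := by
    intro
    ext
    simp [f, g]
  have hu : ∀ M : Matrix n n R, IsRegular (g M).det := by
    intro M
    refine Polynomial.Monic.isRegular ?_
    simp only [g, Polynomial.Monic.def, ← Polynomial.leadingCoeff_det_X_one_add_C M, add_comm]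
  have h1 := ForB_aux (g N) (B.map Polynomial.C) (C.map Polynomial.C) (D.map Polynomial.C)
  rw [mul_comm] at h1
  have h2 := (hu N).left h1
  have h3 := congrArg f h2
  rw [RingHom.map_det, RingHom.map_det] at h3
  have e1 : f.mapMatrix (Matrix.fromBlocks (g N) (B.map Polynomial.C) (C.map Polynomial.C)
      (D.map Polynomial.C)) = Matrix.fromBlocks N B C D := by
    rw [RingHom.mapMatrix_apply, Matrix.fromBlocks_map]
    congr 1
    · exact f_inv N
    · ext; simp [f]
    · ext; simp [f]
    · ext; simp [f]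
  have e2 : f.mapMatrix ((g N).det • D.map Polynomial.C -
      C.map Polynomial.C * (g N).adjugate * B.map Polynomial.C) =
      N.det • D - C * N.adjugate * B := by
    rw [map_sub]
    have h5 : f (g N).det = N.det := by rw [RingHom.map_det, f_inv]
    have h6 : (g N).adjugate.map f = N.adjugate := by
      rw [← RingHom.mapMatrix_apply, RingHom.map_adjugate, f_inv]
    congr 1
    · ext i j
      rw [RingHom.mapMatrix_apply, Matrix.map_apply, Matrix.smul_apply, Matrix.smul_apply,
        smul_eq_mul, map_mul, h5, Matrix.map_apply]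
      simp [f]
    · rw [RingHom.mapMatrix_apply, Matrix.map_mul, Matrix.map_mul, h6]
      congr 1
      · congr 1
        ext; simp [f]
      · ext; simp [f]
  rw [e1, e2] at h3
  exact h3

theorem det_BM (N : Matrix n n R) (b c : n → R) (k : R) :
    (BM N b c k).det = k * N.det - ∑ i, ∑ j, c i * N.adjugate i j * b j := by
  rw [BM, det_border, Matrix.det_unique]
  simp only [Matrix.sub_apply, Matrix.smul_apply, Matrix.of_apply, smul_eq_mul, Matrix.mul_apply,
    sum_mul]
  rw [sum_comm, mul_comm]

omit [Fintype n] [DecidableEq n] in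
private theorem ForB_one (_ : Fintype n) (_ : DecidableEq n) (A : Matrix n n R)
    (k : n) (h : ∀ x, x = k) : A.det = A k k := by
  have : Subsingleton n := ⟨fun x y => (h x).trans (h y).symm⟩
  exact Matrix.det_eq_elem_of_subsingleton A k

/-- an entry times a minor -/
theorem det_single (M : Matrix n n R) (r : n) (x : R) :
    (M.updateRow r (Pi.single r x)).det =
      x * (M.submatrix (fun i : {i // ¬ i = r} => i.1) (fun i : {i // ¬ i = r} => i.1)).det := by
  classical
  rw [Matrix.twoBlockTriangular_det' _ (fun y : n => y = r)]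
  · congr 1
    · refine (ForB_one _ _ _ (⟨r, rfl⟩ : {y : n // y = r}) (fun y => Subtype.ext y.2)).trans ?_
      simp only [Matrix.toSquareBlockProp_def, Matrix.of_apply, Matrix.updateRow_self,
        Pi.single_eq_same]
    · congr 1
      ext i j
      simp only [Matrix.toSquareBlockProp_def, Matrix.of_apply, Matrix.updateRow_ne i.2,
        Matrix.submatrix_apply]
  · intro i hi j hj
    subst hi
    rw [Matrix.updateRow_self]
    exact Pi.single_eq_of_ne hj _

/-- the rows of the adjugate agree if the row sums vanish -/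
theorem adj_row {N : Matrix n n R} (h : N.mulVec (fun _ => 1) = 0) (i i' j : n) :
    N.adjugate i j = N.adjugate i' j := by
  rw [Matrix.adjugate_apply, Matrix.adjugate_apply, ← sub_eq_zero]
  have h1 : (N.updateRow j (Pi.single i 1)).det - (N.updateRow j (Pi.single i' 1)).det =
      (N.updateRow j (Pi.single i 1 + (-1 : R) • Pi.single i' 1)).det := by
    rw [Matrix.det_updateRow_add, Matrix.det_updateRow_smul]
    ring
  rw [h1]
  refine Matrix.det_eq_zero_of_mulVec_eq_zero_of_mem_nonZeroDivisors (v := fun _ => 1) (i := j)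
    ?_ (one_mem _)
  ext l
  by_cases hl : l = j
  · subst hl
    simp only [Matrix.mulVec, dotProduct, Matrix.updateRow_self, Pi.add_apply, Pi.smul_apply,
      smul_eq_mul, mul_one, Pi.zero_apply, sum_add_distrib]
    rw [← mul_sum, Finset.sum_pi_single', Finset.sum_pi_single']
    simp
  · have h2 := congrFun h l
    simp only [Matrix.mulVec, dotProduct, Matrix.updateRow_ne hl] at h2 ⊢
    exact h2

end Bordered

/-! ### The identity -/

section Main

variable {ι R : Type*} [DecidableEq ι] [CommRing R]

theorem NM_mulVec_one (m : ι → ι → R) (T : Finset ι) : (NM m 0 T).mulVec (fun _ => 1) = 0 := by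
  classical
  ext i
  simp only [Matrix.mulVec, dotProduct, mul_one, Pi.zero_apply]
  rw [← add_sum_erase univ _ (mem_univ i)]
  have h2 : NM m 0 T i i = ∑ p ∈ T.erase i, m i p := by
    simp only [NM, if_true, Pi.zero_apply, zero_add]
  have h3 : ∑ j ∈ univ.erase i, NM m 0 T i j = -∑ p ∈ T.erase i, m i p := by
    rw [← sum_neg_distrib]
    refine sum_nbij (fun j => (j : ι)) ?_ ?_ ?_ ?_
    · intro j hj
      exact mem_erase.2 ⟨fun h' => (mem_erase.1 hj).1 (Subtype.ext h'), j.2⟩
    · intro a _ b _ hab
      exact Subtype.ext hab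
    · intro p hp
      have hp' := mem_erase.1 (mem_coe.1 hp)
      refine ⟨⟨p, hp'.2⟩, ?_, rfl⟩
      exact mem_coe.2 (mem_erase.2 ⟨fun h' => hp'.1 (congrArg Subtype.val h'), mem_univ _⟩)
    · intro j hj
      have : i ≠ j := fun h' => (mem_erase.1 hj).1 h'.symm
      simp only [NM, if_neg this]
  rw [h2, h3, add_neg_cancel]

/-- the bordered determinant of `NM m κ T` -/
def FB (m : ι → ι → R) (b c : ι → R) (k : R) (κ : ι → R) (T : Finset ι) : R :=
  (BM (NM m κ T) (fun i => b i) (fun i => c i) k).det

theorem FB_congr (m : ι → ι → R) (b c : ι → R) (k : R) (κ κ' : ι → R) (T : Finset ι)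
    (h : ∀ i ∈ T, κ i = κ' i) : FB m b c k κ T = FB m b c k κ' T := by
  rw [FB, FB, NM_congr m h]

/-- the minor of the bordered matrix without the row and the column `r` -/
theorem FB_minor (m : ι → ι → R) (b c : ι → R) (k : R) (κ : ι → R) (T : Finset ι) (r : ι)
    (hr : r ∈ T) {M : Matrix (↥T ⊕ Unit) (↥T ⊕ Unit) R}
    (hM : M = BM (NM m κ T) (fun i => b i) (fun i => c i) k) :
    (M.submatrix (fun i : {i // ¬ i = Sum.inl ⟨r, hr⟩} => i.1)
      (fun i : {i // ¬ i = Sum.inl ⟨r, hr⟩} => i.1)).det =
      FB m b c k (fun p => κ p + m p r) (T.erase r) := by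
  classical
  let e : ↥(T.erase r) ⊕ Unit ≃ {i : T ⊕ Unit // ¬ i = Sum.inl ⟨r, hr⟩} :=
    { toFun := fun x => match x with
        | Sum.inl i => ⟨Sum.inl ⟨i, mem_of_mem_erase i.2⟩, fun h =>
            (mem_erase.1 i.2).1 (congrArg Subtype.val (Sum.inl.inj h))⟩
        | Sum.inr u => ⟨Sum.inr u, fun h => by simp at h⟩
      invFun := fun x => match x with
        | ⟨Sum.inl i, hi⟩ => Sum.inl ⟨i, mem_erase.2 ⟨fun h => hi (congrArg Sum.inl (Subtype.ext h)), i.2⟩⟩
        | ⟨Sum.inr u, _⟩ => Sum.inr u
      left_inv := fun x => by rcases x with i | u <;> rfl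
      right_inv := fun x => by rcases x with ⟨i | u, hi⟩ <;> rfl }
  rw [← Matrix.det_submatrix_equiv_self e, FB]
  congr 1
  ext i j
  rcases i with i | i
  · have hi : (i : ι) ≠ r := (mem_erase.1 i.2).1
    rcases j with j | j
    · simp only [Matrix.submatrix_apply, e, Equiv.coe_fn_mk, hM, BM, Matrix.fromBlocks_apply₁₁]
      simp only [NM]
      by_cases hij : i = j
      · subst hij
        simp only [if_true]
        have h2 : T.erase (i : ι) = insert r ((T.erase r).erase (i : ι)) := by
          ext x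
          simp only [mem_erase, mem_insert]
          constructor
          · rintro ⟨h3, h4⟩
            by_cases h5 : x = r
            · exact Or.inl h5
            · exact Or.inr ⟨h3, h5, h4⟩
          · rintro (rfl | ⟨h3, -, h4⟩)
            · exact ⟨fun h => hi h.symm, hr⟩
            · exact ⟨h3, h4⟩
        rw [h2, sum_insert (by simp)]
        ring
      · have h2 : ¬ (⟨(i : ι), mem_of_mem_erase i.2⟩ : T) = ⟨(j : ι), mem_of_mem_erase j.2⟩ :=
          fun h => hij (Subtype.ext (Subtype.mk.inj h))
        rw [if_neg h2, if_neg hij]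
    · simp only [Matrix.submatrix_apply, e, Equiv.coe_fn_mk, hM, BM, Matrix.fromBlocks_apply₁₂,
        Matrix.of_apply]
  · rcases j with j | j
    · simp only [Matrix.submatrix_apply, e, Equiv.coe_fn_mk, hM, BM, Matrix.fromBlocks_apply₂₁,
        Matrix.of_apply]
    · simp only [Matrix.submatrix_apply, e, Equiv.coe_fn_mk, hM, BM, Matrix.fromBlocks_apply₂₂,
        Matrix.of_apply]

/-- a principal cofactor of the bordered matrix -/
theorem FB_adj (m : ι → ι → R) (b c : ι → R) (k : R) (κ : ι → R) {T : Finset ι} {r : ι}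
    (hr : r ∈ T) : (BM (NM m κ T) (fun i => b i) (fun i => c i) k).adjugate (Sum.inl ⟨r, hr⟩)
      (Sum.inl ⟨r, hr⟩) = FB m b c k (fun p => κ p + m p r) (T.erase r) := by
  classical
  rw [Matrix.adjugate_apply, det_single, one_mul, FB_minor m b c k κ T r hr rfl]

theorem FB_update (m : ι → ι → R) (b c : ι → R) (k : R) (κ : ι → R) (T : Finset ι) (r : ι) (x : R)
    (hr : r ∈ T) : FB m b c k (Function.update κ r (κ r + x)) T =
      FB m b c k κ T + x * FB m b c k (fun p => κ p + m p r) (T.erase r) := by
  classical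
  obtain ⟨M, hM⟩ : ∃ M, M = BM (NM m κ T) (fun i => b i) (fun i => c i) k := ⟨_, rfl⟩
  have e1 : BM (NM m (Function.update κ r (κ r + x)) T) (fun i => b i) (fun i => c i) k =
      M.updateRow (Sum.inl ⟨r, hr⟩) (M (Sum.inl ⟨r, hr⟩) + Pi.single (Sum.inl ⟨r, hr⟩) x) := by
    ext i j
    rw [Matrix.updateRow_apply]
    split_ifs with h
    · subst h
      rcases j with j | j
      · by_cases hj : (⟨r, hr⟩ : T) = j
        · subst hj
          simp only [hM, BM, Matrix.fromBlocks_apply₁₁, NM, if_true, Function.update_self,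
            Pi.add_apply, Pi.single_eq_same]
          ring
        · have hj' : (Sum.inl j : T ⊕ Unit) ≠ Sum.inl ⟨r, hr⟩ := fun h' => hj (Sum.inl.inj h').symm
          simp only [hM, BM, Matrix.fromBlocks_apply₁₁, NM, if_neg hj, Pi.add_apply,
            Pi.single_eq_of_ne hj', add_zero]
      · have hj' : (Sum.inr j : T ⊕ Unit) ≠ Sum.inl ⟨r, hr⟩ := by simp
        simp only [hM, BM, Matrix.fromBlocks_apply₁₂, Pi.add_apply, Pi.single_eq_of_ne hj', add_zero]
    · rcases i with i | i
      · have hi : (i : ι) ≠ r := fun h' => h (congrArg Sum.inl (Subtype.ext h'))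
        rcases j with j | j
        · simp only [hM, BM, Matrix.fromBlocks_apply₁₁, NM, Function.update_of_ne hi]
        · simp only [hM, BM, Matrix.fromBlocks_apply₁₂]
      · rcases j with j | j
        · simp only [hM, BM, Matrix.fromBlocks_apply₂₁]
        · simp only [hM, BM, Matrix.fromBlocks_apply₂₂]
  have e2 := FB_minor m b c k κ T r hr hM
  have e3 : M.det = FB m b c k κ T := by rw [hM, FB]
  have e4 : FB m b c k (Function.update κ r (κ r + x)) T =
      (M.updateRow (Sum.inl ⟨r, hr⟩) (M (Sum.inl ⟨r, hr⟩) + Pi.single (Sum.inl ⟨r, hr⟩) x)).det := by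
    rw [FB, e1]
  rw [e4, Matrix.det_updateRow_add, Matrix.updateRow_eq_self, det_single, e2, e3]

theorem FB_empty (m : ι → ι → R) (b c : ι → R) (k : R) (κ : ι → R) : FB m b c k κ ∅ = k := by
  rw [FB, det_BM, Matrix.det_isEmpty]
  simp

/-- the bordered determinant at `κ = 0` -/
theorem FB_zero (m : ι → ι → R) (b c : ι → R) (k : R) {T : Finset ι} (hT : T.Nonempty) :
    FB m b c k 0 T = -((∑ q ∈ T, c q) * CZ m b T) := by
  rw [FB, det_BM, NM_zero (κ := 0) m hT (fun _ _ => rfl), mul_zero, zero_sub, CZ, neg_inj,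
    ← sum_coe_sort T c, sum_mul_sum]
  refine sum_congr rfl fun i _ => sum_congr rfl fun j _ => ?_
  rw [adj_row (NM_mulVec_one m T) i j j]
  ring

/-- **The forest identity for bordered determinants.** -/
theorem forest_FB (m : ι → ι → R) (b c : ι → R) (k : R) (κ : ι → R) {S : Finset ι}
    (hS : S.Nonempty) :
    ∑ T ∈ S.powerset, (-1) ^ T.card * FB m b c k κ T * ∏ q ∈ S \ T, (κ q + ∑ p ∈ T, m q p) =
      -∑ T ∈ S.powerset, (-1) ^ T.card * ((∑ q ∈ T, c q) * CZ m b T) *
        ∏ q ∈ S \ T, ∑ p ∈ T, m q p := by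
  have h1 := GG_indep (FB_congr m b c k) (FB_update m b c k) κ S
  rw [GG, GG] at h1
  rw [h1, ← sum_neg_distrib]
  refine sum_congr rfl fun T _ => ?_
  simp only [Pi.zero_apply, zero_add]
  rcases T.eq_empty_or_nonempty with rfl | hT
  · obtain ⟨a, ha⟩ := hS
    have h3 : ∏ q ∈ S \ ∅, ∑ p ∈ (∅ : Finset ι), m q p = 0 :=
      prod_eq_zero (i := a) (by simpa using ha) sum_empty
    rw [h3, mul_zero, mul_zero, neg_zero]
  · rw [FB_zero m b c k hT]
    ring

end Main

section Ham

variable {ι R : Type*} [DecidableEq ι] [CommRing R]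

/-- auxiliary: Hamiltonian paths with fuel -/
def HamA (m : ι → ι → R) (f : ι → R) : ℕ → Finset ι → ι → R
  | 0, _, _ => 0
  | n + 1, S, i => (if S.erase i = ∅ then f i else 0) +
      ∑ j ∈ S.erase i, m i j * HamA m f n (S.erase i) j

/-- the sum over the Hamiltonian paths of `S` which start at `i`: `m i i₁ * m i₁ i₂ * ... * f i_r` -/
def Ham (m : ι → ι → R) (f : ι → R) (S : Finset ι) (i : ι) : R := HamA m f S.card S i

theorem Ham_rec (m : ι → ι → R) (f : ι → R) {S : Finset ι} {i : ι} (hi : i ∈ S) :
    Ham m f S i = (if S.erase i = ∅ then f i else 0) +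
      ∑ j ∈ S.erase i, m i j * Ham m f (S.erase i) j := by
  have h : S.card = (S.erase i).card + 1 := (card_erase_add_one hi).symm
  rw [Ham, h, HamA]
  rfl

theorem Ham_single (m : ι → ι → R) (f : ι → R) (i : ι) : Ham m f {i} i = f i := by
  rw [Ham_rec m f (mem_singleton_self i)]
  have h : ({i} : Finset ι).erase i = ∅ := by simp
  rw [if_pos h, h, sum_empty, add_zero]

theorem Ham_of (m : ι → ι → R) (f : ι → R) {S : Finset ι} {i : ι} (hi : i ∈ S)
    (h : (S.erase i).Nonempty) :
    Ham m f S i = ∑ j ∈ S.erase i, m i j * Ham m f (S.erase i) j := by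
  rw [Ham_rec m f hi, if_neg h.ne_empty, zero_add]

end Ham

section HamId

variable {ι R : Type*} [DecidableEq ι] [CommRing R]

/-- the entry `i` of `adj (NM m κ T) f` -/
def AF (m : ι → ι → R) (κ f : ι → R) (T : Finset ι) (i : ι) : R :=
  if h : i ∈ T then ∑ j : T, (NM m κ T).adjugate ⟨i, h⟩ j * f j else 0

theorem AF_of_not (m : ι → ι → R) (κ f : ι → R) {T : Finset ι} {i : ι} (h : i ∉ T) :
    AF m κ f T i = 0 := dif_neg h

theorem AF_sum (m : ι → ι → R) (κ f g : ι → R) (T : Finset ι) :
    ∑ i : T, ∑ j : T, g i * (NM m κ T).adjugate i j * f j = ∑ i ∈ T, g i * AF m κ f T i := by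
  rw [← sum_coe_sort T (fun i => g i * AF m κ f T i)]
  refine sum_congr rfl fun i _ => ?_
  rw [AF, dif_pos i.2, mul_sum]
  exact sum_congr rfl fun j _ => by ring

/-- expansion of the row `i` -/
theorem AF_rec (m : ι → ι → R) (κ f : ι → R) {T : Finset ι} {i : ι} (hi : i ∉ T) :
    AF m κ f (insert i T) i = f i * (NM m (fun p => κ p + m p i) T).det +
      ∑ j ∈ T, m i j * AF m (fun p => κ p + m p i) f T j := by
  classical
  have h1 : AF m κ f (insert i T) i =
      ((NM m κ (insert i T)).updateCol ⟨i, mem_insert_self i T⟩ (fun j => f j)).det := by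
    rw [AF, dif_pos (mem_insert_self i T), ← Matrix.cramer_apply, Matrix.cramer_eq_adjugate_mulVec]
    rfl
  let e : ↥T ⊕ Unit ≃ ↥(insert i T) :=
    { toFun := fun x => match x with
        | Sum.inl j => ⟨j, mem_insert_of_mem j.2⟩
        | Sum.inr _ => ⟨i, mem_insert_self i T⟩
      invFun := fun x => if h : (x : ι) = i then Sum.inr () else
        Sum.inl ⟨x, mem_of_mem_insert_of_ne x.2 h⟩
      left_inv := fun x => by
        rcases x with j | u
        · have hj : (j : ι) ≠ i := fun h => hi (h ▸ j.2)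
          simp [hj]
        · simp
      right_inv := fun x => by
        by_cases h : (x : ι) = i
        · simp only [h, dif_pos]
          exact Subtype.ext h.symm
        · simp only [dif_neg h] }
  have h2 : ((NM m κ (insert i T)).updateCol ⟨i, mem_insert_self i T⟩
      (fun j => f j)).submatrix e e =
      BM (NM m (fun p => κ p + m p i) T) (fun j => f j) (fun j => -m i j) (f i) := by
    ext x y
    rcases x with x | x
    · have hx : (x : ι) ≠ i := fun h => hi (h ▸ x.2)
      rcases y with y | y
      · have hy : (y : ι) ≠ i := fun h => hi (h ▸ y.2)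
        have hy' : (⟨(y : ι), mem_insert_of_mem y.2⟩ : ↥(insert i T)) ≠ ⟨i, mem_insert_self i T⟩ :=
          fun h => hy (congrArg Subtype.val h)
        simp only [Matrix.submatrix_apply, e, Equiv.coe_fn_mk, Matrix.updateCol_ne hy', BM,
          Matrix.fromBlocks_apply₁₁]
        simp only [NM]
        by_cases hxy : x = y
        · subst hxy
          simp only [if_true]
          have h2 : (insert i T).erase (x : ι) = insert i (T.erase (x : ι)) :=
            erase_insert_of_ne (Ne.symm hx)
          rw [h2, sum_insert (fun h => hi (mem_of_mem_erase h))]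
          ring
        · have h2 : ¬ (⟨(x : ι), mem_insert_of_mem x.2⟩ : ↥(insert i T)) =
              ⟨(y : ι), mem_insert_of_mem y.2⟩ := fun h => hxy (Subtype.ext (Subtype.mk.inj h))
          rw [if_neg h2, if_neg hxy]
      · simp only [Matrix.submatrix_apply, e, Equiv.coe_fn_mk, Matrix.updateCol_self, BM,
          Matrix.fromBlocks_apply₁₂, Matrix.of_apply]
    · rcases y with y | y
      · have hy : (y : ι) ≠ i := fun h => hi (h ▸ y.2)
        have hy' : (⟨(y : ι), mem_insert_of_mem y.2⟩ : ↥(insert i T)) ≠ ⟨i, mem_insert_self i T⟩ :=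
          fun h => hy (congrArg Subtype.val h)
        simp only [Matrix.submatrix_apply, e, Equiv.coe_fn_mk, Matrix.updateCol_ne hy', BM,
          Matrix.fromBlocks_apply₂₁, Matrix.of_apply]
        simp only [NM, if_neg (Ne.symm hy')]
      · simp only [Matrix.submatrix_apply, e, Equiv.coe_fn_mk, Matrix.updateCol_self, BM,
          Matrix.fromBlocks_apply₂₂, Matrix.of_apply]
  rw [h1, ← Matrix.det_submatrix_equiv_self e, h2, det_BM, AF_sum m _ f (fun j => -m i j) T,
    sub_eq_add_neg, ← sum_neg_distrib]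
  congr 1
  exact sum_congr rfl fun j _ => by ring

/-- the part of the sum with the factor `g i` -/
def SA (m : ι → ι → R) (κ f : ι → R) (S : Finset ι) (i : ι) : R :=
  ∑ T ∈ S.powerset, (-1) ^ T.card * AF m κ f T i * ∏ q ∈ S \ T, (κ q + ∑ p ∈ T, m q p)

theorem SA_rec (m : ι → ι → R) (κ f : ι → R) {S : Finset ι} {i : ι} (hi : i ∉ S) :
    SA m κ f (insert i S) i = -(f i * GF m (fun p => κ p + m p i) S) -
      ∑ j ∈ S, m i j * SA m (fun p => κ p + m p i) f S j := by
  classical
  have h1 : ∀ T ∈ S.powerset, (-1) ^ T.card * AF m κ f T i *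
      ∏ q ∈ insert i S \ T, (κ q + ∑ p ∈ T, m q p) = 0 := by
    intro T hT
    rw [AF_of_not m κ f (fun h => hi (mem_powerset.1 hT h)), mul_zero, zero_mul]
  have h2 : ∀ T ∈ S.powerset, (-1) ^ (insert i T).card * AF m κ f (insert i T) i *
      ∏ q ∈ insert i S \ insert i T, (κ q + ∑ p ∈ insert i T, m q p) =
      -(f i * ((-1) ^ T.card * (NM m (fun p => κ p + m p i) T).det *
        ∏ q ∈ S \ T, (κ q + m q i + ∑ p ∈ T, m q p))) -
      ∑ j ∈ S, m i j * ((-1) ^ T.card * AF m (fun p => κ p + m p i) f T j *
        ∏ q ∈ S \ T, (κ q + m q i + ∑ p ∈ T, m q p)) := by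
    intro T hT
    have hT' := mem_powerset.1 hT
    have hiT : i ∉ T := fun h => hi (hT' h)
    have e2 : insert i S \ insert i T = S \ T := by
      ext x
      simp only [mem_sdiff, mem_insert, not_or]
      constructor
      · rintro ⟨h1 | h1, h2, h3⟩
        · exact absurd h1 h2
        · exact ⟨h1, h3⟩
      · rintro ⟨h1, h2⟩
        exact ⟨Or.inr h1, fun h => hi (h ▸ h1), h2⟩
    have e3 : ∏ q ∈ S \ T, (κ q + ∑ p ∈ insert i T, m q p) =
        ∏ q ∈ S \ T, (κ q + m q i + ∑ p ∈ T, m q p) := by
      refine prod_congr rfl fun q hq => ?_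
      rw [sum_insert hiT]
      ring
    have e4 : ∑ j ∈ S, m i j * ((-1) ^ T.card * AF m (fun p => κ p + m p i) f T j *
        ∏ q ∈ S \ T, (κ q + m q i + ∑ p ∈ T, m q p)) =
        (∑ j ∈ T, m i j * AF m (fun p => κ p + m p i) f T j) * ((-1) ^ T.card *
        ∏ q ∈ S \ T, (κ q + m q i + ∑ p ∈ T, m q p)) := by
      rw [sum_mul, ← sum_subset hT']
      · exact sum_congr rfl fun j _ => by ring
      · intro j _ hj
        rw [AF_of_not _ _ _ hj]
        ring
    rw [e2, e3, e4, AF_rec m κ f hiT, card_insert_of_notMem hiT, pow_succ]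
    ring
  rw [SA, sum_powerset_insert hi, sum_eq_zero h1, zero_add, sum_congr rfl h2, sum_sub_distrib,
    sum_neg_distrib, ← mul_sum, sum_comm]
  congr 1
  refine sum_congr rfl fun j _ => ?_
  rw [← mul_sum, SA]

theorem SA_eq (m : ι → ι → R) (κ f : ι → R) {S : Finset ι} {i : ι} (hi : i ∈ S) :
    SA m κ f S i = (-1) ^ S.card * Ham m f S i := by
  induction S using Finset.strongInduction generalizing κ i with
  | H S ih =>
    have hS : insert i (S.erase i) = S := insert_erase hi
    have h1 := SA_rec m κ f (notMem_erase i S)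
    rw [hS] at h1
    rw [h1, Ham_rec m f hi, ← card_erase_add_one hi]
    have h2 : ∑ j ∈ S.erase i, m i j * SA m (fun p => κ p + m p i) f (S.erase i) j =
        ∑ j ∈ S.erase i, m i j * ((-1) ^ (S.erase i).card * Ham m f (S.erase i) j) := by
      refine sum_congr rfl fun j hj => ?_
      rw [ih (S.erase i) (erase_ssubset hi) _ hj]
    rw [h2]
    have h3 : ∑ j ∈ S.erase i, m i j * ((-1) ^ (S.erase i).card * Ham m f (S.erase i) j) =
        (-1) ^ (S.erase i).card * ∑ j ∈ S.erase i, m i j * Ham m f (S.erase i) j := by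
      rw [mul_sum]
      exact sum_congr rfl fun j _ => by ring
    rw [h3]
    split_ifs with h4
    · rw [h4, GF_empty, card_empty, sum_empty]
      ring
    · have h5 : GF m (fun p => κ p + m p i) (S.erase i) = 0 :=
        forest m _ (nonempty_iff_ne_empty.2 h4)
      rw [h5, pow_succ]
      ring

/-- **(I)**: the identity of Hamiltonian paths. -/
theorem ham_id (m : ι → ι → R) (κ g f : ι → R) (S : Finset ι) :
    ∑ T ∈ S.powerset, (-1) ^ T.card * (∑ i : T, ∑ j : T, g i * (NM m κ T).adjugate i j * f j) *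
        ∏ q ∈ S \ T, (κ q + ∑ p ∈ T, m q p) =
      (-1) ^ S.card * ∑ i ∈ S, g i * Ham m f S i := by
  have h1 : ∀ T ∈ S.powerset, (-1) ^ T.card *
      (∑ i : T, ∑ j : T, g i * (NM m κ T).adjugate i j * f j) *
        ∏ q ∈ S \ T, (κ q + ∑ p ∈ T, m q p) =
      ∑ i ∈ S, g i * ((-1) ^ T.card * AF m κ f T i * ∏ q ∈ S \ T, (κ q + ∑ p ∈ T, m q p)) := by
    intro T hT
    rw [AF_sum, mul_sum, sum_mul]
    rw [← sum_subset (mem_powerset.1 hT)]
    · exact sum_congr rfl fun i _ => by ring
    · intro i _ hi
      rw [AF_of_not _ _ _ hi]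
      ring
  rw [sum_congr rfl h1, sum_comm, mul_sum]
  refine sum_congr rfl fun i hi => ?_
  rw [← mul_sum]
  have h2 := SA_eq m κ f hi
  rw [SA] at h2
  rw [h2]
  ring

end HamId

/-! ### The adjugate of a matrix with a kernel vector -/

section Adj

variable {n R : Type*} [Fintype n] [DecidableEq n] [CommRing R]

theorem adj_wt [IsDomain R] {M : Matrix n n R} {v : n → R} (h : M.mulVec v = 0) (hv : v ≠ 0)
    (i i' j : n) : v i' * M.adjugate i j = v i * M.adjugate i' j := by
  rw [Matrix.adjugate_apply, Matrix.adjugate_apply, ← sub_eq_zero]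
  have h1 : v i' * (M.updateRow j (Pi.single i 1)).det - v i * (M.updateRow j (Pi.single i' 1)).det =
      (M.updateRow j (v i' • Pi.single i 1 + (-v i) • Pi.single i' 1)).det := by
    rw [Matrix.det_updateRow_add, Matrix.det_updateRow_smul, Matrix.det_updateRow_smul]
    ring
  rw [h1, ← Matrix.exists_mulVec_eq_zero_iff]
  refine ⟨v, hv, ?_⟩
  ext l
  by_cases hl : l = j
  · subst hl
    simp only [Matrix.mulVec, dotProduct, Matrix.updateRow_self, Pi.add_apply, Pi.smul_apply,
      smul_eq_mul, Pi.zero_apply, add_mul, sum_add_distrib, mul_assoc]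
    rw [← mul_sum, ← mul_sum]
    have h2 : ∀ k : n, ∑ x : n, (Pi.single (M := fun _ : n => R) k 1 x) * v x = v k := by
      intro k
      rw [sum_eq_single k]
      · rw [Pi.single_eq_same, one_mul]
      · intro b _ hb
        rw [Pi.single_eq_of_ne hb, zero_mul]
      · intro h
        exact absurd (mem_univ _) h
    rw [h2, h2]
    ring
  · have h2 := congrFun h l
    simp only [Matrix.mulVec, dotProduct, Matrix.updateRow_ne hl] at h2 ⊢
    exact h2

theorem adj_symm {M : Matrix n n R} (hM : M.transpose = M) (i j : n) :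
    M.adjugate i j = M.adjugate j i := by
  have h1 := Matrix.adjugate_transpose M
  rw [hM] at h1
  have h2 := congrFun (congrFun h1 i) j
  rw [Matrix.transpose_apply] at h2
  exact h2.symm

theorem adj_ker [IsDomain R] {M : Matrix n n R} (hM : M.transpose = M) {v : n → R}
    (h : M.mulVec v = 0) {k : n} (hk : v k * v k = 1) (i j : n) :
    M.adjugate i j = M.adjugate k k * (v i * v j) := by
  have hv : v ≠ 0 := by
    intro h0
    rw [h0] at hk
    simp at hk
  have h1 := adj_wt h hv i k j
  have h2 := adj_wt h hv j k k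
  have h3 := adj_symm hM k j
  calc M.adjugate i j = v k * (v k * M.adjugate i j) := by rw [← mul_assoc, hk, one_mul]
    _ = v i * (v k * M.adjugate j k) := by rw [h1, h3]; ring
    _ = M.adjugate k k * (v i * v j) := by rw [h2]; ring

/-- if the kernel is generated by `v` then the cofactor is not `0` -/
theorem adj_ne_of_ker [IsDomain R] {M : Matrix n n R} (hM : M.transpose = M) {v : n → R}
    (h : M.mulVec v = 0) {k : n} (hk : v k ≠ 0)
    (hker : ∀ w : n → R, M.mulVec w = 0 → ∃ c : R, ∀ i, w i = c * v i) : M.adjugate k k ≠ 0 := by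
  intro h0
  have hv : v ≠ 0 := fun h' => hk (congrFun h' k)
  have hdet : M.det = 0 := by
    rw [← Matrix.exists_mulVec_eq_zero_iff]
    exact ⟨v, hv, h⟩
  have h1 : (M.updateRow k (M k + Pi.single k 1)).det = 0 := by
    rw [Matrix.det_updateRow_add, Matrix.updateRow_eq_self, hdet, ← Matrix.adjugate_apply, h0,
      add_zero]
  rw [← Matrix.exists_mulVec_eq_zero_iff] at h1
  obtain ⟨w, hw0, hw⟩ := h1
  have h2 : ∀ i : n, M.mulVec w i = if i = k then -w k else 0 := by
    intro i
    have h3 := congrFun hw i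
    simp only [Matrix.mulVec, dotProduct, Pi.zero_apply] at h3 ⊢
    split_ifs with hi
    · subst hi
      simp only [Matrix.updateRow_self, Pi.add_apply, add_mul, sum_add_distrib] at h3
      have h4 : ∑ x : n, (Pi.single (M := fun _ : n => R) i 1 x) * w x = w i := by
        rw [sum_eq_single i]
        · rw [Pi.single_eq_same, one_mul]
        · intro b _ hb
          rw [Pi.single_eq_of_ne hb, zero_mul]
        · intro h
          exact absurd (mem_univ _) h
      rw [h4] at h3
      linear_combination h3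
    · simp only [Matrix.updateRow_ne hi] at h3
      exact h3
  have h3 : ∑ i : n, v i * M.mulVec w i = 0 := by
    have h4 : ∑ i : n, v i * M.mulVec w i = ∑ j : n, M.mulVec v j * w j := by
      simp only [Matrix.mulVec, dotProduct, mul_sum, sum_mul]
      rw [sum_comm]
      refine sum_congr rfl fun j _ => sum_congr rfl fun i _ => ?_
      have h5 : M i j = M j i := by
        conv_lhs => rw [← hM]
        rfl
      rw [h5]
      ring
    rw [h4, h]
    simp
  have h4 : ∑ i : n, v i * M.mulVec w i = v k * -w k := by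
    rw [sum_eq_single k]
    · rw [h2, if_pos rfl]
    · intro b _ hb
      rw [h2, if_neg hb, mul_zero]
    · intro h
      exact absurd (mem_univ _) h
  rw [h4] at h3
  have h5 : w k = 0 := by
    rcases mul_eq_zero.1 h3 with h6 | h6
    · exact absurd h6 hk
    · exact neg_eq_zero.1 h6
  have h6 : M.mulVec w = 0 := by
    ext i
    rw [h2, h5, neg_zero]
    simp
  obtain ⟨c, hc⟩ := hker w h6
  have h7 : c = 0 := by
    have h8 := hc k
    rw [h5] at h8
    exact (mul_eq_zero.1 h8.symm).resolve_right hk
  apply hw0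
  ext i
  rw [hc i, h7, zero_mul]
  rfl

/-- the adjugate of `D M D`, `D` diagonal with entries of square `1` -/
theorem adj_conj {M : Matrix n n R} {d : n → R} (hd : ∀ i, d i * d i = 1) (i j : n) :
    (Matrix.diagonal d * M * Matrix.diagonal d).adjugate i j = d i * M.adjugate i j * d j := by
  have h1 : ∀ i, ∏ x ∈ univ.erase i, d x = (∏ x, d x) * d i := by
    intro i
    rw [← mul_prod_erase univ d (mem_univ i)]
    linear_combination -(∏ x ∈ univ.erase i, d x) * hd i
  have h2 : (∏ x, d x) * ∏ x, d x = 1 := by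
    rw [← prod_mul_distrib]
    exact prod_eq_one fun x _ => hd x
  rw [Matrix.adjugate_mul_distrib, Matrix.adjugate_mul_distrib, Matrix.adjugate_diagonal,
    ← Matrix.mul_assoc, Matrix.mul_diagonal, Matrix.diagonal_mul, h1, h1]
  linear_combination (d i * M.adjugate i j * d j) * h2

theorem det_conj {M : Matrix n n R} {d : n → R} (hd : ∀ i, d i * d i = 1) :
    (Matrix.diagonal d * M * Matrix.diagonal d).det = M.det := by
  have h2 : (∏ x, d x) * ∏ x, d x = 1 := by
    rw [← prod_mul_distrib]
    exact prod_eq_one fun x _ => hd x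
  rw [Matrix.det_mul, Matrix.det_mul, Matrix.det_diagonal]
  linear_combination M.det * h2

/-! ### The rank one lemma -/

omit [Fintype n] in
private theorem Theta_swap (A : Matrix n n R) (f g g' r : n → R) (c : R) :
    (BM (BM A g' g c) (Sum.elim f fun _ => 1) (Sum.elim r fun _ => 0) 0).submatrix
      (Equiv.swap (Sum.inl (Sum.inr ())) (Sum.inr ())) id =
    Matrix.fromBlocks (BM A g' r 0) (Matrix.of fun x _ => Sum.elim f (fun _ => 0) x)
      (Matrix.of fun _ y => Sum.elim g (fun _ => c) y) 1 := by
  have h1 : ∀ x : n, (Equiv.swap (Sum.inl (Sum.inr ())) (Sum.inr ()) : Equiv.Perm ((n ⊕ Unit) ⊕ Unit))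
      (Sum.inl (Sum.inl x)) = Sum.inl (Sum.inl x) := fun x =>
    Equiv.swap_apply_of_ne_of_ne (by simp) (by simp)
  ext x y
  rw [Matrix.submatrix_apply]
  rcases x with (x | ⟨⟩) | ⟨⟩
  · rw [h1]
    rcases y with (y | ⟨⟩) | ⟨⟩ <;> rfl
  · rw [Equiv.swap_apply_left]
    rcases y with (y | ⟨⟩) | ⟨⟩ <;> rfl
  · rw [Equiv.swap_apply_right]
    rcases y with (y | ⟨⟩) | ⟨⟩ <;> rfl

theorem det_rank_one (A : Matrix n n R) (f g g' r : n → R) (c : R) :
    (BM (A - Matrix.vecMulVec f g) (fun i => g' i - c * f i) r 0).det =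
      -(BM (BM A g' g c) (Sum.elim f fun _ => 1) (Sum.elim r fun _ => 0) 0).det := by
  have h1 := congrArg Matrix.det (Theta_swap A f g g' r c)
  rw [Matrix.det_permute, Equiv.Perm.sign_swap (by simp), Matrix.det_fromBlocks_one₂₂] at h1
  have h2 : BM A g' r 0 - (Matrix.of fun x (_ : Unit) => Sum.elim f (fun _ => 0) x) *
      (Matrix.of fun (_ : Unit) y => Sum.elim g (fun _ => c) y) =
      BM (A - Matrix.vecMulVec f g) (fun i => g' i - c * f i) r 0 := by
    ext x y
    rw [Matrix.sub_apply, Matrix.mul_apply]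
    simp only [Finset.univ_unique, sum_singleton, Matrix.of_apply]
    rcases x with x | ⟨⟩
    · rcases y with y | ⟨⟩
      · simp only [BM, Matrix.fromBlocks_apply₁₁, Sum.elim_inl, Matrix.sub_apply,
          Matrix.vecMulVec_apply]
      · simp only [BM, Matrix.fromBlocks_apply₁₂, Sum.elim_inl, Sum.elim_inr, Matrix.of_apply]
        ring
    · rcases y with y | ⟨⟩
      · simp only [BM, Matrix.fromBlocks_apply₂₁, Sum.elim_inl, Sum.elim_inr, Matrix.of_apply]
        ring
      · simp only [BM, Matrix.fromBlocks_apply₂₂, Sum.elim_inr, Matrix.of_apply]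
        ring
  rw [h2] at h1
  rw [← h1]
  push_cast
  ring

theorem det_add_vec (A : Matrix n n R) (w z : n → R) :
    (A + Matrix.vecMulVec w z).det = A.det + ∑ i, ∑ j, z i * A.adjugate i j * w j := by
  have h1 := det_BM A w (fun i => -z i) 1
  have h2 : BM A w (fun i => -z i) 1 = Matrix.fromBlocks A (Matrix.of fun x (_ : Unit) => w x)
      (Matrix.of fun (_ : Unit) y => -z y) 1 := by
    ext x y
    rcases x with x | ⟨⟩ <;> rcases y with y | ⟨⟩ <;> rfl
  have h3 : A - (Matrix.of fun x (_ : Unit) => w x) * (Matrix.of fun (_ : Unit) y => -z y) =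
      A + Matrix.vecMulVec w z := by
    ext x y
    rw [Matrix.sub_apply, Matrix.mul_apply, Matrix.add_apply, Matrix.vecMulVec_apply]
    simp
  rw [h2, Matrix.det_fromBlocks_one₂₂, h3] at h1
  rw [h1, one_mul, sub_eq_add_neg, ← sum_neg_distrib]
  congr 1
  refine sum_congr rfl fun i _ => ?_
  rw [← sum_neg_distrib]
  exact sum_congr rfl fun j _ => by ring

theorem adj_rank_one (A : Matrix n n R) (f g g' : n → R) (c : R) (i : n) :
    ∑ j, (A - Matrix.vecMulVec f g).adjugate i j * (g' j - c * f j) =
      -(∑ j, (BM A g' g c).adjugate (Sum.inl i) (Sum.inl j) * f j +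
        (BM A g' g c).adjugate (Sum.inl i) (Sum.inr ())) := by
  have h1 := det_rank_one A f g g' (Pi.single i 1) c
  rw [det_BM, det_BM, zero_mul, zero_mul, zero_sub, zero_sub, neg_neg] at h1
  have h2 : ∀ (N : Matrix n n R) (v : n → R),
      ∑ x, ∑ y, (Pi.single i 1 : n → R) x * N.adjugate x y * v y = ∑ y, N.adjugate i y * v y := by
    intro N v
    rw [sum_eq_single i]
    · simp
    · intro b _ hb
      exact sum_eq_zero fun y _ => by rw [Pi.single_eq_of_ne hb]; ring
    · intro h
      exact absurd (mem_univ _) h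
  rw [h2, Fintype.sum_sum_type] at h1
  simp only [Sum.elim_inl, Sum.elim_inr, zero_mul, sum_const_zero, add_zero] at h1
  have h3 : ∑ x : n, ∑ y : n ⊕ Unit, (Pi.single i 1 : n → R) x *
      (BM A g' g c).adjugate (Sum.inl x) y * (Sum.elim f (fun _ => 1) y : R) =
      ∑ j, (BM A g' g c).adjugate (Sum.inl i) (Sum.inl j) * f j +
        (BM A g' g c).adjugate (Sum.inl i) (Sum.inr ()) := by
    rw [sum_eq_single i]
    · rw [Fintype.sum_sum_type]
      simp
    · intro b _ hb
      exact sum_eq_zero fun y _ => by rw [Pi.single_eq_of_ne hb]; ring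
    · intro h
      exact absurd (mem_univ _) h
  rw [h3] at h1
  linear_combination -h1

end Adj

/-- the block form of the adjugate when the border vanishes -/
theorem adj_block {n R : Type*} [Fintype n] [DecidableEq n] [CommRing R] (N : Matrix n n R) (k : R)
    (i j : n) : (BM N 0 0 k).adjugate (Sum.inl i) (Sum.inl j) = k * N.adjugate i j := by
  rw [Matrix.adjugate_apply, Matrix.adjugate_apply]
  have h1 : (BM N 0 0 k).updateRow (Sum.inl j) (Pi.single (Sum.inl i) 1) =
      BM (N.updateRow j (Pi.single i 1)) 0 0 k := by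
    ext x y
    rw [Matrix.updateRow_apply]
    rcases x with x | ⟨⟩
    · by_cases hx : x = j
      · subst hx
        rw [if_pos rfl]
        rcases y with y | ⟨⟩
        · simp only [BM, Matrix.fromBlocks_apply₁₁, Matrix.updateRow_self]
          by_cases hy : y = i
          · subst hy
            rw [Pi.single_eq_same, Pi.single_eq_same]
          · rw [Pi.single_eq_of_ne hy, Pi.single_eq_of_ne (fun h => hy (Sum.inl.inj h))]
        · simp only [BM, Matrix.fromBlocks_apply₁₂, Matrix.of_apply, Pi.zero_apply]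
          rw [Pi.single_eq_of_ne (by simp)]
      · rw [if_neg (fun h => hx (Sum.inl.inj h))]
        rcases y with y | ⟨⟩
        · simp only [BM, Matrix.fromBlocks_apply₁₁, Matrix.updateRow_ne hx]
        · simp only [BM, Matrix.fromBlocks_apply₁₂]
    · rw [if_neg (by simp)]
      rcases y with y | ⟨⟩ <;> rfl
  rw [h1, det_BM]
  simp

/-- a principal cofactor is a determinant on the smaller set -/
theorem adj_insert {ι R : Type*} [DecidableEq ι] [CommRing R] {T : Finset ι} {r : ι} (hr : r ∉ T)
    (M : Matrix (↥(insert r T) ⊕ Unit) (↥(insert r T) ⊕ Unit) R) :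
    M.adjugate (Sum.inl ⟨r, mem_insert_self r T⟩) (Sum.inl ⟨r, mem_insert_self r T⟩) =
      (M.submatrix (Sum.map (fun i : T => (⟨i, mem_insert_of_mem i.2⟩ : ↥(insert r T))) id)
        (Sum.map (fun i : T => (⟨i, mem_insert_of_mem i.2⟩ : ↥(insert r T))) id)).det := by
  classical
  rw [Matrix.adjugate_apply, det_single, one_mul]
  let e : T ⊕ Unit ≃ {x : ↥(insert r T) ⊕ Unit // ¬ x = Sum.inl ⟨r, mem_insert_self r T⟩} :=
    { toFun := fun x => match x with
        | Sum.inl i => ⟨Sum.inl ⟨i, mem_insert_of_mem i.2⟩, fun h => hr (by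
            have h1 : (i : ι) = r := congrArg Subtype.val (Sum.inl.inj h)
            rw [← h1]
            exact i.2)⟩
        | Sum.inr u => ⟨Sum.inr u, fun h => by simp at h⟩
      invFun := fun x => match x with
        | ⟨Sum.inl i, hi⟩ => Sum.inl ⟨i, mem_of_mem_insert_of_ne i.2 fun h =>
            hi (congrArg Sum.inl (Subtype.ext h))⟩
        | ⟨Sum.inr u, _⟩ => Sum.inr u
      left_inv := fun x => by rcases x with i | u <;> rfl
      right_inv := fun x => by rcases x with ⟨i | u, hi⟩ <;> rfl }
  rw [← Matrix.det_submatrix_equiv_self e]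
  congr 1
  ext x y
  rcases x with x | x <;> rcases y with y | y <;> rfl

end Pool.Agent.Lib.MP_1a91b9_ntQ
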