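import Pool.Agent.Lib.MP_1a91b9_ntQ.A.HSum4

/-!
# Quartic twists, part A, file HPm4: sums over the classes modulo an element, up to sign
-/

set_option autoImplicit false

namespace Pool.Agent.Lib.MP_1a91b9_ntQ

open NumberField IsDedekindDomain Pool.Agent.Lib.MP_1a91b9_nuT

noncomputable section

/-- congruent modulo `M` up to sign -/
def Pm (M x y : 𝓞 K) : Prop := M ∣ x - y ∨ M ∣ x + y

section
variable {M : 𝓞 K}

theorem Pm.refl (x : 𝓞 K) : Pm M x x := Or.inl (by rw [sub_self]; exact dvd_zero _)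

theorem Pm.symm {x y : 𝓞 K} (h : Pm M x y) : Pm M y x := by
  rcases h with h | h
  · exact Or.inl ((dvd_sub_comm).1 h)
  · exact Or.inr (by rwa [add_comm])

theorem Pm.trans {x y z : 𝓞 K} (h : Pm M x y) (h' : Pm M y z) : Pm M x z := by
  rcases h with h | h <;> rcases h' with h' | h'
  · left
    have := dvd_add h h'
    rwa [sub_add_sub_cancel] at this
  · right
    have := dvd_add h h'
    rwa [show x - y + (y + z) = x + z by ring] at this
  · right
    have := dvd_sub h h'
    rwa [show x + y - (y - z) = x + z by ring] at this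
  · left
    have := dvd_sub h h'
    rwa [show x + y - (y + z) = x - z by ring] at this

theorem Pm.mul (c : 𝓞 K) {x y : 𝓞 K} (h : Pm M x y) : Pm M (c * x) (c * y) := by
  rcases h with h | h
  · exact Or.inl (by rw [← mul_sub]; exact h.mul_left c)
  · exact Or.inr (by rw [← mul_add]; exact h.mul_left c)

theorem Pm.of_dvd {N : 𝓞 K} {x y : 𝓞 K} (h : Pm N x y) (hd : M ∣ N) : Pm M x y :=
  h.imp (fun h => hd.trans h) fun h => hd.trans h

/-- the equivalence relation -/
def pmS (M : 𝓞 K) : Setoid (𝓞 K) where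
  r := Pm M
  iseqv := ⟨Pm.refl, Pm.symm, Pm.trans⟩

theorem pmS_mk (a b : 𝓞 K) : (Quotient.mk (pmS M) a = Quotient.mk (pmS M) b) ↔ Pm M a b := Quotient.eq

theorem pmS_out (x : Quotient (pmS M)) : Quotient.mk (pmS M) x.out = x := Quotient.out_eq x

theorem pmS_finite (hM : M ≠ 0) : Finite (Quotient (pmS M)) := by
  have := SM_finite hM
  let f : 𝓞 K ⧸ Ideal.span {M} → Quotient (pmS M) := fun x => Quotient.mk (pmS M) x.out
  have hf : Function.Surjective f := by
    intro x
    refine ⟨Ideal.Quotient.mk _ x.out, ?_⟩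
    have h1 : M ∣ (Ideal.Quotient.mk (Ideal.span {M}) x.out).out - x.out := by
      rw [← SM_mk, SM_out]
    have h2 : Quotient.mk (pmS M) ((Ideal.Quotient.mk (Ideal.span {M}) x.out).out) =
        Quotient.mk (pmS M) x.out := (pmS_mk _ _).2 (Or.inl h1)
    exact h2.trans (pmS_out x)
  exact Finite.of_surjective f hf

end

/-- the sum over the classes modulo `M` up to sign of a function which only depends on these -/
def S2 {R : Type*} [AddCommMonoid R] (M : 𝓞 K) (F : 𝓞 K → R) : R :=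
  ∑ᶠ x : Quotient (pmS M), F x.out

/-- a function of the classes modulo `M` up to sign -/
def Pd2 {R : Type*} (M : 𝓞 K) (F : 𝓞 K → R) : Prop := ∀ x y, Pm M x y → F x = F y

/-- a complete system of classes modulo `M` up to sign -/
structure CR2 (M : 𝓞 K) {ι : Type} (a : ι → 𝓞 K) : Prop where
  ex : ∀ x, ∃ i, Pm M x (a i)
  inj : ∀ i j, Pm M (a i) (a j) → i = j

section
variable {M : 𝓞 K}

theorem Pd2.of_dvd {R : Type*} {N : 𝓞 K} {F : 𝓞 K → R} (h : Pd2 M F) (hd : M ∣ N) : Pd2 N F :=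
  fun x y hxy => h x y (hxy.of_dvd hd)

theorem Pd2.pd {R : Type*} {F : 𝓞 K → R} (h : Pd2 M F) : Pd M F := fun x y hxy => h x y (Or.inl hxy)

theorem Pd2.of {R : Type*} {F : 𝓞 K → R} (h : Pd M F) (hn : ∀ x, F (-x) = F x) : Pd2 M F := by
  intro x y hxy
  rcases hxy with h1 | h1
  · exact h x y h1
  · rw [← hn y]
    exact h x (-y) (by rwa [sub_neg_eq_add])

theorem Pd2.neg {R : Type*} {F : 𝓞 K → R} (h : Pd2 M F) (x : 𝓞 K) : F (-x) = F x :=
  h _ _ (Or.inr (by rw [neg_add_cancel]; exact dvd_zero _))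

section
variable {R : Type*} [AddCommMonoid R]

/-- the sum over any system containing the classes where the function is not zero -/
theorem S2_sup (hM : M ≠ 0) {ι : Type} {T : Finset ι} {a : ι → 𝓞 K} {F : 𝓞 K → R}
    (hF : Pd2 M F) (hex : ∀ x, F x ≠ 0 → ∃ i ∈ T, Pm M x (a i))
    (hinj : ∀ i ∈ T, ∀ j ∈ T, Pm M (a i) (a j) → i = j) :
    S2 M F = ∑ i ∈ T, F (a i) := by
  classical
  have := pmS_finite hM
  let _ : Fintype (Quotient (pmS M)) := Fintype.ofFinite _
  rw [S2, finsum_eq_sum_of_fintype, ← Finset.sum_coe_sort T]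
  symm
  refine Fintype.sum_of_injective (fun i : T => Quotient.mk (pmS M) (a i)) ?_ _ _ ?_ ?_
  · intro i j h
    exact Subtype.ext (hinj i i.2 j j.2 ((pmS_mk _ _).1 h))
  · intro x hx
    by_contra h
    obtain ⟨i, hi, hi2⟩ := hex _ h
    apply hx
    refine ⟨⟨i, hi⟩, ?_⟩
    rw [← pmS_mk, pmS_out] at hi2
    exact hi2.symm
  · intro i
    refine hF _ _ ?_
    rw [← pmS_mk, pmS_out]

theorem S2_eq (hM : M ≠ 0) {ι : Type} [Fintype ι] {a : ι → 𝓞 K} (ha : CR2 M a) {F : 𝓞 K → R}
    (hF : Pd2 M F) : S2 M F = ∑ i, F (a i) :=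
  S2_sup hM hF (fun x _ => (ha.ex x).imp fun i hi => ⟨Finset.mem_univ i, hi⟩) fun i _ j _ => ha.inj i j

/-- the system of the definition, for all functions -/
theorem S2_def (hM : M ≠ 0) : ∃ (ι : Type) (_ : Fintype ι) (a : ι → 𝓞 K), CR2 M a ∧
    ∀ F : 𝓞 K → R, S2 M F = ∑ i, F (a i) := by
  have := pmS_finite hM
  refine ⟨Quotient (pmS M), Fintype.ofFinite _, fun x => x.out, ⟨fun x => ?_, fun i j h => ?_⟩,
    fun F => ?_⟩
  · refine ⟨Quotient.mk (pmS M) x, ?_⟩
    rw [← pmS_mk, pmS_out]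
  · rw [← pmS_mk, pmS_out, pmS_out] at h
    exact h
  · rw [S2]
    exact @finsum_eq_sum_of_fintype _ _ _ (Fintype.ofFinite _) _

theorem S2_congr {F G : 𝓞 K → R} (h : ∀ x, F x = G x) : S2 M F = S2 M G := by
  rw [show F = G from funext h]

theorem S2_add (hM : M ≠ 0) (F G : 𝓞 K → R) : S2 M (fun x => F x + G x) = S2 M F + S2 M G := by
  obtain ⟨ι, _, a, -, h⟩ := S2_def (R := R) hM
  rw [h, h, h, Finset.sum_add_distrib]

/-- the substitution by an element prime to the modulus -/
theorem S2_mul (hM : M ≠ 0) {F : 𝓞 K → R} (hF : Pd2 M F) {c : 𝓞 K} (hc : IsCoprime c M) :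
    S2 M (fun x => F (c * x)) = S2 M F := by
  obtain ⟨ι, _, a, ha, -⟩ := S2_def (R := R) hM
  obtain ⟨p, q, hpq⟩ := hc
  have h1 : CR2 M fun i => c * a i := by
    refine ⟨fun x => ?_, fun i j h => ha.inj i j ?_⟩
    · obtain ⟨i, hi⟩ := ha.ex (p * x)
      refine ⟨i, ?_⟩
      have h2 := hi.mul c
      refine Pm.trans (Or.inl ?_) h2
      exact ⟨q * x, by linear_combination (-x) * hpq⟩
    · have h2 := h.mul p
      have h3 : ∀ x : 𝓞 K, Pm M (p * (c * x)) x := fun x =>
        Or.inl ⟨-(q * x), by linear_combination x * hpq⟩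
      exact (h3 _).symm.trans (h2.trans (h3 _))
  rw [S2_eq hM h1 hF]
  exact S2_eq hM ha fun x y h => hF _ _ (h.mul c)

/-- the sum modulo a product, for functions which are zero at the classes equal to their opposite -/
theorem S2_fib {q : 𝓞 K} (hM : M ≠ 0) (hq : q ≠ 0) {F : 𝓞 K → R} (hF : Pd2 (q * M) F)
    (h0 : ∀ x, M ∣ 2 * x → F x = 0) :
    S2 (q * M) F = S2 M fun b => SM q fun u => F (b + M * u) := by
  classical
  obtain ⟨ι, _, b, hb, h⟩ := S2_def (R := R) hM
  obtain ⟨κ, _, u, hu⟩ := CRS.exists_crs hq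
  let T : Finset (ι × κ) := Finset.univ.filter fun x => ¬ M ∣ 2 * b x.1
  have e1 : S2 (q * M) F = ∑ x ∈ T, F (b x.1 + M * u x.2) := by
    refine S2_sup (mul_ne_zero hq hM) hF ?_ ?_
    · intro x hx
      have hx2 : ¬ M ∣ 2 * x := fun h2 => hx (h0 x h2)
      obtain ⟨i, hi⟩ := hb.ex x
      have hi2 : ¬ M ∣ 2 * b i := by
        intro h2
        apply hx2
        rcases hi with ⟨z, hz⟩ | ⟨z, hz⟩
        · have e : 2 * x = 2 * b i + M * (2 * z) := by linear_combination 2 * hz
          rw [e]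
          exact dvd_add h2 (dvd_mul_right _ _)
        · have e : 2 * x = -(2 * b i) + M * (2 * z) := by linear_combination 2 * hz
          rw [e]
          exact dvd_add ((dvd_neg).2 h2) (dvd_mul_right _ _)
      rcases hi with ⟨z, hz⟩ | ⟨z, hz⟩
      · obtain ⟨k, t, ht⟩ := hu.ex z
        exact ⟨(i, k), Finset.mem_filter.2 ⟨Finset.mem_univ _, hi2⟩,
          Or.inl ⟨t, by linear_combination hz + M * ht⟩⟩
      · obtain ⟨k, t, ht⟩ := hu.ex (-z)
        exact ⟨(i, k), Finset.mem_filter.2 ⟨Finset.mem_univ _, hi2⟩,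
          Or.inr ⟨-t, by linear_combination hz - M * ht⟩⟩
    · rintro ⟨i, k⟩ hi ⟨i', k'⟩ hj hp
      have hi2 : ¬ M ∣ 2 * b i := (Finset.mem_filter.1 hi).2
      rcases hp with ⟨z, hz⟩ | ⟨z, hz⟩
      · have h3 : i = i' := hb.inj _ _ (Or.inl ⟨q * z - (u k - u k'), by linear_combination hz⟩)
        subst h3
        have h4 : k = k' := by
          refine hu.inj _ _ ⟨z, ?_⟩
          apply mul_left_cancel₀ hM
          linear_combination hz
        rw [h4]
      · exfalso
        have h3 : i = i' := hb.inj _ _ (Or.inr ⟨q * z - (u k + u k'), by linear_combination hz⟩)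
        subst h3
        exact hi2 ⟨q * z - (u k + u k'), by linear_combination hz⟩
  have e2 : ∀ i, (SM q fun v => F (b i + M * v)) = ∑ k, F (b i + M * u k) := by
    intro i
    refine SM_eq (F := fun v => F (b i + M * v)) hq hu fun x y h2 => hF _ _ (Or.inl ?_)
    obtain ⟨z, hz⟩ := h2
    exact ⟨z, by linear_combination M * hz⟩
  rw [e1, h, Finset.sum_filter, Fintype.sum_prod_type]
  refine Finset.sum_congr rfl fun i _ => ?_
  rw [e2]
  refine Finset.sum_congr rfl fun k _ => ?_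
  by_cases h2 : M ∣ 2 * b i
  · rw [if_neg (not_not.2 h2), h0]
    have e : 2 * (b i + M * u k) = 2 * b i + M * (2 * u k) := by ring
    rw [e]
    exact dvd_add h2 (dvd_mul_right _ _)
  · rw [if_pos h2]

/-- the sum of a function which is zero outside the multiples of `q` -/
theorem S2_dvd {q : 𝓞 K} (hM : M ≠ 0) (hq : q ≠ 0) {F : 𝓞 K → R} (hF : Pd2 (q * M) F)
    (h0 : ∀ x, ¬ q ∣ x → F x = 0) : S2 (q * M) F = S2 M fun b => F (q * b) := by
  classical
  obtain ⟨ι, _, b, hb, h⟩ := S2_def (R := R) hM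
  have h1 : S2 (q * M) F = ∑ i, F (q * b i) := by
    refine S2_sup (T := Finset.univ) (a := fun i => q * b i) (mul_ne_zero hq hM) hF ?_ ?_
    · intro x hx
      have h2 : q ∣ x := by
        by_contra h
        exact hx (h0 x h)
      obtain ⟨y, rfl⟩ := h2
      obtain ⟨i, hi⟩ := hb.ex y
      refine ⟨i, Finset.mem_univ _, ?_⟩
      rcases hi with ⟨z, hz⟩ | ⟨z, hz⟩
      · exact Or.inl ⟨z, by linear_combination q * hz⟩
      · exact Or.inr ⟨z, by linear_combination q * hz⟩
    · intro i _ j _ hp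
      refine hb.inj i j ?_
      rcases hp with ⟨z, hz⟩ | ⟨z, hz⟩
      · refine Or.inl ⟨z, ?_⟩
        apply mul_left_cancel₀ hq
        linear_combination hz
      · refine Or.inr ⟨z, ?_⟩
        apply mul_left_cancel₀ hq
        linear_combination hz
  rw [h1, h]

end

section
variable {R : Type*} [AddCommGroup R]

theorem S2_sub (hM : M ≠ 0) (F G : 𝓞 K → R) : S2 M (fun x => F x - G x) = S2 M F - S2 M G := by
  obtain ⟨ι, _, a, -, h⟩ := S2_def (R := R) hM
  rw [h, h, h, Finset.sum_sub_distrib]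

end

section
variable {S R : Type*} [Semiring S] [AddCommMonoid R] [Module S R]

theorem S2_smul (hM : M ≠ 0) (c : S) (F : 𝓞 K → R) : S2 M (fun x => c • F x) = c • S2 M F := by
  obtain ⟨ι, _, a, -, h⟩ := S2_def (R := R) hM
  rw [h, h, Finset.smul_sum]

theorem S2_smul' (hM : M ≠ 0) (F : 𝓞 K → S) (r : R) : S2 M (fun x => F x • r) = S2 M F • r := by
  have hfin := pmS_finite hM
  let _ : Fintype (Quotient (pmS M)) := Fintype.ofFinite _
  rw [S2, S2, finsum_eq_sum_of_fintype, finsum_eq_sum_of_fintype, Finset.sum_smul]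

end

end

/-! ### Pairs -/

/-- a half system of an involution without fixed points -/
theorem exists_half {ι : Type} [Fintype ι] {sg : ι → ι} (h1 : ∀ i, sg i ≠ i) (h2 : ∀ i, sg (sg i) = i) :
    ∃ T : Finset ι, ∀ i, i ∈ T ↔ sg i ∉ T := by
  classical
  let e := Fintype.equivFin ι
  refine ⟨Finset.univ.filter fun i => e i < e (sg i), fun i => ?_⟩
  simp only [Finset.mem_filter, Finset.mem_univ, true_and, h2, not_lt]
  constructor
  · exact fun h => h.le
  · intro h
    refine lt_of_le_of_ne h fun h3 => h1 i (e.injective h3).symm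

/-- the sum over a half system -/
theorem sum_half {ι : Type} [Fintype ι] {sg : ι → ι} (h2 : ∀ i, sg (sg i) = i) {T : Finset ι}
    (hT : ∀ i, i ∈ T ↔ sg i ∉ T) {R : Type*} [AddCommMonoid R] (F : ι → R) :
    ∑ i, F i = ∑ i ∈ T, (F i + F (sg i)) := by
  classical
  rw [← Finset.sum_add_sum_compl T, Finset.sum_add_distrib]
  congr 1
  refine (Finset.sum_nbij' sg sg ?_ ?_ ?_ ?_ ?_).symm
  · intro i hi
    exact Finset.mem_compl.2 ((hT i).1 hi)
  · intro i hi
    by_contra h
    exact Finset.mem_compl.1 hi ((hT i).2 h)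
  · intro i _
    exact h2 i
  · intro i _
    exact h2 i
  · intro i _
    rfl

end

end Pool.Agent.Lib.MP_1a91b9_ntQ
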