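import Pool.Agent.Lib.MP_1a91b9_ntQ.A.Rsd4
import Pool.Agent.Lib.MP_1a91b9_ntQ.A.HPm4
import Pool.Agent.Lib.MP_1a91b9_ntQ.A.Cnt4
import Pool.Agent.Lib.MP_1a91b9_ntQ.A.ForB
import Pool.Agent.Lib.MP_1a91b9_ntQ.R.Qd4

/-!
# Quartic twists, class (E), file B1a: the sums `∑ ∏ (s + τ) ξ` over the classes up to sign

`ξ` is any function with values in a ring of characteristic `2` and the rules of the structure `XiR4`
(the good coordinate modulo a place above `2`).
-/

set_option autoImplicit false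

namespace Pool.Agent.Lib.MP_1a91b9_ntQ

open NumberField IsDedekindDomain Pool.Agent.Lib.MP_1a91b9_nuT Pool.Agent.Lib.MP_1a91b9_nuT.S3
  Pool.Agent.Lib.MP_1a91b9_nuT.Ell

noncomputable section

/-! ### Symbols -/

private theorem B1_ndvd_mul (q : Pg) {a b : 𝓞 K} (ha : ¬ q.1 ∣ a) (hb : ¬ q.1 ∣ b) : ¬ q.1 ∣ a * b :=
  fun h => (q.prime.dvd_or_dvd h).elim ha hb

private theorem B1_dvd_congr {q a b : 𝓞 K} (h : q ∣ a - b) : q ∣ a ↔ q ∣ b := by
  constructor
  · intro h2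
    have := dvd_sub h2 h
    rwa [sub_sub_cancel] at this
  · intro h2
    have := dvd_add h h2
    rwa [sub_add_cancel] at this

theorem c2_negone (q : Pg) : c2 q (-1) = 0 := by
  have h1 : ¬ q.1 ∣ (-1 : 𝓞 K) := fun h => q.prime.not_isUnit (isUnit_of_dvd_unit h isUnit_one.neg)
  have hi : ¬ q.1 ∣ (iO : 𝓞 K) := fun h => q.prime.not_isUnit (isUnit_of_dvd_unit h iO_unit)
  have h2 := c2_mul q hi hi
  have e : (iO * iO : 𝓞 K) = -1 := by
    rw [← pow_two]
    exact iO_sq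
  rw [e] at h2
  rw [h2]
  have : ∀ z : ZMod 2, z + z = 0 := by decide
  exact this _

theorem c2_neg (q : Pg) {a : 𝓞 K} (ha : ¬ q.1 ∣ a) : c2 q (-a) = c2 q a := by
  have h1 : ¬ q.1 ∣ (-1 : 𝓞 K) := fun h => q.prime.not_isUnit (isUnit_of_dvd_unit h isUnit_one.neg)
  have h2 := c2_mul q h1 ha
  rw [neg_one_mul, c2_negone, zero_add] at h2
  exact h2

open Classical in
/-- the weight of a class -/
def gB (J : Finset Pg) (τ : Pg → ZMod 2) (a : 𝓞 K) : ZMod 2 :=
  ∏ k ∈ J, (if k.1 ∣ a then 0 else c2 k a + τ k)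

variable {J : Finset Pg} {τ : Pg → ZMod 2}

theorem gB_ne {a : 𝓞 K} (h : gB J τ a ≠ 0) : ∀ q ∈ J, ¬ q.1 ∣ a := by
  classical
  intro q hq h4
  rw [gB, Finset.prod_ne_zero_iff] at h
  exact h q hq (if_pos h4)

theorem gB_pos {a : 𝓞 K} (h : ∀ q ∈ J, ¬ q.1 ∣ a) : gB J τ a = ∏ k ∈ J, (c2 k a + τ k) :=
  Finset.prod_congr rfl fun k hk => if_neg (h k hk)

theorem gB_zero {a : 𝓞 K} {q : Pg} (hq : q ∈ J) (h : q.1 ∣ a) : gB J τ a = 0 := by
  by_contra h1
  exact gB_ne h1 q hq h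

private theorem B1_DD {S : Finset Pg} {q : Pg} (hq : q ∈ S) : q.1 ∣ DDq S := dvd_DDq.2 hq

theorem gB_pd (J : Finset Pg) (τ : Pg → ZMod 2) : Pd2 (DDq J) (gB J τ) := by
  classical
  refine Pd2.of ?_ ?_
  · intro a b hab
    have hd : ∀ q ∈ J, q.1 ∣ a - b := fun q hq => (B1_DD hq).trans hab
    by_cases h : ∀ q ∈ J, ¬ q.1 ∣ a
    · have h' : ∀ q ∈ J, ¬ q.1 ∣ b := fun q hq h1 => h q hq ((B1_dvd_congr (hd q hq)).2 h1)
      rw [gB_pos h, gB_pos h']
      exact Finset.prod_congr rfl fun k hk => by rw [c2_congr k (h k hk) (hd k hk)]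
    · push Not at h
      obtain ⟨q, hq, h1⟩ := h
      rw [gB_zero hq h1, gB_zero hq ((B1_dvd_congr (hd q hq)).1 h1)]
  · intro a
    by_cases h : ∀ q ∈ J, ¬ q.1 ∣ a
    · have h' : ∀ q ∈ J, ¬ q.1 ∣ -a := fun q hq h1 => h q hq ((dvd_neg).1 h1)
      rw [gB_pos h, gB_pos h']
      exact Finset.prod_congr rfl fun k hk => by rw [c2_neg k (h k hk)]
    · push Not at h
      obtain ⟨q, hq, h1⟩ := h
      rw [gB_zero hq h1, gB_zero hq ((dvd_neg).2 h1)]

/-- the substitution of a product -/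
theorem gB_mul {c : 𝓞 K} (hc : ∀ q ∈ J, ¬ q.1 ∣ c) (a : 𝓞 K) :
    gB J τ (c * a) = gB J (fun k => c2 k c + τ k) a := by
  by_cases h : ∀ q ∈ J, ¬ q.1 ∣ a
  · have h' : ∀ q ∈ J, ¬ q.1 ∣ c * a := fun q hq => B1_ndvd_mul q (hc q hq) (h q hq)
    rw [gB_pos h', gB_pos h]
    refine Finset.prod_congr rfl fun k hk => ?_
    rw [c2_mul k (hc k hk) (h k hk)]
    ring
  · push Not at h
    obtain ⟨q, hq, h1⟩ := h
    rw [gB_zero hq h1, gB_zero hq (h1.mul_left c)]

theorem gB_insert {i : Pg} (hi : i ∉ J) (a : 𝓞 K) :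
    gB (insert i J) τ a =
      (open Classical in if i.1 ∣ a then 0 else c2 i a + τ i) * gB J τ a := by
  classical
  rw [gB, gB, Finset.prod_insert hi]

theorem gB_congr {τ' : Pg → ZMod 2} (h : ∀ k ∈ J, τ k = τ' k) (a : 𝓞 K) :
    gB J τ a = gB J τ' a := by
  classical
  rw [gB, gB]
  refine Finset.prod_congr rfl fun k hk => ?_
  rw [h k hk]

/-! ### The sums -/

variable {R : Type*} [CommRing R] [Algebra (ZMod 2) R] {ξ : ℂ → R}

/-- the sum over the classes up to sign -/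
def HE (ξ : ℂ → R) (J : Finset Pg) (τ : Pg → ZMod 2) : R :=
  S2 (DDq J) fun a => gB J τ a • ξ (em a / em (DDq J))

omit [Algebra (ZMod 2) R] in
theorem XiR4.pd (hX : XiR4 ξ) {M : 𝓞 K} (hM : M ≠ 0) : Pd2 M fun a => ξ (em a / em M) := by
  refine Pd2.of ?_ ?_
  · intro a b h
    obtain ⟨l, hl, e⟩ := em_divM_per hM h
    change ξ (em a / em M) = ξ (em b / em M)
    rw [e, hX.per _ _ hl]
  · intro a
    change ξ (em (-a) / em M) = ξ (em a / em M)
    rw [em_neg, neg_div, hX.neg]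

theorem Pd2.smul {M : 𝓞 K} {g : 𝓞 K → ZMod 2} {F : 𝓞 K → R} (hg : Pd2 M g) (hF : Pd2 M F) :
    Pd2 M fun a => g a • F a := by
  intro a b h
  change g a • F a = g b • F b
  rw [hg a b h, hF a b h]

private theorem B1_odd {M x : 𝓞 K} (hM : In4 M) (h : M ∣ 2 * x) : M ∣ x := by
  refine IsCoprime.dvd_of_dvd_mul_left ?_ h
  have h1 : IsCoprime M (lam ^ 2) := in4_cop_lam hM 2
  refine h1.of_isCoprime_of_dvd_right ?_
  exact ⟨iO, by
    have h2 := lam_sq
    linear_combination h2⟩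

theorem DDq_ne_zero (S : Finset Pg) : DDq S ≠ 0 := (DDq_in4 S).ne_zero

/-- **the distribution relation for the sums** -/
theorem S2_dist (hX : XiR4 ξ) (i : Pg) {M : 𝓞 K} (hM : In4 M) {g : 𝓞 K → ZMod 2}
    (hg : Pd2 M g) (hg0 : ∀ a, g a ≠ 0 → ¬ M ∣ a) :
    S2 (i.1 * M) (fun a => (open Classical in if i.1 ∣ a then (0 : ZMod 2) else g a) •
        ξ (em a / em (i.1 * M))) =
      S2 M (fun b => (g b - g (i.1 * b)) • ξ (em b / em M)) := by
  classical
  have hM0 : M ≠ 0 := hM.ne_zero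
  have hi0 : i.1 ≠ 0 := i.ne_zero
  have hiM : i.1 * M ≠ 0 := mul_ne_zero hi0 hM0
  have e1 := em_ne hM0
  have e2 := em_ne hi0
  have hg1 : Pd2 (i.1 * M) g := hg.of_dvd (dvd_mul_left _ _)
  have hp1 : Pd2 (i.1 * M) fun a => g a • ξ (em a / em (i.1 * M)) := hg1.smul (hX.pd hiM)
  have hp2 : Pd2 (i.1 * M) fun a => (if i.1 ∣ a then g a else (0 : ZMod 2)) •
      ξ (em a / em (i.1 * M)) := by
    refine Pd2.smul (Pd2.of (fun a b h => ?_) fun a => ?_) (hX.pd hiM)
    · have h1 := B1_dvd_congr ((dvd_mul_right i.1 M).trans h)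
      change (if i.1 ∣ a then g a else (0 : ZMod 2)) = if i.1 ∣ b then g b else 0
      by_cases h2 : i.1 ∣ a
      · rw [if_pos h2, if_pos (h1.1 h2)]
        exact hg1.pd a b h
      · rw [if_neg h2, if_neg (fun h3 => h2 (h1.2 h3))]
    · change (if i.1 ∣ -a then g (-a) else (0 : ZMod 2)) = if i.1 ∣ a then g a else 0
      rw [hg.neg]
      by_cases h2 : i.1 ∣ a
      · rw [if_pos h2, if_pos ((dvd_neg).2 h2)]
      · rw [if_neg h2, if_neg (fun h3 => h2 ((dvd_neg).1 h3))]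
  have h1 : S2 (i.1 * M) (fun a => g a • ξ (em a / em (i.1 * M))) =
      S2 M (fun b => g b • ξ (em b / em M)) := by
    rw [S2_fib hM0 hi0 hp1]
    · refine S2_congr fun b => ?_
      have h2 : (fun u => g (b + M * u) • ξ (em (b + M * u) / em (i.1 * M))) =
          fun u => g b • ξ (em b / em (i.1 * M) + em u / em i.1) := by
        funext u
        have h3 : g (b + M * u) = g b := hg _ _ (Or.inl ⟨u, by ring⟩)
        have h4 : em (b + M * u) / em (i.1 * M) = em b / em (i.1 * M) + em u / em i.1 := by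
          rw [em_add, em_mul, em_mul]
          field_simp
        rw [h3, h4]
      rw [h2, SM_smul hi0]
      by_cases h5 : g b = 0
      · rw [h5, zero_smul, zero_smul]
      · congr 1
        have h6 := hg0 b h5
        have h7 : em i.1 * (em b / em (i.1 * M)) = em b / em M := by
          rw [em_mul]
          field_simp
        rw [← h7]
        refine hX.dist i _ ?_
        rw [h7]
        exact od_divM hM h6
    · intro x hx
      have h2 : g x = 0 := by
        by_contra h3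
        exact hg0 x h3 (B1_odd hM hx)
      rw [h2, zero_smul]
  have h2 : S2 (i.1 * M) (fun a => (if i.1 ∣ a then g a else (0 : ZMod 2)) •
      ξ (em a / em (i.1 * M))) = S2 M (fun b => g (i.1 * b) • ξ (em b / em M)) := by
    rw [S2_dvd hM0 hi0 hp2 fun a h => by rw [if_neg h, zero_smul]]
    refine S2_congr fun b => ?_
    have h7 : em (i.1 * b) / em (i.1 * M) = em b / em M := by
      rw [em_mul, em_mul]
      field_simp
    rw [if_pos (dvd_mul_right _ _), h7]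
  have h3 : (fun b => (g b - g (i.1 * b)) • ξ (em b / em M)) =
      fun b => g b • ξ (em b / em M) - g (i.1 * b) • ξ (em b / em M) := by
    funext b
    rw [sub_smul]
  rw [h3, S2_sub hM0, ← h1, ← h2, ← S2_sub hiM]
  refine S2_congr fun a => ?_
  by_cases h : i.1 ∣ a
  · rw [if_pos h, if_pos h, zero_smul, sub_self]
  · rw [if_neg h, if_neg h, zero_smul, sub_zero]

theorem HE_congr {τ' : Pg → ZMod 2} (h : ∀ k ∈ J, τ k = τ' k) : HE ξ J τ = HE ξ J τ' :=
  S2_congr fun a => by rw [gB_congr h a]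

private theorem B1_dd_notdvd {a : 𝓞 K} {q : Pg} (hq : q ∈ J) (h : ¬ q.1 ∣ a) : ¬ DDq J ∣ a :=
  fun h1 => h ((B1_DD hq).trans h1)

/-- the change of one coordinate -/
theorem HE_diff (hX : XiR4 ξ) {i : Pg} (hi : i ∉ J) (hJ : J.Nonempty) {τ' : Pg → ZMod 2}
    (hτ : ∀ k ∈ J, τ' k = τ k) :
    HE ξ (insert i J) τ' - HE ξ (insert i J) τ =
      (τ' i - τ i) • (HE ξ J τ - HE ξ J (fun k => τ k + c2 k i.1)) := by
  classical
  have hDD : DDq (insert i J) = i.1 * DDq J := DDq_insert hi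
  have hM := DDq_ne_zero (insert i J)
  have hM' := DDq_ne_zero J
  have hnd : ∀ q ∈ J, ¬ q.1 ∣ i.1 := fun q hq => Pg.not_dvd (fun e => hi (e ▸ hq))
  have e1 : HE ξ (insert i J) τ' - HE ξ (insert i J) τ =
      (τ' i - τ i) • S2 (i.1 * DDq J) (fun a => (if i.1 ∣ a then (0 : ZMod 2) else
        gB J τ a) • ξ (em a / em (i.1 * DDq J))) := by
    rw [HE, HE, ← S2_sub hM, ← S2_smul (mul_ne_zero i.ne_zero hM'), hDD]
    refine S2_congr fun a => ?_
    rw [gB_insert hi, gB_insert hi, gB_congr hτ a, ← sub_smul, smul_smul]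
    congr 1
    by_cases h : i.1 ∣ a
    · rw [if_pos h, if_pos h, if_pos h]
      ring
    · rw [if_neg h, if_neg h, if_neg h]
      ring
  rw [e1]
  congr 1
  obtain ⟨q, hq⟩ := hJ
  rw [S2_dist hX i (DDq_in4 _) (gB_pd J τ) fun a ha => B1_dd_notdvd hq (gB_ne ha q hq)]
  have e2 : (fun b => (gB J τ b - gB J τ (i.1 * b)) • ξ (em b / em (DDq J))) =
      fun b => gB J τ b • ξ (em b / em (DDq J)) -
        gB J (fun k => τ k + c2 k i.1) b • ξ (em b / em (DDq J)) := by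
    funext b
    rw [gB_mul hnd, sub_smul]
    congr 2
    exact gB_congr (fun k _ => add_comm _ _) b
  rw [e2, S2_sub hM']
  rfl

/-! ### The orbits of `i` -/

private theorem B1_iO_ndvd (q : Pg) : ¬ q.1 ∣ (iO : 𝓞 K) := fun h =>
  q.prime.not_isUnit (isUnit_of_dvd_unit h iO_unit)

/-- a half system for the multiplication by `i` of the classes modulo `q` up to sign -/
theorem exists_qrt (q : Pg) : ∃ (ι : Type) (T : Finset ι) (a : ι → 𝓞 K),
    (∀ i ∈ T, ¬ q.1 ∣ a i) ∧ (∀ x, ¬ q.1 ∣ x → ∃ i ∈ T, Pm q.1 x (a i) ∨ Pm q.1 x (iO * a i)) ∧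
    (∀ i ∈ T, ∀ j ∈ T, Pm q.1 (a i) (a j) → i = j) ∧
    ∀ i ∈ T, ∀ j ∈ T, ¬ Pm q.1 (a i) (iO * a j) := by
  classical
  have hfin := pmS_finite q.ne_zero
  let _ : Fintype (Quotient (pmS q.1)) := Fintype.ofFinite _
  let ι := {x : Quotient (pmS q.1) // ¬ q.1 ∣ x.out}
  have hdv : ∀ {x y : 𝓞 K}, Pm q.1 x y → (q.1 ∣ x ↔ q.1 ∣ y) := by
    intro x y h
    rcases h with h | h
    · exact B1_dvd_congr h
    · rw [← dvd_neg (b := y)]
      exact B1_dvd_congr (by rwa [sub_neg_eq_add])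
  have hout : ∀ x : 𝓞 K, Pm q.1 (Quotient.mk (pmS q.1) x).out x := fun x => by
    rw [← pmS_mk, pmS_out]
  have hii : ∀ x : 𝓞 K, Pm q.1 (iO * (iO * x)) x := fun x => Or.inr ⟨0, by
    have := iO_sq
    linear_combination x * this⟩
  let sg : ι → ι := fun x => ⟨Quotient.mk (pmS q.1) (iO * x.1.out), by
    rw [hdv (hout _)]
    exact B1_ndvd_mul q (B1_iO_ndvd q) x.2⟩
  have h2 : ∀ x, sg (sg x) = x := by
    intro x
    apply Subtype.ext
    change Quotient.mk (pmS q.1) (iO * (Quotient.mk (pmS q.1) (iO * x.1.out)).out) = x.1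
    have h3 : Pm q.1 (iO * (Quotient.mk (pmS q.1) (iO * x.1.out)).out) x.1.out :=
      ((hout (iO * x.1.out)).mul iO).trans (hii _)
    rw [(pmS_mk _ _).2 h3, pmS_out]
  have hne : ∀ x : 𝓞 K, ¬ q.1 ∣ x → ¬ Pm q.1 (iO * x) x := by
    intro x hx h
    have hl : ∀ y : 𝓞 K, y ∣ lam → q.1 ∣ y * x → False := by
      intro y hy h1
      rcases q.prime.dvd_or_dvd h1 with h3 | h3
      · exact lam_not_dvd q (h3.trans hy)
      · exact hx h3
    rcases h with h | h
    · refine hl (iO - 1) ⟨-iO, ?_⟩ (by rw [sub_mul, one_mul]; exact h)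
      rw [lam]
      have := iO_sq
      linear_combination this
    · refine hl (iO + 1) ⟨1, ?_⟩ (by rw [add_mul, one_mul]; exact h)
      rw [lam]
      ring
  have h1 : ∀ x, sg x ≠ x := by
    intro x h
    have h3 : Quotient.mk (pmS q.1) (iO * x.1.out) = x.1 := congrArg Subtype.val h
    rw [← pmS_out x.1] at h3
    have h4 : Pm q.1 (iO * x.1.out) x.1.out := by
      have h5 := (pmS_mk _ _).1 h3
      rwa [pmS_out] at h5
    exact hne _ x.2 h4
  obtain ⟨T, hT⟩ := exists_half h1 h2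
  refine ⟨ι, T, fun x => x.1.out, fun x _ => x.2, ?_, ?_, ?_⟩
  · intro x hx
    let X : ι := ⟨Quotient.mk (pmS q.1) x, by rwa [hdv (hout _)]⟩
    by_cases hX : X ∈ T
    · exact ⟨X, hX, Or.inl (hout x).symm⟩
    · have hX' : sg X ∈ T := by
        rw [hT, h2]
        exact hX
      refine ⟨sg X, hX', Or.inr ?_⟩
      change Pm q.1 x (iO * (Quotient.mk (pmS q.1) (iO * X.1.out)).out)
      exact (hout x).symm.trans ((((hout (iO * X.1.out)).mul iO).trans (hii _)).symm)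
  · intro x _ y _ h
    have h3 := (pmS_mk _ _).2 h
    rw [pmS_out, pmS_out] at h3
    exact Subtype.ext h3
  · intro x hx y hy h
    have h3 : x = sg y := by
      apply Subtype.ext
      change x.1 = Quotient.mk (pmS q.1) (iO * y.1.out)
      rw [← pmS_out x.1]
      exact (pmS_mk _ _).2 h
    rw [h3] at hx
    exact (hT y).1 hy hx

/-- the sum over a half system -/
theorem S2_quarter {R' : Type*} [AddCommMonoid R'] (q : Pg) {ι : Type} {T : Finset ι} {a : ι → 𝓞 K}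
    (h1 : ∀ x, ¬ q.1 ∣ x → ∃ i ∈ T, Pm q.1 x (a i) ∨ Pm q.1 x (iO * a i))
    (h2 : ∀ i ∈ T, ∀ j ∈ T, Pm q.1 (a i) (a j) → i = j)
    (h3 : ∀ i ∈ T, ∀ j ∈ T, ¬ Pm q.1 (a i) (iO * a j)) {F : 𝓞 K → R'} (hF : Pd2 q.1 F)
    (h0 : ∀ x, q.1 ∣ x → F x = 0) : S2 q.1 F = ∑ i ∈ T, (F (a i) + F (iO * a i)) := by
  classical
  have hii : ∀ x : 𝓞 K, Pm q.1 (iO * (iO * x)) x := fun x => Or.inr ⟨0, by
    have := iO_sq
    linear_combination x * this⟩
  have e : S2 q.1 F = ∑ x ∈ T ×ˢ (Finset.univ : Finset Bool), F (if x.2 then iO * a x.1 else a x.1) := by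
    refine S2_sup (a := fun x : ι × Bool => if x.2 then iO * a x.1 else a x.1) q.ne_zero hF ?_ ?_
    · intro x hx
      obtain ⟨i, hi, h4 | h4⟩ := h1 x fun h => hx (h0 x h)
      · exact ⟨(i, false), Finset.mem_product.2 ⟨hi, Finset.mem_univ _⟩, by simpa using h4⟩
      · exact ⟨(i, true), Finset.mem_product.2 ⟨hi, Finset.mem_univ _⟩, by simpa using h4⟩
    · rintro ⟨i, b⟩ hi ⟨j, b'⟩ hj h
      have hi' := (Finset.mem_product.1 hi).1
      have hj' := (Finset.mem_product.1 hj).1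
      cases b <;> cases b'
      · have h4 : Pm q.1 (a i) (a j) := by simpa using h
        rw [h2 i hi' j hj' h4]
      · have h4 : Pm q.1 (a i) (iO * a j) := by simpa using h
        exact absurd h4 (h3 i hi' j hj')
      · have h4 : Pm q.1 (iO * a i) (a j) := by simpa using h
        exact absurd h4.symm (h3 j hj' i hi')
      · have h4 : Pm q.1 (iO * a i) (iO * a j) := by simpa using h
        have h5 := (hii (a i)).symm.trans ((h4.mul iO).trans (hii (a j)))
        rw [h2 i hi' j hj' h5]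
  rw [e, Finset.sum_product]
  refine Finset.sum_congr rfl fun i _ => ?_
  rw [Fintype.sum_bool, add_comm]
  simp

end

end Pool.Agent.Lib.MP_1a91b9_ntQ
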