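import Pool.Agent.Lib.MP_1a91b9_ntQ.A.B1a

/-!
# Quartic twists, class (E), file B1b: the sums are affine, their Frobenius and the count
-/

set_option autoImplicit false

namespace Pool.Agent.Lib.MP_1a91b9_ntQ

open NumberField IsDedekindDomain Pool.Agent.Lib.MP_1a91b9_nuT Pool.Agent.Lib.MP_1a91b9_nuT.S3
  Pool.Agent.Lib.MP_1a91b9_nuT.Ell

noncomputable section

/-! ### One prime -/

/-- the sum over the classes from the sum over the classes up to sign -/
theorem SM_pm {R : Type*} [AddCommMonoid R] {M : 𝓞 K} (hM : M ≠ 0) {F : 𝓞 K → R} (hF : Pd M F)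
    (h0 : ∀ x, M ∣ 2 * x → F x = 0) : SM M F = S2 M fun x => F x + F (-x) := by
  classical
  obtain ⟨ι, _, b, hb, h⟩ := S2_def (R := R) hM
  have hd : ∀ {x y : 𝓞 K}, Pm M x y → M ∣ 2 * y → M ∣ 2 * x := by
    intro x y h1 h2
    rcases h1 with ⟨z, hz⟩ | ⟨z, hz⟩
    · have e : 2 * x = 2 * y + M * (2 * z) := by linear_combination 2 * hz
      rw [e]
      exact dvd_add h2 (dvd_mul_right _ _)
    · have e : 2 * x = -(2 * y) + M * (2 * z) := by linear_combination 2 * hz
      rw [e]
      exact dvd_add ((dvd_neg).2 h2) (dvd_mul_right _ _)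
  let κ := {x : ι × Bool // ¬ M ∣ 2 * b x.1}
  have e1 : SM M F = ∑ x : κ, F (if x.1.2 then -b x.1.1 else b x.1.1) := by
    refine SM_sup (a := fun x : κ => if x.1.2 then -b x.1.1 else b x.1.1) hM hF ?_ ?_
    · intro x hx
      have hx2 : ¬ M ∣ 2 * x := fun h2 => hx (h0 x h2)
      obtain ⟨i, hi⟩ := hb.ex x
      have hi2 : ¬ M ∣ 2 * b i := fun h2 => hx2 (hd hi h2)
      rcases hi with hi | hi
      · exact ⟨⟨(i, false), hi2⟩, by simpa using hi⟩
      · exact ⟨⟨(i, true), hi2⟩, by simpa using hi⟩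
    · rintro ⟨⟨i, s⟩, hi⟩ ⟨⟨j, t⟩, hj⟩ h2
      have hi' : ¬ M ∣ 2 * b i := hi
      have key : ∀ z : 𝓞 K, Pm M (b i) (b j) → M ∣ b i + b j → False := by
        intro _ h3 h4
        have h5 := hb.inj i j h3
        subst h5
        exact hi' (by rwa [two_mul])
      have e2 : Pm M (b i) (b j) := by
        cases s <;> cases t
        · exact Or.inl (by simpa using h2)
        · exact Or.inr (by simpa using h2)
        · refine Or.inr ?_
          have h3 : M ∣ -b i - b j := by simpa using h2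
          have h4 : M ∣ -(-b i - b j) := (dvd_neg).2 h3
          rwa [show -(-b i - b j) = b i + b j by ring] at h4
        · refine Or.inl ?_
          have h3 : M ∣ -b i - -b j := by simpa using h2
          have h4 : M ∣ -(-b i - -b j) := (dvd_neg).2 h3
          rwa [show -(-b i - -b j) = b i - b j by ring] at h4
      have h5 := hb.inj i j e2
      subst h5
      have h6 : s = t := by
        cases s <;> cases t
        · rfl
        · exfalso
          have h3 : M ∣ b i - -b i := by simpa using h2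
          exact key 0 e2 (by rwa [sub_neg_eq_add] at h3)
        · exfalso
          have h3 : M ∣ -b i - b i := by simpa using h2
          have h4 : M ∣ -(-b i - b i) := (dvd_neg).2 h3
          exact key 0 e2 (by rwa [show -(-b i - b i) = b i + b i by ring] at h4)
        · rfl
      subst h6
      rfl
  have e2 : (∑ x : κ, F (if x.1.2 then -b x.1.1 else b x.1.1)) =
      ∑ x : ι × Bool, (if M ∣ 2 * b x.1 then 0 else F (if x.2 then -b x.1 else b x.1)) := by
    have h1 : (∑ x ∈ Finset.univ.filter (fun x : ι × Bool => ¬ M ∣ 2 * b x.1),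
        F (if x.2 then -b x.1 else b x.1)) = ∑ x : κ, F (if x.1.2 then -b x.1.1 else b x.1.1) :=
      Finset.sum_subtype (p := fun x : ι × Bool => ¬ M ∣ 2 * b x.1) (F := inferInstance)
        (Finset.univ.filter fun x : ι × Bool => ¬ M ∣ 2 * b x.1) (fun x => by simp)
        (fun x : ι × Bool => F (if x.2 then -b x.1 else b x.1))
    rw [← h1, Finset.sum_filter]
    refine Finset.sum_congr rfl fun x _ => ?_
    by_cases h2 : M ∣ 2 * b x.1
    · rw [if_neg (not_not.2 h2), if_pos h2]
    · rw [if_pos h2, if_neg h2]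
  rw [e1, e2, h, Fintype.sum_prod_type]
  refine Finset.sum_congr rfl fun i _ => ?_
  rw [Fintype.sum_bool]
  by_cases h2 : M ∣ 2 * b i
  · have h3 : M ∣ 2 * -b i := by rw [mul_neg]; exact (dvd_neg).2 h2
    simp only [if_pos h2]
    rw [h0 _ h2, h0 _ h3]
  · simp only [if_neg h2, if_true]
    rw [add_comm]
    simp

private theorem B1b_two (q : Pg) {x : 𝓞 K} (h : q.1 ∣ 2 * x) : q.1 ∣ x := by
  rcases q.prime.dvd_or_dvd h with h1 | h1
  · exfalso
    have h2 : q.1 ∣ lam ^ 2 := h1.trans ⟨iO, by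
      have h2 := lam_sq
      linear_combination h2⟩
    exact lam_not_dvd q (q.prime.dvd_of_dvd_pow h2)
  · exact h1

/-- the number of the classes prime to `q` -/
theorem SM_oneq (q : Pg) :
    SM q.1 (fun x => open Classical in if q.1 ∣ x then (0 : ℕ) else 1) = Nz q.1 - 1 := by
  classical
  have hDD : DDq {q} = q.1 := by
    have := DDq_insert (Finset.notMem_empty q)
    rw [DDq_empty, mul_one] at this
    exact this
  have hν : lam ^ 3 * DDq {q} ≠ 0 := by
    rw [hDD]
    exact mul_ne_zero (pow_ne_zero 3 lam_ne_zero) q.ne_zero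
  obtain ⟨ι, _, c, hc⟩ := RepsG.exists_reps (f := lam ^ 3) hν (dvd_mul_right _ _)
  have h1 := card_reps hc
  rw [Finset.prod_singleton] at h1
  rw [← h1]
  have hq : q ∈ ({q} : Finset Pg) := Finset.mem_singleton_self q
  have e1 : SM q.1 (fun x => if q.1 ∣ x then (0 : ℕ) else 1) =
      ∑ i, if q.1 ∣ c i then (0 : ℕ) else 1 := by
    refine SM_sup (F := fun x => if q.1 ∣ x then (0 : ℕ) else 1) q.ne_zero ?_ ?_ ?_
    · intro x y h
      have h2 : q.1 ∣ x ↔ q.1 ∣ y := by
        constructor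
        · intro h3
          have := dvd_sub h3 h
          rwa [sub_sub_cancel] at this
        · intro h3
          have := dvd_add h h3
          rwa [sub_add_cancel] at this
      change (if q.1 ∣ x then (0 : ℕ) else 1) = if q.1 ∣ y then 0 else 1
      by_cases h3 : q.1 ∣ x
      · rw [if_pos h3, if_pos (h2.1 h3)]
      · rw [if_neg h3, if_neg fun h4 => h3 (h2.2 h4)]
    · intro x hx
      have hx1 : ¬ q.1 ∣ x := by
        intro h2
        apply hx
        exact if_pos h2
      obtain ⟨u, hu1, -, hu3⟩ := exists_unit4 {q} q x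
      have hu4 : ¬ q.1 ∣ u := by
        intro h2
        have := dvd_sub h2 hu3
        rw [sub_sub_cancel] at this
        exact hx1 this
      have hcop : IsCoprime u (lam ^ 3 * DDq {q}) := by
        refine IsCoprime.mul_right (in4_cop_lam hu1 3) ?_
        rw [hDD]
        exact (q.prime.irreducible.coprime_iff_not_dvd.2 hu4).symm
      obtain ⟨i, hi⟩ := hc.ex u hcop hu1
      refine ⟨i, ?_⟩
      rw [hDD] at hi
      have h2 := dvd_sub ((dvd_mul_left q.1 (lam ^ 3)).trans hi) hu3
      rwa [show u - c i - (u - x) = x - c i by ring] at h2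
    · intro i j h
      refine hc.inj i j ?_
      rw [hDD]
      have h3 : lam ^ 3 ∣ c i - c j := by
        have h4 := dvd_sub (hc.fx i) (hc.fx j)
        rwa [sub_sub_sub_cancel_right] at h4
      exact (in4_cop_lam q.in4 3).symm.mul_dvd h3 h
  rw [e1, Finset.sum_congr rfl fun i _ => if_neg (reps_not_dvd hc i hq), Finset.sum_const]
  simp

/-- the number of the classes modulo `q` up to the powers of `i` -/
theorem card_quarter (q : Pg) {ι : Type} {T : Finset ι} {a : ι → 𝓞 K}
    (h0 : ∀ i ∈ T, ¬ q.1 ∣ a i)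
    (h1 : ∀ x, ¬ q.1 ∣ x → ∃ i ∈ T, Pm q.1 x (a i) ∨ Pm q.1 x (iO * a i))
    (h2 : ∀ i ∈ T, ∀ j ∈ T, Pm q.1 (a i) (a j) → i = j)
    (h3 : ∀ i ∈ T, ∀ j ∈ T, ¬ Pm q.1 (a i) (iO * a j)) : (T.card : ZMod 2) = aa q.1 := by
  classical
  let F : 𝓞 K → ℕ := fun x => if q.1 ∣ x then (0 : ℕ) else 1
  have hdv : ∀ {x y : 𝓞 K}, Pm q.1 x y → (q.1 ∣ x ↔ q.1 ∣ y) := by
    have aux : ∀ {x y : 𝓞 K}, Pm q.1 x y → q.1 ∣ x → q.1 ∣ y := by
      intro x y h h4
      rcases h with h | h
      · have := dvd_sub h4 h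
        rwa [sub_sub_cancel] at this
      · have := dvd_sub h h4
        rwa [add_sub_cancel_left] at this
    intro x y h
    exact ⟨aux h, aux h.symm⟩
  have hF : Pd2 q.1 F := by
    intro x y h
    change (if q.1 ∣ x then (0 : ℕ) else 1) = if q.1 ∣ y then 0 else 1
    by_cases h4 : q.1 ∣ x
    · rw [if_pos h4, if_pos ((hdv h).1 h4)]
    · rw [if_neg h4, if_neg fun h5 => h4 ((hdv h).2 h5)]
  have hF0 : ∀ x, q.1 ∣ x → F x = 0 := fun x hx => if_pos hx
  have hF1 : ∀ x, ¬ q.1 ∣ x → F x = 1 := fun x hx => if_neg hx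
  have e1 : Nz q.1 - 1 = 4 * T.card := by
    have h4 : SM q.1 F = Nz q.1 - 1 := SM_oneq q
    rw [← h4, SM_pm q.ne_zero hF.pd fun x hx => hF0 x (B1b_two q hx)]
    rw [S2_quarter (F := fun x => F x + F (-x)) q h1 h2 h3]
    · have h5 : ∀ i ∈ T, (F (a i) + F (-a i)) + (F (iO * a i) + F (-(iO * a i))) = 4 := by
        intro i hi
        have h6 := h0 i hi
        have h7 : ¬ q.1 ∣ iO * a i := fun h => (q.prime.dvd_or_dvd h).elim
          (fun h => q.prime.not_isUnit (isUnit_of_dvd_unit h iO_unit)) h6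
        rw [hF.neg, hF.neg, hF1 _ h6, hF1 _ h7]
      rw [Finset.sum_congr rfl h5, Finset.sum_const, smul_eq_mul, mul_comm]
    · intro x y h
      change F x + F (-x) = F y + F (-y)
      rw [hF.neg, hF.neg, hF x y h]
    · intro x hx
      change F x + F (-x) = 0
      rw [hF.neg, hF0 x hx]
  obtain ⟨k, hk, hk2⟩ := nn_eq_Nz q.in4
  have e2 : T.card = k := by omega
  rw [e2, aa, hk2, map_natCast]

/-! ### The sums -/

variable {R : Type*} [CommRing R] [Algebra (ZMod 2) R] {ξ : ℂ → R} {J : Finset Pg}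
  {τ : Pg → ZMod 2}

variable (R) in
private theorem B1b_char : (2 : R) = 0 := by
  have h : algebraMap (ZMod 2) R 2 = 0 := by
    rw [show (2 : ZMod 2) = 0 from rfl, map_zero]
  rwa [map_ofNat] at h

private theorem B1b_em_iO : em iO = zt := rfl

theorem DDq_single (q : Pg) : DDq {q} = q.1 := by
  have := DDq_insert (Finset.notMem_empty q)
  rw [DDq_empty, mul_one] at this
  exact this

/-- the sum for one prime -/
theorem HE_single (hX : XiR4 ξ) (i : Pg) (τ τ' : Pg → ZMod 2) :
    HE ξ {i} τ' - HE ξ {i} τ = ((τ' i - τ i) * aa i.1) • (1 : R) := by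
  classical
  have hM : DDq {i} ≠ 0 := DDq_ne_zero _
  obtain ⟨ι, T, a, h0, h1, h2, h3⟩ := exists_qrt i
  have hc := card_quarter i h0 h1 h2 h3
  have hpd : ∀ τ : Pg → ZMod 2, Pd2 (DDq {i}) fun a => gB {i} τ a • ξ (em a / em (DDq {i})) :=
    fun τ => (gB_pd {i} τ).smul (hX.pd hM)
  rw [HE, HE, ← S2_sub hM]
  have hi : i ∈ ({i} : Finset Pg) := Finset.mem_singleton_self i
  have e : ∀ x, gB {i} τ' x • ξ (em x / em (DDq {i})) - gB {i} τ x • ξ (em x / em (DDq {i})) =
      (if i.1 ∣ x then (0 : ZMod 2) else τ' i - τ i) • ξ (em x / em i.1) := by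
    intro x
    rw [← sub_smul, DDq_single]
    congr 1
    by_cases h : i.1 ∣ x
    · rw [gB_zero hi h, gB_zero hi h, if_pos h, sub_zero]
    · have h4 : ∀ q ∈ ({i} : Finset Pg), ¬ q.1 ∣ x := fun q hq => by
        rw [Finset.mem_singleton.1 hq]
        exact h
      rw [gB_pos h4, gB_pos h4, if_neg h, Finset.prod_singleton, Finset.prod_singleton]
      ring
  have hpd' : Pd2 i.1 fun x => gB {i} τ' x • ξ (em x / em (DDq {i})) -
      gB {i} τ x • ξ (em x / em (DDq {i})) := by
    intro x y h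
    have h' : Pm (DDq {i}) x y := by rwa [DDq_single]
    have h4 := hpd τ' x y h'
    have h5 := hpd τ x y h'
    change gB {i} τ' x • ξ (em x / em (DDq {i})) = gB {i} τ' y • ξ (em y / em (DDq {i})) at h4
    change gB {i} τ x • ξ (em x / em (DDq {i})) = gB {i} τ y • ξ (em y / em (DDq {i})) at h5
    change gB {i} τ' x • ξ (em x / em (DDq {i})) - gB {i} τ x • ξ (em x / em (DDq {i})) =
      gB {i} τ' y • ξ (em y / em (DDq {i})) - gB {i} τ y • ξ (em y / em (DDq {i}))
    rw [h4, h5]
  rw [show S2 (DDq {i}) (fun x => gB {i} τ' x • ξ (em x / em (DDq {i})) -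
      gB {i} τ x • ξ (em x / em (DDq {i}))) = S2 i.1 (fun x => gB {i} τ' x •
      ξ (em x / em (DDq {i})) - gB {i} τ x • ξ (em x / em (DDq {i}))) by rw [DDq_single]]
  rw [S2_quarter i h1 h2 h3 hpd' fun x hx => by rw [e, if_pos hx, zero_smul]]
  have h5 : ∀ j ∈ T, (gB {i} τ' (a j) • ξ (em (a j) / em (DDq {i})) -
      gB {i} τ (a j) • ξ (em (a j) / em (DDq {i}))) +
      (gB {i} τ' (iO * a j) • ξ (em (iO * a j) / em (DDq {i})) -
      gB {i} τ (iO * a j) • ξ (em (iO * a j) / em (DDq {i}))) = (τ' i - τ i) • (1 : R) := by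
    intro j hj
    have h6 := h0 j hj
    have h7 : ¬ i.1 ∣ iO * a j := fun h => (i.prime.dvd_or_dvd h).elim
      (fun h => i.prime.not_isUnit (isUnit_of_dvd_unit h iO_unit)) h6
    have h8 : em (iO * a j) / em i.1 = zt * (em (a j) / em i.1) := by
      rw [em_mul, B1b_em_iO, mul_div_assoc]
    rw [e, e, if_neg h6, if_neg h7, h8, hX.i _ (od_divM i.in4 h6), ← smul_add]
    congr 1
    linear_combination ξ (em (a j) / em i.1) * B1b_char R
  rw [Finset.sum_congr rfl h5, Finset.sum_const, mul_smul, smul_comm, ← hc]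
  congr 1
  rw [Nat.cast_smul_eq_nsmul (ZMod 2)]

/-- one coordinate -/
private theorem HE_aff_one (hX : XiR4 ξ) {J : Finset Pg}
    (ih : ∀ J' ⊂ J, J'.Nonempty → ∀ τ τ' : Pg → ZMod 2, HE ξ J' τ' - HE ξ J' τ =
      (∑ r ∈ J', (τ' r - τ r) * Ham s4 (fun q => aa q.1) J' r) • (1 : R))
    {i : Pg} (hi : i ∈ J) {τ τ' : Pg → ZMod 2} (hτ : ∀ k ∈ J, k ≠ i → τ' k = τ k) :
    HE ξ J τ' - HE ξ J τ = ((τ' i - τ i) * Ham s4 (fun q => aa q.1) J i) • (1 : R) := by
  classical
  have hJ : insert i (J.erase i) = J := Finset.insert_erase hi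
  have hiJ := Finset.notMem_erase i J
  by_cases he : J.erase i = ∅
  · have hJi : J = {i} := by
      rw [← hJ, he]
      rfl
    rw [hJi, HE_single hX, Ham_single]
  · have hne : (J.erase i).Nonempty := Finset.nonempty_iff_ne_empty.2 he
    have h1 := HE_diff (ξ := ξ) (J := J.erase i) (τ := τ) (τ' := τ') hX hiJ hne
      (fun k hk => hτ k (Finset.mem_of_mem_erase hk) (Finset.ne_of_mem_erase hk))
    rw [hJ] at h1
    rw [h1]
    have h2 := ih _ (Finset.erase_ssubset hi) hne (fun k => τ k + c2 k i.1) τ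
    rw [h2, smul_smul, Ham_of _ _ hi hne]
    congr 1
    congr 1
    refine Finset.sum_congr rfl fun j hj => ?_
    have h3 : s4 i j = c2 j i.1 := by
      rw [s4_symm (Finset.ne_of_mem_erase hj).symm]
      rfl
    rw [h3]
    have h4 : ∀ x y : ZMod 2, x - (x + y) = y := by decide
    rw [h4]

/-- **(6b)** the sum is affine -/
theorem HE_aff (hX : XiR4 ξ) (J : Finset Pg) : J.Nonempty → ∀ τ τ' : Pg → ZMod 2,
    HE ξ J τ' - HE ξ J τ =
      (∑ r ∈ J, (τ' r - τ r) * Ham s4 (fun q => aa q.1) J r) • (1 : R) := by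
  classical
  induction J using Finset.strongInduction with
  | H J ih =>
    intro _ τ τ'
    have key : ∀ U ⊆ J, HE ξ J (fun k => if k ∈ U then τ' k else τ k) - HE ξ J τ =
        (∑ r ∈ U, (τ' r - τ r) * Ham s4 (fun q => aa q.1) J r) • (1 : R) := by
      intro U
      induction U using Finset.induction_on with
      | empty =>
        intro _
        simp
      | insert i U hi ihU =>
        intro hU
        have hiJ := hU (Finset.mem_insert_self i U)
        have h1 := ihU fun k hk => hU (Finset.mem_insert_of_mem hk)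
        have h2 := HE_aff_one (J := J) (τ := fun k => if k ∈ U then τ' k else τ k)
          (τ' := fun k => if k ∈ insert i U then τ' k else τ k) hX ih hiJ
          (fun k _ hk => by simp [Finset.mem_insert, hk])
        rw [Finset.sum_insert hi, add_smul, ← h1]
        have h3 : (if i ∈ insert i U then τ' i else τ i) - (if i ∈ U then τ' i else τ i) =
            τ' i - τ i := by
          rw [if_pos (Finset.mem_insert_self i U), if_neg hi]
        rw [h3] at h2
        rw [← h2]
        abel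
    have h4 := key J (Finset.Subset.refl J)
    rw [← h4]
    congr 1
    exact HE_congr fun k hk => (if_pos hk).symm

/-! ### Frobenius -/

private theorem B1b_sq_sum {ι : Type*} (T : Finset ι) (f : ι → R) :
    (∑ i ∈ T, f i) ^ 2 = ∑ i ∈ T, f i ^ 2 := by
  classical
  induction T using Finset.induction_on with
  | empty => simp
  | insert a T ha ih =>
    rw [Finset.sum_insert ha, Finset.sum_insert ha, ← ih]
    linear_combination f a * (∑ i ∈ T, f i) * B1b_char R

private theorem B1b_smul_sq (g : ZMod 2) (x : R) : (g • x) ^ 2 = g • x ^ 2 := by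
  rw [smul_pow]
  congr 1
  revert g
  decide

private theorem B1b_em_lam : em lam = lm := by
  rw [lam, em_add, em_one, em_iO', lm]

private theorem B1b_od {a : 𝓞 K} (hJ : J.Nonempty) (h : gB J τ a ≠ 0) : Od (em a / em (DDq J)) := by
  obtain ⟨q, hq⟩ := hJ
  refine od_divM (DDq_in4 _) fun h1 => gB_ne h q hq ?_
  exact (dvd_DDq.2 hq).trans h1

/-- the squares -/
theorem HE_sq (hX : XiR4 ξ) (hJ : J.Nonempty) (τ : Pg → ZMod 2) :
    HE ξ J τ ^ 2 = S2 (DDq J) (fun a => gB J τ a • ξ (em a / em (DDq J)) ^ 2) ∧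
    HE ξ J τ ^ 2 = HE ξ J (fun k => τ k + c2 k lam) := by
  have hM := DDq_ne_zero J
  have e1 : HE ξ J τ ^ 2 = S2 (DDq J) (fun a => gB J τ a • ξ (em a / em (DDq J)) ^ 2) := by
    obtain ⟨ι, _, a, -, h⟩ := S2_def (R := R) hM
    rw [HE, h, h, B1b_sq_sum]
    exact Finset.sum_congr rfl fun i _ => B1b_smul_sq _ _
  refine ⟨e1, e1.trans ?_⟩
  have hlam : ∀ q ∈ J, ¬ q.1 ∣ lam := fun q _ => lam_not_dvd q
  have hcop : IsCoprime lam (DDq J) := by
    have := (in4_cop_lam (DDq_in4 J) 1).symm
    rwa [pow_one] at this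
  rw [HE, ← S2_mul hM ((gB_pd J _).smul (hX.pd hM)) hcop]
  refine S2_congr fun a => ?_
  rw [gB_mul hlam]
  have e2 : gB J (fun k => c2 k lam + (τ k + c2 k lam)) a = gB J τ a := gB_congr (fun k _ => by
    have : ∀ x y : ZMod 2, x + (y + x) = y := by decide
    exact this _ _) a
  rw [e2]
  by_cases h : gB J τ a = 0
  · rw [h, zero_smul, zero_smul]
  · have e3 : em (lam * a) / em (DDq J) = lm * (em a / em (DDq J)) := by
      rw [em_mul, B1b_em_lam, mul_div_assoc]
    rw [e3, hX.lm _ (B1b_od hJ h)]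

/-- **the sum of the good coordinates** -/
theorem HE_main (hX : XiR4 ξ) (hJ : J.Nonempty) (τ : Pg → ZMod 2) :
    S2 (DDq J) (fun a => gB J τ a • (ξ (em a / em (DDq J)) + ξ (em a / em (DDq J)) ^ 2)) =
      (∑ r ∈ J, c2 r lam * Ham s4 (fun q => aa q.1) J r) • (1 : R) := by
  have hM := DDq_ne_zero J
  obtain ⟨h1, h2⟩ := HE_sq hX hJ τ
  have e1 : (fun a => gB J τ a • (ξ (em a / em (DDq J)) + ξ (em a / em (DDq J)) ^ 2)) =
      fun a => gB J τ a • ξ (em a / em (DDq J)) + gB J τ a • ξ (em a / em (DDq J)) ^ 2 := by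
    funext a
    rw [smul_add]
  rw [e1, S2_add hM, ← h1, h2]
  have h3 := HE_aff hX J hJ τ (fun k => τ k + c2 k lam)
  have e2 : (∑ r ∈ J, (τ r + c2 r lam - τ r) * Ham s4 (fun q => aa q.1) J r) =
      ∑ r ∈ J, c2 r lam * Ham s4 (fun q => aa q.1) J r :=
    Finset.sum_congr rfl fun r _ => by rw [add_sub_cancel_left]
  rw [e2] at h3
  rw [← h3]
  have e3 : S2 (DDq J) (fun a => gB J τ a • ξ (em a / em (DDq J))) = HE ξ J τ := rfl
  rw [e3]
  linear_combination HE ξ J τ * B1b_char R

/-! ### The count -/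

/-- the number of the classes with weight `1`, modulo `2` -/
theorem S2_gB (hJ : J.Nonempty) (τ : Pg → ZMod 2) :
    S2 (DDq J) (gB J τ) = if J.card = 1 then ∑ q ∈ J, aa q.1 else 0 := by
  classical
  by_cases h1 : J.card = 1
  · obtain ⟨q, rfl⟩ := Finset.card_eq_one.1 h1
    rw [if_pos h1, Finset.sum_singleton]
    obtain ⟨ι, T, a, h0, h2, h3, h4⟩ := exists_qrt q
    have hc := card_quarter q h0 h2 h3 h4
    have hpd : Pd2 q.1 (gB {q} τ) := by
      have := gB_pd {q} τ
      rwa [DDq_single] at this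
    have hq : q ∈ ({q} : Finset Pg) := Finset.mem_singleton_self q
    rw [show S2 (DDq {q}) (gB {q} τ) = S2 q.1 (gB {q} τ) by rw [DDq_single],
      S2_quarter q h2 h3 h4 hpd fun x hx => gB_zero hq hx]
    have h5 : ∀ i ∈ T, gB {q} τ (a i) + gB {q} τ (iO * a i) = aa q.1 := by
      intro i hi
      have h6 := h0 i hi
      have hi1 : ¬ q.1 ∣ (iO : 𝓞 K) := fun h => q.prime.not_isUnit (isUnit_of_dvd_unit h iO_unit)
      have h7 : ¬ q.1 ∣ iO * a i := fun h => (q.prime.dvd_or_dvd h).elim hi1 h6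
      have h8 : ∀ p ∈ ({q} : Finset Pg), ¬ p.1 ∣ a i := fun p hp => by
        rw [Finset.mem_singleton.1 hp]
        exact h6
      have h9 : ∀ p ∈ ({q} : Finset Pg), ¬ p.1 ∣ iO * a i := fun p hp => by
        rw [Finset.mem_singleton.1 hp]
        exact h7
      rw [gB_pos h8, gB_pos h9, Finset.prod_singleton, Finset.prod_singleton, c2_mul q hi1 h6, c2_iO]
      have : ∀ x y z : ZMod 2, x + y + (z + x + y) = z := by decide
      exact this _ _ _
    rw [Finset.sum_congr rfl h5, Finset.sum_const, nsmul_eq_mul, hc]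
    have : ∀ x : ZMod 2, x * x = x := by decide
    exact this _
  · rw [if_neg h1]
    have h2 : 1 < J.card := by
      have := hJ.card_pos
      omega
    obtain ⟨r, hr, r', hr', hne⟩ := Finset.one_lt_card.1 h2
    -- the element congruent to `-1` at `r` and to `1` at the other primes
    obtain ⟨u, hu1, hu2, hu3⟩ := exists_unit4 J r (-1)
    have hu4 : ∀ q ∈ J, ¬ q.1 ∣ u := by
      intro q hq h
      by_cases hqr : q = r
      · rw [hqr] at h
        have h3 := dvd_sub h hu3
        rw [show u - (u - -1) = (-1 : 𝓞 K) by ring] at h3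
        exact r.prime.not_isUnit (isUnit_of_dvd_unit h3 isUnit_one.neg)
      · have h3 := dvd_sub h (hu2 q hq hqr)
        rw [sub_sub_cancel] at h3
        exact q.prime.not_isUnit (isUnit_of_dvd_one h3)
    have hu5 : ∀ q ∈ J, c2 q u = 0 := by
      intro q hq
      by_cases hqr : q = r
      · rw [hqr, c2_congr r (by rw [← hqr]; exact hu4 q hq) hu3, c2_negone]
      · rw [c2_congr q (hu4 q hq) (hu2 q hq hqr), c2_one]
    have hu6 : DDq J ∣ u * u - 1 := by
      refine Finset.prod_dvd_of_coprime (fun p _ q _ hpq => Pg.cop hpq) fun q hq => ?_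
      have e : u * u - 1 = (u - 1) * (u + 1) := by ring
      rw [e]
      by_cases hqr : q = r
      · rw [hqr]
        rw [sub_neg_eq_add] at hu3
        exact hu3.mul_left _
      · exact (hu2 q hq hqr).mul_right _
    obtain ⟨ι, _, b, hb, h⟩ := S2_def (R := ZMod 2) (DDq_ne_zero J)
    rw [h]
    choose sg hsg using fun i => hb.ex (u * b i)
    have hgu : ∀ x, gB J τ (u * x) = gB J τ x := by
      intro x
      rw [gB_mul hu4]
      exact gB_congr (fun k hk => by rw [hu5 k hk, zero_add]) x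
    refine Finset.sum_involution (fun i _ => sg i) ?_ ?_ (fun i _ => Finset.mem_univ _) ?_
    · intro i _
      have h3 : gB J τ (b (sg i)) = gB J τ (b i) := by
        rw [← gB_pd J τ _ _ (hsg i), hgu]
      rw [h3]
      have : ∀ x : ZMod 2, x + x = 0 := by decide
      exact this _
    · intro i _ hi h3
      have hnd := gB_ne hi
      have h4 := hsg i
      rw [h3] at h4
      rcases h4 with h4 | h4
      · -- `u = 1` at `r`
        have h5 : r.1 ∣ u * b i - b i := (dvd_DDq.2 hr).trans h4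
        rw [show u * b i - b i = (u - 1) * b i by ring] at h5
        rcases r.prime.dvd_or_dvd h5 with h6 | h6
        · have h7 := dvd_sub hu3 h6
          rw [show u - -1 - (u - 1) = 2 * (1 : 𝓞 K) by ring] at h7
          have h8 := B1b_two r h7
          exact r.prime.not_isUnit (isUnit_of_dvd_one h8)
        · exact hnd r hr h6
      · have h5 : r'.1 ∣ u * b i + b i := (dvd_DDq.2 hr').trans h4
        rw [show u * b i + b i = (u + 1) * b i by ring] at h5
        rcases r'.prime.dvd_or_dvd h5 with h6 | h6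
        · have h7 := dvd_sub h6 (hu2 r' hr' hne.symm)
          rw [show u + 1 - (u - 1) = 2 * (1 : 𝓞 K) by ring] at h7
          have h8 := B1b_two r' h7
          exact r'.prime.not_isUnit (isUnit_of_dvd_one h8)
        · exact hnd r' hr' h6
    · intro i _
      have h3 := (hsg i).mul u
      have h4 : Pm (DDq J) (u * (u * b i)) (b i) := by
        obtain ⟨t, ht⟩ := hu6
        exact Or.inl ⟨t * b i, by linear_combination b i * ht⟩
      have h5 := h4.symm.trans (h3.trans (hsg (sg i)))
      exact (hb.inj _ _ h5).symm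

end

end Pool.Agent.Lib.MP_1a91b9_ntQ
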