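import Pool.Agent.Lib.MP_1a91b9_ntQ.A.FinB
import Pool.Agent.Lib.MP_1a91b9_ntQ.A.AlgE

/-!
# Quartic twists, part A, file BorB: the bordered determinants with primes of exponent two

`GE s κ g f x T A = det [[NM, f], [g', x]]`, `g' i = g i`, multiplied by `X i` for `i ∈ A`.
-/

set_option autoImplicit false
set_option linter.unusedSectionVars false

namespace Pool.Agent.Lib.MP_1a91b9_ntQ

open Finset MvPolynomial
open Pool.Agent.Lib.MP_1a91b9_ntK (NM NM_congr NM_empty NM_adj NM_update NM_zero forest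
  CZ CZ_eq forest_zero)

variable {ι : Type*} [DecidableEq ι] {R : Type*} [CommRing R]

/-- a bordered matrix with a column which is zero outside the diagonal -/
theorem FB_col (m : ι → ι → R) (b c : ι → R) (k : R) (κ : ι → R) {T : Finset ι} {r : ι}
    (hr : r ∈ T) (h : ∀ i ∈ T, i ≠ r → m i r = 0) (hc : c r = 0) :
    FB m b c k κ T = (κ r + ∑ p ∈ T.erase r, m r p) * FB m b c k κ (T.erase r) := by
  let κ' : ι → R := Function.update κ r (-∑ p ∈ T.erase r, m r p)
  have h1 := FB_update m b c k κ' T r (κ r + ∑ p ∈ T.erase r, m r p) hr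
  have h2 : Function.update κ' r (κ' r + (κ r + ∑ p ∈ T.erase r, m r p)) = κ := by
    funext i
    by_cases hi : i = r
    · subst hi
      rw [Function.update_self]
      show Function.update κ i _ i + _ = _
      rw [Function.update_self]
      ring
    · rw [Function.update_of_ne hi]
      exact Function.update_of_ne hi _ _
  have h3 : FB m b c k κ' T = 0 := by
    refine Matrix.det_eq_zero_of_column_eq_zero (Sum.inl ⟨r, hr⟩) fun i => ?_
    rcases i with i | i
    · show NM m κ' T i ⟨r, hr⟩ = 0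
      by_cases hi : i = ⟨r, hr⟩
      · subst hi
        simp only [NM, if_true]
        show Function.update κ r _ r + _ = 0
        rw [Function.update_self, neg_add_cancel]
      · simp only [NM, if_neg hi]
        rw [h i i.2 (fun h' => hi (Subtype.ext h')), neg_zero]
    · exact hc
  have h4 : FB m b c k (fun p => κ' p + m p r) (T.erase r) = FB m b c k κ (T.erase r) := by
    refine FB_congr m b c k _ _ _ fun i hi => ?_
    have hi' := ne_of_mem_erase hi
    rw [h i (mem_of_mem_erase hi) hi', add_zero]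
    exact Function.update_of_ne hi' _ _
  rw [h2, h3, h4, zero_add] at h1
  exact h1

theorem FB_congr2 {m m' : ι → ι → R} {b b' c c' : ι → R} {k k' : R} {κ κ' : ι → R} {S : Finset ι}
    (h1 : ∀ x ∈ S, ∀ p ∈ S, x ≠ p → m x p = m' x p) (h2 : ∀ x ∈ S, κ x = κ' x)
    (h3 : ∀ x ∈ S, b x = b' x) (h4 : ∀ x ∈ S, c x = c' x) (h5 : k = k') :
    FB m b c k κ S = FB m' b' c' k' κ' S := by
  rw [FB, FB, NM_congr2 h1 h2, h5]
  congr 2
  · funext i
    exact h3 i i.2
  · funext i
    exact h4 i i.2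

theorem FB_map {R' : Type*} [CommRing R'] (φ : R →+* R') (m : ι → ι → R) (b c : ι → R) (k : R)
    (κ : ι → R) (S : Finset ι) :
    φ (FB m b c k κ S) = FB (fun x p => φ (m x p)) (fun x => φ (b x)) (fun x => φ (c x)) (φ k)
      (fun x => φ (κ x)) S := by
  rw [FB, RingHom.map_det, FB]
  congr 1
  ext i j
  rw [RingHom.mapMatrix_apply, Matrix.map_apply]
  rcases i with i | i <;> rcases j with j | j
  · simp only [BM, Matrix.fromBlocks_apply₁₁]
    simp only [NM]
    split_ifs
    · rw [map_add, map_sum]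
    · rw [map_neg]
  · rfl
  · rfl
  · rfl

theorem det_mem {n : Type*} [Fintype n] [DecidableEq n] (M : Matrix n n (MvPolynomial ι R))
    (U : Subalgebra R (MvPolynomial ι R)) (h : ∀ i j, M i j ∈ U) : M.det ∈ U := by
  rw [Matrix.det_apply]
  refine Subalgebra.sum_mem _ fun σ _ => ?_
  rcases Int.units_eq_one_or (Equiv.Perm.sign σ) with h' | h'
  · rw [h', one_smul]
    exact Subalgebra.prod_mem _ fun i _ => h _ _
  · rw [h', Units.neg_smul, one_smul]
    exact Subalgebra.neg_mem _ (Subalgebra.prod_mem _ fun i _ => h _ _)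

theorem FB_mem (m : ι → ι → MvPolynomial ι R) (b c : ι → MvPolynomial ι R) (k : MvPolynomial ι R)
    (κ : ι → MvPolynomial ι R) (S : Finset ι)
    (U : Subalgebra R (MvPolynomial ι R)) (h1 : ∀ x ∈ S, ∀ p ∈ S, m x p ∈ U)
    (h2 : ∀ x ∈ S, κ x ∈ U) (h3 : ∀ x ∈ S, b x ∈ U) (h4 : ∀ x ∈ S, c x ∈ U) (h5 : k ∈ U) :
    FB m b c k κ S ∈ U := by
  refine det_mem _ U fun i j => ?_
  rcases i with i | i <;> rcases j with j | j
  · show NM m κ S i j ∈ U
    simp only [NM]
    split_ifs
    · exact Subalgebra.add_mem _ (h2 i i.2) (Subalgebra.sum_mem _ fun p hp =>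
        h1 i i.2 p (mem_of_mem_erase hp))
    · exact Subalgebra.neg_mem _ (h1 i i.2 j j.2)
  · exact h3 i i.2
  · exact h4 j j.2
  · exact h5

/-- the vector of the starts -/
noncomputable def mvE (g : ι → R) (A : Finset ι) (i : ι) : MvPolynomial ι R :=
  if i ∈ A then X i * C (g i) else C (g i)

/-- the bordered determinant -/
noncomputable def GE (s : ι → ι → R) (κ g f : ι → R) (x : R) (T A : Finset ι) : MvPolynomial ι R :=
  FB (mwE s A) (fun i => C (f i)) (mvE g A) (C x) (fun i => C (κ i)) (T ∪ A)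

/-- **(R1)** -/
theorem GE_step (s : ι → ι → R) (κ g f : ι → R) (x : R) {T A : Finset ι} (hTA : Disjoint T A)
    {b : ι} (hb : b ∈ A) {E : Finset ι} (hE : b ∉ E) :
    cf (GE s κ g f x T A) E =
      cf (wE s κ T (A.erase b) b * GE s κ g f x T (A.erase b)) E := by
  have e0 := erase_union_right hTA hb
  have h1 : z1 b (GE s κ g f x T A) =
      wE s κ T (A.erase b) b * GE s κ g f x T (A.erase b) := by
    rw [GE, FB_map, FB_col _ _ _ _ _ (mem_union_right T hb) (fun i _ _ => by
      rw [z1_mwE, if_pos ⟨rfl, hb⟩]) (by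
      rw [mvE, if_pos hb, map_mul, z1_X, if_pos rfl, zero_mul]), e0,
      wE_eq s κ (disjoint_of_subset_right (erase_subset _ _) hTA), GE]
    have hne : ∀ p ∈ T ∪ A.erase b, p ≠ b := by
      intro p hp
      rw [← e0] at hp
      exact ne_of_mem_erase hp
    congr 1
    · rw [z1_C]
      congr 1
      exact sum_congr rfl fun p hp => z1_mwE_of s A (hne p hp)
    · refine FB_congr2 (fun x _ p hp _ => z1_mwE_of s A (hne p hp)) (fun x _ => z1_C b _)
        (fun x _ => z1_C b _) (fun x hx => ?_) (z1_C b _)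
      rw [mvE, mvE]
      have hxb := hne x hx
      by_cases hA : x ∈ A
      · rw [if_pos hA, if_pos (mem_erase.2 ⟨hxb, hA⟩), map_mul, z1_X, if_neg hxb, z1_C]
      · rw [if_neg hA, if_neg fun h => hA (mem_of_mem_erase h), z1_C]
  rw [← cf_z1 b _ hE, h1]

/-- every vertex of `A` gives its variable exactly once -/
theorem Ham_mwE (s : ι → ι → R) (f : ι → R) (A S : Finset ι) : ∀ i ∈ S,
    Ham (mwE s A) (fun j => C (f j)) S i = (∏ b ∈ (A ∩ S).erase i, X b) * C (Ham s f S i) := by
  induction S using Finset.strongInduction with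
  | H S ih =>
    intro i hi
    rw [Ham_rec _ _ hi, Ham_rec s f hi, C_add, mul_add]
    congr 1
    · split_ifs with h
      · have h1 : (A ∩ S).erase i = ∅ := by
          rw [← inter_erase, h, inter_empty]
        rw [h1, prod_empty, one_mul]
      · rw [C_0, mul_zero]
    · rw [map_sum, mul_sum]
      refine sum_congr rfl fun j hj => ?_
      rw [ih (S.erase i) (erase_ssubset hi) j hj, C_mul, mwE, inter_erase]
      have hji := ne_of_mem_erase hj
      by_cases hA : j ∈ A
      · rw [if_pos hA, ← mul_prod_erase ((A ∩ S).erase i) (fun b => (X b : MvPolynomial ι R))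
          (mem_erase.2 ⟨hji, mem_inter.2 ⟨hA, mem_of_mem_erase hj⟩⟩)]
        ring
      · rw [if_neg hA, erase_eq_of_notMem (s := (A ∩ S).erase i) fun h =>
          hA (mem_inter.1 (mem_of_mem_erase h)).1]
        ring

theorem sum_Ham_mwE (s : ι → ι → R) (g f : ι → R) {A S : Finset ι} (hA : A ⊆ S) :
    ∑ i ∈ S, mvE g A i * Ham (mwE s A) (fun j => C (f j)) S i =
      (∏ b ∈ A, X b) * C (∑ i ∈ S, g i * Ham s f S i) := by
  rw [map_sum, mul_sum]
  refine sum_congr rfl fun i hi => ?_
  rw [Ham_mwE s f A S i hi, inter_eq_left.2 hA, C_mul, mvE]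
  by_cases h : i ∈ A
  · rw [if_pos h, ← mul_prod_erase A (fun b => (X b : MvPolynomial ι R)) h]
    ring
  · rw [if_neg h, erase_eq_of_notMem h]
    ring

/-- the forest identity with paths -/
theorem forest_FB2 (m : ι → ι → R) (b c : ι → R) (k : R) (κ : ι → R) {S : Finset ι}
    (hS : S.Nonempty) :
    ∑ T ∈ S.powerset, (-1) ^ T.card * FB m b c k κ T * ∏ q ∈ S \ T, (κ q + ∑ p ∈ T, m q p) =
      -((-1) ^ S.card * ∑ i ∈ S, c i * Ham m b S i) := by
  have h1 := forest m κ hS
  have h2 := ham_id m κ c b S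
  have h3 : ∀ T : Finset ι, FB m b c k κ T = k * (NM m κ T).det -
      ∑ i : T, ∑ j : T, c i * (NM m κ T).adjugate i j * b j := fun T => det_BM _ _ _ _
  rw [← h2]
  have h4 : ∑ T ∈ S.powerset, (-1) ^ T.card * FB m b c k κ T *
      ∏ q ∈ S \ T, (κ q + ∑ p ∈ T, m q p) =
      k * ∑ T ∈ S.powerset, (-1) ^ T.card * (NM m κ T).det *
        ∏ q ∈ S \ T, (κ q + ∑ p ∈ T, m q p) -
      ∑ T ∈ S.powerset, (-1) ^ T.card * (∑ i : T, ∑ j : T, c i * (NM m κ T).adjugate i j * b j) *
        ∏ q ∈ S \ T, (κ q + ∑ p ∈ T, m q p) := by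
    rw [mul_sum, ← sum_sub_distrib]
    refine sum_congr rfl fun T _ => ?_
    rw [h3]
    ring
  rw [h4, h1, mul_zero, zero_sub]

/-- **(R2)** -/
theorem GE_sum (s : ι → ι → ZMod 2) (κ g f : ι → ZMod 2) (x : ZMod 2) {T A : Finset ι}
    (hTA : Disjoint T A) (h0 : (T ∪ A).Nonempty) :
    ∑ T' ∈ T.powerset, cf (GE s κ g f x T' A * ∏ y ∈ T \ T', wE s κ T' A y) A =
      ∑ i ∈ T ∪ A, g i * Ham s f (T ∪ A) i := by
  have hneg : (-1 : MvPolynomial ι (ZMod 2)) = 1 := by
    have h : (-1 : ZMod 2) = 1 := by decide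
    rw [← C_1, ← C_neg, h]
  have h1 := forest_FB2 (mwE s A) (fun i => C (f i)) (mvE g A) (C x) (fun i => C (κ i)) h0
  rw [sum_Ham_mwE s g f subset_union_right] at h1
  have h2 := congrArg (fun p => cf p A) h1
  have h9 : ∀ z : MvPolynomial ι (ZMod 2), -z = z := fun z => by
    rw [← neg_one_mul, hneg, one_mul]
  simp only [hneg, one_pow, one_mul, h9, cf_sum, cf_prodX, subset_refl, if_true,
    Finset.sdiff_self] at h2
  rw [cf_C, if_pos rfl, sum_super hTA] at h2
  · rw [← h2]
    refine sum_congr rfl fun T' hT' => ?_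
    have hT'A := disjoint_of_subset_left (mem_powerset.1 hT') hTA
    rw [union_sdiff_union hTA, GE]
    congr 2
    exact prod_congr rfl fun y _ => wE_eq s κ hT'A y
  · intro S' _ hA
    rw [cf_supported (A := A ∩ S')]
    · refine Subalgebra.mul_mem _ (FB_mem _ _ _ _ _ _ _ (fun x _ p hp => mwE_mem s A (A ∩ S')
        fun h => mem_inter.2 ⟨h, hp⟩) (fun x _ => Subalgebra.algebraMap_mem _ _)
        (fun x _ => Subalgebra.algebraMap_mem _ _) (fun i hi => ?_)
        (Subalgebra.algebraMap_mem _ _)) (term_mem s A _ S' fun x => Subalgebra.algebraMap_mem _ _)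
      rw [mvE]
      split_ifs with h
      · exact Subalgebra.mul_mem _ (X_mem_supported.2 (mem_coe.2 (mem_inter.2 ⟨h, hi⟩)))
          (Subalgebra.algebraMap_mem _ _)
      · exact Subalgebra.algebraMap_mem _ _
    · exact fun h => hA fun x hx => (mem_inter.1 (h hx)).2

theorem GE_empty (s : ι → ι → R) (κ g f : ι → R) (x : R) : GE s κ g f x ∅ ∅ = C x := by
  rw [GE, empty_union, FB_empty]

end Pool.Agent.Lib.MP_1a91b9_ntQ
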