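import Pool.Agent.Lib.MP_1a91b9_ntQ.A.Res4
import Pool.Agent.Lib.MP_1a91b9_ntQ.A.Inst
import Pool.Agent.Lib.MP_1a91b9_ntQ.R.Ring4

/-!
# Quartic twists, part A, file Xi4: the coordinate `xi`, `X = rh (1 + 2 xi)`, `rh² = 1 / (1 - 2 i)`, and its rules

`xi (-Q) = xi Q`, `xi (i Q) = -1 - xi Q`, `xi (lm Q) = xi Q ^ 2` and `∑ xi (Q + u) = xi (q Q)` over the
points `u` of `E[q]`, modulo the maximal ideal of a place above `2`. `xi4 = (X - rh) / 2 = rh xi`.
-/

set_option autoImplicit false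
set_option linter.unusedSectionVars false

namespace Pool.Agent.Lib.MP_1a91b9_nuT.S3

open Complex Filter Topology

noncomputable section

variable [CD]

variable {ι : Type*} [Fintype ι] {α : ℂ} {τ : ι → ℂ}

/-- **the distribution relation of the function `℘`** -/
theorem sum_P (hα : α ∈ PP.lattice) (hα0 : α ≠ 0) (h1 : ∀ i, α * τ i ∈ PP.lattice)
    (h2 : ∀ x, α * x ∈ PP.lattice → ∃! i, x - τ i ∈ PP.lattice) {z : ℂ}
    (hz : α * z ∉ PP.lattice) :
    ∑ i, PP.weierstrassP (z + τ i) = α ^ 2 * PP.weierstrassP (α * z) -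
      e2E * (Fintype.card ι - α ^ 2) := by
  set S : Set ℂ := {w : ℂ | α * w ∈ PP.lattice} with hSdef
  have hS : ∀ z : ℂ, ∀ᶠ w in 𝓝[≠] z, w ∉ S := fun z => eventually_mul_notMem hα0 z
  have hdiff : ∀ z ∉ S, DifferentiableAt ℂ (dh α τ) z := by
    intro z hz
    have a1 : DifferentiableAt ℂ (fun z => ∑ i, PP.weierstrassP (z + τ i)) z := by
      refine DifferentiableAt.fun_sum fun i _ => ?_
      exact ((hasDerivAt_P (notMem_shift hα h1 hz i)).comp_add_const z (τ i)).differentiableAt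
    have a2 : DifferentiableAt ℂ (fun z => PP.weierstrassP (α * z)) z := by
      have b2 : DifferentiableAt ℂ PP.weierstrassP (α * z) := (hasDerivAt_P hz).differentiableAt
      exact b2.comp z (by fun_prop)
    exact a1.neg.add (a2.const_mul _)
  have hlim : ∀ s ∈ S, Tendsto (fun z => (z - s) * dh α τ z) (𝓝[≠] s) (𝓝 0) := by
    intro s hs
    obtain ⟨a, ha⟩ := tendsto_dh hα0 h2 hs
    exact tendsto_mul_zero ha
  obtain ⟨b, hb⟩ := liouville hS hdiff hlim (fun l hl z => dh_add hα hl z)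
  have hcount : S.Countable :=
    countable_lat.preimage_of_injOn (f := fun w : ℂ => α * w)
      (fun x _ y _ h => mul_left_cancel₀ hα0 h)
  have hSo : IsOpen Sᶜ := isOpen_of_iso hS
  have hd : ∀ w ∈ Sᶜ, HasDerivAt (fun z => dg α τ z - b * z) 0 w := by
    intro w hw
    have c1 := hasDerivAt_dg hα h1 hw
    rw [hb w hw] at c1
    have c2 := c1.sub ((hasDerivAt_id w).const_mul b)
    refine c2.congr_deriv ?_
    ring
  have hconst : ∀ x ∈ Sᶜ, ∀ y ∈ Sᶜ, dg α τ x - b * x = dg α τ y - b * y := by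
    intro x hx y hy
    exact hSo.is_const_of_deriv_eq_zero (f := fun z => dg α τ z - b * z)
      (isPreconnected_compl_of_countable hcount)
      (fun w hw => (hd w hw).differentiableAt.differentiableWithinAt)
      (fun w hw => (hd w hw).deriv) hx hy
  set c : ℂ := etaE * (Fintype.card ι - α * (starRingEnd ℂ) α) with hc
  set b' : ℂ := b - e2E * (Fintype.card ι - α ^ 2) with hb'
  have hper : ∀ l ∈ PP.lattice, b' * l = c * (starRingEnd ℂ) l := by
    intro l hl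
    have hzl : z + l ∈ Sᶜ := by
      intro h
      apply hz
      have h' : α * (z + l) ∈ PP.lattice := h
      have := sub_mem h' (mul_mem hα hl)
      have e : α * (z + l) - α * l = α * z := by ring
      rwa [e] at this
    have c1 := hconst (z + l) hzl z hz
    rw [dg_add hα hl, ← hc] at c1
    rw [hb']
    linear_combination -c1
  have hb1 := hper 1 one_mem
  have hb2 := hper zt zt_mem
  rw [map_one] at hb1
  have hc0 : c = 0 := by
    have e1 : c * (zt - (starRingEnd ℂ) zt) = 0 := by linear_combination hb2 - zt * hb1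
    refine (mul_eq_zero.1 e1).resolve_right ?_
    exact sub_ne_zero.2 (fun h => zt_ne (Complex.conj_eq_iff_im.1 h.symm))
  have hb0 : b' = 0 := by linear_combination hb1 + hc0
  have h3 := hb z hz
  rw [dh] at h3
  rw [hb'] at hb0
  linear_combination -h3 - hb0

/-- **the distribution relation of `X`** -/
theorem sum_X (hα : α ∈ PP.lattice) (hα0 : α ≠ 0) (h1 : ∀ i, α * τ i ∈ PP.lattice)
    (h2 : ∀ x, α * x ∈ PP.lattice → ∃! i, x - τ i ∈ PP.lattice) {z : ℂ}
    (hz : α * z ∉ PP.lattice) : ∑ i, X (z + τ i) = α ^ 2 * X (α * z) -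
      e2E / Om ^ 2 * (Fintype.card ι - α ^ 2) := by
  have h := sum_P hα hα0 h1 h2 hz
  simp only [X]
  rw [← Finset.sum_div, h]
  ring

end

end Pool.Agent.Lib.MP_1a91b9_nuT.S3

namespace Pool.Agent.Lib.MP_1a91b9_ntQ

open NumberField Pool.Agent.Lib.MP_1a91b9_nuT Pool.Agent.Lib.MP_1a91b9_nuT.S3
  Pool.Agent.Lib.MP_1a91b9_nuT.Ell

noncomputable section

section
variable [CD]

/-- the abscissa of a point of order `2 + i` -/
def rh : ℂ := (1 - 2 * zt)⁻¹ ^ (((2 : ℕ) : ℂ)⁻¹)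

/-- the good coordinate -/
def xi (z : ℂ) : ℂ := (X z / rh - 1) / 2

/-- the good coordinate, second version -/
def xi4 (z : ℂ) : ℂ := (X z - rh) / 2

variable [hq : Q4]
include hq

/-- the constant of the distribution relation is `0` -/
theorem e2E_zero : e2E / Om ^ 2 = 0 := by
  have hz : (1 / 2 : ℂ) ∉ PP.lattice := half_notMem'
  have hz' : zt * (1 / 2 : ℂ) ∉ PP.lattice := fun h => hz (zt_mem_iff.1 h)
  have h := sum_X (ι := Unit) (α := zt) (τ := fun _ => 0) zt_mem zt_ne0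
    (fun _ => by rw [mul_zero]; exact zero_mem _)
    (fun x hx => ⟨(), by simpa using zt_mem_iff.1 hx, fun _ _ => rfl⟩) hz'
  simp only [Finset.univ_unique, Finset.sum_singleton, add_zero, Fintype.card_unit, Nat.cast_one] at h
  rw [X_i hz, zt_sq] at h
  linear_combination (1 / 2 : ℂ) * h

/-- **the distribution relation of `X`** -/
theorem sum_X4 {ι : Type*} [Fintype ι] {α : ℂ} {τ : ι → ℂ} (hα : α ∈ PP.lattice) (hα0 : α ≠ 0)
    (h1 : ∀ i, α * τ i ∈ PP.lattice)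
    (h2 : ∀ x, α * x ∈ PP.lattice → ∃! i, x - τ i ∈ PP.lattice) {z : ℂ}
    (hz : α * z ∉ PP.lattice) : ∑ i, X (z + τ i) = α ^ 2 * X (α * z) := by
  rw [sum_X hα hα0 h1 h2 hz, e2E_zero, zero_mul, sub_zero]

theorem Xi4_ne : (1 - 2 * zt : ℂ) ≠ 0 := by
  intro h
  have h1 : (1 - 2 * zt) * (1 + 2 * zt) = 5 := by linear_combination (-4 : ℂ) * zt_sq
  rw [h, zero_mul] at h1
  norm_num at h1

theorem rh_sq : rh ^ 2 * (1 - 2 * zt) = 1 := by
  rw [rh, Complex.cpow_nat_inv_pow _ two_ne_zero, inv_mul_cancel₀ Xi4_ne]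

theorem rh_ne : rh ≠ 0 := by
  intro h
  have h1 := rh_sq
  rw [h] at h1
  norm_num at h1

theorem X_xi (z : ℂ) : X z = rh * (1 + 2 * xi z) := by
  have := rh_ne
  rw [xi]
  field_simp
  ring

theorem X_xi4 (z : ℂ) : X z = rh + 2 * xi4 z := by
  rw [xi4]
  ring

theorem xi4_eq (z : ℂ) : xi4 z = rh * xi z := by
  rw [xi4, X_xi]
  ring

theorem xi_congr {x y : ℂ} (h : x - y ∈ PP.lattice) : xi x = xi y := by
  rw [xi, xi, X_congr h]

theorem xi4_congr {x y : ℂ} (h : x - y ∈ PP.lattice) : xi4 x = xi4 y := by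
  rw [xi4, xi4, X_congr h]

theorem xi_neg (z : ℂ) : xi (-z) = xi z := by
  rw [xi, xi, Ell.X_neg]

theorem xi4_neg (z : ℂ) : xi4 (-z) = xi4 z := by
  rw [xi4, xi4, Ell.X_neg]

theorem xi_i {z : ℂ} (hz : z ∉ PP.lattice) : xi (zt * z) = -1 - xi z := by
  rw [xi, xi, X_i hz]
  ring

theorem xi4_i {z : ℂ} (hz : z ∉ PP.lattice) : xi4 (zt * z) = -rh - xi4 z := by
  rw [xi4, xi4, X_i hz]
  ring

/-- the duplication relation -/
theorem xi_lm_eq {z : ℂ} (hz : 2 * z ∉ PP.lattice) :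
    xi (lm * z) * (1 + 2 * xi z) = -(zt * (xi z ^ 2 + (1 - zt) * xi z)) := by
  have h := X_lm hz
  rw [X_xi (lm * z), X_xi z] at h
  have h1 : 2 * zt * ((1 + 2 * xi (lm * z)) * (1 + 2 * xi z)) = (1 + 2 * xi z) ^ 2 - (1 - 2 * zt) := by
    have h2 := rh_sq
    linear_combination (1 - 2 * zt) * h - (2 * zt * (1 + 2 * xi (lm * z)) * (1 + 2 * xi z) -
      (1 + 2 * xi z) ^ 2) * h2
  linear_combination (-zt / 4) * h1 + (xi (lm * z) * (1 + 2 * xi z)) * zt_sq

/-- the duplication relation, second version -/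
theorem xi4_lm_eq {z : ℂ} (hz : 2 * z ∉ PP.lattice) :
    zt * (rh * (xi4 z + xi4 (lm * z)) + 2 * xi4 z * xi4 (lm * z)) = rh * xi4 z + xi4 z ^ 2 := by
  have h := X_lm hz
  rw [X_xi4 (lm * z), X_xi4 z] at h
  have h2 := rh_sq
  linear_combination (1 / 4 : ℂ) * h + (1 / 4 : ℂ) * h2

/-! ### The place -/

variable {B : ValuationSubring ℂ}

theorem v_rh (hB : (2 : ℂ)⁻¹ ∉ B) : B.valuation rh = 1 := by
  have h1 : B.valuation (1 - 2 * zt : ℂ) = 1 := by
    rw [Valuation.map_one_sub_of_lt]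
    rw [map_mul, v_zt, mul_one]
    exact two_lt hB
  have h2 := congrArg B.valuation rh_sq
  rw [map_mul, map_pow, h1, mul_one, map_one] at h2
  exact (pow_eq_one_iff_of_nonneg zero_le (by norm_num)).1 h2

/-- `rh` is congruent to `1` -/
theorem v_rh_sub (hB : (2 : ℂ)⁻¹ ∉ B) : B.valuation (rh - 1) < 1 := by
  have e : (rh - 1) ^ 2 = 2 * (zt * rh ^ 2 + 1 - rh) := by
    linear_combination rh_sq
  have h1 : B.valuation ((rh - 1) ^ 2) < 1 := by
    rw [e, map_mul]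
    refine mul_lt_one_of_lt_of_le (two_lt hB) ?_
    refine (Valuation.map_sub _ _ _).trans (max_le ?_ (v_rh hB).le)
    refine (Valuation.map_add _ _ _).trans (max_le ?_ (map_one _).le)
    rw [map_mul, map_pow, v_zt, v_rh hB, one_pow, mul_one]
  rw [map_pow] at h1
  by_contra h2
  push Not at h2
  exact absurd h1 (not_lt.2 (one_le_pow₀ h2))

theorem v_one_zt (hB : (2 : ℂ)⁻¹ ∉ B) : B.valuation (1 - zt) < 1 := by
  have e : (1 - zt : ℂ) = 2 - lm := by
    rw [lm]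
    ring
  rw [e]
  exact (Valuation.map_sub _ _ _).trans_lt (max_lt (two_lt hB) (v_lm_lt hB))

theorem v_one_xi (hB : (2 : ℂ)⁻¹ ∉ B) {z : ℂ} (hz : Od z) : B.valuation (1 + 2 * xi z) = 1 := by
  have h := congrArg B.valuation (X_xi z)
  rw [map_mul, v_X hB hz, v_rh hB, one_mul] at h
  exact h.symm

/-- **the coordinate is integral** -/
theorem xi_le (hB : (2 : ℂ)⁻¹ ∉ B) {z : ℂ} (hz : Od z) : B.valuation (xi z) ≤ 1 := by
  by_contra hc
  push Not at hc
  have step : ∀ w : ℂ, Od w → 1 < B.valuation (xi w) → B.valuation (xi w) < B.valuation (xi (lm * w)) := by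
    intro w hw h1
    have h2 := congrArg B.valuation (xi_lm_eq hw.two)
    rw [map_mul, v_one_xi hB hw, mul_one, Valuation.map_neg, map_mul, v_zt, one_mul] at h2
    have h3 : B.valuation (xi w ^ 2 + (1 - zt) * xi w) = B.valuation (xi w) ^ 2 := by
      rw [← map_pow]
      refine Valuation.map_add_eq_of_lt_left _ ?_
      rw [map_mul, map_pow, pow_two]
      exact mul_lt_mul_of_pos_right ((v_one_zt hB).trans h1) (zero_lt_one.trans h1)
    rw [h2, h3, pow_two]
    calc B.valuation (xi w) = 1 * B.valuation (xi w) := (one_mul _).symm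
      _ < _ := mul_lt_mul_of_pos_right h1 (zero_lt_one.trans h1)
  have h1 : ∀ n : ℕ, 1 < B.valuation (xi (lm ^ n * z)) := by
    intro n
    induction n with
    | zero => rwa [pow_zero, one_mul]
    | succ n ih =>
      have e : lm ^ (n + 1) * z = lm * (lm ^ n * z) := by ring
      rw [e]
      exact ih.trans (step _ (hz.pow n) ih)
  have h2 : StrictMono fun n : ℕ => B.valuation (xi (lm ^ n * z)) := by
    refine strictMono_nat_of_lt_succ fun n => ?_
    have e : lm ^ (n + 1) * z = lm * (lm ^ n * z) := by ring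
    rw [e]
    exact step _ (hz.pow n) (h1 n)
  obtain ⟨j, p, hp, h3⟩ := hz.periodic
  have h4 := h2 (show j < j + p by omega)
  simp only [xi_congr (h3 j le_rfl)] at h4
  exact lt_irrefl _ h4

theorem xi_mem (hB : (2 : ℂ)⁻¹ ∉ B) {z : ℂ} (hz : Od z) : xi z ∈ B := by
  rw [← ValuationSubring.valuation_le_one_iff]
  exact xi_le hB hz

theorem xi4_le (hB : (2 : ℂ)⁻¹ ∉ B) {z : ℂ} (hz : Od z) : B.valuation (xi4 z) ≤ 1 := by
  rw [xi4_eq, map_mul, v_rh hB, one_mul]
  exact xi_le hB hz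

theorem xi4_mem (hB : (2 : ℂ)⁻¹ ∉ B) {z : ℂ} (hz : Od z) : xi4 z ∈ B := by
  rw [← ValuationSubring.valuation_le_one_iff]
  exact xi4_le hB hz

/-- the two versions are congruent -/
theorem xi4_xi (hB : (2 : ℂ)⁻¹ ∉ B) {z : ℂ} (hz : Od z) : B.valuation (xi4 z - xi z) < 1 := by
  have e : xi4 z - xi z = (rh - 1) * xi z := by
    rw [xi4_eq]
    ring
  rw [e, map_mul]
  exact mul_lt_one_of_lt_of_le (v_rh_sub hB) (xi_le hB hz)

/-- the rotation -/
theorem v_xi_i (hB : (2 : ℂ)⁻¹ ∉ B) {z : ℂ} (hz : Od z) :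
    B.valuation (xi (zt * z) - xi z - 1) < 1 := by
  have e : xi (zt * z) - xi z - 1 = 2 * (-(1 + xi z)) := by
    rw [xi_i hz.notMem]
    ring
  rw [e, map_mul, Valuation.map_neg]
  refine mul_lt_one_of_lt_of_le (two_lt hB) ?_
  exact (Valuation.map_add _ _ _).trans (max_le (map_one _).le (xi_le hB hz))

/-- the Frobenius map -/
theorem v_xi_lm (hB : (2 : ℂ)⁻¹ ∉ B) {z : ℂ} (hz : Od z) :
    B.valuation (xi (lm * z) - xi z ^ 2) < 1 := by
  have h1 := xi_le hB hz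
  have h2 := xi_le hB hz.mul_lm
  have e : xi (lm * z) - xi z ^ 2 = 2 * (-(xi (lm * z) * xi z)) +
      (1 - zt) * (-(zt * xi z)) + (-(1 + zt) * xi z ^ 2) := by
    linear_combination xi_lm_eq hz.two
  have hlm : B.valuation (1 + zt) < 1 := v_lm_lt hB
  have hz1 := v_zt (B := B)
  rw [e]
  refine Valuation.map_add_lt _ (Valuation.map_add_lt _ ?_ ?_) ?_
  · rw [map_mul, Valuation.map_neg, map_mul]
    exact mul_lt_one_of_lt_of_le (two_lt hB) (mul_le_one' h2 h1)
  · rw [map_mul, Valuation.map_neg, map_mul, hz1, one_mul]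
    exact mul_lt_one_of_lt_of_le (v_one_zt hB) h1
  · rw [map_mul, Valuation.map_neg, map_pow]
    exact mul_lt_one_of_lt_of_le hlm (pow_le_one₀ zero_le h1)

theorem v_xi4_i (hB : (2 : ℂ)⁻¹ ∉ B) {z : ℂ} (hz : Od z) :
    B.valuation (xi4 (zt * z) - xi4 z - 1) < 1 := by
  have e : xi4 (zt * z) - xi4 z - 1 = 2 * (-(1 + xi4 z)) - (rh - 1) := by
    rw [xi4_i hz.notMem]
    ring
  rw [e]
  refine Valuation.map_sub_lt _ ?_ (v_rh_sub hB)
  rw [map_mul, Valuation.map_neg]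
  refine mul_lt_one_of_lt_of_le (two_lt hB) ?_
  exact (Valuation.map_add _ _ _).trans (max_le (map_one _).le (xi4_le hB hz))

theorem v_xi4_lm (hB : (2 : ℂ)⁻¹ ∉ B) {z : ℂ} (hz : Od z) :
    B.valuation (xi4 (lm * z) - xi4 z ^ 2) < 1 := by
  have h1 := xi4_xi hB hz.mul_lm
  have h2 := v_xi_lm hB hz
  have h3 := xi4_xi hB hz
  have e : xi4 (lm * z) - xi4 z ^ 2 = (xi4 (lm * z) - xi (lm * z)) + (xi (lm * z) - xi z ^ 2) -
      (xi4 z - xi z) * (xi4 z + xi z) := by ring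
  rw [e]
  refine Valuation.map_sub_lt _ (Valuation.map_add_lt _ h1 h2) ?_
  rw [map_mul]
  refine mul_lt_one_of_lt_of_le h3 ?_
  exact (Valuation.map_add _ _ _).trans (max_le (xi4_le hB hz) (xi_le hB hz))

end

/-! ### The distribution relation -/

section

variable {B : ValuationSubring ℂ}

/-- the distribution relation of `xi` -/
theorem sum_xi (q : Pg) {ι : Type*} [Fintype ι] {τ : ι → ℂ}
    (h1 : ∀ i, em q.1 * τ i ∈ PP.lattice)
    (h2 : ∀ x, em q.1 * x ∈ PP.lattice → ∃! i, x - τ i ∈ PP.lattice)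
    (hcard : Fintype.card ι = Nz q.1) {z : ℂ} (hz : em q.1 * z ∉ PP.lattice) :
    ∑ i, xi (z + τ i) = em q.1 ^ 2 * xi (em q.1 * z) + (em q.1 ^ 2 - (Nz q.1 : ℂ)) / 2 := by
  have hq0 : em q.1 ≠ 0 := em_ne q.ne_zero
  have hsum := sum_X4 (em_mem q.1) hq0 h1 h2 hz
  have hr := rh_ne
  have e3 : ∑ i, xi (z + τ i) = (em q.1 ^ 2 * X (em q.1 * z) / rh - (Nz q.1 : ℂ)) / 2 := by
    simp only [xi]
    rw [← Finset.sum_div, Finset.sum_sub_distrib, ← Finset.sum_div, hsum, Finset.sum_const,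
      Finset.card_univ, hcard, nsmul_eq_mul, mul_one]
  rw [e3, X_xi (em q.1 * z)]
  field_simp
  ring

/-- the constant `(q² - N q) / 2 = q (q - conj q) / 2` -/
theorem em_sq_sub (q : Pg) : ∃ m n : ℤ, q.1 = 1 + lam ^ 3 * ((m : 𝓞 K) + (n : 𝓞 K) * iO) ∧
    em q.1 ^ 2 - (Nz q.1 : ℂ) = 4 * ((m : ℂ) - n) * zt * em q.1 := by
  obtain ⟨m, n, h⟩ := in4_form q.in4
  refine ⟨m, n, h, ?_⟩
  have hN := Nz_form m n
  rw [← h] at hN
  have hN' : ((Nz q.1 : ℕ) : ℂ) = 1 + 4 * (-(m + n) + 2 * (m ^ 2 + n ^ 2)) := by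
    exact_mod_cast congrArg (fun x : ℤ => (x : ℂ)) hN
  have hem : em q.1 = 1 + (-2 + 2 * zt) * ((m : ℂ) + n * zt) := by
    have h3 : em q.1 = em (1 + (-2 + 2 * iO) * ((m : 𝓞 K) + (n : 𝓞 K) * iO)) := by
      refine congrArg em (h.trans ?_)
      rw [lam_cube]
    rw [em_add, em_one, em_mul, em_add, em_add, em_mul, em_mul, em_neg, em_ofNat, em_intCast,
      em_intCast, em_iO'] at h3
    exact h3
  rw [hN', hem]
  linear_combination (-(2 * (m : ℂ) - 2 * n) ^ 2 + 4 * (n : ℂ) * (1 - 2 * m - 2 * n) +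
    4 * (n : ℂ) ^ 2 * (zt ^ 2 + 1)) * zt_sq

private theorem Xi4_em (x : 𝓞 K) : B.valuation (em x) ≤ 1 := by
  rw [ValuationSubring.valuation_le_one_iff]
  obtain ⟨m, n, rfl⟩ := exists_coords4 x
  rw [em_add, em_mul, em_intCast, em_intCast, em_iO']
  have hz : zt ∈ B := by
    rw [← ValuationSubring.valuation_le_one_iff, v_zt]
  exact B.add_mem _ _ (intCast_mem B m) (B.mul_mem _ _ (intCast_mem B n) hz)

private theorem Xi4_em_lam : em lam = lm := by
  rw [lam, em_add, em_one, em_iO', lm]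

/-- **the sum over the points of `E[q]`** -/
theorem v_sum_xi (hB : (2 : ℂ)⁻¹ ∉ B) (q : Pg) {ι : Type*} [Fintype ι] {τ : ι → ℂ}
    (h1 : ∀ i, em q.1 * τ i ∈ PP.lattice)
    (h2 : ∀ x, em q.1 * x ∈ PP.lattice → ∃! i, x - τ i ∈ PP.lattice)
    (hcard : Fintype.card ι = Nz q.1) {z : ℂ} (hz : Od (em q.1 * z)) :
    B.valuation (∑ i, xi (z + τ i) - xi (em q.1 * z)) < 1 := by
  obtain ⟨m, n, -, hmn⟩ := em_sq_sub q
  obtain ⟨t, ht⟩ := q.2.2
  have e4 : em q.1 - 1 = lm ^ 3 * em t := by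
    have h4 := congrArg em ht
    rw [em_sub, em_one, em_mul, em_pow, Xi4_em_lam] at h4
    exact h4
  have e6 : ∑ i, xi (z + τ i) - xi (em q.1 * z) =
      lm ^ 3 * (em t * (em q.1 + 1) * xi (em q.1 * z)) + 2 * (((m : ℂ) - n) * zt * em q.1) := by
    rw [sum_xi q h1 h2 hcard hz.notMem, hmn]
    linear_combination ((em q.1 + 1) * xi (em q.1 * z)) * e4
  rw [e6]
  have hx := xi_le hB hz
  have hq1 := Xi4_em (B := B) q.1
  refine Valuation.map_add_lt _ ?_ ?_
  · rw [map_mul, map_pow]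
    refine mul_lt_one_of_lt_of_le (pow_lt_one₀ zero_le (v_lm_lt hB) three_ne_zero) ?_
    rw [map_mul, map_mul]
    refine mul_le_one' (mul_le_one' (Xi4_em t) ?_) hx
    exact (Valuation.map_add _ _ _).trans (max_le hq1 (map_one _).le)
  · rw [map_mul, map_mul, map_mul, v_zt, mul_one]
    refine mul_lt_one_of_lt_of_le (two_lt hB) (mul_le_one' ?_ hq1)
    exact (Valuation.map_sub _ _ _).trans (max_le (v_int m) (v_int n))

/-- the sum over the points of `E[q]`, second version -/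
theorem v_sum_xi4 (hB : (2 : ℂ)⁻¹ ∉ B) (q : Pg) {ι : Type*} [Fintype ι] {τ : ι → ℂ}
    (h1 : ∀ i, em q.1 * τ i ∈ PP.lattice)
    (h2 : ∀ x, em q.1 * x ∈ PP.lattice → ∃! i, x - τ i ∈ PP.lattice)
    (hcard : Fintype.card ι = Nz q.1) {z : ℂ} (hz : Od (em q.1 * z)) :
    B.valuation (∑ i, xi4 (z + τ i) - xi4 (em q.1 * z)) < 1 := by
  have h := v_sum_xi hB q h1 h2 hcard hz
  have e : ∑ i, xi4 (z + τ i) - xi4 (em q.1 * z) = rh * (∑ i, xi (z + τ i) - xi (em q.1 * z)) := by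
    rw [mul_sub, Finset.mul_sum, xi4_eq (em q.1 * z)]
    congr 1
    exact Finset.sum_congr rfl fun i _ => xi4_eq _
  rw [e, map_mul, v_rh hB, one_mul]
  exact h

end

end

end Pool.Agent.Lib.MP_1a91b9_ntQ
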