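import Pool.Agent.Lib.MP_1a91b9_ntQ.A.Loc2
import Pool.Agent.Lib.MP_1a91b9_ntQ.A.Xi4

/-!
# Quartic twists, part A, class (E), file CgE: congruences modulo the maximal ideal of a place above `2`

`Cg B x y`: `x` and `y` are in `B` and congruent modulo the maximal ideal. `wq` is a fourth root of `lm`.
-/

set_option autoImplicit false
set_option linter.unusedSectionVars false

namespace Pool.Agent.Lib.MP_1a91b9_ntQ

open NumberField Pool.Agent.Lib.MP_1a91b9_nuT Pool.Agent.Lib.MP_1a91b9_nuT.S3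
  Pool.Agent.Lib.MP_1a91b9_nuT.Ell

noncomputable section

/-- `x` and `y` are in `B` and congruent modulo the maximal ideal -/
def Cg (B : ValuationSubring ℂ) (x y : ℂ) : Prop :=
  B.valuation x ≤ 1 ∧ B.valuation y ≤ 1 ∧ B.valuation (x - y) < 1

variable {B : ValuationSubring ℂ}

theorem Cg.refl {x : ℂ} (h : B.valuation x ≤ 1) : Cg B x x := ⟨h, h, by
  rw [sub_self, map_zero]
  exact zero_lt_one⟩

theorem Cg.le {x y : ℂ} (h : Cg B x y) : B.valuation x ≤ 1 := h.1

theorem Cg.le' {x y : ℂ} (h : Cg B x y) : B.valuation y ≤ 1 := h.2.1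

theorem Cg.lt {x y : ℂ} (h : Cg B x y) : B.valuation (x - y) < 1 := h.2.2

theorem Cg.symm {x y : ℂ} (h : Cg B x y) : Cg B y x := ⟨h.2.1, h.1, by
  rw [Valuation.map_sub_swap]
  exact h.2.2⟩

theorem Cg.trans {x y z : ℂ} (h : Cg B x y) (h' : Cg B y z) : Cg B x z := ⟨h.1, h'.2.1, by
  have e : x - z = (x - y) + (y - z) := by ring
  rw [e]
  exact Valuation.map_add_lt _ h.2.2 h'.2.2⟩

theorem v_add_le {x y : ℂ} (hx : B.valuation x ≤ 1) (hy : B.valuation y ≤ 1) :
    B.valuation (x + y) ≤ 1 := (Valuation.map_add _ _ _).trans (max_le hx hy)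

theorem v_sub_le {x y : ℂ} (hx : B.valuation x ≤ 1) (hy : B.valuation y ≤ 1) :
    B.valuation (x - y) ≤ 1 := (Valuation.map_sub _ _ _).trans (max_le hx hy)

theorem v_mul_le {x y : ℂ} (hx : B.valuation x ≤ 1) (hy : B.valuation y ≤ 1) :
    B.valuation (x * y) ≤ 1 := by
  rw [map_mul]
  exact mul_le_one' hx hy

theorem v_mul_lt {x y : ℂ} (hx : B.valuation x < 1) (hy : B.valuation y ≤ 1) :
    B.valuation (x * y) < 1 := by
  rw [map_mul]
  exact mul_lt_one_of_lt_of_le hx hy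

theorem v_mul_lt' {x y : ℂ} (hx : B.valuation x ≤ 1) (hy : B.valuation y < 1) :
    B.valuation (x * y) < 1 := by
  rw [mul_comm]
  exact v_mul_lt hy hx

theorem v_pow_le {x : ℂ} (hx : B.valuation x ≤ 1) (n : ℕ) : B.valuation (x ^ n) ≤ 1 := by
  rw [map_pow]
  exact pow_le_one₀ zero_le hx

theorem v_neg_le {x : ℂ} (hx : B.valuation x ≤ 1) : B.valuation (-x) ≤ 1 := by
  rwa [Valuation.map_neg]

theorem v_add_lt {x y : ℂ} (hx : B.valuation x < 1) (hy : B.valuation y < 1) :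
    B.valuation (x + y) < 1 := Valuation.map_add_lt _ hx hy

theorem Cg.add {x y x' y' : ℂ} (h : Cg B x y) (h' : Cg B x' y') : Cg B (x + x') (y + y') :=
  ⟨v_add_le h.1 h'.1, v_add_le h.2.1 h'.2.1, by
    have e : x + x' - (y + y') = (x - y) + (x' - y') := by ring
    rw [e]
    exact Valuation.map_add_lt _ h.2.2 h'.2.2⟩

theorem Cg.neg {x y : ℂ} (h : Cg B x y) : Cg B (-x) (-y) :=
  ⟨v_neg_le h.1, v_neg_le h.2.1, by
    have e : -x - -y = -(x - y) := by ring
    rw [e, Valuation.map_neg]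
    exact h.2.2⟩

theorem Cg.sub {x y x' y' : ℂ} (h : Cg B x y) (h' : Cg B x' y') : Cg B (x - x') (y - y') := by
  rw [sub_eq_add_neg, sub_eq_add_neg]
  exact h.add h'.neg

theorem Cg.mul {x y x' y' : ℂ} (h : Cg B x y) (h' : Cg B x' y') : Cg B (x * x') (y * y') :=
  ⟨v_mul_le h.1 h'.1, v_mul_le h.2.1 h'.2.1, by
    have e : x * x' - y * y' = (x - y) * x' + (x' - y') * y := by ring
    rw [e]
    exact Valuation.map_add_lt _ (v_mul_lt h.2.2 h'.1) (v_mul_lt h'.2.2 h.2.1)⟩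

theorem Cg.pow {x y : ℂ} (h : Cg B x y) (n : ℕ) : Cg B (x ^ n) (y ^ n) := by
  induction n with
  | zero =>
    rw [pow_zero, pow_zero]
    exact Cg.refl (map_one _).le
  | succ n ih =>
    rw [pow_succ, pow_succ]
    exact ih.mul h

theorem Cg.of_lt {x : ℂ} (h : B.valuation x < 1) : Cg B x 0 :=
  ⟨h.le, by rw [map_zero]; exact zero_le, by rwa [sub_zero]⟩

theorem Cg.lt0 {x : ℂ} (h : Cg B x 0) : B.valuation x < 1 := by
  have := h.2.2
  rwa [sub_zero] at this

theorem Cg.of_sub_lt {x y : ℂ} (hy : B.valuation y ≤ 1) (h : B.valuation (x - y) < 1) :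
    Cg B x y := ⟨by
  have e : x = (x - y) + y := by ring
  rw [e]
  exact v_add_le h.le hy, hy, h⟩

/-- adding an element of the maximal ideal -/
theorem Cg.add_lt {x y z : ℂ} (h : Cg B x y) (hz : B.valuation z < 1) : Cg B (x + z) y := by
  have := h.add (Cg.of_lt hz)
  rwa [add_zero] at this

theorem v_le_of_pow {x : ℂ} {n : ℕ} (hn : n ≠ 0) (h : B.valuation (x ^ n) ≤ 1) :
    B.valuation x ≤ 1 := by
  rw [map_pow] at h
  exact (pow_le_one_iff_of_nonneg zero_le hn).1 h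

theorem v_lt_of_pow {x : ℂ} {n : ℕ} (h : B.valuation (x ^ n) < 1) : B.valuation x < 1 := by
  rw [map_pow] at h
  by_contra h2
  push Not at h2
  exact absurd h (not_lt.2 (one_le_pow₀ h2))

/-- the Frobenius map is injective -/
theorem Cg.of_sq (hB : (2 : ℂ)⁻¹ ∉ B) {x y : ℂ} (hy : B.valuation y ≤ 1) (h : Cg B (x ^ 2) (y ^ 2)) :
    Cg B x y := by
  have hx : B.valuation x ≤ 1 := v_le_of_pow two_ne_zero h.1
  refine ⟨hx, hy, v_lt_of_pow (n := 2) ?_⟩
  have e : (x - y) ^ 2 = (x ^ 2 - y ^ 2) + 2 * (y * (y - x)) := by ring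
  rw [e]
  exact v_add_lt h.lt (v_mul_lt (two_lt hB) (v_mul_le hy (v_sub_le hy hx)))

/-- the root of a quadratic equation with a small linear coefficient -/
theorem Cg.quad {x a b c : ℂ} (h : x ^ 2 = a + b * x) (hb : B.valuation b < 1) (ha : Cg B a c) :
    Cg B (x ^ 2) c := by
  have hx : B.valuation x ≤ 1 := by
    by_contra h1
    push Not at h1
    have h2 : B.valuation (x ^ 2) ≤ B.valuation x := by
      rw [h]
      refine (Valuation.map_add _ _ _).trans (max_le (ha.1.trans h1.le) ?_)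
      rw [map_mul]
      exact mul_le_of_le_one_left zero_le hb.le
    rw [map_pow, pow_two] at h2
    have h3 : B.valuation x * 1 < B.valuation x * B.valuation x :=
      mul_lt_mul_of_pos_left h1 (zero_lt_one.trans h1)
    rw [mul_one] at h3
    exact absurd h2 (not_le.2 h3)
  rw [h]
  exact ha.add_lt (v_mul_lt hb hx)

/-- the root of a quadratic equation is integral -/
theorem v_le_quad {x a b : ℂ} (h : x ^ 2 = a + b * x) (hb : B.valuation b ≤ 1)
    (ha : B.valuation a ≤ 1) : B.valuation x ≤ 1 := by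
  by_contra h1
  push Not at h1
  have h2 : B.valuation (x ^ 2) ≤ B.valuation x := by
    rw [h]
    refine (Valuation.map_add _ _ _).trans (max_le (ha.trans h1.le) ?_)
    rw [map_mul]
    exact mul_le_of_le_one_left zero_le hb
  rw [map_pow, pow_two] at h2
  have h3 : B.valuation x * 1 < B.valuation x * B.valuation x :=
    mul_lt_mul_of_pos_left h1 (zero_lt_one.trans h1)
  rw [mul_one] at h3
  exact absurd h2 (not_le.2 h3)

theorem Cg.unit {x : ℂ} (h : Cg B x 1) : B.valuation x = 1 := by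
  have e : x = 1 + (x - 1) := by ring
  rw [e, Valuation.map_add_eq_of_lt_left, map_one]
  rw [map_one]
  exact h.lt

theorem Cg.inv {x : ℂ} (h : Cg B x 1) : Cg B x⁻¹ 1 := by
  have h1 := h.unit
  have hx : x ≠ 0 := by
    rintro rfl
    rw [map_zero] at h1
    exact zero_ne_one h1
  refine ⟨by rw [map_inv₀, h1, inv_one], (map_one _).le, ?_⟩
  have e : x⁻¹ - 1 = x⁻¹ * -(x - 1) := by
    field_simp
    ring
  rw [e, map_mul, map_inv₀, h1, inv_one, one_mul, Valuation.map_neg]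
  exact h.lt

section
variable [CD] [hq : Q4]

/-- a fourth root of `lm` -/
def wq : ℂ := lm ^ (((4 : ℕ) : ℂ)⁻¹)

theorem wq_pow : wq ^ 4 = lm := Complex.cpow_nat_inv_pow _ (by norm_num)

theorem wq_ne : wq ≠ 0 := by
  intro h
  have h1 := wq_pow (hq := hq)
  rw [h, zero_pow (by norm_num)] at h1
  exact lm_ne h1.symm

theorem v_wq_lt (hB : (2 : ℂ)⁻¹ ∉ B) : B.valuation wq < 1 := by
  refine v_lt_of_pow (n := 4) ?_
  rw [wq_pow]
  exact v_lm_lt hB

theorem v_wq_pow_lt (hB : (2 : ℂ)⁻¹ ∉ B) {n : ℕ} (hn : n ≠ 0) : B.valuation (wq ^ n) < 1 := by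
  rw [map_pow]
  exact pow_lt_one₀ zero_le (v_wq_lt hB) hn

/-- the relations between the constants -/
theorem two_wq : (2 : ℂ) = wq ^ 8 * -zt := by
  have h := lm_sq (hq := hq)
  have h1 : wq ^ 8 = lm ^ 2 := by
    rw [← wq_pow]
    ring
  rw [h1, h]
  linear_combination 2 * zt_sq

theorem Cg_zt (hB : (2 : ℂ)⁻¹ ∉ B) : Cg B zt 1 := by
  refine Cg.of_sub_lt (map_one _).le ?_
  rw [Valuation.map_sub_swap]
  exact v_one_zt hB

theorem Cg_neg_one (hB : (2 : ℂ)⁻¹ ∉ B) : Cg B (-1) 1 := by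
  refine Cg.of_sub_lt (map_one _).le ?_
  have e : (-1 : ℂ) - 1 = -2 := by norm_num
  rw [e, Valuation.map_neg]
  exact two_lt hB

theorem Cg_neg_zt (hB : (2 : ℂ)⁻¹ ∉ B) : Cg B (-zt) 1 := by
  have := (Cg_neg_one hB).mul (Cg_zt hB)
  rwa [neg_one_mul, one_mul] at this

theorem Cg_of_sq_neg_one (hB : (2 : ℂ)⁻¹ ∉ B) {i : ℂ} (h : i ^ 2 = -1) : Cg B i 1 := by
  refine Cg.of_sq hB (map_one _).le ?_
  rw [h, one_pow]
  exact Cg_neg_one hB

/-- a square root of `2` divided by `lm` -/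
theorem Cg_s (hB : (2 : ℂ)⁻¹ ∉ B) {s : ℂ} (hs : s ^ 2 = 2) : Cg B (s / lm) 1 := by
  refine Cg.of_sq hB (map_one _).le ?_
  have e : (s / lm) ^ 2 = -zt := by
    rw [div_pow, hs, lm_sq, div_eq_iff (mul_ne_zero two_ne_zero zt_ne0)]
    linear_combination 2 * zt_sq
  rw [e, one_pow]
  exact Cg_neg_zt hB

end

end

end Pool.Agent.Lib.MP_1a91b9_ntQ
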