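import Pool.Agent.Lib.MP_1a91b9_ntQ.A.MoB

/-!
# Quartic twists, part A, file ClmB: the residues of the values with primes of exponent two, `k` odd

`La T A` is the value of the set `T` of primes of odd exponent and the set `A` of primes of exponent
two, `x T b` the value of the character of `T` at the prime `b`, `em b - x T b ∏ (a ∈ A) sgz (s b a)`
the factor.
-/

set_option autoImplicit false
set_option linter.unusedSectionVars false

namespace Pool.Agent.Lib.MP_1a91b9_ntQ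

open Finset MvPolynomial
open Pool.Agent.Lib.MP_1a91b9_ntK (NM NM_congr NM_empty NM_adj NM_update NM_zero forest
  CZ CZ_eq forest_zero)

noncomputable section

variable {ι : Type*} [DecidableEq ι]

theorem Rt.inv_one {B : ValuationSubring ℂ} {z : ℂ} (h : Rt B z 1) : Rt B z⁻¹ 1 := by
  have h1 := h.unit one_ne_zero
  have h0 := h.ne_zero one_ne_zero
  unfold Rt at h ⊢
  rw [ZMod.val_one, Nat.cast_one] at h ⊢
  have e : z⁻¹ - 1 = -((z - 1) * z⁻¹) := by
    field_simp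
    ring
  rw [e, Valuation.map_neg, map_mul, map_inv₀, h1, _root_.inv_one, mul_one]
  exact h

/-- the factor of the prime `b` -/
def fcB (e : ι → ℂ) (x : Finset ι → ι → ℂ) (s : ι → ι → ZMod 2) (T A : Finset ι) (b : ι) : ℂ :=
  e b - x T b * ∏ a ∈ A, sgz (s b a)

/-- the level function -/
def lvB (La : Finset ι → Finset ι → ℂ) (e : ι → ℂ) (x : Finset ι → ι → ℂ) (s : ι → ι → ZMod 2)
    (T C A : Finset ι) : ℂ :=
  La T A * ∏ b ∈ C \ A, fcB e x s T A b

/-- the data -/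
structure SyB (B : ValuationSubring ℂ) (l K : ℂ) (La : Finset ι → Finset ι → ℂ) (e : ι → ℂ)
    (x : Finset ι → ι → ℂ) (s : ι → ι → ZMod 2) (κ : ι → ZMod 2) (S0 B0 : Finset ι) : Prop where
  hB : (2 : ℂ)⁻¹ ∉ B
  hl : Rt B l 0
  hl0 : l ≠ 0
  hu : Rt B (2 / l ^ 2) 1
  dis : Disjoint S0 B0
  fac : ∀ T ⊆ S0, ∀ b ∈ (S0 ∪ B0) \ T, Rt B ((e b - x T b) / l) (κ b + ∑ p ∈ T, s b p)
  one : ∀ T ⊆ S0, ∀ b ∈ (S0 ∪ B0) \ T, Rt B (x T b) 1

section
variable {B : ValuationSubring ℂ} {l K : ℂ} {La : Finset ι → Finset ι → ℂ} {e : ι → ℂ}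
  {x : Finset ι → ι → ℂ} {s : ι → ι → ZMod 2} {κ : ι → ZMod 2} {S0 B0 : Finset ι}

theorem SyB.h2 (h : SyB B l K La e x s κ S0 B0) : Rt B (2 / l) 0 := by
  have h1 := h.hl.mul h.hB h.hu
  have e1 : l * (2 / l ^ 2) = 2 / l := by
    have := h.hl0
    field_simp
  rwa [e1, zero_mul] at h1

theorem SyB.h20 (h : SyB B l K La e x s κ S0 B0) : (2 : ℂ) / l ≠ 0 :=
  div_ne_zero two_ne_zero h.hl0

/-- the weight polynomial of a prime -/
theorem SyB.weight (h : SyB B l K La e x s κ S0 B0) {T C : Finset ι} (hT : T ⊆ S0) {b : ι}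
    (hb : b ∈ (S0 ∪ B0) \ T) :
    RB B (2 / l) C (fun A => fcB e x s T A b / l) (wE s κ T C b) :=
  RB.weight h.hB h.hl0 h.hl (h.fac T hT b hb) (h.one T hT b hb) (s b) C

theorem lvB_erase (La : Finset ι → Finset ι → ℂ) (e : ι → ℂ) (x : Finset ι → ι → ℂ)
    (s : ι → ι → ZMod 2) (T : Finset ι) {C A : Finset ι} {b : ι} (hb : b ∈ C) (hA : b ∉ A) :
    lvB La e x s T C A = lvB La e x s T (C.erase b) A * fcB e x s T A b := by
  rw [lvB, lvB, erase_sdiff_comm, mul_assoc, prod_erase_mul _ _ (mem_sdiff.2 ⟨hb, hA⟩)]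

/-- the induction step, `E` a proper subset -/
theorem SyB.step (h : SyB B l K La e x s κ S0 B0) {n : ℕ} {P Q : MvPolynomial ι (ZMod 2)}
    {T C E : Finset ι}
    (hT : T ⊆ S0) (hC : C ⊆ B0) {b : ι} (hb : b ∈ C) (hE : E ⊆ C) (hbE : b ∉ E)
    (ih : RB B (2 / l) (C.erase b)
      (fun A => lvB La e x s T (C.erase b) A / (K * l ^ (T.card + (C.erase b).card + n))) P)
    (hP : cf Q E = cf (wE s κ T (C.erase b) b * P) E) :
    Rt B (mo (fun A => lvB La e x s T C A / (K * l ^ (T.card + C.card + n))) E /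
      (2 / l) ^ E.card) (cf Q E) := by
  have hb0 : b ∈ (S0 ∪ B0) \ T := mem_sdiff.2 ⟨mem_union_right _ (hC hb), fun hbT =>
    disjoint_left.1 h.dis (hT hbT) (hC hb)⟩
  have hEC : E ⊆ C.erase b := fun y hy => mem_erase.2 ⟨fun h' => hbE (h' ▸ hy), hE hy⟩
  have h1 := (RB.mul h.hB h.h2 h.h20 (h.weight (C := C.erase b) hT hb0) ih) E hEC
  rw [hP]
  have h2 : mo (fun A => lvB La e x s T C A / (K * l ^ (T.card + C.card + n))) E =
      mo (fun A => fcB e x s T A b / l *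
        (lvB La e x s T (C.erase b) A / (K * l ^ (T.card + (C.erase b).card + n)))) E := by
    refine mo_congr fun A hA => ?_
    rw [lvB_erase La e x s T hb fun h' => hbE (hA h'), div_mul_div_comm, mul_comm (fcB e x s T A b)]
    congr 1
    have hc := card_erase_add_one hb
    have e1 : T.card + C.card + n = (T.card + (C.erase b).card + n) + 1 := by omega
    rw [e1, pow_succ]
    ring
  rw [h2]
  exact h1

/-- the total identity -/
def idB (l K : ℂ) (La : Finset ι → Finset ι → ℂ) (e : ι → ℂ) (x : Finset ι → ι → ℂ)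
    (s : ι → ι → ZMod 2) (n : ℕ) (T C : Finset ι) : ℂ :=
  (∑ T' ∈ T.powerset, (-1) ^ T'.card * ∑ A ∈ C.powerset, (-1) ^ A.card *
    (La T' A * ∏ b ∈ (T \ T') ∪ (C \ A), fcB e x s T' A b)) / (K * l ^ (T.card + 2 * C.card + n))

/-- the function of the subset `T'` -/
def gcB (l K : ℂ) (La : Finset ι → Finset ι → ℂ) (e : ι → ℂ) (x : Finset ι → ι → ℂ)
    (s : ι → ι → ZMod 2) (n : ℕ) (T C T' A : Finset ι) : ℂ :=
  lvB La e x s T' C A / (K * l ^ (T'.card + C.card + n)) * ∏ b ∈ T \ T', (fcB e x s T' A b / l)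

theorem idB_eq (h : SyB B l K La e x s κ S0 B0) (n : ℕ) {T C : Finset ι} (hT : T ⊆ S0)
    (hC : C ⊆ B0) :
    idB l K La e x s n T C = (-1) ^ C.card * (2 / l ^ 2) ^ C.card *
      ∑ T' ∈ T.powerset, (-1) ^ T'.card *
        (mo (gcB l K La e x s n T C T') C / (2 / l) ^ C.card) := by
  have hl0 := h.hl0
  rw [idB, sum_div, mul_sum]
  refine sum_congr rfl fun T' hT' => ?_
  rw [mem_powerset] at hT'
  have hlc : (2 : ℂ) / l ≠ 0 := h.h20
  have e0 : (2 / l ^ 2) ^ C.card / (2 / l) ^ C.card = 1 / l ^ C.card := by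
    rw [← div_pow, ← one_div_pow]
    congr 1
    field_simp
  have key : ∀ A ∈ C.powerset, (-1) ^ A.card * (La T' A * ∏ b ∈ (T \ T') ∪ (C \ A),
      fcB e x s T' A b) / (K * l ^ (T.card + 2 * C.card + n)) =
      (-1) ^ C.card * (1 / l ^ C.card) * ((-1) ^ (C \ A).card * gcB l K La e x s n T C T' A) := by
    intro A hA
    rw [mem_powerset] at hA
    have hd : Disjoint (T \ T') (C \ A) := disjoint_of_subset_left (sdiff_subset.trans hT)
      (disjoint_of_subset_right (sdiff_subset.trans hC) h.dis)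
    rw [prod_union hd, gcB, lvB, prod_div_distrib, prod_const]
    have hc1 : (T \ T').card + T'.card = T.card := card_sdiff_add_card_eq_card hT'
    have hc2 : (C \ A).card + A.card = C.card := card_sdiff_add_card_eq_card hA
    have e2 : (-1 : ℂ) ^ A.card = (-1) ^ C.card * (-1) ^ (C \ A).card := by
      rw [← hc2, pow_add]
      have : ((-1 : ℂ) ^ (C \ A).card) * (-1) ^ (C \ A).card = 1 := by
        rw [← mul_pow]
        simp
      linear_combination (-(-1 : ℂ) ^ A.card) * this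
    have e1 : T.card + 2 * C.card + n = (T'.card + C.card + n) + (T \ T').card + C.card := by
      omega
    rw [e1, pow_add, pow_add, e2]
    have h1 : l ^ (T'.card + C.card + n) ≠ 0 := pow_ne_zero _ hl0
    have h2 : l ^ (T \ T').card ≠ 0 := pow_ne_zero _ hl0
    have h3 : l ^ C.card ≠ 0 := pow_ne_zero _ hl0
    by_cases hK : K = 0
    · rw [hK]
      simp
    · field_simp
  rw [mul_div_assoc, sum_div, sum_congr rfl key, ← mul_sum, ← mo]
  have e3 : (-1) ^ C.card * (2 / l ^ 2) ^ C.card * ((-1) ^ T'.card *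
      (mo (gcB l K La e x s n T C T') C / (2 / l) ^ C.card)) =
      (-1) ^ T'.card * ((-1) ^ C.card * ((2 / l ^ 2) ^ C.card / (2 / l) ^ C.card) *
        mo (gcB l K La e x s n T C T') C) := by ring
  rw [e3, e0]

/-- the classes of the functions of the proper subsets -/
theorem SyB.rbG (h : SyB B l K La e x s κ S0 B0) {n : ℕ} {P : MvPolynomial ι (ZMod 2)}
    {T C T' : Finset ι} (hT : T ⊆ S0) (hT' : T' ⊆ T)
    (ih : RB B (2 / l) C (fun A => lvB La e x s T' C A / (K * l ^ (T'.card + C.card + n))) P) :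
    RB B (2 / l) C (gcB l K La e x s n T C T') (P * ∏ b ∈ T \ T', wE s κ T' C b) := by
  refine RB.mul h.hB h.h2 h.h20 ih (RB.prod h.hB h.h2 h.h20 _ fun b hb => ?_)
  rw [mem_sdiff] at hb
  exact h.weight (hT'.trans hT) (mem_sdiff.2 ⟨mem_union_left _ (hT hb.1), hb.2⟩)

theorem Rt_sgn' (hB : (2 : ℂ)⁻¹ ∉ B) (n : ℕ) : Rt B ((-1) ^ n) 1 := by
  have h := ((Rt.one (B := B)).neg hB).pow hB n
  rwa [one_pow] at h

/-- the case `E = C`: from the total identity -/
theorem SyB.top (h : SyB B l K La e x s κ S0 B0) {n : ℕ} {P : Finset ι → MvPolynomial ι (ZMod 2)}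
    {T C : Finset ι} (hT : T ⊆ S0) (hC : C ⊆ B0)
    (ih : ∀ T' ⊆ T, T' ≠ T → RB B (2 / l) C
      (fun A => lvB La e x s T' C A / (K * l ^ (T'.card + C.card + n))) (P T'))
    {R : ZMod 2} (hP : ∑ T' ∈ T.powerset, cf (P T' * ∏ b ∈ T \ T', wE s κ T' C b) C = R)
    (hid : Rt B (idB l K La e x s n T C) R) :
    Rt B (mo (fun A => lvB La e x s T C A / (K * l ^ (T.card + C.card + n))) C /
      (2 / l) ^ C.card) (cf (P T) C) := by
  have hl0 := h.hl0
  have h1 : Rt B (∑ T' ∈ T.powerset.erase T, (-1) ^ T'.card *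
      (mo (Pool.Agent.Lib.MP_1a91b9_ntQ.gcB l K La e x s n T C T') C / (2 / l) ^ C.card))
      (∑ T' ∈ T.powerset.erase T, cf (P T' * ∏ b ∈ T \ T', wE s κ T' C b) C) := by
    refine Rt.sum h.hB _ fun T' hT' => ?_
    rw [mem_erase, mem_powerset] at hT'
    have h2 := (Rt_sgn' h.hB T'.card).mul h.hB
      (h.rbG hT hT'.2 (ih T' hT'.2 hT'.1) C subset_rfl)
    rwa [one_mul] at h2
  have hinv : Rt B (((2 / l ^ 2) ^ C.card)⁻¹) 1 := by
    have h2 := h.hu.pow h.hB C.card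
    rw [one_pow] at h2
    exact h2.inv_one
  have hu0 : (2 / l ^ 2) ^ C.card ≠ 0 := pow_ne_zero _ (div_ne_zero two_ne_zero (pow_ne_zero _ hl0))
  have hsC : ((-1 : ℂ) ^ C.card) * (-1) ^ C.card = 1 := by
    rw [← mul_pow]
    simp
  have hsT : ((-1 : ℂ) ^ T.card) * (-1) ^ T.card = 1 := by
    rw [← mul_pow]
    simp
  -- the sum over all subsets
  have h3 : Rt B (∑ T' ∈ T.powerset, (-1) ^ T'.card *
      (mo (Pool.Agent.Lib.MP_1a91b9_ntQ.gcB l K La e x s n T C T') C / (2 / l) ^ C.card)) R := by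
    have h4 := ((Rt_sgn' h.hB C.card).mul h.hB hinv).mul h.hB hid
    rw [idB_eq h n hT hC, one_mul, one_mul] at h4
    have e1 : (-1) ^ C.card * ((2 / l ^ 2) ^ C.card)⁻¹ * ((-1) ^ C.card * (2 / l ^ 2) ^ C.card *
        ∑ T' ∈ T.powerset, (-1) ^ T'.card *
        (mo (Pool.Agent.Lib.MP_1a91b9_ntQ.gcB l K La e x s n T C T') C / (2 / l) ^ C.card)) =
        ∑ T' ∈ T.powerset, (-1) ^ T'.card *
        (mo (Pool.Agent.Lib.MP_1a91b9_ntQ.gcB l K La e x s n T C T') C / (2 / l) ^ C.card) := by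
      calc _ = ((-1 : ℂ) ^ C.card * (-1) ^ C.card) *
          (((2 / l ^ 2) ^ C.card)⁻¹ * (2 / l ^ 2) ^ C.card) * ∑ T' ∈ T.powerset, (-1) ^ T'.card *
        (mo (Pool.Agent.Lib.MP_1a91b9_ntQ.gcB l K La e x s n T C T') C / (2 / l) ^ C.card) := by
            ring
        _ = _ := by rw [hsC, inv_mul_cancel₀ hu0, one_mul, one_mul]
    rwa [e1] at h4
  rw [← add_sum_erase _ _ (mem_powerset_self T)] at h3
  have h5 := (Rt_sgn' h.hB T.card).mul h.hB (h3.sub h.hB h1)
  rw [add_sub_cancel_right, ← mul_assoc, hsT, one_mul, one_mul] at h5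
  have h6 : mo (Pool.Agent.Lib.MP_1a91b9_ntQ.gcB l K La e x s n T C T) C =
      mo (fun A => lvB La e x s T C A / (K * l ^ (T.card + C.card + n))) C := by
    refine mo_congr fun A _ => ?_
    rw [Pool.Agent.Lib.MP_1a91b9_ntQ.gcB, Finset.sdiff_self, prod_empty, mul_one]
  rw [h6] at h5
  rw [← add_sum_erase _ _ (mem_powerset_self T), Finset.sdiff_self, prod_empty, mul_one] at hP
  rw [← hP, add_sub_cancel_right] at h5
  exact h5

/-- **The residues of the level functions, general form.** `P` is the family of the residue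
polynomials, `R` the right side of the identity. -/
theorem SyB.claim (h : SyB B l K La e x s κ S0 B0) {n : ℕ}
    {P : Finset ι → Finset ι → MvPolynomial ι (ZMod 2)} {R : Finset ι → ZMod 2}
    (h0 : Rt B (La ∅ ∅ / (K * l ^ n)) (cf (P ∅ ∅) ∅))
    (hP1 : ∀ T ⊆ S0, ∀ C ⊆ B0, ∀ b ∈ C, ∀ E : Finset ι, b ∉ E →
      cf (P T C) E = cf (wE s κ T (C.erase b) b * P T (C.erase b)) E)
    (hP2 : ∀ T ⊆ S0, ∀ C ⊆ B0, (T ∪ C).Nonempty →
      ∑ T' ∈ T.powerset, cf (P T' C * ∏ b ∈ T \ T', wE s κ T' C b) C = R (T ∪ C))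
    (hid : ∀ T ⊆ S0, ∀ C ⊆ B0, (T ∪ C).Nonempty → Rt B (idB l K La e x s n T C) (R (T ∪ C))) :
    ∀ m : ℕ, ∀ T ⊆ S0, ∀ C ⊆ B0, T.card + C.card = m → RB B (2 / l) C
      (fun A => lvB La e x s T C A / (K * l ^ (T.card + C.card + n))) (P T C) := by
  intro m
  induction m using Nat.strong_induction_on with
  | _ m ih =>
  intro T hT C hC hm E hE
  by_cases hEC : E = C
  · subst hEC
    by_cases h1 : (T ∪ E).Nonempty
    · refine h.top hT hC (P := fun T' => P T' E) ?_ (hP2 T hT E hC h1) (hid T hT E hC h1)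
      intro T' hT' hne
      refine ih (T'.card + E.card) ?_ T' (hT'.trans hT) E hC rfl
      have := card_lt_card (Finset.ssubset_iff_subset_ne.2 ⟨hT', hne⟩)
      omega
    · rw [not_nonempty_iff_eq_empty, union_eq_empty] at h1
      obtain ⟨rfl, rfl⟩ := h1
      rw [mo_empty, lvB, Finset.sdiff_self, prod_empty, card_empty, add_zero, zero_add, pow_zero,
        mul_one, div_one]
      exact h0
  · obtain ⟨b, hb, hbE⟩ := exists_of_ssubset (Finset.ssubset_iff_subset_ne.2 ⟨hE, hEC⟩)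
    refine h.step hT hC hb hE hbE (ih (T.card + (C.erase b).card) ?_ T hT (C.erase b)
      ((erase_subset _ _).trans hC) rfl) (hP1 T hT C hC b hb E hbE)
    have := card_erase_add_one hb
    omega

theorem DE_sum2 (s : ι → ι → ZMod 2) (κ : ι → ZMod 2) {T A : Finset ι}
    (hTA : Disjoint T A) (h0 : (T ∪ A).Nonempty) :
    ∑ T' ∈ T.powerset, cf (DE s κ T' A * ∏ x ∈ T \ T', wE s κ T' A x) A = 0 := by
  have h1 := DE_sum s κ hTA h0
  have h8 : ∀ n : ℕ, ((-1 : ZMod 2)) ^ n = 1 := by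
    intro n
    have : (-1 : ZMod 2) = 1 := by decide
    rw [this, one_pow]
  simp only [h8, one_mul] at h1
  exact h1

theorem DE_empty (s : ι → ι → ZMod 2) (κ : ι → ZMod 2) : DE s κ ∅ ∅ = 1 := by
  rw [DE, empty_union, NM_empty]

/-- **The residues of the level functions, the right side is zero.** -/
theorem SyB.claim_odd (h : SyB B l K La e x s κ S0 B0) (h0 : Rt B (La ∅ ∅ / K) 1)
    (hid : ∀ T ⊆ S0, ∀ C ⊆ B0, (T ∪ C).Nonempty → Rt B (idB l K La e x s 0 T C) 0) :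
    ∀ n : ℕ, ∀ T ⊆ S0, ∀ C ⊆ B0, T.card + C.card = n → RB B (2 / l) C
      (fun A => lvB La e x s T C A / (K * l ^ (T.card + C.card + 0))) (DE s κ T C) := by
  have hd : ∀ T ⊆ S0, ∀ C ⊆ B0, Disjoint T C := fun T hT C hC =>
    disjoint_of_subset_left hT (disjoint_of_subset_right hC h.dis)
  refine h.claim (R := fun _ => 0) ?_ (fun T hT C hC b hb E hE => DE_step s κ (hd T hT C hC) hb hE)
    (fun T hT C hC h1 => DE_sum2 s κ (hd T hT C hC) h1) hid
  rw [DE_empty, cf_one, if_pos rfl, pow_zero, mul_one]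
  exact h0

end

end

end Pool.Agent.Lib.MP_1a91b9_ntQ
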