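import Pool.Agent.Lib.MP_1a91b9_ntQ.A.FinB

/-!
# Quartic twists, part A, file ClmE: the residues of the values with primes of exponent two, `k` even

The values are divisible by a further power `l ^ n`, `1 ≤ n`, and `e b - x ∅ b` is `l ^ (1 + n) f b`.
`P T C` is the family of the residue polynomials, `R T C` the right side.
-/

set_option autoImplicit false
set_option linter.unusedSectionVars false

namespace Pool.Agent.Lib.MP_1a91b9_ntQ

open Finset MvPolynomial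
open Pool.Agent.Lib.MP_1a91b9_ntK (NM NM_congr NM_empty NM_adj NM_update NM_zero forest
  CZ CZ_eq forest_zero)

noncomputable section

variable {ι : Type*} [DecidableEq ι] {B : ValuationSubring ℂ} {l K : ℂ}
  {La : Finset ι → Finset ι → ℂ} {e : ι → ℂ}
  {x : Finset ι → ι → ℂ} {s : ι → ι → ZMod 2} {κ : ι → ZMod 2} {S0 B0 : Finset ι}

/-- the term of the empty set -/
theorem SyB.term_empty (h : SyB B l K La e x s κ S0 B0) {n : ℕ} (hn : 1 ≤ n) {f : ι → ZMod 2}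
    (h0 : Rt B (La ∅ ∅ / K) 1)
    (hf : ∀ b ∈ S0 ∪ B0, Rt B ((e b - x ∅ b) / l ^ (1 + n)) (f b)) {T : Finset ι} (hT : T ⊆ S0)
    (hT0 : T.Nonempty) :
    Rt B (mo (gcB l K La e x s n T ∅ ∅) ∅ / (2 / l) ^ (∅ : Finset ι).card)
      (if T.card = 1 then ∑ q ∈ T, f q else 0) := by
  have hl0 := h.hl0
  have hc := hT0.card_pos
  have h1 : Rt B (∏ b ∈ T, ((e b - x ∅ b) / l ^ (1 + n))) (∏ b ∈ T, f b) :=
    Rt.prod h.hB T fun b hb => hf b (mem_union_left _ (hT hb))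
  have e1 : mo (gcB l K La e x s n T ∅ ∅) ∅ / (2 / l) ^ (∅ : Finset ι).card =
      (La ∅ ∅ / K) * ((∏ b ∈ T, ((e b - x ∅ b) / l ^ (1 + n))) * l ^ (n * (T.card - 1))) := by
    rw [card_empty, pow_zero, div_one, mo_empty, gcB, lvB]
    simp only [Finset.sdiff_self, prod_empty, mul_one, card_empty, zero_add, sdiff_empty, fcB]
    rw [prod_div_distrib, prod_div_distrib, prod_const, prod_const, ← pow_mul]
    obtain ⟨m, hm⟩ : ∃ m, T.card = m + 1 := ⟨T.card - 1, by omega⟩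
    rw [hm, Nat.add_sub_cancel]
    have h2 : l ^ ((1 + n) * (m + 1)) = l ^ n * l ^ (m + 1) * l ^ (n * m) := by
      rw [← pow_add, ← pow_add]
      congr 1
      ring
    rw [h2]
    have h3 : l ^ n ≠ 0 := pow_ne_zero _ hl0
    have h4 : l ^ (m + 1) ≠ 0 := pow_ne_zero _ hl0
    have h5 : l ^ (n * m) ≠ 0 := pow_ne_zero _ hl0
    by_cases hK : K = 0
    · rw [hK]
      simp
    · field_simp
  rw [e1]
  split_ifs with h2
  · obtain ⟨q, rfl⟩ := card_eq_one.1 h2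
    rw [prod_singleton, prod_singleton] at h1
    rw [prod_singleton, sum_singleton, card_singleton, Nat.sub_self, mul_zero, pow_zero, mul_one]
    have h3 := h0.mul h.hB h1
    rwa [one_mul] at h3
  · have h3 : Rt B (l ^ (n * (T.card - 1))) 0 := by
      have h4 : 0 < n * (T.card - 1) := Nat.mul_pos (by omega) (by omega)
      have h5 := h.hl.pow h.hB (n * (T.card - 1))
      rwa [zero_pow h4.ne'] at h5
    have h4 := h0.mul h.hB (h1.mul h.hB h3)
    rwa [mul_zero, mul_zero] at h4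

/-- the case `C = ∅` -/
theorem SyB.top0 (h : SyB B l K La e x s κ S0 B0) {n : ℕ} {P : Finset ι → MvPolynomial ι (ZMod 2)}
    {T : Finset ι} (hT : T ⊆ S0) (hT0 : T.Nonempty)
    (ih : ∀ T' ⊆ T, T' ≠ T → T' ≠ ∅ → RB B (2 / l) ∅
      (fun A => lvB La e x s T' ∅ A / (K * l ^ (T'.card + (∅ : Finset ι).card + n))) (P T'))
    {y R : ZMod 2} (hy : Rt B (mo (gcB l K La e x s n T ∅ ∅) ∅ / (2 / l) ^ (∅ : Finset ι).card) y)
    (hP : ∑ T' ∈ T.powerset.erase ∅, cf (P T' * ∏ b ∈ T \ T', wE s κ T' ∅ b) ∅ + y = R)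
    (hid : Rt B (idB l K La e x s n T ∅) R) :
    Rt B (mo (fun A => lvB La e x s T ∅ A / (K * l ^ (T.card + (∅ : Finset ι).card + n))) ∅ /
      (2 / l) ^ (∅ : Finset ι).card) (cf (P T) ∅) := by
  have hsT : ((-1 : ℂ) ^ T.card) * (-1) ^ T.card = 1 := by
    rw [← mul_pow]
    simp
  have h1 : Rt B (∑ T' ∈ (T.powerset.erase ∅).erase T, (-1) ^ T'.card *
      (mo (gcB l K La e x s n T ∅ T') ∅ / (2 / l) ^ (∅ : Finset ι).card))
      (∑ T' ∈ (T.powerset.erase ∅).erase T, cf (P T' * ∏ b ∈ T \ T', wE s κ T' ∅ b) ∅) := by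
    refine Rt.sum h.hB _ fun T' hT' => ?_
    rw [mem_erase, mem_erase, mem_powerset] at hT'
    have h2 := (Rt_sgn' h.hB T'.card).mul h.hB
      (h.rbG hT hT'.2.2 (ih T' hT'.2.2 hT'.1 hT'.2.1) ∅ subset_rfl)
    rwa [one_mul] at h2
  have h3 := hid
  rw [idB_eq h n hT (empty_subset B0), card_empty, pow_zero, pow_zero, one_mul, one_mul,
    ← add_sum_erase _ _ (empty_mem_powerset T), card_empty, pow_zero, one_mul,
    ← add_sum_erase _ _ (mem_erase.2 ⟨hT0.ne_empty, mem_powerset_self T⟩)] at h3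
  rw [card_empty] at h1 hy
  have h5 := (Rt_sgn' h.hB T.card).mul h.hB ((h3.sub h.hB hy).sub h.hB h1)
  rw [add_sub_cancel_left, add_sub_cancel_right, ← mul_assoc, hsT, one_mul, one_mul] at h5
  have h6 : mo (gcB l K La e x s n T ∅ T) ∅ =
      mo (fun A => lvB La e x s T ∅ A / (K * l ^ (T.card + (∅ : Finset ι).card + n))) ∅ := by
    refine mo_congr fun A _ => ?_
    rw [gcB, Finset.sdiff_self, prod_empty, mul_one]
  rw [h6] at h5
  rw [← add_sum_erase _ _ (mem_erase.2 ⟨hT0.ne_empty, mem_powerset_self T⟩), Finset.sdiff_self,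
    prod_empty, mul_one] at hP
  rw [← hP, add_sub_cancel_right, add_sub_cancel_right] at h5
  exact h5

/-- **The residues of the level functions, `k` even.** -/
theorem SyB.claim_even (h : SyB B l K La e x s κ S0 B0) {n : ℕ} (hn : 1 ≤ n) {f : ι → ZMod 2}
    (h0 : Rt B (La ∅ ∅ / K) 1)
    (hf : ∀ b ∈ S0 ∪ B0, Rt B ((e b - x ∅ b) / l ^ (1 + n)) (f b))
    {P : Finset ι → Finset ι → MvPolynomial ι (ZMod 2)} {R : Finset ι → Finset ι → ZMod 2}
    (hP0 : ∀ b ∈ B0, cf (P ∅ {b}) ∅ = f b)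
    (hP1 : ∀ T ⊆ S0, ∀ C ⊆ B0, ∀ b ∈ C, (T ∪ C.erase b).Nonempty → ∀ E : Finset ι, b ∉ E →
      cf (P T C) E = cf (wE s κ T (C.erase b) b * P T (C.erase b)) E)
    (hP2 : ∀ T ⊆ S0, ∀ C ⊆ B0, C.Nonempty →
      ∑ T' ∈ T.powerset, cf (P T' C * ∏ b ∈ T \ T', wE s κ T' C b) C = R T C)
    (hP3 : ∀ T ⊆ S0, T.Nonempty →
      ∑ T' ∈ T.powerset.erase ∅, cf (P T' ∅ * ∏ b ∈ T \ T', wE s κ T' ∅ b) ∅ +
        (if T.card = 1 then ∑ q ∈ T, f q else 0) = R T ∅)
    (hid : ∀ T ⊆ S0, ∀ C ⊆ B0, (T ∪ C).Nonempty → Rt B (idB l K La e x s n T C) (R T C)) :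
    ∀ m : ℕ, ∀ T ⊆ S0, ∀ C ⊆ B0, T.card + C.card = m → (T ∪ C).Nonempty → RB B (2 / l) C
      (fun A => lvB La e x s T C A / (K * l ^ (T.card + C.card + n))) (P T C) := by
  intro m
  induction m using Nat.strong_induction_on with
  | _ m ih =>
  intro T hT C hC hm hTC E hE
  by_cases hEC : E = C
  · subst hEC
    by_cases h1 : E.Nonempty
    · refine h.top hT hC (P := fun T' => P T' E) ?_ (hP2 T hT E hC h1) (hid T hT E hC hTC)
      intro T' hT' hne
      refine ih (T'.card + E.card) ?_ T' (hT'.trans hT) E hC rfl (h1.mono subset_union_right)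
      have := card_lt_card (Finset.ssubset_iff_subset_ne.2 ⟨hT', hne⟩)
      omega
    · rw [not_nonempty_iff_eq_empty] at h1
      subst h1
      rw [union_empty] at hTC
      refine h.top0 hT hTC (P := fun T' => P T' ∅) ?_ (h.term_empty hn h0 hf hT hTC)
        (hP3 T hT hTC) (hid T hT ∅ hC (by rw [union_empty]; exact hTC))
      intro T' hT' hne hT'0
      refine ih (T'.card + (∅ : Finset ι).card) ?_ T' (hT'.trans hT) ∅ hC rfl (by
        rw [union_empty]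
        exact nonempty_iff_ne_empty.2 hT'0)
      have := card_lt_card (Finset.ssubset_iff_subset_ne.2 ⟨hT', hne⟩)
      omega
  · obtain ⟨b, hb, hbE⟩ := exists_of_ssubset (Finset.ssubset_iff_subset_ne.2 ⟨hE, hEC⟩)
    by_cases h1 : (T ∪ C.erase b).Nonempty
    · refine h.step hT hC hb hE hbE (ih (T.card + (C.erase b).card) ?_ T hT (C.erase b)
        ((erase_subset _ _).trans hC) rfl h1) (hP1 T hT C hC b hb h1 E hbE)
      have := card_erase_add_one hb
      omega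
    · rw [not_nonempty_iff_eq_empty, union_eq_empty] at h1
      obtain ⟨rfl, h2⟩ := h1
      have hCb : C = {b} := by
        rw [← insert_erase hb, h2]
        rfl
      subst hCb
      have hE0 : E = ∅ := by
        rcases subset_singleton_iff.1 hE with h3 | h3
        · exact h3
        · exact absurd (h3 ▸ mem_singleton_self b) hbE
      subst hE0
      rw [hP0 b (hC hb), mo_empty, lvB, sdiff_empty, prod_singleton, card_empty, pow_zero, div_one,
        card_singleton, fcB, prod_empty, mul_one, zero_add, mul_div_mul_comm]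
      have h3 := h0.mul h.hB (hf b (mem_union_right _ (hC hb)))
      rwa [one_mul] at h3

/-- **The value of the whole set, `k` even.** -/
theorem SyB.final_even (h : SyB B l K La e x s κ S0 B0) {n : ℕ} (hn : 1 ≤ n) {f : ι → ZMod 2}
    (h0 : Rt B (La ∅ ∅ / K) 1)
    (hf : ∀ b ∈ S0 ∪ B0, Rt B ((e b - x ∅ b) / l ^ (1 + n)) (f b))
    {P : Finset ι → Finset ι → MvPolynomial ι (ZMod 2)} {R : Finset ι → Finset ι → ZMod 2}
    (hP0 : ∀ b ∈ B0, cf (P ∅ {b}) ∅ = f b)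
    (hP1 : ∀ T ⊆ S0, ∀ C ⊆ B0, ∀ b ∈ C, (T ∪ C.erase b).Nonempty → ∀ E : Finset ι, b ∉ E →
      cf (P T C) E = cf (wE s κ T (C.erase b) b * P T (C.erase b)) E)
    (hP2 : ∀ T ⊆ S0, ∀ C ⊆ B0, C.Nonempty →
      ∑ T' ∈ T.powerset, cf (P T' C * ∏ b ∈ T \ T', wE s κ T' C b) C = R T C)
    (hP3 : ∀ T ⊆ S0, T.Nonempty →
      ∑ T' ∈ T.powerset.erase ∅, cf (P T' ∅ * ∏ b ∈ T \ T', wE s κ T' ∅ b) ∅ +
        (if T.card = 1 then ∑ q ∈ T, f q else 0) = R T ∅)
    (hid : ∀ T ⊆ S0, ∀ C ⊆ B0, (T ∪ C).Nonempty → Rt B (idB l K La e x s n T C) (R T C))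
    (hS0 : S0.Nonempty) {U V : Finset ι} (hUB : U ∪ V = B0) (hUV : Disjoint U V)
    (hu1 : ∀ b ∈ U, κ b + ∑ p ∈ S0, s b p = 1) (hu0 : ∀ b ∈ V, κ b + ∑ p ∈ S0, s b p = 0)
    {τ : ι → ZMod 2} (h1 : ∀ b ∈ V, Rt B (x S0 b * ∏ a ∈ U, sgz (s b a)) 1)
    (h2 : ∀ b ∈ V, Rt B ((e b - x S0 b * ∏ a ∈ U, sgz (s b a)) / l ^ 2) (τ b)) :
    Rt B (La S0 B0 / (K * l ^ (S0.card + U.card + 2 * V.card + n)))
      (∑ A ∈ V.powerset, cf (P S0 A) A * pdt (blkL s τ V) (V \ A)) := by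
  have hU : U ⊆ B0 := hUB ▸ subset_union_left
  have hV : V ⊆ B0 := hUB ▸ subset_union_right
  have hne : ∀ C : Finset ι, (S0 ∪ C).Nonempty := fun C => hS0.mono subset_union_left
  have h3 := h.final (n := n) (P := fun C => P S0 C) hU hV hUV
    (fun C hC => h.claim_even hn h0 hf hP0 hP1 hP2 hP3 hid _ S0 subset_rfl C hC rfl (hne C))
    (fun A hA b hb E hE => hP1 S0 subset_rfl A hA b hb (hne _) E hE)
    hu1 hu0 h1 h2 V.card V subset_rfl rfl
  rw [hUB] at h3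
  have h4 : solB s τ (fun A => cf (P S0 A) A) V =
      ∑ A ∈ V.powerset, cf (P S0 A) A * pdt (blkL s τ V) (V \ A) :=
    sum_congr rfl fun A hA => by rw [NM_blkL s τ (mem_powerset.1 hA)]
  rwa [h4] at h3

end

end Pool.Agent.Lib.MP_1a91b9_ntQ
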