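import Pool.Agent.Lib.MP_1a91b9_ntQ.A.AvgX
import Pool.Agent.Lib.MP_1a91b9_ntQ.A.SysE
import Pool.Agent.Lib.MP_1a91b9_ntQ.R.Rec4

/-!
# Quartic twists, all fourth-power-free `D`, file DefB: elements, characters, L-functions

`D = i ^ κ lam ^ j ∏ (q ∈ S) q ^ (e q)`, `e q = 1, 2, 3`. `thB k j` is the character of `i ^ k lam ^ j`
on the elements congruent to `1` modulo `lam ^ 3`, `chE e q` the power `e q` of the quartic character
modulo `q`, `LB k j e T` the entire L-function of `ψbar` times these characters.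
-/

set_option autoImplicit false

namespace Pool.Agent.Lib.MP_1a91b9_ntQ

open NumberField Pool.Agent.Lib.MP_1a91b9_nuT Pool.Agent.Lib.MP_1a91b9_nuT.S3
  Pool.Agent.Lib.MP_1a91b9_nuT.Ell

noncomputable section

/-- the exponents are `1`, `2` or `3` -/
def ExpB (e : Pg → ZMod 4) : Prop := ∀ q, e q ≠ 0

/-- the product `∏ (q ∈ S) q ^ (e q)` -/
def DDe (e : Pg → ZMod 4) (S : Finset Pg) : 𝓞 K4 := ∏ q ∈ S, q.1 ^ (e q).val

/-- the element `i ^ κ lam ^ j ∏ (q ∈ S) q ^ (e q)` -/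
def DqB (κ : ZMod 4) (j : ℕ) (e : Pg → ZMod 4) (S : Finset Pg) : 𝓞 K4 :=
  iO ^ κ.val * lam ^ j * DDe e S

/-- the exponent `k` of the characters -/
def kB (κ : ZMod 4) (e : Pg → ZMod 4) (S : Finset Pg) : ZMod 4 := κ + 2 * ∑ q ∈ S, e q * nn q.1

/-- the character of `i ^ k lam ^ j` -/
def thB (k : ZMod 4) (j : ℕ) (x : 𝓞 K) : ℂ := e4 (k * nn x + (j : ZMod 4) * ll x)

/-- the modulus of `thB k j`, `j ≤ 3` -/
def fB (k : ZMod 4) (j : ℕ) : 𝓞 K :=
  if j = 0 then f4 k else if j = 2 then (if k = 0 ∨ k = 2 then lam ^ 5 else lam ^ 6) else lam ^ 7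

/-- the character of `D` on the elements congruent to `1` modulo `lam ^ 3` -/
def XB (k : ZMod 4) (j : ℕ) (e : Pg → ZMod 4) (T : Finset Pg) : 𝓞 K → ℂ :=
  XT (f := lam ^ 3) (thB k j) (chE e) T

/-- the entire L-function of `ψbar` and the character of `D` -/
def LB (k : ZMod 4) (j : ℕ) (e : Pg → ZMod 4) (T : Finset Pg) : ℂ → ℂ := LG (lam ^ 3) (XB k j e T)

/-- the normalised value at `1` -/
def LaB (k : ZMod 4) (j : ℕ) (e : Pg → ZMod 4) (T : Finset Pg) : ℂ :=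
  em (fB k j * DDq T) * LB k j e T 1

/-- the weight -/
def wB (e : Pg → ZMod 4) (S : Finset Pg) (x : 𝓞 K) : ℂ := ∏ q ∈ S, (1 - chE e q x)

/-! ### The element -/

theorem DDe_empty (e : Pg → ZMod 4) : DDe e ∅ = 1 := rfl

theorem DDe_insert {e : Pg → ZMod 4} {q : Pg} {S : Finset Pg} (h : q ∉ S) :
    DDe e (insert q S) = q.1 ^ (e q).val * DDe e S := by
  rw [DDe, Finset.prod_insert h]
  rfl

theorem In4.pow' {x : 𝓞 K4} (hx : In4 x) (n : ℕ) : In4 (x ^ n) := by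
  induction n with
  | zero => rw [pow_zero]; exact in4_one
  | succ n ih => rw [pow_succ]; exact ih.mul hx

theorem DDe_in4 (e : Pg → ZMod 4) (S : Finset Pg) : In4 (DDe e S) := by
  induction S using Finset.induction_on with
  | empty => rw [DDe_empty]; exact in4_one
  | insert q S hq ih =>
    rw [DDe_insert hq]
    exact (q.in4.pow' _).mul ih

theorem nn_pow {x : 𝓞 K4} (hx : In4 x) (n : ℕ) : nn (x ^ n) = n * nn x := by
  induction n with
  | zero => rw [pow_zero, nn_one, Nat.cast_zero, zero_mul]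
  | succ n ih =>
    rw [pow_succ, nn_mul (hx.pow' n) hx, ih]
    push_cast
    ring

theorem ll_pow {x : 𝓞 K4} (hx : In4 x) (n : ℕ) : ll (x ^ n) = n * ll x := by
  induction n with
  | zero => rw [pow_zero, ll_one, Nat.cast_zero, zero_mul]
  | succ n ih =>
    rw [pow_succ, ll_mul (hx.pow' n) hx, ih]
    push_cast
    ring

theorem nn_DDe (e : Pg → ZMod 4) (S : Finset Pg) : nn (DDe e S) = ∑ q ∈ S, e q * nn q.1 := by
  induction S using Finset.induction_on with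
  | empty => rw [DDe_empty, nn_one, Finset.sum_empty]
  | insert q S hq ih =>
    rw [DDe_insert hq, nn_mul (q.in4.pow' _) (DDe_in4 e S), ih, Finset.sum_insert hq, nn_pow q.in4,
      ZMod.natCast_zmod_val]

theorem ll_DDe (e : Pg → ZMod 4) (S : Finset Pg) : ll (DDe e S) = ∑ q ∈ S, e q * ll q.1 := by
  induction S using Finset.induction_on with
  | empty => rw [DDe_empty, ll_one, Finset.sum_empty]
  | insert q S hq ih =>
    rw [DDe_insert hq, ll_mul (q.in4.pow' _) (DDe_in4 e S), ih, Finset.sum_insert hq, ll_pow q.in4,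
      ZMod.natCast_zmod_val]

theorem kB_eq (κ : ZMod 4) (e : Pg → ZMod 4) (S : Finset Pg) : kB κ e S = κ + 2 * nn (DDe e S) := by
  rw [kB, nn_DDe]

theorem DDe_one (S : Finset Pg) : DDe (fun _ => 1) S = DDq S := by
  rw [DDe, DDq]
  refine Finset.prod_congr rfl fun q _ => ?_
  have : ((1 : ZMod 4)).val = 1 := rfl
  rw [this, pow_one]

theorem dvd_DDe {e : Pg → ZMod 4} (he : ExpB e) {S : Finset Pg} {q : Pg} :
    q.1 ∣ DDe e S ↔ q ∈ S := by
  constructor
  · intro h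
    obtain ⟨p, hp, h1⟩ := (q.prime.dvd_finsetProd_iff _).1 h
    have h2 : q.1 ∣ p.1 := q.prime.dvd_of_dvd_pow h1
    by_contra hc
    have h3 : q.1 ∣ DDq {p} := by
      rw [DDq, Finset.prod_singleton]
      exact h2
    have h4 := dvd_DDq.1 h3
    rw [Finset.mem_singleton] at h4
    exact hc (h4 ▸ hp)
  · intro h
    have h1 : (e q).val ≠ 0 := fun h0 => he q ((ZMod.val_eq_zero _).1 h0)
    exact (dvd_pow_self q.1 h1).trans (Finset.dvd_prod_of_mem _ h)

/-- the fourth power of a prime does not divide the product -/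
theorem DDe_four {e : Pg → ZMod 4} {S : Finset Pg} {q : Pg} : ¬ q.1 ^ 4 ∣ DDe e S := by
  intro h
  by_cases hq : q ∈ S
  · have e1 : DDe e S = q.1 ^ (e q).val * DDe e (S.erase q) := by
      rw [← DDe_insert (Finset.notMem_erase q S), Finset.insert_erase hq]
    have h1 : (e q).val + 1 ≤ 4 := ZMod.val_lt (e q)
    have h2 : q.1 ^ ((e q).val + 1) ∣ q.1 ^ (e q).val * DDe e (S.erase q) :=
      e1 ▸ (pow_dvd_pow q.1 h1).trans h
    rw [pow_succ] at h2
    have h3 : q.1 ∣ DDe e (S.erase q) :=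
      (mul_dvd_mul_iff_left (pow_ne_zero _ q.prime.ne_zero)).1 h2
    obtain ⟨p, hp, h4⟩ := (q.prime.dvd_finsetProd_iff _).1 h3
    have h5 : q.1 ∣ p.1 := q.prime.dvd_of_dvd_pow h4
    have h6 : q.1 ∣ DDq {p} := by
      rw [DDq, Finset.prod_singleton]
      exact h5
    have h7 := dvd_DDq.1 h6
    rw [Finset.mem_singleton] at h7
    exact Finset.notMem_erase q S (h7 ▸ hp)
  · obtain ⟨p, hp, h4⟩ := (q.prime.dvd_finsetProd_iff _).1 ((dvd_pow_self q.1 (by norm_num)).trans h)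
    have h5 : q.1 ∣ p.1 := q.prime.dvd_of_dvd_pow h4
    have h6 : q.1 ∣ DDq {p} := by
      rw [DDq, Finset.prod_singleton]
      exact h5
    have h7 := dvd_DDq.1 h6
    rw [Finset.mem_singleton] at h7
    exact hq (h7 ▸ hp)

/-- the symbol of the product -/
theorem c4_DDe (e : Pg → ZMod 4) (q : Pg) {S : Finset Pg} (h : q ∉ S) :
    c4 q (DDe e S) = ∑ p ∈ S, e p * c4 q p.1 := by
  induction S using Finset.induction_on with
  | empty => rw [DDe_empty, c4_one, Finset.sum_empty]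
  | insert p S hp ih =>
    rw [Finset.mem_insert, not_or] at h
    have h1 : ¬ q.1 ∣ p.1 := by
      intro h2
      have h6 : q.1 ∣ DDq {p} := by
        rw [DDq, Finset.prod_singleton]
        exact h2
      have h7 := dvd_DDq.1 h6
      rw [Finset.mem_singleton] at h7
      exact h.1 h7
    have h2 : ¬ q.1 ∣ DDe e S := by
      intro h3
      obtain ⟨r, hr, h4⟩ := (q.prime.dvd_finsetProd_iff _).1 h3
      have h5 : q.1 ∣ r.1 := q.prime.dvd_of_dvd_pow h4
      have h6 : q.1 ∣ DDq {r} := by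
        rw [DDq, Finset.prod_singleton]
        exact h5
      have h7 := dvd_DDq.1 h6
      rw [Finset.mem_singleton] at h7
      exact h.2 (h7 ▸ hr)
    rw [DDe_insert hp, c4_mul q (fun h3 => h1 (q.prime.dvd_of_dvd_pow h3)) h2, c4_pow q h1, ih h.2,
      Finset.sum_insert hp, ZMod.natCast_zmod_val]

/-! ### The characters -/

theorem thB_one (k : ZMod 4) (j : ℕ) : thB k j 1 = 1 := by
  rw [thB, nn_one, ll_one, mul_zero, mul_zero, add_zero, e4_zero]

theorem thB_mul (k : ZMod 4) (j : ℕ) {a b : 𝓞 K} (ha : In4 a) (hb : In4 b) :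
    thB k j (a * b) = thB k j a * thB k j b := by
  rw [thB, nn_mul ha hb, ll_mul ha hb, thB, thB, ← e4_add]
  congr 1
  ring

theorem norm_thB (k : ZMod 4) (j : ℕ) (a : 𝓞 K) : ‖thB k j a‖ = 1 := norm_e4 _

theorem thB_ne (k : ZMod 4) (j : ℕ) (a : 𝓞 K) : thB k j a ≠ 0 := e4_ne _

theorem thB_zero (k : ZMod 4) : thB k 0 = th4 k := by
  funext x
  rw [thB, th4, Nat.cast_zero, zero_mul, add_zero]

theorem thB_E (k : ZMod 4) : thB k 1 = thE k := by
  funext x
  rw [thB, thE, Nat.cast_one, one_mul]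

/-- twice the exponent of `lam` depends only on the second coordinate -/
theorem two_ll_form (m n : ℤ) : 2 * ll (1 + lam ^ 3 * ((m : 𝓞 K) + (n : 𝓞 K) * iO)) = 2 * (n : ZMod 4) := by
  rw [ll_form]
  have key : ∀ m n : ZMod 4, 2 * (-m - (m - n) ^ 2) = 2 * n := by decide
  exact key _ _

theorem two_ll {x : 𝓞 K} (hx : In4 x) : ((2 : ℕ) : ZMod 4) * ll x = 2 * ((bb x).val : ZMod 4) := by
  obtain ⟨m, n, rfl⟩ := in4_form hx
  have h1 := two_ll_form m n
  have h2 : (((2 : ℕ) : ZMod 4)) = 2 := rfl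
  have h3 : bb (1 + lam ^ 3 * ((m : 𝓞 K) + (n : 𝓞 K) * iO)) = (n : ZMod 2) := bb_form m n
  have h4 : ((2 : ℕ) : ZMod 4) * ll (1 + lam ^ 3 * ((m : 𝓞 K) + (n : 𝓞 K) * iO)) = 2 * (n : ZMod 4) := by
    rw [h2]
    exact h1
  refine h4.trans ?_
  have h5 : ((bb (1 + lam ^ 3 * ((m : 𝓞 K) + (n : 𝓞 K) * iO))).val : ZMod 4) = (((n : ZMod 2)).val : ZMod 4) := by
    rw [h3]
  rw [h5]
  obtain ⟨t, ht⟩ : ∃ t : ℤ, n = 2 * t + (((n : ZMod 2)).val : ℤ) := by
    refine ⟨(n - (((n : ZMod 2)).val : ℤ)) / 2, ?_⟩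
    have h6 : ((n - (((n : ZMod 2)).val : ℤ) : ℤ) : ZMod 2) = 0 := by
      push_cast
      rw [ZMod.natCast_zmod_val, sub_self]
    have h7 := (ZMod.intCast_zmod_eq_zero_iff_dvd _ 2).1 h6
    omega
  conv_lhs => rw [ht]
  push_cast
  have h8 : (4 : ZMod 4) = 0 := rfl
  linear_combination (t : ZMod 4) * h8

theorem two_lam3' : (2 : 𝓞 K) * lam ^ 3 ∣ lam ^ 5 := ⟨iO, by
  have h : (lam : 𝓞 K) ^ 2 = 2 * iO := lam_sq
  linear_combination lam ^ 3 * h⟩

theorem fB_zero (k : ZMod 4) : fB k 0 = f4 k := by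
  unfold fB
  rw [if_pos rfl]

theorem fB_two_even {k : ZMod 4} (h : k = 0 ∨ k = 2) : fB k 2 = lam ^ 5 := by
  unfold fB
  rw [if_neg (by norm_num), if_pos rfl, if_pos h]

theorem fB_two_odd {k : ZMod 4} (h : ¬ (k = 0 ∨ k = 2)) : fB k 2 = lam ^ 6 := by
  unfold fB
  rw [if_neg (by norm_num), if_pos rfl, if_neg h]

theorem fB_odd (k : ZMod 4) {j : ℕ} (h0 : j ≠ 0) (h2 : j ≠ 2) : fB k j = lam ^ 7 := by
  unfold fB
  rw [if_neg h0, if_neg h2]

theorem fB_pow (k : ZMod 4) (j : ℕ) : ∃ n : ℕ, fB k j = lam ^ n ∧ 3 ≤ n := by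
  by_cases h0 : j = 0
  · subst h0
    rw [fB_zero]
    exact f4_pow k
  · by_cases h2 : j = 2
    · subst h2
      by_cases hk : k = 0 ∨ k = 2
      · exact ⟨5, fB_two_even hk, by norm_num⟩
      · exact ⟨6, fB_two_odd hk, by norm_num⟩
    · exact ⟨7, fB_odd k h0 h2, by norm_num⟩

theorem fB_ne (k : ZMod 4) (j : ℕ) : fB k j ≠ 0 := by
  obtain ⟨n, h, -⟩ := fB_pow k j
  rw [h]
  exact pow_ne_zero _ lam_ne_zero

theorem fB_dvd (k : ZMod 4) (j : ℕ) : lam ^ 3 ∣ fB k j := by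
  obtain ⟨n, h, hn⟩ := fB_pow k j
  rw [h]
  exact pow_dvd_pow _ hn

theorem in4_cop_fB {a : 𝓞 K} (h : In4 a) (k : ZMod 4) (j : ℕ) : IsCoprime a (fB k j) := by
  obtain ⟨n, hn, -⟩ := fB_pow k j
  rw [hn]
  exact in4_cop_lam h n

theorem thB_congr (k : ZMod 4) (j : ℕ) {a b : 𝓞 K} (ha : In4 a) (h : fB k j ∣ a - b) :
    thB k j a = thB k j b := by
  have hb : In4 b := (in4_congr ((fB_dvd k j).trans h)).1 ha
  by_cases h0 : j = 0
  · subst h0
    rw [fB_zero] at h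
    rw [thB_zero]
    exact th4_congr k ha h
  · by_cases h2 : j = 2
    · subst h2
      by_cases hk : k = 0 ∨ k = 2
      · rw [fB_two_even hk] at h
        have h4 : lam ^ 4 ∣ a - b := (pow_dvd_pow _ (by norm_num)).trans h
        have h5 : bb a = bb b := bb_congr ha (two_lam3'.trans h)
        have h6 := aa_congr ha h4
        have h7 : k * nn a = k * nn b := by
          have key : ∀ k x y : ZMod 4, k = 0 ∨ k = 2 → md x = md y → k * x = k * y := by decide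
          exact key k _ _ hk h6
        rw [thB, thB, two_ll ha, two_ll hb, h5, h7]
      · rw [fB_two_odd hk] at h
        have h5 : bb a = bb b := bb_congr ha (two_lam3'.trans ((pow_dvd_pow _ (by norm_num)).trans h))
        rw [thB, thB, two_ll ha, two_ll hb, h5, nn_congr6 ha h]
    · rw [fB_odd k h0 h2] at h
      rw [thB, thB, nn_congr6 ha ((pow_dvd_pow _ (by norm_num)).trans h), ll_congr ha h]

theorem thB_chr (k : ZMod 4) (j : ℕ) : Chr (lam ^ 3) (fB k j) (thB k j) where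
  ne := fB_ne k j
  dvd := fB_dvd k j
  one := thB_one k j
  mul _ _ ha hb := thB_mul k j ha hb
  le a _ := (norm_thB k j a).le
  zero _ ha hc := absurd (in4_cop_fB ha k j) hc
  per _ _ ha h := thB_congr k j ha h

theorem XB_chr (k : ZMod 4) (j : ℕ) (e : Pg → ZMod 4) (T : Finset Pg) :
    Chr (lam ^ 3) (fB k j * DDq T) (XB k j e T) :=
  (thB_chr k j).XT (f := lam ^ 3) (fun q => chE_chrP e q) T

theorem XB_eq (k : ZMod 4) (j : ℕ) (e : Pg → ZMod 4) (T : Finset Pg) (x : 𝓞 K) :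
    XB k j e T x = thB k j x * ∏ q ∈ T, chE e q x := rfl

theorem XB_of_cop (k : ZMod 4) (j : ℕ) (e : Pg → ZMod 4) {T : Finset Pg} {x : 𝓞 K}
    (h : ∀ q ∈ T, ¬ q.1 ∣ x) :
    XB k j e T x = e4 (k * nn x + (j : ZMod 4) * ll x + ∑ q ∈ T, e q * c4 q x) := by
  rw [XB_eq, e4_add (k * nn x + (j : ZMod 4) * ll x), e4_sum]
  change thB k j x * _ = thB k j x * _
  congr 1
  exact Finset.prod_congr rfl fun q hq => chE_of_not e (h q hq)

theorem XB_zero (k : ZMod 4) (e : Pg → ZMod 4) : XB k 0 e = Xe k e := by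
  funext T x
  rw [XB_eq, Xe_eq, thB_zero, chP]

theorem XB_X4 (k : ZMod 4) (T : Finset Pg) : XB k 0 (fun _ => 1) T = X4 k T := by
  rw [XB_zero, Xe_eq_X4 fun _ _ => rfl]

theorem XB_XE (k : ZMod 4) (T : Finset Pg) : XB k 1 (fun _ => 1) T = XE k T := by
  funext x
  rw [XB_eq, XE_eq, thB_E]
  congr 1
  exact Finset.prod_congr rfl fun q _ => by rw [chE_eq_ch4 (e := fun _ => 1) rfl]

theorem LB_diff (k : ZMod 4) (j : ℕ) (e : Pg → ZMod 4) (T : Finset Pg) :
    Differentiable ℂ (LB k j e T) := (XB_chr k j e T).LG_diff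

theorem LB_eq (k : ZMod 4) (j : ℕ) (e : Pg → ZMod 4) (T : Finset Pg) (s : ℂ) (hs : 2 < s.re) :
    LB k j e T s = S4.Lf (pG (lam ^ 3) (XB k j e T)) s := (XB_chr k j e T).LG_eq s hs

theorem LB_L4 (k : ZMod 4) (T : Finset Pg) : LB k 0 (fun _ => 1) T = L4 k T := by
  rw [LB, XB_X4]
  rfl

theorem LB_LE (k : ZMod 4) (T : Finset Pg) : LB k 1 (fun _ => 1) T = LE k T := by
  rw [LB, XB_XE]
  rfl

theorem LaB_La4 (k : ZMod 4) (T : Finset Pg) : LaB k 0 (fun _ => 1) T = La4 k T := by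
  rw [LaB, LB_L4, fB_zero]
  rfl

theorem LaB_LaE (k : ZMod 4) (T : Finset Pg) : LaB k 1 (fun _ => 1) T = LaE k T := by
  rw [LaB, LB_LE, fB_odd k one_ne_zero (by norm_num)]
  rfl

/-! ### The symbol of `D` -/

theorem unit_not_dvd (q : Pg) (n : ℕ) : ¬ q.1 ∣ iO ^ n := fun h =>
  q.prime.not_isUnit (isUnit_of_dvd_unit h (isUnit_iO.pow n))

theorem DqB_dvd {κ : ZMod 4} {j : ℕ} {e : Pg → ZMod 4} (he : ExpB e) {S : Finset Pg} {q : Pg} :
    q.1 ∣ DqB κ j e S ↔ q ∈ S := by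
  constructor
  · intro h
    rcases q.prime.dvd_or_dvd h with h1 | h1
    · rcases q.prime.dvd_or_dvd h1 with h2 | h2
      · exact absurd h2 (unit_not_dvd q _)
      · exact absurd (q.prime.dvd_of_dvd_pow h2) (lam_not_dvd q)
    · exact (dvd_DDe he).1 h1
  · intro h
    exact ((dvd_DDe he).2 h).mul_left _

theorem DqB_four {κ : ZMod 4} {j : ℕ} {e : Pg → ZMod 4} {S : Finset Pg} {q : Pg} :
    ¬ q.1 ^ 4 ∣ DqB κ j e S := by
  intro h
  have h1 : IsCoprime (q.1 ^ 4) (iO ^ κ.val * lam ^ j) := by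
    refine IsCoprime.mul_right ?_ ?_
    · obtain ⟨u, hu⟩ := isUnit_iO.pow κ.val
      refine ⟨0, ((u⁻¹ : (𝓞 K4)ˣ) : 𝓞 K4), ?_⟩
      rw [← hu, zero_mul, zero_add, Units.inv_mul]
    · have h2 : IsCoprime q.1 (lam ^ j) := in4_cop_lam q.in4 j
      exact h2.pow_left
  exact DDe_four (h1.dvd_of_dvd_mul_left h)

theorem DqB_ne {κ : ZMod 4} {j : ℕ} {e : Pg → ZMod 4} {S : Finset Pg} : DqB κ j e S ≠ 0 :=
  mul_ne_zero (mul_ne_zero (isUnit_iO.pow _).ne_zero (pow_ne_zero _ lam_ne_zero))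
    (DDe_in4 e S).ne_zero

/-- the symbol of `D` at a prime which does not divide it -/
theorem c4_DqB (κ : ZMod 4) (j : ℕ) (e : Pg → ZMod 4) {S : Finset Pg} {q : Pg} (hq : q ∉ S) :
    c4 q (DqB κ j e S) = kB κ e S * nn q.1 + (j : ZMod 4) * ll q.1 + ∑ p ∈ S, e p * c4 p q.1 := by
  have hne : ∀ p ∈ S, p ≠ q := by
    rintro p hp rfl
    exact hq hp
  have h1 : ¬ q.1 ∣ DDe e S := by
    intro h3
    obtain ⟨r, hr, h4⟩ := (q.prime.dvd_finsetProd_iff _).1 h3
    have h5 : q.1 ∣ r.1 := q.prime.dvd_of_dvd_pow h4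
    have h6 : q.1 ∣ DDq {r} := by
      rw [DDq, Finset.prod_singleton]
      exact h5
    have h7 := dvd_DDq.1 h6
    rw [Finset.mem_singleton] at h7
    exact hne r hr h7.symm
  have h2 : ¬ q.1 ∣ iO := by
    have := unit_not_dvd q 1
    rwa [pow_one] at this
  have h3 : ¬ q.1 ∣ lam ^ j := fun h => lam_not_dvd q (q.prime.dvd_of_dvd_pow h)
  have h4 : ¬ q.1 ∣ iO ^ κ.val * lam ^ j := fun h =>
    (q.prime.dvd_or_dvd h).elim (unit_not_dvd q _) h3
  rw [DqB, c4_mul q h4 h1, c4_mul q (unit_not_dvd q _) h3, c4_pow q h2, c4_pow q (lam_not_dvd q),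
    c4_i, c4_DDe e q hq, ZMod.natCast_zmod_val, ll_q, kB]
  have h5 : ∑ p ∈ S, e p * c4 q p.1 = ∑ p ∈ S, (e p * c4 p q.1 + 2 * (e p * nn p.1) * nn q.1) := by
    refine Finset.sum_congr rfl fun p hp => ?_
    have h6 := c4_recip p q (hne p hp)
    linear_combination e p * h6
  rw [h5, Finset.sum_add_distrib, ← Finset.sum_mul, ← Finset.mul_sum]
  ring

end

end Pool.Agent.Lib.MP_1a91b9_ntQ
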