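import Pool.Agent.Lib.MP_1a91b9_ntQ.A.EpsB

/-!
# Quartic twists, part A, file DetB: the square free coefficient of the determinant is a determinant

`pdt M S` is the principal minor of `M` on `S`.
-/

set_option autoImplicit false
set_option linter.unusedSectionVars false

namespace Pool.Agent.Lib.MP_1a91b9_ntQ

open Finset MvPolynomial
open Pool.Agent.Lib.MP_1a91b9_ntK (NM NM_congr NM_empty NM_adj NM_update NM_zero forest
  CZ CZ_eq forest_zero)

variable {ι : Type*} [DecidableEq ι] {R : Type*} [CommRing R]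

/-- the principal minor -/
def pdt (M : ι → ι → R) (S : Finset ι) : R := (Matrix.of fun i j : S => M i j).det

theorem pdt_congr {M M' : ι → ι → R} {S : Finset ι} (h : ∀ i ∈ S, ∀ j ∈ S, M i j = M' i j) :
    pdt M S = pdt M' S := by
  rw [pdt, pdt]
  congr 1
  ext i j
  exact h i i.2 j j.2

theorem pdt_empty (M : ι → ι → R) : pdt M ∅ = 1 := Matrix.det_isEmpty

theorem pdt_update (M : ι → ι → R) {S : Finset ι} {r : ι} (hr : r ∈ S) (c : R) :
    pdt (fun i j => M i j + if i = r ∧ j = r then c else 0) S = pdt M S + c * pdt M (S.erase r) := by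
  have h1 : (Matrix.of fun i j : S => M i j + if (i : ι) = r ∧ (j : ι) = r then c else 0) =
      (Matrix.of fun i j : S => M i j).updateRow ⟨r, hr⟩
        ((Matrix.of fun i j : S => M i j) ⟨r, hr⟩ + Pi.single ⟨r, hr⟩ c) := by
    ext i j
    rw [Matrix.updateRow_apply]
    by_cases hi : i = ⟨r, hr⟩
    · rw [if_pos hi, Pi.add_apply, Pi.single_apply]
      subst hi
      by_cases hj : j = ⟨r, hr⟩
      · subst hj
        simp
      · rw [if_neg hj]
        have : (j : ι) ≠ r := fun h => hj (Subtype.ext h)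
        simp [this]
    · rw [if_neg hi]
      have : (i : ι) ≠ r := fun h => hi (Subtype.ext h)
      simp [this]
  rw [pdt, h1, Matrix.det_updateRow_add, Matrix.updateRow_eq_self, det_single, pdt, pdt]
  congr 2
  let e : {i : S // ¬ i = ⟨r, hr⟩} ≃ ↥(S.erase r) :=
    { toFun := fun i => ⟨i.1, mem_erase.2 ⟨fun h => i.2 (Subtype.ext h), i.1.2⟩⟩
      invFun := fun i => ⟨⟨i, mem_of_mem_erase i.2⟩, fun h =>
        (ne_of_mem_erase i.2) (congrArg Subtype.val h)⟩
      left_inv := fun _ => rfl
      right_inv := fun _ => rfl }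
  rw [← Matrix.det_submatrix_equiv_self e]
  rfl

/-- **A diagonal perturbation.** -/
theorem pdt_diag_aux (M : ι → ι → R) (d : ι → R) (A : Finset ι) : ∀ {S : Finset ι}, A ⊆ S →
    pdt (fun i j => M i j + if i = j ∧ i ∈ A then d i else 0) S =
      ∑ J ∈ A.powerset, (∏ i ∈ J, d i) * pdt M (S \ J) := by
  induction A using Finset.induction_on with
  | empty =>
    intro S _
    rw [powerset_empty, sum_singleton, prod_empty, one_mul, sdiff_empty]
    exact pdt_congr fun i _ j _ => by simp
  | insert r A hr ih =>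
    intro S hS
    have hrS : r ∈ S := hS (mem_insert_self r A)
    have hAS : A ⊆ S := (subset_insert r A).trans hS
    have hAS' : A ⊆ S.erase r := fun x hx => mem_erase.2 ⟨fun h => hr (h ▸ hx), hAS hx⟩
    have h1 : pdt (fun i j => M i j + if i = j ∧ i ∈ insert r A then d i else 0) S =
        pdt (fun i j => (M i j + if i = j ∧ i ∈ A then d i else 0) +
          if i = r ∧ j = r then d r else 0) S := by
      refine pdt_congr fun i _ j _ => ?_
      rw [add_assoc]
      congr 1
      by_cases hij : i = j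
      · subst hij
        by_cases hi : i = r
        · subst hi
          simp [hr]
        · simp [hi]
      · have h2 : ¬ (i = r ∧ j = r) := fun h => hij (h.1.trans h.2.symm)
        simp [hij, h2]
    rw [h1, pdt_update _ hrS, ih hAS, ih hAS', sum_powerset_insert hr, mul_sum]
    congr 1
    refine sum_congr rfl fun J hJ => ?_
    have hrJ : r ∉ J := fun h => hr (mem_powerset.1 hJ h)
    rw [prod_insert hrJ, erase_sdiff_comm, ← sdiff_insert]
    ring

theorem pdt_diag (M : ι → ι → R) (d : ι → R) (S : Finset ι) :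
    pdt (fun i j => M i j + if i = j then d i else 0) S =
      ∑ J ∈ S.powerset, (∏ i ∈ J, d i) * pdt M (S \ J) := by
  rw [← pdt_diag_aux M d S subset_rfl]
  exact pdt_congr fun i hi j _ => by simp [hi]

/-- columns multiplied by scalars -/
theorem pdt_col (M : ι → ι → R) (e : ι → R) (S : Finset ι) :
    pdt (fun i j => M i j * e j) S = (∏ i ∈ S, e i) * pdt M S := by
  have h1 : (Matrix.of fun i j : S => M i j * e j) =
      (Matrix.of fun i j : S => M i j) * Matrix.diagonal (fun i : S => e i) := by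
    ext i j
    rw [Matrix.mul_diagonal]
    rfl
  rw [pdt, h1, Matrix.det_mul, Matrix.det_diagonal, mul_comm, ← prod_coe_sort S e]
  rfl

theorem pdt_map {R' : Type*} [CommRing R'] (f : R →+* R') (M : ι → ι → R) (S : Finset ι) :
    pdt (fun i j => f (M i j)) S = f (pdt M S) := by
  rw [pdt, pdt, RingHom.map_det]
  rfl

/-! ### Products of linear forms -/

/-- the linear form of `x` -/
noncomputable def lf (s : ι → ι → R) (A : Finset ι) (x : ι) : MvPolynomial ι R :=
  ∑ b ∈ A.erase x, X b * C (s x b)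

theorem cf_lf_mul (s : ι → ι → R) (A : Finset ι) (x : ι) (q : MvPolynomial ι R) (E : Finset ι) :
    cf (lf s A x * q) E = ∑ b ∈ (A.erase x) ∩ E, s x b * cf q (E.erase b) := by
  rw [lf, sum_mul, cf_sum, ← filter_mem_eq_inter, sum_filter]
  refine sum_congr rfl fun b _ => ?_
  rw [mul_comm (X b) (C _), mul_assoc, cf_C_mul, cf_X_mul]
  split_ifs
  · rfl
  · rw [mul_zero]

theorem cf_lf_lt (s : ι → ι → R) (A J : Finset ι) : ∀ {E : Finset ι}, E.card < J.card →
    cf (∏ x ∈ J, lf s A x) E = 0 := by
  induction J using Finset.induction_on with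
  | empty =>
    intro E hE
    rw [card_empty] at hE
    omega
  | insert x J hx ih =>
    intro E hE
    rw [prod_insert hx, cf_lf_mul]
    refine sum_eq_zero fun b hb => ?_
    rw [ih, mul_zero]
    have h1 := card_erase_add_one (mem_inter.1 hb).2
    rw [card_insert_of_notMem hx] at hE
    omega

theorem cf_lf_congr (s : ι → ι → R) {A A' : Finset ι} (J : Finset ι) : ∀ {E : Finset ι},
    A ∩ E = A' ∩ E → cf (∏ x ∈ J, lf s A x) E = cf (∏ x ∈ J, lf s A' x) E := by
  induction J using Finset.induction_on with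
  | empty =>
    intro E _
    rw [prod_empty, prod_empty]
  | insert x J hx ih =>
    intro E hE
    rw [prod_insert hx, prod_insert hx, cf_lf_mul, cf_lf_mul]
    have h1 : (A.erase x) ∩ E = (A'.erase x) ∩ E := by
      rw [erase_inter, erase_inter, hE]
    rw [h1]
    refine sum_congr rfl fun b _ => ?_
    rw [ih]
    rw [inter_erase, inter_erase, hE]

/-- the coefficient of the product of the linear forms -/
noncomputable def perE (s : ι → ι → R) (J : Finset ι) : R := cf (∏ x ∈ J, lf s J x) J

theorem cf_prodX (K : Finset ι) (q : MvPolynomial ι R) : ∀ {E : Finset ι},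
    cf ((∏ b ∈ K, X b) * q) E = if K ⊆ E then cf q (E \ K) else 0 := by
  induction K using Finset.induction_on with
  | empty =>
    intro E
    rw [prod_empty, one_mul, if_pos (empty_subset E), sdiff_empty]
  | insert b K hb ih =>
    intro E
    rw [prod_insert hb, mul_assoc, cf_X_mul, ih]
    by_cases hbE : b ∈ E
    · rw [if_pos hbE]
      have h1 : K ⊆ E.erase b ↔ insert b K ⊆ E := by
        rw [insert_subset_iff, subset_erase]
        tauto
      by_cases h2 : K ⊆ E.erase b
      · rw [if_pos h2, if_pos (h1.1 h2), sdiff_insert, erase_sdiff_comm]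
      · rw [if_neg h2, if_neg fun h => h2 (h1.2 h)]
    · rw [if_neg hbE, if_neg fun h => hbE (h (mem_insert_self b K))]

/-- the matrix of constants: no diagonal outside `T` -/
def BB (s : ι → ι → R) (κ : ι → R) (T : Finset ι) (i j : ι) : R :=
  if i = j then (if i ∈ T then κ i + ∑ p ∈ T.erase i, s i p else 0) else -s i j

theorem DE_pdt (s : ι → ι → R) (κ : ι → R) {T A : Finset ι} (hTA : Disjoint T A)
    (hu : ∀ b ∈ A, κ b + ∑ p ∈ T, s b p = 0) :
    DE s κ T A = pdt (fun i j => C (BB s κ T i j) * (if j ∈ A then X j else 1) +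
      if i = j then lf s A i else 0) (T ∪ A) := by
  rw [DE, pdt]
  congr 1
  ext1 i j
  rw [Matrix.of_apply]
  by_cases hij : i = j
  · subst hij
    rw [if_pos rfl]
    simp only [NM, if_true, BB]
    rcases mem_union.1 i.2 with hi | hi
    · have hiA : (i : ι) ∉ A := fun h => disjoint_left.1 hTA hi h
      have h1 : (T ∪ A).erase (i : ι) = T.erase i ∪ A := by
        rw [erase_union_distrib, erase_eq_of_notMem hiA]
      have h2 : Disjoint (T.erase (i : ι)) A := disjoint_of_subset_left (erase_subset _ _) hTA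
      rw [if_pos hi, if_neg hiA, mul_one, lf, erase_eq_of_notMem hiA, h1, sum_union h2, C_add,
        map_sum, add_assoc]
      congr 2
      · exact sum_congr rfl fun p hp => by
          rw [mwE, if_neg (fun h => disjoint_left.1 h2 hp h)]
      · exact sum_congr rfl fun p hp => by rw [mwE, if_pos hp]
    · have hiT : (i : ι) ∉ T := fun h => disjoint_left.1 hTA h hi
      have h1 : (T ∪ A).erase (i : ι) = T ∪ A.erase i := by
        rw [erase_union_distrib, erase_eq_of_notMem hiT]
      have h2 : Disjoint T (A.erase (i : ι)) := disjoint_of_subset_right (erase_subset _ _) hTA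
      rw [if_neg hiT, C_0, zero_mul, zero_add, h1, sum_union h2, ← add_assoc]
      have h3 : ∑ p ∈ T, mwE s A i p = ∑ p ∈ T, C (s i p) := sum_congr rfl fun p hp => by
        rw [mwE, if_neg (fun h => disjoint_left.1 hTA hp h)]
      rw [h3, ← map_sum, ← C_add, hu i hi, C_0, zero_add, lf]
      exact sum_congr rfl fun p hp => by rw [mwE, if_pos (mem_of_mem_erase hp)]
  · have h1 : (i : ι) ≠ j := fun h => hij (Subtype.ext h)
    rw [if_neg h1, add_zero]
    simp only [NM, if_neg hij, BB, if_neg h1]
    rw [mwE]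
    split_ifs
    · rw [C_neg]
      ring
    · rw [C_neg, mul_one]

/-- **The square free coefficient, `u_b(T) = 0` for `b ∈ A`.** -/
theorem cf_DE (s : ι → ι → R) (κ : ι → R) {T A : Finset ι} (hTA : Disjoint T A)
    (hu : ∀ b ∈ A, κ b + ∑ p ∈ T, s b p = 0) :
    cf (DE s κ T A) A = ∑ J ∈ A.powerset, perE s J * pdt (BB s κ T) (T ∪ (A \ J)) := by
  rw [DE_pdt s κ hTA hu, pdt_diag, cf_sum]
  have key : ∀ J ⊆ T ∪ A, cf ((∏ x ∈ J, lf s A x) *
      pdt (fun i j => C (BB s κ T i j) * (if j ∈ A then X j else 1)) ((T ∪ A) \ J)) A =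
      pdt (BB s κ T) ((T ∪ A) \ J) * cf (∏ x ∈ J, lf s A x) (A ∩ J) := by
    intro J _
    rw [pdt_col, pdt_map C]
    have h1 : ∏ p ∈ (T ∪ A) \ J, (if p ∈ A then X p else 1 : MvPolynomial ι R) =
        ∏ p ∈ A \ J, X p := by
      rw [← prod_filter]
      refine prod_congr ?_ fun _ _ => rfl
      ext x
      simp only [mem_filter, mem_sdiff, mem_union]
      tauto
    have h2 : (∏ x ∈ J, lf s A x) * ((∏ p ∈ A \ J, X p) * C (pdt (BB s κ T) ((T ∪ A) \ J))) =
        C (pdt (BB s κ T) ((T ∪ A) \ J)) * ((∏ p ∈ A \ J, X p) * ∏ x ∈ J, lf s A x) := by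
      ring
    rw [h1, h2, cf_C_mul, cf_prodX, if_pos sdiff_subset, sdiff_sdiff_right_self]
    rfl
  rw [sum_congr rfl fun J hJ => key J (mem_powerset.1 hJ),
    ← sum_subset (powerset_mono.2 subset_union_right)]
  · refine sum_congr rfl fun J hJ => ?_
    have hJA := mem_powerset.1 hJ
    have hJT : (T ∪ A) \ J = T ∪ (A \ J) := by
      rw [union_sdiff_distrib, sdiff_eq_self_of_disjoint (disjoint_of_subset_right hJA hTA)]
    rw [hJT, inter_eq_right.2 hJA, mul_comm, perE]
    congr 1
    exact cf_lf_congr s J (by rw [inter_eq_right.2 hJA, inter_self])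
  · intro J hJ hJA
    rw [cf_lf_lt, mul_zero]
    refine card_lt_card (Finset.ssubset_iff_subset_ne.2 ⟨inter_subset_right, fun h => hJA ?_⟩)
    rw [mem_powerset, ← h]
    exact inter_subset_left

/-! ### Convolution -/

/-- the polynomial with the coefficients `f` -/
noncomputable def phE (V : Finset ι) (f : Finset ι → R) : MvPolynomial ι R :=
  ∑ E ∈ V.powerset, monomial (mi E) (f E)

theorem cf_phE {V : Finset ι} (f : Finset ι → R) {E : Finset ι} (hE : E ⊆ V) :
    cf (phE V f) E = f E := by
  rw [phE, cf_sum, sum_eq_single E]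
  · rw [cf, coeff_monomial, if_pos rfl]
  · intro F _ hF
    rw [cf, coeff_monomial, if_neg fun h => hF (mi_inj h)]
  · intro h
    exact absurd (mem_powerset.2 hE) h

theorem cf_phE_mul {V : Finset ι} (f g : Finset ι → R) {E : Finset ι} (hE : E ⊆ V) :
    cf (phE V f * phE V g) E = ∑ F ∈ E.powerset, f F * g (E \ F) := by
  rw [cf_mul]
  refine sum_congr rfl fun F hF => ?_
  have hF' := mem_powerset.1 hF
  rw [cf_phE f (hF'.trans hE), cf_phE g (sdiff_subset.trans hE)]

theorem cf_mul_congr {V : Finset ι} {p p' q q' : MvPolynomial ι R}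
    (hp : ∀ E ⊆ V, cf p E = cf p' E) (hq : ∀ E ⊆ V, cf q E = cf q' E) {E : Finset ι}
    (hE : E ⊆ V) : cf (p * q) E = cf (p' * q') E := by
  rw [cf_mul, cf_mul]
  refine sum_congr rfl fun F hF => ?_
  rw [hp F ((mem_powerset.1 hF).trans hE), hq _ (sdiff_subset.trans hE)]

/-- the convolution is associative and commutative: a form of it for four functions -/
theorem conv_four {V : Finset ι} {g per mB mS mL l : Finset ι → R}
    (h1 : ∀ A ⊆ V, g A = ∑ J ∈ A.powerset, per J * mB (A \ J))
    (h2 : ∀ A ⊆ V, ∑ J ∈ A.powerset, per J * mS (A \ J) = if A = ∅ then 1 else 0)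
    (h3 : ∀ A ⊆ V, mL A = ∑ J ∈ A.powerset, l J * mS (A \ J)) :
    ∑ A ∈ V.powerset, g A * mL (V \ A) = ∑ J ∈ V.powerset, l J * mB (V \ J) := by
  rw [← cf_phE_mul (V := V) g mL subset_rfl, ← cf_phE_mul (V := V) l mB subset_rfl]
  have e1 : ∀ E ⊆ V, cf (phE V g) E = cf (phE V per * phE V mB) E := fun E hE => by
    rw [cf_phE g hE, cf_phE_mul _ _ hE, h1 E hE]
  have e2 : ∀ E ⊆ V, cf (phE V mL) E = cf (phE V l * phE V mS) E := fun E hE => by
    rw [cf_phE mL hE, cf_phE_mul _ _ hE, h3 E hE]
  have e3 : ∀ E ⊆ V, cf (phE V per * phE V mS) E = cf (1 : MvPolynomial ι R) E := fun E hE => by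
    rw [cf_phE_mul _ _ hE, h2 E hE, cf_one]
  rw [cf_mul_congr e1 e2 subset_rfl]
  have e4 : phE V per * phE V mB * (phE V l * phE V mS) =
      (phE V per * phE V mS) * (phE V l * phE V mB) := by ring
  rw [e4, cf_mul_congr e3 (fun _ _ => rfl) subset_rfl, one_mul]

theorem perE_conv [Nontrivial R] (s : ι → ι → R) (A : Finset ι) :
    ∑ J ∈ A.powerset, perE s J * pdt (BB s 0 ∅) (A \ J) = if A = ∅ then 1 else 0 := by
  have h1 := cf_DE s 0 (disjoint_empty_left A) (fun b _ => by simp)
  simp only [empty_union] at h1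
  rw [← h1]
  split_ifs with hA
  · subst hA
    rw [DE, empty_union, NM_empty, cf_one, if_pos rfl]
  · have h2 := DE_sum s 0 (disjoint_empty_left A) (by
      rw [empty_union]
      exact nonempty_iff_ne_empty.2 hA)
    rw [powerset_empty, sum_singleton, empty_sdiff, prod_empty, mul_one] at h2
    have h3 : ((-1 : R) ^ (∅ ∪ A).card) * (-1) ^ (∅ ∪ A).card = 1 := by
      rw [← mul_pow]
      simp
    have h4 := congrArg (fun z => (-1 : R) ^ (∅ ∪ A).card * z) h2
    simp only [← mul_assoc, h3, one_mul, mul_zero] at h4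
    exact h4

/-- the matrix of the primes of exponent two of the second kind -/
def blkL (s : ι → ι → R) (τ : ι → R) (V : Finset ι) (i j : ι) : R :=
  if i = j then τ i + ∑ p ∈ V.erase i, s i p else -s i j

/-- the final matrix -/
def blkM (s : ι → ι → R) (κ τ : ι → R) (T V : Finset ι) (i j : ι) : R :=
  if i = j then (if i ∈ T then κ i + ∑ p ∈ T.erase i, s i p else τ i + ∑ p ∈ V.erase i, s i p)
  else -s i j

/-- **The sum over the subsets of `V` is the determinant of the final matrix.** -/
theorem DE_final [Nontrivial R] (s : ι → ι → R) (κ τ : ι → R) {T V : Finset ι}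
    (hTV : Disjoint T V) (hu : ∀ b ∈ V, κ b + ∑ p ∈ T, s b p = 0) :
    ∑ A ∈ V.powerset, cf (DE s κ T A) A * pdt (blkL s τ V) (V \ A) =
      pdt (blkM s κ τ T V) (T ∪ V) := by
  let l : ι → R := fun i => τ i + ∑ p ∈ V.erase i, s i p
  have h1 : pdt (blkM s κ τ T V) (T ∪ V) =
      ∑ J ∈ V.powerset, (∏ i ∈ J, l i) * pdt (BB s κ T) (T ∪ (V \ J)) := by
    have h2 := pdt_diag_aux (BB s κ T) l V (S := T ∪ V) subset_union_right
    have h3 : pdt (fun i j => BB s κ T i j + if i = j ∧ i ∈ V then l i else 0) (T ∪ V) =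
        pdt (blkM s κ τ T V) (T ∪ V) := by
      refine pdt_congr fun i hi j _ => ?_
      rw [BB, blkM]
      by_cases hij : i = j
      · rw [if_pos hij, if_pos hij]
        rcases mem_union.1 hi with h | h
        · have hV : i ∉ V := fun h' => disjoint_left.1 hTV h h'
          rw [if_pos h, if_pos h, if_neg (fun h' => hV h'.2), add_zero]
        · have hT : i ∉ T := fun h' => disjoint_left.1 hTV h' h
          rw [if_neg hT, if_neg hT, if_pos ⟨hij, h⟩, zero_add]
      · rw [if_neg hij, if_neg hij, if_neg (fun h' => hij h'.1), add_zero]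
    rw [← h3, h2]
    refine sum_congr rfl fun J hJ => ?_
    rw [union_sdiff_distrib, sdiff_eq_self_of_disjoint
      (disjoint_of_subset_right (mem_powerset.1 hJ) hTV)]
  rw [h1]
  refine conv_four (g := fun A => cf (DE s κ T A) A) (per := perE s)
    (mB := fun A => pdt (BB s κ T) (T ∪ A)) (mS := pdt (BB s 0 ∅)) (mL := pdt (blkL s τ V))
    (l := fun J => ∏ i ∈ J, l i) ?_ ?_ ?_
  · intro A hA
    exact cf_DE s κ (disjoint_of_subset_right hA hTV) fun b hb => hu b (hA hb)
  · intro A _
    exact perE_conv s A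
  · intro A _
    rw [← pdt_diag]
    refine pdt_congr fun i _ j _ => ?_
    rw [blkL, BB]
    by_cases hij : i = j
    · rw [if_pos hij, if_pos hij, if_pos hij, if_neg (notMem_empty i), zero_add]
    · rw [if_neg hij, if_neg hij, if_neg hij, add_zero]

end Pool.Agent.Lib.MP_1a91b9_ntQ
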