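import Pool.Agent.Lib.MP_1a91b9_ntQ.A.EV

/-!
# Quartic twists, class (E) (`lam` divides `D`), file EPr: the two functions of a pair

`w' = -(w + i pe ^ 3)` (`c = 1`) or `w' = -(w + pe ^ 3)` (`c = -1`): `kE w' * kE w = -(c i)`,
`pE w' * kE w = - mE w`, `mE w' * kE w = c i pE w`.
-/

set_option autoImplicit false
set_option linter.unusedSectionVars false

namespace Pool.Agent.Lib.MP_1a91b9_ntQ

open NumberField Pool.Agent.Lib.MP_1a91b9_nuT Pool.Agent.Lib.MP_1a91b9_nuT.S3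
  Pool.Agent.Lib.MP_1a91b9_nuT.Ell

noncomputable section

variable [CD] [hq : Q4]

theorem X_sq_add_ne {w : ℂ} (hw : 2 * (lm * w) ∉ PP.lattice) : X w ^ 2 + 1 ≠ 0 := by
  have hw1 := two_of hw
  rw [← gg_lm hw]
  exact mul_ne_zero (gg_ne hw) (mul_ne_zero lm_ne (mul_ne_zero (gg_ne hw1) (X_ne hw1)))

theorem X_add_zt_ne {w : ℂ} (hw : 2 * (lm * w) ∉ PP.lattice) : X w + zt ≠ 0 ∧ X w - zt ≠ 0 := by
  have h := X_sq_add_ne hw
  have e : (X w + zt) * (X w - zt) = X w ^ 2 + 1 := by linear_combination -zt_sq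
  rw [← e] at h
  exact ⟨left_ne_zero_of_mul h, right_ne_zero_of_mul h⟩

/-- the relations of a pair -/
def PairE (c w w' : ℂ) : Prop :=
  kE w' * kE w = -(c * zt) ∧ pE w' * kE w = -mE w ∧ mE w' * kE w = c * (zt * pE w)

/-- the value of `gE` at `-(w + pe ^ 3)` -/
theorem gE_pair0 {w : ℂ} (hw : 2 * (lm * w) ∉ PP.lattice) :
    gE (-(w + pe ^ 3)) * (X w + zt) = z8 * (X w - zt) := by
  have a1 := gE_mul (hq := hq) (-(w + pe ^ 3))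
  have a2 := gg_add_pe3 hw
  have a3 := yh_pe3 (hq := hq)
  have a4 := s8_sq (hq := hq)
  have a5 := z8_sq (hq := hq)
  rw [gg_neg] at a1
  rw [a3] at a2
  apply mul_left_cancel₀ (mul_ne_zero (lm_ne (hq := hq)) (z8_ne (hq := hq)))
  linear_combination (X w + zt) * a1 - s8 * a2 + zt * lm * (X w - zt) * a4 -
    lm * (X w - zt) * a5

/-- the value of `X` at `-(w + pe ^ 3)` -/
theorem X_pair0 {w : ℂ} (hw : 2 * (lm * w) ∉ PP.lattice) :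
    X (-(w + pe ^ 3)) * (X w + zt) ^ 2 = -(zt * (X w - zt) ^ 2) + 4 * zt * (z8 * gE w * X w) := by
  have a1 := X_add_pe3 hw
  have a2 := gE_mul (hq := hq) w
  have a3 := yh_pe3 (hq := hq)
  have a4 := lm_sq (hq := hq)
  rw [Ell.X_neg, a1, a3]
  linear_combination (-2 * lm * X w) * a2 + 2 * z8 * gE w * X w * a4

/-- the value of `gE` and of `X` at `-(w + i pe ^ 3)` -/
theorem gE_pair1 {w : ℂ} (hw : 2 * (lm * w) ∉ PP.lattice) :
    2 * (-(w + zt * pe ^ 3)) ∉ PP.lattice ∧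
    gE (-(w + zt * pe ^ 3)) * (z8 * (X w - zt)) = X w + zt ∧
    X (-(w + zt * pe ^ 3)) * (X w - zt) ^ 2 = zt * (X w + zt) ^ 2 - 4 * (z8 * gE w * X w) := by
  have hw1 := two_of hw
  obtain ⟨v, hv⟩ : ∃ v, v = -(zt * w) := ⟨_, rfl⟩
  have hv2 : 2 * (lm * v) ∉ PP.lattice := by
    have e : 2 * (lm * v) = zt * -(2 * (lm * w)) := by rw [hv]; ring
    rw [e]
    exact zt_mem_iff.not.2 (neg_notMem hw)
  have hv3 : 2 * (v + pe ^ 3) ∉ PP.lattice := two_of (two_lm_add hv2)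
  have e0 : w + zt * pe ^ 3 = zt * (v + pe ^ 3) := by
    rw [hv]
    linear_combination w * zt_sq
  have e1 : X v = -X w := by rw [hv, Ell.X_neg, X_i (notMem_of_two_mul hw1)]
  have e2 : gg v = zt * gg w := by rw [hv, gg_neg, gg_i hw1, neg_neg]
  have a1 := gg_add_pe3 hv2
  have a2 := X_add_pe3 hv2
  rw [e1] at a1 a2
  rw [e2] at a2
  have b1 := gg_i hv3
  have b2 := X_i (notMem_of_two_mul hv3)
  rw [← e0] at b1 b2
  have a3 := yh_pe3 (hq := hq)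
  have a4 := s8_sq (hq := hq)
  have a5 := z8_sq (hq := hq)
  have a6 := gE_mul (hq := hq) (-(w + zt * pe ^ 3))
  have a7 := gE_mul (hq := hq) w
  have a8 := lm_sq (hq := hq)
  rw [gg_neg, b1] at a6
  rw [a3] at a1 a2
  refine ⟨?_, ?_, ?_⟩
  · rw [e0]
    exact two_neg_notMem (two_zt hv3)
  · apply mul_left_cancel₀ (lm_ne (hq := hq))
    linear_combination (X w - zt) * a6 - s8 * zt * a1 - zt ^ 2 * lm * (X w + zt) * a4 -
      lm * (X w + zt) * zt_sq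
  · rw [Ell.X_neg, b2]
    linear_combination -a2 - 2 * zt * lm * X w * a7 + 2 * zt * z8 * gE w * X w * a8 +
      4 * z8 * gE w * X w * zt_sq

/-- **The pairs, `k` even.** -/
theorem pairE0 {w : ℂ} (hw : 2 * (lm * w) ∉ PP.lattice) : PairE (-1) w (-(w + pe ^ 3)) := by
  have hw1 := two_of hw
  have hw' : 2 * (-(w + pe ^ 3)) ∉ PP.lattice := two_neg_notMem (two_of (two_lm_add hw))
  have a1 := gE_pair0 hw
  have a2 := X_pair0 hw
  have b1 := kE_mul hw1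
  have b2 := kE_mul hw'
  have b3 := gE_curve hw1
  have b4 := pE_mul hw1
  have b5 := mE_mul hw1
  have b6 := pE_mul hw'
  have b7 := mE_mul hw'
  have c1 := gE_ne hw1
  have c2 := gE_ne hw'
  have c3 := X_ne hw1
  have c4 := z8_ne (hq := hq)
  have c5 := sq2_ne (hq := hq)
  have d1 := z8_sq (hq := hq)
  have d2 := sq2_sq (hq := hq)
  have d3 := sq2_z8 (hq := hq)
  have d4 : lm = 1 + zt := rfl
  rw [PairE]
  obtain ⟨x, hx⟩ : ∃ x, x = X w := ⟨_, rfl⟩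
  obtain ⟨g, hg⟩ : ∃ g, g = gE w := ⟨_, rfl⟩
  obtain ⟨g', hg'⟩ : ∃ g', g' = gE (-(w + pe ^ 3)) := ⟨_, rfl⟩
  obtain ⟨x', hx'⟩ : ∃ x', x' = X (-(w + pe ^ 3)) := ⟨_, rfl⟩
  obtain ⟨k, hk⟩ : ∃ k, k = kE w := ⟨_, rfl⟩
  obtain ⟨k', hk'⟩ : ∃ k', k' = kE (-(w + pe ^ 3)) := ⟨_, rfl⟩
  obtain ⟨p, hp⟩ : ∃ p, p = pE w := ⟨_, rfl⟩
  obtain ⟨p', hp'⟩ : ∃ p', p' = pE (-(w + pe ^ 3)) := ⟨_, rfl⟩
  obtain ⟨m, hm⟩ : ∃ m, m = mE w := ⟨_, rfl⟩
  obtain ⟨m', hm'⟩ : ∃ m', m' = mE (-(w + pe ^ 3)) := ⟨_, rfl⟩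
  rw [← hg', ← hx] at a1
  rw [← hx', ← hx, ← hg] at a2
  rw [← hx] at c3
  rw [← hk, ← hx, ← hg] at b1
  rw [← hx, ← hg] at b3
  rw [← hk', ← hx', ← hg'] at b2
  rw [← hp, ← hg] at b4
  rw [← hm, ← hg] at b5
  rw [← hg] at c1
  rw [← hp', ← hg'] at b6
  rw [← hm', ← hg'] at b7
  rw [← hg'] at c2
  rw [← hk, ← hk', ← hp, ← hp', ← hm, ← hm']
  -- `x ^ 2 + 1 = 2 x k sq2 g`
  have e1 : x ^ 2 + 1 = 2 * x * (k * (sq2 * g)) := by linear_combination -b3 - 2 * x * b1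
  have e2 : x ^ 2 - 1 = -2 * g ^ 2 * x := by linear_combination b3
  have hne : 2 * x * (sq2 * g) ≠ 0 :=
    mul_ne_zero (mul_ne_zero two_ne_zero c3) (mul_ne_zero c5 c1)
  refine ⟨?_, ?_, ?_⟩
  · -- `kE`
    have f1 : k' * (sq2 * z8 * (x ^ 2 + 1)) = 4 * zt * (z8 * g * x) := by
      linear_combination (-k' * sq2 * (x + zt)) * a1 + (x + zt) ^ 2 * b2 + a2 +
        (g' * (x + zt) + z8 * (x - zt)) * a1 + (x - zt) ^ 2 * d1 + k' * sq2 * z8 * zt_sq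
    apply mul_left_cancel₀ hne
    apply mul_left_cancel₀ c4
    linear_combination (sq2 / 2) * f1 - (sq2 ^ 2 / 2 * k' * z8) * e1 -
      (sq2 * x * z8 * k * g * k') * d2
  · -- `pE`
    have f1 : p' * (z8 * ((x - zt) * (x + zt))) = zt * (x - zt) ^ 2 + (x + zt) ^ 2 := by
      apply mul_left_cancel₀ c2
      linear_combination (z8 * ((x - zt) * (x + zt))) * b6 +
        (g' * z8 * (x - zt) - (x + zt)) * a1 + g' * (x - zt) ^ 2 * d1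
    have f2 : p' * (x ^ 2 + 1) = sq2 * (x ^ 2 + 2 * x - 1) := by
      apply mul_left_cancel₀ c4
      linear_combination f1 - (x ^ 2 + 2 * x - 1) * d3 - (x ^ 2 + 2 * x - 1) * d4 +
        (z8 * p' + 1 + zt - 2 * x) * zt_sq
    apply mul_left_cancel₀ hne
    linear_combination f2 - p' * e1 + sq2 * e2 + 2 * x * sq2 * b5
  · -- `mE`
    have f1 : m' * (z8 * ((x - zt) * (x + zt))) = zt * (x - zt) ^ 2 - (x + zt) ^ 2 := by
      apply mul_left_cancel₀ c2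
      linear_combination (z8 * ((x - zt) * (x + zt))) * b7 +
        (g' * z8 * (x - zt) + (x + zt)) * a1 + g' * (x - zt) ^ 2 * d1
    have f2 : m' * (x ^ 2 + 1) = zt * (sq2 * (x ^ 2 - 2 * x - 1)) := by
      apply mul_left_cancel₀ c4
      linear_combination f1 - zt * (x ^ 2 - 2 * x - 1) * d3 - zt * (x ^ 2 - 2 * x - 1) * d4 +
        (z8 * m' + zt - x ^ 2) * zt_sq
    apply mul_left_cancel₀ hne
    linear_combination f2 - m' * e1 + zt * sq2 * e2 + 2 * x * sq2 * zt * b4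

/-- **The pairs, `k` odd.** -/
theorem pairE1 {w : ℂ} (hw : 2 * (lm * w) ∉ PP.lattice) : PairE 1 w (-(w + zt * pe ^ 3)) := by
  have hw1 := two_of hw
  obtain ⟨hw', a1, a2⟩ := gE_pair1 hw
  have b1 := kE_mul hw1
  have b2 := kE_mul hw'
  have b3 := gE_curve hw1
  have b4 := pE_mul hw1
  have b5 := mE_mul hw1
  have b6 := pE_mul hw'
  have b7 := mE_mul hw'
  have c1 := gE_ne hw1
  have c2 := gE_ne hw'
  have c3 := X_ne hw1
  have c4 := z8_ne (hq := hq)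
  have c5 := sq2_ne (hq := hq)
  have d1 := z8_sq (hq := hq)
  have d2 := sq2_sq (hq := hq)
  have d3 := sq2_z8 (hq := hq)
  have d4 : lm = 1 + zt := rfl
  rw [PairE]
  obtain ⟨x, hx⟩ : ∃ x, x = X w := ⟨_, rfl⟩
  obtain ⟨g, hg⟩ : ∃ g, g = gE w := ⟨_, rfl⟩
  obtain ⟨g', hg'⟩ : ∃ g', g' = gE (-(w + zt * pe ^ 3)) := ⟨_, rfl⟩
  obtain ⟨x', hx'⟩ : ∃ x', x' = X (-(w + zt * pe ^ 3)) := ⟨_, rfl⟩
  obtain ⟨k, hk⟩ : ∃ k, k = kE w := ⟨_, rfl⟩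
  obtain ⟨k', hk'⟩ : ∃ k', k' = kE (-(w + zt * pe ^ 3)) := ⟨_, rfl⟩
  obtain ⟨p, hp⟩ : ∃ p, p = pE w := ⟨_, rfl⟩
  obtain ⟨p', hp'⟩ : ∃ p', p' = pE (-(w + zt * pe ^ 3)) := ⟨_, rfl⟩
  obtain ⟨m, hm⟩ : ∃ m, m = mE w := ⟨_, rfl⟩
  obtain ⟨m', hm'⟩ : ∃ m', m' = mE (-(w + zt * pe ^ 3)) := ⟨_, rfl⟩
  rw [← hg', ← hx] at a1
  rw [← hx', ← hx, ← hg] at a2
  rw [← hx] at c3
  rw [← hk, ← hx, ← hg] at b1
  rw [← hx, ← hg] at b3
  rw [← hk', ← hx', ← hg'] at b2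
  rw [← hp, ← hg] at b4
  rw [← hm, ← hg] at b5
  rw [← hg] at c1
  rw [← hp', ← hg'] at b6
  rw [← hm', ← hg'] at b7
  rw [← hg'] at c2
  rw [← hk, ← hk', ← hp, ← hp', ← hm, ← hm']
  have e1 : x ^ 2 + 1 = 2 * x * (k * (sq2 * g)) := by linear_combination -b3 - 2 * x * b1
  have e2 : x ^ 2 - 1 = -2 * g ^ 2 * x := by linear_combination b3
  have hne : 2 * x * (sq2 * g) ≠ 0 :=
    mul_ne_zero (mul_ne_zero two_ne_zero c3) (mul_ne_zero c5 c1)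
  refine ⟨?_, ?_, ?_⟩
  · -- `kE`
    have f1 : k' * (sq2 * z8 * (x ^ 2 + 1)) = -4 * zt * (z8 * g * x) := by
      linear_combination (z8 ^ 2 * (x - zt) ^ 2) * b2 - (k' * sq2 * z8 * (x - zt)) * a1 +
        ((x - zt) ^ 2 * x') * d1 + zt * a2 + (g' * z8 * (x - zt) + (x + zt)) * a1 +
        ((x + zt) ^ 2 + k' * sq2 * z8) * zt_sq
    apply mul_left_cancel₀ hne
    apply mul_left_cancel₀ c4
    linear_combination (sq2 / 2) * f1 - (sq2 ^ 2 / 2 * k' * z8) * e1 -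
      (sq2 * x * z8 * k * g * k') * d2
  · -- `pE`
    have f1 : p' * (z8 * ((x - zt) * (x + zt))) = zt * (x - zt) ^ 2 + (x + zt) ^ 2 := by
      apply mul_left_cancel₀ c2
      linear_combination (z8 * ((x - zt) * (x + zt))) * b6 +
        (g' * (x + zt) - z8 * (x - zt)) * a1 + g' * (x - zt) ^ 2 * d1
    have f2 : p' * (x ^ 2 + 1) = sq2 * (x ^ 2 + 2 * x - 1) := by
      apply mul_left_cancel₀ c4
      linear_combination f1 - (x ^ 2 + 2 * x - 1) * d3 - (x ^ 2 + 2 * x - 1) * d4 +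
        (z8 * p' + 1 + zt - 2 * x) * zt_sq
    apply mul_left_cancel₀ hne
    linear_combination f2 - p' * e1 + sq2 * e2 + 2 * x * sq2 * b5
  · -- `mE`
    have f1 : m' * (z8 * ((x - zt) * (x + zt))) = (x + zt) ^ 2 - zt * (x - zt) ^ 2 := by
      apply mul_left_cancel₀ c2
      linear_combination (z8 * ((x - zt) * (x + zt))) * b7 +
        (g' * (x + zt) + z8 * (x - zt)) * a1 - g' * (x - zt) ^ 2 * d1
    have f2 : m' * (x ^ 2 + 1) = -(zt * (sq2 * (x ^ 2 - 2 * x - 1))) := by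
      apply mul_left_cancel₀ c4
      linear_combination f1 + zt * (x ^ 2 - 2 * x - 1) * d3 + zt * (x ^ 2 - 2 * x - 1) * d4 +
        (z8 * m' - zt + x ^ 2) * zt_sq
    apply mul_left_cancel₀ hne
    linear_combination f2 - m' * e1 - zt * sq2 * e2 - 2 * x * sq2 * zt * b4

/-! ### The sum of a pair -/

/-- the factor of `pE` -/
def aE (c io k : ℂ) : ℂ := 1 + k⁻¹ ^ 2 + c * zt * sq2 * io * k⁻¹

/-- the factor of `mE` -/
def bE (io k : ℂ) : ℂ := k + sq2 * io - k⁻¹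

theorem kE_ne {w : ℂ} (hw : 2 * (lm ^ 2 * w) ∉ PP.lattice) : kE w ≠ 0 := by
  intro h
  have h1 := kE_sq (two_lm_of hw)
  rw [h, zero_pow two_ne_zero] at h1
  exact X_ne hw h1.symm

/-- **The sum of the two functions of a pair.** -/
theorem jE_add {c io w w' : ℂ} (hk : kE w ≠ 0) (hc : c ^ 2 = 1) (h : PairE c w w') :
    jE io w + jE io w' = pE w * aE c io (kE w) + mE w * bE io (kE w) := by
  obtain ⟨h1, h2, h3⟩ := h
  obtain ⟨k, hk'⟩ : ∃ k, k = kE w := ⟨_, rfl⟩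
  obtain ⟨t, ht⟩ : ∃ t, t = k⁻¹ := ⟨_, rfl⟩
  rw [jE, jE, aE, bE]
  rw [← hk'] at h1 h2 h3 hk ⊢
  rw [← ht]
  have ht1 : k * t = 1 := by
    rw [ht]
    exact mul_inv_cancel₀ hk
  have e1 : kE w' = -(c * zt * t) := by linear_combination t * h1 - kE w' * ht1
  have e2 : pE w' = -(mE w * t) := by linear_combination t * h2 - pE w' * ht1
  have e3 : mE w' = c * (zt * pE w) * t := by linear_combination t * h3 - mE w' * ht1
  rw [e1, e2, e3]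
  linear_combination (-zt ^ 2 * pE w * t ^ 2) * hc - pE w * t ^ 2 * zt_sq

/-- the relation between `kE w` and `X (lm ^ 3 w)` -/
theorem kE_four {w : ℂ} (hw : 2 * (lm ^ 2 * w) ∉ PP.lattice) :
    kE w ^ 4 - 1 = 2 * zt * kE w ^ 2 * X (lm ^ 3 * w) := by
  have h1 := kE_sq (two_lm_of hw)
  have h2 := X_lm hw
  have e : lm * (lm ^ 2 * w) = lm ^ 3 * w := by ring
  rw [e, ← h1] at h2
  linear_combination -h2

/-- **The identity of a pair.** -/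
theorem pair_id {c io k p m x : ℂ} (hc : c = 1 ∨ c = -1) (hi : io ^ 2 = -1) (hk : k ≠ 0)
    (hp : p ^ 2 = 2 * (k ^ 2 + 1)) (hm : m ^ 2 = 2 * (k ^ 2 - 1))
    (hx : k ^ 4 - 1 = 2 * zt * k ^ 2 * x) :
    ((p * aE c io k) ^ 2 - (m * bE io k) ^ 2) * k ^ 2 =
      4 * zt * (k ^ 2 + c * zt) *
        (-((k ^ 2 - c * zt) * (x + 3 * zt)) - 2 * sq2 * io * k * (x + zt - c)) := by
  have h2 := sq2_sq (hq := hq)
  obtain ⟨s, hs⟩ : ∃ s, s = sq2 := ⟨_, rfl⟩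
  obtain ⟨i, hi'⟩ : ∃ i, i = zt := ⟨_, rfl⟩
  have h3 : i ^ 2 = -1 := by rw [hi', zt_sq]
  rw [aE, bE]
  rw [← hs] at h2 ⊢
  rw [← hi'] at hx ⊢
  have hk2 : k ^ 2 ≠ 0 := pow_ne_zero 2 hk
  -- clear the denominators
  have e1 : (1 + k⁻¹ ^ 2 + c * i * s * io * k⁻¹) * k ^ 2 = k ^ 2 + 1 + c * i * s * io * k := by
    field_simp
  have e2 : (k + s * io - k⁻¹) * k = k ^ 2 + s * io * k - 1 := by
    field_simp
  obtain ⟨A, hA⟩ : ∃ A, A = 1 + k⁻¹ ^ 2 + c * i * s * io * k⁻¹ := ⟨_, rfl⟩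
  obtain ⟨C, hC⟩ : ∃ C, C = k + s * io - k⁻¹ := ⟨_, rfl⟩
  rw [← hA] at e1 ⊢
  rw [← hC] at e2 ⊢
  apply mul_right_cancel₀ hk2
  have gen : ∀ P Q κ : ℂ, A * k ^ 2 = P → C * k = Q →
      2 * (k ^ 2 + 1) * P ^ 2 - 2 * (k ^ 2 - 1) * k ^ 2 * Q ^ 2 = κ →
      ((p * A) ^ 2 - (m * C) ^ 2) * k ^ 2 * k ^ 2 = κ := by
    intro P Q κ h1 h4 h5
    linear_combination p ^ 2 * (A * k ^ 2 + P) * h1 - m ^ 2 * k ^ 2 * (C * k + Q) * h4 +
      P ^ 2 * hp - k ^ 2 * Q ^ 2 * hm + h5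
  refine gen _ _ _ e1 e2 ?_
  rcases hc with rfl | rfl
  · linear_combination (2 * (k ^ 2 + i) * (-(k ^ 2 - i) - 2 * s * io * k)) * hx +
      (2 * (k ^ 2 + 1) * k ^ 2 * s ^ 2 * io ^ 2 + 8 * s * io * k ^ 3 * (k ^ 2 + i - 1) +
        12 * k ^ 6 - 2 * k ^ 4 + 2 + 12 * k ^ 2 * (1 - i ^ 2)) * h3 +
      (-2 * (k ^ 2 + 1) * k ^ 2 * io ^ 2 - 2 * (k ^ 2 - 1) * k ^ 4 * io ^ 2) * h2 +
      (-4 * (k ^ 2 + 1) * k ^ 2 - 4 * (k ^ 2 - 1) * k ^ 4) * hi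
  · linear_combination (2 * (k ^ 2 - i) * (-(k ^ 2 + i) - 2 * s * io * k)) * hx +
      (2 * (k ^ 2 + 1) * k ^ 2 * s ^ 2 * io ^ 2 + 8 * s * io * k ^ 3 * (k ^ 2 - i - 1) +
        12 * k ^ 6 - 2 * k ^ 4 + 2 + 12 * k ^ 2 * (1 - i ^ 2)) * h3 +
      (-2 * (k ^ 2 + 1) * k ^ 2 * io ^ 2 - 2 * (k ^ 2 - 1) * k ^ 4 * io ^ 2) * h2 +
      (-4 * (k ^ 2 + 1) * k ^ 2 - 4 * (k ^ 2 - 1) * k ^ 4) * hi

end

end Pool.Agent.Lib.MP_1a91b9_ntQ
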