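import Pool.Agent.Lib.MP_1a91b9_ntQ.A.LocO

/-!
# Quartic twists, class (E) (`lam` divides `D`), file EV: the square of the character sum

`sq2 ^ 2 = 2`, `z8 = lm / sq2`, `z8 ^ 2 = i`, `s8` a sign. At `w = lm ^ 2 z`: `gE w = s8 gg w / (lm z8)`,
`kE w = (X w + gE w ^ 2) / (sq2 gE w)`, `pE = gE + 1 / gE`, `mE = gE - 1 / gE`, and
`(PO i z + io PO i (z + pe ^ 4)) ^ 2 = -8 sq2 jE io w`, `io = i, - i`.
-/

set_option autoImplicit false
set_option linter.unusedSectionVars false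

namespace Pool.Agent.Lib.MP_1a91b9_ntQ

open NumberField Pool.Agent.Lib.MP_1a91b9_nuT Pool.Agent.Lib.MP_1a91b9_nuT.S3
  Pool.Agent.Lib.MP_1a91b9_nuT.Ell

noncomputable section

variable [CD] [hq : Q4]

/-! ### the addition formulas -/

theorem neg_notMem {z : ℂ} (h : z ∉ PP.lattice) : -z ∉ PP.lattice := fun h1 =>
  h (by simpa using neg_mem h1)

theorem two_neg_notMem {z : ℂ} (h : 2 * z ∉ PP.lattice) : 2 * -z ∉ PP.lattice := by
  rw [mul_neg]
  exact neg_notMem h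

/-- the sum of the slopes -/
theorem sl_pm {z t : ℂ} (hz : 2 * z ∉ PP.lattice) (ht : 2 * t ∉ PP.lattice)
    (h1 : z - t ∉ PP.lattice) (h2 : z + t ∉ PP.lattice) :
    (sl z t + sl z (-t)) * (X z - X t) = 2 * yh z := by
  have a1 := chord hz ht h1 h2
  have a2 := chord hz (two_neg_notMem ht) (by rwa [sub_neg_eq_add]) (by rwa [← sub_eq_add_neg])
  rw [Ell.X_neg, Ell.Y_neg] at a2
  rw [yh]
  linear_combination (-1 / 2) * (a1 + a2)

theorem E1_add_sl (z t : ℂ) : E1 (z + t) = E1 z + E1 t + Om * sl z t := by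
  rw [sl, mul_div_cancel₀ _ Om_ne_zero]
  ring

/-- the addition formula for `gg`, symmetric form -/
theorem gg_pm {z t : ℂ} (hz : 2 * z ∉ PP.lattice) (ht : 2 * t ∉ PP.lattice)
    (h1 : z - t ∉ PP.lattice) (h2 : z + t ∉ PP.lattice) (h3 : z + pe - t ∉ PP.lattice)
    (h4 : z + pe + t ∉ PP.lattice) :
    (gg (z + t) + gg (z - t)) * ((1 + X z * X t) * (X t - X z)) =
      2 * (gg z * X z) * (X t ^ 2 + 1) := by
  have a1 := sl_pm hz ht h1 h2
  have a2 := sl_pm (two_add_pe hz) ht h3 h4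
  have b1 := gg_mul hz
  have b2 := gg_mul (two_add_pe hz)
  have b3 := X_add_pe hz
  rw [gg_add_pe] at b2
  rw [← b1] at a1
  rw [← b2] at a2
  have e1 : gg (z + t) + gg (z - t) = 2 * gg z + (sl (z + pe) t + sl (z + pe) (-t)) -
      (sl z t + sl z (-t)) := by
    have e2 : z - t = z + -t := by ring
    have e3 : z + t + pe = z + pe + t := by ring
    have e4 : z + -t + pe = z + pe + -t := by ring
    rw [e2, gg_eq (z + t), gg_eq (z + -t), gg_eq z, e3, e4, E1_add_sl (z + pe) t,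
      E1_add_sl (z + pe) (-t), E1_add_sl z t, E1_add_sl z (-t)]
    have hO := Om_ne_zero
    field_simp
    ring
  have a3 : (sl (z + pe) t + sl (z + pe) (-t)) * (1 + X z * X t) = -2 * gg z := by
    linear_combination (-X z) * a2 + (sl (z + pe) t + sl (z + pe) (-t) + 2 * gg z) * b3
  rw [e1]
  linear_combination (X t - X z) * a3 + (1 + X z * X t) * a1

/-! ### the constants -/

theorem pe4_eq : pe ^ 4 = -1 / 4 := by
  rw [pe, inv_pow, lm_four]
  norm_num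

theorem X_pe4_ne : X (pe ^ 4) ≠ 0 := X_ne two_pe4_notMem

/-- a square root of `2` -/
def sq2 : ℂ := (X (pe ^ 4) + 1) / X (pe ^ 4)

theorem sq2_mul : sq2 * X (pe ^ 4) = X (pe ^ 4) + 1 := div_mul_cancel₀ _ X_pe4_ne

theorem sq2_sq : sq2 ^ 2 = 2 := by
  have h1 := sq2_mul (hq := hq)
  have h2 := X_pe4 (hq := hq)
  apply mul_right_cancel₀ (pow_ne_zero 2 (X_pe4_ne (hq := hq)))
  linear_combination (sq2 * X (pe ^ 4) + X (pe ^ 4) + 1) * h1 - h2

theorem sq2_ne : sq2 ≠ 0 := by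
  intro h
  have h1 := sq2_sq (hq := hq)
  rw [h] at h1
  norm_num at h1

/-- a square root of `i` -/
def z8 : ℂ := lm / sq2

theorem sq2_z8 : sq2 * z8 = lm := mul_div_cancel₀ _ sq2_ne

theorem z8_sq : z8 ^ 2 = zt := by
  have h1 := sq2_z8 (hq := hq)
  have h2 := sq2_sq (hq := hq)
  have h3 := lm_sq (hq := hq)
  linear_combination (1 / 2) * (sq2 * z8 + lm) * h1 + (1 / 2) * h3 - (1 / 2) * z8 ^ 2 * h2

theorem z8_ne : z8 ≠ 0 := div_ne_zero lm_ne sq2_ne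

theorem lm_z8 : lm * z8 = sq2 * zt := by
  linear_combination -z8 * sq2_z8 (hq := hq) + sq2 * z8_sq (hq := hq)

/-- the sign of `Om` -/
def s8 : ℂ := -(yh (pe ^ 3) / lm)

theorem yh_pe3 : yh (pe ^ 3) = -(s8 * lm) := by
  have h := lm_ne (hq := hq)
  rw [s8]
  field_simp

theorem yh_pe3_sq : yh (pe ^ 3) ^ 2 = 2 * zt := by
  rw [yh_sq (notMem_of_two_mul two_pe3_notMem), X_pe3]
  linear_combination -zt * zt_sq

theorem s8_sq : s8 ^ 2 = 1 := by
  have h1 := yh_pe3_sq (hq := hq)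
  rw [yh_pe3] at h1
  apply mul_right_cancel₀ (pow_ne_zero 2 (lm_ne (hq := hq)))
  linear_combination h1 - lm_sq

theorem s8_ne : s8 ≠ 0 := by
  intro h
  have h1 := s8_sq (hq := hq)
  rw [h] at h1
  norm_num at h1

/-! ### adding `pe ^ 3`, multiplying by `lm` -/

theorem lm3_mem_of {z : ℂ} (h : z ∈ PP.lattice ∨ z + pe ∈ PP.lattice ∨ z - pe ^ 3 ∈ PP.lattice ∨
    z + pe ^ 3 ∈ PP.lattice ∨ z + pe - pe ^ 3 ∈ PP.lattice ∨ z + pe + pe ^ 3 ∈ PP.lattice) :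
    2 * (lm * z) ∈ PP.lattice := by
  have hp := lm_mul_pe (hq := hq)
  have hl : ∀ x : ℂ, x ∈ PP.lattice → 2 * (lm * x) ∈ PP.lattice := fun x hx =>
    two_mem (lm_mem_mul hx)
  have h1 : 2 * (lm * pe) ∈ PP.lattice := by
    rw [hp]
    exact two_mem one_mem
  have h3 : 2 * (lm * pe ^ 3) ∈ PP.lattice := by
    have e : 2 * (lm * pe ^ 3) = -zt := by
      have h2 := pe_sq (hq := hq)
      linear_combination (-zt) * h2 + 2 * pe ^ 2 * hp + 2 * pe ^ 2 * zt_sq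
    rw [e]
    exact neg_mem zt_mem
  rcases h with h | h | h | h | h | h
  · exact hl _ h
  · have e : 2 * (lm * z) = 2 * (lm * (z + pe)) - 2 * (lm * pe) := by ring
    rw [e]
    exact sub_mem (hl _ h) h1
  · have e : 2 * (lm * z) = 2 * (lm * (z - pe ^ 3)) + 2 * (lm * pe ^ 3) := by ring
    rw [e]
    exact add_mem (hl _ h) h3
  · have e : 2 * (lm * z) = 2 * (lm * (z + pe ^ 3)) - 2 * (lm * pe ^ 3) := by ring
    rw [e]
    exact sub_mem (hl _ h) h3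
  · have e : 2 * (lm * z) = 2 * (lm * (z + pe - pe ^ 3)) - 2 * (lm * pe) + 2 * (lm * pe ^ 3) := by
      ring
    rw [e]
    exact add_mem (sub_mem (hl _ h) h1) h3
  · have e : 2 * (lm * z) = 2 * (lm * (z + pe + pe ^ 3)) - 2 * (lm * pe) - 2 * (lm * pe ^ 3) := by
      ring
    rw [e]
    exact sub_mem (sub_mem (hl _ h) h1) h3

/-- `gg` at `z + pe ^ 3` -/
theorem gg_add_pe3 {z : ℂ} (hz : 2 * (lm * z) ∉ PP.lattice) :
    gg (z + pe ^ 3) * (X z + zt) = zt * yh (pe ^ 3) * (X z - zt) := by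
  have hz1 := two_of hz
  have k := fun h => hz (lm3_mem_of (hq := hq) h)
  have a1 := chord hz1 two_pe3_notMem (fun h => k (by tauto)) (fun h => k (by tauto))
  have a2 := chord (two_add_pe hz1) two_pe3_notMem (fun h => k (by tauto)) (fun h => k (by tauto))
  have b1 := gg_mul hz1
  have b2 := gg_mul (two_add_pe hz1)
  have b3 := X_add_pe hz1
  rw [gg_add_pe] at b2
  have e1 : gg (z + pe ^ 3) = gg z + sl (z + pe) (pe ^ 3) - sl z (pe ^ 3) := by
    have e3 : z + pe ^ 3 + pe = z + pe + pe ^ 3 := by ring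
    rw [gg_eq (z + pe ^ 3), gg_eq z, e3, E1_add_sl (z + pe) (pe ^ 3), E1_add_sl z (pe ^ 3)]
    have hO := Om_ne_zero
    field_simp
    ring
  rw [X_pe3] at a1 a2
  have c1 : yh z - yh (pe ^ 3) = sl z (pe ^ 3) * (X z + zt) := by
    rw [yh, yh]
    linear_combination (1 / 2) * a1
  have c2 : yh (z + pe) - yh (pe ^ 3) = sl (z + pe) (pe ^ 3) * (X (z + pe) + zt) := by
    rw [yh, yh]
    linear_combination (1 / 2) * a2
  rw [← b1] at c1
  rw [← b2] at c2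
  have c3 : sl (z + pe) (pe ^ 3) * (X z + zt) = -(zt * (gg z - yh (pe ^ 3) * X z)) := by
    linear_combination (zt * X z) * c2 + (zt * gg z + zt * sl (z + pe) (pe ^ 3)) * b3 +
      sl (z + pe) (pe ^ 3) * X z * zt_sq
  rw [e1]
  linear_combination c3 + c1 + yh (pe ^ 3) * zt_sq

/-- `X` at `z + pe ^ 3` -/
theorem X_add_pe3 {z : ℂ} (hz : 2 * (lm * z) ∉ PP.lattice) :
    X (z + pe ^ 3) * (X z + zt) ^ 2 = -(zt * (X z - zt) ^ 2) - 2 * yh (pe ^ 3) * (gg z * X z) := by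
  have hz1 := two_of hz
  have k := fun h => hz (lm3_mem_of (hq := hq) h)
  have a1 := chord hz1 two_pe3_notMem (fun h => k (by tauto)) (fun h => k (by tauto))
  have b1 := gg_mul hz1
  have b2 := yh_sq (notMem_of_two_mul hz1)
  have b4 := yh_pe3_sq (hq := hq)
  have a2 := sl_sq (notMem_of_two_mul hz1) (notMem_of_two_mul two_pe3_notMem)
    (fun h => k (by tauto))
  rw [X_pe3] at a1 a2
  have c1 : yh z - yh (pe ^ 3) = sl z (pe ^ 3) * (X z + zt) := by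
    rw [yh, yh]
    linear_combination (1 / 2) * a1
  rw [b1]
  linear_combination (X z + zt) ^ 2 * a2 -
    (yh z - yh (pe ^ 3) + sl z (pe ^ 3) * (X z + zt)) * c1 + b2 + b4 +
    (2 * zt - X z) * zt_sq

/-- `gg` at `lm z` -/
theorem gg_lm {z : ℂ} (hz : 2 * (lm * z) ∉ PP.lattice) :
    gg (lm * z) * (lm * (gg z * X z)) = X z ^ 2 + 1 := by
  have hz1 := two_of hz
  have hp := lm_mul_pe (hq := hq)
  have hX := X_sq_ne hz1
  have hX1 : X z + 1 ≠ 0 := fun h => hX (by linear_combination (X z - 1) * h)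
  -- `pe ^ 2`
  have hp2 : pe ^ 2 = -(zt / 2) := by
    rw [pe_eq]
    linear_combination (1 / 4) * zt_sq
  have t1 : 2 * pe ^ 2 ∈ PP.lattice := by
    have e : 2 * pe ^ 2 = -zt := by rw [hp2]; ring
    rw [e]
    exact neg_mem zt_mem
  have t2 : pe ^ 2 ∉ PP.lattice := by
    intro h
    apply half_notMem'
    have h1 := zt_mul_mem h
    have e : zt * pe ^ 2 = 1 / 2 := by
      rw [hp2]
      linear_combination (-1 / 2) * zt_sq
    rwa [e] at h1
  have a1 := sl_two t1 t2 hz1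
  rw [X_pe2, ← gg_mul hz1] at a1
  have a2 : gg (z + pe ^ 2) * gg z = 2 := by
    have e : z + pe ^ 2 - (z + 1 / 2 + pe) ∈ PP.lattice := by
      have e1 : z + pe ^ 2 - (z + 1 / 2 + pe) = -1 := by
        rw [hp2, pe_eq]
        ring
      rw [e1]
      exact neg_mem one_mem
    rw [gg_congr e, gg_add_pe]
    linear_combination -gg_half hz1
  have a3 : gg (lm * z) = (1 - zt) * sl z (pe ^ 2) + pe * (gg (z + pe ^ 2) - gg z) := by
    have b1 := E1_lm hz1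
    have b2 := E1_lm (z := z + pe ^ 2) (by
      intro h
      apply hz1
      have e : 2 * z = 2 * (z + pe ^ 2) - 2 * pe ^ 2 := by ring
      rw [e]
      exact sub_mem h t1)
    have e : lm * (z + pe ^ 2) = lm * z + pe := by linear_combination pe * hp
    rw [e] at b2
    have b3 := E1_add_two t1 z
    rw [gg_eq (lm * z), div_eq_iff Om_ne_zero, b1, b2, b3]
    ring
  have a4 := gg_sq_mul hz1
  have h1 := cj_lm (hq := hq)
  rw [a3]
  have e5 : sl z (pe ^ 2) * (X z + 1) = gg z * X z := by linear_combination a1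
  apply mul_right_cancel₀ hX1
  linear_combination (gg z * X z * (1 - zt) * lm) * e5 +
    (X z + 1) * (lm * pe) * X z * a2 + ((X z + 1) * (2 * X z - (X z * gg z ^ 2))) * hp +
    X z ^ 2 * gg z ^ 2 * h1 + (2 * X z - (X z + 1)) * a4

/-! ### the function `HH` -/

/-- `HH` at `z + pe ^ 3` -/
theorem HH_add_pe3 {z : ℂ} (hz : 2 * (lm * z) ∉ PP.lattice) :
    HH (z + pe ^ 3) * (zt * s8 * (X z ^ 2 + 1)) = 2 * (X z ^ 2 + 2 * X z - 1) := by
  have hz1 := two_of hz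
  have hz3 : 2 * (z + pe ^ 3) ∉ PP.lattice := two_of (two_lm_add hz)
  have a1 := HH_mul hz3
  have a2 := gg_add_pe3 hz
  have a3 := yh_pe3_sq (hq := hq)
  have a4 := yh_pe3 (hq := hq)
  have a5 := gg_ne hz3
  have h0 : X z + zt ≠ 0 := by
    intro h
    have h1 := gg_lm hz
    have h2 : X z ^ 2 + 1 = 0 := by linear_combination (X z - zt) * h + zt_sq
    rw [h2] at h1
    have h3 := gg_ne hz
    have h4 : lm * (gg z * X z) ≠ 0 := mul_ne_zero lm_ne (mul_ne_zero (gg_ne hz1) (X_ne hz1))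
    exact mul_ne_zero h3 h4 h1
  -- multiply by `(X + zt) ^ 2`
  have b1 : HH (z + pe ^ 3) * (zt * yh (pe ^ 3) * (X z - zt)) * (X z + zt) =
      -2 * lm * (X z ^ 2 + 2 * X z - 1) := by
    have e1 : (gg (z + pe ^ 3) * (X z + zt)) ^ 2 = -(2 * zt * (X z - zt) ^ 2) := by
      rw [a2]
      linear_combination zt ^ 2 * (X z - zt) ^ 2 * a3 + 2 * zt * (X z - zt) ^ 2 * zt_sq
    rw [← a2]
    have e2 : lm = 1 + zt := rfl
    rw [e2]
    linear_combination (X z + zt) ^ 2 * a1 + e1 + (-2 + 4 * X z - 2 * zt) * zt_sq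
  apply mul_left_cancel₀ (lm_ne (hq := hq))
  rw [a4] at b1
  linear_combination -b1 + HH (z + pe ^ 3) * zt * s8 * lm * zt_sq

/-- **The product of the two functions.** -/
theorem HH_mul_HH {z : ℂ} (hz : 2 * (lm ^ 2 * z) ∉ PP.lattice) :
    HH z * HH (z + pe ^ 3) = 4 * (s8 * gg (lm ^ 2 * z)) := by
  have hz2 := two_lm_of hz
  have hz1 := two_of hz2
  have e0 : lm ^ 2 * z = lm * (lm * z) := by ring
  rw [e0] at hz ⊢
  have a1 := HH_mul hz1
  have a2 := HH_add_pe3 hz2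
  have a3 := gg_lm hz2
  have a4 := gg_lm hz
  have a5 := X_lm hz1
  have a6 := gg_sq hz1
  have a7 := gg_sq_mul hz1
  have a8 := s8_sq (hq := hq)
  have c1 := X_ne hz1
  have c2 := X_ne hz2
  have c3 := gg_ne hz1
  have c4 := gg_ne hz2
  have c5 := gg_ne hz
  have c6 := lm_ne (hq := hq)
  have c7 := zt_ne0 (hq := hq)
  have c8 := s8_ne (hq := hq)
  obtain ⟨x, hx⟩ : ∃ x, x = X z := ⟨_, rfl⟩
  obtain ⟨x1, hx1⟩ : ∃ x1, x1 = X (lm * z) := ⟨_, rfl⟩
  obtain ⟨g, hg⟩ : ∃ g, g = gg z := ⟨_, rfl⟩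
  obtain ⟨g1, hg1⟩ : ∃ g1, g1 = gg (lm * z) := ⟨_, rfl⟩
  obtain ⟨g2, hg2⟩ : ∃ g2, g2 = gg (lm * (lm * z)) := ⟨_, rfl⟩
  obtain ⟨H, hH⟩ : ∃ H, H = HH z := ⟨_, rfl⟩
  obtain ⟨H', hH'⟩ : ∃ H', H' = HH (z + pe ^ 3) := ⟨_, rfl⟩
  rw [← hg, ← hH] at a1
  rw [← hx, ← hH'] at a2
  rw [← hx, ← hg, ← hg1] at a3
  rw [← hg1, ← hg2, ← hx1] at a4
  rw [← hx, ← hx1] at a5
  rw [← hg, ← hx1] at a6
  rw [← hx, ← hg] at a7
  rw [← hx] at c1
  rw [← hx1] at c2
  rw [← hg] at c3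
  rw [← hg1] at c4
  rw [← hg2] at c5
  rw [← hH, ← hH', ← hg2]
  have d1 : H * (g * x) = x ^ 2 - 2 * x - 1 := by linear_combination x * a1 + a7
  -- the product of the first relations
  have d2 : H * H' * (zt * s8 * (g * x) * (x ^ 2 + 1)) = 2 * ((x ^ 2 - 1) ^ 2 - 4 * x ^ 2) := by
    linear_combination (H' * (zt * s8 * (x ^ 2 + 1))) * d1 + (x ^ 2 - 2 * x - 1) * a2
  have d3 : 4 * (s8 * g2) * (zt * s8 * (g * x) * (x ^ 2 + 1)) =
      2 * ((x ^ 2 - 1) ^ 2 - 4 * x ^ 2) := by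
    have f1 : g2 * (g1 * lm) * x1 = x1 ^ 2 + 1 := by linear_combination a4
    have f2 : g ^ 2 * x ^ 2 * (x1 ^ 2 + 1) * (4 * zt) = 2 * x1 * ((x ^ 2 - 1) ^ 2 - 4 * x ^ 2) := by
      linear_combination (x ^ 2 * (x1 ^ 2 + 1) * (4 * zt)) * a6 +
        2 * x1 * (2 * zt * x1 * x + x ^ 2 - 1) * a5 + 8 * x1 * x ^ 2 * zt_sq
    apply mul_left_cancel₀ c2
    linear_combination (4 * g2 * zt * g * x * (x ^ 2 + 1) * x1) * a8 -
      (4 * g2 * zt * g * x * x1) * a3 + (4 * zt * g ^ 2 * x ^ 2) * f1 + f2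
  have d4 : zt * s8 * (g * x) * (x ^ 2 + 1) ≠ 0 := by
    refine mul_ne_zero (mul_ne_zero (mul_ne_zero c7 c8) (mul_ne_zero c3 c1)) ?_
    rw [← a3]
    exact mul_ne_zero c4 (mul_ne_zero c6 (mul_ne_zero c3 c1))
  exact mul_right_cancel₀ d4 (d2.trans d3.symm)

theorem four_notMem {z : ℂ} (hz : 2 * (lm ^ 2 * z) ∉ PP.lattice) : 4 * z ∉ PP.lattice := by
  intro h
  apply hz
  have e : 2 * (lm ^ 2 * z) = zt * (4 * z) := by
    rw [lm_sq]
    ring
  rw [e]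
  exact zt_mem_mul h

theorem add_notMem_of {n z t : ℂ} (hn : n ∈ PP.lattice) (hz : n * z ∉ PP.lattice)
    (ht : n * t ∈ PP.lattice) : z + t ∉ PP.lattice := by
  intro h
  apply hz
  have e : n * z = n * (z + t) - n * t := by ring
  rw [e]
  exact sub_mem (mul_mem hn h) ht

theorem four_mem : (4 : ℂ) ∈ PP.lattice := by
  have h : (4 : ℂ) = 2 * (2 * 1) := by norm_num
  rw [h]
  exact two_mem (two_mem one_mem)

theorem four_pe4 : 4 * pe ^ 4 ∈ PP.lattice := by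
  have e : 4 * pe ^ 4 = -1 := by
    rw [pe4_eq]
    norm_num
  rw [e]
  exact neg_mem one_mem

theorem four_pe : 4 * pe ∈ PP.lattice := by
  have e : 4 * pe = 2 * (2 * pe) := by ring
  rw [e]
  exact two_mem two_pe_mem

/-- `HH` at `z + pe ^ 4` -/
theorem HH_pe4 {z : ℂ} (hz : 2 * (lm ^ 2 * z) ∉ PP.lattice) :
    HH z * HH (z + pe ^ 4) = -(4 * sq2) := by
  have hz2 := two_lm_of hz
  have hz1 := two_of hz2
  have h4 := four_notMem hz
  have a1 := HH_mul hz1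
  have a7 := gg_sq_mul hz1
  have a3 := X_pe4 (hq := hq)
  have a4 := sq2_mul (hq := hq)
  have k1 : 4 * -pe ^ 4 ∈ PP.lattice := by
    rw [mul_neg]
    exact neg_mem four_pe4
  have a2 := gg_pm hz1 two_pe4_notMem
    (by rw [sub_eq_add_neg]; exact add_notMem_of four_mem h4 k1)
    (add_notMem_of four_mem h4 four_pe4)
    (by
      have e : z + pe - pe ^ 4 = z + (pe + -pe ^ 4) := by ring
      rw [e]
      exact add_notMem_of four_mem h4 (by rw [mul_add]; exact add_mem four_pe k1))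
    (by
      have e : z + pe + pe ^ 4 = z + (pe + pe ^ 4) := by ring
      rw [e]
      exact add_notMem_of four_mem h4 (by rw [mul_add]; exact add_mem four_pe four_pe4))
  have e1 : HH (z + pe ^ 4) = gg (z + pe ^ 4) + gg (z - pe ^ 4) := by
    have e : z + pe ^ 4 + 1 / 2 = z - pe ^ 4 := by
      rw [pe4_eq]
      ring
    rw [HH, e]
  rw [← e1] at a2
  have c0 := HH_sq hz2
  have d1 : HH z * (gg z * X z) = X z ^ 2 - 2 * X z - 1 := by linear_combination X z * a1 + a7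
  have c1 : X z ^ 2 - 2 * X z - 1 ≠ 0 := by
    rw [← d1]
    refine mul_ne_zero ?_ (mul_ne_zero (gg_ne hz1) (X_ne hz1))
    intro h0
    rw [h0] at c0
    have h5 := X_sq_ne hz
    apply h5
    linear_combination (-1 / 4) * (X (lm ^ 2 * z) - 1) * -c0
  have c2 := X_pe4_ne (hq := hq)
  apply mul_right_cancel₀ (mul_ne_zero c2 c1)
  linear_combination (-HH z) * a2 + (HH z * HH (z + pe ^ 4) * X z) * a3 +
    (-2 * (X (pe ^ 4) ^ 2 + 1)) * d1 - 2 * (X z ^ 2 - 2 * X z - 1) * a3 +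
    4 * (X z ^ 2 - 2 * X z - 1) * a4

/-! ### the square -/

/-- the normalised function `y / x` -/
def gE (w : ℂ) : ℂ := s8 * gg w / (lm * z8)

/-- the function `(X + g ^ 2) / (sq2 g)`, its square is `X (lm ^ 2 w)` -/
def kE (w : ℂ) : ℂ := (X w + gE w ^ 2) / (sq2 * gE w)

/-- the function `g + 1 / g` -/
def pE (w : ℂ) : ℂ := gE w + (gE w)⁻¹

/-- the function `g - 1 / g` -/
def mE (w : ℂ) : ℂ := gE w - (gE w)⁻¹

/-- the square of the character sum, up to a constant -/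
def jE (io w : ℂ) : ℂ := pE w + (kE w + sq2 * io) * mE w

theorem gE_mul (w : ℂ) : gE w * (lm * z8) = s8 * gg w :=
  div_mul_cancel₀ _ (mul_ne_zero lm_ne z8_ne)

theorem gE_ne {w : ℂ} (hw : 2 * w ∉ PP.lattice) : gE w ≠ 0 :=
  div_ne_zero (mul_ne_zero s8_ne (gg_ne hw)) (mul_ne_zero lm_ne z8_ne)

theorem gE_sq_gg (w : ℂ) : -2 * gE w ^ 2 = gg w ^ 2 := by
  have h1 := gE_mul (hq := hq) w
  have h2 := lm_z8 (hq := hq)
  rw [h2] at h1
  have h3 := sq2_sq (hq := hq)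
  have h4 := s8_sq (hq := hq)
  linear_combination (gE w * (sq2 * zt) + s8 * gg w) * h1 + gg w ^ 2 * h4 -
    gE w ^ 2 * zt ^ 2 * h3 - 2 * gE w ^ 2 * zt_sq

/-- `g ^ 2 = - i X (lm w)` -/
theorem gE_sq {w : ℂ} (hw : 2 * w ∉ PP.lattice) : gE w ^ 2 = -(zt * X (lm * w)) := by
  have h1 := gE_sq_gg (hq := hq) w
  rw [gg_sq hw] at h1
  linear_combination (-1 / 2) * h1

/-- the curve, `X ^ 2 + 2 g ^ 2 X = 1` -/
theorem gE_curve {w : ℂ} (hw : 2 * w ∉ PP.lattice) : X w ^ 2 + 2 * gE w ^ 2 * X w = 1 := by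
  have h1 := gE_sq_gg (hq := hq) w
  have h2 := gg_sq_mul hw
  rw [← h1] at h2
  linear_combination -h2

theorem kE_mul {w : ℂ} (hw : 2 * w ∉ PP.lattice) : kE w * (sq2 * gE w) = X w + gE w ^ 2 :=
  div_mul_cancel₀ _ (mul_ne_zero sq2_ne (gE_ne hw))

theorem pE_mul {w : ℂ} (hw : 2 * w ∉ PP.lattice) : pE w * gE w = gE w ^ 2 + 1 := by
  have h := gE_ne hw
  rw [pE]
  field_simp

theorem mE_mul {w : ℂ} (hw : 2 * w ∉ PP.lattice) : mE w * gE w = gE w ^ 2 - 1 := by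
  have h := gE_ne hw
  rw [mE]
  field_simp

theorem kE_sq {w : ℂ} (hw : 2 * (lm * w) ∉ PP.lattice) : kE w ^ 2 = X (lm ^ 2 * w) := by
  have hw1 := two_of hw
  have h1 := kE_mul hw1
  have h2 := gE_curve hw1
  have h3 := gE_sq hw1
  have h4 := X_lm hw
  have e0 : lm ^ 2 * w = lm * (lm * w) := by ring
  rw [e0]
  have h5 := sq2_sq (hq := hq)
  have c1 := gE_ne hw1
  have c2 : gE w ^ 2 ≠ 0 := pow_ne_zero 2 c1
  have h6 : kE w ^ 2 * (2 * gE w ^ 2) = 1 + gE w ^ 4 := by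
    linear_combination (kE w * (sq2 * gE w) + X w + gE w ^ 2) * h1 + h2 -
      kE w ^ 2 * gE w ^ 2 * h5
  have h7 : X (lm * (lm * w)) * (2 * gE w ^ 2) = 1 + gE w ^ 4 := by
    linear_combination -h4 + 2 * X (lm * (lm * w)) * h3 -
      (gE w ^ 2 - zt * X (lm * w)) * h3 - X (lm * w) ^ 2 * zt_sq
  exact mul_right_cancel₀ (mul_ne_zero two_ne_zero c2) (h6.trans h7.symm)

theorem pE_sq {w : ℂ} (hw : 2 * (lm * w) ∉ PP.lattice) : pE w ^ 2 = 2 * (kE w ^ 2 + 1) := by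
  have hw1 := two_of hw
  have h1 := kE_mul hw1
  have h2 := gE_curve hw1
  have h5 := sq2_sq (hq := hq)
  have c1 := gE_ne hw1
  have h6 : kE w ^ 2 * (2 * gE w ^ 2) = 1 + gE w ^ 4 := by
    linear_combination (kE w * (sq2 * gE w) + X w + gE w ^ 2) * h1 + h2 -
      kE w ^ 2 * gE w ^ 2 * h5
  have h7 := pE_mul hw1
  apply mul_right_cancel₀ (pow_ne_zero 2 c1)
  linear_combination (pE w * gE w + gE w ^ 2 + 1) * h7 - h6

theorem mE_sq {w : ℂ} (hw : 2 * (lm * w) ∉ PP.lattice) : mE w ^ 2 = 2 * (kE w ^ 2 - 1) := by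
  have hw1 := two_of hw
  have h1 := kE_mul hw1
  have h2 := gE_curve hw1
  have h5 := sq2_sq (hq := hq)
  have c1 := gE_ne hw1
  have h6 : kE w ^ 2 * (2 * gE w ^ 2) = 1 + gE w ^ 4 := by
    linear_combination (kE w * (sq2 * gE w) + X w + gE w ^ 2) * h1 + h2 -
      kE w ^ 2 * gE w ^ 2 * h5
  have h7 := mE_mul hw1
  apply mul_right_cancel₀ (pow_ne_zero 2 c1)
  linear_combination (mE w * gE w + gE w ^ 2 - 1) * h7 - h6

/-- **The square of the character sum.** -/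
theorem PO_pe4_sq {io z : ℂ} (hi : io ^ 2 = -1) (hz : 2 * (lm ^ 2 * z) ∉ PP.lattice) :
    (PO zt z + io * PO zt (z + pe ^ 4)) ^ 2 = -8 * sq2 * jE io (lm ^ 2 * z) := by
  have hz2 := two_lm_of hz
  have hz3 := two_lm2_add hz
  have a1 := HH_sq hz2
  have a2 := HH_sq' hz
  have a3 := HH_mul_HH hz
  have a4 := HH_pe4 hz
  have a5 := HH_pe4 hz3
  have e5 : z + pe ^ 3 + pe ^ 4 = z + pe ^ 4 + pe ^ 3 := by ring
  rw [e5] at a5
  rw [PO, PO, jE]
  obtain ⟨w, hw⟩ : ∃ w, w = lm ^ 2 * z := ⟨_, rfl⟩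
  rw [← hw] at a1 a2 a3 hz ⊢
  have b1 := gE_mul (hq := hq) w
  have b2 := gE_curve hz
  have b3 := kE_mul hz
  have b4 := pE_mul hz
  have b5 := mE_mul hz
  have c1 := gE_ne hz
  have c2 := X_ne hz
  have c3 := sq2_sq (hq := hq)
  have c4 := sq2_z8 (hq := hq)
  have c5 := z8_sq (hq := hq)
  have c6 := lm_z8 (hq := hq)
  rw [← b1, c6] at a3
  obtain ⟨x, hx⟩ : ∃ x, x = X w := ⟨_, rfl⟩
  obtain ⟨g, hg⟩ : ∃ g, g = gE w := ⟨_, rfl⟩
  obtain ⟨k, hk⟩ : ∃ k, k = kE w := ⟨_, rfl⟩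
  obtain ⟨p, hp⟩ : ∃ p, p = pE w := ⟨_, rfl⟩
  obtain ⟨m, hm⟩ : ∃ m, m = mE w := ⟨_, rfl⟩
  obtain ⟨al, hal⟩ : ∃ al, al = HH z := ⟨_, rfl⟩
  obtain ⟨be, hbe⟩ : ∃ be, be = HH (z + pe ^ 3) := ⟨_, rfl⟩
  obtain ⟨al', hal'⟩ : ∃ al', al' = HH (z + pe ^ 4) := ⟨_, rfl⟩
  obtain ⟨be', hbe'⟩ : ∃ be', be' = HH (z + pe ^ 4 + pe ^ 3) := ⟨_, rfl⟩
  rw [← hx, ← hg] at b2 b3
  rw [← hg] at b4 b5 c1 a3
  rw [← hk] at b3
  rw [← hp] at b4
  rw [← hm] at b5
  rw [← hx] at c2 a1 a2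
  rw [← hal] at a1 a3 a4
  rw [← hbe] at a2 a3 a5
  rw [← hal'] at a4
  rw [← hbe'] at a5
  rw [← hal, ← hbe, ← hal', ← hbe', ← hp, ← hk, ← hm]
  have d1 : al ≠ 0 := by
    rintro rfl
    rw [zero_mul] at a4
    apply sq2_ne (hq := hq)
    linear_combination (-1 / 4) * -a4
  have d2 : be ≠ 0 := by
    rintro rfl
    rw [zero_mul] at a5
    apply sq2_ne (hq := hq)
    linear_combination (-1 / 4) * -a5
  have d3 : al' * g = zt * be := by
    apply mul_left_cancel₀ d1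
    linear_combination g * a4 - zt * a3 - 4 * g * sq2 * zt_sq
  have d4 : be' * g = zt * al := by
    apply mul_left_cancel₀ d2
    linear_combination g * a5 - zt * a3 - 4 * g * sq2 * zt_sq
  have d5 : (al + zt * be + io * (al' + zt * be')) * g = al * (g - io) + zt * be * (g + io) := by
    linear_combination io * d3 + io * zt * d4 + io * al * zt_sq
  have d6 : be ^ 2 = -4 * (1 - x - 2 * g ^ 2) := by
    linear_combination (-be ^ 2) * b2 + (x + 2 * g ^ 2) * a2 - 4 * b2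
  have d7 : al * be = 4 * (g * (sq2 * zt)) := a3
  apply mul_right_cancel₀ (pow_ne_zero 2 c1)
  have d8 : (al + zt * be + io * (al' + zt * be')) ^ 2 * g ^ 2 =
      (al * (g - io) + zt * be * (g + io)) ^ 2 := by
    rw [← d5]
    ring
  rw [d8]
  linear_combination ((g - io) ^ 2) * a1 + (zt ^ 2 * (g + io) ^ 2) * d6 +
    (2 * zt * (g ^ 2 - io ^ 2)) * d7 +
    (-4 * (1 - x - 2 * g ^ 2) * (g + io) ^ 2 + 8 * g * sq2 * (g ^ 2 - io ^ 2)) * zt_sq +
    (-4 * (x + 1) + 4 * (1 - x - 2 * g ^ 2) + 8 * g * sq2) * hi +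
    (8 * sq2 * g) * b4 + (8 * (g ^ 2 - 1)) * b3 + (8 * sq2 * k * g) * b5 +
    (8 * sq2 ^ 2 * io * g) * b5 + (8 * io * g * (g ^ 2 - 1)) * c3

end

end Pool.Agent.Lib.MP_1a91b9_ntQ
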