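import Pool.Agent.Lib.MP_1a91b9_ntQ.A.LocO

/-!
# Quartic twists, part A, file EV0: explicit translation formulas

`gg (lm z)`, `HH (z + pe ^ 3)`, `HH (z + pe ^ 4)` with their signs:
`HH z * HH (z + pe ^ 3) = 4 * sg * gg (lm ^ 2 z)`, `sg = gg (pe ^ 3) / (1 - i)`, `sg ^ 2 = 1`,
`HH z * HH (z + pe ^ 4) = - 4 * sq`, `sq = X (pe ^ 4) - 1`, `sq ^ 2 = 2`, `gg (pe ^ 4) = sg * sq`.
-/

set_option autoImplicit false
set_option linter.unusedSectionVars false

namespace Pool.Agent.Lib.MP_1a91b9_ntQ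

open NumberField Pool.Agent.Lib.MP_1a91b9_nuT Pool.Agent.Lib.MP_1a91b9_nuT.S3
  Pool.Agent.Lib.MP_1a91b9_nuT.Ell

noncomputable section

variable [CD] [hq : Q4]

namespace EV0

theorem gg_pe2 {z : ℂ} (hz : 2 * z ∉ PP.lattice) : gg (z + pe ^ 2) * gg z = 2 := by
  have e : z + pe ^ 2 - (z + 1 / 2 + pe) ∈ PP.lattice := by
    have e1 : z + pe ^ 2 - (z + 1 / 2 + pe) = -1 := by
      rw [pe_eq]
      linear_combination (1 / 4) * zt_sq
    rw [e1]
    exact neg_mem one_mem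
  rw [gg_congr e, gg_add_pe, neg_mul, gg_half hz, neg_neg]

theorem two_pe2_mem : 2 * pe ^ 2 ∈ PP.lattice := by
  have e : 2 * pe ^ 2 = -zt := by
    rw [pe_eq]
    linear_combination (1 / 2) * zt_sq
  rw [e]
  exact neg_mem zt_mem

theorem pe2_notMem : pe ^ 2 ∉ PP.lattice := by
  intro h
  apply pe_notMem
  have h1 := lm_mem_mul h
  have e : lm * pe ^ 2 = pe := by linear_combination pe * lm_mul_pe (hq := hq)
  rwa [e] at h1

/-- the multiplication by `1 + i` -/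
theorem gg_lm {z : ℂ} (hz : 2 * z ∉ PP.lattice) : gg (lm * z) * (X z * gg z) = pe * (X z ^ 2 + 1) := by
  have hX2 : X z + 1 ≠ 0 := fun h => X_sq_ne hz (by linear_combination (X z - 1) * h)
  have h1 := sl_two two_pe2_mem pe2_notMem hz
  rw [X_pe2, sub_neg_eq_add, ← gg_mul hz] at h1
  have h2 := gg_pe2 hz
  have h3 := gg_sq_mul hz
  have h4 : gg (lm * z) = (1 - zt) * sl z (pe ^ 2) + pe * (gg (z + pe ^ 2) - gg z) := by
    have hz2 : 2 * (z + pe ^ 2) ∉ PP.lattice := by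
      intro h
      apply hz
      have e : 2 * z = 2 * (z + pe ^ 2) - 2 * pe ^ 2 := by ring
      rw [e]
      exact sub_mem h two_pe2_mem
    have e : lm * z + pe = lm * (z + pe ^ 2) := by linear_combination -(pe * lm_mul_pe (hq := hq))
    rw [gg_eq (lm * z), e, E1_lm hz, E1_lm hz2, E1_add_two two_pe2_mem]
    have hO := Om_ne_zero
    field_simp
    ring
  have hp := two_pe (hq := hq)
  apply mul_left_cancel₀ hX2
  rw [h4]
  linear_combination (1 - zt) * X z * gg z * h1 + (X z + 1) * X z * pe * h2 +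
    ((1 - zt) * X z - (X z + 1) * pe) * h3 - X z * (X z ^ 2 - 1) * hp

/-! ### The translation formula -/

theorem shift_congr {t : ℂ} : t + pe - -(-t + pe) ∈ PP.lattice := by
  have e : t + pe - -(-t + pe) = 2 * pe := by ring
  rw [e]
  exact two_pe_mem

/-- the value of `gg` at a sum -/
theorem gg_sum (z t : ℂ) : gg (z + t) = gg t + sl z (t + pe) - sl z t := by
  have e : z + t + pe = z + (t + pe) := by ring
  rw [gg_eq (z + t), gg_eq t, sl, sl, e]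
  have hO := Om_ne_zero
  field_simp
  ring

/-- the chord through two points, with `yh = gg X` -/
theorem chd {z t : ℂ} (hz : 2 * z ∉ PP.lattice) (ht : 2 * t ∉ PP.lattice)
    (h1 : z - t ∉ PP.lattice) (h2 : z + t ∉ PP.lattice) :
    sl z t * (X z - X t) = gg z * X z - gg t * X t := by
  have h := chord hz ht h1 h2
  have a := gg_mul hz
  have b := gg_mul ht
  rw [yh] at a b
  linear_combination (-1 / 2) * h + b - a

/-! ### The points -/

/-- `z` is far from the translations -/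
theorem add_notMem {z t : ℂ} (hz : lm ^ 4 * z ∉ PP.lattice) (ht : lm ^ 4 * t ∈ PP.lattice) :
    z + t ∉ PP.lattice := by
  intro h
  apply hz
  have h1 := lm_pow_mem h 4
  have e : lm ^ 4 * z = lm ^ 4 * (z + t) - lm ^ 4 * t := by ring
  rw [e]
  exact sub_mem h1 ht

theorem sub_notMem {z t : ℂ} (hz : lm ^ 4 * z ∉ PP.lattice) (ht : lm ^ 4 * t ∈ PP.lattice) :
    z - t ∉ PP.lattice := by
  rw [sub_eq_add_neg]
  refine add_notMem hz ?_
  rw [mul_neg]
  exact neg_mem ht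

theorem two_of4 {z : ℂ} (hz : lm ^ 4 * z ∉ PP.lattice) : 2 * z ∉ PP.lattice := by
  intro h
  apply hz
  have e : lm ^ 4 * z = -(2 * (2 * z)) := by
    rw [lm_four]
    ring
  rw [e]
  exact neg_mem (two_mem h)

theorem lm4_pe3 : lm ^ 4 * pe ^ 3 ∈ PP.lattice := by
  have e : lm ^ 4 * pe ^ 3 = lm := by
    have h := lm_mul_pe (hq := hq)
    linear_combination lm * (lm ^ 2 * pe ^ 2 + lm * pe + 1) * h
  rw [e]
  exact lm_mem

theorem lm4_pe4 : lm ^ 4 * pe ^ 4 ∈ PP.lattice := by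
  have e : lm ^ 4 * pe ^ 4 = 1 := by
    rw [← mul_pow, lm_mul_pe, one_pow]
  rw [e]
  exact one_mem

theorem lm4_pe : lm ^ 4 * pe ∈ PP.lattice := by
  have e : lm ^ 4 * pe = lm ^ 3 := by
    linear_combination lm ^ 3 * lm_mul_pe (hq := hq)
  rw [e]
  have h := lm_pow_mem (hq := hq) one_mem 3
  rwa [mul_one] at h

theorem lm4_add {s t : ℂ} (hs : lm ^ 4 * s ∈ PP.lattice) (ht : lm ^ 4 * t ∈ PP.lattice) :
    lm ^ 4 * (s + t) ∈ PP.lattice := by
  rw [mul_add]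
  exact add_mem hs ht

theorem lm4_neg {s : ℂ} (hs : lm ^ 4 * s ∈ PP.lattice) : lm ^ 4 * -s ∈ PP.lattice := by
  rw [mul_neg]
  exact neg_mem hs

/-! ### The point `pe ^ 3` -/

/-- the sign of `gg (pe ^ 3)` -/
def sg : ℂ := gg (pe ^ 3) / (1 - zt)

theorem cj_ne : (1 - zt : ℂ) ≠ 0 := by
  intro h
  have := cj_lm (hq := hq)
  rw [h, zero_mul] at this
  norm_num at this

theorem gg_pe3 : gg (pe ^ 3) = sg * (1 - zt) := by
  rw [sg, div_mul_cancel₀ _ cj_ne]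

theorem sg_sq : sg ^ 2 = 1 := by
  have h := gg_sq two_pe3_notMem
  have e : lm * pe ^ 3 = pe ^ 2 := by linear_combination pe ^ 2 * lm_mul_pe (hq := hq)
  rw [e, X_pe2, gg_pe3] at h
  have h1 : sg ^ 2 * (1 - zt) ^ 2 = 1 * (1 - zt) ^ 2 := by
    linear_combination h - zt_sq
  exact mul_right_cancel₀ (pow_ne_zero 2 cj_ne) h1

theorem sg_ne : sg ≠ 0 := by
  intro h
  have := sg_sq (hq := hq)
  rw [h] at this
  norm_num at this

theorem pe3_shift : pe ^ 3 + pe - -pe ^ 3 ∈ PP.lattice := by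
  have e : pe ^ 3 + pe - -pe ^ 3 = -zt := by
    have h : pe ^ 3 = pe ^ 2 * pe := by ring
    rw [h, pe_eq]
    linear_combination ((3 - zt) / 4) * zt_sq
  rw [e]
  exact neg_mem zt_mem

theorem sl_congr {t t' : ℂ} (z : ℂ) (h : t - t' ∈ PP.lattice) : sl z t = sl z t' := by
  have e : z + t - (z + t') ∈ PP.lattice := by
    have e1 : z + t - (z + t') = t - t' := by ring
    rwa [e1]
  rw [sl, sl, E1_congr' h, E1_congr' e]

theorem two_neg {t : ℂ} (h : 2 * t ∉ PP.lattice) : 2 * -t ∉ PP.lattice := by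
  rw [mul_neg]
  exact fun h1 => h (by simpa using neg_mem h1)

/-- the translation by `pe ^ 3` -/
theorem gg_pe3_add {z : ℂ} (hz : lm ^ 4 * z ∉ PP.lattice) :
    gg (z + pe ^ 3) * (X z + zt) = sg * (1 - zt) * (X z - zt) := by
  have h := gg_sum z (pe ^ 3)
  rw [sl_congr z pe3_shift] at h
  have h1 := chd (two_of4 hz) two_pe3_notMem (sub_notMem hz lm4_pe3) (add_notMem hz lm4_pe3)
  have h2 := chd (two_of4 hz) (two_neg two_pe3_notMem) (sub_notMem hz (lm4_neg lm4_pe3))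
    (add_notMem hz (lm4_neg lm4_pe3))
  rw [Ell.X_neg, gg_neg] at h2
  rw [X_pe3] at h1 h2
  rw [gg_pe3] at h h1 h2
  rw [h]
  linear_combination h2 - h1

theorem two_lm_of4 {z : ℂ} (hz : lm ^ 4 * z ∉ PP.lattice) : 2 * (lm * z) ∉ PP.lattice := by
  intro h
  apply hz
  have h1 := mul_mem (mul_mem lm_mem zt_mem) h
  have e : lm ^ 4 * z = lm * zt * (2 * (lm * z)) := by
    linear_combination lm ^ 2 * z * lm_sq (hq := hq)
  rwa [e]

theorem two_lm2_of4 {z : ℂ} (hz : lm ^ 4 * z ∉ PP.lattice) : 2 * (lm ^ 2 * z) ∉ PP.lattice := by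
  intro h
  apply hz
  have h1 := zt_mul_mem h
  have e : lm ^ 4 * z = zt * (2 * (lm ^ 2 * z)) := by
    linear_combination lm ^ 2 * z * lm_sq (hq := hq)
  rwa [e]

theorem Xsq_add_ne {z : ℂ} (hz : lm ^ 4 * z ∉ PP.lattice) : X z ^ 2 + 1 ≠ 0 := by
  intro h
  have h1 := gg_lm (two_of4 hz)
  rw [h, mul_zero] at h1
  exact mul_ne_zero (gg_ne (two_lm_of4 hz)) (mul_ne_zero (X_ne (two_of4 hz)) (gg_ne (two_of4 hz))) h1

/-- **The product**, with its sign. -/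
theorem HH_pe3_mul {z : ℂ} (hz : lm ^ 4 * z ∉ PP.lattice) :
    HH z * HH (z + pe ^ 3) = 4 * sg * gg (lm ^ 2 * z) := by
  have h2z := two_of4 hz
  have hz3 : 2 * (z + pe ^ 3) ∉ PP.lattice := two_of4 (fun h => hz (by
    have e : lm ^ 4 * z = lm ^ 4 * (z + pe ^ 3) - lm ^ 4 * pe ^ 3 := by ring
    rw [e]
    exact sub_mem h lm4_pe3))
  have hx := X_ne h2z
  have hg := gg_ne h2z
  have hn := Xsq_add_ne hz
  have a1 := HH_mul h2z
  have a2 := gg_sq_mul h2z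
  have a3 := HH_mul hz3
  have a4 := gg_pe3_add hz
  have a5 := X_lm h2z
  have a6 := gg_lm h2z
  have a7 := gg_lm (two_lm_of4 hz)
  have e : lm * (lm * z) = lm ^ 2 * z := by ring
  rw [e] at a7
  have hs := sg_sq (hq := hq)
  -- first factor
  have b1 : HH z * (gg z * X z) = X z ^ 2 - 2 * X z - 1 := by
    linear_combination X z * a1 + a2
  -- second factor
  have b2 : HH (z + pe ^ 3) * (X z ^ 2 + 1) = -(2 * zt * sg * (X z ^ 2 + 2 * X z - 1)) := by
    apply mul_left_cancel₀ (mul_ne_zero sg_ne (cj_ne (hq := hq)))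
    linear_combination (X z + zt) ^ 2 * a3 - (HH (z + pe ^ 3) * (X z + zt) -
      gg (z + pe ^ 3) * (X z + zt) - sg * (1 - zt) * (X z - zt)) * a4 +
      ((1 - zt) ^ 2 * (X z - zt) ^ 2 + 2 * zt * (1 - zt) * (X z ^ 2 + 2 * X z - 1)) * hs +
      (sg * HH (z + pe ^ 3) * (1 - zt) - 2 * zt * (1 + X z) + zt ^ 2 - X z ^ 2) * zt_sq
  -- right side
  have b3 : gg (lm ^ 2 * z) * (gg z * X z) * (X z ^ 2 + 1) * (2 * zt) = (X z ^ 2 - 1) ^ 2 - 4 * X z ^ 2 := by
    have hpe : pe ≠ 0 := by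
      intro h
      have := lm_mul_pe (hq := hq)
      rw [h, mul_zero] at this
      exact zero_ne_one this
    apply mul_left_cancel₀ (mul_ne_zero hpe (mul_ne_zero hx hg))
    linear_combination pe * X z * gg (lm ^ 2 * z) * (2 * zt) * (X z ^ 2 + 1) * a2 -
      gg (lm ^ 2 * z) * (2 * zt) * X z * (X z ^ 2 - 1) * a6 -
      gg (lm ^ 2 * z) * (2 * zt) * X z * (gg (lm * z) * (X z * gg z)) * a5 +
      (2 * zt * X z) ^ 2 * (X z * gg z) * a7 +
      pe * (X z * gg z) * (2 * zt * X (lm * z) * X z + (X z ^ 2 - 1)) * a5 +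
      pe * (X z * gg z) * 4 * X z ^ 2 * zt_sq
  apply mul_right_cancel₀ (mul_ne_zero (mul_ne_zero hg hx) hn)
  linear_combination HH (z + pe ^ 3) * (X z ^ 2 + 1) * b1 + (X z ^ 2 - 2 * X z - 1) * b2 +
    2 * zt * sg * b3 - (4 * sg * gg (lm ^ 2 * z) * (gg z * X z) * (X z ^ 2 + 1)) * zt_sq

/-! ### The point `pe ^ 4` -/

/-- a square root of `2` -/
def sq : ℂ := X (pe ^ 4) - 1

theorem X_pe4' : X (pe ^ 4) = 1 + sq := by rw [sq]; ring

theorem sq_sq : sq ^ 2 = 2 := by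
  have h := X_pe4 (hq := hq)
  rw [sq]
  linear_combination h

theorem sq_ne : sq ≠ 0 := by
  intro h
  have := sq_sq (hq := hq)
  rw [h] at this
  norm_num at this

theorem lm_pe4 : lm * pe ^ 4 = pe ^ 3 := by
  have h1 := lm_mul_pe (hq := hq)
  linear_combination pe ^ 3 * h1

theorem gg_pe4 : gg (pe ^ 4) = sg * sq := by
  have h1 := gg_sq two_pe4_notMem
  rw [lm_pe4, X_pe3] at h1
  have h2 := gg_lm two_pe4_notMem
  rw [lm_pe4, gg_pe3, X_pe4'] at h2
  have h3 := sq_sq (hq := hq)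
  have h4 := sg_sq (hq := hq)
  have h5 := two_pe (hq := hq)
  have h6 : gg (pe ^ 4) ^ 2 = 2 := by linear_combination h1 - 2 * zt_sq
  have hx : (1 + sq : ℂ) ≠ 0 := by
    rw [← X_pe4']
    exact X_ne two_pe4_notMem
  apply mul_right_cancel₀ (mul_ne_zero (cj_ne (hq := hq)) hx)
  -- `sg (1 - i) (1 + sq) G = pe ((1 + sq) ^ 2 + 1)`
  linear_combination sg * h2 - gg (pe ^ 4) * (1 - zt) * (1 + sq) * h4 +
    sg * ((1 + sq) ^ 2 + 1) / 2 * h5 - sg * (1 - zt) / 2 * h3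

theorem pe4_eq : pe ^ 4 = -(1 / 4) := by
  have h : lm ^ 4 * pe ^ 4 = 1 := by rw [← mul_pow, lm_mul_pe, one_pow]
  rw [lm_four] at h
  linear_combination (-1 / 4) * h

/-- **The product at the distance `pe ^ 4`.** -/
theorem HH_pe4_mul {z : ℂ} (hz : lm ^ 4 * z ∉ PP.lattice) : HH z * HH (z + pe ^ 4) = -(4 * sq) := by
  have h2z := two_of4 hz
  have hx := X_ne h2z
  have hg := gg_ne h2z
  have a1 := HH_mul h2z
  have a2 := gg_sq_mul h2z
  have hs := sq_sq (hq := hq)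
  have b1 : HH z * (gg z * X z) = X z ^ 2 - 2 * X z - 1 := by
    linear_combination X z * a1 + a2
  have hH : X z ^ 2 - 2 * X z - 1 ≠ 0 := by
    intro h
    rw [h] at b1
    have h1 : HH z = 0 := (mul_eq_zero.1 b1).resolve_right (mul_ne_zero hg hx)
    have h2 := HH_sq (two_lm_of4 hz)
    rw [h1] at h2
    exact X_sq_ne (two_lm2_of4 hz) (by linear_combination (1 / 4) * (X (lm ^ 2 * z) - 1) * h2)
  have ht := two_pe4_notMem (hq := hq)
  have ht' := two_add_pe ht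
  have c1 := chd h2z ht (sub_notMem hz lm4_pe4) (add_notMem hz lm4_pe4)
  have c2 := chd h2z (two_neg ht) (sub_notMem hz (lm4_neg lm4_pe4)) (add_notMem hz (lm4_neg lm4_pe4))
  have l' : lm ^ 4 * (pe ^ 4 + pe) ∈ PP.lattice := lm4_add lm4_pe4 lm4_pe
  have c3 := chd h2z ht' (sub_notMem hz l') (add_notMem hz l')
  have c4 := chd h2z (two_neg ht') (sub_notMem hz (lm4_neg l')) (add_notMem hz (lm4_neg l'))
  have hx' : X (pe ^ 4 + pe) = 1 - sq := by
    have h := X_add_pe ht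
    rw [X_pe4'] at h
    have hx0 : (1 + sq : ℂ) ≠ 0 := by
      rw [← X_pe4']
      exact X_ne ht
    apply mul_right_cancel₀ hx0
    rw [h]
    linear_combination hs
  rw [Ell.X_neg, gg_neg] at c2 c4
  rw [hx'] at c3 c4
  rw [X_pe4'] at c1 c2
  have d1 : (sl z (pe ^ 4) + sl z (-pe ^ 4)) * (X z - (1 + sq)) = 2 * (gg z * X z) := by
    linear_combination c1 + c2
  have d2 : (sl z (pe ^ 4 + pe) + sl z (-(pe ^ 4 + pe))) * (X z - (1 - sq)) = 2 * (gg z * X z) := by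
    linear_combination c3 + c4
  have e1 : HH (z + pe ^ 4) = (sl z (pe ^ 4 + pe) + sl z (-(pe ^ 4 + pe))) -
      (sl z (pe ^ 4) + sl z (-pe ^ 4)) := by
    have f1 : z + pe ^ 4 + 1 / 2 = z + -pe ^ 4 := by rw [pe4_eq]; ring
    rw [HH, f1, gg_sum z (pe ^ 4), gg_sum z (-pe ^ 4), gg_neg]
    have f2 : sl z (-pe ^ 4 + pe) = sl z (-(pe ^ 4 + pe)) := by
      refine sl_congr z ?_
      have f3 : -pe ^ 4 + pe - -(pe ^ 4 + pe) = 2 * pe := by ring
      rw [f3]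
      exact two_pe_mem
    rw [f2]
    ring
  have e2 : HH (z + pe ^ 4) * (X z ^ 2 - 2 * X z - 1) = -(4 * sq) * (gg z * X z) := by
    rw [e1]
    linear_combination (X z - (1 + sq)) * d2 - (X z - (1 - sq)) * d1 +
      ((sl z (pe ^ 4 + pe) + sl z (-(pe ^ 4 + pe))) - (sl z (pe ^ 4) + sl z (-pe ^ 4))) * hs
  apply mul_right_cancel₀ (mul_ne_zero (mul_ne_zero hg hx) hH)
  linear_combination HH (z + pe ^ 4) * (X z ^ 2 - 2 * X z - 1) * b1 + (X z ^ 2 - 2 * X z - 1) * e2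

/-! ### The value of the double sum -/

/-- the value of `V4` (up to the factor `HH z`) in terms of `x = X (lm ^ 2 z)`,
`h = sg * gg (lm ^ 2 z)`; `s = e * zt`, `e ^ 2 = 1` -/
theorem V_eq {s e z : ℂ} (hs : s = e * zt) (hz : lm ^ 4 * z ∉ PP.lattice) :
    (PO zt z + s * PO zt (z + pe ^ 4)) * (HH z * (sg * gg (lm ^ 2 * z))) =
      4 * (-(X (lm ^ 2 * z) + 1) * (sg * gg (lm ^ 2 * z) + e * sq) +
        zt * (sg * gg (lm ^ 2 * z)) * (sg * gg (lm ^ 2 * z) - e * sq)) := by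
  have hz3 : lm ^ 4 * (z + pe ^ 3) ∉ PP.lattice := fun h => hz (by
    have e : lm ^ 4 * z = lm ^ 4 * (z + pe ^ 3) - lm ^ 4 * pe ^ 3 := by ring
    rw [e]
    exact sub_mem h lm4_pe3)
  have a1 := HH_sq (two_lm_of4 hz)
  have a2 := HH_pe3_mul hz
  have a3 := HH_pe4_mul hz
  have a4 := HH_pe4_mul hz3
  have e1 : z + pe ^ 3 + pe ^ 4 = z + pe ^ 4 + pe ^ 3 := by ring
  rw [e1] at a4
  rw [PO, PO]
  obtain ⟨a, ha⟩ : ∃ a, a = HH z := ⟨_, rfl⟩
  obtain ⟨b, hb⟩ : ∃ b, b = HH (z + pe ^ 3) := ⟨_, rfl⟩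
  obtain ⟨c, hc⟩ : ∃ c, c = HH (z + pe ^ 4) := ⟨_, rfl⟩
  obtain ⟨d, hd⟩ : ∃ d, d = HH (z + pe ^ 4 + pe ^ 3) := ⟨_, rfl⟩
  obtain ⟨g, hg⟩ : ∃ g, g = sg * gg (lm ^ 2 * z) := ⟨_, rfl⟩
  obtain ⟨x, hx⟩ : ∃ x, x = X (lm ^ 2 * z) := ⟨_, rfl⟩
  rw [← ha, ← hb] at a2
  rw [← ha, ← hc] at a3
  rw [← hb, ← hd] at a4
  rw [← ha, ← hx] at a1
  rw [← ha, ← hb, ← hc, ← hd, ← hg, ← hx, hs]
  have a5 : a * b = 4 * g := by rw [a2, hg]; ring
  -- `4 g d = a b d = - 4 sq a`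
  have a6 : g * d = -(sq * a) := by
    linear_combination (-1 / 4) * d * a5 + (1 / 4) * a * a4
  linear_combination g * a1 + zt * g * a5 + e * zt * g * a3 + e * zt ^ 2 * a * a6 -
    e * zt ^ 2 * sq * a1 + 4 * e * sq * (x + 1) * zt_sq
end EV0

end

end Pool.Agent.Lib.MP_1a91b9_ntQ
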