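import Pool.Agent.Lib.MP_1a91b9_ntQ.A.ForB
import Mathlib.Algebra.MvPolynomial.Supported
import Mathlib.Algebra.MvPolynomial.CommRing

/-!
# Quartic twists, part A, file EpsB: square free coefficients, the determinants of the primes of exponent two

`cf p E` is the coefficient of `∏ (b ∈ E) X b`. `mwE s C x p = s x p`, multiplied by `X p` if `p ∈ C`.
-/

set_option autoImplicit false
set_option linter.unusedSectionVars false

namespace Pool.Agent.Lib.MP_1a91b9_ntQ

open Finset MvPolynomial
open Pool.Agent.Lib.MP_1a91b9_ntK (NM NM_congr NM_empty NM_adj NM_update NM_zero forest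
  CZ CZ_eq forest_zero)

variable {ι : Type*} [DecidableEq ι] {R : Type*} [CommRing R]

/-- the exponent of `∏ (b ∈ E) X b` -/
noncomputable def mi (E : Finset ι) : ι →₀ ℕ := Finsupp.indicator E fun _ _ => 1

theorem mi_apply (E : Finset ι) (i : ι) : mi E i = if i ∈ E then 1 else 0 := by
  rw [mi, Finsupp.indicator_apply]
  split_ifs <;> rfl

theorem mi_support (E : Finset ι) : (mi E).support = E := by
  ext i
  rw [Finsupp.mem_support_iff, mi_apply]
  split_ifs with h <;> simp [h]

theorem mi_inj {E F : Finset ι} (h : mi E = mi F) : E = F := by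
  rw [← mi_support E, h, mi_support]

theorem mi_empty : mi (∅ : Finset ι) = 0 := by
  ext i
  rw [mi_apply]
  simp

theorem mi_single (b : ι) : mi ({b} : Finset ι) = Finsupp.single b 1 := by
  ext i
  rw [mi_apply, Finsupp.single_apply]
  simp [eq_comm]

/-- the square free coefficient -/
noncomputable def cf (p : MvPolynomial ι R) (E : Finset ι) : R := p.coeff (mi E)

theorem cf_add (p q : MvPolynomial ι R) (E : Finset ι) : cf (p + q) E = cf p E + cf q E :=
  coeff_add _ _ _

theorem cf_zero (E : Finset ι) : cf (0 : MvPolynomial ι R) E = 0 := coeff_zero _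

theorem cf_neg (p : MvPolynomial ι R) (E : Finset ι) : cf (-p) E = -cf p E := by
  rw [cf, cf, coeff_neg]

theorem cf_sum {α : Type*} (A : Finset α) (p : α → MvPolynomial ι R) (E : Finset ι) :
    cf (∑ a ∈ A, p a) E = ∑ a ∈ A, cf (p a) E := coeff_sum _ _ _

theorem cf_C (r : R) (E : Finset ι) : cf (C r) E = if E = ∅ then r else 0 := by
  rw [cf, coeff_C]
  by_cases h : E = ∅
  · rw [if_pos h, if_pos (by rw [h, mi_empty])]
  · rw [if_neg h, if_neg fun h' => h (mi_inj (mi_empty.trans h')).symm]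

theorem cf_one (E : Finset ι) : cf (1 : MvPolynomial ι R) E = if E = ∅ then 1 else 0 := by
  rw [← C_1, cf_C]

theorem cf_X (b : ι) (E : Finset ι) : cf (X b : MvPolynomial ι R) E = if E = {b} then 1 else 0 := by
  rw [cf, coeff_X]
  by_cases h : E = {b}
  · rw [if_pos h, if_pos (by rw [h, mi_single])]
  · rw [if_neg h, if_neg fun h' => h (mi_inj ((mi_single b).trans h')).symm]

theorem cf_C_mul (r : R) (p : MvPolynomial ι R) (E : Finset ι) : cf (C r * p) E = r * cf p E :=
  coeff_C_mul _ _ _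

/-- **The product.** -/
theorem cf_mul (p q : MvPolynomial ι R) (E : Finset ι) :
    cf (p * q) E = ∑ F ∈ E.powerset, cf p F * cf q (E \ F) := by
  classical
  rw [cf, coeff_mul]
  have key : ∀ x ∈ antidiagonal (mi E), ∀ i, x.1 i + x.2 i = if i ∈ E then 1 else 0 := by
    intro x hx i
    rw [mem_antidiagonal] at hx
    rw [← mi_apply, ← hx]
    rfl
  have key1 : ∀ x ∈ antidiagonal (mi E), x.1 = mi x.1.support ∧ x.2 = mi (E \ x.1.support) ∧
      x.1.support ⊆ E := by
    intro x hx
    have h := key x hx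
    refine ⟨?_, ?_, ?_⟩
    · ext i
      have h1 := h i
      by_cases h2 : x.1 i = 0
      · rw [mi_apply, if_neg (by rw [Finsupp.mem_support_iff]; exact fun h3 => h3 h2), h2]
      · rw [mi_apply, if_pos (Finsupp.mem_support_iff.2 h2)]
        split_ifs at h1 <;> omega
    · ext i
      have h1 := h i
      by_cases h2 : i ∈ E
      · rw [if_pos h2] at h1
        by_cases h3 : x.1 i = 0
        · rw [mi_apply, if_pos (mem_sdiff.2 ⟨h2, by
            rw [Finsupp.mem_support_iff]; exact fun h4 => h4 h3⟩)]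
          omega
        · rw [mi_apply, if_neg (fun h4 => (mem_sdiff.1 h4).2 (Finsupp.mem_support_iff.2 h3))]
          omega
      · rw [if_neg h2] at h1
        rw [mi_apply, if_neg (fun h4 => h2 (mem_sdiff.1 h4).1)]
        omega
    · intro i hi
      rw [Finsupp.mem_support_iff] at hi
      have := h i
      by_contra h0
      rw [if_neg h0] at this
      omega
  refine sum_bij' (fun x _ => x.1.support) (fun F _ => (mi F, mi (E \ F))) ?_ ?_ ?_ ?_ ?_
  · intro x hx
    exact mem_powerset.2 (key1 x hx).2.2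
  · intro F hF
    rw [mem_antidiagonal]
    ext i
    simp only [Finsupp.add_apply, mi_apply, mem_sdiff]
    have := mem_powerset.1 hF
    by_cases h1 : i ∈ F
    · simp [h1, this h1]
    · simp [h1]
  · intro x hx
    obtain ⟨h1, h2, -⟩ := key1 x hx
    exact Prod.ext h1.symm h2.symm
  · intro F _
    exact mi_support F
  · intro x hx
    obtain ⟨h1, h2, -⟩ := key1 x hx
    rw [cf, cf, ← h1, ← h2]

theorem cf_X_mul (b : ι) (p : MvPolynomial ι R) (E : Finset ι) :
    cf (X b * p) E = if b ∈ E then cf p (E.erase b) else 0 := by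
  rw [cf_mul]
  split_ifs with h
  · rw [sum_eq_single {b}]
    · rw [cf_X, if_pos rfl, one_mul, sdiff_singleton_eq_erase]
    · intro F _ hF
      rw [cf_X, if_neg hF, zero_mul]
    · intro h0
      exact absurd (mem_powerset.2 (singleton_subset_iff.2 h)) h0
  · refine sum_eq_zero fun F hF => ?_
    rw [cf_X, if_neg, zero_mul]
    rintro rfl
    exact h (mem_powerset.1 hF (mem_singleton_self b))

/-- a polynomial in the variables of `A` has no coefficient at `E` if `E` is not contained in `A` -/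
theorem cf_supported {p : MvPolynomial ι R} {A E : Finset ι}
    (hp : p ∈ supported R (A : Set ι)) (h : ¬ E ⊆ A) : cf p E = 0 := by
  by_contra h0
  apply h
  intro i hi
  rw [mem_supported] at hp
  apply hp
  rw [mem_coe, mem_vars_iff_mem_support]
  refine ⟨mi E, mem_support_iff.2 h0, ?_⟩
  rw [mi_support]
  exact hi

/-- the substitution `X b = 0` -/
noncomputable def z1 (b : ι) : MvPolynomial ι R →+* MvPolynomial ι R :=
  (aeval fun i => if i = b then (0 : MvPolynomial ι R) else X i).toRingHom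

theorem z1_C (b : ι) (r : R) : z1 b (C r) = C r := by
  show aeval _ (C r) = _
  rw [aeval_C]
  rfl

theorem z1_X (b i : ι) : z1 b (X i : MvPolynomial ι R) = if i = b then 0 else X i := by
  show aeval _ (X i) = _
  rw [aeval_X]

theorem cf_z1 (b : ι) (p : MvPolynomial ι R) {E : Finset ι} (h : b ∉ E) :
    cf (z1 b p) E = cf p E := by
  have key : ∀ (m : ι →₀ ℕ) (r : R), z1 b (monomial m r) = if m b = 0 then monomial m r else 0 := by
    intro m r
    show aeval _ (monomial m r) = _
    rw [aeval_monomial]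
    split_ifs with hm
    · have h1 : (m.prod fun i k => (if i = b then (0 : MvPolynomial ι R) else X i) ^ k) =
          m.prod fun i k => X i ^ k := by
        refine Finsupp.prod_congr fun i hi => ?_
        rw [if_neg]
        rintro rfl
        exact (Finsupp.mem_support_iff.1 hi) hm
      rw [h1, monomial_eq]
      rfl
    · have h1 : (m.prod fun i k => (if i = b then (0 : MvPolynomial ι R) else X i) ^ k) = 0 := by
        refine Finset.prod_eq_zero (Finsupp.mem_support_iff.2 hm) ?_
        show (if b = b then (0 : MvPolynomial ι R) else X b) ^ m b = 0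
        rw [if_pos rfl, zero_pow hm]
      rw [h1, mul_zero]
  induction p using MvPolynomial.induction_on' with
  | monomial m r =>
    rw [key]
    split_ifs with hm
    · rfl
    · rw [cf_zero, cf, coeff_monomial, if_neg]
      rintro rfl
      apply hm
      rw [mi_apply, if_neg h]
  | add p q hp hq => rw [map_add, cf_add, cf_add, hp, hq]

/-! ### A column which is zero outside the diagonal -/

theorem NM_col (m : ι → ι → R) (κ : ι → R) {T : Finset ι} {r : ι} (hr : r ∈ T)
    (h : ∀ i ∈ T, i ≠ r → m i r = 0) :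
    (NM m κ T).det = (κ r + ∑ p ∈ T.erase r, m r p) * (NM m κ (T.erase r)).det := by
  let κ' : ι → R := Function.update κ r (-∑ p ∈ T.erase r, m r p)
  have h1 := NM_update m κ' hr (κ r + ∑ p ∈ T.erase r, m r p)
  have h2 : Function.update κ' r (κ' r + (κ r + ∑ p ∈ T.erase r, m r p)) = κ := by
    funext i
    by_cases hi : i = r
    · subst hi
      rw [Function.update_self]
      show Function.update κ i _ i + _ = _
      rw [Function.update_self]
      ring
    · rw [Function.update_of_ne hi]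
      exact Function.update_of_ne hi _ _
  have h3 : (NM m κ' T).det = 0 := by
    refine Matrix.det_eq_zero_of_column_eq_zero ⟨r, hr⟩ fun i => ?_
    by_cases hi : i = ⟨r, hr⟩
    · subst hi
      simp only [NM, if_true]
      show Function.update κ r _ r + _ = 0
      rw [Function.update_self, neg_add_cancel]
    · simp only [NM, if_neg hi]
      rw [h i i.2 (fun h' => hi (Subtype.ext h')), neg_zero]
  have h4 : NM m (fun p => κ' p + m p r) (T.erase r) = NM m κ (T.erase r) := by
    refine NM_congr m fun i hi => ?_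
    have hi' := ne_of_mem_erase hi
    rw [h i (mem_of_mem_erase hi) hi', add_zero]
    exact Function.update_of_ne hi' _ _
  rw [h2, h3, h4, zero_add] at h1
  exact h1

theorem CZ_col (m : ι → ι → R) (a : ι → R) {T : Finset ι} {r : ι} (hr : r ∈ T)
    (h : ∀ i ∈ T, i ≠ r → m i r = 0) (hT : (T.erase r).Nonempty) :
    CZ m a T = (∑ p ∈ T.erase r, m r p) * CZ m a (T.erase r) := by
  rw [CZ_eq, CZ_eq, ← add_sum_erase _ _ hr, mul_sum]
  have h1 : (NM m (fun p => m p r) (T.erase r)).det = 0 :=
    NM_zero m hT fun i hi => h i (mem_of_mem_erase hi) (ne_of_mem_erase hi)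
  rw [h1, mul_zero, zero_add]
  refine sum_congr rfl fun q hq => ?_
  have hqr := ne_of_mem_erase hq
  have hr' : r ∈ T.erase q := mem_erase.2 ⟨hqr.symm, hr⟩
  rw [NM_col m (fun p => m p q) hr' fun i hi hir => h i (mem_of_mem_erase hi) hir]
  have h2 : m r q + ∑ p ∈ (T.erase q).erase r, m r p = ∑ p ∈ T.erase r, m r p := by
    rw [← add_sum_erase (T.erase r) (fun p => m r p) hq, erase_right_comm]
  rw [h2, erase_right_comm]
  ring

/-! ### The weights and the determinants with primes of exponent two -/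

/-- the weights: the columns of `C` are multiplied by the variables -/
noncomputable def mwE (s : ι → ι → R) (A : Finset ι) (x p : ι) : MvPolynomial ι R :=
  if p ∈ A then X p * C (s x p) else C (s x p)

/-- the weight of the prime `x` for the set `T + A` -/
noncomputable def wE (s : ι → ι → R) (κ : ι → R) (T A : Finset ι) (x : ι) : MvPolynomial ι R :=
  C (κ x + ∑ p ∈ T, s x p) + ∑ b ∈ A, X b * C (s x b)

theorem wE_eq (s : ι → ι → R) (κ : ι → R) {T A : Finset ι} (h : Disjoint T A) (x : ι) :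
    wE s κ T A x = C (κ x) + ∑ p ∈ T ∪ A, mwE s A x p := by
  rw [sum_union h, wE, C_add, map_sum, add_assoc]
  congr 2
  · refine sum_congr rfl fun p hp => ?_
    rw [mwE, if_neg (fun hA => disjoint_left.1 h hp hA)]
  · exact sum_congr rfl fun p hp => by rw [mwE, if_pos hp]

theorem cf_wE (s : ι → ι → R) (κ : ι → R) (T A : Finset ι) (x : ι) (E : Finset ι) :
    cf (wE s κ T A x) E = if E = ∅ then κ x + ∑ p ∈ T, s x p else
      ∑ b ∈ A, if E = {b} then s x b else 0 := by
  rw [wE, cf_add, cf_C, cf_sum]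
  have h : ∀ b ∈ A, cf (X b * C (s x b)) E = if E = {b} then s x b else 0 := by
    intro b _
    rw [mul_comm, cf_C_mul, cf_X, mul_ite, mul_one, mul_zero]
  rw [sum_congr rfl h]
  by_cases h0 : E = ∅
  · rw [if_pos h0, if_pos h0, sum_eq_zero fun b _ => if_neg (by
      rw [h0]
      exact (singleton_ne_empty b).symm), add_zero]
  · rw [if_neg h0, if_neg h0, zero_add]

/-- the determinant, kinds with `k` odd -/
noncomputable def DE (s : ι → ι → R) (κ : ι → R) (T A : Finset ι) : MvPolynomial ι R :=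
  (NM (mwE s A) (fun x => C (κ x)) (T ∪ A)).det

/-- the coefficient, kinds with `k` even -/
noncomputable def CE (s : ι → ι → R) (a : ι → R) (T A : Finset ι) : MvPolynomial ι R :=
  CZ (mwE s A) (fun x => C (a x)) (T ∪ A)

theorem mwE_mem [Nontrivial R] (s : ι → ι → R) (A A' : Finset ι) {x p : ι} (h : p ∈ A → p ∈ A') :
    mwE s A x p ∈ supported R (A' : Set ι) := by
  rw [mwE]
  split_ifs with hp
  · exact Subalgebra.mul_mem _ (X_mem_supported.2 (mem_coe.2 (h hp))) (Subalgebra.algebraMap_mem _ _)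
  · exact Subalgebra.algebraMap_mem _ _

theorem NM_mem (m : ι → ι → MvPolynomial ι R) (κ : ι → MvPolynomial ι R) (S : Finset ι)
    (U : Subalgebra R (MvPolynomial ι R)) (h1 : ∀ x ∈ S, ∀ p ∈ S, m x p ∈ U)
    (h2 : ∀ x ∈ S, κ x ∈ U) : (NM m κ S).det ∈ U := by
  rw [Matrix.det_apply]
  refine Subalgebra.sum_mem _ fun σ _ => ?_
  have h3 : ∀ i j : S, NM m κ S i j ∈ U := by
    intro i j
    simp only [NM]
    split_ifs
    · exact Subalgebra.add_mem _ (h2 i i.2) (Subalgebra.sum_mem _ fun p hp =>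
        h1 i i.2 p (mem_of_mem_erase hp))
    · exact Subalgebra.neg_mem _ (h1 i i.2 j j.2)
  rcases Int.units_eq_one_or (Equiv.Perm.sign σ) with h | h
  · rw [h, one_smul]
    exact Subalgebra.prod_mem _ fun i _ => h3 _ _
  · rw [h, Units.neg_smul, one_smul]
    exact Subalgebra.neg_mem _ (Subalgebra.prod_mem _ fun i _ => h3 _ _)

theorem wE_mem [Nontrivial R] (s : ι → ι → R) (κ : ι → R) (T A : Finset ι) (x : ι) :
    wE s κ T A x ∈ supported R (A : Set ι) := by
  rw [wE]
  refine Subalgebra.add_mem _ (Subalgebra.algebraMap_mem _ _) (Subalgebra.sum_mem _ fun b hb => ?_)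
  exact Subalgebra.mul_mem _ (X_mem_supported.2 (mem_coe.2 hb)) (Subalgebra.algebraMap_mem _ _)

/-- the substitution `X b = 0` in the determinant -/
theorem NM_map {R' : Type*} [CommRing R'] (f : R →+* R') (m : ι → ι → R) (κ : ι → R)
    (S : Finset ι) :
    f (NM m κ S).det = (NM (fun x p => f (m x p)) (fun x => f (κ x)) S).det := by
  rw [RingHom.map_det]
  congr 1
  ext i j
  rw [RingHom.mapMatrix_apply, Matrix.map_apply]
  simp only [NM]
  split_ifs
  · rw [map_add, map_sum]
  · rw [map_neg]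

theorem CZ_map {R' : Type*} [CommRing R'] (f : R →+* R') (m : ι → ι → R) (a : ι → R)
    (S : Finset ι) : f (CZ m a S) = CZ (fun x p => f (m x p)) (fun x => f (a x)) S := by
  rw [CZ_eq, CZ_eq, map_sum]
  exact sum_congr rfl fun r _ => by rw [map_mul, NM_map]

theorem z1_mwE (s : ι → ι → R) (A : Finset ι) (b x p : ι) :
    z1 b (mwE s A x p) = if p = b ∧ p ∈ A then 0 else mwE s A x p := by
  rw [mwE]
  by_cases hp : p ∈ A
  · by_cases hb : p = b
    · rw [if_pos hp, if_pos ⟨hb, hp⟩, map_mul, z1_X, if_pos hb, zero_mul]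
    · rw [if_pos hp, if_neg (fun h => hb h.1), map_mul, z1_X, z1_C, if_neg hb]
  · rw [if_neg hp, if_neg (fun h => hp h.2), z1_C]

theorem NM_congr2 {m m' : ι → ι → R} {κ κ' : ι → R} {S : Finset ι}
    (h1 : ∀ x ∈ S, ∀ p ∈ S, x ≠ p → m x p = m' x p) (h2 : ∀ x ∈ S, κ x = κ' x) :
    NM m κ S = NM m' κ' S := by
  ext i j
  by_cases hij : i = j
  · subst hij
    simp only [NM, if_true]
    rw [h2 i i.2]
    congr 1
    exact sum_congr rfl fun p hp => h1 i i.2 p (mem_of_mem_erase hp) (ne_of_mem_erase hp).symm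
  · simp only [NM, if_neg hij]
    rw [h1 i i.2 j j.2 fun h => hij (Subtype.ext h)]

theorem CZ_congr2 {m m' : ι → ι → R} {a a' : ι → R} {S : Finset ι}
    (h1 : ∀ x ∈ S, ∀ p ∈ S, x ≠ p → m x p = m' x p) (h2 : ∀ x ∈ S, a x = a' x) :
    CZ m a S = CZ m' a' S := by
  rw [CZ, CZ, NM_congr2 (κ := 0) (κ' := 0) h1 fun _ _ => rfl]
  exact sum_congr rfl fun i _ => by rw [h2 i i.2]

theorem erase_union_right {T A : Finset ι} (hTA : Disjoint T A) {b : ι} (hb : b ∈ A) :
    (T ∪ A).erase b = T ∪ A.erase b := by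
  rw [erase_union_distrib, erase_eq_of_notMem fun h => disjoint_left.1 hTA h hb]

theorem z1_mwE_of (s : ι → ι → R) (A : Finset ι) {b x p : ι} (h : p ≠ b) :
    z1 b (mwE s A x p) = mwE s (A.erase b) x p := by
  rw [z1_mwE, if_neg (fun h' => h h'.1), mwE, mwE]
  by_cases hA : p ∈ A
  · rw [if_pos hA, if_pos (mem_erase.2 ⟨h, hA⟩)]
  · rw [if_neg hA, if_neg (fun h => hA (mem_of_mem_erase h))]

theorem z1_DE (s : ι → ι → R) (κ : ι → R) {T A : Finset ι} (hTA : Disjoint T A) {b : ι}
    (hb : b ∈ A) : z1 b (DE s κ T A) = wE s κ T (A.erase b) b * DE s κ T (A.erase b) := by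
  have e0 := erase_union_right hTA hb
  rw [DE, NM_map, NM_col _ _ (mem_union_right T hb) (fun i _ _ => by
    rw [z1_mwE, if_pos ⟨rfl, hb⟩]), e0, wE_eq s κ (disjoint_of_subset_right (erase_subset _ _) hTA),
    DE]
  have hne : ∀ p ∈ T ∪ A.erase b, p ≠ b := by
    intro p hp
    rw [← e0] at hp
    exact ne_of_mem_erase hp
  congr 1
  · rw [z1_C]
    congr 1
    exact sum_congr rfl fun p hp => z1_mwE_of s A (hne p hp)
  · congr 1
    exact NM_congr2 (fun x _ p hp _ => z1_mwE_of s A (hne p hp)) fun x _ => z1_C b _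

/-- **(R1)** -/
theorem DE_step (s : ι → ι → R) (κ : ι → R) {T A : Finset ι} (hTA : Disjoint T A) {b : ι}
    (hb : b ∈ A) {E : Finset ι} (hE : b ∉ E) :
    cf (DE s κ T A) E = cf (wE s κ T (A.erase b) b * DE s κ T (A.erase b)) E := by
  rw [← cf_z1 b _ hE, z1_DE s κ hTA hb]

theorem z1_CE (s : ι → ι → R) (a : ι → R) {T A : Finset ι} (hTA : Disjoint T A) {b : ι}
    (hb : b ∈ A) (h0 : (T ∪ A.erase b).Nonempty) :
    z1 b (CE s a T A) = wE s 0 T (A.erase b) b * CE s a T (A.erase b) := by
  have e0 := erase_union_right hTA hb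
  rw [CE, CZ_map, CZ_col _ _ (mem_union_right T hb) (fun i _ _ => by
    rw [z1_mwE, if_pos ⟨rfl, hb⟩]) (by rw [e0]; exact h0), e0,
    wE_eq s 0 (disjoint_of_subset_right (erase_subset _ _) hTA), CE]
  have hne : ∀ p ∈ T ∪ A.erase b, p ≠ b := by
    intro p hp
    rw [← e0] at hp
    exact ne_of_mem_erase hp
  congr 1
  · rw [Pi.zero_apply, C_0, zero_add]
    exact sum_congr rfl fun p hp => z1_mwE_of s A (hne p hp)
  · exact CZ_congr2 (fun x _ p hp _ => z1_mwE_of s A (hne p hp)) fun x _ => z1_C b _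

theorem CE_step (s : ι → ι → R) (a : ι → R) {T A : Finset ι} (hTA : Disjoint T A) {b : ι}
    (hb : b ∈ A) (h0 : (T ∪ A.erase b).Nonempty) {E : Finset ι} (hE : b ∉ E) :
    cf (CE s a T A) E = cf (wE s 0 T (A.erase b) b * CE s a T (A.erase b)) E := by
  rw [← cf_z1 b _ hE, z1_CE s a hTA hb h0]

theorem CE_single (s : ι → ι → R) (a : ι → R) (b : ι) : CE s a ∅ {b} = C (a b) := by
  rw [CE, empty_union, CZ_eq, sum_singleton]
  have h : ({b} : Finset ι).erase b = ∅ := by simp
  rw [h, NM_empty, mul_one]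

/-! ### The recursion -/

theorem sum_super {M : Type*} [AddCommMonoid M] {T A : Finset ι} (hTA : Disjoint T A)
    (f : Finset ι → M) (h : ∀ S ⊆ T ∪ A, ¬ A ⊆ S → f S = 0) :
    ∑ S ∈ (T ∪ A).powerset, f S = ∑ T' ∈ T.powerset, f (T' ∪ A) := by
  classical
  have h1 : ∑ S ∈ (T ∪ A).powerset, f S = ∑ S ∈ (T ∪ A).powerset.filter fun S => A ⊆ S, f S := by
    refine (sum_filter_of_ne fun S hS hS0 => ?_).symm
    by_contra h0
    exact hS0 (h S (mem_powerset.1 hS) h0)
  rw [h1]
  refine sum_bij' (fun S _ => S \ A) (fun T' _ => T' ∪ A) ?_ ?_ ?_ ?_ ?_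
  · intro S hS
    rw [mem_filter, mem_powerset] at hS
    rw [mem_powerset]
    intro x hx
    rw [mem_sdiff] at hx
    rcases mem_union.1 (hS.1 hx.1) with h | h
    · exact h
    · exact absurd h hx.2
  · intro T' hT'
    rw [mem_powerset] at hT'
    rw [mem_filter, mem_powerset]
    exact ⟨union_subset_union hT' subset_rfl, subset_union_right⟩
  · intro S hS
    rw [mem_filter] at hS
    exact sdiff_union_of_subset hS.2
  · intro T' hT'
    rw [mem_powerset] at hT'
    exact union_sdiff_cancel_right (disjoint_of_subset_left hT' hTA)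
  · intro S hS
    rw [mem_filter] at hS
    rw [sdiff_union_of_subset hS.2]

theorem union_sdiff_union {T A T' : Finset ι} (hTA : Disjoint T A) :
    (T ∪ A) \ (T' ∪ A) = T \ T' := by
  ext x
  simp only [mem_sdiff, mem_union, not_or]
  constructor
  · rintro ⟨h1 | h1, h2, h3⟩
    · exact ⟨h1, h2⟩
    · exact absurd h1 h3
  · rintro ⟨h1, h2⟩
    exact ⟨Or.inl h1, h2, fun h => disjoint_left.1 hTA h1 h⟩

theorem term_mem [Nontrivial R] (s : ι → ι → R) (A S S' : Finset ι)
    {κ : ι → MvPolynomial ι R} (hκ : ∀ x, κ x ∈ supported R ((A ∩ S' : Finset ι) : Set ι)) :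
    ∏ q ∈ S \ S', (κ q + ∑ p ∈ S', mwE s A q p) ∈ supported R ((A ∩ S' : Finset ι) : Set ι) :=
  Subalgebra.prod_mem _ fun x _ => Subalgebra.add_mem _ (hκ x)
    (Subalgebra.sum_mem _ fun _ hp => mwE_mem s A (A ∩ S') fun h => mem_inter.2 ⟨h, hp⟩)

theorem cf_one_pow_mul (n : ℕ) (p : MvPolynomial ι R) (E : Finset ι) :
    cf ((-1) ^ n * p) E = (-1) ^ n * cf p E := by
  have h : ((-1 : MvPolynomial ι R)) ^ n = C ((-1) ^ n) := by
    rw [C_pow, C_neg, C_1]
  rw [h, cf_C_mul]

/-- **(R2)**, `k` odd -/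
theorem DE_sum [Nontrivial R] (s : ι → ι → R) (κ : ι → R) {T A : Finset ι}
    (hTA : Disjoint T A) (h0 : (T ∪ A).Nonempty) :
    ∑ T' ∈ T.powerset, (-1) ^ (T' ∪ A).card *
      cf (DE s κ T' A * ∏ x ∈ T \ T', wE s κ T' A x) A = 0 := by
  have h1 := forest (mwE s A) (fun x => C (κ x)) h0
  have h2 := congrArg (fun p => cf p A) h1
  simp only [cf_sum, cf_zero] at h2
  rw [sum_super hTA] at h2
  · rw [← h2]
    refine sum_congr rfl fun T' hT' => ?_
    have hT'A := disjoint_of_subset_left (mem_powerset.1 hT') hTA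
    rw [mul_assoc, cf_one_pow_mul, union_sdiff_union hTA, DE]
    congr 2
    congr 1
    exact prod_congr rfl fun x _ => wE_eq s κ hT'A x
  · intro S' _ hA
    rw [mul_assoc, cf_one_pow_mul, cf_supported (A := A ∩ S'), mul_zero]
    · exact Subalgebra.mul_mem _ (NM_mem _ _ _ _ (fun x _ p hp => mwE_mem s A (A ∩ S')
        fun h => mem_inter.2 ⟨h, hp⟩) fun x _ => Subalgebra.algebraMap_mem _ _)
        (term_mem s A _ S' fun x => Subalgebra.algebraMap_mem _ _)
    · exact fun h => hA fun x hx => (mem_inter.1 (h hx)).2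

/-- **(R2)**, `k` even, `A` not empty -/
theorem CE_sum [Nontrivial R] (s : ι → ι → R) (a : ι → R) {T A : Finset ι}
    (hTA : Disjoint T A) (h0 : A.Nonempty) :
    ∑ T' ∈ T.powerset, (-1) ^ (T' ∪ A).card *
      cf (CE s a T' A * ∏ x ∈ T \ T', wE s 0 T' A x) A = 0 := by
  have h1 := forest_zero (mwE s A) (fun x => C (a x)) (S := T ∪ A) (h0.mono subset_union_right)
  have h2 := congrArg (fun p => cf p A) h1
  have h3 : cf (if (T ∪ A).card = 1 then -∑ q ∈ T ∪ A, C (a q) else (0 : MvPolynomial ι R)) A =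
      0 := by
    split_ifs
    · rw [cf_neg, ← map_sum C, cf_C, if_neg h0.ne_empty, neg_zero]
    · exact cf_zero _
  simp only [h3, cf_sum] at h2
  have h4 : ∀ f : Finset ι → R, f ∅ = 0 → ∑ S ∈ (T ∪ A).powerset.erase ∅, f S =
      ∑ S ∈ (T ∪ A).powerset, f S := by
    intro f hf
    rw [← add_sum_erase _ _ (empty_mem_powerset (T ∪ A)), hf, zero_add]
  rw [h4, sum_super hTA] at h2
  · rw [← h2]
    refine sum_congr rfl fun T' hT' => ?_
    have hT'A := disjoint_of_subset_left (mem_powerset.1 hT') hTA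
    rw [mul_assoc, cf_one_pow_mul, union_sdiff_union hTA, CE]
    congr 2
    congr 1
    refine prod_congr rfl fun x _ => ?_
    rw [wE_eq s 0 hT'A x, Pi.zero_apply, C_0, zero_add]
  · intro S' _ hA
    rw [mul_assoc, cf_one_pow_mul, cf_supported (A := A ∩ S'), mul_zero]
    · refine Subalgebra.mul_mem _ ?_ ?_
      · rw [CZ_eq]
        refine Subalgebra.sum_mem _ fun r hr => Subalgebra.mul_mem _
          (Subalgebra.algebraMap_mem _ _) (NM_mem _ _ _ _ (fun x _ p hp => mwE_mem s A (A ∩ S')
          fun h => mem_inter.2 ⟨h, mem_of_mem_erase hp⟩) fun x _ =>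
            mwE_mem s A (A ∩ S') fun h => mem_inter.2 ⟨h, hr⟩)
      · have := term_mem s A (T ∪ A) S' (κ := 0) fun x => Subalgebra.zero_mem _
        simpa using this
    · exact fun h => hA fun x hx => (mem_inter.1 (h hx)).2
  · rw [mul_assoc, cf_one_pow_mul]
    have h5 : CZ (mwE s A) (fun x => C (a x)) ∅ = 0 := by
      rw [CZ_eq, sum_empty]
    rw [h5, zero_mul, cf_zero, mul_zero]

end Pool.Agent.Lib.MP_1a91b9_ntQ
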