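import Pool.Agent.Lib.MP_1a91b9_ntQ.A.Xi4
import Pool.Agent.Lib.MP_1a91b9_ntQ.A.EvX1

/-!
# Quartic twists, part A, file EvX2: the sums over the units in terms of `xi`

`ze z = xi z + xi z ^ 2`, `X = rh (1 + 2 xi)`; the exact forms of `U0p`, `U0m`, `U2p`, `U2m` and their
expansions, `k = 2`, modulo `lm ^ 4`.
-/

set_option autoImplicit false
set_option linter.unusedSectionVars false

namespace Pool.Agent.Lib.MP_1a91b9_ntQ

open NumberField Pool.Agent.Lib.MP_1a91b9_nuT Pool.Agent.Lib.MP_1a91b9_nuT.S3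
  Pool.Agent.Lib.MP_1a91b9_nuT.Ell

noncomputable section

section
variable [CD]

/-- the even coordinate -/
def ze (z : ℂ) : ℂ := xi z + xi z ^ 2

/-- the denominator for `k = 2` -/
def dX (t : ℂ) : ℂ := 1 + (4 - 2 * zt) * t - lm * t ^ 2

end

variable [CD] [hq : Q4]

/-- the coordinate `ze` in terms of the points `z` and `lm z` -/
theorem ze_eq {z : ℂ} (hz : 2 * z ∉ PP.lattice) :
    ze z = zt * (xi z + xi (lm * z) + 2 * xi z * xi (lm * z)) := by
  have h := xi_lm_eq hz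
  rw [ze]
  linear_combination (-zt) * h + (xi z ^ 2 + (1 - zt) * xi z) * zt_sq

theorem X_sq_sub_ze (z : ℂ) : X z ^ 2 - 1 = rh ^ 2 * (2 * zt + 4 * ze z) := by
  rw [X_xi, ze]
  linear_combination rh_sq (hq := hq)

theorem X_sq_add_ze (z : ℂ) : X z ^ 2 + 1 = rh ^ 2 * (2 - 2 * zt + 4 * ze z) := by
  rw [X_xi, ze]
  linear_combination -rh_sq (hq := hq)

theorem X_sq_add_ze' (z : ℂ) : X z ^ 2 + 1 = 2 * (1 - zt) * rh ^ 2 * (1 + lm * ze z) := by
  rw [X_sq_add_ze]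
  linear_combination (-2 * rh ^ 2 * ze z) * cj_lm (hq := hq)

theorem X_four_ze (z : ℂ) :
    X z ^ 4 - 6 * X z ^ 2 + 1 = -8 * (1 - zt) * rh ^ 4 * dX (ze z) := by
  have h1 := X_sq_sub_ze (hq := hq) z
  have h2 := X_sq_add_ze (hq := hq) z
  have h3 := rh_sq (hq := hq)
  have e : X z ^ 4 - 6 * X z ^ 2 + 1 = (X z ^ 2 + 1) ^ 2 - 4 * ((X z ^ 2 + 1) + (X z ^ 2 - 1)) := by
    ring
  rw [e, h2, h1, dX, lm]
  linear_combination (8 * rh ^ 2 * (1 + 4 * ze z)) * h3 +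
    (rh ^ 4 * (4 + 16 * ze z + 8 * ze z ^ 2)) * zt_sq

theorem cj_ne : (1 - zt : ℂ) ≠ 0 := by
  intro h
  have h1 := cj_lm (hq := hq)
  rw [h, zero_mul] at h1
  norm_num at h1

/-! ### The exact forms -/

theorem U0p_ze {z : ℂ} (h : 1 + lm * ze z ≠ 0) :
    U0p (X z) * (1 + lm * ze z) = lm ^ 3 * (1 - 2 * zt * ze z) := by
  have h1 := X_sq_sub_ze (hq := hq) z
  have h2 := X_sq_add_ze' (hq := hq) z
  have h3 := rh_ne (hq := hq)
  have h4 := cj_ne (hq := hq)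
  have h5 : X z ^ 2 + 1 ≠ 0 := by
    rw [h2]
    exact mul_ne_zero (mul_ne_zero (mul_ne_zero two_ne_zero h4) (pow_ne_zero 2 h3)) h
  have h6 : U0p (X z) * (X z ^ 2 + 1) = 4 * (X z ^ 2 - 1) := div_mul_cancel₀ _ h5
  rw [h2, h1] at h6
  apply mul_left_cancel₀ (mul_ne_zero (mul_ne_zero two_ne_zero h4) (pow_ne_zero 2 h3))
  have h7 : (1 - zt) * lm ^ 3 = 4 * zt := by
    linear_combination lm ^ 2 * cj_lm (hq := hq) + 2 * lm_sq (hq := hq)
  linear_combination h6 - 2 * rh ^ 2 * (1 - 2 * zt * ze z) * h7 + 16 * rh ^ 2 * ze z * zt_sq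

theorem U0m_ze {z : ℂ} (h : 1 + lm * ze z ≠ 0) :
    U0m (X z) * (1 + lm * ze z) = -(lm ^ 3 * rh⁻¹ * (1 + 2 * xi z)) := by
  have h1 := X_xi (hq := hq) z
  have h2 := X_sq_add_ze' (hq := hq) z
  have h3 := rh_ne (hq := hq)
  have h4 := cj_ne (hq := hq)
  have h5 : X z ^ 2 + 1 ≠ 0 := by
    rw [h2]
    exact mul_ne_zero (mul_ne_zero (mul_ne_zero two_ne_zero h4) (pow_ne_zero 2 h3)) h
  have h6 : U0m (X z) * (X z ^ 2 + 1) = -8 * zt * X z := div_mul_cancel₀ _ h5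
  rw [h2] at h6
  apply mul_left_cancel₀ (mul_ne_zero (mul_ne_zero two_ne_zero h4) (pow_ne_zero 2 h3))
  have h7 : (1 - zt) * lm ^ 3 = 4 * zt := by
    linear_combination lm ^ 2 * cj_lm (hq := hq) + 2 * lm_sq (hq := hq)
  have h8 : rh ^ 2 * rh⁻¹ = rh := by
    rw [pow_two, mul_assoc, mul_inv_cancel₀ h3, mul_one]
  linear_combination h6 - 8 * zt * h1 + 2 * (1 - zt) * lm ^ 3 * (1 + 2 * xi z) * h8 +
    2 * rh * (1 + 2 * xi z) * h7

theorem U2p_ze {z : ℂ} (h : dX (ze z) ≠ 0) :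
    U2p (X z) * dX (ze z) = -(lm ^ 2 * ((1 - 2 * zt * ze z) * (1 + lm * ze z))) := by
  have h1 := X_sq_sub_ze (hq := hq) z
  have h2 := X_sq_add_ze' (hq := hq) z
  have h3 := rh_ne (hq := hq)
  have h4 := cj_ne (hq := hq)
  have h9 := X_four_ze (hq := hq) z
  have hne : -8 * (1 - zt) * rh ^ 4 ≠ 0 := mul_ne_zero (mul_ne_zero (by norm_num) h4) (pow_ne_zero 4 h3)
  have h5 : X z ^ 4 - 6 * X z ^ 2 + 1 ≠ 0 := by
    rw [h9]
    exact mul_ne_zero hne h
  have h6 : U2p (X z) * (X z ^ 4 - 6 * X z ^ 2 + 1) = 4 * ((X z ^ 2 - 1) * (X z ^ 2 + 1)) := by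
    rw [U2p, div_mul_cancel₀ _ h5]
    ring
  rw [h9, h2, h1] at h6
  apply mul_left_cancel₀ hne
  have h7 := lm_sq (hq := hq)
  linear_combination h6 - 8 * (1 - zt) * rh ^ 4 * (1 - 2 * zt * ze z) * (1 + lm * ze z) * h7 +
    32 * (1 - zt) * rh ^ 4 * ze z * (1 + lm * ze z) * zt_sq

theorem U2m_ze {z : ℂ} (h : dX (ze z) ≠ 0) :
    U2m (X z) * dX (ze z) = lm ^ 2 * (zt * rh⁻¹ * ((1 + 2 * xi z) * (1 + lm * ze z))) := by
  have h1 := X_xi (hq := hq) z
  have h2 := X_sq_add_ze' (hq := hq) z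
  have h3 := rh_ne (hq := hq)
  have h4 := cj_ne (hq := hq)
  have h9 := X_four_ze (hq := hq) z
  have hne : -8 * (1 - zt) * rh ^ 4 ≠ 0 := mul_ne_zero (mul_ne_zero (by norm_num) h4) (pow_ne_zero 4 h3)
  have h5 : X z ^ 4 - 6 * X z ^ 2 + 1 ≠ 0 := by
    rw [h9]
    exact mul_ne_zero hne h
  have h6 : U2m (X z) * (X z ^ 4 - 6 * X z ^ 2 + 1) = 8 * X z * (X z ^ 2 + 1) :=
    div_mul_cancel₀ _ h5
  rw [h9, h2] at h6
  apply mul_left_cancel₀ hne
  have h7 := lm_sq (hq := hq)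
  have h8 : rh ^ 4 * rh⁻¹ = rh ^ 3 := by
    rw [pow_succ rh 3, mul_assoc, mul_inv_cancel₀ h3, mul_one]
  linear_combination h6 + 16 * (1 - zt) * rh ^ 2 * (1 + lm * ze z) * h1 +
    8 * (1 - zt) * lm ^ 2 * zt * (1 + 2 * xi z) * (1 + lm * ze z) * h8 +
    8 * (1 - zt) * rh ^ 3 * zt * (1 + 2 * xi z) * (1 + lm * ze z) * h7 +
    16 * (1 - zt) * rh ^ 3 * (1 + 2 * xi z) * (1 + lm * ze z) * zt_sq

/-! ### The place -/

variable {B : ValuationSubring ℂ}

theorem v_ze (hB : (2 : ℂ)⁻¹ ∉ B) {z : ℂ} (hz : Od z) : B.valuation (ze z) ≤ 1 := by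
  have h := xi_le hB hz
  refine (Valuation.map_add _ _ _).trans (max_le h ?_)
  rw [map_pow]
  exact pow_le_one₀ zero_le h

theorem v_lm_ze (hB : (2 : ℂ)⁻¹ ∉ B) {z : ℂ} (hz : Od z) : B.valuation (1 + lm * ze z) = 1 := by
  rw [Valuation.map_one_add_of_lt]
  rw [map_mul]
  exact mul_lt_one_of_lt_of_le (v_lm_lt hB) (v_ze hB hz)

/-- `dX` is congruent to `1` modulo `lm` -/
theorem v_dX_sub (hB : (2 : ℂ)⁻¹ ∉ B) {t : ℂ} (ht : B.valuation t ≤ 1) :
    B.valuation (dX t - 1) ≤ B.valuation lm := by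
  have e : dX t - 1 = lm * ((lm * -zt) * (2 - zt) * t - t ^ 2) := by
    rw [dX]
    linear_combination (zt * (2 - zt) * t) * lm_sq (hq := hq) +
      (2 * (2 - zt) * t) * zt_sq
  rw [e, map_mul]
  refine mul_le_of_le_one_right' ?_
  refine (Valuation.map_sub _ _ _).trans (max_le ?_ ?_)
  · rw [map_mul, map_mul, map_mul, Valuation.map_neg, v_zt, mul_one]
    refine mul_le_one' (mul_le_one' (v_lm_lt hB).le ?_) ht
    exact (Valuation.map_sub _ _ _).trans (max_le (two_lt hB).le (v_zt (B := B)).le)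
  · rw [map_pow]
    exact pow_le_one₀ zero_le ht

theorem v_dX (hB : (2 : ℂ)⁻¹ ∉ B) {t : ℂ} (ht : B.valuation t ≤ 1) : B.valuation (dX t) = 1 := by
  have e : dX t = 1 + (dX t - 1) := by ring
  rw [e, Valuation.map_one_add_of_lt]
  exact (v_dX_sub hB ht).trans_lt (v_lm_lt hB)

/-- (2.6) : `ze` modulo `lm ^ 2` -/
theorem v_ze_sub (hB : (2 : ℂ)⁻¹ ∉ B) {z : ℂ} (hz : Od z) :
    B.valuation (ze z - (1 + lm) * (xi z + xi (lm * z))) ≤ B.valuation lm ^ 2 := by
  have h1 := xi_le hB hz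
  have h2 := xi_le hB hz.mul_lm
  have e : ze z - (1 + lm) * (xi z + xi (lm * z)) =
      2 * (zt * (xi z * xi (lm * z)) - (xi z + xi (lm * z))) := by
    rw [ze_eq hz.two, lm]
    ring
  rw [e, map_mul, ← v_lm_sq]
  refine mul_le_of_le_one_right' ?_
  refine (Valuation.map_sub _ _ _).trans (max_le ?_ ?_)
  · rw [map_mul, map_mul, v_zt, one_mul]
    exact mul_le_one' h1 h2
  · exact (Valuation.map_add _ _ _).trans (max_le h1 h2)

/-- `ze + ze ^ 2` is congruent to `xi z + xi (lm ^ 2 z)` -/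
theorem v_ze_ze (hB : (2 : ℂ)⁻¹ ∉ B) {z : ℂ} (hz : Od z) :
    B.valuation (ze z + ze z ^ 2 - (xi z + xi (lm ^ 2 * z))) < 1 := by
  have h1 := xi_le hB hz
  have h2 := xi_le hB hz.mul_lm
  have a1 := v_xi_lm hB hz
  have a2 := v_xi_lm hB hz.mul_lm
  have e0 : lm ^ 2 * z = lm * (lm * z) := by ring
  rw [e0]
  have e : ze z + ze z ^ 2 - (xi z + xi (lm * (lm * z))) = 2 * (xi z ^ 2 + xi z ^ 3) -
      (xi (lm * (lm * z)) - xi (lm * z) ^ 2) -
      (xi (lm * z) - xi z ^ 2) * (xi (lm * z) + xi z ^ 2) := by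
    rw [ze]
    ring
  rw [e]
  refine Valuation.map_sub_lt _ (Valuation.map_sub_lt _ ?_ a2) ?_
  · rw [map_mul]
    refine mul_lt_one_of_lt_of_le (two_lt hB) ?_
    refine (Valuation.map_add _ _ _).trans (max_le ?_ ?_)
    · rw [map_pow]
      exact pow_le_one₀ zero_le h1
    · rw [map_pow]
      exact pow_le_one₀ zero_le h1
  · rw [map_mul]
    refine mul_lt_one_of_lt_of_le a1 ?_
    refine (Valuation.map_add _ _ _).trans (max_le h2 ?_)
    rw [map_pow]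
    exact pow_le_one₀ zero_le h1

/-- the constant `1 - 2 / pi` of the page -/
def c1X : ℂ := -(zt * rh⁻¹)

theorem c1X_mul : c1X * rh = -zt := by
  rw [c1X]
  have h := rh_ne (hq := hq)
  field_simp

theorem v_c1X (hB : (2 : ℂ)⁻¹ ∉ B) : B.valuation c1X = 1 := by
  rw [c1X, Valuation.map_neg, map_mul, map_inv₀, v_zt, v_rh hB, inv_one, one_mul]

/-- `1 / rh` is congruent to `i` modulo `lm m` -/
theorem v_rh_inv (hB : (2 : ℂ)⁻¹ ∉ B) : B.valuation (rh⁻¹ - zt) < B.valuation lm := by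
  obtain ⟨l, hl⟩ : ∃ l, l = B.valuation lm := ⟨_, rfl⟩
  have hl0 : 0 < l := hl ▸ v_lm_pos
  have hl1 : l < 1 := hl ▸ v_lm_lt hB
  have h2 : B.valuation (2 : ℂ) = l ^ 2 := by rw [hl, v_lm_sq]
  rw [← hl]
  by_contra h
  push Not at h
  have h3 : B.valuation (rh⁻¹ + zt) = B.valuation (rh⁻¹ - zt) := by
    have e : rh⁻¹ + zt = (rh⁻¹ - zt) + 2 * zt := by ring
    rw [e]
    refine Valuation.map_add_eq_of_lt_left _ ?_
    rw [map_mul, v_zt, mul_one, h2]
    refine lt_of_lt_of_le ?_ h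
    rw [pow_two]
    exact mul_lt_of_lt_one_right hl0 hl1
  have h4 : (rh⁻¹ + zt) * (rh⁻¹ - zt) = 2 * (1 - zt) := by
    have h5 := rh_sq (hq := hq)
    have h6 : rh⁻¹ ^ 2 = 1 - 2 * zt := by
      have h7 := rh_ne (hq := hq)
      field_simp
      linear_combination -h5
    linear_combination h6 - zt_sq
  have h5 := congrArg B.valuation h4
  have e : (1 - zt : ℂ) = -(zt * lm) := by
    rw [lm]
    linear_combination zt_sq
  rw [map_mul, map_mul, h3, e, Valuation.map_neg, map_mul, v_zt, one_mul, h2, ← hl] at h5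
  have h6 : l * l ≤ l ^ 2 * l := by
    rw [← h5]
    exact mul_le_mul' h h
  have h7 : l ^ 2 * l < l * l := by
    rw [pow_two]
    exact mul_lt_of_lt_one_right (mul_pos hl0 hl0) hl1
  exact absurd h6 (not_le.2 h7)

/-- (2.7), `k = 2`, `h = 0` -/
theorem v_U2p (hB : (2 : ℂ)⁻¹ ∉ B) {z : ℂ} (hz : Od z) :
    B.valuation (U2p (X z) + lm ^ 2 * (1 + lm * (ze z + ze z ^ 2))) ≤ B.valuation lm ^ 4 := by
  have h0 := v_dX hB (v_ze hB hz)
  have hne : dX (ze z) ≠ 0 := by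
    intro h
    rw [h, map_zero] at h0
    exact zero_ne_one h0
  have h1 := U2p_ze hne
  have ht := v_ze hB hz
  have hl := (v_lm_lt (B := B) hB).le
  obtain ⟨t, ht'⟩ : ∃ t, t = ze z := ⟨_, rfl⟩
  rw [← ht'] at h0 h1 ht hne ⊢
  have h2 : (U2p (X z) + lm ^ 2 * (1 + lm * (t + t ^ 2))) * dX t =
      -(lm ^ 4 * (-(lm * t ^ 2) + lm ^ 2 * t + lm * (t + t ^ 2) * (lm ^ 2 + 1) * t +
        (t + t ^ 2) * t ^ 2)) := by
    have h3 := lm_four (hq := hq)
    have h4 := lm_sq (hq := hq)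
    have e1 : dX t = 1 - (lm ^ 4 + lm ^ 2) * t - lm * t ^ 2 := by
      rw [dX]
      linear_combination t * h3 + t * h4
    have e2 : (1 - 2 * zt * t : ℂ) = 1 - lm ^ 2 * t := by
      linear_combination t * h4
    rw [add_mul, h1, e2, e1]
    ring
  have h3 := congrArg B.valuation h2
  rw [map_mul, h0, mul_one, Valuation.map_neg, map_mul, map_pow] at h3
  rw [h3]
  refine mul_le_of_le_one_right' ?_
  have t2 : B.valuation (t ^ 2) ≤ 1 := by
    rw [map_pow]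
    exact pow_le_one₀ zero_le ht
  have t3 : B.valuation (t + t ^ 2) ≤ 1 := (Valuation.map_add _ _ _).trans (max_le ht t2)
  have l2 : B.valuation (lm ^ 2) ≤ 1 := by
    rw [map_pow]
    exact pow_le_one₀ zero_le hl
  refine (Valuation.map_add _ _ _).trans (max_le ?_ ?_)
  · refine (Valuation.map_add _ _ _).trans (max_le ?_ ?_)
    · refine (Valuation.map_add _ _ _).trans (max_le ?_ ?_)
      · rw [Valuation.map_neg, map_mul]
        exact mul_le_one' hl t2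
      · rw [map_mul]
        exact mul_le_one' l2 ht
    · rw [map_mul, map_mul, map_mul]
      refine mul_le_one' (mul_le_one' (mul_le_one' hl t3) ?_) ht
      exact (Valuation.map_add _ _ _).trans (max_le l2 (map_one _).le)
  · rw [map_mul]
    exact mul_le_one' t3 t2

/-- (2.7), `k = 2`, `h = 1` -/
theorem v_U2m (hB : (2 : ℂ)⁻¹ ∉ B) {z : ℂ} (hz : Od z) :
    B.valuation (U2m (X z) + lm ^ 2 * (c1X + lm * (ze z + ze z ^ 2))) ≤ B.valuation lm ^ 4 := by
  have h0 := v_dX hB (v_ze hB hz)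
  have hne : dX (ze z) ≠ 0 := by
    intro h
    rw [h, map_zero] at h0
    exact zero_ne_one h0
  have h1 := U2m_ze hne
  have ht := v_ze hB hz
  have hx := xi_le hB hz
  have hl := (v_lm_lt (B := B) hB).le
  have hd := v_dX_sub hB ht
  have hr := v_rh_inv (hq := hq) hB
  have hr0 : B.valuation rh⁻¹ = 1 := by rw [map_inv₀, v_rh hB, inv_one]
  have hw := v_lm_ze hB hz
  obtain ⟨t, ht'⟩ : ∃ t, t = ze z := ⟨_, rfl⟩
  obtain ⟨x, hx'⟩ : ∃ x, x = xi z := ⟨_, rfl⟩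
  rw [← ht'] at h0 h1 ht hne hd hw ⊢
  rw [← hx'] at h1 hx
  have h2 : (U2m (X z) + lm ^ 2 * (c1X + lm * (t + t ^ 2))) * dX t =
      lm ^ 2 * (lm * ((t + t ^ 2) * (zt * (rh⁻¹ - zt) + (dX t - 1))) +
        2 * (zt * rh⁻¹ * (x * (1 + lm * t) - (2 - zt) * t))) := by
    have e1 : dX t = 1 + (4 - 2 * zt) * t - lm * t ^ 2 := rfl
    rw [add_mul, h1, c1X, e1]
    linear_combination (-(lm ^ 3 * (t + t ^ 2))) * -zt_sq (hq := hq)
  have h3 := congrArg B.valuation h2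
  rw [map_mul, h0, mul_one, map_mul, map_pow] at h3
  have e4 : B.valuation lm ^ 4 = B.valuation lm ^ 2 * B.valuation lm ^ 2 := by
    rw [← pow_add]
  rw [h3, e4]
  refine mul_le_mul' le_rfl ?_
  have t2 : B.valuation (t ^ 2) ≤ 1 := by
    rw [map_pow]
    exact pow_le_one₀ zero_le ht
  have t3 : B.valuation (t + t ^ 2) ≤ 1 := (Valuation.map_add _ _ _).trans (max_le ht t2)
  refine (Valuation.map_add _ _ _).trans (max_le ?_ ?_)
  · rw [map_mul, pow_two (B.valuation lm)]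
    refine mul_le_mul' le_rfl ?_
    rw [map_mul]
    refine (mul_le_mul' t3 ?_).trans (by rw [one_mul])
    refine (Valuation.map_add _ _ _).trans (max_le ?_ hd)
    rw [map_mul, v_zt, one_mul]
    exact hr.le
  · rw [map_mul, ← v_lm_sq]
    refine mul_le_of_le_one_right' ?_
    rw [map_mul, map_mul, v_zt, one_mul, hr0, one_mul]
    refine (Valuation.map_sub _ _ _).trans (max_le ?_ ?_)
    · rw [map_mul, hw, mul_one]
      exact hx
    · rw [map_mul]
      refine mul_le_one' ?_ ht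
      exact (Valuation.map_sub _ _ _).trans (max_le (two_lt hB).le (v_zt (B := B)).le)

/-- (2.7), `k = 0`, `h = 0` -/
theorem v_U0p (hB : (2 : ℂ)⁻¹ ∉ B) {z : ℂ} (hz : Od z) :
    B.valuation (U0p (X z) - lm ^ 3 * (1 - lm * ze z + lm ^ 2 * (ze z + ze z ^ 2))) ≤
      B.valuation lm ^ 6 := by
  have h0 := v_lm_ze hB hz
  have hne : 1 + lm * ze z ≠ 0 := by
    intro h
    rw [h, map_zero] at h0
    exact zero_ne_one h0
  have h1 := U0p_ze hne
  have ht := v_ze hB hz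
  have hl := (v_lm_lt (B := B) hB).le
  obtain ⟨t, ht'⟩ : ∃ t, t = ze z := ⟨_, rfl⟩
  rw [← ht'] at h0 h1 ht hne ⊢
  have h2 : (U0p (X z) - lm ^ 3 * (1 - lm * t + lm ^ 2 * (t + t ^ 2))) * (1 + lm * t) =
      lm ^ 6 * (zt * lm * t - t ^ 2 * (1 + t)) := by
    have h4 := lm_sq (hq := hq)
    have e2 : (1 - 2 * zt * t : ℂ) = 1 - lm ^ 2 * t := by
      linear_combination t * h4
    have e3 : (2 : ℂ) = -(zt * lm ^ 2) := by
      linear_combination zt * h4 + 2 * zt_sq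
    rw [sub_mul, h1, e2]
    linear_combination (-(lm ^ 5 * t)) * e3
  have h3 := congrArg B.valuation h2
  rw [map_mul, h0, mul_one, map_mul, map_pow] at h3
  rw [h3]
  refine mul_le_of_le_one_right' ?_
  have t2 : B.valuation (t ^ 2) ≤ 1 := by
    rw [map_pow]
    exact pow_le_one₀ zero_le ht
  refine (Valuation.map_sub _ _ _).trans (max_le ?_ ?_)
  · rw [map_mul, map_mul, v_zt, one_mul]
    exact mul_le_one' hl ht
  · rw [map_mul]
    refine mul_le_one' t2 ?_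
    exact (Valuation.map_add _ _ _).trans (max_le (map_one _).le ht)

/-- (2.7), `k = 0`, `h = 1` -/
theorem v_U0m (hB : (2 : ℂ)⁻¹ ∉ B) {z : ℂ} (hz : Od z) :
    B.valuation (U0m (X z) + zt * lm ^ 3 * (c1X - lm * ze z + lm ^ 2 * (xi z + ze z ^ 2))) <
      B.valuation lm ^ 5 := by
  have h0 := v_lm_ze hB hz
  have hne : 1 + lm * ze z ≠ 0 := by
    intro h
    rw [h, map_zero] at h0
    exact zero_ne_one h0
  have h1 := U0m_ze hne
  have ht := v_ze hB hz
  have hx := xi_le hB hz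
  have hr := v_rh_inv (hq := hq) hB
  have hl := v_lm_lt (B := B) hB
  have hl0 := v_lm_pos (B := B) (hq := hq)
  obtain ⟨t, ht'⟩ : ∃ t, t = ze z := ⟨_, rfl⟩
  obtain ⟨x, hx'⟩ : ∃ x, x = xi z := ⟨_, rfl⟩
  rw [← ht'] at h0 h1 ht hne ⊢
  rw [← hx'] at h1 hx ⊢
  have h2 : (U0m (X z) + zt * lm ^ 3 * (c1X - lm * t + lm ^ 2 * (x + t ^ 2))) * (1 + lm * t) =
      lm ^ 3 * (-(2 * ((rh⁻¹ - zt + lm) * x)) + lm * (t * (rh⁻¹ - zt)) +
        lm ^ 3 * (zt * ((x + t ^ 2) * t))) := by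
    have h4 := lm_sq (hq := hq)
    have e1 : lm = 1 + zt := rfl
    rw [add_mul, h1, c1X]
    have e5 : (zt * lm ^ 2 + 2 : ℂ) = 0 := by linear_combination zt * h4 + 2 * zt_sq
    linear_combination (-(lm ^ 3) * (1 + lm * t) * rh⁻¹) * zt_sq + lm ^ 3 * x * e5 +
      2 * lm ^ 3 * x * e1
  have h3 := congrArg B.valuation h2
  rw [map_mul, h0, mul_one, map_mul, map_pow] at h3
  have e4 : B.valuation lm ^ 5 = B.valuation lm ^ 3 * B.valuation lm ^ 2 := by
    rw [← pow_add]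
  rw [h3, e4]
  refine mul_lt_mul_of_pos_left ?_ (pow_pos hl0 3)
  have l3 : B.valuation lm ^ 3 < B.valuation lm ^ 2 :=
    pow_lt_pow_right_of_lt_one₀ hl0 hl (by norm_num)
  refine Valuation.map_add_lt _ (Valuation.map_add_lt _ ?_ ?_) ?_
  · refine lt_of_le_of_lt ?_ l3
    rw [Valuation.map_neg, map_mul, map_mul, ← v_lm_sq]
    have e5 : B.valuation lm ^ 3 = B.valuation lm ^ 2 * B.valuation lm := pow_succ _ 2
    rw [e5]
    refine mul_le_mul' le_rfl ?_
    refine (mul_le_mul' ?_ hx).trans (by rw [mul_one])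
    exact (Valuation.map_add _ _ _).trans (max_le hr.le le_rfl)
  · rw [map_mul, map_mul, pow_two (B.valuation lm)]
    refine mul_lt_mul_of_pos_left ?_ hl0
    refine lt_of_le_of_lt ?_ hr
    exact (mul_le_mul' ht le_rfl).trans (by rw [one_mul])
  · refine lt_of_le_of_lt ?_ l3
    rw [map_mul, map_pow]
    refine mul_le_of_le_one_right' ?_
    rw [map_mul, v_zt, one_mul, map_mul]
    refine mul_le_one' ?_ ht
    refine (Valuation.map_add _ _ _).trans (max_le hx ?_)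
    rw [map_pow]
    exact pow_le_one₀ zero_le ht

/-! ### The linear forms -/

/-- the constant of (7.3), `h = 0` -/
def K0p (s : ℂ) : ℂ := 1 - (lm / 2) * ((1 + lm) * (1 - s))

/-- the constant of (7.3), `h = 1` -/
def K0m (s : ℂ) : ℂ := 1 - (lm / 2) * (1 - s + lm)

/-- `- lm ze` modulo `lm ^ 2 m` -/
theorem v_lin (hB : (2 : ℂ)⁻¹ ∉ B) {z : ℂ} (hz : Od z) :
    B.valuation (-(lm * ze z) - (lm - lm ^ 2) * (xi z + xi (lm * z))) < B.valuation lm ^ 2 := by
  have h1 := xi_le hB hz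
  have h2 := xi_le hB hz.mul_lm
  have hl0 := v_lm_pos (B := B) (hq := hq)
  have e : -(lm * ze z) - (lm - lm ^ 2) * (xi z + xi (lm * z)) =
      lm * (2 * -(zt * (xi z * xi (lm * z)))) := by
    have e1 : lm = 1 + zt := rfl
    rw [ze_eq hz.two]
    linear_combination (lm * (xi z + xi (lm * z))) * e1
  rw [e, map_mul, map_mul, ← v_lm_sq, Valuation.map_neg, map_mul, v_zt, one_mul, map_mul]
  have l3 : B.valuation lm * B.valuation lm ^ 2 < B.valuation lm ^ 2 :=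
    mul_lt_of_lt_one_left (pow_pos hl0 2) (v_lm_lt hB)
  refine lt_of_le_of_lt ?_ l3
  refine mul_le_mul' le_rfl ?_
  exact mul_le_of_le_one_right' (mul_le_one' h1 h2)

theorem v_two_lm (hB : (2 : ℂ)⁻¹ ∉ B) {x : ℂ} (hx : B.valuation x ≤ 1) :
    B.valuation (2 * lm * x) < B.valuation lm ^ 2 := by
  rw [map_mul, map_mul, ← v_lm_sq]
  have hl0 := v_lm_pos (B := B) (hq := hq)
  refine lt_of_le_of_lt (mul_le_mul' le_rfl hx) ?_
  rw [mul_one]
  exact mul_lt_of_lt_one_right (pow_pos hl0 2) (v_lm_lt hB)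

/-- (7.3), `h = 0`, in terms of `xi` -/
theorem v_U0p_lin (hB : (2 : ℂ)⁻¹ ∉ B) {z : ℂ} (hz : Od z) :
    B.valuation (U0p (X z) / lm ^ 3 -
      (1 + lm * (xi z + (1 + lm) * xi (lm * z) + lm * xi (lm ^ 2 * z)))) < B.valuation lm ^ 2 := by
  have h1 := v_U0p hB hz
  have h2 := v_lin hB hz
  have h3 := v_ze_ze hB hz
  have x1 := xi_le hB hz.mul_lm
  have hl0 := v_lm_pos (B := B) (hq := hq)
  have hl1 := v_lm_lt (B := B) hB
  have hlm := lm_ne (hq := hq)
  have e : U0p (X z) / lm ^ 3 -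
      (1 + lm * (xi z + (1 + lm) * xi (lm * z) + lm * xi (lm ^ 2 * z))) =
      (U0p (X z) - lm ^ 3 * (1 - lm * ze z + lm ^ 2 * (ze z + ze z ^ 2))) / lm ^ 3 +
      (-(lm * ze z) - (lm - lm ^ 2) * (xi z + xi (lm * z))) +
      lm ^ 2 * (ze z + ze z ^ 2 - (xi z + xi (lm ^ 2 * z))) -
      2 * lm * (lm * xi (lm * z)) := by
    field_simp
    ring
  rw [e]
  refine Valuation.map_sub_lt _ (Valuation.map_add_lt _ (Valuation.map_add_lt _ ?_ h2) ?_) ?_
  · rw [map_div₀, map_pow, div_lt_iff₀ (pow_pos hl0 3), ← pow_add]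
    refine lt_of_le_of_lt h1 ?_
    exact pow_lt_pow_right_of_lt_one₀ hl0 hl1 (by norm_num)
  · rw [map_mul, map_pow]
    exact mul_lt_of_lt_one_right (pow_pos hl0 2) h3
  · refine v_two_lm hB ?_
    rw [map_mul]
    exact mul_le_one' hl1.le x1

/-- (7.3), `h = 1`, in terms of `xi` -/
theorem v_U0m_lin (hB : (2 : ℂ)⁻¹ ∉ B) {z : ℂ} (hz : Od z) :
    B.valuation (-rh * U0m (X z) / lm ^ 3 -
      (1 + lm * (xi z + xi (lm * z) + lm * xi (lm ^ 2 * z)))) < B.valuation lm ^ 2 := by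
  have h1 := v_U0m hB hz
  have h2 := v_lin hB hz
  have h3 := v_ze_ze hB hz
  have x0 := xi_le hB hz
  have x1 := xi_le hB hz.mul_lm
  have xz := v_ze hB hz
  have hr := v_rh_inv (hq := hq) hB
  have hr1 := v_rh (B := B) (hq := hq) hB
  have hl0 := v_lm_pos (B := B) (hq := hq)
  have hl1 := v_lm_lt (B := B) hB
  have hlm := lm_ne (hq := hq)
  have hc := c1X_mul (hq := hq)
  -- `rh i` is congruent to `1` modulo `lm m`
  have h4 : B.valuation (rh * zt - 1) < B.valuation lm := by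
    have e : rh * zt - 1 = -(rh * (rh⁻¹ - zt)) := by
      have := rh_ne (hq := hq)
      field_simp
      ring
    rw [e, Valuation.map_neg, map_mul, hr1, one_mul]
    exact hr
  -- `ze ^ 2` is congruent to `xi (lm z) + xi (lm ^ 2 z)`
  have h5 : B.valuation (xi z + ze z ^ 2 - (xi z + xi (lm * z) + xi (lm ^ 2 * z))) < 1 := by
    have e : xi z + ze z ^ 2 - (xi z + xi (lm * z) + xi (lm ^ 2 * z)) =
        (ze z + ze z ^ 2 - (xi z + xi (lm ^ 2 * z))) - (xi z ^ 2 - xi (lm * z)) -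
          2 * xi (lm * z) + 0 := by
      rw [ze]
      ring
    rw [e, add_zero]
    refine Valuation.map_sub_lt _ (Valuation.map_sub_lt _ h3 ?_) ?_
    · rw [Valuation.map_sub_swap]
      exact v_xi_lm hB hz
    · rw [map_mul]
      exact mul_lt_one_of_lt_of_le (two_lt hB) x1
  have e : -rh * U0m (X z) / lm ^ 3 -
      (1 + lm * (xi z + xi (lm * z) + lm * xi (lm ^ 2 * z))) =
      -(rh * ((U0m (X z) + zt * lm ^ 3 * (c1X - lm * ze z + lm ^ 2 * (xi z + ze z ^ 2))) /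
        lm ^ 3)) +
      (-(lm * ze z) - (lm - lm ^ 2) * (xi z + xi (lm * z))) -
      (rh * zt - 1) * (lm * ze z) +
      lm ^ 2 * ((xi z + ze z ^ 2) - (xi z + xi (lm * z) + xi (lm ^ 2 * z))) +
      lm ^ 2 * ((rh * zt - 1) * (xi z + ze z ^ 2)) +
      0 := by
    have e1 : -rh * U0m (X z) / lm ^ 3 =
        -(rh * ((U0m (X z) + zt * lm ^ 3 * (c1X - lm * ze z + lm ^ 2 * (xi z + ze z ^ 2))) /
          lm ^ 3)) + rh * (zt * (c1X - lm * ze z + lm ^ 2 * (xi z + ze z ^ 2))) := by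
      field_simp
      ring
    rw [e1]
    linear_combination zt * hc - zt_sq
  rw [e, add_zero]
  refine Valuation.map_add_lt _ (Valuation.map_add_lt _ (Valuation.map_sub_lt _
    (Valuation.map_add_lt _ ?_ h2) ?_) ?_) ?_
  · rw [Valuation.map_neg, map_mul, hr1, one_mul, map_div₀, map_pow, div_lt_iff₀ (pow_pos hl0 3),
      ← pow_add]
    exact h1
  · rw [map_mul, map_mul, pow_two (B.valuation lm)]
    calc B.valuation (rh * zt - 1) * (B.valuation lm * B.valuation (ze z))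
        ≤ B.valuation (rh * zt - 1) * (B.valuation lm * 1) :=
          mul_le_mul' le_rfl (mul_le_mul' le_rfl xz)
      _ = B.valuation (rh * zt - 1) * B.valuation lm := by rw [mul_one]
      _ < _ := mul_lt_mul_of_pos_right h4 hl0
  · rw [map_mul, map_pow]
    exact mul_lt_of_lt_one_right (pow_pos hl0 2) h5
  · rw [map_mul, map_pow]
    refine mul_lt_of_lt_one_right (pow_pos hl0 2) ?_
    rw [map_mul]
    refine mul_lt_one_of_lt_of_le (h4.trans hl1) ?_
    refine (Valuation.map_add _ _ _).trans (max_le x0 ?_)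
    rw [map_pow]
    exact pow_le_one₀ zero_le xz

/-- (7.3), `h = 0` -/
theorem ev0p_X (hB : (2 : ℂ)⁻¹ ∉ B) {z : ℂ} (hz : Od z) {s : ℂ} (hs : s = 1 ∨ s = -1) :
    B.valuation (U0p (X z) / lm ^ 3 - K0p s -
      lm / (2 * rh) * (X z - s * (1 + lm) * X (lm * z) + lm * X (lm ^ 2 * z))) <
      B.valuation lm ^ 2 := by
  have h1 := v_U0p_lin hB hz
  have x1 := xi_le hB hz.mul_lm
  have hl1 := v_lm_lt (B := B) hB
  have hr := rh_ne (hq := hq)
  have e0 : lm / (2 * rh) * (X z - s * (1 + lm) * X (lm * z) + lm * X (lm ^ 2 * z)) =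
      lm / 2 * ((1 + 2 * xi z) - s * (1 + lm) * (1 + 2 * xi (lm * z)) +
        lm * (1 + 2 * xi (lm ^ 2 * z))) := by
    rw [X_xi z, X_xi (lm * z), X_xi (lm ^ 2 * z)]
    field_simp
  rcases hs with rfl | rfl
  · have e : U0p (X z) / lm ^ 3 - K0p 1 -
        lm / (2 * rh) * (X z - 1 * (1 + lm) * X (lm * z) + lm * X (lm ^ 2 * z)) =
        (U0p (X z) / lm ^ 3 -
          (1 + lm * (xi z + (1 + lm) * xi (lm * z) + lm * xi (lm ^ 2 * z)))) +
        2 * lm * ((1 + lm) * xi (lm * z)) := by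
      rw [e0, K0p]
      ring
    rw [e]
    refine Valuation.map_add_lt _ h1 (v_two_lm hB ?_)
    rw [map_mul]
    refine mul_le_one' ?_ x1
    exact (Valuation.map_add _ _ _).trans (max_le (map_one _).le hl1.le)
  · have e : U0p (X z) / lm ^ 3 - K0p (-1) -
        lm / (2 * rh) * (X z - -1 * (1 + lm) * X (lm * z) + lm * X (lm ^ 2 * z)) =
        U0p (X z) / lm ^ 3 -
          (1 + lm * (xi z + (1 + lm) * xi (lm * z) + lm * xi (lm ^ 2 * z))) := by
      rw [e0, K0p]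
      ring
    rw [e]
    exact h1

/-- (7.3), `h = 1` -/
theorem ev0m_X (hB : (2 : ℂ)⁻¹ ∉ B) {z : ℂ} (hz : Od z) {s : ℂ} (hs : s = 1 ∨ s = -1) :
    B.valuation (-rh * U0m (X z) / lm ^ 3 - K0m s -
      lm / (2 * rh) * (X z - s * X (lm * z) + lm * X (lm ^ 2 * z))) < B.valuation lm ^ 2 := by
  have h1 := v_U0m_lin hB hz
  have x1 := xi_le hB hz.mul_lm
  have hr := rh_ne (hq := hq)
  have e0 : lm / (2 * rh) * (X z - s * X (lm * z) + lm * X (lm ^ 2 * z)) =
      lm / 2 * ((1 + 2 * xi z) - s * (1 + 2 * xi (lm * z)) +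
        lm * (1 + 2 * xi (lm ^ 2 * z))) := by
    rw [X_xi z, X_xi (lm * z), X_xi (lm ^ 2 * z)]
    field_simp
  rcases hs with rfl | rfl
  · have e : -rh * U0m (X z) / lm ^ 3 - K0m 1 -
        lm / (2 * rh) * (X z - 1 * X (lm * z) + lm * X (lm ^ 2 * z)) =
        (-rh * U0m (X z) / lm ^ 3 -
          (1 + lm * (xi z + xi (lm * z) + lm * xi (lm ^ 2 * z)))) +
        2 * lm * xi (lm * z) := by
      rw [e0, K0m]
      ring
    rw [e]
    exact Valuation.map_add_lt _ h1 (v_two_lm hB x1)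
  · have e : -rh * U0m (X z) / lm ^ 3 - K0m (-1) -
        lm / (2 * rh) * (X z - -1 * X (lm * z) + lm * X (lm ^ 2 * z)) =
        -rh * U0m (X z) / lm ^ 3 -
          (1 + lm * (xi z + xi (lm * z) + lm * xi (lm ^ 2 * z))) := by
      rw [e0, K0m]
      ring
    rw [e]
    exact h1

/-- `k = 2` -/
theorem ev2_X (hB : (2 : ℂ)⁻¹ ∉ B) {F : ℂ → ℂ}
    (hF : F = (fun z => U2p (X z)) ∨ F = fun z => U2m (X z)) :
    ∃ κ : ℂ, B.valuation (κ - 1) < 1 ∧ ∀ z, Od z →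
      B.valuation (F z / lm ^ 2 - κ - lm / (2 * rh) * (X z + X (lm ^ 2 * z))) <
        B.valuation lm := by
  have hl0 := v_lm_pos (B := B) (hq := hq)
  have hl1 := v_lm_lt (B := B) hB
  have hlm := lm_ne (hq := hq)
  have hr := rh_ne (hq := hq)
  have key : ∀ c : ℂ, (∀ z, Od z → B.valuation (F z + lm ^ 2 * (c + lm * (ze z + ze z ^ 2))) ≤
      B.valuation lm ^ 4) → ∀ z, Od z →
      B.valuation (F z / lm ^ 2 - (-c - lm) - lm / (2 * rh) * (X z + X (lm ^ 2 * z))) <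
        B.valuation lm := by
    intro c hc z hz
    have h1 := hc z hz
    have h3 := v_ze_ze hB hz
    have x0 := xi_le hB hz
    have x2 := xi_le hB (hz.pow 2)
    have e0 : lm / (2 * rh) * (X z + X (lm ^ 2 * z)) =
        lm / 2 * ((1 + 2 * xi z) + (1 + 2 * xi (lm ^ 2 * z))) := by
      rw [X_xi z, X_xi (lm ^ 2 * z)]
      field_simp
    have e : F z / lm ^ 2 - (-c - lm) - lm / (2 * rh) * (X z + X (lm ^ 2 * z)) =
        (F z + lm ^ 2 * (c + lm * (ze z + ze z ^ 2))) / lm ^ 2 -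
        lm * (ze z + ze z ^ 2 - (xi z + xi (lm ^ 2 * z))) -
        lm * (2 * (xi z + xi (lm ^ 2 * z))) := by
      rw [e0]
      field_simp
      ring
    rw [e]
    refine Valuation.map_sub_lt _ (Valuation.map_sub_lt _ ?_ ?_) ?_
    · rw [map_div₀, map_pow, div_lt_iff₀ (pow_pos hl0 2)]
      refine lt_of_le_of_lt h1 ?_
      have e4 : B.valuation lm * B.valuation lm ^ 2 = B.valuation lm ^ 3 := by
        rw [← pow_succ']
      rw [e4]
      exact pow_lt_pow_right_of_lt_one₀ hl0 hl1 (by norm_num)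
    · rw [map_mul]
      exact mul_lt_of_lt_one_right hl0 h3
    · rw [map_mul]
      refine mul_lt_of_lt_one_right hl0 ?_
      rw [map_mul]
      refine mul_lt_one_of_lt_of_le (two_lt hB) ?_
      exact (Valuation.map_add _ _ _).trans (max_le x0 x2)
  rcases hF with rfl | rfl
  · refine ⟨-1 - lm, ?_, key 1 fun z hz => v_U2p hB hz⟩
    have e : -1 - lm - 1 = -(2 + lm) := by ring
    rw [e, Valuation.map_neg]
    exact Valuation.map_add_lt _ (two_lt hB) hl1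
  · refine ⟨-c1X - lm, ?_, key c1X fun z hz => v_U2m hB hz⟩
    have hr1 := v_rh_inv (hq := hq) hB
    have e : -c1X - lm - 1 = zt * (rh⁻¹ - zt) - 2 - lm := by
      rw [c1X]
      linear_combination zt_sq
    rw [e]
    refine Valuation.map_sub_lt _ (Valuation.map_sub_lt _ ?_ (two_lt hB)) hl1
    rw [map_mul, v_zt, one_mul]
    exact hr1.trans hl1

end

end Pool.Agent.Lib.MP_1a91b9_ntQ
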