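import Pool.Agent.Lib.MP_1a91b9_ntQ.A.SysE
import Pool.Agent.Lib.MP_1a91b9_ntQ.A.Fac4

/-!
# Quartic twists, part A, file FacE: the factors of the averaging identity of the class (E), `lam ∥ D`
-/

set_option autoImplicit false

namespace Pool.Agent.Lib.MP_1a91b9_ntQ

open NumberField Pool.Agent.Lib.MP_1a91b9_nuT Pool.Agent.Lib.MP_1a91b9_nuT.S3
  Pool.Agent.Lib.MP_1a91b9_nuT.Ell

noncomputable section

variable {B : ValuationSubring ℂ}

private theorem FacE_md (t : ZMod 4) :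
    (t = 0 ∧ md t = 0) ∨ (t = 1 ∧ md t = 1) ∨ (t = 2 ∧ md t = 0) ∨ (t = 3 ∧ md t = 1) := by
  have h : ∀ t : ZMod 4, (t = 0 ∧ (ZMod.castHom (show 2 ∣ 4 by norm_num) (ZMod 2)) t = 0) ∨
      (t = 1 ∧ (ZMod.castHom (show 2 ∣ 4 by norm_num) (ZMod 2)) t = 1) ∨
      (t = 2 ∧ (ZMod.castHom (show 2 ∣ 4 by norm_num) (ZMod 2)) t = 0) ∨
      (t = 3 ∧ (ZMod.castHom (show 2 ∣ 4 by norm_num) (ZMod 2)) t = 1) := by decide
  exact h t

private theorem FacE_zt (hB : (2 : ℂ)⁻¹ ∉ B) : Rt B zt 1 := by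
  refine Rt.one.congr ?_
  have e : zt - 1 = lm - 2 := by
    rw [lm]
    ring
  rw [e]
  exact (Valuation.map_sub _ _ _).trans_lt (max_lt (v_lm_lt hB) (two_lt hB))

/-- the fourth roots of unity are `1` -/
private theorem FacE_e4 (hB : (2 : ℂ)⁻¹ ∉ B) (t : ZMod 4) : Rt B (e4 t) 1 := by
  have hn : Rt B (-1) 1 := Rt.one.neg hB
  rcases FacE_md t with ⟨h1, -⟩ | ⟨h1, -⟩ | ⟨h1, -⟩ | ⟨h1, -⟩
  · rw [h1, e4_zero]
    exact Rt.one
  · rw [h1, e4_one]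
    exact FacE_zt hB
  · rw [h1, e4_two]
    exact hn
  · rw [h1, e4_three]
    exact (FacE_zt hB).neg hB

/-- `(1 - i ^ t) / lam` is the class of `t` -/
private theorem FacE_sub (hB : (2 : ℂ)⁻¹ ∉ B) (t : ZMod 4) : Rt B ((1 - e4 t) / lm) (md t) := by
  rcases FacE_md t with ⟨h1, h2⟩ | ⟨h1, h2⟩ | ⟨h1, h2⟩ | ⟨h1, h2⟩
  · rw [h2, h1, e4_zero, sub_self, zero_div]
    exact Rt.zero
  · rw [h2, h1, e4_one]
    have e : (1 - zt) / lm = -zt := by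
      rw [div_eq_iff lm_ne, lm]
      linear_combination zt_sq
    rw [e]
    exact (FacE_zt hB).neg hB
  · rw [h2, h1, e4_two]
    have e : (1 - (-1 : ℂ)) / lm = 1 - zt := by
      rw [div_eq_iff lm_ne, cj_lm]
      norm_num
    rw [e]
    have h := Rt.one.sub hB (FacE_zt hB)
    rwa [sub_self] at h
  · rw [h2, h1, e4_three]
    have e : (1 - -zt) / lm = 1 := by
      rw [div_eq_iff lm_ne, lm]
      ring
    rw [e]
    exact Rt.one

/-- **the factor of the class (E)** -/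
theorem Rt_facE (hB : (2 : ℂ)⁻¹ ∉ B) (k : ZMod 4) {T : Finset Pg} {q : Pg} (hq : q ∉ T) :
    Rt B ((em q.1 - XE k T q.1) / lm) (md k * aa q.1 + c2 q lam + ∑ p ∈ T, s4 q p) := by
  have h1 : ∀ p ∈ T, ¬ p.1 ∣ q.1 := fun p hp => Pg.not_dvd (fun e => hq (e ▸ hp))
  have h2 : X4 k T q.1 = e4 (k * nn q.1 + ∑ p ∈ T, c4 p q.1) := by
    rw [X4_eq, th4, e4_add, e4_sum]
    congr 1
    exact Finset.prod_congr rfl fun p hp => ch4_of_not (h1 p hp)
  have h3 : XE k T q.1 = e4 (k * nn q.1 + ∑ p ∈ T, c4 p q.1) * e4 (ll q.1) := by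
    rw [XE_of_cop k h1, ← e4_add]
    congr 1
    ring
  have e1 : (em q.1 - XE k T q.1) / lm = (em q.1 - X4 k T q.1) / lm +
      e4 (k * nn q.1 + ∑ p ∈ T, c4 p q.1) * ((1 - e4 (ll q.1)) / lm) := by
    rw [h3, h2]
    ring
  have e2 : md k * aa q.1 + c2 q lam + ∑ p ∈ T, s4 q p =
      (md k * aa q.1 + ∑ p ∈ T, s4 q p) + 1 * md (ll q.1) := by
    rw [ll_q]
    unfold c2
    ring
  rw [e1, e2]
  exact (Rt_fac hB k hq).add hB ((FacE_e4 hB _).mul hB (FacE_sub hB _))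

end

end Pool.Agent.Lib.MP_1a91b9_ntQ
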