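import Pool.Agent.Lib.MP_1a91b9_ntQ.A.ClmB

/-!
# Quartic twists, part A, file FinB: the value of the whole set

`V` is the set of the primes `b` of exponent two with `κ b + ∑ (p ∈ S) s b p = 0`, `U` the set of the
others. The value divided by `l ^ (|S| + |U| + 2 |V| + n)` has the class
`∑ (A ⊆ V) g A * det NM (V - A)`.
-/

set_option autoImplicit false
set_option linter.unusedSectionVars false

namespace Pool.Agent.Lib.MP_1a91b9_ntQ

open Finset MvPolynomial
open Pool.Agent.Lib.MP_1a91b9_ntK (NM NM_congr NM_empty NM_adj NM_update NM_zero forest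
  CZ CZ_eq forest_zero)

noncomputable section

variable {ι : Type*} [DecidableEq ι]

section
variable {R : Type*} [CommRing R]

theorem cf_wE_mul (s : ι → ι → R) (κ : ι → R) (T A : Finset ι) (x : ι) (P : MvPolynomial ι R)
    (E : Finset ι) :
    cf (wE s κ T A x * P) E = (κ x + ∑ p ∈ T, s x p) * cf P E +
      ∑ b ∈ A ∩ E, s x b * cf P (E.erase b) := by
  rw [wE, add_mul, cf_add, cf_C_mul, sum_mul, cf_sum, ← filter_mem_eq_inter, sum_filter]
  congr 1
  refine sum_congr rfl fun b _ => ?_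
  rw [mul_comm (X b) (C _), mul_assoc, cf_C_mul, cf_X_mul]
  split_ifs
  · rfl
  · rw [mul_zero]

/-- proper subsets of `V`-sets -/
theorem cf_low (s : ι → ι → R) (κ : ι → R) (T : Finset ι) {B0 : Finset ι}
    {P : Finset ι → MvPolynomial ι R}
    (hstep : ∀ A ⊆ B0, ∀ b ∈ A, ∀ E : Finset ι, b ∉ E →
      cf (P A) E = cf (wE s κ T (A.erase b) b * P (A.erase b)) E)
    {U' : Finset ι} (hU : U' ⊆ B0) : ∀ (n : ℕ) (C : Finset ι), C.card = n → C ⊆ B0 →
      Disjoint U' C → (∀ b ∈ C, κ b + ∑ p ∈ T, s b p = 0) → ∀ E ⊂ C, cf (P (U' ∪ C)) E = 0 := by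
  intro n
  induction n with
  | zero =>
    intro C hC _ _ _ E hE
    rw [card_eq_zero.1 hC] at hE
    exact absurd hE (not_ssubset_empty E)
  | succ n ih =>
    intro C hC hC0 hUC hu E hE
    obtain ⟨b, hb, hbE⟩ := exists_of_ssubset hE
    have hbU : b ∉ U' := fun h => disjoint_left.1 hUC h hb
    have h1 : (U' ∪ C).erase b = U' ∪ C.erase b := by
      rw [erase_union_distrib, erase_eq_of_notMem hbU]
    rw [hstep _ (union_subset hU hC0) b (mem_union_right _ hb) E hbE, cf_wE_mul, hu b hb, zero_mul,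
      zero_add, h1]
    refine sum_eq_zero fun b' hb' => ?_
    rw [mem_inter] at hb'
    have hbb : b' ≠ b := fun h => hbE (h ▸ hb'.2)
    rw [ih (C.erase b) (by rw [card_erase_of_mem hb, hC]; rfl) ((erase_subset _ _).trans hC0)
      (disjoint_of_subset_right (erase_subset _ _) hUC) (fun y hy => hu y (mem_of_mem_erase hy)),
      mul_zero]
    refine Finset.ssubset_iff_subset_ne.2 ⟨fun y hy => ?_, fun h => ?_⟩
    · have hy' := mem_of_mem_erase hy
      exact mem_erase.2 ⟨fun h => hbE (h ▸ hy'), hE.1 hy'⟩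
    · have : b' ∈ C.erase b := mem_erase.2 ⟨hbb, hE.1 hb'.2⟩
      rw [← h] at this
      exact (notMem_erase b' E) this

/-- the primes with `u = 1` -/
theorem cf_top (s : ι → ι → R) (κ : ι → R) (T : Finset ι) {B0 : Finset ι}
    {P : Finset ι → MvPolynomial ι R}
    (hstep : ∀ A ⊆ B0, ∀ b ∈ A, ∀ E : Finset ι, b ∉ E →
      cf (P A) E = cf (wE s κ T (A.erase b) b * P (A.erase b)) E)
    {C : Finset ι} (hC : C ⊆ B0) (hu : ∀ b ∈ C, κ b + ∑ p ∈ T, s b p = 0)
    (U' : Finset ι) (hU : U' ⊆ B0) (hUC : Disjoint U' C)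
    (hu1 : ∀ b ∈ U', κ b + ∑ p ∈ T, s b p = 1) : cf (P (U' ∪ C)) C = cf (P C) C := by
  induction U' using Finset.induction_on with
  | empty => rw [empty_union]
  | insert b U' hb ih =>
    have hbB : b ∈ B0 := hU (mem_insert_self b U')
    have hU' : U' ⊆ B0 := (subset_insert b U').trans hU
    have hbC : b ∉ C := fun h => disjoint_left.1 hUC (mem_insert_self b U') h
    have hUC' : Disjoint U' C := disjoint_of_subset_left (subset_insert b U') hUC
    have h1 : (insert b U' ∪ C).erase b = U' ∪ C := by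
      rw [erase_union_distrib, erase_insert hb, erase_eq_of_notMem hbC]
    rw [hstep _ (union_subset hU hC) b (mem_union_left _ (mem_insert_self b U')) C hbC, cf_wE_mul,
      hu1 b (mem_insert_self b U'), one_mul, h1, ih hU' hUC' fun y hy => hu1 y
        (mem_insert_of_mem hy), sum_eq_zero, add_zero]
    intro b' hb'
    rw [mem_inter] at hb'
    rw [cf_low s κ T hstep hU' C.card C rfl hC hUC' hu _ (erase_ssubset hb'.2), mul_zero]

end

/-! ### The triangular system -/

theorem neg_pow_two' (n : ℕ) : (-1 : ZMod 2) ^ n = 1 := by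
  have : (-1 : ZMod 2) = 1 := by decide
  rw [this, one_pow]

theorem sum_super2 {M : Type*} [AddCommMonoid M] (C : Finset ι) (f : Finset ι → Finset ι → M) :
    ∑ D ∈ C.powerset, ∑ A ∈ D.powerset, f D A =
      ∑ A ∈ C.powerset, ∑ T ∈ (C \ A).powerset, f (A ∪ T) A := by
  have h1 : ∑ D ∈ C.powerset, ∑ A ∈ D.powerset, f D A =
      ∑ A ∈ C.powerset, ∑ D ∈ C.powerset.filter fun D => A ⊆ D, f D A := by
    refine sum_comm' fun D A => ?_
    simp only [mem_powerset, mem_filter]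
    constructor
    · rintro ⟨h1, h2⟩
      exact ⟨⟨h1, h2⟩, h2.trans h1⟩
    · rintro ⟨⟨h1, h2⟩, -⟩
      exact ⟨h1, h2⟩
  rw [h1]
  refine sum_congr rfl fun A hA => ?_
  rw [mem_powerset] at hA
  refine sum_bij' (fun D _ => D \ A) (fun T _ => A ∪ T) ?_ ?_ ?_ ?_ ?_
  · intro D hD
    rw [mem_filter, mem_powerset] at hD
    exact mem_powerset.2 (sdiff_subset_sdiff hD.1 subset_rfl)
  · intro T hT
    rw [mem_powerset] at hT
    rw [mem_filter, mem_powerset]
    exact ⟨union_subset hA (hT.trans sdiff_subset), subset_union_left⟩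
  · intro D hD
    rw [mem_filter] at hD
    exact union_sdiff_of_subset hD.2
  · intro T hT
    rw [mem_powerset] at hT
    exact union_sdiff_cancel_left (disjoint_of_subset_right hT disjoint_sdiff)
  · intro D hD
    rw [mem_filter] at hD
    rw [union_sdiff_of_subset hD.2]

/-- the solution of the triangular system -/
def solB (s : ι → ι → ZMod 2) (τ : ι → ZMod 2) (g : Finset ι → ZMod 2) (C : Finset ι) : ZMod 2 :=
  ∑ A ∈ C.powerset, g A * (NM s (fun b => τ b + ∑ a ∈ A, s b a) (C \ A)).det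

theorem solB_eq (s : ι → ι → ZMod 2) (τ : ι → ZMod 2) (g : Finset ι → ZMod 2) (C : Finset ι) :
    ∑ D ∈ C.powerset, solB s τ g D * ∏ b ∈ C \ D, (τ b + ∑ a ∈ D, s b a) = g C := by
  simp only [solB, sum_mul]
  rw [sum_super2, sum_eq_single C]
  · rw [Finset.sdiff_self, powerset_empty, sum_singleton, union_empty, Finset.sdiff_self, NM_empty,
      prod_empty, mul_one, mul_one]
  · intro A hA hAC
    rw [mem_powerset] at hA
    have h1 := forest s (fun b => τ b + ∑ a ∈ A, s b a) (S := C \ A) (by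
      rw [nonempty_iff_ne_empty]
      intro h
      rw [sdiff_eq_empty_iff_subset] at h
      exact hAC (subset_antisymm hA h))
    simp only [neg_pow_two', one_mul] at h1
    have h2 : ∑ T ∈ (C \ A).powerset, g A * (NM s (fun b => τ b + ∑ a ∈ A, s b a)
        ((A ∪ T) \ A)).det * ∏ b ∈ C \ (A ∪ T), (τ b + ∑ a ∈ A ∪ T, s b a) =
        g A * ∑ T ∈ (C \ A).powerset, (NM s (fun b => τ b + ∑ a ∈ A, s b a) T).det *
          ∏ b ∈ (C \ A) \ T, ((τ b + ∑ a ∈ A, s b a) + ∑ a ∈ T, s b a) := by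
      rw [mul_sum]
      refine sum_congr rfl fun T hT => ?_
      rw [mem_powerset] at hT
      have hd : Disjoint A T := disjoint_of_subset_right hT disjoint_sdiff
      have e1 : C \ (A ∪ T) = (C \ A) \ T := by
        ext y
        simp only [mem_sdiff, mem_union]
        tauto
      rw [union_sdiff_cancel_left hd, e1, mul_assoc]
      congr 2
      refine prod_congr rfl fun b _ => ?_
      rw [sum_union hd, add_assoc]
    rw [h2, h1, mul_zero]
  · intro h
    exact absurd (mem_powerset_self C) h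

theorem sgz_add (y z : ZMod 2) : sgz (y + z) = sgz y * sgz z := by
  have h : ∀ y : ZMod 2, y = 0 ∨ y = 1 := by decide
  have h2 : (1 : ZMod 2) + 1 = 0 := by decide
  rcases h y with rfl | rfl <;> rcases h z with rfl | rfl
  · rw [add_zero, sgz_zero, mul_one]
  · rw [zero_add, sgz_zero, one_mul]
  · rw [add_zero, sgz_zero, mul_one]
  · rw [h2, sgz_zero, sgz_one]
    norm_num

theorem sgz_sum {α : Type*} (A : Finset α) (f : α → ZMod 2) :
    ∏ a ∈ A, sgz (f a) = sgz (∑ a ∈ A, f a) := by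
  classical
  induction A using Finset.induction_on with
  | empty => rw [prod_empty, sum_empty, sgz_zero]
  | insert a A ha ih => rw [prod_insert ha, sum_insert ha, sgz_add, ih]

section
variable {B : ValuationSubring ℂ} {l K : ℂ} {La : Finset ι → Finset ι → ℂ} {e : ι → ℂ}
  {x : Finset ι → ι → ℂ} {s : ι → ι → ZMod 2} {κ : ι → ZMod 2} {S0 B0 : Finset ι}

/-- the quotient of the factor by `l ^ 2` -/
theorem SyB.fac2 (h : SyB B l K La e x s κ S0 B0) {U A : Finset ι} {b : ι} (hUA : Disjoint U A)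
    {τ : ZMod 2} (h1 : Rt B (x S0 b * ∏ a ∈ U, sgz (s b a)) 1)
    (h2 : Rt B ((e b - x S0 b * ∏ a ∈ U, sgz (s b a)) / l ^ 2) τ) :
    Rt B (fcB e x s S0 (U ∪ A) b / l ^ 2) (τ + ∑ a ∈ A, s b a) := by
  have h3 : Rt B ((1 - sgz (∑ a ∈ A, s b a)) / l ^ 2) (∑ a ∈ A, s b a) := by
    have hy : ∀ y : ZMod 2, y = 0 ∨ y = 1 := by decide
    rcases hy (∑ a ∈ A, s b a) with h4 | h4
    · rw [h4, sgz_zero, sub_self, zero_div]
      exact Rt.zero
    · rw [h4, sgz_one]
      have e1 : (1 - (-1 : ℂ)) = 2 := by norm_num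
      rw [e1]
      exact h.hu
  have h5 := h2.add h.hB (h1.mul h.hB h3)
  rw [one_mul] at h5
  have e1 : fcB e x s S0 (U ∪ A) b / l ^ 2 = (e b - x S0 b * ∏ a ∈ U, sgz (s b a)) / l ^ 2 +
      (x S0 b * ∏ a ∈ U, sgz (s b a)) * ((1 - sgz (∑ a ∈ A, s b a)) / l ^ 2) := by
    rw [fcB, prod_union hUA, sgz_sum A]
    ring
  rw [e1]
  exact h5

theorem fin_aux (a b c K : ℂ) {l : ℂ} (hl0 : l ≠ 0) {N M d k : ℕ} (h : N + k = M + 2 * d) :
    a * (b * c / (K * l ^ N)) = (l ^ 2 / 2) ^ k * (a * (b / (K * l ^ M) * (c / l ^ (2 * d)))) *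
      (2 / l) ^ k := by
  have e3 : (l ^ 2 / 2) ^ k * (2 / l) ^ k = l ^ k := by
    rw [← mul_pow]
    congr 1
    field_simp
  have h1 : l ^ M * l ^ (2 * d) = l ^ N * l ^ k := by rw [← pow_add, ← pow_add, h]
  have h2 : l ^ k ≠ 0 := pow_ne_zero _ hl0
  calc a * (b * c / (K * l ^ N)) = a * (b * c) * l ^ k / (K * (l ^ N * l ^ k)) := by
        rw [← mul_assoc K, mul_div_mul_right _ _ h2]
        ring
    _ = l ^ k * (a * (b / (K * l ^ M) * (c / l ^ (2 * d)))) := by
        rw [← h1]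
        ring
    _ = _ := by
        rw [← e3]
        ring

/-- **The value of `U ∪ C`**, `C` a subset of `V`. -/
theorem SyB.final (h : SyB B l K La e x s κ S0 B0) {n : ℕ} {P : Finset ι → MvPolynomial ι (ZMod 2)}
    {U V : Finset ι} (hU : U ⊆ B0) (hV : V ⊆ B0) (hUV : Disjoint U V)
    (hP : ∀ C ⊆ B0, RB B (2 / l) C
      (fun A => lvB La e x s S0 C A / (K * l ^ (S0.card + C.card + n))) (P C))
    (hstep : ∀ A ⊆ B0, ∀ b ∈ A, ∀ E : Finset ι, b ∉ E →
      cf (P A) E = cf (wE s κ S0 (A.erase b) b * P (A.erase b)) E)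
    (hu1 : ∀ b ∈ U, κ b + ∑ p ∈ S0, s b p = 1) (hu0 : ∀ b ∈ V, κ b + ∑ p ∈ S0, s b p = 0)
    {τ : ι → ZMod 2} (h1 : ∀ b ∈ V, Rt B (x S0 b * ∏ a ∈ U, sgz (s b a)) 1)
    (h2 : ∀ b ∈ V, Rt B ((e b - x S0 b * ∏ a ∈ U, sgz (s b a)) / l ^ 2) (τ b)) :
    ∀ m : ℕ, ∀ C ⊆ V, C.card = m →
      Rt B (La S0 (U ∪ C) / (K * l ^ (S0.card + U.card + 2 * C.card + n)))
        (solB s τ (fun A => cf (P A) A) C) := by
  intro m
  induction m using Nat.strong_induction_on with
  | _ m ih =>
  intro C hC hm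
  have hl0 := h.hl0
  have hUC : Disjoint U C := disjoint_of_subset_right hC hUV
  have hCB : C ⊆ B0 := hC.trans hV
  -- the coefficient
  let f : Finset ι → ℂ := fun A => lvB La e x s S0 (U ∪ C) A /
    (K * l ^ (S0.card + (U ∪ C).card + n))
  have h3 : Rt B (mo (fun A => f (U ∪ A)) C / (2 / l) ^ C.card) (cf (P C) C) := by
    rw [mo_shift f hUC, sum_div, ← cf_top s κ S0 hstep hCB (fun b hb => hu0 b (hC hb)) U hU hUC hu1,
      ← add_sum_erase _ _ (empty_mem_powerset U), empty_union]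
    have h4 : Rt B (∑ F ∈ U.powerset.erase ∅, mo f (F ∪ C) / (2 / l) ^ C.card) 0 := by
      have h5 : (0 : ZMod 2) = ∑ F ∈ U.powerset.erase ∅, cf (P (U ∪ C)) (F ∪ C) * 0 := by
        simp
      rw [h5]
      refine Rt.sum h.hB _ fun F hF => ?_
      rw [mem_erase, mem_powerset] at hF
      have h6 := hP (U ∪ C) (union_subset hU hCB) (F ∪ C) (union_subset_union hF.2 subset_rfl)
      have h7 := (h.h2).pow h.hB F.card
      rw [zero_pow (card_ne_zero.2 (nonempty_iff_ne_empty.2 hF.1))] at h7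
      have h8 := h6.mul h.hB h7
      have hd : Disjoint F C := disjoint_of_subset_left hF.2 hUC
      rw [card_union_of_disjoint hd] at h8
      have h9 : (2 / l) ^ F.card ≠ 0 := pow_ne_zero _ h.h20
      have h10 : (2 / l) ^ C.card ≠ 0 := pow_ne_zero _ h.h20
      have e1 : mo f (F ∪ C) / (2 / l) ^ C.card =
          mo f (F ∪ C) / (2 / l) ^ (F.card + C.card) * (2 / l) ^ F.card := by
        rw [add_comm F.card, pow_add, div_mul_eq_mul_div, mul_div_mul_right _ _ h9]
      rw [e1]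
      exact h8
    have h5 := (hP (U ∪ C) (union_subset hU hCB) C subset_union_right).add h.hB h4
    rwa [add_zero] at h5
  -- the terms
  let Om : Finset ι → ℂ := fun A =>
    La S0 (U ∪ A) / (K * l ^ (S0.card + U.card + 2 * A.card + n))
  have h4 : mo (fun A => f (U ∪ A)) C / (2 / l) ^ C.card = (l ^ 2 / 2) ^ C.card *
      ∑ A ∈ C.powerset, (-1) ^ (C \ A).card *
        (Om A * ∏ b ∈ C \ A, (fcB e x s S0 (U ∪ A) b / l ^ 2)) := by
    rw [mo, sum_div, mul_sum]
    refine sum_congr rfl fun A hA => ?_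
    rw [mem_powerset] at hA
    have e0 : (U ∪ C) \ (U ∪ A) = C \ A := by
      ext y
      simp only [mem_sdiff, mem_union, not_or]
      constructor
      · rintro ⟨h1 | h1, h2, h3⟩
        · exact absurd h1 h2
        · exact ⟨h1, h3⟩
      · rintro ⟨h1, h2⟩
        exact ⟨Or.inr h1, fun h => disjoint_left.1 hUC h h1, h2⟩
    have e1 : (C \ A).card + A.card = C.card := card_sdiff_add_card_eq_card hA
    have e2 : S0.card + (U ∪ C).card + n + C.card =
        S0.card + U.card + 2 * A.card + n + 2 * (C \ A).card := by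
      rw [card_union_of_disjoint hUC]
      omega
    show (-1) ^ (C \ A).card * (lvB La e x s S0 (U ∪ C) (U ∪ A) /
      (K * l ^ (S0.card + (U ∪ C).card + n))) / (2 / l) ^ C.card = _
    rw [lvB, e0, prod_div_distrib, prod_const, ← pow_mul, div_eq_iff (pow_ne_zero _ h.h20)]
    exact fin_aux _ _ _ K hl0 e2
  have h5 : Rt B ((2 / l ^ 2) ^ C.card * (mo (fun A => f (U ∪ A)) C / (2 / l) ^ C.card))
      (cf (P C) C) := by
    have h6 := (h.hu.pow h.hB C.card).mul h.hB h3
    rwa [one_pow, one_mul] at h6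
  have h6 : (2 / l ^ 2) ^ C.card * (l ^ 2 / 2) ^ C.card = 1 := by
    rw [← mul_pow]
    have : 2 / l ^ 2 * (l ^ 2 / 2) = 1 := by field_simp
    rw [this, one_pow]
  rw [h4, ← mul_assoc, h6, one_mul, ← add_sum_erase _ _ (mem_powerset_self C), Finset.sdiff_self,
    prod_empty, mul_one, card_empty, pow_zero, one_mul] at h5
  have h7 : Rt B (∑ A ∈ C.powerset.erase C, (-1) ^ (C \ A).card *
      (Om A * ∏ b ∈ C \ A, (fcB e x s S0 (U ∪ A) b / l ^ 2)))
      (∑ A ∈ C.powerset.erase C, solB s τ (fun A => cf (P A) A) A *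
        ∏ b ∈ C \ A, (τ b + ∑ a ∈ A, s b a)) := by
    refine Rt.sum h.hB _ fun A hA => ?_
    rw [mem_erase, mem_powerset] at hA
    have hAC := Finset.ssubset_iff_subset_ne.2 ⟨hA.2, hA.1⟩
    have h8 := ih A.card (hm ▸ card_lt_card hAC) A (hA.2.trans hC) rfl
    have h9 := (Rt_sgn' h.hB (C \ A).card).mul h.hB (h8.mul h.hB (Rt.prod h.hB (C \ A)
      fun b hb => h.fac2 (U := U) (A := A) (disjoint_of_subset_right hA.2 hUC)
        (h1 b (hC (mem_sdiff.1 hb).1)) (h2 b (hC (mem_sdiff.1 hb).1))))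
    rwa [one_mul] at h9
  have h8 := h5.sub h.hB h7
  rw [add_sub_cancel_right, ← solB_eq s τ (fun A => cf (P A) A) C,
    ← add_sum_erase _ _ (mem_powerset_self C), Finset.sdiff_self, prod_empty, mul_one,
    add_sub_cancel_right] at h8
  exact h8

/-- the determinants of the triangular system are principal minors -/
theorem NM_blkL (s : ι → ι → ZMod 2) (τ : ι → ZMod 2) {A V : Finset ι} (hA : A ⊆ V) :
    (NM s (fun b => τ b + ∑ a ∈ A, s b a) (V \ A)).det = pdt (blkL s τ V) (V \ A) := by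
  rw [pdt]
  congr 1
  ext1 i j
  rw [Matrix.of_apply]
  by_cases hij : i = j
  · subst hij
    simp only [NM, blkL, if_true]
    have hi := mem_sdiff.1 i.2
    have h1 : V.erase (i : ι) = A ∪ (V \ A).erase i := by
      ext y
      simp only [mem_erase, mem_union, mem_sdiff]
      constructor
      · rintro ⟨h1, h2⟩
        by_cases h3 : y ∈ A
        · exact Or.inl h3
        · exact Or.inr ⟨h1, h2, h3⟩
      · rintro (h | ⟨h1, h2, -⟩)
        · exact ⟨fun h' => hi.2 (h' ▸ h), hA h⟩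
        · exact ⟨h1, h2⟩
    have hd : Disjoint A ((V \ A).erase (i : ι)) :=
      disjoint_of_subset_right (erase_subset _ _) disjoint_sdiff
    rw [h1, sum_union hd, add_assoc]
  · have h1 : (i : ι) ≠ j := fun h => hij (Subtype.ext h)
    simp only [NM, blkL, if_neg hij, if_neg h1]

/-- **`k` odd: the class of the value of the whole set is the determinant.** -/
theorem SyB.final_odd (h : SyB B l K La e x s κ S0 B0) (h0 : Rt B (La ∅ ∅ / K) 1)
    (hid : ∀ T ⊆ S0, ∀ C ⊆ B0, (T ∪ C).Nonempty → Rt B (idB l K La e x s 0 T C) 0)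
    {U V : Finset ι} (hUB : U ∪ V = B0) (hUV : Disjoint U V)
    (hu1 : ∀ b ∈ U, κ b + ∑ p ∈ S0, s b p = 1) (hu0 : ∀ b ∈ V, κ b + ∑ p ∈ S0, s b p = 0)
    {τ : ι → ZMod 2} (h1 : ∀ b ∈ V, Rt B (x S0 b * ∏ a ∈ U, sgz (s b a)) 1)
    (h2 : ∀ b ∈ V, Rt B ((e b - x S0 b * ∏ a ∈ U, sgz (s b a)) / l ^ 2) (τ b)) :
    Rt B (La S0 B0 / (K * l ^ (S0.card + U.card + 2 * V.card)))
      (pdt (blkM s κ τ S0 V) (S0 ∪ V)) := by
  have hU : U ⊆ B0 := hUB ▸ subset_union_left
  have hV : V ⊆ B0 := hUB ▸ subset_union_right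
  have h3 := h.final (n := 0) (P := fun C => DE s κ S0 C) hU hV hUV
    (fun C hC => h.claim_odd h0 hid _ S0 subset_rfl C hC rfl)
    (fun A hA b hb E hE => DE_step s κ (disjoint_of_subset_right hA h.dis) hb hE)
    hu1 hu0 h1 h2 V.card V subset_rfl rfl
  rw [hUB, add_zero] at h3
  rw [← DE_final s κ τ (disjoint_of_subset_right hV h.dis) hu0]
  have h4 : solB s τ (fun A => cf (DE s κ S0 A) A) V =
      ∑ A ∈ V.powerset, cf (DE s κ S0 A) A * pdt (blkL s τ V) (V \ A) :=
    sum_congr rfl fun A hA => by rw [NM_blkL s τ (mem_powerset.1 hA)]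
  rwa [h4] at h3

end

end

end Pool.Agent.Lib.MP_1a91b9_ntQ
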