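import Pool.Agent.Lib.MP_1a91b9_ntQ.A.ForB

/-!
# Quartic twists, part A, file For4: the forest identities in characteristic `2`

`N4 s κ T`: off the diagonal `s i j`, on the diagonal `∑ (p ∈ T, p ≠ i) s i p + κ i`.
-/

set_option autoImplicit false

namespace Pool.Agent.Lib.MP_1a91b9_ntQ

open Finset
open Pool.Agent.Lib.MP_1a91b9_ntK (NM NM_congr NM_empty NM_adj NM_update NM_zero GF GF_empty forest
  CZ CZ_eq forest_zero)

variable {ι : Type*} [DecidableEq ι]

/-- the matrix -/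
def N4 (s : ι → ι → ZMod 2) (κ : ι → ZMod 2) (T : Finset ι) : Matrix T T (ZMod 2) := fun i j =>
  if i = j then ∑ p ∈ T.erase i, s i p + κ i else s i j

/-- the coefficient of `x` in `det (N4 s (x a) T)` -/
def C4 (s : ι → ι → ZMod 2) (a : ι → ZMod 2) (T : Finset ι) : ZMod 2 := CZ s a T

/-- the bordered matrix `[[N4 s κ T, a], [aᵀ, x]]` -/
def B4 (s : ι → ι → ZMod 2) (κ a : ι → ZMod 2) (x : ZMod 2) (T : Finset ι) :
    Matrix (T ⊕ Unit) (T ⊕ Unit) (ZMod 2) :=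
  Matrix.fromBlocks (N4 s κ T) (fun i _ => a i) (fun _ j => a j) (fun _ _ => x)

private theorem For4_neg : ∀ x : ZMod 2, -x = x := by decide

private theorem For4_one (n : ℕ) : ((-1 : ZMod 2)) ^ n = 1 := by
  have h : (-1 : ZMod 2) = 1 := rfl
  rw [h, one_pow]

private theorem For4_self : ∀ x : ZMod 2, x + x = 0 := by decide

private theorem For4_sq : ∀ x : ZMod 2, x * x = x := by decide

private theorem For4_field : IsDomain (ZMod 2) :=
  have : Fact (Nat.Prime 2) := ⟨Nat.prime_two⟩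
  inferInstance

theorem N4_eq (s : ι → ι → ZMod 2) (κ : ι → ZMod 2) (T : Finset ι) : N4 s κ T = NM s κ T := by
  ext i j
  simp only [N4, NM]
  rw [For4_neg, add_comm]

theorem N4_congr (s : ι → ι → ZMod 2) {κ κ' : ι → ZMod 2} {T : Finset ι}
    (h : ∀ i ∈ T, κ i = κ' i) : N4 s κ T = N4 s κ' T := by
  rw [N4_eq, N4_eq, NM_congr s h]

theorem N4_empty (s : ι → ι → ZMod 2) (κ : ι → ZMod 2) : (N4 s κ ∅).det = 1 :=
  Matrix.det_isEmpty

/-- **The forest identity.** -/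
theorem forest4 (s : ι → ι → ZMod 2) (κ : ι → ZMod 2) {S : Finset ι} (hS : S.Nonempty) :
    ∑ T ∈ S.powerset, (N4 s κ T).det * ∏ q ∈ S \ T, (κ q + ∑ p ∈ T, s q p) = 0 := by
  rw [← forest s κ hS]
  refine sum_congr rfl fun T _ => ?_
  rw [For4_one, one_mul, N4_eq]

theorem N4_rec (s : ι → ι → ZMod 2) (κ : ι → ZMod 2) {S : Finset ι} (hS : S.Nonempty) :
    (N4 s κ S).det = ∑ T ∈ S.powerset.erase S,
      (N4 s κ T).det * ∏ q ∈ S \ T, (κ q + ∑ p ∈ T, s q p) := by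
  have h1 := forest4 s κ hS
  rw [← add_sum_erase _ _ (mem_powerset_self S), Finset.sdiff_self, prod_empty, mul_one] at h1
  rw [eq_comm, ← sub_eq_zero, sub_eq_add_neg, For4_neg, add_comm]
  exact h1

/-- **The forest identity for `κ = 0`.** -/
theorem forest4_zero (s : ι → ι → ZMod 2) (a : ι → ZMod 2) {S : Finset ι} (hS : S.Nonempty) :
    ∑ T ∈ S.powerset.erase ∅, C4 s a T * ∏ q ∈ S \ T, ∑ p ∈ T, s q p =
      if S.card = 1 then ∑ q ∈ S, a q else 0 := by
  have h1 := forest_zero s a hS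
  have h2 : (if S.card = 1 then ∑ q ∈ S, a q else 0) =
      if S.card = 1 then -∑ q ∈ S, a q else 0 := by rw [For4_neg]
  rw [h2, ← h1]
  refine sum_congr rfl fun T _ => ?_
  rw [For4_one, one_mul, C4]

theorem C4_rec (s : ι → ι → ZMod 2) (a : ι → ZMod 2) {S : Finset ι} (hS : S.Nonempty) :
    C4 s a S = (if S.card = 1 then ∑ q ∈ S, a q else 0) +
      ∑ T ∈ (S.powerset.erase ∅).erase S, C4 s a T * ∏ q ∈ S \ T, ∑ p ∈ T, s q p := by
  have h1 := forest4_zero s a hS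
  have hm : S ∈ S.powerset.erase ∅ := mem_erase.2 ⟨hS.ne_empty, mem_powerset_self S⟩
  rw [← add_sum_erase _ _ hm, Finset.sdiff_self, prod_empty, mul_one] at h1
  rw [← h1, add_assoc, For4_self, add_zero]

/-! ### The coefficient -/

theorem N4_mulVec_one (s : ι → ι → ZMod 2) (T : Finset ι) :
    (N4 s 0 T).mulVec (fun _ => 1) = 0 := by
  rw [N4_eq]
  exact NM_mulVec_one s T

theorem N4_symm (s : ι → ι → ZMod 2) (hs : ∀ p q, p ≠ q → s p q = s q p) (κ : ι → ZMod 2)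
    (T : Finset ι) : (N4 s κ T).transpose = N4 s κ T := by
  ext i j
  rw [Matrix.transpose_apply]
  by_cases h : i = j
  · subst h
    rfl
  · simp only [N4, if_neg h, if_neg (Ne.symm h)]
    rw [hs j i fun h' => h (Subtype.ext h').symm]

/-- the coefficient is `∑ a` times any principal cofactor -/
theorem C4_eq (s : ι → ι → ZMod 2) (hs : ∀ p q, p ≠ q → s p q = s q p) (a : ι → ZMod 2)
    {T : Finset ι} (k : T) : C4 s a T = (∑ i ∈ T, a i) * (N4 s 0 T).adjugate k k := by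
  have := For4_field
  rw [C4, CZ, ← sum_coe_sort T a, sum_mul]
  refine sum_congr rfl fun r _ => ?_
  have h1 := adj_ker (N4_symm s hs 0 T) (N4_mulVec_one s T) (k := k) (by rw [mul_one]) r r
  rw [← N4_eq s 0 T, h1, mul_one, mul_one]

theorem C4_mul (s : ι → ι → ZMod 2) (hs : ∀ p q, p ≠ q → s p q = s q p) (a : ι → ZMod 2)
    {T : Finset ι} (hT : T.Nonempty) : (∑ i ∈ T, a i) * C4 s a T = C4 s a T := by
  obtain ⟨k, hk⟩ := hT
  rw [C4_eq s hs a ⟨k, hk⟩, ← mul_assoc, For4_sq]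

/-- **If `∑ a ≠ 0` and the kernel of the matrix consists of the constant vectors then the coefficient
is not `0`.** -/
theorem C4_ne (s : ι → ι → ZMod 2) (hs : ∀ p q, p ≠ q → s p q = s q p) (a : ι → ZMod 2)
    {T : Finset ι} (hA : ∑ i ∈ T, a i ≠ 0)
    (hker : ∀ v : T → ZMod 2, (N4 s 0 T).mulVec v = 0 → ∃ c : ZMod 2, ∀ i, v i = c) :
    C4 s a T ≠ 0 := by
  have := For4_field
  have hT : T.Nonempty := by
    rw [nonempty_iff_ne_empty]
    rintro rfl
    exact hA sum_empty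
  obtain ⟨k, hk⟩ := hT
  rw [C4_eq s hs a ⟨k, hk⟩]
  refine mul_ne_zero hA (adj_ne_of_ker (N4_symm s hs 0 T) (N4_mulVec_one s T) one_ne_zero ?_)
  intro w hw
  obtain ⟨c, hc⟩ := hker w hw
  exact ⟨c, fun i => by rw [hc i, mul_one]⟩

/-! ### The bordered matrix -/

theorem B4_eq (s : ι → ι → ZMod 2) (κ a : ι → ZMod 2) (x : ZMod 2) (T : Finset ι) :
    (B4 s κ a x T).det = FB s a a x κ T := by
  rw [B4, FB, N4_eq]
  rfl

theorem B4_empty (s : ι → ι → ZMod 2) (κ a : ι → ZMod 2) (x : ZMod 2) :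
    (B4 s κ a x ∅).det = x := by
  rw [B4_eq, FB_empty]

/-- **The forest identity for the bordered matrices.** -/
theorem forest4_border (s : ι → ι → ZMod 2) (hs : ∀ p q, p ≠ q → s p q = s q p)
    (κ a : ι → ZMod 2) (x : ZMod 2) {S : Finset ι} (hS : S.Nonempty) :
    ∑ T ∈ S.powerset, (B4 s κ a x T).det * ∏ q ∈ S \ T, (κ q + ∑ p ∈ T, s q p) =
      if S.card = 1 then ∑ q ∈ S, a q else 0 := by
  have h1 := forest_FB s a a x κ hS
  have h2 : ∑ T ∈ S.powerset, (B4 s κ a x T).det * ∏ q ∈ S \ T, (κ q + ∑ p ∈ T, s q p) =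
      ∑ T ∈ S.powerset, (-1) ^ T.card * FB s a a x κ T *
        ∏ q ∈ S \ T, (κ q + ∑ p ∈ T, s q p) := by
    refine sum_congr rfl fun T _ => ?_
    rw [For4_one, one_mul, B4_eq]
  rw [h2, h1, For4_neg, ← forest4_zero s a hS, ← add_sum_erase _ _ (empty_mem_powerset S)]
  have h3 : (-1 : ZMod 2) ^ (∅ : Finset ι).card * ((∑ q ∈ (∅ : Finset ι), a q) * CZ s a ∅) *
      ∏ q ∈ S \ ∅, ∑ p ∈ (∅ : Finset ι), s q p = 0 := by
    rw [sum_empty, zero_mul, mul_zero, zero_mul]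
  rw [h3, zero_add]
  refine sum_congr rfl fun T hT => ?_
  have hT0 : T.Nonempty := nonempty_iff_ne_empty.2 (mem_erase.1 hT).1
  have h4 := C4_mul s hs a hT0
  rw [C4] at h4
  rw [For4_one, one_mul, h4, C4]

theorem B4_rec (s : ι → ι → ZMod 2) (hs : ∀ p q, p ≠ q → s p q = s q p) (κ a : ι → ZMod 2)
    (x : ZMod 2) {S : Finset ι} (hS : S.Nonempty) :
    (B4 s κ a x S).det = (if S.card = 1 then ∑ q ∈ S, a q else 0) +
      ∑ T ∈ S.powerset.erase S, (B4 s κ a x T).det * ∏ q ∈ S \ T, (κ q + ∑ p ∈ T, s q p) := by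
  have h1 := forest4_border s hs κ a x hS
  rw [← add_sum_erase _ _ (mem_powerset_self S), Finset.sdiff_self, prod_empty, mul_one] at h1
  rw [← h1, add_assoc, For4_self, add_zero]

end Pool.Agent.Lib.MP_1a91b9_ntQ
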