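import Pool.Agent.Lib.MP_1a91b9_ntQ.A.AvgX
import Pool.Agent.Lib.MP_1a91b9_ntQ.A.HSum4
import Pool.Agent.Lib.MP_1a91b9_ntQ.A.PairR
import Pool.Agent.Lib.MP_1a91b9_ntQ.A.Xi4

/-!
# Quartic twists, part A, file Tra4: sums over the classes of symbol `0` at the auxiliary prime, exact Euler factors

`q0` is a prime with `aa q0 = 1`; the classes `a` modulo `q0 DDq J` with `c4 q0 (kap a) = 0` are representatives of
the orbits of the units. For a function `f` with `f (i z) = i ^ r f z` and the distribution relation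
`∑ f (z + u) = A f (q z)` over `E[q]`, the sums `FX q0 kap f T J` of `(∏ p ∈ T, ch4 p (kap a)) f (a / (q0 DDq J))`
satisfy `FX T (insert q J) = (A - e4 (bk q0 r T q)) FX T J`.
-/

set_option autoImplicit false

namespace Pool.Agent.Lib.MP_1a91b9_ntQ

open NumberField Pool.Agent.Lib.MP_1a91b9_nuT Pool.Agent.Lib.MP_1a91b9_nuT.S3
  Pool.Agent.Lib.MP_1a91b9_nuT.Ell

noncomputable section

/-- the exponent at `x` of the block character, `r` the weight of the function -/
def bk (q0 : Pg) (r : ZMod 4) (T : Finset Pg) (x : 𝓞 K) : ZMod 4 :=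
  ∑ p ∈ T, c4 p x - (r + ∑ p ∈ T, nn p.1) * nn q0.1 * c4 q0 x

/-- the classes of symbol `0` at `q0` -/
def OmX (q0 : Pg) (kap : 𝓞 K) (J : Finset Pg) (a : 𝓞 K) : Prop :=
  IsCoprime a (q0.1 * DDq J) ∧ c4 q0 (kap * a) = 0

open scoped Classical in
/-- the integrand -/
def GI (q0 : Pg) (kap : 𝓞 K) (g : 𝓞 K → ℂ) (f : ℂ → ℂ) (J : Finset Pg) (a : 𝓞 K) : ℂ :=
  if OmX q0 kap J a then g (kap * a) * f (em a / em (q0.1 * DDq J)) else 0

/-- the sum `GX` with the integrand `GI` -/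
theorem GX_GI (q0 : Pg) (kap : 𝓞 K) (g : 𝓞 K → ℂ) (f : ℂ → ℂ) (J : Finset Pg) :
    GX q0 kap g f J = SM (q0.1 * DDq J) (GI q0 kap g f J) := by
  rw [GX]
  refine SM_congr fun a => ?_
  unfold GI
  by_cases h : OmX q0 kap J a
  · rw [if_pos h, rsX_pos _ h.1 h.2]
  · rw [if_neg h, rsX_neg _ h]

/-- the product of the characters -/
def cT (T : Finset Pg) (x : 𝓞 K) : ℂ := ∏ p ∈ T, ch4 p x

/-- the sum with the characters of `T` -/
def FX (q0 : Pg) (kap : 𝓞 K) (f : ℂ → ℂ) (T J : Finset Pg) : ℂ := GX q0 kap (cT T) f J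

/-- a function on `ℂ / Λ` -/
def PdL (f : ℂ → ℂ) : Prop := ∀ x y, x - y ∈ PP.lattice → f x = f y

/-- a function of weight `r` -/
def Wt (r : ZMod 4) (f : ℂ → ℂ) : Prop := ∀ z, z ∉ PP.lattice → f (zt * z) = e4 r * f z

/-- the distribution relation over `E[q]` -/
def TrF (q : Pg) (A : ℂ) (f : ℂ → ℂ) : Prop :=
  ∀ z, Od (em q.1 * z) → SM q.1 (fun u => f (z + em u / em q.1)) = A * f (em q.1 * z)

theorem cT_empty (x : 𝓞 K) : cT ∅ x = 1 := Finset.prod_empty

theorem cT_insert {q : Pg} {T : Finset Pg} (h : q ∉ T) (x : 𝓞 K) :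
    cT (insert q T) x = ch4 q x * cT T x := Finset.prod_insert h

theorem cT_mul (T : Finset Pg) (x y : 𝓞 K) : cT T (x * y) = cT T x * cT T y := by
  rw [cT, cT, cT, ← Finset.prod_mul_distrib]
  exact Finset.prod_congr rfl fun p _ => (ch4_chrP p).mul x y

theorem cT_per {T J : Finset Pg} (h : T ⊆ J) {x y : 𝓞 K} (hxy : DDq J ∣ x - y) : cT T x = cT T y :=
  Finset.prod_congr rfl fun p hp => (ch4_chrP p).per x y ((dvd_DDq.2 (h hp)).trans hxy)

theorem cT_of {T : Finset Pg} {x : 𝓞 K} (h : ∀ p ∈ T, ¬ p.1 ∣ x) : cT T x = e4 (∑ p ∈ T, c4 p x) := by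
  rw [cT, e4_sum]
  exact Finset.prod_congr rfl fun p hp => ch4_of_not (h p hp)

theorem ndvd_of_cop {q : Pg} {x M : 𝓞 K} (h : IsCoprime x M) (hq : q.1 ∣ M) : ¬ q.1 ∣ x := fun h1 =>
  q.2.1.not_isUnit (h.isUnit_of_dvd' h1 hq)

theorem not_dvd_mul' (q : Pg) {x y : 𝓞 K} (hx : ¬ q.1 ∣ x) (hy : ¬ q.1 ∣ y) : ¬ q.1 ∣ x * y := fun h =>
  (q.2.1.dvd_or_dvd h).elim hx hy

theorem cop_of_not (q : Pg) {x : 𝓞 K} (h : ¬ q.1 ∣ x) : IsCoprime x q.1 :=
  ((q.2.1.irreducible.coprime_iff_not_dvd).2 h).symm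

theorem M_ne (q0 : Pg) (J : Finset Pg) : q0.1 * DDq J ≠ 0 := mul_ne_zero q0.ne_zero (DDq_in4 J).ne_zero

/-! ### Periodicity -/

section
variable {q0 : Pg} {kap : 𝓞 K} {J : Finset Pg}

theorem OmX_congr (hk : ¬ q0.1 ∣ kap) {a b : 𝓞 K} (h : q0.1 * DDq J ∣ a - b) :
    OmX q0 kap J a ↔ OmX q0 kap J b := by
  have key : ∀ a b : 𝓞 K, q0.1 * DDq J ∣ a - b → OmX q0 kap J a → OmX q0 kap J b := by
    intro a b h ha
    obtain ⟨h1, h2⟩ := ha
    have h3 : IsCoprime b (q0.1 * DDq J) := by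
      obtain ⟨t, ht⟩ := h
      obtain ⟨x, y, hxy⟩ := h1
      exact ⟨x, y + x * t, by linear_combination hxy - x * ht⟩
    refine ⟨h3, ?_⟩
    have h4 : ¬ q0.1 ∣ kap * a := not_dvd_mul' q0 hk (ndvd_of_cop h1 (dvd_mul_right _ _))
    rw [← h2]
    refine (c4_congr q0 h4 ?_).symm
    rw [← mul_sub]
    exact ((dvd_mul_right _ _).trans h).mul_left _
  refine ⟨key a b h, key b a ?_⟩
  rw [← neg_sub]
  exact h.neg_right

theorem GI_pd (hk : ¬ q0.1 ∣ kap) {g : 𝓞 K → ℂ} {f : ℂ → ℂ} (hg : Pd (DDq J) g) (hf : PdL f) :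
    Pd (q0.1 * DDq J) (GI q0 kap g f J) := by
  intro a b h
  have hM : em (q0.1 * DDq J) ≠ 0 := em_ne (M_ne q0 J)
  have h1 : g (kap * a) = g (kap * b) := by
    refine hg _ _ ?_
    rw [← mul_sub]
    exact ((dvd_mul_left _ _).trans h).mul_left _
  have h2 : f (em a / em (q0.1 * DDq J)) = f (em b / em (q0.1 * DDq J)) := by
    refine hf _ _ ?_
    obtain ⟨t, ht⟩ := h
    have e : em a / em (q0.1 * DDq J) - em b / em (q0.1 * DDq J) = em t := by
      rw [← sub_div, ← em_sub, ht, em_mul, mul_div_cancel_left₀ _ hM]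
    rw [e]
    exact em_mem t
  unfold GI
  by_cases ha : OmX q0 kap J a
  · rw [if_pos ha, if_pos ((OmX_congr hk h).1 ha), h1, h2]
  · rw [if_neg ha, if_neg fun hb => ha ((OmX_congr hk h).2 hb)]

theorem cT_pd {T : Finset Pg} (h : T ⊆ J) : Pd (DDq J) (cT T) := fun _ _ hxy => cT_per h hxy

end

/-! ### The points -/

theorem em_div_notMem {q : Pg} {x M : 𝓞 K} (hM : M ≠ 0) (hq : q.1 ∣ M) (h : IsCoprime x M) :
    em x / em M ∉ PP.lattice := by
  intro h1
  obtain ⟨y, hy⟩ := mem_iff_em.1 h1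
  have h2 : em x = em (y * M) := by
    rw [em_mul, hy, div_mul_cancel₀ _ (em_ne hM)]
  have h3 : q.1 ∣ x := by
    rw [em_inj h2]
    exact hq.mul_left _
  exact ndvd_of_cop h hq h3

theorem M_in4 (q0 : Pg) (J : Finset Pg) : In4 (q0.1 * DDq J) := q0.in4.mul (DDq_in4 J)

/-- the points of the classes -/
theorem od_divX (q0 : Pg) {J : Finset Pg} {x : 𝓞 K} (h : IsCoprime x (q0.1 * DDq J)) :
    Od (em x / em (q0.1 * DDq J)) := by
  have hM := M_ne q0 J
  refine ⟨⟨q0.1 * DDq J, hM, ?_⟩, fun n => ?_⟩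
  · rw [mul_div_cancel₀ _ (em_ne hM)]
    exact em_mem x
  · have e : lm ^ n * (em x / em (q0.1 * DDq J)) = em (lam ^ n * x) / em (q0.1 * DDq J) := by
      rw [em_mul (lam ^ n) x, em_pow, em_lam]
      ring
    rw [e]
    refine em_div_notMem (q := q0) hM (dvd_mul_right _ _) (IsCoprime.mul_left ?_ h)
    exact (in4_cop_lam (M_in4 q0 J) n).symm

theorem Wt.pow {r : ZMod 4} {f : ℂ → ℂ} (h : Wt r f) {z : ℂ} (hz : z ∉ PP.lattice) (n : ℕ) :
    f (zt ^ n * z) = e4 (n * r) * f z ∧ zt ^ n * z ∉ PP.lattice := by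
  induction n with
  | zero =>
    rw [pow_zero, one_mul, Nat.cast_zero, zero_mul, e4_zero, one_mul]
    exact ⟨rfl, hz⟩
  | succ n ih =>
    have e : zt ^ (n + 1) * z = zt * (zt ^ n * z) := by ring
    rw [e]
    refine ⟨?_, fun h1 => ih.2 (zt_mem_iff.1 h1)⟩
    rw [h _ ih.2, ih.1, Nat.cast_succ, add_mul, one_mul, e4_add]
    ring

theorem em_iO_pow (n : ℕ) (x : 𝓞 K) : em (iO ^ n * x) = zt ^ n * em x := by
  rw [em_mul, em_pow]
  rfl

theorem val_cast (l : ZMod 4) : ((l.val : ℕ) : ZMod 4) = l := ZMod.natCast_zmod_val l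

theorem not_dvd_iO_pow (q : Pg) (n : ℕ) : ¬ q.1 ∣ iO ^ n := fun h =>
  q.2.1.not_isUnit (isUnit_of_dvd_unit h (isUnit_iO.pow n))

theorem c4_iO_pow (q : Pg) (l : ZMod 4) : c4 q (iO ^ l.val) = l * nn q.1 := by
  have h : ¬ q.1 ∣ iO := fun h => not_dvd_iO_pow q 1 (by rwa [pow_one])
  rw [c4_pow q h, c4_i, val_cast]

theorem c4_iO_mul (q : Pg) (l : ZMod 4) {x : 𝓞 K} (hx : ¬ q.1 ∣ x) :
    c4 q (iO ^ l.val * x) = l * nn q.1 + c4 q x := by
  rw [c4_mul q (not_dvd_iO_pow q _) hx, c4_iO_pow]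

theorem nn_sq {q0 : Pg} (h0 : aa q0.1 = 1) : nn q0.1 * nn q0.1 = 1 := by
  have h : ∀ n : ZMod 4, md n = 1 → n * n = 1 := by decide
  exact h _ h0

theorem cop_unit {u : 𝓞 K} (hu : IsUnit u) (x : 𝓞 K) : IsCoprime u x := by
  obtain ⟨b, hb⟩ := isUnit_iff_exists_inv'.1 hu
  exact ⟨b, 0, by rw [hb, zero_mul, add_zero]⟩

/-- a constant factor -/
theorem SM_cmul {M : 𝓞 K} (hM : M ≠ 0) (c : ℂ) (F : 𝓞 K → ℂ) :
    SM M (fun x => c * F x) = c * SM M F := SM_smul hM c F

section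
variable {q0 : Pg} {kap : 𝓞 K} {T J : Finset Pg} {f : ℂ → ℂ} {r : ZMod 4}

theorem q0_dvd_M (q0 : Pg) (J : Finset Pg) : q0.1 ∣ q0.1 * DDq J := dvd_mul_right _ _

theorem dvd_M {q0 q : Pg} {J : Finset Pg} (h : q ∈ J) : q.1 ∣ q0.1 * DDq J :=
  (dvd_DDq.2 h).mul_left _

open scoped Classical in
/-- **the classes of symbol `t` at `q0`** -/
theorem rotX (h0 : aa q0.1 = 1) (hk : IsCoprime kap (q0.1 * DDq J)) (hT : T ⊆ J) (hf : PdL f)
    (hr : Wt r f) (t : ZMod 4) :
    SM (q0.1 * DDq J) (fun a => if IsCoprime a (q0.1 * DDq J) ∧ c4 q0 (kap * a) = t then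
      cT T (kap * a) * f (em a / em (q0.1 * DDq J)) else 0) =
      e4 ((r + ∑ p ∈ T, nn p.1) * nn q0.1 * t) * FX q0 kap f T J := by
  have hM := M_ne q0 J
  have hMe : em (q0.1 * DDq J) ≠ 0 := em_ne hM
  have hk0 : ¬ q0.1 ∣ kap := ndvd_of_cop hk (q0_dvd_M q0 J)
  set F : 𝓞 K → ℂ := fun a => if IsCoprime a (q0.1 * DDq J) ∧ c4 q0 (kap * a) = t then
      cT T (kap * a) * f (em a / em (q0.1 * DDq J)) else 0 with hFdef
  have hF : Pd (q0.1 * DDq J) F := by
    intro a b h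
    have h1 : ∀ a b : 𝓞 K, q0.1 * DDq J ∣ a - b → (IsCoprime a (q0.1 * DDq J) ∧ c4 q0 (kap * a) = t) →
        IsCoprime b (q0.1 * DDq J) ∧ c4 q0 (kap * b) = t := by
      rintro a b h ⟨ha, hb⟩
      have h3 : IsCoprime b (q0.1 * DDq J) := by
        obtain ⟨t, ht⟩ := h
        obtain ⟨x, y, hxy⟩ := ha
        exact ⟨x, y + x * t, by linear_combination hxy - x * ht⟩
      refine ⟨h3, ?_⟩
      rw [← hb]
      refine (c4_congr q0 (not_dvd_mul' q0 hk0 (ndvd_of_cop ha (q0_dvd_M q0 J))) ?_).symm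
      rw [← mul_sub]
      exact ((dvd_mul_right _ _).trans h).mul_left _
    have h1' : (IsCoprime a (q0.1 * DDq J) ∧ c4 q0 (kap * a) = t) ↔
        IsCoprime b (q0.1 * DDq J) ∧ c4 q0 (kap * b) = t := by
      refine ⟨h1 a b h, h1 b a ?_⟩
      rw [← neg_sub]
      exact h.neg_right
    have h2 : cT T (kap * a) = cT T (kap * b) := by
      refine cT_per hT ?_
      rw [← mul_sub]
      exact ((dvd_mul_left _ _).trans h).mul_left _
    have h3 : f (em a / em (q0.1 * DDq J)) = f (em b / em (q0.1 * DDq J)) := by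
      refine hf _ _ ?_
      obtain ⟨t, ht⟩ := h
      have e : em a / em (q0.1 * DDq J) - em b / em (q0.1 * DDq J) = em t := by
        rw [← sub_div, ← em_sub, ht, em_mul, mul_div_cancel_left₀ _ hMe]
      rw [e]
      exact em_mem t
    rw [hFdef]
    dsimp only
    by_cases ha : IsCoprime a (q0.1 * DDq J) ∧ c4 q0 (kap * a) = t
    · rw [if_pos ha, if_pos (h1'.1 ha), h2, h3]
    · rw [if_neg ha, if_neg fun hb => ha (h1'.2 hb)]
  set l : ZMod 4 := nn q0.1 * t with hl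
  have hcop : IsCoprime (iO ^ l.val) (q0.1 * DDq J) := cop_unit (isUnit_iO.pow l.val) _
  rw [← SM_mul hM hF hcop, FX, GX_GI, ← SM_cmul hM]
  refine SM_congr fun a => ?_
  rw [hFdef]
  dsimp only
  have hc1 : IsCoprime (iO ^ l.val * a) (q0.1 * DDq J) ↔ IsCoprime a (q0.1 * DDq J) := by
    constructor
    · intro h
      exact h.of_mul_left_right
    · intro h
      exact hcop.mul_left h
  unfold GI
  by_cases ha : IsCoprime a (q0.1 * DDq J)
  · have hka : IsCoprime (kap * a) (q0.1 * DDq J) := hk.mul_left ha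
    have e1 : kap * (iO ^ l.val * a) = iO ^ l.val * (kap * a) := by ring
    have e2 : c4 q0 (kap * (iO ^ l.val * a)) = t + c4 q0 (kap * a) := by
      rw [e1, c4_iO_mul q0 l (ndvd_of_cop hka (q0_dvd_M q0 J)), hl]
      linear_combination t * nn_sq h0
    by_cases hb : c4 q0 (kap * a) = 0
    · have h1 : IsCoprime (iO ^ l.val * a) (q0.1 * DDq J) ∧ c4 q0 (kap * (iO ^ l.val * a)) = t :=
        ⟨hc1.2 ha, by rw [e2, hb, add_zero]⟩
      have h2 : OmX q0 kap J a := ⟨ha, hb⟩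
      rw [if_pos h1, if_pos h2, e1, em_iO_pow, mul_div_assoc,
        (hr.pow (em_div_notMem (q := q0) hM (q0_dvd_M q0 J) ha) l.val).1, cT_mul]
      have e3 : cT T (iO ^ l.val) = e4 (l * ∑ p ∈ T, nn p.1) := by
        rw [cT_of fun p _ => not_dvd_iO_pow p _, Finset.mul_sum]
        congr 1
        exact Finset.sum_congr rfl fun p _ => c4_iO_pow p l
      rw [e3, val_cast]
      have e4' : (r + ∑ p ∈ T, nn p.1) * nn q0.1 * t = l * ∑ p ∈ T, nn p.1 + l * r := by
        rw [hl]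
        ring
      rw [e4', e4_add]
      ring
    · have h1 : ¬ (IsCoprime (iO ^ l.val * a) (q0.1 * DDq J) ∧ c4 q0 (kap * (iO ^ l.val * a)) = t) := by
        rintro ⟨-, h⟩
        rw [e2] at h
        exact hb (by linear_combination h)
      have h2 : ¬ OmX q0 kap J a := fun h => hb h.2
      rw [if_neg h1, if_neg h2, mul_zero]
  · have h1 : ¬ (IsCoprime (iO ^ l.val * a) (q0.1 * DDq J) ∧ c4 q0 (kap * (iO ^ l.val * a)) = t) :=
      fun h => ha (hc1.1 h.1)
    have h2 : ¬ OmX q0 kap J a := fun h => ha h.1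
    rw [if_neg h1, if_neg h2, mul_zero]


/-- **the exact Euler factor** -/
theorem FX_insert (h0 : aa q0.1 = 1) {q : Pg} (hk : IsCoprime kap (q0.1 * DDq (insert q J)))
    (hT : T ⊆ J) (hq : q ∉ J) (hq0 : q ≠ q0) (hf : PdL f) (hr : Wt r f) {A : ℂ} (htr : TrF q A f) :
    FX q0 kap f T (insert q J) = (A - e4 (bk q0 r T q.1)) * FX q0 kap f T J := by
  classical
  have hMJ := M_ne q0 J
  have hMJe : em (q0.1 * DDq J) ≠ 0 := em_ne hMJ
  have hq1 : em q.1 ≠ 0 := em_ne q.ne_zero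
  have hI : q0.1 * DDq (insert q J) = q.1 * (q0.1 * DDq J) := by
    rw [DDq_insert hq]
    ring
  rw [hI] at hk
  have hkM : IsCoprime kap (q0.1 * DDq J) := hk.of_mul_right_right
  have hkq : IsCoprime kap q.1 := hk.of_mul_right_left
  have hk0 : ¬ q0.1 ∣ kap := ndvd_of_cop hkM (q0_dvd_M q0 J)
  have hqM : IsCoprime q.1 (q0.1 * DDq J) := by
    refine IsCoprime.mul_right ?_ ?_
    · exact cop_of_not q0 (Pg.not_dvd hq0.symm)
    · refine (cop_of_not q fun h => hq (dvd_DDq.1 h)).symm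
  -- the integrand without the condition at `q`
  set F1 : 𝓞 K → ℂ := fun a => if OmX q0 kap J a then
      cT T (kap * a) * f (em a / em (q.1 * (q0.1 * DDq J))) else 0 with hF1
  set F2 : 𝓞 K → ℂ := fun a => if q.1 ∣ a then F1 a else 0 with hF2
  have hqM0 : q.1 * (q0.1 * DDq J) ≠ 0 := mul_ne_zero q.ne_zero hMJ
  have hqMe : em (q.1 * (q0.1 * DDq J)) ≠ 0 := em_ne hqM0
  have hfp : ∀ a b : 𝓞 K, q.1 * (q0.1 * DDq J) ∣ a - b →
      f (em a / em (q.1 * (q0.1 * DDq J))) = f (em b / em (q.1 * (q0.1 * DDq J))) := by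
    intro a b h
    refine hf _ _ ?_
    obtain ⟨t, ht⟩ := h
    have e : em a / em (q.1 * (q0.1 * DDq J)) - em b / em (q.1 * (q0.1 * DDq J)) = em t := by
      rw [← sub_div, ← em_sub, ht, em_mul, mul_div_cancel_left₀ _ hqMe]
    rw [e]
    exact em_mem t
  have hcp : ∀ a b : 𝓞 K, q0.1 * DDq J ∣ a - b → cT T (kap * a) = cT T (kap * b) := by
    intro a b h
    refine cT_per hT ?_
    rw [← mul_sub]
    exact ((dvd_mul_left _ _).trans h).mul_left _
  have hF1p : Pd (q.1 * (q0.1 * DDq J)) F1 := by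
    intro a b h
    have h' : q0.1 * DDq J ∣ a - b := (dvd_mul_left _ _).trans h
    rw [hF1]
    dsimp only
    by_cases ha : OmX q0 kap J a
    · rw [if_pos ha, if_pos ((OmX_congr hk0 h').1 ha), hfp a b h, hcp a b h']
    · rw [if_neg ha, if_neg fun hb => ha ((OmX_congr hk0 h').2 hb)]
  have hF2p : Pd (q.1 * (q0.1 * DDq J)) F2 := by
    intro a b h
    have hd : q.1 ∣ a ↔ q.1 ∣ b := by
      have h1 : q.1 ∣ a - b := (dvd_mul_right _ _).trans h
      constructor
      · intro ha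
        have := dvd_sub ha h1
        rwa [sub_sub_cancel] at this
      · intro hb
        have := dvd_add h1 hb
        rwa [sub_add_cancel] at this
    rw [hF2]
    dsimp only
    by_cases ha : q.1 ∣ a
    · rw [if_pos ha, if_pos (hd.1 ha), hF1p a b h]
    · rw [if_neg ha, if_neg fun hb => ha (hd.2 hb)]
  have hsplit : FX q0 kap f T (insert q J) = SM (q.1 * (q0.1 * DDq J)) (fun a => F1 a - F2 a) := by
    rw [FX, GX_GI, hI]
    refine SM_congr fun a => ?_
    have hOm : OmX q0 kap (insert q J) a ↔ OmX q0 kap J a ∧ ¬ q.1 ∣ a := by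
      constructor
      · rintro ⟨h1, h2⟩
        rw [hI] at h1
        exact ⟨⟨h1.of_mul_right_right, h2⟩, ndvd_of_cop h1 (dvd_mul_right _ _)⟩
      · rintro ⟨⟨h1, h2⟩, h3⟩
        refine ⟨?_, h2⟩
        rw [hI]
        exact IsCoprime.mul_right (cop_of_not q h3) h1
    rw [GI, hF2, hF1]
    dsimp only
    by_cases ha : OmX q0 kap J a
    · by_cases hd : q.1 ∣ a
      · rw [if_neg fun h => (hOm.1 h).2 hd, if_pos ha, if_pos hd, sub_self]
      · rw [if_pos (hOm.2 ⟨ha, hd⟩), if_pos ha, if_neg hd, sub_zero, hI]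
    · rw [if_neg fun h => ha (hOm.1 h).1, if_neg ha, ite_self, sub_zero]
  rw [hsplit, SM_sub hqM0, sub_mul]
  congr 1
  · -- all the classes
    rw [SM_fib hMJ q.ne_zero hF1p, FX, GX_GI, ← SM_cmul hMJ]
    refine SM_congr fun b => ?_
    unfold GI
    by_cases hb : OmX q0 kap J b
    · rw [if_pos hb]
      have hz : em q.1 * (em b / em (q.1 * (q0.1 * DDq J))) = em b / em (q0.1 * DDq J) := by
        rw [em_mul q.1]
        field_simp
      have hn : Od (em q.1 * (em b / em (q.1 * (q0.1 * DDq J)))) := by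
        rw [hz]
        exact od_divX q0 hb.1
      have h1 := htr _ hn
      rw [hz] at h1
      have h2 : SM q.1 (fun u => F1 (b + q0.1 * DDq J * u)) = SM q.1 (fun u => cT T (kap * b) *
          f (em b / em (q.1 * (q0.1 * DDq J)) + em u / em q.1)) := by
        refine SM_congr fun u => ?_
        have hbu : q0.1 * DDq J ∣ b + q0.1 * DDq J * u - b := ⟨u, by ring⟩
        rw [hF1]
        dsimp only
        rw [if_pos ((OmX_congr hk0 hbu).2 hb), hcp _ _ hbu]
        congr 2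
        rw [em_add, em_mul (q0.1 * DDq J), em_mul q.1]
        field_simp
      rw [h2, SM_cmul q.ne_zero, h1]
      ring
    · rw [if_neg hb, mul_zero]
      have h2 : SM q.1 (fun u => F1 (b + q0.1 * DDq J * u)) = SM q.1 (fun _ => (0 : ℂ) * 0) := by
        refine SM_congr fun u => ?_
        have hbu : q0.1 * DDq J ∣ b + q0.1 * DDq J * u - b := ⟨u, by ring⟩
        rw [hF1]
        dsimp only
        rw [if_neg fun h => hb ((OmX_congr hk0 hbu).1 h), mul_zero]
      rw [h2, SM_cmul q.ne_zero, zero_mul]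
  · -- the multiples of `q`
    rw [SM_dvd hMJ q.ne_zero hF2p (fun x hx => by rw [hF2]; exact if_neg hx)]
    have h1 : SM (q0.1 * DDq J) (fun b => F2 (q.1 * b)) = SM (q0.1 * DDq J) (fun b =>
        e4 (∑ p ∈ T, c4 p q.1) * (if IsCoprime b (q0.1 * DDq J) ∧ c4 q0 (kap * b) = -c4 q0 q.1 then
          cT T (kap * b) * f (em b / em (q0.1 * DDq J)) else 0)) := by
      refine SM_congr fun b => ?_
      rw [hF2, hF1]
      dsimp only
      rw [if_pos (dvd_mul_right _ _)]
      have hOm : OmX q0 kap J (q.1 * b) ↔ IsCoprime b (q0.1 * DDq J) ∧ c4 q0 (kap * b) = -c4 q0 q.1 := by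
        have hc : IsCoprime (q.1 * b) (q0.1 * DDq J) ↔ IsCoprime b (q0.1 * DDq J) :=
          ⟨fun h => h.of_mul_left_right, fun h => hqM.mul_left h⟩
        unfold OmX
        rw [hc]
        refine and_congr_right fun hb => ?_
        have e : kap * (q.1 * b) = q.1 * (kap * b) := by ring
        have hnb : ¬ q0.1 ∣ kap * b := not_dvd_mul' q0 hk0 (ndvd_of_cop hb (q0_dvd_M q0 J))
        rw [e, c4_mul q0 (Pg.not_dvd hq0.symm) hnb]
        constructor
        · intro h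
          linear_combination h
        · intro h
          linear_combination h
      have hpt : em (q.1 * b) / em (q.1 * (q0.1 * DDq J)) = em b / em (q0.1 * DDq J) := by
        rw [em_mul, em_mul q.1]
        field_simp
      have hch : cT T (kap * (q.1 * b)) = e4 (∑ p ∈ T, c4 p q.1) * cT T (kap * b) := by
        have e : kap * (q.1 * b) = q.1 * (kap * b) := by ring
        rw [e, cT_mul, cT_of fun p hp h => hq ((by
          have : p = q := by
            by_contra hne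
            exact Pg.not_dvd hne h
          rw [← this]
          exact hT hp))]
      rw [hpt, hch]
      by_cases hb : OmX q0 kap J (q.1 * b)
      · rw [if_pos hb, if_pos (hOm.1 hb)]
        ring
      · rw [if_neg hb, if_neg fun h => hb (hOm.2 h), mul_zero]
    rw [h1, SM_cmul hMJ, rotX h0 hkM hT hf hr, ← mul_assoc, ← e4_add]
    congr 2
    rw [bk]
    ring


theorem FX_prod (h0 : aa q0.1 = 1) (hf : PdL f) (hr : Wt r f) (A : Pg → ℂ)
    (htr : ∀ q, TrF q (A q) f) (hTJ : T ⊆ J) (hJ : q0 ∉ J) (hk : IsCoprime kap (q0.1 * DDq J)) :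
    FX q0 kap f T J = (∏ q ∈ J \ T, (A q - e4 (bk q0 r T q.1))) * FX q0 kap f T T := by
  classical
  have key : ∀ U : Finset Pg, Disjoint U T → q0 ∉ U → (∀ q ∈ U, ¬ q.1 ∣ kap) →
      IsCoprime kap (q0.1 * DDq T) →
      FX q0 kap f T (U ∪ T) = (∏ q ∈ U, (A q - e4 (bk q0 r T q.1))) * FX q0 kap f T T := by
    intro U
    induction U using Finset.induction_on with
    | empty =>
      intro _ _ _ _
      rw [Finset.empty_union, Finset.prod_empty, one_mul]
    | insert q U hq ih =>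
      intro hd hU hkU hkT
      rw [Finset.disjoint_insert_left] at hd
      have hU' : q0 ∉ U := fun h => hU (Finset.mem_insert_of_mem h)
      have hq0 : q ≠ q0 := fun h => hU (by rw [← h]; exact Finset.mem_insert_self _ _)
      have h1 : q ∉ U ∪ T := by
        rw [Finset.mem_union]
        rintro (h | h)
        · exact hq h
        · exact hd.1 h
      have hkk : ∀ V : Finset Pg, V ⊆ insert q U → IsCoprime kap (q0.1 * DDq (V ∪ T)) := by
        intro V
        induction V using Finset.induction_on with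
        | empty =>
          intro _
          rwa [Finset.empty_union]
        | insert v V hv ihV =>
          intro hV
          have h2 := ihV ((Finset.subset_insert _ _).trans hV)
          have hvU := hV (Finset.mem_insert_self v V)
          have h3 : v ∉ V ∪ T := by
            rw [Finset.mem_union]
            rintro (h | h)
            · exact hv h
            · rcases Finset.mem_insert.1 hvU with h4 | h4
              · rw [h4] at h
                exact hd.1 h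
              · exact Finset.disjoint_left.1 hd.2 h4 h
          rw [Finset.insert_union, DDq_insert h3]
          have e : q0.1 * (v.1 * DDq (V ∪ T)) = v.1 * (q0.1 * DDq (V ∪ T)) := by ring
          rw [e]
          exact IsCoprime.mul_right (cop_of_not v (hkU v hvU)) h2
      rw [Finset.insert_union, FX_insert h0 (by rw [← Finset.insert_union]; exact hkk _ subset_rfl)
        Finset.subset_union_right h1 hq0 hf hr (htr q), Finset.prod_insert hq,
        ih hd.2 hU' (fun p hp => hkU p (Finset.mem_insert_of_mem hp)) hkT]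
      ring
  have h1 := key (J \ T) Finset.sdiff_disjoint (fun h => hJ (Finset.mem_sdiff.1 h).1)
    (fun q hq => ndvd_of_cop hk (dvd_M (Finset.mem_sdiff.1 hq).1))
    (hk.of_isCoprime_of_dvd_right (mul_dvd_mul_left _ (Finset.prod_dvd_prod_of_subset _ _ _ hTJ)))
  rwa [Finset.sdiff_union_of_subset hTJ] at h1

end

section
variable {q0 : Pg} {kap : 𝓞 K} {J : Finset Pg} {f : ℂ → ℂ}

theorem GX_add (g g' : 𝓞 K → ℂ) : GX q0 kap (fun x => g x + g' x) f J = GX q0 kap g f J + GX q0 kap g' f J := by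
  rw [GX_GI, GX_GI, GX_GI, ← SM_add (M_ne q0 J)]
  refine SM_congr fun a => ?_
  unfold GI
  by_cases h : OmX q0 kap J a
  · rw [if_pos h, if_pos h, if_pos h]
    ring
  · rw [if_neg h, if_neg h, if_neg h, add_zero]

theorem GX_cmul (c : ℂ) (g : 𝓞 K → ℂ) : GX q0 kap (fun x => c * g x) f J = c * GX q0 kap g f J := by
  rw [GX_GI, GX_GI, ← SM_cmul (M_ne q0 J)]
  refine SM_congr fun a => ?_
  unfold GI
  by_cases h : OmX q0 kap J a
  · rw [if_pos h, if_pos h]
    ring
  · rw [if_neg h, if_neg h, mul_zero]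

theorem GX_zero : GX q0 kap (fun _ => 0) f J = 0 := by
  have h := GX_cmul (q0 := q0) (kap := kap) (J := J) (f := f) 0 (fun _ => 0)
  rw [zero_mul] at h
  simpa using h

theorem GX_sum {ι : Type*} (s : Finset ι) (g : ι → 𝓞 K → ℂ) :
    GX q0 kap (fun x => ∑ i ∈ s, g i x) f J = ∑ i ∈ s, GX q0 kap (g i) f J := by
  classical
  induction s using Finset.induction_on with
  | empty =>
    simp only [Finset.sum_empty]
    exact GX_zero
  | insert a s ha ih =>
    rw [Finset.sum_insert ha, ← ih, ← GX_add]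
    congr 1
    funext x
    exact Finset.sum_insert ha

theorem GX_fadd (g : 𝓞 K → ℂ) (f f' : ℂ → ℂ) :
    GX q0 kap g (fun z => f z + f' z) J = GX q0 kap g f J + GX q0 kap g f' J := by
  rw [GX_GI, GX_GI, GX_GI, ← SM_add (M_ne q0 J)]
  refine SM_congr fun a => ?_
  unfold GI
  by_cases h : OmX q0 kap J a
  · rw [if_pos h, if_pos h, if_pos h]
    ring
  · rw [if_neg h, if_neg h, if_neg h, add_zero]

theorem GX_fcmul (c : ℂ) (g : 𝓞 K → ℂ) (f : ℂ → ℂ) :
    GX q0 kap g (fun z => c * f z) J = c * GX q0 kap g f J := by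
  rw [GX_GI, GX_GI, ← SM_cmul (M_ne q0 J)]
  refine SM_congr fun a => ?_
  unfold GI
  by_cases h : OmX q0 kap J a
  · rw [if_pos h, if_pos h]
    ring
  · rw [if_neg h, if_neg h, mul_zero]

/-- the expansion of the weight -/
theorem w4_eq (J : Finset Pg) (x : 𝓞 K) : w4 J x = ∑ T ∈ J.powerset, (-1) ^ T.card * cT T x := by
  classical
  have h : w4 J x = ∏ q ∈ J, (1 + -1 * ch4 q x) := Finset.prod_congr rfl fun q _ => by ring
  rw [h, Finset.prod_one_add]
  refine Finset.sum_congr rfl fun T _ => ?_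
  rw [Finset.prod_mul_distrib, Finset.prod_const, cT]

theorem GX_w4 : GX q0 kap (w4 J) f J = ∑ T ∈ J.powerset, (-1) ^ T.card * FX q0 kap f T J := by
  have h : GX q0 kap (w4 J) f J = GX q0 kap (fun x => ∑ T ∈ J.powerset, (-1) ^ T.card * cT T x) f J := by
    congr 1
    funext x
    exact w4_eq J x
  rw [h, GX_sum]
  exact Finset.sum_congr rfl fun T _ => GX_cmul _ _

end

section
variable {q0 : Pg} {kap : 𝓞 K} {T J : Finset Pg} {f : ℂ → ℂ} {r : ZMod 4}

/-- **the substitution `z ↦ mu z`** -/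
theorem FX_scale (h0 : aa q0.1 = 1) {mu : 𝓞 K} (hk : IsCoprime kap (q0.1 * DDq J))
    (hmu : IsCoprime mu (q0.1 * DDq J)) (hT : T ⊆ J) (hf : PdL f) (hr : Wt r f) :
    FX q0 kap (fun z => f (em mu * z)) T J = e4 (-bk q0 r T mu) * FX q0 kap f T J := by
  classical
  have hM := M_ne q0 J
  have hk0 : ¬ q0.1 ∣ kap := ndvd_of_cop hk (q0_dvd_M q0 J)
  have hmu0 : ¬ q0.1 ∣ mu := ndvd_of_cop hmu (q0_dvd_M q0 J)
  have hfm : PdL (fun z => f (em mu * z)) := fun x y h => hf _ _ (by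
    rw [← mul_sub]
    exact S3.mul_mem (em_mem mu) h)
  have h1 := rotX h0 hk hT hf hr (c4 q0 mu)
  set G : 𝓞 K → ℂ := fun a => if IsCoprime a (q0.1 * DDq J) ∧ c4 q0 (kap * a) = c4 q0 mu then
      cT T (kap * a) * f (em a / em (q0.1 * DDq J)) else 0 with hG
  have hGp : Pd (q0.1 * DDq J) G := by
    have hp := GI_pd (J := J) hk0 (cT_pd hT) hf
    have key : ∀ a b : 𝓞 K, q0.1 * DDq J ∣ a - b → (IsCoprime a (q0.1 * DDq J) ∧
        c4 q0 (kap * a) = c4 q0 mu) → IsCoprime b (q0.1 * DDq J) ∧ c4 q0 (kap * b) = c4 q0 mu := by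
      rintro a b h ⟨ha, hb⟩
      have h3 : IsCoprime b (q0.1 * DDq J) := by
        obtain ⟨t, ht⟩ := h
        obtain ⟨x, y, hxy⟩ := ha
        exact ⟨x, y + x * t, by linear_combination hxy - x * ht⟩
      refine ⟨h3, ?_⟩
      rw [← hb]
      refine (c4_congr q0 (not_dvd_mul' q0 hk0 (ndvd_of_cop ha (q0_dvd_M q0 J))) ?_).symm
      rw [← mul_sub]
      exact ((dvd_mul_right _ _).trans h).mul_left _
    intro a b h
    have h1' : (IsCoprime a (q0.1 * DDq J) ∧ c4 q0 (kap * a) = c4 q0 mu) ↔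
        IsCoprime b (q0.1 * DDq J) ∧ c4 q0 (kap * b) = c4 q0 mu := by
      refine ⟨key a b h, key b a ?_⟩
      rw [← neg_sub]
      exact h.neg_right
    have h2 : cT T (kap * a) = cT T (kap * b) := by
      refine cT_per hT ?_
      rw [← mul_sub]
      exact ((dvd_mul_left _ _).trans h).mul_left _
    have h3 : f (em a / em (q0.1 * DDq J)) = f (em b / em (q0.1 * DDq J)) := by
      refine hf _ _ ?_
      obtain ⟨t, ht⟩ := h
      have e : em a / em (q0.1 * DDq J) - em b / em (q0.1 * DDq J) = em t := by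
        rw [← sub_div, ← em_sub, ht, em_mul, mul_div_cancel_left₀ _ (em_ne hM)]
      rw [e]
      exact em_mem t
    rw [hG]
    dsimp only
    by_cases ha : IsCoprime a (q0.1 * DDq J) ∧ c4 q0 (kap * a) = c4 q0 mu
    · rw [if_pos ha, if_pos (h1'.1 ha), h2, h3]
    · rw [if_neg ha, if_neg fun hb => ha (h1'.2 hb)]
  have h2 : FX q0 kap (fun z => f (em mu * z)) T J =
      e4 (-∑ p ∈ T, c4 p mu) * SM (q0.1 * DDq J) G := by
    rw [← SM_mul hM hGp hmu, FX, GX_GI, ← SM_cmul hM]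
    refine SM_congr fun a => ?_
    have hc : IsCoprime (mu * a) (q0.1 * DDq J) ↔ IsCoprime a (q0.1 * DDq J) :=
      ⟨fun h => h.of_mul_left_right, fun h => hmu.mul_left h⟩
    have e1 : kap * (mu * a) = mu * (kap * a) := by ring
    rw [hG, GI]
    dsimp only
    by_cases ha : IsCoprime a (q0.1 * DDq J)
    · have hka : IsCoprime (kap * a) (q0.1 * DDq J) := hk.mul_left ha
      have hnka : ¬ q0.1 ∣ kap * a := ndvd_of_cop hka (q0_dvd_M q0 J)
      have e2 : c4 q0 (kap * (mu * a)) = c4 q0 mu + c4 q0 (kap * a) := by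
        rw [e1, c4_mul q0 hmu0 hnka]
      by_cases hb : c4 q0 (kap * a) = 0
      · have h3 : OmX q0 kap J a := ⟨ha, hb⟩
        have h4 : IsCoprime (mu * a) (q0.1 * DDq J) ∧ c4 q0 (kap * (mu * a)) = c4 q0 mu :=
          ⟨hc.2 ha, by rw [e2, hb, add_zero]⟩
        rw [if_pos h3, if_pos h4, e1, cT_mul T mu, cT_of (x := mu) fun p hp =>
          ndvd_of_cop hmu (dvd_M (hT hp)), em_mul mu a, mul_div_assoc]
        have e5 : e4 (-∑ p ∈ T, c4 p mu) * e4 (∑ p ∈ T, c4 p mu) = 1 := by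
          rw [← e4_add, neg_add_cancel, e4_zero]
        linear_combination (-(cT T (kap * a) * f (em mu * (em a / em (q0.1 * DDq J))))) * e5
      · have h3 : ¬ OmX q0 kap J a := fun h => hb h.2
        have h4 : ¬ (IsCoprime (mu * a) (q0.1 * DDq J) ∧ c4 q0 (kap * (mu * a)) = c4 q0 mu) := by
          rintro ⟨-, h⟩
          rw [e2] at h
          exact hb (by linear_combination h)
        rw [if_neg h3, if_neg h4, mul_zero]
    · have h3 : ¬ OmX q0 kap J a := fun h => ha h.1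
      have h4 : ¬ (IsCoprime (mu * a) (q0.1 * DDq J) ∧ c4 q0 (kap * (mu * a)) = c4 q0 mu) :=
        fun h => ha (hc.1 h.1)
      rw [if_neg h3, if_neg h4, mul_zero]
  rw [h2, h1, ← mul_assoc, ← e4_add]
  congr 2
  rw [bk]
  ring

/-- **the change of `kap`** -/
theorem FX_kap (h0 : aa q0.1 = 1) {mu : 𝓞 K} (hk : IsCoprime kap (q0.1 * DDq J))
    (hmu : IsCoprime mu (q0.1 * DDq J)) (hT : T ⊆ J) (hf : PdL f) (hr : Wt r f) :
    FX q0 (mu * kap) f T J = e4 (bk q0 r T mu) * FX q0 kap f T J := by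
  classical
  have hM := M_ne q0 J
  have hk0 : ¬ q0.1 ∣ kap := ndvd_of_cop hk (q0_dvd_M q0 J)
  have hmu0 : ¬ q0.1 ∣ mu := ndvd_of_cop hmu (q0_dvd_M q0 J)
  have h1 := rotX h0 hk hT hf hr (-c4 q0 mu)
  have h2 : FX q0 (mu * kap) f T J = e4 (∑ p ∈ T, c4 p mu) * SM (q0.1 * DDq J) (fun a =>
      if IsCoprime a (q0.1 * DDq J) ∧ c4 q0 (kap * a) = -c4 q0 mu then
      cT T (kap * a) * f (em a / em (q0.1 * DDq J)) else 0) := by
    rw [FX, GX_GI, ← SM_cmul hM]
    refine SM_congr fun a => ?_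
    unfold GI
    by_cases ha : IsCoprime a (q0.1 * DDq J)
    · have hka : IsCoprime (kap * a) (q0.1 * DDq J) := hk.mul_left ha
      have hnka : ¬ q0.1 ∣ kap * a := ndvd_of_cop hka (q0_dvd_M q0 J)
      have e2 : c4 q0 (mu * kap * a) = c4 q0 mu + c4 q0 (kap * a) := by
        rw [mul_assoc, c4_mul q0 hmu0 hnka]
      by_cases hb : c4 q0 (kap * a) = -c4 q0 mu
      · have h3 : OmX q0 (mu * kap) J a := ⟨ha, by rw [e2, hb, add_neg_cancel]⟩
        rw [if_pos h3, if_pos ⟨ha, hb⟩, mul_assoc mu, cT_mul, cT_of (x := mu) fun p hp =>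
          ndvd_of_cop hmu (dvd_M (hT hp))]
        ring
      · have h3 : ¬ OmX q0 (mu * kap) J a := fun h => hb (by
          have := h.2
          rw [e2] at this
          linear_combination this)
        rw [if_neg h3, if_neg fun h => hb h.2, mul_zero]
    · rw [if_neg fun h => ha h.1, if_neg fun h => ha h.1, mul_zero]
  rw [h2, h1, ← mul_assoc, ← e4_add]
  congr 2
  rw [bk]
  ring

/-! ### The distribution relations -/

/-- representatives of `E[q]` -/
theorem crs_tau {q : Pg} {ι : Type} {u : ι → 𝓞 K} (hu : CRS q.1 u) :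
    (∀ i, em q.1 * (em (u i) / em q.1) ∈ PP.lattice) ∧
      ∀ x, em q.1 * x ∈ PP.lattice → ∃! i, x - em (u i) / em q.1 ∈ PP.lattice := by
  have hq : em q.1 ≠ 0 := em_ne q.ne_zero
  refine ⟨fun i => ?_, fun x hx => ?_⟩
  · rw [mul_div_cancel₀ _ hq]
    exact em_mem _
  · obtain ⟨y, hy⟩ := mem_iff_em.1 hx
    obtain ⟨i, t, ht⟩ := hu.ex y
    have hxy : x = em y / em q.1 := by
      rw [hy, mul_div_cancel_left₀ _ hq]
    refine ⟨i, ?_, fun j hj => ?_⟩
    · dsimp only
      rw [hxy, ← sub_div, ← em_sub, ht, em_mul, mul_div_cancel_left₀ _ hq]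
      exact em_mem _
    · dsimp only at hj
      obtain ⟨z, hz⟩ := mem_iff_em.1 hj
      refine hu.inj j i ?_
      have h1 : em (y - u j) = em (q.1 * z) := by
        rw [em_mul, hz, hxy, em_sub]
        field_simp
      have h2 := em_inj h1
      exact ⟨t - z, by linear_combination ht - h2⟩

theorem TrF_of {q : Pg} {A : ℂ} {f : ℂ → ℂ} (hf : PdL f)
    (h : ∀ (ι : Type) [Fintype ι] (τ : ι → ℂ), (∀ i, em q.1 * τ i ∈ PP.lattice) →
      (∀ x, em q.1 * x ∈ PP.lattice → ∃! i, x - τ i ∈ PP.lattice) → ∀ z, Od (em q.1 * z) →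
        ∑ i, f (z + τ i) = A * f (em q.1 * z)) : TrF q A f := by
  intro z hz
  obtain ⟨ι, _, u, hu⟩ := CRS.exists_crs q.ne_zero
  obtain ⟨h1, h2⟩ := crs_tau hu
  rw [← h ι _ h1 h2 z hz]
  refine SM_eq q.ne_zero hu fun x y hxy => hf _ _ ?_
  obtain ⟨t, ht⟩ := hxy
  have hq : em q.1 ≠ 0 := em_ne q.ne_zero
  have e : z + em x / em q.1 - (z + em y / em q.1) = em t := by
    have h3 : em x - em y = em q.1 * em t := by rw [← em_sub, ht, em_mul]
    rw [add_sub_add_left_eq_sub, ← sub_div, h3, mul_div_cancel_left₀ _ hq]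
  rw [e]
  exact em_mem t

theorem PdL_X : PdL X := fun _ _ h => X_congr h

theorem Wt_X : Wt 2 X := fun z hz => by
  rw [X_i hz, e4_two]
  ring

theorem TrF_X (q : Pg) : TrF q (em q.1 ^ 2) X :=
  TrF_of PdL_X fun _ _ _ h1 h2 _ hz => sum_X4 (em_mem q.1) (em_ne q.ne_zero) h1 h2 hz.notMem

theorem PdL_lam {f : ℂ → ℂ} (hf : PdL f) (n : ℕ) : PdL (fun z => f (lm ^ n * z)) := fun x y h => hf _ _ (by
  rw [← mul_sub]
  exact lm_pow_mem h n)

/-- the composition with the multiplication by `lam ^ n` -/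
theorem TrF_lam {q : Pg} {A : ℂ} {f : ℂ → ℂ} (hf : PdL f) (h : TrF q A f) (n : ℕ) :
    TrF q A (fun z => f (lm ^ n * z)) := by
  intro z hz
  have hq : em q.1 ≠ 0 := em_ne q.ne_zero
  have e0 : em q.1 * (lm ^ n * z) = lm ^ n * (em q.1 * z) := by ring
  have h1 := h (lm ^ n * z) (by rw [e0]; exact hz.pow n)
  have hcop : IsCoprime (lam ^ n) q.1 := (in4_cop_lam q.in4 n).symm
  have hp : Pd q.1 (fun u => f (lm ^ n * z + em u / em q.1)) := by
    intro x y hxy
    refine hf _ _ ?_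
    obtain ⟨t, ht⟩ := hxy
    have h3 : em x - em y = em q.1 * em t := by rw [← em_sub, ht, em_mul]
    rw [add_sub_add_left_eq_sub, ← sub_div, h3, mul_div_cancel_left₀ _ hq]
    exact em_mem t
  rw [← SM_mul q.ne_zero hp hcop] at h1
  have h2 : SM q.1 (fun u => f (lm ^ n * (z + em u / em q.1))) =
      SM q.1 (fun x => f (lm ^ n * z + em (lam ^ n * x) / em q.1)) := by
    refine SM_congr fun u => ?_
    congr 1
    rw [em_mul, em_pow, em_lam]
    ring
  rw [h2, h1, e0]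

end

/-! ### The sums of AvgX -/

/-- the exponent of AvgX -/
theorem bX_bk (q0 : Pg) (h : ZMod 2) (T : Finset Pg) (x : 𝓞 K) : bX q0 h T x = bk q0 (hh h) T x := by
  rw [bX, bk, e0X]
  ring

/-- the sums of AvgX -/
theorem MM_FX (k : ZMod 4) (h : ZMod 2) (q0 : Pg) (T J : Finset Pg) :
    MM k h q0 T J = FX q0 (f4 k) (fun z => UX k h (X z)) T J := rfl

end

end Pool.Agent.Lib.MP_1a91b9_ntQ
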