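import Pool.Agent.Lib.MP_1a91b9_ntQ.A.Rsd4
import Pool.Agent.Lib.MP_1a91b9_ntQ.A.Wt4
import Pool.Agent.Lib.MP_1a91b9_ntQ.A.Tra4

/-!
# Quartic twists, part A, file Gam4: sums over the classes with trivial symbol at the auxiliary prime

* `gam4`: the sum of `wt4 J (kap y) (ξ(R) + ξ(lam² R))` is zero modulo the maximal ideal;
* `sum_w4_om`: the sum of `w4 J (kap y)` is `n ∏ (Nz q - 1)`, `4 n = Nz q0 - 1`.
-/

set_option autoImplicit false

namespace Pool.Agent.Lib.MP_1a91b9_ntQ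

open NumberField IsDedekindDomain Pool.Agent.Lib.MP_1a91b9_nuT Pool.Agent.Lib.MP_1a91b9_nuT.S3
  Pool.Agent.Lib.MP_1a91b9_nuT.Ell

noncomputable section

variable {B : ValuationSubring ℂ}

/-! ### General sums -/

theorem SM_tr {R : Type*} [AddCommMonoid R] {M : 𝓞 K} (hM : M ≠ 0) {F : 𝓞 K → R} (hF : Pd M F)
    (b : 𝓞 K) : SM M (fun x => F (b + x)) = SM M F := by
  obtain ⟨ι, _, a, ha⟩ := CRS.exists_crs hM
  have h1 : CRS M fun i => b + a i := by
    refine ⟨fun x => ?_, fun i j h => ha.inj i j ?_⟩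
    · obtain ⟨i, hi⟩ := ha.ex (x - b)
      refine ⟨i, ?_⟩
      have e : x - (b + a i) = x - b - a i := by ring
      rwa [e]
    · have e : a i - a j = b + a i - (b + a j) := by ring
      rwa [e]
  rw [SM_eq hM h1 hF]
  refine SM_eq (F := fun x => F (b + x)) hM ha fun x y h => hF _ _ ?_
  have e : b + x - (b + y) = x - y := by ring
  rwa [e]

theorem SM_fsum {R κ : Type*} [AddCommMonoid R] {M : 𝓞 K} (hM : M ≠ 0) (s : Finset κ)
    (F : κ → 𝓞 K → R) : SM M (fun x => ∑ k ∈ s, F k x) = ∑ k ∈ s, SM M (F k) := by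
  obtain ⟨ι, _, a, -, h⟩ := SM_def (R := R) hM
  rw [h, Finset.sum_comm]
  exact Finset.sum_congr rfl fun k _ => (h (F k)).symm

theorem v_SM_lt {M : 𝓞 K} (hM : M ≠ 0) {F : 𝓞 K → ℂ} {b : B.ValueGroup} (hb : 0 < b)
    (h : ∀ x, B.valuation (F x) < b) : B.valuation (SM M F) < b := by
  obtain ⟨ι, _, a, -, h1⟩ := SM_def (R := ℂ) hM
  rw [h1]
  exact Valuation.map_sum_lt' _ hb fun i _ => h _

theorem v_SM_le {M : 𝓞 K} (hM : M ≠ 0) {F : 𝓞 K → ℂ} {b : B.ValueGroup}
    (h : ∀ x, B.valuation (F x) ≤ b) : B.valuation (SM M F) ≤ b := by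
  obtain ⟨ι, _, a, -, h1⟩ := SM_def (R := ℂ) hM
  rw [h1]
  exact Valuation.map_sum_le _ fun i _ => h _

/-! ### The classes -/

/-- the sum over these classes -/
def SO (q0 : Pg) (kap : 𝓞 K) (J : Finset Pg) (F : 𝓞 K → ℂ) : ℂ :=
  open Classical in SM (q0.1 * DDq J) fun y => if OmX q0 kap J y then F y else 0

variable {q0 : Pg} {kap : 𝓞 K} {J : Finset Pg}

theorem qD_in4 (q0 : Pg) (J : Finset Pg) : In4 (q0.1 * DDq J) := q0.in4.mul (DDq_in4 J)

theorem qD_ne (q0 : Pg) (J : Finset Pg) : q0.1 * DDq J ≠ 0 := (qD_in4 q0 J).ne_zero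

theorem cop_qD {y : 𝓞 K} :
    IsCoprime y (q0.1 * DDq J) ↔ ¬ q0.1 ∣ y ∧ ∀ q ∈ J, ¬ q.1 ∣ y := by
  have hc : ∀ q : Pg, IsCoprime y q.1 ↔ ¬ q.1 ∣ y := fun q => by
    rw [isCoprime_comm]
    exact q.prime.irreducible.coprime_iff_not_dvd
  rw [IsCoprime.mul_right_iff, hc, DDq, IsCoprime.prod_right_iff]
  refine and_congr_right fun _ => forall₂_congr fun q _ => hc q

theorem OmX.nd0 {y : 𝓞 K} (h : OmX q0 kap J y) : ¬ q0.1 ∣ y := (cop_qD.1 h.1).1

theorem OmX.nd {y : 𝓞 K} (h : OmX q0 kap J y) {q : Pg} (hq : q ∈ J) : ¬ q.1 ∣ y :=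
  (cop_qD.1 h.1).2 q hq

theorem not_dvd_mul {q : Pg} {x y : 𝓞 K} (hx : ¬ q.1 ∣ x) (hy : ¬ q.1 ∣ y) : ¬ q.1 ∣ x * y :=
  fun h => (q.prime.dvd_or_dvd h).elim hx hy

theorem OmX.ndk (hk : ∀ q : Pg, ¬ q.1 ∣ kap) {y : 𝓞 K} (h : OmX q0 kap J y) {q : Pg}
    (hq : q ∈ J) : ¬ q.1 ∣ kap * y := not_dvd_mul (hk q) (h.nd hq)

/-- multiplication by an element prime to the modulus with trivial symbol at `q0` -/
theorem OmX_mul (hk : ∀ q : Pg, ¬ q.1 ∣ kap) {u y : 𝓞 K} (hu : IsCoprime u (q0.1 * DDq J))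
    (hu0 : c4 q0 u = 0) : OmX q0 kap J (u * y) ↔ OmX q0 kap J y := by
  unfold OmX
  rw [IsCoprime.mul_left_iff]
  have h1 := (cop_qD.1 hu).1
  constructor
  · rintro ⟨⟨-, h2⟩, h3⟩
    refine ⟨h2, ?_⟩
    have e : kap * (u * y) = u * (kap * y) := by ring
    rwa [e, c4_mul q0 h1 (not_dvd_mul (hk q0) (cop_qD.1 h2).1), hu0, zero_add] at h3
  · rintro ⟨h2, h3⟩
    refine ⟨⟨hu, h2⟩, ?_⟩
    have e : kap * (u * y) = u * (kap * y) := by ring
    rwa [e, c4_mul q0 h1 (not_dvd_mul (hk q0) (cop_qD.1 h2).1), hu0, zero_add]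

theorem SO_congr {F G : 𝓞 K → ℂ} (h : ∀ y, OmX q0 kap J y → F y = G y) :
    SO q0 kap J F = SO q0 kap J G := by
  classical
  unfold SO
  refine SM_congr fun y => ?_
  by_cases hy : OmX q0 kap J y
  · rw [if_pos hy, if_pos hy, h y hy]
  · rw [if_neg hy, if_neg hy]

theorem SO_add (F G : 𝓞 K → ℂ) :
    SO q0 kap J (fun y => F y + G y) = SO q0 kap J F + SO q0 kap J G := by
  classical
  unfold SO
  rw [← SM_add (qD_ne q0 J)]
  refine SM_congr fun y => ?_
  by_cases hy : OmX q0 kap J y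
  · rw [if_pos hy, if_pos hy, if_pos hy]
  · rw [if_neg hy, if_neg hy, if_neg hy, add_zero]

theorem SO_sub (F G : 𝓞 K → ℂ) :
    SO q0 kap J (fun y => F y - G y) = SO q0 kap J F - SO q0 kap J G := by
  classical
  unfold SO
  rw [← SM_sub (qD_ne q0 J)]
  refine SM_congr fun y => ?_
  by_cases hy : OmX q0 kap J y
  · rw [if_pos hy, if_pos hy, if_pos hy]
  · rw [if_neg hy, if_neg hy, if_neg hy, sub_zero]

theorem SO_smul (c : ℂ) (F : 𝓞 K → ℂ) :
    SO q0 kap J (fun y => c * F y) = c * SO q0 kap J F := by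
  classical
  unfold SO
  have h := SM_smul (qD_ne q0 J) c fun y => if OmX q0 kap J y then F y else 0
  simp only [smul_eq_mul] at h
  rw [← h]
  refine SM_congr fun y => ?_
  by_cases hy : OmX q0 kap J y
  · rw [if_pos hy, if_pos hy]
  · rw [if_neg hy, if_neg hy, mul_zero]

theorem v_SO_lt {F : 𝓞 K → ℂ} {b : B.ValueGroup} (hb : 0 < b)
    (h : ∀ y, OmX q0 kap J y → B.valuation (F y) < b) : B.valuation (SO q0 kap J F) < b := by
  classical
  refine v_SM_lt (qD_ne q0 J) hb fun y => ?_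
  by_cases hy : OmX q0 kap J y
  · rw [if_pos hy]
    exact h y hy
  · rw [if_neg hy, map_zero]
    exact hb

theorem v_SO_le {F : 𝓞 K → ℂ} {b : B.ValueGroup}
    (h : ∀ y, OmX q0 kap J y → B.valuation (F y) ≤ b) : B.valuation (SO q0 kap J F) ≤ b := by
  classical
  refine v_SM_le (qD_ne q0 J) fun y => ?_
  by_cases hy : OmX q0 kap J y
  · rw [if_pos hy]
    exact h y hy
  · rw [if_neg hy, map_zero]
    exact zero_le

/-- **the substitution** -/
theorem SO_mul (hk : ∀ q : Pg, ¬ q.1 ∣ kap) {u : 𝓞 K} (hu : IsCoprime u (q0.1 * DDq J))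
    (hu0 : c4 q0 u = 0) {F : 𝓞 K → ℂ}
    (hF : ∀ x y, q0.1 * DDq J ∣ x - y → OmX q0 kap J x → F x = F y) :
    SO q0 kap J (fun y => F (u * y)) = SO q0 kap J F := by
  classical
  have hP : Pd (q0.1 * DDq J) fun y => if OmX q0 kap J y then F y else 0 := by
    intro x y h
    change (if OmX q0 kap J x then F x else 0) = if OmX q0 kap J y then F y else 0
    by_cases hx : OmX q0 kap J x
    · rw [if_pos hx, if_pos ((OmX_congr (hk q0) h).1 hx), hF x y h hx]
    · rw [if_neg hx, if_neg fun hy => hx ((OmX_congr (hk q0) h).2 hy)]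
  have h1 := SM_mul (qD_ne q0 J) hP hu
  unfold SO
  rw [← h1]
  refine SM_congr fun y => ?_
  by_cases hy : OmX q0 kap J y
  · rw [if_pos hy, if_pos ((OmX_mul hk hu hu0).2 hy)]
  · rw [if_neg hy, if_neg fun h => hy ((OmX_mul hk hu hu0).1 h)]

/-! ### The number of the classes -/

theorem SM_one (q : Pg) : SM q.1 (fun _ => (1 : ℂ)) = (Nz q.1 : ℂ) := by
  have hfin := SM_finite q.ne_zero
  let _ : Fintype (𝓞 K ⧸ Ideal.span {q.1}) := Fintype.ofFinite _
  have hcard : Fintype.card (𝓞 K ⧸ Ideal.span {q.1}) = Nz q.1 := by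
    rw [← absNorm_span, Ideal.absNorm_apply, Submodule.cardQuot_apply, Nat.card_eq_fintype_card]
    rfl
  rw [SM, finsum_eq_sum_of_fintype, Finset.sum_const, Finset.card_univ, nsmul_eq_mul, mul_one]
  exact congrArg (Nat.cast : ℕ → ℂ) hcard

theorem SM_dvd_one (q : Pg) :
    (open Classical in SM q.1 (fun y => if q.1 ∣ y then (1 : ℂ) else 0)) = 1 := by
  classical
  have h := SM_sup (R := ℂ) (ι := Unit) (a := fun _ => (0 : 𝓞 K)) q.ne_zero
    (F := fun y => if q.1 ∣ y then (1 : ℂ) else 0) (fun x y hxy => ?_) (fun x hx => ?_)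
    (fun _ _ _ => rfl)
  · rw [h, Fintype.sum_unique, if_pos (dvd_zero _)]
  · change (if q.1 ∣ x then (1 : ℂ) else 0) = if q.1 ∣ y then 1 else 0
    have e : q.1 ∣ x ↔ q.1 ∣ y := by
      constructor
      · intro hx
        have := dvd_sub hx hxy
        rwa [sub_sub_cancel] at this
      · intro hy
        have := dvd_add hxy hy
        rwa [sub_add_cancel] at this
    rw [if_congr e rfl rfl]
  · refine ⟨(), ?_⟩
    rw [sub_zero]
    by_contra h
    exact hx (if_neg h)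

theorem SM_unit_one (q : Pg) :
    (open Classical in SM q.1 (fun y => if q.1 ∣ y then (0 : ℂ) else 1)) = (Nz q.1 : ℂ) - 1 := by
  classical
  have h1 := SM_sub (R := ℂ) q.ne_zero (fun _ => 1) fun y => if q.1 ∣ y then (1 : ℂ) else 0
  have h2 := SM_dvd_one q
  rw [SM_one] at h1
  rw [h2] at h1
  rw [← h1]
  refine SM_congr fun y => ?_
  by_cases h : q.1 ∣ y
  · rw [if_pos h, if_pos h, sub_self]
  · rw [if_neg h, if_neg h, sub_zero]

theorem SM_ch4 (q : Pg) (kap : 𝓞 K) : SM q.1 (fun y => ch4 q (kap * y)) = 0 := by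
  obtain ⟨u, hu, hu2⟩ := exists_c4 q 2
  have hP : Pd q.1 fun y => ch4 q (kap * y) := by
    intro x y h
    refine (ch4_chrP q).per _ _ ?_
    rw [← mul_sub]
    exact h.mul_left _
  have hc : IsCoprime u q.1 := by
    rw [isCoprime_comm]
    exact q.prime.irreducible.coprime_iff_not_dvd.2 hu
  have h1 := SM_mul q.ne_zero hP hc
  have h2 : SM q.1 (fun y => ch4 q (kap * (u * y))) = -SM q.1 (fun y => ch4 q (kap * y)) := by
    have h3 := SM_smul q.ne_zero (-1 : ℂ) fun y => ch4 q (kap * y)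
    simp only [smul_eq_mul, neg_one_mul] at h3
    rw [← h3]
    refine SM_congr fun y => ?_
    have e : kap * (u * y) = u * (kap * y) := by ring
    rw [e, (ch4_chrP q).mul, ch4_of_not hu, hu2, e4_two, neg_one_mul]
  rw [h2] at h1
  have h4 : 2 * SM q.1 (fun y => ch4 q (kap * y)) = 0 := by linear_combination -h1
  exact (mul_eq_zero.1 h4).resolve_left two_ne_zero

/-- the number of the classes modulo `q0` with trivial symbol -/
def n0 (q0 : Pg) (kap : 𝓞 K) : ℂ := SO q0 kap ∅ fun _ => 1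

theorem n0_eq (h0 : aa q0.1 = 1) (hk : ∀ q : Pg, ¬ q.1 ∣ kap) :
    4 * n0 q0 kap = (Nz q0.1 : ℂ) - 1 := by
  classical
  have hM : q0.1 * DDq ∅ = q0.1 := by rw [DDq_empty, mul_one]
  have hOm : ∀ y, OmX q0 kap ∅ y ↔ ¬ q0.1 ∣ y ∧ c4 q0 (kap * y) = 0 := by
    intro y
    unfold OmX
    rw [cop_qD]
    simp
  have hn : n0 q0 kap = SM q0.1 fun y => if ¬ q0.1 ∣ y ∧ c4 q0 (kap * y) = 0 then (1 : ℂ) else 0 := by
    unfold n0 SO
    rw [hM]
    refine SM_congr fun y => ?_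
    rw [if_congr (hOm y) rfl rfl]
  have hP : Pd q0.1 fun y => if ¬ q0.1 ∣ y ∧ c4 q0 (kap * y) = 0 then (1 : ℂ) else 0 := by
    intro x y h
    have h' : q0.1 * DDq ∅ ∣ x - y := by rwa [hM]
    have h1 := OmX_congr (hk q0) h'
    rw [hOm, hOm] at h1
    change (if ¬ q0.1 ∣ x ∧ c4 q0 (kap * x) = 0 then (1 : ℂ) else 0) =
      if ¬ q0.1 ∣ y ∧ c4 q0 (kap * y) = 0 then (1 : ℂ) else 0
    rw [if_congr h1 rfl rfl]
  have hi : ∀ j : ℕ, ¬ q0.1 ∣ iO ^ j := fun j h =>
    q0.prime.not_isUnit (isUnit_of_dvd_unit h (isUnit_iO.pow j))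
  have hj : ∀ j : ℕ, SM q0.1 (fun y => if ¬ q0.1 ∣ y ∧ c4 q0 (kap * (iO ^ j * y)) = 0 then (1 : ℂ)
      else 0) = n0 q0 kap := by
    intro j
    have hc : IsCoprime (iO ^ j) q0.1 := by
      rw [isCoprime_comm]
      exact q0.prime.irreducible.coprime_iff_not_dvd.2 (hi j)
    rw [hn, ← SM_mul q0.ne_zero hP hc]
    refine SM_congr fun y => ?_
    refine if_congr ?_ rfl rfl
    refine and_congr_left fun _ => not_congr ?_
    rw [(isUnit_iO.pow j).dvd_mul_left]
  have hsum : SM q0.1 (fun y => ∑ j ∈ Finset.range 4,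
      if ¬ q0.1 ∣ y ∧ c4 q0 (kap * (iO ^ j * y)) = 0 then (1 : ℂ) else 0) = 4 * n0 q0 kap := by
    rw [SM_fsum q0.ne_zero, Finset.sum_congr rfl fun j _ => hj j, Finset.sum_const,
      Finset.card_range, nsmul_eq_mul, Nat.cast_ofNat]
  rw [← hsum, ← SM_unit_one]
  refine SM_congr fun y => ?_
  by_cases hy : q0.1 ∣ y
  · rw [if_pos hy]
    refine Finset.sum_eq_zero fun j _ => if_neg fun h => h.1 hy
  · rw [if_neg hy]
    have hv : ∀ j : ℕ, c4 q0 (kap * (iO ^ j * y)) = j * nn q0.1 + c4 q0 (kap * y) := by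
      intro j
      have e : kap * (iO ^ j * y) = iO ^ j * (kap * y) := by ring
      rw [e, c4_mul q0 (hi j) (not_dvd_mul (hk q0) hy),
        c4_pow q0 (fun h => q0.prime.not_isUnit (isUnit_of_dvd_unit h isUnit_iO)), c4_i]
    have key : ∀ n t : ZMod 4, md n = 1 →
        (if (0 : ZMod 4) * n + t = 0 then (1 : ℂ) else 0) + (if (1 : ZMod 4) * n + t = 0 then 1 else 0) +
        (if (2 : ZMod 4) * n + t = 0 then 1 else 0) + (if (3 : ZMod 4) * n + t = 0 then 1 else 0) = 1 := by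
      intro n t hn
      have h4 : ∀ n t : ZMod 4, md n = 1 → (n = 1 ∨ n = 3) ∧ (t = 0 ∨ t = 1 ∨ t = 2 ∨ t = 3) := by
        intro n t hn
        have h5 : ∀ n : ZMod 4, n = 0 ∨ n = 1 ∨ n = 2 ∨ n = 3 := by decide
        refine ⟨?_, h5 t⟩
        rcases h5 n with rfl | rfl | rfl | rfl
        · rw [md_zero] at hn
          exact absurd hn (by decide)
        · exact Or.inl rfl
        · rw [md_two] at hn
          exact absurd hn (by decide)
        · exact Or.inr rfl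
      obtain ⟨h5, h6⟩ := h4 n t hn
      have z1 : (1 : ZMod 4) ≠ 0 := by decide
      have z2 : (2 : ZMod 4) ≠ 0 := by decide
      have z3 : (3 : ZMod 4) ≠ 0 := by decide
      rcases h5 with rfl | rfl <;> rcases h6 with rfl | rfl | rfl | rfl
      · rw [if_pos (by decide), if_neg (by decide), if_neg (by decide), if_neg (by decide)]
        norm_num
      · rw [if_neg (by decide), if_neg (by decide), if_neg (by decide), if_pos (by decide)]
        norm_num
      · rw [if_neg (by decide), if_neg (by decide), if_pos (by decide), if_neg (by decide)]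
        norm_num
      · rw [if_neg (by decide), if_pos (by decide), if_neg (by decide), if_neg (by decide)]
        norm_num
      · rw [if_pos (by decide), if_neg (by decide), if_neg (by decide), if_neg (by decide)]
        norm_num
      · rw [if_neg (by decide), if_pos (by decide), if_neg (by decide), if_neg (by decide)]
        norm_num
      · rw [if_neg (by decide), if_neg (by decide), if_pos (by decide), if_neg (by decide)]
        norm_num
      · rw [if_neg (by decide), if_neg (by decide), if_neg (by decide), if_pos (by decide)]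
        norm_num
    have h7 := key (nn q0.1) (c4 q0 (kap * y)) h0
    refine Eq.trans ?_ h7
    rw [Finset.sum_range_succ, Finset.sum_range_succ, Finset.sum_range_succ,
      Finset.sum_range_one, hv, hv, hv, hv]
    have c : ∀ t : ZMod 4, (if ¬ q0.1 ∣ y ∧ t = 0 then (1 : ℂ) else 0) = if t = 0 then 1 else 0 :=
      fun t => if_congr (by simp [hy]) rfl rfl
    rw [c, c, c, c]
    norm_num

theorem sum_w4_om (hk : ∀ q : Pg, ¬ q.1 ∣ kap) (hq : q0 ∉ J) :
    SO q0 kap J (fun y => w4 J (kap * y)) = n0 q0 kap * ∏ q ∈ J, ((Nz q.1 : ℂ) - 1) := by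
  classical
  induction J using Finset.induction_on with
  | empty =>
    rw [Finset.prod_empty, mul_one, n0]
    exact SO_congr fun y _ => by rw [w4, Finset.prod_empty]
  | insert r J hr ih =>
    have hq' : q0 ∉ J := fun h => hq (Finset.mem_insert_of_mem h)
    have hr0 : r ≠ q0 := fun h => hq (h ▸ Finset.mem_insert_self r J)
    obtain ⟨M, hM⟩ : ∃ M, M = q0.1 * DDq J := ⟨_, rfl⟩
    have hM0 : M ≠ 0 := hM ▸ qD_ne q0 J
    have hMr : q0.1 * DDq (insert r J) = r.1 * M := by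
      rw [DDq_insert hr, hM]
      ring
    have hcM : IsCoprime M r.1 := by
      rw [hM]
      refine IsCoprime.mul_left (Pg.cop (Ne.symm hr0)) (IsCoprime.prod_left fun q hq2 => Pg.cop ?_)
      rintro rfl
      exact hr hq2
    have hOm : ∀ y, OmX q0 kap (insert r J) y ↔ OmX q0 kap J y ∧ ¬ r.1 ∣ y := by
      intro y
      simp only [OmX, cop_qD, Finset.forall_mem_insert]
      tauto
    have hP : Pd (r.1 * M) fun y => if OmX q0 kap (insert r J) y then w4 (insert r J) (kap * y)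
        else 0 := by
      intro x y h
      have h' : q0.1 * DDq (insert r J) ∣ x - y := by rwa [hMr]
      change (if OmX q0 kap (insert r J) x then w4 (insert r J) (kap * x) else 0) =
        if OmX q0 kap (insert r J) y then w4 (insert r J) (kap * y) else 0
      rw [if_congr (OmX_congr (hk q0) h') rfl rfl]
      refine if_congr Iff.rfl ?_ rfl
      unfold w4
      refine Finset.prod_congr rfl fun q hqJ => ?_
      congr 1
      refine (ch4_chrP q).per _ _ ?_
      rw [← mul_sub]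
      exact (((dvd_DDq.2 hqJ).mul_left _).trans h').mul_left _
    have hG : Pd r.1 fun v => if r.1 ∣ v then (0 : ℂ) else 1 - ch4 r (kap * v) := by
      intro x y h
      change (if r.1 ∣ x then (0 : ℂ) else 1 - ch4 r (kap * x)) =
        if r.1 ∣ y then 0 else 1 - ch4 r (kap * y)
      have e : r.1 ∣ x ↔ r.1 ∣ y := by
        constructor
        · intro hx
          have := dvd_sub hx h
          rwa [sub_sub_cancel] at this
        · intro hy
          have := dvd_add h hy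
          rwa [sub_add_cancel] at this
      rw [if_congr e rfl rfl]
      refine if_congr Iff.rfl rfl ?_
      congr 1
      refine (ch4_chrP r).per _ _ ?_
      rw [← mul_sub]
      exact h.mul_left _
    have hsr : SM r.1 (fun v => if r.1 ∣ v then (0 : ℂ) else 1 - ch4 r (kap * v)) =
        (Nz r.1 : ℂ) - 1 := by
      have h5 := SM_unit_one r
      have h6 := SM_ch4 r kap
      have h7 := SM_sub (R := ℂ) r.ne_zero (fun v => if r.1 ∣ v then 0 else 1)
        fun v => ch4 r (kap * v)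
      rw [h5, h6, sub_zero] at h7
      rw [← h7]
      refine SM_congr fun v => ?_
      by_cases hv : r.1 ∣ v
      · rw [if_pos hv, if_pos hv, ch4_of_dvd (hv.mul_left _), sub_zero]
      · rw [if_neg hv, if_neg hv]
    have hinner : ∀ b : 𝓞 K, SM r.1 (fun u => if r.1 ∣ b + M * u then (0 : ℂ) else
        1 - ch4 r (kap * (b + M * u))) = (Nz r.1 : ℂ) - 1 := by
      intro b
      have hG' : Pd r.1 fun x => if r.1 ∣ b + x then (0 : ℂ) else 1 - ch4 r (kap * (b + x)) := by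
        intro x y h
        exact hG (b + x) (b + y) (by
          have e : b + x - (b + y) = x - y := by ring
          rwa [e])
      rw [SM_mul r.ne_zero hG' hcM, SM_tr r.ne_zero hG b, hsr]
    have h1 : SO q0 kap (insert r J) (fun y => w4 (insert r J) (kap * y)) =
        SM M fun b => SM r.1 fun u => if OmX q0 kap (insert r J) (b + M * u) then
          w4 (insert r J) (kap * (b + M * u)) else 0 := by
      unfold SO
      rw [hMr]
      exact SM_fib hM0 r.ne_zero hP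
    rw [h1, Finset.prod_insert hr, mul_left_comm, ← ih hq', ← SO_smul]
    unfold SO
    rw [← hM]
    refine SM_congr fun b => ?_
    have hb : ∀ u, OmX q0 kap J (b + M * u) ↔ OmX q0 kap J b := fun u => by
      refine OmX_congr (hk q0) ⟨u, ?_⟩
      rw [← hM]
      ring
    by_cases hbO : OmX q0 kap J b
    · rw [if_pos hbO]
      have h3 : ((Nz r.1 : ℂ) - 1) * w4 J (kap * b) = w4 J (kap * b) *
          SM r.1 fun u => if r.1 ∣ b + M * u then (0 : ℂ) else 1 - ch4 r (kap * (b + M * u)) := by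
        rw [hinner b, mul_comm]
      refine Eq.trans ?_ h3.symm
      have h2 := SM_smul r.ne_zero (w4 J (kap * b)) fun u => if r.1 ∣ b + M * u then (0 : ℂ) else
        1 - ch4 r (kap * (b + M * u))
      simp only [smul_eq_mul] at h2
      rw [← h2]
      refine SM_congr fun u => ?_
      by_cases hu : r.1 ∣ b + M * u
      · rw [if_pos hu, mul_zero, if_neg fun h => ((hOm _).1 h).2 hu]
      · rw [if_neg hu, if_pos ((hOm _).2 ⟨(hb u).2 hbO, hu⟩), w4, Finset.prod_insert hr, mul_comm]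
        congr 1
        unfold w4
        refine Finset.prod_congr rfl fun q hqJ => ?_
        congr 1
        refine (ch4_chrP q).per _ _ ?_
        rw [← mul_sub, add_sub_cancel_left, hM]
        exact (((dvd_DDq.2 hqJ).mul_left _).mul_right _).mul_left _
    · rw [if_neg hbO]
      have h2 : ∀ u, (if OmX q0 kap (insert r J) (b + M * u) then
          w4 (insert r J) (kap * (b + M * u)) else 0) = 0 := fun u =>
        if_neg fun h => hbO ((hb u).1 ((hOm _).1 h).1)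
      rw [SM_congr h2]
      obtain ⟨ι, _, a, -, h3⟩ := SM_def (R := ℂ) r.ne_zero
      rw [h3, Finset.sum_const_zero]

/-! ### Valuations -/

theorem v_n0 : B.valuation (n0 q0 kap) ≤ 1 := by
  unfold n0
  exact v_SO_le fun y _ => (map_one _).le

theorem v_lm4 : B.valuation lm ^ 4 = B.valuation 4 := by
  rw [← map_pow, lm_four, Valuation.map_neg]

theorem v_Nz_sub (q : Pg) :
    B.valuation ((Nz q.1 : ℂ) - 1) ≤ B.valuation lm ^ 4 := by
  obtain ⟨k, hk, -⟩ := nn_eq_Nz q.in4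
  rw [hk, v_lm4]
  have e : ((1 + 4 * k : ℕ) : ℂ) - 1 = 4 * (k : ℂ) := by
    push_cast
    ring
  rw [e, map_mul]
  exact (mul_le_mul' le_rfl (v_nat k)).trans (by rw [mul_one])

/-- the sum of the normalised weights -/
theorem v_sum_wt4_om (hk : ∀ q : Pg, ¬ q.1 ∣ kap) (hq : q0 ∉ J) :
    B.valuation (SO q0 kap J fun y => wt4 J (kap * y)) ≤ (B.valuation lm ^ 3) ^ J.card := by
  have h1 : SO q0 kap J (fun y => wt4 J (kap * y)) =
      n0 q0 kap * ∏ q ∈ J, (((Nz q.1 : ℂ) - 1) / lm) := by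
    have h2 : SO q0 kap J (fun y => wt4 J (kap * y)) =
        (lm ^ J.card)⁻¹ * SO q0 kap J (fun y => w4 J (kap * y)) := by
      rw [← SO_smul]
      refine SO_congr fun y _ => ?_
      rw [wt4]
      ring
    rw [h2, sum_w4_om hk hq, Finset.prod_div_distrib, Finset.prod_const]
    ring
  have hl0 : B.valuation lm ≠ 0 := (Valuation.ne_zero_iff _).2 lm_ne
  rw [h1, map_mul, map_prod]
  refine (mul_le_mul' v_n0 (Finset.prod_le_pow_card _ _ _ fun q _ => ?_)).trans
    (by rw [one_mul])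
  rw [map_div₀, div_le_iff₀ (zero_lt_iff.2 hl0), ← pow_succ]
  exact v_Nz_sub q

/-- `ζ + ζ²`, `ζ = ξ + ξ²` -/
theorem v_zeta_sq (hB : (2 : ℂ)⁻¹ ∉ B) {z : ℂ} (hz : Od z) :
    B.valuation ((xi z + xi z ^ 2) + (xi z + xi z ^ 2) ^ 2 - (xi z + xi (lm ^ 2 * z))) < 1 := by
  have h1 := xi_le hB hz
  have h2 := v_xi_lm hB hz
  have h3 := v_xi_lm hB hz.mul_lm
  have h4 := xi_le hB hz.mul_lm
  have e : (xi z + xi z ^ 2) + (xi z + xi z ^ 2) ^ 2 - (xi z + xi (lm ^ 2 * z)) =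
      2 * (xi z ^ 2 + xi z ^ 3) - (xi (lm * (lm * z)) - xi (lm * z) ^ 2) -
        (xi (lm * z) - xi z ^ 2) * (xi (lm * z) + xi z ^ 2) := by
    have e1 : lm ^ 2 * z = lm * (lm * z) := by ring
    rw [e1]
    ring
  have h5 : ∀ n : ℕ, B.valuation (xi z ^ n) ≤ 1 := fun n => by
    rw [map_pow]
    exact pow_le_one₀ zero_le h1
  rw [e]
  refine Valuation.map_sub_lt _ (Valuation.map_sub_lt _ ?_ h3) ?_
  · rw [map_mul]
    exact mul_lt_one_of_lt_of_le (two_lt hB) ((Valuation.map_add _ _ _).trans (max_le (h5 2) (h5 3)))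
  · rw [map_mul]
    exact mul_lt_one_of_lt_of_le h2 ((Valuation.map_add _ _ _).trans (max_le h4 (h5 2)))

/-- the points -/
theorem OmX.od {y : 𝓞 K} (h : OmX q0 kap J y) : Od (em y / em (q0.1 * DDq J)) :=
  od_divM (qD_in4 q0 J) fun h1 => h.nd0 ((dvd_mul_right _ _).trans h1)

theorem OmX.v_wt (hB : (2 : ℂ)⁻¹ ∉ B) (hk : ∀ q : Pg, ¬ q.1 ∣ kap) {y : 𝓞 K}
    (h : OmX q0 kap J y) : B.valuation (wt4 J (kap * y)) ≤ 1 :=
  v_wt4 hB fun _ hq => h.ndk hk hq

theorem wt4_per {x y : 𝓞 K} (h : q0.1 * DDq J ∣ x - y) : wt4 J (kap * x) = wt4 J (kap * y) := by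
  unfold wt4 w4
  congr 1
  refine Finset.prod_congr rfl fun q hq => ?_
  congr 1
  refine (ch4_chrP q).per _ _ ?_
  rw [← mul_sub]
  exact (((dvd_DDq.2 hq).mul_left _).trans h).mul_left _

theorem pt_congr {f : ℂ → ℂ} (hf : ∀ z l, l ∈ PP.lattice → f (z + l) = f z) {M x y : 𝓞 K}
    (hM : M ≠ 0) (h : M ∣ x - y) : f (em x / em M) = f (em y / em M) := by
  obtain ⟨l, hl, e⟩ := em_divM_per hM h
  rw [e, hf _ _ hl]

/-- **a substitution which keeps the quadratic symbols** -/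
theorem v_sub_mul (hB : (2 : ℂ)⁻¹ ∉ B) (hk : ∀ q : Pg, ¬ q.1 ∣ kap) {u : 𝓞 K}
    (hu : IsCoprime u (q0.1 * DDq J)) (hu0 : c4 q0 u = 0) (hu2 : ∀ q ∈ J, c2 q u = 0) {f : ℂ → ℂ}
    (hf : ∀ z l, l ∈ PP.lattice → f (z + l) = f z) (hf1 : ∀ z, Od z → B.valuation (f z) ≤ 1) :
    B.valuation (SO q0 kap J (fun y => wt4 J (kap * y) * f (em u * (em y / em (q0.1 * DDq J)))) -
      SO q0 kap J (fun y => wt4 J (kap * y) * f (em y / em (q0.1 * DDq J)))) < 1 := by
  have h1 := SO_mul (q0 := q0) (kap := kap) (J := J) hk hu hu0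
    (F := fun y => wt4 J (kap * y) * f (em y / em (q0.1 * DDq J))) (fun x y h _ => by
      change wt4 J (kap * x) * f (em x / em (q0.1 * DDq J)) =
        wt4 J (kap * y) * f (em y / em (q0.1 * DDq J))
      rw [wt4_per h, pt_congr hf (qD_ne q0 J) h])
  rw [← h1, ← SO_sub]
  refine v_SO_lt zero_lt_one fun y hy => ?_
  have hy' := (OmX_mul hk hu hu0).2 hy
  have e1 : em u * (em y / em (q0.1 * DDq J)) = em (u * y) / em (q0.1 * DDq J) := by
    rw [em_mul u y]
    ring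
  rw [e1, ← sub_mul, map_mul]
  refine mul_lt_one_of_lt_of_le ?_ (hf1 _ hy'.od)
  have h2 := Rt_wt4 hB (S := J) (x := kap * y) fun q hq => hy.ndk hk hq
  have h3 := Rt_wt4 hB (S := J) (x := kap * (u * y)) fun q hq => hy'.ndk hk hq
  have h4 : ∏ q ∈ J, c2 q (kap * (u * y)) = ∏ q ∈ J, c2 q (kap * y) := by
    refine Finset.prod_congr rfl fun q hq => ?_
    have e : kap * (u * y) = u * (kap * y) := by ring
    have h5 := hu2 q hq
    unfold c2 at h5 ⊢
    rw [e, c4_mul q ((cop_qD.1 hu).2 q hq) (hy.ndk hk hq), map_add, h5, zero_add]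
  rw [h4] at h3
  have h5 := h2.sub hB h3
  rw [sub_self] at h5
  exact h5.lt

/-- **the sum of `ξ(R) + ξ(lam² R)`** -/
theorem gam4_xi (hB : (2 : ℂ)⁻¹ ∉ B) (h0 : aa q0.1 = 1) (hk : ∀ q : Pg, ¬ q.1 ∣ kap)
    (J : Finset Pg) :
    B.valuation (SO q0 kap J fun y => wt4 J (kap * y) * (xi (em y / em (q0.1 * DDq J)) +
      xi (lm ^ 2 * (em y / em (q0.1 * DDq J))))) < 1 := by
  obtain ⟨s, hs, hs0⟩ : ∃ s : 𝓞 K, (s = 1 ∨ s = -1) ∧ c4 q0 (s * lam ^ 2) = 0 := by
    have hl := lam_not_dvd q0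
    have e : c4 q0 (lam ^ 2) = 2 * c4 q0 lam := by
      rw [c4_pow q0 hl]
      norm_num
    have h2 : ∀ t : ZMod 4, 2 * t = 0 ∨ 2 * t = 2 := by decide
    rcases h2 (c4 q0 lam) with h3 | h3
    · exact ⟨1, Or.inl rfl, by rw [one_mul, e, h3]⟩
    · refine ⟨-1, Or.inr rfl, ?_⟩
      rw [c4_mul q0 (not_dvd_neg_one q0) (fun h => hl (q0.prime.dvd_of_dvd_pow h)), c4_neg_one, e,
        h3]
      have h4 : ∀ n : ZMod 4, md n = 1 → 2 * n + 2 = 0 := by decide
      exact h4 _ h0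
  have hsu : IsUnit s := by
    rcases hs with rfl | rfl
    · exact isUnit_one
    · exact isUnit_one.neg
  have hu : IsCoprime (s * lam ^ 2) (q0.1 * DDq J) := by
    rw [isCoprime_mul_unit_left_left hsu]
    exact (in4_cop_lam (qD_in4 q0 J) 2).symm
  have hu2 : ∀ q ∈ J, c2 q (s * lam ^ 2) = 0 := by
    intro q _
    have hl := lam_not_dvd q
    have hl2 : ¬ q.1 ∣ lam ^ 2 := fun h => hl (q.prime.dvd_of_dvd_pow h)
    have e : md (c4 q (lam ^ 2)) = 0 := by
      rw [c4_pow q hl]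
      have h2 : ∀ t : ZMod 4, md (((2 : ℕ) : ZMod 4) * t) = 0 := by decide
      exact h2 _
    unfold c2
    rcases hs with rfl | rfl
    · rw [one_mul, e]
    · rw [c4_mul q (not_dvd_neg_one q) hl2, c4_neg_one, map_add, e, add_zero]
      have h2 : ∀ t : ZMod 4, md (2 * t) = 0 := by decide
      exact h2 _
  have hper : ∀ z l, l ∈ PP.lattice → xi (z + l) = xi z := fun z l hl =>
    xi_congr (by rwa [add_sub_cancel_left])
  have h1 := v_sub_mul hB hk hu hs0 hu2 hper fun z hz => xi_le hB hz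
  have h2 : ∀ z : ℂ, xi (em (s * lam ^ 2) * z) = xi (lm ^ 2 * z) := by
    intro z
    rw [em_mul, em_pow, em_lam]
    rcases hs with rfl | rfl
    · rw [em_one, one_mul]
    · rw [em_neg, em_one, neg_one_mul, neg_mul, xi_neg]
  simp only [h2] at h1
  have h3 : B.valuation (SO q0 kap J fun y => wt4 J (kap * y) *
      xi (em y / em (q0.1 * DDq J))) ≤ 1 := v_SO_le fun y hy => by
    rw [map_mul]
    exact mul_le_one' (hy.v_wt hB hk) (xi_le hB hy.od)
  have e : (SO q0 kap J fun y => wt4 J (kap * y) * (xi (em y / em (q0.1 * DDq J)) +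
      xi (lm ^ 2 * (em y / em (q0.1 * DDq J))))) =
      (SO q0 kap J (fun y => wt4 J (kap * y) * xi (lm ^ 2 * (em y / em (q0.1 * DDq J)))) -
      SO q0 kap J (fun y => wt4 J (kap * y) * xi (em y / em (q0.1 * DDq J)))) +
      2 * SO q0 kap J (fun y => wt4 J (kap * y) * xi (em y / em (q0.1 * DDq J))) := by
    have h4 : (SO q0 kap J fun y => wt4 J (kap * y) * (xi (em y / em (q0.1 * DDq J)) +
        xi (lm ^ 2 * (em y / em (q0.1 * DDq J))))) =
        SO q0 kap J (fun y => wt4 J (kap * y) * xi (em y / em (q0.1 * DDq J))) +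
        SO q0 kap J (fun y => wt4 J (kap * y) * xi (lm ^ 2 * (em y / em (q0.1 * DDq J)))) := by
      rw [← SO_add]
      exact SO_congr fun y _ => mul_add _ _ _
    rw [h4]
    ring
  rw [e]
  refine Valuation.map_add_lt _ h1 ?_
  rw [map_mul]
  exact mul_lt_one_of_lt_of_le (two_lt hB) h3

/-- **Gam = 0** -/
theorem gam4 (hB : (2 : ℂ)⁻¹ ∉ B) (h0 : aa q0.1 = 1) (hk : ∀ q : Pg, ¬ q.1 ∣ kap)
    (J : Finset Pg) {f : ℂ → ℂ}
    (hf : ∀ z, Od z → B.valuation (f z - (xi z + xi (lm ^ 2 * z))) < 1) :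
    B.valuation (SO q0 kap J fun y => wt4 J (kap * y) * f (em y / em (q0.1 * DDq J))) < 1 := by
  have e : (SO q0 kap J fun y => wt4 J (kap * y) * f (em y / em (q0.1 * DDq J))) =
      (SO q0 kap J fun y => wt4 J (kap * y) * (f (em y / em (q0.1 * DDq J)) -
        (xi (em y / em (q0.1 * DDq J)) + xi (lm ^ 2 * (em y / em (q0.1 * DDq J)))))) +
      (SO q0 kap J fun y => wt4 J (kap * y) * (xi (em y / em (q0.1 * DDq J)) +
        xi (lm ^ 2 * (em y / em (q0.1 * DDq J))))) := by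
    rw [← SO_add]
    exact SO_congr fun y _ => by ring
  rw [e]
  refine Valuation.map_add_lt _ (v_SO_lt zero_lt_one fun y hy => ?_) (gam4_xi hB h0 hk J)
  rw [map_mul, mul_comm]
  exact mul_lt_one_of_lt_of_le (hf _ hy.od) (hy.v_wt hB hk)

/-! ### The sums `GX` -/

theorem GX_SO (g : 𝓞 K → ℂ) (f : ℂ → ℂ) : GX q0 kap g f J =
    SO q0 kap J fun y => g (kap * y) * f (em y / em (q0.1 * DDq J)) := by
  rw [GX_GI]
  rfl

theorem f4_ndvd (k : ZMod 4) (q : Pg) : ¬ q.1 ∣ f4 k := by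
  obtain ⟨n, h, -⟩ := f4_pow k
  rw [h]
  exact fun h1 => lam_not_dvd q (q.prime.dvd_of_dvd_pow h1)

theorem v_GX_lt (hB : (2 : ℂ)⁻¹ ∉ B) (hk : ∀ q : Pg, ¬ q.1 ∣ kap) {f : ℂ → ℂ} {b : B.ValueGroup}
    (hb : 0 < b) (hf : ∀ z, Od z → B.valuation (f z) < b) :
    B.valuation (GX q0 kap (wt4 J) f J) < b := by
  rw [GX_SO]
  refine v_SO_lt hb fun y hy => ?_
  rw [map_mul]
  refine lt_of_le_of_lt (mul_le_mul' (hy.v_wt hB hk) le_rfl) ?_
  rw [one_mul]
  exact hf _ hy.od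

theorem v_GX_le (hB : (2 : ℂ)⁻¹ ∉ B) (hk : ∀ q : Pg, ¬ q.1 ∣ kap) {f : ℂ → ℂ} {b : B.ValueGroup}
    (hf : ∀ z, Od z → B.valuation (f z) ≤ b) : B.valuation (GX q0 kap (wt4 J) f J) ≤ b := by
  rw [GX_SO]
  refine v_SO_le fun y hy => ?_
  rw [map_mul]
  refine (mul_le_mul' (hy.v_wt hB hk) le_rfl).trans ?_
  rw [one_mul]
  exact hf _ hy.od

/-- the weights `w4` and `wt4` -/
theorem GX_wt4 (f : ℂ → ℂ) : GX q0 kap (w4 J) f J = lm ^ J.card * GX q0 kap (wt4 J) f J := by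
  rw [GX_SO, GX_SO, ← SO_smul]
  refine SO_congr fun y _ => ?_
  rw [wt4]
  have h := pow_ne_zero J.card lm_ne
  field_simp

/-- **Gam = 0** -/
theorem gamX (hB : (2 : ℂ)⁻¹ ∉ B) (h0 : aa q0.1 = 1) (hk : ∀ q : Pg, ¬ q.1 ∣ kap)
    (J : Finset Pg) {f : ℂ → ℂ}
    (hf : ∀ z, Od z → B.valuation (f z - (xi z + xi (lm ^ 2 * z))) < 1) :
    B.valuation (GX q0 kap (wt4 J) f J) < 1 := by
  rw [GX_SO]
  exact gam4 hB h0 hk J hf

/-- the sum of the weights -/
theorem GX_w4_one (hk : ∀ q : Pg, ¬ q.1 ∣ kap) (hq : q0 ∉ J) :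
    GX q0 kap (w4 J) (fun _ => 1) J = n0 q0 kap * ∏ q ∈ J, ((Nz q.1 : ℂ) - 1) := by
  rw [GX_SO, ← sum_w4_om hk hq]
  exact SO_congr fun y _ => mul_one _

theorem v_GX_wt4_one (hk : ∀ q : Pg, ¬ q.1 ∣ kap) (hq : q0 ∉ J) :
    B.valuation (GX q0 kap (wt4 J) (fun _ => 1) J) ≤ (B.valuation lm ^ 3) ^ J.card := by
  rw [GX_SO]
  refine le_of_eq_of_le ?_ (v_sum_wt4_om hk hq)
  congr 1
  exact SO_congr fun y _ => mul_one _

/-- the number of the classes modulo `q0` with trivial symbol is an odd integer -/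
theorem n0_nat (h0 : aa q0.1 = 1) (hk : ∀ q : Pg, ¬ q.1 ∣ kap) :
    ∃ n : ℕ, Odd n ∧ n0 q0 kap = (n : ℂ) ∧ Nz q0.1 = 1 + 4 * n := by
  obtain ⟨n, hn, hn'⟩ := nn_eq_Nz q0.in4
  refine ⟨n, ?_, ?_, hn⟩
  · have h1 : md (n : ZMod 4) = 1 := by
      rw [← hn']
      exact h0
    rw [md_natCast] at h1
    rw [← Nat.not_even_iff_odd, ← ZMod.natCast_eq_zero_iff_even, h1]
    decide
  · have h1 := n0_eq (kap := kap) h0 hk
    rw [hn] at h1
    push_cast at h1
    linear_combination (1 / 4 : ℂ) * h1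

theorem v_n0_sub (h0 : aa q0.1 = 1) (hk : ∀ q : Pg, ¬ q.1 ∣ kap) :
    B.valuation (n0 q0 kap - 1) ≤ B.valuation 2 := by
  obtain ⟨n, ⟨m, hm⟩, hn, -⟩ := n0_nat (kap := kap) h0 hk
  have e : n0 q0 kap - 1 = 2 * (m : ℂ) := by
    rw [hn, hm]
    push_cast
    ring
  rw [e, map_mul]
  exact (mul_le_mul' le_rfl (v_nat m)).trans (by rw [mul_one])

end

end Pool.Agent.Lib.MP_1a91b9_ntQ
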