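import Pool.Agent.Lib.MP_1a91b9_ntQ.A.Gam4

/-!
# Quartic twists, part A, file HH4: the sums of `xi` over the classes of symbol `0`

`HHX q0 T J = ∑ (∏ p ∈ T, ch4 p (kap c)) xi (c / (q0 D_J))`, `kap = f4 0`:
* `HH_step` = (A1) (exact Euler factors, `T` not empty), `HH_empty` (the same for `T = ∅`);
* `FX_xi_lam` = (5.2), the multiplication by `lam ^ n`;
* `Rt_GX_xi` = (A0), `Rt_HH_empty` = (A2).
-/

set_option autoImplicit false

namespace Pool.Agent.Lib.MP_1a91b9_ntQ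

open NumberField Pool.Agent.Lib.MP_1a91b9_nuT Pool.Agent.Lib.MP_1a91b9_nuT.S3
  Pool.Agent.Lib.MP_1a91b9_nuT.Ell

noncomputable section

variable {B : ValuationSubring ℂ} {q0 : Pg} {kap : 𝓞 K} {T J : Finset Pg}

theorem cop_f4 (k : ZMod 4) (q0 : Pg) (J : Finset Pg) : IsCoprime (f4 k) (q0.1 * DDq J) :=
  cop_qD.2 ⟨f4_ndvd k q0, fun q _ => f4_ndvd k q⟩

theorem cop_lam (q0 : Pg) (J : Finset Pg) (n : ℕ) : IsCoprime (lam ^ n) (q0.1 * DDq J) :=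
  cop_qD.2 ⟨fun h => lam_not_dvd q0 (q0.prime.dvd_of_dvd_pow h),
    fun q _ h => lam_not_dvd q (q.prime.dvd_of_dvd_pow h)⟩

/-! ### The constant function -/

theorem PdL_one : PdL fun _ => (1 : ℂ) := fun _ _ _ => rfl

theorem Wt_one : Wt 0 fun _ => (1 : ℂ) := fun _ _ => by rw [e4_zero, one_mul]

theorem TrF_one (q : Pg) : TrF q (Nz q.1 : ℂ) fun _ => (1 : ℂ) := fun _ _ => by
  rw [mul_one]
  exact SM_one q

theorem bk_zero_empty (q0 : Pg) (x : 𝓞 K) : bk q0 0 ∅ x = 0 := by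
  rw [bk, Finset.sum_empty, Finset.sum_empty, add_zero, zero_mul, zero_mul, sub_zero]

/-- the sum of the characters of a set which is not empty -/
theorem FX_one (h0 : aa q0.1 = 1) (hk : IsCoprime kap (q0.1 * DDq J)) (hq : q0 ∉ J) (hT : T ⊆ J)
    (hT' : T.Nonempty) : FX q0 kap (fun _ => 1) T J = 0 := by
  obtain ⟨p, hp⟩ := hT'
  obtain ⟨y, hy1, hy2⟩ := exists_c4 p 1
  obtain ⟨u, -, hu1, hu2⟩ := exists_unit4 (insert q0 J) p y
  have hpJ := hT hp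
  have hpq : q0 ≠ p := fun h => hq (h ▸ hpJ)
  have hup : ¬ p.1 ∣ u := fun h => by
    have h1 := dvd_sub h hu2
    have e : u - (u - y) = y := by ring
    rw [e] at h1
    exact hy1 h1
  have hnd : ∀ q ∈ insert q0 J, q ≠ p → ¬ q.1 ∣ u := fun q hq hne h => by
    have h1 := dvd_sub h (hu1 q hq hne)
    have e : u - (u - 1) = 1 := by ring
    rw [e] at h1
    exact q.prime.not_isUnit (isUnit_of_dvd_one h1)
  have hc : ∀ q ∈ insert q0 J, q ≠ p → c4 q u = 0 := fun q hq hne => by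
    rw [c4_congr q (hnd q hq hne) (hu1 q hq hne), c4_one]
  have hcop : IsCoprime u (q0.1 * DDq J) := by
    refine cop_qD.2 ⟨hnd q0 (Finset.mem_insert_self _ _) hpq, fun q hqJ => ?_⟩
    by_cases hne : q = p
    · rw [hne]
      exact hup
    · exact hnd q (Finset.mem_insert_of_mem hqJ) hne
  have hb : bk q0 0 T u = 1 := by
    rw [bk, hc q0 (Finset.mem_insert_self _ _) hpq, mul_zero, sub_zero,
      Finset.sum_eq_single p (fun q hqT hne => hc q (Finset.mem_insert_of_mem (hT hqT)) hne)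
        (fun h => absurd hp h), c4_congr p hup hu2, hy2]
  have h1 := FX_scale h0 hk hcop hT PdL_one Wt_one
  rw [hb] at h1
  have h2 : (1 - e4 (-1)) * FX q0 kap (fun _ => 1) T J = 0 := by
    linear_combination h1
  refine (mul_eq_zero.1 h2).resolve_left fun h3 => ?_
  have h4 : e4 (-1) = e4 0 := by
    rw [e4_zero]
    linear_combination -h3
  have h5 : ¬ (-1 : ZMod 4) = 0 := by decide
  exact h5 (e4_inj h4)

/-- the number of the classes -/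
theorem FX_one_empty (h0 : aa q0.1 = 1) (hk : IsCoprime kap (q0.1 * DDq J)) (hq : q0 ∉ J) :
    FX q0 kap (fun _ => 1) ∅ J = n0 q0 kap * ∏ q ∈ J, ((Nz q.1 : ℂ) - 1) := by
  rw [FX_prod h0 PdL_one Wt_one (fun q => (Nz q.1 : ℂ)) TrF_one (Finset.empty_subset J) hq hk,
    Finset.sdiff_empty, mul_comm]
  congr 1
  · rw [FX, GX_SO, n0]
    exact SO_congr fun y _ => by rw [cT_empty, mul_one]
  · refine Finset.prod_congr rfl fun q _ => ?_
    rw [bk_zero_empty, e4_zero]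

/-! ### Affine functions of `X` -/

theorem FX_aff (a b : ℂ) (f : ℂ → ℂ) : FX q0 kap (fun z => a * f z + b) T J =
    a * FX q0 kap f T J + b * FX q0 kap (fun _ => 1) T J := by
  have h1 := GX_fcmul (q0 := q0) (kap := kap) (J := J) (g := cT T) (f := f) a
  have h2 := GX_fcmul (q0 := q0) (kap := kap) (J := J) (g := cT T) (f := fun _ => 1) b
  have h3 := GX_fadd (q0 := q0) (kap := kap) (J := J) (g := cT T) (f := fun z => a * f z) (f' := fun _ => b * 1)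
  rw [mul_one] at h2 h3
  rw [FX, FX, FX, h3, h1, h2]

theorem xi_aff (w z : ℂ) : xi (w * z) = (2 * rh)⁻¹ * X (w * z) + (-1 / 2) := by
  have h := rh_ne
  rw [xi]
  field_simp
  ring

/-- the sum of `xi (w z)` -/
theorem FX_xi (w : ℂ) : FX q0 kap (fun z => xi (w * z)) T J =
    (2 * rh)⁻¹ * FX q0 kap (fun z => X (w * z)) T J - FX q0 kap (fun _ => 1) T J / 2 := by
  have h : (fun z => xi (w * z)) = fun z => (2 * rh)⁻¹ * X (w * z) + (-1 / 2) := by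
    funext z
    exact xi_aff w z
  rw [h, FX_aff]
  ring

theorem FX_xi_one : FX q0 kap xi T J = (2 * rh)⁻¹ * FX q0 kap X T J -
    FX q0 kap (fun _ => 1) T J / 2 := by
  have h := FX_xi (q0 := q0) (kap := kap) (T := T) (J := J) 1
  simp only [one_mul] at h
  exact h

/-! ### The sums -/

/-- the sums of `xi` -/
def HHX (q0 : Pg) (T J : Finset Pg) : ℂ := FX q0 (f4 0) xi T J

theorem HH_X (h0 : aa q0.1 = 1) (hq : q0 ∉ J) (hT : T ⊆ J) (hT' : T.Nonempty) :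
    HHX q0 T J = (2 * rh)⁻¹ * FX q0 (f4 0) X T J := by
  rw [HHX, FX_xi_one, FX_one h0 (cop_f4 0 q0 J) hq hT hT', zero_div, sub_zero]

theorem hh_one : hh 1 = 2 := by
  unfold hh
  decide

theorem hh_zero : hh 0 = 0 := by
  unfold hh
  decide

/-- (A1) -/
theorem HH_step (h0 : aa q0.1 = 1) {q : Pg} (hT : T ⊆ J) (hT' : T.Nonempty) (hqJ : q ∉ J)
    (hq0 : q0 ∉ insert q J) :
    HHX q0 T (insert q J) = (em q.1 ^ 2 - e4 (bX q0 1 T q.1)) * HHX q0 T J := by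
  have hq0J : q0 ∉ J := fun h => hq0 (Finset.mem_insert_of_mem h)
  have hne : q ≠ q0 := fun h => hq0 (h ▸ Finset.mem_insert_self _ _)
  rw [HH_X h0 hq0 (hT.trans (Finset.subset_insert _ _)) hT', HH_X h0 hq0J hT hT', bX_bk, hh_one,
    FX_insert h0 (cop_f4 0 q0 _) hT hqJ hne PdL_X Wt_X (TrF_X q)]
  ring

/-- (A1) for several primes -/
theorem HH_prod (h0 : aa q0.1 = 1) (hT : T ⊆ J) (hT' : T.Nonempty) (hq0 : q0 ∉ J) :
    HHX q0 T J = (∏ q ∈ J \ T, (em q.1 ^ 2 - e4 (bX q0 1 T q.1))) * HHX q0 T T := by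
  have hq0T : q0 ∉ T := fun h => hq0 (hT h)
  rw [HH_X h0 hq0 hT hT', HH_X h0 hq0T (Finset.Subset.refl T) hT',
    FX_prod h0 PdL_X Wt_X (fun q => em q.1 ^ 2) TrF_X hT hq0 (cop_f4 0 q0 J)]
  have h1 : ∏ q ∈ J \ T, (em q.1 ^ 2 - e4 (bX q0 1 T q.1)) =
      ∏ q ∈ J \ T, (em q.1 ^ 2 - e4 (bk q0 2 T q.1)) :=
    Finset.prod_congr rfl fun q _ => by rw [bX_bk, hh_one]
  rw [h1]
  ring

theorem bX_one_empty (h0 : aa q0.1 = 1) (x : 𝓞 K) : bX q0 1 ∅ x = 2 * c4 q0 x := by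
  rw [bX, e0X, hh_one, Finset.sum_empty, Finset.sum_empty, add_zero, add_zero]
  have key : ∀ n c : ZMod 4, md n = 1 → -(2 * n) * c = 2 * c := by decide
  exact key _ _ h0

theorem bX_zero_empty (q0 : Pg) (x : 𝓞 K) : bX q0 0 ∅ x = 0 := by
  rw [bX, e0X, hh_zero, Finset.sum_empty, Finset.sum_empty, add_zero, add_zero, zero_mul, neg_zero,
    zero_mul]

/-- the exponent for `h = 1` -/
theorem bX_one (h0 : aa q0.1 = 1) (T : Finset Pg) (x : 𝓞 K) :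
    bX q0 1 T x = bX q0 0 T x + 2 * c4 q0 x := by
  rw [bX, bX, e0X, e0X, hh_one, hh_zero, zero_add]
  have key : ∀ n c : ZMod 4, md n = 1 → -(2 * n) * c = 2 * c := by decide
  linear_combination key _ (c4 q0 x) h0

/-- the value for `T = ∅` -/
theorem HH_empty (h0 : aa q0.1 = 1) (hq0 : q0 ∉ J) :
    HHX q0 ∅ J = ((n0 q0 (f4 0) + 2 * HHX q0 ∅ ∅) * ∏ q ∈ J, (em q.1 ^ 2 - e4 (2 * c4 q0 q.1)) -
      n0 q0 (f4 0) * ∏ q ∈ J, ((Nz q.1 : ℂ) - 1)) / 2 := by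
  have h1 : ∏ q ∈ J \ ∅, (em q.1 ^ 2 - e4 (bk q0 2 ∅ q.1)) =
      ∏ q ∈ J, (em q.1 ^ 2 - e4 (2 * c4 q0 q.1)) := by
    rw [Finset.sdiff_empty]
    refine Finset.prod_congr rfl fun q _ => ?_
    rw [← bX_one_empty h0, bX_bk, hh_one]
  have h2 : HHX q0 ∅ ∅ = (2 * rh)⁻¹ * FX q0 (f4 0) X ∅ ∅ - n0 q0 (f4 0) / 2 := by
    rw [HHX, FX_xi_one, FX_one_empty h0 (cop_f4 0 q0 ∅) (Finset.notMem_empty _), Finset.prod_empty,
      mul_one]
  rw [h2, HHX, FX_xi_one, FX_one_empty h0 (cop_f4 0 q0 J) hq0,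
    FX_prod h0 PdL_X Wt_X (fun q => em q.1 ^ 2) TrF_X (Finset.empty_subset J) hq0 (cop_f4 0 q0 J), h1]
  ring

/-! ### (5.2) -/

theorem bk_pow (r : ZMod 4) {x : 𝓞 K} (hx : IsCoprime x (q0.1 * DDq J)) (hT : T ⊆ J) (n : ℕ) :
    bk q0 r T (x ^ n) = n * bk q0 r T x := by
  have h1 := cop_qD.1 hx
  rw [bk, bk, c4_pow q0 h1.1, Finset.sum_congr rfl fun p hp => c4_pow p (h1.2 p (hT hp)) n,
    ← Finset.mul_sum]
  ring

/-- the sum of `X (lam ^ n z)` -/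
theorem FX_X_lam (h0 : aa q0.1 = 1) (hT : T ⊆ J) (n : ℕ) :
    FX q0 (f4 0) (fun z => X (lm ^ n * z)) T J =
      e4 (-(n * bX q0 1 T lam)) * FX q0 (f4 0) X T J := by
  have h1 := FX_scale h0 (cop_f4 0 q0 J) (cop_lam q0 J n) hT PdL_X Wt_X
  have h2 : em (lam ^ n) = lm ^ n := by rw [em_pow, em_lam]
  have h3 := bk_pow (q0 := q0) (J := J) (T := T) 2 (x := lam) (by
    have h := cop_lam q0 J 1
    rwa [pow_one] at h) hT n
  rw [h2, h3] at h1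
  rw [bX_bk, hh_one]
  exact h1

/-- (5.2), `T` not empty -/
theorem FX_xi_lam (h0 : aa q0.1 = 1) (hq : q0 ∉ J) (hT : T ⊆ J) (hT' : T.Nonempty) (n : ℕ) :
    FX q0 (f4 0) (fun z => xi (lm ^ n * z)) T J = e4 (-(n * bX q0 1 T lam)) * HHX q0 T J := by
  rw [FX_xi, FX_one h0 (cop_f4 0 q0 J) hq hT hT', FX_X_lam h0 hT, HH_X h0 hq hT hT']
  ring

/-- (5.2), `T = ∅` -/
theorem FX_xi_lam_empty (h0 : aa q0.1 = 1) (hq : q0 ∉ J) (n : ℕ) :
    FX q0 (f4 0) (fun z => xi (lm ^ n * z)) ∅ J = e4 (2 * n * c4 q0 lam) * HHX q0 ∅ J +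
      (e4 (2 * n * c4 q0 lam) - 1) / 2 * (n0 q0 (f4 0) * ∏ q ∈ J, ((Nz q.1 : ℂ) - 1)) := by
  have e : -((n : ZMod 4) * bX q0 1 ∅ lam) = 2 * n * c4 q0 lam := by
    rw [bX_one_empty h0]
    have key : ∀ n c : ZMod 4, -(n * (2 * c)) = 2 * n * c := by decide
    exact key _ _
  rw [FX_xi, FX_X_lam h0 (Finset.empty_subset J), HHX, FX_xi_one,
    FX_one_empty h0 (cop_f4 0 q0 J) hq, e]
  ring

/-! ### Valuations -/

theorem v_emX (x : 𝓞 K) : B.valuation (em x) ≤ 1 := by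
  rw [ValuationSubring.valuation_le_one_iff]
  obtain ⟨m, n, rfl⟩ := exists_coords4 x
  rw [em_add, em_mul, em_intCast, em_intCast, em_iO']
  have hz : zt ∈ B := by
    rw [← ValuationSubring.valuation_le_one_iff, v_zt]
  exact B.add_mem _ _ (intCast_mem B m) (B.mul_mem _ _ (intCast_mem B n) hz)

theorem two_lm : (2 : ℂ) = -zt * lm ^ 2 := by
  rw [lm_sq]
  linear_combination 2 * zt_sq

theorem em_sub_oneX (q : Pg) : ∃ t : 𝓞 K, em q.1 - 1 = lm ^ 3 * em t := by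
  obtain ⟨t, ht⟩ := q.2.2
  refine ⟨t, ?_⟩
  have h4 := congrArg em ht
  rw [em_sub, em_one, em_mul, em_pow, em_lam] at h4
  exact h4

theorem em_sq_sub_one (q : Pg) : ∃ t : 𝓞 K, em q.1 ^ 2 - 1 = lm ^ 5 * em t := by
  obtain ⟨t, ht⟩ := em_sub_oneX q
  refine ⟨t * (-iO + lam * t), ?_⟩
  rw [em_mul, em_add, em_neg, em_mul, em_lam, em_iO']
  have h1 : em q.1 = 1 + lm ^ 3 * em t := by linear_combination ht
  rw [h1]
  linear_combination (lm ^ 3 * em t) * two_lm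

theorem one_sub_e4_two (c : ZMod 4) : (1 - e4 (2 * c)) / lm ^ 2 = -zt * ((md c).val : ℂ) := by
  have hl := pow_ne_zero 2 lm_ne
  have h0 : (2 * 0 : ZMod 4) = 0 := by decide
  have h1 : (2 * 1 : ZMod 4) = 2 := by decide
  have h2 : (2 * 2 : ZMod 4) = 0 := by decide
  have h3 : (2 * 3 : ZMod 4) = 2 := by decide
  have e0 : ((md 0).val : ℂ) = 0 := by rw [md_zero, ZMod.val_zero, Nat.cast_zero]
  have e1 : ((md 1).val : ℂ) = 1 := by rw [md_one, ZMod.val_one, Nat.cast_one]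
  have e2 : ((md 2).val : ℂ) = 0 := by rw [md_two, ZMod.val_zero, Nat.cast_zero]
  have e3 : ((md 3).val : ℂ) = 1 := by rw [md_three, ZMod.val_one, Nat.cast_one]
  have k1 : (1 - -1 : ℂ) / lm ^ 2 = -zt := by
    rw [div_eq_iff hl]
    linear_combination two_lm
  rcases e4_cases c with rfl | rfl | rfl | rfl
  · rw [h0, e4_zero, e0, sub_self, zero_div, mul_zero]
  · rw [h1, e4_two, e1, mul_one, k1]
  · rw [h2, e4_zero, e2, sub_self, zero_div, mul_zero]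
  · rw [h3, e4_two, e3, mul_one, k1]

/-- the Euler factor for `T = ∅`, `h = 1` -/
theorem eul2_empty (q : Pg) (c : ZMod 4) : ∃ t : 𝓞 K,
    (em q.1 ^ 2 - e4 (2 * c)) / lm ^ 2 = lm ^ 3 * em t - zt * ((md c).val : ℂ) := by
  obtain ⟨t, ht⟩ := em_sq_sub_one q
  refine ⟨t, ?_⟩
  have h1 := one_sub_e4_two c
  have hl := pow_ne_zero 2 lm_ne
  rw [div_eq_iff hl] at h1 ⊢
  linear_combination ht + h1

theorem Rt_ztX (hB : (2 : ℂ)⁻¹ ∉ B) : Rt B zt 1 := by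
  refine Rt.one.congr ?_
  have e : zt - 1 = -(1 - zt) := by ring
  rw [e, Valuation.map_neg]
  exact v_one_zt hB

theorem Rt_val (hB : (2 : ℂ)⁻¹ ∉ B) (y : ZMod 2) : Rt B (y.val : ℂ) y := by
  have h := Rt.natCast hB y.val
  rwa [ZMod.natCast_zmod_val] at h

theorem Rt_eul2 (hB : (2 : ℂ)⁻¹ ∉ B) (q : Pg) (c : ZMod 4) :
    Rt B ((em q.1 ^ 2 - e4 (2 * c)) / lm ^ 2) (md c) := by
  obtain ⟨t, ht⟩ := eul2_empty q c
  have e : md c = 0 - 1 * md c := by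
    rw [one_mul, zero_sub, ZMod.neg_eq_self_mod_two]
  rw [ht, e]
  refine (Rt.of_lt ?_).sub hB ((Rt_ztX hB).mul hB ((Rt_val hB _).congr ?_))
  · rw [map_mul, map_pow]
    exact mul_lt_one_of_lt_of_le (pow_lt_one₀ zero_le (v_lm_lt hB) three_ne_zero) (v_emX t)
  · rw [← e, sub_self, map_zero]
    exact one_pos

theorem v_FX_le {f : ℂ → ℂ} (hk : ∀ q : Pg, ¬ q.1 ∣ kap) (hT : T ⊆ J)
    (hf : ∀ z, Od z → B.valuation (f z) ≤ 1) : B.valuation (FX q0 kap f T J) ≤ 1 := by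
  rw [FX, GX_SO]
  refine v_SO_le fun y hy => ?_
  rw [map_mul, cT_of fun p hp => hy.ndk hk (hT hp), v_e4, one_mul]
  exact hf _ hy.od

theorem v_HHX_le (hB : (2 : ℂ)⁻¹ ∉ B) (hT : T ⊆ J) : B.valuation (HHX q0 T J) ≤ 1 :=
  v_FX_le (f4_ndvd 0) hT fun _ hz => xi_le hB hz

theorem v_GX_xi (hB : (2 : ℂ)⁻¹ ∉ B) (n : ℕ) :
    B.valuation (GX q0 (f4 0) (wt4 J) (fun z => xi (lm ^ n * z)) J) ≤ 1 :=
  v_GX_le hB (f4_ndvd 0) fun z hz => by
    refine xi_le hB ?_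
    exact hz.pow n

/-- (A0) -/
theorem Rt_GX_xi (hB : (2 : ℂ)⁻¹ ∉ B) (hJ : J.Nonempty) :
    Rt B (GX q0 (f4 0) (w4 J) xi J / lm ^ (J.card - 1)) 0 := by
  obtain ⟨m, hm⟩ : ∃ m, J.card = m + 1 := ⟨J.card - 1, (Nat.succ_pred_eq_of_pos hJ.card_pos).symm⟩
  have hl := pow_ne_zero m lm_ne
  have e : GX q0 (f4 0) (w4 J) xi J / lm ^ (J.card - 1) = lm * GX q0 (f4 0) (wt4 J) xi J := by
    rw [GX_wt4, hm, Nat.add_sub_cancel, pow_succ]
    field_simp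
  rw [e]
  refine Rt.of_lt ?_
  rw [map_mul]
  exact mul_lt_one_of_lt_of_le (v_lm_lt hB) (v_GX_le hB (f4_ndvd 0) fun z hz => xi_le hB hz)

theorem Rt_n0 (hB : (2 : ℂ)⁻¹ ∉ B) (h0 : aa q0.1 = 1) (hk : ∀ q : Pg, ¬ q.1 ∣ kap) :
    Rt B (n0 q0 kap) 1 :=
  Rt.one.congr ((v_n0_sub h0 hk).trans_lt (two_lt hB))

/-- (A2) -/
theorem Rt_HHX_empty (hB : (2 : ℂ)⁻¹ ∉ B) (h0 : aa q0.1 = 1) (hq0 : q0 ∉ J) (hJ : J.Nonempty) :
    Rt B (HHX q0 ∅ J / lm ^ (J.card - 1)) (if J.card = 1 then ∑ q ∈ J, s4 q0 q else 0) := by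
  obtain ⟨m, hm⟩ : ∃ m, J.card = m + 1 := ⟨J.card - 1, (Nat.succ_pred_eq_of_pos hJ.card_pos).symm⟩
  have hl := pow_ne_zero m lm_ne
  have hl1 := lm_ne
  have hz := zt_ne0
  have h1 : ∏ q ∈ J, (em q.1 ^ 2 - e4 (2 * c4 q0 q.1)) =
      lm ^ (2 * (m + 1)) * ∏ q ∈ J, ((em q.1 ^ 2 - e4 (2 * c4 q0 q.1)) / lm ^ 2) := by
    rw [Finset.prod_div_distrib, Finset.prod_const, hm, ← pow_mul, mul_div_cancel₀]
    exact pow_ne_zero _ lm_ne
  obtain ⟨P, hP, hP'⟩ : ∃ P : ℂ, ∏ q ∈ J, ((em q.1 ^ 2 - e4 (2 * c4 q0 q.1)) / lm ^ 2) = P ∧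
      Rt B P (∏ q ∈ J, s4 q0 q) := ⟨_, rfl, Rt.prod hB J fun q _ => Rt_eul2 hB q _⟩
  obtain ⟨N, hN, hN'⟩ : ∃ N : ℂ, ∏ q ∈ J, ((Nz q.1 : ℂ) - 1) = N ∧
      B.valuation N ≤ B.valuation lm ^ (4 * (m + 1)) := by
    refine ⟨_, rfl, ?_⟩
    rw [map_prod, pow_mul, ← hm]
    exact Finset.prod_le_pow_card _ _ _ fun q _ => v_Nz_sub q
  have e : HHX q0 ∅ J / lm ^ (J.card - 1) =
      (n0 q0 (f4 0) + 2 * HHX q0 ∅ ∅) * zt * (lm ^ m * P) - n0 q0 (f4 0) * (N / (2 * lm ^ m)) := by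
    have e2 : lm ^ (2 * (m + 1)) = 2 * zt * lm ^ m * lm ^ m := by
      have e3 : 2 * (m + 1) = m + m + 2 := by ring
      rw [e3, pow_add, pow_add, lm_sq]
      ring
    rw [HH_empty h0 hq0, h1, hP, hN, hm, Nat.add_sub_cancel, e2]
    field_simp
  have hU : Rt B ((n0 q0 (f4 0) + 2 * HHX q0 ∅ ∅) * zt) 1 := by
    have h2 : Rt B (n0 q0 (f4 0) + 2 * HHX q0 ∅ ∅) 1 := by
      refine (Rt_n0 hB h0 (f4_ndvd 0)).congr ?_
      rw [add_sub_cancel_left, map_mul]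
      exact mul_lt_one_of_lt_of_le (two_lt hB) (v_HHX_le hB (Finset.Subset.refl _))
    have h3 := h2.mul hB (Rt_ztX hB)
    rwa [mul_one] at h3
  have hV : Rt B (n0 q0 (f4 0) * (N / (2 * lm ^ m))) 0 := by
    refine Rt.of_lt ?_
    rw [map_mul]
    refine (mul_le_of_le_one_left' v_n0).trans_lt ?_
    rw [map_div₀, map_mul, map_pow, ← v_lm_sq, ← pow_add, div_lt_one₀ (pow_pos v_lm_pos _)]
    exact hN'.trans_lt (pow_lt_pow_right_of_lt_one₀ v_lm_pos (v_lm_lt hB) (by omega))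
  have hW : Rt B (lm ^ m * P) (if J.card = 1 then ∑ q ∈ J, s4 q0 q else 0) := by
    rcases Nat.eq_zero_or_pos m with rfl | hmpos
    · obtain ⟨q, rfl⟩ := Finset.card_eq_one.1 hm
      rw [Finset.card_singleton, if_pos rfl, Finset.sum_singleton, pow_zero, one_mul]
      rwa [Finset.prod_singleton] at hP'
    · rw [if_neg (by omega)]
      refine Rt.of_lt ?_
      rw [map_mul, map_pow]
      exact mul_lt_one_of_lt_of_le (pow_lt_one₀ zero_le (v_lm_lt hB) hmpos.ne') hP'.le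
  have h5 := (hU.mul hB hW).sub hB hV
  rw [one_mul, sub_zero] at h5
  rw [e]
  exact h5

end

end Pool.Agent.Lib.MP_1a91b9_ntQ
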