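import Pool.Agent.Lib.MP_1a91b9_ntQ.A.Props
import Pool.Agent.Lib.MP_1a91b9_ntQ.A.Fac4
import Pool.Agent.Lib.MP_1a91b9_ntQ.A.For4

/-!
# Quartic twists, part A, file Ind4: the residue classes of the normalised values

`nu4 k T = La4 k T / (La4 k ∅ * lm ^ (|T| + ek k))`. Modulo a place above `2`, `nu4 k S` is the
determinant of the matrix `N_k(S)` for `k` odd, and the coefficient `C(S)` for `k` even, `S`
nonempty.
-/

set_option autoImplicit false

namespace Pool.Agent.Lib.MP_1a91b9_ntQ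

open NumberField Pool.Agent.Lib.MP_1a91b9_nuT Pool.Agent.Lib.MP_1a91b9_nuT.S3
  Pool.Agent.Lib.MP_1a91b9_nuT.Ell

noncomputable section

/-- the normalised value -/
def nu4 (k : ZMod 4) (T : Finset Pg) : ℂ := La4 k T / (La4 k ∅ * lm ^ (T.card + ek k))

/-- the condition on the matrices; `md k = 1` : `k` odd -/
def Good4 (k : ZMod 4) (S : Finset Pg) : Prop :=
  if md k = 0 then C4 s4 (fun q => aa q.1) S ≠ 0 else
    (N4 s4 (fun q => md k * aa q.1) S).det ≠ 0

theorem ek_odd {k : ZMod 4} (hk : md k ≠ 0) : ek k = 0 := by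
  have h : ∀ k : ZMod 4, md k ≠ 0 → k ≠ 0 ∧ k ≠ 2 := by decide
  obtain ⟨h0, h2⟩ := h k hk
  rw [ek, if_neg h0, if_neg h2]

theorem ek_even {k : ZMod 4} (hk : md k = 0) : 1 ≤ ek k := by
  have h : ∀ k : ZMod 4, md k = 0 → k = 0 ∨ k = 2 := by decide
  rcases h k hk with rfl | rfl <;> decide

theorem nu4_empty {k : ZMod 4} (hk : md k ≠ 0) : nu4 k ∅ = 1 := by
  rw [nu4, ek_odd hk, Finset.card_empty, pow_zero, mul_one, div_self (La4_empty_ne k)]

theorem nu4_term (k : ZMod 4) {S T : Finset Pg} (hT : T ⊆ S) :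
    (-1) ^ T.card * (La4 k T * ∏ q ∈ S \ T, (em q.1 - X4 k T q.1)) /
        (La4 k ∅ * lm ^ (S.card + ek k)) =
      (-1) ^ T.card * (nu4 k T * ∏ q ∈ S \ T, ((em q.1 - X4 k T q.1) / lm)) := by
  have hl : (lm : ℂ) ≠ 0 := lm_ne
  have h0 := La4_empty_ne k
  have hc : S.card + ek k = (T.card + ek k) + (S \ T).card := by
    rw [Finset.card_sdiff_of_subset hT]
    have := Finset.card_le_card hT
    omega
  rw [Finset.prod_div_distrib, Finset.prod_const, nu4, hc, pow_add lm (T.card + ek k)]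
  have h1 : (lm : ℂ) ^ (T.card + ek k) ≠ 0 := pow_ne_zero _ hl
  have h2 : (lm : ℂ) ^ (S \ T).card ≠ 0 := pow_ne_zero _ hl
  field_simp

section
variable {B : ValuationSubring ℂ}

theorem Rt_sgn (hB : (2 : ℂ)⁻¹ ∉ B) (n : ℕ) : Rt B ((-1) ^ n) 1 := by
  have h := ((Rt.one (B := B)).neg hB).pow hB n
  rwa [one_pow] at h

/-- the term of a proper subset -/
theorem Rt_term4 (hB : (2 : ℂ)⁻¹ ∉ B) (k : ZMod 4) {S T : Finset Pg} {y : ZMod 2}
    (h : Rt B (nu4 k T) y) :
    Rt B ((-1) ^ T.card * (nu4 k T * ∏ q ∈ S \ T, ((em q.1 - X4 k T q.1) / lm)))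
      (y * ∏ q ∈ S \ T, (md k * aa q.1 + ∑ p ∈ T, s4 q p)) := by
  have h1 := (Rt_sgn hB T.card).mul hB (h.mul hB (Rt.prod hB (S \ T) fun q hq =>
    Rt_fac hB k (T := T) (q := q) (Finset.mem_sdiff.1 hq).2))
  rwa [one_mul] at h1

/-- **`k` odd**: the class of the normalised value is the determinant. -/
theorem nu4_odd (hB : (2 : ℂ)⁻¹ ∉ B) {k : ZMod 4} (hk : md k ≠ 0) (S : Finset Pg) :
    Rt B (nu4 k S) (N4 s4 (fun q => md k * aa q.1) S).det := by
  classical
  induction S using Finset.strongInduction with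
  | H S ih =>
  rcases S.eq_empty_or_nonempty with rfl | hS
  · rw [nu4_empty hk, N4_empty]
    exact Rt.one
  · have h1 := Rt.of_lt (props hB k hS)
    rw [Finset.sum_div, Finset.sum_congr rfl fun T hT => nu4_term k (Finset.mem_powerset.1 hT),
      ← Finset.add_sum_erase _ _ (Finset.mem_powerset_self S), Finset.sdiff_self,
      Finset.prod_empty, mul_one] at h1
    have h2 : Rt B (∑ T ∈ S.powerset.erase S, (-1) ^ T.card *
        (nu4 k T * ∏ q ∈ S \ T, ((em q.1 - X4 k T q.1) / lm)))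
        (∑ T ∈ S.powerset.erase S, (N4 s4 (fun q => md k * aa q.1) T).det *
          ∏ q ∈ S \ T, (md k * aa q.1 + ∑ p ∈ T, s4 q p)) := by
      refine Rt.sum hB _ fun T hT => ?_
      rw [Finset.mem_erase, Finset.mem_powerset] at hT
      exact Rt_term4 hB k (ih T (hT.2.ssubset_of_ne hT.1))
    have h3 := (Rt_sgn hB S.card).mul hB (h1.sub hB h2)
    rw [add_sub_cancel_right, ← mul_assoc, ← mul_pow, neg_one_mul, neg_neg, one_pow, one_mul,
      one_mul, zero_sub, ZMod.neg_eq_self_mod_two] at h3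
    rw [N4_rec s4 (fun q => md k * aa q.1) hS]
    exact h3

/-- the term of the empty set, `k` even -/
theorem Rt_empty4 (hB : (2 : ℂ)⁻¹ ∉ B) {k : ZMod 4} (hk : md k = 0) {S : Finset Pg}
    (hS : S.Nonempty) :
    Rt B ((-1) ^ (∅ : Finset Pg).card * (La4 k ∅ * ∏ q ∈ S \ ∅, (em q.1 - X4 k ∅ q.1)) /
        (La4 k ∅ * lm ^ (S.card + ek k))) (if S.card = 1 then ∑ q ∈ S, aa q.1 else 0) := by
  have hl : (lm : ℂ) ≠ 0 := lm_ne
  have h0 := La4_empty_ne k
  have hn := ek_even hk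
  have hf : ∀ q : Pg, Rt B ((em q.1 - X4 k ∅ q.1) / lm ^ (ek k + 1)) (aa q.1) := by
    have h : ∀ k : ZMod 4, md k = 0 → k = 0 ∨ k = 2 := by decide
    intro q
    rcases h k hk with rfl | rfl
    · exact Rt_fac_zero hB q
    · exact Rt_fac_two hB q
  have hc := hS.card_pos
  have e1 : (-1) ^ (∅ : Finset Pg).card * (La4 k ∅ * ∏ q ∈ S \ ∅, (em q.1 - X4 k ∅ q.1)) /
      (La4 k ∅ * lm ^ (S.card + ek k)) =
      (∏ q ∈ S, ((em q.1 - X4 k ∅ q.1) / lm ^ (ek k + 1))) * lm ^ (ek k * (S.card - 1)) := by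
    rw [Finset.card_empty, pow_zero, one_mul, Finset.sdiff_empty, mul_div_mul_left _ _ h0,
      Finset.prod_div_distrib, Finset.prod_const, ← pow_mul, div_mul_eq_mul_div,
      div_eq_div_iff (pow_ne_zero _ hl) (pow_ne_zero _ hl), mul_assoc, ← pow_add]
    congr 2
    obtain ⟨m, hm⟩ : ∃ m, S.card = m + 1 := ⟨S.card - 1, by omega⟩
    rw [hm, Nat.add_sub_cancel]
    ring
  have h1 := Rt.prod hB S fun q _ => hf q
  rw [e1]
  split_ifs with h2
  · obtain ⟨q, rfl⟩ := Finset.card_eq_one.1 h2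
    rw [Finset.prod_singleton, Finset.prod_singleton] at h1
    rw [Finset.prod_singleton, Finset.sum_singleton, Finset.card_singleton, Nat.sub_self, mul_zero,
      pow_zero, mul_one]
    exact h1
  · have h3 : Rt B (lm ^ (ek k * (S.card - 1))) 0 := by
      have h4 : 0 < ek k * (S.card - 1) := Nat.mul_pos (by omega) (by omega)
      have h5 := (Rt.of_lt (v_lm_lt hB)).pow hB (ek k * (S.card - 1))
      rwa [zero_pow h4.ne'] at h5
    have h4 := h1.mul hB h3
    rwa [mul_zero] at h4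

/-- **`k` even**: the class of the normalised value is the coefficient. -/
theorem nu4_even (hB : (2 : ℂ)⁻¹ ∉ B) {k : ZMod 4} (hk : md k = 0) {S : Finset Pg}
    (hS0 : S.Nonempty) : Rt B (nu4 k S) (C4 s4 (fun q => aa q.1) S) := by
  classical
  induction S using Finset.strongInduction with
  | H S ih =>
  have h1 := Rt.of_lt (props hB k hS0)
  have hm : (∅ : Finset Pg) ∈ S.powerset := Finset.empty_mem_powerset S
  have hm2 : S ∈ S.powerset.erase ∅ :=
    Finset.mem_erase.2 ⟨hS0.ne_empty, Finset.mem_powerset_self S⟩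
  rw [Finset.sum_div, ← Finset.add_sum_erase _ _ hm, Finset.sum_congr rfl fun T hT =>
    nu4_term k (Finset.mem_powerset.1 (Finset.mem_erase.1 hT).2),
    ← Finset.add_sum_erase _ _ hm2, Finset.sdiff_self, Finset.prod_empty, mul_one] at h1
  have h2 : Rt B (∑ T ∈ (S.powerset.erase ∅).erase S, (-1) ^ T.card *
      (nu4 k T * ∏ q ∈ S \ T, ((em q.1 - X4 k T q.1) / lm)))
      (∑ T ∈ (S.powerset.erase ∅).erase S, C4 s4 (fun q => aa q.1) T *
        ∏ q ∈ S \ T, ∑ p ∈ T, s4 q p) := by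
    refine Rt.sum hB _ fun T hT => ?_
    rw [Finset.mem_erase, Finset.mem_erase, Finset.mem_powerset] at hT
    have h3 := Rt_term4 hB k (S := S) (ih T (hT.2.2.ssubset_of_ne hT.1)
      (Finset.nonempty_iff_ne_empty.2 hT.2.1))
    simp only [hk, zero_mul, zero_add] at h3
    exact h3
  have h3 := (Rt_sgn hB S.card).mul hB ((h1.sub hB (Rt_empty4 hB hk hS0)).sub hB h2)
  rw [add_sub_cancel_left, add_sub_cancel_right, ← mul_assoc, ← mul_pow, neg_one_mul, neg_neg,
    one_pow, one_mul, one_mul, zero_sub, ZMod.neg_eq_self_mod_two, sub_eq_add_neg,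
    ZMod.neg_eq_self_mod_two] at h3
  rw [C4_rec s4 (fun q => aa q.1) hS0]
  exact h3

end

/-- **The L-value is not zero if the condition on the matrices holds.** -/
theorem L4_ne {k : ZMod 4} {S : Finset Pg} (h : Good4 k S) : L4 k S 1 ≠ 0 := by
  obtain ⟨B, hB⟩ := exists_B2
  have h1 : nu4 k S ≠ 0 := by
    unfold Good4 at h
    split_ifs at h with hk
    · have hS : S.Nonempty := by
        rw [Finset.nonempty_iff_ne_empty]
        rintro rfl
        apply h
        rw [C4, Pool.Agent.Lib.MP_1a91b9_ntK.CZ]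
        exact Finset.sum_eq_zero fun r _ => absurd r.2 (Finset.notMem_empty _)
      exact (nu4_even hB hk hS).ne_zero h
    · exact (nu4_odd hB hk S).ne_zero h
  intro h2
  apply h1
  rw [nu4, La4, h2, mul_zero, zero_div]

end

end Pool.Agent.Lib.MP_1a91b9_ntQ
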