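import Pool.Agent.Lib.MP_1a91b9_ntQ.A.PsEA
import Pool.Agent.Lib.MP_1a91b9_ntQ.A.EPr
import Pool.Agent.Lib.MP_1a91b9_ntQ.A.SysE

/-!
# Quartic twists, part A, class (E), file PsE: the residues of the function `V4` and of the sum of a pair
-/

set_option autoImplicit false
set_option linter.unusedSectionVars false

namespace Pool.Agent.Lib.MP_1a91b9_ntQ

open NumberField Pool.Agent.Lib.MP_1a91b9_nuT Pool.Agent.Lib.MP_1a91b9_nuT.S3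
  Pool.Agent.Lib.MP_1a91b9_nuT.Ell

noncomputable section

/-- a fourth root of `lm ^ 3` -/
def kq [CD] : ℂ := (lm ^ 3) ^ (1 / 4 : ℂ)

theorem kq_pow [CD] : kq ^ 4 = lm ^ 3 := by
  have h : (1 / 4 : ℂ) = ((4 : ℕ) : ℂ)⁻¹ := by
    push_cast
    norm_num
  rw [kq, h]
  exact Complex.cpow_nat_inv_pow _ (by norm_num)

variable [CD] [hq : Q4]

theorem kq_ne : kq ≠ 0 := by
  intro h
  have h1 := kq_pow
  rw [h, zero_pow (by norm_num)] at h1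
  exact pow_ne_zero 3 (lm_ne (hq := hq)) h1.symm

variable {B : ValuationSubring ℂ}

/-- the fourth roots -/
theorem PsE_kq (hB : (2 : ℂ)⁻¹ ∉ B) : Cg B (wq ^ 3 / kq) 1 := by
  refine Cg.of_sq hB (map_one _).le ?_
  rw [one_pow]
  refine Cg.of_sq hB (map_one _).le ?_
  have e : ((wq ^ 3 / kq) ^ 2) ^ 2 = 1 := by
    have h1 := kq_pow
    have h2 := wq_pow (hq := hq)
    have h3 := pow_ne_zero 3 (lm_ne (hq := hq))
    have e1 : ((wq ^ 3 / kq) ^ 2) ^ 2 = (wq ^ 4) ^ 3 / kq ^ 4 := by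
      rw [div_pow, div_pow]
      congr 1
      · ring
      · ring
    rw [e1, h1, h2, div_self h3]
  rw [e, one_pow]
  exact Cg.refl (map_one _).le

theorem Cg.sq_add (hB : (2 : ℂ)⁻¹ ∉ B) {a b : ℂ} (ha : B.valuation a ≤ 1) (hb : B.valuation b ≤ 1) :
    Cg B ((a + b) ^ 2) (a ^ 2 + b ^ 2) := by
  have e : (a + b) ^ 2 = (a ^ 2 + b ^ 2) + 2 * (a * b) := by ring
  rw [e]
  exact (Cg.refl (v_add_le (v_pow_le ha 2) (v_pow_le hb 2))).add_lt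
    (v_mul_lt (two_lt hB) (v_mul_le ha hb))

theorem PsE_zt {z : ℂ} (h : Od z) : Od (zt * z) := by
  obtain ⟨⟨N, hN, h1⟩, h2⟩ := h
  refine ⟨⟨N, hN, ?_⟩, fun n h3 => h2 n ?_⟩
  · have e : em N * (zt * z) = zt * (em N * z) := by ring
    rw [e]
    exact zt_mul_mem h1
  · have e : lm ^ n * (zt * z) = zt * (lm ^ n * z) := by ring
    rw [e] at h3
    exact zt_mem_iff.1 h3

theorem PsE_tE {z : ℂ} (h : Od z) (k : ZMod 4) : Od (tE k * z) := by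
  unfold tE
  split
  · have e : -zt * z = -(zt * z) := by ring
    rw [e]
    exact (PsE_zt h).neg
  · rwa [one_mul]

theorem PsE_lm_pe (n : ℕ) : lm ^ n * pe ^ n = 1 := by
  rw [← mul_pow, lm_mul_pe, one_pow]

theorem PsE_od {Q : ℂ} (h : Od Q) : Od (pe ^ 7 + Q) := by
  rw [add_comm]
  refine h.add (n := 7) ?_
  rw [PsE_lm_pe]
  exact one_mem

/-- `xi` and the torsion of order a power of `lm` -/
theorem Cg_xi_lm (hB : (2 : ℂ)⁻¹ ∉ B) {z : ℂ} (h : Od z) : Cg B (xi (lm * z)) (xi z ^ 2) :=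
  ⟨xi_le hB h.mul_lm, v_pow_le (xi_le hB h) 2, v_xi_lm hB h⟩

theorem Cg_xi_pow (hB : (2 : ℂ)⁻¹ ∉ B) {z : ℂ} (h : Od z) (n : ℕ) :
    Cg B (xi (lm ^ n * z)) (xi z ^ 2 ^ n) := by
  induction n with
  | zero =>
    rw [pow_zero, pow_zero, one_mul, pow_one]
    exact Cg.refl (xi_le hB h)
  | succ n ih =>
    have e : lm ^ (n + 1) * z = lm * (lm ^ n * z) := by ring
    have e' : xi z ^ 2 ^ (n + 1) = (xi z ^ 2 ^ n) ^ 2 := by
      rw [← pow_mul, pow_succ]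
    rw [e, e']
    exact (Cg_xi_lm hB (h.pow n)).trans (ih.pow 2)

theorem Cg.of_pow (hB : (2 : ℂ)⁻¹ ∉ B) {x y : ℂ} (hy : B.valuation y ≤ 1) (n : ℕ)
    (h : Cg B (x ^ 2 ^ n) (y ^ 2 ^ n)) : Cg B x y := by
  induction n with
  | zero => rwa [pow_zero, pow_one, pow_one] at h
  | succ n ih =>
    apply ih
    refine Cg.of_sq hB (v_pow_le hy _) ?_
    rw [← pow_mul, ← pow_mul, ← pow_succ]
    exact h

/-- two points whose difference is killed by a power of `lm` -/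
theorem Cg_xi_congr (hB : (2 : ℂ)⁻¹ ∉ B) {z w : ℂ} (hz : Od z) (hw : Od w) {n : ℕ}
    (h : lm ^ n * z - lm ^ n * w ∈ PP.lattice) : Cg B (xi z) (xi w) := by
  refine Cg.of_pow hB (xi_le hB hw) n ?_
  have h1 := Cg_xi_pow hB hz n
  rw [xi_congr h] at h1
  exact h1.symm.trans (Cg_xi_pow hB hw n)

theorem Cg_xi_i (hB : (2 : ℂ)⁻¹ ∉ B) {z : ℂ} (hz : Od z) : Cg B (xi (zt * z)) (xi z + 1) := by
  refine ⟨xi_le hB (PsE_zt hz), v_add_le (xi_le hB hz) (map_one _).le, ?_⟩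
  rw [← sub_sub]
  exact v_xi_i hB hz

/-- `xi + xi²` is invariant -/
theorem Cg_ze_i (hB : (2 : ℂ)⁻¹ ∉ B) {z : ℂ} (hz : Od z) :
    Cg B (xi (zt * z) + xi (zt * z) ^ 2) (xi z + xi z ^ 2) := by
  have h := Cg_xi_i hB hz
  have h1 := h.add (h.pow 2)
  refine h1.trans ?_
  have e : xi z + 1 + (xi z + 1) ^ 2 = (xi z + xi z ^ 2) + 2 * (xi z + 1) := by ring
  rw [e]
  have hx := xi_le hB hz
  exact (Cg.refl (v_add_le hx (v_pow_le hx 2))).add_lt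
    (v_mul_lt (two_lt hB) (v_add_le hx (map_one _).le))

/-- the coordinate of the point of the class -/
theorem PsE_xi (hB : (2 : ℂ)⁻¹ ∉ B) (k : ZMod 4) {Q : ℂ} (hQ : Od Q) :
    Cg B (xi (lm ^ 2 * (tE k * (pe ^ 7 + Q))) + xi (lm ^ 2 * (tE k * (pe ^ 7 + Q))) ^ 2)
      (xi (lm ^ 2 * Q) + xi (lm ^ 2 * Q) ^ 2) := by
  have hP := PsE_od hQ
  have h1 : Cg B (xi (lm ^ 2 * (pe ^ 7 + Q))) (xi (lm ^ 2 * Q)) := by
    refine Cg_xi_congr hB (hP.pow 2) (hQ.pow 2) (n := 5) ?_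
    have e : lm ^ 5 * (lm ^ 2 * (pe ^ 7 + Q)) - lm ^ 5 * (lm ^ 2 * Q) = 1 := by
      linear_combination PsE_lm_pe (hq := hq) 7
    rw [e]
    exact one_mem
  have h2 : Cg B (xi (lm ^ 2 * (tE k * (pe ^ 7 + Q))) + xi (lm ^ 2 * (tE k * (pe ^ 7 + Q))) ^ 2)
      (xi (lm ^ 2 * (pe ^ 7 + Q)) + xi (lm ^ 2 * (pe ^ 7 + Q)) ^ 2) := by
    unfold tE
    split
    · have e : lm ^ 2 * (-zt * (pe ^ 7 + Q)) = -(zt * (lm ^ 2 * (pe ^ 7 + Q))) := by ring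
      rw [e, xi_neg]
      exact Cg_ze_i hB (hP.pow 2)
    · rw [one_mul]
      have hx := xi_le hB (hP.pow 2)
      exact Cg.refl (v_add_le hx (v_pow_le hx 2))
  exact h2.trans (h1.add (h1.pow 2))

theorem Cg_xi4 (hB : (2 : ℂ)⁻¹ ∉ B) {z : ℂ} (h : Od z) : Cg B (xi4 z) (xi z) :=
  ⟨xi4_le hB h, xi_le hB h, xi4_xi hB h⟩

/-- the data of a point -/
theorem PsE_data (hB : (2 : ℂ)⁻¹ ∉ B) {io z : ℂ} (hio : io ^ 2 = -1) (hz : Od z) :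
    ∃ u, V4 io z = wq ^ 19 * u ∧ Cg B u 1 := by
  obtain ⟨w, hw⟩ : ∃ w, w = lm ^ 2 * z := ⟨_, rfl⟩
  have hOw : Od w := hw ▸ hz.pow 2
  have h1 : 2 * (lm * w) ∉ PP.lattice := hOw.mul_lm.two
  have hX : X (lm ^ 2 * w) ^ 2 - 1 = 2 * zt * X (lm ^ 2 * w) * X (lm ^ 3 * w) := by
    have h2 := X_lm (hOw.pow 2).two
    have e : lm * (lm ^ 2 * w) = lm ^ 3 * w := by ring
    rw [e] at h2
    linear_combination -h2
  obtain ⟨ρ, r1, -, cρ⟩ := PsEA_rho hB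
  have h2w := two_wq (hq := hq)
  have key : ∀ v : ℂ, Od v → ∃ a, X v = zt + wq ^ 6 * a ∧ B.valuation a ≤ 1 := by
    intro v hv
    refine ⟨ρ - zt * wq ^ 2 * xi4 v, ?_, ?_⟩
    · rw [X_xi4, r1]
      linear_combination xi4 v * h2w
    · exact v_sub_le cρ.le (v_mul_le (v_mul_le v_zt.le (v_wq_pow_lt hB (by norm_num)).le)
        (xi4_le hB hv))
  obtain ⟨a, ha, va⟩ := key _ (hOw.pow 2)
  obtain ⟨a2, ha2, va2⟩ := key _ (hOw.pow 3)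
  obtain ⟨j1, hj1, cj⟩ := PsEA_j hB sq2_sq hio (kE_sq h1) (by rw [pE_sq h1, kE_sq h1])
    (by rw [mE_sq h1, kE_sq h1]) ha va ha2 va2 hX
  have hV := PO_pe4_sq hio (hz.pow 2).two
  rw [← hw] at hV
  refine PsEA_U hB sq2_sq cj (U := V4 io z) ?_
  rw [V4, hV, jE, hj1]

/-- the values of the constants, `k` even or odd -/
theorem PsE_cases (k : ZMod 4) :
    (∃ ε e : ℂ, ((ε = 1 ∧ e = 1) ∨ (ε = -1 ∧ e = 0)) ∧
      (e + 1 - if md k = 0 then (1 : ℂ) else 0) = 2 * e ∧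
      ∀ Q : ℂ, Od Q → PairE ε (lm ^ 2 * (tE k * (pe ^ 7 + Q))) (lm ^ 2 * (tE k * (pe ^ 7 - Q)))) := by
  have h2 := lm_sq (hq := hq)
  have h5 : 2 * pe ^ 5 = -(zt * pe ^ 3) := by
    have h3 := lm_mul_pe (hq := hq)
    have h4 : lm ^ 2 * pe ^ 2 = 1 := PsE_lm_pe 2
    linear_combination (-(zt * pe ^ 3)) * h4 + (zt * pe ^ 5) * h2 + (2 * pe ^ 5) * zt_sq
  have h7 : lm ^ 2 * pe ^ 7 = pe ^ 5 := by
    linear_combination pe ^ 5 * PsE_lm_pe (hq := hq) 2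
  by_cases hk : md k = 0
  · refine ⟨-1, 0, Or.inr ⟨rfl, rfl⟩, ?_, fun Q hQ => ?_⟩
    · rw [if_pos hk]
      ring
    · have hO := (PsE_tE (PsE_od hQ) k).pow 3
      have ht : tE k = -zt := by
        unfold tE
        rw [if_pos hk]
      have e : lm ^ 3 * (tE k * (pe ^ 7 + Q)) = lm * (lm ^ 2 * (tE k * (pe ^ 7 + Q))) := by ring
      rw [e] at hO
      have h := pairE0 hO.two
      have e1 : -(lm ^ 2 * (tE k * (pe ^ 7 + Q)) + pe ^ 3) = lm ^ 2 * (tE k * (pe ^ 7 - Q)) := by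
        rw [ht]
        linear_combination (2 * zt) * h7 + zt * h5 - pe ^ 3 * zt_sq
      rwa [e1] at h
  · refine ⟨1, 1, Or.inl ⟨rfl, rfl⟩, ?_, fun Q hQ => ?_⟩
    · rw [if_neg hk]
      ring
    · have hO := (PsE_tE (PsE_od hQ) k).pow 3
      have ht : tE k = 1 := by
        unfold tE
        rw [if_neg hk]
      have e : lm ^ 3 * (tE k * (pe ^ 7 + Q)) = lm * (lm ^ 2 * (tE k * (pe ^ 7 + Q))) := by ring
      rw [e] at hO
      have h := pairE1 hO.two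
      have e1 : -(lm ^ 2 * (tE k * (pe ^ 7 + Q)) + zt * pe ^ 3) = lm ^ 2 * (tE k * (pe ^ 7 - Q)) := by
        rw [ht]
        linear_combination (-2 : ℂ) * h7 - h5
      rwa [e1] at h

/-- (5a) -/
theorem v_V4 (hB : (2 : ℂ)⁻¹ ∉ B) (k : ZMod 4) {Q : ℂ} (hQ : Od Q) :
    B.valuation (V4 (sE k) (tE k * (pe ^ 7 + Q)) / (lm ^ 4 * kq) - 1) < 1 := by
  obtain ⟨u, hu, cu⟩ := PsE_data hB (sE_sq k) (PsE_tE (PsE_od hQ) k)
  have h := cu.mul (PsE_kq hB)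
  rw [mul_one] at h
  have e : V4 (sE k) (tE k * (pe ^ 7 + Q)) / (lm ^ 4 * kq) = u * (wq ^ 3 / kq) := by
    have h1 := wq_ne (hq := hq)
    have h2 := kq_ne (hq := hq)
    rw [hu, ← wq_pow]
    field_simp
  rw [e]
  exact h.lt

/-- (5d): **the sum over a pair** -/
theorem v_V4_pair (hB : (2 : ℂ)⁻¹ ∉ B) (k : ZMod 4) {Q : ℂ} (hQ : Od Q) :
    B.valuation ((V4 (sE k) (tE k * (pe ^ 7 + Q)) + V4 (sE k) (tE k * (pe ^ 7 - Q))) /
      (lm ^ 5 * kq) - ((if md k = 0 then 1 else 0) + xi (lm ^ 2 * Q) + xi (lm ^ 2 * Q) ^ 2)) < 1 := by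
  have hQ' : Od (-Q) := hQ.neg
  obtain ⟨z, hzd⟩ : ∃ z, z = tE k * (pe ^ 7 + Q) := ⟨_, rfl⟩
  obtain ⟨z', hzd'⟩ : ∃ z, z = tE k * (pe ^ 7 - Q) := ⟨_, rfl⟩
  have hz : Od z := hzd ▸ PsE_tE (PsE_od hQ) k
  have hz' : Od z' := by
    rw [hzd', sub_eq_add_neg]
    exact PsE_tE (PsE_od hQ') k
  have hx := PsE_xi hB k hQ
  obtain ⟨ε, e, hε, he, hP⟩ := PsE_cases (hq := hq) k
  obtain ⟨p1, p2, p3⟩ := hP Q hQ
  rw [← hzd, ← hzd'] at p1 p2 p3 ⊢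
  rw [← hzd] at hx
  have hs := sE_sq k
  obtain ⟨u, hu, cu⟩ := PsE_data hB hs hz
  obtain ⟨u', hu', cu'⟩ := PsE_data hB hs hz'
  obtain ⟨w, hw⟩ : ∃ w, w = lm ^ 2 * z := ⟨_, rfl⟩
  have hOw : Od w := hw ▸ hz.pow 2
  have hOw' : Od (lm ^ 2 * z') := hz'.pow 2
  have h1 : 2 * (lm * w) ∉ PP.lattice := hOw.mul_lm.two
  have hX : X (lm ^ 2 * w) ^ 2 - 1 = 2 * zt * X (lm ^ 2 * w) * X (lm ^ 3 * w) := by
    have h2 := X_lm (hOw.pow 2).two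
    have e : lm * (lm ^ 2 * w) = lm ^ 3 * w := by ring
    rw [e] at h2
    linear_combination -h2
  have hV := PO_pe4_sq hs (hz.pow 2).two
  have hV' := PO_pe4_sq hs (hz'.pow 2).two
  rw [← hw] at hV p1 p2 p3 hx
  obtain ⟨P, hP1, cP⟩ := PsEA_pair hB hε sq2_sq hs (kE_sq h1) (by rw [pE_sq h1, kE_sq h1])
    (by rw [mE_sq h1, kE_sq h1]) (X_xi4 (lm ^ 2 * w)) (X_xi4 (lm ^ 3 * w))
    (xi4_le hB (hOw.pow 2)) (xi4_le hB (hOw.pow 3)) hX p1 p2 (by rw [p3]; ring)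
    (U := V4 (sE k) z) (U' := V4 (sE k) z') (by rw [V4, hV, jE]) (by rw [V4, hV', jE]) hu hu' cu cu'
  obtain ⟨κ, hκ⟩ : ∃ κ : ℂ, κ = if md k = 0 then (1 : ℂ) else 0 := ⟨_, rfl⟩
  have hκ4 : κ ^ 4 = κ ∧ B.valuation κ ≤ 1 := by
    rw [hκ]
    split
    · exact ⟨one_pow 4, (map_one _).le⟩
    · exact ⟨zero_pow (by norm_num), by rw [map_zero]; exact zero_le⟩
  rw [← hκ] at he ⊢
  have ve : B.valuation e ≤ 1 := by
    rcases hε with ⟨-, h⟩ | ⟨-, h⟩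
    · rw [h, map_one]
    · rw [h, map_zero]
      exact zero_le
  have vx := xi_le hB hOw
  have c4 : Cg B (xi4 (lm ^ 2 * w)) (xi w ^ 4) := (Cg_xi4 hB (hOw.pow 2)).trans (by
    have h := Cg_xi_pow hB hOw 2
    rwa [show (2 : ℕ) ^ 2 = 4 by norm_num] at h)
  have c8 : Cg B (xi4 (lm ^ 3 * w)) (xi w ^ 8) := (Cg_xi4 hB (hOw.pow 3)).trans (by
    have h := Cg_xi_pow hB hOw 3
    rwa [show (2 : ℕ) ^ 3 = 8 by norm_num] at h)
  have ce : Cg B (e + 1) κ := by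
    have e1 : e + 1 = κ + 2 * e := by linear_combination he
    rw [e1]
    exact (Cg.refl hκ4.2).add_lt (v_mul_lt (two_lt hB) ve)
  have cP2 : Cg B (P ^ 4) (κ ^ 4 + xi w ^ 4 + xi w ^ 8) := by
    rw [hκ4.1]
    exact cP.trans ((ce.add c4).add c8)
  have cZ : Cg B ((κ + (xi w + xi w ^ 2)) ^ 4) (κ ^ 4 + xi w ^ 4 + xi w ^ 8) := by
    have vz : B.valuation (xi w + xi w ^ 2) ≤ 1 := v_add_le vx (v_pow_le vx 2)
    have q1 := Cg.sq_add hB hκ4.2 vz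
    have q2 := q1.pow 2
    have q3 := Cg.sq_add hB (v_pow_le hκ4.2 2) (v_pow_le vz 2)
    have q4 := Cg.sq_add hB vx (v_pow_le vx 2)
    have q5 := q4.pow 2
    have q6 := Cg.sq_add hB (v_pow_le vx 2) (v_pow_le (v_pow_le vx 2) 2)
    have q7 := q5.trans q6
    have q8 := (Cg.refl (v_pow_le (v_pow_le hκ4.2 2) 2)).add q7
    have q9 := (q2.trans q3).trans q8
    have e1 : ((κ + (xi w + xi w ^ 2)) ^ 2) ^ 2 = (κ + (xi w + xi w ^ 2)) ^ 4 := by ring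
    have e2 : (κ ^ 2) ^ 2 + ((xi w ^ 2) ^ 2 + ((xi w ^ 2) ^ 2) ^ 2) = κ ^ 4 + xi w ^ 4 + xi w ^ 8 := by
      ring
    rwa [e1, e2] at q9
  have cP3 : Cg B P (κ + (xi w + xi w ^ 2)) := by
    refine Cg.of_pow hB (v_add_le hκ4.2 (v_add_le vx (v_pow_le vx 2))) 2 ?_
    rw [show (2 : ℕ) ^ 2 = 4 by norm_num]
    exact cP2.trans cZ.symm
  have cP4 : Cg B P (κ + (xi (lm ^ 2 * Q) + xi (lm ^ 2 * Q) ^ 2)) :=
    cP3.trans ((Cg.refl hκ4.2).add hx)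
  have cP5 := cP4.mul (PsE_kq hB)
  rw [mul_one, ← add_assoc] at cP5
  have e : (V4 (sE k) z + V4 (sE k) z') / (lm ^ 5 * kq) = P * (wq ^ 3 / kq) := by
    have h1 := wq_ne (hq := hq)
    have h2 := kq_ne (hq := hq)
    rw [hP1, ← wq_pow]
    field_simp
  rw [e]
  exact cP5.lt

end

end Pool.Agent.Lib.MP_1a91b9_ntQ
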