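import Pool.Agent.Lib.MP_1a91b9_ntQ.A.EV0
import Pool.Agent.Lib.MP_1a91b9_ntQ.A.SysE
import Pool.Agent.Lib.MP_1a91b9_ntQ.A.Res4
import Pool.Agent.Lib.MP_1a91b9_ntQ.A.AvgE
import Pool.Agent.Lib.MP_1a91b9_ntQ.A.PsE

/-!
# Quartic twists, part A, file LaE0: the value for the empty set, class (E)

`LaE k ∅ / (Om * (lm ^ 5 * kq))` is congruent to `xE k`: `1` for `k = 0, 3`, and zero for `k = 1, 2`.
-/

set_option autoImplicit false
set_option linter.unusedSectionVars false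

namespace Pool.Agent.Lib.MP_1a91b9_ntQ

open NumberField Pool.Agent.Lib.MP_1a91b9_nuT Pool.Agent.Lib.MP_1a91b9_nuT.S3
  Pool.Agent.Lib.MP_1a91b9_nuT.Ell

noncomputable section

namespace EV0

section gen
variable [CD] [hq : Q4]

theorem two_pe5_notMem : 2 * pe ^ 5 ∉ PP.lattice := by
  intro h
  apply two_pe4_notMem (hq := hq)
  have h1 := lm_mem_mul h
  have e : lm * (2 * pe ^ 5) = 2 * pe ^ 4 := by
    linear_combination 2 * pe ^ 4 * lm_mul_pe (hq := hq)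
  rwa [e] at h1

theorem lm4_pe7 : lm ^ 4 * pe ^ 7 ∉ PP.lattice := by
  intro h
  apply two_pe4_notMem (hq := hq)
  have h1 := mul_mem (neg_mem zt_mem) (lm_mem_mul h)
  have e : -zt * (lm * (lm ^ 4 * pe ^ 7)) = 2 * pe ^ 4 := by
    have h2 := lm_mul_pe (hq := hq)
    have h3 : lm ^ 5 * pe ^ 7 = lm ^ 2 * pe ^ 4 := by
      have h4 : lm ^ 3 * pe ^ 3 = 1 := by rw [← mul_pow, h2, one_pow]
      linear_combination lm ^ 2 * pe ^ 4 * h4
    linear_combination (-zt) * h3 - zt * pe ^ 4 * lm_sq (hq := hq) - 2 * pe ^ 4 * zt_sq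
  rwa [e] at h1

theorem lm2_pe7 : lm ^ 2 * pe ^ 7 = pe ^ 5 := by
  have h := lm_mul_pe (hq := hq)
  linear_combination (lm * pe ^ 6 + pe ^ 5) * h

theorem lm_pe5 : lm * pe ^ 5 = pe ^ 4 := by
  linear_combination pe ^ 4 * lm_mul_pe (hq := hq)

/-- `h = sg * gg (pe ^ 5)` -/
def hh : ℂ := sg * gg (pe ^ 5)

theorem hh_sq : hh ^ 2 = lm ^ 2 * (1 + sq) := by
  have h := gg_sq two_pe5_notMem
  rw [lm_pe5, X_pe4'] at h
  rw [hh, lm_sq]
  linear_combination sg ^ 2 * h + 2 * zt * (1 + sq) * sg_sq (hq := hq)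

theorem hh_X : hh ^ 2 * X (pe ^ 5) = X (pe ^ 5) ^ 2 - 1 := by
  have h := gg_sq_mul two_pe5_notMem
  rw [hh]
  linear_combination sg ^ 2 * h + (X (pe ^ 5) ^ 2 - 1) * sg_sq (hq := hq)

/-- the abscissa of `pe ^ 5` -/
theorem two_X_pe5 : 2 * X (pe ^ 5) = hh ^ 2 + lm * sq * hh := by
  have h := gg_lm two_pe5_notMem
  rw [lm_pe5, gg_pe4] at h
  have h1 := hh_X (hq := hq)
  have h2 := lm_mul_pe (hq := hq)
  apply mul_right_cancel₀ (X_ne two_pe5_notMem)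
  have h3 : lm * sq * hh * X (pe ^ 5) = X (pe ^ 5) ^ 2 + 1 := by
    rw [hh]
    linear_combination lm * h + (X (pe ^ 5) ^ 2 + 1) * h2
  linear_combination -h1 - h3

/-! ### The two numbers -/

/-- `α = lm + i sq` -/
theorem al_sq : (lm + zt * sq) ^ 2 = lm ^ 3 * (1 + sq) := by
  have h1 := sq_sq (hq := hq)
  have h2 := lm_sq (hq := hq)
  have h3 : (lm : ℂ) = 1 + zt := rfl
  linear_combination zt ^ 2 * h1 + h2 - lm * (1 + sq) * h2 - 2 * zt * h3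

/-- `β = lm + sq` -/
theorem be_sq : (lm + sq) ^ 2 = -(zt * lm ^ 3 * (1 + sq)) := by
  have h1 := sq_sq (hq := hq)
  have h2 := lm_sq (hq := hq)
  have h3 : (lm : ℂ) = 1 + zt := rfl
  linear_combination h1 + h2 + zt * lm * (1 + sq) * h2 + 2 * lm * (1 + sq) * zt_sq - 2 * h3

theorem hh_sq' : hh ^ 2 = 2 * zt * (1 + sq) := by rw [hh_sq, lm_sq]

/-- the value at `pe ^ 7` -/
theorem V_odd {s e : ℂ} (hs : s = e * zt) :
    V4 s (pe ^ 7) * (HH (pe ^ 7) * hh) =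
      -(4 * (1 + e)) * (hh * (lm + zt * sq) + lm * (lm + sq)) := by
  have h := V_eq hs (lm4_pe7 (hq := hq))
  rw [lm2_pe7] at h
  have h1 := two_X_pe5 (hq := hq)
  have h2 := hh_sq' (hq := hq)
  have h3 := sq_sq (hq := hq)
  have h5 : (lm : ℂ) = 1 + zt := rfl
  rw [V4]
  rw [← hh] at h
  rw [h]
  rw [h5] at h1 ⊢
  linear_combination (-2) * (hh + e * sq) * h1 + ((-4) * sq ^ 2 + (4) * e + (4) * sq + 12) * zt_sq +
    ((-2) * e * hh * zt + (-2) * e * hh + (-4) * e * zt + (-4) * zt + 4) * h3 +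
    ((-2) * e * sq + (-2) * sq * zt + (-2) * hh + (-2) * sq + (4) * zt) * h2

theorem lm4_i_pe7 : lm ^ 4 * (-zt * pe ^ 7) ∉ PP.lattice := by
  intro h
  apply lm4_pe7 (hq := hq)
  have h1 := zt_mul_mem h
  have e : zt * (lm ^ 4 * (-zt * pe ^ 7)) = lm ^ 4 * pe ^ 7 := by
    linear_combination (-(lm ^ 4 * pe ^ 7)) * zt_sq
  rwa [e] at h1

/-- the value at `-i pe ^ 7` -/
theorem V_even {s e : ℂ} (hs : s = e * zt) :
    V4 s (-zt * pe ^ 7) * (HH (-zt * pe ^ 7) * (zt * hh)) =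
      -(4 * (1 - e)) * (hh * (lm + sq) + lm * (lm + zt * sq)) := by
  have h := V_eq hs (lm4_i_pe7 (hq := hq))
  have e0 : lm ^ 2 * (-zt * pe ^ 7) = -(zt * pe ^ 5) := by
    linear_combination (-zt) * lm2_pe7 (hq := hq)
  rw [e0, Ell.X_neg, gg_neg, X_i (notMem_of_two_mul two_pe5_notMem), gg_i two_pe5_notMem] at h
  have h1 := two_X_pe5 (hq := hq)
  have h2 := hh_sq' (hq := hq)
  have h3 := sq_sq (hq := hq)
  have h5 : (lm : ℂ) = 1 + zt := rfl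
  have h6 : sg * - -(zt * gg (pe ^ 5)) = zt * hh := by rw [hh]; ring
  rw [h6] at h
  rw [V4, h]
  rw [h5] at h1 ⊢
  linear_combination (2) * (zt * hh + e * sq) * h1 +
    ((-4) * e * hh * sq + (2) * hh ^ 2 * sq + (4) * hh ^ 2 * zt + (-4) * e * sq + (4) * hh * sq +
      (4) * sq ^ 2 + (-4) * e + (4) * hh + (-4)) * zt_sq +
    ((2) * e * hh * zt + (2) * e * hh + (4) * e * zt + (-4) * zt + (-4)) * h3 +
    ((2) * e * sq + (2) * hh * zt + (2) * sq * zt + (-2) * sq + (-4) * zt) * h2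

/-! ### The valuations -/

variable {B : ValuationSubring ℂ}

theorem v_sq : B.valuation sq = B.valuation lm := by
  have h : B.valuation sq ^ 2 = B.valuation lm ^ 2 := by
    rw [← map_pow, sq_sq, v_lm_sq]
  exact (pow_left_inj₀ zero_le zero_le two_ne_zero).1 h

theorem v_x4 (hB : (2 : ℂ)⁻¹ ∉ B) : B.valuation (1 + sq) = 1 := by
  rw [← X_pe4']
  exact v_X_pe4 hB

theorem v_hh (hB : (2 : ℂ)⁻¹ ∉ B) : B.valuation hh = B.valuation lm := by
  have h : B.valuation hh ^ 2 = B.valuation lm ^ 2 := by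
    rw [← map_pow, hh_sq, map_mul, map_pow, v_x4 hB, mul_one]
  exact (pow_left_inj₀ zero_le zero_le two_ne_zero).1 h

theorem v_X_pe5 (hB : (2 : ℂ)⁻¹ ∉ B) : B.valuation (X (pe ^ 5)) = 1 := by
  refine v_quad_unit (p := hh ^ 2) (q := 1) (by linear_combination -hh_X (hq := hq)) ?_ (map_one _)
  rw [map_pow, v_hh hB]
  exact (pow_lt_one₀ zero_le (v_lm_lt hB) two_ne_zero).le

theorem v_X_pe5_sub (hB : (2 : ℂ)⁻¹ ∉ B) : B.valuation (X (pe ^ 5) - 1) < 1 := by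
  refine v_sub_one_of_sq hB (v_X_pe5 hB).le ?_
  rw [← hh_X, map_mul, v_X_pe5 hB, mul_one, map_pow, v_hh hB]
  exact pow_lt_one₀ zero_le (v_lm_lt hB) two_ne_zero

/-- units congruent to one -/
theorem fin {Y U W : ℂ} (hB : (2 : ℂ)⁻¹ ∉ B) (h : Y ^ 4 * U = W) (hU : B.valuation (U - 1) < 1)
    (hW : B.valuation (W - 1) < 1) : B.valuation (Y - 1) < 1 := by
  have one_of : ∀ {x : ℂ}, B.valuation (x - 1) < 1 → B.valuation x = 1 := by
    intro x hx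
    have e : x = 1 + (x - 1) := by ring
    rw [e]
    exact Valuation.map_one_add_of_lt _ hx
  have vU := one_of hU
  have vW := one_of hW
  have vY : B.valuation Y = 1 := by
    have h1 := congrArg B.valuation h
    rw [map_mul, vU, mul_one, vW, map_pow] at h1
    exact (pow_eq_one_iff_of_nonneg zero_le (by norm_num)).1 h1
  have h1 : B.valuation (Y ^ 4 - 1) < 1 := by
    have h2 : B.valuation ((Y ^ 4 - 1) * U) < 1 := by
      have e : (Y ^ 4 - 1) * U = (W - 1) - (U - 1) := by rw [← h]; ring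
      rw [e]
      exact Valuation.map_sub_lt _ hW hU
    rwa [map_mul, vU, mul_one] at h2
  have h3 : B.valuation (Y ^ 2 - 1) < 1 := by
    refine v_sub_one_of_sq hB ?_ ?_
    · rw [map_pow, vY, one_pow]
    · rw [← pow_mul]
      exact h1
  exact v_sub_one_of_sq hB vY.le h3

/-- the product of the three square roots -/
def PPr : ℂ := hh * (lm + zt * sq) * (lm + sq)

theorem PPr_sq : PPr ^ 2 = -(zt * lm ^ 8 * (1 + sq) ^ 3) := by
  have h1 := hh_sq (hq := hq)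
  have h2 := al_sq (hq := hq)
  have h3 := be_sq (hq := hq)
  have e : PPr ^ 2 = hh ^ 2 * (lm + zt * sq) ^ 2 * (lm + sq) ^ 2 := by rw [PPr]; ring
  rw [e, h1, h2, h3]
  ring

theorem v_PPr (hB : (2 : ℂ)⁻¹ ∉ B) : B.valuation PPr = B.valuation lm ^ 4 := by
  have h : B.valuation PPr ^ 2 = (B.valuation lm ^ 4) ^ 2 := by
    rw [← map_pow, PPr_sq, Valuation.map_neg, map_mul, map_mul, map_pow, map_pow, v_zt, v_x4 hB,
      one_pow, mul_one, one_mul, ← pow_mul]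
  exact (pow_left_inj₀ zero_le zero_le two_ne_zero).1 h

theorem E_odd : (hh * (lm + zt * sq) + lm * (lm + sq)) ^ 4 = -1 * lm ^ 13 * (1 + sq) ^ 3 +
    4 * lm ^ 2 * PPr * (lm ^ 4 * ((1 + sq) * (1 + sq - zt)) + PPr) := by
  have h1 := hh_sq (hq := hq)
  have h2 := al_sq (hq := hq)
  have h3 := be_sq (hq := hq)
  have h4 := sq_sq (hq := hq)
  have h5 := lm_sq (hq := hq)
  have h6 : (lm : ℂ) = 1 + zt := rfl
  obtain ⟨al, hal⟩ : ∃ al, al = lm + zt * sq := ⟨_, rfl⟩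
  obtain ⟨be, hbe⟩ : ∃ be, be = lm + sq := ⟨_, rfl⟩
  have hb : (1 + sq - zt) ^ 2 = -(lm ^ 3 * (1 + sq)) := by
    rw [h6]
    linear_combination h4 + (1 + (1 + sq) * (zt + 3)) * zt_sq
  rw [PPr, ← hal, ← hbe]
  rw [← hal] at h2
  rw [← hbe] at h3
  have e2 : (hh * al + lm * be) ^ 2 = lm ^ 5 * (1 + sq) * (1 + sq - zt) +
      2 * lm * (hh * al * be) := by
    linear_combination hh ^ 2 * h2 + lm ^ 2 * h3 + lm ^ 3 * (1 + sq) * h1
  have e4 : (hh * al + lm * be) ^ 4 = ((hh * al + lm * be) ^ 2) ^ 2 := by ring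
  rw [e4, e2]
  linear_combination (lm ^ 5 * (1 + sq)) ^ 2 * hb

theorem E_even : (hh * (lm + sq) + lm * (lm + zt * sq)) ^ 4 = zt * lm ^ 13 * (1 + sq) ^ 3 +
    4 * lm ^ 2 * PPr * (lm ^ 4 * ((1 + sq) * (-(zt * (lm + sq)))) + PPr) := by
  have h1 := hh_sq (hq := hq)
  have h2 := al_sq (hq := hq)
  have h3 := be_sq (hq := hq)
  have h6 : (lm : ℂ) = 1 + zt := rfl
  have hb : 1 - zt * (1 + sq) = -(zt * (lm + sq)) := by
    rw [h6]
    linear_combination zt_sq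
  obtain ⟨al, hal⟩ : ∃ al, al = lm + zt * sq := ⟨_, rfl⟩
  obtain ⟨be, hbe⟩ : ∃ be, be = lm + sq := ⟨_, rfl⟩
  rw [PPr, ← hal, ← hbe]
  rw [← hal] at h2
  rw [← hbe] at h3 hb
  have e2 : (hh * be + lm * al) ^ 2 = lm ^ 5 * (1 + sq) * (-(zt * be)) +
      2 * lm * (hh * al * be) := by
    linear_combination hh ^ 2 * h3 + lm ^ 2 * h2 - zt * lm ^ 3 * (1 + sq) * h1 +
      lm ^ 5 * (1 + sq) * hb
  have e4 : (hh * be + lm * al) ^ 4 = ((hh * be + lm * al) ^ 2) ^ 2 := by ring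
  rw [e4, e2]
  linear_combination (lm ^ 5 * (1 + sq)) ^ 2 * zt ^ 2 * h3 -
    (lm ^ 13 * zt * (1 + sq) ^ 3) * zt_sq

theorem v_x4_sub (hB : (2 : ℂ)⁻¹ ∉ B) : B.valuation ((1 + sq) ^ 3 - 1) < 1 := by
  have e : ((1 + sq) ^ 3 - 1 : ℂ) = sq * ((1 + sq) ^ 2 + (1 + sq) + 1) := by ring
  rw [e, map_mul, v_sq]
  refine mul_lt_one_of_lt_of_le (v_lm_lt hB) ?_
  refine (Valuation.map_add _ _ _).trans (max_le ((Valuation.map_add _ _ _).trans (max_le ?_ ?_)) ?_)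
  · rw [map_pow, v_x4 hB, one_pow]
  · exact (v_x4 hB).le
  · exact (map_one _).le

/-- the fourth power -/
theorem v_E4 (hB : (2 : ℂ)⁻¹ ∉ B) {E c T : ℂ}
    (h : E ^ 4 = c * lm ^ 13 * (1 + sq) ^ 3 + 4 * lm ^ 2 * PPr * (lm ^ 4 * T + PPr))
    (hc : B.valuation (c - 1) < 1) (hT : B.valuation T ≤ 1) :
    B.valuation (E ^ 4 / lm ^ 13 - 1) < 1 := by
  have hl : (lm : ℂ) ^ 13 ≠ 0 := pow_ne_zero _ lm_ne
  have e : E ^ 4 / lm ^ 13 - 1 = (c - 1) * (1 + sq) ^ 3 + ((1 + sq) ^ 3 - 1) +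
      4 * lm ^ 2 * PPr * (lm ^ 4 * T + PPr) / lm ^ 13 := by
    rw [h, add_div, mul_assoc c, mul_comm (lm ^ 13) ((1 + sq) ^ 3), ← mul_assoc,
      mul_div_cancel_right₀ _ hl]
    ring
  obtain ⟨l, hl'⟩ : ∃ l, l = B.valuation lm := ⟨_, rfl⟩
  have hl0 : 0 < l := hl' ▸ v_lm_pos
  have hl1 : l < 1 := hl' ▸ v_lm_lt hB
  rw [e]
  refine Valuation.map_add_lt _ (Valuation.map_add_lt _ ?_ (v_x4_sub hB)) ?_
  · rw [map_mul, map_pow, v_x4 hB, one_pow, mul_one]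
    exact hc
  · rw [map_div₀, map_mul, map_mul, map_mul, map_pow, map_pow, v_four, v_PPr hB, ← hl']
    have h1 : B.valuation (lm ^ 4 * T + PPr) ≤ l ^ 4 := by
      refine (Valuation.map_add _ _ _).trans (max_le ?_ ?_)
      · rw [map_mul, map_pow, ← hl']
        exact mul_le_of_le_one_right zero_le hT
      · rw [v_PPr hB, ← hl']
    have h2 : l ^ 4 * l ^ 2 * l ^ 4 * B.valuation (lm ^ 4 * T + PPr) ≤ l ^ 14 := by
      calc l ^ 4 * l ^ 2 * l ^ 4 * B.valuation (lm ^ 4 * T + PPr) ≤ l ^ 4 * l ^ 2 * l ^ 4 * l ^ 4 :=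
            mul_le_mul' le_rfl h1
        _ = l ^ 14 := by rw [← pow_add, ← pow_add, ← pow_add]
    rw [div_lt_iff₀ (pow_pos hl0 13), one_mul]
    exact h2.trans_lt (pow_lt_pow_right_of_lt_one₀ hl0 hl1 (by norm_num))

/-! ### The residues -/

theorem Rt_iff {z : ℂ} : Rt B z 1 ↔ B.valuation (z - 1) < 1 := by
  unfold Rt
  rw [ZMod.val_one]
  simp

theorem Rt_lm (hB : (2 : ℂ)⁻¹ ∉ B) : Rt B lm 0 := Rt.of_lt (v_lm_lt hB)

theorem Rt_zt (hB : (2 : ℂ)⁻¹ ∉ B) : Rt B zt 1 := by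
  have e : zt = lm - 1 := by
    have h : (lm : ℂ) = 1 + zt := rfl
    rw [h]
    ring
  rw [e]
  have h := (Rt_lm hB).sub hB (Rt.one (B := B))
  have e1 : (0 - 1 : ZMod 2) = 1 := by decide
  rwa [e1] at h

theorem Rt_x4 (hB : (2 : ℂ)⁻¹ ∉ B) : Rt B (1 + sq) 1 := by
  have h := Rt.one.add hB (Rt.of_lt (B := B) (z := sq) (by rw [v_sq]; exact v_lm_lt hB))
  rwa [add_zero] at h

theorem Rt_X_pe5 (hB : (2 : ℂ)⁻¹ ∉ B) : Rt B (X (pe ^ 5)) 1 := Rt_iff.2 (v_X_pe5_sub hB)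

/-- the unit factor -/
theorem Rt_U (hB : (2 : ℂ)⁻¹ ∉ B) {x : ℂ} (hx : x = X (pe ^ 5) ∨ x = -X (pe ^ 5)) :
    Rt B ((x + 1) ^ 2 / lm ^ 2 * (1 + sq) ^ 2) 1 := by
  have hl : (lm : ℂ) ^ 2 ≠ 0 := pow_ne_zero _ lm_ne
  have h1 := hh_X (hq := hq)
  rw [hh_sq] at h1
  have h2 := lm_sq (hq := hq)
  have Rx : Rt B x 1 := by
    rcases hx with rfl | rfl
    · exact Rt_X_pe5 hB
    · have h := (Rt_X_pe5 hB).neg hB
      exact h
  have e : (x + 1) ^ 2 / lm ^ 2 = (1 + sq) * X (pe ^ 5) - zt * (x + 1) := by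
    have h3 : x ^ 2 = X (pe ^ 5) ^ 2 := by
      rcases hx with rfl | rfl
      · rfl
      · ring
    rw [div_eq_iff hl]
    linear_combination h3 - h1 + zt * (x + 1) * h2 + 2 * (x + 1) * zt_sq
  rw [e]
  have h3 := (((Rt_x4 hB).mul hB (Rt_X_pe5 hB)).sub hB ((Rt_zt hB).mul hB (Rx.add hB Rt.one))).mul hB
    ((Rt_x4 hB).pow hB 2)
  have e1 : (((1 : ZMod 2) * 1 - 1 * (1 + 1)) * 1 ^ 2) = 1 := by decide
  rwa [e1] at h3

/-- from the identity `V a h = - 8 E` to the residue -/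
theorem Rt_fin (hB : (2 : ℂ)⁻¹ ∉ B) {V a h' E c T t x : ℂ} (hx : x = X (pe ^ 5) ∨ x = -X (pe ^ 5))
    (ha : a ^ 2 = -4 * (x + 1)) (hh' : h' ^ 4 = hh ^ 4) (hV : V * (a * h') = -8 * E)
    (hE : E ^ 4 = c * lm ^ 13 * (1 + sq) ^ 3 + 4 * lm ^ 2 * PPr * (lm ^ 4 * T + PPr))
    (hc : B.valuation (c - 1) < 1) (hT : B.valuation T ≤ 1) (ht : t ^ 4 = 1) :
    Rt B (-(t * V) / (lm ^ 5 * kq)) 1 := by
  have hl : (lm : ℂ) ≠ 0 := lm_ne
  refine Rt_iff.2 (fin hB (U := (x + 1) ^ 2 / lm ^ 2 * (1 + sq) ^ 2) (W := E ^ 4 / lm ^ 13) ?_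
    (Rt_iff.1 (Rt_U hB hx)) (v_E4 hB hE hc hT))
  have hk := kq_pow
  have hk0 := kq_ne (hq := hq)
  have h4 : hh ^ 4 = lm ^ 4 * (1 + sq) ^ 2 := by
    have e : hh ^ 4 = (hh ^ 2) ^ 2 := by ring
    rw [e, hh_sq]
    ring
  have h5 : V ^ 4 * (16 * (x + 1) ^ 2 * (lm ^ 4 * (1 + sq) ^ 2)) = 4096 * E ^ 4 := by
    have e : V ^ 4 * (a ^ 2 * a ^ 2 * h' ^ 4) = 4096 * E ^ 4 := by
      have e1 : V ^ 4 * (a ^ 2 * a ^ 2 * h' ^ 4) = (V * (a * h')) ^ 4 := by ring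
      rw [e1, hV]
      ring
    rw [ha, hh', h4] at e
    linear_combination e
  have h6 := lm_four (hq := hq)
  have h7 : V ^ 4 * ((x + 1) ^ 2 * (1 + sq) ^ 2) = lm ^ 12 * E ^ 4 := by
    linear_combination (-1 / 64) * h5 + (1 / 4) * V ^ 4 * ((x + 1) ^ 2 * (1 + sq) ^ 2) * h6 -
      E ^ 4 * (lm ^ 8 - 4 * lm ^ 4 + 16) * h6
  have h8 : (-(t * V) / (lm ^ 5 * kq)) ^ 4 = V ^ 4 / (lm ^ 20 * lm ^ 3) := by
    have e1 : (lm ^ 5 * kq) ^ 4 = lm ^ 20 * lm ^ 3 := by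
      rw [mul_pow, hk]
      ring
    have e2 : (-(t * V)) ^ 4 = V ^ 4 := by
      have e3 : (-(t * V)) ^ 4 = t ^ 4 * V ^ 4 := by ring
      rw [e3, ht, one_mul]
    rw [div_pow, e1, e2]
  rw [h8]
  generalize (lm : ℂ) = l at hl h7 ⊢
  clear h8 h6 h5 h4 hk hk0 hV hE
  have e1 : V ^ 4 / (l ^ 20 * l ^ 3) * ((x + 1) ^ 2 / l ^ 2 * (1 + sq) ^ 2) =
      V ^ 4 * ((x + 1) ^ 2 * (1 + sq) ^ 2) / (l ^ 12 * l ^ 13) := by
    rw [div_mul_eq_mul_div, mul_comm ((x + 1) ^ 2 / l ^ 2), ← mul_div_assoc, ← mul_div_assoc, div_div]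
    congr 1
    · ring
    · ring
  rw [e1, h7, mul_div_mul_left _ _ (pow_ne_zero _ hl)]

theorem hh_ne : hh ≠ 0 := by
  rw [hh]
  exact mul_ne_zero sg_ne (gg_ne two_pe5_notMem)

theorem HH_ne {z : ℂ} (hz : lm ^ 4 * z ∉ PP.lattice) : HH z ≠ 0 := by
  intro h
  have h2 := HH_sq (two_lm_of4 hz)
  rw [h] at h2
  exact X_sq_ne (two_lm2_of4 hz) (by linear_combination (1 / 4) * (X (lm ^ 2 * z) - 1) * h2)

theorem v_T1 (hB : (2 : ℂ)⁻¹ ∉ B) : B.valuation ((1 + sq) * (1 + sq - zt)) ≤ 1 := by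
  rw [map_mul, v_x4 hB, one_mul]
  exact (Valuation.map_sub _ _ _).trans (max_le (v_x4 hB).le v_zt.le)

theorem v_T2 (hB : (2 : ℂ)⁻¹ ∉ B) : B.valuation ((1 + sq) * (-(zt * (lm + sq)))) ≤ 1 := by
  rw [map_mul, v_x4 hB, one_mul, Valuation.map_neg, map_mul, v_zt, one_mul]
  refine (Valuation.map_add _ _ _).trans (max_le (v_lm_lt hB).le ?_)
  rw [v_sq]
  exact (v_lm_lt hB).le

end gen

end EV0

/-- `x_0 = x_3 = 1`, `x_1 = x_2 = 0` -/
def xE (k : ZMod 4) : ZMod 2 := if k = 0 ∨ k = 3 then 1 else 0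

open EV0 in
/-- the residue of the value at the base point -/
theorem Rt_V4_base {B : ValuationSubring ℂ} (hB : (2 : ℂ)⁻¹ ∉ B) (k : ZMod 4) :
    Rt B (-(tE k * V4 (sE k) (tE k * pe ^ 7)) / (lm ^ 5 * kq)) (xE k) := by
  have zero : V4 (sE k) (tE k * pe ^ 7) = 0 → xE k = 0 →
      Rt B (-(tE k * V4 (sE k) (tE k * pe ^ 7)) / (lm ^ 5 * kq)) (xE k) := by
    intro h1 h2
    rw [h1, h2, mul_zero, neg_zero, zero_div]
    exact Rt.zero
  have hc : B.valuation (zt - 1) < 1 := Rt_iff.1 (Rt_zt hB)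
  have hc' : B.valuation (-1 - 1 : ℂ) < 1 := by
    have e : (-1 - 1 : ℂ) = -2 := by norm_num
    rw [e, Valuation.map_neg]
    exact two_lt hB
  have key : ∀ k : ZMod 4, k = 0 ∨ k = 1 ∨ k = 2 ∨ k = 3 := by decide
  have hk := key k
  rcases hk with rfl | rfl | rfl | rfl
  · have t0 : tE 0 = -zt := if_pos (by decide)
    have s0 : sE 0 = -1 * zt := by
      have e : sE 0 = e4 (0 - 1) := if_pos (by decide)
      have e' : (0 - 1 : ZMod 4) = 3 := by decide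
      rw [e, e', e4_three]
      ring
    have x0 : xE 0 = 1 := if_pos (Or.inl rfl)
    have e0 : lm ^ 2 * (-zt * pe ^ 7) = -(zt * pe ^ 5) := by
      linear_combination (-zt) * lm2_pe7
    have hx : X (lm ^ 2 * (-zt * pe ^ 7)) = -X (pe ^ 5) := by
      rw [e0, Ell.X_neg, X_i (notMem_of_two_mul two_pe5_notMem)]
    have hV := V_even (hs := s0)
    rw [t0, x0]
    refine Rt_fin hB (x := X (lm ^ 2 * (-zt * pe ^ 7))) (Or.inr hx)
      (HH_sq (two_lm_of4 lm4_i_pe7)) ?_ (hV.trans ?_) E_even hc (v_T2 hB) ?_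
    · linear_combination (EV0.hh ^ 4 * (zt ^ 2 - 1)) * zt_sq
    · ring
    · rw [← t0]
      exact tE_sq 0
  · refine zero ?_ (if_neg (by decide))
    have t1 : tE 1 = 1 := if_neg (by decide)
    have s1 : sE 1 = -1 * zt := by
      have e : sE 1 = e4 (1 - 2) := if_neg (by decide)
      have e' : (1 - 2 : ZMod 4) = 3 := by decide
      rw [e, e', e4_three]
      ring
    have hV := V_odd (hs := s1)
    rw [t1, one_mul]
    have e : (-(4 * (1 + -1)) : ℂ) = 0 := by norm_num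
    rw [e, zero_mul] at hV
    exact (mul_eq_zero.1 hV).resolve_right (mul_ne_zero (HH_ne lm4_pe7) hh_ne)
  · refine zero ?_ (if_neg (by decide))
    have t1 : tE 2 = -zt := if_pos (by decide)
    have s1 : sE 2 = 1 * zt := by
      have e : sE 2 = e4 (2 - 1) := if_pos (by decide)
      have e' : (2 - 1 : ZMod 4) = 1 := by decide
      rw [e, e', e4_one]
      ring
    have hV := V_even (hs := s1)
    rw [t1]
    have e : (-(4 * (1 - 1)) : ℂ) = 0 := by norm_num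
    rw [e, zero_mul] at hV
    exact (mul_eq_zero.1 hV).resolve_right (mul_ne_zero (HH_ne lm4_i_pe7) (mul_ne_zero zt_ne0 hh_ne))
  · have t0 : tE 3 = 1 := if_neg (by decide)
    have s0 : sE 3 = 1 * zt := by
      have e : sE 3 = e4 (3 - 2) := if_neg (by decide)
      have e' : (3 - 2 : ZMod 4) = 1 := by decide
      rw [e, e', e4_one]
      ring
    have x0 : xE 3 = 1 := if_pos (Or.inr rfl)
    have hV := V_odd (hs := s0)
    rw [t0, x0, one_mul (pe ^ 7)]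
    refine Rt_fin hB (x := X (lm ^ 2 * pe ^ 7)) (Or.inl (by rw [lm2_pe7]))
      (HH_sq (two_lm_of4 lm4_pe7)) rfl (hV.trans ?_) E_odd hc' (v_T1 hB) (one_pow 4)
    ring

/-- **The value for the empty set.** -/
theorem Rt_LaE_empty {B : ValuationSubring ℂ} (hB : (2 : ℂ)⁻¹ ∉ B) (k : ZMod 4) :
    Rt B (LaE k ∅ / (Om * (lm ^ 5 * kq))) (xE k) := by
  have h := avgE k ∅ (ι := Unit) (c := fun _ => 1) (y := fun _ => 0) reps_empty
    (fun _ => by rw [DDq_empty, mul_zero, add_zero])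
  rw [Finset.powerset_empty, Finset.sum_singleton, Finset.card_empty, pow_zero, one_mul,
    Finset.sdiff_self, Finset.prod_empty, mul_one, Fintype.sum_unique, w4_empty, one_mul,
    DDq_empty, thE_one, mul_one, em_zero, zero_div, add_zero] at h
  rw [h]
  have hO := Om_ne_zero
  have e : -(Om * tE k) * V4 (sE k) (tE k * pe ^ 7) / (Om * (lm ^ 5 * kq)) =
      -(tE k * V4 (sE k) (tE k * pe ^ 7)) / (lm ^ 5 * kq) := by
    have e1 : -(Om * tE k) * V4 (sE k) (tE k * pe ^ 7) =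
        Om * -(tE k * V4 (sE k) (tE k * pe ^ 7)) := by ring
    rw [e1, mul_div_mul_left _ _ hO]
  rw [e]
  exact Rt_V4_base hB k

end

end Pool.Agent.Lib.MP_1a91b9_ntQ
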