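import Pool.Agent.Lib.MP_1a91b9_ntQ.A.RhsE
import Pool.Agent.Lib.MP_1a91b9_ntQ.A.LaE0
import Pool.Agent.Lib.MP_1a91b9_ntQ.A.FacE
import Pool.Agent.Lib.MP_1a91b9_ntQ.A.AlgE

/-!
# Quartic twists, part A, file IndE: the residue class of the normalised value, `lam ∥ D`

`nuE k T = LaE k T / (Om * (lm ^ |T| * (lm ^ 5 * kq)))`, `kq ^ 4 = lm ^ 3`. Modulo a place above `2`
it is the determinant of the bordered matrix `[[N(S), a], [aᵀ, x_k + ∑ a]]`.
-/

set_option autoImplicit false

namespace Pool.Agent.Lib.MP_1a91b9_ntQ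

open NumberField Pool.Agent.Lib.MP_1a91b9_nuT Pool.Agent.Lib.MP_1a91b9_nuT.S3
  Pool.Agent.Lib.MP_1a91b9_nuT.Ell

noncomputable section

/-- the normalised value -/
def nuE (k : ZMod 4) (T : Finset Pg) : ℂ := LaE k T / (Om * (lm ^ T.card * (lm ^ 5 * kq)))

/-- the matrix of the class (E) -/
def ME (k : ZMod 4) (S : Finset Pg) : Matrix (S ⊕ Unit) (S ⊕ Unit) (ZMod 2) :=
  B4 s4 (fun q => md k * aa q.1 + c2 q lam) (fun q => aa q.1) (xE k + ∑ q ∈ S, aa q.1) S

theorem nuE_empty (k : ZMod 4) : nuE k ∅ = LaE k ∅ / (Om * (lm ^ 5 * kq)) := by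
  rw [nuE, Finset.card_empty, pow_zero, one_mul]

theorem nuE_term (k : ZMod 4) {S T : Finset Pg} (hT : T ⊆ S) :
    (-1) ^ T.card * (LaE k T * ∏ q ∈ S \ T, (em q.1 - XE k T q.1)) /
        (Om * (lm ^ S.card * (lm ^ 5 * kq))) =
      (-1) ^ T.card * (nuE k T * ∏ q ∈ S \ T, ((em q.1 - XE k T q.1) / lm)) := by
  have hc : S.card = T.card + (S \ T).card := by
    rw [Finset.card_sdiff_of_subset hT]
    have := Finset.card_le_card hT
    omega
  have e : Om * (lm ^ S.card * (lm ^ 5 * kq)) =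
      Om * (lm ^ T.card * (lm ^ 5 * kq)) * lm ^ (S \ T).card := by
    rw [hc, pow_add lm T.card]
    ring
  rw [Finset.prod_div_distrib, Finset.prod_const, nuE, e, div_mul_div_comm, mul_div_assoc]

section
variable {B : ValuationSubring ℂ}

/-- **Theorem E**: the class of the normalised value is the determinant. -/
theorem Rt_nuE (hB : (2 : ℂ)⁻¹ ∉ B) (k : ZMod 4) (S : Finset Pg) :
    Rt B (nuE k S) (ME k S).det := by
  classical
  induction S using Finset.strongInduction with
  | H S ih =>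
  rcases S.eq_empty_or_nonempty with rfl | hS
  · rw [nuE_empty, ME, B4_empty, Finset.sum_empty, add_zero]
    exact Rt_LaE_empty hB k
  · have h1 := rhsE hB k hS
    rw [Finset.sum_div, Finset.sum_congr rfl fun T hT => nuE_term k (Finset.mem_powerset.1 hT),
      ← Finset.add_sum_erase _ _ (Finset.mem_powerset_self S), Finset.sdiff_self,
      Finset.prod_empty, mul_one] at h1
    have hsg : ∀ n : ℕ, Rt B ((-1) ^ n) 1 := fun n => by
      have h := ((Rt.one (B := B)).neg hB).pow hB n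
      rwa [one_pow] at h
    have h2 : Rt B (∑ T ∈ S.powerset.erase S, (-1) ^ T.card *
        (nuE k T * ∏ q ∈ S \ T, ((em q.1 - XE k T q.1) / lm)))
        (∑ T ∈ S.powerset.erase S, (ME k T).det *
          ∏ q ∈ S \ T, (md k * aa q.1 + c2 q lam + ∑ p ∈ T, s4 q p)) := by
      refine Rt.sum hB _ fun T hT => ?_
      rw [Finset.mem_erase, Finset.mem_powerset] at hT
      have h3 := (hsg T.card).mul hB ((ih T (hT.2.ssubset_of_ne hT.1)).mul hB
        (Rt.prod hB (S \ T) fun q hq => Rt_facE hB k (T := T) (q := q) (Finset.mem_sdiff.1 hq).2))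
      rw [one_mul] at h3
      exact h3
    have h3 := (hsg S.card).mul hB (h1.sub hB h2)
    rw [add_sub_cancel_right, ← mul_assoc, ← mul_pow, neg_one_mul, neg_neg, one_pow, one_mul,
      one_mul, sub_eq_add_neg, ZMod.neg_eq_self_mod_two] at h3
    have h4 := algE s4 (fun _ _ h => s4_symm h) (fun q : Pg => aa q.1) (fun q => c2 q lam)
      (md k) (xE k) hS
    have h5 : (ME k S).det = (md k + 1) * (if S.card = 1 then ∑ q ∈ S, aa q.1 else 0) + betaE S +
        ∑ T ∈ S.powerset.erase S, (ME k T).det *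
          ∏ q ∈ S \ T, (md k * aa q.1 + c2 q lam + ∑ p ∈ T, s4 q p) := by
      have h6 : (if S.card = 1 then (md k + 1) * ∑ q ∈ S, aa q.1 else 0) =
          (md k + 1) * (if S.card = 1 then ∑ q ∈ S, aa q.1 else 0) := by
        split_ifs
        · rfl
        · rw [mul_zero]
      rw [← h6]
      exact h4
    rw [h5]
    exact h3

end

/-- **The L-value is not zero if the determinant is not zero.** -/
theorem LE_ne {k : ZMod 4} {S : Finset Pg} (h : (ME k S).det ≠ 0) : LE k S 1 ≠ 0 := by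
  obtain ⟨B, hB⟩ := exists_B2
  have h1 := (Rt_nuE hB k S).ne_zero h
  intro h2
  apply h1
  rw [nuE, LaE, h2, mul_zero, zero_div]

end

end Pool.Agent.Lib.MP_1a91b9_ntQ
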