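import Pool.Agent.Lib.MP_1a91b9_ntQ.A.Xi4

/-!
# Quartic twists, part A, file RdX: the ring `B / lam m`

`RX B` is the quotient of the valuation ring `B` by the ideal of the elements of valuation less than that of
`lam`; `rd B z` the class of `z ∈ B`.
-/

set_option autoImplicit false
set_option linter.unusedSectionVars false

namespace Pool.Agent.Lib.MP_1a91b9_ntQ

open NumberField Pool.Agent.Lib.MP_1a91b9_nuT

noncomputable section

/-- the values of `g (t) = (1 - i ^ t) / l` in a ring with `2 = 0`, `l ^ 2 = 0` -/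
def gR {R : Type*} [CommRing R] (l : R) (t : ZMod 4) : R :=
  if t = 0 then 0 else if t = 1 then 1 + l else if t = 2 then l else 1

/-- the ideal of the elements of valuation less than that of `lam` -/
def aX (B : ValuationSubring ℂ) : Ideal B where
  carrier := {x | B.valuation (x : ℂ) < B.valuation lm}
  zero_mem' := by
    change B.valuation ((0 : B) : ℂ) < _
    rw [ZeroMemClass.coe_zero, map_zero]
    exact v_lm_pos
  add_mem' := by
    intro a b ha hb
    change B.valuation ((a + b : B) : ℂ) < _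
    rw [AddMemClass.coe_add]
    exact Valuation.map_add_lt _ ha hb
  smul_mem' := by
    intro c x hx
    change B.valuation ((c * x : B) : ℂ) < _
    rw [MulMemClass.coe_mul, map_mul]
    exact (mul_le_of_le_one_left' ((B.valuation_le_one_iff _).2 c.2)).trans_lt hx

/-- the ring `B / lam m` -/
abbrev RX (B : ValuationSubring ℂ) : Type := B ⧸ aX B

open Classical in
/-- the class of `z`, `0` if `z` is not in `B` -/
def rd (B : ValuationSubring ℂ) (z : ℂ) : RX B :=
  if h : z ∈ B then Ideal.Quotient.mk (aX B) ⟨z, h⟩ else 0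

variable {B : ValuationSubring ℂ}

theorem rd_of {z : ℂ} (h : z ∈ B) : rd B z = Ideal.Quotient.mk (aX B) ⟨z, h⟩ := by
  unfold rd
  exact dif_pos h

theorem rd_add {x y : ℂ} (hx : x ∈ B) (hy : y ∈ B) : rd B (x + y) = rd B x + rd B y := by
  rw [rd_of hx, rd_of hy, rd_of (B.add_mem _ _ hx hy), ← map_add]
  rfl

theorem rd_mul {x y : ℂ} (hx : x ∈ B) (hy : y ∈ B) : rd B (x * y) = rd B x * rd B y := by
  rw [rd_of hx, rd_of hy, rd_of (B.mul_mem _ _ hx hy), ← map_mul]
  rfl

theorem rd_eq_iff {x y : ℂ} (hx : x ∈ B) (hy : y ∈ B) :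
    rd B x = rd B y ↔ B.valuation (x - y) < B.valuation lm := by
  rw [rd_of hx, rd_of hy, Ideal.Quotient.eq]
  rfl

theorem rd_eq_zero {x : ℂ} (hx : x ∈ B) : rd B x = 0 ↔ B.valuation x < B.valuation lm := by
  rw [rd_of hx, Ideal.Quotient.eq_zero_iff_mem]
  rfl

theorem rd_zero : rd B 0 = 0 := by
  rw [rd_of B.zero_mem]
  exact map_zero _

theorem rd_one : rd B 1 = 1 := by
  rw [rd_of B.one_mem]
  exact map_one _

theorem rd_neg {x : ℂ} (hx : x ∈ B) : rd B (-x) = -rd B x := by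
  rw [rd_of hx, rd_of (B.neg_mem _ hx), ← map_neg]
  rfl

theorem rd_sub {x y : ℂ} (hx : x ∈ B) (hy : y ∈ B) : rd B (x - y) = rd B x - rd B y := by
  rw [sub_eq_add_neg, rd_add hx (B.neg_mem _ hy), rd_neg hy, sub_eq_add_neg]

theorem rd_sum {α : Type*} (s : Finset α) {f : α → ℂ} (hf : ∀ a ∈ s, f a ∈ B) :
    rd B (∑ a ∈ s, f a) = ∑ a ∈ s, rd B (f a) := by
  classical
  induction s using Finset.induction_on with
  | empty => exact rd_zero
  | insert a s ha ih =>
    have h1 : ∀ b ∈ s, f b ∈ B := fun b hb => hf b (Finset.mem_insert_of_mem hb)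
    rw [Finset.sum_insert ha, Finset.sum_insert ha, rd_add (hf a (Finset.mem_insert_self a s))
      (sum_mem h1), ih h1]

theorem rd_prod {α : Type*} (s : Finset α) {f : α → ℂ} (hf : ∀ a ∈ s, f a ∈ B) :
    rd B (∏ a ∈ s, f a) = ∏ a ∈ s, rd B (f a) := by
  classical
  induction s using Finset.induction_on with
  | empty => exact rd_one
  | insert a s ha ih =>
    have h1 : ∀ b ∈ s, f b ∈ B := fun b hb => hf b (Finset.mem_insert_of_mem hb)
    rw [Finset.prod_insert ha, Finset.prod_insert ha, rd_mul (hf a (Finset.mem_insert_self a s))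
      (prod_mem h1), ih h1]

theorem lmB (B : ValuationSubring ℂ) : lm ∈ B := by
  rw [← ValuationSubring.valuation_le_one_iff]
  have h : B.valuation lm ^ 2 ≤ 1 := by
    rw [v_lm_sq, ValuationSubring.valuation_le_one_iff]
    exact natCast_mem B 2
  exact (pow_le_one_iff two_ne_zero).1 h

/-- the class of `lam` -/
def lX (B : ValuationSubring ℂ) : RX B := rd B lm

theorem rd_lm : rd B lm = lX B := rfl

theorem lX_sq (hB : (2 : ℂ)⁻¹ ∉ B) : lX B * lX B = 0 := by
  rw [lX, ← rd_mul (lmB B) (lmB B), rd_eq_zero (B.mul_mem _ _ (lmB B) (lmB B)), map_mul]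
  exact mul_lt_of_lt_one_left v_lm_pos (v_lm_lt hB)

theorem rd_two (hB : (2 : ℂ)⁻¹ ∉ B) : (2 : RX B) = 0 := by
  have h2 : (2 : ℂ) ∈ B := by
    exact_mod_cast natCast_mem B 2
  have h1 : rd B 2 = 0 := by
    rw [rd_eq_zero h2, ← v_lm_sq, pow_two]
    exact mul_lt_of_lt_one_left v_lm_pos (v_lm_lt hB)
  have h3 : rd B (1 + 1) = 1 + 1 := by rw [rd_add B.one_mem B.one_mem, rd_one]
  have h4 : (1 + 1 : ℂ) = 2 := by norm_num
  rw [h4, h1] at h3
  rw [← one_add_one_eq_two]
  exact h3.symm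

/-- `l * x = 0` if and only if `x` is in the maximal ideal -/
theorem lX_mul_rd {x : ℂ} (hx : x ∈ B) : lX B * rd B x = 0 ↔ B.valuation x < 1 := by
  rw [lX, ← rd_mul (lmB B) hx, rd_eq_zero (B.mul_mem _ _ (lmB B) hx), map_mul]
  constructor
  · intro h
    by_contra h1
    push Not at h1
    exact absurd h (not_lt.2 (le_mul_of_one_le_right' h1))
  · intro h
    exact mul_lt_of_lt_one_right v_lm_pos h

theorem lX_ne (B : ValuationSubring ℂ) : lX B ≠ 0 := by
  intro h
  have h1 := (lX_mul_rd (B := B) B.one_mem).1 (by rw [h, zero_mul])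
  rw [map_one] at h1
  exact lt_irrefl _ h1

theorem rd_charP (hB : (2 : ℂ)⁻¹ ∉ B) : CharP (RX B) 2 := by
  have h0 : Nontrivial (RX B) := ⟨⟨lX B, 0, lX_ne B⟩⟩
  have h2 : ((2 : ℕ) : RX B) = 0 := by
    rw [Nat.cast_ofNat]
    exact rd_two hB
  exact CharTwo.of_one_ne_zero_of_two_eq_zero one_ne_zero (rd_two hB)

open Classical in
/-- the homomorphism from `ZMod 2` -/
def phX (B : ValuationSubring ℂ) (hB : (2 : ℂ)⁻¹ ∉ B) : ZMod 2 →+* RX B :=
  haveI := rd_charP hB
  ZMod.castHom (dvd_refl 2) (RX B)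

theorem phX_val (hB : (2 : ℂ)⁻¹ ∉ B) (y : ZMod 2) : phX B hB y = ((y.val : ℕ) : RX B) := by
  conv_lhs => rw [← ZMod.natCast_zmod_val y]
  rw [map_natCast]

theorem rd_nat (n : ℕ) : rd B (n : ℂ) = (n : RX B) := by
  induction n with
  | zero => rw [Nat.cast_zero, Nat.cast_zero, rd_zero]
  | succ n ih => rw [Nat.cast_succ, Nat.cast_succ, rd_add (natCast_mem B n) B.one_mem, ih, rd_one]

/-- `l * x` depends on the class modulo the maximal ideal -/
theorem lX_mul_Rt (hB : (2 : ℂ)⁻¹ ∉ B) {x : ℂ} {y : ZMod 2} (h : Rt B x y) :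
    lX B * rd B x = lX B * phX B hB y := by
  have hx : x ∈ B := by
    rw [← ValuationSubring.valuation_le_one_iff]
    exact h.le
  rw [phX_val, ← rd_nat, ← sub_eq_zero, ← mul_sub, ← rd_sub hx (natCast_mem B _),
    lX_mul_rd (sub_mem hx (natCast_mem B _))]
  exact h

/-- a value which is not zero -/
theorem lX_phX_ne (hB : (2 : ℂ)⁻¹ ∉ B) {y : ZMod 2} (hy : y ≠ 0) : lX B * phX B hB y ≠ 0 := by
  have h0 : ∀ y : ZMod 2, y ≠ 0 → y = 1 := by decide
  rw [h0 y hy, map_one, mul_one]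
  exact lX_ne B

end

end Pool.Agent.Lib.MP_1a91b9_ntQ
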