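import Pool.Agent.Lib.MP_1a91b9_ntQ.A.TopX2
import Pool.Agent.Lib.MP_1a91b9_ntQ.A.HH4
import Pool.Agent.Lib.MP_1a91b9_ntQ.A.RdX
import Pool.Agent.Lib.MP_1a91b9_ntQ.A.AlgZ

/-!
# Quartic twists, part A, file IndX0: class (X), `k = 0`, the second order induction

`muX q0 T = HHX q0 T T / lm ^ (|T| - 1)`; `f1X` is the normalised Euler factor of `xi`;
`gX4 t = (1 - i ^ t) / lm`; the conclusions are in the ring `RX B = B / lm m`.
-/

set_option autoImplicit false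

namespace Pool.Agent.Lib.MP_1a91b9_ntQ

open NumberField Pool.Agent.Lib.MP_1a91b9_nuT Pool.Agent.Lib.MP_1a91b9_nuT.S3
  Pool.Agent.Lib.MP_1a91b9_nuT.Ell
open Pool.Agent.Lib.MP_1a91b9_ntK (CZ)

noncomputable section

/-- the normalised Euler factor of `xi` -/
def f1X (q0 : Pg) (T : Finset Pg) (q : Pg) : ℂ := (em q.1 ^ 2 - e4 (bX q0 1 T q.1)) / lm

/-- the normalised sum of `xi` -/
def muX (q0 : Pg) (T : Finset Pg) : ℂ := HHX q0 T T / lm ^ (T.card - 1)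

/-- `(1 - i ^ t) / lm` -/
def gX4 (t : ZMod 4) : ℂ := (1 - e4 t) / lm

variable {B : ValuationSubring ℂ} {q0 : Pg}

theorem IndX0_mem {z : ℂ} {y : ZMod 2} (h : Rt B z y) : z ∈ B := by
  rw [← ValuationSubring.valuation_le_one_iff]
  exact h.le

theorem muX_term (h0 : aa q0.1 = 1) {T J : Finset Pg} (hT : T ⊆ J) (hT' : T.Nonempty)
    (hq : q0 ∉ J) : HHX q0 T J / lm ^ (J.card - 1) = muX q0 T * ∏ q ∈ J \ T, f1X q0 T q := by
  have hc : J.card - 1 = (T.card - 1) + (J \ T).card := by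
    rw [Finset.card_sdiff_of_subset hT]
    have := Finset.card_le_card hT
    have := hT'.card_pos
    omega
  have h1 : (lm : ℂ) ^ (T.card - 1) ≠ 0 := pow_ne_zero _ lm_ne
  have h2 : (lm : ℂ) ^ (J \ T).card ≠ 0 := pow_ne_zero _ lm_ne
  unfold f1X
  rw [HH_prod h0 hT hT' hq, Finset.prod_div_distrib, Finset.prod_const, muX, hc, pow_add lm]
  field_simp

/-- the sum over the nonempty subsets -/
theorem muX_sum (h0 : aa q0.1 = 1) {J : Finset Pg} (hq : q0 ∉ J) :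
    ∑ T ∈ J.powerset.erase ∅, (-1) ^ T.card * (muX q0 T * ∏ q ∈ J \ T, f1X q0 T q) =
      GX q0 (f4 0) (w4 J) xi J / lm ^ (J.card - 1) - HHX q0 ∅ J / lm ^ (J.card - 1) := by
  have h1 := GX_w4 (q0 := q0) (kap := f4 0) (J := J) (f := xi)
  rw [← Finset.add_sum_erase _ _ (Finset.empty_mem_powerset J), Finset.card_empty, pow_zero,
    one_mul] at h1
  have h2 : FX q0 (f4 0) xi ∅ J = HHX q0 ∅ J := rfl
  rw [← sub_div, h1, h2, add_sub_cancel_left, Finset.sum_div]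
  refine Finset.sum_congr rfl fun T hT => ?_
  have hT1 := Finset.mem_erase.1 hT
  rw [mul_div_assoc, ← muX_term h0 (Finset.mem_powerset.1 hT1.2)
    (Finset.nonempty_iff_ne_empty.2 hT1.1) hq]
  rfl

theorem Rt_f1X (hB : (2 : ℂ)⁻¹ ∉ B) (h0 : aa q0.1 = 1) (T : Finset Pg) (q : Pg) :
    Rt B (f1X q0 T q) (∑ j ∈ T, mX s4 (fun q => aa q.1) q0 j q) := by
  obtain ⟨t, ht⟩ := em_sq_sub_one q
  have h3 := Rt_e4 (B := B) hB (bX q0 1 T q.1)
  rw [md_bX h0] at h3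
  have h4 : Rt B (lm ^ 4 * em t) 0 := by
    refine Rt.of_lt ?_
    rw [map_mul, map_pow]
    exact mul_lt_one_of_lt_of_le (pow_lt_one₀ zero_le (v_lm_lt hB) (by norm_num)) (v_emX t)
  have e : f1X q0 T q = lm ^ 4 * em t + (1 - e4 (bX q0 1 T q.1)) / lm := by
    rw [f1X]
    have hl := lm_ne
    field_simp
    linear_combination ht
  rw [e]
  have h5 := h4.add hB h3
  rwa [zero_add] at h5

/-- **The first order**: the class of `muX` -/
theorem Rt_muX (hB : (2 : ℂ)⁻¹ ∉ B) (h0 : aa q0.1 = 1) {S : Finset Pg} (hq : q0 ∉ S) :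
    ∀ J ⊆ S, J.Nonempty → Rt B (muX q0 J)
      (CZ (nX s4 (fun q => aa q.1) q0) (fun i => s4 q0 i) J) := by
  refine ind1 hB (F := f1X q0) (fun T q => Rt_f1X hB h0 T q) fun J hJ hJ0 => ?_
  have hqJ : q0 ∉ J := fun h1 => hq (hJ h1)
  rw [muX_sum h0 hqJ]
  have h1 := (Rt_GX_xi (q0 := q0) hB hJ0).sub hB (Rt_HHX_empty hB h0 hqJ hJ0)
  have hneg : ∀ x : ZMod 2, 0 - x = x := by decide
  rwa [hneg] at h1

/-! ### The weights in the ring -/

theorem fX_mem (hB : (2 : ℂ)⁻¹ ∉ B) (h0 : aa q0.1 = 1) (h : ZMod 2) (T : Finset Pg) (q : Pg) :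
    fX 0 h q0 T q ∈ B := IndX0_mem (Rt_fX hB (Or.inl rfl) h0 h T q)

theorem f1X_mem (hB : (2 : ℂ)⁻¹ ∉ B) (h0 : aa q0.1 = 1) (T : Finset Pg) (q : Pg) :
    f1X q0 T q ∈ B := IndX0_mem (Rt_f1X hB h0 T q)

theorem IndX0_q (hB : (2 : ℂ)⁻¹ ∉ B) (q : Pg) :
    B.valuation (em q.1 * (em q.1 - 1) / lm) < B.valuation lm := by
  rw [map_div₀, map_mul, div_lt_iff₀ v_lm_pos]
  refine (mul_le_of_le_one_left' (v_emX q.1)).trans_lt ?_
  refine (IndX_em_sub q).trans_lt ?_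
  rw [← pow_two]
  exact pow_lt_pow_right_of_lt_one₀ v_lm_pos (v_lm_lt hB) (by norm_num)

theorem IndX0_th (q : Pg) : th4 0 q.1 = 1 := by rw [th4, zero_mul, e4_zero]

theorem rd_f1X_one (hB : (2 : ℂ)⁻¹ ∉ B) (h0 : aa q0.1 = 1) (T : Finset Pg) (q : Pg) :
    rd B (f1X q0 T q) = rd B (fX 0 1 q0 T q) := by
  rw [rd_eq_iff (f1X_mem hB h0 T q) (fX_mem hB h0 1 T q)]
  have e : f1X q0 T q - fX 0 1 q0 T q = em q.1 * (em q.1 - 1) / lm := by
    rw [f1X, fX, IndX0_th]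
    ring
  rw [e]
  exact IndX0_q hB q

theorem IndX0_e4 (hB : (2 : ℂ)⁻¹ ∉ B) (t : ZMod 4) : Rt B (e4 t) 1 := by
  refine Rt.one.congr ?_
  have h1 := (Rt_e4 (B := B) hB t).le
  have e : e4 t - 1 = -(lm * ((1 - e4 t) / lm)) := by
    rw [mul_div_cancel₀ _ lm_ne]
    ring
  rw [e, Valuation.map_neg, map_mul]
  exact mul_lt_one_of_lt_of_le (v_lm_lt hB) h1

theorem rd_f1X_zero (hB : (2 : ℂ)⁻¹ ∉ B) (h0 : aa q0.1 = 1) (T : Finset Pg) (q : Pg) :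
    rd B (f1X q0 T q) = rd B (fX 0 0 q0 T q) + lX B * phX B hB (s4 q0 q) := by
  have h1 : Rt B (e4 (bX q0 0 T q.1) * (-zt * ((md (c4 q0 q.1)).val : ℂ))) (s4 q0 q) := by
    have h2 := (IndX0_e4 hB (bX q0 0 T q.1)).mul hB
      (((Rt_ztX hB).neg hB).mul hB (Rt_val hB (md (c4 q0 q.1))))
    rwa [one_mul, one_mul] at h2
  have h2 := IndX0_mem h1
  rw [← lX_mul_Rt hB h1, ← rd_lm, ← rd_mul (lmB B) h2,
    ← rd_add (fX_mem hB h0 0 T q) (B.mul_mem _ _ (lmB B) h2),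
    rd_eq_iff (f1X_mem hB h0 T q) (B.add_mem _ _ (fX_mem hB h0 0 T q) (B.mul_mem _ _ (lmB B) h2))]
  have e : f1X q0 T q - (fX 0 0 q0 T q +
      lm * (e4 (bX q0 0 T q.1) * (-zt * ((md (c4 q0 q.1)).val : ℂ)))) =
      em q.1 * (em q.1 - 1) / lm := by
    have h3 := one_sub_e4_two (c4 q0 q.1)
    have hl := lm_ne
    rw [div_eq_iff (pow_ne_zero 2 hl)] at h3
    rw [f1X, fX, IndX0_th, bX_one h0, e4_add]
    field_simp
    linear_combination (e4 (bX q0 0 T q.1)) * h3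
  rw [e]
  exact IndX0_q hB q

theorem gX4_mem (hB : (2 : ℂ)⁻¹ ∉ B) (t : ZMod 4) : gX4 t ∈ B := IndX0_mem (Rt_e4 hB t)

theorem rd_gX4_two (hB : (2 : ℂ)⁻¹ ∉ B) : rd B (gX4 2) = lX B := by
  have hz := Rt_ztX hB
  have h1 : Rt B (-zt) 1 := hz.neg hB
  have e : gX4 2 = lm * -zt := by
    rw [gX4, e4_two]
    have hl := lm_ne
    field_simp
    linear_combination two_lm
  rw [e, rd_mul (lmB B) (IndX0_mem h1), rd_lm, lX_mul_Rt hB h1, map_one, mul_one]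

theorem gX4_zero : gX4 0 = 0 := by rw [gX4, e4_zero, sub_self, zero_div]

theorem gX4_one : gX4 1 = -zt := by
  rw [gX4, e4_one, div_eq_iff lm_ne, lm]
  linear_combination zt_sq

theorem gX4_three : gX4 3 = 1 := by
  have h : e4 3 = -zt := by
    have e : (3 : ZMod 4) = 1 + 2 := by decide
    rw [e, e4_add, e4_one, e4_two]
    ring
  rw [gX4, h, div_eq_iff lm_ne, lm]
  ring

/-- the parity of the exponent at `lam` -/
theorem md_bX_lam (h0 : aa q0.1 = 1) (T : Finset Pg) :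
    md (2 - bX q0 0 T lam) = ∑ i ∈ T, (bb i.1 + aa i.1 * bb q0.1) := by
  have h2 : md (nn q0.1) = 1 := h0
  have h3 : md (c4 q0 lam) = bb q0.1 := c2_lam q0
  have h4 : ∑ p ∈ T, md (c4 p lam) = ∑ p ∈ T, bb p.1 :=
    Finset.sum_congr rfl fun p _ => c2_lam p
  have h5 : ∑ p ∈ T, md (nn p.1) = ∑ p ∈ T, aa p.1 := rfl
  have h6 : md 2 = 0 := rfl
  have hneg : ∀ x : ZMod 2, -x = x := by decide
  rw [map_sub, h6, zero_sub, hneg, bX, e0X, hh_zero, zero_add, map_add, map_mul, map_neg, map_mul,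
    h2, h3, map_sum, map_sum, h4, h5, hneg, mul_one, Finset.sum_add_distrib, Finset.sum_mul,
    add_comm]

/-! ### The second order induction -/

section
variable {ι : Type*} [DecidableEq ι] {S : Finset ι} {y u : Finset ι → ℂ}
  {F F1 : Finset ι → ι → ℂ} {v : ι → ZMod 2}

theorem IndX0_sgn_mem (B : ValuationSubring ℂ) (n : ℕ) : (-1 : ℂ) ^ n ∈ B :=
  B.toSubring.pow_mem (B.neg_mem _ B.one_mem) n

theorem secX_mem (hF : ∀ T : Finset ι, ∀ q, F T q ∈ B) (hF1 : ∀ T : Finset ι, ∀ q, F1 T q ∈ B)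
    (hu : ∀ T ⊆ S, T.Nonempty → u T ∈ B)
    (h : ∀ J ⊆ S, J.Nonempty →
      Rt B ((∑ T ∈ J.powerset.erase ∅, (-1) ^ T.card * (y T * ∏ q ∈ J \ T, F T q) -
        ∑ T ∈ J.powerset.erase ∅, (-1) ^ T.card * (u T * ∏ q ∈ J \ T, F1 T q)) / lm)
        (if J.card = 1 then ∑ i ∈ J, v i else 0)) :
    ∀ J ⊆ S, J.Nonempty → y J ∈ B := by
  intro J
  induction J using Finset.strongInduction with
  | H J ih =>
    intro hJ hJ0
    have h1 := IndX0_mem (h J hJ hJ0)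
    obtain ⟨E, hE⟩ : ∃ E : ℂ, E = ∑ T ∈ J.powerset.erase ∅, (-1) ^ T.card * (u T * ∏ q ∈ J \ T, F1 T q) := ⟨_, rfl⟩
    have hE1 : E ∈ B := by
      rw [hE]
      refine sum_mem fun T hT => ?_
      have hT1 := Finset.mem_erase.1 hT
      exact B.mul_mem _ _ (IndX0_sgn_mem B _) (B.mul_mem _ _
        (hu T ((Finset.mem_powerset.1 hT1.2).trans hJ) (Finset.nonempty_iff_ne_empty.2 hT1.1))
        (prod_mem fun q _ => hF1 T q))
    rw [← hE] at h1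
    have hm : J ∈ J.powerset.erase ∅ := Finset.mem_erase.2 ⟨hJ0.ne_empty, Finset.mem_powerset_self J⟩
    obtain ⟨R, hR⟩ : ∃ R : ℂ, R = ∑ T ∈ (J.powerset.erase ∅).erase J, (-1) ^ T.card *
        (y T * ∏ q ∈ J \ T, F T q) := ⟨_, rfl⟩
    have hR1 : R ∈ B := by
      rw [hR]
      refine sum_mem fun T hT => ?_
      have hT1 := Finset.mem_erase.1 hT
      have hT2 := Finset.mem_erase.1 hT1.2
      have hT3 := Finset.mem_powerset.1 hT2.2
      exact B.mul_mem _ _ (IndX0_sgn_mem B _) (B.mul_mem _ _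
        (ih T (hT3.ssubset_of_ne hT1.1) (hT3.trans hJ) (Finset.nonempty_iff_ne_empty.2 hT2.1))
        (prod_mem fun q _ => hF T q))
    rw [← Finset.add_sum_erase _ _ hm, Finset.sdiff_self, Finset.prod_empty, mul_one, ← hR] at h1
    have h2 := B.add_mem _ _ (B.sub_mem (B.mul_mem _ _ (lmB B) h1) hR1) hE1
    have h3 := B.mul_mem _ _ (IndX0_sgn_mem B J.card) h2
    have e : (-1 : ℂ) ^ J.card * (lm * (((-1) ^ J.card * y J + R - E) / lm) - R + E) = y J := by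
      rw [mul_div_cancel₀ _ lm_ne]
      have e1 : (-1 : ℂ) ^ J.card * (-1) ^ J.card = 1 := by
        rw [← pow_add, ← two_mul, pow_mul, neg_one_sq, one_pow]
      linear_combination (y J) * e1
    rwa [e] at h3

theorem IndX0_two (hB : (2 : ℂ)⁻¹ ∉ B) (x : RX B) : x + x = 0 := by
  rw [← two_mul, rd_two hB, zero_mul]

theorem IndX0_sgn (hB : (2 : ℂ)⁻¹ ∉ B) (n : ℕ) : rd B ((-1 : ℂ) ^ n) = 1 := by
  have h1 : rd B (-1 : ℂ) = 1 := by
    rw [rd_neg B.one_mem, rd_one]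
    exact neg_eq_of_add_eq_zero_left (IndX0_two hB 1)
  induction n with
  | zero => rw [pow_zero, rd_one]
  | succ n ih => rw [pow_succ, rd_mul (IndX0_sgn_mem B n) (B.neg_mem _ B.one_mem), ih, h1, mul_one]

theorem IndX0_op (hB : (2 : ℂ)⁻¹ ∉ B) {y : Finset ι → ℂ} {F : Finset ι → ι → ℂ} {J : Finset ι}
    (hF : ∀ T : Finset ι, ∀ q, F T q ∈ B) (hy : ∀ T ⊆ J, T.Nonempty → y T ∈ B) :
    ∑ T ∈ J.powerset.erase ∅, (-1) ^ T.card * (y T * ∏ q ∈ J \ T, F T q) ∈ B ∧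
    rd B (∑ T ∈ J.powerset.erase ∅, (-1) ^ T.card * (y T * ∏ q ∈ J \ T, F T q)) =
      opW (fun T q => rd B (F T q)) (fun T => rd B (y T)) J := by
  have h1 : ∀ T ∈ J.powerset.erase ∅, y T ∈ B := fun T hT => by
    have hT1 := Finset.mem_erase.1 hT
    exact hy T (Finset.mem_powerset.1 hT1.2) (Finset.nonempty_iff_ne_empty.2 hT1.1)
  have h2 : ∀ T, ∏ q ∈ J \ T, F T q ∈ B := fun T => prod_mem fun q _ => hF T q
  have h3 : ∀ T ∈ J.powerset.erase ∅, (-1) ^ T.card * (y T * ∏ q ∈ J \ T, F T q) ∈ B :=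
    fun T hT => B.mul_mem _ _ (IndX0_sgn_mem B _) (B.mul_mem _ _ (h1 T hT) (h2 T))
  refine ⟨sum_mem h3, ?_⟩
  rw [rd_sum _ h3, opW]
  refine Finset.sum_congr rfl fun T hT => ?_
  rw [rd_mul (IndX0_sgn_mem B _) (B.mul_mem _ _ (h1 T hT) (h2 T)), IndX0_sgn hB, one_mul,
    rd_mul (h1 T hT) (h2 T), rd_prod _ fun q _ => hF T q]

theorem secX_rd (hB : (2 : ℂ)⁻¹ ∉ B) (hF : ∀ T : Finset ι, ∀ q, F T q ∈ B)
    (hF1 : ∀ T : Finset ι, ∀ q, F1 T q ∈ B)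
    (hu : ∀ T ⊆ S, T.Nonempty → u T ∈ B)
    (h : ∀ J ⊆ S, J.Nonempty →
      Rt B ((∑ T ∈ J.powerset.erase ∅, (-1) ^ T.card * (y T * ∏ q ∈ J \ T, F T q) -
        ∑ T ∈ J.powerset.erase ∅, (-1) ^ T.card * (u T * ∏ q ∈ J \ T, F1 T q)) / lm)
        (if J.card = 1 then ∑ i ∈ J, v i else 0)) :
    ∀ J ⊆ S, J.Nonempty → opW (fun T q => rd B (F T q)) (fun T => rd B (y T)) J =
      opW (fun T q => rd B (F1 T q)) (fun T => rd B (u T)) J +
        lX B * phX B hB (if J.card = 1 then ∑ i ∈ J, v i else 0) := by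
  intro J hJ hJ0
  have hy := secX_mem hF hF1 hu h
  obtain ⟨a1, a2⟩ := IndX0_op hB hF (y := y) (J := J) fun T hT hT' => hy T (hT.trans hJ) hT'
  obtain ⟨b1, b2⟩ := IndX0_op hB hF1 (y := u) (J := J) fun T hT hT' => hu T (hT.trans hJ) hT'
  have h1 := h J hJ hJ0
  have h2 := lX_mul_Rt hB h1
  rw [← rd_lm, ← rd_mul (lmB B) (IndX0_mem h1), mul_div_cancel₀ _ lm_ne, rd_sub a1 b1, a2, b2] at h2
  rw [rd_lm] at h2
  rw [← h2]
  ring

end

end

end Pool.Agent.Lib.MP_1a91b9_ntQ
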