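import Pool.Agent.Lib.MP_1a91b9_nuX.HQ.Ja
import Pool.Agent.Lib.MP_1a91b9_nuX.HQ.Ch
import Pool.Agent.Lib.MP_1a91b9_nt.VarChange

/-!
# TwistDensity, phase 4 (quartic twists), part A, file Jac4: the number of points of `y² = x³ - d x`
over a finite field with `4 ∣ N - 1` elements, and the biquadratic Jacobi sum

`#E = N + 1 + χ(d)³ χ(-1) J(χ, χ) + χ(d) χ(-1) J(χ³, χ³)` and `J(χ, χ) = -χ(-1) β` for the biquadratic residue
character `χ` modulo `β`, `β` congruent to `1` modulo `(1 + i)³`.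
-/

set_option autoImplicit false

namespace Pool.Agent.Lib.MP_1a91b9_ntQ

open NumberField WeierstrassCurve Pool.Agent.Lib.MP_1a91b9_nt
open Pool.Agent.Lib.MP_1a91b9_nuX.HQ (GI w w_zero jac_sq)

section count

variable {k : Type} [Field k] [Fintype k] {R : Type} [CommRing R] [IsDomain R]

/-- the square of a character of order `4` is the quadratic character -/
theorem sq_char [DecidableEq k] (χ : MulChar k R) (h4 : χ ^ 4 = 1)
    (hn : χ ^ 2 ≠ 1) (s : k) : (χ ^ 2) s = ((quadraticChar k s : ℤ) : R) := by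
  have hsq : ∀ x : k, x ≠ 0 → (χ ^ 2) (x ^ 2) = 1 := by
    intro x hx
    have e : (χ ^ 2) (x ^ 2) = (χ ^ 4) x := by
      rw [MulChar.pow_apply' χ two_ne_zero, MulChar.pow_apply' χ four_ne_zero, map_pow, ← pow_mul]
    rw [e, h4, MulChar.one_apply (isUnit_iff_ne_zero.2 hx)]
  by_cases hs : s = 0
  · subst hs
    rw [MulChar.map_zero, MulChar.map_zero, Int.cast_zero]
  have hone : ∀ x : k, x ≠ 0 → quadraticChar k x = 1 → (χ ^ 2) x = 1 := by
    intro x hx h
    obtain ⟨y, hy⟩ := (quadraticChar_one_iff_isSquare hx).1 h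
    have hy0 : y ≠ 0 := by
      rintro rfl
      rw [mul_zero] at hy
      exact hx hy
    rw [hy, ← pow_two]
    exact hsq y hy0
  rcases quadraticChar_dichotomy hs with h | h
  · rw [h, hone s hs h, Int.cast_one]
  · obtain ⟨u, hu⟩ : ∃ u : kˣ, (χ ^ 2) u ≠ 1 := by
      by_contra hc
      push Not at hc
      exact hn (MulChar.ext fun u => by rw [hc u, MulChar.one_apply_coe])
    have hg0 : (u : k) ≠ 0 := u.ne_zero
    have hg1 : quadraticChar k (u : k) = -1 := by
      rcases quadraticChar_dichotomy hg0 with h1 | h1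
      · exact absurd (hone _ hg0 h1) hu
      · exact h1
    have hgs : (χ ^ 2) ((u : k) * s) = 1 := by
      refine hone _ (mul_ne_zero hg0 hs) ?_
      rw [map_mul, h, hg1]
      norm_num
    have hgg : (χ ^ 2) (u : k) = -1 := by
      have h5 := hsq (u : k) hg0
      rw [map_pow] at h5
      have h6 : ((χ ^ 2) (u : k) - 1) * ((χ ^ 2) (u : k) + 1) = 0 := by linear_combination h5
      rcases mul_eq_zero.1 h6 with h7 | h7
      · exact absurd (sub_eq_zero.1 h7) hu
      · exact eq_neg_of_add_eq_zero_left h7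
    rw [map_mul, hgg] at hgs
    rw [h]
    push_cast
    linear_combination -hgs

/-- the number of square roots -/
theorem card_sq [DecidableEq k] (h2 : ringChar k ≠ 2) (χ : MulChar k R) (h4 : χ ^ 4 = 1)
    (hn : χ ^ 2 ≠ 1) (s : k) :
    ((Finset.univ.filter fun y : k => y ^ 2 = s).card : R) = 1 + (χ ^ 2) s := by
  have h := quadraticChar_card_sqrts h2 s
  have e : {x : k | x ^ 2 = s}.toFinset = Finset.univ.filter fun y : k => y ^ 2 = s := by
    ext y
    simp
  rw [e] at h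
  rw [sq_char χ h4 hn s]
  have h1 := congrArg (fun z : ℤ => (z : R)) h
  push_cast at h1
  rw [h1]
  ring

/-- a sum over the squares -/
theorem sum_sq [DecidableEq k] (h2 : ringChar k ≠ 2) (χ : MulChar k R) (h4 : χ ^ 4 = 1)
    (hn : χ ^ 2 ≠ 1) (F : k → R) : ∑ x : k, F (x ^ 2) = ∑ s : k, (1 + (χ ^ 2) s) * F s := by
  have h1 : ∑ x : k, F (x ^ 2) = ∑ s : k, ∑ x ∈ Finset.univ.filter (fun y : k => y ^ 2 = s), F s := by
    rw [← Finset.sum_fiberwise (s := Finset.univ) (g := fun x : k => x ^ 2) (f := fun x => F (x ^ 2))]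
    refine Finset.sum_congr rfl fun s _ => ?_
    refine Finset.sum_congr rfl fun x hx => ?_
    rw [(Finset.mem_filter.1 hx).2]
  rw [h1]
  refine Finset.sum_congr rfl fun s _ => ?_
  rw [Finset.sum_const, nsmul_eq_mul, card_sq h2 χ h4 hn s]

/-- `J(χ, χ²) = χ(4) J(χ, χ)` -/
theorem jac_double [DecidableEq k] (h2 : ringChar k ≠ 2) (χ : MulChar k R) (h4 : χ ^ 4 = 1)
    (hn : χ ^ 2 ≠ 1) : jacobiSum χ (χ ^ 2) = χ 4 * jacobiSum χ χ := by
  have h20 : (2 : k) ≠ 0 := Ring.two_ne_zero h2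
  have hχ1 : χ ≠ 1 := by
    rintro rfl
    exact hn (one_pow 2)
  have h0 : ∑ s : k, χ (1 - s) = 0 := by
    rw [← MulChar.sum_eq_zero_of_ne_one hχ1]
    exact Equiv.sum_comp (Equiv.subLeft (1 : k)) (fun s => χ s)
  have h1 : χ 4 * jacobiSum χ χ = ∑ b : k, χ (1 - b ^ 2) := by
    rw [jacobiSum, Finset.mul_sum,
      ← Equiv.sum_comp ((Equiv.mulRight₀ (2⁻¹ : k) (inv_ne_zero h20)).trans (Equiv.addRight (2⁻¹ : k)))
        (fun a => χ 4 * (χ a * χ (1 - a)))]
    refine Finset.sum_congr rfl fun b _ => ?_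
    change χ 4 * (χ (b * 2⁻¹ + 2⁻¹) * χ (1 - (b * 2⁻¹ + 2⁻¹))) = _
    rw [← map_mul, ← map_mul]
    congr 1
    field_simp
    ring
  rw [h1, sum_sq h2 χ h4 hn (fun s => χ (1 - s))]
  have h3 : ∑ s : k, (1 + (χ ^ 2) s) * χ (1 - s) = ∑ s : k, χ (1 - s) + jacobiSum (χ ^ 2) χ := by
    rw [jacobiSum, ← Finset.sum_add_distrib]
    refine Finset.sum_congr rfl fun s _ => ?_
    ring
  rw [h3, h0, zero_add, jacobiSum_comm]

/-- the character sum of the curve -/
theorem curve_sum [DecidableEq k] (h2 : ringChar k ≠ 2) (χ : MulChar k R) (h4 : χ ^ 4 = 1)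
    (hn : χ ^ 2 ≠ 1) (d : k) (hd : d ≠ 0) (hm : (χ ^ 2) (-1) = 1) :
    ∑ x : k, (χ ^ 2) (x ^ 3 - d * x) =
      χ d ^ 3 * jacobiSum χ (χ ^ 2) + χ d * jacobiSum (χ ^ 3) (χ ^ 2) := by
  have hu : ∀ x : k, x ≠ 0 → χ x ^ 4 = 1 := by
    intro x hx
    rw [← MulChar.pow_apply' χ four_ne_zero, h4, MulChar.one_apply (isUnit_iff_ne_zero.2 hx)]
  have h1 : ∑ x : k, (χ ^ 2) (x ^ 3 - d * x) = ∑ x : k, (fun s => χ s * (χ ^ 2) (s - d)) (x ^ 2) := by
    refine Finset.sum_congr rfl fun x _ => ?_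
    change _ = χ (x ^ 2) * (χ ^ 2) (x ^ 2 - d)
    have e : x ^ 3 - d * x = x * (x ^ 2 - d) := by ring
    rw [e, map_mul, MulChar.pow_apply' χ two_ne_zero x, map_pow χ x 2]
  rw [h1, sum_sq h2 χ h4 hn (fun s => χ s * (χ ^ 2) (s - d))]
  have h5 : ∀ s : k, (1 + (χ ^ 2) s) * (χ s * (χ ^ 2) (s - d)) =
      χ s * (χ ^ 2) (s - d) + (χ ^ 3) s * (χ ^ 2) (s - d) := by
    intro s
    rw [MulChar.pow_apply' χ three_ne_zero s, MulChar.pow_apply' χ two_ne_zero s]
    ring
  rw [Finset.sum_congr rfl fun s _ => h5 s, Finset.sum_add_distrib]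
  have h6 : ∀ ψ : MulChar k R, ∑ s : k, ψ s * (χ ^ 2) (s - d) =
      ψ d * χ d ^ 2 * jacobiSum ψ (χ ^ 2) := by
    intro ψ
    rw [jacobiSum, Finset.mul_sum, ← Equiv.sum_comp (Equiv.mulLeft₀ d hd)
      (fun s => ψ s * (χ ^ 2) (s - d))]
    refine Finset.sum_congr rfl fun t _ => ?_
    change ψ (d * t) * (χ ^ 2) (d * t - d) = _
    have e : d * t - d = d * ((-1) * (1 - t)) := by ring
    rw [e, map_mul, map_mul, map_mul, hm, one_mul, MulChar.pow_apply' χ two_ne_zero d]
    ring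
  rw [h6, h6, MulChar.pow_apply' χ three_ne_zero d]
  linear_combination (χ d * jacobiSum (χ ^ 3) (χ ^ 2)) * hu d hd

end count

section points

variable {k : Type} [Field k] [Fintype k]

omit [Fintype k] in
private theorem cd_delta (d : k) :
    (⟨0, 0, 0, -d, 0⟩ : WeierstrassCurve k).Δ = 64 * d ^ 3 := by
  simp only [WeierstrassCurve.Δ, WeierstrassCurve.b₂, WeierstrassCurve.b₄, WeierstrassCurve.b₆,
    WeierstrassCurve.b₈]
  ring

theorem card_point4 [DecidableEq k] (h2 : (2 : k) ≠ 0) (d : k) (hd : d ≠ 0) :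
    Nat.card (WeierstrassCurve.toAffine (⟨0, 0, 0, -d, 0⟩ : WeierstrassCurve k)).Point =
      1 + ∑ x : k, (Finset.univ.filter fun y : k => y ^ 2 = x ^ 3 - d * x).card := by
  classical
  set W : WeierstrassCurve k := ⟨0, 0, 0, -d, 0⟩ with hW
  have hns : ∀ p : k × k, W.toAffine.Nonsingular p.1 p.2 ↔ p.2 ^ 2 = p.1 ^ 3 - d * p.1 := by
    intro p
    have hell : W.Δ ≠ 0 := by
      rw [hW, cd_delta]
      have : (64 : k) = 2 ^ 6 := by norm_num
      rw [this]
      exact mul_ne_zero (pow_ne_zero 6 h2) (pow_ne_zero 3 hd)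
    have hE : W.IsElliptic := ⟨isUnit_iff_ne_zero.mpr hell⟩
    rw [← WeierstrassCurve.Affine.equation_iff_nonsingular,
      WeierstrassCurve.Affine.equation_iff]
    simp only [hW, WeierstrassCurve.toAffine]
    constructor
    · intro h
      linear_combination h
    · intro h
      linear_combination h
  rw [Nat.card_congr (pointEquivOption _), Finite.card_option, add_comm]
  congr 1
  rw [Nat.card_eq_fintype_card, Fintype.card_subtype]
  have e1 : (Finset.univ.filter fun p : k × k => W.toAffine.Nonsingular p.1 p.2) =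
      Finset.univ.filter fun p : k × k => p.2 ^ 2 = p.1 ^ 3 - d * p.1 :=
    Finset.filter_congr fun p _ => hns p
  rw [e1, Finset.card_eq_sum_card_fiberwise (f := Prod.fst) (t := Finset.univ)
    (fun _ _ => Finset.mem_coe.mpr (Finset.mem_univ _))]
  refine Finset.sum_congr rfl fun x _ => ?_
  refine Finset.card_bij (fun p _ => p.2) ?_ ?_ ?_
  · rintro ⟨a, b⟩ hp
    simp only [Finset.mem_filter, Finset.mem_univ, true_and] at hp ⊢
    obtain ⟨h1, rfl⟩ := hp
    exact h1
  · rintro ⟨a, b⟩ hp ⟨a', b'⟩ hp' h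
    simp only [Finset.mem_filter, Finset.mem_univ, true_and] at hp hp' h
    rw [Prod.mk.injEq]
    exact ⟨hp.2.trans hp'.2.symm, h⟩
  · intro b hb
    simp only [Finset.mem_filter, Finset.mem_univ, true_and] at hb
    exact ⟨(x, b), by simpa using hb, rfl⟩

end points

section gauss

variable {K : Type} [Field K] [NumberField K] {i : 𝓞 K}

theorem gi_lam3 (h : GI i) : (1 + i) ^ 3 = -2 + 2 * i := by
  linear_combination (3 + i) * h.sq

theorem gi_two_not (h : GI i) : ¬ (1 + i) ^ 3 ∣ (2 : 𝓞 K) := by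
  rintro ⟨z, hz⟩
  have h1 : ((4 : ℤ) : 𝓞 K) ∣ ((2 : ℤ) : 𝓞 K) + ((2 : ℤ) : 𝓞 K) * i := by
    refine ⟨-z, ?_⟩
    rw [gi_lam3 h] at hz
    push_cast
    linear_combination (1 + i) * hz + 2 * z * h.sq
  have h2 := (h.int_dvd.1 h1).1
  omega

/-- the units are congruent to `1` modulo `1 + i` -/
theorem gi_w_sub (h : GI i) (c : ZMod 4) : (1 + i) ∣ w i c - 1 := by
  have h4 : ∀ c : ZMod 4, c = 0 ∨ c = 1 ∨ c = 2 ∨ c = 3 := by decide
  rcases h4 c with rfl | rfl | rfl | rfl
  · rw [w_zero, sub_self]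
    exact dvd_zero _
  · rw [h.w_one]
    exact ⟨i, by linear_combination -h.sq⟩
  · rw [h.w_two]
    exact ⟨-1 + i, by linear_combination -h.sq⟩
  · rw [h.w_three]
    exact ⟨-1, by ring⟩

/-- **The biquadratic Jacobi sum.** -/
theorem jac_val (h : GI i) {k : Type} [Field k] [Fintype k] (ρ : 𝓞 K →+* k)
    {β : 𝓞 K} (hβ : (1 + i) ^ 3 ∣ β - 1) (hker : RingHom.ker ρ = Ideal.span {β})
    (hN : Ideal.absNorm (Ideal.span {β}) = Fintype.card k) (h2 : (2 : k) ≠ 0)
    (m : ℕ) (hq : Fintype.card k - 1 = 4 * m) (χ : MulChar k (𝓞 K)) (hχ4 : χ ^ 4 = 1)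
    (hχ2 : χ ^ 2 ≠ 1) (hχρ : ∀ x, ρ (χ x) = x ^ m)
    (hχv : ∀ x : k, x ≠ 0 → ∃ c : ZMod 4, χ x = w i c) :
    χ 4 = χ (-1) ∧ χ (-1) ^ 2 = 1 ∧ (χ (-1) = 1 ∨ χ (-1) = -1) ∧ jacobiSum χ χ = -χ (-1) * β := by
  classical
  have hu : ∀ x : k, x ≠ 0 → χ x ^ 4 = 1 := by
    intro x hx
    rw [← MulChar.pow_apply' χ four_ne_zero, hχ4, MulChar.one_apply (isUnit_iff_ne_zero.2 hx)]
  have hm1 : χ (-1) ^ 2 = 1 := by
    rw [← map_pow]
    norm_num
  have hpm : χ (-1) = 1 ∨ χ (-1) = -1 := by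
    have h6 : (χ (-1) - 1) * (χ (-1) + 1) = 0 := by linear_combination hm1
    rcases mul_eq_zero.1 h6 with h7 | h7
    · exact Or.inl (sub_eq_zero.1 h7)
    · exact Or.inr (eq_neg_of_add_eq_zero_left h7)
  -- `χ 4`
  have hli : (1 + ρ i) ^ 4 = -4 := by
    have h3 : ρ i ^ 2 = -1 := by rw [← map_pow, h.sq, map_neg, map_one]
    linear_combination (ρ i ^ 2 + 4 * ρ i + 5) * h3
  have h40 : (4 : k) ≠ 0 := by
    have e : (4 : k) = 2 ^ 2 := by norm_num
    rw [e]
    exact pow_ne_zero 2 h2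
  have hl0 : 1 + ρ i ≠ 0 := by
    intro h0
    rw [h0, zero_pow (by norm_num)] at hli
    exact h40 (by linear_combination hli)
  have hχ4' : χ 4 = χ (-1) := by
    have h5 : χ (-1) * χ 4 = 1 := by
      rw [← map_mul, neg_one_mul, ← hli, map_pow]
      exact hu _ hl0
    linear_combination χ (-1) * h5 - χ 4 * hm1
  refine ⟨hχ4', hm1, hpm, ?_⟩
  -- `J ^ 2 = β ^ 2`
  have hβ2 : (2 : 𝓞 K) ∣ β - 1 := by
    refine Dvd.dvd.trans ⟨-1 + i, ?_⟩ hβ
    linear_combination gi_lam3 h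
  have hJ2 := jac_sq h ρ hβ2 hker hN m hq χ hχ4 hχ2 hχρ hχv
  have hJ : jacobiSum χ χ = β ∨ jacobiSum χ χ = -β := by
    have h6 : (jacobiSum χ χ - β) * (jacobiSum χ χ + β) = 0 := by linear_combination hJ2
    rcases mul_eq_zero.1 h6 with h7 | h7
    · exact Or.inl (sub_eq_zero.1 h7)
    · exact Or.inr (eq_neg_of_add_eq_zero_left h7)
  -- the Jacobi sum modulo `(1 + i) ^ 3`
  have hmod : (1 + i) ^ 3 ∣ jacobiSum χ χ - (-2 + χ (-1)) := by
    set I : Ideal (𝓞 K) := Ideal.span {(1 + i) ^ 3} with hI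
    have hz : ∀ x : 𝓞 K, (Ideal.Quotient.mk I) x = 0 ↔ (1 + i) ^ 3 ∣ x := by
      intro x
      rw [Ideal.Quotient.eq_zero_iff_mem, hI, Ideal.mem_span_singleton]
    set half : k := 2⁻¹ with hhalf
    have hh1 : 1 - half = half := by
      rw [hhalf]
      field_simp
      norm_num
    have hh0 : half ≠ 0 := inv_ne_zero h2
    set f : k → 𝓞 K := fun a => χ a * χ (1 - a) with hf
    have hfhalf : f half = χ (-1) := by
      have h5 : χ half ^ 2 * χ 4 = 1 := by
        rw [← map_pow, ← map_mul]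
        have e : half ^ 2 * 4 = 1 := by
          rw [hhalf]
          field_simp
          norm_num
        rw [e, map_one]
      change χ half * χ (1 - half) = _
      rw [hh1]
      rw [hχ4'] at h5
      linear_combination χ (-1) * h5 - χ half ^ 2 * hm1
    have hfu : ∀ a : k, a ≠ 0 → a ≠ 1 → (1 + i) ∣ f a - 1 := by
      intro a ha ha1
      obtain ⟨c, hc⟩ := hχv a ha
      obtain ⟨c', hc'⟩ := hχv (1 - a) (sub_ne_zero.2 (Ne.symm ha1))
      change (1 + i) ∣ χ a * χ (1 - a) - 1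
      rw [hc, hc', ← h.w_add]
      exact gi_w_sub h _
    -- the set
    set s : Finset k := ((Finset.univ.erase 0).erase 1).erase half with hs
    have hmem : ∀ a : k, a ∈ s ↔ a ≠ half ∧ a ≠ 1 ∧ a ≠ 0 := by
      intro a
      simp [hs]
    have hhalf1 : half ≠ 1 := by
      intro h0
      rw [h0, sub_self] at hh1
      exact one_ne_zero hh1.symm
    have hsum : jacobiSum χ χ = f half + ∑ a ∈ s, f a := by
      have h01 : (1 : k) ∈ Finset.univ.erase (0 : k) := by simp
      have h02 : half ∈ (Finset.univ.erase (0 : k)).erase 1 := by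
        simp [hh0, hhalf1]
      rw [jacobiSum, ← Finset.add_sum_erase Finset.univ (fun x => χ x * χ (1 - x)) (Finset.mem_univ 0),
        ← Finset.add_sum_erase _ (fun x => χ x * χ (1 - x)) h01,
        ← Finset.add_sum_erase _ (fun x => χ x * χ (1 - x)) h02]
      rw [MulChar.map_zero, zero_mul, zero_add, sub_self, MulChar.map_zero, mul_zero, zero_add]
    have hcard : s.card = 4 * m - 2 := by
      have h01 : (1 : k) ∈ Finset.univ.erase (0 : k) := by simp
      have h02 : half ∈ (Finset.univ.erase (0 : k)).erase 1 := by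
        simp [hh0, hhalf1]
      rw [hs, Finset.card_erase_of_mem h02, Finset.card_erase_of_mem h01,
        Finset.card_erase_of_mem (Finset.mem_univ 0), Finset.card_univ]
      omega
    have hm0 : 0 < m := by
      rcases Nat.eq_zero_or_pos m with h1 | h1
      · subst h1
        have h2 := Fintype.one_lt_card (α := k)
        omega
      · exact h1
    have hinv : ∑ a ∈ s, (Ideal.Quotient.mk I) (f a - 1) = 0 := by
      refine Finset.sum_involution (fun a _ => 1 - a) ?_ ?_ ?_ ?_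
      · intro a ha
        obtain ⟨h1, h2', h3⟩ := (hmem a).1 ha
        have e : f (1 - a) = f a := by
          change χ (1 - a) * χ (1 - (1 - a)) = χ a * χ (1 - a)
          rw [sub_sub_cancel]
          ring
        rw [e, ← map_add, hz]
        obtain ⟨z, hz'⟩ := hfu a h3 h2'
        have e2 : f a - 1 + (f a - 1) = (1 + i) * 2 * z := by linear_combination 2 * hz'
        rw [e2]
        refine Dvd.dvd.mul_right ⟨-i, ?_⟩ z
        rw [gi_lam3 h]
        linear_combination 2 * h.sq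
      · intro a ha _ h3
        obtain ⟨h1, _, _⟩ := (hmem a).1 ha
        apply h1
        rw [hhalf]
        have e : 2 * a = 1 := by linear_combination -h3
        rw [eq_comm, inv_eq_of_mul_eq_one_right e]
      · intro a ha
        obtain ⟨h1, h2', h3⟩ := (hmem a).1 ha
        refine (hmem _).2 ⟨?_, ?_, ?_⟩
        · intro h4
          apply h1
          rw [← sub_sub_cancel 1 a, h4, hh1]
        · intro h4
          apply h3
          linear_combination -h4
        · exact sub_ne_zero.2 (Ne.symm h2')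
      · intro a _
        exact sub_sub_cancel 1 a
    rw [← map_sum, hz, Finset.sum_sub_distrib, Finset.sum_const, hcard, nsmul_eq_mul, mul_one] at hinv
    have e : jacobiSum χ χ - (-2 + χ (-1)) =
        (∑ a ∈ s, f a - ((4 * m - 2 : ℕ) : 𝓞 K)) + (4 * (m : 𝓞 K)) := by
      rw [hsum, hfhalf, Nat.cast_sub (by omega)]
      push_cast
      ring
    rw [e]
    refine dvd_add hinv ?_
    refine Dvd.dvd.mul_right ⟨-(1 + i), ?_⟩ _
    rw [gi_lam3 h]
    linear_combination 2 * h.sq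
  rcases hpm with h1 | h1
  · rw [h1] at hmod ⊢
    rcases hJ with hJ | hJ
    · exfalso
      rw [hJ] at hmod
      apply gi_two_not h
      have e : (2 : 𝓞 K) = (β - (-2 + 1)) - (β - 1) := by ring
      rw [e]
      exact dvd_sub hmod hβ
    · rw [hJ]
      ring
  · rw [h1] at hmod ⊢
    rcases hJ with hJ | hJ
    · rw [hJ]
      ring
    · exfalso
      rw [hJ] at hmod
      apply gi_two_not h
      have e : (2 : 𝓞 K) = (-β - (-2 + -1)) + (β - 1) := by ring
      rw [e]
      exact dvd_add hmod hβ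

end gauss

end Pool.Agent.Lib.MP_1a91b9_ntQ
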