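import Pool.Agent.Lib.MP_1a91b9_ntQ.A.AvgE
import Pool.Agent.Lib.MP_1a91b9_ntQ.A.PsE

/-!
# Quartic twists, part A, file LaE0S: the value of the class (E), `lam ∥ D`, for `S = ∅`, the fourth power

`LaE k ∅ = - Om tE V4 (sE k) (tE pe ^ 7)`. At `w = tE pe ^ 5` the point `w` is its own partner of a
pair, thus `kE w ^ 2 = - i` (`k` odd) or `i` (`k` even), and `V4 (sE k) (tE pe ^ 7)` is `0` for
`k = 1, 2` and has the fourth power `2048 (1 + i)`, `2048 (1 - i)` for `k = 3, 0`.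
-/

set_option autoImplicit false
set_option linter.unusedSectionVars false

namespace Pool.Agent.Lib.MP_1a91b9_ntQ

open NumberField Pool.Agent.Lib.MP_1a91b9_nuT Pool.Agent.Lib.MP_1a91b9_nuT.S3
  Pool.Agent.Lib.MP_1a91b9_nuT.Ell

noncomputable section

theorem LaE0_reps : RepsG (lam ^ 3) (lam ^ 3 * DDq ∅) (fun _ : Unit => (1 : 𝓞 K)) where
  ne := by
    rw [DDq_empty, mul_one]
    exact pow_ne_zero 3 lam_ne_zero
  dvd := dvd_mul_right _ _
  fx _ := by
    rw [sub_self]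
    exact dvd_zero _
  cop _ := isCoprime_one_left
  ex a _ h := ⟨(), by rwa [DDq_empty, mul_one]⟩
  inj _ _ _ := rfl

/-- the value for `S = ∅` -/
theorem LaE_empty_eq (k : ZMod 4) : LaE k ∅ = -(Om * tE k) * V4 (sE k) (tE k * pe ^ 7) := by
  have h := avgE k ∅ LaE0_reps (y := fun _ => 0) (fun _ => by
    rw [DDq_empty, mul_zero, add_zero])
  have e1 : w4 ∅ (1 : 𝓞 K) = 1 := by
    rw [w4, Finset.prod_empty]
  have e2 : em (0 : 𝓞 K) = 0 := map_zero _
  rw [Finset.powerset_empty, Finset.sum_singleton, Finset.card_empty, pow_zero, one_mul,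
    Finset.sdiff_self, Finset.prod_empty, mul_one, Fintype.sum_unique, e1, e2, DDq_empty,
    thE_one, zero_div, add_zero, one_mul, mul_one] at h
  exact h

section
variable [CD] [hq : Q4]

theorem LaE0_pe5 : 2 * pe ^ 5 = -(zt * pe ^ 3) := by
  have h2 := lm_sq (hq := hq)
  have h4 : lm ^ 2 * pe ^ 2 = 1 := PsE_lm_pe 2
  linear_combination (-(zt * pe ^ 3)) * h4 + (zt * pe ^ 5) * h2 + (2 * pe ^ 5) * zt_sq

theorem LaE0_pe7 : lm ^ 2 * pe ^ 7 = pe ^ 5 := by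
  linear_combination pe ^ 5 * PsE_lm_pe (hq := hq) 2

theorem LaE0_lm_pe5 : lm * pe ^ 5 = pe ^ 4 := by
  linear_combination pe ^ 4 * PsE_lm_pe (hq := hq) 1

theorem LaE0_lm2_pe5 : lm ^ 2 * pe ^ 5 = pe ^ 3 := by
  linear_combination pe ^ 3 * PsE_lm_pe (hq := hq) 2

/-- the algebra of a self-paired point, `e = 1` or `-1` -/
theorem LaE0_alg {e κ p m g2 io s x g : ℂ} (he : e ^ 2 = 1) (hsx : s * x = x + 1)
    (hx : x ^ 2 = 2 * x + 1) (hx0 : x ≠ 0) (hg2 : g2 = -(e * zt * x)) (hp : p * g = g2 + 1)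
    (hm : m * g = g2 - 1) (h1 : κ * κ = -(e * zt)) (h2 : p * κ = -m) :
    p + (κ + s * io) * m = s * m * (e * zt + io) := by
  have hz := zt_sq (hq := hq)
  have k1 : (1 - e * zt * x) * κ = 1 + e * zt * x := by
    linear_combination g * h2 - κ * hp - hm - (κ + 1) * hg2
  have k2 : 1 - e * zt * x ≠ 0 := by
    intro h
    rw [h, zero_mul] at k1
    have k3 : (2 : ℂ) = 0 := by linear_combination h - k1
    exact two_ne_zero k3
  have k4 : κ * (1 - e * zt) = s * (e * zt) := by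
    apply mul_left_cancel₀ k2
    apply mul_left_cancel₀ hx0
    linear_combination (x * (1 - e * zt)) * k1 - (e * zt * (1 - e * zt * x)) * hsx +
      (e * zt) * hx + (x * zt ^ 2) * he + x * hz
  have k5 : p = -(e * zt * κ * m) := by
    linear_combination (p * zt ^ 2) * he + p * hz - (e * zt * p) * h1 + (e * zt * κ) * h2
  rw [k5]
  linear_combination m * k4

/-- the function at a self-paired point -/
theorem LaE0_jE {e io w : ℂ} (he : e ^ 2 = 1) (hw : 2 * (lm * w) ∉ PP.lattice)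
    (hX : X (lm * w) = e * X (pe ^ 4)) (hP : PairE e w w) :
    jE io w = sq2 * mE w * (e * zt + io) ∧ mE w ^ 2 = -2 * (1 + e * zt) := by
  have hw1 := two_of hw
  obtain ⟨h1, h2, -⟩ := hP
  refine ⟨LaE0_alg he sq2_mul X_pe4 X_pe4_ne ?_ (pE_mul hw1) (mE_mul hw1) h1 h2, ?_⟩
  · rw [gE_sq hw1, hX]
    ring
  · rw [mE_sq hw]
    linear_combination 2 * h1

/-- the square and the fourth power -/
theorem LaE0_V {e io z : ℂ} (he : e ^ 2 = 1) (hi : io ^ 2 = -1)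
    (hz : 2 * (lm * (lm ^ 2 * z)) ∉ PP.lattice)
    (hX : X (lm * (lm ^ 2 * z)) = e * X (pe ^ 4)) (hP : PairE e (lm ^ 2 * z) (lm ^ 2 * z)) :
    (io = -(e * zt) → V4 io z = 0) ∧ (io = e * zt → V4 io z ^ 4 = 2048 * (1 + e * zt)) := by
  obtain ⟨h1, h2⟩ := LaE0_jE (io := io) he hz hX hP
  have h3 := PO_pe4_sq hi (two_of hz)
  rw [h1] at h3
  have h4 : V4 io z ^ 2 = -16 * mE (lm ^ 2 * z) * (e * zt + io) := by
    rw [V4, h3]
    linear_combination (-8 * mE (lm ^ 2 * z) * (e * zt + io)) * sq2_sq (hq := hq)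
  constructor
  · intro h
    rw [h, add_neg_cancel, mul_zero] at h4
    rw [h]
    exact pow_eq_zero_iff two_ne_zero |>.1 h4
  · intro h
    rw [h] at h4 ⊢
    have e1 : V4 (e * zt) z ^ 4 = (V4 (e * zt) z ^ 2) ^ 2 := by ring
    rw [e1, h4]
    linear_combination (1024 * e ^ 2 * zt ^ 2) * h2 - (2048 * (1 + e * zt) * zt ^ 2) * he -
      (2048 * (1 + e * zt)) * zt_sq (hq := hq)

theorem LaE0_hz : 2 * (lm * (lm ^ 2 * pe ^ 7)) ∉ PP.lattice := by
  rw [LaE0_pe7, LaE0_lm_pe5]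
  exact two_pe4_notMem

/-- the function at the base point, `k` odd -/
theorem LaE0_V1 {io : ℂ} (hi : io ^ 2 = -1) :
    (io = -(1 * zt) → V4 io (pe ^ 7) = 0) ∧
      (io = 1 * zt → V4 io (pe ^ 7) ^ 4 = 2048 * (1 + 1 * zt)) := by
  have h := pairE1 (LaE0_hz (hq := hq))
  have e : -(lm ^ 2 * pe ^ 7 + zt * pe ^ 3) = lm ^ 2 * pe ^ 7 := by
    linear_combination -LaE0_pe5 (hq := hq) - 2 * LaE0_pe7 (hq := hq)
  rw [e] at h
  refine LaE0_V (one_pow 2) hi LaE0_hz ?_ h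
  rw [LaE0_pe7, LaE0_lm_pe5, one_mul]

/-- the function at the base point, `k` even -/
theorem LaE0_V0 {io : ℂ} (hi : io ^ 2 = -1) :
    (io = -(-1 * zt) → V4 io (-zt * pe ^ 7) = 0) ∧
      (io = -1 * zt → V4 io (-zt * pe ^ 7) ^ 4 = 2048 * (1 + -1 * zt)) := by
  have e0 : lm * (lm ^ 2 * (-zt * pe ^ 7)) = -(zt * pe ^ 4) := by
    linear_combination (-(zt * lm)) * LaE0_pe7 (hq := hq) - zt * LaE0_lm_pe5 (hq := hq)
  have hz : 2 * (lm * (lm ^ 2 * (-zt * pe ^ 7))) ∉ PP.lattice := by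
    rw [e0]
    exact two_neg_notMem (two_zt two_pe4_notMem)
  have h := pairE0 hz
  have e : -(lm ^ 2 * (-zt * pe ^ 7) + pe ^ 3) = lm ^ 2 * (-zt * pe ^ 7) := by
    linear_combination (2 * zt) * LaE0_pe7 (hq := hq) + zt * LaE0_pe5 (hq := hq) -
      pe ^ 3 * zt_sq (hq := hq)
  rw [e] at h
  refine LaE0_V (by norm_num) hi hz ?_ h
  rw [e0, Ell.X_neg, X_i (notMem_of_two_mul two_pe4_notMem), neg_one_mul]

end

end

end Pool.Agent.Lib.MP_1a91b9_ntQ
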