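import Pool.Agent.Lib.MP_1a91b9_ntQ.A.LocO

/-!
# Quartic twists, part A, file Loc0: the values of `E1` for `k = 0`

`E1 (pe ^ 3)`; if `R` has odd order then `E1 (pe ^ 3 + R) / E1 (pe ^ 3) - 1` is in `lm m`; if
`z + z'` is congruent to `pe` then the sum of the two quotients is in `2 m`.
-/

set_option autoImplicit false
set_option linter.unusedSectionVars false

namespace Pool.Agent.Lib.MP_1a91b9_ntQ

open NumberField Pool.Agent.Lib.MP_1a91b9_nuT Pool.Agent.Lib.MP_1a91b9_nuT.S3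
  Pool.Agent.Lib.MP_1a91b9_nuT.Ell

noncomputable section

variable [CD] [hq : Q4]

theorem two_E1_pe3 : 2 * E1 (pe ^ 3) = -(Om * gg (pe ^ 3)) := by
  have h1 := E1_add_pe (pe ^ 3)
  have h2 : E1 (pe ^ 3 + pe) = -E1 (pe ^ 3) := by
    rw [← S3.E1_neg]
    refine E1_congr' ?_
    have e : pe ^ 3 + pe - -(pe ^ 3) = (2 * pe ^ 3 - pe) + 2 * pe := by ring
    rw [e]
    exact add_mem two_pe3 two_pe_mem
  rw [h2] at h1
  linear_combination -h1

theorem lm_pe3 : lm * pe ^ 3 = pe ^ 2 := by linear_combination pe ^ 2 * lm_mul_pe (hq := hq)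

theorem gG_pe3 : gG (pe ^ 3) ^ 2 = -1 := by
  rw [gG_sq two_pe3_notMem, lm_pe3, X_pe2]

variable {B : ValuationSubring ℂ}

theorem v_gG_pe3 : B.valuation (gG (pe ^ 3)) = 1 := v_one_of_sq (Or.inl gG_pe3)

theorem v_E1_pe3 : B.valuation (E1 (pe ^ 3)) * B.valuation lm = B.valuation Om := by
  have h1 := congrArg B.valuation (two_E1_pe3 (hq := hq))
  rw [gg_gG, map_mul, Valuation.map_neg, map_mul, map_mul, v_gG_pe3, mul_one, ← v_lm_sq] at h1
  have h2 : B.valuation lm ≠ 0 := (v_lm_pos).ne'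
  apply mul_right_cancel₀ h2
  rw [← h1, pow_two, mul_assoc, mul_comm]

/-- `E1 / Om` -/
def fE (z : ℂ) : ℂ := E1 z / Om

theorem fE_congr {x y : ℂ} (h : x - y ∈ PP.lattice) : fE x = fE y := by
  rw [fE, fE, E1_congr' h]

theorem fE_lm {z : ℂ} (hz : 2 * z ∉ PP.lattice) : fE (lm * z) = (1 - zt) * fE z + gG z := by
  have h := Om_ne_zero
  have hl := lm_ne (hq := hq)
  rw [fE, fE, E1_lm hz, gG, pe]
  field_simp

theorem v_cj : B.valuation (1 - zt) = B.valuation lm := by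
  have h := congrArg B.valuation (cj_lm (hq := hq))
  rw [map_mul, ← v_lm_sq, pow_two] at h
  exact mul_right_cancel₀ v_lm_pos.ne' h

theorem fE_pow (hB : (2 : ℂ)⁻¹ ∉ B) {R : ℂ} (hR : Od R) (n : ℕ) :
    B.valuation (fE (lm ^ n * R) - (1 - zt) ^ n * fE R) ≤ 1 := by
  induction n with
  | zero =>
    rw [pow_zero, pow_zero, one_mul, one_mul, sub_self, map_zero]
    exact zero_le
  | succ n ih =>
    have h1 := fE_lm (hR.pow n).two
    have e : lm ^ (n + 1) * R = lm * (lm ^ n * R) := by ring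
    rw [e, h1]
    have e2 : (1 - zt) * fE (lm ^ n * R) + gG (lm ^ n * R) - (1 - zt) ^ (n + 1) * fE R =
        (1 - zt) * (fE (lm ^ n * R) - (1 - zt) ^ n * fE R) + gG (lm ^ n * R) := by ring
    rw [e2]
    refine (Valuation.map_add _ _ _).trans (max_le ?_ (v_gG hB (hR.pow n)).le)
    rw [map_mul, v_cj]
    exact mul_le_one' (v_lm_lt hB).le ih

theorem v_fE (hB : (2 : ℂ)⁻¹ ∉ B) {R : ℂ} (hR : Od R) {n : ℕ} (hn : 0 < n)
    (h : lm ^ n * R - R ∈ PP.lattice) : B.valuation (fE R) ≤ 1 := by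
  have h1 := fE_pow hB hR n
  rw [fE_congr h] at h1
  have e : fE R - (1 - zt) ^ n * fE R = (1 - (1 - zt) ^ n) * fE R := by ring
  have h2 : B.valuation (1 - (1 - zt) ^ n) = 1 := by
    apply Valuation.map_one_sub_of_lt
    rw [map_pow, v_cj]
    exact pow_lt_one₀ zero_le (v_lm_lt hB) hn.ne'
  rw [e, map_mul, h2, one_mul] at h1
  exact h1

theorem v_fE_sub (hB : (2 : ℂ)⁻¹ ∉ B) {R : ℂ} (hR : Od R) {n : ℕ} (hn : 0 < n)
    (h : lm ^ n * R - R ∈ PP.lattice) : B.valuation (fE R - 1) < 1 := by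
  obtain ⟨m, rfl⟩ : ∃ m, n = m + 1 := ⟨n - 1, by omega⟩
  have h1 : fE R = fE (lm * (lm ^ m * R)) := by
    rw [← fE_congr h]
    congr 1
    ring
  have hR1 := hR.pow m
  have h2 : lm ^ (m + 1) * (lm ^ m * R) - lm ^ m * R ∈ PP.lattice := by
    have e : lm ^ (m + 1) * (lm ^ m * R) - lm ^ m * R = lm ^ m * (lm ^ (m + 1) * R - R) := by ring
    rw [e]
    exact lm_pow_mem h m
  have h3 := v_fE hB hR1 hn h2
  rw [h1, fE_lm hR1.two]
  have e : (1 - zt) * fE (lm ^ m * R) + gG (lm ^ m * R) - 1 =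
      (1 - zt) * fE (lm ^ m * R) + (gG (lm ^ m * R) - 1) := by ring
  rw [e]
  refine Valuation.map_add_lt _ ?_ (v_gG_sub hB hR1)
  rw [map_mul, v_cj]
  exact mul_lt_one_of_lt_of_le (v_lm_lt hB) h3

theorem lm3_pe3 : lm ^ 3 * pe ^ 3 = 1 := by
  rw [← mul_pow, lm_mul_pe, one_pow]

/-- the point `pe ^ 3 + R` -/
theorem Od.pe3_add {R : ℂ} (hR : Od R) : Od (pe ^ 3 + R) := by
  rw [add_comm]
  refine hR.add (n := 3) ?_
  rw [lm3_pe3]
  exact one_mem

theorem E1_pe3_ne : E1 (pe ^ 3) ≠ 0 := by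
  intro h
  have h1 := two_E1_pe3 (hq := hq)
  rw [h, mul_zero, eq_comm, neg_eq_zero, mul_eq_zero] at h1
  rcases h1 with h1 | h1
  · exact Om_ne_zero h1
  · exact gg_ne two_pe3_notMem h1

theorem fE_pe3_ne : fE (pe ^ 3) ≠ 0 := div_ne_zero E1_pe3_ne Om_ne_zero

theorem v_fE_pe3 : B.valuation (fE (pe ^ 3)) * B.valuation lm = 1 := by
  have h1 : B.valuation Om ≠ 0 := (Valuation.ne_zero_iff _).2 Om_ne_zero
  have h2 : fE (pe ^ 3) * Om = E1 (pe ^ 3) := div_mul_cancel₀ _ Om_ne_zero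
  have h3 := v_E1_pe3 (B := B) (hq := hq)
  rw [← h2, map_mul] at h3
  apply mul_right_cancel₀ h1
  rw [one_mul]
  conv_rhs => rw [← h3]
  exact mul_right_comm _ _ _

/-- the value of the quotient -/
theorem v_rho (hB : (2 : ℂ)⁻¹ ∉ B) {R : ℂ} (hR : Od R) {n : ℕ} (hn : 0 < n)
    (h : lm ^ n * R - R ∈ PP.lattice) :
    B.valuation (E1 (pe ^ 3 + R) / E1 (pe ^ 3) - 1) < B.valuation lm := by
  have hP : pe ^ 3 ∉ PP.lattice := notMem_of_two_mul two_pe3_notMem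
  have hz := hR.pe3_add
  have h1 := sl_sq hP hR.notMem hz.notMem
  rw [X_pe3] at h1
  have vX1 : B.valuation (X (pe ^ 3 + R) - 1) < 1 := by
    rw [(v_X_sub hB hz).1]
    exact v_lm_lt hB
  have vX2 : B.valuation (X R - 1) < 1 := by
    rw [(v_X_sub hB hR).1]
    exact v_lm_lt hB
  have vt : B.valuation (sl (pe ^ 3) R ^ 2 - 1) < 1 := by
    have e : sl (pe ^ 3) R ^ 2 - 1 = (X (pe ^ 3 + R) - 1) + ((X R - 1) + (2 - lm)) := by
      have e1 : lm = 1 + zt := rfl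
      linear_combination -h1 + e1
    rw [e]
    refine Valuation.map_add_lt _ vX1 (Valuation.map_add_lt _ vX2 ?_)
    exact Valuation.map_sub_lt _ (two_lt hB) (v_lm_lt hB)
  have vt1 : B.valuation (sl (pe ^ 3) R) ≤ 1 := by
    have h2 : B.valuation (sl (pe ^ 3) R ^ 2) ≤ 1 := by
      have e : sl (pe ^ 3) R ^ 2 = (sl (pe ^ 3) R ^ 2 - 1) + 1 := by ring
      rw [e]
      exact (Valuation.map_add _ _ _).trans (max_le vt.le (map_one _).le)
    rw [map_pow] at h2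
    exact (pow_le_one_iff_of_nonneg zero_le two_ne_zero).1 h2
  have vt2 := v_sub_one_of_sq hB vt1 vt
  have vF := v_fE_sub hB hR hn h
  have e : E1 (pe ^ 3 + R) / E1 (pe ^ 3) - 1 =
      ((fE R - 1) + ((sl (pe ^ 3) R - 1) + 2)) / fE (pe ^ 3) := by
    have h2 := fE_pe3_ne (hq := hq)
    have h3 := Om_ne_zero
    have h4 := E1_pe3_ne (hq := hq)
    rw [fE, fE, sl]
    field_simp
    ring
  have v1 : B.valuation ((fE R - 1) + ((sl (pe ^ 3) R - 1) + 2)) < 1 :=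
    Valuation.map_add_lt _ vF (Valuation.map_add_lt _ vt2 (two_lt hB))
  have h5 := v_fE_pe3 (B := B) (hq := hq)
  have h6 : B.valuation (fE (pe ^ 3)) = (B.valuation lm)⁻¹ := eq_inv_of_mul_eq_one_left h5
  rw [e, map_div₀, h6, div_inv_eq_mul]
  exact mul_lt_of_lt_one_left v_lm_pos v1

theorem E1_pair {z z' : ℂ} (h : z + z' - pe ∈ PP.lattice) : E1 z + E1 z' = -(Om * gg z) := by
  have h1 : E1 z' = -E1 (z + pe) := by
    rw [← S3.E1_neg]
    refine E1_congr' ?_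
    have e : z' - -(z + pe) = (z + z' - pe) + 2 * pe := by ring
    rw [e]
    exact add_mem h two_pe_mem
  rw [h1, E1_add_pe]
  ring

/-- **The pair relation**, `k = 0`. -/
theorem v_rho_pair (hB : (2 : ℂ)⁻¹ ∉ B) {z z' : ℂ} (hz : Od z) (h : z + z' - pe ∈ PP.lattice) :
    B.valuation ((E1 z / E1 (pe ^ 3) - 1) + (E1 z' / E1 (pe ^ 3) - 1)) < B.valuation lm ^ 2 := by
  have h1 := E1_pair h
  have h2 := two_E1_pe3 (hq := hq)
  have hg : gG (pe ^ 3) ≠ 0 := div_ne_zero (gg_ne two_pe3_notMem) lm_ne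
  have hE := E1_pe3_ne (hq := hq)
  have hO := Om_ne_zero
  have hl := lm_ne (hq := hq)
  rw [gg_gG] at h1 h2
  have e : (E1 z / E1 (pe ^ 3) - 1) + (E1 z' / E1 (pe ^ 3) - 1) =
      2 * ((gG z - gG (pe ^ 3)) / gG (pe ^ 3)) := by
    have e1 : (E1 z / E1 (pe ^ 3) - 1) + (E1 z' / E1 (pe ^ 3) - 1) =
        (E1 z + E1 z' - 2 * E1 (pe ^ 3)) / E1 (pe ^ 3) := by
      field_simp
      ring
    rw [e1, div_eq_iff hE, h1]
    field_simp
    linear_combination (-gG z) * h2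
  have v0 : B.valuation (gG z ^ 2 - gG (pe ^ 3) ^ 2) < 1 := by
    rw [gG_sq hz.two, gG_pe3]
    have e2 : X (lm * z) - -1 = (X (lm * z) - 1) + 2 := by ring
    rw [e2]
    refine Valuation.map_add_lt _ ?_ (two_lt hB)
    rw [(v_X_sub hB hz.mul_lm).1]
    exact v_lm_lt hB
  have v1 : B.valuation (gG z - gG (pe ^ 3)) ≤ 1 :=
    (Valuation.map_sub _ _ _).trans (max_le (v_gG hB hz).le v_gG_pe3.le)
  have v2 : B.valuation (gG z - gG (pe ^ 3)) < 1 := by
    have v3 : B.valuation ((gG z - gG (pe ^ 3)) ^ 2) < 1 := by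
      have e2 : (gG z - gG (pe ^ 3)) ^ 2 = (gG z ^ 2 - gG (pe ^ 3) ^ 2) -
          2 * (gG (pe ^ 3) * (gG z - gG (pe ^ 3))) := by ring
      rw [e2]
      refine Valuation.map_sub_lt _ v0 ?_
      rw [map_mul, map_mul, v_gG_pe3, one_mul]
      exact mul_lt_one_of_lt_of_le (two_lt hB) v1
    rw [map_pow] at v3
    by_contra h3
    push Not at h3
    exact absurd v3 (not_lt.2 (one_le_pow₀ h3))
  rw [e, map_mul, map_div₀, v_gG_pe3, div_one, ← v_lm_sq]
  exact mul_lt_of_lt_one_right (pow_pos v_lm_pos 2) v2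

end

end Pool.Agent.Lib.MP_1a91b9_ntQ
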