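import Pool.Agent.Lib.MP_1a91b9_ntQ.A.Good4

/-!
# Quartic twists, part A, file Loc2: the function `gG = gg / lm` at the points with a nonzero odd part

`gG z ^ 2 = X (lm z)`, `gG z` is congruent to `1`; if `z + z'` is congruent to `- 1/2` then
`gG z + gG z' - 2` is in `lm m`.
-/

set_option autoImplicit false
set_option linter.unusedSectionVars false

namespace Pool.Agent.Lib.MP_1a91b9_ntQ

open NumberField Pool.Agent.Lib.MP_1a91b9_nuT Pool.Agent.Lib.MP_1a91b9_nuT.S3
  Pool.Agent.Lib.MP_1a91b9_nuT.Ell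

noncomputable section

variable [CD] [hq : Q4]

/-- the normalised function -/
def gG (z : ℂ) : ℂ := gg z / lm

theorem gg_gG (z : ℂ) : gg z = lm * gG z := by
  rw [gG, mul_div_cancel₀ _ lm_ne]

theorem gG_sq {z : ℂ} (hz : 2 * z ∉ PP.lattice) : gG z ^ 2 = X (lm * z) := by
  rw [gG, div_pow, gg_sq hz, lm_sq]
  have h := zt_ne0
  field_simp

theorem gG_congr {x y : ℂ} (h : x - y ∈ PP.lattice) : gG x = gG y := by
  rw [gG, gG, gg_congr h]

variable {B : ValuationSubring ℂ}

theorem v_gG (hB : (2 : ℂ)⁻¹ ∉ B) {z : ℂ} (hz : Od z) : B.valuation (gG z) = 1 := by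
  have h : B.valuation (gG z) ^ 2 = 1 := by
    rw [← map_pow, gG_sq hz.two, v_X hB hz.mul_lm]
  exact (pow_eq_one_iff_of_nonneg zero_le (by norm_num)).1 h

theorem v_gg (hB : (2 : ℂ)⁻¹ ∉ B) {z : ℂ} (hz : Od z) : B.valuation (gg z) = B.valuation lm := by
  rw [gg_gG, map_mul, v_gG hB hz, mul_one]

/-- an element of `B` whose square is congruent to `1` is congruent to `1` -/
theorem v_sub_one_of_sq (hB : (2 : ℂ)⁻¹ ∉ B) {x : ℂ} (hx : B.valuation x ≤ 1)
    (h : B.valuation (x ^ 2 - 1) < 1) : B.valuation (x - 1) < 1 := by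
  have h1 : B.valuation ((x - 1) ^ 2) < 1 := by
    have e : (x - 1) ^ 2 = (x ^ 2 - 1) + 2 * (1 - x) := by ring
    rw [e]
    refine Valuation.map_add_lt _ h ?_
    rw [map_mul]
    refine mul_lt_one_of_lt_of_le (two_lt hB) ?_
    refine (Valuation.map_sub _ _ _).trans (max_le ?_ hx)
    rw [map_one]
  rw [map_pow] at h1
  by_contra h2
  push Not at h2
  exact absurd h1 (not_lt.2 (one_le_pow₀ h2))

theorem v_gG_sub (hB : (2 : ℂ)⁻¹ ∉ B) {z : ℂ} (hz : Od z) : B.valuation (gG z - 1) < 1 := by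
  refine v_sub_one_of_sq hB (v_gG hB hz).le ?_
  rw [gG_sq hz.two, (v_X_sub hB hz.mul_lm).1]
  exact v_lm_lt hB

omit hq in
theorem half_add (z : ℂ) : -1 / 2 - z + z = -1 / 2 := by ring

/-- the value at `- 1/2 - z` -/
theorem gG_pair {z z' : ℂ} (hz : 2 * z ∉ PP.lattice) (h : z + z' + 1 / 2 ∈ PP.lattice) :
    gG z * gG z' = -zt := by
  have h1 : gg z' = -gg (z + 1 / 2) := by
    rw [← gg_neg]
    refine gg_congr ?_
    have e : z' - -(z + 1 / 2) = z + z' + 1 / 2 := by ring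
    rw [e]
    exact h
  have h2 := gg_half hz
  have h3 : gg z * gg z' = 2 := by
    rw [h1]
    linear_combination -h2
  rw [gg_gG, gg_gG] at h3
  have h4 : lm ^ 2 * (gG z * gG z') = 2 := by linear_combination h3
  rw [lm_sq] at h4
  linear_combination (-zt / 2) * h4 + gG z * gG z' * zt_sq

/-- **The pair relation**, `k = 2`. -/
theorem v_gG_pair (hB : (2 : ℂ)⁻¹ ∉ B) {z z' : ℂ} (hz : Od z) (h : z + z' + 1 / 2 ∈ PP.lattice) :
    B.valuation ((gG z - 1) + (gG z' - 1)) < B.valuation lm := by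
  have h1 := gG_pair hz.two h
  have h2 := gG_sq hz.two
  have h3 := v_gG hB hz
  have h4 : B.valuation (gG z * ((gG z - 1) + (gG z' - 1))) < B.valuation lm := by
    have e : gG z * ((gG z - 1) + (gG z' - 1)) = (X (lm * z) - 1 - lm) + 2 * (1 - gG z) := by
      have e1 : lm = 1 + zt := rfl
      rw [← h2]
      linear_combination h1 + e1
    rw [e]
    refine Valuation.map_add_lt _ (v_X_al hB hz.mul_lm) ?_
    rw [map_mul, ← v_lm_sq, Valuation.map_sub_swap, pow_two, mul_assoc]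
    have h5 : B.valuation lm * B.valuation (gG z - 1) < 1 :=
      mul_lt_one_of_lt_of_le (v_lm_lt hB) (v_gG_sub hB hz).le
    calc B.valuation lm * (B.valuation lm * B.valuation (gG z - 1)) < B.valuation lm * 1 :=
          mul_lt_mul_of_pos_left h5 v_lm_pos
      _ = _ := mul_one _
  rwa [map_mul, h3, one_mul] at h4

/-- `E1 z - E1 (z + pe)` -/
theorem ph2_eq (z : ℂ) : E1 z - E1 (z + pe) = -(Om * lm * gG z) := by
  rw [E1_add_pe, gg_gG]
  ring

end

end Pool.Agent.Lib.MP_1a91b9_ntQ
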