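import Pool.Agent.Lib.MP_1a91b9_ntQ.Base

/-!
# Quartic twists, part A, file LocDef4: the curve `y² = x³ - D x`
-/

set_option autoImplicit false

namespace Pool.Agent.Lib.MP_1a91b9_ntQ

open NumberField

noncomputable section

/-- `y² = x³ - D x`, the quartic twist of `y² = x³ - x` by `D` -/
def WD4 (D : 𝓞 K4) : WeierstrassCurve K4 := ⟨0, 0, 0, -(D : K4), 0⟩

theorem WD4_c4 (D : 𝓞 K4) : (WD4 D).c₄ = 48 * (D : K4) := by
  simp only [WD4, WeierstrassCurve.c₄, WeierstrassCurve.b₂, WeierstrassCurve.b₄]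
  ring

theorem WD4_delta (D : 𝓞 K4) : (WD4 D).Δ = 64 * (D : K4) ^ 3 := by
  simp only [WD4, WeierstrassCurve.Δ, WeierstrassCurve.b₂, WeierstrassCurve.b₄, WeierstrassCurve.b₆,
    WeierstrassCurve.b₈]
  ring

end

end Pool.Agent.Lib.MP_1a91b9_ntQ
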