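import Pool.Agent.Lib.MP_1a91b9_ntQ.A.Jac4
import Pool.Agent.Lib.MP_1a91b9_nuX.HQ.Qs
import Pool.Agent.Lib.MP_1a91b9_nt.LocDep

/-!
# TwistDensity, phase 4 (quartic twists), part A, file LocJ: the Euler factors of `y² = x³ - D x` over
`ℚ(i)` at the good places

`v = (β)`, `β` congruent to `1` modulo `(1 + i)³`, `D` not divisible by `β`: the factor is
`(1 - χ(D) conj β x) (1 - conj (χ(D) conj β) x)`, `χ` the biquadratic residue character modulo `β`.
-/

set_option autoImplicit false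

namespace Pool.Agent.Lib.MP_1a91b9_ntQ

open NumberField IsDedekindDomain Polynomial WeierstrassCurve Pool.Agent.Lib.MP_1a91b9_nt
open Pool.Agent.Lib.MP_1a91b9_nuX.HQ (GI G4 qs qs_eq w w_zero exists_char G4.dvd)

section

variable {K : Type} [Field K] [NumberField K] {i : 𝓞 K}

/-- complex conjugation -/
theorem conj_cj (h : GI i) (τ : 𝓞 K →+* ℂ) (a : 𝓞 K) : (starRingEnd ℂ) (τ a) = τ (h.cj a) := by
  obtain ⟨m, n, rfl⟩ := h.gen a
  have hz : τ i ^ 2 = -1 := by rw [← map_pow, h.sq, map_neg, map_one]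
  have h1 : (starRingEnd ℂ) (τ i) = -τ i := by
    have h2 : τ i = Complex.I ∨ τ i = -Complex.I := by
      have h3 : (τ i - Complex.I) * (τ i + Complex.I) = 0 := by
        linear_combination hz - Complex.I_sq
      rcases mul_eq_zero.1 h3 with h4 | h4
      · exact Or.inl (sub_eq_zero.1 h4)
      · exact Or.inr (eq_neg_of_add_eq_zero_left h4)
    rcases h2 with h2 | h2 <;> rw [h2] <;> simp
  rw [h.cj_coords, map_add, map_add, map_mul, map_mul, map_intCast, map_intCast, map_sub, map_mul,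
    map_intCast, map_intCast, h1]
  simp only [map_intCast]
  ring

private theorem locJ_delta {k : Type*} [CommRing k] (d : k) :
    (⟨0, 0, 0, -d, 0⟩ : WeierstrassCurve k).Δ = 64 * d ^ 3 := by
  simp only [WeierstrassCurve.Δ, WeierstrassCurve.b₂, WeierstrassCurve.b₄, WeierstrassCurve.b₆,
    WeierstrassCurve.b₈]
  ring

/-- **The Euler factor at a good place.** -/
theorem locJ (h : GI i) (τ : 𝓞 K →+* ℂ) (D β : 𝓞 K) (v : HeightOneSpectrum (𝓞 K))
    (hv : v.asIdeal = Ideal.span {β}) (hβ : (1 + i) ^ 3 ∣ β - 1) (hD : D ∉ v.asIdeal) (x : ℂ) :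
    aeval x (locPoly (⟨0, 0, 0, -(D : K), 0⟩ : WeierstrassCurve K) v) =
      (1 - (starRingEnd ℂ) (τ β) * τ (w i (qs i v.asIdeal D)) * x) *
        (1 - (starRingEnd ℂ) ((starRingEnd ℂ) (τ β) * τ (w i (qs i v.asIdeal D))) * x) := by
  classical
  have hβv : β ∈ v.asIdeal := by
    rw [hv]
    exact Ideal.mem_span_singleton_self β
  -- `2` is not in `v`
  have h2 : (2 : 𝓞 K) ∉ v.asIdeal := by
    intro h0
    apply v.isPrime.ne_top
    rw [Ideal.eq_top_iff_one]
    obtain ⟨t, ht⟩ := hβ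
    rw [gi_lam3 h] at ht
    have e : (1 : 𝓞 K) = β - 2 * ((-1 + i) * t) := by linear_combination -ht
    rw [e]
    exact Ideal.sub_mem _ hβv (Ideal.mul_mem_right _ _ h0)
  have hP : G4 v.asIdeal := ⟨v.isPrime, v.ne_bot, h2⟩
  have hfin : Finite (IsLocalRing.ResidueField (v.adicCompletionIntegers K)) := finite_residue v
  have := Fintype.ofFinite (IsLocalRing.ResidueField (v.adicCompletionIntegers K))
  have hker : ∀ y : 𝓞 K, redMap K v y = 0 ↔ y ∈ v.asIdeal := by
    intro y
    rw [← RingHom.mem_ker, redMap_ker]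
    rfl
  have hcard : Fintype.card (IsLocalRing.ResidueField (v.adicCompletionIntegers K)) = nrm v := by
    rw [nrm, Nat.card_eq_fintype_card]
  have hcard' : Fintype.card (IsLocalRing.ResidueField (v.adicCompletionIntegers K)) =
      Ideal.absNorm v.asIdeal := by
    rw [hcard, nrm_eq]
  have h2k : (2 : IsLocalRing.ResidueField (v.adicCompletionIntegers K)) ≠ 0 := by
    intro h0
    exact h2 ((hker 2).1 (by rw [map_ofNat]; exact h0))
  have hdk : redMap K v D ≠ 0 := fun h0 => hD ((hker D).1 h0)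
  obtain ⟨m, hm⟩ := G4.dvd h hP
  have hq : Fintype.card (IsLocalRing.ResidueField (v.adicCompletionIntegers K)) - 1 = 4 * m := by
    rw [hcard', hm]
  obtain ⟨χ, hχ4, hχ2, hχρ, hχv⟩ := exists_char h (redMap K v) h2k m hq
  have hkerβ : RingHom.ker (redMap K v) = Ideal.span {β} := by
    rw [← hv]
    ext y
    rw [RingHom.mem_ker]
    exact hker y
  have hNβ : Ideal.absNorm (Ideal.span {β}) =
      Fintype.card (IsLocalRing.ResidueField (v.adicCompletionIntegers K)) := by
    rw [← hv, hcard']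
  obtain ⟨e4, em1, epm, eJ⟩ := jac_val h (redMap K v) hβ hkerβ hNβ h2k m hq χ hχ4 hχ2 hχρ hχv
  -- the value of the character at `D`
  have hcχ : χ (redMap K v D) = w i (qs i v.asIdeal D) := by
    obtain ⟨c, hc⟩ := hχv _ hdk
    have h1 : qs i v.asIdeal D = c := by
      refine qs_eq h hP hD c ?_
      have h3 : (Ideal.absNorm v.asIdeal - 1) / 4 = m := by
        rw [hm]
        omega
      rw [h3, ← hker, map_sub, map_pow, ← hc, hχρ, sub_self]
    rw [h1, hc]
  -- the model
  let W₀ : WeierstrassCurve (𝓞 K) := ⟨0, 0, 0, -D, 0⟩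
  have hmodel : locPoly ((⟨0, 0, 0, -(D : K), 0⟩ : WeierstrassCurve K).baseChange K) v = _ :=
    locPoly_of_model (F := K) (K := K) (⟨0, 0, 0, -(D : K), 0⟩ : WeierstrassCurve K) 1 W₀ (by
      rw [one_smul]
      simp only [W₀, WeierstrassCurve.map, map_zero, map_neg]) v (by
      intro hmem
      change algebraMap (𝓞 K) (𝓞 K) W₀.Δ ∈ v.asIdeal at hmem
      rw [Algebra.algebraMap_self, RingHom.id_apply, locJ_delta] at hmem
      rcases v.isPrime.mem_or_mem hmem with h5 | h5
      · have e : (64 : 𝓞 K) = 2 ^ 6 := by norm_num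
        rw [e] at h5
        exact h2 (v.isPrime.mem_of_pow_mem _ h5)
      · exact hD (v.isPrime.mem_of_pow_mem _ h5))
  have hbc : (⟨0, 0, 0, -(D : K), 0⟩ : WeierstrassCurve K).baseChange K = ⟨0, 0, 0, -(D : K), 0⟩ :=
    WeierstrassCurve.map_id _
  have hred : W₀.map (redMap K v) = ⟨0, 0, 0, -redMap K v D, 0⟩ := by
    simp only [W₀, WeierstrassCurve.map, map_zero, map_neg]
  rw [hbc, hred] at hmodel
  rw [hmodel]
  -- the count
  have hc2 : ringChar (IsLocalRing.ResidueField (v.adicCompletionIntegers K)) ≠ 2 :=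
    fun h0 => h2k (by
      have := ringChar.Nat.cast_ringChar (R := IsLocalRing.ResidueField (v.adicCompletionIntegers K))
      rw [h0] at this
      exact_mod_cast this)
  have hcnt := card_point4 h2k (redMap K v D) hdk
  have hcount : (Nat.card (WeierstrassCurve.toAffine (⟨0, 0, 0, -redMap K v D, 0⟩ :
      WeierstrassCurve (IsLocalRing.ResidueField (v.adicCompletionIntegers K)))).Point : 𝓞 K) =
      1 + (nrm v : 𝓞 K) + (χ (redMap K v D) ^ 3 * jacobiSum χ (χ ^ 2) +
        χ (redMap K v D) * jacobiSum (χ ^ 3) (χ ^ 2)) := by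
    rw [hcnt]
    push_cast
    rw [Finset.sum_congr rfl fun s _ => card_sq hc2 χ hχ4 hχ2 _, Finset.sum_add_distrib,
      curve_sum hc2 χ hχ4 hχ2 _ hdk (by
        rw [MulChar.pow_apply' χ two_ne_zero]
        exact em1)]
    rw [Finset.sum_const, Finset.card_univ, hcard, nsmul_eq_mul, mul_one]
    ring
  -- the Jacobi sums
  have hinv : χ⁻¹ = χ ^ 3 := by
    rw [inv_eq_iff_mul_eq_one, ← pow_succ', hχ4]
  have hJ1 : jacobiSum χ (χ ^ 2) = -β := by
    rw [jac_double hc2 χ hχ4 hχ2, e4, eJ]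
    linear_combination (-β) * em1
  have hχ34 : (χ ^ 3) ^ 4 = 1 := by rw [← pow_mul, mul_comm, pow_mul, hχ4, one_pow]
  have hχ32 : (χ ^ 3) ^ 2 = χ ^ 2 := by
    rw [← pow_mul, show 3 * 2 = 4 + 2 by norm_num, pow_add, hχ4, one_mul]
  have hJ3 : jacobiSum (χ ^ 3) (χ ^ 3) = h.cj (jacobiSum χ χ) := by
    have hval : ∀ x, h.cj (χ x) = (χ ^ 3) x := by
      intro x
      by_cases hx : x = 0
      · rw [hx, MulChar.map_zero, map_zero, MulChar.map_zero]
      · obtain ⟨c, hc⟩ := hχv x hx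
        rw [hc, h.cj_w, MulChar.pow_apply' χ three_ne_zero, hc, h.w_pow]
        congr 1
        have : ∀ c : ZMod 4, -c = ((3 : ℕ) : ZMod 4) * c := by decide
        exact this c
    rw [jacobiSum, jacobiSum, map_sum]
    refine Finset.sum_congr rfl fun x _ => ?_
    rw [map_mul, hval, hval]
  have hJ2 : jacobiSum (χ ^ 3) (χ ^ 2) = -h.cj β := by
    have h5 := jac_double hc2 (χ ^ 3) hχ34 (by rw [hχ32]; exact hχ2)
    rw [hχ32] at h5
    rw [h5, hJ3, eJ, map_mul, map_neg, MulChar.pow_apply' χ three_ne_zero, e4]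
    have h6 : h.cj (χ (-1)) = χ (-1) := by
      rcases epm with h7 | h7 <;> rw [h7]
      · rw [map_one]
      · rw [map_neg, map_one]
    rw [h6]
    linear_combination (-h.cj β * (χ (-1) ^ 2 + 1)) * em1
  rw [hJ1, hJ2, hcχ] at hcount
  set c := qs i v.asIdeal D with hcdef
  have hw3 : w i c ^ 3 = w i (-c) := by
    rw [h.w_pow]
    congr 1
    have : ∀ c : ZMod 4, ((3 : ℕ) : ZMod 4) * c = -c := by decide
    exact this c
  have hcard2 : τ (Nat.card (WeierstrassCurve.toAffine (⟨0, 0, 0, -redMap K v D, 0⟩ :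
      WeierstrassCurve (IsLocalRing.ResidueField (v.adicCompletionIntegers K)))).Point : 𝓞 K) =
      1 + (nrm v : ℂ) + (τ (w i (-c)) * -τ β + τ (w i c) * -τ (h.cj β)) := by
    rw [hcount, hw3]
    simp only [map_add, map_mul, map_neg, map_one, map_natCast]
  rw [map_natCast] at hcard2
  have hww : τ (w i (-c)) * τ (w i c) = 1 := by rw [← map_mul, h.w_neg_mul, map_one]
  have hbb : τ β * τ (h.cj β) = (nrm v : ℂ) := by
    rw [← map_mul, h.mul_cj, ← hv, nrm_eq, map_natCast]
  have hcw : (starRingEnd ℂ) (τ (w i c)) = τ (w i (-c)) := by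
    rw [conj_cj h, h.cj_w]
  simp only [map_add, map_sub, map_one, map_mul, aeval_X, map_pow, map_natCast, Complex.conj_conj]
  rw [hcard2, hcw, conj_cj h]
  linear_combination (-(τ (w i (-c)) * τ (w i c)) * x ^ 2) * hbb - (nrm v : ℂ) * x ^ 2 * hww

end

end Pool.Agent.Lib.MP_1a91b9_ntQ
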