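import Pool.Agent.Lib.MP_1a91b9_nuX.GL.CntC
import Pool.Agent.Lib.MP_1a91b9_ntQ.C.Lam4
import Pool.Agent.Lib.MP_1a91b9_ntQ.A.LocDef4

/-!
# Quartic twists, part A, file LocL: the places of additive reduction of `y² = x³ - D x`

At a place where the valuation of the discriminant `64 D ^ 3` is not divisible by `12` there is no good model. At the
place above `2`, for `D` prime to `2`, a good model exists only if `D = -1` modulo `lam ^ 3`.
-/

set_option autoImplicit false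

namespace Pool.Agent.Lib.MP_1a91b9_ntQ

open NumberField IsDedekindDomain WithZero Polynomial Pool.Agent.Lib.MP_1a91b9_nt
open Pool.Agent.Lib.MP_1a91b9_nuX.GM (GoodW IntW)
open Pool.Agent.Lib.MP_1a91b9_ntQ.C (nuL nuL_lam nuL_two nuL_res nuL_le_pow pv pv_self pv_one pv_lt
  pv_le_pow exists_pv)

noncomputable section

section
variable {L : Type*} [Field L] {ν : Valuation L ℤᵐ⁰} {D : L} {C : WeierstrassCurve.VariableChange L}

/-- the discriminant of a good model -/
theorem locL_disc (h : GoodW ν (C • (⟨0, 0, 0, -D, 0⟩ : WeierstrassCurve L))) :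
    ν (C.u : L) ^ 12 = ν (64 * D ^ 3) := by
  have h1 := h.disc
  rw [WeierstrassCurve.variableChange_Δ] at h1
  have e : (⟨0, 0, 0, -D, 0⟩ : WeierstrassCurve L).Δ = 64 * D ^ 3 := by
    simp only [WeierstrassCurve.Δ, WeierstrassCurve.b₂, WeierstrassCurve.b₄, WeierstrassCurve.b₆,
      WeierstrassCurve.b₈]
    ring
  rw [e, Units.val_inv_eq_inv_val, map_mul, map_pow, map_inv₀, inv_pow,
    inv_mul_eq_one₀ (pow_ne_zero _ ((Valuation.ne_zero_iff ν).2 C.u.ne_zero))] at h1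
  exact h1

/-- the conditions of integrality -/
theorem locL_int (h : GoodW ν (C • (⟨0, 0, 0, -D, 0⟩ : WeierstrassCurve L))) :
    ν (3 * C.r - C.s ^ 2) ≤ ν (C.u : L) ^ 2 ∧ ν (2 * C.t) ≤ ν (C.u : L) ^ 3 ∧
      ν (-D + 3 * C.r ^ 2 - 2 * C.s * C.t) ≤ ν (C.u : L) ^ 4 ∧
      ν (C.r * -D + C.r ^ 3 - C.t ^ 2) ≤ ν (C.u : L) ^ 6 := by
  have hu : (C.u : L) ≠ 0 := C.u.ne_zero
  have key : ∀ (n : ℕ) (x : L), ν (((C.u⁻¹ : Lˣ) : L) ^ n * x) ≤ 1 → ν x ≤ ν (C.u : L) ^ n := by
    intro n x hx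
    have e : x = (C.u : L) ^ n * (((C.u⁻¹ : Lˣ) : L) ^ n * x) := by
      rw [Units.val_inv_eq_inv_val, inv_pow, mul_inv_cancel_left₀ (pow_ne_zero _ hu)]
    rw [e, map_mul, map_pow]
    exact mul_le_of_le_one_right' hx
  have h2 := h.a2
  have h3 := h.a3
  have h4 := h.a4
  have h6 := h.a6
  rw [WeierstrassCurve.variableChange_a₂] at h2
  rw [WeierstrassCurve.variableChange_a₃] at h3
  rw [WeierstrassCurve.variableChange_a₄] at h4
  rw [WeierstrassCurve.variableChange_a₆] at h6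
  refine ⟨?_, ?_, ?_, ?_⟩
  · have h := key _ _ h2
    simpa using h
  · have h := key _ _ h3
    simpa using h
  · have h := key _ _ h4
    simpa using h
  · have h := key _ _ h6
    simpa using h

/-- a place where the valuation of the discriminant is not divisible by `12` -/
theorem locL_pow {n : ℕ} (hn : ¬ (12 : ℤ) ∣ n) (hD : ν (64 * D ^ 3) = exp (-(n : ℤ))) :
    ¬ ∃ C : WeierstrassCurve.VariableChange L,
      GoodW ν (C • (⟨0, 0, 0, -D, 0⟩ : WeierstrassCurve L)) := by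
  rintro ⟨C, hC⟩
  have h := locL_disc hC
  rw [hD] at h
  obtain ⟨k, hk⟩ : ∃ k : ℤ, ν (C.u : L) = exp k :=
    ⟨log (ν (C.u : L)), (exp_log ((Valuation.ne_zero_iff ν).2 C.u.ne_zero)).symm⟩
  rw [hk, ← exp_nsmul] at h
  have h1 := exp_injective h
  rw [nsmul_eq_mul] at h1
  apply hn
  refine ⟨-k, ?_⟩
  push_cast at h1
  linarith

/-- **the place above `2`**: a good model exists only if `D = -1` modulo the cube of the prime -/
theorem locL_core (h2 : ν 2 = exp (-2)) (hres : ∀ x : L, ν x = 1 → ν (x - 1) < 1) (hD : ν D = 1)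
    (h : GoodW ν (C • (⟨0, 0, 0, -D, 0⟩ : WeierstrassCurve L))) : ν (D + 1) ≤ exp (-3) := by
  have hlt : (exp (-2) : ℤᵐ⁰) < 1 := by
    rw [← exp_zero]
    exact exp_lt_exp.2 (by norm_num)
  have h2lt : ν (2 : L) < 1 := h2 ▸ hlt
  have h4 : ν (4 : L) = exp (-4) := by
    have e : (4 : L) = 2 * 2 := by norm_num
    rw [e, map_mul, h2, ← exp_add]
    norm_num
  have h3 : ν (3 : L) = 1 := by
    have e : (3 : L) = 1 + 2 := by norm_num
    rw [e]
    exact ν.map_one_add_of_lt h2lt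
  have hdisc := locL_disc h
  have hu : ν (C.u : L) = exp (-1) := by
    have e : ν (64 * D ^ 3) = exp (-12) := by
      have e1 : (64 : L) = 2 ^ 6 := by norm_num
      rw [e1, map_mul, map_pow, map_pow, h2, hD, one_pow, mul_one, ← exp_nsmul]
      norm_num
    rw [e] at hdisc
    obtain ⟨k, hk⟩ : ∃ k : ℤ, ν (C.u : L) = exp k :=
      ⟨log (ν (C.u : L)), (exp_log ((Valuation.ne_zero_iff ν).2 C.u.ne_zero)).symm⟩
    rw [hk, ← exp_nsmul] at hdisc
    have h1 := exp_injective hdisc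
    rw [nsmul_eq_mul] at h1
    rw [hk]
    congr 1
    push_cast at h1
    linarith
  obtain ⟨i2, i3, i4, i6⟩ := locL_int h
  have hpow : ∀ n : ℕ, ν (C.u : L) ^ n = exp (-(n : ℤ)) := by
    intro n
    rw [hu, ← exp_nsmul]
    congr 1
    rw [nsmul_eq_mul]
    ring
  rw [hpow] at i2 i3 i4 i6
  have hle : ∀ {n m : ℤ}, n ≤ m → (exp n : ℤᵐ⁰) ≤ exp m := fun h => exp_le_exp.2 h
  -- `t`
  have ht : ν C.t ≤ exp (-1) := by
    rw [map_mul, h2] at i3
    have e : (exp (-((3 : ℕ) : ℤ)) : ℤᵐ⁰) = exp (-2) * exp (-1) := by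
      rw [← exp_add]
      norm_num
    rw [e] at i3
    exact le_of_mul_le_mul_left i3 (by simp)
  have ht1 : ν C.t ≤ 1 := ht.trans (by rw [← exp_zero]; exact hle (by norm_num))
  -- `r`
  have hr : ν C.r ≤ 1 := by
    by_contra hc
    push Not at hc
    have hr0 : 0 < ν C.r := lt_trans zero_lt_one hc
    have h5 : ν (C.r ^ 3) ≤ max (exp (-((6 : ℕ) : ℤ))) (max (ν C.r) 1) := by
      have e : C.r ^ 3 = (C.r * -D + C.r ^ 3 - C.t ^ 2) + (C.r * D + C.t ^ 2) := by ring
      rw [e]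
      refine (ν.map_add _ _).trans (max_le_max i6 ((ν.map_add _ _).trans (max_le_max ?_ ?_)))
      · rw [map_mul, hD, mul_one]
      · rw [map_pow]
        exact pow_le_one₀ zero_le ht1
    have h6 : ν C.r < ν (C.r ^ 3) := by
      rw [map_pow]
      calc ν C.r = ν C.r ^ 1 := (pow_one _).symm
        _ < ν C.r ^ 3 := pow_lt_pow_right₀ hc (by norm_num)
    have h7 : (exp (-((6 : ℕ) : ℤ)) : ℤᵐ⁰) < ν (C.r ^ 3) := by
      refine lt_trans ?_ (lt_trans hc h6)
      rw [← exp_zero]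
      exact exp_lt_exp.2 (by norm_num)
    exact absurd h5 (not_le.2 (max_lt h7 (max_lt h6 (lt_trans hc h6))))
  -- `s`
  have hs : ν C.s ≤ 1 := by
    have h5 : ν (C.s ^ 2) ≤ 1 := by
      have e : C.s ^ 2 = 3 * C.r - (3 * C.r - C.s ^ 2) := by ring
      rw [e]
      refine ν.map_sub_le ?_ (i2.trans ?_)
      · rw [map_mul, h3, one_mul]
        exact hr
      · rw [← exp_zero]
        exact hle (by norm_num)
    rw [map_pow] at h5
    by_contra hc
    push Not at hc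
    exact absurd h5 (not_le.2 (one_lt_pow₀ hc (by norm_num)))
  -- `D - 3 r ^ 2`
  have hDr : ν (D - 3 * C.r ^ 2) ≤ exp (-3) := by
    have e : D - 3 * C.r ^ 2 = -(-D + 3 * C.r ^ 2 - 2 * C.s * C.t) - 2 * (C.s * C.t) := by ring
    rw [e]
    refine ν.map_sub_le ?_ ?_
    · rw [Valuation.map_neg]
      exact i4.trans (hle (by norm_num))
    · rw [map_mul, map_mul, h2]
      have e1 : (exp (-3) : ℤᵐ⁰) = exp (-2) * exp (-1) := by
        rw [← exp_add]
        norm_num
      rw [e1]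
      refine mul_le_mul_right ?_ _
      calc ν C.s * ν C.t ≤ 1 * exp (-1) := mul_le_mul' hs ht
        _ = exp (-1) := one_mul _
  -- `r` is a unit
  have hr1 : ν C.r = 1 := by
    refine le_antisymm hr (not_lt.1 fun hc => ?_)
    have h5 : ν (3 * C.r ^ 2) < 1 := by
      rw [map_mul, h3, one_mul, map_pow]
      exact pow_lt_one₀ zero_le hc (by norm_num)
    have h6 : ν D < 1 := by
      have e : D = (D - 3 * C.r ^ 2) + 3 * C.r ^ 2 := by ring
      rw [e]
      refine ν.map_add_lt (lt_of_le_of_lt hDr ?_) h5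
      rw [← exp_zero]
      exact exp_lt_exp.2 (by norm_num)
    rw [hD] at h6
    exact lt_irrefl _ h6
  have hs1 : ν C.s = 1 := by
    refine le_antisymm hs (not_lt.1 fun hc => ?_)
    have h5 : ν (3 * C.r) < 1 := by
      have e : 3 * C.r = (3 * C.r - C.s ^ 2) + C.s ^ 2 := by ring
      rw [e]
      refine ν.map_add_lt (lt_of_le_of_lt i2 ?_) ?_
      · rw [← exp_zero]
        exact exp_lt_exp.2 (by norm_num)
      · rw [map_pow]
        exact pow_lt_one₀ zero_le hc (by norm_num)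
    rw [map_mul, h3, one_mul, hr1] at h5
    exact lt_irrefl _ h5
  have hm1 : ∀ {x : L}, ν x < 1 → ν x ≤ exp (-1) := by
    intro x hx
    rw [← exp_zero] at hx
    exact Pool.Agent.Lib.MP_1a91b9_ntQ.C.lt_le hx
  have hss : ν (C.s ^ 2 - 1) ≤ exp (-2) := by
    have e : C.s ^ 2 - 1 = (C.s - 1) * ((C.s - 1) + 2) := by ring
    have h5 := hm1 (hres _ hs1)
    have e1 : (exp (-2) : ℤᵐ⁰) = exp (-1) * exp (-1) := by
      rw [← exp_add]
      norm_num
    rw [e, map_mul, e1]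
    refine mul_le_mul' h5 (ν.map_add_le h5 ?_)
    rw [h2]
    exact hle (by norm_num)
  have hrr : ν (C.r - 1) ≤ exp (-2) := by
    have e : C.r - 1 = (3 * C.r - C.s ^ 2) + (C.s ^ 2 - 1) - 2 * C.r := by ring
    rw [e]
    refine ν.map_sub_le (ν.map_add_le (i2.trans (hle (by norm_num))) hss) ?_
    rw [map_mul, hr1, mul_one, h2]
  have e : D + 1 = (D - 3 * C.r ^ 2) + (3 * ((C.r - 1) * ((C.r - 1) + 2)) + 4) := by ring
  rw [e]
  refine ν.map_add_le hDr (ν.map_add_le ?_ ?_)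
  · rw [map_mul, h3, one_mul, map_mul]
    refine (mul_le_mul' hrr (ν.map_add_le hrr (by rw [h2]))).trans ?_
    rw [← exp_add]
    exact hle (by norm_num)
  · rw [h4]
    exact hle (by norm_num)

end

/-! ### The curve -/

theorem WD4_eq (D : 𝓞 K4) : WD4 D = ⟨0, 0, 0, -(D : K4), 0⟩ := rfl

/-- the `j`-invariant is an integer -/
theorem WD4_j (D : 𝓞 K4) (v : HeightOneSpectrum (𝓞 K4)) :
    v.valuation K4 ((WD4 D).c₄ ^ 3) ≤ v.valuation K4 (WD4 D).Δ := by
  have e : (WD4 D).c₄ ^ 3 = ((1728 : 𝓞 K4) : K4) * (WD4 D).Δ := by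
    rw [WD4_c4, WD4_delta]
    have e1 : ((1728 : 𝓞 K4) : K4) = 1728 := map_ofNat (algebraMap (𝓞 K4) K4) 1728
    rw [e1]
    ring
  rw [e, map_mul]
  exact mul_le_of_le_one_left' (v.valuation_le_one _)

/-- **(a)** the place above `2`, `D` prime to `2` and not `-1` modulo `lam ^ 3` -/
theorem loc4_lam_unit {D : 𝓞 K4} (h1 : ¬ lam ∣ D) (h3 : ¬ lam ^ 3 ∣ D + 1) :
    locPoly (WD4 D) (pv lam lam_prime) = 1 := by
  refine Pool.Agent.Lib.MP_1a91b9_nuX.GL.locPoly_bad _ _ (WD4_j D _) ?_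
  rintro ⟨C, hC⟩
  apply h3
  have h := locL_core (ν := (pv lam lam_prime).valuation K4) (D := (D : K4)) nuL_two nuL_res
    (pv_one lam_prime h1) hC
  have e : ((D + 1 : 𝓞 K4) : K4) = (D : K4) + 1 := by
    change algebraMap (𝓞 K4) K4 (D + 1) = _
    rw [map_add, map_one]
  rw [← e] at h
  exact (pv_le_pow lam_prime 3).1 h

/-- the valuation of an element exactly divisible by a power of the prime -/
theorem pv_exact {π : 𝓞 K4} (hp : Prime π) {n : ℕ} {x y : 𝓞 K4} (hx : x = π ^ n * y)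
    (hy : ¬ π ∣ y) : (pv π hp).valuation K4 (x : K4) = exp (-(n : ℤ)) := by
  have e : (x : K4) = (π : K4) ^ n * (y : K4) := by
    rw [hx]
    change algebraMap (𝓞 K4) K4 (π ^ n * y) = _
    rw [map_mul, map_pow]
  have h0 : (pv π hp).valuation K4 (y : K4) = 1 := pv_one hp hy
  rw [e, map_mul, map_pow, h0, mul_one]
  have h1 : (pv π hp).valuation K4 (π : K4) = exp (-1) := pv_self π hp
  rw [h1, ← exp_nsmul]
  congr 1
  rw [nsmul_eq_mul]
  ring

/-- the places where the valuation of the discriminant is not divisible by `12` -/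
theorem loc4_disc {π : 𝓞 K4} (hp : Prime π) {D : 𝓞 K4} {n : ℕ} {y : 𝓞 K4}
    (hx : 64 * D ^ 3 = π ^ n * y) (hy : ¬ π ∣ y) (hn : ¬ (12 : ℤ) ∣ n) :
    locPoly (WD4 D) (pv π hp) = 1 := by
  refine Pool.Agent.Lib.MP_1a91b9_nuX.GL.locPoly_bad _ _ (WD4_j D _) ?_
  refine locL_pow (n := n) hn ?_
  have e : (64 : K4) * (D : K4) ^ 3 = ((64 * D ^ 3 : 𝓞 K4) : K4) := by
    change _ = algebraMap (𝓞 K4) K4 (64 * D ^ 3)
    rw [map_mul, map_pow, map_ofNat]
  rw [e]
  exact pv_exact hp hx hy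

/-- **(b)** the place above `2`, `D` divisible by `lam` but not by its fourth power -/
theorem loc4_lam_even {D : 𝓞 K4} (h1 : lam ∣ D) (h4 : ¬ lam ^ 4 ∣ D) :
    locPoly (WD4 D) (pv lam lam_prime) = 1 := by
  have hD : D ≠ 0 := by
    rintro rfl
    exact h4 (dvd_zero _)
  obtain ⟨y, hy, hyn⟩ :=
    (FiniteMultiplicity.of_prime_left lam_prime hD).exists_eq_pow_mul_and_not_dvd
  set n := multiplicity lam D with hn
  have hn1 : n ≠ 0 := by
    intro h0
    rw [h0, pow_zero, one_mul] at hy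
    exact hyn (hy ▸ h1)
  have hn4 : n < 4 := by
    by_contra hc
    push Not at hc
    exact h4 (hy ▸ (pow_dvd_pow lam hc).mul_right y)
  refine loc4_disc lam_prime (n := 12 + 3 * n) (y := -1 * y ^ 3) ?_ ?_ (by push_cast; omega)
  · have e : lam ^ 12 = -64 := by
      have e1 : lam ^ 12 = (lam ^ 4) ^ 3 := by ring
      rw [e1, lam_pow4]
      norm_num
    have e2 : lam ^ (12 + 3 * n) = -64 * (lam ^ n) ^ 3 := by
      rw [pow_add, e]
      ring
    rw [e2, hy]
    ring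
  · intro h
    rcases lam_prime.dvd_or_dvd h with h5 | h5
    · exact lam_not_unit (isUnit_of_dvd_unit h5 isUnit_one.neg)
    · exact hyn (lam_prime.dvd_of_dvd_pow h5)

/-- **(c)** the places not above `2` which divide `D`, their fourth power does not divide `D` -/
theorem loc4_bad_place {π : 𝓞 K4} (hp : Prime π) (h2 : ¬ π ∣ 2) {D : 𝓞 K4} (h1 : π ∣ D)
    (h4 : ¬ π ^ 4 ∣ D) : locPoly (WD4 D) (pv π hp) = 1 := by
  have hD : D ≠ 0 := by
    rintro rfl
    exact h4 (dvd_zero _)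
  obtain ⟨y, hy, hyn⟩ :=
    (FiniteMultiplicity.of_prime_left hp hD).exists_eq_pow_mul_and_not_dvd
  set n := multiplicity π D with hn
  have hn1 : n ≠ 0 := by
    intro h0
    rw [h0, pow_zero, one_mul] at hy
    exact hyn (hy ▸ h1)
  have hn4 : n < 4 := by
    by_contra hc
    push Not at hc
    exact h4 (hy ▸ (pow_dvd_pow π hc).mul_right y)
  refine loc4_disc hp (n := 3 * n) (y := 2 ^ 6 * y ^ 3) ?_ ?_ (by push_cast; omega)
  · have e2 : π ^ (3 * n) = (π ^ n) ^ 3 := by ring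
    rw [e2, hy]
    ring
  · intro h
    rcases hp.dvd_or_dvd h with h5 | h5
    · exact h2 (hp.dvd_of_dvd_pow h5)
    · exact hyn (hp.dvd_of_dvd_pow h5)

end

end Pool.Agent.Lib.MP_1a91b9_ntQ
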