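import Pool.Agent.Lib.MP_1a91b9_ntQ.A.DetB
import Pool.Agent.Lib.MP_1a91b9_ntQ.A.Res4

/-!
# Quartic twists, part A, file MoB: functions on the subsets of a finite set and their residue polynomials

`mo f E = ∑ (A ⊆ E) (-1) ^ |E - A| f A`, so `f A = ∑ (E ⊆ A) mo f E`. `RB B C f P`: for every `E ⊆ C` the coefficient
`mo f E / (2 / lm) ^ |E|` is integral with the class `cf P E` modulo the maximal ideal.
-/

set_option autoImplicit false
set_option linter.unusedSectionVars false

namespace Pool.Agent.Lib.MP_1a91b9_ntQ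

open Finset MvPolynomial

noncomputable section

variable {ι : Type*} [DecidableEq ι]

/-- the coefficient -/
def mo (f : Finset ι → ℂ) (E : Finset ι) : ℂ :=
  ∑ A ∈ E.powerset, (-1) ^ (E \ A).card * f A

theorem mo_empty (f : Finset ι → ℂ) : mo f ∅ = f ∅ := by
  rw [mo, powerset_empty, sum_singleton]
  simp

theorem mo_congr {f g : Finset ι → ℂ} {E : Finset ι} (h : ∀ A ⊆ E, f A = g A) :
    mo f E = mo g E :=
  sum_congr rfl fun A hA => by rw [h A (mem_powerset.1 hA)]

theorem mo_insert (f : Finset ι → ℂ) {E : Finset ι} {b : ι} (hb : b ∉ E) :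
    mo f (insert b E) = mo (fun A => f (insert b A)) E - mo f E := by
  rw [mo, sum_powerset_insert hb, mo, mo, add_comm, sub_eq_add_neg, ← sum_neg_distrib]
  congr 1
  · refine sum_congr rfl fun A hA => ?_
    have hbA : b ∉ A := fun h => hb (mem_powerset.1 hA h)
    have h1 : insert b E \ insert b A = E \ A := by
      ext x
      simp only [mem_sdiff, mem_insert, not_or]
      constructor
      · rintro ⟨h1 | h1, h2, h3⟩
        · exact absurd h1 h2
        · exact ⟨h1, h3⟩
      · rintro ⟨h1, h2⟩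
        exact ⟨Or.inr h1, fun h => hb (h ▸ h1), h2⟩
    rw [h1]
  · refine sum_congr rfl fun A hA => ?_
    have hbA : b ∉ A := fun h => hb (mem_powerset.1 hA h)
    have h1 : insert b E \ A = insert b (E \ A) := insert_sdiff_of_notMem E hbA
    have h2 : b ∉ E \ A := fun h => hb (mem_sdiff.1 h).1
    rw [h1, card_insert_of_notMem h2, pow_succ]
    ring

/-- **The inversion.** -/
theorem mo_sum (A : Finset ι) : ∀ f : Finset ι → ℂ, f A = ∑ E ∈ A.powerset, mo f E := by
  induction A using Finset.induction_on with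
  | empty =>
    intro f
    rw [powerset_empty, sum_singleton, mo_empty]
  | insert b A hb ih =>
    intro f
    rw [sum_powerset_insert hb, ← ih f]
    have h1 : ∀ E ∈ A.powerset, mo f (insert b E) = mo (fun A => f (insert b A)) E - mo f E :=
      fun E hE => mo_insert f fun h => hb (mem_powerset.1 hE h)
    rw [sum_congr rfl h1, sum_sub_distrib, ← ih f, ← ih fun A => f (insert b A)]
    ring

/-- **Uniqueness.** -/
theorem mo_unique {f c : Finset ι → ℂ} {D : Finset ι}
    (h : ∀ A ⊆ D, f A = ∑ E ∈ A.powerset, c E) : ∀ E ⊆ D, mo f E = c E := by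
  intro E
  induction E using Finset.strongInduction with
  | H E ih =>
    intro hE
    have h1 := h E hE
    rw [mo_sum E f, ← add_sum_erase _ _ (mem_powerset_self E),
      ← add_sum_erase E.powerset c (mem_powerset_self E)] at h1
    have h2 : ∑ F ∈ E.powerset.erase E, mo f F = ∑ F ∈ E.powerset.erase E, c F := by
      refine sum_congr rfl fun F hF => ?_
      rw [mem_erase, mem_powerset] at hF
      exact ih F (hF.2.ssubset_of_ne hF.1) (hF.2.trans hE)
    rw [h2] at h1
    exact add_right_cancel h1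

/-- the pairs of subsets with union `G` -/
def prU (G : Finset ι) : Finset (Finset ι × Finset ι) :=
  (G.powerset ×ˢ G.powerset).filter fun x => x.1 ∪ x.2 = G

theorem mem_prU {G : Finset ι} {x : Finset ι × Finset ι} : x ∈ prU G ↔ x.1 ∪ x.2 = G := by
  rw [prU, mem_filter, mem_product, mem_powerset, mem_powerset]
  constructor
  · exact fun h => h.2
  · intro h
    refine ⟨⟨?_, ?_⟩, h⟩
    · rw [← h]
      exact subset_union_left
    · rw [← h]
      exact subset_union_right

/-- **The product.** -/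
theorem mo_mul (f g : Finset ι → ℂ) (G : Finset ι) :
    mo (fun A => f A * g A) G = ∑ x ∈ prU G, mo f x.1 * mo g x.2 := by
  refine mo_unique (D := G) (c := fun G => ∑ x ∈ prU G, mo f x.1 * mo g x.2) ?_ G subset_rfl
  intro A _
  rw [mo_sum A f, mo_sum A g, sum_mul_sum, ← sum_product']
  have h1 : A.powerset ×ˢ A.powerset = A.powerset.biUnion prU := by
    ext x
    rw [mem_product, mem_powerset, mem_powerset, mem_biUnion]
    constructor
    · intro h
      exact ⟨x.1 ∪ x.2, mem_powerset.2 (union_subset h.1 h.2), mem_prU.2 rfl⟩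
    · rintro ⟨G, hG, hx⟩
      rw [mem_powerset] at hG
      rw [mem_prU] at hx
      rw [← hx] at hG
      exact ⟨subset_union_left.trans hG, subset_union_right.trans hG⟩
  rw [h1, sum_biUnion]
  intro G _ G' _ hne
  rw [Function.onFun, disjoint_left]
  intro x hx hx'
  exact hne ((mem_prU.1 hx).symm.trans (mem_prU.1 hx'))

theorem mo_const (c : ℂ) (E : Finset ι) : mo (fun _ => c) E = if E = ∅ then c else 0 := by
  refine mo_unique (D := E) (c := fun E => if E = ∅ then c else 0) ?_ E subset_rfl
  intro A _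
  rw [sum_eq_single ∅, if_pos rfl]
  · intro F _ hF
    rw [if_neg hF]
  · intro h
    exact absurd (empty_mem_powerset A) h

theorem mo_const_mul (c : ℂ) (f : Finset ι → ℂ) (E : Finset ι) :
    mo (fun A => c * f A) E = c * mo f E := by
  rw [mo, mo, mul_sum]
  exact sum_congr rfl fun A _ => by ring

theorem mo_sub (f g : Finset ι → ℂ) (E : Finset ι) :
    mo (fun A => f A - g A) E = mo f E - mo g E := by
  rw [mo, mo, mo, ← sum_sub_distrib]
  exact sum_congr rfl fun A _ => by ring

/-- the coefficient of a multiplicative function -/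
theorem mo_prod (u : ι → ℂ) (E : Finset ι) : mo (fun A => ∏ b ∈ A, u b) E = ∏ b ∈ E, (u b - 1) := by
  refine mo_unique (D := E) (c := fun E => ∏ b ∈ E, (u b - 1)) ?_ E subset_rfl
  intro A _
  have h := prod_add (fun b => u b - 1) (fun _ => (1 : ℂ)) A
  simp only [prod_const_one, mul_one, sub_add_cancel] at h
  exact h

/-- subsets which contain `U` -/
theorem mo_shift (f : Finset ι → ℂ) {U E : Finset ι} (h : Disjoint U E) :
    mo (fun A => f (U ∪ A)) E = ∑ F ∈ U.powerset, mo f (F ∪ E) := by
  refine mo_unique (D := E) (c := fun E => ∑ F ∈ U.powerset, mo f (F ∪ E)) ?_ E subset_rfl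
  intro A hA
  have hUA : Disjoint U A := disjoint_of_subset_right hA h
  rw [mo_sum (U ∪ A) f, sum_comm, ← sum_product']
  refine (sum_bij' (fun x _ => x.1 ∪ x.2) (fun E _ => (E ∩ U, E ∩ A)) ?_ ?_ ?_ ?_ ?_).symm
  · intro x hx
    rw [mem_product, mem_powerset, mem_powerset] at hx
    exact mem_powerset.2 (union_subset_union hx.1 hx.2)
  · intro E _
    rw [mem_product, mem_powerset, mem_powerset]
    exact ⟨inter_subset_right, inter_subset_right⟩
  · intro x hx
    rw [mem_product, mem_powerset, mem_powerset] at hx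
    refine Prod.ext ?_ ?_
    · show (x.1 ∪ x.2) ∩ U = x.1
      rw [union_inter_distrib_right, inter_eq_left.2 hx.1,
        (disjoint_iff_inter_eq_empty.1 (disjoint_of_subset_right hx.2 hUA).symm), union_empty]
    · show (x.1 ∪ x.2) ∩ A = x.2
      rw [union_inter_distrib_right, inter_eq_left.2 hx.2,
        (disjoint_iff_inter_eq_empty.1 (disjoint_of_subset_left hx.1 hUA)), empty_union]
  · intro E hE
    rw [mem_powerset] at hE
    show E ∩ U ∪ E ∩ A = E
    rw [← inter_union_distrib_left, inter_eq_left.2 hE]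
  · intro x _
    rfl

/-! ### The residue polynomials -/

/-- the coefficients `mo f E / η ^ |E|`, `E ⊆ C`, have the classes of the square free coefficients
of `P` -/
def RB (B : ValuationSubring ℂ) (η : ℂ) (C : Finset ι) (f : Finset ι → ℂ)
    (P : MvPolynomial ι (ZMod 2)) : Prop :=
  ∀ E ⊆ C, Rt B (mo f E / η ^ E.card) (cf P E)

theorem RB.mono {B : ValuationSubring ℂ} {η : ℂ} {C C' : Finset ι} {f : Finset ι → ℂ}
    {P : MvPolynomial ι (ZMod 2)} (h : RB B η C f P) (hC : C' ⊆ C) : RB B η C' f P :=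
  fun E hE => h E (hE.trans hC)

theorem RB.congr {B : ValuationSubring ℂ} {η : ℂ} {C : Finset ι} {f g : Finset ι → ℂ}
    {P Q : MvPolynomial ι (ZMod 2)} (h : RB B η C f P) (h1 : ∀ A ⊆ C, g A = f A)
    (h2 : ∀ E ⊆ C, cf Q E = cf P E) : RB B η C g Q := by
  intro E hE
  rw [h2 E hE, mo_congr fun A hA => h1 A (hA.trans hE)]
  exact h E hE

theorem sum_prU {M : Type*} [AddCommMonoid M] (G : Finset ι) (φ : Finset ι → Finset ι → M) :
    ∑ x ∈ prU G, (if Disjoint x.1 x.2 then φ x.1 x.2 else 0) =
      ∑ E ∈ G.powerset, φ E (G \ E) := by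
  rw [← sum_filter]
  refine sum_bij' (fun x _ => x.1) (fun E _ => (E, G \ E)) ?_ ?_ ?_ ?_ ?_
  · intro x hx
    rw [mem_filter, mem_prU] at hx
    rw [mem_powerset, ← hx.1]
    exact subset_union_left
  · intro E hE
    rw [mem_filter, mem_prU]
    exact ⟨union_sdiff_of_subset (mem_powerset.1 hE), disjoint_sdiff⟩
  · intro x hx
    rw [mem_filter, mem_prU] at hx
    refine Prod.ext rfl ?_
    show G \ x.1 = x.2
    rw [← hx.1, union_sdiff_cancel_left hx.2]
  · intro E _
    rfl
  · intro x hx
    rw [mem_filter, mem_prU] at hx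
    have h : G \ x.1 = x.2 := by rw [← hx.1, union_sdiff_cancel_left hx.2]
    rw [h]

/-- **The product.** -/
theorem RB.mul {B : ValuationSubring ℂ} (hB : (2 : ℂ)⁻¹ ∉ B) {η : ℂ} (hη : Rt B η 0)
    (hη0 : η ≠ 0) {C : Finset ι} {f g : Finset ι → ℂ} {P Q : MvPolynomial ι (ZMod 2)}
    (h : RB B η C f P) (h1 : RB B η C g Q) : RB B η C (fun A => f A * g A) (P * Q) := by
  intro G hG
  rw [mo_mul, cf_mul, ← sum_prU G fun E F => cf P E * cf Q F, sum_div]
  refine Rt.sum hB _ fun x hx => ?_
  rw [mem_prU] at hx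
  have hx1 : x.1 ⊆ G := hx ▸ subset_union_left
  have hx2 : x.2 ⊆ G := hx ▸ subset_union_right
  have hc : x.1.card + x.2.card = G.card + (x.1 ∩ x.2).card := by
    rw [← hx, card_union_add_card_inter]
  have e : mo f x.1 * mo g x.2 / η ^ G.card =
      (mo f x.1 / η ^ x.1.card) * (mo g x.2 / η ^ x.2.card) * η ^ (x.1 ∩ x.2).card := by
    rw [div_mul_div_comm, ← pow_add, hc, pow_add, div_mul_eq_mul_div,
      mul_div_mul_right _ _ (pow_ne_zero _ hη0)]
  rw [e]
  have h3 := ((h x.1 (hx1.trans hG)).mul hB (h1 x.2 (hx2.trans hG))).mul hB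
    (hη.pow hB (x.1 ∩ x.2).card)
  split_ifs with hd
  · rw [disjoint_iff_inter_eq_empty.1 hd, card_empty, pow_zero, pow_zero, mul_one,
      mul_one] at h3
    rw [disjoint_iff_inter_eq_empty.1 hd, card_empty, pow_zero, mul_one]
    exact h3
  · rw [zero_pow, mul_zero] at h3
    · exact h3
    · rw [card_ne_zero, nonempty_iff_ne_empty]
      exact fun h4 => hd (disjoint_iff_inter_eq_empty.2 h4)

theorem RB.one {B : ValuationSubring ℂ} {η : ℂ} {C : Finset ι} :
    RB B η C (fun _ => 1) (1 : MvPolynomial ι (ZMod 2)) := by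
  intro E _
  rw [mo_const, cf_one]
  split_ifs with h
  · rw [h, card_empty, pow_zero, div_one]
    exact Rt.one
  · rw [zero_div]
    exact Rt.zero

theorem RB.prod {B : ValuationSubring ℂ} (hB : (2 : ℂ)⁻¹ ∉ B) {η : ℂ} (hη : Rt B η 0)
    (hη0 : η ≠ 0) {C : Finset ι} {α : Type*} (Z : Finset α) {f : α → Finset ι → ℂ}
    {P : α → MvPolynomial ι (ZMod 2)} (h : ∀ z ∈ Z, RB B η C (f z) (P z)) :
    RB B η C (fun A => ∏ z ∈ Z, f z A) (∏ z ∈ Z, P z) := by
  classical
  induction Z using Finset.induction_on with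
  | empty =>
    simp only [prod_empty]
    exact RB.one
  | insert z Z hz ih =>
    simp only [prod_insert hz]
    exact (h z (mem_insert_self z Z)).mul hB hη hη0
      (ih fun w hw => h w (mem_insert_of_mem hw))

/-- the sign -/
def sgz (y : ZMod 2) : ℂ := (-1) ^ y.val

theorem sgz_zero : sgz 0 = 1 := by
  rw [sgz, ZMod.val_zero, pow_zero]

theorem sgz_one : sgz 1 = -1 := by
  rw [sgz, ZMod.val_one, pow_one]

/-- **The weight.** -/
theorem RB.weight {B : ValuationSubring ℂ} (hB : (2 : ℂ)⁻¹ ∉ B) {e χ l : ℂ} (hl0 : l ≠ 0)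
    (hl : Rt B l 0) {u : ZMod 2} (h0 : Rt B ((e - χ) / l) u) (hχ : Rt B χ 1)
    (s : ι → ZMod 2) (C : Finset ι) :
    RB B (2 / l) C (fun A => (e - χ * ∏ b ∈ A, sgz (s b)) / l)
      (MvPolynomial.C u + ∑ b ∈ C, X b * MvPolynomial.C (s b)) := by
  intro E hE
  have hm : mo (fun A => (e - χ * ∏ b ∈ A, sgz (s b)) / l) E =
      (if E = ∅ then (e - χ) / l else -(χ / l) * ∏ b ∈ E, (sgz (s b) - 1)) := by
    refine mo_unique (D := E) (c := fun E => if E = ∅ then (e - χ) / l else
      -(χ / l) * ∏ b ∈ E, (sgz (s b) - 1)) ?_ E subset_rfl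
    intro A _
    rw [← add_sum_erase _ _ (empty_mem_powerset A), if_pos rfl]
    have h1 : ∑ F ∈ A.powerset.erase ∅, (if F = ∅ then (e - χ) / l else
        -(χ / l) * ∏ b ∈ F, (sgz (s b) - 1)) =
        -(χ / l) * ((∏ b ∈ A, sgz (s b)) - 1) := by
      have h2 := mo_sum A fun A => ∏ b ∈ A, sgz (s b)
      simp only [mo_prod] at h2
      rw [← add_sum_erase _ _ (empty_mem_powerset A), prod_empty] at h2
      rw [h2, add_sub_cancel_left, mul_sum]
      exact sum_congr rfl fun F hF => if_neg (mem_erase.1 hF).1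
    rw [h1]
    ring
  rw [hm, cf_add, cf_C, cf_sum]
  have h : ∀ b ∈ C, cf (X b * MvPolynomial.C (s b)) E = if E = {b} then s b else 0 := by
    intro b _
    rw [mul_comm, cf_C_mul, cf_X, mul_ite, mul_one, mul_zero]
  rw [sum_congr rfl h]
  by_cases h0' : E = ∅
  · rw [if_pos h0', if_pos h0', sum_eq_zero fun b _ => if_neg (by
      rw [h0']
      exact (singleton_ne_empty b).symm), add_zero, h0', card_empty, pow_zero, div_one]
    exact h0
  · rw [if_neg h0', if_neg h0', zero_add]
    obtain ⟨b, hb⟩ := nonempty_iff_ne_empty.2 h0'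
    have hval : ∀ y : ZMod 2, (sgz y - 1) / (2 / l) = -l * (y.val : ℂ) := by
      intro y
      have hy : y = 0 ∨ y = 1 := by
        revert y
        decide
      rcases hy with rfl | rfl
      · rw [sgz_zero, ZMod.val_zero]
        simp
      · rw [sgz_one, ZMod.val_one]
        field_simp
        norm_num
    have e1 : -(χ / l) * (∏ b ∈ E, (sgz (s b) - 1)) / (2 / l) ^ E.card =
        χ * ((s b).val : ℂ) * ∏ b' ∈ E.erase b, (-l * ((s b').val : ℂ)) := by
      rw [mul_div_assoc, ← prod_const, ← prod_div_distrib, prod_congr rfl fun b _ => hval (s b),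
        ← mul_prod_erase _ _ hb]
      field_simp
    have hR : ∀ y : ZMod 2, Rt B (y.val : ℂ) y := by
      intro y
      have := Rt.natCast hB y.val
      rwa [ZMod.natCast_zmod_val] at this
    have h1 := (hχ.mul hB (hR (s b))).mul hB (Rt.prod hB (E.erase b)
      fun b' _ => (hl.neg hB).mul hB (hR (s b')))
    rw [e1]
    have h2 : ∑ b' ∈ C, (if E = {b'} then s b' else 0) =
        1 * s b * ∏ b' ∈ E.erase b, (0 * s b') := by
      by_cases hE1 : E = {b}
      · rw [sum_eq_single b]
        · rw [if_pos hE1, hE1]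
          simp
        · intro b' _ hb'
          rw [if_neg]
          rw [hE1]
          exact fun h => hb' (singleton_injective h).symm
        · intro h
          exact absurd (hE hb) h
      · rw [sum_eq_zero]
        · have h3 : (E.erase b).Nonempty := by
            rw [nonempty_iff_ne_empty]
            intro h3
            apply hE1
            rw [← insert_erase hb, h3]
            rfl
          obtain ⟨b', hb'⟩ := h3
          have h4 : ∏ b' ∈ E.erase b, (0 * s b') = 0 :=
            prod_eq_zero (i := b') hb' (zero_mul (s b'))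
          rw [h4, mul_zero]
        · intro b' _
          rw [if_neg]
          rintro rfl
          exact hE1 (by rw [mem_singleton.1 hb])
    rw [h2]
    exact h1

end

end Pool.Agent.Lib.MP_1a91b9_ntQ
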