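import Pool.Agent.Lib.MP_1a91b9_ntQ.A.OptB

/-!
# Quartic twists, part A, file OptG: the end statement with two different borders

The totals `∑ g i * Ham s f`: the class of the value is the bordered determinant of the final matrix with
the column `κ + f` and the row `g`.
-/

set_option autoImplicit false
set_option linter.unusedSectionVars false

namespace Pool.Agent.Lib.MP_1a91b9_ntQ

open Finset MvPolynomial
open Pool.Agent.Lib.MP_1a91b9_ntK (NM NM_congr NM_empty NM_adj NM_update NM_zero forest
  CZ CZ_eq forest_zero)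

variable {ι : Type*} [DecidableEq ι] {R : Type*} [CommRing R]

/-- **The bordered determinant is a determinant with one more vertex.** -/
theorem GE_optG (s : ι → ι → R) (κ g b : ι → R) (x : R) (T A : Finset ι) :
    rO (GE s κ g (fun i => κ i + b i) x T A) =
      DE (mO s b g) (kO κ b x) (insertNone T) (A.map Function.Embedding.some) := by
  have h1 : GE s κ g (fun i => κ i + b i) x T A = FB (mwE s A) (fun i => C (b i)) (mvE g A)
      (C x - ∑ i ∈ T ∪ A, mvE g A i) (fun i => C (κ i)) (T ∪ A) := by
    rw [← FB_shift, GE]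
    exact FB_congr2 (fun _ _ _ _ _ => rfl) (fun _ _ => rfl) (fun _ _ => C_add) (fun _ _ => rfl) rfl
  rw [h1, FB_rO, DE, map_some_union]
  congr 1
  refine NM_congr2 ?_ ?_
  · intro y _ p _ _
    rcases y with _ | y <;> rcases p with _ | p
    · simp [mO, mwE]
    · simp only [mO, mwE, mvE, mem_map, Function.Embedding.some_apply, Option.some.injEq,
        exists_eq_right]
      split_ifs
      · rw [map_neg, map_mul, rO_X, rO_C, C_neg, mul_neg]
      · rw [map_neg, rO_C, C_neg]
    · simp only [mO, mwE, mem_map, Function.Embedding.some_apply, reduceCtorEq, and_false,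
        exists_false, if_false]
      rw [map_neg, rO_C, C_neg]
    · simp only [mO, mwE, mem_map, Function.Embedding.some_apply, Option.some.injEq,
        exists_eq_right]
      split_ifs
      · rw [map_mul, rO_X, rO_C]
      · rw [rO_C]
  · intro y _
    rcases y with _ | y
    · simp only [kO, rO_C]
    · simp only [kO, map_add, rO_C]

/-- **The sum over the subsets of `V` is the bordered determinant of the final matrix.** -/
theorem GE_finalG [Nontrivial R] (s : ι → ι → R) (κ g b' τ : ι → R) (x : R) {T V : Finset ι}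
    (hTV : Disjoint T V) (hu : ∀ b ∈ V, κ b + ∑ p ∈ T, s b p = 0) :
    ∑ A ∈ V.powerset, cf (GE s κ g (fun i => κ i + b' i) x T A) A * pdt (blkL s τ V) (V \ A) =
      pdB (blkM s κ τ T V) b' g (x - ∑ p ∈ T, g p) (T ∪ V) := by
  have hTV' : Disjoint (insertNone T) (V.map Function.Embedding.some) := by
    rw [disjoint_left]
    rintro (_ | i) h1 h2
    · simp at h2
    · simp only [mem_map, Function.Embedding.some_apply, Option.some.injEq, exists_eq_right] at h2
      exact disjoint_left.1 hTV (some_mem_insertNone.1 h1) h2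
  have hu' : ∀ b ∈ V.map Function.Embedding.some,
      kO κ b' x b + ∑ p ∈ insertNone T, mO s b' g b p = 0 := by
    intro b0 hb'
    obtain ⟨b, hb, rfl⟩ := mem_map.1 hb'
    have h1 := hu b hb
    rw [sum_insertNone]
    simp only [kO, mO, Function.Embedding.some_apply]
    linear_combination h1
  have h1 := DE_final (mO s b' g) (kO κ b' x) (tO τ) hTV' hu'
  have h2 : ∑ A ∈ (V.map Function.Embedding.some).powerset,
      cf (DE (mO s b' g) (kO κ b' x) (insertNone T) A) A *
        pdt (blkL (mO s b' g) (tO τ) (V.map Function.Embedding.some))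
          (V.map Function.Embedding.some \ A) =
      ∑ A ∈ V.powerset, cf (GE s κ g (fun i => κ i + b' i) x T A) A *
        pdt (blkL s τ V) (V \ A) := by
    symm
    refine sum_bij (fun A _ => A.map Function.Embedding.some) ?_ ?_ ?_ ?_
    · intro A hA
      rw [mem_powerset] at hA ⊢
      exact map_subset_map.2 hA
    · intro A _ A' _ h
      exact map_injective _ h
    · intro A' hA'
      rw [mem_powerset] at hA'
      obtain ⟨A, hA, rfl⟩ := subset_map_iff.1 hA'
      exact ⟨A, mem_powerset.2 hA, rfl⟩
    · intro A hA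
      rw [mem_powerset] at hA
      have e1 : V.map Function.Embedding.some \ A.map Function.Embedding.some =
          (V \ A).map Function.Embedding.some := (Finset.map_sdiff _ _).symm
      rw [← GE_optG, cf_rO, e1, pdt_map_emb]
      congr 1
      refine pdt_congr fun i hi j _ => ?_
      rw [blkL, blkL]
      by_cases hij : i = j
      · subst hij
        rw [if_pos rfl, if_pos rfl]
        have e2 : (V.map Function.Embedding.some).erase (some i) =
            (V.erase i).map Function.Embedding.some := (map_erase _ _ _).symm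
        simp only [Function.Embedding.some_apply]
        rw [e2, sum_map]
        rfl
      · rw [if_neg hij, if_neg (fun h => hij (Function.Embedding.some.injective h))]
        rfl
  rw [h2] at h1
  rw [h1, map_some_union, pdt_insertNone]
  refine pdB_congr ?_ ?_ ?_ ?_
  · intro i hi j _
    rw [blkM, blkM]
    by_cases hij : i = j
    · subst hij
      rw [if_pos rfl, if_pos rfl]
      by_cases hT : i ∈ T
      · rw [if_pos hT, if_pos (some_mem_insertNone.2 hT), erase_some, sum_insertNone]
        simp only [kO, mO]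
        ring
      · rw [if_neg hT, if_neg (fun h => hT (some_mem_insertNone.1 h))]
        have e2 : (V.map Function.Embedding.some).erase (some i) =
            (V.erase i).map Function.Embedding.some := (map_erase _ _ _).symm
        rw [e2, sum_map]
        rfl
    · rw [if_neg hij, if_neg (fun h => hij (Option.some_injective _ h))]
      rfl
  · intro i _
    rw [blkM, if_neg (by simp)]
    simp only [mO, neg_neg]
  · intro i _
    rw [blkM, if_neg (by simp)]
    simp only [mO, neg_neg]
  · rw [blkM, if_pos rfl, if_pos none_mem_insertNone, erase_none, sum_map]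
    simp only [kO, mO, Function.Embedding.some_apply, sum_neg_distrib]
    ring

section
variable {B : ValuationSubring ℂ} {l K : ℂ} {La : Finset ι → Finset ι → ℂ} {e : ι → ℂ}
  {x : Finset ι → ι → ℂ} {s : ι → ι → ZMod 2} {κ : ι → ZMod 2} {S0 B0 : Finset ι}

/-- **Two borders: the class of the value is the bordered determinant.** -/
theorem SyB.final_G (h : SyB B l K La e x s κ S0 B0) {g f : ι → ZMod 2} {x0 : ZMod 2}
    (h0 : Rt B (La ∅ ∅ / K) x0)
    (hid : ∀ T ⊆ S0, ∀ C ⊆ B0, (T ∪ C).Nonempty → Rt B (idB l K La e x s 0 T C)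
      (∑ i ∈ T ∪ C, g i * Ham s f (T ∪ C) i))
    {U V : Finset ι} (hUB : U ∪ V = B0) (hUV : Disjoint U V)
    (hu1 : ∀ b ∈ U, κ b + ∑ p ∈ S0, s b p = 1) (hu0 : ∀ b ∈ V, κ b + ∑ p ∈ S0, s b p = 0)
    {τ : ι → ZMod 2} (h1 : ∀ b ∈ V, Rt B (x S0 b * ∏ a ∈ U, sgz (s b a)) 1)
    (h2 : ∀ b ∈ V, Rt B ((e b - x S0 b * ∏ a ∈ U, sgz (s b a)) / l ^ 2) (τ b)) :
    Rt B (La S0 B0 / (K * l ^ (S0.card + U.card + 2 * V.card)))
      (pdB (blkM s κ τ S0 V) (fun i => κ i + f i) g (x0 + ∑ p ∈ S0, g p) (S0 ∪ V)) := by
  have hU : U ⊆ B0 := hUB ▸ subset_union_left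
  have hV : V ⊆ B0 := hUB ▸ subset_union_right
  have hf : (fun j => κ j + (κ j + f j)) = f := by
    funext j
    have h2 : ∀ x y : ZMod 2, x + (x + y) = y := by decide
    exact h2 _ _
  have h3 := h.final (n := 0) (P := fun C => GE s κ g f x0 S0 C) hU hV hUV
    (fun C hC => h.claim_GE h0 hid _ S0 subset_rfl C hC rfl)
    (fun A hA b hb E hE => GE_step s κ g _ x0 (disjoint_of_subset_right hA h.dis) hb hE)
    hu1 hu0 h1 h2 V.card V subset_rfl rfl
  have h4 : solB s τ (fun A => cf (GE s κ g f x0 S0 A) A) V =
      ∑ A ∈ V.powerset, cf (GE s κ g (fun j => κ j + (κ j + f j)) x0 S0 A) A *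
        pdt (blkL s τ V) (V \ A) := by
    rw [hf]
    exact sum_congr rfl fun A hA => by rw [NM_blkL s τ (mem_powerset.1 hA)]
  rw [hUB, add_zero, h4, GE_finalG s κ g (fun j => κ j + f j) τ x0
    (disjoint_of_subset_right hV h.dis) hu0, sub_eq_add_neg, ZMod.neg_eq_self_mod_two] at h3
  exact h3

end

end Pool.Agent.Lib.MP_1a91b9_ntQ
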