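import Pool.Agent.Lib.MP_1a91b9_ntQ.A.Avg4
import Pool.Agent.Lib.MP_1a91b9_ntQ.A.Res4

/-!
# Quartic twists, part A, file Pair4: the involution `c ↦ 2 D - c`, the normalised representatives
and the sum of the weights
-/

set_option autoImplicit false
set_option linter.unusedSectionVars false

namespace Pool.Agent.Lib.MP_1a91b9_ntQ

open NumberField Pool.Agent.Lib.MP_1a91b9_nuT Pool.Agent.Lib.MP_1a91b9_nuT.S3
  Pool.Agent.Lib.MP_1a91b9_nuT.Ell

noncomputable section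

/-! ### The periods of the sums of `E1` -/

section gen
variable [CD] [hq : Q4]

theorem HH_lat {l : ℂ} (hl : l ∈ PP.lattice) (z : ℂ) : HH (z + l) = HH z := by
  rw [HH, HH, gg_add hl]
  have e : z + l + 1 / 2 = z + 1 / 2 + l := by ring
  rw [e, gg_add hl]

theorem HH_congr {x y : ℂ} (h : x - y ∈ PP.lattice) : HH x = HH y := by
  have e : x = y + (x - y) := by ring
  rw [e, HH_lat h]

theorem HH_half (z : ℂ) : HH (z + 1 / 2) = HH z := by
  rw [HH, HH]
  have e : z + 1 / 2 + 1 / 2 = z + 1 := by ring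
  rw [e, gg_add one_mem, add_comm]

theorem HH_pe (z : ℂ) : HH (z + pe) = -HH z := by
  rw [HH, HH, gg_add_pe]
  have e : z + pe + 1 / 2 = z + 1 / 2 + pe := by ring
  rw [e, gg_add_pe]
  ring

theorem HH_neg (z : ℂ) : HH (-z) = -HH z := by
  rw [HH, HH, gg_neg]
  have e : gg (-z + 1 / 2) = -gg (z + 1 / 2) := by
    rw [← gg_neg]
    refine gg_congr ?_
    have e1 : -z + 1 / 2 - -(z + 1 / 2) = 1 := by ring
    rw [e1]
    exact one_mem
  rw [e]
  ring

theorem HH_pe3 (z : ℂ) : HH (z + pe ^ 3 + pe ^ 3) = -HH z := by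
  rw [← HH_pe]
  refine HH_congr ?_
  have e : z + pe ^ 3 + pe ^ 3 - (z + pe) = 2 * pe ^ 3 - pe := by ring
  rw [e]
  exact two_pe3

theorem Ph4_add (k : ZMod 4) {l : ℂ} (hl : l ∈ PP.lattice) (z : ℂ) : Ph4 k (z + l) = Ph4 k z := by
  rcases (by
    by_cases h0 : k = 0
    · exact Or.inl h0
    · by_cases h2 : k = 2
      · exact Or.inr (Or.inl h2)
      · exact Or.inr (Or.inr ⟨h0, h2⟩) : k = 0 ∨ k = 2 ∨ (k ≠ 0 ∧ k ≠ 2)) with rfl | rfl | ⟨h0, h2⟩
  · rw [Ph4_zero, Ph4_zero, S3.E1_add hl]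
  · rw [Ph4_two, Ph4_two, gg_add hl]
  · rw [Ph4_odd h0 h2, Ph4_odd h0 h2, HH_lat hl]
    have e : z + l + pe ^ 3 = z + pe ^ 3 + l := by ring
    rw [e, HH_lat hl]

theorem Ph4_two_pe (z : ℂ) : Ph4 2 (z + pe) = -Ph4 2 z := by
  rw [Ph4_two, Ph4_two, gg_add_pe]
  ring

theorem Ph4_half {k : ZMod 4} (h0 : k ≠ 0) (h2 : k ≠ 2) (z : ℂ) :
    Ph4 k (z + 1 / 2) = Ph4 k z := by
  rw [Ph4_odd h0 h2, Ph4_odd h0 h2, HH_half]
  have e : z + 1 / 2 + pe ^ 3 = z + pe ^ 3 + 1 / 2 := by ring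
  rw [e, HH_half]

theorem Ph4_pe3 {k : ZMod 4} (h0 : k ≠ 0) (h2 : k ≠ 2) (z : ℂ) :
    Ph4 k (z + pe ^ 3) = e4 (-k) * Ph4 k z := by
  rw [Ph4_odd h0 h2, Ph4_odd h0 h2, HH_pe3]
  have h : e4 k * e4 k = -1 := by
    rw [← e4_add]
    have h1 : ∀ k : ZMod 4, k ≠ 0 → k ≠ 2 → k + k = 2 := by decide
    rw [h1 k h0 h2, e4_two]
  have h' : e4 (-k) * e4 k = 1 := by rw [← e4_add, neg_add_cancel, e4_zero]
  have h'' : e4 (-k) = -e4 k := by linear_combination e4 (-k) * h - e4 k * h'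
  rw [h'']
  linear_combination -(Om * HH (z + pe ^ 3)) * h

theorem Ph4_nat {k : ZMod 4} (h0 : k ≠ 0) (h2 : k ≠ 2) (z : ℂ) (j : ℕ) :
    Ph4 k (z + (j : ℂ) * pe ^ 3) = e4 (-(k * (j : ZMod 4))) * Ph4 k z := by
  induction j with
  | zero => rw [Nat.cast_zero, Nat.cast_zero, zero_mul, add_zero, mul_zero, neg_zero, e4_zero,
      one_mul]
  | succ j ih =>
    have e : z + ((j + 1 : ℕ) : ℂ) * pe ^ 3 = z + (j : ℂ) * pe ^ 3 + pe ^ 3 := by
      push_cast
      ring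
    have e' : -(k * ((j + 1 : ℕ) : ZMod 4)) = -k + -(k * (j : ZMod 4)) := by
      push_cast
      ring
    rw [e, Ph4_pe3 h0 h2, ih, e', e4_add]
    ring

end gen

/-! ### The summand -/

/-- the summand of (ID) -/
def FF (k : ZMod 4) (S : Finset Pg) (x : 𝓞 K) : ℂ := th4 k x * w4 S x * Ph4 k (zp k S x)

theorem g4_ne (k : ZMod 4) : g4 k ≠ 0 := by
  intro h0
  apply f4_ne k
  rw [f4_eq, h0, mul_zero]

theorem zp_add (k : ZMod 4) (S : Finset Pg) (x y : 𝓞 K) :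
    zp k S (x + lam ^ 3 * (DDq S * y)) = zp k S x + em y / em (g4 k) := by
  have hD : em (DDq S) ≠ 0 := em_ne (DDq_in4 S).ne_zero
  have hg : em (g4 k) ≠ 0 := em_ne (g4_ne k)
  have hl : em (lam ^ 3) ≠ 0 := em_ne (pow_ne_zero 3 lam_ne_zero)
  have e6 : em (f4 k) = em (lam ^ 3) * em (g4 k) := by rw [f4_eq, em_mul]
  rw [zp, zp, em_add, em_mul (lam ^ 3), em_mul (DDq S), em_mul (f4 k), e6]
  field_simp

theorem Ph4_shift (k : ZMod 4) (z : ℂ) (y : 𝓞 K) :
    Ph4 k (z + em y / em (g4 k)) = e4 (-(k * sm y)) * Ph4 k z := by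
  rcases f4_cases k with rfl | rfl | ⟨h0, h2⟩
  · rw [g4_zero, em_one, div_one, zero_mul, neg_zero, e4_zero, one_mul, Ph4_add 0 (em_mem y)]
  · rw [g4_two]
    have hl : em lam ≠ 0 := em_ne lam_ne_zero
    have hpe : em 1 / em lam = pe := by rw [em_one, em_lam, pe, one_div]
    obtain ⟨n, hn⟩ : ∃ n : ℤ, n = (cp y).1 + (cp y).2 := ⟨_, rfl⟩
    have hsm : sm y = (n : ZMod 4) := by rw [sm, hn]
    rcases Int.even_or_odd' n with ⟨m, hm | hm⟩
    · obtain ⟨t, ht⟩ : lam ∣ y := by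
        rw [lam_dvd_iff, ← hn, hm]
        exact dvd_mul_right _ _
      have e : em y / em lam = em t := by
        rw [ht, em_mul]
        field_simp
      have e' : (2 : ZMod 4) * sm y = 0 := by
        rw [hsm, hm]
        push_cast
        rw [← mul_assoc]
        have h4 : (2 : ZMod 4) * 2 = 0 := rfl
        rw [h4, zero_mul]
      rw [e, Ph4_add 2 (em_mem t), e', neg_zero, e4_zero, one_mul]
    · obtain ⟨t, ht⟩ : lam ∣ y - 1 := by
        rw [lam_dvd_iff, sub_cp, cp_one]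
        dsimp only
        exact ⟨m, by omega⟩
      have e : z + em y / em lam = z + pe + em t := by
        have h1 : y = 1 + lam * t := by linear_combination ht
        rw [← hpe, h1, em_add, em_mul]
        field_simp
        ring
      have e' : -((2 : ZMod 4) * sm y) = 2 := by
        rw [hsm, hm]
        push_cast
        have h4 : ∀ a : ZMod 4, -(2 * (2 * a + 1)) = 2 := by decide
        exact h4 _
      rw [e, Ph4_add 2 (em_mem t), Ph4_two_pe, e', e4_two]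
      ring
  · rw [g4_odd h0 h2]
    obtain ⟨p, t, ht⟩ := x4_ex y
    have hl : em (lam ^ 3) ≠ 0 := em_ne (pow_ne_zero 3 lam_ne_zero)
    have h1 : y = x4 p + lam ^ 3 * t := by linear_combination ht
    have e : em y / em (lam ^ 3) = (p.1.val : ℂ) * pe ^ 3 - (p.2.val : ℂ) / 2 + em t := by
      rw [← em_x4, h1, em_add, em_mul]
      field_simp
    have hsm : sm y = p.1 := by rw [h1, sm_add, sm_lam3, add_zero, sm_x4]
    have e2 : z + em y / em (lam ^ 3) = z - (p.2.val : ℂ) / 2 + (p.1.val : ℂ) * pe ^ 3 + em t := by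
      rw [e]
      ring
    have e3 : Ph4 k (z - (p.2.val : ℂ) / 2) = Ph4 k z := by
      have h3 : ∀ b : Fin 2, b = 0 ∨ b = 1 := by decide
      rcases h3 p.2 with h4 | h4
      · rw [h4]
        have v0 : (((0 : Fin 2).val : ℕ) : ℂ) = 0 := Nat.cast_zero
        rw [v0, zero_div, sub_zero]
      · rw [h4]
        have v1 : (((1 : Fin 2).val : ℕ) : ℂ) = 1 := Nat.cast_one
        rw [v1, ← Ph4_half h0 h2 (z - 1 / 2), sub_add_cancel]
    rw [e2, Ph4_add k (em_mem t), Ph4_nat h0 h2, e3, ZMod.natCast_zmod_val, hsm]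

theorem FF_per (k : ZMod 4) {S : Finset Pg} {x y : 𝓞 K} (hx : In4 x)
    (h : lam ^ 3 * DDq S ∣ y - x) : FF k S y = FF k S x := by
  obtain ⟨t, ht⟩ := h
  have e : y = x + lam ^ 3 * (DDq S * t) := by linear_combination ht
  have e1 : w4 S y = w4 S x := w4_per ⟨lam ^ 3 * t, by linear_combination ht⟩
  have e2 : th4 k y = th4 k x * e4 (k * sm t) := by
    rw [e, th4, nn_add hx, sm_mul_in4 (DDq_in4 S), mul_add, e4_add]
    rfl
  have e3 : e4 (k * sm t) * e4 (-(k * sm t)) = 1 := by rw [← e4_add, add_neg_cancel, e4_zero]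
  rw [FF, FF, e1, e2, e, zp_add, Ph4_shift]
  linear_combination th4 k x * w4 S x * Ph4 k (zp k S x) * e3

/-! ### The involution -/

theorem two_sub_in4 (S : Finset Pg) {x : 𝓞 K} (hx : In4 x) : In4 (2 * DDq S - x) := by
  obtain ⟨a, ha⟩ := hx
  obtain ⟨b, hb⟩ := DDq_in4 S
  exact ⟨2 * b - a, by linear_combination 2 * hb - ha⟩

theorem Pg.not_two (q : Pg) : ¬ q.1 ∣ 2 := by
  intro h
  have h1 : (2 : 𝓞 K) ∣ lam ^ 2 := ⟨iO, by rw [lam_sq]⟩
  have h2 : q.1 ∣ lam := q.prime.dvd_of_dvd_pow (h.trans h1)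
  exact q.in4.not_lam (q.prime.associated_of_dvd prime_lam h2).symm.dvd

theorem zp_two_sub (k : ZMod 4) (S : Finset Pg) (x : 𝓞 K) :
    zp k S (2 * DDq S - x) = 2 * (em (f4 k))⁻¹ - zp k S x := by
  have hD : em (DDq S) ≠ 0 := em_ne (DDq_in4 S).ne_zero
  have hf : em (f4 k) ≠ 0 := em_ne (f4_ne k)
  have h2 : em (2 : 𝓞 K) = 2 := em_natCast 2
  rw [zp, zp, em_sub, em_mul, em_mul, h2]
  field_simp

section
variable {S : Finset Pg} {ι : Type} {c : ι → 𝓞 K} (hc : RepsG (lam ^ 3) (lam ^ 3 * DDq S) c)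
include hc

theorem reps_not_dvd (i : ι) {q : Pg} (hq : q ∈ S) : ¬ q.1 ∣ c i := by
  intro h
  have h1 : q.1 ∣ lam ^ 3 * DDq S := (dvd_DDq.2 hq).mul_left _
  exact q.2.1.not_isUnit ((hc.cop i).isUnit_of_dvd' h h1)

theorem reps_pair (hS : S.Nonempty) : ∃ σ : ι → ι, (∀ i, σ (σ i) = i) ∧ (∀ i, σ i ≠ i) ∧
    ∀ i, lam ^ 3 * DDq S ∣ (2 * DDq S - c i) - c (σ i) := by
  have hex : ∀ i, ∃ j, lam ^ 3 * DDq S ∣ (2 * DDq S - c i) - c j := by
    intro i
    refine hc.ex _ ?_ (two_sub_in4 S (hc.fx i))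
    refine IsCoprime.mul_right (in4_cop_lam (two_sub_in4 S (hc.fx i)) 3) ?_
    obtain ⟨p, q, hpq⟩ := (hc.cop i).of_isCoprime_of_dvd_right (dvd_mul_left (DDq S) (lam ^ 3))
    exact ⟨-p, q + 2 * p, by linear_combination hpq⟩
  choose σ hσ using hex
  refine ⟨σ, fun i => ?_, fun i hi => ?_, hσ⟩
  · refine hc.inj _ _ ?_
    have h1 := dvd_sub (hσ i) (hσ (σ i))
    have e : 2 * DDq S - c i - c (σ i) - (2 * DDq S - c (σ i) - c (σ (σ i))) =
        c (σ (σ i)) - c i := by ring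
    rwa [e] at h1
  · obtain ⟨q, hq⟩ := hS
    have h1 : q.1 ∣ lam ^ 3 * DDq S := (dvd_DDq.2 hq).mul_left _
    have h2 := h1.trans (hσ i)
    rw [hi] at h2
    have h3 : q.1 ∣ 2 * DDq S := (dvd_DDq.2 hq).mul_left _
    have h4 := dvd_sub h3 h2
    have e : 2 * DDq S - (2 * DDq S - c i - c i) = 2 * c i := by ring
    rw [e] at h4
    rcases q.2.1.dvd_or_dvd h4 with h5 | h5
    · exact q.not_two h5
    · exact reps_not_dvd hc i hq h5

end

/-- a sum over the pairs of an involution -/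
theorem v_sum_inv (B : ValuationSubring ℂ) {ι : Type} [Fintype ι] {σ : ι → ι}
    (h1 : ∀ i, σ (σ i) = i) (h2 : ∀ i, σ i ≠ i) (F : ι → ℂ) {b : B.ValueGroup} (hb : 0 < b)
    (h : ∀ i, B.valuation (F i + F (σ i)) < b) : B.valuation (∑ i, F i) < b := by
  classical
  have key : ∀ n : ℕ, ∀ s : Finset ι, s.card = n → (∀ i ∈ s, σ i ∈ s) →
      B.valuation (∑ i ∈ s, F i) < b := by
    intro n
    induction n using Nat.strong_induction_on with
    | _ n ih =>
      intro s hn hs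
      rcases s.eq_empty_or_nonempty with rfl | ⟨i, hi⟩
      · rw [Finset.sum_empty, map_zero]
        exact hb
      · have hi' : σ i ∈ s.erase i := Finset.mem_erase.2 ⟨h2 i, hs i hi⟩
        have e1 : ∑ j ∈ s, F j = (F i + F (σ i)) + ∑ j ∈ (s.erase i).erase (σ i), F j := by
          rw [← Finset.add_sum_erase s F hi, ← Finset.add_sum_erase (s.erase i) F hi', add_assoc]
        rw [e1]
        refine Valuation.map_add_lt _ (h i) (ih _ ?_ _ rfl ?_)
        · rw [← hn]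
          exact (Finset.card_erase_lt_of_mem hi').trans (Finset.card_erase_lt_of_mem hi)
        · intro j hj
          obtain ⟨h3, h4⟩ := Finset.mem_erase.1 hj
          obtain ⟨h5, h6⟩ := Finset.mem_erase.1 h4
          refine Finset.mem_erase.2 ⟨fun h7 => h5 ?_, Finset.mem_erase.2 ⟨fun h7 => h3 ?_, hs j h6⟩⟩
          · rw [← h1 j, h7, h1]
          · rw [← h7, h1]
  exact key _ Finset.univ rfl fun i _ => Finset.mem_univ _

/-- **The valuation of the right side of (ID)**: it is enough to treat the pairs `c`, `2 D - c`. -/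
theorem v_FF (B : ValuationSubring ℂ) (k : ZMod 4) {S : Finset Pg} (hS : S.Nonempty) {ι : Type}
    [Fintype ι] {c : ι → 𝓞 K} (hc : RepsG (lam ^ 3) (lam ^ 3 * DDq S) c) {b : B.ValueGroup}
    (hb : 0 < b) (h : ∀ i, B.valuation (FF k S (c i) + FF k S (2 * DDq S - c i)) < b) :
    B.valuation (∑ i, FF k S (c i)) < b := by
  obtain ⟨σ, h1, h2, h3⟩ := reps_pair hc hS
  refine v_sum_inv B h1 h2 (fun i => FF k S (c i)) hb fun i => ?_
  have e : FF k S (2 * DDq S - c i) = FF k S (c (σ i)) := FF_per k (hc.fx _) (h3 i)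
  change B.valuation (FF k S (c i) + FF k S (c (σ i))) < b
  rw [← e]
  exact h i

/-! ### The characters at `2 D - c` -/

theorem c4_neg_one (q : Pg) : c4 q (-1) = 2 * nn q.1 := by
  have h1 : ¬ q.1 ∣ iO := fun h => q.2.1.not_isUnit (isUnit_of_dvd_unit h isUnit_iO)
  have h2 : iO * iO = -1 := by
    rw [← pow_two, iO_sq]
  rw [← h2, c4_mul q h1 h1, c4_i]
  ring

theorem c4_two_sub {q : Pg} {S : Finset Pg} (hq : q ∈ S) {x : 𝓞 K} (hx : ¬ q.1 ∣ x) :
    c4 q (2 * DDq S - x) = 2 * nn q.1 + c4 q x := by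
  have h1 : ¬ q.1 ∣ (-1 : 𝓞 K) := fun h => q.2.1.not_isUnit (isUnit_of_dvd_one (by
    rwa [dvd_neg] at h))
  have h2 : ¬ q.1 ∣ -1 * x := fun h => (q.2.1.dvd_or_dvd h).elim h1 hx
  rw [← c4_neg_one, ← c4_mul q h1 hx]
  have h3 : q.1 ∣ -1 * x - (2 * DDq S - x) := by
    have e : -1 * x - (2 * DDq S - x) = DDq S * (-2) := by ring
    rw [e]
    exact (dvd_DDq.2 hq).mul_right _
  exact (c4_congr q h2 h3).symm

theorem aa_two_sub (S : Finset Pg) {x : 𝓞 K} (hx : In4 x) : aa (2 * DDq S - x) = aa x := by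
  refine (aa_congr hx ?_).symm
  obtain ⟨a, ha⟩ := hx
  obtain ⟨b, hb⟩ := DDq_in4 S
  have h4 : (2 : 𝓞 K) = -(iO * lam ^ 2) := by
    rw [lam_sq]
    linear_combination 2 * iO_sq
  have e : x - (2 * DDq S - x) = lam ^ 4 * (-(iO * lam) * (a - b)) := by
    linear_combination 2 * ha - 2 * hb + lam ^ 3 * (a - b) * h4
  rw [e]
  exact dvd_mul_right _ _

theorem th4_two_sub (k : ZMod 4) (S : Finset Pg) {x : 𝓞 K} (hx : In4 x) :
    th4 k (2 * DDq S - x) = th4 k x ∨ th4 k (2 * DDq S - x) = -th4 k x := by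
  have h1 := aa_two_sub S hx
  have h2 : ∀ k a b : ZMod 4, md a = md b → k * a = k * b ∨ k * a = 2 + k * b := by decide
  rcases h2 k _ _ h1 with h3 | h3
  · left
    rw [th4, th4, h3]
  · right
    rw [th4, th4, h3, e4_add, e4_two, neg_one_mul]

/-! ### Normalised representatives -/

theorem reps_norm (k : ZMod 4) {S : Finset Pg} {ι : Type} {c : ι → 𝓞 K}
    (hc : RepsG (lam ^ 3) (lam ^ 3 * DDq S) c) : ∃ c' : ι → 𝓞 K,
      RepsG (lam ^ 3) (lam ^ 3 * DDq S) c' ∧ ∀ i, f4 k ∣ c' i - 1 := by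
  have hcop : IsCoprime (DDq S) (f4 k) := in4_cop_f4 (DDq_in4 S) k
  obtain ⟨u, v, huv⟩ := hcop
  have hex : ∀ i, ∃ y : 𝓞 K, f4 k ∣ c i + lam ^ 3 * (DDq S * y) - 1 := by
    intro i
    obtain ⟨t, ht⟩ := hc.fx i
    refine ⟨-(u * t), lam ^ 3 * t * v, ?_⟩
    linear_combination ht + lam ^ 3 * t * (-huv)
  choose y hy using hex
  refine ⟨fun i => c i + lam ^ 3 * (DDq S * y i), ⟨hc.ne, hc.dvd, fun i => ?_, fun i => ?_, ?_, ?_⟩,
    hy⟩
  · exact (f4_dvd k).trans (hy i)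
  · have h1 : lam ^ 3 * DDq S ∣ c i + lam ^ 3 * (DDq S * y i) - c i := ⟨y i, by ring⟩
    exact Eul_cop h1 (hc.cop i)
  · intro a ha h1
    obtain ⟨i, t, ht⟩ := hc.ex a ha h1
    exact ⟨i, t - y i, by linear_combination ht⟩
  · rintro i j ⟨t, ht⟩
    exact hc.inj i j ⟨t - y i + y j, by linear_combination ht⟩

theorem th4_norm (k : ZMod 4) {x : 𝓞 K} (h : f4 k ∣ x - 1) : th4 k x = 1 := by
  have h1 : In4 x := (f4_dvd k).trans h
  rw [th4_congr k h1 h, th4_one]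

end

end Pool.Agent.Lib.MP_1a91b9_ntQ
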