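import Pool.Agent.Lib.MP_1a91b9_ntQ.A.Ser4

/-!
# TwistDensity, phase 4 (quartic twists), part A, file Prim4: the L-series with a modulus prime to `2`

`Y` is a multiplicative function on `𝓞 K4` modulo `ν`, `Y i = i`, the units are distinct modulo `ν`. So
`conj a * Y a` only depends on the ideal `(a)`; its L-series is a quarter of the sum over the residue classes
modulo `ν`, hence has an entire continuation.
-/

set_option autoImplicit false

namespace Pool.Agent.Lib.MP_1a91b9_ntQ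

open NumberField IsDedekindDomain Polynomial WeierstrassCurve Pool.Agent.Lib.MP_1a91b9_nt
  Pool.Agent.Lib.MP_1a91b9_nuT
open Pool.Agent.Lib.MP_1a91b9_nuT.S4 (Lf)
open Pool.Agent.Lib.MP_1a91b9_nuT.DG (ZS exists_Z summable_Z)
open Pool.Agent.Lib.MP_1a91b9_ntQ.C (pv)

noncomputable section

/-- the character `Y` modulo `ν` with `Y i = i` -/
structure ChrU (ν : 𝓞 K) (Y : 𝓞 K → ℂ) : Prop where
  ne : ν ≠ 0
  un : ∀ u : (𝓞 K)ˣ, ν ∣ (u : 𝓞 K) - 1 → u = 1
  one : Y 1 = 1
  mul : ∀ a b, Y (a * b) = Y a * Y b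
  le : ∀ a, ‖Y a‖ ≤ 1
  zero : ∀ a, ¬ IsCoprime a ν → Y a = 0
  per : ∀ a b, ν ∣ a - b → Y a = Y b
  i : Y iO = e4 1

/-- a generator of an ideal -/
def gnI (I : Ideal (𝓞 K)) : 𝓞 K := Submodule.IsPrincipal.generator I

theorem gnI_span (I : Ideal (𝓞 K)) : Ideal.span {gnI I} = I := Ideal.span_singleton_generator I

/-- the coefficients of the L-series -/
def pU (Y : 𝓞 K → ℂ) (I : Ideal (𝓞 K)) : ℂ := (starRingEnd ℂ) (em (gnI I)) * Y (gnI I)

/-- the summand -/
def FU (Y : 𝓞 K → ℂ) (s : ℂ) (a : 𝓞 K) : ℂ :=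
  (starRingEnd ℂ) (em a) * Y a * ((‖em a‖ : ℝ) : ℂ) ^ (-2 * s)

section

variable {ν : 𝓞 K} {Y : 𝓞 K → ℂ}

theorem em_iO_norm : ‖em iO‖ = 1 := by
  rw [em_iO, Complex.norm_I]

theorem ChrU.conj_i (h : ChrU ν Y) : (starRingEnd ℂ) (em iO) * Y iO = 1 := by
  rw [h.i, em_iO]
  have h1 : e4 1 = Complex.I := by
    rw [e4_one]
    exact em_iO
  rw [h1, Complex.conj_I]
  linear_combination -Complex.I_sq

theorem ChrU.smul (h : ChrU ν Y) (k : ℕ) (a : 𝓞 K) :
    (starRingEnd ℂ) (em (iO ^ k * a)) * Y (iO ^ k * a) = (starRingEnd ℂ) (em a) * Y a := by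
  induction k with
  | zero => rw [pow_zero, one_mul]
  | succ n ih =>
    have e : iO ^ (n + 1) * a = iO * (iO ^ n * a) := by ring
    rw [e, h.mul, em_mul, map_mul]
    calc _ = ((starRingEnd ℂ) (em iO) * Y iO) *
          ((starRingEnd ℂ) (em (iO ^ n * a)) * Y (iO ^ n * a)) := by ring
      _ = _ := by rw [h.conj_i, one_mul, ih]

theorem norm_smul4 (k : ℕ) (a : 𝓞 K) : ‖em (iO ^ k * a)‖ = ‖em a‖ := by
  rw [em_mul, em_pow, norm_mul, norm_pow, em_iO_norm, one_pow, one_mul]

theorem ChrU.FU_smul (h : ChrU ν Y) (s : ℂ) (k : ℕ) (a : 𝓞 K) : FU Y s (iO ^ k * a) = FU Y s a := by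
  rw [FU, FU, h.smul, norm_smul4]

/-- associated elements -/
theorem span_eq4 {a b : 𝓞 K} (h : Ideal.span {a} = Ideal.span {b}) :
    ∃ k : ZMod 4, a = iO ^ k.val * b := by
  rw [Ideal.span_singleton_eq_span_singleton] at h
  obtain ⟨u, hu⟩ := h.symm
  obtain ⟨k, hk⟩ := exists_pow_unit u.isUnit
  exact ⟨k, by rw [← hu, ← hk]; ring⟩

theorem ChrU.pU_span (h : ChrU ν Y) (a : 𝓞 K) : pU Y (Ideal.span {a}) = (starRingEnd ℂ) (em a) * Y a := by
  obtain ⟨k, hk⟩ := span_eq4 (gnI_span (Ideal.span {a}))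
  rw [pU, hk, h.smul]

theorem ChrU.pU_one (h : ChrU ν Y) : pU Y 1 = 1 := by
  have h1 := h.pU_span 1
  rw [Ideal.span_singleton_one, ← Ideal.one_eq_top, em_one, map_one, h.one, one_mul] at h1
  exact h1

theorem ChrU.pU_mul (h : ChrU ν Y) (I J : Ideal (𝓞 K)) : pU Y (I * J) = pU Y I * pU Y J := by
  have h1 : I * J = Ideal.span {gnI I * gnI J} := by
    rw [← Ideal.span_singleton_mul_span_singleton, gnI_span, gnI_span]
  rw [h1, h.pU_span, em_mul, map_mul, h.mul, pU, pU]
  ring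

theorem ChrU.pU_le (h : ChrU ν Y) (I : Ideal (𝓞 K)) :
    ‖pU Y I‖ ≤ (Ideal.absNorm I : ℝ) ^ (1 / 2 : ℝ) := by
  have h1 : (Ideal.absNorm I : ℝ) = ‖em (gnI I)‖ ^ 2 := by
    have h2 := Sum_absNorm (gnI I)
    rwa [gnI_span] at h2
  rw [h1, ← Real.sqrt_eq_rpow, Real.sqrt_sq (norm_nonneg _), pU, norm_mul, RCLike.norm_conj]
  have h2 := h.le (gnI I)
  have h3 := norm_nonneg (em (gnI I))
  calc ‖em (gnI I)‖ * ‖Y (gnI I)‖ ≤ ‖em (gnI I)‖ * 1 := mul_le_mul_of_nonneg_left h2 h3
    _ = _ := mul_one _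

theorem ChrU.not_dvd (h : ChrU ν Y) {a : 𝓞 K} (ha : IsCoprime a ν) : ¬ ν ∣ a := by
  intro hd
  have h1 : IsUnit ν := by
    obtain ⟨p, q, hpq⟩ := ha
    obtain ⟨e, he⟩ := hd
    exact IsUnit.of_mul_eq_one (p * e + q) (by linear_combination hpq - p * he)
  have h2 : (-1 : (𝓞 K)ˣ) = 1 := h.un (-1) (h1.dvd)
  have h3 := congrArg (fun u : (𝓞 K)ˣ => (u : 𝓞 K)) h2
  simp only [Units.val_neg, Units.val_one] at h3
  have h4 : (2 : 𝓞 K) = 0 := by linear_combination -h3
  exact two_ne_zero h4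

/-- the sum over all elements -/
theorem ChrU.sum_all (h : ChrU ν Y) {ι : Type} [Fintype ι] {c : ι → 𝓞 K} (hc : RepsG 1 ν c) {s : ℂ}
    (hs : 2 < s.re) : Summable (FU Y s) ∧ ∑' a, FU Y s a = ∑ i, Y (c i) * ZS ν (c i) s := by
  classical
  have h1 : ∀ i ∈ (Finset.univ : Finset ι), Summable fun a : 𝓞 K => Y (c i) * SumT ν (c i) s a :=
    fun i _ => (SumT_summable ν (c i) hs).mul_left _
  have h2 : FU Y s = fun a : 𝓞 K => ∑ i, Y (c i) * SumT ν (c i) s a := by
    funext a
    by_cases ha : IsCoprime a ν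
    · obtain ⟨i0, hi0⟩ := hc.ex a ha (one_dvd _)
      rw [Finset.sum_eq_single i0]
      · rw [← h.per a (c i0) hi0, SumT_pos s hi0, FU]
        ring
      · intro i _ hi
        rw [SumT_neg s, mul_zero]
        intro hd
        apply hi
        apply hc.inj
        have e : c i - c i0 = (a - c i0) - (a - c i) := by ring
        rw [e]
        exact dvd_sub hi0 hd
      · intro hh
        exact absurd (Finset.mem_univ _) hh
    · rw [FU, h.zero a ha, mul_zero, zero_mul, Finset.sum_eq_zero]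
      intro i _
      rw [SumT_neg s, mul_zero]
      exact fun hd => ha (Eul_cop hd (hc.cop i))
  constructor
  · rw [h2]
    exact summable_sum h1
  · rw [h2, Summable.tsum_finsetSum h1]
    refine Finset.sum_congr rfl (fun i _ => ?_)
    rw [tsum_mul_left, SumT_tsum]

/-- the equivalence given by a unit -/
def eqU (k : ℕ) : 𝓞 K ≃ 𝓞 K := (Units.mulLeft (isUnit_iO.pow k).unit)

theorem eqU_apply (k : ℕ) (a : 𝓞 K) : eqU k a = iO ^ k * a := rfl

/-- the L-series as a quarter of the sum over all elements -/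
theorem ChrU.Lf_eq (h : ChrU ν Y) {s : ℂ} (hF : Summable (FU Y s)) :
    4 * Lf (pU Y) s = ∑' a, FU Y s a := by
  classical
  set G : 𝓞 K → ℂ := fun a => if gnI (Ideal.span {a}) = a then FU Y s a else 0 with hG
  have h1 : Lf (pU Y) s = ∑' a, G a := by
    unfold S4.Lf
    refine Sum_gen gnI (fun I _ => gnI_span I) ?_ ?_
    · intro a ha
      by_contra hc
      apply ha
      change (if gnI (Ideal.span {a}) = a then FU Y s a else 0) = 0
      rw [if_neg hc]
    · intro a ha
      change (if gnI (Ideal.span {a}) = a then FU Y s a else 0) = _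
      rw [if_pos ha, h.pU_span, Sum_norm, FU]
  have hGs : Summable G := by
    have e : G = Set.indicator {a | gnI (Ideal.span {a}) = a} (FU Y s) := by
      funext a
      change (if gnI (Ideal.span {a}) = a then FU Y s a else 0) = _
      rw [Set.indicator_apply]
      rfl
    rw [e]
    exact hF.indicator _
  have h2 : ∀ a, FU Y s a = ∑ k : ZMod 4, G (iO ^ k.val * a) := by
    intro a
    by_cases ha : a = 0
    · subst ha
      have h0 : FU Y s 0 = 0 := by rw [FU, em_zero, map_zero, zero_mul, zero_mul]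
      rw [h0, Finset.sum_eq_zero]
      intro k _
      rw [mul_zero]
      change (if gnI (Ideal.span {0}) = 0 then FU Y s 0 else 0) = 0
      rw [h0, ite_self]
    · have hsp : ∀ k : ZMod 4, Ideal.span {iO ^ k.val * a} = Ideal.span {a} := by
        intro k
        rw [Ideal.span_singleton_eq_span_singleton]
        obtain ⟨u, hu⟩ := isUnit_iO.pow k.val
        exact ⟨u⁻¹, by rw [← hu, mul_comm, ← mul_assoc, Units.inv_mul, one_mul]⟩
      obtain ⟨k0, hk0⟩ := span_eq4 (gnI_span (Ideal.span {a}))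
      rw [Finset.sum_eq_single k0]
      · have e5 : G (iO ^ k0.val * a) = FU Y s (iO ^ k0.val * a) :=
          if_pos ((congrArg gnI (hsp k0)).trans hk0)
        rw [e5, h.FU_smul]
      · intro k _ hk
        change (if gnI (Ideal.span {iO ^ k.val * a}) = iO ^ k.val * a then
          FU Y s (iO ^ k.val * a) else 0) = 0
        rw [if_neg]
        intro h3
        apply hk
        rw [hsp, hk0] at h3
        have h4 : iO ^ k0.val = iO ^ k.val := mul_right_cancel₀ ha h3
        have h5 : In4 (iO ^ (k - k0).val) := by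
          have e1 : iO ^ (k - k0).val * iO ^ k0.val = iO ^ k0.val := by
            rw [pow_val_mul, sub_add_cancel, h4]
          have e2 : iO ^ (k - k0).val = 1 := by
            have h6 : iO ^ k0.val ≠ 0 := (isUnit_iO.pow k0.val).ne_zero
            exact mul_right_cancel₀ h6 (by rw [e1, one_mul])
          rw [e2]
          exact in4_one
        exact sub_eq_zero.1 (pow_in4 h5)
      · intro hh
        exact absurd (Finset.mem_univ _) hh
  have h3 : ∀ k : ZMod 4, ∑' a, G (iO ^ k.val * a) = ∑' a, G a := fun k =>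
    (eqU k.val).tsum_eq G
  have h4 : ∀ k ∈ (Finset.univ : Finset (ZMod 4)), Summable fun a => G (iO ^ k.val * a) :=
    fun k _ => (eqU k.val).summable_iff.2 hGs
  rw [tsum_congr h2, Summable.tsum_finsetSum h4, Finset.sum_congr rfl fun k _ => h3 k,
    Finset.sum_const, Finset.card_univ, ZMod.card, nsmul_eq_mul, h1]
  norm_num

theorem ChrU.exists_L (h : ChrU ν Y) : ∃ L : ℂ → ℂ, Differentiable ℂ L ∧
    ∀ s : ℂ, 2 < s.re → L s = Lf (pU Y) s := by
  obtain ⟨ι, _, c, hc⟩ := RepsG.exists_reps h.ne (one_dvd ν)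
  choose A hA hA1 _ using fun i => exists_Z h.ne (h.not_dvd (hc.cop i)) h.un
  refine ⟨fun s => (1 / 4) * ∑ i, Y (c i) * A i s, ?_, fun s hs => ?_⟩
  · exact (differentiable_const _).mul
      (Differentiable.fun_sum fun i _ => (differentiable_const _).mul (hA i))
  · obtain ⟨h1, h2⟩ := h.sum_all hc hs
    have h3 := h.Lf_eq h1
    have h4 : ∑ i, Y (c i) * A i s = ∑' a, FU Y s a := by
      rw [h2]
      exact Finset.sum_congr rfl fun i _ => by rw [hA1 i s hs]
    change (1 / 4) * ∑ i, Y (c i) * A i s = _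
    rw [h4, ← h3]
    ring

open Classical in
/-- the entire continuation of the L-series -/
def LU (Y : 𝓞 K → ℂ) : ℂ → ℂ :=
  if h : ∃ L : ℂ → ℂ, Differentiable ℂ L ∧ ∀ s : ℂ, 2 < s.re → L s = Lf (pU Y) s then h.choose
  else fun _ => 0

theorem ChrU.LU_diff (h : ChrU ν Y) : Differentiable ℂ (LU Y) := by
  unfold LU
  rw [dif_pos h.exists_L]
  exact h.exists_L.choose_spec.1

theorem ChrU.LU_eq (h : ChrU ν Y) (s : ℂ) (hs : 2 < s.re) : LU Y s = Lf (pU Y) s := by
  unfold LU
  rw [dif_pos h.exists_L]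
  exact h.exists_L.choose_spec.2 s hs

/-- the Euler factor at the place above `2` -/
theorem ChrU.LU_LG (h : ChrU ν Y) {μ : 𝓞 K} {X : 𝓞 K → ℂ} (hX : Chr (lam ^ 3) μ X)
    (hXY : ∀ a : 𝓞 K, In4 a → X a = Y a) :
    LU Y 1 * (1 - (starRingEnd ℂ) (em lam) * Y lam / 2) = LG (lam ^ 3) X 1 := by
  classical
  have hN : (Ideal.absNorm (pv lam lam_prime).asIdeal : ℂ) = 2 := by
    change (Ideal.absNorm (Ideal.span {lam}) : ℂ) = 2
    rw [absNorm_span]
    have h1 : Nz lam = 2 := by
      have h2 : cp lam = (1, 1) := by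
        rw [← cp_coords]
        congr 1
        rw [lam]
        push_cast
        ring
      have h3 := Nz_cp lam
      rw [h2] at h3
      have h4 : (Nz lam : ℤ) = 2 := by
        rw [h3]
        norm_num
      exact_mod_cast h4
    rw [h1]
    norm_num
  have hz : pG (lam ^ 3) X (pv lam lam_prime).asIdeal = 0 := by
    refine pG_neg fun hc => ?_
    change IsCoprime (Ideal.span {lam}) (Ideal.span {lam ^ 3}) at hc
    rw [Ideal.isCoprime_span_singleton_iff] at hc
    exact lam_prime.not_isUnit (hc.isUnit_of_dvd' dvd_rfl (dvd_pow_self _ (by norm_num)))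
  have hne : ∀ v ∉ ({pv lam lam_prime} : Finset (HeightOneSpectrum (𝓞 K))),
      pU Y v.asIdeal = pG (lam ^ 3) X v.asIdeal := by
    intro v hv
    rw [Finset.mem_singleton] at hv
    rcases Gen_place (f := (lam ^ 3 : 𝓞 K)) v with h1 | ⟨q, rfl⟩
    · exfalso
      apply hv
      refine eq_pv_lam ?_
      by_contra h0
      apply h1
      rw [Ideal.isCoprime_iff_sup_eq]
      have hm : v.asIdeal.IsMaximal := Ideal.IsPrime.isMaximal v.isPrime v.ne_bot
      by_contra h1
      have h2 := hm.eq_of_le h1 le_sup_left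
      have h4 : (lam ^ 3 : 𝓞 K) ∈ v.asIdeal := by
        rw [h2]
        exact Ideal.mem_sup_right (Ideal.mem_span_singleton_self _)
      exact h0 (v.isPrime.mem_of_pow_mem _ h4)
    · rw [pG_plf, hXY q.1 q.2.2]
      exact h.pU_span q.1
  have e : LG (lam ^ 3) X = fun s => LU Y s * ∏ v ∈ ({pv lam lam_prime} : Finset _),
      (1 - pU Y v.asIdeal * (Ideal.absNorm v.asIdeal : ℂ) ^ (-s)) := by
    refine S4.entire_eq hX.LG_diff (h.LU_diff.mul (Eul_diff _ _)) fun s hs => ?_
    have h4 := S4.compare_Lf (pU Y) (pG (lam ^ 3) X) h.pU_one h.pU_mul h.pU_le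
      hX.pG_one hX.pG_mul hX.pG_le _ hne s hs
    change _ = LU Y s * _
    rw [hX.LG_eq s hs, h.LU_eq s hs, h4, Finset.prod_singleton, hz, zero_mul, sub_zero, mul_one]
  rw [e]
  change _ = LU Y 1 * _
  rw [Finset.prod_singleton, hN, Complex.cpow_neg_one]
  have h5 : pU Y (pv lam lam_prime).asIdeal = (starRingEnd ℂ) (em lam) * Y lam := h.pU_span lam
  rw [h5]
  ring

end

end

end Pool.Agent.Lib.MP_1a91b9_ntQ
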