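import Pool.Agent.Lib.MP_1a91b9_ntQ.A.CgE

/-!
# Quartic twists, part A, class (E), file PsEA: the algebra of the sections 5a - 5d of helper67's page

Everything is normalised by powers of `wq`, `wq ^ 4 = lm`, `2 = - zt wq ^ 8`, `4 = - wq ^ 16`, `8 = zt wq ^ 24`.
-/

set_option autoImplicit false
set_option linter.unusedSectionVars false

namespace Pool.Agent.Lib.MP_1a91b9_ntQ

open NumberField Pool.Agent.Lib.MP_1a91b9_nuT Pool.Agent.Lib.MP_1a91b9_nuT.S3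
  Pool.Agent.Lib.MP_1a91b9_nuT.Ell

noncomputable section

variable [CD] [hq : Q4]

theorem PsEA_two_zt : 2 * zt = wq ^ 8 := by
  have h := two_wq (hq := hq)
  linear_combination zt * h - wq ^ 8 * zt_sq

theorem PsEA_four : (4 : ℂ) = -wq ^ 16 := by
  have h := two_wq (hq := hq)
  linear_combination (2 - wq ^ 8 * zt) * h + wq ^ 16 * zt_sq

theorem PsEA_eight : (8 : ℂ) = zt * wq ^ 24 := by
  have h := two_wq (hq := hq)
  have h4 := PsEA_four (hq := hq)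
  linear_combination 2 * h4 - wq ^ 16 * h

theorem PsEA_one_zt : 1 + zt = wq ^ 4 := by
  rw [wq_pow]
  rfl

theorem PsEA_zt_one : zt - 1 = zt * wq ^ 4 := by
  have h := PsEA_one_zt (hq := hq)
  linear_combination zt * h - zt_sq

theorem PsEA_cancel {n : ℕ} {a b : ℂ} (h : wq ^ n * a = wq ^ n * b) : a = b :=
  mul_left_cancel₀ (pow_ne_zero n wq_ne) h

theorem PsEA_div (n : ℕ) (a : ℂ) : ∃ b, a = wq ^ n * b :=
  ⟨a / wq ^ n, by
    have := pow_ne_zero n (wq_ne (hq := hq))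
    field_simp⟩

theorem PsEA_sign {t : ℂ} (h : t ^ 2 = 1) : t = 1 ∨ t = -1 := by
  have h1 : (t - 1) * (t + 1) = 0 := by linear_combination h
  rcases mul_eq_zero.1 h1 with h2 | h2
  · exact Or.inl (by linear_combination h2)
  · exact Or.inr (by linear_combination h2)

variable {B : ValuationSubring ℂ}

/-- the deviation of `rh` -/
theorem PsEA_rho (hB : (2 : ℂ)⁻¹ ∉ B) : ∃ ρ, rh = zt + wq ^ 6 * ρ ∧ ρ ^ 2 = -rh ^ 2 + (-wq ^ 2) * ρ ∧
    Cg B ρ 1 := by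
  obtain ⟨ρ, hρ⟩ := PsEA_div 6 (rh - zt)
  have h1 : rh = zt + wq ^ 6 * ρ := by linear_combination hρ
  have h2 : ρ ^ 2 = -rh ^ 2 + (-wq ^ 2) * ρ := by
    apply PsEA_cancel (n := 12)
    have h3 := rh_sq (hq := hq)
    have h4 := PsEA_two_zt (hq := hq)
    have h5 := PsEA_zt_one (hq := hq)
    -- `rho ^ 2 = - lm ^ 3 rh ^ 2 - 2 zt rho`
    have h6 : (wq ^ 6 * ρ) ^ 2 + 2 * zt * (wq ^ 6 * ρ) = rh ^ 2 * (2 * (1 - zt)) := by
      rw [← hρ]
      linear_combination -h3 - zt_sq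
    have h7 : 2 * (1 - zt) = -wq ^ 12 := by
      have h8 := two_wq (hq := hq)
      have e : wq ^ 12 = wq ^ 8 * wq ^ 4 := by ring
      rw [e]
      linear_combination (-2) * h5 - (zt * wq ^ 4) * h8 + (wq ^ 8 * wq ^ 4) * zt_sq
    rw [h7] at h6
    linear_combination h6 - (wq ^ 6 * ρ) * h4
  refine ⟨ρ, h1, h2, Cg.of_sq hB (map_one _).le ?_⟩
  rw [one_pow]
  refine Cg.quad h2 ?_ ?_
  · rw [Valuation.map_neg]
    exact v_wq_pow_lt hB (by norm_num)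
  · have h3 : Cg B rh 1 := Cg.of_sub_lt (map_one _).le (v_rh_sub hB)
    have h4 := (Cg_neg_one hB).mul (h3.pow 2)
    rwa [neg_one_mul, one_pow, mul_one] at h4

/-- `s c = lm + ...` -/
theorem PsEA_sc (hB : (2 : ℂ)⁻¹ ∉ B) {s c x a : ℂ} (hs : s ^ 2 = 2) (hc : c ^ 2 = x)
    (hx : x = zt + wq ^ 6 * a) (ha : B.valuation a ≤ 1) :
    ∃ d, s * c = wq ^ 4 + wq ^ 7 * d ∧ B.valuation d ≤ 1 := by
  obtain ⟨d, hd⟩ := PsEA_div 7 (s * c - wq ^ 4)
  have h1 : s * c = wq ^ 4 + wq ^ 7 * d := by linear_combination hd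
  refine ⟨d, h1, ?_⟩
  have h2 : d ^ 2 = -zt * a + (zt * wq ^ 5) * d := by
    apply PsEA_cancel (n := 14)
    have h3 : (wq ^ 4 + wq ^ 7 * d) ^ 2 = 2 * (zt + wq ^ 6 * a) := by
      rw [← h1, ← hx, ← hc, ← hs]
      ring
    have h4 := two_wq (hq := hq)
    have h5 := PsEA_two_zt (hq := hq)
    linear_combination h3 + h5 + (wq ^ 6 * a - wq ^ 11 * d) * h4
  refine v_le_quad h2 ?_ ?_
  · exact v_mul_le v_zt.le (v_wq_pow_lt hB (by norm_num)).le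
  · exact v_mul_le (v_neg_le v_zt.le) ha

/-- the roots `p`, `m` -/
theorem PsEA_pm {p m x a : ℂ} (hp : p ^ 2 = 2 * (x + 1)) (hm : m ^ 2 = 2 * (x - 1))
    (hx : x = zt + wq ^ 6 * a) :
    ∃ p1 m1, p = wq ^ 6 * p1 ∧ m = wq ^ 6 * m1 ∧ p1 ^ 2 = -zt * (1 + wq ^ 2 * a) ∧
      m1 ^ 2 = -zt * (zt + wq ^ 2 * a) := by
  obtain ⟨p1, h1⟩ := PsEA_div 6 p
  obtain ⟨m1, h2⟩ := PsEA_div 6 m
  have h4 := two_wq (hq := hq)
  have h5 := PsEA_one_zt (hq := hq)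
  have h6 := PsEA_zt_one (hq := hq)
  refine ⟨p1, m1, h1, h2, ?_, ?_⟩
  · apply PsEA_cancel (n := 12)
    rw [h1, hx] at hp
    linear_combination hp + (zt + wq ^ 6 * a + 1) * h4 - (wq ^ 8 * zt) * h5
  · apply PsEA_cancel (n := 12)
    rw [h2, hx] at hm
    linear_combination hm + (zt + wq ^ 6 * a - 1) * h4 - (wq ^ 8 * zt) * h6

theorem PsEA_x (hB : (2 : ℂ)⁻¹ ∉ B) {x a : ℂ} (hx : x = zt + wq ^ 6 * a) (ha : B.valuation a ≤ 1) :
    Cg B x 1 := by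
  rw [hx]
  exact (Cg_zt hB).add_lt (v_mul_lt (v_wq_pow_lt hB (by norm_num)) ha)

/-- (5a): `j = p + (c + s io) m` -/
theorem PsEA_j (hB : (2 : ℂ)⁻¹ ∉ B) {s io c p m x x2 a a2 : ℂ} (hs : s ^ 2 = 2) (hio : io ^ 2 = -1)
    (hc : c ^ 2 = x) (hp : p ^ 2 = 2 * (x + 1)) (hm : m ^ 2 = 2 * (x - 1))
    (hx : x = zt + wq ^ 6 * a) (ha : B.valuation a ≤ 1) (hx2 : x2 = zt + wq ^ 6 * a2)
    (ha2 : B.valuation a2 ≤ 1) (h12 : x ^ 2 - 1 = 2 * zt * x * x2) :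
    ∃ j1, p + (c + s * io) * m = wq ^ 10 * j1 ∧ Cg B j1 1 := by
  obtain ⟨p1, m1, h1, h2, h3, h4⟩ := PsEA_pm hp hm hx
  obtain ⟨j1, h5⟩ := PsEA_div 10 (p + (c + s * io) * m)
  obtain ⟨s1, h6⟩ : ∃ s1, s1 = s / lm := ⟨_, rfl⟩
  have h7 : s = wq ^ 4 * s1 := by
    rw [h6, wq_pow, mul_div_cancel₀ _ lm_ne]
  have cs : Cg B s1 1 := h6 ▸ Cg_s hB hs
  have cx := PsEA_x hB hx ha
  have w2 : B.valuation (wq ^ 2) < 1 := v_wq_pow_lt hB (by norm_num)
  have vzt : B.valuation zt ≤ 1 := v_zt.le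
  -- `q = c p1 m1`
  have cq : Cg B (c * p1 * m1) 1 := by
    refine Cg.of_sq hB (map_one _).le ?_
    have e : (c * p1 * m1) ^ 2 = x * (-1 * (1 + wq ^ 2 * a) * (zt + wq ^ 2 * a)) := by
      linear_combination (p1 ^ 2 * m1 ^ 2) * hc + (x * m1 ^ 2) * h3 +
        (x * (-zt * (1 + wq ^ 2 * a))) * h4 + (x * (1 + wq ^ 2 * a) * (zt + wq ^ 2 * a)) * zt_sq
    rw [e, one_pow]
    have a1 : Cg B (1 + wq ^ 2 * a) 1 := (Cg.refl (map_one _).le).add_lt (v_mul_lt w2 ha)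
    have a2' : Cg B (zt + wq ^ 2 * a) 1 := (Cg_zt hB).add_lt (v_mul_lt w2 ha)
    have := cx.mul (((Cg_neg_one hB).mul a1).mul a2')
    rwa [mul_one, mul_one, mul_one] at this
  have vm1 : B.valuation m1 ≤ 1 := by
    refine v_le_of_pow two_ne_zero ?_
    rw [h4]
    exact v_mul_le (v_neg_le vzt) (v_add_le vzt (v_mul_lt w2 ha).le)
  have vio : B.valuation io ≤ 1 := (Cg_of_sq_neg_one hB hio).le
  have h8 := two_wq (hq := hq)
  have h9 := PsEA_four (hq := hq)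
  have key : j1 ^ 2 = (-(zt * wq ^ 2 * x * a2) - zt * (c * p1 * m1)) +
      (-(zt * io * s1 * m1 * wq ^ 8)) * j1 := by
    apply PsEA_cancel (n := 20)
    -- `j jb = 4 x zt (x2 - zt) + 2 c p m`
    have k1 : (p + (c + s * io) * m) * (p + (c - s * io) * m) = 4 * x * zt * (x2 - zt) +
        2 * (c * p * m) := by
      linear_combination hp + (x + 2) * hm + m ^ 2 * hc - (m ^ 2 * io ^ 2) * hs -
        (2 * m ^ 2) * hio + 2 * h12 + (4 * x) * zt_sq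
    have k2 : (p + (c + s * io) * m) ^ 2 = (p + (c + s * io) * m) * (p + (c - s * io) * m) +
        (2 * s * io * m) * (p + (c + s * io) * m) := by ring
    have k3 : 4 * x * zt * (x2 - zt) + 2 * (c * p * m) =
        wq ^ 20 * (-(zt * wq ^ 2 * x * a2) - zt * (c * p1 * m1)) := by
      rw [hx2, h1, h2]
      linear_combination (x * zt * wq ^ 6 * a2) * h9 + (c * wq ^ 12 * p1 * m1) * h8
    have k4 : 2 * s * io * m = wq ^ 10 * (-(zt * io * s1 * m1 * wq ^ 8)) := by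
      rw [h7, h2]
      linear_combination (wq ^ 10 * s1 * io * m1) * h8
    rw [k1, k3, k4, h5] at k2
    linear_combination k2
  refine ⟨j1, h5, Cg.of_sq hB (map_one _).le ?_⟩
  rw [one_pow]
  refine Cg.quad key ?_ ?_
  · rw [Valuation.map_neg]
    refine v_mul_lt' ?_ (v_wq_pow_lt hB (by norm_num))
    exact v_mul_le (v_mul_le (v_mul_le vzt vio) cs.le) vm1
  · have b1 : Cg B (-(zt * wq ^ 2 * x * a2)) 0 := by
      refine Cg.of_lt ?_
      rw [Valuation.map_neg]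
      exact v_mul_lt (v_mul_lt (v_mul_lt' vzt w2) cx.le) ha2
    have b2 := b1.sub ((Cg_zt hB).mul cq)
    have b3 : Cg B (0 - 1 * 1) 1 := by
      have := Cg_neg_one hB
      rwa [show (0 - 1 * 1 : ℂ) = -1 by ring]
    exact b2.trans b3

/-- (5a): the value `U`, `U ^ 2 = - 8 s j` -/
theorem PsEA_U (hB : (2 : ℂ)⁻¹ ∉ B) {s j1 U : ℂ} (hs : s ^ 2 = 2) (hj : Cg B j1 1)
    (hU : U ^ 2 = -8 * s * (wq ^ 10 * j1)) : ∃ u, U = wq ^ 19 * u ∧ Cg B u 1 := by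
  obtain ⟨u, hu⟩ := PsEA_div 19 U
  obtain ⟨s1, h6⟩ : ∃ s1, s1 = s / lm := ⟨_, rfl⟩
  have h7 : s = wq ^ 4 * s1 := by
    rw [h6, wq_pow, mul_div_cancel₀ _ lm_ne]
  have cs : Cg B s1 1 := h6 ▸ Cg_s hB hs
  refine ⟨u, hu, Cg.of_sq hB (map_one _).le ?_⟩
  have key : u ^ 2 = -1 * (zt * s1 * j1) := by
    apply PsEA_cancel (n := 38)
    have h8 := PsEA_eight (hq := hq)
    rw [hu, h7] at hU
    linear_combination hU - (wq ^ 14 * s1 * j1) * h8
  rw [key, one_pow]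
  have := (Cg_neg_one hB).mul (((Cg_zt hB).mul cs).mul hj)
  rwa [mul_one, mul_one, mul_one] at this

/-! ### The pair -/

/-- the exact identity (ID) -/
theorem PsEA_ID {s io I c p m x x2 : ℂ} (hs : s ^ 2 = 2) (hio : io ^ 2 = -1) (hI : I ^ 2 = -1)
    (hc : c ^ 2 = x) (hp : p ^ 2 = 2 * (x + 1)) (hm : m ^ 2 = 2 * (x - 1))
    (h12 : x ^ 2 - 1 = 2 * zt * x * x2) :
    (p * (x + 1 + I * (s * io) * c)) ^ 2 - (m * c * (x - 1 + s * io * c)) ^ 2 =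
      4 * zt * x * (x + I) * (-((x - I) * (x2 + 3 * zt)) - 2 * io * (s * c) * (x2 + zt + zt * I)) := by
  obtain ⟨σ, hσ⟩ : ∃ σ, σ = s * io := ⟨_, rfl⟩
  have hσ2 : σ ^ 2 = -2 := by
    rw [hσ]
    linear_combination io ^ 2 * hs + 2 * hio
  have e1 : (x + 1 + I * σ * c) ^ 2 = (x + 1) ^ 2 + 2 * (x + 1) * (I * σ * c) + 2 * x := by
    linear_combination (σ ^ 2 * c ^ 2) * hI - c ^ 2 * hσ2 + 2 * hc
  have e2 : (x - 1 + σ * c) ^ 2 = (x - 1) ^ 2 + 2 * (x - 1) * (σ * c) - 2 * x := by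
    linear_combination c ^ 2 * hσ2 - 2 * hc
  have e3 : 2 * (x + 1) * ((x + 1) ^ 2 + 2 * (x + 1) * (I * σ * c) + 2 * x) -
      2 * (x - 1) * x * ((x - 1) ^ 2 + 2 * (x - 1) * (σ * c) - 2 * x) =
      -2 * ((x - I) * (x + I)) * (x ^ 2 - 6 * x - 1) -
        4 * (σ * c) * (x + I) * (x ^ 2 - 2 * (1 + I) * x - 1) := by
    linear_combination (-2 * (x ^ 2 - 6 * x - 1) - 8 * σ * c * x) * hI
  have e4 : x ^ 2 - 6 * x - 1 = 2 * zt * x * (x2 + 3 * zt) := by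
    linear_combination h12 - (6 * x) * zt_sq
  have e5 : x ^ 2 - 2 * (1 + I) * x - 1 = 2 * zt * x * (x2 + zt + zt * I) := by
    linear_combination h12 - (2 * x * (1 + I)) * zt_sq
  have e6 : (p * (x + 1 + I * σ * c)) ^ 2 - (m * c * (x - 1 + σ * c)) ^ 2 =
      2 * (x + 1) * (x + 1 + I * σ * c) ^ 2 - 2 * (x - 1) * x * (x - 1 + σ * c) ^ 2 := by
    linear_combination (x + 1 + I * σ * c) ^ 2 * hp - (c ^ 2 * (x - 1 + σ * c) ^ 2) * hm -
      (2 * (x - 1) * (x - 1 + σ * c) ^ 2) * hc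
  rw [← hσ, e6, e1, e2, e3, e4, e5]
  have e7 : io * (s * c) = σ * c := by
    rw [hσ]
    ring
  linear_combination (8 * zt * x * (x + I) * (x2 + zt + zt * I)) * e7

theorem PsEA_io {io : ℂ} (hio : io ^ 2 = -1) {ε : ℂ} (hε : ε = 1 ∨ ε = -1) :
    ∃ δ, 1 - ε * (zt * io) = wq ^ 8 * δ ∧ (δ = 0 ∨ δ = -zt) := by
  have h1 : (ε * (zt * io)) ^ 2 = 1 := by
    have h2 : ε ^ 2 = 1 := by
      rcases hε with h | h <;> rw [h] <;> norm_num
    linear_combination (zt * io) ^ 2 * h2 + io ^ 2 * zt_sq - hio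
  rcases PsEA_sign h1 with h | h
  · exact ⟨0, by rw [h]; ring, Or.inl rfl⟩
  · refine ⟨-zt, ?_, Or.inr rfl⟩
    rw [h]
    linear_combination two_wq

/-- the factor `{..}` -/
theorem PsEA_F (hB : (2 : ℂ)⁻¹ ∉ B) {ε e s io c x x2 y y2 : ℂ}
    (hε : (ε = 1 ∧ e = 1) ∨ (ε = -1 ∧ e = 0)) (hs : s ^ 2 = 2) (hio : io ^ 2 = -1)
    (hc : c ^ 2 = x) (hx : x = rh + 2 * y) (hx2 : x2 = rh + 2 * y2) (vy : B.valuation y ≤ 1)
    (vy2 : B.valuation y2 ≤ 1) :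
    ∃ F, -((x - ε * zt) * (x2 + 3 * zt)) - 2 * io * (s * c) * (x2 + zt + zt * (ε * zt)) =
      wq ^ 14 * F ∧ Cg B F (e + y + y2) := by
  obtain ⟨ρ, r1, r2, cρ⟩ := PsEA_rho hB
  have h2 := two_wq (hq := hq)
  have h4 := PsEA_four (hq := hq)
  have h8 := PsEA_eight (hq := hq)
  have hz := zt_sq (hq := hq)
  have hz2 := PsEA_two_zt (hq := hq)
  have vW := (v_wq_lt (B := B) hB)
  have vW' := vW.le
  have vzt : B.valuation zt ≤ 1 := v_zt.le
  have vio : B.valuation io ≤ 1 := (Cg_of_sq_neg_one hB hio).le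
  have vρ := cρ.le
  have vrh : B.valuation rh ≤ 1 := (v_rh hB).le
  have v1 : B.valuation (1 : ℂ) ≤ 1 := (map_one _).le
  obtain ⟨a, ha⟩ : ∃ a, a = ρ - zt * wq ^ 2 * y := ⟨_, rfl⟩
  obtain ⟨a2, ha2⟩ : ∃ a, a = ρ - zt * wq ^ 2 * y2 := ⟨_, rfl⟩
  have va : B.valuation a ≤ 1 := by
    rw [ha]
    exact v_sub_le vρ (v_mul_le (v_mul_le vzt (v_pow_le vW' 2)) vy)
  have va2 : B.valuation a2 ≤ 1 := by
    rw [ha2]
    exact v_sub_le vρ (v_mul_le (v_mul_le vzt (v_pow_le vW' 2)) vy2)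
  have xa : x = zt + wq ^ 6 * a := by
    rw [hx, r1, ha]
    linear_combination y * h2
  have xa2 : x2 = zt + wq ^ 6 * a2 := by
    rw [hx2, r1, ha2]
    linear_combination y2 * h2
  obtain ⟨d, hd, vd⟩ := PsEA_sc hB hs hc xa va
  obtain ⟨δ, hδ, hδ'⟩ := PsEA_io (ε := ε) hio (by tauto)
  have vδ : B.valuation δ ≤ 1 := by
    rcases hδ' with h | h
    · rw [h, map_zero]
      exact zero_le
    · rw [h]
      exact v_neg_le vzt
  have hrh : rh ^ 2 - 1 = wq ^ 8 * rh ^ 2 := by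
    have h := rh_sq (hq := hq)
    linear_combination h + rh ^ 2 * hz2
  have vx2 : B.valuation x2 ≤ 1 := by
    rw [xa2]
    exact v_add_le vzt (v_mul_le (v_pow_le vW' 6) va2)
  rcases hε with ⟨rfl, rfl⟩ | ⟨rfl, rfl⟩
  · obtain ⟨r, hr⟩ : ∃ r, r = wq ^ 5 * (rh ^ 2 + δ) + zt * wq ^ 7 * ρ + wq ^ 9 * y +
      wq * y * y2 + zt * io * wq ^ 5 + zt * io * wq ^ 3 * a2 + zt * io * d * (x2 + zt - 1) := ⟨_, rfl⟩
    refine ⟨ρ + zt * ρ * (y + y2) + wq * r, ?_, ?_⟩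
    · have p1 : -((x - 1 * zt) * (x2 + 3 * zt)) = wq ^ 12 * rh ^ 2 + wq ^ 14 * ρ + zt * wq ^ 22 * ρ +
          zt * wq ^ 14 * ρ * (y + y2) + wq ^ 24 * y + wq ^ 16 * (y * y2) := by
        rw [hx, hx2, r1]
        rw [r1] at r2
        linear_combination (-wq ^ 12) * r2 - (zt * wq ^ 6 * ρ) * h4 - (wq ^ 6 * ρ * (y + y2)) * h2 -
          (zt * y) * h8 - (wq ^ 24 * y) * hz - (y * y2) * h4
      have p2 : -(2 * io * (s * c) * (x2 + zt + zt * (1 * zt))) =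
          wq ^ 12 * (-1 + wq ^ 8 * δ) + zt * io * wq ^ 20 + zt * io * wq ^ 18 * a2 +
            zt * io * wq ^ 15 * d * (x2 + zt - 1) := by
        rw [hd]
        linear_combination (-io * (wq ^ 4 + wq ^ 7 * d) * (x2 + zt + zt * zt)) * h2 +
          (zt * io * wq ^ 8 * (wq ^ 4 + wq ^ 7 * d)) * hz + (zt * io * wq ^ 12) * xa2 +
          (zt * io * wq ^ 12) * hz2 + wq ^ 12 * hδ
      have p3 : -((x - 1 * zt) * (x2 + 3 * zt)) - 2 * io * (s * c) * (x2 + zt + zt * (1 * zt)) =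
          -((x - 1 * zt) * (x2 + 3 * zt)) + -(2 * io * (s * c) * (x2 + zt + zt * (1 * zt))) := by ring
      rw [p3, p1, p2, hr]
      linear_combination wq ^ 12 * hrh
    · have vr : B.valuation r ≤ 1 := by
        rw [hr]
        repeat' first | assumption | apply v_pow_le | apply v_add_le | apply v_sub_le | apply v_mul_le
      have k1 : Cg B (ρ + zt * ρ * (y + y2)) (1 + 1 * 1 * (y + y2)) :=
        cρ.add (((Cg_zt hB).mul cρ).mul (Cg.refl (v_add_le vy vy2)))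
      have k2 := k1.add_lt (v_mul_lt vW vr)
      have e1 : (1 : ℂ) + 1 * 1 * (y + y2) = 1 + y + y2 := by ring
      rwa [e1] at k2
  · obtain ⟨r, hr⟩ : ∃ r, r = wq ^ 5 * (rh ^ 2 + δ) + zt * wq ^ 7 * ρ + zt * wq ^ 9 + zt * wq * y2 +
      wq ^ 9 * y + wq * y * y2 + zt * io * wq ^ 5 + zt * io * wq ^ 3 * a2 +
      zt * io * d * (x2 + zt + 1) := ⟨_, rfl⟩
    refine ⟨zt * ρ * (y + y2) + wq * r, ?_, ?_⟩
    · have p1 : -((x - -1 * zt) * (x2 + 3 * zt)) = wq ^ 12 * rh ^ 2 + zt * wq ^ 22 * ρ +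
          zt * wq ^ 14 * ρ * (y + y2) + zt * wq ^ 24 + zt * wq ^ 16 * y2 + wq ^ 24 * y +
          wq ^ 16 * (y * y2) := by
        have q1 : x + zt = wq ^ 6 * ρ + wq ^ 8 + 2 * y := by
          rw [hx, r1]
          linear_combination hz2
        have q2 : x2 + 3 * zt = wq ^ 6 * ρ + 2 * wq ^ 8 + 2 * y2 := by
          rw [hx2, r1]
          linear_combination 2 * hz2
        have q3 : (x - -1 * zt) = wq ^ 6 * ρ + wq ^ 8 + 2 * y := by
          rw [← q1]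
          ring
        have q4 : (4 : ℂ) * wq ^ 8 = -wq ^ 24 := by
          linear_combination wq ^ 8 * h4
        rw [q3, q2]
        linear_combination (-wq ^ 12) * r2 - (wq ^ 14 * ρ) * h2 - (wq ^ 6 * ρ * (y + y2)) * h2 -
          (wq ^ 16) * h2 - (wq ^ 8 * y2) * h2 - y * q4 - (y * y2) * h4
      have p2 : -(2 * io * (s * c) * (x2 + zt + zt * (-1 * zt))) =
          wq ^ 12 * (-1 + wq ^ 8 * δ) + zt * io * wq ^ 20 + zt * io * wq ^ 18 * a2 +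
            zt * io * wq ^ 15 * d * (x2 + zt + 1) := by
        rw [hd]
        linear_combination (-io * (wq ^ 4 + wq ^ 7 * d) * (x2 + zt - zt * zt)) * h2 -
          (zt * io * wq ^ 8 * (wq ^ 4 + wq ^ 7 * d)) * hz + (zt * io * wq ^ 12) * xa2 +
          (zt * io * wq ^ 12) * hz2 + wq ^ 12 * hδ
      have p3 : -((x - -1 * zt) * (x2 + 3 * zt)) - 2 * io * (s * c) * (x2 + zt + zt * (-1 * zt)) =
          -((x - -1 * zt) * (x2 + 3 * zt)) + -(2 * io * (s * c) * (x2 + zt + zt * (-1 * zt))) := by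
        ring
      rw [p3, p1, p2, hr]
      linear_combination wq ^ 12 * hrh
    · have vr : B.valuation r ≤ 1 := by
        rw [hr]
        repeat' first | assumption | apply v_pow_le | apply v_add_le | apply v_sub_le | apply v_mul_le
      have k1 : Cg B (zt * ρ * (y + y2)) (1 * 1 * (y + y2)) :=
        ((Cg_zt hB).mul cρ).mul (Cg.refl (v_add_le vy vy2))
      have k2 := k1.add_lt (v_mul_lt vW vr)
      have e1 : (1 : ℂ) * 1 * (y + y2) = 0 + y + y2 := by ring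
      rwa [e1] at k2

/-- (5c): `y = j + j'`, in the form `c ^ 2 y = p a + m c b` -/
theorem PsEA_y (hB : (2 : ℂ)⁻¹ ∉ B) {ε e s io c p m x x2 y y2 Y : ℂ}
    (hε : (ε = 1 ∧ e = 1) ∨ (ε = -1 ∧ e = 0)) (hs : s ^ 2 = 2) (hio : io ^ 2 = -1)
    (hc : c ^ 2 = x) (hp : p ^ 2 = 2 * (x + 1)) (hm : m ^ 2 = 2 * (x - 1))
    (hx : x = rh + 2 * y) (hx2 : x2 = rh + 2 * y2) (vy : B.valuation y ≤ 1)
    (vy2 : B.valuation y2 ≤ 1) (h12 : x ^ 2 - 1 = 2 * zt * x * x2)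
    (hY : c ^ 2 * Y = p * (x + 1 + ε * zt * (s * io) * c) + m * c * (x - 1 + s * io * c)) :
    ∃ Y1, Y = wq ^ 18 * Y1 ∧ Cg B (Y1 ^ 2) (e + y + y2) := by
  obtain ⟨F, hF, cF⟩ := PsEA_F hB hε hs hio hc hx hx2 vy vy2
  have hI : (ε * zt) ^ 2 = -1 := by
    have h2 : ε ^ 2 = 1 := by
      rcases hε with ⟨h, -⟩ | ⟨h, -⟩ <;> rw [h] <;> norm_num
    linear_combination zt ^ 2 * h2 + zt_sq
  have hID := PsEA_ID hs hio hI hc hp hm h12
  rw [hF] at hID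
  obtain ⟨ρ, r1, r2, cρ⟩ := PsEA_rho hB
  have h2 := two_wq (hq := hq)
  have h4 := PsEA_four (hq := hq)
  have hz := zt_sq (hq := hq)
  have hz2 := PsEA_two_zt (hq := hq)
  have vW := (v_wq_lt (B := B) hB)
  have vW' := vW.le
  have vzt : B.valuation zt ≤ 1 := v_zt.le
  have vio : B.valuation io ≤ 1 := (Cg_of_sq_neg_one hB hio).le
  have vρ := cρ.le
  have v1 : B.valuation (1 : ℂ) ≤ 1 := (map_one _).le
  obtain ⟨a, ha⟩ : ∃ a, a = ρ - zt * wq ^ 2 * y := ⟨_, rfl⟩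
  have ca : Cg B a 1 := by
    have h : a = ρ + wq * (-(zt * wq * y)) := by
      rw [ha]
      ring
    rw [h]
    exact cρ.add_lt (v_mul_lt vW (v_neg_le (v_mul_le (v_mul_le vzt vW') vy)))
  have xa : x = zt + wq ^ 6 * a := by
    rw [hx, r1, ha]
    linear_combination y * h2
  have cx := PsEA_x hB xa ca.le
  have hx0 : x ≠ 0 := by
    intro h
    have h1 := cx.unit
    rw [h, map_zero] at h1
    exact zero_ne_one h1
  have vc : B.valuation c ≤ 1 := by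
    refine v_le_of_pow two_ne_zero ?_
    rw [hc]
    exact cx.le
  obtain ⟨d, hd, vd⟩ := PsEA_sc hB hs hc xa ca.le
  obtain ⟨p1, m1, -, hm1, -, hm2⟩ := PsEA_pm hp hm xa
  have vm1 : B.valuation m1 ≤ 1 := by
    refine v_le_of_pow two_ne_zero ?_
    rw [hm2]
    exact v_mul_le (v_neg_le vzt) (v_add_le vzt (v_mul_le (v_pow_le vW' 2) ca.le))
  -- `b = x - 1 + s io c`
  obtain ⟨b1, hb1, vb1⟩ : ∃ b1, x - 1 + s * io * c = wq ^ 6 * b1 ∧ B.valuation b1 ≤ 1 := by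
    obtain ⟨δ, hδ, hδ'⟩ := PsEA_io hio (ε := -1) (Or.inr rfl)
    have vδ : B.valuation δ ≤ 1 := by
      rcases hδ' with h | h
      · rw [h, map_zero]
        exact zero_le
      · rw [h]
        exact v_neg_le vzt
    have h5 : zt + io = wq ^ 8 * (-(zt * δ) + 1) := by
      linear_combination (-zt) * hδ + io * hz + hz2
    refine ⟨a + io * (wq * d) + wq ^ 6 * (-(zt * δ) + 1), ?_, ?_⟩
    · have h6 := PsEA_zt_one (hq := hq)
      have e1 : s * io * c = io * (s * c) := by ring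
      rw [e1, hd, xa]
      linear_combination h6 + wq ^ 4 * h5
    · have v6 : B.valuation (wq ^ 6) ≤ 1 := v_pow_le vW' 6
      repeat' first | assumption | exact ca.le | apply v_add_le | apply v_mul_le | apply v_neg_le
  -- `x + I`
  obtain ⟨a', ha', ca'⟩ : ∃ a', x + ε * zt = wq ^ 6 * a' ∧ Cg B a' 1 := by
    rcases hε with ⟨rfl, -⟩ | ⟨rfl, -⟩
    · refine ⟨a + wq ^ 2, ?_, ca.add_lt (v_wq_pow_lt hB (by norm_num))⟩
      rw [xa]
      linear_combination hz2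
    · refine ⟨a, ?_, ca⟩
      rw [xa]
      ring
  obtain ⟨Y1, hY1⟩ := PsEA_div 18 Y
  refine ⟨Y1, hY1, ?_⟩
  have vinv := cx.inv
  have key : Y1 ^ 2 = -1 * (zt * a' * F * x⁻¹) + (wq * (-(zt * wq * m1 * b1 * c * x⁻¹))) * Y1 := by
    apply PsEA_cancel (n := 36)
    apply mul_left_cancel₀ hx0
    have k1 : x * (c ^ 2 * Y ^ 2) = 2 * (m * c * (x - 1 + s * io * c)) * (c ^ 2 * Y) +
        4 * zt * x * (x + ε * zt) * (wq ^ 14 * F) := by
      have k0 : x * (c ^ 2 * Y ^ 2) = (c ^ 2 * Y) ^ 2 := by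
        rw [← hc]
        ring
      rw [k0, hY]
      linear_combination hID
    have k2 : x * Y ^ 2 = 2 * (m * c * (x - 1 + s * io * c)) * Y + 4 * zt * (x + ε * zt) * (wq ^ 14 * F) := by
      rw [hc] at k1
      apply mul_left_cancel₀ hx0
      linear_combination k1
    rw [hb1, ha', hY1, hm1] at k2
    have hxx : x * x⁻¹ = 1 := mul_inv_cancel₀ hx0
    linear_combination k2 + (wq ^ 30 * m1 * c * b1 * Y1) * h2 + (zt * wq ^ 20 * a' * F) * h4 +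
      (wq ^ 36 * zt * a' * F + wq ^ 38 * zt * m1 * b1 * c * Y1) * hxx
  have h9 : Cg B (-1 * (zt * a' * F * x⁻¹)) (e + y + y2) := by
    have := (Cg_neg_one hB).mul ((((Cg_zt hB).mul ca').mul cF).mul vinv)
    rwa [mul_one, one_mul, mul_one, one_mul] at this
  refine Cg.quad key ?_ h9
  refine v_mul_lt vW (v_neg_le ?_)
  repeat' first | assumption | exact vinv.le | apply v_mul_le

/-- (5b) - (5d): **the pair**, `P ^ 4` -/
theorem PsEA_pair (hB : (2 : ℂ)⁻¹ ∉ B) {ε e s io c p m c' p' m' x x2 y y2 U U' : ℂ}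
    (hε : (ε = 1 ∧ e = 1) ∨ (ε = -1 ∧ e = 0)) (hs : s ^ 2 = 2) (hio : io ^ 2 = -1)
    (hc : c ^ 2 = x) (hp : p ^ 2 = 2 * (x + 1)) (hm : m ^ 2 = 2 * (x - 1))
    (hx : x = rh + 2 * y) (hx2 : x2 = rh + 2 * y2) (vy : B.valuation y ≤ 1)
    (vy2 : B.valuation y2 ≤ 1) (h12 : x ^ 2 - 1 = 2 * zt * x * x2)
    (hc' : c' * c = -(ε * zt)) (hp' : p' * c = -m) (hm' : m' * c = ε * zt * p)
    {u u' : ℂ} (hU : U ^ 2 = -8 * s * (p + (c + s * io) * m))
    (hU' : U' ^ 2 = -8 * s * (p' + (c' + s * io) * m')) (hu : U = wq ^ 19 * u)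
    (hu' : U' = wq ^ 19 * u') (cu : Cg B u 1) (cu' : Cg B u' 1) :
    ∃ P, U + U' = wq ^ 23 * P ∧ Cg B (P ^ 4) (e + 1 + y + y2) := by
  have vW := (v_wq_lt (B := B) hB)
  have hI : (ε * zt) ^ 2 = -1 := by
    have h2 : ε ^ 2 = 1 := by
      rcases hε with ⟨h, -⟩ | ⟨h, -⟩ <;> rw [h] <;> norm_num
    linear_combination zt ^ 2 * h2 + zt_sq
  obtain ⟨Y, hYd⟩ : ∃ Y, Y = p + (c + s * io) * m + (p' + (c' + s * io) * m') := ⟨_, rfl⟩
  have hY : c ^ 2 * Y = p * (x + 1 + ε * zt * (s * io) * c) + m * c * (x - 1 + s * io * c) := by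
    rw [hYd]
    linear_combination (p + m * c) * hc + c * hp' + (m' * c) * hc' +
      (-(ε * zt) + s * io * c) * hm' - p * hI
  obtain ⟨Y1, hY1, cY⟩ := PsEA_y hB hε hs hio hc hp hm hx hx2 vy vy2 h12 hY
  obtain ⟨s1, h6⟩ : ∃ s1, s1 = s / lm := ⟨_, rfl⟩
  have h7 : s = wq ^ 4 * s1 := by
    rw [h6, wq_pow, mul_div_cancel₀ _ lm_ne]
  have cs : Cg B s1 1 := h6 ▸ Cg_s hB hs
  obtain ⟨P, hP⟩ := PsEA_div 23 (U + U')
  refine ⟨P, hP, ?_⟩
  have h2 := two_wq (hq := hq)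
  have h8 := PsEA_eight (hq := hq)
  have vY : B.valuation Y1 ≤ 1 := v_le_of_pow two_ne_zero cY.le
  have key : P ^ 2 = -1 * (zt * s1 * Y1) + -1 * (zt * u * u') := by
    apply PsEA_cancel (n := 46)
    have k1 : (wq ^ 23 * P) ^ 2 = -8 * (wq ^ 4 * s1) * (wq ^ 18 * Y1) +
        2 * (wq ^ 19 * u) * (wq ^ 19 * u') := by
      rw [← hP, ← hY1, ← h7, ← hu, ← hu', hYd]
      linear_combination hU + hU'
    linear_combination k1 - (wq ^ 22 * s1 * Y1) * h8 + (wq ^ 38 * u * u') * h2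
  have c1 : Cg B (P ^ 2) (Y1 + 1) := by
    rw [key]
    have a1 := (Cg_neg_one hB).mul (((Cg_zt hB).mul cs).mul (Cg.refl vY))
    have a2 := (Cg_neg_one hB).mul (((Cg_zt hB).mul cu).mul cu')
    have a3 := a1.add a2
    rwa [mul_one, one_mul, one_mul, mul_one, mul_one] at a3
  have c2 := c1.pow 2
  have e1 : (P ^ 2) ^ 2 = P ^ 4 := by ring
  rw [e1] at c2
  refine c2.trans ?_
  have e2 : (Y1 + 1) ^ 2 = (Y1 ^ 2 + 1) + 2 * Y1 := by ring
  rw [e2]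
  have c3 : Cg B (Y1 ^ 2 + 1) (e + y + y2 + 1) := cY.add (Cg.refl (map_one _).le)
  have c4 := c3.add_lt (v_mul_lt (two_lt hB) vY)
  have e3 : e + y + y2 + 1 = e + 1 + y + y2 := by ring
  rwa [e3] at c4

end

end Pool.Agent.Lib.MP_1a91b9_ntQ
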