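import Pool.Agent.Lib.MP_1a91b9_ntQ.Em
import Pool.Agent.Lib.MP_1a91b9_nuT.S3.Main
import Pool.Agent.Lib.MP_1a91b9_nuT.S3.Grp

/-!
# Quartic twists, part A, file Q4: the datum of `y² = x³ - x`, `𝓞 K = ℤ[i]`, and the elliptic functions

`Q4`: `tr = 0`, `nm = 1`, `A = -1`, `B = 0`, `X (1/2) = 1`. `zt` is the complex number `i`, `lm = 1 + i`,
`pe = 1 / lm` the point `(0, 0)`, `yh = Y / 2`, `gg z = sl z pe = (y / x) (z)`.
-/

set_option autoImplicit false

namespace Pool.Agent.Lib.MP_1a91b9_ntQ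

open NumberField Pool.Agent.Lib.MP_1a91b9_nuT Pool.Agent.Lib.MP_1a91b9_nuT.S3
  Pool.Agent.Lib.MP_1a91b9_nuT.Ell

noncomputable section

/-- the datum of the curve `y² = x³ - x` -/
class Q4 [CD] : Prop where
  tr : CD.tr = 0
  nm : CD.nm = 1
  A : CD.A = -1
  B : CD.B = 0
  half : X (1 / 2) = 1

variable [CD]

/-- the complex number `1 + i` -/
def lm : ℂ := 1 + zt

/-- the point of order two `1 / (1 + i)` -/
def pe : ℂ := lm⁻¹

/-- the ordinate, `yh² = X³ - X` -/
def yh (z : ℂ) : ℂ := Y z / 2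

/-- the function `y / x` -/
def gg (z : ℂ) : ℂ := sl z pe

section
variable [hq : Q4]
include hq

theorem zt_sq : zt ^ 2 = -1 := by
  rw [S3.zt_quad, hq.tr, hq.nm]
  simp

theorem zt_mul_zt : zt * zt = -1 := by rw [← pow_two, zt_sq]

theorem zt_ne0 : zt ≠ 0 := by
  intro h
  have := zt_sq
  rw [h] at this
  norm_num at this

omit hq in
theorem em_ta : em (ta : 𝓞 K) = zt := rfl

theorem lm_sq : lm ^ 2 = 2 * zt := by
  rw [lm]
  linear_combination zt_sq

theorem lm_ne : lm ≠ 0 := by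
  intro h
  have := lm_sq
  rw [h, zero_pow two_ne_zero] at this
  exact mul_ne_zero two_ne_zero zt_ne0 this.symm

theorem lm_four : lm ^ 4 = -4 := by
  have : lm ^ 4 = (lm ^ 2) ^ 2 := by ring
  rw [this, lm_sq]
  linear_combination 4 * zt_sq

theorem lm_mul_pe : lm * pe = 1 := mul_inv_cancel₀ lm_ne

theorem pe_eq : pe = (1 - zt) / 2 := by
  have h : lm * ((1 - zt) / 2) = 1 := by
    rw [lm]
    linear_combination (-1 / 2) * zt_sq
  have h1 := lm_mul_pe
  exact mul_left_cancel₀ lm_ne (h1.trans h.symm)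

/-! ### The lattice -/

omit hq in
theorem zt_mem_mul {x : ℂ} (h : x ∈ PP.lattice) : zt * x ∈ PP.lattice := zt_mul_mem h

theorem zt_mem_iff {x : ℂ} : zt * x ∈ PP.lattice ↔ x ∈ PP.lattice := by
  constructor
  · intro h
    have h1 := neg_mem (zt_mul_mem h)
    have e : -(zt * (zt * x)) = x := by linear_combination (-x) * zt_sq
    rwa [e] at h1
  · exact zt_mul_mem

omit hq in
theorem lm_mem : lm ∈ PP.lattice := add_mem one_mem zt_mem

omit hq in
theorem lm_mem_mul {x : ℂ} (h : x ∈ PP.lattice) : lm * x ∈ PP.lattice := mul_mem lm_mem h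

omit hq in
theorem em_mem (x : 𝓞 K) : em x ∈ PP.lattice := S3.embK_mem x

theorem two_pe : 2 * pe = 1 - zt := by rw [pe_eq]; ring

theorem two_pe_mem : 2 * pe ∈ PP.lattice := by
  rw [two_pe]
  exact sub_mem one_mem zt_mem

theorem pe_notMem : pe ∉ PP.lattice := by
  intro h
  obtain ⟨m, n, e⟩ := mem_PP.1 h
  have h1 : (((2 * m - 1 : ℤ) : ℂ)) + ((2 * n + 1 : ℤ) : ℂ) * zt = 0 := by
    have := two_pe
    rw [← e] at this
    push_cast
    linear_combination this
  have h2 : (((2 * m - 1) ^ 2 + (2 * n + 1) ^ 2 : ℤ) : ℂ) = ((0 : ℤ) : ℂ) := by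
    push_cast at h1 ⊢
    linear_combination ((2 * m - 1 : ℂ) - (2 * n + 1) * zt) * h1 + (2 * n + 1 : ℂ) ^ 2 * zt_sq
  have h3 : (2 * m - 1) ^ 2 + (2 * n + 1) ^ 2 = 0 := Int.cast_injective h2
  have h4 : (2 * m - 1) ^ 2 = 0 := by nlinarith [sq_nonneg (2 * m - 1), sq_nonneg (2 * n + 1)]
  have h5 := pow_eq_zero_iff two_ne_zero |>.1 h4
  omega

/-- `z + pe` and `z - pe` are congruent -/
theorem pe_shift (z : ℂ) : z + pe - (z - pe) ∈ PP.lattice := by
  have e : z + pe - (z - pe) = 2 * pe := by ring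
  rw [e]
  exact two_pe_mem

theorem zt_pe_sub : zt * pe - pe ∈ PP.lattice := by
  have e : zt * pe - pe = zt := by
    rw [pe_eq]
    linear_combination (-1 / 2) * zt_sq
  rw [e]
  exact zt_mem

/-! ### Complex multiplication by `i` -/

theorem E1_i (z : ℂ) : E1 (zt * z) = -(zt * E1 z) := by
  have h := E1_dist (ι := Unit) (α := zt) (τ := fun _ => 0) zt_mem zt_ne0
    (fun _ => by rw [mul_zero]; exact zero_mem _)
    (fun x hx => ⟨(), by simpa using zt_mem_iff.1 hx, fun _ _ => rfl⟩) z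
  simp only [Finset.univ_unique, Finset.sum_singleton, add_zero] at h
  rw [h]
  linear_combination (E1 (zt * z)) * zt_sq

theorem sl_i (u v : ℂ) : sl (zt * u) (zt * v) = -(zt * sl u v) := by
  rw [sl, sl, ← mul_add, E1_i, E1_i, E1_i]
  ring

omit hq in
/-- avoiding the lattice -/
theorem exists_avoid (z : ℂ) : ∃ v : ℂ, v ∉ PP.lattice ∧ z + v ∉ PP.lattice ∧ z - v ∉ PP.lattice ∧
    2 * z + v ∉ PP.lattice := by
  have h : ∀ᶠ v in nhdsWithin (0 : ℂ) {0}ᶜ, v ∉ PP.lattice ∧ z + v ∉ PP.lattice ∧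
      z - v ∉ PP.lattice ∧ 2 * z + v ∉ PP.lattice := by
    filter_upwards [eventually_notMem 0, eventually_add_notMem z 0, eventually_add_notMem (-z) 0,
      eventually_add_notMem (2 * z) 0] with v h1 h2 h3 h4
    refine ⟨h1, by rwa [add_comm], fun h => h3 ?_, by rwa [add_comm]⟩
    have e : v + -z = -(z - v) := by ring
    rw [e]
    exact neg_mem h
  exact h.exists

theorem X_i {z : ℂ} (hz : z ∉ PP.lattice) : X (zt * z) = -X z := by
  have key : ∀ u v : ℂ, u ∉ PP.lattice → v ∉ PP.lattice → u + v ∉ PP.lattice →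
      (X (zt * u) + X u) + (X (zt * v) + X v) + (X (zt * (u + v)) + X (u + v)) = 0 := by
    intro u v hu hv huv
    have h1 := sl_sq hu hv huv
    have h2 := sl_sq (zt_mem_iff.not.2 hu) (zt_mem_iff.not.2 hv)
      (by rw [← mul_add]; exact zt_mem_iff.not.2 huv)
    rw [sl_i, ← mul_add] at h2
    linear_combination h1 + h2 + (sl u v) ^ 2 * zt_sq
  have ev : ∀ u : ℂ, X (zt * -u) + X (-u) = X (zt * u) + X u := by
    intro u
    rw [mul_neg, X_neg, X_neg]
  have con : ∀ a b : ℂ, (a + b) / 2 ∉ PP.lattice → (a - b) / 2 ∉ PP.lattice → a ∉ PP.lattice →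
      b ∉ PP.lattice → X (zt * a) + X a = X (zt * b) + X b := by
    intro a b h1 h2 ha hb
    have k1 := key _ _ h1 h2 (by
      have e : (a + b) / 2 + (a - b) / 2 = a := by ring
      rwa [e])
    have k2 := key ((a + b) / 2) (-((a - b) / 2)) h1 (fun h => h2 (by simpa using neg_mem h)) (by
      have e : (a + b) / 2 + -((a - b) / 2) = b := by ring
      rwa [e])
    rw [ev] at k2
    have e1 : (a + b) / 2 + (a - b) / 2 = a := by ring
    have e2 : (a + b) / 2 + -((a - b) / 2) = b := by ring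
    rw [e1] at k1
    rw [e2] at k2
    linear_combination k1 - k2
  have dbl : ∀ x : ℂ, x ∉ PP.lattice → x / 2 ∉ PP.lattice := by
    intro x hx h
    apply hx
    have e : x = x / 2 + x / 2 := by ring
    rw [e]
    exact add_mem h h
  obtain ⟨v, h1, h2, h3, h4⟩ := exists_avoid z
  have a1 := con z v (dbl _ h2) (dbl _ h3) hz h1
  have a2 := con z (z + v) (dbl _ (by
    have e : z + (z + v) = 2 * z + v := by ring
    rwa [e])) (dbl _ (by
    have e : z - (z + v) = -v := by ring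
    rw [e]
    exact fun h => h1 (by simpa using neg_mem h))) hz h2
  have a3 := key z v hz h1 h2
  linear_combination (1 / 3) * (a3 + a1 + a2)

theorem X_pe : X pe = 0 := by
  have h1 := X_i pe_notMem
  have h2 := S3.X_add zt_pe_sub pe
  have e : pe + (zt * pe - pe) = zt * pe := by ring
  rw [e, h1] at h2
  linear_combination (-1 / 2) * h2

theorem Y_pe : Y pe = 0 := by
  rw [Y, Q_half two_pe_mem, zero_div]

theorem E1_pe : E1 pe = 0 := by
  have h1 := S3.E1_neg pe
  have h2 := S3.E1_add two_pe_mem (-pe)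
  have e : -pe + 2 * pe = pe := by ring
  rw [e] at h2
  linear_combination (1 / 2) * (h1 + h2)

theorem gg_eq (z : ℂ) : gg z = (E1 (z + pe) - E1 z) / Om := by
  rw [gg, sl, E1_pe, sub_zero]

/-- `E1 (z + pe) = E1 z + Om gg z` -/
theorem E1_add_pe (z : ℂ) : E1 (z + pe) = E1 z + Om * gg z := by
  rw [gg_eq, mul_div_cancel₀ _ Om_ne_zero]
  ring

/-- the curve -/
theorem yh_sq {z : ℂ} (hz : z ∉ PP.lattice) : yh z ^ 2 = X z ^ 3 - X z := by
  have h := Y_sq hz
  have hA : cA ℂ = -1 := by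
    change ((CD.A : ℤ) : ℂ) = -1
    rw [hq.A]
    norm_num
  have hB : cB ℂ = 0 := by
    change ((CD.B : ℤ) : ℂ) = 0
    rw [hq.B]
    norm_num
  rw [hA, hB] at h
  rw [yh]
  linear_combination h / 4

/-- the addition of a point of order two -/
theorem sl_two {t z : ℂ} (ht : 2 * t ∈ PP.lattice) (ht0 : t ∉ PP.lattice)
    (hz : 2 * z ∉ PP.lattice) : sl z t * (X z - X t) = yh z := by
  have h1 : t - z ∉ PP.lattice := by
    intro h
    apply hz
    have := sub_mem ht (add_mem h h)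
    have e : 2 * t - (t - z + (t - z)) = 2 * z := by ring
    rwa [e] at this
  have h2 : t + z ∉ PP.lattice := by
    intro h
    apply hz
    have := sub_mem (add_mem h h) ht
    have e : t + z + (t + z) - 2 * t = 2 * z := by ring
    rwa [e] at this
  have h := sig hz ht0 h1 h2
  have hE : E1 t = 0 := by
    have h3 := S3.E1_neg t
    have h4 := S3.E1_add ht (-t)
    have e : -t + 2 * t = t := by ring
    rw [e] at h4
    linear_combination (1 / 2) * (h3 + h4)
  have h5 : E1 (t - z) = -E1 (z + t) := by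
    rw [← S3.E1_neg]
    have h6 := S3.E1_add ht (-(z + t))
    have e : -(z + t) + 2 * t = t - z := by ring
    rw [e] at h6
    exact h6
  rw [h5, add_comm t z] at h
  have hO := Om_ne_zero
  rw [sl, hE, X, X, yh, Y]
  field_simp
  linear_combination h

/-- `X` at a point not of order two is not zero -/
theorem X_ne {z : ℂ} (hz : 2 * z ∉ PP.lattice) : X z ≠ 0 := by
  intro h
  have h1 := yh_sq (notMem_of_two_mul hz)
  rw [h] at h1
  have h2 : yh z = 0 := by
    apply (pow_eq_zero_iff two_ne_zero).1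
    rw [h1]
    ring
  have h3 := Per.Q_ne hz
  apply h3
  have hO := Om_ne_zero
  rw [yh, Y, div_div, div_eq_zero_iff] at h2
  exact h2.resolve_right (mul_ne_zero (pow_ne_zero 3 hO) two_ne_zero)

end

end

end Pool.Agent.Lib.MP_1a91b9_ntQ
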