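import Pool.Agent.Lib.MP_1a91b9_ntQ.A.Sys4

/-!
# Quartic twists, file Rat4B: quarter systems and the quartic lemma of Gauss

`k = O / q` is a finite field with `Nz q` elements, `4 ∣ Nz q - 1`. A quarter system consists of the
`x ≠ 0` with `e x < e (i ^ t x)` for `t ≠ 0`, `e` a numbering of `k`. Gauss:
`χ c i = i ^ t i * c (π i)` modulo `q`; the product gives `χ ^ ((Nq - 1) / 4) = i ^ ∑ t i` in the
field `O / q`.
-/

set_option autoImplicit false

namespace Pool.Agent.Lib.MP_1a91b9_ntQ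

open NumberField Pool.Agent.Lib.MP_1a91b9_nuT
open Pool.Agent.Lib.MP_1a91b9_nuX.HQ (w G4 qs w_zero qs_eq)

noncomputable section

/-- A quarter system modulo `q`: every element which is not divisible by `q` is congruent to exactly
one of the elements `i ^ t * c j`. -/
structure QuarterSys (q : 𝓞 K4) {ι : Type} (c : ι → 𝓞 K4) : Prop where
  nz : ∀ i, ¬ q ∣ c i
  ex : ∀ a, ¬ q ∣ a → ∃ i, ∃ t : ZMod 4, q ∣ a - w iO t * c i
  inj : ∀ i j (t : ZMod 4), q ∣ c i - w iO t * c j → i = j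

namespace Rat4

theorem B_mk {q a b : 𝓞 K4} :
    Ideal.Quotient.mk (Ideal.span {q}) a = Ideal.Quotient.mk (Ideal.span {q}) b ↔ q ∣ a - b := by
  rw [Ideal.Quotient.eq, Ideal.mem_span_singleton]

theorem B_mk0 {q a : 𝓞 K4} :
    Ideal.Quotient.mk (Ideal.span {q}) a = 0 ↔ q ∣ a := by
  rw [Ideal.Quotient.eq_zero_iff_mem, Ideal.mem_span_singleton]

theorem B_card {q : 𝓞 K4} [Fintype (𝓞 K4 ⧸ Ideal.span {q})] :
    Fintype.card (𝓞 K4 ⧸ Ideal.span {q}) = Nz q := by
  rw [← Nat.card_eq_fintype_card, ← absNorm_span]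
  rfl

theorem B_fin {q : 𝓞 K4} (hq : q ≠ 0) : Finite (𝓞 K4 ⧸ Ideal.span {q}) :=
  Ideal.finiteQuotientOfFreeOfNeBot _ (by
    rw [Ne, Ideal.span_singleton_eq_bot]
    exact hq)

theorem B_w_ne {q : 𝓞 K4} (hG : G4 (Ideal.span {q})) {x : 𝓞 K4} (hx : ¬ q ∣ x) {s t : ZMod 4}
    (h : q ∣ w iO s * x - w iO t * x) : s = t := by
  have hp := hG.pr
  have e : w iO s * x - w iO t * x = (w iO s - w iO t) * x := by ring
  rw [e, ← Ideal.mem_span_singleton] at h
  rcases hp.mem_or_mem h with h1 | h1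
  · exact hG.inj gi h1
  · exact absurd (Ideal.mem_span_singleton.1 h1) hx

theorem B_w_mul (s t : ZMod 4) (x : 𝓞 K4) :
    w iO s * (w iO t * x) = w iO (s + t) * x := by
  rw [← mul_assoc, ← gi.w_add]

theorem B_w_z (x : 𝓞 K4) : w iO 0 * x = x := by
  rw [w_zero, one_mul]

theorem B_w_nd {q : 𝓞 K4} {x : 𝓞 K4} (hx : ¬ q ∣ x) (t : ZMod 4) :
    ¬ q ∣ w iO t * x := by
  intro h
  apply hx
  have h1 := h.mul_left (w iO (-t))
  have e : w iO (-t) * (w iO t * x) = x := by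
    rw [B_w_mul, neg_add_cancel, B_w_z]
  rwa [e] at h1

end Rat4

open Rat4

theorem QuarterSys.inj2 {q : 𝓞 K4} (hG : G4 (Ideal.span {q})) {ι : Type} {c : ι → 𝓞 K4}
    (h : QuarterSys q c) {i j : ι} {s t : ZMod 4}
    (hd : q ∣ w iO s * c i - w iO t * c j) : i = j ∧ s = t := by
  have h1 : i = j := by
    refine h.inj i j (-s + t) ?_
    have h2 := hd.mul_left (w iO (-s))
    rw [mul_sub, B_w_mul, B_w_mul, neg_add_cancel, B_w_z] at h2
    exact h2
  subst h1
  exact ⟨rfl, B_w_ne hG (h.nz i) hd⟩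

/-- the number of elements of a quarter system -/
theorem QuarterSys.card {q : 𝓞 K4} (hG : G4 (Ideal.span {q})) {ι : Type} [Fintype ι] {c : ι → 𝓞 K4}
    (h : QuarterSys q c) : Nz q = 4 * Fintype.card ι + 1 := by
  have hq : q ≠ 0 := by
    intro h0
    apply hG.ne
    rw [h0, Ideal.span_singleton_eq_bot]
  have hf := B_fin hq
  have := Fintype.ofFinite (𝓞 K4 ⧸ Ideal.span {q})
  rw [← B_card]
  have hb : Function.Bijective (fun x : Option (ι × ZMod 4) => match x with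
      | none => (0 : 𝓞 K4 ⧸ Ideal.span {q})
      | some (i, t) => Ideal.Quotient.mk (Ideal.span {q}) (w iO t * c i)) := by
    constructor
    · rintro (_ | ⟨i, s⟩) (_ | ⟨j, t⟩) hxy
      · rfl
      · exact absurd (B_mk0.1 hxy.symm) (B_w_nd (h.nz j) t)
      · exact absurd (B_mk0.1 hxy) (B_w_nd (h.nz i) s)
      · obtain ⟨h1, h2⟩ := h.inj2 hG (B_mk.1 hxy)
        rw [h1, h2]
    · intro y
      obtain ⟨a, rfl⟩ := Ideal.Quotient.mk_surjective y
      by_cases ha : q ∣ a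
      · exact ⟨none, (B_mk0.2 ha).symm⟩
      · obtain ⟨i, t, hi⟩ := h.ex a ha
        exact ⟨some (i, t), (B_mk.2 hi).symm⟩
  have hc := Fintype.card_of_bijective hb
  rw [← hc, Fintype.card_option, Fintype.card_prod, ZMod.card]
  ring

/-- quarter systems exist -/
theorem exists_quarter {q : 𝓞 K4} (hG : G4 (Ideal.span {q})) :
    ∃ (ι : Type) (_ : Fintype ι) (c : ι → 𝓞 K4), QuarterSys q c ∧
      Nz q = 4 * Fintype.card ι + 1 := by
  classical
  have hq : q ≠ 0 := by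
    intro h0
    apply hG.ne
    rw [h0, Ideal.span_singleton_eq_bot]
  have hf := B_fin hq
  have := Fintype.ofFinite (𝓞 K4 ⧸ Ideal.span {q})
  obtain ⟨e⟩ := (⟨Fintype.equivFin (𝓞 K4 ⧸ Ideal.span {q})⟩ :
    Nonempty ((𝓞 K4 ⧸ Ideal.span {q}) ≃ Fin (Fintype.card (𝓞 K4 ⧸ Ideal.span {q}))))
  have hout : ∀ x : 𝓞 K4 ⧸ Ideal.span {q}, ∃ a : 𝓞 K4, Ideal.Quotient.mk (Ideal.span {q}) a = x :=
    Ideal.Quotient.mk_surjective
  choose g hg using hout
  obtain ⟨W, hW⟩ : ∃ W : ZMod 4 → 𝓞 K4 ⧸ Ideal.span {q}, ∀ t, W t =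
    Ideal.Quotient.mk (Ideal.span {q}) (w iO t) := ⟨_, fun _ => rfl⟩
  have hWadd : ∀ s t x, W s * (W t * x) = W (s + t) * x := by
    intro s t x
    rw [hW, hW, hW, gi.w_add, map_mul, mul_assoc]
  have hW0 : ∀ x, W 0 * x = x := by
    intro x
    rw [hW, w_zero, map_one, one_mul]
  have hWne : ∀ x, x ≠ 0 → ∀ t, t ≠ 0 → W t * x ≠ x := by
    intro x hx t ht hh
    obtain ⟨a, rfl⟩ := Ideal.Quotient.mk_surjective x
    rw [hW, ← map_mul, B_mk] at hh
    have h1 : q ∣ w iO t * a - w iO 0 * a := by rwa [B_w_z]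
    exact ht (B_w_ne hG (fun h2 => hx (B_mk0.2 h2)) h1)
  have hH : QuarterSys q (fun x : {x : 𝓞 K4 ⧸ Ideal.span {q} // x ≠ 0 ∧
      ∀ t : ZMod 4, t ≠ 0 → e x < e (W t * x)} => g x.1) := by
    refine ⟨?_, ?_, ?_⟩
    · rintro ⟨x, hx, hx'⟩ hd
      exact hx (by rw [← hg x]; exact B_mk0.2 hd)
    · intro a ha
      obtain ⟨x, hx⟩ : ∃ x, x = Ideal.Quotient.mk (Ideal.span {q}) a := ⟨_, rfl⟩
      have hx0 : x ≠ 0 := fun hh => ha (B_mk0.1 (by rw [← hx, hh]))
      obtain ⟨t0, -, ht0⟩ := Finset.exists_min_image (Finset.univ : Finset (ZMod 4))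
        (fun t => e (W t * x)) ⟨0, Finset.mem_univ _⟩
      have hy0 : W t0 * x ≠ 0 := by
        intro h1
        apply hx0
        rw [← hW0 x, ← neg_add_cancel t0, ← hWadd, h1, mul_zero]
      refine ⟨⟨W t0 * x, hy0, fun t ht => ?_⟩, -t0, ?_⟩
      · have h1 := ht0 (t + t0) (Finset.mem_univ _)
        rw [← hWadd] at h1
        refine lt_of_le_of_ne h1 fun h2 => ?_
        exact hWne _ hy0 t ht (e.injective h2.symm)
      · rw [← B_mk, map_mul, hg, ← hW, hWadd, neg_add_cancel, hW0, hx]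
    · rintro ⟨x, hx, hx'⟩ ⟨y, hy, hy'⟩ t hd
      have h1 := B_mk.2 hd
      rw [map_mul, hg, hg, ← hW] at h1
      simp only at h1
      by_cases ht : t = 0
      · rw [ht, hW0] at h1
        exact Subtype.ext h1
      · exfalso
        have h2 := hy' t ht
        rw [← h1] at h2
        have h3 := hx' (-t) (neg_ne_zero.2 ht)
        rw [h1, hWadd, neg_add_cancel, hW0, ← h1] at h3
        exact lt_asymm h2 h3
  exact ⟨_, inferInstance, _, hH, hH.card hG⟩

/-- **The quartic lemma of Gauss.** -/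
theorem gauss_quarter {q : 𝓞 K4} (hG : G4 (Ideal.span {q})) {ι : Type} [Fintype ι]
    {c : ι → 𝓞 K4} (h : QuarterSys q c) (s : ZMod 4) (f : 𝓞 K4 → ℂ)
    (hper : ∀ a b, q ∣ a - b → f a = f b)
    (hw : ∀ (t : ZMod 4) (a : 𝓞 K4), ¬ q ∣ a → f (w iO t * a) = e4 (s * t) * f a)
    {χ : 𝓞 K4} (hχ : ¬ q ∣ χ) :
    ∏ i, f (χ * c i) = e4 (s * qs iO (Ideal.span {q}) χ) * ∏ i, f (c i) := by
  classical
  have hp := hG.pr
  have hor : ∀ {a b : 𝓞 K4}, q ∣ a * b → q ∣ a ∨ q ∣ b := by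
    intro a b hab
    rw [← Ideal.mem_span_singleton] at hab
    rcases hp.mem_or_mem hab with h1 | h1
    · exact Or.inl (Ideal.mem_span_singleton.1 h1)
    · exact Or.inr (Ideal.mem_span_singleton.1 h1)
  have hnd : ∀ i, ¬ q ∣ χ * c i := fun i hd => (hor hd).elim hχ (h.nz i)
  have hex : ∀ i, ∃ p : ι × ZMod 4, q ∣ χ * c i - w iO p.2 * c p.1 := by
    intro i
    obtain ⟨j, t, hj⟩ := h.ex _ (hnd i)
    exact ⟨(j, t), hj⟩
  choose P hP using hex
  have hinj : Function.Injective (fun i => (P i).1) := by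
    intro i j hij
    have hij' : (P i).1 = (P j).1 := hij
    have h1 := hP i
    have h2 := (hP j).mul_left (w iO ((P i).2 - (P j).2))
    rw [mul_sub, B_w_mul, sub_add_cancel, ← hij'] at h2
    have h3 : q ∣ χ * (c i - w iO ((P i).2 - (P j).2) * c j) := by
      have h4 := dvd_sub h1 h2
      have e : χ * c i - w iO (P i).2 * c (P i).1 -
          (w iO ((P i).2 - (P j).2) * (χ * c j) - w iO (P i).2 * c (P i).1) =
          χ * (c i - w iO ((P i).2 - (P j).2) * c j) := by ring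
      rwa [e] at h4
    exact h.inj i j _ ((hor h3).resolve_left hχ)
  have hbij : Function.Bijective (fun i => (P i).1) := Finite.injective_iff_bijective.1 hinj
  have hf : ∀ i, f (χ * c i) = e4 (s * (P i).2) * f (c (P i).1) := by
    intro i
    rw [hper _ _ (hP i), hw _ _ (h.nz _)]
  have hsum2 : ∀ (T : Finset ι), ∏ i ∈ T, w iO (P i).2 = w iO (∑ i ∈ T, (P i).2) := by
    intro T
    induction T using Finset.induction_on with
    | empty => rw [Finset.prod_empty, Finset.sum_empty, w_zero]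
    | insert i T hi ih =>
      rw [Finset.prod_insert hi, Finset.sum_insert hi, gi.w_add, ih]
  have hprod : ∏ i, f (χ * c i) = e4 (s * ∑ i, (P i).2) * ∏ i, f (c i) := by
    rw [Finset.prod_congr rfl fun i _ => hf i, Finset.prod_mul_distrib, ← e4_sum, Finset.mul_sum,
      hbij.prod_comp (fun j => f (c j))]
  have hpow : Ideal.Quotient.mk (Ideal.span {q}) χ ^ Fintype.card ι =
      Ideal.Quotient.mk (Ideal.span {q}) (w iO (∑ i, (P i).2)) := by
    have hmk : ∀ i, Ideal.Quotient.mk (Ideal.span {q}) χ * Ideal.Quotient.mk _ (c i) =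
        Ideal.Quotient.mk (Ideal.span {q}) (w iO (P i).2) *
          Ideal.Quotient.mk _ (c (P i).1) := by
      intro i
      rw [← map_mul, B_mk.2 (hP i), map_mul]
    have hW : ∏ i, Ideal.Quotient.mk (Ideal.span {q}) (w iO (P i).2) =
        Ideal.Quotient.mk (Ideal.span {q}) (w iO (∑ i, (P i).2)) := by
      rw [← map_prod, hsum2]
    have h1 := Finset.prod_congr (rfl : (Finset.univ : Finset ι) = Finset.univ) fun i _ => hmk i
    rw [Finset.prod_mul_distrib, Finset.prod_mul_distrib, Finset.prod_const, Finset.card_univ,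
      hbij.prod_comp (fun j => Ideal.Quotient.mk (Ideal.span {q}) (c j)), hW] at h1
    have h2 : ∏ j, Ideal.Quotient.mk (Ideal.span {q}) (c j) ≠ 0 :=
      Finset.prod_ne_zero_iff.2 fun j _ hj => h.nz j (B_mk0.1 hj)
    exact mul_right_cancel₀ h2 h1
  have hcs : qs iO (Ideal.span {q}) χ = ∑ i, (P i).2 := by
    refine qs_eq gi hG (fun h1 => hχ (Ideal.mem_span_singleton.1 h1)) _ ?_
    have hn : (Ideal.absNorm (Ideal.span {q}) - 1) / 4 = Fintype.card ι := by
      rw [absNorm_span, h.card hG]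
      omega
    rw [hn, ← Ideal.Quotient.eq_zero_iff_mem, map_sub, map_pow, hpow, sub_self]
  rw [hprod, hcs]

/-- The system of representatives of a quarter system. -/
def rhoQ {ι : Type} (c : ι → 𝓞 K4) : Option (ι × ZMod 4) → 𝓞 K4
  | none => 0
  | some p => w iO p.2 * c p.1

theorem rhoQ_reps {q : 𝓞 K4} (hG : G4 (Ideal.span {q})) {ι : Type} {c : ι → 𝓞 K4}
    (h : QuarterSys q c) (x : 𝓞 K4) : ∃! i, q ∣ x - rhoQ c i := by
  have uniq : ∀ i j, q ∣ rhoQ c i - rhoQ c j → i = j := by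
    intro i j hij
    rcases i with _ | ⟨i, s⟩ <;> rcases j with _ | ⟨j, t⟩ <;> simp only [rhoQ] at hij
    · rfl
    · rw [zero_sub, dvd_neg] at hij
      exact absurd hij (B_w_nd (h.nz j) t)
    · rw [sub_zero] at hij
      exact absurd hij (B_w_nd (h.nz i) s)
    · obtain ⟨h1, h2⟩ := h.inj2 hG hij
      rw [h1, h2]
  obtain ⟨i, hi⟩ : ∃ i, q ∣ x - rhoQ c i := by
    by_cases hx : q ∣ x
    · exact ⟨none, by simpa [rhoQ] using hx⟩
    · obtain ⟨i, t, hi⟩ := h.ex x hx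
      exact ⟨some (i, t), hi⟩
  refine ⟨i, hi, fun j hj => uniq j i ?_⟩
  have e : rhoQ c j - rhoQ c i = (x - rhoQ c i) - (x - rhoQ c j) := by ring
  rw [e]
  exact dvd_sub hi hj

end

end Pool.Agent.Lib.MP_1a91b9_ntQ
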