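import Pool.Agent.Lib.MP_1a91b9_ntQ.A.Avg4
import Pool.Agent.Lib.MP_1a91b9_nuX.RG.Act

/-!
# Quartic twists, part A, file Rat4G: the action of the automorphisms of `ℂ` on the division points
-/

set_option autoImplicit false

namespace Pool.Agent.Lib.MP_1a91b9_ntQ

open NumberField Pool.Agent.Lib.MP_1a91b9_nuT Pool.Agent.Lib.MP_1a91b9_nuT.S3
  Pool.Agent.Lib.MP_1a91b9_nuT.Ell
open Pool.Agent.Lib.MP_1a91b9_nuX.RG (RlM Hact exists_act2)

noncomputable section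

theorem rat4_yh_pe3_sq : yh (pe ^ 3) ^ 2 = lm ^ 2 := by
  have h : pe ^ 3 ∉ PP.lattice := fun h => two_pe3_notMem (two_mem h)
  rw [yh_sq h, X_pe3, lm_sq]
  linear_combination (-zt) * zt_sq

/-- the point `pe ^ 3` is rational -/
theorem rel_pe3 {τ : ℂ ≃+* ℂ} (hτ : Rq.Fix τ) : Rq.Rel τ (pe ^ 3) (pe ^ 3) := by
  have h : pe ^ 3 ∉ PP.lattice := fun h => two_pe3_notMem (two_mem h)
  have ht : τ zt = zt := hτ
  refine Or.inr ⟨h, h, ?_, ?_⟩
  · rw [X_pe3, map_neg, ht]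
  · have hy : Y (pe ^ 3) = 2 * yh (pe ^ 3) := by
      rw [yh]
      ring
    have hl : τ lm = lm := by
      rw [lm, map_add, map_one, ht]
    rw [hy, map_mul, map_ofNat]
    rcases sq_eq_sq_iff_eq_or_eq_neg.1 rat4_yh_pe3_sq with h1 | h1
    · rw [h1, hl]
    · rw [h1, map_neg, hl]

theorem em_dvd {a b : 𝓞 K4} (hb : b ≠ 0) (h : em a / em b ∈ PP.lattice) : b ∣ a := by
  obtain ⟨c, hc⟩ := S3.mem_PP_iff.1 h
  refine ⟨c, em_inj ?_⟩
  have hb0 : em b ≠ 0 := em_ne hb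
  have hc' : em c = em a / em b := hc
  rw [em_mul, hc', mul_div_cancel₀ _ hb0]

theorem em_lat {a b c : 𝓞 K4} (hc : c ≠ 0) (h : c ∣ a - b) :
    em a / em c - em b / em c ∈ PP.lattice := by
  obtain ⟨d, hd⟩ := h
  have e : em a / em c - em b / em c = em d := by
    have hc0 : em c ≠ 0 := em_ne hc
    rw [← sub_div, ← em_sub, hd, em_mul, mul_div_cancel_left₀ _ hc0]
  rw [e]
  exact em_mem d

/-- **The action of an automorphism on the `M`-torsion** is the multiplication by an element `χ` which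
is congruent to `1` modulo `lam ^ 3` and prime to `M`. -/
theorem exists_act4 {τ : ℂ ≃+* ℂ} (hτ : Rq.Fix τ) (M : ℕ) (hM : 0 < M)
    (h3 : lam ^ 3 ∣ (M : 𝓞 K4)) :
    ∃ χ : 𝓞 K4, lam ^ 3 ∣ χ - 1 ∧ IsCoprime χ (M : 𝓞 K4) ∧
      (∀ a : 𝓞 K4, Rq.Rel τ (em a / M) (em (χ * a) / M)) ∧
      ∀ a : 𝓞 K4, τ (Rq.ev (em a / M)) = Rq.ev (em (χ * a) / M) := by
  obtain ⟨χ₀, -, hr₀, hH⟩ := exists_act2 hτ M hM
  obtain ⟨χ, hχ₀, hcop, hE⟩ := hH M hM
  have hMe : em (M : 𝓞 K4) = M := em_natCast M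
  have hM0 : (M : 𝓞 K4) ≠ 0 := by exact_mod_cast hM.ne'
  have hMc : (M : ℂ) ≠ 0 := by exact_mod_cast hM.ne'
  have hrel : ∀ a : 𝓞 K4, Rq.Rel τ (em a / M) (em (χ * a) / M) := by
    intro a
    have h1 : Rq.Rel τ (em a / M) (em χ₀ * em a / M) := hr₀ a
    have h2 : em (χ * a) / M - em (χ₀ * a) / M ∈ PP.lattice := by
      rw [← hMe]
      refine em_lat hM0 ?_
      rw [← sub_mul]
      exact hχ₀.mul_right a
    have h4 := Rq.rel_period h1 (zero_mem _) h2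
    rw [add_zero, em_mul χ₀, add_sub_cancel] at h4
    exact h4
  refine ⟨χ, ?_, hcop, hrel, fun a => ?_⟩
  · obtain ⟨d, hd⟩ := h3
    have hd0 : d ≠ 0 := by
      rintro rfl
      rw [mul_zero] at hd
      exact hM0 hd
    have hl0 : lam ^ 3 ≠ 0 := pow_ne_zero 3 lam_ne_zero
    have e1 : em d / M = pe ^ 3 := by
      have hd' : em d ≠ 0 := em_ne hd0
      have hl := lm_ne
      rw [← hMe, hd, em_mul, em_pow, em_lam, pe]
      field_simp
    have e2 : em (χ * d) / M = em χ / em (lam ^ 3) := by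
      have hd' : em d ≠ 0 := em_ne hd0
      rw [← hMe, hd, em_mul, em_mul, mul_div_mul_right _ _ hd']
    have h1 := hrel d
    rw [e1, e2] at h1
    have h2 := Rg.rel_unique (rel_pe3 hτ) h1
    refine em_dvd hl0 ?_
    have e3 : em (χ - 1) / em (lam ^ 3) = em χ / em (lam ^ 3) - pe ^ 3 := by
      have hl := lm_ne
      rw [em_sub, em_one, em_pow, em_lam, pe]
      field_simp
    rw [e3]
    exact h2
  · have h1 := hE a
    have e : em (χ * a) / M = embK (χ : K4) * embK (a : K4) / M := by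
      rw [em_mul]
      rfl
    rw [e]
    exact h1

/-- the same for `X` -/
theorem rel_X4 {τ : ℂ ≃+* ℂ} {u w : ℂ} (h : Rq.Rel τ u w) (hu : u ∉ PP.lattice) :
    X w = τ (X u) := by
  rcases h with ⟨h1, -⟩ | ⟨-, -, h1, -⟩
  · exact absurd h1 hu
  · exact h1

/-- the same for `gg` -/
theorem rel_gg {τ : ℂ ≃+* ℂ} {u w : ℂ} (h : Rq.Rel τ u w) (hu : 2 * u ∉ PP.lattice)
    (hw : 2 * w ∉ PP.lattice) : gg w = τ (gg u) := by
  rcases h with ⟨h1, -⟩ | ⟨-, -, h1, h2⟩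
  · exact absurd (two_mem h1) hu
  · have hX : X w ≠ 0 := by
      intro h
      have h5 := X_add_pe hw
      rw [h, mul_zero] at h5
      norm_num at h5
    have a1 := gg_mul hw
    have a2 := congrArg τ (gg_mul hu)
    have a3 : yh w = τ (yh u) := by
      rw [yh, yh, h2, map_div₀, map_ofNat]
    rw [map_mul, ← h1, ← a3, ← a1] at a2
    exact (mul_right_cancel₀ hX a2).symm

end

end Pool.Agent.Lib.MP_1a91b9_ntQ
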