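import Pool.Agent.Lib.MP_1a91b9_ntQ.A.Ell4
import Pool.Agent.Lib.MP_1a91b9_nuT.Rq.Act

/-!
# Quartic twists, part A, file Rat4P: the product formula for `X`

For `α` in `ℤ[i]` with `(α - 1) pe ∈ Λ` (`α` prime to `1 + i`) and a system `τ` of representatives of
`α⁻¹ ℤ[i] / ℤ[i]` we prove `∏ X (z + τ i) = C X (α z)`, `C = α ^ 2 ∏ X (τ i)` (product over the
nonzero classes), and `‖C‖ = 1`.

Proof: the logarithmic derivative of `X` is `2 (E1 (z + pe) - E1 z)`, the distribution relation of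
`E1`, and `X (z + pe) = - 1 / X z`.
-/

set_option autoImplicit false

namespace Pool.Agent.Lib.MP_1a91b9_ntQ.Rat4P

open Complex Filter Topology NumberField Pool.Agent.Lib.MP_1a91b9_nuT
  Pool.Agent.Lib.MP_1a91b9_nuT.S3 Pool.Agent.Lib.MP_1a91b9_nuT.Ell

noncomputable section

variable [CD] [hq : Q4]
include hq

theorem X_ne {z : ℂ} (hz : 2 * z ∉ PP.lattice) : X z ≠ 0 := by
  intro h
  have h1 := X_add_pe hz
  rw [h, mul_zero] at h1
  norm_num at h1

/-- The logarithmic derivative of `X` as a sum of values of `E1`. -/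
theorem log_X {z : ℂ} (hz : 2 * z ∉ PP.lattice) :
    Om * Y z / X z = 2 * (E1 (z + pe) - E1 z) := by
  have hX := X_ne hz
  have h1 := gg_mul hz
  have h2 : Y z = 2 * yh z := by
    rw [yh]
    ring
  rw [E1_add_pe, h2, ← h1]
  field_simp
  ring

section Prod

variable {ι : Type*} [Fintype ι] {α : ℂ} {τ : ι → ℂ}

/-- The distribution relation of the logarithmic derivative. -/
theorem log_dist (hα : α ∈ PP.lattice) (hα0 : α ≠ 0) (h3 : (α - 1) * pe ∈ PP.lattice)
    (h1 : ∀ i, α * τ i ∈ PP.lattice)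
    (h2 : ∀ x, α * x ∈ PP.lattice → ∃! i, x - τ i ∈ PP.lattice) (z : ℂ) :
    ∑ i, 2 * (E1 (z + τ i + pe) - E1 (z + τ i)) =
      α * (2 * (E1 (α * z + pe) - E1 (α * z))) := by
  have e1 : ∀ i, z + τ i + pe = z + pe + τ i := fun i => by ring
  rw [← Finset.mul_sum, Finset.sum_sub_distrib]
  simp_rw [e1]
  rw [E1_dist hα hα0 h1 h2, E1_dist hα hα0 h1 h2]
  have e3 : E1 (α * (z + pe)) = E1 (α * z + pe) := by
    refine E1_congr' ?_
    rw [show α * (z + pe) - (α * z + pe) = (α - 1) * pe by ring]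
    exact h3
  rw [e3]
  ring

omit [Fintype ι] in
theorem notMem (hα : α ∈ PP.lattice) (h1 : ∀ i, α * τ i ∈ PP.lattice) {z : ℂ}
    (hz : 2 * (α * z) ∉ PP.lattice) (i : ι) : 2 * (z + τ i) ∉ PP.lattice := by
  intro h
  apply hz
  have := sub_mem (S3.mul_mem hα h) (two_mem (h1 i))
  rwa [show α * (2 * (z + τ i)) - 2 * (α * τ i) = 2 * (α * z) by ring] at this

theorem notMem_two {z : ℂ} (hz : 2 * z ∉ PP.lattice) : z ∉ PP.lattice := fun h => hz (two_mem h)

/-- The quotient of the two sides. -/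
def Ph (α : ℂ) (τ : ι → ℂ) (z : ℂ) : ℂ := (∏ i, X (z + τ i)) / X (α * z)

theorem hasDerivAt_Ph (hα : α ∈ PP.lattice) (hα0 : α ≠ 0) (h3 : (α - 1) * pe ∈ PP.lattice)
    (h1 : ∀ i, α * τ i ∈ PP.lattice)
    (h2 : ∀ x, α * x ∈ PP.lattice → ∃! i, x - τ i ∈ PP.lattice) {z : ℂ}
    (hz : 2 * (α * z) ∉ PP.lattice) : HasDerivAt (Ph α τ) 0 z := by
  have n1 := notMem hα h1 hz
  have n2 : ∀ i, z + τ i ∉ PP.lattice := fun i => notMem_two (n1 i)
  have n3 : α * z ∉ PP.lattice := notMem_two hz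
  have d1 : ∀ i, DifferentiableAt ℂ (fun z => X (z + τ i)) z := fun i =>
    ((Rq.hasDerivAt_X (n2 i)).comp_add_const z (τ i)).differentiableAt
  have b1 : HasDerivAt (fun z : ℂ => α * z) α z := by
    simpa using (hasDerivAt_id z).const_mul α
  have b2 : HasDerivAt (fun z => X (α * z)) (Om * Y (α * z) * α) z :=
    (Rq.hasDerivAt_X n3).comp z b1
  have d2 : DifferentiableAt ℂ (fun z => X (α * z)) z := b2.differentiableAt
  have d3 : DifferentiableAt ℂ (fun z => ∏ i, X (z + τ i)) z :=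
    DifferentiableAt.fun_finsetProd fun i _ => d1 i
  have q2 : X (α * z) ≠ 0 := X_ne hz
  have q3 : ∏ i, X (z + τ i) ≠ 0 :=
    Finset.prod_ne_zero_iff.2 fun i _ => X_ne (n1 i)
  have hd : DifferentiableAt ℂ (Ph α τ) z := d3.div d2 q2
  have hn : Ph α τ z ≠ 0 := div_ne_zero q3 q2
  have e1 : logDeriv (fun z => ∏ i, X (z + τ i)) z =
      ∑ i, 2 * (E1 (z + τ i + pe) - E1 (z + τ i)) := by
    rw [logDeriv_prod (f := fun i z => X (z + τ i)) (fun i _ => X_ne (n1 i))
      (fun i _ => d1 i)]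
    refine Finset.sum_congr rfl fun i _ => ?_
    rw [logDeriv_apply, ((Rq.hasDerivAt_X (n2 i)).comp_add_const z (τ i)).deriv, log_X (n1 i)]
  have e2 : logDeriv (fun z => X (α * z)) z =
      α * (2 * (E1 (α * z + pe) - E1 (α * z))) := by
    rw [logDeriv_apply, b2.deriv, ← log_X hz]
    ring
  have e3 : logDeriv (Ph α τ) z = 0 := by
    have := logDeriv_div (f := fun z => ∏ i, X (z + τ i))
      (g := fun z => X (α * z)) z q3 q2 d3 d2
    rw [e1, e2, log_dist hα hα0 h3 h1 h2, sub_self] at this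
    exact this
  have e4 : deriv (Ph α τ) z = 0 := by
    rw [logDeriv_apply, div_eq_zero_iff] at e3
    exact e3.resolve_right hn
  have := hd.hasDerivAt
  rwa [e4] at this

omit hq in
theorem eventually_two (hα0 : α ≠ 0) (z : ℂ) :
    ∀ᶠ w in 𝓝[≠] z, 2 * (α * w) ∉ PP.lattice := by
  have := S3.eventually_mul_notMem (mul_ne_zero two_ne_zero hα0) z
  refine this.mono fun w hw h => hw ?_
  rw [mul_assoc]
  exact h

/-- The product formula for `X`. -/
theorem exists_prod (hα : α ∈ PP.lattice) (hα0 : α ≠ 0) (h3 : (α - 1) * pe ∈ PP.lattice)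
    (h1 : ∀ i, α * τ i ∈ PP.lattice)
    (h2 : ∀ x, α * x ∈ PP.lattice → ∃! i, x - τ i ∈ PP.lattice) :
    ∃ C : ℂ, ∀ z : ℂ, 2 * (α * z) ∉ PP.lattice → ∏ i, X (z + τ i) = C * X (α * z) := by
  set S : Set ℂ := {w : ℂ | 2 * (α * w) ∈ PP.lattice} with hSdef
  have h2α : 2 * α ≠ 0 := mul_ne_zero two_ne_zero hα0
  have hS : ∀ z : ℂ, ∀ᶠ w in 𝓝[≠] z, w ∉ S := fun z => eventually_two hα0 z
  have hcount : S.Countable := by
    have := S3.countable_lat.preimage_of_injOn (f := fun w : ℂ => 2 * α * w)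
      (fun x _ y _ h => mul_left_cancel₀ h2α h)
    refine this.mono fun w hw => ?_
    show 2 * α * w ∈ PP.lattice
    rw [mul_assoc]
    exact hw
  have hSo : IsOpen Sᶜ := S3.isOpen_of_iso hS
  have hconst : ∀ x ∈ Sᶜ, ∀ y ∈ Sᶜ, Ph α τ x = Ph α τ y := by
    intro x hx y hy
    exact hSo.is_const_of_deriv_eq_zero (f := Ph α τ)
      (S3.isPreconnected_compl_of_countable hcount)
      (fun w hw => (hasDerivAt_Ph hα hα0 h3 h1 h2 hw).differentiableAt.differentiableWithinAt)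
      (fun w hw => (hasDerivAt_Ph hα hα0 h3 h1 h2 hw).deriv) hx hy
  obtain ⟨z₀, hz₀⟩ : ∃ z₀, z₀ ∈ Sᶜ := by
    have := (hS 0).exists
    exact this
  refine ⟨Ph α τ z₀, fun z hz => ?_⟩
  rw [hconst z₀ hz₀ z hz, Ph, div_mul_cancel₀ _ (X_ne hz)]

/-- the absolute value of the constant -/
theorem norm_const (hα : α ∈ PP.lattice) (hα0 : α ≠ 0) (h3 : (α - 1) * pe ∈ PP.lattice)
    (h1 : ∀ i, α * τ i ∈ PP.lattice) {C : ℂ}
    (hC : ∀ z : ℂ, 2 * (α * z) ∉ PP.lattice → ∏ i, X (z + τ i) = C * X (α * z)) : ‖C‖ = 1 := by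
  obtain ⟨z, hz⟩ := (eventually_two hα0 0).exists
  have hz' : 2 * (α * (z + pe)) ∉ PP.lattice := by
    intro h
    apply hz
    have h4 := sub_mem h (S3.mul_mem hα two_pe_mem)
    rwa [show 2 * (α * (z + pe)) - α * (2 * pe) = 2 * (α * z) by ring] at h4
  have a1 := hC z hz
  have a2 := hC (z + pe) hz'
  have e1 : X (α * (z + pe)) = X (α * z + pe) := by
    refine X_congr ?_
    rw [show α * (z + pe) - (α * z + pe) = (α - 1) * pe by ring]
    exact h3
  have e2 : ∀ i, X (z + pe + τ i) * X (z + τ i) = -1 := by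
    intro i
    have h5 := X_add_pe (notMem hα h1 hz i)
    rwa [show z + τ i + pe = z + pe + τ i by ring] at h5
  have e3 := X_add_pe hz
  have e4 : (∏ i, X (z + pe + τ i)) * ∏ i, X (z + τ i) = ∏ _i : ι, (-1 : ℂ) := by
    rw [← Finset.prod_mul_distrib]
    exact Finset.prod_congr rfl fun i _ => e2 i
  rw [a1, a2, e1] at e4
  have e5 : C * X (α * z + pe) * (C * X (α * z)) = C ^ 2 * (X (α * z + pe) * X (α * z)) := by ring
  rw [e5, e3] at e4
  have e6 := congrArg norm e4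
  rw [norm_mul, norm_pow, norm_neg, norm_one, mul_one, _root_.norm_prod] at e6
  simp only [norm_neg, norm_one, Finset.prod_const_one] at e6
  exact (pow_eq_one_iff_of_nonneg (norm_nonneg _) two_ne_zero).1 e6

end Prod

omit hq in
theorem tendsto_X0 : Tendsto (fun z => z ^ 2 * X z) (𝓝[≠] 0) (𝓝 (1 / Om ^ 2)) := by
  have h1 : Tendsto (fun z => S3.Pr z * (z ^ 0)⁻¹) (𝓝[≠] 0) (𝓝 0) := S3.tendsto_Pr (by norm_num)
  have h2 : ContinuousAt (fun z : ℂ => z ^ 2) 0 := by fun_prop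
  have h3 := h2.tendsto.mono_left (nhdsWithin_le_nhds (s := {0}ᶜ))
  have h4 := ((h3.mul h1).const_add 1).div_const (Om ^ 2)
  rw [mul_zero, add_zero] at h4
  refine h4.congr' ?_
  filter_upwards [self_mem_nhdsWithin] with z hz
  have hz0 : z ≠ 0 := hz
  have hO := Om_ne_zero
  rw [X, S3.P_eq z]
  field_simp

omit hq in
theorem tendsto_Xα {α : ℂ} (hα0 : α ≠ 0) :
    Tendsto (fun z => z ^ 2 * X (α * z)) (𝓝[≠] 0) (𝓝 (1 / Om ^ 2 / α ^ 2)) := by
  have b1 : Tendsto (fun w : ℂ => α * w) (𝓝[≠] 0) (𝓝[≠] 0) := by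
    refine tendsto_nhdsWithin_iff.2 ⟨?_, ?_⟩
    · have h2 : ContinuousAt (fun w : ℂ => α * w) 0 := by fun_prop
      have h3 := h2.tendsto
      rw [mul_zero] at h3
      exact h3.mono_left nhdsWithin_le_nhds
    · filter_upwards [self_mem_nhdsWithin] with w hw
      exact mul_ne_zero hα0 hw
  have h1 := (tendsto_X0.comp b1).div_const (α ^ 2)
  refine h1.congr fun z => ?_
  simp only [Function.comp_apply]
  field_simp

section Prod2

variable {ι : Type*} [Fintype ι] [DecidableEq ι] {α : ℂ} {τ : ι → ℂ}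

/-- The product of the values of `X` at the nonzero division points. -/
theorem norm_cX (hα : α ∈ PP.lattice) (hα0 : α ≠ 0) (h3 : (α - 1) * pe ∈ PP.lattice)
    (h1 : ∀ i, α * τ i ∈ PP.lattice)
    (h2 : ∀ x, α * x ∈ PP.lattice → ∃! i, x - τ i ∈ PP.lattice) {k : ι}
    (hk : τ k ∈ PP.lattice) : ‖α‖ ^ 2 * ‖∏ i ∈ Finset.univ.erase k, X (τ i)‖ = 1 := by
  obtain ⟨C, hC⟩ := exists_prod hα hα0 h3 h1 h2
  have hn := norm_const hα hα0 h3 h1 hC
  have hne : ∀ i, i ≠ k → τ i ∉ PP.lattice := by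
    intro i hi h
    apply hi
    have hm : ∀ x ∈ PP.lattice, 0 - x ∈ PP.lattice := by
      intro x hx
      rw [zero_sub]
      exact neg_mem hx
    exact (h2 0 (by rw [mul_zero]; exact zero_mem _)).unique (hm _ h) (hm _ hk)
  have t1 : Tendsto (fun z => ∏ i ∈ Finset.univ.erase k, X (z + τ i)) (𝓝[≠] 0)
      (𝓝 (∏ i ∈ Finset.univ.erase k, X (τ i))) := by
    refine tendsto_finsetProd _ fun i hi => ?_
    have hi' := hne i (Finset.mem_erase.1 hi).1
    have h5 : ContinuousAt (fun z => X (z + τ i)) 0 := by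
      refine ContinuousAt.comp (g := X) (f := fun z => z + τ i) ?_ (by fun_prop)
      rw [zero_add]
      exact (Rq.hasDerivAt_X hi').continuousAt
    have h6 := h5.tendsto.mono_left (nhdsWithin_le_nhds (s := {0}ᶜ))
    rwa [zero_add] at h6
  have t2 := tendsto_X0.mul t1
  have t3 := (tendsto_Xα hα0).const_mul C
  have e : (fun z => z ^ 2 * X z * ∏ i ∈ Finset.univ.erase k, X (z + τ i)) =ᶠ[𝓝[≠] 0]
      fun z => C * (z ^ 2 * X (α * z)) := by
    filter_upwards [eventually_two hα0 0] with w hw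
    have h4 := hC w hw
    have h5 : X (w + τ k) = X w := X_congr (by rwa [add_sub_cancel_left])
    rw [← Finset.mul_prod_erase Finset.univ _ (Finset.mem_univ k), h5] at h4
    linear_combination w ^ 2 * h4
  have h5 := tendsto_nhds_unique_of_eventuallyEq t2 t3 e
  have hO : Om ^ 2 ≠ 0 := pow_ne_zero 2 Om_ne_zero
  have h6 : α ^ 2 * ∏ i ∈ Finset.univ.erase k, X (τ i) = C := by
    have hO' := Om_ne_zero
    have h7 : C * (1 / Om ^ 2 / α ^ 2) * (α ^ 2 * Om ^ 2) = C := by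
      field_simp
    rw [← h7, ← h5]
    field_simp
  rw [← norm_pow, ← norm_mul, h6, hn]

end Prod2

/-- The product of the values of `X` over the nonzero classes of an element prime to `1 + i`. -/
theorem norm_prod4 {ι : Type*} [Fintype ι] [DecidableEq ι] {a : 𝓞 K} {ρ : ι → 𝓞 K} (ha : a ≠ 0)
    (h3 : (em a - 1) * pe ∈ PP.lattice) (h : ∀ x : 𝓞 K, ∃! i, a ∣ x - ρ i) {k : ι}
    (hk : ρ k = 0) :
    ‖em a‖ ^ 2 * ‖∏ i ∈ Finset.univ.erase k, X (em (ρ i) / em a)‖ = 1 := by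
  have ha0 : em a ≠ 0 := em_ne ha
  refine norm_cX (em_mem a) ha0 h3 (fun i => ?_) (fun x hx => ?_) ?_
  · rw [mul_div_cancel₀ _ ha0]
    exact em_mem _
  · obtain ⟨y, hy⟩ := S3.mem_PP_iff.1 hx
    have key : ∀ i, x - em (ρ i) / em a ∈ PP.lattice ↔ a ∣ y - ρ i := by
      intro i
      have e : em (y - ρ i) = em a * (x - em (ρ i) / em a) := by
        rw [em_sub, mul_sub, mul_div_cancel₀ _ ha0, ← hy]
        rfl
      constructor
      · intro hm
        obtain ⟨b, hb⟩ := S3.mem_PP_iff.1 hm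
        refine ⟨b, ?_⟩
        apply em_inj
        rw [e, em_mul, ← hb]
        rfl
      · rintro ⟨b, hb⟩
        rw [hb, em_mul] at e
        rw [← mul_left_cancel₀ ha0 e]
        exact em_mem b
    obtain ⟨i, hi, hi'⟩ := h y
    exact ⟨i, (key i).2 hi, fun j hj => hi' j ((key j).1 hj)⟩
  · rw [hk, em_zero, zero_div]
    exact zero_mem _

end

end Pool.Agent.Lib.MP_1a91b9_ntQ.Rat4P
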