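import Pool.Agent.Lib.MP_1a91b9_nuT.S7.HalfPlane

/-!
# TwistDensity, phase 4, part A, file SerG: the L-series of a curve with the Euler factors of a
Hecke character
-/

set_option autoImplicit false

namespace Pool.Agent.Lib.MP_1a91b9_ntQ

variable [Pool.Agent.Lib.MP_1a91b9_nuT.CD]

open NumberField IsDedekindDomain Polynomial WeierstrassCurve Filter Topology LSeries
  Pool.Agent.Lib.MP_1a91b9_nt Pool.Agent.Lib.MP_1a91b9_nuT Pool.Agent.Lib.MP_1a91b9_nuT.S7
open Pool.Agent.Lib.MP_1a91b9_nuT.S4 (Lf)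

noncomputable section

section gen
variable {W : WeierstrassCurve K} {p : Ideal (𝓞 K) → ℂ} (p1 : p 1 = 1)
  (pmul : ∀ I J, p (I * J) = p I * p J)
  (ple : ∀ I, ‖p I‖ ≤ (Ideal.absNorm I : ℝ) ^ (1 / 2 : ℝ))
include p1 pmul ple

/-- the range `2 < Re s` -/
private theorem Ser_two (hloc : ∀ (v : HeightOneSpectrum (𝓞 K)) (x : ℂ),
      aeval x (locPoly W v) = (1 - p v.asIdeal * x) * (1 - (starRingEnd ℂ) (p v.asIdeal) * x))
    (s : ℂ) (hs : 2 < s.re) :
    W.LSeries s = Lf p s * Lf (fun I => (starRingEnd ℂ) (p I)) s := by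
  have hp := (S4.hasProd_Lf p p1 pmul (1 / 2) (by norm_num) ple s (by linarith)).2
  have hq := (S4.hasProd_Lf (fun I => (starRingEnd ℂ) (p I)) (by rw [p1, map_one])
    (fun I J => by rw [pmul, map_mul]) (1 / 2) (by norm_num)
    (fun I => by rw [RCLike.norm_conj]; exact ple I) s (by linarith)).2
  have hpq := hp.mul hq
  have he := hasProd_fac W hs
  refine he.unique ?_
  have e : (fun w : HeightOneSpectrum (𝓞 K) => fac W w s) = fun w =>
      (1 - p w.asIdeal * (Ideal.absNorm w.asIdeal : ℂ) ^ (-s))⁻¹ *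
      (1 - (starRingEnd ℂ) (p w.asIdeal) * (Ideal.absNorm w.asIdeal : ℂ) ^ (-s))⁻¹ := by
    funext w
    rw [fac, nrm_eq, hloc, mul_inv]
  rw [e]
  exact hpq

private theorem Ser_half (hloc : ∀ (v : HeightOneSpectrum (𝓞 K)) (x : ℂ),
      aeval x (locPoly W v) = (1 - p v.asIdeal * x) * (1 - (starRingEnd ℂ) (p v.asIdeal) * x))
    (s : ℂ) (hs : 3 / 2 < s.re) :
    W.LSeries s = Lf p s * Lf (fun I => (starRingEnd ℂ) (p I)) s := by
  have hp := hasSum_coefI_of_le p p1 pmul ple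
  have hq := hasSum_coefI_of_le (fun I => (starRingEnd ℂ) (p I)) (by rw [p1, map_one])
    (fun I J => by rw [pmul, map_mul]) (fun I => by rw [RCLike.norm_conj]; exact ple I)
  have h1 := half_plane W (LSeries.convolution (coefI p)
    (coefI (fun I => (starRingEnd ℂ) (p I))))
    (fun s hs => ((hp s hs).convolution (hq s hs)).LSeriesSummable)
    (fun s hs => by
      have hs' : 3 / 2 < s.re := by linarith
      rw [Ser_two p1 pmul ple hloc s hs, ((hp s hs').convolution (hq s hs')).LSeries_eq]) s hs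
  rw [h1.2, ((hp s hs).convolution (hq s hs)).LSeries_eq]

omit p1 pmul ple in
private theorem Ser_conj (s : ℂ) :
    Lf (fun I => (starRingEnd ℂ) (p I)) s = (starRingEnd ℂ) (Lf p ((starRingEnd ℂ) s)) := by
  rw [Lf, Lf, Complex.conj_tsum]
  refine tsum_congr fun I => ?_
  rw [map_mul]
  congr 1
  rw [← map_neg, Complex.cpow_conj _ _ (by
    rw [Complex.natCast_arg]
    exact Real.pi_pos.ne), Complex.conj_natCast, Complex.conj_conj]

/-- from `2 < Re s` to `3/2 < Re s` -/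
private theorem Ser_halfL {g : ℂ → ℂ} (hg : Differentiable ℂ g)
    (h2 : ∀ s : ℂ, 2 < s.re → g s = Lf p s) : ∀ s : ℂ, 3 / 2 < s.re → g s = Lf p s := by
  have hq := hasSum_coefI_of_le p p1 pmul ple
  obtain ⟨b, hb⟩ : ∃ b : ℕ → ℂ, b = coefI p := ⟨_, rfl⟩
  rw [← hb] at hq
  have hab : abscissaOfAbsConv b ≤ ((3 / 2 : ℝ) : EReal) := by
    refine LSeries.abscissaOfAbsConv_le_of_forall_lt_LSeriesSummable fun y hy => ?_
    exact (hq y (by simpa using hy)).LSeriesSummable
  have hL : AnalyticOnNhd ℂ (LSeries b) {s : ℂ | 3 / 2 < s.re} := by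
    refine (LSeries_analyticOnNhd b).mono fun s hs => ?_
    exact hab.trans_lt (by exact_mod_cast hs)
  have hG : AnalyticOnNhd ℂ g {s : ℂ | 3 / 2 < s.re} := fun s _ => hg.analyticAt s
  have hc : IsPreconnected {s : ℂ | 3 / 2 < s.re} := (convex_halfSpace_re_gt _).isPreconnected
  have h3 : (3 : ℂ) ∈ {s : ℂ | 3 / 2 < s.re} := by norm_num
  have hev : g =ᶠ[𝓝 (3 : ℂ)] LSeries b := by
    have ho : IsOpen {s : ℂ | 2 < s.re} := isOpen_lt continuous_const Complex.continuous_re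
    filter_upwards [ho.mem_nhds (show (3 : ℂ) ∈ {s : ℂ | 2 < s.re} by norm_num)] with s hs
    have hs' : 2 < s.re := hs
    rw [h2 s hs', (hq s (by linarith)).LSeries_eq]
  intro s hs
  rw [hG.eqOn_of_preconnected_of_eventuallyEq hL hc h3 hev hs, (hq s hs).LSeries_eq]

/-- **The L-series of a curve with the Euler factors of a Hecke character.** -/
theorem Ser_main (hloc : ∀ (v : HeightOneSpectrum (𝓞 K)) (x : ℂ),
      aeval x (locPoly W v) = (1 - p v.asIdeal * x) * (1 - (starRingEnd ℂ) (p v.asIdeal) * x))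
    {L : ℂ → ℂ} (hL : Differentiable ℂ L) (hL2 : ∀ s : ℂ, 2 < s.re → L s = Lf p s) :
    ∃ g : ℂ → ℂ, Differentiable ℂ g ∧ (∀ s : ℂ, 3 / 2 < s.re → g s = W.LSeries s) ∧
      g 1 = L 1 * (starRingEnd ℂ) (L 1) := by
  have hL1 := Ser_halfL p1 pmul ple hL hL2
  refine ⟨fun s => (starRingEnd ℂ) (L ((starRingEnd ℂ) s)) * L s,
    (S4.differentiable_conj_conj hL).mul hL, fun s hs => ?_, ?_⟩
  · change (starRingEnd ℂ) (L ((starRingEnd ℂ) s)) * L s = _
    rw [Ser_half p1 pmul ple hloc s hs, Ser_conj, hL1 s hs,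
      hL1 _ (by rw [Complex.conj_re]; exact hs), mul_comm]
  · change (starRingEnd ℂ) (L ((starRingEnd ℂ) 1)) * L 1 = _
    rw [map_one, mul_comm]

end gen

end

end Pool.Agent.Lib.MP_1a91b9_ntQ
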