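import Pool.Agent.Lib.MP_1a91b9_ntQ.A.LocJ
import Pool.Agent.Lib.MP_1a91b9_ntQ.A.LocL
import Pool.Agent.Lib.MP_1a91b9_ntQ.A.SerG
import Pool.Agent.Lib.MP_1a91b9_ntQ.A.Avg4
import Pool.Agent.Lib.MP_1a91b9_ntQ.R.Rec4

/-!
# TwistDensity, phase 4 (quartic twists), part A, file Ser4: the L-series of `y² = x³ - D x` over
`ℚ(i)`, `D = i ^ κ ∏ (q ∈ S) q`
-/

set_option autoImplicit false

namespace Pool.Agent.Lib.MP_1a91b9_ntQ

open NumberField IsDedekindDomain Polynomial WeierstrassCurve Pool.Agent.Lib.MP_1a91b9_nt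
  Pool.Agent.Lib.MP_1a91b9_nuT
open Pool.Agent.Lib.MP_1a91b9_nuX.HQ (GI G4 qs w)
open Pool.Agent.Lib.MP_1a91b9_ntQ.C (pv)

noncomputable section

theorem em_w4 (c : ZMod 4) : em (w iO c) = e4 c := by
  rw [w, em_pow, e4]
  congr 1

/-- the Euler factor at a good place, with the quartic symbol `c4` -/
theorem locG_c4 (D : 𝓞 K4) (q : Pg) (v : HeightOneSpectrum (𝓞 K4))
    (hv : v.asIdeal = Ideal.span {q.1}) (hD : ¬ q.1 ∣ D) (x : ℂ) :
    aeval x (locPoly (WD4 D) v) =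
      (1 - (starRingEnd ℂ) (em q.1) * e4 (c4 q D) * x) *
        (1 - (starRingEnd ℂ) ((starRingEnd ℂ) (em q.1) * e4 (c4 q D)) * x) := by
  have hD' : D ∉ v.asIdeal := by
    rw [hv, Ideal.mem_span_singleton]
    exact hD
  have h := locJ gi (embK.toRingHom.comp (algebraMap (𝓞 K4) K4)) D q.1 v hv q.2.2 hD' x
  have h1 : ∀ y : 𝓞 K4, (embK.toRingHom.comp (algebraMap (𝓞 K4) K4)) y = em y := fun _ => rfl
  rw [h1, h1, em_w4, hv] at h
  exact h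

/-- the L-series of `y² = x³ - D x` and the L-series of a character whose values at the primes are
the quartic symbols of `D` -/
theorem ser4_gen {D ν : 𝓞 K4} {X : 𝓞 K4 → ℂ} (hX : Chr (lam ^ 3) ν X)
    (hlam : ∀ v : HeightOneSpectrum (𝓞 K4), lam ∈ v.asIdeal → locPoly (WD4 D) v = 1)
    (hbad : ∀ q : Pg, q.1 ∣ D → ¬ q.1 ^ 4 ∣ D ∧ X q.1 = 0)
    (hgood : ∀ q : Pg, ¬ q.1 ∣ D → X q.1 = e4 (c4 q D)) :
    ∃ g : ℂ → ℂ, Differentiable ℂ g ∧ (∀ s : ℂ, 3 / 2 < s.re → g s = (WD4 D).LSeries s) ∧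
      g 1 = LG (lam ^ 3) X 1 * (starRingEnd ℂ) (LG (lam ^ 3) X 1) := by
  refine Ser_main (W := WD4 D) (p := pG (lam ^ 3) X) hX.pG_one hX.pG_mul hX.pG_le ?_ hX.LG_diff
    hX.LG_eq
  intro v x
  rcases Gen_place (f := (lam ^ 3 : 𝓞 K)) v with h | ⟨q, rfl⟩
  · rw [pG_neg h]
    have h3 : lam ∈ v.asIdeal := by
      by_contra h0
      apply h
      rw [Ideal.isCoprime_iff_sup_eq]
      have hm : v.asIdeal.IsMaximal := Ideal.IsPrime.isMaximal v.isPrime v.ne_bot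
      by_contra h1
      have h2 := hm.eq_of_le h1 le_sup_left
      have h4 : (lam ^ 3 : 𝓞 K4) ∈ v.asIdeal := by
        rw [h2]
        exact Ideal.mem_sup_right (Ideal.mem_span_singleton_self _)
      exact h0 (v.isPrime.mem_of_pow_mem _ h4)
    rw [hlam v h3]
    simp
  · have e := pG_plf X q
    rw [e]
    by_cases h : q.1 ∣ D
    · obtain ⟨h1, h2⟩ := hbad ⟨q.1, q.2⟩ h
      have h3 : (2 : 𝓞 K4) ∉ (plf q).asIdeal := (Pg.g4 ⟨q.1, q.2⟩).two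
      have h4 : ¬ q.1 ∣ (2 : 𝓞 K4) := fun h5 => h3 (Ideal.mem_span_singleton.2 h5)
      have h5 : plf q = pv q.1 q.2.1 := HeightOneSpectrum.ext rfl
      rw [h5, loc4_bad_place q.2.1 h4 h h1]
      simp only at h2
      rw [h2]
      simp
    · rw [hgood ⟨q.1, q.2⟩ h]
      exact locG_c4 D ⟨q.1, q.2⟩ (plf q) rfl h x

/-! ### The element `D` -/

/-- the squarefree element `i ^ κ ∏ (q ∈ S) q` -/
def Dq (κ : ZMod 4) (S : Finset Pg) : 𝓞 K4 := iO ^ κ.val * DDq S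

theorem Ser4_unit (q : Pg) (n : ℕ) : ¬ q.1 ∣ iO ^ n := fun h =>
  q.prime.not_isUnit (isUnit_of_dvd_unit h (isUnit_iO.pow n))

theorem Dq_dvd {κ : ZMod 4} {S : Finset Pg} {q : Pg} : q.1 ∣ Dq κ S ↔ q ∈ S := by
  constructor
  · intro h
    rcases q.prime.dvd_or_dvd h with h1 | h1
    · exact absurd h1 (Ser4_unit q _)
    · exact dvd_DDq.1 h1
  · intro h
    exact (dvd_DDq.2 h).mul_left _

theorem Dq_sq {κ : ZMod 4} {S : Finset Pg} {q : Pg} : ¬ q.1 ^ 2 ∣ Dq κ S := by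
  intro h
  have h1 : IsCoprime (q.1 ^ 2) (iO ^ κ.val) := by
    obtain ⟨u, hu⟩ := isUnit_iO.pow κ.val
    refine ⟨0, ((u⁻¹ : (𝓞 K4)ˣ) : 𝓞 K4), ?_⟩
    rw [← hu, zero_mul, zero_add, Units.inv_mul]
  have h2 : q.1 ^ 2 ∣ DDq S := h1.dvd_of_dvd_mul_left h
  rw [pow_two] at h2
  exact q.prime.not_isUnit (DDq_squarefree S _ h2)

/-- the symbol of `D` at a prime which does not divide it -/
theorem c4_Dq (κ : ZMod 4) {S : Finset Pg} {q : Pg} (hq : q ∉ S) :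
    c4 q (Dq κ S) = (κ + 2 * ∑ p ∈ S, nn p.1) * nn q.1 + ∑ p ∈ S, c4 p q.1 := by
  have h1 : ¬ q.1 ∣ DDq S := fun h => hq (dvd_DDq.1 h)
  have h2 : ¬ q.1 ∣ iO := by
    have := Ser4_unit q 1
    rwa [pow_one] at this
  rw [Dq, c4_mul q (Ser4_unit q _) h1, c4_pow q h2, c4_i, c4_DDq q hq, ZMod.natCast_zmod_val]
  have h3 : ∑ p ∈ S, c4 q p.1 = ∑ p ∈ S, (c4 p q.1 + 2 * nn p.1 * nn q.1) := by
    refine Finset.sum_congr rfl fun p hp => ?_
    have h4 : p ≠ q := by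
      rintro rfl
      exact hq hp
    have h5 := c4_recip p q h4
    linear_combination h5
  rw [h3, Finset.sum_add_distrib, ← Finset.sum_mul, ← Finset.mul_sum]
  ring

/-- **The L-series of the quartic twist**, `D` odd and squarefree, with additive reduction at the place
above `2`. -/
theorem ser4 (κ : ZMod 4) (S : Finset Pg)
    (hlam : ∀ v : HeightOneSpectrum (𝓞 K4), lam ∈ v.asIdeal → locPoly (WD4 (Dq κ S)) v = 1) :
    ∃ g : ℂ → ℂ, Differentiable ℂ g ∧ (∀ s : ℂ, 3 / 2 < s.re → g s = (WD4 (Dq κ S)).LSeries s) ∧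
      g 1 = L4 (κ + 2 * ∑ q ∈ S, nn q.1) S 1 *
        (starRingEnd ℂ) (L4 (κ + 2 * ∑ q ∈ S, nn q.1) S 1) := by
  refine ser4_gen (X4_chr (κ + 2 * ∑ q ∈ S, nn q.1) S) hlam (fun q hq => ⟨?_, ?_⟩) fun q hq => ?_
  · exact fun h => Dq_sq ((pow_dvd_pow q.1 (by norm_num)).trans h)
  · rw [X4_eq, Finset.prod_eq_zero (Dq_dvd.1 hq) (ch4_of_dvd (dvd_refl _)), mul_zero]
  · have h1 : q ∉ S := fun h => hq (Dq_dvd.2 h)
    have h2 : ∀ p ∈ S, ¬ p.1 ∣ q.1 := fun p hp => Pg.not_dvd (by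
      rintro rfl
      exact h1 hp)
    rw [X4_of_cop _ h2, c4_Dq κ h1]

theorem eq_pv_lam {v : HeightOneSpectrum (𝓞 K4)} (h : lam ∈ v.asIdeal) : v = pv lam lam_prime := by
  have h1 : (pv lam lam_prime).asIdeal.IsMaximal :=
    Ideal.IsPrime.isMaximal (pv lam lam_prime).isPrime (pv lam lam_prime).ne_bot
  refine HeightOneSpectrum.ext (h1.eq_of_le v.isPrime.ne_top ?_).symm
  change Ideal.span {lam} ≤ v.asIdeal
  exact (Ideal.span_singleton_le_iff_mem _).2 h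

/-- `D` is congruent to `i ^ κ` modulo `lam ^ 3` -/
theorem Dq_lam3 (κ : ZMod 4) (S : Finset Pg) : lam ^ 3 ∣ Dq κ S - iO ^ κ.val := by
  have h : lam ^ 3 ∣ DDq S - 1 := DDq_in4 S
  have e : Dq κ S - iO ^ κ.val = iO ^ κ.val * (DDq S - 1) := by
    rw [Dq]
    ring
  rw [e]
  exact h.mul_left _

theorem Dq_not_lam (κ : ZMod 4) (S : Finset Pg) : ¬ lam ∣ Dq κ S := by
  intro h
  rcases lam_prime.dvd_or_dvd h with h1 | h1
  · exact lam_prime.not_isUnit (isUnit_of_dvd_unit h1 (isUnit_iO.pow _))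
  · exact (DDq_in4 S).not_lam h1

theorem Dq_add_one {κ : ZMod 4} (hκ : κ ≠ 2) (S : Finset Pg) : ¬ lam ^ 3 ∣ Dq κ S + 1 := by
  intro h
  have h1 : lam ^ 3 ∣ iO ^ κ.val + 1 := by
    have e : iO ^ κ.val + 1 = (Dq κ S + 1) - (Dq κ S - iO ^ κ.val) := by ring
    rw [e]
    exact dvd_sub h (Dq_lam3 κ S)
  have h2 : iO ^ (2 : ZMod 4).val = -1 := by
    have : (2 : ZMod 4).val = 2 := rfl
    rw [this, iO_sq]
  have h3 : In4 (iO ^ (κ + 2).val) := by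
    change lam ^ 3 ∣ iO ^ (κ + 2).val - 1
    rw [← pow_val_mul, h2]
    have e : iO ^ κ.val * -1 - 1 = -(iO ^ κ.val + 1) := by ring
    rw [e]
    exact (dvd_neg).2 h1
  have h4 := pow_in4 h3
  apply hκ
  have h5 : ∀ k : ZMod 4, k + 2 = 0 → k = 2 := by decide
  exact h5 κ h4

/-- **The L-series of the quartic twist**, `D = i ^ κ ∏ (q ∈ S) q`, `κ ≠ 2`. -/
theorem ser4_add {κ : ZMod 4} (hκ : κ ≠ 2) (S : Finset Pg) :
    ∃ g : ℂ → ℂ, Differentiable ℂ g ∧ (∀ s : ℂ, 3 / 2 < s.re → g s = (WD4 (Dq κ S)).LSeries s) ∧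
      g 1 = L4 (κ + 2 * ∑ q ∈ S, nn q.1) S 1 *
        (starRingEnd ℂ) (L4 (κ + 2 * ∑ q ∈ S, nn q.1) S 1) := by
  refine ser4 κ S fun v hv => ?_
  rw [eq_pv_lam hv]
  exact loc4_lam_unit (Dq_not_lam κ S) (Dq_add_one hκ S)

/-- the L-series has an entire continuation which does not vanish at `1` if `L4` does not -/
theorem ser4_ne {κ : ZMod 4} (hκ : κ ≠ 2) {S : Finset Pg}
    (h : L4 (κ + 2 * ∑ q ∈ S, nn q.1) S 1 ≠ 0) :
    ∃ g : ℂ → ℂ, Differentiable ℂ g ∧ (∀ s : ℂ, 3 / 2 < s.re → g s = (WD4 (Dq κ S)).LSeries s) ∧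
      g 1 ≠ 0 := by
  obtain ⟨g, h1, h2, h3⟩ := ser4_add hκ S
  exact ⟨g, h1, h2, by rw [h3]; exact mul_ne_zero h ((_root_.map_ne_zero _).2 h)⟩

end

end Pool.Agent.Lib.MP_1a91b9_ntQ
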