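import Pool.Agent.Lib.MP_1a91b9_ntQ.A.Rat4B
import Pool.Agent.Lib.MP_1a91b9_ntQ.A.Rat4G
import Pool.Agent.Lib.MP_1a91b9_ntQ.A.Rat4P
import Pool.Agent.Lib.MP_1a91b9_ntQ.A.LocO
import Pool.Agent.Lib.MP_1a91b9_ntQ.A.Ser4
import Pool.Agent.Lib.MP_1a91b9_nuT.Rg.Fx

/-!
# Quartic twists, part A, file Rat4D: the rationality of the L-quotient

`crat4 : ∃ q : ℚ, ‖L4 k S 1‖ ^ 2 * ‖em (DDq S)‖ ^ (1 / 2) = q * ‖Om‖ ^ 2`.
-/

set_option autoImplicit false

namespace Pool.Agent.Lib.MP_1a91b9_ntQ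

open NumberField IsDedekindDomain Pool.Agent.Lib.MP_1a91b9_nuT Pool.Agent.Lib.MP_1a91b9_nuT.S3
  Pool.Agent.Lib.MP_1a91b9_nuT.Ell
open Pool.Agent.Lib.MP_1a91b9_nuX.HQ (w G4 qs)
open Pool.Agent.Lib.MP_1a91b9_nuT.Rq (ev Rel)

noncomputable section

/-! ### The Galois action on the L-values -/

/-- multiplication by an element which is `1` modulo `f` and prime to `ν` permutes the classes -/
theorem RepsG.perm {f ν : 𝓞 K4} {ι : Type} [Finite ι] {c : ι → 𝓞 K4} (h : RepsG f ν c)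
    {u : 𝓞 K4} (hu : IsCoprime u ν) (hf : f ∣ u - 1) :
    ∃ σ : Equiv.Perm ι, ∀ i, ν ∣ u * c i - c (σ i) := by
  have h1 : ∀ i, ∃ j, ν ∣ u * c i - c j := by
    intro i
    refine h.ex (u * c i) (hu.mul_left (h.cop i)) ?_
    have e : u * c i - 1 = (u - 1) * c i + (c i - 1) := by ring
    rw [e]
    exact dvd_add (hf.mul_right _) (h.fx i)
  choose g hg using h1
  have hinj : Function.Injective g := by
    intro i j hij
    apply h.inj
    have h2 : ν ∣ u * (c i - c j) := by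
      have e : u * (c i - c j) = (u * c i - c (g i)) - (u * c j - c (g j)) := by
        rw [hij]
        ring
      rw [e]
      exact dvd_sub (hg i) (hg j)
    exact hu.symm.dvd_of_dvd_mul_left h2
  exact ⟨Equiv.ofBijective g (Finite.injective_iff_bijective.1 hinj), hg⟩

theorem Rat4_sum {ν : 𝓞 K4} {X : 𝓞 K4 → ℂ} (hX : Chr (lam ^ 3) ν X) {M : ℕ} (hM : 0 < M)
    (hν : ν ∣ (M : 𝓞 K4)) {τ : ℂ ≃+* ℂ} {χ : 𝓞 K4} (h3 : lam ^ 3 ∣ χ - 1)
    (hχ : IsCoprime χ (M : 𝓞 K4)) (hev : ∀ a : 𝓞 K4, τ (ev (em a / M)) = ev (em (χ * a) / M))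
    (hτX : ∀ a, τ (X a) = X a) :
    X χ * τ (LG (lam ^ 3) X 1 * em ν / Om) = LG (lam ^ 3) X 1 * em ν / Om := by
  obtain ⟨ι, _, c, hc⟩ := RepsG.exists_reps hX.ne hX.dvd
  have hν0 := em_ne hX.ne
  have hM0 : (M : ℂ) ≠ 0 := by exact_mod_cast hM.ne'
  have hO := Om_ne_zero
  obtain ⟨d, hd⟩ := hν
  have hdM : em ν * em d = M := by
    rw [← em_mul, ← hd, em_natCast]
  have hd0 : em d ≠ 0 := right_ne_zero_of_mul (hdM ▸ hM0)
  have hf : ∀ a : 𝓞 K4, em a / em ν = em (a * d) / M := by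
    intro a
    rw [← hdM, em_mul a d, mul_div_mul_right _ _ hd0]
  have hev2 : ∀ a : 𝓞 K4, τ (ev (em a / em ν)) = ev (em (χ * a) / em ν) := by
    intro a
    rw [hf, hev, hf, mul_assoc]
  have hL : LG (lam ^ 3) X 1 * em ν / Om = ∑ i, X (c i) * ev (em (c i) / em ν) := by
    rw [hX.LG_one hc]
    have h1 : ∀ i, ev (em (c i) / em ν) = E1 (em (c i) / em ν) / Om := fun i => rfl
    simp only [h1]
    rw [div_eq_iff hO, Finset.sum_mul, mul_comm _ (em ν), ← mul_assoc, mul_inv_cancel₀ hν0, one_mul]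
    refine Finset.sum_congr rfl fun i _ => ?_
    field_simp
  have hχν : IsCoprime χ ν := IsCoprime.of_isCoprime_of_dvd_right hχ ⟨d, hd⟩
  obtain ⟨σ, hσ⟩ := hc.perm hχν h3
  rw [hL, map_sum, Finset.mul_sum, ← Equiv.sum_comp σ (fun i => X (c i) * ev (em (c i) / em ν))]
  refine Finset.sum_congr rfl fun i _ => ?_
  have h1 : lam ^ 3 ∣ χ * c i - 1 := by
    have e : χ * c i - 1 = (χ - 1) * c i + (c i - 1) := by ring
    rw [e]
    exact dvd_add (h3.mul_right _) (hc.fx i)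
  have h2 : X (c (σ i)) = X χ * X (c i) := by
    rw [← hX.per _ _ h1 (hσ i), hX.mul _ _ h3 (hc.fx i)]
  have h4 : ev (em (χ * c i) / em ν) = ev (em (c (σ i)) / em ν) := by
    have h5 := em_lat hX.ne (hσ i)
    have e : em (χ * c i) / em ν = em (c (σ i)) / em ν +
        (em (χ * c i) / em ν - em (c (σ i)) / em ν) := by ring
    rw [e, Rq.ev_add h5]
  rw [map_mul, hτX, hev2, h4, h2]
  ring

/-! ### Roots of unity -/

theorem e4_fix {τ : ℂ ≃+* ℂ} (hτ : Rq.Fix τ) (t : ZMod 4) : τ (e4 t) = e4 t := by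
  have ht : τ zt = zt := hτ
  rw [e4, map_pow, ht]

theorem X4_fix {τ : ℂ ≃+* ℂ} (hτ : Rq.Fix τ) (k : ZMod 4) (S : Finset Pg) (a : 𝓞 K4) :
    τ (X4 k S a) = X4 k S a := by
  have h1 : ∀ q : Pg, τ (ch4 q a) = ch4 q a := by
    intro q
    by_cases h : q.1 ∣ a
    · rw [ch4_of_dvd h, map_zero]
    · rw [ch4_of_not h, e4_fix hτ]
  rw [X4_eq, map_mul, map_prod, th4, e4_fix hτ]
  congr 1
  exact Finset.prod_congr rfl fun q _ => h1 q

/-! ### The number attached to a prime -/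

theorem two_em_notMem {q a : 𝓞 K4} (hq : Prime q) (h2 : ¬ q ∣ 2) (ha : ¬ q ∣ a) :
    2 * (em a / em q) ∉ PP.lattice := by
  intro h
  have e : 2 * (em a / em q) = em (2 * a) / em q := by
    rw [em_mul, em_ofNat]
    ring
  rw [e] at h
  rcases hq.dvd_or_dvd (em_dvd hq.ne_zero h) with h1 | h1
  · exact h2 h1
  · exact ha h1

theorem Pg_two (q : Pg) : ¬ q.1 ∣ (2 : 𝓞 K4) := fun h => q.g4.two (Ideal.mem_span_singleton.2 h)

theorem Pg_lam (q : Pg) : ¬ q.1 ∣ lam := by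
  intro h
  exact Pg_two q (h.trans lam_dvd_two)

theorem pe_odd {a : 𝓞 K4} (h : lam ∣ a - 1) : (em a - 1) * pe ∈ PP.lattice := by
  obtain ⟨b, hb⟩ := h
  have e : (em a - 1) * pe = em b := by
    have h1 : em a - 1 = em (a - 1) := by rw [em_sub, em_one]
    rw [h1, hb, em_mul, em_lam]
    linear_combination em b * lm_mul_pe
  rw [e]
  exact em_mem b

theorem gg_w (t : ZMod 4) {z : ℂ} (hz : 2 * z ∉ PP.lattice) :
    gg (em (w iO t) * z) = e4 (-t) * gg z := by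
  have key : ∀ n : ℕ, 2 * (zt ^ n * z) ∉ PP.lattice ∧
      gg (zt ^ n * z) = (-zt) ^ n * gg z := by
    intro n
    induction n with
    | zero => rw [pow_zero, pow_zero, one_mul, one_mul]; exact ⟨hz, rfl⟩
    | succ n ih =>
      have e : zt ^ (n + 1) * z = zt * (zt ^ n * z) := by ring
      refine ⟨?_, ?_⟩
      · rw [e]
        exact two_zt ih.1
      · rw [e, gg_i ih.1, ih.2]
        ring
  have h1 : e4 (-t) = (-zt) ^ t.val := by
    have h2 : (-zt : ℂ) = e4 (-1) := by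
      have h3 : (-1 : ZMod 4) = 3 := rfl
      rw [h3, e4_three]
    rw [h2, e4_pow, ZMod.natCast_zmod_val, mul_neg_one]
  rw [em_w4, h1, e4, (key t.val).2]

theorem norm_lm_sq : ‖lm‖ ^ 2 = 2 := by
  rw [← norm_pow, lm_sq, norm_mul, norm_zt, mul_one]
  norm_num

/-- **The number attached to a prime**: the product of `gg` over a quarter system. -/
theorem Rat4_exists (q : Pg) : ∃ h : ℂ, h ≠ 0 ∧ (‖h‖ ^ 2) ^ 2 * ‖em q.1‖ = 1 ∧
    ∀ (τ : ℂ ≃+* ℂ) (_ : Rq.Fix τ) (χ : 𝓞 K4) (M : ℕ), 0 < M → q.1 ∣ (M : 𝓞 K4) →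
      (∀ a : 𝓞 K4, Rel τ (em a / M) (em (χ * a) / M)) → ¬ q.1 ∣ χ →
        τ h = e4 (-c4 q χ) * h := by
  classical
  have hG := q.g4
  obtain ⟨ι, _, c, hc, hn⟩ := exists_quarter hG
  have hq0 := q.2.1.ne_zero
  have hl0 := lm_ne
  have hnl : ∀ a : 𝓞 K4, ¬ q.1 ∣ a → 2 * (em a / em q.1) ∉ PP.lattice := fun a ha =>
    two_em_notMem q.2.1 (Pg_two q) ha
  have hw : ∀ (t : ZMod 4) (a : 𝓞 K4), ¬ q.1 ∣ a → gg (em (w iO t * a) / em q.1) =
      e4 (-1 * t) * gg (em a / em q.1) := by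
    intro t a ha
    rw [em_mul, mul_div_assoc, gg_w t (hnl a ha), neg_one_mul]
  have hx0 : ∀ i, gg (em (c i) / em q.1) ≠ 0 := fun i => gg_ne (hnl _ (hc.nz i))
  have hg0 : ∏ i, gg (em (c i) / em q.1) ≠ 0 := Finset.prod_ne_zero_iff.2 fun i _ => hx0 i
  have hper : ∀ a b : 𝓞 K4, q.1 ∣ a - b → gg (em a / em q.1) = gg (em b / em q.1) :=
    fun a b hab => gg_congr (em_lat hq0 hab)
  refine ⟨(∏ i, gg (em (c i) / em q.1)) / lm ^ Fintype.card ι,
    div_ne_zero hg0 (pow_ne_zero _ hl0), ?_, ?_⟩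
  · -- the product of `X` over the nonzero classes, at the points `lam c / q`
    have h3 : lam ∣ q.1 - 1 := (dvd_pow_self lam three_ne_zero).trans q.2.2
    have hcop : ∀ a : 𝓞 K4, q.1 ∣ lam * a → q.1 ∣ a := fun a h =>
      (q.2.1.dvd_or_dvd h).resolve_left (Pg_lam q)
    -- the system `lam * rhoQ c`
    have hreps : ∀ x : 𝓞 K4, ∃! i, q.1 ∣ x - lam * rhoQ c i := by
      have hinj : ∀ i j, q.1 ∣ lam * rhoQ c i - lam * rhoQ c j → i = j := by
        intro i j hij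
        rw [← mul_sub] at hij
        obtain ⟨i0, h4, h5⟩ := rhoQ_reps hG hc (rhoQ c i)
        have h6 : i = i0 := h5 i (by
          change q.1 ∣ rhoQ c i - rhoQ c i
          rw [sub_self]
          exact dvd_zero _)
        have h7 : j = i0 := h5 j (hcop _ hij)
        rw [h6, h7]
      -- `lam` is invertible modulo `q`
      have hunit : ∃ u : 𝓞 K4, q.1 ∣ lam * u - 1 := by
        have h8 : IsCoprime lam q.1 := (q.2.1.irreducible.coprime_iff_not_dvd.2 (Pg_lam q)).symm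
        obtain ⟨u, v, huv⟩ := h8
        exact ⟨u, -v, by linear_combination huv⟩
      obtain ⟨u, hu⟩ := hunit
      intro x
      obtain ⟨i, hi, -⟩ := rhoQ_reps hG hc (u * x)
      have hi' : q.1 ∣ x - lam * rhoQ c i := by
        have e : x - lam * rhoQ c i = lam * (u * x - rhoQ c i) - (lam * u - 1) * x := by ring
        rw [e]
        exact dvd_sub (hi.mul_left _) (hu.mul_right _)
      refine ⟨i, hi', fun j hj => hinj j i ?_⟩
      have e : lam * rhoQ c j - lam * rhoQ c i = (x - lam * rhoQ c i) - (x - lam * rhoQ c j) := by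
        ring
      rw [e]
      exact dvd_sub hi' hj
    have h1 := Rat4P.norm_prod4 (ρ := fun i => lam * rhoQ c i) hq0 (pe_odd h3) hreps (k := none)
      (by simp [rhoQ])
    have herase : (Finset.univ.erase none : Finset (Option (ι × ZMod 4))) =
        Finset.univ.map Function.Embedding.some := by
      ext x
      cases x <;> simp
    -- the product of the squares of `gg`
    have hgs : ∀ p : ι × ZMod 4,
        2 * ‖X (em (lam * rhoQ c (Function.Embedding.some p)) / em q.1)‖ =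
          ‖gg (em (c p.1) / em q.1)‖ ^ 2 := by
      rintro ⟨i, t⟩
      change 2 * ‖X (em (lam * rhoQ c (some (i, t))) / em q.1)‖ = ‖gg (em (c i) / em q.1)‖ ^ 2
      have hz := hnl (w iO t * c i) (Rat4.B_w_nd (hc.nz i) t)
      have h4 := gg_sq hz
      have h5 : lm * (em (w iO t * c i) / em q.1) = em (lam * rhoQ c (some (i, t))) / em q.1 := by
        rw [rhoQ, em_mul lam, em_lam, mul_div_assoc]
      rw [h5] at h4
      have h6 := congrArg norm h4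
      rw [norm_pow, hw t _ (hc.nz i), norm_mul, norm_e4, one_mul, norm_mul, norm_mul, norm_zt,
        mul_one] at h6
      rw [h6]
      norm_num
    have hprod : (2 : ℝ) ^ (4 * Fintype.card ι) *
        ‖∏ i ∈ (Finset.univ.erase none : Finset (Option (ι × ZMod 4))),
          X (em (lam * rhoQ c i) / em q.1)‖ = ‖∏ i, gg (em (c i) / em q.1)‖ ^ 8 := by
      have e1 : (2 : ℝ) ^ (4 * Fintype.card ι) = ∏ _p : ι × ZMod 4, (2 : ℝ) := by
        rw [Finset.prod_const, Finset.card_univ, Fintype.card_prod, ZMod.card, mul_comm]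
      rw [herase, Finset.prod_map, _root_.norm_prod, e1, ← Finset.prod_mul_distrib,
        Finset.prod_congr rfl fun p _ => hgs p, Fintype.prod_prod_type, _root_.norm_prod,
        ← Finset.prod_pow]
      refine Finset.prod_congr rfl fun i _ => ?_
      change (∏ _y : ZMod 4, ‖gg (em (c i) / em q.1)‖ ^ 2) = ‖gg (em (c i) / em q.1)‖ ^ 8
      rw [Finset.prod_const, Finset.card_univ, ZMod.card]
      ring
    have hl2 := norm_lm_sq
    obtain ⟨A, hA⟩ : ∃ A, A = ‖∏ i, gg (em (c i) / em q.1)‖ := ⟨_, rfl⟩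
    obtain ⟨B, hB⟩ : ∃ B, B = ‖∏ i ∈ (Finset.univ.erase none : Finset (Option (ι × ZMod 4))),
          X (em (lam * rhoQ c i) / em q.1)‖ := ⟨_, rfl⟩
    rw [← hA, ← hB] at hprod
    rw [← hB] at h1
    rw [norm_div, norm_pow, ← hA]
    have hlp : ‖lm‖ ^ Fintype.card ι ≠ 0 := pow_ne_zero _ (norm_ne_zero_iff.2 hl0)
    have hl8 : (‖lm‖ ^ Fintype.card ι) ^ 8 = 2 ^ (4 * Fintype.card ι) := by
      rw [← pow_mul, mul_comm _ 8, pow_mul, show ‖lm‖ ^ 8 = (‖lm‖ ^ 2) ^ 4 by ring, hl2, ← pow_mul]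
    have hfin : (((A / ‖lm‖ ^ Fintype.card ι) ^ 2) ^ 2 * ‖em q.1‖) ^ 2 = 1 ^ 2 := by
      have e2 : (((A / ‖lm‖ ^ Fintype.card ι) ^ 2) ^ 2 * ‖em q.1‖) ^ 2 =
          A ^ 8 / (‖lm‖ ^ Fintype.card ι) ^ 8 * ‖em q.1‖ ^ 2 := by
        rw [div_pow, div_pow, mul_pow, div_pow]
        ring
      rw [e2, hl8, ← hprod, mul_div_cancel_left₀ _ (pow_ne_zero _ two_ne_zero)]
      linear_combination h1
    exact (pow_left_inj₀ (by positivity) (by norm_num) (by norm_num)).1 hfin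
  · rintro τ hτ χ M hM ⟨d, hd⟩ hR hχ
    have hM0 : (M : ℂ) ≠ 0 := by exact_mod_cast hM.ne'
    have hdM : em q.1 * em d = M := by
      rw [← em_mul, ← hd, em_natCast]
    have hd0 : em d ≠ 0 := right_ne_zero_of_mul (hdM ▸ hM0)
    have hf : ∀ a : 𝓞 K4, em a / em q.1 = em (a * d) / M := by
      intro a
      rw [← hdM, em_mul a d, mul_div_mul_right _ _ hd0]
    have h1 : ∀ a : 𝓞 K4, ¬ q.1 ∣ a → τ (gg (em a / em q.1)) = gg (em (χ * a) / em q.1) := by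
      intro a ha
      have ha' : ¬ q.1 ∣ χ * a := fun h => (q.2.1.dvd_or_dvd h).elim hχ ha
      have h2 := rel_gg (hR (a * d)) (by rw [← hf]; exact hnl a ha)
        (by rw [← mul_assoc, ← hf]; exact hnl _ ha')
      rw [hf a, ← h2, hf, mul_assoc]
    have hlt : τ lm = lm := by
      have ht : τ zt = zt := hτ
      rw [lm, map_add, map_one, ht]
    rw [map_div₀, map_prod, map_pow, hlt]
    rw [Finset.prod_congr rfl fun i _ => h1 (c i) (hc.nz i)]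
    have h3 := gauss_quarter hG hc (-1) (fun a => gg (em a / em q.1)) hper hw hχ
    rw [neg_one_mul] at h3
    have h4 : c4 q χ = qs iO (Ideal.span {q.1}) χ := rfl
    rw [h4]
    rw [h3, mul_div_assoc]

/-! ### The number attached to the unit part -/

theorem L4_empty (k : ZMod 4) : L4 k ∅ 1 * em (f4 k * DDq ∅) / Om = La4 k ∅ / Om := by
  rw [La4, mul_comm]

theorem real_of_sq {x : ℂ} {r : ℝ} (hr : 0 ≤ r) (h : x ^ 2 = (r : ℂ)) : ∃ y : ℝ, x = y := by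
  have h1 : x ^ 2 = ((√r : ℝ) : ℂ) ^ 2 := by
    rw [h, ← Complex.ofReal_pow, Real.sq_sqrt hr]
  rcases sq_eq_sq_iff_eq_or_eq_neg.1 h1 with h2 | h2
  · exact ⟨_, h2⟩
  · exact ⟨-√r, by rw [h2]; push_cast; rfl⟩

/-- **The value of the character sum at the base point.** -/
theorem norm_PO_base {c : ℂ} (hc : c ^ 2 = -1) : ‖PO c (pe ^ 6)‖ ^ 2 = 16 := by
  obtain ⟨s, hs1, hs⟩ := HH_sign (hq := q4)
  have h0 : 2 * (lm ^ 2 * pe ^ 6) ∉ PP.lattice := by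
    rw [lm2_pe6]
    exact two_pe4_notMem
  have h1 := PO_sq hc h0 (hs _ h0)
  have h2 := X_pe4 (hq := q4)
  have h3 := gg_sq_mul two_pe4_notMem
  have hX0 := X_ne two_pe4_notMem
  rw [lm2_pe6] at h1
  obtain ⟨x, hx⟩ : ∃ x, x = X (pe ^ 4) := ⟨_, rfl⟩
  obtain ⟨g, hg⟩ : ∃ g, g = gg (pe ^ 4) := ⟨_, rfl⟩
  obtain ⟨P, hP⟩ : ∃ P, P = PO c (pe ^ 6) := ⟨_, rfl⟩
  rw [← hx] at h1 h2 h3 hX0
  rw [← hg] at h1 h3
  rw [← hP] at h1 ⊢
  have hg2 : g ^ 2 = 2 := by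
    apply mul_right_cancel₀ hX0
    linear_combination h3 + h2
  obtain ⟨g', hg'⟩ := real_of_sq (r := 2) (by norm_num) (by rw [hg2]; norm_num)
  obtain ⟨x', hx'⟩ : ∃ y : ℝ, x = y := by
    obtain ⟨y, hy⟩ := real_of_sq (x := x - 1) (r := 2) (by norm_num) (by
      push_cast
      linear_combination h2)
    exact ⟨y + 1, by push_cast; linear_combination hy⟩
  obtain ⟨s', hs'⟩ := real_of_sq (r := 1) (by norm_num) (by rw [hs1]; norm_num)
  have hxr : x' ^ 2 = 2 * x' + 1 := by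
    rw [hx'] at h2
    exact_mod_cast h2
  have hgr : g' ^ 2 = 2 := by
    rw [hg'] at hg2
    exact_mod_cast hg2
  have hsr : s' ^ 2 = 1 := by
    rw [hs'] at hs1
    exact_mod_cast hs1
  -- the absolute value of the right side
  have hnc : ∀ a b : ℝ, ‖(a : ℂ) - c * b‖ ^ 2 = a ^ 2 + b ^ 2 := by
    intro a b
    have hI : c = Complex.I ∨ c = -Complex.I := by
      refine sq_eq_sq_iff_eq_or_eq_neg.1 ?_
      rw [hc, Complex.I_sq]
    rcases hI with rfl | rfl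
    · rw [← Complex.normSq_eq_norm_sq, Complex.normSq_apply]
      simp
      ring
    · rw [← Complex.normSq_eq_norm_sq, Complex.normSq_apply]
      simp
      ring
  have h4 : P ^ 2 * x = -8 * (((x' + 1 : ℝ) : ℂ) - c * ((s' * g' * x' : ℝ) : ℂ)) := by
    rw [h1, h2, hx', hg', hs']
    push_cast
    ring
  have h5 := congrArg (fun z => ‖z‖ ^ 2) h4
  simp only [norm_mul, norm_pow, norm_neg, mul_pow] at h5
  rw [hnc] at h5
  have h8 : ‖(8 : ℂ)‖ = 8 := by norm_num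
  have hxn : ‖x‖ ^ 2 = x' ^ 2 := by
    rw [hx', Complex.norm_real, Real.norm_eq_abs, sq_abs]
  rw [h8, hxn] at h5
  have h6 : (x' + 1) ^ 2 + (s' * g' * x') ^ 2 = 4 * x' ^ 2 := by
    have e1 : (s' * g' * x') ^ 2 = 2 * x' ^ 2 := by
      linear_combination (g' ^ 2 * x' ^ 2) * hsr + x' ^ 2 * hgr
    rw [e1]
    linear_combination -hxr
  rw [h6] at h5
  have hx0 : x' ^ 2 ≠ 0 := by
    apply pow_ne_zero
    rintro rfl
    norm_num at hxr
  have h7 : (‖P‖ ^ 2) ^ 2 = 16 ^ 2 := by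
    apply mul_right_cancel₀ hx0
    linear_combination h5
  exact (pow_left_inj₀ (by positivity) (by norm_num) (by norm_num)).1 h7

theorem gg_pe4_sq : gg (pe ^ 4) ^ 2 = 2 := by
  apply mul_right_cancel₀ (X_ne two_pe4_notMem)
  linear_combination gg_sq_mul two_pe4_notMem + X_pe4 (hq := q4)

theorem rat4_e4_sq {k : ZMod 4} (h0 : k ≠ 0) (h2 : k ≠ 2) : e4 k ^ 2 = -1 := by
  have h : ∀ k : ZMod 4, k ≠ 0 → k ≠ 2 → k + k = 2 := by decide
  rw [← e4_two, ← h k h0 h2, e4_add, sq]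

theorem norm_La4_odd {k : ZMod 4} (h0 : k ≠ 0) (h2 : k ≠ 2) : ‖La4 k ∅ / Om‖ ^ 2 = 16 := by
  have hO := Om_ne_zero
  have e : La4 k ∅ / Om = -PO (e4 k) (pe ^ 6) := by
    rw [La4_empty_odd h0 h2, PO]
    field_simp
  rw [e, norm_neg]
  exact norm_PO_base (rat4_e4_sq h0 h2)

theorem norm_La4_two : ‖La4 2 ∅ / Om‖ ^ 2 = 2 := by
  have hO := Om_ne_zero
  have e : La4 2 ∅ / Om = -gg (pe ^ 4) := by
    rw [La4_empty_two]
    field_simp
  rw [e, norm_neg, ← norm_pow, gg_pe4_sq]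
  norm_num

/-- **The comparison number.** -/
theorem Rat4_unit (k : ZMod 4) : ∃ H0 : ℂ, H0 ≠ 0 ∧ (∃ r : ℚ, ‖H0‖ ^ 2 = r) ∧
    ∀ (τ : ℂ ≃+* ℂ) (_ : Rq.Fix τ) (χ : 𝓞 K4) (M : ℕ), 0 < M → f4 k ∣ (M : 𝓞 K4) →
      lam ^ 3 ∣ χ - 1 → IsCoprime χ (M : 𝓞 K4) →
      (∀ a : 𝓞 K4, τ (ev (em a / M)) = ev (em (χ * a) / M)) → th4 k χ * τ H0 = H0 := by
  by_cases hk : k = 0
  · subst hk
    refine ⟨1, one_ne_zero, ⟨1, by norm_num⟩, fun τ _ χ M _ _ _ _ _ => ?_⟩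
    rw [map_one, mul_one, th4_zero]
  · obtain ⟨r, hr0, hr⟩ : ∃ r : ℚ, r ≠ 0 ∧ ‖La4 k ∅ / Om‖ ^ 2 = r := by
      by_cases h2 : k = 2
      · subst h2
        exact ⟨2, by norm_num, by rw [norm_La4_two]; norm_num⟩
      · exact ⟨16, by norm_num, by rw [norm_La4_odd hk h2]; norm_num⟩
    refine ⟨La4 k ∅ / Om, ?_, ⟨r, hr⟩, ?_⟩
    · intro h0
      rw [h0, norm_zero] at hr
      apply hr0
      exact_mod_cast (by rw [← hr]; norm_num : (r : ℝ) = 0)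
    · intro τ hτ χ M hM hd hχ3 hχ hev
      have h1 := Rat4_sum (X4_chr k ∅) hM (by rwa [DDq_empty, mul_one]) hχ3 hχ hev (X4_fix hτ k ∅)
      rw [X4_eq, Finset.prod_empty, mul_one] at h1
      have h2 : LG (lam ^ 3) (X4 k ∅) 1 * em (f4 k * DDq ∅) / Om = La4 k ∅ / Om := L4_empty k
      rw [h2] at h1
      exact h1

theorem dvd_Nz4 (x : 𝓞 K4) : x ∣ (Nz x : 𝓞 K4) := by
  have h := Ideal.absNorm_mem (Ideal.span {x})
  rw [Ideal.absNorm_span_singleton, Ideal.mem_span_singleton] at h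
  exact h

theorem norm_em_DDq (S : Finset Pg) : ‖em (DDq S)‖ = ∏ q ∈ S, ‖em q.1‖ := by
  classical
  induction S using Finset.induction_on with
  | empty => rw [DDq_empty, Finset.prod_empty, em_one, norm_one]
  | insert q S hq ih =>
    have e : DDq (insert q S) = q.1 * DDq S := Finset.prod_insert hq
    rw [e, Finset.prod_insert hq, em_mul, norm_mul, ih]

/-- **The rationality of the L-quotient.** -/
theorem crat4 (k : ZMod 4) (S : Finset Pg) :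
    ∃ q : ℚ, ‖L4 k S 1‖ ^ 2 * ‖em (DDq S)‖ ^ (1 / 2 : ℝ) = (q : ℝ) * ‖Om‖ ^ 2 := by
  classical
  choose hh hh0 hhn hhτ using Rat4_exists
  obtain ⟨H0, hH0, ⟨r, hr⟩, hτ0⟩ := Rat4_unit k
  have hX := X4_chr k S
  have hO := Om_ne_zero
  obtain ⟨ν, hν⟩ : ∃ ν, ν = f4 k * DDq S := ⟨_, rfl⟩
  rw [← hν] at hX
  have hν0 : ν ≠ 0 := hX.ne
  have hνe := em_ne hν0
  obtain ⟨H, hH⟩ : ∃ H : ℂ, H = L4 k S 1 * em ν / Om := ⟨_, rfl⟩
  obtain ⟨P, hP⟩ : ∃ P : ℂ, P = ∏ q ∈ S, hh q := ⟨_, rfl⟩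
  have hP0 : P ≠ 0 := by
    rw [hP]
    exact Finset.prod_ne_zero_iff.2 fun q _ => hh0 q
  -- the quotient is in `K`
  obtain ⟨x, hx⟩ : ∃ x : K, embK x = H / (P * H0) := by
    refine Rg.mem_K fun τ hτ => ?_
    obtain ⟨M, hM⟩ : ∃ M : ℕ, M = Nz ν := ⟨_, rfl⟩
    have hM0 : 0 < M := by
      have : Nz ν ≠ 0 := fun h0 => hν0 (Nz_eq_zero.1 h0)
      omega
    have hνM : ν ∣ (M : 𝓞 K4) := by
      rw [hM]
      exact dvd_Nz4 ν
    obtain ⟨χ, h3, hχ, hrel, hev⟩ := exists_act4 hτ M hM0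
      (((f4_dvd k).trans (Dvd.intro _ hν.symm)).trans hνM)
    have t1 := Rat4_sum hX hM0 hνM h3 hχ hev (X4_fix hτ k S)
    have t2 := hτ0 τ hτ χ M hM0 ((Dvd.intro _ hν.symm).trans hνM) h3 hχ hev
    have hqM : ∀ q ∈ S, q.1 ∣ (M : 𝓞 K4) := by
      intro q hq
      refine Dvd.dvd.trans ?_ hνM
      rw [hν]
      exact (Finset.dvd_prod_of_mem (fun q : Pg => q.1) hq).mul_left _
    have hqχ : ∀ q ∈ S, ¬ q.1 ∣ χ := by
      intro q hq h2
      exact q.2.1.not_isUnit (hχ.isUnit_of_dvd' h2 (hqM q hq))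
    have t3 : (∏ q ∈ S, e4 (c4 q χ)) * τ P = P := by
      rw [hP, map_prod, ← Finset.prod_mul_distrib]
      refine Finset.prod_congr rfl fun q hq => ?_
      rw [hhτ q τ hτ χ M hM0 (hqM q hq) hrel (hqχ q hq), ← mul_assoc, ← e4_add, add_neg_cancel,
        e4_zero, one_mul]
    have hE : ∏ q ∈ S, ch4 q χ = ∏ q ∈ S, e4 (c4 q χ) := by
      refine Finset.prod_congr rfl fun q hq => ?_
      rw [ch4_of_not (hqχ q hq)]
    have hE0 : ∏ q ∈ S, e4 (c4 q χ) ≠ 0 :=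
      Finset.prod_ne_zero_iff.2 fun q _ => e4_ne _
    have hth : th4 k χ ≠ 0 := e4_ne _
    rw [X4_eq, hE] at t1
    change th4 k χ * (∏ q ∈ S, e4 (c4 q χ)) * τ (L4 k S 1 * em ν / Om) =
      L4 k S 1 * em ν / Om at t1
    rw [← hH] at t1
    have hτH0 : τ H0 ≠ 0 := (map_ne_zero τ).2 hH0
    have hτP0 : τ P ≠ 0 := (map_ne_zero τ).2 hP0
    rw [map_div₀, map_mul, div_eq_div_iff (mul_ne_zero hτP0 hτH0) (mul_ne_zero hP0 hH0)]
    generalize (∏ q ∈ S, e4 (c4 q χ)) = E at *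
    generalize th4 k χ = th at *
    apply mul_left_cancel₀ (mul_ne_zero hth hE0)
    linear_combination P * H0 * t1 - H * P * t2 - H * th * τ H0 * t3
  have hHn : ‖H‖ ^ 2 = ((Algebra.norm ℚ x : ℚ) : ℝ) * (‖P‖ ^ 2 * r) := by
    have h1 : H = embK x * (P * H0) := by
      rw [hx, div_mul_cancel₀ _ (mul_ne_zero hP0 hH0)]
    have h2 := S3.norm_K x
    rw [Complex.mul_conj, Complex.normSq_eq_norm_sq] at h2
    have h3 : ((Algebra.norm ℚ x : ℚ) : ℝ) = ‖embK x‖ ^ 2 := by exact_mod_cast h2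
    rw [h1, norm_mul, norm_mul, h3, ← hr]
    ring
  -- the absolute values
  have hPn : (‖P‖ ^ 2) ^ 2 * ‖em (DDq S)‖ = 1 := by
    rw [hP, norm_em_DDq, _root_.norm_prod, ← Finset.prod_pow, ← Finset.prod_pow,
      ← Finset.prod_mul_distrib]
    exact Finset.prod_eq_one fun q _ => hhn q
  obtain ⟨δ, hδ⟩ : ∃ δ : ℝ, δ = ‖em (DDq S)‖ := ⟨_, rfl⟩
  have hδ0 : 0 ≤ δ := by rw [hδ]; exact norm_nonneg _
  obtain ⟨d, hd⟩ : ∃ d : ℝ, d = δ ^ (1 / 2 : ℝ) := ⟨_, rfl⟩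
  have hd0 : 0 ≤ d := by rw [hd]; exact Real.rpow_nonneg hδ0 _
  have hd2 : d ^ 2 = δ := by
    rw [hd, ← Real.rpow_natCast, ← Real.rpow_mul hδ0]
    norm_num
  rw [← hδ] at hPn ⊢
  rw [← hd]
  have hpd : ‖P‖ ^ 2 * d = 1 := by
    have h1 : (‖P‖ ^ 2 * d) ^ 2 = 1 ^ 2 := by
      rw [mul_pow, hd2, hPn, one_pow]
    exact (pow_left_inj₀ (by positivity) (by norm_num) (by norm_num)).1 h1
  have hL : ‖L4 k S 1‖ ^ 2 * ‖em ν‖ ^ 2 = ‖H‖ ^ 2 * ‖Om‖ ^ 2 := by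
    have h1 : L4 k S 1 * em ν = H * Om := by
      rw [hH, div_mul_cancel₀ _ hO]
    rw [← mul_pow, ← norm_mul, h1, norm_mul, mul_pow]
  refine ⟨(Algebra.norm ℚ x) * r / (Nz ν : ℕ), ?_⟩
  have hν2 : ‖em ν‖ ^ 2 ≠ 0 := pow_ne_zero 2 (norm_ne_zero_iff.2 hνe)
  have hNz : ((Nz ν : ℕ) : ℝ) = ‖em ν‖ ^ 2 := Nz_eq ν
  push_cast
  rw [hNz, div_mul_eq_mul_div, eq_div_iff hν2]
  linear_combination d * hL + d * ‖Om‖ ^ 2 * hHn +
    ((Algebra.norm ℚ x : ℚ) : ℝ) * r * ‖Om‖ ^ 2 * hpd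

end

end Pool.Agent.Lib.MP_1a91b9_ntQ
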