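import Pool.Agent.Lib.MP_1a91b9_ntQ.A.Rat4D
import Pool.Agent.Lib.MP_1a91b9_ntQ.A.Ind4

/-!
# Quartic twists, part A, file Rat4N: the absolute value of `L4 k S 1` in terms of `nu4 k S`

`4 ‖D‖ ^ 2 ‖L4 k S 1‖ ^ 2 = 2 ^ |S| ‖nu4 k S‖ ^ 2 ‖Om‖ ^ 2`.
-/

set_option autoImplicit false

namespace Pool.Agent.Lib.MP_1a91b9_ntQ

open NumberField IsDedekindDomain Pool.Agent.Lib.MP_1a91b9_nuT Pool.Agent.Lib.MP_1a91b9_nuT.S3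
  Pool.Agent.Lib.MP_1a91b9_nuT.Ell

noncomputable section

theorem norm_gg_pe3 : ‖gg (pe ^ 3)‖ ^ 2 = 2 := by
  rw [← norm_pow, gg_sq two_pe3_notMem, lm_pe3, X_pe2, norm_mul, norm_mul, norm_zt, mul_one]
  norm_num

theorem norm_La4_zero : ‖La4 0 ∅ / Om‖ ^ 2 = 1 / 2 := by
  have hO := Om_ne_zero
  have e : La4 0 ∅ / Om = -gg (pe ^ 3) / 2 := by
    rw [La4_empty_zero, div_eq_div_iff hO two_ne_zero]
    linear_combination two_E1_pe3 (hq := q4)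
  rw [e, norm_div, norm_neg, div_pow, norm_gg_pe3]
  norm_num

theorem norm_em_lam_pow (n : ℕ) : ‖em (lam ^ n)‖ ^ 2 = 2 ^ n := by
  rw [em_pow, em_lam, norm_pow, ← pow_mul, mul_comm n 2, pow_mul, norm_lm_sq]

/-- The comparison of the unit parts. -/
theorem unit_norm4 (k : ZMod 4) : 4 * (‖La4 k ∅ / Om‖ ^ 2 * 2 ^ ek k) = ‖em (f4 k)‖ ^ 2 := by
  by_cases h0 : k = 0
  · subst h0
    rw [norm_La4_zero, f4_zero, norm_em_lam_pow, ek, if_pos rfl]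
    norm_num
  · by_cases h2 : k = 2
    · subst h2
      rw [norm_La4_two, f4_two, norm_em_lam_pow, ek, if_neg h0, if_pos rfl]
      norm_num
    · rw [norm_La4_odd h0 h2, f4_odd h0 h2, norm_em_lam_pow, ek, if_neg h0, if_neg h2]
      norm_num

/-- **The absolute value of the L-value.** -/
theorem norm_L4 (k : ZMod 4) (S : Finset Pg) :
    ‖L4 k S 1‖ ^ 2 * (4 * ‖em (DDq S)‖ ^ 2) = ‖nu4 k S‖ ^ 2 * 2 ^ S.card * ‖Om‖ ^ 2 := by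
  have hO := Om_ne_zero
  have hl := lm_ne
  have h0 := La4_empty_ne k
  have h1 : em (f4 k * DDq S) * L4 k S 1 = nu4 k S * (La4 k ∅ * lm ^ (S.card + ek k)) := by
    rw [nu4, div_mul_cancel₀ _ (mul_ne_zero h0 (pow_ne_zero _ hl)), La4]
  have h2 := congrArg (fun z => ‖z‖ ^ 2) h1
  simp only [norm_mul, mul_pow] at h2
  rw [em_mul, norm_mul, mul_pow, ← unit_norm4 k, norm_div, div_pow] at h2
  have h3 : ‖lm ^ (S.card + ek k)‖ ^ 2 = 2 ^ S.card * 2 ^ ek k := by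
    rw [norm_pow, ← pow_mul, mul_comm _ 2, pow_mul, norm_lm_sq, pow_add]
  rw [h3] at h2
  have hOn : ‖Om‖ ^ 2 ≠ 0 := pow_ne_zero 2 (norm_ne_zero_iff.2 hO)
  have hLn : ‖La4 k ∅‖ ^ 2 ≠ 0 := pow_ne_zero 2 (norm_ne_zero_iff.2 h0)
  have h4 : (2 : ℝ) ^ ek k ≠ 0 := by positivity
  have h5 : ‖La4 k ∅‖ ^ 2 / ‖Om‖ ^ 2 * 2 ^ ek k ≠ 0 :=
    mul_ne_zero (div_ne_zero hLn hOn) h4
  apply mul_right_cancel₀ h5
  have h6 : ‖La4 k ∅‖ ^ 2 = ‖La4 k ∅‖ ^ 2 / ‖Om‖ ^ 2 * ‖Om‖ ^ 2 := by field_simp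
  calc _ = 4 * (‖La4 k ∅‖ ^ 2 / ‖Om‖ ^ 2 * 2 ^ ek k) * ‖em (DDq S)‖ ^ 2 * ‖L4 k S 1‖ ^ 2 := by ring
    _ = ‖nu4 k S‖ ^ 2 * (‖La4 k ∅‖ ^ 2 * (2 ^ S.card * 2 ^ ek k)) := h2
    _ = _ := by
      rw [h6]
      field_simp

end

end Pool.Agent.Lib.MP_1a91b9_ntQ
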