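import Pool.Agent.Lib.MP_1a91b9_ntQ.A.Rat4N
import Pool.Agent.Lib.MP_1a91b9_ntQ.A.IndC
import Pool.Agent.Lib.MP_1a91b9_ntQ.A.SerC

/-!
# Quartic twists, part A, file Rat5: the rationality of the L-quotient of `y² = x³ - δ² x`

`crat5 : ∃ q : ℚ, ‖LC k j S 1‖ ^ 2 * (‖lm‖ ^ j * ‖em (DDq S)‖) = q * ‖Om‖ ^ 2` and the absolute value of
`LC k j S 1` in terms of `nuC k j S`.
-/

set_option autoImplicit false
set_option linter.unusedSectionVars false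

namespace Pool.Agent.Lib.MP_1a91b9_ntQ

open NumberField IsDedekindDomain Pool.Agent.Lib.MP_1a91b9_nuT Pool.Agent.Lib.MP_1a91b9_nuT.S3
  Pool.Agent.Lib.MP_1a91b9_nuT.Ell
open Pool.Agent.Lib.MP_1a91b9_nuX.HQ (w G4 qs)
open Pool.Agent.Lib.MP_1a91b9_nuT.Rq (ev Rel)

noncomputable section

/-! ### The Galois action -/

theorem e2_cases (t : ZMod 2) : e2 t = 1 ∨ e2 t = -1 := by
  exact mul_self_eq_one_iff.1 (e2_mul_self t)

theorem e2_fix (τ : ℂ ≃+* ℂ) (t : ZMod 2) : τ (e2 t) = e2 t := by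
  rcases e2_cases t with h | h
  · rw [h, map_one]
  · rw [h, map_neg, map_one]

theorem XC_fix (τ : ℂ ≃+* ℂ) (k j : ZMod 2) (S : Finset Pg) (a : 𝓞 K4) :
    τ (XC k j S a) = XC k j S a := by
  have h1 : ∀ q : Pg, τ (chC q a) = chC q a := by
    intro q
    by_cases h : q.1 ∣ a
    · rw [chC_of_dvd h, map_zero]
    · rw [chC_of_not h, e2_fix]
  rw [XC_eq, map_mul, map_prod, thC, e2_fix]
  congr 1
  exact Finset.prod_congr rfl fun q _ => h1 q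

/-- **The number attached to a prime.** -/
theorem Rat5_exists (q : Pg) : ∃ h : ℂ, h ≠ 0 ∧ ‖h‖ ^ 2 * ‖em q.1‖ = 1 ∧
    ∀ (τ : ℂ ≃+* ℂ) (_ : Rq.Fix τ) (χ : 𝓞 K4) (M : ℕ), 0 < M → q.1 ∣ (M : 𝓞 K4) →
      (∀ a : 𝓞 K4, Rel τ (em a / M) (em (χ * a) / M)) → ¬ q.1 ∣ χ →
        τ h = e2 (c2 q χ) * h := by
  obtain ⟨h, h0, h1, h2⟩ := Rat4_exists q
  refine ⟨h ^ 2, pow_ne_zero 2 h0, ?_, ?_⟩
  · rw [norm_pow]
    exact h1
  · intro τ hτ χ M hM hq hR hχ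
    rw [map_pow, h2 τ hτ χ M hM hq hR hχ, mul_pow]
    congr 1
    have e : e4 (-c4 q χ) ^ 2 = e4 (2 * -c4 q χ) := by
      rw [two_mul, e4_add, sq]
    have e1 : md (-c4 q χ) = c2 q χ := by
      rw [map_neg]
      change -c2 q χ = c2 q χ
      have : ∀ t : ZMod 2, -t = t := by decide
      exact this _
    rw [e, e4_two_mul, e1]

/-! ### The values for the empty set -/

private theorem lm_pe (n : ℕ) : lm * pe ^ (n + 1) = pe ^ n := by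
  linear_combination pe ^ n * lm_mul_pe

theorem norm_LaC_00 : ‖LaC 0 0 ∅ / Om‖ ^ 2 = 1 / 2 := by
  have hO := Om_ne_zero
  have e : LaC 0 0 ∅ / Om = -gg (pe ^ 3) / 2 := by
    rw [LaC_empty, inv_fC, nC_00, PhC_00, div_eq_div_iff hO two_ne_zero]
    linear_combination two_E1_pe3 (hq := q4)
  rw [e, norm_div, norm_neg, div_pow, norm_gg_pe3]
  norm_num

theorem norm_LaC_10 : ‖LaC 1 0 ∅ / Om‖ ^ 2 = 2 := by
  have hO := Om_ne_zero
  have e : LaC 1 0 ∅ / Om = -gg (pe ^ 4) := by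
    rw [LaC_empty, inv_fC, nC_10, PhC_10]
    field_simp
  rw [e, norm_neg, ← norm_pow, gg_pe4_sq]
  norm_num

theorem norm_LaC_1 (k : ZMod 2) : ‖LaC k 1 ∅ / Om‖ ^ 2 * ‖lm‖ = 8 := by
  have hO := Om_ne_zero
  have h5 : 2 * (lm * pe ^ 5) ∉ PP.lattice := by
    rw [lm_pe 4]
    exact two_pe4_notMem
  have e1 := PhC_sq_1 k two_pe5_notMem h5
  have e2' : lm ^ 2 * pe ^ 5 = pe ^ 3 := by
    linear_combination (lm * pe ^ 4) * lm_mul_pe + pe ^ 3 * lm_mul_pe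
  rw [e2', X_pe3] at e1
  have e3 : (LaC k 1 ∅ / Om) ^ 2 = 4 * (zt + e2 k) := by
    rw [LaC_empty, inv_fC, nC_1, div_pow, e1]
    field_simp
    ring
  have e4' : ‖zt + e2 k‖ ^ 2 = 2 := by
    have hz : zt = Complex.I := zt_eq
    rw [hz]
    rcases e2_cases k with h | h
    · rw [h, ← Complex.normSq_eq_norm_sq, Complex.normSq_apply]
      norm_num
    · rw [h, ← Complex.normSq_eq_norm_sq, Complex.normSq_apply]
      norm_num
  have e5 : (‖LaC k 1 ∅ / Om‖ ^ 2 * ‖lm‖) ^ 2 = 8 ^ 2 := by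
    have e6 : ‖LaC k 1 ∅ / Om‖ ^ 2 = 4 * ‖zt + e2 k‖ := by
      rw [← norm_pow, e3, norm_mul]
      norm_num
    rw [e6, mul_pow, mul_pow, e4', norm_lm_sq]
    norm_num
  exact (pow_left_inj₀ (by positivity) (by norm_num) (by norm_num)).1 e5

/-- the comparison of the unit parts: `1 / 2`, `2`, `8` -/
def rC (k j : ZMod 2) : ℚ := if j = 1 then 8 else if k = 1 then 2 else 1 / 2

theorem norm_LaC (k j : ZMod 2) : ‖LaC k j ∅ / Om‖ ^ 2 * ‖lm‖ ^ j.val = rC k j := by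
  rcases kj_cases k j with ⟨rfl, rfl⟩ | ⟨rfl, rfl⟩ | rfl
  · have h : rC 0 0 = 1 / 2 := by
      unfold rC
      rw [if_neg (by decide), if_neg (by decide)]
    rw [h, norm_LaC_00, ZMod.val_zero, pow_zero]
    norm_num
  · have h : rC 1 0 = 2 := by
      unfold rC
      rw [if_neg (by decide), if_pos rfl]
    rw [h, norm_LaC_10, ZMod.val_zero, pow_zero]
    norm_num
  · have h : rC k 1 = 8 := by
      unfold rC
      rw [if_pos rfl]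
    have h1 : (1 : ZMod 2).val = 1 := rfl
    rw [h, h1, pow_one, norm_LaC_1]
    norm_num

/-! ### The rationality -/

/-- **The rationality of the L-quotient.** -/
theorem crat5 (k j : ZMod 2) (S : Finset Pg) :
    ∃ q : ℚ, ‖LC k j S 1‖ ^ 2 * (‖lm‖ ^ j.val * ‖em (DDq S)‖) = (q : ℝ) * ‖Om‖ ^ 2 := by
  classical
  choose hh hh0 hhn hhτ using Rat5_exists
  have hX := XC_chr k j S
  have hO := Om_ne_zero
  obtain ⟨ν, hν⟩ : ∃ ν, ν = fC k j * DDq S := ⟨_, rfl⟩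
  rw [← hν] at hX
  have hν0 : ν ≠ 0 := hX.ne
  have hνe := em_ne hν0
  obtain ⟨H0, hH0e⟩ : ∃ H0 : ℂ, H0 = LaC k j ∅ / Om := ⟨_, rfl⟩
  have hH0 : H0 ≠ 0 := by
    rw [hH0e]
    exact div_ne_zero (LaC_empty_ne k j) hO
  obtain ⟨H, hH⟩ : ∃ H : ℂ, H = LC k j S 1 * em ν / Om := ⟨_, rfl⟩
  obtain ⟨P, hP⟩ : ∃ P : ℂ, P = ∏ q ∈ S, hh q := ⟨_, rfl⟩
  have hP0 : P ≠ 0 := by
    rw [hP]
    exact Finset.prod_ne_zero_iff.2 fun q _ => hh0 q
  -- the quotient is in `K`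
  obtain ⟨x, hx⟩ : ∃ x : K, embK x = H / (P * H0) := by
    refine Rg.mem_K fun τ hτ => ?_
    obtain ⟨M, hM⟩ : ∃ M : ℕ, M = Nz ν := ⟨_, rfl⟩
    have hM0 : 0 < M := by
      have : Nz ν ≠ 0 := fun h0 => hν0 (Nz_eq_zero.1 h0)
      omega
    have hνM : ν ∣ (M : 𝓞 K4) := by
      rw [hM]
      exact dvd_Nz4 ν
    obtain ⟨χ, h3, hχ, hrel, hev⟩ := exists_act4 hτ M hM0
      (((fC_dvd k j).trans (Dvd.intro _ hν.symm)).trans hνM)
    have t1 := Rat4_sum hX hM0 hνM h3 hχ hev (XC_fix τ k j S)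
    have t2 := Rat4_sum (XC_chr k j ∅) hM0 (by
      rw [DDq_empty, mul_one]
      exact (Dvd.intro _ hν.symm).trans hνM) h3 hχ hev (XC_fix τ k j ∅)
    rw [XC_eq, Finset.prod_empty, mul_one] at t2
    have t2' : LG (lam ^ 3) (XC k j ∅) 1 * em (fC k j * DDq ∅) / Om = H0 := by
      rw [hH0e, LaC, mul_comm]
      rfl
    rw [t2'] at t2
    have hqM : ∀ q ∈ S, q.1 ∣ (M : 𝓞 K4) := by
      intro q hq
      refine Dvd.dvd.trans ?_ hνM
      rw [hν]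
      exact (Finset.dvd_prod_of_mem (fun q : Pg => q.1) hq).mul_left _
    have hqχ : ∀ q ∈ S, ¬ q.1 ∣ χ := by
      intro q hq h2
      exact q.2.1.not_isUnit (hχ.isUnit_of_dvd' h2 (hqM q hq))
    have t3 : (∏ q ∈ S, e2 (c2 q χ)) * τ P = P := by
      rw [hP, map_prod, ← Finset.prod_mul_distrib]
      refine Finset.prod_congr rfl fun q hq => ?_
      rw [hhτ q τ hτ χ M hM0 (hqM q hq) hrel (hqχ q hq), ← mul_assoc, e2_mul_self, one_mul]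
    have hE : ∏ q ∈ S, chC q χ = ∏ q ∈ S, e2 (c2 q χ) := by
      refine Finset.prod_congr rfl fun q hq => ?_
      rw [chC_of_not (hqχ q hq)]
    have hE0 : ∏ q ∈ S, e2 (c2 q χ) ≠ 0 := Finset.prod_ne_zero_iff.2 fun q _ => by
      rcases e2_cases (c2 q χ) with h | h <;> rw [h] <;> norm_num
    have hth : thC k j χ ≠ 0 := thC_ne k j χ
    rw [XC_eq, hE] at t1
    change thC k j χ * (∏ q ∈ S, e2 (c2 q χ)) * τ (LC k j S 1 * em ν / Om) =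
      LC k j S 1 * em ν / Om at t1
    rw [← hH] at t1
    have hτH0 : τ H0 ≠ 0 := (map_ne_zero τ).2 hH0
    have hτP0 : τ P ≠ 0 := (map_ne_zero τ).2 hP0
    rw [map_div₀, map_mul, div_eq_div_iff (mul_ne_zero hτP0 hτH0) (mul_ne_zero hP0 hH0)]
    generalize (∏ q ∈ S, e2 (c2 q χ)) = E at *
    generalize thC k j χ = th at *
    apply mul_left_cancel₀ (mul_ne_zero hth hE0)
    linear_combination P * H0 * t1 - H * P * t2 - H * th * τ H0 * t3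
  have hHn : ‖H‖ ^ 2 = ((Algebra.norm ℚ x : ℚ) : ℝ) * (‖P‖ ^ 2 * ‖H0‖ ^ 2) := by
    have h1 : H = embK x * (P * H0) := by
      rw [hx, div_mul_cancel₀ _ (mul_ne_zero hP0 hH0)]
    have h2 := S3.norm_K x
    rw [Complex.mul_conj, Complex.normSq_eq_norm_sq] at h2
    have h3 : ((Algebra.norm ℚ x : ℚ) : ℝ) = ‖embK x‖ ^ 2 := by exact_mod_cast h2
    rw [h1, norm_mul, norm_mul, h3]
    ring
  have hPn : ‖P‖ ^ 2 * ‖em (DDq S)‖ = 1 := by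
    rw [hP, norm_em_DDq, _root_.norm_prod, ← Finset.prod_pow, ← Finset.prod_mul_distrib]
    exact Finset.prod_eq_one fun q _ => hhn q
  have hL : ‖LC k j S 1‖ ^ 2 * ‖em ν‖ ^ 2 = ‖H‖ ^ 2 * ‖Om‖ ^ 2 := by
    have h1 : LC k j S 1 * em ν = H * Om := by
      rw [hH, div_mul_cancel₀ _ hO]
    rw [← mul_pow, ← norm_mul, h1, norm_mul, mul_pow]
  have hr := norm_LaC k j
  rw [← hH0e] at hr
  refine ⟨(Algebra.norm ℚ x) * rC k j / (Nz ν : ℕ), ?_⟩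
  have hν2 : ‖em ν‖ ^ 2 ≠ 0 := pow_ne_zero 2 (norm_ne_zero_iff.2 hνe)
  have hNz : ((Nz ν : ℕ) : ℝ) = ‖em ν‖ ^ 2 := Nz_eq ν
  push_cast
  rw [hNz, div_mul_eq_mul_div, eq_div_iff hν2, ← hr]
  linear_combination (‖lm‖ ^ j.val * ‖em (DDq S)‖) * hL +
    (‖lm‖ ^ j.val * ‖em (DDq S)‖ * ‖Om‖ ^ 2) * hHn +
    (((Algebra.norm ℚ x : ℚ) : ℝ) * ‖H0‖ ^ 2 * ‖lm‖ ^ j.val * ‖Om‖ ^ 2) * hPn

/-- **The absolute value of the L-value.** -/
theorem norm_LC (k j : ZMod 2) (S : Finset Pg) :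
    ‖LC k j S 1‖ ^ 2 * (‖lm‖ ^ j.val * (2 ^ (3 + nC k j) * ‖em (DDq S)‖ ^ 2)) =
      ‖nuC k j S‖ ^ 2 * 4 ^ S.card * rC k j * ‖Om‖ ^ 2 := by
  have hO := Om_ne_zero
  have h0 := LaC_empty_ne k j
  have h1 : em (fC k j * DDq S) * LC k j S 1 = nuC k j S * (2 ^ S.card * LaC k j ∅) := by
    rw [nuC, div_mul_cancel₀ _ (mul_ne_zero (pow_ne_zero _ two_ne_zero) h0), LaC]
  have h2 := congrArg (fun z => ‖z‖ ^ 2) h1
  simp only [norm_mul, mul_pow] at h2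
  rw [em_mul, norm_mul, mul_pow, fC, norm_em_lam_pow] at h2
  have h3 : (‖(2 : ℂ) ^ S.card‖) ^ 2 = 4 ^ S.card := by
    rw [norm_pow, ← pow_mul, mul_comm, pow_mul]
    norm_num
  rw [h3] at h2
  have hr := norm_LaC k j
  have h4 : ‖LaC k j ∅‖ ^ 2 = ‖LaC k j ∅ / Om‖ ^ 2 * ‖Om‖ ^ 2 := by
    rw [norm_div, div_pow, div_mul_cancel₀ _ (pow_ne_zero 2 (norm_ne_zero_iff.2 hO))]
  rw [h4] at h2
  rw [← hr]
  linear_combination ‖lm‖ ^ j.val * h2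

end

end Pool.Agent.Lib.MP_1a91b9_ntQ
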