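import Pool.Agent.Lib.MP_1a91b9_ntQ.A.RatE
import Pool.Agent.Lib.MP_1a91b9_ntQ.A.DefB

/-!
# Quartic twists, all fourth-power-free `D`, file RatB: the rationality of the L-quotient

`cratB : ∃ q : ℚ, ‖LB k j e S 1‖ ^ 2 * ‖em (DqB κ j e S)‖ ^ (1 / 2) = q * ‖Om‖ ^ 2` and the
absolute value of `LB` in terms of that of `LaB`.
-/

set_option autoImplicit false

namespace Pool.Agent.Lib.MP_1a91b9_ntQ

open NumberField IsDedekindDomain Pool.Agent.Lib.MP_1a91b9_nuT Pool.Agent.Lib.MP_1a91b9_nuT.S3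
  Pool.Agent.Lib.MP_1a91b9_nuT.Ell
open Pool.Agent.Lib.MP_1a91b9_nuX.HQ (w G4 qs)
open Pool.Agent.Lib.MP_1a91b9_nuT.Rq (ev Rel)

noncomputable section

/-! ### Absolute values -/

theorem norm_em_DDe (e : Pg → ZMod 4) (S : Finset Pg) :
    ‖em (DDe e S)‖ = ∏ q ∈ S, ‖em q.1‖ ^ (e q).val := by
  classical
  induction S using Finset.induction_on with
  | empty => rw [DDe_empty, Finset.prod_empty, em_one, norm_one]
  | insert q S hq ih =>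
    rw [DDe_insert hq, Finset.prod_insert hq, em_mul, em_pow, norm_mul, norm_pow, ih]

theorem norm_lm_eq : ‖lm‖ = 2 ^ (1 / 2 : ℝ) := by
  have h2 := norm_lm_sq
  rw [← Real.sqrt_eq_rpow, ← h2, Real.sqrt_sq (norm_nonneg _)]

theorem norm_DqB (κ : ZMod 4) (j : ℕ) (e : Pg → ZMod 4) (S : Finset Pg) :
    ‖em (DqB κ j e S)‖ ^ (1 / 2 : ℝ) = 2 ^ ((j : ℝ) / 4) * ‖em (DDe e S)‖ ^ (1 / 2 : ℝ) := by
  have h1 : ‖em (DqB κ j e S)‖ = ‖lm‖ ^ j * ‖em (DDe e S)‖ := by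
    rw [DqB, em_mul, em_mul, em_pow, em_pow, norm_mul, norm_mul, norm_pow, norm_pow, em_lam]
    have e1 : ‖em iO‖ = 1 := by
      rw [em_iO', norm_zt]
    rw [e1, one_pow, one_mul]
  have h2 : ((2 : ℝ) ^ (1 / 2 : ℝ)) ^ j = 2 ^ ((j : ℝ) / 2) := by
    rw [← Real.rpow_natCast, ← Real.rpow_mul (by norm_num)]
    congr 1
    ring
  rw [h1, norm_lm_eq, h2, Real.mul_rpow (by positivity) (norm_nonneg _),
    ← Real.rpow_mul (by norm_num)]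
  congr 2
  ring

/-! ### The rationality -/

/-- **The rationality of the L-quotient**, general form with exponents. -/
theorem cratB_gen {f : 𝓞 K4} {e : Pg → ZMod 4} {S : Finset Pg} {θ X : 𝓞 K4 → ℂ}
    (hX : Chr (lam ^ 3) (f * DDq S) X) (hXe : ∀ a, X a = θ a * ∏ q ∈ S, chE e q a)
    (hθ : ∀ τ : ℂ ≃+* ℂ, Rq.Fix τ → ∀ a, τ (θ a) = θ a) (hθ0 : ∀ a, θ a ≠ 0)
    {H0 : ℂ} (hH0 : H0 ≠ 0) {ρ : ℝ} {r : ℚ} (hr : ‖H0‖ ^ 2 * ρ = r)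
    (hτ0 : ∀ (τ : ℂ ≃+* ℂ) (_ : Rq.Fix τ) (χ : 𝓞 K4) (M : ℕ), 0 < M → lam ^ 7 ∣ (M : 𝓞 K4) →
      lam ^ 3 ∣ χ - 1 → IsCoprime χ (M : 𝓞 K4) →
      (∀ a : 𝓞 K4, τ (ev (em a / M)) = ev (em (χ * a) / M)) → θ χ * τ H0 = H0) :
    ∃ q : ℚ, ‖LG (lam ^ 3) X 1‖ ^ 2 * (‖em (DDe e S)‖ ^ (1 / 2 : ℝ) * ρ) =
      (q : ℝ) * ‖Om‖ ^ 2 := by
  classical
  choose hh hh0 hhn hhτ using Rat4_exists
  have hO := Om_ne_zero
  obtain ⟨ν, hν⟩ : ∃ ν, ν = f * DDq S := ⟨_, rfl⟩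
  rw [← hν] at hX
  have hν0 : ν ≠ 0 := hX.ne
  have hνe := em_ne hν0
  obtain ⟨L, hL'⟩ : ∃ L, L = LG (lam ^ 3) X 1 := ⟨_, rfl⟩
  rw [← hL']
  obtain ⟨H, hH⟩ : ∃ H : ℂ, H = L * em ν / Om := ⟨_, rfl⟩
  obtain ⟨P, hP⟩ : ∃ P : ℂ, P = ∏ q ∈ S, hh q ^ (e q).val := ⟨_, rfl⟩
  have hP0 : P ≠ 0 := by
    rw [hP]
    exact Finset.prod_ne_zero_iff.2 fun q _ => pow_ne_zero _ (hh0 q)
  have hfix : ∀ τ : ℂ ≃+* ℂ, Rq.Fix τ → ∀ a, τ (X a) = X a := by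
    intro τ hτ a
    have h1 : ∀ q : Pg, τ (chE e q a) = chE e q a := by
      intro q
      by_cases h : q.1 ∣ a
      · rw [chE_of_dvd e h, map_zero]
      · rw [chE_of_not e h, e4_fix hτ]
    rw [hXe, map_mul, map_prod, hθ τ hτ]
    congr 1
    exact Finset.prod_congr rfl fun q _ => h1 q
  -- the quotient is in `K`
  obtain ⟨x, hx⟩ : ∃ x : K, embK x = H / (P * H0) := by
    refine Rg.mem_K fun τ hτ => ?_
    obtain ⟨M, hM⟩ : ∃ M : ℕ, M = 16 * Nz ν := ⟨_, rfl⟩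
    have hM0 : 0 < M := by
      have : Nz ν ≠ 0 := fun h0 => hν0 (Nz_eq_zero.1 h0)
      omega
    have hνM : ν ∣ (M : 𝓞 K4) := by
      rw [hM]
      push_cast
      exact (dvd_Nz4 ν).mul_left _
    have hl7 : lam ^ 7 ∣ (M : 𝓞 K4) := by
      rw [hM]
      push_cast
      have e1 : (16 : 𝓞 K4) = lam ^ 7 * lam := by
        have h : lam ^ 7 * lam = (lam ^ 4) ^ 2 := by ring
        rw [h, lam_four]
        norm_num
      rw [e1, mul_assoc]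
      exact dvd_mul_right _ _
    obtain ⟨χ, h3, hχ, hrel, hev⟩ := exists_act4 hτ M hM0
      ((pow_dvd_pow lam (by norm_num : 3 ≤ 7)).trans hl7)
    have t1 := Rat4_sum hX hM0 hνM h3 hχ hev (hfix τ hτ)
    have t2 := hτ0 τ hτ χ M hM0 hl7 h3 hχ hev
    have hqM : ∀ q ∈ S, q.1 ∣ (M : 𝓞 K4) := by
      intro q hq
      refine Dvd.dvd.trans ?_ hνM
      rw [hν]
      exact (Finset.dvd_prod_of_mem (fun q : Pg => q.1) hq).mul_left _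
    have hqχ : ∀ q ∈ S, ¬ q.1 ∣ χ := by
      intro q hq h2
      exact q.2.1.not_isUnit (hχ.isUnit_of_dvd' h2 (hqM q hq))
    have t3 : (∏ q ∈ S, e4 (e q * c4 q χ)) * τ P = P := by
      rw [hP, map_prod, ← Finset.prod_mul_distrib]
      refine Finset.prod_congr rfl fun q hq => ?_
      have h4 : e4 (e q * c4 q χ) * e4 (-c4 q χ) ^ (e q).val = 1 := by
        rw [e4_pow, ZMod.natCast_zmod_val, ← e4_add]
        have e1 : e q * c4 q χ + e q * -c4 q χ = 0 := by ring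
        rw [e1, e4_zero]
      rw [map_pow, hhτ q τ hτ χ M hM0 (hqM q hq) hrel (hqχ q hq), mul_pow]
      linear_combination hh q ^ (e q).val * h4
    have hE : ∏ q ∈ S, chE e q χ = ∏ q ∈ S, e4 (e q * c4 q χ) := by
      refine Finset.prod_congr rfl fun q hq => ?_
      rw [chE_of_not e (hqχ q hq)]
    have hE0 : ∏ q ∈ S, e4 (e q * c4 q χ) ≠ 0 :=
      Finset.prod_ne_zero_iff.2 fun q _ => e4_ne _
    have hth : θ χ ≠ 0 := hθ0 χ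
    rw [hXe, hE, ← hL', ← hH] at t1
    have hτH0 : τ H0 ≠ 0 := (map_ne_zero τ).2 hH0
    have hτP0 : τ P ≠ 0 := (map_ne_zero τ).2 hP0
    rw [map_div₀, map_mul, div_eq_div_iff (mul_ne_zero hτP0 hτH0) (mul_ne_zero hP0 hH0)]
    generalize (∏ q ∈ S, e4 (e q * c4 q χ)) = E at *
    generalize θ χ = th at *
    apply mul_left_cancel₀ (mul_ne_zero hth hE0)
    linear_combination P * H0 * t1 - H * P * t2 - H * th * τ H0 * t3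
  have hHn : ‖H‖ ^ 2 * ρ = ((Algebra.norm ℚ x : ℚ) : ℝ) * (‖P‖ ^ 2 * r) := by
    have h1 : H = embK x * (P * H0) := by
      rw [hx, div_mul_cancel₀ _ (mul_ne_zero hP0 hH0)]
    have h2 := S3.norm_K x
    rw [Complex.mul_conj, Complex.normSq_eq_norm_sq] at h2
    have h3 : ((Algebra.norm ℚ x : ℚ) : ℝ) = ‖embK x‖ ^ 2 := by exact_mod_cast h2
    rw [h1, norm_mul, norm_mul, h3, ← hr]
    ring
  -- the absolute values
  have hPn : (‖P‖ ^ 2) ^ 2 * ‖em (DDe e S)‖ = 1 := by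
    rw [hP, norm_em_DDe, _root_.norm_prod, ← Finset.prod_pow, ← Finset.prod_pow,
      ← Finset.prod_mul_distrib]
    refine Finset.prod_eq_one fun q _ => ?_
    have h1 := congrArg (fun t : ℝ => t ^ (e q).val) (hhn q)
    simp only [one_pow, mul_pow] at h1
    rw [norm_pow, ← h1]
    ring
  obtain ⟨δ, hδ⟩ : ∃ δ : ℝ, δ = ‖em (DDe e S)‖ := ⟨_, rfl⟩
  have hδ0 : 0 ≤ δ := by rw [hδ]; exact norm_nonneg _
  obtain ⟨d, hd⟩ : ∃ d : ℝ, d = δ ^ (1 / 2 : ℝ) := ⟨_, rfl⟩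
  have hd0 : 0 ≤ d := by rw [hd]; exact Real.rpow_nonneg hδ0 _
  have hd2 : d ^ 2 = δ := by
    rw [hd, ← Real.rpow_natCast, ← Real.rpow_mul hδ0]
    norm_num
  rw [← hδ] at hPn ⊢
  rw [← hd]
  have hpd : ‖P‖ ^ 2 * d = 1 := by
    have h1 : (‖P‖ ^ 2 * d) ^ 2 = 1 ^ 2 := by
      rw [mul_pow, hd2, hPn, one_pow]
    exact (pow_left_inj₀ (by positivity) (by norm_num) (by norm_num)).1 h1
  have hL : ‖L‖ ^ 2 * ‖em ν‖ ^ 2 = ‖H‖ ^ 2 * ‖Om‖ ^ 2 := by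
    have h1 : L * em ν = H * Om := by
      rw [hH, div_mul_cancel₀ _ hO]
    rw [← mul_pow, ← norm_mul, h1, norm_mul, mul_pow]
  refine ⟨(Algebra.norm ℚ x) * r / (Nz ν : ℕ), ?_⟩
  have hν2 : ‖em ν‖ ^ 2 ≠ 0 := pow_ne_zero 2 (norm_ne_zero_iff.2 hνe)
  have hNz : ((Nz ν : ℕ) : ℝ) = ‖em ν‖ ^ 2 := Nz_eq ν
  push_cast
  rw [hNz, div_mul_eq_mul_div, eq_div_iff hν2]
  linear_combination (d * ρ) * hL + d * ‖Om‖ ^ 2 * hHn +
    ((Algebra.norm ℚ x : ℚ) : ℝ) * r * ‖Om‖ ^ 2 * hpd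

theorem thB_fix (k : ZMod 4) (j : ℕ) {τ : ℂ ≃+* ℂ} (hτ : Rq.Fix τ) (a : 𝓞 K4) :
    τ (thB k j a) = thB k j a := e4_fix hτ _

theorem thB_pow (k : ZMod 4) (j : ℕ) (x : 𝓞 K4) : thB k j x = th4 k x * thE 0 x ^ j := by
  rw [thB, thE, th4, zero_mul, zero_add, e4_pow, ← e4_add]

/-- **The rationality of the L-quotient** for `D = i ^ κ lam ^ j ∏ q ^ e`. -/
theorem cratB (κ k : ZMod 4) (j : ℕ) (e : Pg → ZMod 4) (S : Finset Pg) : ∃ q : ℚ,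
    ‖LB k j e S 1‖ ^ 2 * ‖em (DqB κ j e S)‖ ^ (1 / 2 : ℝ) = (q : ℝ) * ‖Om‖ ^ 2 := by
  obtain ⟨H4, hH4, ⟨r4, hr4⟩, hτ4⟩ := Rat4_unit k
  have hf4 : f4 k ∣ lam ^ 7 := by
    by_cases h0 : k = 0
    · subst h0
      rw [f4_zero]
      exact pow_dvd_pow _ (by norm_num)
    · by_cases h2 : k = 2
      · subst h2
        rw [f4_two]
        exact pow_dvd_pow _ (by norm_num)
      · rw [f4_odd h0 h2]
        exact pow_dvd_pow _ (by norm_num)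
  have hn := norm_LaE_zero
  have hE0 : LaE 0 ∅ / Om ≠ 0 := by
    intro h
    rw [h, norm_zero] at hn
    norm_num at hn
  have hρ : (2 : ℝ) ^ ((j : ℝ) / 4) = (2 ^ (1 / 4 : ℝ)) ^ j := by
    rw [← Real.rpow_natCast, ← Real.rpow_mul (by norm_num)]
    congr 1
    ring
  have key := cratB_gen (XB_chr k j e S) (θ := thB k j) (fun a => XB_eq k j e S a)
    (fun τ hτ a => thB_fix k j hτ a) (fun a => thB_ne k j a)
    (H0 := H4 * (LaE 0 ∅ / Om) ^ j) (mul_ne_zero hH4 (pow_ne_zero _ hE0))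
    (ρ := 2 ^ ((j : ℝ) / 4)) (r := r4 * 64 ^ j) ?_ ?_
  · obtain ⟨q, hq⟩ := key
    refine ⟨q, ?_⟩
    rw [norm_DqB, mul_comm (2 ^ ((j : ℝ) / 4) : ℝ)]
    exact hq
  · rw [norm_mul, mul_pow, norm_pow, mul_assoc, hρ, hr4]
    have e1 : (‖LaE 0 ∅ / Om‖ ^ j) ^ 2 * (2 ^ (1 / 4 : ℝ)) ^ j =
        (‖LaE 0 ∅ / Om‖ ^ 2 * 2 ^ (1 / 4 : ℝ)) ^ j := by
      rw [mul_pow, ← pow_mul, ← pow_mul, mul_comm j 2]
    rw [e1, hn]
    push_cast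
    ring
  · intro τ hτ χ M hM hd hχ3 hχ hev
    have h1 := Rat4_sum (XE_chr 0 ∅) hM (by rwa [DDq_empty, mul_one]) hχ3 hχ hev (fun a => by
      rw [XE_eq, Finset.prod_empty, mul_one]
      exact thE_fix 0 hτ a)
    rw [XE_eq, Finset.prod_empty, mul_one] at h1
    have h2 : LG (lam ^ 3) (XE 0 ∅) 1 * em (lam ^ 7 * DDq ∅) / Om = LaE 0 ∅ / Om := LE_empty 0
    rw [h2] at h1
    have h3 := hτ4 τ hτ χ M hM (hf4.trans hd) hχ3 hχ hev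
    have h4 : thE 0 χ ^ j * τ (LaE 0 ∅ / Om) ^ j = (LaE 0 ∅ / Om) ^ j := by
      rw [← mul_pow, h1]
    rw [thB_pow, map_mul, map_pow]
    linear_combination (τ H4 * th4 k χ) * h4 + (LaE 0 ∅ / Om) ^ j * h3

/-! ### The absolute value -/

/-- the factor of the odd primes -/
def rhoB (e : Pg → ZMod 4) (S : Finset Pg) : ℝ :=
  ‖em (DDe e S)‖ ^ (1 / 2 : ℝ) / ‖em (DDq S)‖ ^ 2

/-- **The absolute value of the L-value**: `fB k j = lam ^ N`, `LaB = z Om K lm ^ w`, `‖K‖² = 2 ^ v`. -/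
theorem norm_LB {κ k : ZMod 4} {j : ℕ} {e : Pg → ZMod 4} {S : Finset Pg} {N w : ℕ}
    (hN : fB k j = lam ^ N) {z K : ℂ} {v t : ℝ} (hK : ‖K‖ ^ 2 = 2 ^ v)
    (hz : LaB k j e S = z * (Om * (K * lm ^ w))) (ht : (w : ℝ) + v + (j : ℝ) / 4 = t + N) :
    ‖LB k j e S 1‖ ^ 2 * ‖em (DqB κ j e S)‖ ^ (1 / 2 : ℝ) =
      ‖z‖ ^ 2 * rhoB e S * 2 ^ t * ‖Om‖ ^ 2 := by
  have h1 : em (lam ^ N * DDq S) * LB k j e S 1 = z * (Om * (K * lm ^ w)) := by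
    rw [← hz, LaB, hN]
  have h2 := congrArg (fun z => ‖z‖ ^ 2) h1
  simp only [norm_mul, mul_pow] at h2
  have h3 : ‖lm ^ w‖ ^ 2 = 2 ^ w := by
    rw [norm_pow, ← pow_mul, mul_comm _ 2, pow_mul, norm_lm_sq]
  rw [em_mul, norm_mul, mul_pow, norm_em_lam_pow, h3, hK] at h2
  have hd' : ‖em (DDq S)‖ ≠ 0 := norm_ne_zero_iff.2 (em_ne (DDq_in4 S).ne_zero)
  have hd : ‖em (DDq S)‖ ^ 2 ≠ 0 := pow_ne_zero 2 hd'
  have h4 : (2 : ℝ) ^ v * 2 ^ w * 2 ^ ((j : ℝ) / 4) = 2 ^ t * 2 ^ N := by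
    rw [← Real.rpow_natCast, ← Real.rpow_natCast, ← Real.rpow_add (by norm_num),
      ← Real.rpow_add (by norm_num), ← Real.rpow_add (by norm_num)]
    congr 1
    linarith
  rw [norm_DqB, rhoB]
  apply mul_right_cancel₀ (mul_ne_zero hd (pow_ne_zero N (two_ne_zero (α := ℝ))))
  have h5 : ‖z‖ ^ 2 * (‖em (DDe e S)‖ ^ (1 / 2 : ℝ) / ‖em (DDq S)‖ ^ 2) * 2 ^ t * ‖Om‖ ^ 2 *
      (‖em (DDq S)‖ ^ 2 * 2 ^ N) =
      ‖z‖ ^ 2 * ‖em (DDe e S)‖ ^ (1 / 2 : ℝ) * ‖Om‖ ^ 2 * (2 ^ t * 2 ^ N) := by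
    field_simp
  rw [h5, ← h4]
  linear_combination (2 ^ ((j : ℝ) / 4) * ‖em (DDe e S)‖ ^ (1 / 2 : ℝ)) * h2

end

end Pool.Agent.Lib.MP_1a91b9_ntQ
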