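import Pool.Agent.Lib.MP_1a91b9_ntQ.A.Rat4N
import Pool.Agent.Lib.MP_1a91b9_ntQ.A.IndE
import Pool.Agent.Lib.MP_1a91b9_ntQ.A.LaE0S

/-!
# Quartic twists, part A, file RatE: the rationality of the L-quotient, class `lam ∥ D`

`cratE : ∃ q : ℚ, ‖LE k S 1‖ ^ 2 * (‖em (DDq S)‖ ^ (1 / 2) * 2 ^ (1 / 4)) = q * ‖Om‖ ^ 2` and
`norm_LE : ‖LE k S 1‖ ^ 2 * (4 * ‖em (DDq S)‖ ^ 2) = ‖nuE k S‖ ^ 2 * 2 ^ |S| * 2 ^ (3 / 4) * ‖Om‖ ^ 2`.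
-/

set_option autoImplicit false

namespace Pool.Agent.Lib.MP_1a91b9_ntQ

open NumberField IsDedekindDomain Pool.Agent.Lib.MP_1a91b9_nuT Pool.Agent.Lib.MP_1a91b9_nuT.S3
  Pool.Agent.Lib.MP_1a91b9_nuT.Ell
open Pool.Agent.Lib.MP_1a91b9_nuX.HQ (w G4 qs)
open Pool.Agent.Lib.MP_1a91b9_nuT.Rq (ev Rel)

noncomputable section

/-- **The rationality of the L-quotient**, general form. -/
theorem crat4_gen {f : 𝓞 K4} {S : Finset Pg} {θ X : 𝓞 K4 → ℂ}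
    (hX : Chr (lam ^ 3) (f * DDq S) X) (hXe : ∀ a, X a = θ a * ∏ q ∈ S, ch4 q a)
    (hθ : ∀ τ : ℂ ≃+* ℂ, Rq.Fix τ → ∀ a, τ (θ a) = θ a) (hθ0 : ∀ a, θ a ≠ 0)
    (hf : lam ^ 3 ∣ f) {H0 : ℂ} (hH0 : H0 ≠ 0) {ρ : ℝ} {r : ℚ} (hr : ‖H0‖ ^ 2 * ρ = r)
    (hτ0 : ∀ (τ : ℂ ≃+* ℂ) (_ : Rq.Fix τ) (χ : 𝓞 K4) (M : ℕ), 0 < M → f ∣ (M : 𝓞 K4) →
      lam ^ 3 ∣ χ - 1 → IsCoprime χ (M : 𝓞 K4) →
      (∀ a : 𝓞 K4, τ (ev (em a / M)) = ev (em (χ * a) / M)) → θ χ * τ H0 = H0) :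
    ∃ q : ℚ, ‖LG (lam ^ 3) X 1‖ ^ 2 * (‖em (DDq S)‖ ^ (1 / 2 : ℝ) * ρ) = (q : ℝ) * ‖Om‖ ^ 2 := by
  classical
  choose hh hh0 hhn hhτ using Rat4_exists
  have hO := Om_ne_zero
  obtain ⟨ν, hν⟩ : ∃ ν, ν = f * DDq S := ⟨_, rfl⟩
  rw [← hν] at hX
  have hν0 : ν ≠ 0 := hX.ne
  have hνe := em_ne hν0
  obtain ⟨L, hL'⟩ : ∃ L, L = LG (lam ^ 3) X 1 := ⟨_, rfl⟩
  rw [← hL']
  obtain ⟨H, hH⟩ : ∃ H : ℂ, H = L * em ν / Om := ⟨_, rfl⟩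
  obtain ⟨P, hP⟩ : ∃ P : ℂ, P = ∏ q ∈ S, hh q := ⟨_, rfl⟩
  have hP0 : P ≠ 0 := by
    rw [hP]
    exact Finset.prod_ne_zero_iff.2 fun q _ => hh0 q
  have hfix : ∀ τ : ℂ ≃+* ℂ, Rq.Fix τ → ∀ a, τ (X a) = X a := by
    intro τ hτ a
    have h1 : ∀ q : Pg, τ (ch4 q a) = ch4 q a := by
      intro q
      by_cases h : q.1 ∣ a
      · rw [ch4_of_dvd h, map_zero]
      · rw [ch4_of_not h, e4_fix hτ]
    rw [hXe, map_mul, map_prod, hθ τ hτ]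
    congr 1
    exact Finset.prod_congr rfl fun q _ => h1 q
  -- the quotient is in `K`
  obtain ⟨x, hx⟩ : ∃ x : K, embK x = H / (P * H0) := by
    refine Rg.mem_K fun τ hτ => ?_
    obtain ⟨M, hM⟩ : ∃ M : ℕ, M = Nz ν := ⟨_, rfl⟩
    have hM0 : 0 < M := by
      have : Nz ν ≠ 0 := fun h0 => hν0 (Nz_eq_zero.1 h0)
      omega
    have hνM : ν ∣ (M : 𝓞 K4) := by
      rw [hM]
      exact dvd_Nz4 ν
    obtain ⟨χ, h3, hχ, hrel, hev⟩ := exists_act4 hτ M hM0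
      ((hf.trans (Dvd.intro _ hν.symm)).trans hνM)
    have t1 := Rat4_sum hX hM0 hνM h3 hχ hev (hfix τ hτ)
    have t2 := hτ0 τ hτ χ M hM0 ((Dvd.intro _ hν.symm).trans hνM) h3 hχ hev
    have hqM : ∀ q ∈ S, q.1 ∣ (M : 𝓞 K4) := by
      intro q hq
      refine Dvd.dvd.trans ?_ hνM
      rw [hν]
      exact (Finset.dvd_prod_of_mem (fun q : Pg => q.1) hq).mul_left _
    have hqχ : ∀ q ∈ S, ¬ q.1 ∣ χ := by
      intro q hq h2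
      exact q.2.1.not_isUnit (hχ.isUnit_of_dvd' h2 (hqM q hq))
    have t3 : (∏ q ∈ S, e4 (c4 q χ)) * τ P = P := by
      rw [hP, map_prod, ← Finset.prod_mul_distrib]
      refine Finset.prod_congr rfl fun q hq => ?_
      rw [hhτ q τ hτ χ M hM0 (hqM q hq) hrel (hqχ q hq), ← mul_assoc, ← e4_add, add_neg_cancel,
        e4_zero, one_mul]
    have hE : ∏ q ∈ S, ch4 q χ = ∏ q ∈ S, e4 (c4 q χ) := by
      refine Finset.prod_congr rfl fun q hq => ?_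
      rw [ch4_of_not (hqχ q hq)]
    have hE0 : ∏ q ∈ S, e4 (c4 q χ) ≠ 0 :=
      Finset.prod_ne_zero_iff.2 fun q _ => e4_ne _
    have hth : θ χ ≠ 0 := hθ0 χ
    rw [hXe, hE, ← hL', ← hH] at t1
    have hτH0 : τ H0 ≠ 0 := (map_ne_zero τ).2 hH0
    have hτP0 : τ P ≠ 0 := (map_ne_zero τ).2 hP0
    rw [map_div₀, map_mul, div_eq_div_iff (mul_ne_zero hτP0 hτH0) (mul_ne_zero hP0 hH0)]
    generalize (∏ q ∈ S, e4 (c4 q χ)) = E at *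
    generalize θ χ = th at *
    apply mul_left_cancel₀ (mul_ne_zero hth hE0)
    linear_combination P * H0 * t1 - H * P * t2 - H * th * τ H0 * t3
  have hHn : ‖H‖ ^ 2 * ρ = ((Algebra.norm ℚ x : ℚ) : ℝ) * (‖P‖ ^ 2 * r) := by
    have h1 : H = embK x * (P * H0) := by
      rw [hx, div_mul_cancel₀ _ (mul_ne_zero hP0 hH0)]
    have h2 := S3.norm_K x
    rw [Complex.mul_conj, Complex.normSq_eq_norm_sq] at h2
    have h3 : ((Algebra.norm ℚ x : ℚ) : ℝ) = ‖embK x‖ ^ 2 := by exact_mod_cast h2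
    rw [h1, norm_mul, norm_mul, h3, ← hr]
    ring
  -- the absolute values
  have hPn : (‖P‖ ^ 2) ^ 2 * ‖em (DDq S)‖ = 1 := by
    rw [hP, norm_em_DDq, _root_.norm_prod, ← Finset.prod_pow, ← Finset.prod_pow,
      ← Finset.prod_mul_distrib]
    exact Finset.prod_eq_one fun q _ => hhn q
  obtain ⟨δ, hδ⟩ : ∃ δ : ℝ, δ = ‖em (DDq S)‖ := ⟨_, rfl⟩
  have hδ0 : 0 ≤ δ := by rw [hδ]; exact norm_nonneg _
  obtain ⟨d, hd⟩ : ∃ d : ℝ, d = δ ^ (1 / 2 : ℝ) := ⟨_, rfl⟩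
  have hd0 : 0 ≤ d := by rw [hd]; exact Real.rpow_nonneg hδ0 _
  have hd2 : d ^ 2 = δ := by
    rw [hd, ← Real.rpow_natCast, ← Real.rpow_mul hδ0]
    norm_num
  rw [← hδ] at hPn ⊢
  rw [← hd]
  have hpd : ‖P‖ ^ 2 * d = 1 := by
    have h1 : (‖P‖ ^ 2 * d) ^ 2 = 1 ^ 2 := by
      rw [mul_pow, hd2, hPn, one_pow]
    exact (pow_left_inj₀ (by positivity) (by norm_num) (by norm_num)).1 h1
  have hL : ‖L‖ ^ 2 * ‖em ν‖ ^ 2 = ‖H‖ ^ 2 * ‖Om‖ ^ 2 := by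
    have h1 : L * em ν = H * Om := by
      rw [hH, div_mul_cancel₀ _ hO]
    rw [← mul_pow, ← norm_mul, h1, norm_mul, mul_pow]
  refine ⟨(Algebra.norm ℚ x) * r / (Nz ν : ℕ), ?_⟩
  have hν2 : ‖em ν‖ ^ 2 ≠ 0 := pow_ne_zero 2 (norm_ne_zero_iff.2 hνe)
  have hNz : ((Nz ν : ℕ) : ℝ) = ‖em ν‖ ^ 2 := Nz_eq ν
  push_cast
  rw [hNz, div_mul_eq_mul_div, eq_div_iff hν2]
  linear_combination (d * ρ) * hL + d * ‖Om‖ ^ 2 * hHn +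
    ((Algebra.norm ℚ x : ℚ) : ℝ) * r * ‖Om‖ ^ 2 * hpd

/-! ### The class `lam ∥ D` -/

theorem thE_eq (k : ZMod 4) (x : 𝓞 K4) : thE k x = th4 k x * thE 0 x := by
  rw [thE, thE, th4, zero_mul, zero_add, ← e4_add]

theorem thE_fix (k : ZMod 4) {τ : ℂ ≃+* ℂ} (hτ : Rq.Fix τ) (a : 𝓞 K4) : τ (thE k a) = thE k a :=
  e4_fix hτ _

theorem LE_empty (k : ZMod 4) : LE k ∅ 1 * em (lam ^ 7 * DDq ∅) / Om = LaE k ∅ / Om := by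
  rw [LaE, mul_comm]

/-- the exact value for `S = ∅`, `k = 0` -/
theorem LaE_zero_pow : ∃ u : ℂ, ‖u‖ = 1 ∧ (LaE 0 ∅ / Om) ^ 4 = u * (2048 * (1 - zt)) := by
  have hO := Om_ne_zero
  have hk : md (0 : ZMod 4) = 0 := map_zero md
  have e1 : tE 0 = -zt := by
    unfold tE
    exact if_pos hk
  have e2 : sE 0 = -zt := by
    unfold sE
    rw [if_pos hk, zero_sub, show (-1 : ZMod 4) = 3 by decide, e4_three]
  have h := (LaE0_V0 (sE_sq 0)).2 (by rw [e2, neg_one_mul])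
  refine ⟨1, norm_one, ?_⟩
  have e : LaE 0 ∅ / Om = zt * V4 (sE 0) (-zt * pe ^ 7) := by
    rw [LaE_empty_eq, e1]
    field_simp
  have hz4 : zt ^ 4 = 1 := by
    have : zt ^ 4 = (zt ^ 2) ^ 2 := by ring
    rw [this, zt_sq]
    norm_num
  rw [e, mul_pow, hz4, h]
  ring

theorem norm_LaE_zero : (‖LaE 0 ∅ / Om‖ ^ 2 * 2 ^ (1 / 4 : ℝ)) = 64 := by
  obtain ⟨u, hu, h⟩ := LaE_zero_pow
  have hz : zt = Complex.I := zt_eq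
  have h1 : ‖LaE 0 ∅ / Om‖ ^ 4 = 2048 * ‖(1 - zt : ℂ)‖ := by
    rw [← norm_pow, h, norm_mul, hu, one_mul, norm_mul]
    norm_num
  have h2 : ‖(1 - zt : ℂ)‖ ^ 2 = 2 := by
    rw [hz, ← Complex.normSq_eq_norm_sq, Complex.normSq_apply]
    simp
    norm_num
  have h3 : ((2 : ℝ) ^ (1 / 4 : ℝ)) ^ 4 = 2 := by
    rw [← Real.rpow_natCast, ← Real.rpow_mul (by norm_num)]
    norm_num
  obtain ⟨A, hA⟩ : ∃ A, A = ‖LaE 0 ∅ / Om‖ := ⟨_, rfl⟩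
  obtain ⟨B, hB⟩ : ∃ B : ℝ, B = 2 ^ (1 / 4 : ℝ) := ⟨_, rfl⟩
  have hA0 : 0 ≤ A := by rw [hA]; exact norm_nonneg _
  have hB0 : 0 ≤ B := by rw [hB]; positivity
  rw [← hA] at h1 ⊢
  rw [← hB] at h3 ⊢
  have h4 : (A ^ 2 * B) ^ 4 = 64 ^ 4 := by
    have e : (A ^ 2 * B) ^ 4 = (A ^ 4) ^ 2 * B ^ 4 := by ring
    rw [e, h1, h3, mul_pow, h2]
    norm_num
  exact (pow_left_inj₀ (by positivity) (by norm_num) (by norm_num)).1 h4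

/-- **The rationality of the L-quotient.** -/
theorem cratE (k : ZMod 4) (S : Finset Pg) : ∃ q : ℚ,
    ‖LE k S 1‖ ^ 2 * (‖em (DDq S)‖ ^ (1 / 2 : ℝ) * 2 ^ (1 / 4 : ℝ)) = (q : ℝ) * ‖Om‖ ^ 2 := by
  obtain ⟨H4, hH4, ⟨r4, hr4⟩, hτ4⟩ := Rat4_unit k
  have hf4 : f4 k ∣ lam ^ 7 := by
    by_cases h0 : k = 0
    · subst h0
      rw [f4_zero]
      exact pow_dvd_pow _ (by norm_num)
    · by_cases h2 : k = 2
      · subst h2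
        rw [f4_two]
        exact pow_dvd_pow _ (by norm_num)
      · rw [f4_odd h0 h2]
        exact pow_dvd_pow _ (by norm_num)
  have hn := norm_LaE_zero
  have hE0 : LaE 0 ∅ / Om ≠ 0 := by
    intro h
    rw [h, norm_zero] at hn
    norm_num at hn
  refine crat4_gen (XE_chr k S) (θ := thE k) (fun a => XE_eq k S a)
    (fun τ hτ a => thE_fix k hτ a) (fun a => thE_ne k a) (pow_dvd_pow _ (by norm_num))
    (H0 := H4 * (LaE 0 ∅ / Om)) (mul_ne_zero hH4 hE0) (r := r4 * 64) ?_ ?_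
  · rw [norm_mul, mul_pow, mul_assoc, hn, hr4]
    push_cast
    ring
  · intro τ hτ χ M hM hd hχ3 hχ hev
    have h1 := Rat4_sum (XE_chr 0 ∅) hM (by rwa [DDq_empty, mul_one]) hχ3 hχ hev (fun a => by
      rw [XE_eq, Finset.prod_empty, mul_one]
      exact thE_fix 0 hτ a)
    rw [XE_eq, Finset.prod_empty, mul_one] at h1
    have h2 : LG (lam ^ 3) (XE 0 ∅) 1 * em (lam ^ 7 * DDq ∅) / Om = LaE 0 ∅ / Om := LE_empty 0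
    rw [h2] at h1
    have h3 := hτ4 τ hτ χ M hM (hf4.trans hd) hχ3 hχ hev
    rw [thE_eq, map_mul]
    linear_combination (τ H4 * th4 k χ) * h1 + (LaE 0 ∅ / Om) * h3

/-! ### The absolute value -/

theorem norm_kq_sq : ‖kq‖ ^ 2 = 2 ^ (3 / 4 : ℝ) := by
  have h1 : ‖kq‖ ^ 4 = ‖lm‖ ^ 3 := by
    rw [← norm_pow, kq_pow, norm_pow]
  have h2 := norm_lm_sq
  have h3 : ((2 : ℝ) ^ (3 / 4 : ℝ)) ^ 4 = 8 := by
    rw [← Real.rpow_natCast, ← Real.rpow_mul (by norm_num)]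
    norm_num
  have h4 : (‖kq‖ ^ 2) ^ 4 = (2 ^ (3 / 4 : ℝ)) ^ 4 := by
    rw [h3]
    have e : (‖kq‖ ^ 2) ^ 4 = (‖kq‖ ^ 4) ^ 2 := by ring
    rw [e, h1]
    have e2 : (‖lm‖ ^ 3) ^ 2 = (‖lm‖ ^ 2) ^ 3 := by ring
    rw [e2, h2]
    norm_num
  exact (pow_left_inj₀ (by positivity) (by positivity) (by norm_num)).1 h4

/-- **The absolute value of the L-value.** -/
theorem norm_LE (k : ZMod 4) (S : Finset Pg) :
    ‖LE k S 1‖ ^ 2 * (4 * ‖em (DDq S)‖ ^ 2) =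
      ‖nuE k S‖ ^ 2 * 2 ^ S.card * 2 ^ (3 / 4 : ℝ) * ‖Om‖ ^ 2 := by
  have hO := Om_ne_zero
  have hl := lm_ne
  have hk := kq_ne
  have h1 : em (lam ^ 7 * DDq S) * LE k S 1 = nuE k S * (Om * (lm ^ S.card * (lm ^ 5 * kq))) := by
    rw [nuE, div_mul_cancel₀ _ (mul_ne_zero hO (mul_ne_zero (pow_ne_zero _ hl)
      (mul_ne_zero (pow_ne_zero _ hl) hk))), LaE]
  have h2 := congrArg (fun z => ‖z‖ ^ 2) h1
  simp only [norm_mul, mul_pow] at h2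
  have h3 : ∀ n : ℕ, ‖lm ^ n‖ ^ 2 = 2 ^ n := by
    intro n
    rw [norm_pow, ← pow_mul, mul_comm _ 2, pow_mul, norm_lm_sq]
  rw [em_mul, norm_mul, mul_pow, norm_em_lam_pow, h3, h3, norm_kq_sq] at h2
  linear_combination (1 / 32 : ℝ) * h2

end

end Pool.Agent.Lib.MP_1a91b9_ntQ
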