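import Pool.Agent.Lib.MP_1a91b9_ntQ.A.HH4
import Pool.Agent.Lib.MP_1a91b9_ntQ.A.EvX2
import Pool.Agent.Lib.MP_1a91b9_ntQ.A.Fac4

/-!
# Quartic twists, part A, file Rhs0C: class (X), `k = 0`, `h = 1`: the sums over the sets `T ≠ ∅`
modulo `lm m`

`Rt_rhs0C` = (C): with `y(T) = - rh MM 0 1 q0 T J / lm ^ (n + 4)`, `H(T) = HHX q0 T J / lm ^ (n - 1)`,
`β(T) = bX q0 0 T lam`, the sum of `(-1) ^ #T y(T)` over `T ≠ ∅` is the sum of
`(-1) ^ #T (i ^ (2 β) + (1 - i ^ (2 - β)) / lm) H(T)` plus `lm` times the class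
`aa q + bb q0 * s4 q0 q` (`J = {q}`) or `0` (more primes).
-/

set_option autoImplicit false
set_option linter.unusedSectionVars false

namespace Pool.Agent.Lib.MP_1a91b9_ntQ

open NumberField Pool.Agent.Lib.MP_1a91b9_nuT Pool.Agent.Lib.MP_1a91b9_nuT.S3
  Pool.Agent.Lib.MP_1a91b9_nuT.Ell

noncomputable section

variable {B : ValuationSubring ℂ} {q0 : Pg} {T J : Finset Pg}

/-- the sign of `lam` at `q0` -/
def sB (q0 : Pg) : ℂ := e4 (2 * c4 q0 lam)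

theorem sB_cases (q0 : Pg) : (sB q0 = 1 ∧ bb q0.1 = 0) ∨ (sB q0 = -1 ∧ bb q0.1 = 1) := by
  have h := c2_lam q0
  rw [← h]
  unfold c2 sB
  have h1 : (2 * 1 : ZMod 4) = 2 := by decide
  have h2 : (2 * 2 : ZMod 4) = 0 := by decide
  have h3 : (2 * 3 : ZMod 4) = 2 := by decide
  rcases e4_cases (c4 q0 lam) with h4 | h4 | h4 | h4
  · left
    rw [h4, mul_zero, e4_zero, md_zero]
    exact ⟨rfl, rfl⟩
  · right
    rw [h4, h1, e4_two, md_one]
    exact ⟨rfl, rfl⟩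
  · left
    rw [h4, h2, e4_zero, md_two]
    exact ⟨rfl, rfl⟩
  · right
    rw [h4, h3, e4_two, md_three]
    exact ⟨rfl, rfl⟩

theorem sB_sq (q0 : Pg) : sB q0 * sB q0 = 1 := by
  rcases sB_cases q0 with ⟨h, -⟩ | ⟨h, -⟩ <;> rw [h] <;> norm_num

/-- the normalised sums of `X` -/
def HXX (q0 : Pg) (T J : Finset Pg) : ℂ := (2 * rh)⁻¹ * FX q0 (f4 0) X T J

/-- the error of the linear form -/
def er0C (q0 : Pg) (z : ℂ) : ℂ := -rh * U0m (X z) / lm ^ 3 - K0m (-sB q0) -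
  lm / (2 * rh) * (X z + sB q0 * X (lm * z) + lm * X (lm ^ 2 * z))

theorem v_er0C (hB : (2 : ℂ)⁻¹ ∉ B) (q0 : Pg) {z : ℂ} (hz : Od z) :
    B.valuation (er0C q0 z) < B.valuation lm ^ 2 := by
  have h : -sB q0 = 1 ∨ -sB q0 = -1 := by
    rcases sB_cases q0 with ⟨h, -⟩ | ⟨h, -⟩
    · right
      rw [h]
    · left
      rw [h, neg_neg]
  have h1 := ev0m_X hB hz h
  have e : er0C q0 z = -rh * U0m (X z) / lm ^ 3 - K0m (-sB q0) -
      lm / (2 * rh) * (X z - -sB q0 * X (lm * z) + lm * X (lm ^ 2 * z)) := by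
    rw [er0C]
    ring
  rw [e]
  exact h1

theorem UX_01 : (fun z : ℂ => UX 0 1 (X z)) = fun z => U0m (X z) := by
  have h10 : (1 : ZMod 2) ≠ 0 := by decide
  funext z
  rw [UX, if_pos rfl, if_neg h10]

theorem FX_cmul (c : ℂ) (f : ℂ → ℂ) (kap : 𝓞 K) : FX q0 kap (fun z => c * f z) T J =
    c * FX q0 kap f T J := GX_fcmul c (cT T) f

theorem FX_add (f f' : ℂ → ℂ) (kap : 𝓞 K) : FX q0 kap (fun z => f z + f' z) T J =
    FX q0 kap f T J + FX q0 kap f' T J := GX_fadd (cT T) f f'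

theorem e4_m2 (b c : ZMod 4) : e4 (-(((1 : ℕ) : ZMod 4) * (b + 2 * c))) = e4 (2 * c) * e4 (-b) := by
  rw [← e4_add]
  congr 1
  rw [Nat.cast_one]
  have key : ∀ b c : ZMod 4, -(1 * (b + 2 * c)) = 2 * c + -b := by decide
  exact key b c

theorem e4_m4 (b c : ZMod 4) : e4 (-(((2 : ℕ) : ZMod 4) * (b + 2 * c))) = e4 (2 * b) := by
  congr 1
  rw [Nat.cast_ofNat]
  have key : ∀ b c : ZMod 4, -(2 * (b + 2 * c)) = 2 * b := by decide
  exact key b c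

/-- the sum of one set `T` -/
theorem FX_U0m (h0 : aa q0.1 = 1) (hT : T ⊆ J) : -rh * MM 0 1 q0 T J / lm ^ 3 =
    K0m (-sB q0) * FX q0 (f4 0) (fun _ => 1) T J +
      lm * ((1 + e4 (-bX q0 0 T lam) + lm * e4 (2 * bX q0 0 T lam)) * HXX q0 T J) +
      FX q0 (f4 0) (er0C q0) T J := by
  have hr := rh_ne
  have hl := lm_ne
  have e1 : (fun z : ℂ => U0m (X z)) = fun z => -(lm ^ 3 / rh) * (((K0m (-sB q0) * 1 +
      lm / (2 * rh) * X z) + lm / (2 * rh) * sB q0 * X (lm ^ 1 * z)) +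
      lm ^ 2 / (2 * rh) * X (lm ^ 2 * z) + er0C q0 z) := by
    funext z
    rw [er0C, pow_one]
    field_simp
    ring
  have a1 := FX_X_lam (q0 := q0) (T := T) (J := J) h0 hT 1
  have a2 := FX_X_lam (q0 := q0) (T := T) (J := J) h0 hT 2
  rw [bX_one h0, e4_m2] at a1
  rw [bX_one h0, e4_m4] at a2
  rw [MM_FX, UX_01, e1, FX_cmul (-(lm ^ 3 / rh)),
    FX_add (fun z => ((K0m (-sB q0) * 1 + lm / (2 * rh) * X z) + lm / (2 * rh) * sB q0 *
      X (lm ^ 1 * z)) + lm ^ 2 / (2 * rh) * X (lm ^ 2 * z)) (er0C q0),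
    FX_add (fun z => (K0m (-sB q0) * 1 + lm / (2 * rh) * X z) + lm / (2 * rh) * sB q0 *
      X (lm ^ 1 * z)) fun z => lm ^ 2 / (2 * rh) * X (lm ^ 2 * z),
    FX_add (fun z => K0m (-sB q0) * 1 + lm / (2 * rh) * X z) fun z => lm / (2 * rh) * sB q0 *
      X (lm ^ 1 * z), FX_add (fun _ => K0m (-sB q0) * 1) fun z => lm / (2 * rh) * X z,
    FX_cmul (K0m (-sB q0)) fun _ => 1, FX_cmul (lm / (2 * rh)) fun z => X z,
    FX_cmul (lm / (2 * rh) * sB q0) fun z => X (lm ^ 1 * z),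
    FX_cmul (lm ^ 2 / (2 * rh)) fun z => X (lm ^ 2 * z), a1, a2, HXX]
  have hs := sB_sq q0
  change _ = _
  have e2 : e4 (2 * c4 q0 lam) = sB q0 := rfl
  rw [e2]
  have e3 : FX q0 (f4 0) (fun z => X z) T J = FX q0 (f4 0) X T J := rfl
  rw [e3]
  field_simp
  linear_combination (lm * e4 (-bX q0 0 T lam) * FX q0 (f4 0) X T J) * hs

/-! ### The terms of the empty set -/

/-- `N = 2 HXX ∅ ∅` -/
theorem HXX_empty (h0 : aa q0.1 = 1) :
    2 * HXX q0 ∅ ∅ = n0 q0 (f4 0) + 2 * HHX q0 ∅ ∅ := by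
  have h2 : HHX q0 ∅ ∅ = (2 * rh)⁻¹ * FX q0 (f4 0) X ∅ ∅ - n0 q0 (f4 0) / 2 := by
    rw [HHX, FX_xi_one, FX_one_empty h0 (cop_f4 0 q0 ∅) (Finset.notMem_empty _), Finset.prod_empty,
      mul_one]
  rw [h2, HXX]
  ring

theorem HXX_empty_J (h0 : aa q0.1 = 1) (hq0 : q0 ∉ J) :
    HXX q0 ∅ J = (∏ q ∈ J, (em q.1 ^ 2 - e4 (2 * c4 q0 q.1))) * HXX q0 ∅ ∅ := by
  have h1 : ∏ q ∈ J \ ∅, (em q.1 ^ 2 - e4 (bk q0 2 ∅ q.1)) =
      ∏ q ∈ J, (em q.1 ^ 2 - e4 (2 * c4 q0 q.1)) := by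
    rw [Finset.sdiff_empty]
    refine Finset.prod_congr rfl fun q _ => ?_
    rw [← bX_one_empty h0, bX_bk, hh_one]
  rw [HXX, HXX, FX_prod h0 PdL_X Wt_X (fun q => em q.1 ^ 2) TrF_X (Finset.empty_subset J) hq0
    (cop_f4 0 q0 J), h1]
  ring

theorem MM_empty_J (h0 : aa q0.1 = 1) (hq0 : q0 ∉ J) :
    MM 0 1 q0 ∅ J = (∏ q ∈ J, (em q.1 - e4 (2 * c4 q0 q.1))) * MM 0 1 q0 ∅ ∅ := by
  induction J using Finset.induction_on with
  | empty => rw [Finset.prod_empty, one_mul]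
  | insert q J hqJ ih =>
    have hq0' : q0 ∉ J := fun h1 => hq0 (Finset.mem_insert_of_mem h1)
    rw [MM_step (Or.inl rfl) h0 1 (Finset.empty_subset J) hqJ hq0, ih hq0', Finset.prod_insert hqJ,
      th4_zero, bX_one_empty h0]
    ring

theorem v_FX_empty_lt {f : ℂ → ℂ} {b : B.ValueGroup} (hb : 0 < b)
    (hf : ∀ z, Od z → B.valuation (f z) < b) : B.valuation (FX q0 (f4 0) f ∅ J) < b := by
  rw [FX, GX_SO]
  refine v_SO_lt hb fun y hy => ?_
  rw [cT_empty, one_mul]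
  exact hf _ hy.od

/-- the value for `T = J = ∅` -/
theorem v_Y0C (hB : (2 : ℂ)⁻¹ ∉ B) (h0 : aa q0.1 = 1) :
    B.valuation (-rh * MM 0 1 q0 ∅ ∅ / lm ^ 3 - (1 + lm * ((bb q0.1).val : ℂ))) ≤
      B.valuation lm ^ 2 := by
  have h1 := FX_U0m (q0 := q0) h0 (Finset.Subset.refl ∅)
  have e1 : bX q0 0 ∅ lam = 0 := bX_zero_empty q0 lam
  rw [e1, neg_zero, mul_zero, e4_zero, mul_one, FX_one_empty h0 (cop_f4 0 q0 ∅)
    (Finset.notMem_empty _), Finset.prod_empty, mul_one] at h1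
  have h2 := HXX_empty (q0 := q0) h0
  have hH := v_HHX_le (q0 := q0) hB (Finset.Subset.refl ∅)
  have hn := v_n0_sub (B := B) (kap := f4 0) h0 (f4_ndvd 0)
  have he := (v_FX_empty_lt (q0 := q0) (J := ∅) (f := er0C q0) (pow_pos v_lm_pos 2)
    fun z hz => v_er0C hB q0 hz).le
  have hl := (v_lm_lt (B := B) hB).le
  rw [← v_lm_sq] at hn
  have e3 : (2 : ℂ) = -zt * lm ^ 2 := two_lm
  have hc : B.valuation (2 * lm + lm ^ 2) ≤ B.valuation lm ^ 2 := by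
    refine (Valuation.map_add _ _ _).trans (max_le ?_ (by rw [map_pow]))
    rw [map_mul, ← v_lm_sq]
    exact mul_le_of_le_one_right' hl
  rcases sB_cases q0 with ⟨hs, hb⟩ | ⟨hs, hb⟩
  · have e2 : -rh * MM 0 1 q0 ∅ ∅ / lm ^ 3 - (1 + lm * ((bb q0.1).val : ℂ)) =
        (n0 q0 (f4 0) - 1) + (2 * lm + lm ^ 2) * HHX q0 ∅ ∅ + FX q0 (f4 0) (er0C q0) ∅ ∅ := by
      rw [h1, hs, hb, ZMod.val_zero, Nat.cast_zero, K0m]
      linear_combination (lm * (1 + 1 + lm) / 2) * h2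
    rw [e2]
    refine (Valuation.map_add _ _ _).trans (max_le ((Valuation.map_add _ _ _).trans
      (max_le hn ?_)) he)
    rw [map_mul]
    exact (mul_le_mul' hc hH).trans (by rw [mul_one])
  · have e2 : -rh * MM 0 1 q0 ∅ ∅ / lm ^ 3 - (1 + lm * ((bb q0.1).val : ℂ)) =
        (n0 q0 (f4 0) - 1) * (1 + lm) + (2 * lm + lm ^ 2) * HHX q0 ∅ ∅ +
          FX q0 (f4 0) (er0C q0) ∅ ∅ := by
      rw [h1, hs, hb, ZMod.val_one, Nat.cast_one, K0m]
      linear_combination (lm * (1 + 1 + lm) / 2) * h2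
    rw [e2]
    refine (Valuation.map_add _ _ _).trans (max_le ((Valuation.map_add _ _ _).trans
      (max_le ?_ ?_)) he)
    · rw [map_mul]
      refine (mul_le_mul' hn ?_).trans (by rw [mul_one])
      exact (Valuation.map_add _ _ _).trans (max_le (map_one _).le hl)
    · rw [map_mul]
      exact (mul_le_mul' hc hH).trans (by rw [mul_one])

/-- the Euler factor of `MM` for `T = ∅` -/
theorem eul1_empty (q : Pg) (c : ZMod 4) : (em q.1 - e4 (2 * c)) / lm ^ 2 =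
    lm * ((em q.1 - 1) / lm ^ 3) - zt * ((md c).val : ℂ) := by
  have h1 := one_sub_e4_two c
  have hl := lm_ne
  have e : (em q.1 - e4 (2 * c)) / lm ^ 2 = lm * ((em q.1 - 1) / lm ^ 3) +
      (1 - e4 (2 * c)) / lm ^ 2 := by
    field_simp
    ring
  rw [e, h1]
  ring

theorem Rt_tq (hB : (2 : ℂ)⁻¹ ∉ B) (q : Pg) : Rt B ((em q.1 - 1) / lm ^ 3) (aa q.1) := by
  have h := Rt_fac_zero hB q
  have e : X4 0 ∅ q.1 = 1 := by rw [X4_eq, Finset.prod_empty, mul_one, th4_zero]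
  rwa [e] at h

theorem Rt_eul1 (hB : (2 : ℂ)⁻¹ ∉ B) (q : Pg) (c : ZMod 4) :
    Rt B ((em q.1 - e4 (2 * c)) / lm ^ 2) (md c) := by
  have e : md c = 0 - 1 * md c := by
    rw [one_mul, zero_sub, ZMod.neg_eq_self_mod_two]
  rw [eul1_empty, e]
  refine (Rt.of_lt ?_).sub hB ((Rt_ztX hB).mul hB ((Rt_val hB _).congr ?_))
  · rw [map_mul]
    exact mul_lt_one_of_lt_of_le (v_lm_lt hB) (Rt_tq hB q).le
  · rw [← e, sub_self, map_zero]
    exact one_pos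

/-- **the terms of the empty set** -/
theorem Rt_D0C (hB : (2 : ℂ)⁻¹ ∉ B) (h0 : aa q0.1 = 1) (hJ : J.Nonempty) (hq0 : q0 ∉ J) :
    Rt B ((lm * (2 + lm) * HXX q0 ∅ J - -rh * MM 0 1 q0 ∅ J / lm ^ 3) / lm ^ (J.card + 2))
      (if J.card = 1 then ∑ i ∈ J, (aa i.1 + bb q0.1 * s4 q0 i) else 0) := by
  have hl := lm_ne
  have hlv := v_lm_lt (B := B) hB
  have hl0 := v_lm_pos (B := B)
  obtain ⟨Y, hY⟩ : ∃ Y : ℂ, Y = -rh * MM 0 1 q0 ∅ ∅ / lm ^ 3 := ⟨_, rfl⟩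
  obtain ⟨N, hN⟩ : ∃ N : ℂ, N = 2 * HXX q0 ∅ ∅ := ⟨_, rfl⟩
  have hYv := v_Y0C (q0 := q0) hB h0
  rw [← hY] at hYv
  have hNv : B.valuation (N - 1) ≤ B.valuation lm ^ 2 := by
    have hn := v_n0_sub (B := B) (kap := f4 0) h0 (f4_ndvd 0)
    have e : N - 1 = (n0 q0 (f4 0) - 1) + 2 * HHX q0 ∅ ∅ := by
      rw [hN, HXX_empty h0]
      ring
    rw [e, v_lm_sq]
    refine (Valuation.map_add _ _ _).trans (max_le hn ?_)
    rw [map_mul]
    exact mul_le_of_le_one_right' (v_HHX_le hB (Finset.Subset.refl ∅))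
  have hl2 : B.valuation lm ^ 2 < 1 := pow_lt_one₀ zero_le hlv two_ne_zero
  have hl21 : B.valuation lm ^ 2 < B.valuation lm := by
    rw [pow_two]
    exact mul_lt_of_lt_one_right hl0 hlv
  have hNR : Rt B N 1 := Rt.one.congr (hNv.trans_lt hl2)
  have hYR : Rt B Y 1 := by
    have h1 : Rt B (1 + lm * ((bb q0.1).val : ℂ)) 1 := by
      refine Rt.one.congr ?_
      rw [add_sub_cancel_left, map_mul]
      exact mul_lt_one_of_lt_of_le hlv (v_nat _)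
    exact h1.congr (hYv.trans_lt hl2)
  have hzR : Rt B (lm + zt) 1 := by
    refine (Rt_ztX hB).congr ?_
    rw [add_sub_cancel_right]
    exact hlv
  have hP1 : ∏ q ∈ J, (em q.1 ^ 2 - e4 (2 * c4 q0 q.1)) =
      lm ^ (2 * J.card) * ∏ q ∈ J, ((em q.1 ^ 2 - e4 (2 * c4 q0 q.1)) / lm ^ 2) := by
    rw [Finset.prod_div_distrib, Finset.prod_const, ← pow_mul, mul_div_cancel₀]
    exact pow_ne_zero _ hl
  have hP2 : ∏ q ∈ J, (em q.1 - e4 (2 * c4 q0 q.1)) =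
      lm ^ (2 * J.card) * ∏ q ∈ J, ((em q.1 - e4 (2 * c4 q0 q.1)) / lm ^ 2) := by
    rw [Finset.prod_div_distrib, Finset.prod_const, ← pow_mul, mul_div_cancel₀]
    exact pow_ne_zero _ hl
  have eN : HXX q0 ∅ ∅ = N / 2 := by
    rw [hN]
    ring
  have eM : MM 0 1 q0 ∅ ∅ = -(Y * lm ^ 3 / rh) := by
    have := rh_ne
    rw [hY]
    field_simp
  have e1 : lm * (2 + lm) * HXX q0 ∅ J - -rh * MM 0 1 q0 ∅ J / lm ^ 3 =
      lm ^ (2 * J.card) * ((lm + zt) * N * ∏ q ∈ J, ((em q.1 ^ 2 - e4 (2 * c4 q0 q.1)) / lm ^ 2) -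
        (∏ q ∈ J, ((em q.1 - e4 (2 * c4 q0 q.1)) / lm ^ 2)) * Y) := by
    rw [HXX_empty_J h0 hq0, MM_empty_J h0 hq0, hP1, hP2, eN, eM]
    have hr := rh_ne
    have e5 : lm * (2 + lm) / 2 = lm + zt := by
      linear_combination (1 / 2) * lm_sq
    have e6 : -rh * (lm ^ (2 * J.card) * (∏ q ∈ J, ((em q.1 - e4 (2 * c4 q0 q.1)) / lm ^ 2)) *
        -(Y * lm ^ 3 / rh)) / lm ^ 3 =
        lm ^ (2 * J.card) * (∏ q ∈ J, ((em q.1 - e4 (2 * c4 q0 q.1)) / lm ^ 2)) * Y := by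
      field_simp
    rw [e6]
    linear_combination (lm ^ (2 * J.card) * (∏ q ∈ J, ((em q.1 ^ 2 - e4 (2 * c4 q0 q.1)) /
      lm ^ 2)) * N) * e5
  rw [e1]
  by_cases hc : J.card = 1
  · rw [if_pos hc]
    obtain ⟨q, rfl⟩ := Finset.card_eq_one.1 hc
    rw [Finset.prod_singleton, Finset.prod_singleton, Finset.sum_singleton, Finset.card_singleton]
    obtain ⟨t, ht⟩ := eul2_empty q (c4 q0 q.1)
    rw [ht, eul1_empty]
    obtain ⟨tq, htq⟩ : ∃ tq : ℂ, tq = (em q.1 - 1) / lm ^ 3 := ⟨_, rfl⟩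
    obtain ⟨sv, hsv⟩ : ∃ sv : ℂ, sv = ((md (c4 q0 q.1)).val : ℂ) := ⟨_, rfl⟩
    obtain ⟨bv, hbv⟩ : ∃ bv : ℂ, bv = ((bb q0.1).val : ℂ) := ⟨_, rfl⟩
    have rt : Rt B tq (aa q.1) := htq ▸ Rt_tq hB q
    have rs : Rt B sv (s4 q0 q) := hsv ▸ Rt_val hB _
    have rb : Rt B bv (bb q0.1) := hbv ▸ Rt_val hB _
    rw [← htq, ← hsv]
    rw [← hbv] at hYv
    have e2 : lm ^ (2 * 1) * ((lm + zt) * N * (lm ^ 3 * em t - zt * sv) -
        (lm * tq - zt * sv) * Y) / lm ^ (1 + 2) =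
        (lm + zt) * N * (lm ^ 2 * em t) - tq * Y - zt * sv *
          ((lm + zt) * ((N - 1) / lm) - (Y - (1 + lm * bv)) / lm + lm - bv) := by
      have e5 : 1 + lm ^ 2 = lm + zt := by
        rw [lm_sq, lm]
        ring
      field_simp
      linear_combination (lm ^ 3 * zt * sv) * e5
    rw [e2]
    have r1 : Rt B ((lm + zt) * N * (lm ^ 2 * em t)) 0 := by
      have h1 : Rt B (lm ^ 2 * em t) 0 := by
        refine Rt.of_lt ?_
        rw [map_mul, map_pow]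
        exact mul_lt_one_of_lt_of_le hl2 (v_emX t)
      have h2 := (hzR.mul hB hNR).mul hB h1
      rwa [mul_zero] at h2
    have r2 : Rt B ((N - 1) / lm) 0 := by
      refine Rt.of_lt ?_
      rw [map_div₀, div_lt_one₀ hl0]
      exact hNv.trans_lt hl21
    have r3 : Rt B ((Y - (1 + lm * bv)) / lm) 0 := by
      refine Rt.of_lt ?_
      rw [map_div₀, div_lt_one₀ hl0]
      exact hYv.trans_lt hl21
    have r4 := ((((hzR.mul hB r2).sub hB r3).add hB (Rt.of_lt hlv)).sub hB rb)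
    have r5 := (r1.sub hB (rt.mul hB hYR)).sub hB (((Rt_ztX hB).mul hB rs).mul hB r4)
    have e3 : (0 : ZMod 2) - aa q.1 * 1 - 1 * s4 q0 q * (1 * 0 - 0 + 0 - bb q0.1) =
        aa q.1 + bb q0.1 * s4 q0 q := by
      have key : ∀ a s b : ZMod 2, (0 : ZMod 2) - a * 1 - 1 * s * (1 * 0 - 0 + 0 - b) =
          a + b * s := by decide
      exact key _ _ _
    rw [e3] at r5
    exact r5
  · rw [if_neg hc]
    obtain ⟨m, hm⟩ : ∃ m, J.card = m + 2 := ⟨J.card - 2, by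
      have := hJ.card_pos
      omega⟩
    have e2 : ∀ x : ℂ, lm ^ (2 * J.card) * x / lm ^ (J.card + 2) = lm ^ m * x := by
      intro x
      have e3 : 2 * J.card = m + (J.card + 2) := by omega
      rw [e3, pow_add]
      have := pow_ne_zero (J.card + 2) hl
      field_simp
    rw [e2]
    have r1 := Rt.prod hB J fun q _ => Rt_eul2 hB q (c4 q0 q.1)
    have r2 := Rt.prod hB J fun q _ => Rt_eul1 hB q (c4 q0 q.1)
    have r3 := ((hzR.mul hB hNR).mul hB r1).sub hB (r2.mul hB hYR)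
    rw [one_mul, one_mul, mul_one, sub_self] at r3
    refine Rt.of_lt ?_
    rw [map_mul, map_pow, mul_comm]
    exact mul_lt_one_of_lt_of_le r3.lt (pow_le_one₀ zero_le hlv.le)

/-! ### The sums over the sets `T ≠ ∅` -/

theorem er0C_sum (h0 : aa q0.1 = 1) (hq0 : q0 ∉ J) :
    ∑ T ∈ J.powerset.erase ∅, (-1) ^ T.card * (-rh * MM 0 1 q0 T J / lm ^ 3) =
      lm ^ 2 * ∑ T ∈ J.powerset.erase ∅, (-1) ^ T.card *
        ((e4 (2 * bX q0 0 T lam) + (1 - e4 (2 - bX q0 0 T lam)) / lm) * HHX q0 T J) +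
      (GX q0 (f4 0) (w4 J) (er0C q0) J + K0m (-sB q0) * (n0 q0 (f4 0) *
        ∏ q ∈ J, ((Nz q.1 : ℂ) - 1)) + (lm * (2 + lm) * HXX q0 ∅ J -
          -rh * MM 0 1 q0 ∅ J / lm ^ 3)) := by
  have hl := lm_ne
  have h1 : ∀ T ∈ J.powerset.erase ∅, (-1 : ℂ) ^ T.card * (-rh * MM 0 1 q0 T J / lm ^ 3) =
      lm ^ 2 * ((-1) ^ T.card * ((e4 (2 * bX q0 0 T lam) + (1 - e4 (2 - bX q0 0 T lam)) / lm) *
        HHX q0 T J)) + (-1) ^ T.card * FX q0 (f4 0) (er0C q0) T J := by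
    intro T hT
    obtain ⟨hne, hT⟩ := Finset.mem_erase.1 hT
    have hTJ := Finset.mem_powerset.1 hT
    have hTne := Finset.nonempty_iff_ne_empty.2 hne
    have e1 : e4 (2 - bX q0 0 T lam) = -e4 (-bX q0 0 T lam) := by
      rw [sub_eq_add_neg, e4_add, e4_two, neg_one_mul]
    rw [FX_U0m h0 hTJ, FX_one h0 (cop_f4 0 q0 J) hq0 hTJ hTne, HH_X h0 hq0 hTJ hTne, e1, HXX]
    field_simp
    ring
  have h2 := GX_w4 (q0 := q0) (kap := f4 0) (J := J) (f := er0C q0)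
  have h3 := FX_U0m (q0 := q0) (J := J) h0 (Finset.empty_subset J)
  rw [bX_zero_empty q0 lam, neg_zero, mul_zero, e4_zero, mul_one,
    FX_one_empty h0 (cop_f4 0 q0 J) hq0] at h3
  rw [← Finset.sum_erase_add _ _ (Finset.empty_mem_powerset J), Finset.card_empty, pow_zero,
    one_mul] at h2
  rw [Finset.sum_congr rfl h1, Finset.sum_add_distrib, ← Finset.mul_sum]
  linear_combination -h2 + h3

/-- **(C)**: the sums over the sets `T ≠ ∅` modulo `lm m`. -/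
theorem Rt_rhs0C (hB : (2 : ℂ)⁻¹ ∉ B) (h0 : aa q0.1 = 1) (hJ : J.Nonempty) (hq0 : q0 ∉ J) :
    Rt B ((∑ T ∈ J.powerset.erase ∅, (-1) ^ T.card * (-rh * MM 0 1 q0 T J / lm ^ (J.card + 4)) -
      ∑ T ∈ J.powerset.erase ∅, (-1) ^ T.card *
        ((e4 (2 * bX q0 0 T lam) + (1 - e4 (2 - bX q0 0 T lam)) / lm) *
          (HHX q0 T J / lm ^ (J.card - 1)))) / lm)
      (if J.card = 1 then ∑ i ∈ J, (aa i.1 + bb q0.1 * s4 q0 i) else 0) := by
  have hl := lm_ne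
  have hlv := v_lm_lt (B := B) hB
  have hl0 := v_lm_pos (B := B)
  obtain ⟨m, hm⟩ : ∃ m, J.card = m + 1 := ⟨J.card - 1, (Nat.succ_pred_eq_of_pos hJ.card_pos).symm⟩
  have h1 := er0C_sum (q0 := q0) (J := J) h0 hq0
  have hD := Rt_D0C (q0 := q0) (J := J) hB h0 hJ hq0
  have a1 : ∑ T ∈ J.powerset.erase ∅, (-1 : ℂ) ^ T.card * (-rh * MM 0 1 q0 T J /
      lm ^ (J.card + 4)) = (∑ T ∈ J.powerset.erase ∅, (-1) ^ T.card * (-rh * MM 0 1 q0 T J /
        lm ^ 3)) / lm ^ (m + 2) := by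
    rw [Finset.sum_div]
    refine Finset.sum_congr rfl fun T _ => ?_
    rw [hm]
    have e : m + 1 + 4 = 3 + (m + 2) := by ring
    rw [e, pow_add]
    have := pow_ne_zero (m + 2) hl
    field_simp
  have a2 : ∑ T ∈ J.powerset.erase ∅, (-1 : ℂ) ^ T.card *
        ((e4 (2 * bX q0 0 T lam) + (1 - e4 (2 - bX q0 0 T lam)) / lm) *
          (HHX q0 T J / lm ^ (J.card - 1))) = (∑ T ∈ J.powerset.erase ∅, (-1) ^ T.card *
        ((e4 (2 * bX q0 0 T lam) + (1 - e4 (2 - bX q0 0 T lam)) / lm) * HHX q0 T J)) /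
          lm ^ m := by
    rw [Finset.sum_div]
    refine Finset.sum_congr rfl fun T _ => ?_
    rw [hm, Nat.add_sub_cancel]
    ring
  have e : (∑ T ∈ J.powerset.erase ∅, (-1) ^ T.card * (-rh * MM 0 1 q0 T J / lm ^ (J.card + 4)) -
      ∑ T ∈ J.powerset.erase ∅, (-1) ^ T.card *
        ((e4 (2 * bX q0 0 T lam) + (1 - e4 (2 - bX q0 0 T lam)) / lm) *
          (HHX q0 T J / lm ^ (J.card - 1)))) / lm =
      GX q0 (f4 0) (w4 J) (er0C q0) J / lm ^ (m + 3) +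
      K0m (-sB q0) * (n0 q0 (f4 0) * ((∏ q ∈ J, ((Nz q.1 : ℂ) - 1)) / lm ^ (m + 3))) +
      (lm * (2 + lm) * HXX q0 ∅ J - -rh * MM 0 1 q0 ∅ J / lm ^ 3) / lm ^ (J.card + 2) := by
    rw [a1, a2, h1, hm]
    have := pow_ne_zero m hl
    have e2 : lm ^ (m + 2) = lm ^ m * lm ^ 2 := pow_add _ _ _
    have e3 : lm ^ (m + 3) = lm ^ m * lm ^ 3 := pow_add _ _ _
    rw [e2, e3]
    field_simp
    ring
  rw [e]
  have r1 : Rt B (GX q0 (f4 0) (w4 J) (er0C q0) J / lm ^ (m + 3)) 0 := by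
    refine Rt.of_lt ?_
    have e1 : GX q0 (f4 0) (w4 J) (er0C q0) J / lm ^ (m + 3) =
        GX q0 (f4 0) (wt4 J) (er0C q0) J / lm ^ 2 := by
      rw [GX_wt4, hm]
      have e3 : lm ^ (m + 3) = lm ^ (m + 1) * lm ^ 2 := by
        rw [← pow_add]
      have := pow_ne_zero (m + 1) hl
      rw [e3]
      field_simp
    rw [e1, map_div₀, map_pow, div_lt_one₀ (pow_pos hl0 2)]
    exact v_GX_lt hB (f4_ndvd 0) (pow_pos hl0 2) fun z hz => v_er0C hB q0 hz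
  have hK : B.valuation (K0m (-sB q0)) ≤ 1 := by
    have hz := v_zt (B := B)
    rcases sB_cases q0 with ⟨hs, -⟩ | ⟨hs, -⟩
    · have e1 : K0m (-sB q0) = 1 - lm - zt := by
        rw [hs, K0m]
        linear_combination (-1 / 2) * lm_sq
      rw [e1]
      exact (Valuation.map_sub _ _ _).trans (max_le ((Valuation.map_sub _ _ _).trans
        (max_le (map_one _).le hlv.le)) hz.le)
    · have e1 : K0m (-sB q0) = 1 - zt := by
        rw [hs, K0m]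
        linear_combination (-1 / 2) * lm_sq
      rw [e1]
      exact (Valuation.map_sub _ _ _).trans (max_le (map_one _).le hz.le)
  have r2 : Rt B (K0m (-sB q0) * (n0 q0 (f4 0) * ((∏ q ∈ J, ((Nz q.1 : ℂ) - 1)) /
      lm ^ (m + 3)))) 0 := by
    refine Rt.of_lt ?_
    rw [map_mul, map_mul]
    refine (mul_le_of_le_one_left' hK).trans_lt ((mul_le_of_le_one_left' v_n0).trans_lt ?_)
    rw [map_div₀, map_pow, div_lt_one₀ (pow_pos hl0 _)]
    refine (v_prod_Nz J).trans_lt ?_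
    exact pow_lt_pow_right_of_lt_one₀ hl0 hlv (by omega)
  have r3 := (r1.add hB r2).add hB hD
  rw [add_zero, zero_add] at r3
  exact r3

/-- `(i ^ (2 b) - 1) / lm` is small -/
theorem v_e4_two_sub (b : ZMod 4) : B.valuation ((e4 (2 * b) - 1) / lm) ≤ B.valuation lm := by
  have h1 := one_sub_e4_two b
  have hl := lm_ne
  have e : (e4 (2 * b) - 1) / lm = lm * (zt * ((md b).val : ℂ)) := by
    rw [div_eq_iff (pow_ne_zero 2 hl)] at h1
    rw [div_eq_iff hl]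
    linear_combination -h1
  rw [e, map_mul, map_mul, v_zt, one_mul]
  exact mul_le_of_le_one_right' (v_nat _)

/-- **(C)** with the coefficient `1 + g (2 - β)`. -/
theorem Rt_rhs0C_one (hB : (2 : ℂ)⁻¹ ∉ B) (h0 : aa q0.1 = 1) (hJ : J.Nonempty) (hq0 : q0 ∉ J)
    (hi : ∀ T ∈ J.powerset.erase ∅, B.valuation (HHX q0 T J / lm ^ (J.card - 1)) ≤ 1) :
    Rt B ((∑ T ∈ J.powerset.erase ∅, (-1) ^ T.card * (-rh * MM 0 1 q0 T J / lm ^ (J.card + 4)) -
      ∑ T ∈ J.powerset.erase ∅, (-1) ^ T.card *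
        ((1 + (1 - e4 (2 - bX q0 0 T lam)) / lm) * (HHX q0 T J / lm ^ (J.card - 1)))) / lm)
      (if J.card = 1 then ∑ i ∈ J, (aa i.1 + bb q0.1 * s4 q0 i) else 0) := by
  refine (Rt_rhs0C hB h0 hJ hq0).congr ?_
  have hl := lm_ne
  have e : (∑ T ∈ J.powerset.erase ∅, (-1) ^ T.card * (-rh * MM 0 1 q0 T J / lm ^ (J.card + 4)) -
      ∑ T ∈ J.powerset.erase ∅, (-1) ^ T.card *
        ((1 + (1 - e4 (2 - bX q0 0 T lam)) / lm) * (HHX q0 T J / lm ^ (J.card - 1)))) / lm -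
      (∑ T ∈ J.powerset.erase ∅, (-1) ^ T.card * (-rh * MM 0 1 q0 T J / lm ^ (J.card + 4)) -
      ∑ T ∈ J.powerset.erase ∅, (-1) ^ T.card *
        ((e4 (2 * bX q0 0 T lam) + (1 - e4 (2 - bX q0 0 T lam)) / lm) *
          (HHX q0 T J / lm ^ (J.card - 1)))) / lm =
      ∑ T ∈ J.powerset.erase ∅, (-1) ^ T.card *
        ((e4 (2 * bX q0 0 T lam) - 1) / lm * (HHX q0 T J / lm ^ (J.card - 1))) := by
    rw [← sub_div, sub_sub_sub_cancel_left, ← Finset.sum_sub_distrib, Finset.sum_div]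
    refine Finset.sum_congr rfl fun T _ => ?_
    ring
  rw [e]
  refine Valuation.map_sum_lt' _ zero_lt_one fun T hT => ?_
  rw [map_mul, map_pow, Valuation.map_neg, map_one, one_pow, one_mul, map_mul]
  exact mul_lt_one_of_lt_of_le ((v_e4_two_sub _).trans_lt (v_lm_lt hB)) (hi T hT)

/-- the sum of the `HHX` over the sets `T ≠ ∅` -/
theorem Rt_HH_sum (hB : (2 : ℂ)⁻¹ ∉ B) (h0 : aa q0.1 = 1) (hJ : J.Nonempty) (hq0 : q0 ∉ J) :
    Rt B (∑ T ∈ J.powerset.erase ∅, (-1) ^ T.card * (HHX q0 T J / lm ^ (J.card - 1)))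
      (if J.card = 1 then ∑ q ∈ J, s4 q0 q else 0) := by
  have h1 := Rt_GX_xi (q0 := q0) (J := J) hB hJ
  have h2 := Rt_HHX_empty (q0 := q0) hB h0 hq0 hJ
  have h3 := GX_w4 (q0 := q0) (kap := f4 0) (J := J) (f := xi)
  rw [← Finset.sum_erase_add _ _ (Finset.empty_mem_powerset J), Finset.card_empty, pow_zero,
    one_mul] at h3
  have h4 := h1.sub hB h2
  have hneg : ∀ x : ZMod 2, 0 - x = x := by decide
  rw [hneg] at h4
  have e : GX q0 (f4 0) (w4 J) xi J / lm ^ (J.card - 1) - HHX q0 ∅ J / lm ^ (J.card - 1) =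
      ∑ T ∈ J.powerset.erase ∅, (-1) ^ T.card * (HHX q0 T J / lm ^ (J.card - 1)) := by
    rw [h3, ← sub_div, HHX, add_sub_cancel_right, Finset.sum_div]
    exact Finset.sum_congr rfl fun T _ => by rw [mul_div_assoc, HHX]
  rwa [e] at h4

theorem ztlm (b : ZMod 4) :
    (1 - e4 (2 - (b + 2))) / lm - (1 - e4 (2 - b)) / lm = zt * lm * e4 (-b) := by
  have hl := lm_ne
  have e1 : e4 (2 - (b + 2)) = e4 (-b) := by
    congr 1
    ring
  have e2 : e4 (2 - b) = -e4 (-b) := by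
    rw [sub_eq_add_neg, e4_add, e4_two, neg_one_mul]
  rw [e1, e2, ← sub_div, div_eq_iff hl]
  linear_combination (-e4 (-b)) * two_lm

/-- **(C)** with the exponent `bX q0 1 T lam` (`= l_S` for `T = S`, `hh 1 + ∑ nn = 0`): the right
side is `∑ aa i` for every `bb q0`. -/
theorem Rt_rhs0C_bX (hB : (2 : ℂ)⁻¹ ∉ B) (h0 : aa q0.1 = 1) (hJ : J.Nonempty) (hq0 : q0 ∉ J)
    (hi : ∀ T ∈ J.powerset.erase ∅, B.valuation (HHX q0 T J / lm ^ (J.card - 1)) ≤ 1) :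
    Rt B ((∑ T ∈ J.powerset.erase ∅, (-1) ^ T.card * (-rh * MM 0 1 q0 T J / lm ^ (J.card + 4)) -
      ∑ T ∈ J.powerset.erase ∅, (-1) ^ T.card *
        ((1 + (1 - e4 (2 - bX q0 1 T lam)) / lm) * (HHX q0 T J / lm ^ (J.card - 1)))) / lm)
      (if J.card = 1 then ∑ i ∈ J, aa i.1 else 0) := by
  have h1 := Rt_rhs0C_one hB h0 hJ hq0 hi
  have hl := lm_ne
  obtain ⟨c, hc⟩ : ∃ c, c = 2 * c4 q0 lam := ⟨_, rfl⟩
  have hcc : (c = 0 ∧ bb q0.1 = 0) ∨ (c = 2 ∧ bb q0.1 = 1) := by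
    have h2 := c2_lam q0
    have key : ∀ t : ZMod 4, (2 * t = 0 ∧ md t = 0) ∨ (2 * t = 2 ∧ md t = 1) := by decide
    rw [← h2, hc]
    exact key _
  rcases hcc with ⟨h3, h4⟩ | ⟨h3, h4⟩
  · have e1 : ∀ T, bX q0 1 T lam = bX q0 0 T lam := fun T => by
      rw [bX_one h0, ← hc, h3, add_zero]
    simp only [e1]
    simp only [h4, zero_mul, add_zero] at h1
    exact h1
  · have e1 : ∀ T, bX q0 1 T lam = bX q0 0 T lam + 2 := fun T => by
      rw [bX_one h0, ← hc, h3]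
    have r1 : Rt B (∑ T ∈ J.powerset.erase ∅, (-1) ^ T.card * (zt * (e4 (-bX q0 0 T lam) *
        (HHX q0 T J / lm ^ (J.card - 1))))) (if J.card = 1 then ∑ q ∈ J, s4 q0 q else 0) := by
      refine (Rt_HH_sum hB h0 hJ hq0).congr ?_
      rw [← Finset.sum_sub_distrib]
      refine Valuation.map_sum_lt' _ zero_lt_one fun T hT => ?_
      have e2 : (-1 : ℂ) ^ T.card * (zt * (e4 (-bX q0 0 T lam) *
          (HHX q0 T J / lm ^ (J.card - 1)))) - (-1) ^ T.card * (HHX q0 T J / lm ^ (J.card - 1)) =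
          (-1) ^ T.card * ((zt * e4 (-bX q0 0 T lam) - 1) *
            (HHX q0 T J / lm ^ (J.card - 1))) := by ring
      rw [e2, map_mul, map_pow, Valuation.map_neg, map_one, one_pow, one_mul, map_mul]
      refine mul_lt_one_of_lt_of_le ?_ (hi T hT)
      have e3 : zt * e4 (-bX q0 0 T lam) - 1 =
          -(lm * ((1 - e4 (1 + -bX q0 0 T lam)) / lm)) := by
        rw [mul_div_cancel₀ _ hl, e4_add, e4_one]
        ring
      rw [e3, Valuation.map_neg, map_mul]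
      exact mul_lt_one_of_lt_of_le (v_lm_lt hB) (Rt_e4 hB _).le
    have r2 := h1.sub hB r1
    have e5 : (if J.card = 1 then ∑ i ∈ J, (aa i.1 + bb q0.1 * s4 q0 i) else 0) -
        (if J.card = 1 then ∑ q ∈ J, s4 q0 q else 0) =
        (if J.card = 1 then ∑ i ∈ J, aa i.1 else 0 : ZMod 2) := by
      by_cases h5 : J.card = 1
      · rw [if_pos h5, if_pos h5, if_pos h5, h4, ← Finset.sum_sub_distrib]
        exact Finset.sum_congr rfl fun i _ => by ring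
      · rw [if_neg h5, if_neg h5, if_neg h5, sub_zero]
    rw [e5] at r2
    have e6 : (∑ T ∈ J.powerset.erase ∅, (-1) ^ T.card *
        (-rh * MM 0 1 q0 T J / lm ^ (J.card + 4)) -
        ∑ T ∈ J.powerset.erase ∅, (-1) ^ T.card *
          ((1 + (1 - e4 (2 - bX q0 0 T lam)) / lm) * (HHX q0 T J / lm ^ (J.card - 1)))) / lm -
        ∑ T ∈ J.powerset.erase ∅, (-1) ^ T.card * (zt * (e4 (-bX q0 0 T lam) *
          (HHX q0 T J / lm ^ (J.card - 1)))) =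
        (∑ T ∈ J.powerset.erase ∅, (-1) ^ T.card *
        (-rh * MM 0 1 q0 T J / lm ^ (J.card + 4)) -
        ∑ T ∈ J.powerset.erase ∅, (-1) ^ T.card *
          ((1 + (1 - e4 (2 - bX q0 1 T lam)) / lm) * (HHX q0 T J / lm ^ (J.card - 1)))) / lm := by
      have e7 : ∑ T ∈ J.powerset.erase ∅, (-1 : ℂ) ^ T.card *
          ((1 + (1 - e4 (2 - bX q0 1 T lam)) / lm) * (HHX q0 T J / lm ^ (J.card - 1))) =
          ∑ T ∈ J.powerset.erase ∅, (-1) ^ T.card *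
          ((1 + (1 - e4 (2 - bX q0 0 T lam)) / lm) * (HHX q0 T J / lm ^ (J.card - 1))) +
          lm * ∑ T ∈ J.powerset.erase ∅, (-1) ^ T.card * (zt * (e4 (-bX q0 0 T lam) *
          (HHX q0 T J / lm ^ (J.card - 1)))) := by
        rw [Finset.mul_sum, ← Finset.sum_add_distrib]
        refine Finset.sum_congr rfl fun T _ => ?_
        rw [e1]
        linear_combination ((-1) ^ T.card * (HHX q0 T J / lm ^ (J.card - 1))) *
          ztlm (bX q0 0 T lam)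
      rw [e7, sub_add_eq_sub_sub, sub_div _ (lm * _), mul_div_cancel_left₀ _ hl]
    rw [e6] at r2
    exact r2

end

end Pool.Agent.Lib.MP_1a91b9_ntQ
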