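import Pool.Agent.Lib.MP_1a91b9_ntQ.A.Gam4
import Pool.Agent.Lib.MP_1a91b9_ntQ.A.EvX2

/-!
# Quartic twists, part A, file Rhs2: class (X), `k = 2`: the right side and the terms of the empty set
-/

set_option autoImplicit false
set_option linter.unusedSectionVars false

namespace Pool.Agent.Lib.MP_1a91b9_ntQ

open NumberField Pool.Agent.Lib.MP_1a91b9_nuT Pool.Agent.Lib.MP_1a91b9_nuT.S3
  Pool.Agent.Lib.MP_1a91b9_nuT.Ell

noncomputable section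

variable {B : ValuationSubring ℂ} {q0 : Pg} {J : Finset Pg}

/-- the constant of the expansion -/
def cX2 (h : ZMod 2) : ℂ := if h = 0 then 1 else c1X

theorem cX2_cases (h : ZMod 2) : h = 0 ∨ h = 1 := by
  revert h
  decide

theorem v_cX2 (hB : (2 : ℂ)⁻¹ ∉ B) (h : ZMod 2) : B.valuation (cX2 h) = 1 := by
  unfold cX2
  split
  · exact map_one _
  · exact v_c1X hB

theorem v_U2 (hB : (2 : ℂ)⁻¹ ∉ B) (h : ZMod 2) {z : ℂ} (hz : Od z) :
    B.valuation (UX 2 h (X z) + lm ^ 2 * (cX2 h + lm * (ze z + ze z ^ 2))) ≤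
      B.valuation lm ^ 4 := by
  have h20 : (2 : ZMod 4) ≠ 0 := by decide
  have h10 : (1 : ZMod 2) ≠ 0 := by decide
  rcases cX2_cases h with rfl | rfl
  · rw [UX, if_neg h20, if_pos rfl, cX2, if_pos rfl]
    exact v_U2p hB hz
  · rw [UX, if_neg h20, if_neg h10, cX2, if_neg h10]
    exact v_U2m hB hz

/-- the decomposition of the sum -/
theorem GX_U2 (h : ZMod 2) (g : 𝓞 K → ℂ) : GX q0 (f4 2) g (fun z => UX 2 h (X z)) J =
    GX q0 (f4 2) g (fun z => UX 2 h (X z) + lm ^ 2 * (cX2 h + lm * (ze z + ze z ^ 2))) J -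
      lm ^ 2 * cX2 h * GX q0 (f4 2) g (fun _ => 1) J -
      lm ^ 3 * GX q0 (f4 2) g (fun z => ze z + ze z ^ 2) J := by
  have e : (fun z : ℂ => UX 2 h (X z)) = fun z => (UX 2 h (X z) + lm ^ 2 * (cX2 h + lm *
      (ze z + ze z ^ 2)) + (-(lm ^ 2 * cX2 h)) * 1) + (-(lm ^ 3)) * (ze z + ze z ^ 2) := by
    funext z
    ring
  conv_lhs => rw [e]
  rw [GX_fadd, GX_fadd g _ (fun _ : ℂ => -(lm ^ 2 * cX2 h) * 1),
    GX_fcmul (-(lm ^ 2 * cX2 h)) g fun _ => 1, GX_fcmul (-(lm ^ 3)) g]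
  ring

/-- **The right side**, `k = 2`. -/
theorem v_rhs2 (hB : (2 : ℂ)⁻¹ ∉ B) (h0 : aa q0.1 = 1) (h : ZMod 2) (hJ : J.Nonempty)
    (hq : q0 ∉ J) :
    B.valuation (GX q0 (f4 2) (wt4 J) (fun z => UX 2 h (X z)) J) < B.valuation lm ^ 3 := by
  obtain ⟨l, hl⟩ : ∃ l, l = B.valuation lm := ⟨_, rfl⟩
  have hl0 : 0 < l := hl ▸ v_lm_pos
  have hl1 : l < 1 := hl ▸ v_lm_lt hB
  have hk := f4_ndvd 2
  rw [GX_U2, ← hl]
  refine Valuation.map_sub_lt _ (Valuation.map_sub_lt _ ?_ ?_) ?_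
  · refine lt_of_le_of_lt (v_GX_le hB hk (b := l ^ 4) fun z hz => hl ▸ v_U2 hB h hz) ?_
    exact pow_lt_pow_right_of_lt_one₀ hl0 hl1 (by norm_num)
  · have h1 := v_GX_wt4_one (B := B) hk hq
    rw [← hl] at h1
    rw [map_mul, map_mul, map_pow, v_cX2 hB, mul_one, ← hl]
    have h2 : (l ^ 3) ^ J.card ≤ l ^ 3 := by
      have h3 : (l ^ 3) ^ J.card ≤ (l ^ 3) ^ 1 :=
        pow_le_pow_right_of_le_one' (pow_le_one₀ zero_le hl1.le) hJ.card_pos
      rwa [pow_one] at h3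
    calc l ^ 2 * B.valuation (GX q0 (f4 2) (wt4 J) (fun _ => 1) J) ≤ l ^ 2 * l ^ 3 :=
          mul_le_mul' le_rfl (h1.trans h2)
      _ = l ^ 5 := by rw [← pow_add]
      _ < l ^ 3 := pow_lt_pow_right_of_lt_one₀ hl0 hl1 (by norm_num)
  · rw [map_mul, map_pow, ← hl]
    have h1 := gamX hB h0 hk J (f := fun z => ze z + ze z ^ 2) fun z hz => v_ze_ze hB hz
    calc l ^ 3 * B.valuation (GX q0 (f4 2) (wt4 J) (fun z => ze z + ze z ^ 2) J) < l ^ 3 * 1 :=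
          (mul_lt_mul_iff_right₀ (pow_pos hl0 3)).2 h1
      _ = l ^ 3 := mul_one _

/-- **The right side**, `k = 2`, as a residue class. -/
theorem Rt_rhs2 (hB : (2 : ℂ)⁻¹ ∉ B) (h0 : aa q0.1 = 1) (h : ZMod 2) (hJ : J.Nonempty)
    (hq : q0 ∉ J) :
    Rt B (GX q0 (f4 2) (w4 J) (fun z => UX 2 h (X z)) J / lm ^ (J.card + 3)) 0 := by
  refine Rt.of_lt ?_
  have h1 := v_rhs2 hB h0 h hJ hq
  have hl0 : 0 < B.valuation lm ^ 3 := pow_pos v_lm_pos 3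
  have e : GX q0 (f4 2) (w4 J) (fun z => UX 2 h (X z)) J / lm ^ (J.card + 3) =
      GX q0 (f4 2) (wt4 J) (fun z => UX 2 h (X z)) J / lm ^ 3 := by
    rw [GX_wt4, pow_add]
    have := pow_ne_zero J.card lm_ne
    field_simp
  rw [e, map_div₀, map_pow, div_lt_one₀ hl0]
  exact h1

/-! ### The factors -/

theorem Rt_e4_one (hB : (2 : ℂ)⁻¹ ∉ B) (t : ZMod 4) : Rt B (e4 t) 1 := by
  refine Rt.one.congr ?_
  have h1 := (Rt_e4 hB t).le
  have hl := v_lm_lt hB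
  have e : e4 t - 1 = -(lm * ((1 - e4 t) / lm)) := by
    rw [mul_div_cancel₀ _ lm_ne]
    ring
  rw [e, Valuation.map_neg, map_mul]
  exact mul_lt_one_of_lt_of_le hl h1

theorem Rt_zt_one (hB : (2 : ℂ)⁻¹ ∉ B) : Rt B zt 1 := by
  have h := Rt_e4_one hB 1
  rwa [e4_one] at h

theorem Rhs2_em_sub (q : Pg) : ∃ y : 𝓞 K, em q.1 - 1 = lm ^ 3 * em y := by
  obtain ⟨y, hy⟩ := q.2.2
  refine ⟨y, ?_⟩
  have h := congrArg em hy
  rw [em_sub, em_one, em_mul, em_pow, em_lam] at h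
  exact h

private theorem Rhs2_em (x : 𝓞 K) : B.valuation (em x) ≤ 1 := by
  rw [ValuationSubring.valuation_le_one_iff]
  have e : em x = ((cp x).1 : ℂ) + ((cp x).2 : ℂ) * zt := by
    have h2 : em (iO : 𝓞 K) = zt := rfl
    conv_lhs => rw [eq_cp x]
    rw [em_add, em_mul, em_intCast, em_intCast, h2]
  rw [e]
  refine add_mem (intCast_mem B _) (mul_mem (intCast_mem B _) ?_)
  rw [← ValuationSubring.valuation_le_one_iff, v_zt]

theorem Rt_em_sub (hB : (2 : ℂ)⁻¹ ∉ B) (q : Pg) : Rt B ((em q.1 - 1) / lm ^ 2) 0 := by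
  obtain ⟨y, hy⟩ := Rhs2_em_sub q
  refine Rt.of_lt ?_
  have e : (em q.1 - 1) / lm ^ 2 = lm * em y := by
    rw [hy]
    have := lm_ne
    field_simp
  rw [e, map_mul]
  exact mul_lt_one_of_lt_of_le (v_lm_lt hB) (Rhs2_em y)

/-- the class of `(q - i ^ t) / lam ^ 2`, `t` even -/
theorem Rt_em_e4 (hB : (2 : ℂ)⁻¹ ∉ B) (q : Pg) {t : ZMod 4} {x : ZMod 2}
    (h : (t = 0 ∧ x = 0) ∨ (t = 2 ∧ x = 1)) : Rt B ((em q.1 - e4 t) / lm ^ 2) x := by
  have h1 := Rt_em_sub hB q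
  have h2 : Rt B ((1 - e4 t) / lm ^ 2) x := by
    rcases h with ⟨rfl, rfl⟩ | ⟨rfl, rfl⟩
    · rw [e4_zero, sub_self, zero_div]
      exact Rt.zero
    · have e : (1 - e4 2) / lm ^ 2 = -zt := by
        rw [e4_two, div_eq_iff (pow_ne_zero 2 lm_ne), lm_sq]
        linear_combination 2 * zt_sq
      rw [e]
      exact (Rt_zt_one hB).neg hB
  have h3 := h1.add hB h2
  rw [zero_add] at h3
  have e : (em q.1 - 1) / lm ^ 2 + (1 - e4 t) / lm ^ 2 = (em q.1 - e4 t) / lm ^ 2 := by ring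
  rwa [e] at h3

/-- the factor at `q` -/
def fac2 (h : ZMod 2) (q0 q : Pg) : ℂ := th4 2 q.1 * em q.1 - e4 (bX q0 h ∅ q.1)

theorem Rt_fac2 (hB : (2 : ℂ)⁻¹ ∉ B) (h0 : aa q0.1 = 1) (h : ZMod 2) (q : Pg) :
    Rt B (fac2 h q0 q / lm ^ 2) (aa q.1 + h * s4 q0 q) := by
  have key : ∀ (h : ZMod 2) (n m c : ZMod 4), md m = 1 →
      (2 * n + (-((hh h + 0) * m) * c + 0) = 0 ∧ md n + h * md c = 0) ∨
      (2 * n + (-((hh h + 0) * m) * c + 0) = 2 ∧ md n + h * md c = 1) := by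
    unfold hh
    decide
  have h1 := key h (nn q.1) (nn q0.1) (c4 q0 q.1) h0
  have h2 : (2 * nn q.1 + bX q0 h ∅ q.1 = 0 ∧ aa q.1 + h * s4 q0 q = 0) ∨
      (2 * nn q.1 + bX q0 h ∅ q.1 = 2 ∧ aa q.1 + h * s4 q0 q = 1) := by
    rw [bX, e0X, Finset.sum_empty, Finset.sum_empty]
    exact h1
  have h3 := (Rt_e4_one hB (2 * nn q.1)).mul hB (Rt_em_e4 hB q h2)
  rw [one_mul] at h3
  have e1 : e4 (2 * nn q.1) * e4 (2 * nn q.1) = 1 := by
    have key2 : ∀ n : ZMod 4, 2 * n + 2 * n = 0 := by decide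
    rw [← e4_add, key2, e4_zero]
  have e : fac2 h q0 q / lm ^ 2 =
      e4 (2 * nn q.1) * ((em q.1 - e4 (2 * nn q.1 + bX q0 h ∅ q.1)) / lm ^ 2) := by
    rw [fac2, th4, e4_add]
    have := lm_ne
    field_simp
    linear_combination (e4 (bX q0 h ∅ q.1)) * e1
  rw [e]
  exact h3

theorem MM_empty_prod (h0 : aa q0.1 = 1) (h : ZMod 2) (hq : q0 ∉ J) :
    MM 2 h q0 ∅ J = (∏ q ∈ J, fac2 h q0 q) * MM 2 h q0 ∅ ∅ := by
  induction J using Finset.induction_on with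
  | empty => rw [Finset.prod_empty, one_mul]
  | insert q J hqJ ih =>
    have hqJ' : q0 ∉ J := fun h1 => hq (Finset.mem_insert_of_mem h1)
    rw [MM_step (Or.inr rfl) h0 h (Finset.empty_subset J) hqJ hq, ih hqJ', Finset.prod_insert hqJ,
      fac2]
    ring

theorem wt4_empty (x : 𝓞 K) : wt4 ∅ x = 1 := by
  rw [wt4, w4_empty, Finset.card_empty, pow_zero, div_one]

theorem Rt_c1X (hB : (2 : ℂ)⁻¹ ∉ B) : Rt B c1X 1 := by
  refine Rt.one.congr ?_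
  have h1 := (v_rh_inv hB).trans (v_lm_lt hB)
  have e : c1X - 1 = -zt * (rh⁻¹ - zt) := by
    rw [c1X]
    linear_combination (-1 : ℂ) * zt_sq
  rw [e, map_mul, Valuation.map_neg, v_zt, one_mul]
  exact h1

/-- the value for `T = J = ∅` -/
theorem Rt_MM2_empty (hB : (2 : ℂ)⁻¹ ∉ B) (h0 : aa q0.1 = 1) (h : ZMod 2) :
    Rt B (MM 2 h q0 ∅ ∅ / lm ^ 2) 1 := by
  rcases cX2_cases h with rfl | rfl
  · rw [MM_empty (Or.inr rfl) h0]
    have key : ∀ n : ZMod 4, md n = 1 → 2 * n = 2 := by decide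
    have h2 : th4 2 q0.1 = -1 := by
      rw [th4, key _ h0, e4_two]
    have h3 := ((Rt_em_e4 hB q0 (t := 2) (x := 1) (Or.inr ⟨rfl, rfl⟩))).neg hB
    have e : (th4 2 q0.1 * em q0.1 - 1) / lm ^ 2 = -((em q0.1 - e4 2) / lm ^ 2) := by
      rw [h2, e4_two]
      ring
    rw [e]
    exact h3
  · have hk := f4_ndvd 2
    have hl := v_lm_lt hB
    have hl0 : 0 < B.valuation lm := v_lm_pos
    have h10 : (1 : ZMod 2) ≠ 0 := by decide
    have hc : cX2 1 = c1X := by rw [cX2, if_neg h10]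
    have e1 : MM 2 1 q0 ∅ ∅ = GX q0 (f4 2) (wt4 ∅) (fun z => UX 2 1 (X z)) ∅ := by
      rw [MM]
      congr 1
      funext x
      rw [Finset.prod_empty, wt4_empty]
    have e2 : GX q0 (f4 2) (wt4 ∅) (fun _ => 1) ∅ = n0 q0 (f4 2) := by
      have h3 := GX_w4_one (J := ∅) hk (Finset.notMem_empty q0)
      rw [GX_wt4, Finset.card_empty, pow_zero, one_mul, Finset.prod_empty, mul_one] at h3
      exact h3
    rw [e1, GX_U2, e2, hc]
    have a1 : Rt B (GX q0 (f4 2) (wt4 ∅) (fun z => UX 2 1 (X z) + lm ^ 2 * (cX2 1 + lm *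
        (ze z + ze z ^ 2))) ∅ / lm ^ 2) 0 := by
      refine Rt.of_lt ?_
      have h3 := v_GX_le hB hk (q0 := q0) (J := ∅) (b := B.valuation lm ^ 4)
        fun z hz => v_U2 hB 1 hz
      rw [map_div₀, map_pow, div_lt_one₀ (pow_pos hl0 2)]
      exact h3.trans_lt (pow_lt_pow_right_of_lt_one₀ hl0 hl (by norm_num))
    have a2 : Rt B (c1X * n0 q0 (f4 2)) 1 := by
      have h3 : Rt B (n0 q0 (f4 2)) 1 := by
        refine Rt.one.congr ?_
        exact (v_n0_sub h0 hk).trans_lt (two_lt hB)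
      have h4 := (Rt_c1X hB).mul hB h3
      rwa [one_mul] at h4
    have a3 : Rt B (lm * GX q0 (f4 2) (wt4 ∅) (fun z => ze z + ze z ^ 2) ∅) 0 := by
      refine Rt.of_lt ?_
      have h3 := gamX hB h0 hk ∅ (f := fun z => ze z + ze z ^ 2) fun z hz => v_ze_ze hB hz
      rw [map_mul]
      exact mul_lt_one_of_lt_of_le hl h3.le
    rw [hc] at a1
    have a4 := (a1.sub hB a2).sub hB a3
    have e3 : (0 : ZMod 2) - 1 - 0 = 1 := by decide
    rw [e3] at a4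
    have e4' : GX q0 (f4 2) (wt4 ∅) (fun z => UX 2 1 (X z) + lm ^ 2 * (c1X + lm *
        (ze z + ze z ^ 2))) ∅ / lm ^ 2 - c1X * n0 q0 (f4 2) -
        lm * GX q0 (f4 2) (wt4 ∅) (fun z => ze z + ze z ^ 2) ∅ =
        (GX q0 (f4 2) (wt4 ∅) (fun z => UX 2 1 (X z) + lm ^ 2 * (c1X + lm *
        (ze z + ze z ^ 2))) ∅ - lm ^ 2 * c1X * n0 q0 (f4 2) -
        lm ^ 3 * GX q0 (f4 2) (wt4 ∅) (fun z => ze z + ze z ^ 2) ∅) / lm ^ 2 := by
      have := lm_ne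
      field_simp
    rw [e4'] at a4
    exact a4

/-- **The terms of the empty set**, `k = 2`. -/
theorem Rt_MM2 (hB : (2 : ℂ)⁻¹ ∉ B) (h0 : aa q0.1 = 1) (h : ZMod 2) (hJ : J.Nonempty)
    (hq : q0 ∉ J) :
    Rt B (MM 2 h q0 ∅ J / lm ^ (J.card + 3))
      (if J.card = 1 then ∑ i ∈ J, (aa i.1 + h * s4 q0 i) else 0) := by
  obtain ⟨n, hn⟩ : ∃ n, J.card = n + 1 := ⟨J.card - 1, by have := hJ.card_pos; omega⟩
  have h1 := (Rt_MM2_empty hB h0 h).mul hB (Rt.prod hB J fun q _ => Rt_fac2 hB h0 h q)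
  have e : MM 2 h q0 ∅ J / lm ^ (J.card + 3) =
      MM 2 h q0 ∅ ∅ / lm ^ 2 * (∏ q ∈ J, (fac2 h q0 q / lm ^ 2)) * lm ^ n := by
    rw [MM_empty_prod h0 h hq, Finset.prod_div_distrib, Finset.prod_const, hn]
    have := lm_ne
    field_simp
    ring
  rw [e]
  by_cases hc : J.card = 1
  · rw [if_pos hc]
    have hn0 : n = 0 := by omega
    obtain ⟨q, rfl⟩ := Finset.card_eq_one.1 hc
    rw [hn0, pow_zero, mul_one, Finset.sum_singleton]
    rw [Finset.prod_singleton, Finset.prod_singleton, one_mul] at h1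
    rw [Finset.prod_singleton]
    exact h1
  · rw [if_neg hc]
    refine Rt.of_lt ?_
    rw [mul_comm, map_mul, map_pow]
    refine mul_lt_one_of_lt_of_le ?_ h1.le
    exact pow_lt_one₀ zero_le (v_lm_lt hB) (by omega)

end

end Pool.Agent.Lib.MP_1a91b9_ntQ
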