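import Pool.Agent.Lib.MP_1a91b9_ntQ.A.HH4
import Pool.Agent.Lib.MP_1a91b9_ntQ.A.EvX2
import Pool.Agent.Lib.MP_1a91b9_ntQ.A.Fac4

/-!
# Quartic twists, part A, file RhsB: class (X), `k = 0`, `h = 0`, the recursion to second order
-/

set_option autoImplicit false

namespace Pool.Agent.Lib.MP_1a91b9_ntQ

open NumberField Pool.Agent.Lib.MP_1a91b9_nuT Pool.Agent.Lib.MP_1a91b9_nuT.S3
  Pool.Agent.Lib.MP_1a91b9_nuT.Ell

noncomputable section

variable {B : ValuationSubring ℂ} {q0 : Pg} {T J : Finset Pg}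

theorem UX_zero_zero (z : ℂ) : UX 0 0 (X z) = U0p (X z) := by
  rw [UX, if_pos rfl, if_pos rfl]

/-- the remainder of the function -/
def gBX (z : ℂ) : ℂ := U0p (X z) / lm ^ 5 - 1 / lm ^ 2 + zt / lm * (xi z + xi (lm * z))

theorem v_gBX (hB : (2 : ℂ)⁻¹ ∉ B) {z : ℂ} (hz : Od z) :
    B.valuation (gBX z - (xi z + xi (lm ^ 2 * z))) < 1 := by
  have h1 := v_U0p hB hz
  have h2 := v_ze_ze hB hz
  have x0 := xi_le hB hz
  have x1 := xi_le hB hz.mul_lm
  have h3 := ze_eq hz.two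
  have hl := lm_ne
  have e2 : (zt * (xi z + xi (lm * z)) - ze z) / lm = -lm * (xi z * xi (lm * z)) := by
    rw [h3, div_eq_iff hl]
    linear_combination (xi z * xi (lm * z)) * lm_sq
  have e : gBX z - (xi z + xi (lm ^ 2 * z)) =
      (U0p (X z) - lm ^ 3 * (1 - lm * ze z + lm ^ 2 * (ze z + ze z ^ 2))) / lm ^ 5 +
        (ze z + ze z ^ 2 - (xi z + xi (lm ^ 2 * z))) + -lm * (xi z * xi (lm * z)) := by
    rw [← e2, gBX]
    field_simp
    ring
  rw [e]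
  refine Valuation.map_add_lt _ (Valuation.map_add_lt _ ?_ h2) ?_
  · rw [map_div₀, map_pow, div_lt_one₀ (pow_pos v_lm_pos 5)]
    exact h1.trans_lt (pow_lt_pow_right_of_lt_one₀ v_lm_pos (v_lm_lt hB) (by norm_num))
  · rw [map_mul, Valuation.map_neg, map_mul]
    exact mul_lt_one_of_lt_of_le (v_lm_lt hB) (mul_le_one' x0 x1)

/-- the decomposition of the right side -/
theorem GX_U0 (J : Finset Pg) : GX q0 (f4 0) (wt4 J) (fun z => UX 0 0 (X z)) J / lm ^ 5 =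
    GX q0 (f4 0) (wt4 J) gBX J + GX q0 (f4 0) (wt4 J) (fun _ => 1) J / lm ^ 2 -
      zt / lm * (GX q0 (f4 0) (wt4 J) xi J + GX q0 (f4 0) (wt4 J) (fun z => xi (lm * z)) J) := by
  have hl := lm_ne
  have e : (fun z : ℂ => UX 0 0 (X z)) = fun z => lm ^ 5 * ((gBX z + (1 / lm ^ 2) * 1) +
      (-(zt / lm)) * (xi z + xi (lm * z))) := by
    funext z
    rw [UX_zero_zero, gBX]
    field_simp
    ring
  rw [e, GX_fcmul (lm ^ 5), GX_fadd, GX_fadd, GX_fcmul (1 / lm ^ 2), GX_fcmul (-(zt / lm)), GX_fadd]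
  field_simp
  ring

/-! ### The terms of the empty set -/

/-- the product formula, `T = ∅` -/
theorem MM_empty_prod0 (h0 : aa q0.1 = 1) (h : ZMod 2) (hq : q0 ∉ J) :
    MM 0 h q0 ∅ J = (∏ q ∈ J, (em q.1 - e4 (bX q0 h ∅ q.1))) * MM 0 h q0 ∅ ∅ := by
  have h1 : ∀ q : Pg, th4 0 q.1 = 1 := fun q => by rw [th4, zero_mul, e4_zero]
  induction J using Finset.induction_on with
  | empty => rw [Finset.prod_empty, one_mul]
  | insert q J hqJ ih =>
    have hqJ' : q0 ∉ J := fun h1 => hq (Finset.mem_insert_of_mem h1)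
    rw [MM_step (Or.inl rfl) h0 h (Finset.empty_subset J) hqJ hq, ih hqJ', Finset.prod_insert hqJ, h1]
    ring

theorem Rt_em_three (hB : (2 : ℂ)⁻¹ ∉ B) (q : Pg) : Rt B ((em q.1 - 1) / lm ^ 3) (aa q.1) := by
  have h1 := Rt_fac_zero hB q
  have h2 : X4 0 ∅ q.1 = 1 := by rw [X4_eq, Finset.prod_empty, mul_one, th4, zero_mul, e4_zero]
  rwa [h2] at h1

/-- the term of the empty set, `h = 0` -/
theorem Rt_MM00 (hB : (2 : ℂ)⁻¹ ∉ B) (h0 : aa q0.1 = 1) (hq : q0 ∉ J) (hJ : J.Nonempty) :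
    Rt B (MM 0 0 q0 ∅ J / lm ^ (J.card + 5)) (if J.card = 1 then ∑ i ∈ J, aa i.1 else 0) := by
  obtain ⟨m, hm⟩ : ∃ m, J.card = m + 1 := ⟨J.card - 1, (Nat.succ_pred_eq_of_pos hJ.card_pos).symm⟩
  have hl := lm_ne
  have h1 := (Rt_em_three hB q0).mul hB (Rt.prod hB J fun q _ => Rt_em_three hB q)
  rw [h0, one_mul] at h1
  have h2 : ∏ q ∈ J, (em q.1 - e4 (bX q0 0 ∅ q.1)) = ∏ q ∈ J, (em q.1 - 1) :=
    Finset.prod_congr rfl fun q _ => by rw [bX_zero_empty, e4_zero]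
  have h3 : th4 0 q0.1 = 1 := by rw [th4, zero_mul, e4_zero]
  have e : MM 0 0 q0 ∅ J / lm ^ (J.card + 5) = (em q0.1 - 1) / lm ^ 3 *
      (∏ q ∈ J, ((em q.1 - 1) / lm ^ 3)) * (lm ^ m) ^ 2 := by
    rw [MM_empty_prod0 h0 0 hq, h2, MM_empty (Or.inl rfl) h0, h3, Finset.prod_div_distrib,
      Finset.prod_const, hm]
    field_simp
    ring
  rw [e]
  rcases Nat.eq_zero_or_pos m with rfl | hmpos
  · obtain ⟨q, rfl⟩ := Finset.card_eq_one.1 hm
    rw [Finset.card_singleton, if_pos rfl, Finset.sum_singleton, pow_zero, one_pow, mul_one]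
    rwa [Finset.prod_singleton (f := fun q : Pg => aa q.1)] at h1
  · rw [if_neg (by omega)]
    refine Rt.of_lt ?_
    rw [map_mul, mul_comm, map_pow, map_pow]
    refine mul_lt_one_of_lt_of_le ?_ h1.le
    exact pow_lt_one₀ zero_le (pow_lt_one₀ zero_le (v_lm_lt hB) hmpos.ne') two_ne_zero

/-! ### The recursion -/

/-- **(B)** -/
theorem Rt_rhsB (hB : (2 : ℂ)⁻¹ ∉ B) (h0 : aa q0.1 = 1) (hq : q0 ∉ J) (hJ : J.Nonempty) :
    Rt B ((∑ T ∈ J.powerset.erase ∅, (-1) ^ T.card * (MM 0 0 q0 T J / lm ^ (J.card + 4)) -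
      (1 + lm) * ∑ T ∈ J.powerset.erase ∅, (-1) ^ T.card * (HHX q0 T J / lm ^ (J.card - 1)) *
        ((1 - e4 (2 - bX q0 0 T lam)) / lm)) / lm)
      (if J.card = 1 then ∑ i ∈ J, (aa i.1 + s4 q0 i) else 0) := by
  obtain ⟨m, hm⟩ : ∃ m, J.card = m + 1 := ⟨J.card - 1, (Nat.succ_pred_eq_of_pos hJ.card_pos).symm⟩
  have hl := lm_ne
  have hlm := pow_ne_zero m lm_ne
  have hE0 : (∅ : Finset Pg) ∈ J.powerset := Finset.empty_mem_powerset J
  obtain ⟨r, hr, hr'⟩ : ∃ r : ℂ, e4 (2 * c4 q0 lam) = r ∧ (r = 1 ∨ r = -1) := by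
    refine ⟨_, rfl, ?_⟩
    have key : ∀ c : ZMod 4, 2 * c = 0 ∨ 2 * c = 2 := by decide
    rcases key (c4 q0 lam) with h | h
    · left
      rw [h, e4_zero]
    · right
      rw [h, e4_two]
  have hrr : r * r = 1 := by
    rcases hr' with h | h <;> rw [h] <;> norm_num
  obtain ⟨H, hH, hH1⟩ : ∃ H : ℂ, GX q0 (f4 0) (wt4 J) xi J = H ∧ B.valuation H ≤ 1 :=
    ⟨_, rfl, v_GX_le hB (f4_ndvd 0) fun z hz => xi_le hB hz⟩
  obtain ⟨H', hH', hH1'⟩ : ∃ H' : ℂ, GX q0 (f4 0) (wt4 J) (fun z => xi (lm * z)) J = H' ∧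
      B.valuation H' ≤ 1 := ⟨_, rfl, v_GX_le hB (f4_ndvd 0) fun z hz => xi_le hB hz.mul_lm⟩
  obtain ⟨G, hG, hG1⟩ : ∃ G : ℂ, GX q0 (f4 0) (wt4 J) gBX J = G ∧ B.valuation G < 1 :=
    ⟨_, rfl, gamX hB h0 (f4_ndvd 0) J fun z hz => v_gBX hB hz⟩
  obtain ⟨O, hO, hO1⟩ : ∃ O : ℂ, GX q0 (f4 0) (wt4 J) (fun _ => 1) J = O ∧
      B.valuation O ≤ (B.valuation lm ^ 3) ^ J.card := ⟨_, rfl, v_GX_wt4_one (f4_ndvd 0) hq⟩
  obtain ⟨N, hN, hN1⟩ : ∃ N : ℂ, n0 q0 (f4 0) * ∏ q ∈ J, ((Nz q.1 : ℂ) - 1) = N ∧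
      B.valuation N ≤ B.valuation lm ^ (4 * (m + 1)) := by
    refine ⟨_, rfl, ?_⟩
    rw [map_mul, map_prod, pow_mul, ← hm]
    refine (mul_le_of_le_one_left' v_n0).trans ?_
    exact Finset.prod_le_pow_card _ _ _ fun q _ => v_Nz_sub q
  obtain ⟨P, hP⟩ : ∃ P : ℂ, HHX q0 ∅ J = P := ⟨_, rfl⟩
  obtain ⟨E, hE⟩ : ∃ E : ℂ, MM 0 0 q0 ∅ J = E := ⟨_, rfl⟩
  -- the sum of the `MM`
  have s1 : ∑ T ∈ J.powerset.erase ∅, (-1) ^ T.card * (MM 0 0 q0 T J / lm ^ (J.card + 4)) =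
      (lm ^ (m + 1) * (lm ^ 5 * (G + O / lm ^ 2 - zt / lm * (H + H'))) - E) / lm ^ (m + 1 + 4) := by
    have h1 := GX_U0 (q0 := q0) J
    rw [hG, hO, hH, hH', div_eq_iff (pow_ne_zero 5 hl)] at h1
    have h2 := MM_sum 0 0 q0 J
    rw [GX_wt4, h1, hm] at h2
    have h3 : ∑ T ∈ J.powerset.erase ∅, (-1) ^ T.card * (MM 0 0 q0 T J / lm ^ (J.card + 4)) =
        (∑ T ∈ J.powerset.erase ∅, (-1) ^ T.card * MM 0 0 q0 T J) / lm ^ (m + 1 + 4) := by
      rw [Finset.sum_div, hm]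
      exact Finset.sum_congr rfl fun T _ => (mul_div_assoc _ _ _).symm
    rw [h3, Finset.sum_erase_eq_sub hE0, h2, Finset.card_empty, pow_zero, one_mul, hE]
    ring
  -- the sum of the `HHX`
  have s2 : ∑ T ∈ J.powerset.erase ∅, (-1) ^ T.card * HHX q0 T J = lm ^ (m + 1) * H - P := by
    have h2 := GX_w4 (q0 := q0) (kap := f4 0) (J := J) (f := xi)
    rw [GX_wt4, hH, hm] at h2
    rw [Finset.sum_erase_eq_sub hE0, Finset.card_empty, pow_zero, one_mul, hP, h2]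
    rfl
  have s3 : ∑ T ∈ J.powerset.erase ∅, (-1) ^ T.card * (e4 (-bX q0 0 T lam) * HHX q0 T J) =
      r * (lm ^ (m + 1) * H' - (r * P + (r - 1) / 2 * N)) := by
    have h2 := GX_w4 (q0 := q0) (kap := f4 0) (J := J) (f := fun z => xi (lm * z))
    rw [GX_wt4, hH', hm] at h2
    have h3 := FX_xi_lam_empty h0 hq 1
    have e1 : 2 * ((1 : ℕ) : ZMod 4) * c4 q0 lam = 2 * c4 q0 lam := by
      rw [Nat.cast_one, mul_one]
    rw [e1, hr, hP, hN] at h3
    simp only [pow_one] at h3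
    have h4 : ∀ T ∈ J.powerset.erase ∅, (-1 : ℂ) ^ T.card * (e4 (-bX q0 0 T lam) * HHX q0 T J) =
        r * ((-1) ^ T.card * FX q0 (f4 0) (fun z => xi (lm * z)) T J) := by
      intro T hT
      have hT1 := Finset.mem_erase.1 hT
      have h5 := FX_xi_lam h0 hq (Finset.mem_powerset.1 hT1.2)
        (Finset.nonempty_iff_ne_empty.2 hT1.1) 1
      simp only [pow_one] at h5
      have e2 : -(((1 : ℕ) : ZMod 4) * bX q0 1 T lam) = -bX q0 0 T lam + 2 * c4 q0 lam := by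
        rw [Nat.cast_one, one_mul, bX_one h0]
        have key : ∀ b c : ZMod 4, -(b + 2 * c) = -b + 2 * c := by decide
        exact key _ _
      rw [e2, e4_add, hr] at h5
      rw [h5]
      linear_combination (-(-1 : ℂ) ^ T.card * e4 (-bX q0 0 T lam) * HHX q0 T J) * hrr
    rw [Finset.sum_congr rfl h4, ← Finset.mul_sum, Finset.sum_erase_eq_sub hE0, ← h2,
      Finset.card_empty, pow_zero, one_mul, h3]
  have s4' : ∑ T ∈ J.powerset.erase ∅, (-1) ^ T.card * (HHX q0 T J / lm ^ (J.card - 1)) *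
      ((1 - e4 (2 - bX q0 0 T lam)) / lm) =
      ((lm ^ (m + 1) * H - P) + r * (lm ^ (m + 1) * H' - (r * P + (r - 1) / 2 * N))) /
        (lm ^ m * lm) := by
    rw [← s2, ← s3, ← Finset.sum_add_distrib, Finset.sum_div, hm, Nat.add_sub_cancel]
    refine Finset.sum_congr rfl fun T _ => ?_
    have e1 : e4 (2 - bX q0 0 T lam) = -e4 (-bX q0 0 T lam) := by
      rw [sub_eq_add_neg, e4_add, e4_two, neg_one_mul]
    rw [e1]
    field_simp
    ring
  have key : (∑ T ∈ J.powerset.erase ∅, (-1) ^ T.card * (MM 0 0 q0 T J / lm ^ (J.card + 4)) -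
      (1 + lm) * ∑ T ∈ J.powerset.erase ∅, (-1) ^ T.card * (HHX q0 T J / lm ^ (J.card - 1)) *
        ((1 - e4 (2 - bX q0 0 T lam)) / lm)) / lm =
      (G + O / lm ^ 2 + (-2 * H + (1 - r - lm * (1 + r)) / lm * H') +
        (1 + lm) * (r * ((r - 1) / 2)) * (N / lm ^ (m + 2))) - E / lm ^ (J.card + 5) +
      -zt * (1 + lm) * (P / lm ^ (J.card - 1)) := by
    have e1 : (lm ^ (m + 1) * (lm ^ 5 * (G + O / lm ^ 2 - zt / lm * (H + H'))) - E) /
        lm ^ (m + 1 + 4) / lm = G + O / lm ^ 2 - zt / lm * (H + H') - E / lm ^ (m + 1 + 5) := by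
      have k1 : lm ^ (m + 1 + 4) = lm ^ m * lm ^ 5 := by ring
      have k2 : lm ^ (m + 1 + 5) = lm ^ m * lm ^ 6 := by ring
      have k3 : lm ^ (m + 1) = lm ^ m * lm := by ring
      rw [k1, k2, k3]
      field_simp
    have e2 : (1 + lm) * (((lm ^ (m + 1) * H - P) + r * (lm ^ (m + 1) * H' -
        (r * P + (r - 1) / 2 * N))) / (lm ^ m * lm)) / lm = (1 + lm) * (H + r * H') / lm -
        (1 + lm) * (2 * P + r * ((r - 1) / 2) * N) / (lm ^ m * lm ^ 2) := by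
      have k3 : lm ^ (m + 1) = lm ^ m * lm := by ring
      rw [k3]
      field_simp
      linear_combination (-2 * (1 + lm) * P) * hrr
    have e3 : 2 * P / (lm ^ m * lm ^ 2) = -zt * (P / lm ^ m) := by
      rw [two_lm]
      field_simp
    have e4' : (1 + lm) * (2 * P + r * ((r - 1) / 2) * N) / (lm ^ m * lm ^ 2) =
        (1 + lm) * (-zt * (P / lm ^ m)) + (1 + lm) * (r * ((r - 1) / 2)) * (N / lm ^ (m + 2)) := by
      rw [← e3, pow_add]
      field_simp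
    rw [s1, s4', sub_div, e1, e2, e4', hm, Nat.add_sub_cancel]
    have hzt : zt = lm - 1 := by
      rw [lm]
      ring
    rw [hzt]
    field_simp
    ring
  -- the terms
  have a1 : Rt B G 0 := Rt.of_lt hG1
  have a2 : Rt B (O / lm ^ 2) 0 := by
    refine Rt.of_lt ?_
    rw [map_div₀, map_pow, div_lt_one₀ (pow_pos v_lm_pos 2)]
    refine hO1.trans_lt ?_
    rw [← pow_mul]
    exact pow_lt_pow_right_of_lt_one₀ v_lm_pos (v_lm_lt hB) (by omega)
  have a3 : Rt B (-2 * H + (1 - r - lm * (1 + r)) / lm * H') 0 := by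
    refine Rt.of_lt (Valuation.map_add_lt _ ?_ ?_)
    · rw [map_mul, Valuation.map_neg]
      exact mul_lt_one_of_lt_of_le (two_lt hB) hH1
    · rw [map_mul]
      refine mul_lt_one_of_lt_of_le ?_ hH1'
      rcases hr' with h | h
      · have e : (1 - r - lm * (1 + r)) / lm = -2 := by
          rw [h]
          field_simp
          ring
        rw [e, Valuation.map_neg]
        exact two_lt hB
      · have e : (1 - r - lm * (1 + r)) / lm = -zt * lm := by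
          rw [h, div_eq_iff hl]
          linear_combination two_lm
        rw [e, map_mul, Valuation.map_neg, v_zt, one_mul]
        exact v_lm_lt hB
  have a4 : Rt B ((1 + lm) * (r * ((r - 1) / 2)) * (N / lm ^ (m + 2))) 0 := by
    refine Rt.of_lt ?_
    rw [map_mul]
    have h1 : B.valuation ((1 + lm) * (r * ((r - 1) / 2))) ≤ 1 := by
      rw [map_mul]
      refine mul_le_one' ((Valuation.map_add _ _ _).trans (max_le (map_one _).le (v_lm_lt hB).le)) ?_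
      rcases hr' with h | h
      · have e : r * ((r - 1) / 2) = 0 := by rw [h]; norm_num
        rw [e, map_zero]
        exact zero_le_one
      · have e : r * ((r - 1) / 2) = 1 := by rw [h]; norm_num
        rw [e, map_one]
    refine (mul_le_of_le_one_left' h1).trans_lt ?_
    rw [map_div₀, map_pow, div_lt_one₀ (pow_pos v_lm_pos _)]
    exact hN1.trans_lt (pow_lt_pow_right_of_lt_one₀ v_lm_pos (v_lm_lt hB) (by omega))
  have a5 := Rt_MM00 hB h0 hq hJ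
  have a6 := Rt_HHX_empty hB h0 hq hJ
  rw [hE] at a5
  rw [hP] at a6
  have a7 : Rt B (-zt * (1 + lm)) 1 := by
    have h1 : Rt B (1 + lm) 1 := Rt.one.congr (by
      rw [add_sub_cancel_left]
      exact v_lm_lt hB)
    have h2 := ((Rt_ztX hB).neg hB).mul hB h1
    rwa [one_mul] at h2
  have a8 := ((((a1.add hB a2).add hB a3).add hB a4).sub hB a5).add hB (a7.mul hB a6)
  rw [key]
  have e9 : (0 + 0 + 0 + 0 - (if J.card = 1 then ∑ i ∈ J, aa i.1 else 0) +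
      1 * (if J.card = 1 then ∑ q ∈ J, s4 q0 q else 0) : ZMod 2) =
      if J.card = 1 then ∑ i ∈ J, (aa i.1 + s4 q0 i) else 0 := by
    by_cases h : J.card = 1
    · rw [if_pos h, if_pos h, if_pos h, Finset.sum_add_distrib, CharTwo.sub_eq_add]
      ring
    · rw [if_neg h, if_neg h, if_neg h]
      ring
  rw [e9] at a8
  exact a8

end

end Pool.Agent.Lib.MP_1a91b9_ntQ
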