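import Pool.Agent.Lib.MP_1a91b9_ntQ.A.RhsE

/-!
# Quartic twists, part A, class (E), file RhsEW: the residue of the right side, any weight

The proof of `rhsE` for any weight `W` whose residue classes are the products of the quadratic
symbols.
-/

set_option autoImplicit false

namespace Pool.Agent.Lib.MP_1a91b9_ntQ

open NumberField Pool.Agent.Lib.MP_1a91b9_nuT Pool.Agent.Lib.MP_1a91b9_nuT.S3
  Pool.Agent.Lib.MP_1a91b9_nuT.Ell

noncomputable section

variable {B : ValuationSubring ℂ}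

/-- **(R), any weight** -/
theorem rhsE_W (hB : (2 : ℂ)⁻¹ ∉ B) (k : ZMod 4) {S : Finset Pg} (hS : S.Nonempty) {ι : Type}
    [Fintype ι] {c y : ι → 𝓞 K} {sg : ι → ι} (hc : RepsG (lam ^ 3) (lam ^ 3 * DDq S) c)
    (hcy : ∀ i, c i = DDq S + lam ^ 7 * y i) (h1 : ∀ i, sg (sg i) = i) (h2 : ∀ i, sg i ≠ i)
    (hy : ∀ i, DDq S ∣ y i + y (sg i)) (hod : ∀ i, Od (em (y i) / em (DDq S))) {W : ι → ℂ}
    (hW0 : ∀ i, Rt B (W i) (∏ q ∈ S, c2 q (c i)))
    (hW1 : ∀ i, B.valuation (W (sg i) - W i) ≤ B.valuation lm)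
    (hWs : B.valuation (∑ i, W i) < B.valuation lm) :
    Rt B ((-(Om * tE k * thE k (DDq S)) * ∑ i, W i *
        V4 (sE k) (tE k * (pe ^ 7 + em (y i) / em (DDq S)))) / (Om * (lm ^ 5 * kq)))
      ((md k + 1) * (if S.card = 1 then ∑ q ∈ S, aa q.1 else 0) + betaE S) := by
  classical
  obtain ⟨P, hP⟩ := RhsE_half h1 h2
  have hD0 : em (DDq S) ≠ 0 := em_ne (DDq_in4 S).ne_zero
  have hq0 := kq_ne
  have hl0 := lm_ne
  have hO := Om_ne_zero
  have vlm := v_lm_lt hB
  have ndc : ∀ i, ∀ q ∈ S, ¬ q.1 ∣ c i := fun i q hq => reps_not_dvd hc i hq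
  -- the values
  obtain ⟨V, hV⟩ : ∃ V : ι → ℂ, V = fun i =>
    V4 (sE k) (tE k * (pe ^ 7 + em (y i) / em (DDq S))) := ⟨_, rfl⟩
  have hV1 : ∀ i, Cg B (V i / (lm ^ 4 * kq)) 1 := fun i => by
    rw [hV]
    exact Cg.of_sub_lt (map_one _).le (v_V4 hB k (hod i))
  have hV2 : ∀ i, Cg B ((V i + V (sg i)) / (lm ^ 5 * kq))
      ((if md k = 0 then 1 else 0) + xi (lm ^ 2 * (em (y i) / em (DDq S))) +
        xi (lm ^ 2 * (em (y i) / em (DDq S))) ^ 2) := by
    intro i
    obtain ⟨t, ht⟩ := hy i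
    have e1 : V (sg i) = V4 (sE k) (tE k * (pe ^ 7 - em (y i) / em (DDq S))) := by
      have e2 : em (y (sg i)) / em (DDq S) = -(em (y i) / em (DDq S)) + em t := by
        have h3 := congrArg em ht
        rw [em_add, em_mul] at h3
        field_simp
        linear_combination h3
      rw [hV]
      change V4 (sE k) (tE k * (pe ^ 7 + em (y (sg i)) / em (DDq S))) = _
      rw [e2]
      have e3 : tE k * (pe ^ 7 + (-(em (y i) / em (DDq S)) + em t)) =
          tE k * (pe ^ 7 - em (y i) / em (DDq S)) + tE k * em t := by ring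
      rw [e3, V4_add]
      unfold tE
      split
      · have e4 : -zt * em t = -(zt * em t) := by ring
        rw [e4]
        exact neg_mem (zt_mul_mem (em_mem t))
      · rw [one_mul]
        exact em_mem t
    have vx := xi_le hB ((hod i).pow 2)
    refine Cg.of_sub_lt (v_add_le (v_add_le ?_ vx) (v_pow_le vx 2)) ?_
    · split
      · exact (map_one _).le
      · rw [map_zero]
        exact zero_le
    · rw [e1, hV]
      exact v_V4_pair hB k (hod i)
  -- the weights
  have hW : ∀ i, B.valuation (W i) ≤ 1 := fun i => (hW0 i).le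
  have hW2 : ∀ i, B.valuation ((W (sg i) - W i) / lm) ≤ 1 := by
    intro i
    rw [map_div₀]
    exact div_le_one_of_le₀ (hW1 i) zero_le
  -- the sum of the weights
  have hWs : B.valuation ((∑ i, W i) / lm) < 1 := by
    rw [map_div₀, div_lt_one₀ v_lm_pos]
    exact hWs
  -- the second part
  have key2 : B.valuation (∑ i : {i // P i}, ((W (sg i) - W i) / lm) *
      (V (sg i) / (lm ^ 4 * kq))) < 1 := by
    have c1 : Cg B (∑ i : {i // P i}, ((W (sg i) - W i) / lm) *
        (V (sg i) / (lm ^ 4 * kq))) (∑ i : {i // P i}, ((W (sg i) - W i) / lm) * 1) :=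
      Cg.sum _ fun i _ => (Cg.refl (hW2 i)).mul (hV1 (sg i))
    have e1 : ∑ i : {i // P i}, ((W (sg i) - W i) / lm) * 1 =
        (∑ i, W i) / lm - (lm * -zt) * ∑ i : {i // P i}, W i := by
      rw [RhsE_sum h1 hP (fun i => W i)]
      have e2 : (lm * -zt : ℂ) = 2 / lm := by
        rw [eq_div_iff hl0]
        linear_combination (-zt) * lm_sq - 2 * zt_sq
      rw [e2, Finset.mul_sum, Finset.sum_div, ← Finset.sum_sub_distrib]
      refine Finset.sum_congr rfl fun i _ => ?_
      field_simp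
      ring
    rw [e1] at c1
    have c2 : Cg B ((∑ i, W i) / lm - (lm * -zt) * ∑ i : {i // P i}, W i) 0 := by
      refine Cg.of_lt ?_
      rw [sub_eq_add_neg]
      refine v_add_lt hWs ?_
      rw [Valuation.map_neg]
      refine v_mul_lt (v_mul_lt vlm (v_neg_le v_zt.le)) ?_
      exact (B.valuation.map_sum_le fun i _ => hW i)
    exact (c1.trans c2).lt0
  -- the first part
  have key1 : Rt B (∑ i : {i // P i}, W i * ((V i + V (sg i)) / (lm ^ 5 * kq)))
      ((md k + 1) * (if S.card = 1 then ∑ q ∈ S, aa q.1 else 0) + betaE S) := by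
    have c1 : Cg B (∑ i : {i // P i}, W i * ((V i + V (sg i)) / (lm ^ 5 * kq)))
        (∑ i : {i // P i}, W i * ((if md k = 0 then 1 else 0) +
          xi (lm ^ 2 * (em (y i) / em (DDq S))) + xi (lm ^ 2 * (em (y i) / em (DDq S))) ^ 2)) :=
      Cg.sum _ fun i _ => (Cg.refl (hW i)).mul (hV2 i)
    refine c1.rt ?_
    have e1 : ∑ i : {i // P i}, W i * ((if md k = 0 then 1 else 0) +
          xi (lm ^ 2 * (em (y i) / em (DDq S))) + xi (lm ^ 2 * (em (y i) / em (DDq S))) ^ 2) =
        (if md k = 0 then 1 else 0) * ∑ i : {i // P i}, W i +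
        ∑ i : {i // P i}, W i * (xi (em (lam ^ 2 * y i) / em (DDq S)) +
          xi (em (lam ^ 2 * y i) / em (DDq S)) ^ 2) := by
      rw [Finset.mul_sum, ← Finset.sum_add_distrib]
      refine Finset.sum_congr rfl fun i _ => ?_
      have e2 : em (lam ^ 2 * y i) / em (DDq S) = lm ^ 2 * (em (y i) / em (DDq S)) := by
        rw [em_mul, em_pow, em_lam]
        ring
      rw [e2]
      ring
    rw [e1]
    obtain ⟨b1, b2⟩ := b1_fin (κ := {i // P i}) hB hS (y := fun i => lam ^ 2 * y i) (RhsE_nd ndc hcy)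
      (RhsE_ex hc hcy hy h1 hP) (RhsE_inj hc hcy hy hP) (fun q => c2 q lam)
      (W := fun i => W i)
      (fun i => by
        have h3 := hW0 i
        have h4 : ∏ q ∈ S, c2 q (c i) = ∏ q ∈ S, (c2 q (lam ^ 2 * y i) + c2 q lam) :=
          Finset.prod_congr rfl fun q hq => RhsE_c2 ndc hcy hq i
        rwa [h4] at h3)
    refine Rt.add hB ?_ b1
    have h5 : Rt B (if md k = 0 then (1 : ℂ) else 0) (md k + 1) := by
      have h6 : ∀ t : ZMod 2, t = 0 ∨ t = 1 := by decide
      rcases h6 (md k) with h | h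
      · rw [h, if_pos rfl, zero_add]
        exact Rt.one
      · rw [h, if_neg one_ne_zero]
        exact Rt.zero
    exact h5.mul hB b2
  -- the end
  have hsum : ∑ i, W i * V4 (sE k) (tE k * (pe ^ 7 + em (y i) / em (DDq S))) =
      lm ^ 5 * kq *
        (∑ i : {i // P i}, W i * ((V i + V (sg i)) / (lm ^ 5 * kq)) +
          ∑ i : {i // P i}, ((W (sg i) - W i) / lm) * (V (sg i) / (lm ^ 4 * kq))) := by
    rw [RhsE_sum h1 hP, ← Finset.sum_add_distrib, Finset.mul_sum]
    refine Finset.sum_congr rfl fun i _ => ?_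
    have e2 : ∀ j, V4 (sE k) (tE k * (pe ^ 7 + em (y j) / em (DDq S))) = V j := fun j => by
      rw [hV]
    rw [e2, e2]
    field_simp
    ring
  rw [hsum]
  have e3 : -(Om * tE k * thE k (DDq S)) * (lm ^ 5 * kq *
        (∑ i : {i // P i}, W i * ((V i + V (sg i)) / (lm ^ 5 * kq)) +
          ∑ i : {i // P i}, ((W (sg i) - W i) / lm) * (V (sg i) / (lm ^ 4 * kq)))) /
      (Om * (lm ^ 5 * kq)) = -1 * (tE k * thE k (DDq S)) *
        (∑ i : {i // P i}, W i * ((V i + V (sg i)) / (lm ^ 5 * kq)) +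
          ∑ i : {i // P i}, ((W (sg i) - W i) / lm) * (V (sg i) / (lm ^ 4 * kq))) := by
    generalize (∑ i : {i // P i}, W i * ((V i + V (sg i)) / (lm ^ 5 * kq)) +
          ∑ i : {i // P i}, ((W (sg i) - W i) / lm) * (V (sg i) / (lm ^ 4 * kq))) = Z
    field_simp
  rw [e3]
  have hu : Rt B (-1 * (tE k * thE k (DDq S))) 1 := by
    refine (Cg_root hB ?_).rt Rt.one
    have h3 := tE_sq k
    have h4 : thE k (DDq S) ^ 4 = 1 := by
      rw [thE, e4_pow]
      have h5 : ∀ t : ZMod 4, ((4 : ℕ) : ZMod 4) * t = 0 := by decide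
      rw [h5, e4_zero]
    have e4 : (-1 * (tE k * thE k (DDq S))) ^ 4 = tE k ^ 4 * thE k (DDq S) ^ 4 := by ring
    rw [e4, h3, h4, one_mul]
  have h6 := hu.mul hB (key1.congr (w := (∑ i : {i // P i}, W i * ((V i + V (sg i)) /
    (lm ^ 5 * kq)) + ∑ i : {i // P i}, ((W (sg i) - W i) / lm) *
      (V (sg i) / (lm ^ 4 * kq)))) (by rw [add_sub_cancel_left]; exact key2))
  rwa [one_mul] at h6

end

end Pool.Agent.Lib.MP_1a91b9_ntQ
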