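import Pool.Agent.Lib.MP_1a91b9_ntQ.A.Xi4
import Pool.Agent.Lib.MP_1a91b9_ntQ.A.HSum4

/-!
# Quartic twists, part A, file Rsd4: the residue field of a place above `2`, the rules of the good coordinate
-/

set_option autoImplicit false

namespace Pool.Agent.Lib.MP_1a91b9_ntQ

open NumberField IsDedekindDomain Pool.Agent.Lib.MP_1a91b9_nuT Pool.Agent.Lib.MP_1a91b9_nuT.S3
  Pool.Agent.Lib.MP_1a91b9_nuT.Ell

noncomputable section

variable {B : ValuationSubring ℂ}

/-! ### The residue field -/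

/-- the residue class -/
def rsd (B : ValuationSubring ℂ) (z : ℂ) : IsLocalRing.ResidueField B :=
  open Classical in if h : z ∈ B then IsLocalRing.residue B ⟨z, h⟩ else 0

theorem rsd_of {z : ℂ} (h : z ∈ B) : rsd B z = IsLocalRing.residue B ⟨z, h⟩ := by
  unfold rsd
  exact dif_pos h

theorem rsd_add {z w : ℂ} (hz : z ∈ B) (hw : w ∈ B) : rsd B (z + w) = rsd B z + rsd B w := by
  rw [rsd_of hz, rsd_of hw, rsd_of (add_mem hz hw), ← map_add]
  rfl

theorem rsd_sub {z w : ℂ} (hz : z ∈ B) (hw : w ∈ B) : rsd B (z - w) = rsd B z - rsd B w := by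
  rw [rsd_of hz, rsd_of hw, rsd_of (sub_mem hz hw), ← map_sub]
  rfl

theorem rsd_mul {z w : ℂ} (hz : z ∈ B) (hw : w ∈ B) : rsd B (z * w) = rsd B z * rsd B w := by
  rw [rsd_of hz, rsd_of hw, rsd_of (Subring.mul_mem _ hz hw), ← map_mul]
  rfl

theorem rsd_one : rsd B 1 = 1 := by
  rw [rsd_of (Subring.one_mem _)]
  exact map_one _

theorem rsd_zero : rsd B 0 = 0 := by
  rw [rsd_of (zero_mem B)]
  exact map_zero _

theorem rsd_pow {z : ℂ} (hz : z ∈ B) (n : ℕ) : rsd B (z ^ n) = rsd B z ^ n := by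
  induction n with
  | zero => rw [pow_zero, pow_zero, rsd_one]
  | succ n ih => rw [pow_succ, pow_succ, rsd_mul (Subring.pow_mem _ hz n) hz, ih]

theorem rsd_sum {ι : Type*} (T : Finset ι) {z : ι → ℂ} (h : ∀ i ∈ T, z i ∈ B) :
    rsd B (∑ i ∈ T, z i) = ∑ i ∈ T, rsd B (z i) ∧ ∑ i ∈ T, z i ∈ B := by
  classical
  induction T using Finset.induction_on with
  | empty => exact ⟨by rw [Finset.sum_empty, Finset.sum_empty, rsd_zero], by
      rw [Finset.sum_empty]; exact zero_mem B⟩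
  | insert a T ha ih =>
    obtain ⟨h1, h2⟩ := ih fun i hi => h i (Finset.mem_insert_of_mem hi)
    have h3 := h a (Finset.mem_insert_self a T)
    rw [Finset.sum_insert ha, Finset.sum_insert ha, rsd_add h3 h2, h1]
    exact ⟨rfl, add_mem h3 h2⟩

theorem rsd_nat (n : ℕ) : rsd B (n : ℂ) = (n : IsLocalRing.ResidueField B) := by
  rw [rsd_of (natCast_mem B n)]
  have e : (⟨(n : ℂ), natCast_mem B n⟩ : B) = ((n : ℕ) : B) := rfl
  rw [e, map_natCast]

theorem rsd_int (n : ℤ) : rsd B (n : ℂ) = (n : IsLocalRing.ResidueField B) := by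
  rw [rsd_of (intCast_mem B n)]
  have e : (⟨(n : ℂ), intCast_mem B n⟩ : B) = ((n : ℤ) : B) := rfl
  rw [e, map_intCast]

theorem mem_iff' {z : ℂ} : z ∈ B ↔ B.valuation z ≤ 1 := (B.valuation_le_one_iff z).symm

theorem rsd_eq_zero {z : ℂ} (h : z ∈ B) : rsd B z = 0 ↔ B.valuation z < 1 := by
  rw [rsd_of h, IsLocalRing.residue_eq_zero_iff]
  exact B.valuation_lt_one_iff ⟨z, h⟩

/-- congruent elements have the same class -/
theorem rsd_congr {z w : ℂ} (hw : w ∈ B) (h : B.valuation (z - w) < 1) : z ∈ B ∧ rsd B z = rsd B w := by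
  have h1 : z - w ∈ B := mem_iff'.2 h.le
  have h2 : z ∈ B := by
    have := add_mem h1 hw
    rwa [sub_add_cancel] at this
  refine ⟨h2, ?_⟩
  rw [← sub_eq_zero, ← rsd_sub h2 hw, rsd_eq_zero h1]
  exact h

theorem rsd_char (hB : (2 : ℂ)⁻¹ ∉ B) : CharP (IsLocalRing.ResidueField B) 2 := by
  rw [CharP.charP_iff_prime_eq_zero Nat.prime_two]
  have h1 : rsd B ((2 : ℤ) : ℂ) = 0 := by
    rw [rsd_eq_zero (intCast_mem B 2)]
    exact_mod_cast two_lt hB
  rw [rsd_int] at h1
  exact_mod_cast h1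

/-- the residue field as an algebra over the field with two elements -/
abbrev rsdAlg (hB : (2 : ℂ)⁻¹ ∉ B) : Algebra (ZMod 2) (IsLocalRing.ResidueField B) :=
  haveI := rsd_char hB
  ZMod.algebra _ 2

theorem rsd_algN (hB : (2 : ℂ)⁻¹ ∉ B) (n : ℕ) :
    letI := rsdAlg hB
    algebraMap (ZMod 2) (IsLocalRing.ResidueField B) (n : ZMod 2) = n := by
  let i1 := rsdAlg hB
  exact map_natCast _ n

theorem rt_iff (hB : (2 : ℂ)⁻¹ ∉ B) {z : ℂ} {y : ZMod 2} :
    letI := rsdAlg hB
    Rt B z y ↔ z ∈ B ∧ rsd B z = algebraMap (ZMod 2) (IsLocalRing.ResidueField B) y := by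
  let i1 := rsdAlg hB
  have e : algebraMap (ZMod 2) (IsLocalRing.ResidueField B) y = (y.val : IsLocalRing.ResidueField B) := by
    have h := rsd_algN hB y.val
    rwa [ZMod.natCast_zmod_val] at h
  constructor
  · intro h
    obtain ⟨h3, h4⟩ := rsd_congr (natCast_mem B y.val) h
    exact ⟨h3, by rw [h4, rsd_nat, e]⟩
  · rintro ⟨h3, h4⟩
    unfold Rt
    rw [← rsd_eq_zero (sub_mem h3 (natCast_mem B _)), rsd_sub h3 (natCast_mem B _), h4, rsd_nat, e,
      sub_self]

/-! ### Points -/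

theorem em_divM_per {M a b : 𝓞 K} (hM : M ≠ 0) (h : M ∣ a - b) :
    ∃ l ∈ PP.lattice, em a / em M = em b / em M + l := by
  obtain ⟨t, ht⟩ := h
  refine ⟨em t, em_mem t, ?_⟩
  have h1 := em_ne hM
  have e : a = b + M * t := by linear_combination ht
  rw [e, em_add, em_mul]
  field_simp

theorem em_divM_mem {M a : 𝓞 K} (hM : M ≠ 0) (h : em a / em M ∈ PP.lattice) : M ∣ a := by
  obtain ⟨y, hy⟩ := S3.mem_PP_iff.1 h
  have hy' : em y = em a / em M := hy
  refine ⟨y, em_inj ?_⟩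
  have h2 := em_ne hM
  rw [em_mul, hy']
  field_simp

private theorem Rsd4_em_lam : em lam = lm := by
  rw [lam, em_add, em_one, em_iO', lm]

/-- the points of odd order -/
theorem od_divM {M a : 𝓞 K} (hM : In4 M) (h : ¬ M ∣ a) : Od (em a / em M) := by
  have hM0 := hM.ne_zero
  have h1 := em_ne hM0
  refine ⟨⟨M, hM0, ?_⟩, fun n hn => h ?_⟩
  · rw [mul_div_cancel₀ _ h1]
    exact em_mem a
  · have e : lm ^ n * (em a / em M) = em (lam ^ n * a) / em M := by
      rw [em_mul, em_pow, Rsd4_em_lam, mul_div_assoc]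
    rw [e] at hn
    have h2 := em_divM_mem hM0 hn
    refine IsCoprime.dvd_of_dvd_mul_left ?_ h2
    obtain ⟨b, hb⟩ := hM
    have h3 : IsCoprime M (lam ^ 3) := ⟨1, -b, by linear_combination hb⟩
    exact (h3.of_isCoprime_of_dvd_right (dvd_pow_self _ (by norm_num))).pow_right

theorem Od.rot {z : ℂ} (h : Od z) : Od (zt * z) := by
  obtain ⟨⟨N, hN, h1⟩, h2⟩ := h
  refine ⟨⟨N, hN, ?_⟩, fun n hn => h2 n ?_⟩
  · have e : em N * (zt * z) = zt * (em N * z) := by ring
    rw [e]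
    exact zt_mem_mul h1
  · have e : lm ^ n * (zt * z) = zt * (lm ^ n * z) := by ring
    rw [e, zt_mem_iff] at hn
    exact hn

theorem Od.of_em {α : 𝓞 K} (hα : α ≠ 0) {z u : ℂ} (h : Od (em α * z)) (hu : em α * u ∈ PP.lattice) :
    Od (z + u) := by
  obtain ⟨⟨N, hN, h1⟩, h2⟩ := h
  refine ⟨⟨N * α, mul_ne_zero hN hα, ?_⟩, fun n hn => h2 n ?_⟩
  · have e : em (N * α) * (z + u) = em N * (em α * z) + em N * (em α * u) := by
      rw [em_mul]
      ring
    rw [e]
    exact add_mem h1 (S3.mul_mem (em_mem N) hu)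
  · have e : lm ^ n * (em α * z) = em α * (lm ^ n * (z + u)) - lm ^ n * (em α * u) := by ring
    rw [e]
    exact sub_mem (S3.mul_mem (em_mem α) hn) (lm_pow_mem hu n)

theorem Od.of_q {q : Pg} {z u : ℂ} (h : Od (em q.1 * z)) (hu : em q.1 * u ∈ PP.lattice) :
    Od (z + u) := Od.of_em q.ne_zero h hu

/-! ### The rules of the good coordinate -/

/-- the rules of the good coordinate modulo a place above `2` -/
structure XiR4 {R : Type*} [CommRing R] (ξ : ℂ → R) : Prop where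
  per : ∀ z l, l ∈ PP.lattice → ξ (z + l) = ξ z
  neg : ∀ z, ξ (-z) = ξ z
  i : ∀ z, Od z → ξ (zt * z) = ξ z + 1
  lm : ∀ z, Od z → ξ (lm * z) = ξ z ^ 2
  dist : ∀ (q : Pg) (z : ℂ), Od (em q.1 * z) →
    SM q.1 (fun u => ξ (z + em u / em q.1)) = ξ (em q.1 * z)

/-- the residue class of the good coordinate satisfies the rules -/
theorem xiR4 (hB : (2 : ℂ)⁻¹ ∉ B) : XiR4 fun z => rsd B (xi z) where
  per z l hl := by
    rw [xi_congr (show z + l - z ∈ PP.lattice by rwa [add_sub_cancel_left])]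
  neg z := by
    rw [xi_neg]
  i z hz := by
    change rsd B (xi (zt * z)) = rsd B (xi z) + 1
    have h1 := xi_mem hB hz
    have h2 := v_xi_i hB hz
    rw [sub_sub] at h2
    rw [(rsd_congr (add_mem h1 (Subring.one_mem _)) h2).2, rsd_add h1 (Subring.one_mem _), rsd_one]
  lm z hz := by
    have h1 := xi_mem hB hz
    rw [(rsd_congr (Subring.pow_mem _ h1 2) (v_xi_lm hB hz)).2, rsd_pow h1]
  dist q z hz := by
    change SM q.1 (fun u => rsd B (xi (z + em u / em q.1))) = rsd B (xi (em q.1 * z))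
    have hq := q.ne_zero
    have hqe := em_ne hq
    have hfin := SM_finite hq
    let _ : Fintype (𝓞 K ⧸ Ideal.span {q.1}) := Fintype.ofFinite _
    let τ : (𝓞 K ⧸ Ideal.span {q.1}) → ℂ := fun x => em x.out / em q.1
    have hqτ : ∀ i, em q.1 * τ i = em i.out := by
      intro i
      change em q.1 * (em i.out / em q.1) = _
      field_simp
    have h1 : ∀ i, em q.1 * τ i ∈ PP.lattice := fun i => by
      rw [hqτ]
      exact em_mem _
    have h2 : ∀ x, em q.1 * x ∈ PP.lattice → ∃! i, x - τ i ∈ PP.lattice := by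
      intro x hx
      obtain ⟨a, ha⟩ := S3.mem_PP_iff.1 hx
      have ha' : em a = em q.1 * x := ha
      have hiff : ∀ i : 𝓞 K ⧸ Ideal.span {q.1}, x - τ i ∈ PP.lattice ↔ q.1 ∣ a - i.out := by
        intro i
        constructor
        · intro h
          obtain ⟨y, hy⟩ := S3.mem_PP_iff.1 h
          refine ⟨y, em_inj ?_⟩
          have hy' : em y = x - τ i := hy
          rw [em_sub, em_mul, hy', mul_sub, hqτ, ha']
        · rintro ⟨y, hy⟩
          have e : x - τ i = em y := by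
            apply mul_left_cancel₀ hqe
            rw [← em_mul, ← hy, em_sub, mul_sub, hqτ, ha']
          rw [e]
          exact em_mem y
      refine ⟨Ideal.Quotient.mk _ a, ?_, ?_⟩
      · change x - τ _ ∈ PP.lattice
        rw [hiff, ← SM_mk, SM_out]
        rfl
      · intro j hj
        have hj' : x - τ j ∈ PP.lattice := hj
        rw [hiff, ← SM_mk, SM_out] at hj'
        exact hj'.symm
    have hcard : Fintype.card (𝓞 K ⧸ Ideal.span {q.1}) = Nz q.1 := by
      rw [← absNorm_span, Ideal.absNorm_apply, Submodule.cardQuot_apply, Nat.card_eq_fintype_card]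
      rfl
    have h3 := v_sum_xi hB q h1 h2 hcard hz
    have h4 : ∀ i ∈ (Finset.univ : Finset (𝓞 K ⧸ Ideal.span {q.1})), xi (z + τ i) ∈ B := fun i _ =>
      xi_mem hB (Od.of_q hz (h1 i))
    obtain ⟨h5, -⟩ := rsd_sum _ h4
    rw [← (rsd_congr (xi_mem hB hz) h3).2, h5, SM, finsum_eq_sum_of_fintype]
    rfl

end

end Pool.Agent.Lib.MP_1a91b9_ntQ
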