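import Pool.Agent.Lib.MP_1a91b9_ntQ.A.TopX1
import Pool.Agent.Lib.MP_1a91b9_ntQ.A.Ind4

/-!
# Quartic twists, part A, file RtX: class (X), the classes of the normalised values without a
condition on the matrices

For `S` not empty, `∑ aa = 0`, with `h = ∑ nn / 2`, `b = ∑ bb`:
* `La4 2 S / (La4 2 ∅ * lm ^ (|S| + 2))` has the class `kapX s4 aa h S`;
* `La4 0 S / (La4 0 ∅ * lm ^ (|S| + 3))` has the class `(h + b) * kap0 s4 S`;
* if `h + b = 0`, `La4 0 S / (La4 0 ∅ * lm ^ (|S| + 4))` has the class `kapX s4 aa x S`, `x = 1` if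
  `∑ c4 q lam` is `1` or `2` and `x = 0` otherwise.
-/

set_option autoImplicit false

namespace Pool.Agent.Lib.MP_1a91b9_ntQ

open NumberField Pool.Agent.Lib.MP_1a91b9_nuT Pool.Agent.Lib.MP_1a91b9_nuT.S3
  Pool.Agent.Lib.MP_1a91b9_nuT.Ell
open Pool.Agent.Lib.MP_1a91b9_ntK (CZ)

noncomputable section

variable {B : ValuationSubring ℂ} {q0 : Pg}

/-- the sum for the full character and the L-value -/
theorem MM_La4 {k : ZMod 4} (hk : k = 0 ∨ k = 2) (h0 : aa q0.1 = 1) {h : ZMod 2} {S : Finset Pg}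
    (hq : q0 ∉ S) (hS : hh h + ∑ q ∈ S, nn q.1 = 0) :
    MM k h q0 S S = th4 k (q0.1 * DDq S) * (La4 k S / La4 k ∅) * (em q0.1 - X4 k S q0.1) := by
  have h1 := MM_eq hk h0 h (Finset.Subset.refl S) hq
  have he : e0X q0 h S = 0 := by rw [e0X, hS, zero_mul, neg_zero]
  have hs : sX q0 h S = S := by rw [sX, if_pos he]
  have hX : Xe k (eX q0 h S) S = X4 k S := by
    refine Xe_eq_X4 fun q hqS => ?_
    have h2 : q ≠ q0 := by
      rintro rfl
      exact hq hqS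
    rw [eX, if_neg h2]
  have hset : insert q0 S \ S = {q0} := by
    ext q
    rw [Finset.mem_sdiff, Finset.mem_insert, Finset.mem_singleton]
    constructor
    · rintro ⟨h2 | h2, h3⟩
      · exact h2
      · exact absurd h2 h3
    · rintro rfl
      exact ⟨Or.inl rfl, hq⟩
  have hq1 : em q0.1 ≠ 0 := em_ne q0.ne_zero
  have hL : LX k h q0 S S = La4 k S * (em q0.1 - X4 k S q0.1) := by
    rw [LX, hs, hX, hset, Finset.prod_singleton, La4, L4, em_mul (f4 k), em_mul q0.1,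
      em_mul (f4 k)]
    field_simp
  have h5 := th4_sq hk (q0.1 * DDq S)
  have hC := CX_ne hk
  rw [hL] at h1
  have h6 : MM k h q0 S S * CX k = th4 k (q0.1 * DDq S) * (La4 k S * (em q0.1 - X4 k S q0.1)) := by
    rw [h1]
    linear_combination (-(CX k * MM k h q0 S S)) * h5
  rw [← CX_eq k, eq_comm, mul_div_assoc', div_mul_eq_mul_div, div_eq_iff hC, h6]
  ring

theorem Rt_inv_one {z : ℂ} (h : Rt B z 1) : Rt B z⁻¹ 1 := by
  have h1 : B.valuation z = 1 := h.unit one_ne_zero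
  have hz : z ≠ 0 := h.ne_zero one_ne_zero
  have h2 : B.valuation (z - 1) < 1 := by
    have h3 := h
    unfold Rt at h3
    have e : ((1 : ZMod 2).val : ℂ) = 1 := by
      rw [ZMod.val_one, Nat.cast_one]
    rwa [e] at h3
  refine Rt.one.congr ?_
  have e : z⁻¹ - 1 = -((z - 1) * z⁻¹) := by
    field_simp
    ring
  rw [e, Valuation.map_neg, map_mul, map_inv₀, h1, inv_one, mul_one]
  exact h2

/-- **The comparison**: the normalised value and the normalised sum have the same class. -/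
theorem Rt_La4_of (hB : (2 : ℂ)⁻¹ ∉ B) {k : ZMod 4} (hk : k = 0 ∨ k = 2) (h0 : aa q0.1 = 1)
    {h : ZMod 2} {S : Finset Pg} (hq : q0 ∉ S) (hS : hh h + ∑ q ∈ S, nn q.1 = 0)
    (h1 : ∑ p ∈ S, s4 q0 p = 1) {n : ℕ} {y : ZMod 2} (hy : Rt B (MM k h q0 S S / lm ^ (n + 1)) y) :
    Rt B (La4 k S / (La4 k ∅ * lm ^ n)) y := by
  have h2 := Rt_fac hB k (T := S) (q := q0) hq
  have h3 : md k = 0 := by
    rcases hk with rfl | rfl <;> rfl
  rw [h3, zero_mul, zero_add, h1] at h2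
  have h4 : Rt B (th4 k (q0.1 * DDq S)) 1 := IndX0_e4 hB _
  have h5 := h4.mul hB h2
  rw [one_mul] at h5
  have h6 := hy.mul hB (Rt_inv_one h5)
  rw [mul_one] at h6
  have hu : th4 k (q0.1 * DDq S) * ((em q0.1 - X4 k S q0.1) / lm) ≠ 0 := h5.ne_zero one_ne_zero
  have e : MM k h q0 S S / lm ^ (n + 1) * (th4 k (q0.1 * DDq S) *
      ((em q0.1 - X4 k S q0.1) / lm))⁻¹ = La4 k S / (La4 k ∅ * lm ^ n) := by
    have hC := La4_empty_ne k
    have hl := lm_ne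
    rw [mul_inv_eq_iff_eq_mul₀ hu, MM_La4 hk h0 hq hS]
    field_simp
    ring
  rwa [e] at h6

/-- the class of an element from the ring, first order -/
theorem Rt_of_rdR (hB : (2 : ℂ)⁻¹ ∉ B) {z : ℂ} (hz : z ∈ B) {y : ZMod 2}
    (h : lX B * rd B z = lX B * phX B hB y) : Rt B z y := by
  rw [phX_val, ← rd_nat, ← sub_eq_zero, ← mul_sub, ← rd_sub hz (natCast_mem B _),
    lX_mul_rd (B.sub_mem hz (natCast_mem B _))] at h
  exact h

/-- the class of an element from the ring, second order -/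
theorem Rt_of_rd2 (hB : (2 : ℂ)⁻¹ ∉ B) {z : ℂ} (hz : z ∈ B) {y : ZMod 2}
    (h : rd B z = lX B * phX B hB y) : Rt B (z / lm) y := by
  rw [phX_val, ← rd_nat, ← rd_lm, ← rd_mul (lmB B) (natCast_mem B _),
    rd_eq_iff hz (B.mul_mem _ _ (lmB B) (natCast_mem B _))] at h
  have e : z / lm - (y.val : ℂ) = (z - lm * (y.val : ℂ)) / lm := by
    have hl := lm_ne
    field_simp
  unfold Rt
  rw [e, map_div₀, div_lt_one₀ v_lm_pos]
  exact h

/-! ### `k = 2` -/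

/-- **`k = 2`.** -/
theorem Rt_La4_two (hB : (2 : ℂ)⁻¹ ∉ B) {S : Finset Pg} (hS : S.Nonempty)
    (hA : ∑ q ∈ S, aa q.1 = 0) : Rt B (La4 2 S / (La4 2 ∅ * lm ^ (S.card + 2)))
      (kapX s4 (fun q => aa q.1) (if ∑ q ∈ S, nn q.1 = 2 then 1 else 0) S) := by
  obtain ⟨q0, -, h0, ha, h1⟩ := exists_aux hS.ne_empty 0
  obtain ⟨h, h2, h3⟩ := nn_sum hA
  have h4 := tauX_ah s4 (fun q => aa q.1) q0 (fun p q _ => IndX_s4 p q) hS hA h1 h
  rw [tauX] at h4
  have h5 := Rt_yX2 hB ha h h0 S (Finset.Subset.refl S) hS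
  rw [h4] at h5
  rw [h2]
  exact Rt_La4_of hB (Or.inr rfl) ha h0 h3 h1 h5

/-! ### `k = 0` -/

theorem yX0_memR (hB : (2 : ℂ)⁻¹ ∉ B) (h0 : aa q0.1 = 1) {S : Finset Pg} (hq : q0 ∉ S) :
    ∀ J ⊆ S, J.Nonempty → yX4 4 0 0 q0 J ∈ B :=
  secX_mem (fX_mem hB h0 0) (f1X_mem hB h0) (uB_mem hB h0 hq) (relB hB h0 hq)

theorem yX1_memR (hB : (2 : ℂ)⁻¹ ∉ B) (h0 : aa q0.1 = 1) {S : Finset Pg} (hq : q0 ∉ S) :
    ∀ J ⊆ S, J.Nonempty → -rh * yX4 4 0 1 q0 J ∈ B :=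
  secX_mem (y := fun T => -rh * yX4 4 0 1 q0 T) (fX_mem hB h0 1) (f1X_mem hB h0)
    (uC_mem hB h0 hq) (relC hB h0 hq)

theorem Rt_neg_rh (hB : (2 : ℂ)⁻¹ ∉ B) : Rt B (-rh) 1 := by
  have h : Rt B rh 1 := Rt.one.congr (v_rh_sub hB)
  exact h.neg hB

/-- the first order, both cases -/
theorem Rt_yX_first (hB : (2 : ℂ)⁻¹ ∉ B) (h0 : aa q0.1 = 1) {S : Finset Pg} (hS : S.Nonempty)
    (hq : q0 ∉ S) (hA : ∑ q ∈ S, aa q.1 = 0) {h : ZMod 2} (hn : hh h + ∑ q ∈ S, nn q.1 = 0)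
    (h1 : ∑ p ∈ S, s4 q0 p = 1) :
    Rt B (yX4 4 0 h q0 S) ((h + ∑ q ∈ S, bb q.1) * kap0 s4 S) := by
  have c1 := tauX_s0 s4 (fun q => aa q.1) q0 (fun p q _ => IndX_s4 p q) hS hA h1
  rw [tauX] at c1
  have hmu := Rt_muX hB h0 hq S (Finset.Subset.refl S) hS
  rw [c1] at hmu
  have h5 := lX_mul_Rt hB hmu
  have h7 := lX_sq hB
  have h01 : ∀ h : ZMod 2, h = 0 ∨ h = 1 := by decide
  have hmd : md (∑ q ∈ S, c4 q lam) = ∑ q ∈ S, bb q.1 := by
    rw [map_sum]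
    exact Finset.sum_congr rfl fun q _ => c2_lam q
  have hlam : bX q0 h S lam = ∑ q ∈ S, c4 q lam := by
    rw [bX_lam, hn, zero_mul, neg_zero, zero_mul, zero_add]
  have hmd2 : md (2 - bX q0 h S lam) = ∑ q ∈ S, bb q.1 := by
    have h6 : md 2 = 0 := rfl
    have hneg : ∀ x : ZMod 2, 0 - x = x := by decide
    rw [hlam, map_sub, hmd, h6, hneg]
  have h6 := lX_mul_Rt hB (Rt_e4 (B := B) hB (2 - bX q0 h S lam))
  rw [hmd2] at h6
  change lX B * rd B (gX4 (2 - bX q0 h S lam)) = _ at h6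
  rcases h01 h with rfl | rfl
  · refine Rt_of_rdR hB (yX0_memR hB h0 hq S (Finset.Subset.refl S) hS) ?_
    rw [rd_yX0 hB h0 hq S (Finset.Subset.refl S) hS, zero_add, map_mul]
    generalize rd B (gX4 (2 - bX q0 0 S lam)) = G at h6 ⊢
    generalize rd B (muX q0 S) = M at h5 ⊢
    generalize phX B hB (∑ q ∈ S, bb q.1) = b at h6 ⊢
    linear_combination M * h6 + b * h5 + (M * G + phX B hB _) * h7
  · have h8 : Rt B (-rh * yX4 4 0 1 q0 S) ((1 + ∑ q ∈ S, bb q.1) * kap0 s4 S) := by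
      refine Rt_of_rdR hB (yX1_memR hB h0 hq S (Finset.Subset.refl S) hS) ?_
      rw [rd_yX1 hB h0 hq S (Finset.Subset.refl S) hS, rd_uC hB h0 hq S (Finset.Subset.refl S) hS,
        map_mul, map_add, map_one]
      generalize rd B (gX4 (2 - bX q0 1 S lam)) = G at h6 ⊢
      generalize rd B (muX q0 S) = M at h5 ⊢
      generalize phX B hB (∑ q ∈ S, bb q.1) = b at h6 ⊢
      linear_combination M * h6 + (1 + b) * h5 + (phX B hB _) * h7
    have h9 := (Rt_inv_one (Rt_neg_rh hB)).mul hB h8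
    have e : (-rh)⁻¹ * (-rh * yX4 4 0 1 q0 S) = yX4 4 0 1 q0 S := by
      rw [← mul_assoc, inv_mul_cancel₀ (neg_ne_zero.2 rh_ne), one_mul]
    rwa [e, one_mul] at h9

/-- the second order, both cases -/
theorem Rt_yX_second (hB : (2 : ℂ)⁻¹ ∉ B) (h0 : aa q0.1 = 1) {S : Finset Pg} (hS : S.Nonempty)
    (hq : q0 ∉ S) (hA : ∑ q ∈ S, aa q.1 = 0) {h : ZMod 2} (hn : hh h + ∑ q ∈ S, nn q.1 = 0)
    (h1 : ∑ p ∈ S, s4 q0 p = 1) (hc : h + ∑ q ∈ S, bb q.1 = 0) :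
    Rt B (yX4 4 0 h q0 S / lm) (kapX s4 (fun q => aa q.1)
      (if ∑ q ∈ S, c4 q lam = 1 ∨ ∑ q ∈ S, c4 q lam = 2 then 1 else 0) S) := by
  have c1 := tauX_s0 s4 (fun q => aa q.1) q0 (fun p q _ => IndX_s4 p q) hS hA h1
  rw [tauX] at c1
  have c2 : ∀ x : ZMod 2, CZ (nX s4 (fun q => aa q.1) q0) (fun i => aa i.1 + x * s4 q0 i) S =
      kapX s4 (fun q => aa q.1) 0 S + x * kap0 s4 S := fun x => by
    rw [← kapX_add s4 (fun p q _ => IndX_s4 p q) _ _ hS hA]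
    exact tauX_ah s4 (fun q => aa q.1) q0 (fun p q _ => IndX_s4 p q) hS hA h1 x
  have hmu := Rt_muX hB h0 hq S (Finset.Subset.refl S) hS
  rw [c1] at hmu
  have h5 := lX_mul_Rt hB hmu
  have h7 := lX_sq hB
  have h01 : ∀ h : ZMod 2, h = 0 ∨ h = 1 := by decide
  have hmd : md (∑ q ∈ S, c4 q lam) = ∑ q ∈ S, bb q.1 := by
    rw [map_sum]
    exact Finset.sum_congr rfl fun q _ => c2_lam q
  have hlam : bX q0 h S lam = ∑ q ∈ S, c4 q lam := by
    rw [bX_lam, hn, zero_mul, neg_zero, zero_mul, zero_add]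
  rw [kapX_add s4 (fun p q _ => IndX_s4 p q) _ _ hS hA]
  rcases h01 h with rfl | rfl
  · refine Rt_of_rd2 hB (yX0_memR hB h0 hq S (Finset.Subset.refl S) hS) ?_
    have hb : ∑ q ∈ S, bb q.1 = 0 := by rwa [zero_add] at hc
    have hbS : ∑ i ∈ S, (bb i.1 + aa i.1 * bb q0.1) = 0 := by rw [sum_bb hA, hb]
    have c3 := c2 1
    simp only [one_mul] at c3
    have h4 := rd_yX0 hB h0 hq S (Finset.Subset.refl S) hS
    rw [starY_zero _ _ hbS, zero_add, c3, hlam] at h4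
    rw [hb] at hmd
    have key : ∀ t : ZMod 4, md t = 0 → t = 0 ∨ t = 2 := by decide
    rw [h4]
    rcases key _ hmd with ht | ht
    · have h02 : ¬ ((0 : ZMod 4) = 1 ∨ (0 : ZMod 4) = 2) := by decide
      rw [ht, if_neg h02, zero_mul, add_zero, sub_zero, rd_gX4_two hB, map_add]
      have h8 := IndX0_two hB (lX B * phX B hB (kap0 s4 S))
      linear_combination h8 + h5 + rd B (muX q0 S) * h7
    · have h9 : gX4 (2 - 2) = 0 := by rw [sub_self, gX4_zero]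
      rw [ht, if_pos (Or.inr rfl), one_mul, h9, rd_zero, mul_zero, mul_zero, zero_add]
  · have h8 : Rt B (-rh * yX4 4 0 1 q0 S / lm) (kapX s4 (fun q => aa q.1) 0 S +
        (if ∑ q ∈ S, c4 q lam = 1 ∨ ∑ q ∈ S, c4 q lam = 2 then 1 else 0) * kap0 s4 S) := by
      refine Rt_of_rd2 hB (yX1_memR hB h0 hq S (Finset.Subset.refl S) hS) ?_
      have hb : ∑ q ∈ S, bb q.1 = 1 := by
        have key2 : ∀ x : ZMod 2, 1 + x = 0 → x = 1 := by decide
        exact key2 _ hc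
      have c3 := c2 0
      simp only [zero_mul, add_zero] at c3
      have h4 := rd_yX1 hB h0 hq S (Finset.Subset.refl S) hS
      rw [rd_uC hB h0 hq S (Finset.Subset.refl S) hS, c3, hlam] at h4
      rw [hb] at hmd
      have key : ∀ t : ZMod 4, md t = 1 → t = 1 ∨ t = 3 := by decide
      have hzt : -zt ∈ B := IndX0_mem ((Rt_ztX hB).neg hB)
      rw [h4]
      rcases key _ hmd with ht | ht
      · have h9 : (2 - 1 : ZMod 4) = 1 := by decide
        have h10 : 1 + rd B (gX4 1) = lX B := by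
          have e : (1 : ℂ) + -zt = gX4 2 := by
            rw [gX4, e4_two]
            have hl := lm_ne
            field_simp
            rw [lm]
            linear_combination -zt_sq
          rw [gX4_one, ← rd_one, ← rd_add B.one_mem hzt, e, rd_gX4_two hB]
        rw [ht, if_pos (Or.inl rfl), one_mul, h9, h10, map_add]
        linear_combination h5
      · have h11 : ¬ ((3 : ZMod 4) = 1 ∨ (3 : ZMod 4) = 2) := by decide
        have h9 : (2 - 3 : ZMod 4) = 3 := by decide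
        have h10 : 1 + rd B (gX4 3) = 0 := by
          rw [gX4_three, rd_one]
          exact IndX0_two hB 1
        rw [ht, if_neg h11, zero_mul, add_zero, h9, h10, zero_mul, zero_add]
    have h9 := (Rt_inv_one (Rt_neg_rh hB)).mul hB h8
    have e : (-rh)⁻¹ * (-rh * yX4 4 0 1 q0 S / lm) = yX4 4 0 1 q0 S / lm := by
      rw [mul_div_assoc, ← mul_assoc, inv_mul_cancel₀ (neg_ne_zero.2 rh_ne), one_mul]
    rwa [e, one_mul] at h9

/-- **`k = 0`, first order.** -/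
theorem Rt_La4_zero (hB : (2 : ℂ)⁻¹ ∉ B) {S : Finset Pg} (hS : S.Nonempty)
    (hA : ∑ q ∈ S, aa q.1 = 0) : Rt B (La4 0 S / (La4 0 ∅ * lm ^ (S.card + 3)))
      (((if ∑ q ∈ S, nn q.1 = 2 then 1 else 0) + ∑ q ∈ S, bb q.1) * kap0 s4 S) := by
  obtain ⟨q0, -, h0, ha, h1⟩ := exists_aux hS.ne_empty 0
  obtain ⟨h, h2, h3⟩ := nn_sum hA
  rw [h2]
  exact Rt_La4_of hB (Or.inl rfl) ha h0 h3 h1 (Rt_yX_first hB ha hS h0 hA h3 h1)

/-- **`k = 0`, second order.** -/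
theorem Rt_La4_zero' (hB : (2 : ℂ)⁻¹ ∉ B) {S : Finset Pg} (hS : S.Nonempty)
    (hA : ∑ q ∈ S, aa q.1 = 0)
    (hc : (if ∑ q ∈ S, nn q.1 = 2 then 1 else 0 : ZMod 2) + ∑ q ∈ S, bb q.1 = 0) :
    Rt B (La4 0 S / (La4 0 ∅ * lm ^ (S.card + 4))) (kapX s4 (fun q => aa q.1)
      (if ∑ q ∈ S, c4 q lam = 1 ∨ ∑ q ∈ S, c4 q lam = 2 then 1 else 0) S) := by
  obtain ⟨q0, -, h0, ha, h1⟩ := exists_aux hS.ne_empty 0
  obtain ⟨h, h2, h3⟩ := nn_sum hA
  rw [h2] at hc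
  have h4 := Rt_yX_second hB ha hS h0 hA h3 h1 hc
  have e : yX4 4 0 h q0 S / lm = MM 0 h q0 S S / lm ^ (S.card + 4 + 1) := by
    rw [yX4, div_div, ← pow_succ]
  rw [e] at h4
  exact Rt_La4_of hB (Or.inl rfl) ha h0 h3 h1 h4

end

end Pool.Agent.Lib.MP_1a91b9_ntQ
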