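import Pool.Agent.Lib.MP_1a91b9_ntQ.A.Ser4
import Pool.Agent.Lib.MP_1a91b9_ntQ.A.SysE

/-!
# TwistDensity, phase 4 (quartic twists), part A, file SerE: the L-series of `y² = x³ - D x` over
`ℚ(i)`, `D = i ^ κ lam ∏ (q ∈ S) q`
-/

set_option autoImplicit false

namespace Pool.Agent.Lib.MP_1a91b9_ntQ

open NumberField IsDedekindDomain Polynomial WeierstrassCurve Pool.Agent.Lib.MP_1a91b9_nt
  Pool.Agent.Lib.MP_1a91b9_nuT
open Pool.Agent.Lib.MP_1a91b9_nuX.HQ (GI G4 qs w)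
open Pool.Agent.Lib.MP_1a91b9_ntQ.C (pv)

noncomputable section

/-- the squarefree element `i ^ κ lam ∏ (q ∈ S) q` -/
def DqE (κ : ZMod 4) (S : Finset Pg) : 𝓞 K4 := iO ^ κ.val * lam * DDq S

theorem DqE_eq (κ : ZMod 4) (S : Finset Pg) : DqE κ S = lam * Dq κ S := by
  rw [DqE, Dq]
  ring

theorem DqE_dvd {κ : ZMod 4} {S : Finset Pg} {q : Pg} : q.1 ∣ DqE κ S ↔ q ∈ S := by
  rw [DqE_eq]
  constructor
  · intro h
    rcases q.prime.dvd_or_dvd h with h1 | h1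
    · exact absurd h1 (lam_not_dvd q)
    · exact Dq_dvd.1 h1
  · intro h
    exact (Dq_dvd.2 h).mul_left _

theorem DqE_sq {κ : ZMod 4} {S : Finset Pg} {q : Pg} : ¬ q.1 ^ 2 ∣ DqE κ S := by
  rw [DqE_eq]
  intro h
  have h1 : IsCoprime (q.1 ^ 2) lam := by
    have h2 : IsCoprime q.1 (lam ^ 1) := in4_cop_lam q.in4 1
    rw [pow_one] at h2
    exact h2.pow_left
  exact Dq_sq (h1.dvd_of_dvd_mul_left h)

/-- the symbol of `D` at a prime which does not divide it -/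
theorem c4_DqE (κ : ZMod 4) {S : Finset Pg} {q : Pg} (hq : q ∉ S) :
    c4 q (DqE κ S) = (κ + 2 * ∑ p ∈ S, nn p.1) * nn q.1 + ll q.1 + ∑ p ∈ S, c4 p q.1 := by
  have h1 : ¬ q.1 ∣ Dq κ S := fun h => hq (Dq_dvd.1 h)
  rw [DqE_eq, c4_mul q (lam_not_dvd q) h1, c4_Dq κ hq, ll_q]
  ring

theorem DqE_lam (κ : ZMod 4) (S : Finset Pg) : lam ∣ DqE κ S := by
  rw [DqE_eq]
  exact dvd_mul_right _ _

theorem DqE_lam2 (κ : ZMod 4) (S : Finset Pg) : ¬ lam ^ 2 ∣ DqE κ S := by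
  rw [DqE_eq, pow_two]
  intro h
  exact Dq_not_lam κ S ((mul_dvd_mul_iff_left lam_ne_zero).1 h)

/-- **The L-series of the quartic twist**, `D = i ^ κ lam ∏ (q ∈ S) q`. -/
theorem serE (κ : ZMod 4) (S : Finset Pg) :
    ∃ g : ℂ → ℂ, Differentiable ℂ g ∧ (∀ s : ℂ, 3 / 2 < s.re → g s = (WD4 (DqE κ S)).LSeries s) ∧
      g 1 = LE (κ + 2 * ∑ q ∈ S, nn q.1) S 1 *
        (starRingEnd ℂ) (LE (κ + 2 * ∑ q ∈ S, nn q.1) S 1) := by
  refine ser4_gen (XE_chr (κ + 2 * ∑ q ∈ S, nn q.1) S) (fun v hv => ?_) (fun q hq => ⟨?_, ?_⟩)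
    fun q hq => ?_
  · rw [eq_pv_lam hv]
    exact loc4_lam_even (DqE_lam κ S) fun h => DqE_lam2 κ S ((pow_dvd_pow lam (by norm_num)).trans h)
  · exact fun h => DqE_sq ((pow_dvd_pow q.1 (by norm_num)).trans h)
  · rw [XE_eq, Finset.prod_eq_zero (DqE_dvd.1 hq) (ch4_of_dvd (dvd_refl _)), mul_zero]
  · have h1 : q ∉ S := fun h => hq (DqE_dvd.2 h)
    have h2 : ∀ p ∈ S, ¬ p.1 ∣ q.1 := fun p hp => Pg.not_dvd (by
      rintro rfl
      exact h1 hp)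
    rw [XE_of_cop _ h2, c4_DqE κ h1]

/-- the L-series has an entire continuation which does not vanish at `1` if `LE` does not -/
theorem serE_ne {κ : ZMod 4} {S : Finset Pg} (h : LE (κ + 2 * ∑ q ∈ S, nn q.1) S 1 ≠ 0) :
    ∃ g : ℂ → ℂ, Differentiable ℂ g ∧ (∀ s : ℂ, 3 / 2 < s.re → g s = (WD4 (DqE κ S)).LSeries s) ∧
      g 1 ≠ 0 := by
  obtain ⟨g, h1, h2, h3⟩ := serE κ S
  exact ⟨g, h1, h2, by rw [h3]; exact mul_ne_zero h ((_root_.map_ne_zero _).2 h)⟩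

end

end Pool.Agent.Lib.MP_1a91b9_ntQ
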