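import Pool.Agent.Lib.MP_1a91b9_ntQ.A.Prim4
import Pool.Agent.Lib.MP_1a91b9_ntQ.A.LocLG

/-!
# TwistDensity, phase 4 (quartic twists), part A, file SerP: the L-series of `y² = x³ - D x` over
`ℚ(i)`, `D = - ∏ (q ∈ S) q`

If `∑ nn q = 1` the curve has good reduction at the place above `2`, and the L-series is the one of a
character modulo `D`. In all other cases the Euler factor above `2` is `1`.
-/

set_option autoImplicit false

namespace Pool.Agent.Lib.MP_1a91b9_ntQ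

open NumberField IsDedekindDomain Polynomial WeierstrassCurve Pool.Agent.Lib.MP_1a91b9_nt
  Pool.Agent.Lib.MP_1a91b9_nuT
open Pool.Agent.Lib.MP_1a91b9_nuT.S4 (Lf)
open Pool.Agent.Lib.MP_1a91b9_ntQ.C (pv)

noncomputable section

theorem Dq_two (S : Finset Pg) : Dq 2 S = -DDq S := by
  have h2 : iO ^ (2 : ZMod 4).val = -1 := by
    have : (2 : ZMod 4).val = 2 := rfl
    rw [this, iO_sq]
  rw [Dq, h2, neg_one_mul]

/-- the character modulo `D` -/
def YP (S : Finset Pg) (x : 𝓞 K) : ℂ := ∏ q ∈ S, ch4 q x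

theorem YP_of {S : Finset Pg} {x : 𝓞 K} (h : ∀ q ∈ S, ¬ q.1 ∣ x) :
    YP S x = e4 (∑ q ∈ S, c4 q x) := by
  rw [YP, e4_sum]
  exact Finset.prod_congr rfl fun q hq => ch4_of_not (h q hq)

theorem YP_unit {S : Finset Pg} (h1 : nn (DDq S) ≠ 0) (u : (𝓞 K)ˣ)
    (hu : DDq S ∣ (u : 𝓞 K) - 1) : u = 1 := by
  by_contra hne
  apply h1
  have hu0 : (u : 𝓞 K) - 1 ≠ 0 := by
    intro h
    apply hne
    exact Units.ext (sub_eq_zero.1 h)
  -- `u - 1` divides `lam ^ 2`
  have hd : (u : 𝓞 K) - 1 ∣ lam ^ 2 := by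
    obtain ⟨k, hk⟩ := exists_pow_unit u.isUnit
    rw [hk] at hu0 ⊢
    have key : ∀ k : ZMod 4, k = 0 ∨ k = 1 ∨ k = 2 ∨ k = 3 := by decide
    have v0 : (0 : ZMod 4).val = 0 := rfl
    have v1 : (1 : ZMod 4).val = 1 := rfl
    have v2 : (2 : ZMod 4).val = 2 := rfl
    have v3 : (3 : ZMod 4).val = 3 := rfl
    have hl : (lam : 𝓞 K) ^ 2 = 2 * iO := lam_sq
    rw [hl]
    rcases key k with rfl | rfl | rfl | rfl
    · rw [v0, pow_zero, sub_self] at hu0
      exact absurd rfl hu0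
    · rw [v1, pow_one]
      exact ⟨1 - iO, by linear_combination iO_sq⟩
    · rw [v2]
      exact ⟨-iO, by linear_combination iO * iO_sq⟩
    · rw [v3]
      exact ⟨-(1 + iO), by linear_combination (iO + iO ^ 2 - 1) * iO_sq⟩
  have h3 := hu.trans hd
  have h4 : IsCoprime (DDq S) (lam ^ 2) := in4_cop_lam (DDq_in4 S) 2
  have h5 : IsUnit (DDq S) := h4.isUnit_of_dvd' (dvd_refl _) h3
  rw [unit_in4 h5 (DDq_in4 S), nn_one]

theorem YP_chrU {S : Finset Pg} (h1 : nn (DDq S) = 1) : ChrU (DDq S) (YP S) where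
  ne := (DDq_in4 S).ne_zero
  un := YP_unit (by rw [h1]; decide)
  one := Finset.prod_eq_one fun q _ => (ch4_chrP q).one
  mul a b := by
    rw [YP, YP, YP, ← Finset.prod_mul_distrib]
    exact Finset.prod_congr rfl fun q _ => (ch4_chrP q).mul a b
  le a := by
    rw [YP, norm_prod]
    exact Finset.prod_le_one (fun _ _ => norm_nonneg _) fun q _ => (ch4_chrP q).le a
  zero a ha := by
    have h2 : ∃ q ∈ S, q.1 ∣ a := by
      by_contra hc
      push Not at hc
      apply ha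
      refine IsCoprime.prod_right fun q hq => ?_
      exact (q.prime.irreducible.coprime_iff_not_dvd.2 (hc q hq)).symm
    obtain ⟨q, hq, hd⟩ := h2
    exact Finset.prod_eq_zero hq (ch4_of_dvd hd)
  per a b hab := by
    rw [YP, YP]
    exact Finset.prod_congr rfl fun q hq => (ch4_chrP q).per a b ((dvd_DDq.2 hq).trans hab)
  i := by
    have h2 : ∀ q ∈ S, ¬ q.1 ∣ iO := fun q _ h =>
      q.prime.not_isUnit (isUnit_of_dvd_unit h isUnit_iO)
    rw [YP_of h2, Finset.sum_congr rfl fun q _ => c4_i q, ← nn_DDq, h1]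

/-- **The L-series of the quartic twist**, `D = - ∏ (q ∈ S) q`, good reduction above `2`. -/
theorem serP {S : Finset Pg} (h1 : nn (DDq S) = 1) :
    ∃ g : ℂ → ℂ, Differentiable ℂ g ∧ (∀ s : ℂ, 3 / 2 < s.re → g s = (WD4 (-DDq S)).LSeries s) ∧
      g 1 = LU (YP S) 1 * (starRingEnd ℂ) (LU (YP S) 1) := by
  have hY := YP_chrU h1
  refine Ser_main (W := WD4 (-DDq S)) (p := pU (YP S)) hY.pU_one hY.pU_mul hY.pU_le ?_ hY.LU_diff
    hY.LU_eq
  intro v x
  rcases Gen_place (f := (lam ^ 3 : 𝓞 K)) v with h | ⟨q, rfl⟩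
  · have h3 : lam ∈ v.asIdeal := by
      by_contra h0
      apply h
      rw [Ideal.isCoprime_iff_sup_eq]
      have hm : v.asIdeal.IsMaximal := Ideal.IsPrime.isMaximal v.isPrime v.ne_bot
      by_contra h1
      have h2 := hm.eq_of_le h1 le_sup_left
      have h4 : (lam ^ 3 : 𝓞 K4) ∈ v.asIdeal := by
        rw [h2]
        exact Ideal.mem_sup_right (Ideal.mem_span_singleton_self _)
      exact h0 (v.isPrime.mem_of_pow_mem _ h4)
    rw [eq_pv_lam h3]
    have h4 : pU (YP S) (pv lam lam_prime).asIdeal =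
        (starRingEnd ℂ) (em lam) * e4 (∑ q ∈ S, c4 q lam) := by
      change pU (YP S) (Ideal.span {lam}) = _
      rw [hY.pU_span, YP_of fun q _ => lam_not_dvd q]
    rw [h4]
    exact (locLG S x).1 h1
  · have h4 : pU (YP S) (plf q).asIdeal = (starRingEnd ℂ) (em q.1) * YP S q.1 := hY.pU_span q.1
    rw [h4]
    have hdvd : ∀ q : Pg, q.1 ∣ -DDq S ↔ q ∈ S := fun q => by rw [dvd_neg, dvd_DDq]
    by_cases h : q.1 ∣ -DDq S
    · have h5 : (2 : 𝓞 K4) ∉ (plf q).asIdeal := (Pg.g4 ⟨q.1, q.2⟩).two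
      have h6 : ¬ q.1 ∣ (2 : 𝓞 K4) := fun h5' => h5 (Ideal.mem_span_singleton.2 h5')
      have h7 : plf q = pv q.1 q.2.1 := HeightOneSpectrum.ext rfl
      have h8 : ¬ q.1 ^ 4 ∣ -DDq S := by
        intro h9
        have h10 := Dq_sq (κ := 2) (S := S) (q := ⟨q.1, q.2⟩)
        rw [Dq_two] at h10
        exact h10 ((pow_dvd_pow q.1 (by norm_num)).trans h9)
      have h9 : YP S q.1 = 0 :=
        Finset.prod_eq_zero ((hdvd ⟨q.1, q.2⟩).1 h) (ch4_of_dvd (dvd_refl _))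
      rw [h7, loc4_bad_place q.2.1 h6 h h8, h9]
      simp
    · have h5 : (⟨q.1, q.2⟩ : Pg) ∉ S := fun h6 => h ((hdvd ⟨q.1, q.2⟩).2 h6)
      have h6 : ∀ p ∈ S, ¬ p.1 ∣ q.1 := fun p hp =>
        Pg.not_dvd (p := p) (q := ⟨q.1, q.2⟩) (by
          rintro rfl
          exact h5 hp)
      have h7 := c4_Dq 2 h5
      have h8 : (2 : ZMod 4) + 2 * ∑ p ∈ S, nn p.1 = 0 := by
        rw [← nn_DDq, h1]
        decide
      rw [Dq_two, h8, zero_mul, zero_add] at h7
      rw [YP_of h6, ← h7]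
      exact locG_c4 (-DDq S) ⟨q.1, q.2⟩ (plf q) rfl h x

/-- **The L-series of the quartic twist**, `D = i ^ κ ∏ (q ∈ S) q`, in all cases: it has an entire
continuation which does not vanish at `1` if `L4` does not. -/
theorem ser4_all (κ : ZMod 4) {S : Finset Pg} (h : L4 (κ + 2 * ∑ q ∈ S, nn q.1) S 1 ≠ 0) :
    ∃ g : ℂ → ℂ, Differentiable ℂ g ∧ (∀ s : ℂ, 3 / 2 < s.re → g s = (WD4 (Dq κ S)).LSeries s) ∧
      g 1 ≠ 0 := by
  by_cases hκ : κ = 2
  · subst hκ
    by_cases h1 : nn (DDq S) = 1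
    · obtain ⟨g, h2, h3, h4⟩ := serP h1
      refine ⟨g, h2, by rw [Dq_two]; exact h3, ?_⟩
      rw [h4]
      have h8 : (2 : ZMod 4) + 2 * ∑ p ∈ S, nn p.1 = 0 := by
        rw [← nn_DDq, h1]
        decide
      rw [h8] at h
      have h5 : LU (YP S) 1 ≠ 0 := by
        intro h0
        apply h
        have h6 := (YP_chrU h1).LU_LG (X4_chr 0 S) fun a _ => by rw [X4_eq, th4_zero, one_mul, YP]
        rw [h0, zero_mul] at h6
        exact h6.symm
      exact mul_ne_zero h5 ((_root_.map_ne_zero _).2 h5)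
    · obtain ⟨g, h2, h3, h4⟩ := ser4 2 S fun v hv => by
        rw [eq_pv_lam hv, Dq_two]
        exact (locLG S 0).2 h1
      exact ⟨g, h2, h3, by rw [h4]; exact mul_ne_zero h ((_root_.map_ne_zero _).2 h)⟩
  · exact ser4_ne hκ h

end

end Pool.Agent.Lib.MP_1a91b9_ntQ
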