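import Pool.Agent.Lib.MP_1a91b9_ntQ.A.DefB
import Pool.Agent.Lib.MP_1a91b9_ntQ.A.SerP
import Pool.Agent.Lib.MP_1a91b9_ntQ.A.SerE

/-!
# Quartic twists, all fourth-power-free `D`, file SerB: the L-series of `y² = x³ - D x` over `ℚ(i)`

`D = i ^ κ lam ^ j ∏ (q ∈ S) q ^ (e q)`, `j ≤ 3`, `e q ≠ 0`. The L-series is `LB` times its complex
conjugate, except if `j = 0`, `κ = 2`, `nn (DDe e S) = 1`: then the curve has good reduction at the
place above `2` and the L-series is the one of the character `chP e S` modulo `DDq S`.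
-/

set_option autoImplicit false

namespace Pool.Agent.Lib.MP_1a91b9_ntQ

open NumberField IsDedekindDomain Polynomial WeierstrassCurve Pool.Agent.Lib.MP_1a91b9_nt
  Pool.Agent.Lib.MP_1a91b9_nuT
open Pool.Agent.Lib.MP_1a91b9_nuT.S4 (Lf)
open Pool.Agent.Lib.MP_1a91b9_ntQ.C (pv)

noncomputable section

/-! ### The Euler factor at the place above `2` -/

/-- **the Euler factor at the place above `2` of `y² = x³ + c x`**, `c` congruent to `1` modulo
`lam ^ 3` -/
theorem locLGx {c : 𝓞 K4} (hc4 : In4 c) (x : ℂ) :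
    (nn (c) = 1 → aeval x (locPoly (WD4 (-c)) (pv lam lam_prime)) =
      (1 - (starRingEnd ℂ) (em lam) * e4 (gl c) * x) *
        (1 - (starRingEnd ℂ) ((starRingEnd ℂ) (em lam) * e4 (gl c)) * x)) ∧
    (nn (c) ≠ 1 → locPoly (WD4 (-c)) (pv lam lam_prime) = 1) := by
  obtain ⟨m, n, h⟩ := in4_form hc4
  have hcast : ∀ a b : ℤ, (a : ZMod 4) = b ↔ a % 4 = b % 4 := by
    intro a b
    rw [ZMod.intCast_eq_intCast_iff]
    rfl
  have hnn : nn (c) = 1 ↔ (m + n) % 4 = 1 := by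
    rw [h, nn_form]
    have e := hcast (m + n) 1
    push_cast at e
    rw [e]
  constructor
  · intro h1
    rw [hnn] at h1
    obtain ⟨j, hj⟩ : ∃ j, n = 4 * j + 1 - m := ⟨(m + n - 1) / 4, by omega⟩
    have hD : -c = 1 + 2 * iO + 4 * (2 * (j : 𝓞 K4) * (1 + iO) - (m : 𝓞 K4) * iO) := by
      rw [h, hj, lam_cube]
      push_cast
      linear_combination (2 : 𝓞 K4) * (-(4 * (j : 𝓞 K4) + 1 - m)) * iO_sq
    have hc : em lam = 1 + Pool.Agent.Lib.MP_1a91b9_nuT.zt := by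
      have e : lam = 1 + iO := rfl
      rw [e, em_add, em_one, em_iO']
    have hcz : (starRingEnd ℂ) (em lam) = 1 - Pool.Agent.Lib.MP_1a91b9_nuT.zt := by
      rw [hc, map_add, map_one, conj_zt]
      ring
    have hsum : gl c = -(m : ZMod 4) - 1 := by
      rw [h, gl_form, hj]
      push_cast
      have h4 : (4 : ZMod 4) = 0 := by decide
      linear_combination (-(m : ZMod 4) ^ 2 + m + 4 * j * m - 4 * (j : ZMod 4) ^ 2 - 2 * j) * h4
    have hz := zt_sq
    rw [hsum]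
    rcases Int.even_or_odd m with ⟨k, hk⟩ | ⟨k, hk⟩
    · have hg := locLG_good (-c) (((j - k : ℤ) : 𝓞 K4) + ((-j : ℤ) : 𝓞 K4) * iO) 0 (by
        rw [hD, hk]
        push_cast
        linear_combination (8 * (j : 𝓞 K4)) * iO_sq) x
      have hl : lam ∣ (((j - k : ℤ) : 𝓞 K4) + ((-j : ℤ) : 𝓞 K4) * iO) ↔ k % 2 = 0 := by
        rw [lam_dvd_iff, cp_coords]
        constructor
        · intro h5
          simp only at h5
          omega
        · intro h5
          simp only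
          omega
      rcases Int.emod_two_eq_zero_or_one k with h5 | h5
      · rw [hg.1 (hl.2 h5)]
        have e : (m : ZMod 4) = 0 := by
          have := (hcast m 0).2 (by omega)
          rwa [Int.cast_zero] at this
        have e3 : (-0 - 1 : ZMod 4) = 3 := by decide
        rw [e, e3, map_mul, conj_e4, hcz, map_sub, map_one, conj_zt]
        have e5 : (-3 : ZMod 4) = 1 := by decide
        rw [e5, e4_three, e4_one]
        linear_combination (2 * x + (2 - Pool.Agent.Lib.MP_1a91b9_nuT.zt ^ 2) * x ^ 2) * hz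
      · rw [hg.2 (fun h6 => by have := hl.1 h6; omega)]
        have e : (m : ZMod 4) = 2 := by
          have := (hcast m 2).2 (by omega)
          simpa using this
        have e3 : (-2 - 1 : ZMod 4) = 1 := by decide
        rw [e, e3, map_mul, conj_e4, hcz, map_sub, map_one, conj_zt]
        have e5 : (-1 : ZMod 4) = 3 := by decide
        rw [e5, e4_three, e4_one]
        linear_combination (-2 * x + (2 - Pool.Agent.Lib.MP_1a91b9_nuT.zt ^ 2) * x ^ 2) * hz
    · have hg := locLG_good (-c) (((j - k - 1 : ℤ) : 𝓞 K4) + ((-j - 1 : ℤ) : 𝓞 K4) * iO) 1 (by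
        rw [hD, hk]
        push_cast
        linear_combination (8 * ((j : 𝓞 K4) + 1)) * iO_sq) x
      have hl : lam ∣ (((j - k - 1 : ℤ) : 𝓞 K4) + ((-j - 1 : ℤ) : 𝓞 K4) * iO) ↔ k % 2 = 0 := by
        rw [lam_dvd_iff, cp_coords]
        constructor
        · intro h5
          simp only at h5
          omega
        · intro h5
          simp only
          omega
      rcases Int.emod_two_eq_zero_or_one k with h5 | h5
      · rw [hg.1 (hl.2 h5)]
        have e : (m : ZMod 4) = 1 := by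
          have := (hcast m 1).2 (by omega)
          rwa [Int.cast_one] at this
        have e3 : (-1 - 1 : ZMod 4) = 2 := by decide
        rw [e, e3, map_mul, conj_e4, hcz, map_sub, map_one, conj_zt]
        have e5 : (-2 : ZMod 4) = 2 := by decide
        rw [e5, e4_two]
        linear_combination x ^ 2 * hz
      · rw [hg.2 (fun h6 => by have := hl.1 h6; omega)]
        have e : (m : ZMod 4) = 3 := by
          have := (hcast m 3).2 (by omega)
          simpa using this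
        have e3 : (-3 - 1 : ZMod 4) = 0 := by decide
        rw [e, e3, map_mul, conj_e4, hcz, map_sub, map_one, conj_zt]
        rw [neg_zero, e4_zero]
        linear_combination x ^ 2 * hz
  · intro h1
    have h3 : lam ^ 3 ∣ -c + 1 := by
      refine ⟨-((m : 𝓞 K4) + (n : 𝓞 K4) * iO), ?_⟩
      rw [h]
      ring
    refine locLG_bad h3 ?_
    rw [cp_neg, h, cp_form]
    simp only [Prod.fst_neg]
    rw [ne_eq, hnn] at h1
    omega

theorem gl_eq_ll {x : 𝓞 K4} (hx : In4 x) : gl x = ll x := by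
  obtain ⟨m, n, rfl⟩ := in4_form hx
  rw [gl_form, ll_form]

theorem gl_DDe (e : Pg → ZMod 4) (S : Finset Pg) : gl (DDe e S) = ∑ q ∈ S, e q * c4 q lam := by
  rw [gl_eq_ll (DDe_in4 e S), ll_DDe]
  exact Finset.sum_congr rfl fun q _ => by rw [ll_q]

theorem DqB_two (e : Pg → ZMod 4) (S : Finset Pg) : DqB 2 0 e S = -DDe e S := by
  have h2 : iO ^ (2 : ZMod 4).val = -1 := by
    have : (2 : ZMod 4).val = 2 := rfl
    rw [this, iO_sq]
  rw [DqB, h2, pow_zero, mul_one, neg_one_mul]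

theorem DqB_lam3 (κ : ZMod 4) (e : Pg → ZMod 4) (S : Finset Pg) :
    lam ^ 3 ∣ DqB κ 0 e S - iO ^ κ.val := by
  have h : lam ^ 3 ∣ DDe e S - 1 := DDe_in4 e S
  have e1 : DqB κ 0 e S - iO ^ κ.val = iO ^ κ.val * (DDe e S - 1) := by
    rw [DqB]
    ring
  rw [e1]
  exact h.mul_left _

theorem DqB_not_lam (κ : ZMod 4) (e : Pg → ZMod 4) (S : Finset Pg) : ¬ lam ∣ DqB κ 0 e S := by
  intro h
  rw [DqB, pow_zero, mul_one] at h
  rcases lam_prime.dvd_or_dvd h with h1 | h1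
  · exact lam_prime.not_isUnit (isUnit_of_dvd_unit h1 (isUnit_iO.pow _))
  · exact (DDe_in4 e S).not_lam h1

theorem DqB_add_one {κ : ZMod 4} (hκ : κ ≠ 2) (e : Pg → ZMod 4) (S : Finset Pg) :
    ¬ lam ^ 3 ∣ DqB κ 0 e S + 1 := by
  intro h
  have h1 : lam ^ 3 ∣ iO ^ κ.val + 1 := by
    have e1 : iO ^ κ.val + 1 = (DqB κ 0 e S + 1) - (DqB κ 0 e S - iO ^ κ.val) := by ring
    rw [e1]
    exact dvd_sub h (DqB_lam3 κ e S)
  have h2 : iO ^ (2 : ZMod 4).val = -1 := by
    have : (2 : ZMod 4).val = 2 := rfl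
    rw [this, iO_sq]
  have h3 : In4 (iO ^ (κ + 2).val) := by
    change lam ^ 3 ∣ iO ^ (κ + 2).val - 1
    rw [← pow_val_mul, h2]
    have e1 : iO ^ κ.val * -1 - 1 = -(iO ^ κ.val + 1) := by ring
    rw [e1]
    exact (dvd_neg).2 h1
  have h4 := pow_in4 h3
  apply hκ
  have h5 : ∀ k : ZMod 4, k + 2 = 0 → k = 2 := by decide
  exact h5 κ h4

theorem DqB_lam (κ : ZMod 4) {j : ℕ} (hj : j ≠ 0) (e : Pg → ZMod 4) (S : Finset Pg) :
    lam ∣ DqB κ j e S :=
  ((dvd_pow_self lam hj).mul_left _).mul_right _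

theorem DqB_lam4 (κ : ZMod 4) {j : ℕ} (hj : j ≤ 3) (e : Pg → ZMod 4) (S : Finset Pg) :
    ¬ lam ^ 4 ∣ DqB κ j e S := by
  intro h
  have e1 : DqB κ j e S = lam ^ j * DqB κ 0 e S := by
    rw [DqB, DqB]
    ring
  have h1 : lam ^ j * lam ∣ lam ^ j * DqB κ 0 e S := by
    rw [← e1, ← pow_succ]
    exact (pow_dvd_pow lam (by omega)).trans h
  exact DqB_not_lam κ e S ((mul_dvd_mul_iff_left (pow_ne_zero j lam_ne_zero)).1 h1)

/-- the Euler factor above `2` is `1` except in the case of good reduction -/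
theorem locB {κ : ZMod 4} {j : ℕ} (hj : j ≤ 3) {e : Pg → ZMod 4} {S : Finset Pg}
    (h : ¬ (j = 0 ∧ κ = 2 ∧ nn (DDe e S) = 1)) :
    locPoly (WD4 (DqB κ j e S)) (pv lam lam_prime) = 1 := by
  by_cases h0 : j = 0
  · subst h0
    by_cases hκ : κ = 2
    · subst hκ
      rw [DqB_two]
      exact (locLGx (DDe_in4 e S) 0).2 fun h1 => h ⟨rfl, rfl, h1⟩
    · exact loc4_lam_unit (DqB_not_lam κ e S) (DqB_add_one hκ e S)
  · exact loc4_lam_even (DqB_lam κ h0 e S) (DqB_lam4 κ hj e S)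

/-! ### The L-series -/

/-- **The L-series of the quartic twist**, `D = i ^ κ lam ^ j ∏ (q ∈ S) q ^ (e q)`, additive reduction
at the place above `2`. -/
theorem serB {κ : ZMod 4} {j : ℕ} (hj : j ≤ 3) {e : Pg → ZMod 4} (he : ExpB e) {S : Finset Pg}
    (h : ¬ (j = 0 ∧ κ = 2 ∧ nn (DDe e S) = 1)) :
    ∃ g : ℂ → ℂ, Differentiable ℂ g ∧
      (∀ s : ℂ, 3 / 2 < s.re → g s = (WD4 (DqB κ j e S)).LSeries s) ∧
      g 1 = LB (kB κ e S) j e S 1 * (starRingEnd ℂ) (LB (kB κ e S) j e S 1) := by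
  refine ser4_gen (XB_chr (kB κ e S) j e S) (fun v hv => ?_) (fun q hq => ⟨?_, ?_⟩)
    fun q hq => ?_
  · rw [eq_pv_lam hv]
    exact locB hj h
  · exact DqB_four
  · rw [XB_eq, Finset.prod_eq_zero ((DqB_dvd he).1 hq) (chE_of_dvd e (dvd_refl _)), mul_zero]
  · have h1 : q ∉ S := fun h1 => hq ((DqB_dvd he).2 h1)
    have h2 : ∀ p ∈ S, ¬ p.1 ∣ q.1 := fun p hp => Pg.not_dvd (by
      rintro rfl
      exact h1 hp)
    rw [XB_of_cop _ _ _ h2, c4_DqB κ j e h1]

theorem DDq_not_unit {S : Finset Pg} (hS : S.Nonempty) : ¬ IsUnit (DDq S) := by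
  intro h
  obtain ⟨q, hq⟩ := hS
  exact q.prime.not_isUnit (isUnit_of_dvd_unit (dvd_DDq.2 hq) h)

theorem unit_cong {S : Finset Pg} (hS : S.Nonempty) (u : (𝓞 K)ˣ)
    (hu : DDq S ∣ (u : 𝓞 K) - 1) : u = 1 := by
  by_contra hne
  apply DDq_not_unit hS
  have hu0 : (u : 𝓞 K) - 1 ≠ 0 := by
    intro h
    apply hne
    exact Units.ext (sub_eq_zero.1 h)
  have hd : (u : 𝓞 K) - 1 ∣ lam ^ 2 := by
    obtain ⟨k, hk⟩ := exists_pow_unit u.isUnit
    rw [hk] at hu0 ⊢
    have key : ∀ k : ZMod 4, k = 0 ∨ k = 1 ∨ k = 2 ∨ k = 3 := by decide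
    have v0 : (0 : ZMod 4).val = 0 := rfl
    have v1 : (1 : ZMod 4).val = 1 := rfl
    have v2 : (2 : ZMod 4).val = 2 := rfl
    have v3 : (3 : ZMod 4).val = 3 := rfl
    have hl : (lam : 𝓞 K) ^ 2 = 2 * iO := lam_sq
    rw [hl]
    rcases key k with rfl | rfl | rfl | rfl
    · rw [v0, pow_zero, sub_self] at hu0
      exact absurd rfl hu0
    · rw [v1, pow_one]
      exact ⟨1 - iO, by linear_combination iO_sq⟩
    · rw [v2]
      exact ⟨-iO, by linear_combination iO * iO_sq⟩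
    · rw [v3]
      exact ⟨-(1 + iO), by linear_combination (iO + iO ^ 2 - 1) * iO_sq⟩
  have h3 := hu.trans hd
  have h4 : IsCoprime (DDq S) (lam ^ 2) := in4_cop_lam (DDq_in4 S) 2
  exact h4.isUnit_of_dvd' (dvd_refl _) h3

theorem DDe_nonempty {e : Pg → ZMod 4} {S : Finset Pg} (h1 : nn (DDe e S) = 1) : S.Nonempty := by
  rw [Finset.nonempty_iff_ne_empty]
  rintro rfl
  rw [DDe_empty, nn_one] at h1
  revert h1
  decide

theorem chP_chrU {e : Pg → ZMod 4} {S : Finset Pg} (h1 : nn (DDe e S) = 1) :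
    ChrU (DDq S) (chP e S) where
  ne := (DDq_in4 S).ne_zero
  un := unit_cong (DDe_nonempty h1)
  one := Finset.prod_eq_one fun q _ => (chE_chrP e q).one
  mul a b := chP_mul e S a b
  le a := by
    rw [chP, norm_prod]
    exact Finset.prod_le_one (fun _ _ => norm_nonneg _) fun q _ => (chE_chrP e q).le a
  zero a ha := by
    have h2 : ∃ q ∈ S, q.1 ∣ a := by
      by_contra hc
      push Not at hc
      apply ha
      refine IsCoprime.prod_right fun q hq => ?_
      exact (q.prime.irreducible.coprime_iff_not_dvd.2 (hc q hq)).symm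
    obtain ⟨q, hq, hd⟩ := h2
    exact Finset.prod_eq_zero hq (chE_of_dvd e hd)
  per a b hab := chP_per (Finset.Subset.refl S) hab
  i := by
    have h2 : ∀ q ∈ S, ¬ q.1 ∣ iO := fun q _ h =>
      q.prime.not_isUnit (isUnit_of_dvd_unit h isUnit_iO)
    rw [chP_of_not h2, Finset.sum_congr rfl fun q _ => by rw [c4_i q], ← nn_DDe, h1]

/-- **The L-series of the quartic twist**, `D = - ∏ (q ∈ S) q ^ (e q)`, good reduction above `2`. -/
theorem serB_good {e : Pg → ZMod 4} (he : ExpB e) {S : Finset Pg} (h1 : nn (DDe e S) = 1) :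
    ∃ g : ℂ → ℂ, Differentiable ℂ g ∧
      (∀ s : ℂ, 3 / 2 < s.re → g s = (WD4 (DqB 2 0 e S)).LSeries s) ∧
      g 1 = LU (chP e S) 1 * (starRingEnd ℂ) (LU (chP e S) 1) := by
  have hY := chP_chrU h1
  rw [DqB_two]
  refine Ser_main (W := WD4 (-DDe e S)) (p := pU (chP e S)) hY.pU_one hY.pU_mul hY.pU_le ?_
    hY.LU_diff hY.LU_eq
  intro v x
  rcases Gen_place (f := (lam ^ 3 : 𝓞 K)) v with h | ⟨q, rfl⟩
  · have h3 : lam ∈ v.asIdeal := by
      by_contra h0
      apply h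
      rw [Ideal.isCoprime_iff_sup_eq]
      have hm : v.asIdeal.IsMaximal := Ideal.IsPrime.isMaximal v.isPrime v.ne_bot
      by_contra h1
      have h2 := hm.eq_of_le h1 le_sup_left
      have h4 : (lam ^ 3 : 𝓞 K4) ∈ v.asIdeal := by
        rw [h2]
        exact Ideal.mem_sup_right (Ideal.mem_span_singleton_self _)
      exact h0 (v.isPrime.mem_of_pow_mem _ h4)
    rw [eq_pv_lam h3]
    have h4 : pU (chP e S) (pv lam lam_prime).asIdeal =
        (starRingEnd ℂ) (em lam) * e4 (gl (DDe e S)) := by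
      change pU (chP e S) (Ideal.span {lam}) = _
      rw [hY.pU_span, chP_of_not fun q _ => lam_not_dvd q, gl_DDe]
    rw [h4]
    exact (locLGx (DDe_in4 e S) x).1 h1
  · have h4 : pU (chP e S) (plf q).asIdeal = (starRingEnd ℂ) (em q.1) * chP e S q.1 :=
      hY.pU_span q.1
    rw [h4]
    have hdvd : ∀ q : Pg, q.1 ∣ -DDe e S ↔ q ∈ S := fun q => by rw [dvd_neg, dvd_DDe he]
    by_cases h : q.1 ∣ -DDe e S
    · have h5 : (2 : 𝓞 K4) ∉ (plf q).asIdeal := (Pg.g4 ⟨q.1, q.2⟩).two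
      have h6 : ¬ q.1 ∣ (2 : 𝓞 K4) := fun h5' => h5 (Ideal.mem_span_singleton.2 h5')
      have h7 : plf q = pv q.1 q.2.1 := HeightOneSpectrum.ext rfl
      have h8 : ¬ q.1 ^ 4 ∣ -DDe e S := by
        rw [dvd_neg]
        exact DDe_four (q := ⟨q.1, q.2⟩)
      have h9 : chP e S q.1 = 0 :=
        Finset.prod_eq_zero ((hdvd ⟨q.1, q.2⟩).1 h) (chE_of_dvd e (dvd_refl _))
      rw [h7, loc4_bad_place q.2.1 h6 h h8, h9]
      simp
    · have h5 : (⟨q.1, q.2⟩ : Pg) ∉ S := fun h6 => h ((hdvd ⟨q.1, q.2⟩).2 h6)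
      have h6 : ∀ p ∈ S, ¬ p.1 ∣ q.1 := fun p hp =>
        Pg.not_dvd (p := p) (q := ⟨q.1, q.2⟩) (by
          rintro rfl
          exact h5 hp)
      have h7 := c4_DqB 2 0 e h5
      have h8 : kB 2 e S = 0 := by
        rw [kB_eq, h1]
        decide
      rw [DqB_two, h8, zero_mul, zero_add, Nat.cast_zero, zero_mul, zero_add] at h7
      rw [chP_of_not h6, ← h7]
      exact locG_c4 (-DDe e S) ⟨q.1, q.2⟩ (plf q) rfl h x

/-- the two L-functions in the case of good reduction above `2` -/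
theorem LU_LB {e : Pg → ZMod 4} {S : Finset Pg} (h1 : nn (DDe e S) = 1) :
    LU (chP e S) 1 * (1 - (starRingEnd ℂ) (em lam) * chP e S lam / 2) = LB (kB 2 e S) 0 e S 1 := by
  have h8 : kB 2 e S = 0 := by
    rw [kB_eq, h1]
    decide
  rw [h8]
  exact (chP_chrU h1).LU_LG (XB_chr 0 0 e S) fun a _ => by
    rw [XB_zero, Xe_eq, th4_zero, one_mul]

/-- **The L-series of the quartic twist** for every fourth-power-free `D`: it has an entire
continuation which does not vanish at `1` if `LB` does not. -/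
theorem serB_ne (κ : ZMod 4) {j : ℕ} (hj : j ≤ 3) {e : Pg → ZMod 4} (he : ExpB e) {S : Finset Pg}
    (h : LB (kB κ e S) j e S 1 ≠ 0) :
    ∃ g : ℂ → ℂ, Differentiable ℂ g ∧
      (∀ s : ℂ, 3 / 2 < s.re → g s = (WD4 (DqB κ j e S)).LSeries s) ∧ g 1 ≠ 0 := by
  by_cases hc : j = 0 ∧ κ = 2 ∧ nn (DDe e S) = 1
  · obtain ⟨rfl, rfl, h1⟩ := hc
    obtain ⟨g, h2, h3, h4⟩ := serB_good he h1
    refine ⟨g, h2, h3, ?_⟩
    rw [h4]
    have h5 : LU (chP e S) 1 ≠ 0 := by
      intro h0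
      apply h
      rw [← LU_LB h1, h0, zero_mul]
    exact mul_ne_zero h5 ((_root_.map_ne_zero _).2 h5)
  · obtain ⟨g, h2, h3, h4⟩ := serB hj he hc
    exact ⟨g, h2, h3, by rw [h4]; exact mul_ne_zero h ((_root_.map_ne_zero _).2 h)⟩

end

end Pool.Agent.Lib.MP_1a91b9_ntQ
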