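import Pool.Agent.Lib.MP_1a91b9_ntQ.A.DefB
import Pool.Agent.Lib.MP_1a91b9_ntQ.A.FinB
import Pool.Agent.Lib.MP_1a91b9_ntQ.A.Wt4
import Pool.Agent.Lib.MP_1a91b9_ntQ.A.Fac4

/-!
# Quartic twists, all fourth-power-free `D`, file SyI: the data `SyB` of every class

`S0` is the set of the primes with odd exponent, `B0` the set of the primes with exponent two;
`La T A = LaB k j e (T ∪ A)`, `x T b = XB k j e T b`, `s = s4`, `κ b = k a_b + j b_b`.
-/

set_option autoImplicit false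

namespace Pool.Agent.Lib.MP_1a91b9_ntQ

open NumberField Pool.Agent.Lib.MP_1a91b9_nuT Pool.Agent.Lib.MP_1a91b9_nuT.S3
  Pool.Agent.Lib.MP_1a91b9_nuT.Ell

noncomputable section

variable {B : ValuationSubring ℂ}

/-- the value of the character of `T` at a prime -/
def xB (k : ZMod 4) (j : ℕ) (e : Pg → ZMod 4) (T : Finset Pg) (b : Pg) : ℂ := XB k j e T b.1

/-- the linear term of the matrix -/
def kapB (k : ZMod 4) (j : ℕ) (b : Pg) : ZMod 2 := md k * aa b.1 + (j : ZMod 2) * bb b.1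

/-- the exponent of the value of the character -/
def EB (k : ZMod 4) (j : ℕ) (e : Pg → ZMod 4) (T : Finset Pg) (b : Pg) : ZMod 4 :=
  k * nn b.1 + (j : ZMod 4) * ll b.1 + ∑ p ∈ T, e p * c4 p b.1

/-- the value as a function of both sets -/
def LaS (k : ZMod 4) (j : ℕ) (e : Pg → ZMod 4) (T A : Finset Pg) : ℂ := LaB k j e (T ∪ A)

/-! ### The values of the characters -/

theorem xB_eq (k : ZMod 4) (j : ℕ) (e : Pg → ZMod 4) {T : Finset Pg} {b : Pg} (h : b ∉ T) :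
    xB k j e T b = e4 (EB k j e T b) :=
  XB_of_cop k j e fun _ hp => Pg.not_dvd fun h1 => h (h1 ▸ hp)

private theorem SyI_md (t : ZMod 4) :
    (t = 0 ∧ md t = 0) ∨ (t = 1 ∧ md t = 1) ∨ (t = 2 ∧ md t = 0) ∨ (t = 3 ∧ md t = 1) := by
  have h : ∀ t : ZMod 4, (t = 0 ∧ (ZMod.castHom (show 2 ∣ 4 by norm_num) (ZMod 2)) t = 0) ∨
      (t = 1 ∧ (ZMod.castHom (show 2 ∣ 4 by norm_num) (ZMod 2)) t = 1) ∨
      (t = 2 ∧ (ZMod.castHom (show 2 ∣ 4 by norm_num) (ZMod 2)) t = 0) ∨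
      (t = 3 ∧ (ZMod.castHom (show 2 ∣ 4 by norm_num) (ZMod 2)) t = 1) := by decide
  exact h t

theorem md_one_of {t : ZMod 4} (h : md t ≠ 0) : md t = 1 := by
  rcases SyI_md t with ⟨-, h1⟩ | ⟨-, h1⟩ | ⟨-, h1⟩ | ⟨-, h1⟩
  · exact absurd h1 h
  · exact h1
  · exact absurd h1 h
  · exact h1

theorem md_EB (k : ZMod 4) (j : ℕ) {e : Pg → ZMod 4} {T : Finset Pg} (he : ∀ q ∈ T, md (e q) ≠ 0)
    {b : Pg} (h : b ∉ T) : md (EB k j e T b) = kapB k j b + ∑ p ∈ T, s4 b p := by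
  rw [EB, kapB, map_add, map_add, map_mul, map_mul, map_sum, md_ll]
  have e1 : md (j : ZMod 4) = (j : ZMod 2) := md_natCast j
  rw [e1]
  refine congrArg₂ (· + ·) rfl (Finset.sum_congr rfl fun p hp => ?_)
  have hne : p ≠ b := fun h1 => h (h1 ▸ hp)
  rw [map_mul, md_one_of (he p hp), one_mul, ← s4_symm hne]
  rfl

/-- `e4 (2 t)` is the sign of the class of `t` -/
theorem e4_two_sgz (t : ZMod 4) : e4 (2 * t) = sgz (md t) := by
  rcases SyI_md t with ⟨h1, h2⟩ | ⟨h1, h2⟩ | ⟨h1, h2⟩ | ⟨h1, h2⟩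
  · rw [h2, h1, mul_zero, e4_zero, sgz_zero]
  · rw [h2, h1, mul_one, e4_two, sgz_one]
  · have h3 : (2 : ZMod 4) * 2 = 0 := rfl
    rw [h2, h1, h3, e4_zero, sgz_zero]
  · have h3 : (2 : ZMod 4) * 3 = 2 := rfl
    rw [h2, h1, h3, e4_two, sgz_one]

/-- the character of an exponent two at another prime -/
theorem chE_two {e : Pg → ZMod 4} {a b : Pg} (he : e a = 2) (h : a ≠ b) :
    chE e a b.1 = sgz (s4 b a) := by
  rw [chE_of_not e (Pg.not_dvd h), he, e4_two_sgz, ← s4_symm h]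
  rfl

/-- the value at a prime for the union with a set of exponents two -/
theorem XB_union (k : ZMod 4) (j : ℕ) {e : Pg → ZMod 4} {T A : Finset Pg} (hd : Disjoint T A)
    (he : ∀ a ∈ A, e a = 2) {b : Pg} (hb : b ∉ A) :
    XB k j e (T ∪ A) b.1 = xB k j e T b * ∏ a ∈ A, sgz (s4 b a) := by
  rw [xB, XB_eq, XB_eq, Finset.prod_union hd, ← mul_assoc]
  congr 1
  exact Finset.prod_congr rfl fun a ha => chE_two (he a ha) fun h => hb (h ▸ ha)

/-! ### Residue classes -/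

/-- the fourth roots of unity are `1` -/
theorem Rt_root (hB : (2 : ℂ)⁻¹ ∉ B) (t : ZMod 4) : Rt B (e4 t) 1 := by
  have hl : Rt B lm 0 := Rt.of_lt (v_lm_lt hB)
  have h1 := Rt.one.sub hB (hl.mul hB (Rt_e4 hB t))
  have e1 : 1 - lm * ((1 - e4 t) / lm) = e4 t := by
    rw [mul_div_cancel₀ _ lm_ne]
    ring
  rwa [e1, zero_mul, sub_zero] at h1

theorem Rt_sgz (hB : (2 : ℂ)⁻¹ ∉ B) (y : ZMod 2) : Rt B (sgz y) 1 := by
  have h : ∀ y : ZMod 2, y = 0 ∨ y = 1 := by decide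
  rcases h y with rfl | rfl
  · rw [sgz_zero]
    exact Rt.one
  · rw [sgz_one]
    exact Rt.one.neg hB

/-- `q = 1` modulo `lam ^ 3` -/
theorem em_q_sub (q : Pg) : ∃ y : 𝓞 K, em q.1 - 1 = lm ^ 3 * em y := by
  obtain ⟨y, hy⟩ := q.in4
  refine ⟨y, ?_⟩
  have h1 := congrArg em hy
  rwa [em_sub, em_one, em_mul, em_pow, em_lam] at h1

theorem v_em (x : 𝓞 K) : B.valuation (em x) ≤ 1 := by
  rw [ValuationSubring.valuation_le_one_iff]
  obtain ⟨m, n, rfl⟩ := exists_coords4 x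
  rw [em_add, em_mul, em_intCast, em_intCast, em_iO']
  have hz : zt ∈ B := by
    rw [← ValuationSubring.valuation_le_one_iff, v_zt]
  exact B.add_mem _ _ (intCast_mem B m) (B.mul_mem _ _ (intCast_mem B n) hz)

/-- **the factor** -/
theorem Rt_facB (hB : (2 : ℂ)⁻¹ ∉ B) (k : ZMod 4) (j : ℕ) {e : Pg → ZMod 4} {T : Finset Pg}
    (he : ∀ q ∈ T, md (e q) ≠ 0) {b : Pg} (h : b ∉ T) :
    Rt B ((em b.1 - xB k j e T b) / lm) (kapB k j b + ∑ p ∈ T, s4 b p) := by
  obtain ⟨y, hy⟩ := em_q_sub b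
  have e1 : (em b.1 - xB k j e T b) / lm = lm ^ 2 * em y + (1 - e4 (EB k j e T b)) / lm := by
    rw [xB_eq k j e h]
    have hl := lm_ne
    field_simp
    linear_combination hy
  rw [e1, ← md_EB k j he h, ← zero_add (md (EB k j e T b))]
  refine Rt.add hB (Rt.of_lt ?_) (Rt_e4 hB _)
  rw [map_mul, map_pow]
  exact mul_lt_one_of_lt_of_le (pow_lt_one₀ zero_le (v_lm_lt hB) two_ne_zero) (v_em y)

/-- half of an even class modulo four -/
def hf2 (t : ZMod 4) : ZMod 2 := if t = 2 then 1 else 0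

theorem Rt_e4_sq (hB : (2 : ℂ)⁻¹ ∉ B) {t : ZMod 4} (h : md t = 0) :
    Rt B ((1 - e4 t) / lm ^ 2) (hf2 t) := by
  have h20 : (0 : ZMod 4) ≠ 2 := by decide
  rcases SyI_md t with ⟨h1, -⟩ | ⟨-, h2⟩ | ⟨h1, -⟩ | ⟨-, h2⟩
  · rw [h1, e4_zero, sub_self, zero_div, hf2, if_neg h20]
    exact Rt.zero
  · rw [h] at h2
    exact absurd h2 (by decide)
  · have e1 : (1 - (-1 : ℂ)) / lm ^ 2 = -zt := by
      rw [div_eq_iff (pow_ne_zero 2 lm_ne), lm_sq]
      linear_combination 2 * zt_sq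
    rw [h1, e4_two, e1, hf2, if_pos rfl]
    have h3 := Rt_root hB 1
    rw [e4_one] at h3
    exact h3.neg hB
  · rw [h] at h2
    exact absurd h2 (by decide)

/-- **the factor to the second order** -/
theorem Rt_facB2 (hB : (2 : ℂ)⁻¹ ∉ B) {b : Pg} {t : ZMod 4} (h : md t = 0) :
    Rt B ((em b.1 - e4 t) / lm ^ 2) (hf2 t) := by
  obtain ⟨y, hy⟩ := em_q_sub b
  have e1 : (em b.1 - e4 t) / lm ^ 2 = lm * em y + (1 - e4 t) / lm ^ 2 := by
    have hl := lm_ne
    field_simp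
    linear_combination hy
  rw [e1, ← zero_add (hf2 t)]
  refine Rt.add hB (Rt.of_lt ?_) (Rt_e4_sq hB h)
  rw [map_mul]
  exact mul_lt_one_of_lt_of_le (v_lm_lt hB) (v_em y)

/-- **the data of every class** -/
theorem syB (hB : (2 : ℂ)⁻¹ ∉ B) (k : ZMod 4) (j : ℕ) {e : Pg → ZMod 4} {S0 B0 : Finset Pg}
    (hd : Disjoint S0 B0) (he : ∀ q ∈ S0, md (e q) ≠ 0) (K : ℂ) :
    SyB B lm K (LaS k j e) (fun b => em b.1) (xB k j e) s4 (kapB k j) S0 B0 where
  hB := hB
  hl := Rt.of_lt (v_lm_lt hB)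
  hl0 := lm_ne
  hu := by
    have e1 : (2 : ℂ) / lm ^ 2 = -zt := by
      rw [div_eq_iff (pow_ne_zero 2 lm_ne), lm_sq]
      linear_combination 2 * zt_sq
    rw [e1]
    have h3 := Rt_root hB 1
    rw [e4_one] at h3
    exact h3.neg hB
  dis := hd
  fac T hT b hb := Rt_facB hB k j (fun q hq => he q (hT hq)) (Finset.mem_sdiff.1 hb).2
  one T hT b hb := by
    rw [xB_eq k j e (Finset.mem_sdiff.1 hb).2]
    exact Rt_root hB _

/-! ### The primes of exponent two -/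

/-- the exponent for the union with a set of exponents two -/
theorem EB_union (k : ZMod 4) (j : ℕ) (e : Pg → ZMod 4) {T A : Finset Pg} (hd : Disjoint T A)
    (b : Pg) : EB k j e (T ∪ A) b = EB k j e T b + ∑ a ∈ A, e a * c4 a b.1 := by
  rw [EB, EB, Finset.sum_union hd]
  ring

theorem md_EB_union (k : ZMod 4) (j : ℕ) {e : Pg → ZMod 4} {T A : Finset Pg} (hd : Disjoint T A)
    (he : ∀ a ∈ A, e a = 2) (b : Pg) : md (EB k j e (T ∪ A) b) = md (EB k j e T b) := by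
  rw [EB_union k j e hd, map_add, map_sum, Finset.sum_eq_zero fun a ha => ?_, add_zero]
  rw [map_mul, he a ha, md_two, zero_mul]

/-- the hypothesis `h1` of `SyB.final` -/
theorem h1B (hB : (2 : ℂ)⁻¹ ∉ B) (k : ZMod 4) (j : ℕ) (e : Pg → ZMod 4) {T U : Finset Pg} {b : Pg}
    (hb : b ∉ T) : Rt B (xB k j e T b * ∏ a ∈ U, sgz (s4 b a)) 1 := by
  have h1 := (Rt_root hB (EB k j e T b)).mul hB (Rt.prod hB U fun a _ => Rt_sgz hB (s4 b a))
  rwa [Finset.prod_const_one, mul_one, ← xB_eq k j e hb] at h1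

/-- the hypothesis `h2` of `SyB.final` -/
theorem h2B (hB : (2 : ℂ)⁻¹ ∉ B) (k : ZMod 4) (j : ℕ) {e : Pg → ZMod 4} {T U : Finset Pg}
    (hd : Disjoint T U) (he : ∀ q ∈ T, md (e q) ≠ 0) (hU : ∀ a ∈ U, e a = 2) {b : Pg}
    (hb : b ∉ T) (hbU : b ∉ U) (h0 : kapB k j b + ∑ p ∈ T, s4 b p = 0) :
    Rt B ((em b.1 - xB k j e T b * ∏ a ∈ U, sgz (s4 b a)) / lm ^ 2)
      (hf2 (EB k j e (T ∪ U) b)) := by
  have h1 : b ∉ T ∪ U := fun h => (Finset.mem_union.1 h).elim hb hbU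
  rw [← XB_union k j hd hU hbU]
  change Rt B ((em b.1 - xB k j e (T ∪ U) b) / lm ^ 2) _
  rw [xB_eq k j e h1]
  refine Rt_facB2 hB ?_
  rw [md_EB_union k j hd hU, md_EB k j he hb, h0]

/-! ### The sum over the subsets -/

theorem sum_powerset_union {M : Type*} [AddCommMonoid M] {T C : Finset Pg} (hd : Disjoint T C)
    (f : Finset Pg → M) :
    ∑ R ∈ (T ∪ C).powerset, f R = ∑ T' ∈ T.powerset, ∑ A ∈ C.powerset, f (T' ∪ A) := by
  classical
  rw [← Finset.sum_product' (f := fun T' A => f (T' ∪ A))]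
  refine Finset.sum_bij' (fun R _ => (R ∩ T, R ∩ C)) (fun p _ => p.1 ∪ p.2) ?_ ?_ ?_ ?_ ?_
  · intro R _
    rw [Finset.mem_product, Finset.mem_powerset, Finset.mem_powerset]
    exact ⟨Finset.inter_subset_right, Finset.inter_subset_right⟩
  · intro p hp
    rw [Finset.mem_product, Finset.mem_powerset, Finset.mem_powerset] at hp
    exact Finset.mem_powerset.2 (Finset.union_subset_union hp.1 hp.2)
  · intro R hR
    rw [Finset.mem_powerset] at hR
    change R ∩ T ∪ R ∩ C = R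
    rw [← Finset.inter_union_distrib_left, Finset.inter_eq_left.2 hR]
  · rintro ⟨T', A⟩ hp
    rw [Finset.mem_product, Finset.mem_powerset, Finset.mem_powerset] at hp
    obtain ⟨h1, h2⟩ := hp
    change ((T' ∪ A) ∩ T, (T' ∪ A) ∩ C) = (T', A)
    have h3 : A ∩ T = ∅ := Finset.disjoint_iff_inter_eq_empty.1
      (Finset.disjoint_of_subset_left h2 hd.symm)
    have h4 : T' ∩ C = ∅ := Finset.disjoint_iff_inter_eq_empty.1
      (Finset.disjoint_of_subset_left h1 hd)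
    rw [Finset.union_inter_distrib_right, Finset.union_inter_distrib_right, h3, h4,
      Finset.union_empty, Finset.empty_union, Finset.inter_eq_left.2 h1, Finset.inter_eq_left.2 h2]
  · intro R hR
    rw [Finset.mem_powerset] at hR
    have h5 : R ∩ T ∪ R ∩ C = R := by
      rw [← Finset.inter_union_distrib_left, Finset.inter_eq_left.2 hR]
    change f R = f (R ∩ T ∪ R ∩ C)
    rw [h5]

/-- **the total identity is the averaging identity of `T ∪ C`** -/
theorem idB_eq_avg (k : ZMod 4) (j : ℕ) {e : Pg → ZMod 4} (K : ℂ) (n : ℕ) {T C : Finset Pg}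
    (hd : Disjoint T C) (hC : ∀ q ∈ C, e q = 2) :
    idB lm K (LaS k j e) (fun b => em b.1) (xB k j e) s4 n T C =
      (∑ R ∈ (T ∪ C).powerset, (-1) ^ R.card * (LaB k j e R *
        ∏ q ∈ (T ∪ C) \ R, (em q.1 - XB k j e R q.1))) / (K * lm ^ (T.card + 2 * C.card + n)) := by
  classical
  rw [idB, sum_powerset_union hd]
  congr 1
  refine Finset.sum_congr rfl fun T' hT' => ?_
  rw [Finset.mul_sum]
  refine Finset.sum_congr rfl fun A hA => ?_
  rw [Finset.mem_powerset] at hT' hA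
  have hd' : Disjoint T' A := Finset.disjoint_of_subset_left hT'
    (Finset.disjoint_of_subset_right hA hd)
  have e1 : (T ∪ C) \ (T' ∪ A) = (T \ T') ∪ (C \ A) := by
    ext q
    simp only [Finset.mem_sdiff, Finset.mem_union]
    have h1 : q ∈ T → q ∉ C := fun h => Finset.disjoint_left.1 hd h
    have h2 : q ∈ T' → q ∈ T := fun h => hT' h
    have h3 : q ∈ A → q ∈ C := fun h => hA h
    tauto
  rw [Finset.card_union_of_disjoint hd', pow_add, mul_assoc, e1]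
  have e2 : ∏ b ∈ (T \ T') ∪ (C \ A), fcB (fun b => em b.1) (xB k j e) s4 T' A b =
      ∏ q ∈ (T \ T') ∪ (C \ A), (em q.1 - XB k j e (T' ∪ A) q.1) := by
    refine Finset.prod_congr rfl fun b hb => ?_
    have hbA : b ∉ A := by
      intro h
      rcases Finset.mem_union.1 hb with h1 | h1
      · exact Finset.disjoint_left.1 hd (Finset.mem_sdiff.1 h1).1 (hA h)
      · exact (Finset.mem_sdiff.1 h1).2 h
    rw [fcB, XB_union k j hd' (fun a ha => hC a (hA ha)) hbA]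
  rw [e2]
  rfl

end

end Pool.Agent.Lib.MP_1a91b9_ntQ
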