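import Pool.Agent.Lib.MP_1a91b9_ntQ.A.Ind4
import Pool.Agent.Lib.MP_1a91b9_ntQ.A.SerP

/-!
# Quartic twists, part A, file Top4: the L-series of `y² = x³ - D x` has an entire continuation
which does not vanish at `1`

`D = i ^ κ * DDq S`. Kind I: `κ` odd and the matrix `N_1(S)` is invertible. Kinds II and III:
`κ = 0` resp. `κ = 2`, `∑ aa q = 1` and the kernel of `N_0(S)` consists of the constant vectors.
-/

set_option autoImplicit false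

namespace Pool.Agent.Lib.MP_1a91b9_ntQ

open NumberField Pool.Agent.Lib.MP_1a91b9_nuT Pool.Agent.Lib.MP_1a91b9_nuT.S3
  Pool.Agent.Lib.MP_1a91b9_nuT.Ell

noncomputable section

theorem md_kappa (κ t : ZMod 4) : md (κ + 2 * t) = md κ := by
  have h2 : md 2 = 0 := rfl
  rw [map_add, map_mul, h2, zero_mul, add_zero]

/-- the number `κ + 2 ∑ nn q` -/
theorem kappa_even {S : Finset Pg} (hA : ∑ q ∈ S, aa q.1 = 1) : (2 : ZMod 4) * ∑ q ∈ S, nn q.1 = 2 := by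
  have h1 : md (∑ q ∈ S, nn q.1) = 1 := by
    rw [map_sum]
    exact hA
  have h2 : ∀ t : ZMod 4, md t = 1 → 2 * t = 2 := by decide
  exact h2 _ h1

theorem good4_I {k : ZMod 4} (hk : md k = 1) {S : Finset Pg}
    (h : (N4 s4 (fun q => aa q.1) S).det ≠ 0) : Good4 k S := by
  have h0 : ¬ md k = 0 := by rw [hk]; exact one_ne_zero
  rw [Good4, if_neg h0]
  have e : (fun q : Pg => md k * aa q.1) = fun q => aa q.1 := by
    funext q
    rw [hk, one_mul]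
  rw [e]
  exact h

theorem good4_II {k : ZMod 4} (hk : md k = 0) {S : Finset Pg} (hA : ∑ q ∈ S, aa q.1 = 1)
    (h : ∀ v : S → ZMod 2, (N4 s4 0 S).mulVec v = 0 → ∃ c : ZMod 2, ∀ i, v i = c) : Good4 k S := by
  rw [Good4, if_pos hk]
  refine C4_ne s4 (fun _ _ h => s4_symm h) (fun q => aa q.1) ?_ h
  rw [hA]
  exact one_ne_zero

/-- **All kinds together** (`κ = 2` included). -/
theorem top4_all {κ : ZMod 4} {S : Finset Pg} (h : Good4 (κ + 2 * ∑ q ∈ S, nn q.1) S) :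
    ∃ g : ℂ → ℂ, Differentiable ℂ g ∧ (∀ s : ℂ, 3 / 2 < s.re → g s = (WD4 (Dq κ S)).LSeries s) ∧
      g 1 ≠ 0 := ser4_all κ (L4_ne h)

/-- **Kind I.** -/
theorem top4_I {κ : ZMod 4} (hκ : md κ = 1) {S : Finset Pg}
    (h : (N4 s4 (fun q => aa q.1) S).det ≠ 0) :
    ∃ g : ℂ → ℂ, Differentiable ℂ g ∧ (∀ s : ℂ, 3 / 2 < s.re → g s = (WD4 (Dq κ S)).LSeries s) ∧
      g 1 ≠ 0 :=
  top4_all (good4_I (by rw [md_kappa, hκ]) h)

/-- **Kinds II and III** : `κ = 0` or `κ = 2`. -/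
theorem top4_even {κ : ZMod 4} (hκ : md κ = 0) {S : Finset Pg} (hA : ∑ q ∈ S, aa q.1 = 1)
    (h : ∀ v : S → ZMod 2, (N4 s4 0 S).mulVec v = 0 → ∃ c : ZMod 2, ∀ i, v i = c) :
    ∃ g : ℂ → ℂ, Differentiable ℂ g ∧ (∀ s : ℂ, 3 / 2 < s.re → g s = (WD4 (Dq κ S)).LSeries s) ∧
      g 1 ≠ 0 :=
  top4_all (good4_II (by rw [md_kappa, hκ]) hA h)

/-- **Kind II.** -/
theorem top4_II {S : Finset Pg} (hA : ∑ q ∈ S, aa q.1 = 1)
    (h : ∀ v : S → ZMod 2, (N4 s4 0 S).mulVec v = 0 → ∃ c : ZMod 2, ∀ i, v i = c) :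
    ∃ g : ℂ → ℂ, Differentiable ℂ g ∧ (∀ s : ℂ, 3 / 2 < s.re → g s = (WD4 (Dq 0 S)).LSeries s) ∧
      g 1 ≠ 0 := top4_even rfl hA h

/-- **Kind III.** -/
theorem top4_III {S : Finset Pg} (hA : ∑ q ∈ S, aa q.1 = 1)
    (h : ∀ v : S → ZMod 2, (N4 s4 0 S).mulVec v = 0 → ∃ c : ZMod 2, ∀ i, v i = c) :
    ∃ g : ℂ → ℂ, Differentiable ℂ g ∧ (∀ s : ℂ, 3 / 2 < s.re → g s = (WD4 (Dq 2 S)).LSeries s) ∧
      g 1 ≠ 0 := top4_even rfl hA h

end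

end Pool.Agent.Lib.MP_1a91b9_ntQ
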