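import Pool.Agent.Lib.MP_1a91b9_ntQ.A.IndE
import Pool.Agent.Lib.MP_1a91b9_ntQ.A.SerE

/-!
# Quartic twists, part A, file TopE: the L-series for `D = i ^ κ lam ∏ (q ∈ S) q`
-/

set_option autoImplicit false

namespace Pool.Agent.Lib.MP_1a91b9_ntQ

open NumberField Pool.Agent.Lib.MP_1a91b9_nuT Pool.Agent.Lib.MP_1a91b9_nuT.S3
  Pool.Agent.Lib.MP_1a91b9_nuT.Ell

noncomputable section

theorem ME_kappa (κ : ZMod 4) (S : Finset Pg) : ME (κ + 2 * ∑ q ∈ S, nn q.1) S =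
    B4 s4 (fun q => md κ * aa q.1 + bb q.1) (fun q => aa q.1)
      (if κ = 0 ∨ κ = 3 then 1 else 0) S := by
  have h1 : ∀ κ n : ZMod 4, md (κ + 2 * n) = md κ ∧
      xE (κ + 2 * n) + md n = if κ = 0 ∨ κ = 3 then 1 else 0 := by
    unfold xE
    decide
  obtain ⟨h2, h3⟩ := h1 κ (∑ q ∈ S, nn q.1)
  have h4 : md (∑ q ∈ S, nn q.1) = ∑ q ∈ S, aa q.1 := map_sum md _ _
  rw [h4] at h3
  have h5 : (fun q : Pg => md κ * aa q.1 + c2 q lam) = fun q => md κ * aa q.1 + bb q.1 := by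
    funext q
    rw [c2_lam]
  rw [ME, h2, h3, h5]

/-- **Class (E).** -/
theorem topE {κ : ZMod 4} {S : Finset Pg}
    (h : (B4 s4 (fun q => md κ * aa q.1 + bb q.1) (fun q => aa q.1)
      (if κ = 0 ∨ κ = 3 then 1 else 0) S).det ≠ 0) :
    ∃ g : ℂ → ℂ, Differentiable ℂ g ∧ (∀ s : ℂ, 3 / 2 < s.re → g s = (WD4 (DqE κ S)).LSeries s) ∧
      g 1 ≠ 0 := serE_ne (LE_ne (by rwa [ME_kappa]))

end

end Pool.Agent.Lib.MP_1a91b9_ntQ
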