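import Pool.Agent.Lib.MP_1a91b9_ntQ.A.IndX0
import Pool.Agent.Lib.MP_1a91b9_ntQ.A.RhsB

/-!
# Quartic twists, part A, file TopX0: class (X), `k = 0`, `∑ nn = 0`
-/

set_option autoImplicit false

namespace Pool.Agent.Lib.MP_1a91b9_ntQ

open NumberField Pool.Agent.Lib.MP_1a91b9_nuT Pool.Agent.Lib.MP_1a91b9_nuT.S3
  Pool.Agent.Lib.MP_1a91b9_nuT.Ell
open Pool.Agent.Lib.MP_1a91b9_ntK (CZ)

noncomputable section

variable {B : ValuationSubring ℂ} {q0 : Pg}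

/-- the first sum of the relations -/
theorem sumY (h0 : aa q0.1 = 1) (h : ZMod 2) (c : ℂ) {J : Finset Pg} (hq : q0 ∉ J) :
    ∑ T ∈ J.powerset.erase ∅, (-1) ^ T.card * (c * (yX4 4 0 h q0 T) * ∏ q ∈ J \ T, fX 0 h q0 T q) =
      ∑ T ∈ J.powerset.erase ∅, (-1) ^ T.card * (c * (MM 0 h q0 T J / lm ^ (J.card + 4))) := by
  refine Finset.sum_congr rfl fun T hT => ?_
  rw [yX4_term (Or.inl rfl) h0 h 4 (Finset.mem_powerset.1 (Finset.mem_erase.1 hT).2) hq]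
  ring

/-- the coefficient of `muX` in (B) -/
def uB (q0 : Pg) (T : Finset Pg) : ℂ := (1 + lm) * (muX q0 T * gX4 (2 - bX q0 0 T lam))

theorem relB (hB : (2 : ℂ)⁻¹ ∉ B) (h0 : aa q0.1 = 1) {S : Finset Pg} (hq : q0 ∉ S) :
    ∀ J ⊆ S, J.Nonempty →
      Rt B ((∑ T ∈ J.powerset.erase ∅, (-1) ^ T.card *
          (yX4 4 0 0 q0 T * ∏ q ∈ J \ T, fX 0 0 q0 T q) -
        ∑ T ∈ J.powerset.erase ∅, (-1) ^ T.card * (uB q0 T * ∏ q ∈ J \ T, f1X q0 T q)) / lm)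
        (if J.card = 1 then ∑ i ∈ J, (aa i.1 + s4 q0 i) else 0) := by
  intro J hJ hJ0
  have hqJ : q0 ∉ J := fun h1 => hq (hJ h1)
  have h1 := Rt_rhsB hB h0 hqJ hJ0
  have e1 := sumY h0 0 1 hqJ
  simp only [one_mul] at e1
  have e2 : (1 + lm) * ∑ T ∈ J.powerset.erase ∅, (-1) ^ T.card *
      (HHX q0 T J / lm ^ (J.card - 1)) * ((1 - e4 (2 - bX q0 0 T lam)) / lm) =
      ∑ T ∈ J.powerset.erase ∅, (-1) ^ T.card * (uB q0 T * ∏ q ∈ J \ T, f1X q0 T q) := by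
    rw [Finset.mul_sum]
    refine Finset.sum_congr rfl fun T hT => ?_
    have hT1 := Finset.mem_erase.1 hT
    rw [muX_term h0 (Finset.mem_powerset.1 hT1.2) (Finset.nonempty_iff_ne_empty.2 hT1.1) hqJ, uB,
      gX4]
    ring
  rw [← e1, e2] at h1
  exact h1

theorem muX_mem (hB : (2 : ℂ)⁻¹ ∉ B) (h0 : aa q0.1 = 1) {S : Finset Pg} (hq : q0 ∉ S) :
    ∀ T ⊆ S, T.Nonempty → muX q0 T ∈ B := fun T hT hT' => IndX0_mem (Rt_muX hB h0 hq T hT hT')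

theorem one_lm_mem (B : ValuationSubring ℂ) : (1 + lm : ℂ) ∈ B :=
  B.add_mem _ _ B.one_mem (lmB B)

theorem uB_mem (hB : (2 : ℂ)⁻¹ ∉ B) (h0 : aa q0.1 = 1) {S : Finset Pg} (hq : q0 ∉ S) :
    ∀ T ⊆ S, T.Nonempty → uB q0 T ∈ B := fun T hT hT' =>
  B.mul_mem _ _ (one_lm_mem B) (B.mul_mem _ _ (muX_mem hB h0 hq T hT hT') (gX4_mem hB _))

theorem rd_uB (hB : (2 : ℂ)⁻¹ ∉ B) (h0 : aa q0.1 = 1) {S : Finset Pg} (hq : q0 ∉ S) :
    ∀ T ⊆ S, T.Nonempty → rd B (uB q0 T) =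
      (1 + lX B) * (rd B (muX q0 T) * rd B (gX4 (2 - bX q0 0 T lam))) := fun T hT hT' => by
  rw [uB, rd_mul (one_lm_mem B) (B.mul_mem _ _ (muX_mem hB h0 hq T hT hT') (gX4_mem hB _)),
    rd_mul (muX_mem hB h0 hq T hT hT') (gX4_mem hB _), rd_add B.one_mem (lmB B), rd_one, rd_lm]

/-- **The class of the normalised sum modulo `lm m`**, `h = 0`. -/
theorem rd_yX0 (hB : (2 : ℂ)⁻¹ ∉ B) (h0 : aa q0.1 = 1) {S : Finset Pg} (hq : q0 ∉ S) :
    ∀ J ⊆ S, J.Nonempty → rd B (yX4 4 0 0 q0 J) =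
      (1 + lX B) * (rd B (muX q0 J) * rd B (gX4 (2 - bX q0 0 J lam))) + lX B * phX B hB
        (starY (fun T => (∑ i ∈ T, (bb i.1 + aa i.1 * bb q0.1)) *
          CZ (nX s4 (fun q => aa q.1) q0) (fun i => s4 q0 i) T)
          (CZ (nX s4 (fun q => aa q.1) q0) (fun i => s4 q0 i)) J +
          CZ (nX s4 (fun q => aa q.1) q0) (fun i => aa i.1 + s4 q0 i) J) := by
  refine algZ_zero_all (IndX0_two hB) (lX B) (lX_sq hB) (phX B hB)
    (nX s4 (fun q => aa q.1) q0) (fun i => s4 q0 i) (fun i => aa i.1)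
    (fun i => bb i.1 + aa i.1 * bb q0.1) (fun T q => rd B (fX 0 0 q0 T q))
    (fun T q => rd B (f1X q0 T q)) (fun T => rd B (gX4 (2 - bX q0 0 T lam)))
    (fun T => rd B (yX4 4 0 0 q0 T)) (fun T => rd B (muX q0 T)) S ?_ ?_ ?_ ?_ ?_
  · intro T _ q
    exact lX_mul_Rt hB (Rt_fX hB (Or.inl rfl) h0 0 T q)
  · intro T _ q
    exact rd_f1X_zero hB h0 T q
  · intro T _
    rw [← md_bX_lam h0]
    exact lX_mul_Rt hB (Rt_e4 hB _)
  · intro J hJ hJ0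
    exact lX_mul_Rt hB (Rt_muX hB h0 hq J hJ hJ0)
  · intro J hJ hJ0
    have h1 := secX_rd hB (fX_mem hB h0 0) (f1X_mem hB h0) (uB_mem hB h0 hq) (relB hB h0 hq) J hJ
      hJ0
    rw [h1, ← opW_mul]
    congr 1
    unfold opW
    refine Finset.sum_congr rfl fun T hT => ?_
    have hT1 := Finset.mem_erase.1 hT
    beta_reduce
    rw [rd_uB hB h0 hq T ((Finset.mem_powerset.1 hT1.2).trans hJ)
      (Finset.nonempty_iff_ne_empty.2 hT1.1)]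

/-! ### The cases -/

/-- the exponent at `lam` -/
theorem bX_lam (h : ZMod 2) (S : Finset Pg) : bX q0 h S lam =
    -((hh h + ∑ q ∈ S, nn q.1) * nn q0.1) * c4 q0 lam + ∑ q ∈ S, c4 q lam := rfl

theorem sum_bb {S : Finset Pg} (hA : ∑ q ∈ S, aa q.1 = 0) :
    ∑ i ∈ S, (bb i.1 + aa i.1 * bb q0.1) = ∑ i ∈ S, bb i.1 := by
  rw [Finset.sum_add_distrib, ← Finset.sum_mul, hA, zero_mul, add_zero]

/-- the data of the auxiliary prime -/
theorem auxX {S : Finset Pg} (hS : S.Nonempty) (hA : ∑ q ∈ S, aa q.1 = 0) :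
    ∃ q0 : Pg, q0 ∉ S ∧ aa q0.1 = 1 ∧
      CZ (nX s4 (fun q => aa q.1) q0) (fun i => s4 q0 i) S = kap0 s4 S ∧
      ∀ x : ZMod 2, CZ (nX s4 (fun q => aa q.1) q0) (fun i => aa i.1 + x * s4 q0 i) S =
        kapX s4 (fun q => aa q.1) 0 S + x * kap0 s4 S := by
  obtain ⟨q0, -, h0, ha, h1⟩ := exists_aux hS.ne_empty 0
  refine ⟨q0, h0, ha, tauX_s0 s4 (fun q => aa q.1) q0 (fun p q _ => IndX_s4 p q) hS hA h1,
    fun x => ?_⟩
  rw [← kapX_add s4 (fun p q _ => IndX_s4 p q) _ _ hS hA]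
  exact tauX_ah s4 (fun q => aa q.1) q0 (fun p q _ => IndX_s4 p q) hS hA h1 x

/-- **`∑ nn = 0`, first order.** -/
theorem L4_zero_h0 {S : Finset Pg} (hS : S.Nonempty) (hA : ∑ q ∈ S, aa q.1 = 0)
    (hn : ∑ q ∈ S, nn q.1 = 0) (hb : ∑ q ∈ S, bb q.1 = 1) (hk : kap0 s4 S ≠ 0) :
    L4 0 S 1 ≠ 0 := by
  obtain ⟨B, hB⟩ := exists_B2
  obtain ⟨q0, h0, ha, c1, c2⟩ := auxX hS hA
  have h3 : hh 0 + ∑ q ∈ S, nn q.1 = 0 := by rw [hh_zero, hn, zero_add]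
  refine MM_ne (Or.inl rfl) ha h0 h3 fun hz => ?_
  have h4 := rd_yX0 hB ha h0 S (Finset.Subset.refl S) hS
  rw [yX4, hz, zero_div, rd_zero] at h4
  have h5 := lX_mul_Rt hB (Rt_muX hB ha h0 S (Finset.Subset.refl S) hS)
  have h6 := lX_mul_Rt hB (Rt_e4 (B := B) hB (2 - bX q0 0 S lam))
  rw [md_bX_lam ha, sum_bb hA, hb, map_one, mul_one] at h6
  rw [c1] at h5
  change lX B * rd B (gX4 (2 - bX q0 0 S lam)) = lX B at h6
  have h7 := lX_sq hB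
  refine lX_phX_ne hB hk ?_
  rw [← h5]
  have h8 := congrArg (fun z => lX B * z) h4
  simp only [mul_zero] at h8
  generalize rd B (gX4 (2 - bX q0 0 S lam)) = G at h6 h8
  generalize rd B (muX q0 S) = M at h8 ⊢
  generalize phX B hB (starY (fun T => (∑ i ∈ T, (bb i.1 + aa i.1 * bb q0.1)) *
          CZ (nX s4 (fun q => aa q.1) q0) (fun i => s4 q0 i) T)
          (CZ (nX s4 (fun q => aa q.1) q0) (fun i => s4 q0 i)) S +
          CZ (nX s4 (fun q => aa q.1) q0) (fun i => aa i.1 + s4 q0 i) S) = N at h8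
  linear_combination (-M) * h6 - h8 - (M * G + N) * h7

/-- **`∑ nn = 0`, second order.** -/
theorem L4_zero_h0' {S : Finset Pg} (hS : S.Nonempty) (hA : ∑ q ∈ S, aa q.1 = 0)
    (hn : ∑ q ∈ S, nn q.1 = 0) (hb : ∑ q ∈ S, bb q.1 = 0)
    (hk : kapX s4 (fun q => aa q.1) (if ∑ q ∈ S, c4 q lam = 1 ∨ ∑ q ∈ S, c4 q lam = 2 then 1
      else 0) S ≠ 0) : L4 0 S 1 ≠ 0 := by
  obtain ⟨B, hB⟩ := exists_B2
  obtain ⟨q0, h0, ha, c1, c2⟩ := auxX hS hA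
  have h3 : hh 0 + ∑ q ∈ S, nn q.1 = 0 := by rw [hh_zero, hn, zero_add]
  refine MM_ne (Or.inl rfl) ha h0 h3 fun hz => ?_
  have h4 := rd_yX0 hB ha h0 S (Finset.Subset.refl S) hS
  have hbS : ∑ i ∈ S, (bb i.1 + aa i.1 * bb q0.1) = 0 := by rw [sum_bb hA, hb]
  have c3 := c2 1
  simp only [one_mul] at c3
  have hlam : bX q0 0 S lam = ∑ q ∈ S, c4 q lam := by
    rw [bX_lam, h3, zero_mul, neg_zero, zero_mul, zero_add]
  rw [yX4, hz, zero_div, rd_zero, starY_zero _ _ hbS, zero_add, c3, hlam] at h4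
  have h5 := lX_mul_Rt hB (Rt_muX hB ha h0 S (Finset.Subset.refl S) hS)
  rw [c1] at h5
  have h7 := lX_sq hB
  have hmd : md (∑ q ∈ S, c4 q lam) = 0 := by
    rw [map_sum, ← hb]
    exact Finset.sum_congr rfl fun q _ => c2_lam q
  rw [kapX_add s4 (fun p q _ => IndX_s4 p q) _ _ hS hA] at hk
  have key : ∀ t : ZMod 4, md t = 0 → t = 0 ∨ t = 2 := by decide
  rcases key _ hmd with ht | ht
  · have h01 : ¬ ((0 : ZMod 4) = 1 ∨ (0 : ZMod 4) = 2) := by decide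
    rw [ht, if_neg h01, zero_mul, add_zero] at hk
    rw [ht, sub_zero, rd_gX4_two hB, map_add] at h4
    refine lX_phX_ne hB hk ?_
    have h8 := IndX0_two hB (lX B * phX B hB (kap0 s4 S))
    linear_combination -h4 - h8 - h5 - rd B (muX q0 S) * h7
  · rw [ht, if_pos (Or.inr rfl), one_mul] at hk
    have h9 : gX4 (2 - 2) = 0 := by rw [sub_self, gX4_zero]
    rw [ht, h9, rd_zero, mul_zero, mul_zero, zero_add] at h4
    exact lX_phX_ne hB hk h4.symm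

end

end Pool.Agent.Lib.MP_1a91b9_ntQ
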