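import Pool.Agent.Lib.MP_1a91b9_ntQ.A.TopX0
import Pool.Agent.Lib.MP_1a91b9_ntQ.A.Rhs0C

/-!
# Quartic twists, part A, file TopX1: class (X), `k = 0`, `∑ nn = 2`, and the results for `k = 0`
-/

set_option autoImplicit false

namespace Pool.Agent.Lib.MP_1a91b9_ntQ

open NumberField Pool.Agent.Lib.MP_1a91b9_nuT Pool.Agent.Lib.MP_1a91b9_nuT.S3
  Pool.Agent.Lib.MP_1a91b9_nuT.Ell
open Pool.Agent.Lib.MP_1a91b9_ntK (CZ)

noncomputable section

variable {B : ValuationSubring ℂ} {q0 : Pg}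

/-- the coefficient of `muX` in (C) -/
def uC (q0 : Pg) (T : Finset Pg) : ℂ := (1 + gX4 (2 - bX q0 1 T lam)) * muX q0 T

theorem relC (hB : (2 : ℂ)⁻¹ ∉ B) (h0 : aa q0.1 = 1) {S : Finset Pg} (hq : q0 ∉ S) :
    ∀ J ⊆ S, J.Nonempty →
      Rt B ((∑ T ∈ J.powerset.erase ∅, (-1) ^ T.card *
          (-rh * (yX4 4 0 1 q0 T) * ∏ q ∈ J \ T, fX 0 1 q0 T q) -
        ∑ T ∈ J.powerset.erase ∅, (-1) ^ T.card * (uC q0 T * ∏ q ∈ J \ T, f1X q0 T q)) / lm)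
        (if J.card = 1 then ∑ i ∈ J, aa i.1 else 0) := by
  intro J hJ hJ0
  have hqJ : q0 ∉ J := fun h1 => hq (hJ h1)
  have hterm : ∀ T ∈ J.powerset.erase ∅, HHX q0 T J / lm ^ (J.card - 1) =
      muX q0 T * ∏ q ∈ J \ T, f1X q0 T q := fun T hT => by
    have hT1 := Finset.mem_erase.1 hT
    exact muX_term h0 (Finset.mem_powerset.1 hT1.2) (Finset.nonempty_iff_ne_empty.2 hT1.1) hqJ
  have hi : ∀ T ∈ J.powerset.erase ∅, B.valuation (HHX q0 T J / lm ^ (J.card - 1)) ≤ 1 := by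
    intro T hT
    have hT1 := Finset.mem_erase.1 hT
    rw [hterm T hT, ValuationSubring.valuation_le_one_iff]
    exact B.mul_mem _ _ (muX_mem hB h0 hqJ T (Finset.mem_powerset.1 hT1.2)
      (Finset.nonempty_iff_ne_empty.2 hT1.1)) (prod_mem fun q _ => f1X_mem hB h0 T q)
  have h1 := Rt_rhs0C_bX hB h0 hJ0 hqJ hi
  have e1 : ∑ T ∈ J.powerset.erase ∅, (-1) ^ T.card * (-rh * MM 0 1 q0 T J / lm ^ (J.card + 4)) =
      ∑ T ∈ J.powerset.erase ∅, (-1) ^ T.card *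
          (-rh * (yX4 4 0 1 q0 T) * ∏ q ∈ J \ T, fX 0 1 q0 T q) := by
    rw [sumY h0 1 (-rh) hqJ]
    exact Finset.sum_congr rfl fun T _ => by ring
  have e2 : ∑ T ∈ J.powerset.erase ∅, (-1) ^ T.card *
        ((1 + (1 - e4 (2 - bX q0 1 T lam)) / lm) * (HHX q0 T J / lm ^ (J.card - 1))) =
      ∑ T ∈ J.powerset.erase ∅, (-1) ^ T.card * (uC q0 T * ∏ q ∈ J \ T, f1X q0 T q) := by
    refine Finset.sum_congr rfl fun T hT => ?_
    rw [hterm T hT, uC, gX4]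
    ring
  rw [e1, e2] at h1
  exact h1

theorem uC_mem (hB : (2 : ℂ)⁻¹ ∉ B) (h0 : aa q0.1 = 1) {S : Finset Pg} (hq : q0 ∉ S) :
    ∀ T ⊆ S, T.Nonempty → uC q0 T ∈ B := fun T hT hT' =>
  B.mul_mem _ _ (B.add_mem _ _ B.one_mem (gX4_mem hB _)) (muX_mem hB h0 hq T hT hT')

theorem rd_uC (hB : (2 : ℂ)⁻¹ ∉ B) (h0 : aa q0.1 = 1) {S : Finset Pg} (hq : q0 ∉ S) :
    ∀ T ⊆ S, T.Nonempty → rd B (uC q0 T) =
      (1 + rd B (gX4 (2 - bX q0 1 T lam))) * rd B (muX q0 T) := fun T hT hT' => by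
  rw [uC, rd_mul (B.add_mem _ _ B.one_mem (gX4_mem hB _)) (muX_mem hB h0 hq T hT hT'),
    rd_add B.one_mem (gX4_mem hB _), rd_one]

/-- **The class of the normalised sum modulo `lm m`**, `h = 1`. -/
theorem rd_yX1 (hB : (2 : ℂ)⁻¹ ∉ B) (h0 : aa q0.1 = 1) {S : Finset Pg} (hq : q0 ∉ S) :
    ∀ J ⊆ S, J.Nonempty → rd B (-rh * yX4 4 0 1 q0 J) =
      rd B (uC q0 J) + lX B * phX B hB (CZ (nX s4 (fun q => aa q.1) q0) (fun i => aa i.1) J) := by
  refine opW_unique (IndX0_two hB) (W := fun T q => rd B (f1X q0 T q))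
    (y := fun T => rd B (-rh * yX4 4 0 1 q0 T)) (y' := fun T => rd B (uC q0 T) + lX B *
      phX B hB (CZ (nX s4 (fun q => aa q.1) q0) (fun i => aa i.1) T)) fun J hJ hJ0 => ?_
  have h1 := secX_rd hB (fX_mem hB h0 1) (f1X_mem hB h0) (uC_mem hB h0 hq) (relC hB h0 hq) J hJ hJ0
  have h2 : (fun (T : Finset Pg) q => rd B (fX 0 1 q0 T q)) = fun T q => rd B (f1X q0 T q) := by
    funext T q
    exact (rd_f1X_one hB h0 T q).symm
  rw [h2] at h1
  have h3 : ∀ T : Finset Pg, T.Nonempty → ∀ q, lX B * rd B (f1X q0 T q) =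
      lX B * phX B hB (∑ j ∈ T, nX s4 (fun q => aa q.1) q0 q j) := fun T _ q =>
    lX_mul_Rt hB (Rt_f1X hB h0 T q)
  have h4 : ∀ x : ZMod 2, x + x = 0 := by decide
  rw [h1, opW_add, opW_mul, opW_red (m := nX s4 (fun q => aa q.1) q0) (φ := phX B hB) h3
    (y0 := CZ (nX s4 (fun q => aa q.1) q0) (fun i => aa i.1)) (fun T _ _ => rfl), opY_CZ h4]

/-! ### The cases -/

/-- **`∑ nn = 2`, first order.** -/
theorem L4_zero_h1 {S : Finset Pg} (hS : S.Nonempty) (hA : ∑ q ∈ S, aa q.1 = 0)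
    (hn : ∑ q ∈ S, nn q.1 = 2) (hb : ∑ q ∈ S, bb q.1 = 0) (hk : kap0 s4 S ≠ 0) :
    L4 0 S 1 ≠ 0 := by
  obtain ⟨B, hB⟩ := exists_B2
  obtain ⟨q0, h0, ha, c1, c2⟩ := auxX hS hA
  have h22 : (2 + 2 : ZMod 4) = 0 := by decide
  have h3 : hh 1 + ∑ q ∈ S, nn q.1 = 0 := by rw [hh_one, hn, h22]
  refine MM_ne (Or.inl rfl) ha h0 h3 fun hz => ?_
  have h4 := rd_yX1 hB ha h0 S (Finset.Subset.refl S) hS
  rw [yX4, hz, zero_div, mul_zero, rd_zero, rd_uC hB ha h0 S (Finset.Subset.refl S) hS] at h4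
  have h5 := lX_mul_Rt hB (Rt_muX hB ha h0 S (Finset.Subset.refl S) hS)
  rw [c1] at h5
  have hmd : md (∑ q ∈ S, c4 q lam) = 0 := by
    rw [map_sum, ← hb]
    exact Finset.sum_congr rfl fun q _ => c2_lam q
  have hlam : bX q0 1 S lam = ∑ q ∈ S, c4 q lam := by
    rw [bX_lam, h3, zero_mul, neg_zero, zero_mul, zero_add]
  have hmd2 : md (2 - bX q0 1 S lam) = 0 := by
    have h6 : md 2 = 0 := rfl
    rw [hlam, map_sub, hmd, h6, sub_zero]
  have h6 := lX_mul_Rt hB (Rt_e4 (B := B) hB (2 - bX q0 1 S lam))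
  rw [hmd2, map_zero, mul_zero] at h6
  change lX B * rd B (gX4 (2 - bX q0 1 S lam)) = 0 at h6
  have h7 := lX_sq hB
  refine lX_phX_ne hB hk ?_
  rw [← h5]
  have h8 := congrArg (fun z => lX B * z) h4
  simp only [mul_zero] at h8
  generalize rd B (gX4 (2 - bX q0 1 S lam)) = G at h6 h8
  generalize rd B (muX q0 S) = M at h8 ⊢
  generalize phX B hB (CZ (nX s4 (fun q => aa q.1) q0) (fun i => aa i.1) S) = N at h8
  linear_combination (-M) * h6 - h8 - N * h7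

/-- **`∑ nn = 2`, second order.** -/
theorem L4_zero_h1' {S : Finset Pg} (hS : S.Nonempty) (hA : ∑ q ∈ S, aa q.1 = 0)
    (hn : ∑ q ∈ S, nn q.1 = 2) (hb : ∑ q ∈ S, bb q.1 = 1)
    (hk : kapX s4 (fun q => aa q.1) (if ∑ q ∈ S, c4 q lam = 1 ∨ ∑ q ∈ S, c4 q lam = 2 then 1
      else 0) S ≠ 0) : L4 0 S 1 ≠ 0 := by
  obtain ⟨B, hB⟩ := exists_B2
  obtain ⟨q0, h0, ha, c1, c2⟩ := auxX hS hA
  have h22 : (2 + 2 : ZMod 4) = 0 := by decide
  have h3 : hh 1 + ∑ q ∈ S, nn q.1 = 0 := by rw [hh_one, hn, h22]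
  refine MM_ne (Or.inl rfl) ha h0 h3 fun hz => ?_
  have h4 := rd_yX1 hB ha h0 S (Finset.Subset.refl S) hS
  have c3 := c2 0
  simp only [zero_mul, add_zero] at c3
  have hlam : bX q0 1 S lam = ∑ q ∈ S, c4 q lam := by
    rw [bX_lam, h3, zero_mul, neg_zero, zero_mul, zero_add]
  rw [yX4, hz, zero_div, mul_zero, rd_zero, rd_uC hB ha h0 S (Finset.Subset.refl S) hS, c3,
    hlam] at h4
  have h5 := lX_mul_Rt hB (Rt_muX hB ha h0 S (Finset.Subset.refl S) hS)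
  rw [c1] at h5
  have hmd : md (∑ q ∈ S, c4 q lam) = 1 := by
    rw [map_sum, ← hb]
    exact Finset.sum_congr rfl fun q _ => c2_lam q
  rw [kapX_add s4 (fun p q _ => IndX_s4 p q) _ _ hS hA] at hk
  have key : ∀ t : ZMod 4, md t = 1 → t = 1 ∨ t = 3 := by decide
  have hzt : -zt ∈ B := IndX0_mem ((Rt_ztX hB).neg hB)
  rcases key _ hmd with ht | ht
  · rw [ht, if_pos (Or.inl rfl), one_mul] at hk
    have h9 : (2 - 1 : ZMod 4) = 1 := by decide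
    have h10 : 1 + rd B (gX4 1) = lX B := by
      have e : (1 : ℂ) + -zt = gX4 2 := by
        rw [gX4, e4_two]
        have hl := lm_ne
        field_simp
        rw [lm]
        linear_combination -zt_sq
      rw [gX4_one, ← rd_one, ← rd_add B.one_mem hzt, e, rd_gX4_two hB]
    rw [ht, h9, h10] at h4
    refine lX_phX_ne hB hk ?_
    rw [map_add]
    linear_combination -h4 - h5
  · have h11 : ¬ ((3 : ZMod 4) = 1 ∨ (3 : ZMod 4) = 2) := by decide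
    rw [ht, if_neg h11, zero_mul, add_zero] at hk
    have h9 : (2 - 3 : ZMod 4) = 3 := by decide
    have h10 : 1 + rd B (gX4 3) = 0 := by
      rw [gX4_three, rd_one]
      exact IndX0_two hB 1
    rw [ht, h9, h10, zero_mul, zero_add] at h4
    exact lX_phX_ne hB hk h4.symm

/-! ### The results for `k = 0` -/

/-- **`D = DD_S = 1` modulo `4`, `Im D = 4` modulo `8`.** -/
theorem L4_zero_ne {S : Finset Pg} (hS : S.Nonempty) (hA : ∑ q ∈ S, aa q.1 = 0)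
    (hc : (if ∑ q ∈ S, nn q.1 = 2 then 1 else 0 : ZMod 2) + ∑ q ∈ S, bb q.1 = 1)
    (hk : kap0 s4 S ≠ 0) : L4 0 S 1 ≠ 0 := by
  have h1 : md (∑ q ∈ S, nn q.1) = 0 := by
    rw [map_sum]
    exact hA
  have key : ∀ t : ZMod 4, md t = 0 → t = 0 ∨ t = 2 := by decide
  rcases key _ h1 with h | h
  · have h02 : ¬ ((0 : ZMod 4) = 2) := by decide
    rw [h, if_neg h02, zero_add] at hc
    exact L4_zero_h0 hS hA h hc hk
  · rw [h, if_pos rfl] at hc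
    have key2 : ∀ x : ZMod 2, 1 + x = 1 → x = 0 := by decide
    exact L4_zero_h1 hS hA h (key2 _ hc) hk

/-- **`D = DD_S = 1` modulo `4`, `Im D = 0` modulo `8`.** -/
theorem L4_zero_ne' {S : Finset Pg} (hS : S.Nonempty) (hA : ∑ q ∈ S, aa q.1 = 0)
    (hc : (if ∑ q ∈ S, nn q.1 = 2 then 1 else 0 : ZMod 2) + ∑ q ∈ S, bb q.1 = 0)
    (hk : kapX s4 (fun q => aa q.1) (if ∑ q ∈ S, c4 q lam = 1 ∨ ∑ q ∈ S, c4 q lam = 2 then 1
      else 0) S ≠ 0) : L4 0 S 1 ≠ 0 := by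
  have h1 : md (∑ q ∈ S, nn q.1) = 0 := by
    rw [map_sum]
    exact hA
  have key : ∀ t : ZMod 4, md t = 0 → t = 0 ∨ t = 2 := by decide
  rcases key _ h1 with h | h
  · have h02 : ¬ ((0 : ZMod 4) = 2) := by decide
    rw [h, if_neg h02, zero_add] at hc
    exact L4_zero_h0' hS hA h hc hk
  · rw [h, if_pos rfl] at hc
    have key2 : ∀ x : ZMod 2, 1 + x = 0 → x = 1 := by decide
    exact L4_zero_h1' hS hA h (key2 _ hc) hk

end

end Pool.Agent.Lib.MP_1a91b9_ntQ
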