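import Pool.Agent.Lib.MP_1a91b9_ntQ.A.IndX
import Pool.Agent.Lib.MP_1a91b9_ntQ.A.Rhs2
import Pool.Agent.Lib.MP_1a91b9_ntQ.A.SerP
import Pool.Agent.Lib.MP_1a91b9_ntQ.R.Aux4

/-!
# Quartic twists, part A, file TopX2: class (X), `D = - DD_S` with `DD_S = 1` modulo `4`

`yX4 k h q0 T = MM k h q0 T T / lm ^ (|T| + dX4 k)`, `dX4 2 = 3`, `dX4 0 = 4`.
-/

set_option autoImplicit false

namespace Pool.Agent.Lib.MP_1a91b9_ntQ

open NumberField Pool.Agent.Lib.MP_1a91b9_nuT Pool.Agent.Lib.MP_1a91b9_nuT.S3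
  Pool.Agent.Lib.MP_1a91b9_nuT.Ell
open Pool.Agent.Lib.MP_1a91b9_ntK (CZ)

noncomputable section

/-- the normalised sum -/
def yX4 (d : ℕ) (k : ZMod 4) (h : ZMod 2) (q0 : Pg) (T : Finset Pg) : ℂ :=
  MM k h q0 T T / lm ^ (T.card + d)

/-- the normalised term of a subset -/
theorem yX4_term {k : ZMod 4} (hk : k = 0 ∨ k = 2) {q0 : Pg} (h0 : aa q0.1 = 1) (h : ZMod 2)
    (d : ℕ) {T J : Finset Pg} (hT : T ⊆ J) (hq : q0 ∉ J) :
    MM k h q0 T J / lm ^ (J.card + d) = yX4 d k h q0 T * ∏ q ∈ J \ T, fX k h q0 T q := by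
  have hc : J.card + d = (T.card + d) + (J \ T).card := by
    rw [Finset.card_sdiff_of_subset hT]
    have := Finset.card_le_card hT
    omega
  have h1 : (lm : ℂ) ^ (T.card + d) ≠ 0 := pow_ne_zero _ lm_ne
  have h2 : (lm : ℂ) ^ (J \ T).card ≠ 0 := pow_ne_zero _ lm_ne
  unfold fX
  rw [MM_prod hk h0 h hT hq, Finset.prod_div_distrib, Finset.prod_const, yX4, hc, pow_add lm (T.card + d)]
  field_simp

/-- the sum over the nonempty subsets -/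
theorem yX4_sum {k : ZMod 4} (hk : k = 0 ∨ k = 2) {q0 : Pg} (h0 : aa q0.1 = 1) (h : ZMod 2)
    (d : ℕ) {J : Finset Pg} (hq : q0 ∉ J) :
    ∑ T ∈ J.powerset.erase ∅, (-1) ^ T.card *
        (yX4 d k h q0 T * ∏ q ∈ J \ T, fX k h q0 T q) =
      GX q0 (f4 k) (w4 J) (fun z => UX k h (X z)) J / lm ^ (J.card + d) -
        MM k h q0 ∅ J / lm ^ (J.card + d) := by
  have h1 := MM_sum k h q0 J
  rw [← Finset.add_sum_erase _ _ (Finset.empty_mem_powerset J), Finset.card_empty, pow_zero,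
    one_mul] at h1
  rw [← sub_div, ← h1, add_sub_cancel_left, Finset.sum_div]
  refine Finset.sum_congr rfl fun T hT => ?_
  rw [mul_div_assoc, yX4_term hk h0 h d (Finset.mem_powerset.1 (Finset.mem_erase.1 hT).2) hq]

section
variable {B : ValuationSubring ℂ}

/-- **`k = 2`** : the class of the normalised sum -/
theorem Rt_yX2 (hB : (2 : ℂ)⁻¹ ∉ B) {q0 : Pg} (h0 : aa q0.1 = 1) (h : ZMod 2) {S : Finset Pg}
    (hq : q0 ∉ S) : ∀ J ⊆ S, J.Nonempty → Rt B (yX4 3 2 h q0 J)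
      (CZ (nX s4 (fun q => aa q.1) q0) (fun i => aa i.1 + h * s4 q0 i) J) := by
  refine ind1 hB (F := fX 2 h q0) (fun T q => Rt_fX hB (Or.inr rfl) h0 h T q) fun J hJ hJ0 => ?_
  have hqJ : q0 ∉ J := fun h1 => hq (hJ h1)
  rw [yX4_sum (Or.inr rfl) h0 h 3 hqJ]
  have h1 := (Rt_rhs2 hB h0 h hJ0 hqJ).sub hB (Rt_MM2 hB h0 h hJ0 hqJ)
  have hneg : ∀ x : ZMod 2, 0 - x = x := by decide
  rwa [hneg] at h1

end

/-! ### The cases -/

theorem nn_sum {S : Finset Pg} (hA : ∑ q ∈ S, aa q.1 = 0) :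
    ∃ h : ZMod 2, (if ∑ q ∈ S, nn q.1 = 2 then 1 else 0 : ZMod 2) = h ∧
      hh h + ∑ q ∈ S, nn q.1 = 0 := by
  have h1 : md (∑ q ∈ S, nn q.1) = 0 := by
    rw [map_sum]
    exact hA
  have key : ∀ t : ZMod 4, md t = 0 → ∃ h : ZMod 2, (if t = 2 then 1 else 0 : ZMod 2) = h ∧
      hh h + t = 0 := by
    unfold hh
    decide
  exact key _ h1

theorem two_mul_nn {S : Finset Pg} (hA : ∑ q ∈ S, aa q.1 = 0) :
    (2 : ZMod 4) * ∑ q ∈ S, nn q.1 = 0 := by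
  have h1 : md (∑ q ∈ S, nn q.1) = 0 := by
    rw [map_sum]
    exact hA
  have key : ∀ t : ZMod 4, md t = 0 → 2 * t = 0 := by decide
  exact key _ h1

/-- the L-series, `∑ aa = 0` -/
theorem serX {κ : ZMod 4} {S : Finset Pg} (hA : ∑ q ∈ S, aa q.1 = 0) (h : L4 κ S 1 ≠ 0) :
    ∃ g : ℂ → ℂ, Differentiable ℂ g ∧ (∀ s : ℂ, 3 / 2 < s.re → g s = (WD4 (Dq κ S)).LSeries s) ∧
      g 1 ≠ 0 := ser4_all κ (by rwa [two_mul_nn hA, add_zero])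

/-- **`D = - DD_S = - 1` modulo `4`.** -/
theorem L4_two_ne {S : Finset Pg} (hS : S.Nonempty) (hA : ∑ q ∈ S, aa q.1 = 0)
    (hk : kapX s4 (fun q => aa q.1) (if ∑ q ∈ S, nn q.1 = 2 then 1 else 0) S ≠ 0) :
    L4 2 S 1 ≠ 0 := by
  obtain ⟨B, hB⟩ := exists_B2
  obtain ⟨q0, -, h0, ha, h1⟩ := exists_aux hS.ne_empty 0
  obtain ⟨h, h2, h3⟩ := nn_sum hA
  rw [h2] at hk
  have h4 := tauX_ah s4 (fun q => aa q.1) q0 (fun p q _ => IndX_s4 p q) hS hA h1 h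
  rw [tauX] at h4
  have h5 := Rt_yX2 hB ha h h0 S (Finset.Subset.refl S) hS
  rw [h4] at h5
  refine MM_ne (Or.inr rfl) ha h0 h3 fun hz => h5.ne_zero hk ?_
  rw [yX4, hz, zero_div]

/-- the same with the kernel -/
theorem L4_two_ne' {S : Finset Pg} (hS : S.Nonempty) (hA : ∑ q ∈ S, aa q.1 = 0)
    (hk : ∀ v : S ⊕ Unit → ZMod 2, (B4 s4 0 (fun q => aa q.1)
      (if ∑ q ∈ S, nn q.1 = 2 then 1 else 0) S).mulVec v = 0 →
        ∃ c : ZMod 2, (∀ i : S, v (Sum.inl i) = c) ∧ v (Sum.inr ()) = 0) : L4 2 S 1 ≠ 0 :=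
  L4_two_ne hS hA (kapX_ne s4 (fun p q _ => IndX_s4 p q) _ _ hS hA hk)

end

end Pool.Agent.Lib.MP_1a91b9_ntQ
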