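import Pool.Agent.Lib.MP_1a91b9_ntQ.A.TopX1
import Pool.Agent.Lib.MP_1a91b9_ntQ.A.Rat4N

/-!
# Quartic twists, part A, file ValX: the residue classes of the normalised values, class (X)

For `∑ aa = 0` the quotient `nu4 k S / lm ^ e` (`e = 1`, `e = 2` for `D = 1` modulo `8` up to `4`) is a
unit above `2` if the cofactor is not `0`, and is in the maximal ideals if the cofactor is `0`.
-/

set_option autoImplicit false

namespace Pool.Agent.Lib.MP_1a91b9_ntQ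

open NumberField Pool.Agent.Lib.MP_1a91b9_nuT Pool.Agent.Lib.MP_1a91b9_nuT.S3
  Pool.Agent.Lib.MP_1a91b9_nuT.Ell
open Pool.Agent.Lib.MP_1a91b9_ntK (CZ)

noncomputable section

/-- The normalised value and the sum over the classes with trivial character at the auxiliary
prime. -/
theorem nuX_rel {k : ZMod 4} (hk : k = 0 ∨ k = 2) {q0 : Pg} (h0 : aa q0.1 = 1) {h : ZMod 2}
    {S : Finset Pg} (hq : q0 ∉ S) (hS : hh h + ∑ q ∈ S, nn q.1 = 0) (d : ℕ) :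
    nu4 k S * lm ^ ek k * (em q0.1 - X4 k S q0.1) =
      th4 k (q0.1 * DDq S) * (yX4 d k h q0 S * lm ^ d) := by
  have h1 := MM_eq hk h0 h (Finset.Subset.refl S) hq
  have he : e0X q0 h S = 0 := by rw [e0X, hS, zero_mul, neg_zero]
  have hs : sX q0 h S = S := by rw [sX, if_pos he]
  have hX : Xe k (eX q0 h S) S = X4 k S := by
    refine Xe_eq_X4 fun q hqS => ?_
    have h2 : q ≠ q0 := by
      rintro rfl
      exact hq hqS
    rw [eX, if_neg h2]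
  have hset : insert q0 S \ S = {q0} := by
    rw [Finset.insert_sdiff_of_notMem _ hq, Finset.sdiff_self, insert_empty_eq]
  rw [LX, hs, hX, hset, Finset.prod_singleton] at h1
  have hl := lm_ne
  have hL := La4_empty_ne k
  have hq1 : em q0.1 ≠ 0 := em_ne q0.ne_zero
  have h2 : nu4 k S * (La4 k ∅ * lm ^ (S.card + ek k)) =
      em (f4 k) * em (DDq S) * LG (lam ^ 3) (X4 k S) 1 := by
    rw [nu4, div_mul_cancel₀ _ (mul_ne_zero hL (pow_ne_zero _ hl)), La4, em_mul, L4]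
  have h3 : MM k h q0 S S = yX4 d k h q0 S * lm ^ (S.card + d) := by
    rw [yX4, div_mul_cancel₀ _ (pow_ne_zero _ hl)]
  rw [h3, CX_eq, em_mul, em_mul] at h1
  have h4 : em (f4 k) * (em q0.1 * em (DDq S)) * (LG (lam ^ 3) (X4 k S) 1 *
      (1 - X4 k S q0.1 / em q0.1)) =
      (em (f4 k) * em (DDq S) * LG (lam ^ 3) (X4 k S) 1) * (em q0.1 - X4 k S q0.1) := by
    field_simp
  rw [h4, ← h2] at h1
  apply mul_left_cancel₀ (mul_ne_zero hL (pow_ne_zero S.card hl))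
  rw [pow_add, pow_add] at h1
  linear_combination h1

section
variable {B : ValuationSubring ℂ}

/-- the factor of the auxiliary prime -/
theorem v_facX (hB : (2 : ℂ)⁻¹ ∉ B) {k : ZMod 4} (hk : k = 0 ∨ k = 2) {q0 : Pg} {S : Finset Pg}
    (hq : q0 ∉ S) (h1 : ∑ p ∈ S, s4 q0 p = 1) :
    B.valuation (em q0.1 - X4 k S q0.1) = B.valuation lm := by
  have h2 : ∀ p ∈ S, ¬ p.1 ∣ q0.1 := fun p hp => Pg.not_dvd (by
    rintro rfl
    exact hq hp)
  have hX : X4 k S q0.1 = e4 (k * nn q0.1 + ∑ p ∈ S, c4 p q0.1) := by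
    rw [X4_eq, prod_ch4 h2, th4, ← e4_add]
  have hmd : md (k * nn q0.1 + ∑ p ∈ S, c4 p q0.1) = 1 := by
    have key : ∀ k n : ZMod 4, (k = 0 ∨ k = 2) → md (k * n) = 0 := by decide
    have h3 : ∑ p ∈ S, md (c4 p q0.1) = ∑ p ∈ S, s4 q0 p :=
      Finset.sum_congr rfl fun p _ => by
        rw [IndX_s4]
        rfl
    rw [map_add, key k _ hk, zero_add, map_sum, h3, h1]
  have h3 := Rt_e4 (B := B) hB (k * nn q0.1 + ∑ p ∈ S, c4 p q0.1)
  rw [hmd] at h3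
  have h4 : Rt B ((em q0.1 - 1) / lm) 0 :=
    Rt.of_lt ((IndX_div (IndX_em_sub q0)).trans_lt (pow_lt_one₀ zero_le (v_lm_lt hB) two_ne_zero))
  have e : (em q0.1 - X4 k S q0.1) / lm =
      (em q0.1 - 1) / lm + (1 - e4 (k * nn q0.1 + ∑ p ∈ S, c4 p q0.1)) / lm := by
    rw [hX, ← add_div]
    congr 1
    ring
  have h5 := h4.add hB h3
  rw [zero_add, ← e] at h5
  have h6 := h5.unit one_ne_zero
  rw [map_div₀, div_eq_one_iff_eq v_lm_pos.ne'] at h6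
  exact h6

/-- **The valuation of the normalised value.** -/
theorem v_nuX (hB : (2 : ℂ)⁻¹ ∉ B) {k : ZMod 4} (hk : k = 0 ∨ k = 2) {q0 : Pg}
    (h0 : aa q0.1 = 1) {h : ZMod 2} {S : Finset Pg} (hq : q0 ∉ S)
    (hS : hh h + ∑ q ∈ S, nn q.1 = 0) (h1 : ∑ p ∈ S, s4 q0 p = 1) :
    B.valuation (nu4 k S / lm) = B.valuation (yX4 (ek k + 2) k h q0 S) := by
  have h2 := congrArg B.valuation (nuX_rel hk h0 hq hS (ek k + 2))
  rw [map_mul, map_mul, v_facX hB hk hq h1, map_mul, map_mul, IndX_th4, one_mul, map_pow,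
    map_pow, pow_add] at h2
  have hl : B.valuation lm ≠ 0 := v_lm_pos.ne'
  rw [map_div₀, div_eq_iff hl]
  have h3 : B.valuation lm ^ ek k * B.valuation lm ≠ 0 := mul_ne_zero (pow_ne_zero _ hl) hl
  apply mul_right_cancel₀ h3
  calc _ = B.valuation (nu4 k S) * B.valuation lm ^ ek k * B.valuation lm := by rw [mul_assoc]
    _ = _ := h2
    _ = _ := by
      rw [pow_two]
      simp only [mul_assoc, mul_comm, mul_left_comm]

/-- from the class of `l * z` -/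
theorem Rt_of_lX (hB : (2 : ℂ)⁻¹ ∉ B) {z : ℂ} (hz : z ∈ B) {c : ZMod 2}
    (h : lX B * rd B z = lX B * phX B hB c) : Rt B z c := by
  rw [phX_val, ← rd_nat, ← sub_eq_zero, ← mul_sub, ← rd_sub hz (natCast_mem B _),
    lX_mul_rd (sub_mem hz (natCast_mem B _))] at h
  exact h

/-- from the class of `z` -/
theorem Rt_of_rd (hB : (2 : ℂ)⁻¹ ∉ B) {z : ℂ} (hz : z ∈ B) {c : ZMod 2}
    (h : rd B z = lX B * phX B hB c) : Rt B (z / lm) c := by
  rw [phX_val, ← rd_nat, ← rd_lm, ← rd_mul (lmB B) (natCast_mem B _),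
    rd_eq_iff hz (B.mul_mem _ _ (lmB B) (natCast_mem B _))] at h
  have e : z / lm - (c.val : ℂ) = (z - lm * (c.val : ℂ)) / lm := by
    rw [sub_div, mul_div_cancel_left₀ _ lm_ne]
  rw [Rt, e, map_div₀, div_lt_one₀ v_lm_pos]
  exact h

theorem yX0_mem (hB : (2 : ℂ)⁻¹ ∉ B) {q0 : Pg} (h0 : aa q0.1 = 1) {S : Finset Pg} (hq : q0 ∉ S)
    (hS : S.Nonempty) : yX4 4 0 0 q0 S ∈ B :=
  secX_mem (fX_mem hB h0 0) (f1X_mem hB h0) (uB_mem hB h0 hq) (relB hB h0 hq) S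
    (Finset.Subset.refl S) hS

theorem yX1_mem (hB : (2 : ℂ)⁻¹ ∉ B) {q0 : Pg} (h0 : aa q0.1 = 1) {S : Finset Pg} (hq : q0 ∉ S)
    (hS : S.Nonempty) : -rh * yX4 4 0 1 q0 S ∈ B :=
  secX_mem (y := fun T => -rh * yX4 4 0 1 q0 T) (fX_mem hB h0 1) (f1X_mem hB h0)
    (uC_mem hB h0 hq) (relC hB h0 hq) S (Finset.Subset.refl S) hS

theorem md_c4lam (S : Finset Pg) : md (∑ q ∈ S, c4 q lam) = ∑ q ∈ S, bb q.1 := by
  rw [map_sum]
  exact Finset.sum_congr rfl fun q _ => c2_lam q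

/-- first order, `∑ nn = 0` -/
theorem RtX_h0 (hB : (2 : ℂ)⁻¹ ∉ B) {q0 : Pg} (ha : aa q0.1 = 1) {S : Finset Pg} (h0 : q0 ∉ S)
    (hS : S.Nonempty) (hA : ∑ q ∈ S, aa q.1 = 0) (hb : ∑ q ∈ S, bb q.1 = 1)
    (c1 : CZ (nX s4 (fun q => aa q.1) q0) (fun i => s4 q0 i) S = kap0 s4 S) :
    Rt B (yX4 4 0 0 q0 S) (kap0 s4 S) := by
  refine Rt_of_lX hB (yX0_mem hB ha h0 hS) ?_
  have h4 := rd_yX0 hB ha h0 S (Finset.Subset.refl S) hS
  have h5 := lX_mul_Rt hB (Rt_muX hB ha h0 S (Finset.Subset.refl S) hS)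
  have h6 := lX_mul_Rt hB (Rt_e4 (B := B) hB (2 - bX q0 0 S lam))
  rw [md_bX_lam ha, sum_bb hA, hb, map_one, mul_one] at h6
  rw [c1] at h5
  change lX B * rd B (gX4 (2 - bX q0 0 S lam)) = lX B at h6
  have h7 := lX_sq hB
  rw [← h5, h4]
  generalize rd B (gX4 (2 - bX q0 0 S lam)) = G at h6 ⊢
  generalize rd B (muX q0 S) = M at *
  generalize phX B hB (starY (fun T => (∑ i ∈ T, (bb i.1 + aa i.1 * bb q0.1)) *
          CZ (nX s4 (fun q => aa q.1) q0) (fun i => s4 q0 i) T)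
          (CZ (nX s4 (fun q => aa q.1) q0) (fun i => s4 q0 i)) S +
          CZ (nX s4 (fun q => aa q.1) q0) (fun i => aa i.1 + s4 q0 i) S) = N
  linear_combination M * h6 + (M * G + N) * h7

/-- second order, `∑ nn = 0` -/
theorem RtX_h0' (hB : (2 : ℂ)⁻¹ ∉ B) {q0 : Pg} (ha : aa q0.1 = 1) {S : Finset Pg} (h0 : q0 ∉ S)
    (hS : S.Nonempty) (hA : ∑ q ∈ S, aa q.1 = 0) (hn : ∑ q ∈ S, nn q.1 = 0)
    (hb : ∑ q ∈ S, bb q.1 = 0)
    (c1 : CZ (nX s4 (fun q => aa q.1) q0) (fun i => s4 q0 i) S = kap0 s4 S)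
    (c2 : ∀ x : ZMod 2, CZ (nX s4 (fun q => aa q.1) q0) (fun i => aa i.1 + x * s4 q0 i) S =
        kapX s4 (fun q => aa q.1) 0 S + x * kap0 s4 S) :
    Rt B (yX4 4 0 0 q0 S / lm) (kapX s4 (fun q => aa q.1)
      (if ∑ q ∈ S, c4 q lam = 1 ∨ ∑ q ∈ S, c4 q lam = 2 then 1 else 0) S) := by
  refine Rt_of_rd hB (yX0_mem hB ha h0 hS) ?_
  have h3 : hh 0 + ∑ q ∈ S, nn q.1 = 0 := by rw [hh_zero, hn, zero_add]
  have h4 := rd_yX0 hB ha h0 S (Finset.Subset.refl S) hS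
  have hbS : ∑ i ∈ S, (bb i.1 + aa i.1 * bb q0.1) = 0 := by rw [sum_bb hA, hb]
  have c3 := c2 1
  simp only [one_mul] at c3
  have hlam : bX q0 0 S lam = ∑ q ∈ S, c4 q lam := by
    rw [bX_lam, h3, zero_mul, neg_zero, zero_mul, zero_add]
  rw [starY_zero _ _ hbS, zero_add, c3, hlam] at h4
  have h5 := lX_mul_Rt hB (Rt_muX hB ha h0 S (Finset.Subset.refl S) hS)
  rw [c1] at h5
  have h7 := lX_sq hB
  have hmd : md (∑ q ∈ S, c4 q lam) = 0 := by rw [md_c4lam, hb]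
  rw [kapX_add s4 (fun p q _ => IndX_s4 p q) _ _ hS hA, h4]
  have key : ∀ t : ZMod 4, md t = 0 → t = 0 ∨ t = 2 := by decide
  rcases key _ hmd with ht | ht
  · have h01 : ¬ ((0 : ZMod 4) = 1 ∨ (0 : ZMod 4) = 2) := by decide
    rw [ht, if_neg h01, zero_mul, add_zero, sub_zero, rd_gX4_two hB, map_add]
    have h8 := IndX0_two hB (lX B * phX B hB (kap0 s4 S))
    linear_combination h8 + h5 + rd B (muX q0 S) * h7
  · rw [ht, if_pos (Or.inr rfl), one_mul]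
    have h9 : gX4 (2 - 2) = 0 := by rw [sub_self, gX4_zero]
    rw [h9, rd_zero, mul_zero, mul_zero, zero_add]

/-- first order, `∑ nn = 2` -/
theorem RtX_h1 (hB : (2 : ℂ)⁻¹ ∉ B) {q0 : Pg} (ha : aa q0.1 = 1) {S : Finset Pg} (h0 : q0 ∉ S)
    (hS : S.Nonempty) (hn : ∑ q ∈ S, nn q.1 = 2) (hb : ∑ q ∈ S, bb q.1 = 0)
    (c1 : CZ (nX s4 (fun q => aa q.1) q0) (fun i => s4 q0 i) S = kap0 s4 S) :
    Rt B (-rh * yX4 4 0 1 q0 S) (kap0 s4 S) := by
  refine Rt_of_lX hB (yX1_mem hB ha h0 hS) ?_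
  have h22 : (2 + 2 : ZMod 4) = 0 := by decide
  have h3 : hh 1 + ∑ q ∈ S, nn q.1 = 0 := by rw [hh_one, hn, h22]
  have h4 := rd_yX1 hB ha h0 S (Finset.Subset.refl S) hS
  rw [rd_uC hB ha h0 S (Finset.Subset.refl S) hS] at h4
  have h5 := lX_mul_Rt hB (Rt_muX hB ha h0 S (Finset.Subset.refl S) hS)
  rw [c1] at h5
  have hlam : bX q0 1 S lam = ∑ q ∈ S, c4 q lam := by
    rw [bX_lam, h3, zero_mul, neg_zero, zero_mul, zero_add]
  have hmd2 : md (2 - bX q0 1 S lam) = 0 := by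
    have h6 : md 2 = 0 := rfl
    rw [hlam, map_sub, md_c4lam, hb, h6, sub_zero]
  have h6 := lX_mul_Rt hB (Rt_e4 (B := B) hB (2 - bX q0 1 S lam))
  rw [hmd2, map_zero, mul_zero] at h6
  change lX B * rd B (gX4 (2 - bX q0 1 S lam)) = 0 at h6
  have h7 := lX_sq hB
  rw [← h5, h4]
  generalize rd B (gX4 (2 - bX q0 1 S lam)) = G at h6 ⊢
  generalize rd B (muX q0 S) = M at *
  generalize phX B hB (CZ (nX s4 (fun q => aa q.1) q0) (fun i => aa i.1) S) = N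
  linear_combination M * h6 + N * h7

/-- second order, `∑ nn = 2` -/
theorem RtX_h1' (hB : (2 : ℂ)⁻¹ ∉ B) {q0 : Pg} (ha : aa q0.1 = 1) {S : Finset Pg} (h0 : q0 ∉ S)
    (hS : S.Nonempty) (hA : ∑ q ∈ S, aa q.1 = 0) (hn : ∑ q ∈ S, nn q.1 = 2)
    (hb : ∑ q ∈ S, bb q.1 = 1)
    (c1 : CZ (nX s4 (fun q => aa q.1) q0) (fun i => s4 q0 i) S = kap0 s4 S)
    (c2 : ∀ x : ZMod 2, CZ (nX s4 (fun q => aa q.1) q0) (fun i => aa i.1 + x * s4 q0 i) S =
        kapX s4 (fun q => aa q.1) 0 S + x * kap0 s4 S) :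
    Rt B (-rh * yX4 4 0 1 q0 S / lm) (kapX s4 (fun q => aa q.1)
      (if ∑ q ∈ S, c4 q lam = 1 ∨ ∑ q ∈ S, c4 q lam = 2 then 1 else 0) S) := by
  refine Rt_of_rd hB (yX1_mem hB ha h0 hS) ?_
  have h22 : (2 + 2 : ZMod 4) = 0 := by decide
  have h3 : hh 1 + ∑ q ∈ S, nn q.1 = 0 := by rw [hh_one, hn, h22]
  have h4 := rd_yX1 hB ha h0 S (Finset.Subset.refl S) hS
  have c3 := c2 0
  simp only [zero_mul, add_zero] at c3
  have hlam : bX q0 1 S lam = ∑ q ∈ S, c4 q lam := by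
    rw [bX_lam, h3, zero_mul, neg_zero, zero_mul, zero_add]
  rw [rd_uC hB ha h0 S (Finset.Subset.refl S) hS, c3, hlam] at h4
  have h5 := lX_mul_Rt hB (Rt_muX hB ha h0 S (Finset.Subset.refl S) hS)
  rw [c1] at h5
  have hmd : md (∑ q ∈ S, c4 q lam) = 1 := by rw [md_c4lam, hb]
  rw [kapX_add s4 (fun p q _ => IndX_s4 p q) _ _ hS hA, h4]
  have key : ∀ t : ZMod 4, md t = 1 → t = 1 ∨ t = 3 := by decide
  have hzt : -zt ∈ B := IndX0_mem ((Rt_ztX hB).neg hB)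
  rcases key _ hmd with ht | ht
  · have h9 : (2 - 1 : ZMod 4) = 1 := by decide
    have h10 : 1 + rd B (gX4 1) = lX B := by
      have e : (1 : ℂ) + -zt = gX4 2 := by
        rw [gX4, e4_two]
        have hl := lm_ne
        field_simp
        rw [lm]
        linear_combination -zt_sq
      rw [gX4_one, ← rd_one, ← rd_add B.one_mem hzt, e, rd_gX4_two hB]
    rw [ht, if_pos (Or.inl rfl), one_mul, h9, h10, map_add]
    linear_combination h5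
  · have h11 : ¬ ((3 : ZMod 4) = 1 ∨ (3 : ZMod 4) = 2) := by decide
    have h9 : (2 - 3 : ZMod 4) = 3 := by decide
    have h10 : 1 + rd B (gX4 3) = 0 := by
      rw [gX4_three, rd_one]
      exact IndX0_two hB 1
    rw [ht, if_neg h11, zero_mul, add_zero, h9, h10, zero_mul, zero_add]

end

/-! ### The results -/

/-- a unit above `2`, or in the maximal ideals -/
def Vc (z : ℂ) (b : Prop) : Prop :=
  (b → ∀ B : ValuationSubring ℂ, (2 : ℂ)⁻¹ ∉ B → B.valuation z = 1) ∧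
    (¬ b → ∀ B : ValuationSubring ℂ, (2 : ℂ)⁻¹ ∉ B → B.valuation z < 1)

theorem Vc_of {z : ℂ} {y : ZMod 2} (h : ∀ B : ValuationSubring ℂ, (2 : ℂ)⁻¹ ∉ B →
    ∃ w : ℂ, B.valuation z = B.valuation w ∧ Rt B w y) : Vc z (y ≠ 0) := by
  refine ⟨fun hy B hB => ?_, fun hy B hB => ?_⟩
  · obtain ⟨w, h1, h2⟩ := h B hB
    rw [h1]
    exact h2.unit hy
  · obtain ⟨w, h1, h2⟩ := h B hB
    rw [not_not] at hy
    rw [hy] at h2
    rw [h1]
    exact h2.lt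

theorem v_neg_rh {B : ValuationSubring ℂ} (hB : (2 : ℂ)⁻¹ ∉ B) (z : ℂ) :
    B.valuation (-rh * z) = B.valuation z := by
  rw [neg_mul, Valuation.map_neg, map_mul, v_rh hB, one_mul]

/-- `D = -1` modulo `4` -/
theorem Vc_X1 {S : Finset Pg} (hS : S.Nonempty) (hA : ∑ q ∈ S, aa q.1 = 0) :
    Vc (nu4 2 S / lm ^ 1)
      (kapX s4 (fun q => aa q.1) (if ∑ q ∈ S, nn q.1 = 2 then 1 else 0) S ≠ 0) := by
  obtain ⟨q0, -, h0, ha, h1⟩ := exists_aux hS.ne_empty 0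
  obtain ⟨h, h2, h3⟩ := nn_sum hA
  rw [h2, pow_one]
  refine Vc_of fun B hB => ⟨yX4 3 2 h q0 S, ?_, ?_⟩
  · have h4 := v_nuX hB (Or.inr rfl) ha h0 h3 h1
    have h5 : ek 2 = 1 := by decide
    rw [h5] at h4
    exact h4
  · have h4 := tauX_ah s4 (fun q => aa q.1) q0 (fun p q _ => IndX_s4 p q) hS hA h1 h
    rw [tauX] at h4
    have h5 := Rt_yX2 hB ha h h0 S (Finset.Subset.refl S) hS
    rwa [h4] at h5

/-- `D = 1` modulo `4`, first order -/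
theorem Vc_X2 {S : Finset Pg} (hS : S.Nonempty) (hA : ∑ q ∈ S, aa q.1 = 0)
    (hc : (if ∑ q ∈ S, nn q.1 = 2 then 1 else 0 : ZMod 2) + ∑ q ∈ S, bb q.1 = 1) :
    Vc (nu4 0 S / lm ^ 1) (kap0 s4 S ≠ 0) := by
  have hmd : md (∑ q ∈ S, nn q.1) = 0 := by
    rw [map_sum]
    exact hA
  have h5 : ek 0 = 2 := by decide
  rw [pow_one]
  obtain ⟨q0, -, h0, ha, h1⟩ := exists_aux hS.ne_empty 0
  have c1 := tauX_s0 s4 (fun q => aa q.1) q0 (fun p q _ => IndX_s4 p q) hS hA h1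
  rw [tauX] at c1
  have key : ∀ t : ZMod 4, md t = 0 → t = 0 ∨ t = 2 := by decide
  rcases key _ hmd with hn | hn
  · have h02 : ¬ ((0 : ZMod 4) = 2) := by decide
    rw [hn, if_neg h02, zero_add] at hc
    have h3 : hh 0 + ∑ q ∈ S, nn q.1 = 0 := by rw [hh_zero, hn, zero_add]
    refine Vc_of fun B hB => ⟨yX4 4 0 0 q0 S, ?_, RtX_h0 hB ha h0 hS hA hc c1⟩
    have h4 := v_nuX hB (Or.inl rfl) ha h0 h3 h1
    rwa [h5] at h4
  · rw [hn, if_pos rfl] at hc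
    have key2 : ∀ x : ZMod 2, 1 + x = 1 → x = 0 := by decide
    have h22 : (2 + 2 : ZMod 4) = 0 := by decide
    have h3 : hh 1 + ∑ q ∈ S, nn q.1 = 0 := by rw [hh_one, hn, h22]
    refine Vc_of fun B hB => ⟨-rh * yX4 4 0 1 q0 S, ?_, RtX_h1 hB ha h0 hS hn (key2 _ hc) c1⟩
    have h4 := v_nuX hB (Or.inl rfl) ha h0 h3 h1
    rw [h5] at h4
    rw [h4, v_neg_rh hB]

/-- `D = 1` modulo `4`, second order -/
theorem Vc_X3 {S : Finset Pg} (hS : S.Nonempty) (hA : ∑ q ∈ S, aa q.1 = 0)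
    (hc : (if ∑ q ∈ S, nn q.1 = 2 then 1 else 0 : ZMod 2) + ∑ q ∈ S, bb q.1 = 0) :
    Vc (nu4 0 S / lm ^ 2) (kapX s4 (fun q => aa q.1)
      (if ∑ q ∈ S, c4 q lam = 1 ∨ ∑ q ∈ S, c4 q lam = 2 then 1 else 0) S ≠ 0) := by
  have hmd : md (∑ q ∈ S, nn q.1) = 0 := by
    rw [map_sum]
    exact hA
  have h5 : ek 0 = 2 := by decide
  have hl := lm_ne
  have e : nu4 0 S / lm ^ 2 = nu4 0 S / lm / lm := by
    rw [div_div, pow_two]
  rw [e]
  obtain ⟨q0, -, h0, ha, h1⟩ := exists_aux hS.ne_empty 0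
  have c1 := tauX_s0 s4 (fun q => aa q.1) q0 (fun p q _ => IndX_s4 p q) hS hA h1
  rw [tauX] at c1
  have c2 : ∀ x : ZMod 2, CZ (nX s4 (fun q => aa q.1) q0) (fun i => aa i.1 + x * s4 q0 i) S =
      kapX s4 (fun q => aa q.1) 0 S + x * kap0 s4 S := by
    intro x
    rw [← kapX_add s4 (fun p q _ => IndX_s4 p q) _ _ hS hA]
    exact tauX_ah s4 (fun q => aa q.1) q0 (fun p q _ => IndX_s4 p q) hS hA h1 x
  have key : ∀ t : ZMod 4, md t = 0 → t = 0 ∨ t = 2 := by decide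
  rcases key _ hmd with hn | hn
  · have h02 : ¬ ((0 : ZMod 4) = 2) := by decide
    rw [hn, if_neg h02, zero_add] at hc
    have h3 : hh 0 + ∑ q ∈ S, nn q.1 = 0 := by rw [hh_zero, hn, zero_add]
    refine Vc_of fun B hB => ⟨yX4 4 0 0 q0 S / lm, ?_, RtX_h0' hB ha h0 hS hA hn hc c1 c2⟩
    have h4 := v_nuX hB (Or.inl rfl) ha h0 h3 h1
    rw [h5] at h4
    rw [map_div₀, h4, map_div₀]
  · rw [hn, if_pos rfl] at hc
    have key2 : ∀ x : ZMod 2, 1 + x = 0 → x = 1 := by decide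
    have h22 : (2 + 2 : ZMod 4) = 0 := by decide
    have h3 : hh 1 + ∑ q ∈ S, nn q.1 = 0 := by rw [hh_one, hn, h22]
    refine Vc_of fun B hB => ⟨-rh * yX4 4 0 1 q0 S / lm, ?_,
      RtX_h1' hB ha h0 hS hA hn (key2 _ hc) c1 c2⟩
    have h4 := v_nuX hB (Or.inl rfl) ha h0 h3 h1
    rw [h5] at h4
    rw [map_div₀, h4, map_div₀, v_neg_rh hB]

end

end Pool.Agent.Lib.MP_1a91b9_ntQ
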